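import Mathlib

/-!
# MP_e0d435_ag: merged library part G01

Concatenation of library files (each in its own section), only to save build time.
-/

/-! ### from `Lib_MP_e0d435_ag.HDefs` -/

section

/-
Definitions for the Poincare inequality (piece H of MP_e0d435_ag).
-/

open Finset MeasureTheory Complex
open scoped ENNReal ContDiff

namespace GPn

section
variable {E : Type*} [NormedAddCommGroup E] [NormedSpace ℂ E]

/-- holomorphic Wirtinger derivative in direction v -/
noncomputable def dz (v : E) (F : E → ℂ) (x : E) : ℂ :=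
  (fderiv ℝ F x v - I * fderiv ℝ F x (I • v)) / 2

/-- antiholomorphic Wirtinger derivative in direction v -/
noncomputable def dzb (v : E) (F : E → ℂ) (x : E) : ℂ :=
  (fderiv ℝ F x v + I * fderiv ℝ F x (I • v)) / 2

/-- formal adjoint of dzb v for the weight exp(-Ps) -/
noncomputable def del (Ps : E → ℝ) (v : E) (F : E → ℂ) (x : E) : ℂ :=
  - dz v F x + dz v (fun y => (Ps y : ℂ)) x * F x

/-- Levi form of Ps at x in direction a (a quarter of the Laplacian of Ps on the complex line) -/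
noncomputable def Lform (Ps : E → ℝ) (x a : E) : ℝ :=
  (fderiv ℝ (fun y => fderiv ℝ Ps y a) x a
    + fderiv ℝ (fun y => fderiv ℝ Ps y (I • a)) x (I • a)) / 4

/-- smooth with compact support -/
def SC (F : E → ℂ) : Prop := ContDiff ℝ ∞ F ∧ HasCompactSupport F

/-- the measure exp(-Ps) mu -/
noncomputable def gm [MeasurableSpace E] (mu : Measure E) (Ps : E → ℝ) : Measure E :=
  mu.withDensity fun x => ENNReal.ofReal (Real.exp (-Ps x))

end

end GPn

end

/-! ### from `Lib_KF.HDefs` -/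

section

/-!
# Hörmander's theorem for a trivial bundle with a Hermitian metric: definitions

`E` is a finite dimensional complex vector space with basis `b`, `W ⊆ E` is open. Sections of the
trivial bundle of rank `D` are families `u : Fin D → E → ℂ`. `dz v`, `dzb v` are the Wirtinger
derivatives of `Lib_MP_e0d435_ag/HDefs.lean`.
-/

open MeasureTheory Complex
open scoped ENNReal ContDiff ComplexConjugate

namespace Pool.Agent.Lib_KF

open GPn

/-- the hermitian form of a matrix: linear in `u`, conjugate linear in `v` -/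
noncomputable def ip {D : ℕ} (H : Fin D → Fin D → ℂ) (u v : Fin D → ℂ) : ℂ :=
  ∑ a, ∑ c, conj (v a) * H a c * u c

/-- smooth with compact support in `W` -/
def SCW {E : Type} [NormedAddCommGroup E] [NormedSpace ℂ E] (W : Set E) (f : E → ℂ) : Prop :=
  ContDiff ℝ ∞ f ∧ HasCompactSupport f ∧ tsupport f ⊆ W

/-- A smooth Hermitian metric `H` on the trivial bundle of rank `D` over `W` with the matrices
`A k = H⁻¹ ∂_k H` of its Chern connection. -/
structure HMet {E : Type} [NormedAddCommGroup E] [NormedSpace ℂ E] (W : Set E) {ι : Type}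
    [Fintype ι] (b : Module.Basis ι ℂ E) (D : ℕ) where
  H : E → Fin D → Fin D → ℂ
  A : ι → E → Fin D → Fin D → ℂ
  smH : ∀ a c, ContDiffOn ℝ ∞ (fun x => H x a c) W
  smA : ∀ k a c, ContDiffOn ℝ ∞ (fun x => A k x a c) W
  herm : ∀ x ∈ W, ∀ a c, H x a c = conj (H x c a)
  pos : ∀ x ∈ W, ∀ u : Fin D → ℂ, u ≠ 0 → 0 < (ip (H x) u u).re
  chern : ∀ k a c, ∀ x ∈ W, dz (b k) (fun y => H y a c) x = ∑ e, H x a e * A k x e c

namespace HMet

variable {E : Type} [NormedAddCommGroup E] [NormedSpace ℂ E] {W : Set E} {ι : Type} [Fintype ι]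
  {b : Module.Basis ι ℂ E} {D : ℕ} (M : HMet W b D)

/-- `|u|_H ^ 2` at `x` -/
noncomputable def nsq (x : E) (u : Fin D → ℂ) : ℝ := (ip (M.H x) u u).re

/-- the Chern connection `δ_k u = ∂_k u + A_k u` -/
noncomputable def ch (k : ι) (u : Fin D → E → ℂ) (x : E) (a : Fin D) : ℂ :=
  dz (b k) (u a) x + ∑ c, M.A k x a c * u c x

/-- the curvature form `∑ ⟨Θ_{jk} f_j, f_k⟩`, `Θ_{jk} = - ∂bar_k A_j` -/
noncomputable def curv (x : E) (f : ι → Fin D → ℂ) : ℝ :=
  (∑ j, ∑ k, ip (M.H x) (fun a => - ∑ c, dzb (b k) (fun y => M.A j y a c) x * f j c) (f k)).re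

end HMet

/-- `∑_{jk} χ_{j kbar} ⟨f_j, f_k⟩` -/
noncomputable def levH {E : Type} [NormedAddCommGroup E] [NormedSpace ℂ E] {ι : Type} [Fintype ι]
    (b : Module.Basis ι ℂ E) {D : ℕ} (H : Fin D → Fin D → ℂ) (χ : E → ℝ) (x : E)
    (f : ι → Fin D → ℂ) : ℝ :=
  (∑ j, ∑ k, dzb (b k) (dz (b j) (fun y => (χ y : ℂ))) x * ip H (f j) (f k)).re

/-- `∑_k |∂_k χ| ^ 2` -/
noncomputable def gradsq {E : Type} [NormedAddCommGroup E] [NormedSpace ℂ E] {ι : Type} [Fintype ι]
    (b : Module.Basis ι ℂ E) (χ : E → ℝ) (x : E) : ℝ :=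
  ∑ k, ‖dz (b k) (fun y => (χ y : ℂ)) x‖ ^ 2

end Pool.Agent.Lib_KF

end

/-! ### from `Lib_KF.HTwist` -/

section

/-! H01: twisting a Hermitian metric by `exp (-χ)`. -/

open MeasureTheory Complex
open scoped ENNReal ContDiff ComplexConjugate

namespace Pool.Agent.Lib_KF

open GPn

section HTwist_aux

variable {E : Type} [NormedAddCommGroup E] [NormedSpace ℂ E] {W : Set E}

private lemma HTwist_fd (hW : IsOpen W) {F : E → ℂ} (hF : ContDiffOn ℝ ∞ F W) (v : E) :
    ContDiffOn ℝ ∞ (fun x => fderiv ℝ F x v) W := by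
  have h : ContDiffOn ℝ ∞ (fderiv ℝ F) W := hF.fderiv_of_isOpen hW (by simp)
  exact h.clm_apply contDiffOn_const

private lemma HTwist_dz (hW : IsOpen W) {F : E → ℂ} (hF : ContDiffOn ℝ ∞ F W) (v : E) :
    ContDiffOn ℝ ∞ (dz v F) W := by
  have h1 := HTwist_fd hW hF v
  have h2 := HTwist_fd hW hF (I • v)
  have : dz v F = fun x => (fderiv ℝ F x v - I * fderiv ℝ F x (I • v)) / 2 := rfl
  rw [this]
  exact (h1.sub (contDiffOn_const.mul h2)).div_const 2

private lemma HTwist_re {χ : E → ℝ} (hχ : ContDiffOn ℝ ∞ χ W) :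
    ContDiffOn ℝ ∞ (fun x => (χ x : ℂ)) W :=
  Complex.ofRealCLM.contDiff.comp_contDiffOn hχ

private lemma HTwist_da {F : E → ℂ} (hW : IsOpen W) (hF : ContDiffOn ℝ ∞ F W) {x : E}
    (hx : x ∈ W) : DifferentiableAt ℝ F x :=
  (hF.contDiffAt (hW.mem_nhds hx)).differentiableAt (by simp)

private lemma HTwist_dar {F : E → ℝ} (hW : IsOpen W) (hF : ContDiffOn ℝ ∞ F W) {x : E}
    (hx : x ∈ W) : DifferentiableAt ℝ F x :=
  (hF.contDiffAt (hW.mem_nhds hx)).differentiableAt (by simp)

private lemma HTwist_dz_mul {F G : E → ℂ} {x : E} (hF : DifferentiableAt ℝ F x)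
    (hG : DifferentiableAt ℝ G x) (v : E) :
    dz v (fun y => F y * G y) x = dz v F x * G x + F x * dz v G x := by
  have h := fderiv_fun_mul hF hG
  simp only [dz, h, add_apply, smul_apply, smul_eq_mul]
  ring

private lemma HTwist_dzb_sub {F G : E → ℂ} {x : E} (hF : DifferentiableAt ℝ F x)
    (hG : DifferentiableAt ℝ G x) (v : E) :
    dzb v (fun y => F y - G y) x = dzb v F x - dzb v G x := by
  have h := fderiv_fun_sub hF hG
  simp only [dzb, h, sub_apply]
  ring

/-- the derivative of the real function `exp (-χ)`, seen as a complex function -/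
private lemma HTwist_exp {χ : E → ℝ} {x : E} (hχ : DifferentiableAt ℝ χ x) (v : E) :
    fderiv ℝ (fun y => (Real.exp (-χ y) : ℂ)) x v =
      -(Real.exp (-χ x) : ℂ) * fderiv ℝ (fun y => (χ y : ℂ)) x v := by
  have h1 : HasFDerivAt (fun y => (χ y : ℂ)) (Complex.ofRealCLM.comp (fderiv ℝ χ x)) x :=
    Complex.ofRealCLM.hasFDerivAt.comp x hχ.hasFDerivAt
  have h2 : HasFDerivAt (fun y => Real.exp (-χ y)) (Real.exp (-χ x) • (-(fderiv ℝ χ x))) x :=
    hχ.hasFDerivAt.neg.exp
  have h3 : HasFDerivAt (fun y => (Real.exp (-χ y) : ℂ))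
      (Complex.ofRealCLM.comp (Real.exp (-χ x) • (-(fderiv ℝ χ x)))) x :=
    Complex.ofRealCLM.hasFDerivAt.comp x h2
  rw [h1.fderiv, h3.fderiv]
  simp

private lemma HTwist_dz_exp {χ : E → ℝ} {x : E} (hχ : DifferentiableAt ℝ χ x) (v : E) :
    dz v (fun y => (Real.exp (-χ y) : ℂ)) x =
      -(Real.exp (-χ x) : ℂ) * dz v (fun y => (χ y : ℂ)) x := by
  simp only [dz, HTwist_exp hχ]
  ring

private lemma HTwist_expda {χ : E → ℝ} {x : E} (hχ : DifferentiableAt ℝ χ x) :
    DifferentiableAt ℝ (fun y => (Real.exp (-χ y) : ℂ)) x :=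
  (Complex.ofRealCLM.hasFDerivAt.comp x hχ.hasFDerivAt.neg.exp).differentiableAt

variable {D : ℕ}

private lemma HTwist_ip_smul (t : ℂ) (H : Fin D → Fin D → ℂ) (u v : Fin D → ℂ) :
    ip (fun a c => t * H a c) u v = t * ip H u v := by
  simp only [ip, Finset.mul_sum]
  exact Finset.sum_congr rfl fun a _ => Finset.sum_congr rfl fun c _ => by ring

private lemma HTwist_ip_add_smul (H : Fin D → Fin D → ℂ) (t : ℂ) (u u' v : Fin D → ℂ) :
    ip H (fun a => u a + t * u' a) v = ip H u v + t * ip H u' v := by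
  simp only [ip, Finset.mul_sum, ← Finset.sum_add_distrib]
  exact Finset.sum_congr rfl fun a _ => Finset.sum_congr rfl fun c _ => by ring

end HTwist_aux

namespace HMet

variable {E : Type} [NormedAddCommGroup E] [NormedSpace ℂ E] {W : Set E} {ι : Type} [Fintype ι]
  {b : Module.Basis ι ℂ E} {D : ℕ}

/-- The metric `exp (-χ) H`. -/
noncomputable def twist (M : HMet W b D) (hW : IsOpen W) (χ : E → ℝ) (hχ : ContDiffOn ℝ ∞ χ W) :
    HMet W b D where
  H := fun x a c => (Real.exp (-χ x) : ℂ) * M.H x a c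
  A := fun k x a c => M.A k x a c - if a = c then dz (b k) (fun y => (χ y : ℂ)) x else 0
  smH := by
    intro a c
    have h1 : ContDiffOn ℝ ∞ (fun x => Real.exp (-χ x)) W := hχ.neg.exp
    exact (HTwist_re h1).mul (M.smH a c)
  smA := by
    intro k a c
    have h1 : ContDiffOn ℝ ∞ (dz (b k) (fun y => (χ y : ℂ))) W := HTwist_dz hW (HTwist_re hχ) (b k)
    by_cases h : a = c
    · simp only [h, if_true]
      exact (M.smA k c c).sub h1
    · simp only [h, if_false, sub_zero]
      exact M.smA k a c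
  herm := by
    intro x hx a c
    simp only [map_mul, conj_ofReal]
    rw [M.herm x hx a c]
  pos := by
    intro x hx u hu
    have h := M.pos x hx u hu
    rw [HTwist_ip_smul, re_ofReal_mul]
    exact mul_pos (Real.exp_pos _) h
  chern := by
    intro k a c x hx
    have hd : DifferentiableAt ℝ χ x := HTwist_dar hW hχ hx
    rw [HTwist_dz_mul (HTwist_expda hd) (HTwist_da hW (M.smH a c) hx), HTwist_dz_exp hd,
      M.chern k a c x hx]
    simp only [mul_sub, Finset.sum_sub_distrib, mul_ite, mul_zero, Finset.sum_ite_eq',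
      Finset.mem_univ, if_true]
    rw [Finset.mul_sum]
    simp only [mul_assoc]
    ring

variable (M : HMet W b D) (hW : IsOpen W) (χ : E → ℝ) (hχ : ContDiffOn ℝ ∞ χ W)

theorem nsq_twist (x : E) (u : Fin D → ℂ) :
    (M.twist hW χ hχ).nsq x u = Real.exp (-χ x) * M.nsq x u := by
  change (ip (fun a c => (Real.exp (-χ x) : ℂ) * M.H x a c) u u).re = _
  rw [HTwist_ip_smul, re_ofReal_mul]
  rfl

theorem ch_twist (k : ι) (u : Fin D → E → ℂ) (x : E) (a : Fin D) :
    (M.twist hW χ hχ).ch k u x a =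
      M.ch k u x a - dz (b k) (fun y => (χ y : ℂ)) x * u a x := by
  change dz (b k) (u a) x + ∑ c, (M.A k x a c - if a = c then dz (b k) (fun y => (χ y : ℂ)) x
    else 0) * u c x = dz (b k) (u a) x + ∑ c, M.A k x a c * u c x - _
  simp only [sub_mul, Finset.sum_sub_distrib, ite_mul, zero_mul, Finset.sum_ite_eq,
    Finset.mem_univ, if_true]
  ring

theorem curv_twist (x : E) (hx : x ∈ W) (f : ι → Fin D → ℂ) :
    (M.twist hW χ hχ).curv x f =
      Real.exp (-χ x) * (M.curv x f + levH b (M.H x) χ x f) := by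
  have hA : ∀ (j k : ι) (a c : Fin D),
      dzb (b k) (fun y => M.A j y a c - if a = c then dz (b j) (fun y => (χ y : ℂ)) y else 0) x =
        dzb (b k) (fun y => M.A j y a c) x -
          if a = c then dzb (b k) (dz (b j) (fun y => (χ y : ℂ))) x else 0 := by
    intro j k a c
    by_cases h : a = c
    · simp only [h, if_true]
      exact HTwist_dzb_sub (HTwist_da hW (M.smA j c c) hx)
        (HTwist_da hW (HTwist_dz hW (HTwist_re hχ) (b j)) hx) (b k)
    · simp only [h, if_false, sub_zero]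
  have hs : ∀ j k : ι,
      ip (fun a c => (Real.exp (-χ x) : ℂ) * M.H x a c)
        (fun a => - ∑ c, dzb (b k) (fun y => M.A j y a c -
          if a = c then dz (b j) (fun y => (χ y : ℂ)) y else 0) x * f j c) (f k) =
      (Real.exp (-χ x) : ℂ) *
        (ip (M.H x) (fun a => - ∑ c, dzb (b k) (fun y => M.A j y a c) x * f j c) (f k) +
          dzb (b k) (dz (b j) (fun y => (χ y : ℂ))) x * ip (M.H x) (f j) (f k)) := by
    intro j k
    rw [HTwist_ip_smul, ← HTwist_ip_add_smul]
    congr 2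
    funext a
    simp only [hA, sub_mul, Finset.sum_sub_distrib, ite_mul, zero_mul, Finset.sum_ite_eq,
      Finset.mem_univ, if_true]
    ring
  change (∑ j, ∑ k, ip (fun a c => (Real.exp (-χ x) : ℂ) * M.H x a c)
        (fun a => - ∑ c, dzb (b k) (fun y => M.A j y a c -
          if a = c then dz (b j) (fun y => (χ y : ℂ)) y else 0) x * f j c) (f k)).re = _
  simp only [hs, ← Finset.mul_sum, Finset.sum_add_distrib]
  rw [re_ofReal_mul, add_re]
  rfl

end HMet

end Pool.Agent.Lib_KF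

end

/-! ### from `Lib_KF.HIbp` -/

section

/-! H02: integration by parts; `- ∂bar_k` is the adjoint of the Chern connection. -/

open MeasureTheory Complex
open scoped ENNReal ContDiff ComplexConjugate

namespace Pool.Agent.Lib_KF

open GPn

section HIbp_calc

variable {E : Type} [NormedAddCommGroup E] [NormedSpace ℂ E] {W : Set E}

private lemma HIbp_fd {F : E → ℂ} (hW : IsOpen W) (hF : ContDiffOn ℝ ∞ F W) (v : E) :
    ContDiffOn ℝ ∞ (fun x => fderiv ℝ F x v) W := by
  have h : ContDiffOn ℝ ∞ (fderiv ℝ F) W := hF.fderiv_of_isOpen hW (by simp)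
  exact h.clm_apply contDiffOn_const

private lemma HIbp_dz {F : E → ℂ} (hW : IsOpen W) (hF : ContDiffOn ℝ ∞ F W) (v : E) :
    ContDiffOn ℝ ∞ (dz v F) W := by
  have h1 := HIbp_fd hW hF v
  have h2 := HIbp_fd hW hF (I • v)
  have : dz v F = fun x => (fderiv ℝ F x v - I * fderiv ℝ F x (I • v)) / 2 := rfl
  rw [this]
  exact (h1.sub (contDiffOn_const.mul h2)).div_const 2

private lemma HIbp_dzb {F : E → ℂ} (hW : IsOpen W) (hF : ContDiffOn ℝ ∞ F W) (v : E) :
    ContDiffOn ℝ ∞ (dzb v F) W := by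
  have h1 := HIbp_fd hW hF v
  have h2 := HIbp_fd hW hF (I • v)
  have : dzb v F = fun x => (fderiv ℝ F x v + I * fderiv ℝ F x (I • v)) / 2 := rfl
  rw [this]
  exact (h1.add (contDiffOn_const.mul h2)).div_const 2

private lemma HIbp_da {F : E → ℂ} (hW : IsOpen W) (hF : ContDiffOn ℝ ∞ F W) {x : E}
    (hx : x ∈ W) : DifferentiableAt ℝ F x :=
  (hF.contDiffAt (hW.mem_nhds hx)).differentiableAt (by simp)

private lemma HIbp_dzb_mul {F G : E → ℂ} {x : E} (hF : DifferentiableAt ℝ F x)
    (hG : DifferentiableAt ℝ G x) (v : E) :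
    dzb v (fun y => F y * G y) x = dzb v F x * G x + F x * dzb v G x := by
  have h := fderiv_fun_mul hF hG
  simp only [dzb, h, add_apply, smul_apply, smul_eq_mul]
  ring

private lemma HIbp_dzb_add {F G : E → ℂ} {x : E} (hF : DifferentiableAt ℝ F x)
    (hG : DifferentiableAt ℝ G x) (v : E) :
    dzb v (fun y => F y + G y) x = dzb v F x + dzb v G x := by
  have h := fderiv_fun_add hF hG
  simp only [dzb, h, add_apply]
  ring

private lemma HIbp_dzb_sum {κ : Type*} (s : Finset κ) {F : κ → E → ℂ} {x : E}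
    (hF : ∀ i, DifferentiableAt ℝ (F i) x) (v : E) :
    dzb v (fun y => ∑ i ∈ s, F i y) x = ∑ i ∈ s, dzb v (F i) x := by
  classical
  induction s using Finset.induction_on with
  | empty => simp [dzb]
  | insert i s hi ih =>
    simp only [Finset.sum_insert hi]
    rw [HIbp_dzb_add (hF i) (DifferentiableAt.fun_sum fun i _ => hF i), ih]

private lemma HIbp_conj_da {F : E → ℂ} {x : E} (hF : DifferentiableAt ℝ F x) :
    DifferentiableAt ℝ (fun y => conj (F y)) x :=
  Complex.conjCLE.toContinuousLinearMap.differentiableAt.comp x hF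

private lemma HIbp_conj_fd {F : E → ℂ} {x : E} (hF : DifferentiableAt ℝ F x) (w : E) :
    fderiv ℝ (fun y => conj (F y)) x w = conj (fderiv ℝ F x w) := by
  have h2 := (Complex.conjCLE.toContinuousLinearMap.hasFDerivAt (x := F x)).comp x
    hF.hasFDerivAt
  have h3 : HasFDerivAt (fun y => conj (F y))
    (Complex.conjCLE.toContinuousLinearMap.comp (fderiv ℝ F x)) x := h2
  rw [h3.fderiv]
  simp

private lemma HIbp_dzb_conj {F : E → ℂ} {x : E} (hF : DifferentiableAt ℝ F x) (v : E) :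
    dzb v (fun y => conj (F y)) x = conj (dz v F x) := by
  simp only [dzb, dz, HIbp_conj_fd hF, map_div₀, map_sub, map_mul, conj_I,
    map_ofNat (starRingEnd ℂ) 2]
  ring

private lemma HIbp_dzb_congr {F G : E → ℂ} {x : E} (h : F =ᶠ[nhds x] G) (v : E) :
    dzb v F x = dzb v G x := by
  simp only [dzb, h.fderiv_eq]

private lemma HIbp_glue (hW : IsOpen W) {K : Set E} (hK : IsClosed K) (hKW : K ⊆ W)
    {F : E → ℂ} (hF : ContDiffOn ℝ ∞ F W) (h0 : ∀ x, x ∉ K → F x = 0) : ContDiff ℝ ∞ F := by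
  rw [contDiff_iff_contDiffAt]
  intro x
  by_cases hx : x ∈ K
  · exact hF.contDiffAt (hW.mem_nhds (hKW hx))
  · have h1 : F =ᶠ[nhds x] fun _ => 0 := by
      filter_upwards [hK.isOpen_compl.mem_nhds hx] with y hy
      exact h0 y hy
    exact (contDiffAt_const (c := (0 : ℂ))).congr_of_eventuallyEq h1

end HIbp_calc

variable {E : Type} [NormedAddCommGroup E] [NormedSpace ℂ E] [FiniteDimensional ℂ E]
  [MeasurableSpace E] [BorelSpace E] {W : Set E} {ι : Type} [Fintype ι]
  {b : Module.Basis ι ℂ E} {D : ℕ}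

/-- Product rule for the hermitian form. -/
theorem HMet.dzb_ip (M : HMet W b D) (hW : IsOpen W) (k : ι) (u f : Fin D → E → ℂ)
    (hu : ∀ a, ContDiffOn ℝ ∞ (u a) W) (hf : ∀ a, ContDiffOn ℝ ∞ (f a) W) (x : E) (hx : x ∈ W) :
    dzb (b k) (fun y => ip (M.H y) (fun a => u a y) (fun a => f a y)) x =
      ip (M.H x) (fun a => dzb (b k) (u a) x) (fun a => f a x) +
      ip (M.H x) (fun a => u a x) (M.ch k f x) := by
  have hu' : ∀ a, DifferentiableAt ℝ (u a) x := fun a => HIbp_da hW (hu a) hx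
  have hf' : ∀ a, DifferentiableAt ℝ (f a) x := fun a => HIbp_da hW (hf a) hx
  have hH' : ∀ a c, DifferentiableAt ℝ (fun y => M.H y a c) x := fun a c =>
    HIbp_da hW (M.smH a c) hx
  have hc' : ∀ a, DifferentiableAt ℝ (fun y => conj (f a y)) x := fun a => HIbp_conj_da (hf' a)
  have h1 : ∀ a c, DifferentiableAt ℝ (fun y => conj (f a y) * M.H y a c) x := fun a c =>
    (hc' a).mul (hH' a c)
  have h2 : ∀ a c, DifferentiableAt ℝ (fun y => conj (f a y) * M.H y a c * u c y) x :=
    fun a c => (h1 a c).mul (hu' c)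
  have h3 : ∀ a, DifferentiableAt ℝ (fun y => ∑ c, conj (f a y) * M.H y a c * u c y) x :=
    fun a => DifferentiableAt.fun_sum fun c _ => h2 a c
  have hdH : ∀ a c, dzb (b k) (fun y => M.H y a c) x =
      ∑ e, M.H x e c * conj (M.A k x e a) := by
    intro a c
    have hev : (fun y => M.H y a c) =ᶠ[nhds x] fun y => conj (M.H y c a) := by
      filter_upwards [hW.mem_nhds hx] with y hy
      exact M.herm y hy a c
    rw [HIbp_dzb_congr hev, HIbp_dzb_conj (hH' c a), M.chern k c a x hx, map_sum]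
    refine Finset.sum_congr rfl fun e _ => ?_
    rw [map_mul, ← M.herm x hx e c]
  simp only [ip]
  rw [HIbp_dzb_sum _ h3]
  have h4 : ∀ a, dzb (b k) (fun y => ∑ c, conj (f a y) * M.H y a c * u c y) x =
      ∑ c, (conj (dz (b k) (f a) x) * M.H x a c * u c x +
        conj (f a x) * (∑ e, M.H x e c * conj (M.A k x e a)) * u c x +
        conj (f a x) * M.H x a c * dzb (b k) (u c) x) := by
    intro a
    rw [HIbp_dzb_sum _ (h2 a)]
    refine Finset.sum_congr rfl fun c _ => ?_
    rw [HIbp_dzb_mul (h1 a c) (hu' c), HIbp_dzb_mul (hc' a) (hH' a c), HIbp_dzb_conj (hf' a),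
      hdH a c]
    ring
  rw [Finset.sum_congr rfl fun a _ => h4 a]
  have h5 : ∑ a, ∑ c, conj (f a x) * (∑ e, M.H x e c * conj (M.A k x e a)) * u c x =
      ∑ a, ∑ c, conj (∑ e, M.A k x a e * f e x) * M.H x a c * u c x := by
    simp only [map_sum, map_mul, Finset.mul_sum, Finset.sum_mul]
    rw [Finset.sum_comm]
    rw [Finset.sum_comm (f := fun a c => ∑ e, conj (M.A k x a e) * conj (f e x) *
      M.H x a c * u c x)]
    refine Finset.sum_congr rfl fun c _ => ?_
    rw [Finset.sum_comm]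
    refine Finset.sum_congr rfl fun a _ => Finset.sum_congr rfl fun e _ => ?_
    ring
  simp only [HMet.ch, map_add, add_mul, Finset.sum_add_distrib]
  rw [h5]
  ring

private lemma HIbp_smooth (M : HMet W b D) {p q : Fin D → E → ℂ}
    (hp : ∀ a, ContDiffOn ℝ ∞ (p a) W) (hq : ∀ a, ContDiffOn ℝ ∞ (q a) W) :
    ContDiffOn ℝ ∞ (fun x => ip (M.H x) (fun a => p a x) (fun a => q a x)) W := by
  simp only [ip]
  refine ContDiffOn.sum fun a _ => ContDiffOn.sum fun c _ => ?_
  refine ((?_ : ContDiffOn ℝ ∞ (fun x => conj (q a x)) W).mul (M.smH a c)).mul (hp c)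
  exact Complex.conjCLE.contDiff.comp_contDiffOn (hq a)

private lemma HIbp_ch_smooth (M : HMet W b D) (hW : IsOpen W) (k : ι) {u : Fin D → E → ℂ}
    (hu : ∀ a, ContDiffOn ℝ ∞ (u a) W) (a : Fin D) :
    ContDiffOn ℝ ∞ (fun x => M.ch k u x a) W := by
  have e : (fun x => M.ch k u x a) =
      fun y => dz (b k) (u a) y + ∑ c, M.A k y a c * u c y := rfl
  rw [e]
  exact (HIbp_dz hW (hu a) (b k)).add (ContDiffOn.sum fun c _ => (M.smA k a c).mul (hu c))

private lemma HIbp_zero (μ : Measure E) [μ.IsAddHaarMeasure] {g : E → ℂ}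
    (hg : ContDiff ℝ ∞ g) {K : Set E} (hK : IsCompact K) (h0 : ∀ x, x ∉ K → g x = 0) (a : E) :
    ∫ x, dzb a g x ∂μ = 0 := by
  have : FiniteDimensional ℝ E := FiniteDimensional.complexToReal E
  have : ProperSpace E := FiniteDimensional.proper ℝ E
  have hgc : HasCompactSupport g := HasCompactSupport.intro hK h0
  have hfc : ∀ v : E, Continuous fun x => fderiv ℝ g x v := fun v =>
    ((hg.fderiv_right (m := ∞) (by simp)).clm_apply contDiff_const).continuous
  have hfi : ∀ v : E, Integrable (fun x => fderiv ℝ g x v) μ := fun v =>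
    (hfc v).integrable_of_hasCompactSupport (hgc.fderiv_apply ℝ v)
  have key : ∀ v : E, ∫ x, fderiv ℝ g x v ∂μ = 0 := by
    intro v
    have h := integral_mul_fderiv_eq_neg_fderiv_mul_of_integrable (μ := μ) (v := v)
      (f := fun _ : E => (1 : ℂ)) (g := g) (by simp) (by simpa using hfi v)
      (by simpa using hg.continuous.integrable_of_hasCompactSupport hgc)
      (fun x _ => differentiableAt_const _) (fun x _ => hg.contDiffAt.differentiableAt (by simp))
    simpa using h
  have e1 : ∫ x, dzb a g x ∂μ =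
      (∫ x, fderiv ℝ g x a ∂μ) * 2⁻¹ + (∫ x, fderiv ℝ g x (I • a) ∂μ) * (I * 2⁻¹) := by
    rw [← integral_mul_const, ← integral_mul_const, ← integral_add ((hfi a).mul_const _)
      ((hfi (I • a)).mul_const _)]
    refine integral_congr_ae (Filter.Eventually.of_forall fun x => ?_)
    simp only [dzb]
    ring
  rw [e1, key, key]
  simp

private lemma HIbp_core (M : HMet W b D) (hW : IsOpen W) (μ : Measure E) [μ.IsAddHaarMeasure]
    (k : ι) {K : Set E} (hK : IsCompact K) (hKW : K ⊆ W)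
    (p q : Fin D → E → ℂ) (hp : ∀ a, ContDiffOn ℝ ∞ (p a) W) (hq : ∀ a, ContDiffOn ℝ ∞ (q a) W)
    (h0 : ∀ x, x ∉ K → ip (M.H x) (fun a => p a x) (fun a => q a x) = 0)
    (h1 : ∀ x, x ∉ K → ip (M.H x) (fun a => dzb (b k) (p a) x) (fun a => q a x) = 0)
    (h2 : ∀ x, x ∉ K → ip (M.H x) (fun a => p a x) (M.ch k q x) = 0) :
    ∫ x, ip (M.H x) (fun a => p a x) (M.ch k q x) ∂μ =
      - ∫ x, ip (M.H x) (fun a => dzb (b k) (p a) x) (fun a => q a x) ∂μ := by
  have : FiniteDimensional ℝ E := FiniteDimensional.complexToReal E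
  have : ProperSpace E := FiniteDimensional.proper ℝ E
  have hg : ContDiff ℝ ∞ (fun x => ip (M.H x) (fun a => p a x) (fun a => q a x)) :=
    HIbp_glue hW hK.isClosed hKW (HIbp_smooth M hp hq) h0
  have hg1 : ContDiff ℝ ∞ (fun x => ip (M.H x) (fun a => dzb (b k) (p a) x) (fun a => q a x)) :=
    HIbp_glue hW hK.isClosed hKW (HIbp_smooth M (fun a => HIbp_dzb hW (hp a) (b k)) hq) h1
  have hg2 : ContDiff ℝ ∞ (fun x => ip (M.H x) (fun a => p a x) (M.ch k q x)) :=
    HIbp_glue hW hK.isClosed hKW (HIbp_smooth M hp (HIbp_ch_smooth M hW k hq)) h2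
  have i1 := hg1.continuous.integrable_of_hasCompactSupport (μ := μ) (HasCompactSupport.intro hK h1)
  have i2 := hg2.continuous.integrable_of_hasCompactSupport (μ := μ) (HasCompactSupport.intro hK h2)
  have hz := HIbp_zero μ hg hK h0 (b k)
  have hs : ∫ x, dzb (b k) (fun x => ip (M.H x) (fun a => p a x) (fun a => q a x)) x ∂μ =
      ∫ x, ip (M.H x) (fun a => dzb (b k) (p a) x) (fun a => q a x) ∂μ +
      ∫ x, ip (M.H x) (fun a => p a x) (M.ch k q x) ∂μ := by
    rw [← integral_add i1 i2]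
    refine integral_congr_ae (Filter.Eventually.of_forall fun x => ?_)
    by_cases hx : x ∈ K
    · exact M.dzb_ip hW k p q hp hq x (hKW hx)
    · have hev : (fun x => ip (M.H x) (fun a => p a x) (fun a => q a x)) =ᶠ[nhds x]
          fun _ => (0 : ℂ) := by
        filter_upwards [hK.isClosed.isOpen_compl.mem_nhds hx] with y hy
        exact h0 y hy
      simp only [h1 x hx, h2 x hx, add_zero]
      rw [HIbp_dzb_congr hev]
      simp [dzb]
  rw [hz] at hs
  exact eq_neg_of_add_eq_zero_right hs.symm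

theorem HMet.ibp (M : HMet W b D) (hW : IsOpen W) (μ : Measure E) [μ.IsAddHaarMeasure] (k : ι)
    (u f : Fin D → E → ℂ) (hu : ∀ a, ContDiffOn ℝ ∞ (u a) W) (hf : ∀ a, SCW W (f a)) :
    ∫ x, ip (M.H x) (fun a => u a x) (M.ch k f x) ∂μ =
      - ∫ x, ip (M.H x) (fun a => dzb (b k) (u a) x) (fun a => f a x) ∂μ := by
  set K : Set E := ⋃ a, tsupport (f a) with hKdef
  have hK : IsCompact K := isCompact_iUnion fun a => (hf a).2.1
  have hKW : K ⊆ W := Set.iUnion_subset fun a => (hf a).2.2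
  have hns : ∀ x, x ∉ K → ∀ a, x ∉ tsupport (f a) := fun x hx a h =>
    hx (Set.mem_iUnion.2 ⟨a, h⟩)
  have hf0 : ∀ x, x ∉ K → ∀ a, f a x = 0 := fun x hx a =>
    image_eq_zero_of_notMem_tsupport (hns x hx a)
  have hfd0 : ∀ x, x ∉ K → ∀ a, fderiv ℝ (f a) x = 0 := fun x hx a =>
    fderiv_of_notMem_tsupport ℝ (hns x hx a)
  refine HIbp_core M hW μ k hK hKW u f hu (fun a => (hf a).1.contDiffOn) ?_ ?_ ?_
  · intro x hx
    simp [ip, hf0 x hx]
  · intro x hx
    simp [ip, hf0 x hx]
  · intro x hx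
    simp [ip, HMet.ch, dz, hf0 x hx, hfd0 x hx]

/-- The same with the compactly supported factor first. -/
theorem HMet.ibp' (M : HMet W b D) (hW : IsOpen W) (μ : Measure E) [μ.IsAddHaarMeasure] (k : ι)
    (u f : Fin D → E → ℂ) (hu : ∀ a, ContDiffOn ℝ ∞ (u a) W) (hf : ∀ a, SCW W (f a)) :
    ∫ x, ip (M.H x) (fun a => f a x) (M.ch k u x) ∂μ =
      - ∫ x, ip (M.H x) (fun a => dzb (b k) (f a) x) (fun a => u a x) ∂μ := by
  set K : Set E := ⋃ a, tsupport (f a) with hKdef
  have hK : IsCompact K := isCompact_iUnion fun a => (hf a).2.1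
  have hKW : K ⊆ W := Set.iUnion_subset fun a => (hf a).2.2
  have hns : ∀ x, x ∉ K → ∀ a, x ∉ tsupport (f a) := fun x hx a h =>
    hx (Set.mem_iUnion.2 ⟨a, h⟩)
  have hf0 : ∀ x, x ∉ K → ∀ a, f a x = 0 := fun x hx a =>
    image_eq_zero_of_notMem_tsupport (hns x hx a)
  have hfd0 : ∀ x, x ∉ K → ∀ a, fderiv ℝ (f a) x = 0 := fun x hx a =>
    fderiv_of_notMem_tsupport ℝ (hns x hx a)
  refine HIbp_core M hW μ k hK hKW f u (fun a => (hf a).1.contDiffOn) hu ?_ ?_ ?_
  · intro x hx
    simp [ip, hf0 x hx]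
  · intro x hx
    simp [ip, dzb, hfd0 x hx]
  · intro x hx
    simp [ip, hf0 x hx]

end Pool.Agent.Lib_KF

end

/-! ### from `Lib_KF.HBoch` -/

section

/-! H03: the Bochner-Kodaira inequality for compactly supported forms. -/

open MeasureTheory Complex
open scoped ENNReal ContDiff ComplexConjugate

namespace Pool.Agent.Lib_KF

open GPn

section hbo_calc

variable {E : Type} [NormedAddCommGroup E] [NormedSpace ℂ E] {W : Set E}

private lemma hbo_fd {F : E → ℂ} (hW : IsOpen W) (hF : ContDiffOn ℝ ∞ F W) (v : E) :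
    ContDiffOn ℝ ∞ (fun x => fderiv ℝ F x v) W := by
  have h : ContDiffOn ℝ ∞ (fderiv ℝ F) W := hF.fderiv_of_isOpen hW (by simp)
  exact h.clm_apply contDiffOn_const

private lemma hbo_dz {F : E → ℂ} (hW : IsOpen W) (hF : ContDiffOn ℝ ∞ F W) (v : E) :
    ContDiffOn ℝ ∞ (dz v F) W := by
  have h1 := hbo_fd hW hF v
  have h2 := hbo_fd hW hF (I • v)
  have : dz v F = fun x => (fderiv ℝ F x v - I * fderiv ℝ F x (I • v)) / 2 := rfl
  rw [this]
  exact (h1.sub (contDiffOn_const.mul h2)).div_const 2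

private lemma hbo_dzb {F : E → ℂ} (hW : IsOpen W) (hF : ContDiffOn ℝ ∞ F W) (v : E) :
    ContDiffOn ℝ ∞ (dzb v F) W := by
  have h1 := hbo_fd hW hF v
  have h2 := hbo_fd hW hF (I • v)
  have : dzb v F = fun x => (fderiv ℝ F x v + I * fderiv ℝ F x (I • v)) / 2 := rfl
  rw [this]
  exact (h1.add (contDiffOn_const.mul h2)).div_const 2

private lemma hbo_da {F : E → ℂ} (hW : IsOpen W) (hF : ContDiffOn ℝ ∞ F W) {x : E} (hx : x ∈ W) :
    DifferentiableAt ℝ F x :=
  (hF.contDiffAt (hW.mem_nhds hx)).differentiableAt (by simp)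

private lemma hbo_dzb_mul {F G : E → ℂ} {x : E} (hF : DifferentiableAt ℝ F x)
    (hG : DifferentiableAt ℝ G x) (v : E) :
    dzb v (fun y => F y * G y) x = dzb v F x * G x + F x * dzb v G x := by
  have h := fderiv_fun_mul hF hG
  simp only [dzb, h, add_apply, smul_apply, smul_eq_mul]
  ring

private lemma hbo_dzb_add {F G : E → ℂ} {x : E} (hF : DifferentiableAt ℝ F x)
    (hG : DifferentiableAt ℝ G x) (v : E) :
    dzb v (fun y => F y + G y) x = dzb v F x + dzb v G x := by
  have h := fderiv_fun_add hF hG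
  simp only [dzb, h, add_apply]
  ring

private lemma hbo_dzb_sum {κ : Type*} (s : Finset κ) {F : κ → E → ℂ} {x : E}
    (hF : ∀ i, DifferentiableAt ℝ (F i) x) (v : E) :
    dzb v (fun y => ∑ i ∈ s, F i y) x = ∑ i ∈ s, dzb v (F i) x := by
  classical
  induction s using Finset.induction_on with
  | empty => simp [dzb]
  | insert i s hi ih =>
    simp only [Finset.sum_insert hi]
    rw [hbo_dzb_add (hF i) (DifferentiableAt.fun_sum fun i _ => hF i), ih]

private lemma hbo_d1 {F : E → ℂ} (hW : IsOpen W) (hF : ContDiffOn ℝ ∞ F W) {x : E} (hx : x ∈ W) :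
    DifferentiableAt ℝ (fderiv ℝ F) x := by
  have h : ContDiffOn ℝ ∞ (fderiv ℝ F) W := hF.fderiv_of_isOpen hW (by simp)
  exact (h.contDiffAt (hW.mem_nhds hx)).differentiableAt (by simp)

private lemma hbo_d2 {F : E → ℂ} (hW : IsOpen W) (hF : ContDiffOn ℝ ∞ F W) {x : E} (hx : x ∈ W)
    (v w : E) :
    fderiv ℝ (fun y => fderiv ℝ F y v) x w = fderiv ℝ (fderiv ℝ F) x w v := by
  have h2 := (hbo_d1 hW hF hx).hasFDerivAt.clm_apply (hasFDerivAt_const v x)
  rw [h2.fderiv]
  simp

private lemma hbo_symm {F : E → ℂ} (hW : IsOpen W) (hF : ContDiffOn ℝ ∞ F W) {x : E} (hx : x ∈ W)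
    (v w : E) :
    fderiv ℝ (fderiv ℝ F) x v w = fderiv ℝ (fderiv ℝ F) x w v := by
  have h : IsSymmSndFDerivAt ℝ F x :=
    (hF.contDiffAt (hW.mem_nhds hx)).isSymmSndFDerivAt (by
      rw [minSmoothness_of_isRCLikeNormedField]
      exact WithTop.coe_le_coe.2 le_top)
  exact h v w

private lemma hbo_fdz {F : E → ℂ} (hW : IsOpen W) (hF : ContDiffOn ℝ ∞ F W) {x : E} (hx : x ∈ W)
    (v w : E) :
    fderiv ℝ (dz v F) x w =
      (fderiv ℝ (fderiv ℝ F) x w v - I * fderiv ℝ (fderiv ℝ F) x w (I • v)) / 2 := by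
  have h1 := hbo_fd hW hF v
  have h2 := hbo_fd hW hF (I • v)
  have e : dz v F = fun x => (fderiv ℝ F x v - I * fderiv ℝ F x (I • v)) / 2 := rfl
  rw [e]
  have h3 := ((hbo_da hW h1 hx).hasFDerivAt.sub
    ((hbo_da hW h2 hx).hasFDerivAt.const_mul I)).mul_const ((2 : ℂ)⁻¹)
  simp only [div_eq_mul_inv]
  have h4 : HasFDerivAt (fun x => (fderiv ℝ F x v - I * fderiv ℝ F x (I • v)) * (2 : ℂ)⁻¹)
    _ x := h3
  rw [h4.fderiv]
  simp [hbo_d2 hW hF hx]
  ring

private lemma hbo_fdzb {F : E → ℂ} (hW : IsOpen W) (hF : ContDiffOn ℝ ∞ F W) {x : E} (hx : x ∈ W)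
    (v w : E) :
    fderiv ℝ (dzb v F) x w =
      (fderiv ℝ (fderiv ℝ F) x w v + I * fderiv ℝ (fderiv ℝ F) x w (I • v)) / 2 := by
  have h1 := hbo_fd hW hF v
  have h2 := hbo_fd hW hF (I • v)
  have e : dzb v F = fun x => (fderiv ℝ F x v + I * fderiv ℝ F x (I • v)) / 2 := rfl
  rw [e]
  have h3 := ((hbo_da hW h1 hx).hasFDerivAt.add
    ((hbo_da hW h2 hx).hasFDerivAt.const_mul I)).mul_const ((2 : ℂ)⁻¹)
  simp only [div_eq_mul_inv]
  have h4 : HasFDerivAt (fun x => (fderiv ℝ F x v + I * fderiv ℝ F x (I • v)) * (2 : ℂ)⁻¹)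
    _ x := h3
  rw [h4.fderiv]
  simp [hbo_d2 hW hF hx]
  ring

/-- mixed second derivatives commute -/
private lemma hbo_comm {F : E → ℂ} (hW : IsOpen W) (hF : ContDiffOn ℝ ∞ F W) {x : E} (hx : x ∈ W)
    (a c : E) : dzb c (dz a F) x = dz a (dzb c F) x := by
  simp only [dzb, dz]
  have h1 := hbo_fdz hW hF hx a c
  have h2 := hbo_fdz hW hF hx a (I • c)
  have h3 := hbo_fdzb hW hF hx c a
  have h4 := hbo_fdzb hW hF hx c (I • a)
  simp only [h1, h2, h3, h4]
  rw [hbo_symm hW hF hx a c, hbo_symm hW hF hx a (I • c), hbo_symm hW hF hx (I • a) c,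
    hbo_symm hW hF hx (I • a) (I • c)]
  ring_nf

end hbo_calc

section hbo_ip

variable {D : ℕ}

private lemma hbo_ip_add_left (H : Fin D → Fin D → ℂ) (u u' v : Fin D → ℂ) :
    ip H (fun a => u a + u' a) v = ip H u v + ip H u' v := by
  simp only [ip, mul_add, Finset.sum_add_distrib]

private lemma hbo_ip_neg_left (H : Fin D → Fin D → ℂ) (u v : Fin D → ℂ) :
    ip H (fun a => - u a) v = - ip H u v := by
  simp only [ip, mul_neg, Finset.sum_neg_distrib]

private lemma hbo_ip_sum_left {κ : Type*} (s : Finset κ) (H : Fin D → Fin D → ℂ)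
    (u : κ → Fin D → ℂ) (v : Fin D → ℂ) :
    ip H (fun a => ∑ i ∈ s, u i a) v = ∑ i ∈ s, ip H (u i) v := by
  simp only [ip, Finset.mul_sum]
  have : ∀ a : Fin D, ∑ c, ∑ i ∈ s, conj (v a) * H a c * u i c =
      ∑ i ∈ s, ∑ c, conj (v a) * H a c * u i c := fun a => Finset.sum_comm
  simp only [this]
  exact Finset.sum_comm

private lemma hbo_ip_sum_right {κ : Type*} (s : Finset κ) (H : Fin D → Fin D → ℂ)
    (u : Fin D → ℂ) (v : κ → Fin D → ℂ) :
    ip H u (fun a => ∑ i ∈ s, v i a) = ∑ i ∈ s, ip H u (v i) := by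
  simp only [ip, map_sum, Finset.sum_mul]
  have : ∀ a : Fin D, ∑ c, ∑ i ∈ s, conj (v i a) * H a c * u c =
      ∑ i ∈ s, ∑ c, conj (v i a) * H a c * u c := fun a => Finset.sum_comm
  simp only [this]
  exact Finset.sum_comm

private lemma hbo_ip_conj {H : Fin D → Fin D → ℂ} (hH : ∀ a c, H a c = conj (H c a))
    (u v : Fin D → ℂ) : conj (ip H u v) = ip H v u := by
  simp only [ip, map_sum, map_mul, conj_conj]
  rw [Finset.sum_comm]
  refine Finset.sum_congr rfl fun c _ => Finset.sum_congr rfl fun a _ => ?_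
  rw [hH c a]
  ring

private lemma hbo_ip_zero_left (H : Fin D → Fin D → ℂ) (v : Fin D → ℂ) :
    ip H (fun _ => 0) v = 0 := by
  simp [ip]

private lemma hbo_ip_zero_right (H : Fin D → Fin D → ℂ) (v : Fin D → ℂ) :
    ip H v (fun _ => 0) = 0 := by
  simp [ip]

/-- polarisation -/
private lemma hbo_pol {H : Fin D → Fin D → ℂ} (hH : ∀ a c, H a c = conj (H c a))
    (u v : Fin D → ℂ) :
    (ip H (fun a => u a - v a) (fun a => u a - v a)).re =
      (ip H u u).re + (ip H v v).re - 2 * (ip H v u).re := by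
  have e : ip H (fun a => u a - v a) (fun a => u a - v a) =
      ip H u u + ip H v v - ip H v u - ip H u v := by
    simp only [ip, map_sub]
    rw [← Finset.sum_add_distrib, ← Finset.sum_sub_distrib, ← Finset.sum_sub_distrib]
    refine Finset.sum_congr rfl fun a _ => ?_
    rw [← Finset.sum_add_distrib, ← Finset.sum_sub_distrib, ← Finset.sum_sub_distrib]
    refine Finset.sum_congr rfl fun c _ => ?_
    ring
  have h1 : (ip H u v).re = (ip H v u).re := by
    rw [← hbo_ip_conj hH v u, conj_re]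
  rw [e]
  simp only [sub_re, add_re, h1]
  ring

private lemma hbo_alg {ι : Type} [Fintype ι] {H : Fin D → Fin D → ℂ}
    (hH : ∀ a c, H a c = conj (H c a)) (hp : ∀ u, 0 ≤ (ip H u u).re)
    (B : ι → ι → Fin D → ℂ) :
    -((1 / 2) * ∑ j, ∑ k, (ip H (fun a => B j k a - B k j a) (fun a => B j k a - B k j a)).re) ≤
      (∑ k, ∑ j, ip H (B k j) (B j k)).re := by
  have h2 : (∑ k, ∑ j, ip H (B k j) (B j k)).re = ∑ j, ∑ k, (ip H (B k j) (B j k)).re := by
    rw [Finset.sum_comm, re_sum]
    refine Finset.sum_congr rfl fun j _ => ?_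
    rw [re_sum]
  have h3 : ∑ j, ∑ k, (ip H (fun a => B j k a - B k j a) (fun a => B j k a - B k j a)).re =
      ∑ j, ∑ k, (ip H (B j k) (B j k)).re + ∑ j, ∑ k, (ip H (B k j) (B k j)).re
        - 2 * ∑ j, ∑ k, (ip H (B k j) (B j k)).re := by
    simp only [hbo_pol hH, Finset.sum_sub_distrib, Finset.sum_add_distrib, Finset.mul_sum]
  have h4 : 0 ≤ ∑ j, ∑ k, (ip H (B j k) (B j k)).re :=
    Finset.sum_nonneg fun j _ => Finset.sum_nonneg fun k _ => hp _
  have h5 : 0 ≤ ∑ j, ∑ k, (ip H (B k j) (B k j)).re :=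
    Finset.sum_nonneg fun j _ => Finset.sum_nonneg fun k _ => hp _
  rw [h2, h3]
  linarith

end hbo_ip

variable {E : Type} [NormedAddCommGroup E] [NormedSpace ℂ E] [FiniteDimensional ℂ E]
  [MeasurableSpace E] [BorelSpace E] {W : Set E} {ι : Type} [Fintype ι]
  {b : Module.Basis ι ℂ E} {D : ℕ}

/-- The commutator of the Chern connection and `∂bar`. -/
theorem HMet.commutator (M : HMet W b D) (hW : IsOpen W) (j k : ι) (u : Fin D → E → ℂ)
    (hu : ∀ a, ContDiffOn ℝ ∞ (u a) W) (x : E) (hx : x ∈ W) (a : Fin D) :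
    M.ch j (fun c => dzb (b k) (u c)) x a - dzb (b k) (fun y => M.ch j u y a) x =
      - ∑ c, dzb (b k) (fun y => M.A j y a c) x * u c x := by
  have e : (fun y => M.ch j u y a) =
      fun y => dz (b j) (u a) y + ∑ c, M.A j y a c * u c y := rfl
  have hA : ∀ c, DifferentiableAt ℝ (fun y => M.A j y a c) x := fun c =>
    hbo_da hW (M.smA j a c) hx
  have hu' : ∀ c, DifferentiableAt ℝ (u c) x := fun c => hbo_da hW (hu c) hx
  have hS : DifferentiableAt ℝ (fun y => ∑ c, M.A j y a c * u c y) x :=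
    DifferentiableAt.fun_sum fun c _ => (hA c).mul (hu' c)
  rw [e, hbo_dzb_add (hbo_da hW (hbo_dz hW (hu a) (b j)) hx) hS,
    hbo_dzb_sum (F := fun c y => M.A j y a c * u c y) _ (fun c => (hA c).mul (hu' c)),
    hbo_comm hW (hu a) hx]
  have e2 : ∀ c, dzb (b k) (fun y => M.A j y a c * u c y) x =
      dzb (b k) (fun y => M.A j y a c) x * u c x + M.A j x a c * dzb (b k) (u c) x := fun c =>
    hbo_dzb_mul (hA c) (hu' c) _
  simp only [e2, Finset.sum_add_distrib, HMet.ch]
  ring

omit [FiniteDimensional ℂ E] [MeasurableSpace E] [BorelSpace E] in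
private lemma hbo_ch_smooth (M : HMet W b D) (hW : IsOpen W) (k : ι) {u : Fin D → E → ℂ}
    (hu : ∀ a, ContDiffOn ℝ ∞ (u a) W) (a : Fin D) :
    ContDiffOn ℝ ∞ (fun x => M.ch k u x a) W := by
  have e : (fun x => M.ch k u x a) =
      fun y => dz (b k) (u a) y + ∑ c, M.A k y a c * u c y := rfl
  rw [e]
  exact (hbo_dz hW (hu a) (b k)).add (ContDiffOn.sum fun c _ => (M.smA k a c).mul (hu c))

omit [FiniteDimensional ℂ E] [MeasurableSpace E] [BorelSpace E] in
private lemma hbo_ip_smooth (M : HMet W b D) {p q : Fin D → E → ℂ}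
    (hp : ∀ a, ContDiffOn ℝ ∞ (p a) W) (hq : ∀ a, ContDiffOn ℝ ∞ (q a) W) :
    ContinuousOn (fun x => ip (M.H x) (fun a => p a x) (fun a => q a x)) W := by
  simp only [ip]
  refine continuousOn_finsetSum _ fun a _ => continuousOn_finsetSum _ fun c _ => ?_
  refine ((?_ : ContinuousOn (fun x => conj (q a x)) W).mul (M.smH a c).continuousOn).mul
    (hp c).continuousOn
  exact Complex.continuous_conj.comp_continuousOn (hq a).continuousOn

private lemma hbo_int (μ : Measure E) [μ.IsAddHaarMeasure] (hW : IsOpen W) {K : Set E}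
    (hK : IsCompact K) (hKW : K ⊆ W) {F : E → ℂ} (hF : ContinuousOn F W)
    (h0 : ∀ x, x ∉ K → F x = 0) : Integrable F μ := by
  have : FiniteDimensional ℝ E := FiniteDimensional.complexToReal E
  have : ProperSpace E := FiniteDimensional.proper ℝ E
  have hc : Continuous F := by
    rw [continuous_iff_continuousAt]
    intro x
    by_cases hx : x ∈ K
    · exact hF.continuousAt (hW.mem_nhds (hKW hx))
    · have h1 : F =ᶠ[nhds x] fun _ => 0 := by
        filter_upwards [hK.isClosed.isOpen_compl.mem_nhds hx] with y hy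
        exact h0 y hy
      exact (continuousAt_const).congr h1.symm
  exact hc.integrable_of_hasCompactSupport (HasCompactSupport.intro hK h0)

theorem HMet.bochner (M : HMet W b D) (hW : IsOpen W) (μ : Measure E) [μ.IsAddHaarMeasure]
    (f : ι → Fin D → E → ℂ) (hf : ∀ k a, SCW W (f k a)) :
    ∫ x, M.curv x (fun k a => f k a x) ∂μ ≤
      ∫ x, M.nsq x (fun a => ∑ k, M.ch k (f k) x a) ∂μ +
      (1 / 2) * ∫ x, ∑ j, ∑ k, M.nsq x (fun a => dzb (b j) (f k a) x - dzb (b k) (f j a) x) ∂μ := by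
  classical
  set K : Set E := ⋃ k, ⋃ a, tsupport (f k a) with hKdef
  have hK : IsCompact K := isCompact_iUnion fun k => isCompact_iUnion fun a => (hf k a).2.1
  have hKW : K ⊆ W := Set.iUnion_subset fun k => Set.iUnion_subset fun a => (hf k a).2.2
  have hns : ∀ x, x ∉ K → ∀ k a, x ∉ tsupport (f k a) := fun x hx k a h =>
    hx (Set.mem_iUnion.2 ⟨k, Set.mem_iUnion.2 ⟨a, h⟩⟩)
  have hf0 : ∀ x, x ∉ K → ∀ k a, f k a x = 0 := fun x hx k a =>
    image_eq_zero_of_notMem_tsupport (hns x hx k a)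
  have hfd0 : ∀ x, x ∉ K → ∀ k a, fderiv ℝ (f k a) x = 0 := fun x hx k a =>
    fderiv_of_notMem_tsupport ℝ (hns x hx k a)
  have hdzb0 : ∀ x, x ∉ K → ∀ j k a, dzb (b j) (f k a) x = 0 := fun x hx j k a => by
    simp [dzb, hfd0 x hx k a]
  have hch0 : ∀ x, x ∉ K → ∀ k a, M.ch k (f k) x a = 0 := fun x hx k a => by
    simp [HMet.ch, dz, hfd0 x hx k a, hf0 x hx k]
  have hfW : ∀ k a, ContDiffOn ℝ ∞ (f k a) W := fun k a => (hf k a).1.contDiffOn
  have hBW : ∀ j k a, ContDiffOn ℝ ∞ (dzb (b j) (f k a)) W := fun j k a => hbo_dzb hW (hfW k a) _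
  have hcW : ∀ k a, ContDiffOn ℝ ∞ (fun x => M.ch k (f k) x a) W := fun k a =>
    hbo_ch_smooth M hW k (hfW k) a
  set g : Fin D → E → ℂ := fun a x => ∑ k, M.ch k (f k) x a with hg
  have hgW : ∀ a, ContDiffOn ℝ ∞ (g a) W := fun a => ContDiffOn.sum fun k _ => hcW k a
  have hint : ∀ F : E → ℂ, ContinuousOn F W → (∀ x, x ∉ K → F x = 0) → Integrable F μ :=
    fun F hF h0 => hbo_int μ hW hK hKW hF h0
  -- integrable pieces
  have I1 : ∀ k, Integrable (fun x => ip (M.H x) (fun a => g a x) (M.ch k (f k) x)) μ := fun k =>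
    hint _ (hbo_ip_smooth M hgW (q := fun a x => M.ch k (f k) x a) (hcW k)) fun x hx => by
      have : M.ch k (f k) x = fun _ => 0 := funext fun a => hch0 x hx k a
      rw [this, hbo_ip_zero_right]
  have I2 : ∀ k j, Integrable (fun x => ip (M.H x)
      (M.ch j (fun c => dzb (b k) (f j c)) x) (fun a => f k a x)) μ := fun k j =>
    hint _ (hbo_ip_smooth M (p := fun a x => M.ch j (fun c => dzb (b k) (f j c)) x a)
      (hbo_ch_smooth M hW j (fun c => hBW k j c)) (hfW k)) fun x hx => by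
      have : (fun a => f k a x) = fun _ => 0 := funext fun a => hf0 x hx k a
      rw [this, hbo_ip_zero_right]
  have hTh : ∀ k j a, ContDiffOn ℝ ∞
      (fun x => - ∑ c, dzb (b k) (fun y => M.A j y a c) x * f j c x) W := fun k j a =>
    (ContDiffOn.sum fun c _ => (hbo_dzb hW (M.smA j a c) (b k)).mul (hfW j c)).neg
  have I3 : ∀ k j, Integrable (fun x => ip (M.H x)
      (fun a => - ∑ c, dzb (b k) (fun y => M.A j y a c) x * f j c x) (fun a => f k a x)) μ :=
    fun k j =>
    hint _ (hbo_ip_smooth M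
      (p := fun a x => - ∑ c, dzb (b k) (fun y => M.A j y a c) x * f j c x)
      (hTh k j) (hfW k)) fun x hx => by
      have : (fun a => f k a x) = fun _ => 0 := funext fun a => hf0 x hx k a
      rw [this, hbo_ip_zero_right]
  have I4 : ∀ k j, Integrable (fun x => ip (M.H x) (fun a => dzb (b k) (f j a) x)
      (fun a => dzb (b j) (f k a) x)) μ := fun k j =>
    hint _ (hbo_ip_smooth M (p := fun a x => dzb (b k) (f j a) x)
      (q := fun a x => dzb (b j) (f k a) x) (hBW k j) (hBW j k)) fun x hx => by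
      have : (fun a => dzb (b j) (f k a) x) = fun _ => 0 := funext fun a => hdzb0 x hx j k a
      rw [this, hbo_ip_zero_right]
  have hgi : Integrable (fun x => ip (M.H x) (fun a => g a x) (fun a => g a x)) μ :=
    hint _ (hbo_ip_smooth M hgW hgW) fun x hx => by
      have : (fun a => g a x) = fun _ => 0 := funext fun a => by simp [hg, hch0 x hx]
      rw [this, hbo_ip_zero_right]
  -- step 1
  have step1 : ∫ x, ip (M.H x) (fun a => g a x) (fun a => g a x) ∂μ =
      ∑ k, ∫ x, ip (M.H x) (fun a => g a x) (M.ch k (f k) x) ∂μ := by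
    rw [← integral_finsetSum _ fun k _ => I1 k]
    congr 1; ext x
    exact hbo_ip_sum_right _ _ _ (fun k => M.ch k (f k) x)
  -- step 2
  have step2 : ∀ k, ∫ x, ip (M.H x) (fun a => g a x) (M.ch k (f k) x) ∂μ =
      ∑ j, (∫ x, ip (M.H x) (fun a => dzb (b k) (f j a) x) (fun a => dzb (b j) (f k a) x) ∂μ
        + ∫ x, ip (M.H x) (fun a => - ∑ c, dzb (b k) (fun y => M.A j y a c) x * f j c x)
          (fun a => f k a x) ∂μ) := by
    intro k
    rw [M.ibp hW μ k g (f k) hgW (hf k)]
    have e : ∀ x, ip (M.H x) (fun a => dzb (b k) (g a) x) (fun a => f k a x) =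
        ∑ j, (ip (M.H x) (M.ch j (fun c => dzb (b k) (f j c)) x) (fun a => f k a x)
          - ip (M.H x) (fun a => - ∑ c, dzb (b k) (fun y => M.A j y a c) x * f j c x)
          (fun a => f k a x)) := by
      intro x
      by_cases hx : x ∈ K
      · have hxW := hKW hx
        have e1 : ∀ a, dzb (b k) (g a) x = ∑ j, (M.ch j (fun c => dzb (b k) (f j c)) x a +
            - (- ∑ c, dzb (b k) (fun y => M.A j y a c) x * f j c x)) := by
          intro a
          have e2 : g a = fun y => ∑ j, M.ch j (f j) y a := rfl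
          rw [e2, hbo_dzb_sum (F := fun j y => M.ch j (f j) y a) _
            (fun j => hbo_da hW (hcW j a) hxW)]
          refine Finset.sum_congr rfl fun j _ => ?_
          have h3 := M.commutator hW j k (f j) (hfW j) x hxW a
          rw [← h3]
          ring
        have e3 : (fun a => dzb (b k) (g a) x) =
            fun a => ∑ j, (M.ch j (fun c => dzb (b k) (f j c)) x a +
            - (- ∑ c, dzb (b k) (fun y => M.A j y a c) x * f j c x)) := funext e1
        rw [e3, hbo_ip_sum_left _ _ (fun j a => (M.ch j (fun c => dzb (b k) (f j c)) x a +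
            - (- ∑ c, dzb (b k) (fun y => M.A j y a c) x * f j c x)))]
        refine Finset.sum_congr rfl fun j _ => ?_
        rw [hbo_ip_add_left, hbo_ip_neg_left, sub_eq_add_neg]
      · have : (fun a => f k a x) = fun _ => 0 := funext fun a => hf0 x hx k a
        rw [this]
        simp [hbo_ip_zero_right]
    simp only [e]
    have I23 : ∀ j, Integrable (fun x => ip (M.H x) (M.ch j (fun c => dzb (b k) (f j c)) x)
          (fun a => f k a x)
          - ip (M.H x) (fun a => - ∑ c, dzb (b k) (fun y => M.A j y a c) x * f j c x)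
          (fun a => f k a x)) μ := fun j => (I2 k j).sub (I3 k j)
    rw [integral_finsetSum _ fun j _ => I23 j, ← Finset.sum_neg_distrib]
    refine Finset.sum_congr rfl fun j _ => ?_
    rw [integral_sub (I2 k j) (I3 k j)]
    have h5 := M.ibp' hW μ j (fun c => dzb (b k) (f j c)) (f k) (fun c => hBW k j c) (hf k)
    have h6 : ∫ x, ip (M.H x) (M.ch j (fun c => dzb (b k) (f j c)) x) (fun a => f k a x) ∂μ =
        conj (∫ x, ip (M.H x) (fun a => f k a x) (M.ch j (fun c => dzb (b k) (f j c)) x) ∂μ) := by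
      rw [← integral_conj]
      congr 1; ext x
      by_cases hx : x ∈ K
      · rw [hbo_ip_conj (M.herm x (hKW hx))]
      · have : (fun a => f k a x) = fun _ => 0 := funext fun a => hf0 x hx k a
        rw [this, hbo_ip_zero_right, hbo_ip_zero_left, map_zero]
    have h7 : ∫ x, ip (M.H x) (fun a => dzb (b k) (f j a) x) (fun a => dzb (b j) (f k a) x) ∂μ =
        conj (∫ x, ip (M.H x) (fun a => dzb (b j) (f k a) x) (fun a => dzb (b k) (f j a) x) ∂μ) := by
      rw [← integral_conj]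
      congr 1; ext x
      by_cases hx : x ∈ K
      · rw [hbo_ip_conj (M.herm x (hKW hx))]
      · have : (fun a => dzb (b j) (f k a) x) = fun _ => 0 :=
          funext fun a => hdzb0 x hx j k a
        rw [this, hbo_ip_zero_right, hbo_ip_zero_left, map_zero]
    rw [h6, h5, h7, map_neg]
    ring
  -- main identity
  have main : ∫ x, ip (M.H x) (fun a => g a x) (fun a => g a x) ∂μ =
      ∫ x, ∑ k, ∑ j, ip (M.H x) (fun a => dzb (b k) (f j a) x)
        (fun a => dzb (b j) (f k a) x) ∂μ +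
      ∫ x, ∑ k, ∑ j, ip (M.H x)
        (fun a => - ∑ c, dzb (b k) (fun y => M.A j y a c) x * f j c x) (fun a => f k a x) ∂μ := by
    rw [step1]
    simp only [step2, Finset.sum_add_distrib]
    congr 1
    · rw [integral_finsetSum _ fun k _ => integrable_finsetSum _ fun j _ => I4 k j]
      refine Finset.sum_congr rfl fun k _ => ?_
      rw [integral_finsetSum _ fun j _ => I4 k j]
    · rw [integral_finsetSum _ fun k _ => integrable_finsetSum _ fun j _ => I3 k j]
      refine Finset.sum_congr rfl fun k _ => ?_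
      rw [integral_finsetSum _ fun j _ => I3 k j]
  have hTi : Integrable (fun x => ∑ k, ∑ j, ip (M.H x) (fun a => dzb (b k) (f j a) x)
        (fun a => dzb (b j) (f k a) x)) μ :=
    integrable_finsetSum _ fun k _ => integrable_finsetSum _ fun j _ => I4 k j
  have hCi : Integrable (fun x => ∑ k, ∑ j, ip (M.H x)
        (fun a => - ∑ c, dzb (b k) (fun y => M.A j y a c) x * f j c x) (fun a => f k a x)) μ :=
    integrable_finsetSum _ fun k _ => integrable_finsetSum _ fun j _ => I3 k j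
  have hDi : Integrable (fun x => ∑ j, ∑ k,
      M.nsq x (fun a => dzb (b j) (f k a) x - dzb (b k) (f j a) x)) μ := by
    refine integrable_finsetSum _ fun j _ => integrable_finsetSum _ fun k _ => ?_
    have h := hint (fun x => ip (M.H x) (fun a => dzb (b j) (f k a) x - dzb (b k) (f j a) x)
      (fun a => dzb (b j) (f k a) x - dzb (b k) (f j a) x))
      (hbo_ip_smooth M (p := fun a x => dzb (b j) (f k a) x - dzb (b k) (f j a) x)
        (q := fun a x => dzb (b j) (f k a) x - dzb (b k) (f j a) x)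
        (fun a => (hBW j k a).sub (hBW k j a)) (fun a => (hBW j k a).sub (hBW k j a)))
      (fun x hx => by
        have : (fun a => dzb (b j) (f k a) x - dzb (b k) (f j a) x) = fun _ => 0 :=
          funext fun a => by rw [hdzb0 x hx j k a, hdzb0 x hx k j a, sub_zero]
        rw [this, hbo_ip_zero_right])
    exact h.re
  have r1 : ∫ x, M.nsq x (fun a => ∑ k, M.ch k (f k) x a) ∂μ =
      (∫ x, ip (M.H x) (fun a => g a x) (fun a => g a x) ∂μ).re :=
    integral_re hgi
  have r2 : ∫ x, M.curv x (fun k a => f k a x) ∂μ =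
      (∫ x, ∑ k, ∑ j, ip (M.H x)
        (fun a => - ∑ c, dzb (b k) (fun y => M.A j y a c) x * f j c x)
        (fun a => f k a x) ∂μ).re := by
    have h := integral_re hCi
    rw [RCLike.re_eq_complex_re] at h
    rw [← h]
    congr 1; ext x
    simp only [HMet.curv]
    rw [Finset.sum_comm]
  have r5 : (∫ x, ∑ k, ∑ j, ip (M.H x) (fun a => dzb (b k) (f j a) x)
        (fun a => dzb (b j) (f k a) x) ∂μ).re =
      ∫ x, (∑ k, ∑ j, ip (M.H x) (fun a => dzb (b k) (f j a) x)
        (fun a => dzb (b j) (f k a) x)).re ∂μ := (integral_re hTi).symm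
  have r6 : -((1 / 2) * ∫ x, ∑ j, ∑ k,
      M.nsq x (fun a => dzb (b j) (f k a) x - dzb (b k) (f j a) x) ∂μ)
      ≤ ∫ x, (∑ k, ∑ j, ip (M.H x) (fun a => dzb (b k) (f j a) x)
        (fun a => dzb (b j) (f k a) x)).re ∂μ := by
    rw [← integral_const_mul, ← integral_neg]
    refine integral_mono (hDi.const_mul _).neg hTi.re fun x => ?_
    by_cases hx : x ∈ K
    · have hxW := hKW hx
      refine hbo_alg (M.herm x hxW) (fun u => ?_) (fun j k => fun a => dzb (b j) (f k a) x)
      by_cases hu : u = 0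
      · subst hu
        have : ip (M.H x) 0 0 = 0 := by simp [ip]
        rw [this]; simp
      · exact (M.pos x hxW u hu).le
    · have e1 : ∀ j k, (fun a => dzb (b j) (f k a) x) = fun _ => 0 := fun j k =>
        funext fun a => hdzb0 x hx j k a
      have e2 : ∀ j k, (fun a => dzb (b j) (f k a) x - dzb (b k) (f j a) x) = fun _ => 0 :=
        fun j k => funext fun a => by rw [hdzb0 x hx j k a, hdzb0 x hx k j a, sub_zero]
      simp only [HMet.nsq, e1, e2, hbo_ip_zero_right]
      simp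
  rw [r1, r2, main, add_re, r5]
  linarith

end Pool.Agent.Lib_KF

end

/-! ### from `Lib_KF.HApr` -/

section

/-! H04: Hörmander's a priori inequality with three weights. -/

open MeasureTheory Complex
open scoped ENNReal ContDiff ComplexConjugate

namespace Pool.Agent.Lib_KF

open GPn

variable {E : Type} [NormedAddCommGroup E] [NormedSpace ℂ E] [FiniteDimensional ℂ E]
  [MeasurableSpace E] [BorelSpace E] {W : Set E} {ι : Type} [Fintype ι]
  {b : Module.Basis ι ℂ E} {D : ℕ}

/-! ### auxiliary lemmas -/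

section HApr_aux

private lemma HApr_fd (hW : IsOpen W) {F : E → ℂ} (hF : ContDiffOn ℝ ∞ F W) (v : E) :
    ContDiffOn ℝ ∞ (fun x => fderiv ℝ F x v) W := by
  have h : ContDiffOn ℝ ∞ (fderiv ℝ F) W := hF.fderiv_of_isOpen hW (by simp)
  exact h.clm_apply contDiffOn_const

private lemma HApr_dz (hW : IsOpen W) {F : E → ℂ} (hF : ContDiffOn ℝ ∞ F W) (v : E) :
    ContDiffOn ℝ ∞ (dz v F) W := by
  have h1 := HApr_fd hW hF v
  have h2 := HApr_fd hW hF (I • v)
  have : dz v F = fun x => (fderiv ℝ F x v - I * fderiv ℝ F x (I • v)) / 2 := rfl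
  rw [this]
  exact (h1.sub (contDiffOn_const.mul h2)).div_const 2

private lemma HApr_dzb (hW : IsOpen W) {F : E → ℂ} (hF : ContDiffOn ℝ ∞ F W) (v : E) :
    ContDiffOn ℝ ∞ (dzb v F) W := by
  have h1 := HApr_fd hW hF v
  have h2 := HApr_fd hW hF (I • v)
  have : dzb v F = fun x => (fderiv ℝ F x v + I * fderiv ℝ F x (I • v)) / 2 := rfl
  rw [this]
  exact (h1.add (contDiffOn_const.mul h2)).div_const 2

private lemma HApr_re {χ : E → ℝ} (hχ : ContDiffOn ℝ ∞ χ W) :
    ContDiffOn ℝ ∞ (fun y => (χ y : ℂ)) W :=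
  Complex.ofRealCLM.contDiff.comp_contDiffOn hχ

omit [NormedSpace ℂ E] [FiniteDimensional ℂ E] [MeasurableSpace E] [BorelSpace E] in
private lemma HApr_ip {H : E → Fin D → Fin D → ℂ} {u v : E → Fin D → ℂ}
    (hH : ∀ a c, ContinuousOn (fun x => H x a c) W) (hu : ∀ a, ContinuousOn (fun x => u x a) W)
    (hv : ∀ a, ContinuousOn (fun x => v x a) W) :
    ContinuousOn (fun x => ip (H x) (u x) (v x)) W := by
  unfold ip
  refine continuousOn_finsetSum _ fun a _ => continuousOn_finsetSum _ fun c _ => ?_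
  exact ((Complex.continuous_conj.comp_continuousOn (hv a)).mul (hH a c)).mul (hu c)

omit [NormedSpace ℂ E] [FiniteDimensional ℂ E] in
private lemma HApr_int {g : E → ℝ} (hW : IsOpen W) (μ : Measure E)
    [IsFiniteMeasureOnCompacts μ] (hg : ContinuousOn g W) {K : Set E} (hK : IsCompact K)
    (hKW : K ⊆ W) (h0 : ∀ x, x ∉ K → g x = 0) : Integrable g μ := by
  have hc : Continuous g := by
    rw [continuous_iff_continuousAt]
    intro x
    by_cases hx : x ∈ W
    · exact hg.continuousAt (hW.mem_nhds hx)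
    · have hxK : x ∈ Kᶜ := fun h => hx (hKW h)
      have : g =ᶠ[nhds x] fun _ => (0 : ℝ) := by
        filter_upwards [hK.isClosed.isOpen_compl.mem_nhds hxK] with y hy
        exact h0 y hy
      exact (continuousAt_const (y := (0 : ℝ))).congr this.symm
  exact hc.integrable_of_hasCompactSupport (HasCompactSupport.intro hK h0)

private lemma HApr_ip_add_left (H : Fin D → Fin D → ℂ) (u u' v : Fin D → ℂ) :
    ip H (fun a => u a + u' a) v = ip H u v + ip H u' v := by
  simp only [ip, mul_add, Finset.sum_add_distrib]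

private lemma HApr_ip_add_right (H : Fin D → Fin D → ℂ) (u v v' : Fin D → ℂ) :
    ip H u (fun a => v a + v' a) = ip H u v + ip H u v' := by
  simp only [ip, map_add, add_mul, Finset.sum_add_distrib]

private lemma HApr_ip_smul_left (H : Fin D → Fin D → ℂ) (c : ℂ) (u v : Fin D → ℂ) :
    ip H (fun a => c * u a) v = c * ip H u v := by
  simp only [ip, Finset.mul_sum]
  refine Finset.sum_congr rfl fun a _ => Finset.sum_congr rfl fun d _ => ?_
  ring

private lemma HApr_ip_smul_right (H : Fin D → Fin D → ℂ) (c : ℂ) (u v : Fin D → ℂ) :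
    ip H u (fun a => c * v a) = conj c * ip H u v := by
  simp only [ip, Finset.mul_sum, map_mul]
  refine Finset.sum_congr rfl fun a _ => Finset.sum_congr rfl fun d _ => ?_
  ring

private lemma HApr_ip_sum_left (H : Fin D → Fin D → ℂ) (u : ι → Fin D → ℂ) (v : Fin D → ℂ) :
    ip H (fun a => ∑ k, u k a) v = ∑ k, ip H (u k) v := by
  simp only [ip, Finset.mul_sum]
  rw [Finset.sum_comm' (s := Finset.univ) (t := fun _ => Finset.univ) (t' := Finset.univ)
    (s' := fun _ => Finset.univ) (by simp)]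
  rw [Finset.sum_comm]
  simp only [Finset.sum_comm (s := (Finset.univ : Finset (Fin D))) (t := (Finset.univ : Finset ι))]

private lemma HApr_ip_sum_right (H : Fin D → Fin D → ℂ) (u : Fin D → ℂ) (v : ι → Fin D → ℂ) :
    ip H u (fun a => ∑ k, v k a) = ∑ k, ip H u (v k) := by
  simp only [ip, map_sum, Finset.sum_mul]
  simp only [Finset.sum_comm (s := (Finset.univ : Finset (Fin D))) (t := (Finset.univ : Finset ι))]

private lemma HApr_nsq_nonneg (M : HMet W b D) {x : E} (hx : x ∈ W) (u : Fin D → ℂ) :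
    0 ≤ M.nsq x u := by
  by_cases h : u = 0
  · subst h
    simp [HMet.nsq, ip]
  · exact (M.pos x hx u h).le

end HApr_aux

/-- `∑_k (δ_k f_k - (∂_k σ) f_k)` -/
noncomputable def HMet.LL (M : HMet W b D) (σ : E → ℝ) (f : ι → Fin D → E → ℂ) (x : E)
    (a : Fin D) : ℂ :=
  ∑ k, (M.ch k (f k) x a - dz (b k) (fun y => (σ y : ℂ)) x * f k a x)

theorem HMet.nsq_add_le (M : HMet W b D) (x : E) (hx : x ∈ W) (u v : Fin D → ℂ) :
    M.nsq x (u + v) ≤ 2 * M.nsq x u + 2 * M.nsq x v := by
  have h0 := HApr_nsq_nonneg M hx (fun a => u a + (-1) * v a)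
  have e : ∀ c : ℂ, ip (M.H x) (fun a => u a + c * v a) (fun a => u a + c * v a) =
      ip (M.H x) u u + conj c * ip (M.H x) u v + c * ip (M.H x) v u +
        c * conj c * ip (M.H x) v v := by
    intro c
    have h1 := HApr_ip_add_left (M.H x) u (fun a => c * v a) (fun a => u a + c * v a)
    have h2 := HApr_ip_add_right (M.H x) u u (fun a => c * v a)
    have h3 := HApr_ip_add_right (M.H x) v u (fun a => c * v a)
    rw [h1, HApr_ip_smul_left, h2, h3, HApr_ip_smul_right, HApr_ip_smul_right]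
    ring
  have h1 : u + v = fun a => u a + 1 * v a := by
    funext a
    simp
  have e1 := congrArg Complex.re (e 1)
  have e2 := congrArg Complex.re (e (-1))
  rw [h1]
  simp only [HMet.nsq] at h0 ⊢
  rw [e1]
  rw [e2] at h0
  simp only [map_one, map_neg, one_mul, neg_mul, mul_neg, neg_neg, Complex.add_re,
    Complex.neg_re] at h0 ⊢
  linarith

/-- Cauchy-Schwarz: `|∑_k c_k f_k| ^ 2 ≤ (∑ |c_k| ^ 2) (∑ |f_k| ^ 2)`. -/
theorem HMet.nsq_sum_le (M : HMet W b D) (x : E) (hx : x ∈ W) (c : ι → ℂ) (f : ι → Fin D → ℂ) :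
    M.nsq x (fun a => ∑ k, c k * f k a) ≤ (∑ k, ‖c k‖ ^ 2) * ∑ k, M.nsq x (f k) := by
  set B : ι → ι → ℂ := fun k l => ip (M.H x) (f k) (f l) with hB
  have hS : ip (M.H x) (fun a => ∑ k, c k * f k a) (fun a => ∑ k, c k * f k a) =
      ∑ k, ∑ l, c k * conj (c l) * B k l := by
    rw [HApr_ip_sum_left (M.H x) (fun k a => c k * f k a)]
    refine Finset.sum_congr rfl fun k _ => ?_
    rw [HApr_ip_smul_left, HApr_ip_sum_right (M.H x) (f k) (fun l a => c l * f l a),
      Finset.mul_sum]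
    refine Finset.sum_congr rfl fun l _ => ?_
    rw [HApr_ip_smul_right]
    ring
  have hw : ∀ j k, ip (M.H x) (fun a => conj (c j) * f k a + (-conj (c k)) * f j a)
      (fun a => conj (c j) * f k a + (-conj (c k)) * f j a) =
      c j * conj (c j) * B k k - c k * conj (c j) * B k j - c j * conj (c k) * B j k +
        B j j * (c k * conj (c k)) := by
    intro j k
    have h1 := HApr_ip_add_left (M.H x) (fun a => conj (c j) * f k a)
      (fun a => (-conj (c k)) * f j a) (fun a => conj (c j) * f k a + (-conj (c k)) * f j a)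
    have h2 := HApr_ip_add_right (M.H x) (f k) (fun a => conj (c j) * f k a)
      (fun a => (-conj (c k)) * f j a)
    have h3 := HApr_ip_add_right (M.H x) (f j) (fun a => conj (c j) * f k a)
      (fun a => (-conj (c k)) * f j a)
    rw [h1, HApr_ip_smul_left, HApr_ip_smul_left, h2, h3, HApr_ip_smul_right, HApr_ip_smul_right,
      HApr_ip_smul_right, HApr_ip_smul_right]
    simp only [map_neg, Complex.conj_conj, hB]
    ring
  have hsum : ∑ j, ∑ k, ip (M.H x) (fun a => conj (c j) * f k a + (-conj (c k)) * f j a)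
      (fun a => conj (c j) * f k a + (-conj (c k)) * f j a) =
      2 * ((∑ k, c k * conj (c k)) * ∑ k, B k k) -
        2 * ip (M.H x) (fun a => ∑ k, c k * f k a) (fun a => ∑ k, c k * f k a) := by
    simp only [hw, Finset.sum_add_distrib, Finset.sum_sub_distrib]
    have t1 : ∑ j, ∑ k, c j * conj (c j) * B k k = (∑ k, c k * conj (c k)) * ∑ k, B k k := by
      rw [Finset.sum_mul_sum]
    have t2 : ∑ j, ∑ k, B j j * (c k * conj (c k)) = (∑ k, c k * conj (c k)) * ∑ k, B k k := by
      rw [mul_comm, Finset.sum_mul_sum]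
    have t3 : ∑ j, ∑ k, c k * conj (c j) * B k j = ∑ k, ∑ l, c k * conj (c l) * B k l :=
      Finset.sum_comm
    rw [t1, t2, t3, hS]
    ring
  have hpos : 0 ≤ (∑ j, ∑ k, ip (M.H x) (fun a => conj (c j) * f k a + (-conj (c k)) * f j a)
      (fun a => conj (c j) * f k a + (-conj (c k)) * f j a)).re := by
    rw [Complex.re_sum]
    refine Finset.sum_nonneg fun j _ => ?_
    rw [Complex.re_sum]
    exact Finset.sum_nonneg fun k _ => HApr_nsq_nonneg M hx _
  rw [hsum] at hpos
  have hc : (∑ k, c k * conj (c k)) = ((∑ k, ‖c k‖ ^ 2 : ℝ) : ℂ) := by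
    push_cast
    refine Finset.sum_congr rfl fun k _ => ?_
    rw [Complex.mul_conj, Complex.normSq_eq_norm_sq]
    push_cast
    rfl
  have hBr : (∑ k, B k k).re = ∑ k, M.nsq x (f k) := by
    rw [Complex.re_sum]
    rfl
  rw [hc] at hpos
  have h2 : (2 * ((((∑ k, ‖c k‖ ^ 2 : ℝ)) : ℂ) * ∑ k, B k k)).re =
      2 * ((∑ k, ‖c k‖ ^ 2) * ∑ k, M.nsq x (f k)) := by
    rw [← hBr]
    simp only [Complex.mul_re, Complex.re_ofNat, Complex.im_ofNat, zero_mul, sub_zero,
      Complex.ofReal_re, Complex.ofReal_im]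
  have h3 : (2 * ip (M.H x) (fun a => ∑ k, c k * f k a) (fun a => ∑ k, c k * f k a)).re =
      2 * M.nsq x (fun a => ∑ k, c k * f k a) := by
    simp only [HMet.nsq, Complex.mul_re, Complex.re_ofNat, Complex.im_ofNat, zero_mul, sub_zero]
  rw [Complex.sub_re, h2, h3] at hpos
  linarith

theorem HMet.apriori (M : HMet W b D) (hW : IsOpen W) (μ : Measure E) [μ.IsAddHaarMeasure]
    (θ χ : E → ℝ) (hθ : ContDiffOn ℝ ∞ θ W) (hχ : ContDiffOn ℝ ∞ χ W) (κ : E → ℝ)
    (hκ : ContinuousOn κ W) (k₀ : ι)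
    (hcurv : ∀ x ∈ W, ∀ f : ι → Fin D → ℂ, κ x * M.nsq x (f k₀) ≤ M.curv x f)
    (hlev : ∀ x ∈ W, ∀ f : ι → Fin D → ℂ,
      2 * gradsq b θ x * ∑ k, M.nsq x (f k) ≤ levH b (M.H x) χ x f)
    (f : ι → Fin D → E → ℂ) (hf : ∀ k a, SCW W (f k a)) :
    ∫ x, κ x * M.nsq x (fun a => f k₀ a x) * Real.exp (-χ x) ∂μ ≤
      2 * ∫ x, M.nsq x (M.LL (fun y => χ y - θ y) f x) * Real.exp (-χ x) ∂μ +
      (1 / 2) * ∫ x, (∑ j, ∑ k, M.nsq x (fun a => dzb (b j) (f k a) x - dzb (b k) (f j a) x)) *
        Real.exp (-χ x) ∂μ := by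
  classical
  have hχc := HApr_re hχ
  have hθc := HApr_re hθ
  -- the support
  set K : Set E := ⋃ k, ⋃ a, tsupport (f k a) with hKdef
  have hK : IsCompact K := isCompact_iUnion fun k => isCompact_iUnion fun a => (hf k a).2.1
  have hKW : K ⊆ W := Set.iUnion_subset fun k => Set.iUnion_subset fun a => (hf k a).2.2
  have hnot : ∀ x, x ∉ K → ∀ k a, x ∉ tsupport (f k a) := fun x hx k a h =>
    hx (Set.mem_iUnion.mpr ⟨k, Set.mem_iUnion.mpr ⟨a, h⟩⟩)
  have hf0 : ∀ x, x ∉ K → ∀ k a, f k a x = 0 := fun x hx k a =>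
    image_eq_zero_of_notMem_tsupport (hnot x hx k a)
  have hd0 : ∀ x, x ∉ K → ∀ k a v, dz v (f k a) x = 0 := by
    intro x hx k a v
    simp [dz, fderiv_of_notMem_tsupport ℝ (hnot x hx k a)]
  -- smoothness
  have hfs : ∀ k a, ContDiffOn ℝ ∞ (f k a) W := fun k a => (hf k a).1.contDiffOn
  have hfc : ∀ k a, ContinuousOn (f k a) W := fun k a => (hfs k a).continuousOn
  have hHc : ∀ a c, ContinuousOn (fun x => M.H x a c) W := fun a c => (M.smH a c).continuousOn
  have hexp : ContinuousOn (fun x => Real.exp (-χ x)) W :=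
    Real.continuous_exp.comp_continuousOn hχ.continuousOn.neg
  have hch : ∀ k a, ContinuousOn (fun x => M.ch k (f k) x a) W := by
    intro k a
    have h1 : ContinuousOn (dz (b k) (f k a)) W := (HApr_dz hW (hfs k a) (b k)).continuousOn
    have h2 : ContinuousOn (fun x => ∑ c, M.A k x a c * f k c x) W :=
      continuousOn_finsetSum _ fun c _ => ((M.smA k a c).continuousOn).mul (hfc k c)
    exact h1.add h2
  have hχθ : ContDiffOn ℝ ∞ (fun y => ((χ y - θ y : ℝ) : ℂ)) W := HApr_re (hχ.sub hθ)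
  have hLL : ∀ a, ContinuousOn (fun x => M.LL (fun y => χ y - θ y) f x a) W := by
    intro a
    refine continuousOn_finsetSum _ fun k _ => (hch k a).sub ?_
    exact ((HApr_dz hW hχθ (b k)).continuousOn).mul (hfc k a)
  -- integrability
  have hI1 : Integrable (fun x => κ x * M.nsq x (fun a => f k₀ a x) * Real.exp (-χ x)) μ := by
    refine HApr_int hW μ ?_ hK hKW ?_
    · refine (hκ.mul ?_).mul hexp
      exact Complex.continuous_re.comp_continuousOn
        (HApr_ip hHc (fun a => hfc k₀ a) (fun a => hfc k₀ a))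
    · intro x hx
      simp [HMet.nsq, ip, hf0 x hx]
  have hI2 : Integrable (fun x => Real.exp (-χ x) * M.curv x (fun k a => f k a x)) μ := by
    refine HApr_int hW μ ?_ hK hKW ?_
    · refine hexp.mul ?_
      refine Complex.continuous_re.comp_continuousOn ?_
      refine continuousOn_finsetSum _ fun j _ => continuousOn_finsetSum _ fun k _ => ?_
      refine HApr_ip hHc (fun a => ?_) (fun a => hfc k a)
      refine (continuousOn_finsetSum _ fun c _ => ?_).neg
      exact ((HApr_dzb hW (M.smA j a c) (b k)).continuousOn).mul (hfc j c)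
    · intro x hx
      simp [HMet.curv, ip, hf0 x hx]
  have hI3 : Integrable (fun x => Real.exp (-χ x) * levH b (M.H x) χ x (fun k a => f k a x)) μ := by
    refine HApr_int hW μ ?_ hK hKW ?_
    · refine hexp.mul ?_
      refine Complex.continuous_re.comp_continuousOn ?_
      refine continuousOn_finsetSum _ fun j _ => continuousOn_finsetSum _ fun k _ => ?_
      exact ((HApr_dzb hW (HApr_dz hW hχc (b j)) (b k)).continuousOn).mul
        (HApr_ip hHc (fun a => hfc j a) (fun a => hfc k a))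
    · intro x hx
      simp [levH, ip, hf0 x hx]
  have hI4 : Integrable (fun x => M.nsq x (M.LL (fun y => χ y - θ y) f x) *
      Real.exp (-χ x)) μ := by
    refine HApr_int hW μ ?_ hK hKW ?_
    · refine ContinuousOn.mul ?_ hexp
      exact Complex.continuous_re.comp_continuousOn (HApr_ip hHc hLL hLL)
    · intro x hx
      have : M.LL (fun y => χ y - θ y) f x = 0 := by
        funext a
        simp [HMet.LL, HMet.ch, hf0 x hx, hd0 x hx]
      rw [this]
      simp [HMet.nsq, ip]
  -- Bochner for the twisted metric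
  have hB := (M.twist hW χ hχ).bochner hW μ f hf
  have e1 : ∀ x, (M.twist hW χ hχ).curv x (fun k a => f k a x) =
      Real.exp (-χ x) * M.curv x (fun k a => f k a x) +
        Real.exp (-χ x) * levH b (M.H x) χ x (fun k a => f k a x) := by
    intro x
    by_cases hx : x ∈ W
    · rw [HMet.curv_twist M hW χ hχ x hx, mul_add]
    · have hxK : x ∉ K := fun h => hx (hKW h)
      simp [HMet.curv, levH, ip, hf0 x hxK]
  have e2 : ∀ x, (M.twist hW χ hχ).nsq x (fun a => ∑ k, (M.twist hW χ hχ).ch k (f k) x a) =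
      Real.exp (-χ x) * M.nsq x (M.LL χ f x) := by
    intro x
    rw [HMet.nsq_twist]
    congr 2
    funext a
    simp only [HMet.LL]
    exact Finset.sum_congr rfl fun k _ => HMet.ch_twist M hW χ hχ k (f k) x a
  have e3 : ∀ x, (∑ j, ∑ k, (M.twist hW χ hχ).nsq x
      (fun a => dzb (b j) (f k a) x - dzb (b k) (f j a) x)) =
      (∑ j, ∑ k, M.nsq x (fun a => dzb (b j) (f k a) x - dzb (b k) (f j a) x)) *
        Real.exp (-χ x) := by
    intro x
    rw [Finset.sum_mul]
    refine Finset.sum_congr rfl fun j _ => ?_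
    rw [Finset.sum_mul]
    refine Finset.sum_congr rfl fun k _ => ?_
    rw [HMet.nsq_twist, mul_comm]
  simp only [e1, e2, e3] at hB
  rw [integral_add hI2 hI3] at hB
  -- pointwise inequality
  have hpt : ∀ x, Real.exp (-χ x) * M.nsq x (M.LL χ f x) ≤
      2 * (M.nsq x (M.LL (fun y => χ y - θ y) f x) * Real.exp (-χ x)) +
        Real.exp (-χ x) * levH b (M.H x) χ x (fun k a => f k a x) := by
    intro x
    by_cases hx : x ∈ W
    · have hd : ∀ k, dz (b k) (fun y => ((χ y - θ y : ℝ) : ℂ)) x =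
          dz (b k) (fun y => (χ y : ℂ)) x - dz (b k) (fun y => (θ y : ℂ)) x := by
        intro k
        have h1 : DifferentiableAt ℝ (fun y => (χ y : ℂ)) x :=
          (hχc.contDiffAt (hW.mem_nhds hx)).differentiableAt (by simp)
        have h2 : DifferentiableAt ℝ (fun y => (θ y : ℂ)) x :=
          (hθc.contDiffAt (hW.mem_nhds hx)).differentiableAt (by simp)
        have h3 : fderiv ℝ (fun y => ((χ y - θ y : ℝ) : ℂ)) x =
            fderiv ℝ (fun y => (χ y : ℂ)) x - fderiv ℝ (fun y => (θ y : ℂ)) x := by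
          have : (fun y => ((χ y - θ y : ℝ) : ℂ)) = fun y => (χ y : ℂ) - (θ y : ℂ) := by
            funext y
            push_cast
            rfl
          rw [this]
          exact fderiv_fun_sub h1 h2
        simp only [dz, h3, sub_apply]
        ring
      have hdec : M.LL χ f x = M.LL (fun y => χ y - θ y) f x +
          fun a => ∑ k, (-dz (b k) (fun y => (θ y : ℂ)) x) * f k a x := by
        funext a
        simp only [HMet.LL, Pi.add_apply]
        rw [← Finset.sum_add_distrib]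
        refine Finset.sum_congr rfl fun k _ => ?_
        rw [hd k]
        ring
      have h1 := M.nsq_add_le x hx (M.LL (fun y => χ y - θ y) f x)
        (fun a => ∑ k, (-dz (b k) (fun y => (θ y : ℂ)) x) * f k a x)
      rw [← hdec] at h1
      have h2 := M.nsq_sum_le x hx (fun k => -dz (b k) (fun y => (θ y : ℂ)) x)
        (fun k a => f k a x)
      simp only [norm_neg] at h2
      have h3 := hlev x hx (fun k a => f k a x)
      have h4 : M.nsq x (M.LL χ f x) ≤ 2 * M.nsq x (M.LL (fun y => χ y - θ y) f x) +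
          levH b (M.H x) χ x (fun k a => f k a x) := by
        simp only [gradsq] at h3
        linarith
      have h5 := mul_le_mul_of_nonneg_left h4 (Real.exp_pos (-χ x)).le
      linarith
    · have hxK : x ∉ K := fun h => hx (hKW h)
      have hz : ∀ σ : E → ℝ, M.LL σ f x = 0 := by
        intro σ
        funext a
        simp [HMet.LL, HMet.ch, hf0 x hxK, hd0 x hxK]
      rw [hz, hz]
      simp [HMet.nsq, levH, ip, hf0 x hxK]
  have hI5 : Integrable (fun x => 2 * (M.nsq x (M.LL (fun y => χ y - θ y) f x) *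
      Real.exp (-χ x)) + Real.exp (-χ x) * levH b (M.H x) χ x (fun k a => f k a x)) μ :=
    (hI4.const_mul 2).add hI3
  have hmono : ∫ x, Real.exp (-χ x) * M.nsq x (M.LL χ f x) ∂μ ≤
      ∫ x, (2 * (M.nsq x (M.LL (fun y => χ y - θ y) f x) * Real.exp (-χ x)) +
        Real.exp (-χ x) * levH b (M.H x) χ x (fun k a => f k a x)) ∂μ := by
    refine integral_mono_of_nonneg (Filter.Eventually.of_forall fun x => ?_) hI5
      (Filter.Eventually.of_forall hpt)
    by_cases hx : x ∈ W
    · exact mul_nonneg (Real.exp_pos _).le (HApr_nsq_nonneg M hx _)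
    · have hxK : x ∉ K := fun h => hx (hKW h)
      have hz : M.LL χ f x = 0 := by
        funext a
        simp [HMet.LL, HMet.ch, hf0 x hxK, hd0 x hxK]
      simp [hz, HMet.nsq, ip]
  rw [integral_add (hI4.const_mul 2) hI3, integral_const_mul] at hmono
  have hcurv' : ∫ x, κ x * M.nsq x (fun a => f k₀ a x) * Real.exp (-χ x) ∂μ ≤
      ∫ x, Real.exp (-χ x) * M.curv x (fun k a => f k a x) ∂μ := by
    refine integral_mono hI1 hI2 fun x => ?_
    show κ x * M.nsq x (fun a => f k₀ a x) * Real.exp (-χ x) ≤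
      Real.exp (-χ x) * M.curv x (fun k a => f k a x)
    by_cases hx : x ∈ W
    · have h1 := mul_le_mul_of_nonneg_left (hcurv x hx (fun k a => f k a x))
        (Real.exp_pos (-χ x)).le
      linarith
    · have hxK : x ∉ K := fun h => hx (hKW h)
      simp [HMet.nsq, HMet.curv, ip, hf0 x hxK]
  linarith

end Pool.Agent.Lib_KF

end

/-! ### from `Lib_KF.HWeakDefs` -/

section

/-! Weak forms: definitions. -/

open MeasureTheory Complex
open scoped ENNReal ContDiff ComplexConjugate

namespace Pool.Agent.Lib_KF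

open GPn

variable {E : Type} [NormedAddCommGroup E] [NormedSpace ℂ E] [MeasurableSpace E] {W : Set E}
  {ι : Type} [Fintype ι] {b : Module.Basis ι ℂ E} {D : ℕ}

/-- `∫_W |u|_H ^ 2 exp (-φ)` -/
noncomputable def HMet.L2 (M : HMet W b D) (μ : Measure E) (φ : E → ℝ) (u : Fin D → E → ℂ) : ℝ≥0∞ :=
  ∫⁻ x in W, ENNReal.ofReal (M.nsq x (fun a => u a x) * Real.exp (-φ x)) ∂μ

/-- `g = ∑ g_k dzbar_k` is weakly `∂bar`-closed on `W`. -/
def WeakClosed (W : Set E) (μ : Measure E) (b : Module.Basis ι ℂ E) (g : ι → Fin D → E → ℂ) :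
    Prop :=
  ∀ j k a, ∀ ψ : E → ℂ, SCW W ψ →
    ∫ x, g k a x * dzb (b j) ψ x ∂μ = ∫ x, g j a x * dzb (b k) ψ x ∂μ

/-- `LL σ g = l` weakly on `W`. -/
def HMet.WeakLL (M : HMet W b D) (μ : Measure E) (σ : E → ℝ) (g : ι → Fin D → E → ℂ)
    (l : Fin D → E → ℂ) : Prop :=
  ∀ u : Fin D → E → ℂ, (∀ a, SCW W (u a)) →
    ∫ x, ip (M.H x) (fun a => u a x) (fun a => l a x) * Real.exp (-σ x) ∂μ =
    - ∫ x, (∑ k, ip (M.H x) (fun a => dzb (b k) (u a) x) (fun a => g k a x)) *
        Real.exp (-σ x) ∂μ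

/-- Cutoff functions adapted to the weight `θ`. -/
def HasCutoffs (W : Set E) (b : Module.Basis ι ℂ E) (θ : E → ℝ) : Prop :=
  ∃ C : ℝ, ∃ η : ℕ → E → ℝ, ∀ m, ContDiff ℝ ∞ (η m) ∧ HasCompactSupport (η m) ∧
    tsupport (η m) ⊆ W ∧ (∀ x, 0 ≤ η m x ∧ η m x ≤ 1) ∧
    (∀ x ∈ W, gradsq b (η m) x ≤ C * Real.exp (θ x)) ∧
    ∀ K : Set E, IsCompact K → K ⊆ W → ∃ m₀, ∀ m, m₀ ≤ m → ∀ x ∈ K, η m =ᶠ[nhds x] 1

end Pool.Agent.Lib_KF

end

/-! ### from `Lib_KF.HWt` -/

section

/-! H09: the auxiliary weights `θ_t = 2 log (1 + t ρ)`, `χ_t = B t² ρ⁵`. -/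

open MeasureTheory Complex
open scoped ENNReal ContDiff ComplexConjugate

namespace Pool.Agent.Lib_KF

open GPn

variable {E : Type} [NormedAddCommGroup E] [NormedSpace ℂ E] [FiniteDimensional ℂ E]
  {W : Set E} {ι : Type} [Fintype ι] {b : Module.Basis ι ℂ E} {D : ℕ}

/-- A good exhaustion function of `W`. -/
structure Exhaust (W : Set E) (b : Module.Basis ι ℂ E) (ρ : E → ℝ) : Prop where
  smooth : ContDiffOn ℝ ∞ ρ W
  one_le : ∀ x ∈ W, 1 ≤ ρ x
  compact : ∀ c : ℝ, IsCompact {x | x ∈ W ∧ ρ x ≤ c}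
  grad : ∃ C : ℝ, ∀ x ∈ W, gradsq b ρ x ≤ C * ρ x ^ 4
  levi : ∀ x ∈ W, ∀ a : ι → ℂ, ∑ k, ‖a k‖ ^ 2 ≤
    (∑ j, ∑ k, dzb (b k) (dz (b j) (fun y => (ρ y : ℂ))) x * a j * conj (a k)).re

section HWt_aux

omit [FiniteDimensional ℂ E] in
private lemma HWt_ip_nonneg (M : HMet W b D) {x : E} (hx : x ∈ W) (u : Fin D → ℂ) :
    0 ≤ (ip (M.H x) u u).re := by
  by_cases h : u = 0
  · subst h
    simp [ip]
  · exact (M.pos x hx u h).le

omit [FiniteDimensional ℂ E] in
private lemma HWt_ip_im (M : HMet W b D) {x : E} (hx : x ∈ W) (u : Fin D → ℂ) :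
    (ip (M.H x) u u).im = 0 := by
  have h : conj (ip (M.H x) u u) = ip (M.H x) u u := by
    unfold ip
    rw [map_sum]
    simp only [map_sum, map_mul, Complex.conj_conj]
    rw [Finset.sum_comm]
    refine Finset.sum_congr rfl fun c _ => Finset.sum_congr rfl fun a _ => ?_
    rw [M.herm x hx a c, Complex.conj_conj]
    ring
  exact Complex.conj_eq_iff_im.1 h

open scoped MatrixOrder ComplexOrder Matrix.Norms.L2Operator in
omit [FiniteDimensional ℂ E] in
private lemma HWt_factor (M : HMet W b D) {x : E} (hx : x ∈ W) :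
    ∃ B : Fin D → Fin D → ℂ, ∀ u v : Fin D → ℂ, ip (M.H x) u v =
      ∑ i, (∑ c, B i c * u c) * conj (∑ a, B i a * v a) := by
  set A : Matrix (Fin D) (Fin D) ℂ := Matrix.of (M.H x) with hA
  have hherm : A.IsHermitian := by
    ext a c
    simp only [Matrix.conjTranspose_apply, hA, Matrix.of_apply]
    exact (M.herm x hx a c).symm
  have hps : A.PosSemidef := by
    refine Matrix.PosSemidef.of_dotProduct_mulVec_nonneg hherm fun u => ?_
    have h1 : star u ⬝ᵥ (A.mulVec u) = ip (M.H x) u u := by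
      simp only [dotProduct, Matrix.mulVec, ip, Pi.star_apply, Finset.mul_sum, hA,
        Matrix.of_apply]
      refine Finset.sum_congr rfl fun a _ => Finset.sum_congr rfl fun c _ => ?_
      simp only [RCLike.star_def]
      ring
    rw [h1, Complex.nonneg_iff]
    exact ⟨HWt_ip_nonneg M hx u, (HWt_ip_im M hx u).symm⟩
  obtain ⟨B, hB⟩ := CStarAlgebra.nonneg_iff_eq_star_mul_self.mp hps.nonneg
  refine ⟨fun i c => B i c, fun u v => ?_⟩
  have hH : ∀ a c, M.H x a c = ∑ i, conj (B i a) * B i c := by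
    intro a c
    have h := congrFun (congrFun hB a) c
    simp only [hA, Matrix.of_apply] at h
    rw [h, Matrix.mul_apply]
    rfl
  have h3 : ∀ i, (∑ c, B i c * u c) * conj (∑ a, B i a * v a) =
      ∑ a, ∑ c, conj (v a) * (conj (B i a) * B i c) * u c := by
    intro i
    rw [map_sum, mul_comm, Finset.sum_mul_sum]
    refine Finset.sum_congr rfl fun a _ => Finset.sum_congr rfl fun c _ => ?_
    rw [map_mul]
    ring
  rw [Finset.sum_congr rfl fun i _ => h3 i]
  have h4 : ∑ i, ∑ a, ∑ c, conj (v a) * (conj (B i a) * B i c) * u c =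
      ∑ a, ∑ c, ∑ i, conj (v a) * (conj (B i a) * B i c) * u c :=
    Finset.sum_comm.trans (Finset.sum_congr rfl fun a _ => Finset.sum_comm)
  rw [h4]
  unfold ip
  refine Finset.sum_congr rfl fun a _ => Finset.sum_congr rfl fun c _ => ?_
  rw [hH, Finset.mul_sum, Finset.sum_mul]

end HWt_aux

/-- Positivity of the Levi form gives positivity on vectors: if `∑ P_{jk} a_j conj a_k ≥ c |a|²`
then `∑ P_{jk} ⟨f_j, f_k⟩ ≥ c ∑ |f_k|²`. -/
theorem levH_ge (M : HMet W b D) (χ : E → ℝ) (x : E) (hx : x ∈ W) (c : ℝ)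
    (h : ∀ a : ι → ℂ, c * ∑ k, ‖a k‖ ^ 2 ≤
      (∑ j, ∑ k, dzb (b k) (dz (b j) (fun y => (χ y : ℂ))) x * a j * conj (a k)).re)
    (f : ι → Fin D → ℂ) : c * ∑ k, M.nsq x (f k) ≤ levH b (M.H x) χ x f := by
  obtain ⟨B, hB⟩ := HWt_factor M hx
  set P : ι → ι → ℂ := fun j k => dzb (b k) (dz (b j) (fun y => (χ y : ℂ))) x with hP
  have h1 : levH b (M.H x) χ x f =
      ∑ i, (∑ j, ∑ k, P j k * (∑ c, B i c * f j c) * conj (∑ a, B i a * f k a)).re := by
    rw [← Complex.re_sum]
    unfold levH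
    congr 1
    have h4 : ∑ i, ∑ j, ∑ k, P j k * (∑ c, B i c * f j c) * conj (∑ a, B i a * f k a) =
        ∑ j, ∑ k, ∑ i, P j k * (∑ c, B i c * f j c) * conj (∑ a, B i a * f k a) :=
      Finset.sum_comm.trans (Finset.sum_congr rfl fun a _ => Finset.sum_comm)
    rw [h4]
    refine Finset.sum_congr rfl fun j _ => Finset.sum_congr rfl fun k _ => ?_
    rw [hB, Finset.mul_sum]
    exact Finset.sum_congr rfl fun i _ => (mul_assoc _ _ _).symm
  have h2 : ∀ k, M.nsq x (f k) = ∑ i, ‖∑ c, B i c * f k c‖ ^ 2 := by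
    intro k
    unfold HMet.nsq
    rw [hB, Complex.re_sum]
    refine Finset.sum_congr rfl fun i _ => ?_
    rw [Complex.mul_conj, Complex.normSq_eq_norm_sq, Complex.ofReal_re]
  rw [h1]
  simp only [h2]
  rw [Finset.sum_comm, Finset.mul_sum]
  exact Finset.sum_le_sum fun i _ => h fun k => ∑ c, B i c * f k c

section HWt_aux2

omit [FiniteDimensional ℂ E] in
private lemma HWt_fd {ρ : E → ℝ} {x : E} (hρ : DifferentiableAt ℝ ρ x) {G : ℝ → ℝ} {G' : ℝ}
    (hG : HasDerivAt G G' (ρ x)) (v : E) :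
    fderiv ℝ (fun y => ((G (ρ y) : ℝ) : ℂ)) x v =
      (G' : ℂ) * fderiv ℝ (fun y => (ρ y : ℂ)) x v := by
  have h1 : HasFDerivAt (fun y => G (ρ y)) (G' • fderiv ℝ ρ x) x :=
    hG.comp_hasFDerivAt x hρ.hasFDerivAt
  have h2 : fderiv ℝ (fun y => ((G (ρ y) : ℝ) : ℂ)) x = Complex.ofRealCLM.comp
      (G' • fderiv ℝ ρ x) := (Complex.ofRealCLM.hasFDerivAt.comp x h1).fderiv
  have h3 : fderiv ℝ (fun y => (ρ y : ℂ)) x = Complex.ofRealCLM.comp (fderiv ℝ ρ x) :=
    (Complex.ofRealCLM.hasFDerivAt.comp x hρ.hasFDerivAt).fderiv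
  rw [h2, h3]
  simp

omit [FiniteDimensional ℂ E] in
private lemma HWt_dz {ρ : E → ℝ} {x : E} (hρ : DifferentiableAt ℝ ρ x) {G : ℝ → ℝ} {G' : ℝ}
    (hG : HasDerivAt G G' (ρ x)) (v : E) :
    dz v (fun y => ((G (ρ y) : ℝ) : ℂ)) x = (G' : ℂ) * dz v (fun y => (ρ y : ℂ)) x := by
  simp only [dz, HWt_fd hρ hG]
  ring

omit [FiniteDimensional ℂ E] in
private lemma HWt_dzb {ρ : E → ℝ} {x : E} (hρ : DifferentiableAt ℝ ρ x) {G : ℝ → ℝ} {G' : ℝ}
    (hG : HasDerivAt G G' (ρ x)) (v : E) :
    dzb v (fun y => ((G (ρ y) : ℝ) : ℂ)) x = (G' : ℂ) * dzb v (fun y => (ρ y : ℂ)) x := by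
  simp only [dzb, HWt_fd hρ hG]
  ring

omit [FiniteDimensional ℂ E] in
private lemma HWt_conj {ρ : E → ℝ} {x : E} (hρ : DifferentiableAt ℝ ρ x) (v : E) :
    dzb v (fun y => (ρ y : ℂ)) x = conj (dz v (fun y => (ρ y : ℂ)) x) := by
  have h3 : fderiv ℝ (fun y => (ρ y : ℂ)) x = Complex.ofRealCLM.comp (fderiv ℝ ρ x) :=
    (Complex.ofRealCLM.hasFDerivAt.comp x hρ.hasFDerivAt).fderiv
  have h4 : ∀ w, fderiv ℝ (fun y => (ρ y : ℂ)) x w = ((fderiv ℝ ρ x w : ℝ) : ℂ) := by
    intro w
    rw [h3]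
    rfl
  simp only [dzb, dz, h4, map_div₀, map_sub, map_mul, conj_I, conj_ofReal]
  have : (starRingEnd ℂ) 2 = 2 := Complex.conj_ofNat 2
  rw [this]
  ring

omit [FiniteDimensional ℂ E] in
private lemma HWt_gradsq {ρ : E → ℝ} {x : E} (hρ : DifferentiableAt ℝ ρ x) {G : ℝ → ℝ} {G' : ℝ}
    (hG : HasDerivAt G G' (ρ x)) :
    gradsq b (fun y => G (ρ y)) x = G' ^ 2 * gradsq b ρ x := by
  unfold gradsq
  rw [Finset.mul_sum]
  refine Finset.sum_congr rfl fun k _ => ?_
  rw [HWt_dz hρ hG, norm_mul, mul_pow, Complex.norm_real, Real.norm_eq_abs, sq_abs]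

omit [FiniteDimensional ℂ E] in
private lemma HWt_mul {F G : E → ℂ} {x : E} (hF : DifferentiableAt ℝ F x)
    (hG : DifferentiableAt ℝ G x) (v : E) :
    dzb v (fun y => F y * G y) x = dzb v F x * G x + F x * dzb v G x := by
  have h : fderiv ℝ (fun y => F y * G y) x = F x • fderiv ℝ G x + G x • fderiv ℝ F x :=
    fderiv_fun_mul hF hG
  simp only [dzb, h, ContinuousLinearMap.add_apply, ContinuousLinearMap.smul_apply, smul_eq_mul]
  ring

omit [FiniteDimensional ℂ E] in
private lemma HWt_congr {F G : E → ℂ} {x : E} (h : F =ᶠ[nhds x] G) (v : E) :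
    dzb v F x = dzb v G x := by
  simp only [dzb, h.fderiv_eq]

omit [FiniteDimensional ℂ E] in
private lemma HWt_gradsq_congr {f g : E → ℝ} {x : E} (h : f =ᶠ[nhds x] g) :
    gradsq b f x = gradsq b g x := by
  unfold gradsq
  refine Finset.sum_congr rfl fun k _ => ?_
  have h' : (fun y => (f y : ℂ)) =ᶠ[nhds x] fun y => (g y : ℂ) := by
    filter_upwards [h] with y hy
    rw [hy]
  simp only [dz, h'.fderiv_eq]

omit [FiniteDimensional ℂ E] in
private lemma HWt_dz_smooth (hW : IsOpen W) {F : E → ℂ} (hF : ContDiffOn ℝ ∞ F W) (v : E) :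
    ContDiffOn ℝ ∞ (dz v F) W := by
  have h : ContDiffOn ℝ ∞ (fderiv ℝ F) W := hF.fderiv_of_isOpen hW (by simp)
  have h1 : ContDiffOn ℝ ∞ (fun x => fderiv ℝ F x v) W := h.clm_apply contDiffOn_const
  have h2 : ContDiffOn ℝ ∞ (fun x => fderiv ℝ F x (I • v)) W := h.clm_apply contDiffOn_const
  have : dz v F = fun x => (fderiv ℝ F x v - I * fderiv ℝ F x (I • v)) / 2 := rfl
  rw [this]
  exact (h1.sub (contDiffOn_const.mul h2)).div_const 2

omit [FiniteDimensional ℂ E] in
/-- the Levi form of `G ∘ ρ` -/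
private lemma HWt_levi (hW : IsOpen W) {ρ : E → ℝ} (hρ : ContDiffOn ℝ ∞ ρ W) {G G1 G2 : ℝ → ℝ}
    (h1 : ∀ s, HasDerivAt G (G1 s) s) (h2 : ∀ s, HasDerivAt G1 (G2 s) s) {x : E} (hx : x ∈ W)
    (v w : E) :
    dzb w (dz v (fun y => ((G (ρ y) : ℝ) : ℂ))) x =
      (G2 (ρ x) : ℂ) * (conj (dz w (fun y => (ρ y : ℂ)) x) * dz v (fun y => (ρ y : ℂ)) x) +
      (G1 (ρ x) : ℂ) * dzb w (dz v (fun y => (ρ y : ℂ))) x := by
  have hd : ∀ y ∈ W, DifferentiableAt ℝ ρ y := fun y hy =>
    (hρ.contDiffAt (hW.mem_nhds hy)).differentiableAt (by simp)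
  have hc : (dz v (fun y => ((G (ρ y) : ℝ) : ℂ))) =ᶠ[nhds x]
      fun y => ((G1 (ρ y) : ℝ) : ℂ) * dz v (fun y => (ρ y : ℂ)) y := by
    filter_upwards [hW.mem_nhds hx] with y hy
    exact HWt_dz (hd y hy) (h1 (ρ y)) v
  have hF : ContDiffOn ℝ ∞ (fun y => (ρ y : ℂ)) W := Complex.ofRealCLM.contDiff.comp_contDiffOn hρ
  have hA : DifferentiableAt ℝ (fun y => ((G1 (ρ y) : ℝ) : ℂ)) x := by
    have : HasFDerivAt (fun y => G1 (ρ y)) (G2 (ρ x) • fderiv ℝ ρ x) x :=
      (h2 (ρ x)).comp_hasFDerivAt x (hd x hx).hasFDerivAt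
    exact (Complex.ofRealCLM.hasFDerivAt.comp x this).differentiableAt
  have hB : DifferentiableAt ℝ (dz v (fun y => (ρ y : ℂ))) x :=
    ((HWt_dz_smooth hW hF v).contDiffAt (hW.mem_nhds hx)).differentiableAt (by simp)
  rw [HWt_congr hc, HWt_mul hA hB, HWt_dzb (hd x hx) (h2 (ρ x)), HWt_conj (hd x hx)]
  ring

/-- the Levi form sum, abstractly -/
private lemma HWt_sum (c1 c2 : ℂ) (d a : ι → ℂ) (P L : ι → ι → ℂ)
    (h : ∀ j k, L j k = c1 * (conj (d k) * d j) + c2 * P j k) :
    ∑ j, ∑ k, L j k * a j * conj (a k) =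
      c1 * ((∑ j, d j * a j) * conj (∑ j, d j * a j)) + c2 * ∑ j, ∑ k, P j k * a j * conj (a k) := by
  rw [map_sum, Finset.sum_mul_sum, Finset.mul_sum, Finset.mul_sum, ← Finset.sum_add_distrib]
  refine Finset.sum_congr rfl fun j _ => ?_
  rw [Finset.mul_sum, Finset.mul_sum, ← Finset.sum_add_distrib]
  refine Finset.sum_congr rfl fun k _ => ?_
  rw [h, map_mul]
  ring

omit [FiniteDimensional ℂ E] in
/-- the Levi form of `B t² ρ⁵` -/
private lemma HWt_chi (hW : IsOpen W) {ρ : E → ℝ} (hρ : ContDiffOn ℝ ∞ ρ W) (β : ℝ) {x : E}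
    (hx : x ∈ W) (a : ι → ℂ) :
    (∑ j, ∑ k, dzb (b k) (dz (b j) (fun y => ((β * ρ y ^ 5 : ℝ) : ℂ))) x * a j * conj (a k)).re =
      β * (5 * (4 * ρ x ^ 3)) * Complex.normSq (∑ j, dz (b j) (fun y => (ρ y : ℂ)) x * a j) +
      β * (5 * ρ x ^ 4) *
        (∑ j, ∑ k, dzb (b k) (dz (b j) (fun y => (ρ y : ℂ))) x * a j * conj (a k)).re := by
  have h1 : ∀ s : ℝ, HasDerivAt (fun s : ℝ => β * s ^ 5) (β * (5 * s ^ 4)) s :=
    fun s => by simpa using (hasDerivAt_pow 5 s).const_mul β
  have h2 : ∀ s : ℝ, HasDerivAt (fun s : ℝ => β * (5 * s ^ 4)) (β * (5 * (4 * s ^ 3))) s :=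
    fun s => by simpa using ((hasDerivAt_pow 4 s).const_mul 5).const_mul β
  have hL := fun j k => HWt_levi (G := fun s : ℝ => β * s ^ 5) (G1 := fun s => β * (5 * s ^ 4))
    (G2 := fun s => β * (5 * (4 * s ^ 3))) hW hρ h1 h2 hx (b j) (b k)
  rw [HWt_sum _ _ (fun j => dz (b j) (fun y => (ρ y : ℂ)) x) a
    (fun j k => dzb (b k) (dz (b j) (fun y => (ρ y : ℂ))) x) _ hL, Complex.add_re,
    Complex.re_ofReal_mul, Complex.re_ofReal_mul, Complex.mul_conj, Complex.ofReal_re]

private lemma HWt_st_deriv {s : ℝ} (h : s < 0 ∨ 1 < s) : deriv Real.smoothTransition s = 0 := by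
  rcases h with h | h
  · have : Real.smoothTransition =ᶠ[nhds s] fun _ => (0 : ℝ) := by
      filter_upwards [Iio_mem_nhds h] with y hy
      exact Real.smoothTransition.zero_of_nonpos (le_of_lt hy)
    rw [this.deriv_eq]
    simp
  · have : Real.smoothTransition =ᶠ[nhds s] fun _ => (1 : ℝ) := by
      filter_upwards [Ioi_mem_nhds h] with y hy
      exact Real.smoothTransition.one_of_one_le (le_of_lt hy)
    rw [this.deriv_eq]
    simp

private lemma HWt_st_bound : ∃ C : ℝ, 0 ≤ C ∧ ∀ s, |deriv Real.smoothTransition s| ≤ C := by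
  have hc : Continuous (deriv Real.smoothTransition) :=
    (Real.smoothTransition.contDiff (n := 1)).continuous_deriv (by simp)
  obtain ⟨C, hC⟩ := (isCompact_Icc (a := (0 : ℝ)) (b := 1)).exists_bound_of_continuousOn
    hc.continuousOn
  have h0 : 0 ≤ C := (norm_nonneg _).trans (hC 0 (by simp))
  refine ⟨C, h0, fun s => ?_⟩
  by_cases hs : s ∈ Set.Icc (0 : ℝ) 1
  · exact hC s hs
  · rw [Set.mem_Icc, not_and_or, not_le, not_le] at hs
    rw [HWt_st_deriv hs]
    simpa using h0

private lemma HWt_exp (y : ℝ) (hy : 0 ≤ y) : (1 + y) ^ 4 * Real.exp (-y ^ 2) ≤ 8 := by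
  have h1 : (1 + y) ^ 4 ≤ 4 * (1 + y ^ 2) ^ 2 := by
    have : (1 + y) ^ 2 ≤ 2 * (1 + y ^ 2) := by nlinarith [sq_nonneg (1 - y)]
    calc (1 + y) ^ 4 = ((1 + y) ^ 2) ^ 2 := by ring
      _ ≤ (2 * (1 + y ^ 2)) ^ 2 := pow_le_pow_left₀ (by positivity) this 2
      _ = _ := by ring
  have h2 : (1 + y ^ 2) ^ 2 ≤ 2 * Real.exp (y ^ 2) := by
    have h := Real.quadratic_le_exp_of_nonneg (sq_nonneg y)
    nlinarith
  have h3 : Real.exp (y ^ 2) * Real.exp (-y ^ 2) = 1 := by
    rw [← Real.exp_add]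
    simp
  calc (1 + y) ^ 4 * Real.exp (-y ^ 2) ≤ (8 * Real.exp (y ^ 2)) * Real.exp (-y ^ 2) := by
        refine mul_le_mul_of_nonneg_right ?_ (Real.exp_pos _).le
        linarith
    _ = 8 := by rw [mul_assoc, h3, mul_one]

omit [FiniteDimensional ℂ E] in
private lemma HWt_cut (hW : IsOpen W) {ρ : E → ℝ} (hρ : Exhaust W b ρ) {C : ℝ} (hC0 : 0 ≤ C)
    (hC : ∀ x ∈ W, gradsq b ρ x ≤ C * ρ x ^ 4) {t : ℝ} (ht : 0 < t) (θ : E → ℝ)
    (hθ : ∀ x ∈ W, Real.exp (θ x) = (1 + t * ρ x) ^ 2) : HasCutoffs W b θ := by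
  classical
  obtain ⟨C2, hC20, hC2⟩ := HWt_st_bound
  have hdiff : ∀ y ∈ W, DifferentiableAt ℝ ρ y := fun y hy =>
    (hρ.smooth.contDiffAt (hW.mem_nhds hy)).differentiableAt (by simp)
  set g : ℕ → ℝ → ℝ := fun m s => Real.smoothTransition (2 - s / (m + 1)) with hg
  set η : ℕ → E → ℝ := fun m x => if x ∈ W then g m (ρ x) else 0 with hη
  have hm : ∀ m : ℕ, (0 : ℝ) < (m : ℝ) + 1 := fun m => by positivity
  have hloc : ∀ m : ℕ, ∀ x ∈ W, η m =ᶠ[nhds x] fun y => g m (ρ y) := by
    intro m x hx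
    filter_upwards [hW.mem_nhds hx] with y hy
    simp only [hη, if_pos hy]
  have hz : ∀ m : ℕ, Function.support (η m) ⊆ {x | x ∈ W ∧ ρ x ≤ 2 * ((m : ℝ) + 1)} := by
    intro m x hx
    have hxW : x ∈ W := by
      by_contra hxW
      exact hx (by simp only [hη, if_neg hxW])
    refine ⟨hxW, ?_⟩
    by_contra hle
    refine hx ?_
    simp only [hη, if_pos hxW, hg]
    refine Real.smoothTransition.zero_of_nonpos ?_
    have h1 : 2 < ρ x / ((m : ℝ) + 1) := (lt_div_iff₀ (hm m)).2 (not_le.1 hle)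
    linarith
  have hts : ∀ m : ℕ, tsupport (η m) ⊆ {x | x ∈ W ∧ ρ x ≤ 2 * ((m : ℝ) + 1)} := fun m =>
    closure_minimal (hz m) (hρ.compact _).isClosed
  have hgs : ∀ m : ℕ, ContDiff ℝ ∞ (g m) := fun m =>
    Real.smoothTransition.contDiff.comp (contDiff_const.sub (contDiff_id.div_const _))
  have hgd : ∀ (m : ℕ) (s : ℝ), HasDerivAt (g m)
      (-(deriv Real.smoothTransition (2 - s / (m + 1)) / (m + 1))) s := by
    intro m s
    have h1 : HasDerivAt (fun s : ℝ => 2 - s / ((m : ℝ) + 1)) (-(1 / ((m : ℝ) + 1))) s := by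
      simpa using ((hasDerivAt_id s).div_const ((m : ℝ) + 1)).const_sub 2
    have h2 : HasDerivAt Real.smoothTransition (deriv Real.smoothTransition (2 - s / (m + 1)))
        (2 - s / ((m : ℝ) + 1)) :=
      ((Real.smoothTransition.contDiff (n := 1)).differentiable (by simp) _).hasDerivAt
    have h4 : -(deriv Real.smoothTransition (2 - s / (m + 1)) / (m + 1)) =
        deriv Real.smoothTransition (2 - s / (m + 1)) * (-(1 / ((m : ℝ) + 1))) := by ring
    rw [h4]
    exact h2.comp s h1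
  refine ⟨4 * C2 ^ 2 * C / t ^ 2, η, fun m => ⟨?_, ?_, ?_, ?_, ?_, ?_⟩⟩
  · rw [contDiff_iff_contDiffAt]
    intro x
    by_cases hx : x ∈ W
    · exact ((hgs m).contDiffAt.comp x (hρ.smooth.contDiffAt (hW.mem_nhds hx))).congr_of_eventuallyEq
        (hloc m x hx)
    · have h1 : x ∉ tsupport (η m) := fun h => hx (hts m h).1
      exact contDiffAt_const.congr_of_eventuallyEq (notMem_tsupport_iff_eventuallyEq.1 h1)
  · exact (hρ.compact _).of_isClosed_subset (isClosed_tsupport _) (hts m)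
  · exact fun x hx => (hts m hx).1
  · intro x
    simp only [hη]
    split_ifs
    · exact ⟨Real.smoothTransition.nonneg _, Real.smoothTransition.le_one _⟩
    · simp
  · intro x hx
    have hρ1 := hρ.one_le x hx
    rw [HWt_gradsq_congr (hloc m x hx), HWt_gradsq (b := b) (G := g m) (hdiff x hx) (hgd m (ρ x)),
      hθ x hx]
    have h7 : 0 ≤ gradsq b ρ x := by
      unfold gradsq
      exact Finset.sum_nonneg fun k _ => by positivity
    by_cases h : 2 - ρ x / ((m : ℝ) + 1) < 0
    · rw [HWt_st_deriv (Or.inl h)]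
      simp only [zero_div, neg_zero]
      have : 0 ≤ 4 * C2 ^ 2 * C / t ^ 2 * (1 + t * ρ x) ^ 2 := by positivity
      simpa using this
    · have h1 : ρ x / ((m : ℝ) + 1) ≤ 2 := by linarith
      have h0 : 0 ≤ ρ x / ((m : ℝ) + 1) := by positivity
      have h2 : deriv Real.smoothTransition (2 - ρ x / (m + 1)) ^ 2 ≤ C2 ^ 2 := by
        rw [← sq_abs]
        exact pow_le_pow_left₀ (abs_nonneg _) (hC2 _) 2
      have h3 : (ρ x / ((m : ℝ) + 1)) ^ 2 ≤ 4 := by nlinarith
      have h4 : t ^ 2 * ρ x ^ 2 ≤ (1 + t * ρ x) ^ 2 := by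
        have : 0 ≤ t * ρ x := by positivity
        nlinarith
      calc (-(deriv Real.smoothTransition (2 - ρ x / (m + 1)) / (m + 1))) ^ 2 * gradsq b ρ x
          = deriv Real.smoothTransition (2 - ρ x / (m + 1)) ^ 2 *
            (gradsq b ρ x / ((m : ℝ) + 1) ^ 2) := by
              rw [neg_sq, div_pow]
              ring
        _ ≤ C2 ^ 2 * (C * ρ x ^ 4 / ((m : ℝ) + 1) ^ 2) := by
          gcongr
          exact hC x hx
        _ = C2 ^ 2 * C * ρ x ^ 2 * (ρ x / ((m : ℝ) + 1)) ^ 2 := by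
          rw [div_pow]
          ring
        _ ≤ C2 ^ 2 * C * ρ x ^ 2 * 4 := by gcongr
        _ = 4 * C2 ^ 2 * C / t ^ 2 * (t ^ 2 * ρ x ^ 2) := by
          field_simp
        _ ≤ _ := by gcongr
  · intro K hK hKW
    obtain ⟨R, hR⟩ := hK.bddAbove_image (hρ.smooth.continuousOn.mono hKW)
    refine ⟨⌈R⌉₊, fun n hn x hx => ?_⟩
    have h1 : ρ x < (n : ℝ) + 1 := by
      have h2 : ρ x ≤ R := hR (Set.mem_image_of_mem ρ hx)
      have h3 : R ≤ (n : ℝ) := (Nat.le_ceil R).trans (by exact_mod_cast hn)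
      linarith
    have h2 : ∀ᶠ y in nhds x, ρ y < (n : ℝ) + 1 :=
      (hdiff x (hKW hx)).continuousAt.eventually_lt continuousAt_const h1
    filter_upwards [hloc n x (hKW hx), h2] with y hy hy2
    rw [hy]
    simp only [hg, Pi.one_apply]
    refine Real.smoothTransition.one_of_one_le ?_
    have h3 : ρ y / ((n : ℝ) + 1) < 1 := (div_lt_one (hm n)).2 hy2
    linarith

end HWt_aux2

theorem exists_weights (hW : IsOpen W) (ρ : E → ℝ) (hρ : Exhaust W b ρ) :
    ∃ B : ℝ, 1 ≤ B ∧ ∀ t : ℝ, 0 < t → t ≤ 1 →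
      let θ : E → ℝ := fun x => 2 * Real.log (1 + t * ρ x)
      let χ : E → ℝ := fun x => B * t ^ 2 * ρ x ^ 5
      ContDiffOn ℝ ∞ θ W ∧ ContDiffOn ℝ ∞ χ W ∧
      (∀ (D : ℕ) (M : HMet W b D), ∀ x ∈ W, ∀ f : ι → Fin D → ℂ,
        2 * gradsq b θ x * ∑ k, M.nsq x (f k) ≤ levH b (M.H x) χ x f) ∧
      HasCutoffs W b θ ∧ (∀ x ∈ W, Real.exp (2 * θ x - χ x) ≤ 8) ∧ (∀ x ∈ W, 0 ≤ θ x) := by
  obtain ⟨C, hC⟩ := hρ.grad
  obtain ⟨C2, hC20, hC2⟩ := HWt_st_bound
  have hC0 : ∀ x ∈ W, gradsq b ρ x ≤ |C| * ρ x ^ 4 := fun x hx =>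
    (hC x hx).trans (mul_le_mul_of_nonneg_right (le_abs_self C)
      (by have := hρ.one_le x hx; positivity))
  obtain ⟨B, hB1, hB8⟩ : ∃ B : ℝ, 1 ≤ B ∧ 8 * |C| ≤ B :=
    ⟨max 1 (8 * |C|), le_max_left _ _, le_max_right _ _⟩
  refine ⟨B, hB1, fun t ht ht1 => ?_⟩
  intro θ χ
  have hpos : ∀ x ∈ W, 0 < 1 + t * ρ x := fun x hx => by
    have := hρ.one_le x hx
    positivity
  have hdiff : ∀ y ∈ W, DifferentiableAt ℝ ρ y := fun y hy =>
    (hρ.smooth.contDiffAt (hW.mem_nhds hy)).differentiableAt (by simp)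
  have hθs : ContDiffOn ℝ ∞ θ W :=
    contDiffOn_const.mul ((contDiffOn_const.add (contDiffOn_const.mul hρ.smooth)).log
      fun x hx => (hpos x hx).ne')
  have hχs : ContDiffOn ℝ ∞ χ W := contDiffOn_const.mul (hρ.smooth.pow 5)
  refine ⟨hθs, hχs, ?_, ?_, ?_, ?_⟩
  · intro D M x hx f
    refine levH_ge M χ x hx _ (fun a => ?_) f
    have hρ1 := hρ.one_le x hx
    have hg : gradsq b θ x = (2 * (t / (1 + t * ρ x))) ^ 2 * gradsq b ρ x := by
      have hG : HasDerivAt (fun s : ℝ => 2 * Real.log (1 + t * s)) (2 * (t / (1 + t * ρ x)))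
          (ρ x) := by
        have h0 : HasDerivAt (fun s : ℝ => 1 + t * s) t (ρ x) := by
          simpa using ((hasDerivAt_id (ρ x)).const_mul t).const_add 1
        exact (h0.log (hpos x hx).ne').const_mul 2
      exact HWt_gradsq (b := b) (G := fun s : ℝ => 2 * Real.log (1 + t * s)) (hdiff x hx) hG
    have hS : (∑ j, ∑ k, dzb (b k) (dz (b j) (fun y => (χ y : ℂ))) x * a j * conj (a k)).re =
        B * t ^ 2 * (5 * (4 * ρ x ^ 3)) *
          Complex.normSq (∑ j, dz (b j) (fun y => (ρ y : ℂ)) x * a j) +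
        B * t ^ 2 * (5 * ρ x ^ 4) *
          (∑ j, ∑ k, dzb (b k) (dz (b j) (fun y => (ρ y : ℂ))) x * a j * conj (a k)).re :=
      HWt_chi hW hρ.smooth (B * t ^ 2) hx a
    rw [hS]
    have hn := Complex.normSq_nonneg (∑ j, dz (b j) (fun y => (ρ y : ℂ)) x * a j)
    have hl := hρ.levi x hx a
    have hsum : 0 ≤ ∑ k, ‖a k‖ ^ 2 := Finset.sum_nonneg fun k _ => by positivity
    have hc : 2 * gradsq b θ x ≤ B * t ^ 2 * (5 * ρ x ^ 4) := by
      rw [hg]
      have h3 : (2 * (t / (1 + t * ρ x))) ^ 2 ≤ 4 * t ^ 2 := by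
        have h4 : t / (1 + t * ρ x) ≤ t := div_le_self ht.le (by
          have : 0 ≤ t * ρ x := by positivity
          linarith)
        have h5 : 0 ≤ t / (1 + t * ρ x) := div_nonneg ht.le (hpos x hx).le
        nlinarith
      have h6 : gradsq b ρ x ≤ |C| * ρ x ^ 4 := hC0 x hx
      have h7 : 0 ≤ gradsq b ρ x := by
        unfold gradsq
        exact Finset.sum_nonneg fun k _ => by positivity
      calc 2 * ((2 * (t / (1 + t * ρ x))) ^ 2 * gradsq b ρ x)
          ≤ 2 * (4 * t ^ 2 * (|C| * ρ x ^ 4)) := by gcongr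
        _ = (8 * |C|) * (t ^ 2 * ρ x ^ 4) := by ring
        _ ≤ B * (t ^ 2 * ρ x ^ 4) := by gcongr
        _ ≤ B * t ^ 2 * (5 * ρ x ^ 4) := by
          have : 0 ≤ B * (t ^ 2 * ρ x ^ 4) := by positivity
          nlinarith
    calc 2 * gradsq b θ x * ∑ k, ‖a k‖ ^ 2 ≤ (B * t ^ 2 * (5 * ρ x ^ 4)) * ∑ k, ‖a k‖ ^ 2 :=
          mul_le_mul_of_nonneg_right hc hsum
      _ ≤ (B * t ^ 2 * (5 * ρ x ^ 4)) *
          (∑ j, ∑ k, dzb (b k) (dz (b j) (fun y => (ρ y : ℂ))) x * a j * conj (a k)).re :=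
          mul_le_mul_of_nonneg_left hl (by positivity)
      _ ≤ _ := le_add_of_nonneg_left (mul_nonneg (by positivity) hn)
  · refine HWt_cut hW hρ (abs_nonneg C) hC0 ht θ fun x hx => ?_
    have : θ x = ((2 : ℕ) : ℝ) * Real.log (1 + t * ρ x) := by
      simp only [θ]
      push_cast
      ring
    rw [this, Real.exp_nat_mul, Real.exp_log (hpos x hx)]
  · intro x hx
    have hρ1 := hρ.one_le x hx
    have h0 : 0 ≤ t * ρ x := by positivity
    have h1 : Real.exp (2 * θ x) = (1 + t * ρ x) ^ 4 := by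
      have : 2 * θ x = ((4 : ℕ) : ℝ) * Real.log (1 + t * ρ x) := by
        simp only [θ]
        push_cast
        ring
      rw [this, Real.exp_nat_mul, Real.exp_log (hpos x hx)]
    have h2 : (t * ρ x) ^ 2 ≤ χ x := by
      have h3 : ρ x ^ 2 ≤ ρ x ^ 5 := pow_le_pow_right₀ hρ1 (by norm_num)
      calc (t * ρ x) ^ 2 = 1 * (t ^ 2 * ρ x ^ 2) := by ring
        _ ≤ B * (t ^ 2 * ρ x ^ 5) := by gcongr
        _ = χ x := by simp only [χ]; ring
    calc Real.exp (2 * θ x - χ x) ≤ Real.exp (2 * θ x + -(t * ρ x) ^ 2) :=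
          Real.exp_le_exp.2 (by linarith)
      _ = (1 + t * ρ x) ^ 4 * Real.exp (-(t * ρ x) ^ 2) := by rw [Real.exp_add, h1]
      _ ≤ 8 := HWt_exp _ h0
  · intro x hx
    have hρ1 := hρ.one_le x hx
    have h0 : 0 ≤ t * ρ x := by positivity
    exact mul_nonneg (by norm_num) (Real.log_nonneg (by linarith))

end Pool.Agent.Lib_KF

end

/-! ### from `Lib_MP_e0d435_ag.HMoll` -/

section

/- piece HM: mollification in L^2 on compact sets -/

open Finset MeasureTheory Complex
open scoped ENNReal ContDiff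

namespace GPn

variable {E : Type*} [NormedAddCommGroup E] [NormedSpace ℂ E] [FiniteDimensional ℂ E]
  [MeasurableSpace E] [BorelSpace E]

omit [NormedSpace ℂ E] [FiniteDimensional ℂ E] [BorelSpace E] in
/-- the square of the L^2 norm -/
private theorem HMoll_sq (mu : Measure E) (f : E → ℂ) :
    (eLpNorm f 2 mu) ^ 2 = ∫⁻ x, ‖f x‖ₑ ^ 2 ∂mu := by
  have h := eLpNorm_eq_lintegral_rpow_enorm_toReal (μ := mu) (f := f) (p := 2) two_ne_zero
    ENNReal.ofNat_ne_top
  rw [h, ENNReal.toReal_ofNat, ← ENNReal.rpow_natCast, ← ENNReal.rpow_mul]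
  norm_num

/-- continuity of the translations in L^2 -/
private theorem HMoll_translate (mu : Measure E) [mu.IsAddHaarMeasure] (v : E → ℂ)
    (hv : MemLp v 2 mu) :
    Filter.Tendsto (fun t : E => eLpNorm (fun x => v (x - t) - v x) 2 mu) (nhds 0) (nhds 0) := by
  have : FiniteDimensional ℝ E := FiniteDimensional.complexToReal E
  have : ProperSpace E := FiniteDimensional.proper_real E
  have : SecondCountableTopology E := inferInstance
  let g : E → C(E, E) := fun t => ⟨fun x => x - t, by fun_prop⟩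
  have hgc : Continuous g := by
    have h1 : Continuous (fun p : E × E => p.2 - p.1) := by fun_prop
    exact (ContinuousMap.curry ⟨fun p : E × E => p.2 - p.1, h1⟩).continuous
  have hgm : ∀ t, MeasurePreserving (g t) mu mu := fun t => measurePreserving_sub_right mu t
  have ht := Filter.Tendsto.compMeasurePreservingLp (E := ℂ) (p := 2) (l := nhds (0 : E))
    (f := fun _ => hv.toLp v) (f₀ := hv.toLp v) (g := g) (g₀ := g 0) tendsto_const_nhds
    (hgc.tendsto 0) hgm (hgm 0) ENNReal.ofNat_ne_top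
  rw [tendsto_iff_edist_tendsto_0] at ht
  refine ht.congr fun t => ?_
  rw [Lp.edist_def]
  apply eLpNorm_congr_ae
  have h1 := Lp.coeFn_compMeasurePreserving (hv.toLp v) (hgm t)
  have h2 := Lp.coeFn_compMeasurePreserving (hv.toLp v) (hgm 0)
  have h3 := hv.coeFn_toLp
  have h4 := (hgm t).quasiMeasurePreserving.ae_eq_comp h3
  have h5 := (hgm 0).quasiMeasurePreserving.ae_eq_comp h3
  filter_upwards [h1, h2, h4, h5] with x e1 e2 e4 e5
  rw [Pi.sub_apply, e1, e2, e4, e5]
  simp [g]

/-- Jensen: the mollification error is at most the largest translation error -/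
private theorem HMoll_jensen (mu : Measure E) [mu.IsAddHaarMeasure] (r : E → ℝ)
    (hr0 : ∀ x, 0 ≤ r x) (hrc : Continuous r) (hrs : HasCompactSupport r)
    (hr1 : ∫ x, r x ∂mu = 1) (v : E → ℂ) (hv : MemLp v 2 mu) (hvm : StronglyMeasurable v)
    (d : ℝ≥0∞) (hd : ∀ t, r t ≠ 0 → eLpNorm (fun x => v (x - t) - v x) 2 mu ≤ d) :
    eLpNorm (fun x => (∫ y, (r (x - y) : ℂ) * v y ∂mu) - v x) 2 mu ≤ d := by
  have : FiniteDimensional ℝ E := FiniteDimensional.complexToReal E
  have : ProperSpace E := FiniteDimensional.proper_real E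
  have : SecondCountableTopology E := inferInstance
  have hrm : Measurable fun t => ENNReal.ofReal (r t) := hrc.measurable.ennreal_ofReal
  have hri : Integrable r mu := hrc.integrable_of_hasCompactSupport hrs
  set nu : Measure E := mu.withDensity (fun t => ENNReal.ofReal (r t)) with hnu
  have : IsProbabilityMeasure nu := by
    constructor
    rw [hnu, withDensity_apply _ MeasurableSet.univ, Measure.restrict_univ,
      ← ofReal_integral_eq_lintegral_ofReal hri (Filter.Eventually.of_forall hr0), hr1,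
      ENNReal.ofReal_one]
  -- pointwise
  have hint : ∀ x, Integrable (fun t => (r t : ℂ) * v (x - t)) mu := by
    intro x
    have h1 : MemLp (fun t => (r t : ℂ)) 2 mu := by
      have hc : Continuous fun t => (r t : ℂ) := Complex.continuous_ofReal.comp hrc
      refine hc.memLp_of_hasCompactSupport ?_
      exact hrs.comp_left Complex.ofReal_zero
    have h2 : MemLp (fun t => v (x - t)) 2 mu :=
      hv.comp_measurePreserving (Measure.measurePreserving_sub_left mu x)
    exact h1.integrable_mul h2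
  have hpt : ∀ x, ‖(∫ y, (r (x - y) : ℂ) * v y ∂mu) - v x‖ₑ ^ 2 ≤
      ∫⁻ t, ENNReal.ofReal (r t) * ‖v (x - t) - v x‖ₑ ^ 2 ∂mu := by
    intro x
    have hmeas : StronglyMeasurable fun t => v (x - t) - v x := by
      refine StronglyMeasurable.sub (hvm.comp_measurable ?_) stronglyMeasurable_const
      fun_prop
    have e1 : (∫ y, (r (x - y) : ℂ) * v y ∂mu) = ∫ t, (r t : ℂ) * v (x - t) ∂mu := by
      rw [← integral_sub_left_eq_self (fun t => (r t : ℂ) * v (x - t)) mu x]
      simp
    have e2 : ∫ t, (v (x - t) - v x) ∂nu = (∫ t, (r t : ℂ) * v (x - t) ∂mu) - v x := by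
      rw [hnu, integral_withDensity_eq_integral_toReal_smul hrm
        (Filter.Eventually.of_forall fun t => ENNReal.ofReal_lt_top)]
      have e3 : ∀ t, (ENNReal.ofReal (r t)).toReal • (v (x - t) - v x) =
          (r t : ℂ) * v (x - t) - (r t : ℂ) * v x := by
        intro t
        rw [ENNReal.toReal_ofReal (hr0 t), Complex.real_smul]
        ring
      simp_rw [e3]
      have hi2 : Integrable (fun t => (r t : ℂ) * v x) mu := (hri.ofReal).mul_const (v x)
      rw [integral_sub (hint x) hi2, integral_mul_const, integral_complex_ofReal, hr1]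
      simp
    rw [e1, ← e2]
    have h4 : ‖∫ t, (v (x - t) - v x) ∂nu‖ₑ ≤ eLpNorm (fun t => v (x - t) - v x) 2 nu := by
      refine (enorm_integral_le_lintegral_enorm _).trans ?_
      rw [← eLpNorm_one_eq_lintegral_enorm]
      exact eLpNorm_le_eLpNorm_of_exponent_le (by norm_num) hmeas.aestronglyMeasurable
    calc ‖∫ t, (v (x - t) - v x) ∂nu‖ₑ ^ 2
        ≤ (eLpNorm (fun t => v (x - t) - v x) 2 nu) ^ 2 := by gcongr
      _ = ∫⁻ t, ‖v (x - t) - v x‖ₑ ^ 2 ∂nu := HMoll_sq _ _
      _ = ∫⁻ t, ENNReal.ofReal (r t) * ‖v (x - t) - v x‖ₑ ^ 2 ∂mu := by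
          rw [hnu, lintegral_withDensity_eq_lintegral_mul _ hrm]
          · rfl
          · exact hmeas.enorm.pow_const 2
  -- integrate in x
  have hjoint : Measurable (Function.uncurry fun x t : E =>
      ENNReal.ofReal (r t) * ‖v (x - t) - v x‖ₑ ^ 2) := by
    have m1 : Measurable fun q : E × E => ENNReal.ofReal (r q.2) := hrm.comp measurable_snd
    have m2 : StronglyMeasurable fun q : E × E => v (q.1 - q.2) - v q.1 := by
      refine StronglyMeasurable.sub (hvm.comp_measurable ?_) (hvm.comp_measurable measurable_fst)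
      exact measurable_fst.sub measurable_snd
    exact m1.mul (m2.enorm.pow_const 2)
  have hfin : (eLpNorm (fun x => (∫ y, (r (x - y) : ℂ) * v y ∂mu) - v x) 2 mu) ^ 2 ≤ d ^ 2 := by
    rw [HMoll_sq]
    calc ∫⁻ x, ‖(∫ y, (r (x - y) : ℂ) * v y ∂mu) - v x‖ₑ ^ 2 ∂mu
        ≤ ∫⁻ x, ∫⁻ t, ENNReal.ofReal (r t) * ‖v (x - t) - v x‖ₑ ^ 2 ∂mu ∂mu :=
          lintegral_mono hpt
      _ = ∫⁻ t, ∫⁻ x, ENNReal.ofReal (r t) * ‖v (x - t) - v x‖ₑ ^ 2 ∂mu ∂mu :=
          lintegral_lintegral_swap hjoint.aemeasurable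
      _ ≤ ∫⁻ t, ENNReal.ofReal (r t) * d ^ 2 ∂mu := by
          apply lintegral_mono
          intro t
          have hm : Measurable fun x => ‖v (x - t) - v x‖ₑ ^ 2 := by
            refine (StronglyMeasurable.enorm ?_).pow_const 2
            refine StronglyMeasurable.sub (hvm.comp_measurable ?_) hvm
            fun_prop
          show ∫⁻ x, ENNReal.ofReal (r t) * ‖v (x - t) - v x‖ₑ ^ 2 ∂mu ≤
            ENNReal.ofReal (r t) * d ^ 2
          rw [lintegral_const_mul _ hm, ← HMoll_sq]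
          by_cases h0 : r t = 0
          · simp [h0]
          · gcongr
            exact hd t h0
      _ = d ^ 2 := by
          rw [lintegral_mul_const _ hrm,
            ← ofReal_integral_eq_lintegral_ofReal hri (Filter.Eventually.of_forall hr0), hr1,
            ENNReal.ofReal_one, one_mul]
  exact (ENNReal.pow_le_pow_left_iff two_ne_zero).1 hfin

/-- there are smooth bumps r n, supports shrinking to 0, with total mass 1, such that the
convolutions of u converge to u in L^2 on every compact set, for every locally L^2 function u -/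
theorem exists_mollifier (mu : Measure E) [mu.IsAddHaarMeasure] :
    ∃ r : ℕ → E → ℝ, (∀ n, ContDiff ℝ ∞ (r n)) ∧ (∀ n, HasCompactSupport (r n)) ∧
      (∀ n x, 0 ≤ r n x) ∧ (∀ n, ∫ x, r n x ∂mu = 1) ∧
      (∀ n x, r n x ≠ 0 → ‖x‖ ≤ 1 / ((n : ℝ) + 1)) ∧
      ∀ u : E → ℂ, (∀ K : Set E, IsCompact K → MemLp u 2 (mu.restrict K)) →
        ∀ K : Set E, IsCompact K →
          Filter.Tendsto (fun n => eLpNorm (fun x => (∫ y, (r n (x - y) : ℂ) * u y ∂mu) - u x) 2
            (mu.restrict K)) Filter.atTop (nhds 0) := by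
  have : FiniteDimensional ℝ E := FiniteDimensional.complexToReal E
  have : ProperSpace E := FiniteDimensional.proper_real E
  have : SecondCountableTopology E := inferInstance
  let f : ℕ → ContDiffBump (0 : E) := fun n =>
    ⟨1 / (2 * ((n : ℝ) + 1)), 1 / ((n : ℝ) + 1), by positivity, by
      apply one_div_lt_one_div_of_lt (by positivity)
      have : (0 : ℝ) ≤ n := Nat.cast_nonneg n
      linarith⟩
  have hsupp : ∀ n x, (f n).normed mu x ≠ 0 → ‖x‖ ≤ 1 / ((n : ℝ) + 1) := by
    intro n x hx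
    have h1 : x ∈ Function.support ((f n).normed mu) := hx
    rw [(f n).support_normed_eq, mem_ball_zero_iff] at h1
    exact h1.le
  refine ⟨fun n => (f n).normed mu, fun n => (f n).contDiff_normed,
    fun n => (f n).hasCompactSupport_normed, fun n x => (f n).nonneg_normed x,
    fun n => (f n).integral_normed, hsupp, ?_⟩
  intro u hu K hK
  -- cut off
  set K' : Set E := Metric.cthickening 1 K with hK'
  have hK'c : IsCompact K' := hK.cthickening
  have hv0 : MemLp (K'.indicator u) 2 mu :=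
    (memLp_indicator_iff_restrict hK'c.measurableSet).2 (hu K' hK'c)
  set v : E → ℂ := hv0.1.mk (K'.indicator u) with hvdef
  have hvae : K'.indicator u =ᵐ[mu] v := hv0.1.ae_eq_mk
  have hv : MemLp v 2 mu := (memLp_congr_ae hvae).1 hv0
  have hvm : StronglyMeasurable v := hv0.1.stronglyMeasurable_mk
  have hconv : ∀ n x, x ∈ K → ∫ y, ((f n).normed mu (x - y) : ℂ) * u y ∂mu =
      ∫ y, ((f n).normed mu (x - y) : ℂ) * v y ∂mu := by
    intro n x hx
    have h1 : ∀ y, ((f n).normed mu (x - y) : ℂ) * u y =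
        ((f n).normed mu (x - y) : ℂ) * K'.indicator u y := by
      intro y
      by_cases h0 : (f n).normed mu (x - y) = 0
      · simp [h0]
      · have h2 := hsupp n _ h0
        have h3 : y ∈ K' := by
          refine Metric.mem_cthickening_of_dist_le y x 1 K hx ?_
          rw [dist_comm, dist_eq_norm]
          refine h2.trans ?_
          rw [div_le_one (by positivity)]
          have : (0 : ℝ) ≤ n := Nat.cast_nonneg n
          linarith
        rw [Set.indicator_of_mem h3]
    simp_rw [h1]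
    apply integral_congr_ae
    filter_upwards [hvae] with y hy
    rw [hy]
  have hle : ∀ n, eLpNorm (fun x => (∫ y, ((f n).normed mu (x - y) : ℂ) * u y ∂mu) - u x) 2
      (mu.restrict K) ≤
      eLpNorm (fun x => (∫ y, ((f n).normed mu (x - y) : ℂ) * v y ∂mu) - v x) 2 mu := by
    intro n
    have h1 : (fun x => (∫ y, ((f n).normed mu (x - y) : ℂ) * u y ∂mu) - u x)
        =ᵐ[mu.restrict K]
        (fun x => (∫ y, ((f n).normed mu (x - y) : ℂ) * v y ∂mu) - v x) := by
      filter_upwards [ae_restrict_mem hK.measurableSet, ae_restrict_of_ae hvae] with x hx hxv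
      rw [hconv n x hx, ← hxv, Set.indicator_of_mem (Metric.self_subset_cthickening K hx)]
    rw [eLpNorm_congr_ae h1]
    exact eLpNorm_mono_measure _ Measure.restrict_le_self
  rw [ENNReal.tendsto_nhds_zero]
  intro eps heps
  have ht := HMoll_translate mu v hv
  rw [ENNReal.tendsto_nhds_zero] at ht
  have ht' := ht eps heps
  rw [Metric.eventually_nhds_iff] at ht'
  obtain ⟨del, hdel, hball⟩ := ht'
  have hsmall : ∀ᶠ n : ℕ in Filter.atTop, 1 / ((n : ℝ) + 1) < del :=
    (tendsto_one_div_add_atTop_nhds_zero_nat).eventually (gt_mem_nhds hdel)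
  filter_upwards [hsmall] with n hn
  refine (hle n).trans ?_
  apply HMoll_jensen mu _ (fun x => (f n).nonneg_normed x) (f n).continuous_normed
    (f n).hasCompactSupport_normed (f n).integral_normed v hv hvm
  intro t ht0
  apply hball
  rw [dist_zero_right]
  exact (hsupp n t ht0).trans_lt hn

end GPn

end

/-! ### from `Lib_KF.HOrtho` -/

section

/-! H07: a measurable orthonormal frame; completeness of `L²(W, H)` in the form of a
Riesz representation theorem and of orthogonal projections. -/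

open MeasureTheory Complex
open scoped ENNReal ContDiff ComplexConjugate

namespace Pool.Agent.Lib_KF

open GPn

/-- completing the square in the first coordinate -/
private theorem hOrtho_ip_succ {D : ℕ} (H : Fin (D + 1) → Fin (D + 1) → ℂ)
    (hh : ∀ a c, H a c = conj (H c a)) (h0 : H 0 0 ≠ 0) (u v : Fin (D + 1) → ℂ) :
    ip H u v = conj (H 0 0 * v 0 + ∑ c : Fin D, H 0 c.succ * v c.succ) *
        (H 0 0 * u 0 + ∑ c : Fin D, H 0 c.succ * u c.succ) / H 0 0 +
      ip (fun i c : Fin D => H i.succ c.succ - conj (H 0 i.succ) * H 0 c.succ / H 0 0)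
        (fun c => u c.succ) (fun c => v c.succ) := by
  have hr : conj (H 0 0) = H 0 0 := (hh 0 0).symm
  have e1 : ip (fun i c : Fin D => H i.succ c.succ - conj (H 0 i.succ) * H 0 c.succ / H 0 0)
        (fun c => u c.succ) (fun c => v c.succ) =
      (∑ i : Fin D, ∑ c : Fin D, conj (v i.succ) * H i.succ c.succ * u c.succ) -
        (∑ i : Fin D, conj (H 0 i.succ) * conj (v i.succ)) *
          (∑ c : Fin D, H 0 c.succ * u c.succ) / H 0 0 := by
    unfold ip
    rw [Finset.sum_mul_sum, Finset.sum_div, ← Finset.sum_sub_distrib]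
    refine Finset.sum_congr rfl fun i _ => ?_
    rw [Finset.sum_div, ← Finset.sum_sub_distrib]
    refine Finset.sum_congr rfl fun c _ => ?_
    ring
  have e2 : ip H u v = conj (v 0) * H 0 0 * u 0 +
      conj (v 0) * (∑ c : Fin D, H 0 c.succ * u c.succ) +
      ((∑ i : Fin D, conj (H 0 i.succ) * conj (v i.succ)) * u 0 +
      ∑ i : Fin D, ∑ c : Fin D, conj (v i.succ) * H i.succ c.succ * u c.succ) := by
    unfold ip
    rw [Fin.sum_univ_succ, Fin.sum_univ_succ]
    have e3 : ∀ i : Fin D, ∑ c, conj (v i.succ) * H i.succ c * u c =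
        conj (H 0 i.succ) * conj (v i.succ) * u 0 +
          ∑ c : Fin D, conj (v i.succ) * H i.succ c.succ * u c.succ := by
      intro i
      rw [Fin.sum_univ_succ, hh i.succ 0]
      ring
    simp_rw [e3]
    rw [Finset.sum_add_distrib, Finset.sum_mul]
    congr 2
    rw [Finset.mul_sum]
    refine Finset.sum_congr rfl fun c _ => ?_
    ring
  rw [e1, e2, map_add, map_mul, map_sum, hr]
  simp_rw [map_mul]
  field_simp
  ring

private theorem hOrtho_aux {X : Type} [MeasurableSpace X] : ∀ (D : ℕ)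
    (H : X → Fin D → Fin D → ℂ), (∀ a c, Measurable fun x => H x a c) →
    (∀ x a c, H x a c = conj (H x c a)) →
    (∀ x (u : Fin D → ℂ), u ≠ 0 → 0 < (ip (H x) u u).re) →
    ∃ P Q : X → Fin D → Fin D → ℂ, (∀ i a, Measurable fun x => P x i a) ∧
      (∀ i a, Measurable fun x => Q x i a) ∧
      (∀ x, ∀ i j, ip (H x) (P x i) (P x j) = if i = j then 1 else 0) ∧
      (∀ x, ∀ u : Fin D → ℂ, ∀ a, ∑ i, (∑ c, Q x i c * u c) * P x i a = u a) ∧
      (∀ x, ∀ u : Fin D → ℂ, (ip (H x) u u).re = ∑ i, ‖∑ c, Q x i c * u c‖ ^ 2) := by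
  intro D
  induction D with
  | zero =>
    intro H _ _ _
    refine ⟨fun _ _ _ => 0, fun _ _ _ => 0, fun i => i.elim0, fun i => i.elim0,
      fun _ i => i.elim0, fun _ _ a => a.elim0, fun x u => ?_⟩
    simp [ip]
  | succ D IH =>
    intro H hm hh hp
    -- the corner entry
    have hcr : ∀ x, ((H x 0 0).re : ℂ) = H x 0 0 := fun x =>
      Complex.conj_eq_iff_re.1 (hh x 0 0).symm
    have hcp : ∀ x, 0 < (H x 0 0).re := by
      intro x
      have h1 := hp x (Pi.single 0 1) (by
        intro h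
        have := congrFun h 0
        simp at this)
      have h2 : ip (H x) (Pi.single 0 1) (Pi.single 0 1) = H x 0 0 := by
        unfold ip
        rw [Finset.sum_eq_single 0, Finset.sum_eq_single 0]
        · simp
        · intro c _ hc
          simp [hc]
        · simp
        · intro c _ hc
          simp [hc]
        · simp
      rwa [h2] at h1
    have hc0 : ∀ x, H x 0 0 ≠ 0 := by
      intro x h
      have := hcp x
      rw [h] at this
      simp at this
    let S : X → Fin D → Fin D → ℂ := fun x i c =>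
      H x i.succ c.succ - conj (H x 0 i.succ) * H x 0 c.succ / H x 0 0
    have hmc : ∀ a c, Measurable fun x => conj (H x a c) := fun a c =>
      Complex.continuous_conj.measurable.comp (hm a c)
    have hSm : ∀ a c, Measurable fun x => S x a c := fun a c =>
      (hm _ _).sub (((hmc _ _).mul (hm _ _)).div (hm _ _))
    have hSh : ∀ x a c, S x a c = conj (S x c a) := by
      intro x a c
      simp only [S, map_sub, map_div₀, map_mul, Complex.conj_conj]
      rw [← hh x a.succ c.succ, ← hh x 0 0]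
      ring
    have hsq := fun x => hOrtho_ip_succ (H x) (hh x) (hc0 x)
    have hSp : ∀ x (u : Fin D → ℂ), u ≠ 0 → 0 < (ip (S x) u u).re := by
      intro x u hu
      have h1 := hp x (Fin.cons (-(∑ c : Fin D, H x 0 c.succ * u c) / H x 0 0) u) (by
        intro h
        apply hu
        funext c
        have := congrFun h c.succ
        simpa using this)
      rw [hsq x] at h1
      simp only [Fin.cons_zero, Fin.cons_succ] at h1
      have h2 : H x 0 0 * (-(∑ c : Fin D, H x 0 c.succ * u c) / H x 0 0) +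
          ∑ c : Fin D, H x 0 c.succ * u c = 0 := by
        have := hc0 x
        field_simp
        ring
      rw [h2, mul_zero, zero_div, zero_add] at h1
      exact h1
    obtain ⟨P, Q, hP, hQ, ho, hi, hn⟩ := IH S hSm hSh hSp
    let s : X → ℂ := fun x => ((Real.sqrt (H x 0 0).re : ℝ) : ℂ)
    have hs2 : ∀ x, s x * s x = H x 0 0 := by
      intro x
      simp only [s]
      rw [← Complex.ofReal_mul, Real.mul_self_sqrt (hcp x).le, hcr]
    have hs0 : ∀ x, s x ≠ 0 := by
      intro x h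
      apply hc0 x
      rw [← hs2, h, zero_mul]
    have hsm : Measurable s :=
      Complex.measurable_ofReal.comp
        (Real.continuous_sqrt.measurable.comp (Complex.measurable_re.comp (hm 0 0)))
    have hsc : ∀ x, conj (s x) = s x := fun x => Complex.conj_ofReal _
    let P' : X → Fin (D + 1) → Fin (D + 1) → ℂ := fun x =>
      Fin.cons (Fin.cons (1 / s x) (fun _ => 0))
        (fun i => Fin.cons (-(∑ c : Fin D, H x 0 c.succ * P x i c) / H x 0 0) (P x i))
    let Q' : X → Fin (D + 1) → Fin (D + 1) → ℂ := fun x =>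
      Fin.cons (Fin.cons (s x) (fun c => H x 0 c.succ / s x))
        (fun i => Fin.cons 0 (Q x i))
    have hQ0 : ∀ x (u : Fin (D + 1) → ℂ), ∑ c, Q' x 0 c * u c =
        (H x 0 0 * u 0 + ∑ c : Fin D, H x 0 c.succ * u c.succ) / s x := by
      intro x u
      rw [Fin.sum_univ_succ]
      simp only [Q', Fin.cons_zero, Fin.cons_succ]
      rw [add_div, Finset.sum_div, ← hs2]
      have := hs0 x
      congr 1
      · field_simp
      · refine Finset.sum_congr rfl fun c _ => ?_
        ring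
    have hQs : ∀ x (u : Fin (D + 1) → ℂ) (i : Fin D), ∑ c, Q' x i.succ c * u c =
        ∑ c, Q x i c * u c.succ := by
      intro x u i
      rw [Fin.sum_univ_succ]
      simp only [Q', Fin.cons_succ, Fin.cons_zero, zero_mul, zero_add]
    have hL0 : ∀ x, H x 0 0 * P' x 0 0 + ∑ c : Fin D, H x 0 c.succ * P' x 0 c.succ = s x := by
      intro x
      simp only [P', Fin.cons_zero, Fin.cons_succ, mul_zero, Finset.sum_const_zero, add_zero]
      rw [← hs2]
      have := hs0 x
      field_simp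
    have hLs : ∀ x (i : Fin D), H x 0 0 * P' x i.succ 0 +
        ∑ c : Fin D, H x 0 c.succ * P' x i.succ c.succ = 0 := by
      intro x i
      simp only [P', Fin.cons_zero, Fin.cons_succ]
      have := hc0 x
      field_simp
      ring
    refine ⟨P', Q', ?_, ?_, ?_, ?_, ?_⟩
    · intro i a
      refine Fin.cases ?_ (fun i => ?_) i
      · refine Fin.cases ?_ (fun a => ?_) a
        · exact measurable_const.div hsm
        · exact measurable_const
      · refine Fin.cases ?_ (fun a => ?_) a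
        · exact ((Finset.measurable_sum _ fun c _ => (hm _ _).mul (hP _ _)).neg).div (hm _ _)
        · exact hP i a
    · intro i a
      refine Fin.cases ?_ (fun i => ?_) i
      · refine Fin.cases ?_ (fun a => ?_) a
        · exact hsm
        · exact (hm _ _).div hsm
      · refine Fin.cases ?_ (fun a => ?_) a
        · exact measurable_const
        · exact hQ i a
    · intro x i j
      rw [hsq x]
      refine Fin.cases ?_ (fun i => ?_) i <;> refine Fin.cases ?_ (fun j => ?_) j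
      · rw [hL0, hsc, hs2, div_self (hc0 x)]
        simp [P', ip]
      · rw [hL0, hLs]
        simp [P', ip, (Fin.succ_ne_zero j).symm]
      · rw [hL0, hLs]
        simp [P', ip]
      · rw [hLs, hLs]
        have := ho x i j
        simp only [P', Fin.cons_succ, mul_zero, zero_div, zero_add, Fin.succ_inj]
        exact this
    · intro x u a
      rw [Fin.sum_univ_succ, hQ0]
      simp_rw [hQs]
      refine Fin.cases ?_ (fun a => ?_) a
      · simp only [P', Fin.cons_zero, Fin.cons_succ]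
        have e1 : ∑ i : Fin D, (∑ c, Q x i c * u c.succ) *
            (-(∑ c : Fin D, H x 0 c.succ * P x i c) / H x 0 0) =
            -(∑ c : Fin D, H x 0 c.succ * u c.succ) / H x 0 0 := by
          have e2 : ∀ c : Fin D, H x 0 c.succ * u c.succ =
              ∑ i : Fin D, (∑ e, Q x i e * u e.succ) * (H x 0 c.succ * P x i c) := by
            intro c
            have := hi x (fun c => u c.succ) c
            rw [← this, Finset.mul_sum]
            refine Finset.sum_congr rfl fun i _ => ?_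
            ring
          rw [Finset.sum_congr rfl fun c _ => e2 c, Finset.sum_comm, neg_div, Finset.sum_div,
            ← Finset.sum_neg_distrib]
          refine Finset.sum_congr rfl fun i _ => ?_
          rw [← Finset.mul_sum]
          ring
        rw [e1]
        have h1 := hc0 x
        have h2 := hs2 x
        have h3 := hs0 x
        have e3 : (H x 0 0 * u 0 + ∑ c : Fin D, H x 0 c.succ * u c.succ) / s x * (1 / s x) =
            (H x 0 0 * u 0 + ∑ c : Fin D, H x 0 c.succ * u c.succ) / H x 0 0 := by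
          rw [← h2]
          field_simp
        rw [e3]
        field_simp
        ring
      · simp only [P', Fin.cons_zero, Fin.cons_succ, mul_zero, zero_add]
        exact hi x (fun c => u c.succ) a
    · intro x u
      rw [hsq x, Fin.sum_univ_succ, hQ0]
      simp_rw [hQs]
      rw [Complex.add_re, ← hn x (fun c => u c.succ)]
      congr 1
      have h3 := hs0 x
      have e3 : conj (H x 0 0 * u 0 + ∑ c : Fin D, H x 0 c.succ * u c.succ) *
          (H x 0 0 * u 0 + ∑ c : Fin D, H x 0 c.succ * u c.succ) / H x 0 0 =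
          conj ((H x 0 0 * u 0 + ∑ c : Fin D, H x 0 c.succ * u c.succ) / s x) *
          ((H x 0 0 * u 0 + ∑ c : Fin D, H x 0 c.succ * u c.succ) / s x) := by
        rw [map_div₀, hsc, ← hs2]
        field_simp
      rw [e3, mul_comm, Complex.mul_conj, Complex.normSq_eq_norm_sq, Complex.ofReal_re]

variable {E : Type} [NormedAddCommGroup E] [NormedSpace ℂ E] [MeasurableSpace E] [BorelSpace E]
  {W : Set E} {ι : Type} [Fintype ι] {b : Module.Basis ι ℂ E} {D : ℕ}

/-- A measurable frame `P` which is orthonormal for `H`, with its inverse `Q`. -/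
theorem HMet.exists_frame (M : HMet W b D) (hW : IsOpen W) :
    ∃ P Q : E → Fin D → Fin D → ℂ, (∀ i a, Measurable fun x => P x i a) ∧
      (∀ i a, Measurable fun x => Q x i a) ∧
      (∀ x ∈ W, ∀ i j, ip (M.H x) (P x i) (P x j) = if i = j then 1 else 0) ∧
      (∀ x ∈ W, ∀ u : Fin D → ℂ, ∀ a, ∑ i, (∑ c, Q x i c * u c) * P x i a = u a) ∧
      (∀ x ∈ W, ∀ u : Fin D → ℂ, M.nsq x u = ∑ i, ‖∑ c, Q x i c * u c‖ ^ 2) := by
  classical
  let H' : E → Fin D → Fin D → ℂ := fun x a c => if x ∈ W then M.H x a c else if a = c then 1 else 0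
  have hH' : ∀ x ∈ W, H' x = M.H x := by
    intro x hx
    funext a c
    simp only [H', if_pos hx]
  have hm : ∀ a c, Measurable fun x => H' x a c := by
    intro a c
    have h1 : ContinuousOn (fun x => M.H x a c) W := (M.smH a c).continuousOn
    have h2 : (fun x => H' x a c) = W.piecewise (fun x => M.H x a c)
        (fun _ => if a = c then 1 else 0) := by
      funext x
      simp only [H', Set.piecewise]
    rw [h2]
    exact ContinuousOn.measurable_piecewise h1 continuousOn_const hW.measurableSet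
  have hh : ∀ x a c, H' x a c = conj (H' x c a) := by
    intro x a c
    by_cases hx : x ∈ W
    · simp only [H', if_pos hx]
      exact M.herm x hx a c
    · simp only [H', if_neg hx]
      by_cases hac : a = c
      · subst hac
        simp
      · rw [if_neg hac, if_neg (fun h => hac h.symm), map_zero]
  have hp : ∀ x (u : Fin D → ℂ), u ≠ 0 → 0 < (ip (H' x) u u).re := by
    intro x u hu
    by_cases hx : x ∈ W
    · rw [hH' x hx]
      exact M.pos x hx u hu
    · have h1 : ip (H' x) u u = ((∑ a, ‖u a‖ ^ 2 : ℝ) : ℂ) := by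
        unfold ip
        push_cast
        refine Finset.sum_congr rfl fun a _ => ?_
        rw [Finset.sum_eq_single a]
        · simp only [H', if_neg hx, if_true, mul_one]
          rw [mul_comm, Complex.mul_conj, Complex.normSq_eq_norm_sq]
          push_cast
          rfl
        · intro c _ hc
          simp only [H', if_neg hx]
          rw [if_neg (fun h => hc h.symm)]
          ring
        · simp
      rw [h1, Complex.ofReal_re]
      obtain ⟨a, ha⟩ := Function.ne_iff.1 hu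
      refine Finset.sum_pos' (fun a _ => by positivity) ⟨a, Finset.mem_univ _, ?_⟩
      have : 0 < ‖u a‖ := norm_pos_iff.2 ha
      positivity
  obtain ⟨P, Q, h1, h2, h3, h4, h5⟩ := hOrtho_aux D H' hm hh hp
  refine ⟨P, Q, h1, h2, fun x hx => ?_, fun x _ => h4 x, fun x hx u => ?_⟩
  · intro i j
    have := h3 x i j
    rwa [hH' x hx] at this
  · have := h5 x u
    rwa [hH' x hx] at this

end Pool.Agent.Lib_KF

end
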