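import Mathlib

/-!
# MP_e0d435_ag: merged library part G02

Concatenation of library files (each in its own section), only to save build time.
-/

/-! ### from `Lib_GD.TaylorGen` -/

section

/-! Taylor expansions for commuting derivations. -/

namespace Pool.Agent.Lib_GD

section

variable {n : ℕ} {B : Type} [CommRing B] [Algebra ℂ B] (der : Fin n → Derivation ℂ B B)

/-- The iterated derivation. -/
noncomputable def ddG (α : Fin n →₀ ℕ) : Module.End ℂ B :=
  ((List.finRange n).map fun l => ((der l : B →ₗ[ℂ] B) : Module.End ℂ B) ^ (α l)).prod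

theorem ddG_zero (b : B) : ddG der 0 b = b := by
  have : ddG der 0 = 1 := by
    unfold ddG
    rw [List.prod_eq_one]
    intro x hx
    obtain ⟨l, -, rfl⟩ := List.mem_map.1 hx
    simp
  rw [this]; rfl

theorem ddG_comm_aux (hc : ∀ l k b, der l (der k b) = der k (der l b)) (l k : Fin n) :
    Commute ((der l : B →ₗ[ℂ] B) : Module.End ℂ B) ((der k : B →ₗ[ℂ] B) : Module.End ℂ B) := by
  ext b; exact hc l k b

theorem prod_map_comm {M : Type} [Monoid M] (L : List (Fin n)) (f : Fin n → M) (x : M)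
    (h : ∀ l, Commute (f l) x) : Commute (L.map f).prod x := by
  induction L with
  | nil => simp
  | cons a t ih => simpa using (h a).mul_left ih

theorem prod_pow_add {M : Type} [Monoid M] (f : Fin n → M) (h : ∀ l k, Commute (f l) (f k))
    (α β : Fin n → ℕ) (L : List (Fin n)) :
    (L.map fun l => f l ^ (α l + β l)).prod =
      (L.map fun l => f l ^ α l).prod * (L.map fun l => f l ^ β l).prod := by
  induction L with
  | nil => simp
  | cons a t ih =>
    have : Commute (f a ^ β a) (t.map fun l => f l ^ α l).prod :=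
      (prod_map_comm t _ _ fun l => ((h l a).pow_pow _ _)).symm
    rw [List.map_cons, List.prod_cons, ih, pow_add, List.map_cons, List.prod_cons, List.map_cons,
      List.prod_cons, mul_assoc, mul_assoc, ← mul_assoc (f a ^ β a), this.eq, mul_assoc]

theorem ddG_add (hc : ∀ l k b, der l (der k b) = der k (der l b)) (α β : Fin n →₀ ℕ) (b : B) :
    ddG der (α + β) b = ddG der α (ddG der β b) := by
  have : ddG der (α + β) = ddG der α * ddG der β := by
    unfold ddG
    exact prod_pow_add _ (ddG_comm_aux der hc) α β _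
  rw [this]; rfl

theorem ddG_single (l : Fin n) (b : B) : ddG der (Finsupp.single l 1) b = der l b := by
  have : ddG der (Finsupp.single l 1) = ((der l : B →ₗ[ℂ] B) : Module.End ℂ B) := by
    unfold ddG
    have h : ∀ (L : List (Fin n)), L.Nodup →
        (L.map fun k => ((der k : B →ₗ[ℂ] B) : Module.End ℂ B) ^
          ((Finsupp.single l 1 : Fin n →₀ ℕ) k)).prod =
        if l ∈ L then ((der l : B →ₗ[ℂ] B) : Module.End ℂ B) else 1 := by
      intro L
      induction L with
      | nil => simp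
      | cons a t ih =>
        intro hL
        rw [List.nodup_cons] at hL
        simp only [List.map_cons, List.prod_cons, ih hL.2]
        by_cases hal : l = a
        · subst hal
          simp [hL.1]
        · have h1 : (Finsupp.single l 1 : Fin n →₀ ℕ) a = 0 := by
            rw [Finsupp.single_apply]; simp [hal]
          simp [h1, hal]
    rw [h _ (List.nodup_finRange n)]
    simp
  rw [this]; rfl

theorem ddG_add_single (hc : ∀ l k b, der l (der k b) = der k (der l b)) (α : Fin n →₀ ℕ)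
    (l : Fin n) (b : B) : ddG der (α + Finsupp.single l 1) b = ddG der α (der l b) := by
  rw [ddG_add der hc, ddG_single]

theorem der_ddG (hc : ∀ l k b, der l (der k b) = der k (der l b)) (α : Fin n →₀ ℕ)
    (l : Fin n) (b : B) : der l (ddG der α b) = ddG der (α + Finsupp.single l 1) b := by
  rw [add_comm, ddG_add der hc, ddG_single]

/-- Divided Taylor coefficients with values in `K`. -/
noncomputable def tayG {K : Type} [CommRing K] [Algebra ℂ K] (x : B →ₐ[ℂ] K)
    (α : Fin n →₀ ℕ) (b : B) : K :=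
  algebraMap ℂ K (∏ l, ((α l).factorial : ℂ))⁻¹ * x (ddG der α b)

/-- The factor `∏ α_l!`. -/
noncomputable def facG (α : Fin n →₀ ℕ) : ℂ := ∏ l, ((α l).factorial : ℂ)

theorem facG_ne_zero (α : Fin n →₀ ℕ) : facG α ≠ 0 :=
  Finset.prod_ne_zero_iff.2 fun _ _ => Nat.cast_ne_zero.2 (Nat.factorial_ne_zero _)

theorem facG_add_single (α : Fin n →₀ ℕ) (l : Fin n) :
    facG (α + Finsupp.single l 1) = (α l + 1) * facG α := by
  unfold facG
  rw [← Finset.mul_prod_erase _ _ (Finset.mem_univ l),
    ← Finset.mul_prod_erase Finset.univ (fun k => ((α k).factorial : ℂ)) (Finset.mem_univ l),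
    ← mul_assoc]
  congr 1
  · simp [Nat.factorial_succ]
  · refine Finset.prod_congr rfl fun k hk => ?_
    have : k ≠ l := Finset.ne_of_mem_erase hk
    simp [this.symm]

theorem tayG_add_single (hc : ∀ l k b, der l (der k b) = der k (der l b)) {K : Type} [CommRing K]
    [Algebra ℂ K] (x : B →ₐ[ℂ] K) (α : Fin n →₀ ℕ) (l : Fin n) (b : B) :
    tayG der x (α + Finsupp.single l 1) b * ((α l : K) + 1) = tayG der x α (der l b) := by
  unfold tayG
  rw [ddG_add_single der hc]
  have h1 : (∏ k, (((α + Finsupp.single l 1 : Fin n →₀ ℕ) k).factorial : ℂ)) =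
      (α l + 1) * ∏ k, ((α k).factorial : ℂ) := facG_add_single α l
  have h2 : ((α l : ℂ) + 1) ≠ 0 := Nat.cast_add_one_ne_zero (α l)
  have h3 : ((α l : K) + 1) = algebraMap ℂ K (α l + 1) := by simp
  rw [h1, h3, mul_right_comm, ← map_mul]
  congr 2
  have h4 : (∏ k, ((α k).factorial : ℂ)) ≠ 0 := facG_ne_zero α
  field_simp

/-- The Taylor series as a function. -/
noncomputable def tsG {K : Type} [CommRing K] [Algebra ℂ K] (x : B →ₐ[ℂ] K) (b : B) :
    MvPowerSeries (Fin n) K := fun α => tayG der x α b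

theorem coeff_tsG {K : Type} [CommRing K] [Algebra ℂ K] (x : B →ₐ[ℂ] K) (b : B)
    (α : Fin n →₀ ℕ) : MvPowerSeries.coeff α (tsG der x b) = tayG der x α b := rfl

theorem tayG_add {K : Type} [CommRing K] [Algebra ℂ K] (x : B →ₐ[ℂ] K) (b b' : B)
    (α : Fin n →₀ ℕ) : tayG der x α (b + b') = tayG der x α b + tayG der x α b' := by
  simp [tayG, mul_add]

theorem tayG_smul {K : Type} [CommRing K] [Algebra ℂ K] (x : B →ₐ[ℂ] K) (c : ℂ) (b : B)
    (α : Fin n →₀ ℕ) : tayG der x α (c • b) = c • tayG der x α b := by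
  simp [tayG]

theorem pderiv_tsG (hc : ∀ l k b, der l (der k b) = der k (der l b)) {K : Type} [CommRing K]
    [Algebra ℂ K] (x : B →ₐ[ℂ] K) (l : Fin n) (b : B) :
    MvPowerSeries.pderiv K l (tsG der x b) = tsG der x (der l b) := by
  ext α
  rw [MvPowerSeries.coeff_pderiv, coeff_tsG, coeff_tsG, tayG_add_single der hc]

theorem tsG_mul_aux (hc : ∀ l k b, der l (der k b) = der k (der l b)) {K : Type} [CommRing K]
    [Algebra ℂ K] (x : B →ₐ[ℂ] K) : ∀ (m : ℕ) (α : Fin n →₀ ℕ), α.degree = m → ∀ b b' : B,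
    MvPowerSeries.coeff α (tsG der x (b * b')) =
      MvPowerSeries.coeff α (tsG der x b * tsG der x b') := by
  intro m
  induction m with
  | zero =>
    intro α hα b b'
    have h0 : α = 0 := by simpa [Finsupp.degree_eq_zero_iff] using hα
    subst h0
    have e1 : MvPowerSeries.coeff (0 : Fin n →₀ ℕ) (tsG der x b * tsG der x b') =
        MvPowerSeries.coeff (0 : Fin n →₀ ℕ) (tsG der x b) *
          MvPowerSeries.coeff (0 : Fin n →₀ ℕ) (tsG der x b') := by
      simp only [MvPowerSeries.coeff_zero_eq_constantCoeff_apply, map_mul]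
    rw [e1, coeff_tsG, coeff_tsG, coeff_tsG]
    simp [tayG, ddG_zero]
  | succ m ih =>
    intro α hα b b'
    obtain ⟨l, hl⟩ : ∃ l, α l ≠ 0 := by
      by_contra hcon
      push Not at hcon
      have : α = 0 := by ext l; simp [hcon l]
      subst this
      simp at hα
    obtain ⟨β, rfl⟩ : ∃ β : Fin n →₀ ℕ, α = β + Finsupp.single l 1 := by
      refine ⟨α - Finsupp.single l 1, ?_⟩
      rw [tsub_add_cancel_of_le]
      rw [Finsupp.single_le_iff]
      omega
    have hβ : β.degree = m := by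
      rw [map_add, Finsupp.degree_single] at hα
      omega
    have key : MvPowerSeries.coeff β (MvPowerSeries.pderiv K l (tsG der x (b * b'))) =
        MvPowerSeries.coeff β (MvPowerSeries.pderiv K l (tsG der x b * tsG der x b')) := by
      rw [pderiv_tsG der hc, Derivation.leibniz, Derivation.leibniz, pderiv_tsG der hc,
        pderiv_tsG der hc, smul_eq_mul, smul_eq_mul]
      have hsum : tsG der x (b * der l b' + b' * der l b) =
          tsG der x (b * der l b') + tsG der x (b' * der l b) := by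
        ext γ; simp [coeff_tsG, tayG_add]
      rw [hsum, map_add, ih β hβ, ih β hβ, ← map_add, smul_eq_mul, smul_eq_mul]
    rw [MvPowerSeries.coeff_pderiv, MvPowerSeries.coeff_pderiv] at key
    have hu : IsUnit ((β l : K) + 1) := by
      have : ((β l : K) + 1) = algebraMap ℂ K (β l + 1) := by simp
      rw [this]
      exact (IsUnit.mk0 _ (Nat.cast_add_one_ne_zero (β l))).map _
    exact hu.mul_right_cancel key

/-- The Taylor homomorphism. -/
noncomputable def taylorG (hc : ∀ l k b, der l (der k b) = der k (der l b)) {K : Type} [CommRing K]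
    [Algebra ℂ K] (x : B →ₐ[ℂ] K) : B →ₐ[ℂ] MvPowerSeries (Fin n) K :=
  AlgHom.ofLinearMap
    { toFun := tsG der x
      map_add' := fun b b' => by ext α; simp [coeff_tsG, tayG_add]
      map_smul' := fun c b => by
        ext α
        rw [coeff_tsG, tayG_smul, RingHom.id_apply]
        rfl }
    (by
      ext α
      change tayG der x α 1 = _
      have h1 : ∀ (m : ℕ) (α : Fin n →₀ ℕ), α.degree = m → α ≠ 0 → tayG der x α 1 = 0 := by
        intro m α _ h0
        obtain ⟨l, hl⟩ : ∃ l, α l ≠ 0 := by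
          by_contra hcon
          push Not at hcon
          exact h0 (by ext l; simp [hcon l])
        obtain ⟨β, rfl⟩ : ∃ β : Fin n →₀ ℕ, α = β + Finsupp.single l 1 := by
          refine ⟨α - Finsupp.single l 1, ?_⟩
          rw [tsub_add_cancel_of_le]
          rw [Finsupp.single_le_iff]
          omega
        unfold tayG
        rw [ddG_add_single der hc, Derivation.map_one_eq_zero]
        simp
      by_cases h0 : α = 0
      · subst h0
        simp [tayG, ddG_zero]
      · rw [h1 _ α rfl h0, MvPowerSeries.coeff_one, if_neg h0])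
    (by
      intro b b'
      ext α
      exact tsG_mul_aux der hc x _ α rfl b b')

theorem coeff_taylorG (hc : ∀ l k b, der l (der k b) = der k (der l b)) {K : Type} [CommRing K]
    [Algebra ℂ K] (x : B →ₐ[ℂ] K) (b : B) (α : Fin n →₀ ℕ) :
    MvPowerSeries.coeff α (taylorG der hc x b) = tayG der x α b := rfl

end

end Pool.Agent.Lib_GD

end

/-! ### from `Lib_GD.DvrDer` -/

section

/-! A02: dual derivations. -/

namespace Pool.Agent.Lib_GD

/-- a derivation killing the coordinates is zero -/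
private theorem DvrDer_ext (V : Type) [CommRing V] [Algebra ℂ V] (r : ℕ) (t : V) (w : Fin r → V)
    (b : Module.Basis (Option (Fin r)) V (KaehlerDifferential ℂ V))
    (hb : b none = KaehlerDifferential.D ℂ V t)
    (hb' : ∀ l, b (some l) = KaehlerDifferential.D ℂ V (w l)) (E : Derivation ℂ V V)
    (h1 : E t = 0) (h2 : ∀ l, E (w l) = 0) : E = 0 := by
  have h : E.liftKaehlerDifferential = 0 := by
    refine b.ext fun i => ?_
    cases i with
    | none => rw [hb, Derivation.liftKaehlerDifferential_comp_D, h1]; simp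
    | some l => rw [hb', Derivation.liftKaehlerDifferential_comp_D, h2]; simp
  have h3 := E.liftKaehlerDifferential_comp
  rw [h] at h3
  rw [← h3]
  ext f
  simp

/-- A02: the dual derivations. -/
theorem exists_dvr_der (V : Type) [CommRing V] [Algebra ℂ V] (r : ℕ) (t : V) (w : Fin r → V)
    (b : Module.Basis (Option (Fin r)) V (KaehlerDifferential ℂ V))
    (hb : b none = KaehlerDifferential.D ℂ V t)
    (hb' : ∀ l, b (some l) = KaehlerDifferential.D ℂ V (w l)) :
    ∃ (δt : Derivation ℂ V V) (δ : Fin r → Derivation ℂ V V),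
      δt t = 1 ∧ (∀ l, δt (w l) = 0) ∧ (∀ l, δ l t = 0) ∧
      (∀ l k, δ l (w k) = if l = k then 1 else 0) ∧
      (∀ f, KaehlerDifferential.D ℂ V f = δt f • KaehlerDifferential.D ℂ V t +
        ∑ l, δ l f • KaehlerDifferential.D ℂ V (w l)) ∧
      (∀ l f, δt (δ l f) = δ l (δt f)) ∧ (∀ l k f, δ l (δ k f) = δ k (δ l f)) := by
  classical
  set c : Option (Fin r) → Derivation ℂ V V := fun i =>
    (b.coord i).compDer (KaehlerDifferential.D ℂ V) with hc
  have hca : ∀ i f, c i f = b.repr (KaehlerDifferential.D ℂ V f) i := fun i f => rfl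
  have h1 : ∀ i, c i t = if i = none then 1 else 0 := by
    intro i
    rw [hca, ← hb, Module.Basis.repr_self, Finsupp.single_apply]
    by_cases h : i = none
    · rw [if_pos h, if_pos h.symm]
    · rw [if_neg h, if_neg (Ne.symm h)]
  have h2 : ∀ i l, c i (w l) = if i = some l then 1 else 0 := by
    intro i l
    rw [hca, ← hb', Module.Basis.repr_self, Finsupp.single_apply]
    by_cases h : i = some l
    · rw [if_pos h, if_pos h.symm]
    · rw [if_neg h, if_neg (Ne.symm h)]
  have hcomm : ∀ i j f, c i (c j f) = c j (c i f) := by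
    intro i j f
    have h0 : ⁅c i, c j⁆ = 0 := by
      apply DvrDer_ext V r t w b hb hb'
      · rw [Derivation.commutator_apply, h1, h1]
        split_ifs <;> simp
      · intro l
        rw [Derivation.commutator_apply, h2, h2]
        split_ifs <;> simp
    have h3 := congrArg (fun E : Derivation ℂ V V => E f) h0
    simp only [Derivation.commutator_apply, Derivation.coe_zero, Pi.zero_apply] at h3
    exact sub_eq_zero.1 h3
  refine ⟨c none, fun l => c (some l), ?_, ?_, ?_, ?_, ?_, ?_, ?_⟩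
  · rw [h1, if_pos rfl]
  · intro l
    rw [h2, if_neg (by simp)]
  · intro l
    rw [h1, if_neg (by simp)]
  · intro l k
    rw [h2]
    simp
  · intro f
    have h3 := b.sum_repr (KaehlerDifferential.D ℂ V f)
    rw [Fintype.sum_option] at h3
    simp only [hb, hb'] at h3
    exact h3.symm
  · intro l f
    exact hcomm _ _ f
  · intro l k f
    exact hcomm _ _ f

end Pool.Agent.Lib_GD

end

/-! ### from `Lib_GD.EssRes` -/

section

/-! J07a: divisorial valuation rings are essentially of finite type. -/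

namespace Pool.Agent.Lib_GD

open IsLocalRing in
/-- A discrete valuation ring dominating a Dedekind domain, with finite separable extension of
fraction fields, is essentially of finite type over it. -/
private theorem EssRes_step (W V K L : Type) [CommRing W] [IsDedekindDomain W]
    [CommRing V] [IsDomain V] [IsDiscreteValuationRing V] [Field K] [Field L]
    [Algebra W V] [Algebra V K] [Algebra W K] [IsScalarTower W V K] [IsFractionRing V K]
    [Algebra W L] [IsFractionRing W L] [Algebra L K] [IsScalarTower W L K]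
    [FiniteDimensional L K] [Algebra.IsSeparable L K]
    (t : W) (ht0 : t ≠ 0) (ht : algebraMap W V t ∈ maximalIdeal V) :
    Algebra.EssFiniteType W V := by
  classical
  have hVK : Function.Injective (algebraMap V K) := IsFractionRing.injective V K
  have hfin : Module.Finite W (integralClosure W K) :=
    IsIntegralClosure.finite W L K (integralClosure W K)
  have hded : IsDedekindDomain (integralClosure W K) := integralClosure.isDedekindDomain W L K
  have hfrac : IsFractionRing (integralClosure W K) K :=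
    integralClosure.isFractionRing_of_finite_extension L K
  let ι : V →ₐ[W] K := IsScalarTower.toAlgHom W V K
  have hι : Function.Injective ι := hVK
  have hW'V : integralClosure W K ≤ ι.range := by
    intro x hx
    have hx' : IsIntegral V x := IsIntegral.tower_top (show IsIntegral W x from hx)
    obtain ⟨v, hv⟩ := IsIntegrallyClosed.isIntegral_iff.1 hx'
    exact ⟨v, hv⟩
  let f : integralClosure W K →ₐ[W] V :=
    ((AlgEquiv.ofInjective ι hι).symm.toAlgHom).comp (Subalgebra.inclusion hW'V)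
  have hf : ∀ x : integralClosure W K, algebraMap V K (f x) = x := by
    intro x
    have h1 : (AlgEquiv.ofInjective ι hι) (f x) = Subalgebra.inclusion hW'V x :=
      AlgEquiv.apply_symm_apply _ _
    have h2 := congrArg (fun y : ι.range => (y : K)) h1
    exact h2
  let : Algebra (integralClosure W K) V := f.toRingHom.toAlgebra
  have : IsScalarTower W (integralClosure W K) V :=
    IsScalarTower.of_algebraMap_eq' (AlgHom.comp_algebraMap f).symm
  have hEss : Algebra.EssFiniteType (integralClosure W K) V := by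
    rw [Algebra.essFiniteType_iff]
    refine ⟨∅, fun v => ?_⟩
    simp only [Finset.coe_empty, Algebra.adjoin_empty, Algebra.mem_bot, Set.mem_range,
      exists_exists_eq_and]
    let q : Ideal (integralClosure W K) := (maximalIdeal V).comap f.toRingHom
    have hqp : q.IsPrime := Ideal.comap_isPrime _ _
    have hq0 : q ≠ ⊥ := by
      intro h0
      have h1 : algebraMap W (integralClosure W K) t ∈ q := by
        change f (algebraMap W (integralClosure W K) t) ∈ maximalIdeal V
        rw [AlgHom.commutes]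
        exact ht
      rw [h0, Ideal.mem_bot] at h1
      have h2 : algebraMap W K t = 0 := by
        have := congrArg (fun y : integralClosure W K => (y : K)) h1
        exact this
      have h3 : Function.Injective (algebraMap W K) := by
        rw [IsScalarTower.algebraMap_eq W L K]
        exact (algebraMap L K).injective.comp (IsFractionRing.injective W L)
      exact ht0 (h3 (by rw [h2, map_zero]))
    have hdvr : IsDiscreteValuationRing (Localization.AtPrime q) :=
      IsLocalization.AtPrime.isDiscreteValuationRing_of_dedekind_domain (integralClosure W K)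
        hq0 (Localization.AtPrime q)
    have hαi : Function.Injective
        (algebraMap (integralClosure W K) (Localization.AtPrime q)) :=
      IsLocalization.injective (Localization.AtPrime q) q.primeCompl_le_nonZeroDivisors
    have hunit : ∀ s : integralClosure W K, s ∉ q → IsUnit (f s) := by
      intro s hs
      by_contra hcon
      exact hs ((mem_maximalIdeal _).2 hcon)
    obtain ⟨a, b, hb, hab⟩ := IsFractionRing.div_surjective (A := integralClosure W K)
      (algebraMap V K v)
    have hb0 : b ≠ 0 := nonZeroDivisors.ne_zero hb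
    have hbK : algebraMap (integralClosure W K) K b ≠ 0 := by
      intro h0
      exact hb0 ((IsFractionRing.injective (integralClosure W K) K) (by rw [h0, map_zero]))
    have hvb : v * f b = f a := by
      apply hVK
      rw [map_mul, hf, hf, ← hab]
      exact div_mul_cancel₀ _ hbK
    have hfb0 : f b ≠ 0 := by
      intro h0
      apply hbK
      have := hf b
      rw [h0, map_zero] at this
      exact this.symm
    obtain ⟨c, hc⟩ := ValuationRing.cond
      (algebraMap (integralClosure W K) (Localization.AtPrime q) a)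
      (algebraMap (integralClosure W K) (Localization.AtPrime q) b)
    obtain ⟨⟨d, s⟩, hds⟩ := IsLocalization.surj q.primeCompl c
    have hs : IsUnit (f s) := hunit s s.2
    dsimp only at hds
    rcases hc with hc | hc
    · have h1 : a * d = b * s := by
        apply hαi
        rw [map_mul, map_mul, ← hds, ← hc]
        ring
      have h2 : v * f d = f s := by
        have h3 := congrArg f h1
        rw [map_mul, map_mul, ← hvb] at h3
        apply mul_left_cancel₀ hfb0
        rw [← h3]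
        ring
      refine ⟨d, ?_, s, h2.symm⟩
      change IsUnit (f d)
      rw [← h2] at hs
      exact isUnit_of_mul_isUnit_right hs
    · have h1 : b * d = a * s := by
        apply hαi
        rw [map_mul, map_mul, ← hds, ← hc]
        ring
      have h2 : v * f s = f d := by
        have h3 := congrArg f h1
        rw [map_mul, map_mul, ← hvb] at h3
        apply mul_left_cancel₀ hfb0
        rw [h3]
        ring
      exact ⟨s, hs, d, h2.symm⟩
  exact Algebra.EssFiniteType.comp W (integralClosure W K) V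

section base

open IsLocalRing

variable {V : Type} [CommRing V] [IsDomain V] [IsDiscreteValuationRing V] [Algebra ℂ V] {m : ℕ}
  {w : Fin m → V} (hw : AlgebraicIndependent ℂ (fun i => IsLocalRing.residue V (w i)))

include hw in
private theorem EssRes_zero {b : V} (hb : b ∈ Algebra.adjoin ℂ (Set.range w))
    (hbm : b ∈ maximalIdeal V) : b = 0 := by
  rw [Algebra.adjoin_range_eq_range_aeval] at hb
  obtain ⟨f, rfl⟩ := hb
  have h1 : MvPolynomial.aeval (fun i => residue V (w i)) f =
      residue V (MvPolynomial.aeval w f) :=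
    MvPolynomial.aeval_algebraMap_apply (B := ResidueField V) w f
  have h2 : MvPolynomial.aeval (fun i => residue V (w i)) f = 0 := by
    rw [h1]
    exact (residue_eq_zero_iff _).2 hbm
  have h3 := hw.eq_zero_of_aeval_eq_zero f h2
  change MvPolynomial.aeval w f = 0
  rw [h3, map_zero]

include hw in
private theorem EssRes_transc {t : V} (ht0 : t ≠ 0) (htm : t ∈ maximalIdeal V) :
    Transcendental (Algebra.adjoin ℂ (Set.range w)) t := by
  rw [transcendental_iff]
  have key : ∀ (N : ℕ) (p : Polynomial (Algebra.adjoin ℂ (Set.range w))), p.natDegree ≤ N →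
      Polynomial.aeval t p = 0 → p = 0 := by
    intro N
    induction N with
    | zero =>
      intro p hp h
      have h1 := Polynomial.eq_C_of_natDegree_le_zero hp
      rw [h1, Polynomial.aeval_C] at h
      have h2 : p.coeff 0 = 0 := Subtype.ext h
      rw [h1, h2, map_zero]
    | succ N ih =>
      intro p hp h
      have h1 := Polynomial.divX_mul_X_add p
      have h2 : Polynomial.aeval t p.divX * t + ((p.coeff 0 : Algebra.adjoin ℂ (Set.range w)) : V)
          = 0 := by
        have h3 := congrArg (Polynomial.aeval t) h1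
        rw [map_add, map_mul, Polynomial.aeval_X, Polynomial.aeval_C, h] at h3
        exact h3
      have h3 : ((p.coeff 0 : Algebra.adjoin ℂ (Set.range w)) : V) = 0 := by
        refine EssRes_zero hw (p.coeff 0).2 ?_
        have h4 : ((p.coeff 0 : Algebra.adjoin ℂ (Set.range w)) : V) =
            -(Polynomial.aeval t p.divX) * t := by linear_combination h2
        rw [h4]
        exact Ideal.mul_mem_left _ _ htm
      rw [h3, add_zero] at h2
      have h4 : Polynomial.aeval t p.divX = 0 := by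
        rcases mul_eq_zero.1 h2 with h | h
        · exact h
        · exact absurd h ht0
      have h5 : p.divX = 0 := by
        apply ih _ _ h4
        rw [Polynomial.natDegree_divX_eq_natDegree_tsub_one]
        omega
      have h6 : p.coeff 0 = 0 := Subtype.ext h3
      rw [← h1, h5, h6, zero_mul, map_zero, add_zero]
  intro p hp
  exact key p.natDegree p le_rfl hp

omit [IsDomain V] [IsDiscreteValuationRing V] in
private theorem EssRes_split (w : Fin m → V) (t : V) {r : V}
    (hr : r ∈ Algebra.adjoin ℂ (Set.range (fun o : Option (Fin m) => o.elim t w))) :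
    ∃ b ∈ Algebra.adjoin ℂ (Set.range w), ∃ r' ∈ Algebra.adjoin ℂ
      (Set.range (fun o : Option (Fin m) => o.elim t w)), r = b + r' * t := by
  have hsub : Algebra.adjoin ℂ (Set.range w) ≤
      Algebra.adjoin ℂ (Set.range (fun o : Option (Fin m) => o.elim t w)) := by
    apply Algebra.adjoin_mono
    rintro _ ⟨i, rfl⟩
    exact ⟨some i, rfl⟩
  have ht : t ∈ Algebra.adjoin ℂ (Set.range (fun o : Option (Fin m) => o.elim t w)) :=
    Algebra.subset_adjoin ⟨none, rfl⟩
  refine Algebra.adjoin_induction ?_ ?_ ?_ ?_ hr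
  · rintro _ ⟨o, rfl⟩
    rcases o with _ | i
    · exact ⟨0, zero_mem _, 1, one_mem _, by simp⟩
    · exact ⟨w i, Algebra.subset_adjoin ⟨i, rfl⟩, 0, zero_mem _, by simp⟩
  · intro c
    exact ⟨algebraMap ℂ V c, algebraMap_mem _ c, 0, zero_mem _, by simp⟩
  · rintro x y - - ⟨b, hb, r, hr, rfl⟩ ⟨b', hb', r', hr', rfl⟩
    exact ⟨b + b', add_mem hb hb', r + r', add_mem hr hr', by ring⟩
  · rintro x y - - ⟨b, hb, r, hr, rfl⟩ ⟨b', hb', r', hr', rfl⟩
    refine ⟨b * b', mul_mem hb hb', r * b' + b * r' + r * r' * t, ?_, by ring⟩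
    exact add_mem (add_mem (mul_mem hr (hsub hb')) (mul_mem (hsub hb) hr'))
      (mul_mem (mul_mem hr hr') ht)

end base

/-- The same with the finiteness deduced from algebraicity. -/
private theorem EssRes_mid (V K R W : Type) [CommRing V] [IsDomain V] [IsDiscreteValuationRing V]
    [Field K] [Algebra V K] [IsFractionRing V K] [Algebra ℂ V] [Algebra ℂ K]
    [IsScalarTower ℂ V K] [CommRing R] [Algebra R V] [CommRing W] [IsDomain W]
    [IsDiscreteValuationRing W] [Algebra ℂ W] [Algebra R W] [Algebra W V] [IsScalarTower R W V]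
    [IsScalarTower ℂ W V] (hWV : Function.Injective (algebraMap W V))
    (hRV : Function.Injective (algebraMap R V))
    (hess : Algebra.EssFiniteType ℂ K) (halg : Algebra.IsAlgebraic R V)
    (t : W) (ht0 : t ≠ 0) (ht : algebraMap W V t ∈ IsLocalRing.maximalIdeal V) :
    Algebra.EssFiniteType W V := by
  classical
  let : Algebra W K := ((algebraMap V K).comp (algebraMap W V)).toAlgebra
  have hst : IsScalarTower W V K := IsScalarTower.of_algebraMap_eq' rfl
  have hVK : Function.Injective (algebraMap V K) := IsFractionRing.injective V K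
  have hWK : Function.Injective (algebraMap W K) := by
    rw [IsScalarTower.algebraMap_eq W V K]
    exact hVK.comp hWV
  have hfs : FaithfulSMul W K := (faithfulSMul_iff_algebraMap_injective _ _).2 hWK
  let : Algebra (FractionRing W) K := FractionRing.liftAlgebra W K
  have hst3 : IsScalarTower W (FractionRing W) K := FractionRing.isScalarTower_liftAlgebra W K
  have hst5 : IsScalarTower ℂ W K := by
    apply IsScalarTower.of_algebraMap_eq
    intro c
    rw [IsScalarTower.algebraMap_apply W V K, ← IsScalarTower.algebraMap_apply ℂ W V,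
      ← IsScalarTower.algebraMap_apply ℂ V K]
  have hst4 : IsScalarTower ℂ (FractionRing W) K := by
    apply IsScalarTower.of_algebraMap_eq
    intro c
    rw [IsScalarTower.algebraMap_apply ℂ W (FractionRing W),
      ← IsScalarTower.algebraMap_apply W (FractionRing W) K,
      ← IsScalarTower.algebraMap_apply ℂ W K]
  have hess3 : Algebra.EssFiniteType (FractionRing W) K := Algebra.EssFiniteType.of_comp ℂ _ _
  have halg2 : Algebra.IsAlgebraic (FractionRing W) K := by
    have h1 : Algebra.IsAlgebraic W V := by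
      constructor
      intro x
      obtain ⟨P, hP0, hP⟩ := halg.isAlgebraic x
      refine ⟨P.map (algebraMap R W), ?_, ?_⟩
      · intro h
        apply hP0
        have hRW : Function.Injective (algebraMap R W) := by
          intro a b hab
          apply hRV
          rw [IsScalarTower.algebraMap_apply R W V, hab, ← IsScalarTower.algebraMap_apply R W V]
        exact Polynomial.map_injective _ hRW (by rw [h, Polynomial.map_zero])
      · rw [Polynomial.aeval_map_algebraMap]
        exact hP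
    have h2 : Algebra.IsAlgebraic V K := IsLocalization.isAlgebraic K (nonZeroDivisors V)
    have h3 : Algebra.IsAlgebraic W K := Algebra.IsAlgebraic.trans W V K
    exact Algebra.IsAlgebraic.extendScalars (R := W) (IsFractionRing.injective W (FractionRing W))
  have hfin : Module.Finite (FractionRing W) K :=
    Algebra.finite_of_essFiniteType_of_isAlgebraic
  have hchar : CharZero (FractionRing W) := by
    have : Algebra ℂ (FractionRing W) := inferInstance
    exact charZero_of_injective_algebraMap (algebraMap ℂ (FractionRing W)).injective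
  exact EssRes_step W V K (FractionRing W) t ht0 ht

/-- J07a: let `V` be a domain over `ℂ` with fraction field of transcendence degree `n`, which is
a discrete valuation ring, and whose residue field has transcendence degree at least `n - 1`.
Then `V` is essentially of finite type over `ℂ`, if its fraction field is a finitely generated
field extension of `ℂ`. -/
theorem essFiniteType_of_residue (V : Type) [CommRing V] [IsDomain V]
    [IsDiscreteValuationRing V] [Algebra ℂ V] (n : ℕ) (hn : 1 ≤ n)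
    (hV : Algebra.trdeg ℂ V = n) (hfg : Algebra.EssFiniteType ℂ (FractionRing V))
    (w : Fin (n - 1) → V)
    (hw : AlgebraicIndependent ℂ (fun i => IsLocalRing.residue V (w i))) :
    Algebra.EssFiniteType ℂ V := by
  classical
  obtain ⟨t, htirr⟩ := IsDiscreteValuationRing.exists_irreducible V
  have ht0 : t ≠ 0 := htirr.ne_zero
  have htm : t ∈ IsLocalRing.maximalIdeal V :=
    (IsLocalRing.mem_maximalIdeal _).2 htirr.not_isUnit
  have hw1 : AlgebraicIndependent ℂ w :=
    AlgebraicIndependent.of_comp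
      (IsScalarTower.toAlgHom ℂ V (IsLocalRing.ResidueField V)) hw
  have hx := (hw1.option_iff_transcendental t).2 (EssRes_transc hw ht0 htm)
  have hbasis : IsTranscendenceBasis ℂ (fun o : Option (Fin (n - 1)) => o.elim t w) := by
    refine hx.isTranscendenceBasis_of_trdeg_le_of_finite ?_
    rw [hV]
    simp only [Cardinal.mk_fintype, Fintype.card_option, Fintype.card_fin]
    rw [Nat.sub_add_cancel hn]
  have halg : Algebra.IsAlgebraic
      (Algebra.adjoin ℂ (Set.range (fun o : Option (Fin (n - 1)) => o.elim t w))) V :=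
    hbasis.isAlgebraic
  have hsplit := fun r (hr : r ∈ Algebra.adjoin ℂ
    (Set.range (fun o : Option (Fin (n - 1)) => o.elim t w))) => EssRes_split w t hr
  have htR : t ∈ Algebra.adjoin ℂ (Set.range (fun o : Option (Fin (n - 1)) => o.elim t w)) :=
    Algebra.subset_adjoin ⟨none, rfl⟩
  have hsub : Algebra.adjoin ℂ (Set.range w) ≤
      Algebra.adjoin ℂ (Set.range (fun o : Option (Fin (n - 1)) => o.elim t w)) := by
    apply Algebra.adjoin_mono
    rintro _ ⟨i, rfl⟩
    exact ⟨some i, rfl⟩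
  have hft : Algebra.FiniteType ℂ
      (Algebra.adjoin ℂ (Set.range (fun o : Option (Fin (n - 1)) => o.elim t w))) :=
    (Subalgebra.fg_iff_finiteType _).1 (Subalgebra.fg_def.2 ⟨_, Set.finite_range _, rfl⟩)
  generalize Algebra.adjoin ℂ (Set.range (fun o : Option (Fin (n - 1)) => o.elim t w)) = R0
    at halg hsplit htR hft hsub
  clear hx hbasis
  have hnoeth : IsNoetherianRing R0 := Algebra.FiniteType.isNoetherianRing ℂ R0
  let p : Ideal R0 := (IsLocalRing.maximalIdeal V).comap (algebraMap R0 V)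
  have hpp : p.IsPrime := Ideal.comap_isPrime _ _
  let t0 : R0 := ⟨t, htR⟩
  have ht00 : t0 ≠ 0 := fun h => ht0 (congrArg Subtype.val h)
  have hpt : p = Ideal.span {t0} := by
    apply le_antisymm
    · intro r hr
      obtain ⟨b, hb, r', hr', hrb⟩ := hsplit r.1 r.2
      have hr2 : (r : V) ∈ IsLocalRing.maximalIdeal V := hr
      have hbm : b ∈ IsLocalRing.maximalIdeal V := by
        have h1 : b = (r : V) - r' * t := by linear_combination -hrb
        rw [h1]
        exact Ideal.sub_mem _ hr2 (Ideal.mul_mem_left _ _ htm)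
      have hb0 := EssRes_zero hw hb hbm
      rw [Ideal.mem_span_singleton']
      refine ⟨⟨r', hr'⟩, Subtype.ext ?_⟩
      change r' * t = (r : V)
      rw [hrb, hb0, zero_add]
    · rw [Ideal.span_singleton_le_iff_mem]
      exact htm
  have hWdom : IsDomain (Localization.AtPrime p) :=
    IsLocalization.isDomain_localization p.primeCompl_le_nonZeroDivisors
  have hWnoeth : IsNoetherianRing (Localization.AtPrime p) :=
    IsLocalization.isNoetherianRing p.primeCompl _ hnoeth
  have hRWi : Function.Injective (algebraMap R0 (Localization.AtPrime p)) :=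
    IsLocalization.injective (Localization.AtPrime p) p.primeCompl_le_nonZeroDivisors
  have hmax : IsLocalRing.maximalIdeal (Localization.AtPrime p) =
      Ideal.span {algebraMap R0 (Localization.AtPrime p) t0} := by
    have h1 : Ideal.map (algebraMap R0 (Localization.AtPrime p)) p =
        Ideal.map (algebraMap R0 (Localization.AtPrime p)) (Ideal.span {t0}) :=
      congrArg (Ideal.map (algebraMap R0 (Localization.AtPrime p))) hpt
    rw [← Localization.AtPrime.map_eq_maximalIdeal, h1, Ideal.map_span, Set.image_singleton]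
  have hnf : ¬ IsField (Localization.AtPrime p) := by
    rw [IsLocalRing.isField_iff_maximalIdeal_eq, hmax, Ideal.span_singleton_eq_bot]
    intro h
    exact ht00 (hRWi (by rw [h, map_zero]))
  have hprinc : (IsLocalRing.maximalIdeal (Localization.AtPrime p)).IsPrincipal := ⟨⟨_, hmax⟩⟩
  have hWdvr : IsDiscreteValuationRing (Localization.AtPrime p) :=
    ((IsDiscreteValuationRing.TFAE (Localization.AtPrime p) hnf).out 0 4).2 hprinc
  have hg : ∀ y : p.primeCompl, IsUnit (algebraMap R0 V y) := by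
    intro y
    by_contra hcon
    exact y.2 ((IsLocalRing.mem_maximalIdeal _).2 hcon)
  have hRVi : Function.Injective (algebraMap R0 V) := Subtype.val_injective
  let f : Localization.AtPrime p →+* V := IsLocalization.lift (M := p.primeCompl) hg
  have hfi : Function.Injective f :=
    (IsLocalization.lift_injective_iff (M := p.primeCompl) hg).2 fun x y =>
      ⟨fun h => congrArg _ (hRWi h), fun h => congrArg _ (hRVi h)⟩
  let : Algebra (Localization.AtPrime p) V := f.toAlgebra
  have hst : IsScalarTower R0 (Localization.AtPrime p) V :=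
    IsScalarTower.of_algebraMap_eq' (IsLocalization.lift_comp hg).symm
  have hst2 : IsScalarTower ℂ (Localization.AtPrime p) V := by
    apply IsScalarTower.of_algebraMap_eq
    intro c
    rw [IsScalarTower.algebraMap_apply ℂ R0 (Localization.AtPrime p),
      ← IsScalarTower.algebraMap_apply R0 (Localization.AtPrime p) V]
    rfl
  have hess2 : Algebra.EssFiniteType (Localization.AtPrime p) V :=
    EssRes_mid V (FractionRing V) R0 (Localization.AtPrime p) hfi hRVi hfg halg
      (algebraMap R0 (Localization.AtPrime p) t0)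
      (fun h => ht00 (hRWi (by rw [h, map_zero])))
      (by
        rw [← IsScalarTower.algebraMap_apply]
        exact htm)
  exact Algebra.EssFiniteType.comp ℂ (Localization.AtPrime p) V

end Pool.Agent.Lib_GD

end

/-! ### from `Lib_GD.OkDefs` -/

section

/-!
# Graded semigroups in `ℕ^n` with superadditive weights
-/

open scoped ENNReal
open MeasureTheory

namespace Pool.Agent.Lib_GD

/-- A graded semigroup `Γ m ⊆ ℕ^n` of linear growth containing the lattice points of the simplices
of size `c m`. -/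
structure OkData (n : ℕ) where
  Γ : ℕ → Finset (Fin n → ℕ)
  add : ∀ m m' γ γ', γ ∈ Γ m → γ' ∈ Γ m' → γ + γ' ∈ Γ (m + m')
  C : ℕ
  bdd : ∀ m, ∀ γ ∈ Γ m, ∑ i, γ i ≤ C * m
  c : ℝ
  hc : 0 < c
  m₀ : ℕ
  hm₀ : 1 ≤ m₀
  simplex : ∀ m, m₀ ≤ m → ∀ γ : Fin n → ℕ, ((∑ i, γ i : ℕ) : ℝ) ≤ c * m → γ ∈ Γ m

variable {n : ℕ} (D : OkData n)

/-- A superadditive weight. -/
def OkData.IsWeight (g : ℕ → (Fin n → ℕ) → ℕ) : Prop :=
  ∀ m m' γ γ', γ ∈ D.Γ m → γ' ∈ D.Γ m' → g m γ + g m' γ' ≤ g (m + m') (γ + γ')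

open Classical in
/-- number of `γ ∈ Γ m` of weight at least `r` -/
noncomputable def OkData.cnt (g : ℕ → (Fin n → ℕ) → ℕ) (m : ℕ) (r : ℝ) : ℕ :=
  ((D.Γ m).filter fun γ => r ≤ (g m γ : ℝ)).card

/-- `vol (L - tE)`, combinatorially. -/
noncomputable def OkData.volt (g : ℕ → (Fin n → ℕ) → ℕ) (t : ℝ) : ℝ≥0∞ :=
  Filter.limsup (fun m : ℕ => ((n.factorial * D.cnt g m (t * m) : ℕ) : ℝ≥0∞) /
    (m : ℝ≥0∞) ^ n) Filter.atTop

/-- `vol L`, combinatorially. -/
noncomputable def OkData.vol : ℝ≥0∞ :=
  Filter.limsup (fun m : ℕ => ((n.factorial * (D.Γ m).card : ℕ) : ℝ≥0∞) /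
    (m : ℝ≥0∞) ^ n) Filter.atTop

/-- `S`, combinatorially. -/
noncomputable def OkData.S (g : ℕ → (Fin n → ℕ) → ℕ) : ℝ≥0∞ :=
  (∫⁻ t in Set.Ioi (0 : ℝ), D.volt g t) / D.vol

/-- The superlevel set of the concave envelope of `g m` on the convex hull of `Γ m`. -/
def OkData.lev (g : ℕ → (Fin n → ℕ) → ℕ) (m : ℕ) (t : ℝ) : Set (Fin n → ℝ) :=
  {x | ∃ p : (Fin n → ℕ) → ℝ, (∀ γ, 0 ≤ p γ) ∧ ∑ γ ∈ D.Γ m, p γ = 1 ∧
    (∀ i, x i = ∑ γ ∈ D.Γ m, p γ * γ i) ∧ t ≤ ∑ γ ∈ D.Γ m, p γ * g m γ}

end Pool.Agent.Lib_GD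

end

/-! ### from `Lib_GD.Leading` -/

section

/-! B06: leading exponents and filtrations. -/

namespace Pool.Agent.Lib_GD

private theorem leading_linInd {V : Type} [AddCommGroup V] [Module ℂ V] {Λ : Type}
    [LinearOrder Λ] [WellFoundedLT Λ] (c : Λ → V →ₗ[ℂ] ℂ) (T : Set Λ) (v : T → V)
    (h1 : ∀ γ : T, c γ (v γ) ≠ 0) (h2 : ∀ γ : T, ∀ α < (γ : Λ), c α (v γ) = 0) :
    LinearIndependent ℂ v := by
  classical
  rw [linearIndependent_iff']
  intro s a ha
  have key : ∀ γ : Λ, ∀ hγ : γ ∈ T, (⟨γ, hγ⟩ : T) ∈ s → a ⟨γ, hγ⟩ = 0 := by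
    intro γ
    induction γ using WellFoundedLT.induction with
    | _ γ ih =>
      intro hγ hs
      have h3 := congrArg (c γ) ha
      rw [map_sum, map_zero, Finset.sum_eq_single_of_mem _ hs] at h3
      · rw [map_smul, smul_eq_mul] at h3
        rcases mul_eq_zero.1 h3 with h4 | h4
        · exact h4
        · exact absurd h4 (h1 ⟨γ, hγ⟩)
      · rintro ⟨β, hβ⟩ hβs hne
        rw [map_smul, smul_eq_mul]
        rcases lt_trichotomy β γ with h | h | h
        · rw [ih β h hβ hβs, zero_mul]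
        · exact absurd (Subtype.ext h) hne
        · rw [h2 ⟨β, hβ⟩ γ h, mul_zero]
  intro γ hγ
  exact key γ γ.2 hγ

private theorem leading_set {V : Type} [AddCommGroup V] [Module ℂ V] [Module.Finite ℂ V]
    {Λ : Type} [LinearOrder Λ] [WellFoundedLT Λ] (c : Λ → V →ₗ[ℂ] ℂ)
    (hc : ∀ v, (∀ α, c α v = 0) → v = 0) (W : Submodule ℂ V) :
    ∃ S : Finset Λ, S.card = Module.finrank ℂ W ∧
      ∀ γ, γ ∈ S ↔ ∃ v ∈ W, c γ v ≠ 0 ∧ ∀ α < γ, c α v = 0 := by
  classical
  set P : Set Λ := {γ | ∃ v ∈ W, c γ v ≠ 0 ∧ ∀ α < γ, c α v = 0} with hP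
  have hb : ∀ T : Finset Λ, (T : Set Λ) ⊆ P → T.card ≤ Module.finrank ℂ W := by
    intro T hT
    have h0 : ∀ γ : (T : Set Λ), ∃ v ∈ W, c γ v ≠ 0 ∧ ∀ α < (γ : Λ), c α v = 0 :=
      fun γ => hT γ.2
    choose v hvW hv1 hv2 using h0
    have hli := leading_linInd c (T : Set Λ) v hv1 hv2
    have hli2 : LinearIndependent ℂ (fun γ : (T : Set Λ) => (⟨v γ, hvW γ⟩ : W)) := by
      refine LinearIndependent.of_comp W.subtype ?_
      exact hli
    have := hli2.fintype_card_le_finrank
    simpa using this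
  have hfin : P.Finite := by
    by_contra hinf
    obtain ⟨T, hT, hcard⟩ := Set.Infinite.exists_subset_card_eq hinf (Module.finrank ℂ W + 1)
    have := hb T hT
    omega
  refine ⟨hfin.toFinset, le_antisymm (hb _ (by simp)) ?_, fun γ => by simp [hP]⟩
  let L : W →ₗ[ℂ] (hfin.toFinset → ℂ) := LinearMap.pi fun γ => (c γ).comp W.subtype
  have hL : Function.Injective L := by
    rw [injective_iff_map_eq_zero]
    intro w hw
    by_contra hne
    have hne' : (w : V) ≠ 0 := fun h => hne (Subtype.ext h)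
    have hex : ∃ α, c α (w : V) ≠ 0 := by
      by_contra hcon
      push Not at hcon
      exact hne' (hc _ hcon)
    have hwf : WellFounded ((· < ·) : Λ → Λ → Prop) := wellFounded_lt
    set γ := hwf.min {α | c α (w : V) ≠ 0} hex with hγ
    have hγ1 : c γ (w : V) ≠ 0 := hwf.min_mem {α | c α (w : V) ≠ 0} hex
    have hγ2 : ∀ α < γ, c α (w : V) = 0 := by
      intro α hα
      by_contra hcon
      exact hwf.not_lt_min {α | c α (w : V) ≠ 0} hcon hα
    have hmem : γ ∈ hfin.toFinset := by
      rw [Set.Finite.mem_toFinset]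
      exact ⟨w, w.2, hγ1, hγ2⟩
    have := congrFun hw ⟨γ, hmem⟩
    exact hγ1 this
  have := LinearMap.finrank_le_finrank_of_injective hL
  simpa using this

open Classical in
/-- B06: `V` a finite-dimensional space with functionals `c α`, `α` in a well-ordered set, jointly
injective; `ν v` the smallest `α` with `c α v ≠ 0`. For a function `f : V → ℕ∞` all of whose
superlevel sets `{f ≥ k}` are subspaces, with `f v ≠ ⊤` for `v ≠ 0`, there is `g` such that: the
set `Γ` of leading exponents is finite with `dim V` elements, `g γ` is the maximum of `f` on the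
vectors with leading exponent `γ`, the number of `γ ∈ Γ` with `g γ ≥ k` is `dim {f ≥ k}`, and the
sum of `f` over any basis is at most `∑ g`. -/
theorem exists_leading {V : Type} [AddCommGroup V] [Module ℂ V] [Module.Finite ℂ V] {Λ : Type}
    [LinearOrder Λ] [WellFoundedLT Λ] (c : Λ → V →ₗ[ℂ] ℂ) (hc : ∀ v, (∀ α, c α v = 0) → v = 0)
    (f : V → ℕ∞) (U : ℕ → Submodule ℂ V) (hU : ∀ k v, v ∈ U k ↔ (k : ℕ∞) ≤ f v)
    (hf : ∀ v, v ≠ 0 → f v ≠ ⊤) :
    ∃ (Γ : Finset Λ) (g : Λ → ℕ), Γ.card = Module.finrank ℂ V ∧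
      (∀ γ, γ ∈ Γ ↔ ∃ v, c γ v ≠ 0 ∧ ∀ α < γ, c α v = 0) ∧
      (∀ γ ∈ Γ, ∃ v, c γ v ≠ 0 ∧ (∀ α < γ, c α v = 0) ∧ f v = g γ) ∧
      (∀ γ v, c γ v ≠ 0 → (∀ α < γ, c α v = 0) → f v ≤ g γ) ∧
      (∀ k : ℕ, (Γ.filter fun γ => k ≤ g γ).card = Module.finrank ℂ (U k)) ∧
      ∀ b : Fin (Module.finrank ℂ V) → V, LinearIndependent ℂ b →
        ∑ i, (f (b i)).toNat ≤ ∑ γ ∈ Γ, g γ := by
  obtain ⟨Γ, hΓc, hΓ⟩ := leading_set c hc (⊤ : Submodule ℂ V)
  have hΓ' : ∀ γ, γ ∈ Γ ↔ ∃ v, c γ v ≠ 0 ∧ ∀ α < γ, c α v = 0 := by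
    intro γ; rw [hΓ]; simp
  -- the filtration is eventually zero
  have hanti : Antitone U := by
    intro a b hab v hv
    rw [hU] at hv ⊢
    exact le_trans (by exact_mod_cast hab) hv
  obtain ⟨K, hK⟩ : ∃ K, ∀ n, K ≤ n → U K = U n :=
    monotone_stabilizes_iff_artinian.2 inferInstance ⟨fun n => OrderDual.toDual (U n), hanti⟩
  have hK0 : ∀ v, v ≠ 0 → f v < K := by
    intro v hv
    by_contra hcon
    rw [not_lt, ← hU] at hcon
    apply hf v hv
    rw [ENat.eq_top_iff_forall_ge]
    intro m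
    rcases le_total K m with h | h
    · rw [← hU, ← hK m h]; exact hcon
    · rw [← hU]; exact hanti h hcon
  -- the maximum
  let g : Λ → ℕ := fun γ => sSup {k : ℕ | ∃ v, c γ v ≠ 0 ∧ (∀ α < γ, c α v = 0) ∧ (k : ℕ∞) ≤ f v}
  have hbd : ∀ γ, BddAbove {k : ℕ | ∃ v, c γ v ≠ 0 ∧ (∀ α < γ, c α v = 0) ∧ (k : ℕ∞) ≤ f v} := by
    intro γ
    refine ⟨K, ?_⟩
    rintro k ⟨v, h1, _, h3⟩
    have hv : v ≠ 0 := by rintro rfl; simp at h1
    have := lt_of_le_of_lt h3 (hK0 v hv)
    exact_mod_cast this.le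
  have hfin : ∀ v, v ≠ 0 → ((f v).toNat : ℕ∞) = f v := fun v hv => ENat.natCast_toNat (hf v hv)
  have hg2 : ∀ γ v, c γ v ≠ 0 → (∀ α < γ, c α v = 0) → f v ≤ g γ := by
    intro γ v h1 h2
    have hv : v ≠ 0 := by rintro rfl; simp at h1
    rw [← hfin v hv]
    have : (f v).toNat ≤ g γ := le_csSup (hbd γ) ⟨v, h1, h2, (hfin v hv).le⟩
    exact_mod_cast this
  have hg1 : ∀ γ ∈ Γ, ∃ v, c γ v ≠ 0 ∧ (∀ α < γ, c α v = 0) ∧ f v = g γ := by
    intro γ hγ
    obtain ⟨v0, h1, h2⟩ := (hΓ' γ).1 hγ
    have hne : {k : ℕ | ∃ v, c γ v ≠ 0 ∧ (∀ α < γ, c α v = 0) ∧ (k : ℕ∞) ≤ f v}.Nonempty :=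
      ⟨0, v0, h1, h2, by simp⟩
    obtain ⟨v, h3, h4, h5⟩ := Nat.sSup_mem hne (hbd γ)
    exact ⟨v, h3, h4, le_antisymm (hg2 γ v h3 h4) h5⟩
  have hcount : ∀ k : ℕ, (Γ.filter fun γ => k ≤ g γ).card = Module.finrank ℂ (U k) := by
    intro k
    obtain ⟨S, hSc, hS⟩ := leading_set c hc (U k)
    rw [← hSc]
    congr 1
    ext γ
    rw [Finset.mem_filter, hS]
    constructor
    · rintro ⟨h1, h2⟩
      obtain ⟨v, h3, h4, h5⟩ := hg1 γ h1
      exact ⟨v, (hU k v).2 (by rw [h5]; exact_mod_cast h2), h3, h4⟩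
    · rintro ⟨v, h1, h2, h3⟩
      refine ⟨(hΓ' γ).2 ⟨v, h2, h3⟩, ?_⟩
      have := le_trans ((hU k v).1 h1) (hg2 γ v h2 h3)
      exact_mod_cast this
  refine ⟨Γ, g, by rw [hΓc]; exact finrank_top ℂ V, hΓ', hg1, hg2, hcount, ?_⟩
  intro b hb
  -- layer cake
  have hcake : ∀ (m : ℕ), m ≤ K → m = ∑ k ∈ Finset.range K, if k + 1 ≤ m then 1 else 0 := by
    intro m hm
    rw [Finset.sum_ite, Finset.sum_const_zero, add_zero, Finset.sum_const, smul_eq_mul, mul_one]
    have : (Finset.range K).filter (fun k => k + 1 ≤ m) = Finset.range m := by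
      ext k; simp only [Finset.mem_filter, Finset.mem_range]; omega
    rw [this, Finset.card_range]
  have hbv : ∀ i, b i ≠ 0 := fun i => hb.ne_zero i
  have hb1 : ∀ i, (f (b i)).toNat ≤ K := by
    intro i
    have := hK0 (b i) (hbv i)
    rw [← hfin _ (hbv i)] at this
    exact_mod_cast this.le
  have hg3 : ∀ γ ∈ Γ, g γ ≤ K := by
    intro γ hγ
    obtain ⟨v, h3, h4, h5⟩ := hg1 γ hγ
    have hv : v ≠ 0 := by rintro rfl; simp at h3
    have := hK0 v hv
    rw [h5] at this
    exact_mod_cast this.le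
  calc ∑ i, (f (b i)).toNat
      = ∑ i, ∑ k ∈ Finset.range K, (if k + 1 ≤ (f (b i)).toNat then 1 else 0) :=
        Finset.sum_congr rfl fun i _ => hcake _ (hb1 i)
    _ = ∑ k ∈ Finset.range K, ∑ i, (if k + 1 ≤ (f (b i)).toNat then 1 else 0) :=
        Finset.sum_comm
    _ ≤ ∑ k ∈ Finset.range K, ∑ γ ∈ Γ, (if k + 1 ≤ g γ then 1 else 0) := by
        refine Finset.sum_le_sum fun k _ => ?_
        rw [← Finset.card_filter, ← Finset.card_filter, hcount (k + 1)]
        set I := Finset.univ.filter (fun i => k + 1 ≤ (f (b i)).toNat) with hI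
        have hmem : ∀ i : I, b i ∈ U (k + 1) := by
          intro i
          have := (Finset.mem_filter.1 i.2).2
          rw [hU, ← hfin _ (hbv i)]
          exact_mod_cast this
        have hli : LinearIndependent ℂ (fun i : I => (⟨b i, hmem i⟩ : U (k + 1))) := by
          refine LinearIndependent.of_comp (U (k + 1)).subtype ?_
          exact hb.comp (fun i : I => (i : Fin _)) Subtype.val_injective
        have := hli.fintype_card_le_finrank
        simpa using this
    _ = ∑ γ ∈ Γ, ∑ k ∈ Finset.range K, (if k + 1 ≤ g γ then 1 else 0) := Finset.sum_comm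
    _ = ∑ γ ∈ Γ, g γ := Finset.sum_congr rfl fun γ hγ => (hcake _ (hg3 γ hγ)).symm

end Pool.Agent.Lib_GD

end

/-! ### from `Lib_GD.OkLattice` -/

section

/-! B01, B02: lattice sums are bounded by integrals. -/

open scoped ENNReal
open MeasureTheory

namespace Pool.Agent.Lib_GD.OkData

variable {n : ℕ} (D : OkData n)

private lemma mem_lev_iff (g : ℕ → (Fin n → ℕ) → ℕ) (m : ℕ) (t : ℝ) (x : Fin n → ℝ) :
    x ∈ D.lev g m t ↔ ∃ p : (Fin n → ℕ) → ℝ, (∀ γ, 0 ≤ p γ) ∧ ∑ γ ∈ D.Γ m, p γ = 1 ∧
    (∀ i, x i = ∑ γ ∈ D.Γ m, p γ * γ i) ∧ t ≤ ∑ γ ∈ D.Γ m, p γ * g m γ := Iff.rfl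

/-- The level sets are compact and convex. -/
theorem isCompact_lev (g : ℕ → (Fin n → ℕ) → ℕ) (m : ℕ) (t : ℝ) : IsCompact (D.lev g m t) := by
  classical
  have hK : IsCompact (stdSimplex ℝ (D.Γ m) ∩
      {q : (D.Γ m) → ℝ | t ≤ ∑ γ : D.Γ m, q γ * g m γ}) := by
    refine (isCompact_stdSimplex ℝ (D.Γ m)).inter_right ?_
    refine isClosed_le continuous_const ?_
    exact continuous_finsetSum _ fun i _ => (continuous_apply i).mul continuous_const
  have hc : Continuous (fun (q : (D.Γ m) → ℝ) (i : Fin n) =>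
      ∑ γ : D.Γ m, q γ * (((γ : Fin n → ℕ) i : ℕ) : ℝ)) := by
    refine continuous_pi fun i => ?_
    exact continuous_finsetSum _ fun j _ => (continuous_apply j).mul continuous_const
  have he : D.lev g m t = (fun (q : (D.Γ m) → ℝ) (i : Fin n) =>
      ∑ γ : D.Γ m, q γ * (((γ : Fin n → ℕ) i : ℕ) : ℝ)) '' (stdSimplex ℝ (D.Γ m) ∩
      {q : (D.Γ m) → ℝ | t ≤ ∑ γ : D.Γ m, q γ * g m γ}) := by
    ext x
    constructor
    · rintro ⟨p, hp0, hp1, hx, ht⟩
      refine ⟨fun γ => p γ, ⟨⟨fun γ => hp0 γ, ?_⟩, ?_⟩, ?_⟩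
      · rw [Finset.sum_coe_sort (D.Γ m) p]; exact hp1
      · have := Finset.sum_coe_sort (D.Γ m) (fun γ => p γ * g m γ)
        simp only [Set.mem_ofPred_eq]
        rw [this]; exact ht
      · funext i
        have := Finset.sum_coe_sort (D.Γ m) (fun γ => p γ * ((γ i : ℕ) : ℝ))
        simp only
        rw [this, hx i]
    · rintro ⟨q, ⟨⟨hq0, hq1⟩, hqt⟩, rfl⟩
      refine ⟨fun γ => if h : γ ∈ D.Γ m then q ⟨γ, h⟩ else 0, ?_, ?_, ?_, ?_⟩
      · intro γ
        simp only
        split_ifs with h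
        · exact hq0 _
        · exact le_rfl
      · rw [← Finset.sum_coe_sort]
        simpa using hq1
      · intro i
        rw [← Finset.sum_coe_sort]
        simp
      · rw [← Finset.sum_coe_sort]
        simpa using hqt
  rw [he]
  exact hK.image hc

private lemma mix_mem_lev (g : ℕ → (Fin n → ℕ) → ℕ) (m : ℕ) {t s : ℝ} {x y : Fin n → ℝ}
    (hx : x ∈ D.lev g m t) (hy : y ∈ D.lev g m s) {a b : ℝ} (ha : 0 ≤ a) (hb : 0 ≤ b)
    (hab : a + b = 1) : a • x + b • y ∈ D.lev g m (a * t + b * s) := by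
  obtain ⟨p, hp0, hp1, hpx, hpt⟩ := hx
  obtain ⟨q, hq0, hq1, hqy, hqt⟩ := hy
  refine ⟨fun γ => a * p γ + b * q γ, fun γ => ?_, ?_, fun i => ?_, ?_⟩
  · exact add_nonneg (mul_nonneg ha (hp0 γ)) (mul_nonneg hb (hq0 γ))
  · rw [Finset.sum_add_distrib, ← Finset.mul_sum, ← Finset.mul_sum, hp1, hq1, mul_one, mul_one,
      hab]
  · simp only [Pi.add_apply, Pi.smul_apply, smul_eq_mul, hpx i, hqy i, Finset.mul_sum,
      add_mul, Finset.sum_add_distrib]
    congr 1 <;> exact Finset.sum_congr rfl fun γ _ => by ring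
  · have h1 : ∑ γ ∈ D.Γ m, (a * p γ + b * q γ) * (g m γ : ℝ) =
        a * ∑ γ ∈ D.Γ m, p γ * g m γ + b * ∑ γ ∈ D.Γ m, q γ * g m γ := by
      rw [Finset.mul_sum, Finset.mul_sum, ← Finset.sum_add_distrib]
      exact Finset.sum_congr rfl fun γ _ => by ring
    rw [h1]
    exact add_le_add (mul_le_mul_of_nonneg_left hpt ha) (mul_le_mul_of_nonneg_left hqt hb)

theorem convex_lev (g : ℕ → (Fin n → ℕ) → ℕ) (m : ℕ) (t : ℝ) : Convex ℝ (D.lev g m t) := by
  intro x hx y hy a b ha hb hab
  have := mix_mem_lev D g m hx hy ha hb hab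
  rwa [← add_mul, hab, one_mul] at this

private lemma lev_anti (g : ℕ → (Fin n → ℕ) → ℕ) (m : ℕ) {s t : ℝ} (hst : s ≤ t) :
    D.lev g m t ⊆ D.lev g m s := by
  rintro x ⟨p, h0, h1, h2, h3⟩
  exact ⟨p, h0, h1, h2, hst.trans h3⟩

private lemma point_mem_lev (g : ℕ → (Fin n → ℕ) → ℕ) (m : ℕ) (γ : Fin n → ℕ) (hγ : γ ∈ D.Γ m) :
    (fun i => (γ i : ℝ)) ∈ D.lev g m (g m γ) := by
  classical
  refine ⟨fun δ => if δ = γ then 1 else 0, fun δ => ?_, ?_, fun i => ?_, ?_⟩
  · simp only; split_ifs <;> norm_num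
  · simp [hγ]
  · simp [ite_mul, hγ]
  · simp [ite_mul, hγ]

private lemma simplex_mem_lev (g : ℕ → (Fin n → ℕ) → ℕ) (m : ℕ) (hm : D.m₀ ≤ m)
    (w : Fin n → ℝ) (hw : ∀ i, 0 ≤ w i) (hws : ∑ i, w i ≤ D.c * m - 1) :
    w ∈ D.lev g m 0 := by
  classical
  set K : ℕ := ⌊D.c * m⌋₊ with hKdef
  have hcm : 0 ≤ D.c * m := mul_nonneg D.hc.le (Nat.cast_nonneg m)
  have hKle : (K : ℝ) ≤ D.c * m := Nat.floor_le hcm
  have hKgt : D.c * m - 1 < K := by
    have := Nat.lt_floor_add_one (D.c * m)
    rw [← hKdef] at this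
    linarith
  have hKpos : (0 : ℝ) < K := by
    have : (0 : ℝ) ≤ ∑ i, w i := Finset.sum_nonneg fun i _ => hw i
    linarith
  have hsum : ∑ i, w i / K ≤ 1 := by
    rw [← Finset.sum_div, div_le_one hKpos]
    linarith
  -- the points
  let z : Option (Fin n) → (Fin n → ℕ) := fun o => match o with
    | none => 0
    | some i => Pi.single i K
  let wt : Option (Fin n) → ℝ := fun o => match o with
    | none => 1 - ∑ i, w i / K
    | some i => w i / K
  have hz : ∀ o, z o ∈ D.Γ m := by
    intro o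
    apply D.simplex m hm
    cases o with
    | none => simpa [z] using hcm
    | some i =>
      have : ∑ j, z (some i) j = K := by simp [z]
      rw [this]; exact hKle
  have hmem : ∀ o, (fun i => ((z o) i : ℝ)) ∈ D.lev g m 0 := fun o =>
    lev_anti D g m (Nat.cast_nonneg _) (point_mem_lev D g m (z o) (hz o))
  have hwt0 : ∀ o ∈ (Finset.univ : Finset (Option (Fin n))), 0 ≤ wt o := by
    intro o _
    cases o with
    | none => simp only [wt]; linarith
    | some i => exact div_nonneg (hw i) hKpos.le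
  have hwt1 : ∑ o, wt o = 1 := by
    rw [Fintype.sum_option]
    simp [wt]
  have := (convex_lev D g m 0).sum_mem hwt0 hwt1 (fun o _ => hmem o)
  convert this using 1
  funext j
  rw [Fintype.sum_option]
  simp only [Pi.add_apply, Pi.smul_apply, Finset.sum_apply, smul_eq_mul, z, wt, Pi.zero_apply,
    Nat.cast_zero, mul_zero, zero_add]
  rw [Finset.sum_eq_single j]
  · simp [hKpos.ne']
  · intro i _ hij
    simp [hij.symm]
  · intro h; exact absurd (Finset.mem_univ j) h

/-- the cube -/
private def cube (θ : ℝ) (γ : Fin n → ℕ) : Set (Fin n → ℝ) :=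
  Set.pi Set.univ fun i => Set.Ico ((1 - θ) * (γ i : ℝ)) ((1 - θ) * (γ i : ℝ) + (1 - θ))

private lemma volume_cube (θ : ℝ) (γ : Fin n → ℕ) :
    volume (cube θ γ) = ENNReal.ofReal (1 - θ) ^ n := by
  rw [cube, Real.volume_pi_Ico]
  simp

private lemma measurable_cube (θ : ℝ) (γ : Fin n → ℕ) : MeasurableSet (cube θ γ) :=
  MeasurableSet.univ_pi fun _ => measurableSet_Ico

private lemma cube_disjoint {θ : ℝ} (hθ1 : θ < 1) {γ δ : Fin n → ℕ} (h : γ ≠ δ) :
    Disjoint (cube θ γ) (cube θ δ) := by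
  rw [Set.disjoint_left]
  intro x hx hy
  apply h
  funext i
  have h1 := hx i (Set.mem_univ i)
  have h2 := hy i (Set.mem_univ i)
  simp only [Set.mem_Ico] at h1 h2
  have hp : 0 < 1 - θ := by linarith
  have key : ∀ a b : ℕ, (1 - θ) * (a : ℝ) ≤ x i → x i < (1 - θ) * (b : ℝ) + (1 - θ) → a ≤ b := by
    intro a b ha hb
    have : (1 - θ) * (a : ℝ) < (1 - θ) * ((b : ℝ) + 1) := by linarith
    have := lt_of_mul_lt_mul_left this hp.le
    have h3 : (a : ℝ) < ((b + 1 : ℕ) : ℝ) := by push_cast; exact this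
    have h4 : a < b + 1 := by exact_mod_cast h3
    omega
  exact le_antisymm (key _ _ h1.1 h2.2) (key _ _ h2.1 h1.2)

private lemma cube_subset (g : ℕ → (Fin n → ℕ) → ℕ) (m : ℕ) (hm : D.m₀ ≤ m) (θ : ℝ) (hθ : 0 < θ)
    (hθ1 : θ < 1) (hθm : n / θ ≤ D.c * m - 1) (γ : Fin n → ℕ) (hγ : γ ∈ D.Γ m) :
    cube θ γ ⊆ D.lev g m ((1 - θ) * g m γ) := by
  intro x hx
  have hp : 0 < 1 - θ := by linarith
  set w : Fin n → ℝ := fun i => (x i - (1 - θ) * γ i) / θ with hwdef
  have hx' : ∀ i, (1 - θ) * (γ i : ℝ) ≤ x i ∧ x i < (1 - θ) * (γ i : ℝ) + (1 - θ) := fun i =>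
    hx i (Set.mem_univ i)
  have hw0 : ∀ i, 0 ≤ w i := fun i => div_nonneg (by linarith [(hx' i).1]) hθ.le
  have hw1 : ∀ i, w i ≤ 1 / θ := fun i => by
    apply div_le_div_of_nonneg_right _ hθ.le
    linarith [(hx' i).2]
  have hws : ∑ i, w i ≤ D.c * m - 1 := by
    calc ∑ i, w i ≤ ∑ _i : Fin n, 1 / θ := Finset.sum_le_sum fun i _ => hw1 i
      _ = n / θ := by simp [div_eq_mul_inv]
      _ ≤ _ := hθm
  have h1 := simplex_mem_lev D g m hm w hw0 hws
  have h2 := point_mem_lev D g m γ hγ
  have h3 := mix_mem_lev D g m h2 h1 hp.le hθ.le (by ring)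
  rw [mul_zero, add_zero] at h3
  convert h3 using 1
  funext i
  simp only [Pi.add_apply, Pi.smul_apply, smul_eq_mul, hwdef]
  field_simp
  ring

/-- B01: for `θ ∈ (0, 1)` with `n / θ ≤ c m - 1`, the cubes `(1 - θ) (γ + [0, 1)^n)`,
`γ ∈ Γ m`, `g m γ ≥ t`, lie in the level set of `(1 - θ) t`. -/
theorem cnt_le_volume (g : ℕ → (Fin n → ℕ) → ℕ) (m : ℕ) (hm : D.m₀ ≤ m) (θ : ℝ) (hθ : 0 < θ)
    (hθ1 : θ < 1) (hθm : n / θ ≤ D.c * m - 1) (t : ℝ) (ht : 0 ≤ t) :
    ENNReal.ofReal ((1 - θ) ^ n * D.cnt g m t) ≤ volume (D.lev g m ((1 - θ) * t)) := by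
  classical
  have hp : 0 < 1 - θ := by linarith
  set s := (D.Γ m).filter fun γ => t ≤ (g m γ : ℝ) with hs
  have hcnt : D.cnt g m t = s.card := by
    rw [cnt, hs]
  have hU : (⋃ γ ∈ s, cube θ γ) ⊆ D.lev g m ((1 - θ) * t) := by
    refine Set.iUnion₂_subset fun γ hγ => ?_
    rw [hs, Finset.mem_filter] at hγ
    refine (cube_subset D g m hm θ hθ hθ1 hθm γ hγ.1).trans (lev_anti D g m ?_)
    exact mul_le_mul_of_nonneg_left hγ.2 hp.le
  have hV : volume (⋃ γ ∈ s, cube θ γ) = ENNReal.ofReal ((1 - θ) ^ n * D.cnt g m t) := by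
    rw [measure_biUnion_finset (fun γ _ δ _ h => cube_disjoint hθ1 h)
      (fun γ _ => measurable_cube θ γ)]
    simp only [volume_cube, Finset.sum_const, nsmul_eq_mul]
    rw [ENNReal.ofReal_mul (pow_nonneg hp.le n), ENNReal.ofReal_pow hp.le,
      ENNReal.ofReal_natCast, hcnt, mul_comm]
  rw [← hV]
  exact measure_mono hU

private lemma lintegral_cnt (g : ℕ → (Fin n → ℕ) → ℕ) (m : ℕ) :
    ∫⁻ t in Set.Ioi (0 : ℝ), (D.cnt g m t : ℝ≥0∞) = ((∑ γ ∈ D.Γ m, g m γ : ℕ) : ℝ≥0∞) := by
  classical
  have h1 : ∀ t : ℝ, (D.cnt g m t : ℝ≥0∞) =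
      ∑ γ ∈ D.Γ m, (Set.Iic ((g m γ : ℕ) : ℝ)).indicator (fun _ => (1 : ℝ≥0∞)) t := by
    intro t
    have : D.cnt g m t = ((D.Γ m).filter fun γ => t ≤ (g m γ : ℝ)).card := by
      rw [cnt]
    rw [this, Finset.card_filter, Nat.cast_sum]
    refine Finset.sum_congr rfl fun γ _ => ?_
    simp only [Set.indicator, Set.mem_Iic]
    split_ifs <;> simp
  simp only [h1]
  rw [lintegral_finsetSum _ (fun γ _ => measurable_const.indicator measurableSet_Iic)]
  rw [Nat.cast_sum]
  refine Finset.sum_congr rfl fun γ _ => ?_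
  rw [lintegral_indicator measurableSet_Iic, setLIntegral_const, one_mul,
    Measure.restrict_apply' measurableSet_Ioi, Set.inter_comm, Set.Ioi_inter_Iic,
    Real.volume_Ioc, sub_zero, ENNReal.ofReal_natCast]

/-- B02. -/
theorem sum_le_integral (g : ℕ → (Fin n → ℕ) → ℕ) (m : ℕ) (hm : D.m₀ ≤ m) (θ : ℝ) (hθ : 0 < θ)
    (hθ1 : θ < 1) (hθm : n / θ ≤ D.c * m - 1) :
    ENNReal.ofReal ((1 - θ) ^ (n + 1)) * ((∑ γ ∈ D.Γ m, g m γ : ℕ) : ℝ≥0∞) ≤
      ∫⁻ s in Set.Ioi (0 : ℝ), volume (D.lev g m s) := by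
  have hp : 0 < 1 - θ := by linarith
  have hanti : Antitone fun s : ℝ => volume (D.lev g m s) := fun s t hst =>
    measure_mono (lev_anti D g m hst)
  have hmeas : Measurable fun s : ℝ => volume (D.lev g m s) := hanti.measurable
  have hF : Measurable ((Set.Ioi (0 : ℝ)).indicator fun s : ℝ => volume (D.lev g m s)) :=
    hmeas.indicator measurableSet_Ioi
  have hcv : ∫⁻ s in Set.Ioi (0 : ℝ), volume (D.lev g m s) =
      ENNReal.ofReal (1 - θ) * ∫⁻ t in Set.Ioi (0 : ℝ), volume (D.lev g m ((1 - θ) * t)) := by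
    rw [← lintegral_indicator measurableSet_Ioi, ← lintegral_indicator measurableSet_Ioi]
    have h := Real.smul_map_volume_mul_left (a := 1 - θ) hp.ne'
    conv_lhs => rw [← h]
    rw [lintegral_smul_measure, lintegral_map hF (measurable_const_mul _), abs_of_pos hp,
      smul_eq_mul]
    congr 1
    refine lintegral_congr fun t => ?_
    simp only [Set.indicator, Set.mem_Ioi, mul_pos_iff_of_pos_left hp]
  rw [hcv, ← lintegral_cnt, pow_succ', ENNReal.ofReal_mul hp.le, mul_assoc]
  gcongr
  rw [← lintegral_const_mul']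
  · refine lintegral_mono_ae ?_
    refine (ae_restrict_iff' measurableSet_Ioi).2 (Filter.Eventually.of_forall fun t ht => ?_)
    have := cnt_le_volume D g m hm θ hθ hθ1 hθm t (le_of_lt ht)
    rwa [ENNReal.ofReal_mul (pow_nonneg hp.le n), ENNReal.ofReal_natCast] at this
  · exact ENNReal.ofReal_ne_top

end Pool.Agent.Lib_GD.OkData

end

/-! ### from `Lib_GD.OkMem` -/

section

/-! B03a. -/

open scoped ENNReal
open MeasureTheory

namespace Pool.Agent.Lib_GD.OkData

variable {n : ℕ} (D : OkData n)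

private theorem OkMem_nsmul (g : ℕ → (Fin n → ℕ) → ℕ) (hg : D.IsWeight g) {m r : ℕ}
    {γ x : Fin n → ℕ} (hγ : γ ∈ D.Γ m) (hx : x ∈ D.Γ r) (j : ℕ) :
    x + j • γ ∈ D.Γ (m * j + r) ∧ j * g m γ + g r x ≤ g (m * j + r) (x + j • γ) := by
  induction j with
  | zero => simp [hx]
  | succ j ih =>
    have e1 : m * (j + 1) + r = (m * j + r) + m := by ring
    have e2 : x + (j + 1) • γ = (x + j • γ) + γ := by
      rw [add_smul, one_smul, add_assoc]
    rw [e1, e2]
    refine ⟨D.add _ _ _ _ ih.1 hγ, ?_⟩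
    have h1 := hg _ _ _ _ ih.1 hγ
    have h2 : (j + 1) * g m γ = j * g m γ + g m γ := by ring
    rw [h2]
    have h3 := ih.2
    omega

private theorem OkMem_sum (g : ℕ → (Fin n → ℕ) → ℕ) (hg : D.IsWeight g) {m : ℕ}
    (kf : (Fin n → ℕ) → ℕ) (s : Finset (Fin n → ℕ)) (hs : ∀ γ ∈ s, γ ∈ D.Γ m) {r : ℕ}
    {x : Fin n → ℕ} (hx : x ∈ D.Γ r) :
    x + ∑ γ ∈ s, kf γ • γ ∈ D.Γ (m * (∑ γ ∈ s, kf γ) + r) ∧
      (∑ γ ∈ s, kf γ * g m γ) + g r x ≤
        g (m * (∑ γ ∈ s, kf γ) + r) (x + ∑ γ ∈ s, kf γ • γ) := by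
  classical
  induction s using Finset.induction_on with
  | empty => simp [hx]
  | insert a s ha ih =>
    have ih' := ih (fun γ hγ => hs γ (Finset.mem_insert_of_mem hγ))
    obtain ⟨h1, h2⟩ := D.OkMem_nsmul g hg (hs a (Finset.mem_insert_self a s)) ih'.1 (kf a)
    have e1 : m * (∑ γ ∈ insert a s, kf γ) + r = m * kf a + (m * (∑ γ ∈ s, kf γ) + r) := by
      rw [Finset.sum_insert ha]
      ring
    have e2 : x + ∑ γ ∈ insert a s, kf γ • γ = (x + ∑ γ ∈ s, kf γ • γ) + kf a • a := by
      rw [Finset.sum_insert ha]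
      abel
    rw [e1, e2, Finset.sum_insert ha]
    refine ⟨h1, ?_⟩
    have h3 := ih'.2
    omega

/-- B03a: a lattice point of `k · lev m t` belongs to `Γ (m k + r)`, with weight at least
`k t - K`, as soon as `r ≥ r₀` (`r₀`, `K` depend on `m`, `g`, not on `k`). -/
theorem exists_mem_of_lev (g : ℕ → (Fin n → ℕ) → ℕ) (hg : D.IsWeight g) (m : ℕ)
    (hm : D.m₀ ≤ m) (t : ℝ) : ∃ (r₀ : ℕ) (K : ℝ), ∀ (k r : ℕ), r₀ ≤ r → 1 ≤ k →
      ∀ z : Fin n → ℕ, (fun i => (z i : ℝ) / k) ∈ D.lev g m t →
        z ∈ D.Γ (m * k + r) ∧ k * t - K ≤ (g (m * k + r) z : ℝ) := by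
  classical
  obtain ⟨T, hT⟩ := exists_nat_ge (((∑ γ ∈ D.Γ m, ∑ i, γ i : ℕ) : ℝ) / D.c)
  refine ⟨max D.m₀ T, ((∑ γ ∈ D.Γ m, g m γ : ℕ) : ℝ), fun k r hr hk z hz => ?_⟩
  obtain ⟨p, hp0, hp1, hpx, hpt⟩ := hz
  have hk0 : (0 : ℝ) < k := by exact_mod_cast hk
  have hrm : D.m₀ ≤ r := le_trans (le_max_left _ _) hr
  have hrT : (T : ℝ) ≤ r := by exact_mod_cast le_trans (le_max_right _ _) hr
  have hz1 : ∀ i, (z i : ℝ) = ∑ γ ∈ D.Γ m, (k * p γ) * (γ i : ℝ) := by
    intro i
    have h1 := hpx i
    simp only at h1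
    rw [div_eq_iff hk0.ne'] at h1
    rw [h1, Finset.sum_mul]
    exact Finset.sum_congr rfl fun γ _ => by ring
  obtain ⟨kf, hkf⟩ : ∃ kf : (Fin n → ℕ) → ℕ, ∀ γ, kf γ = ⌊(k : ℝ) * p γ⌋₊ := ⟨_, fun _ => rfl⟩
  have hkle : ∀ γ, (kf γ : ℝ) ≤ k * p γ := by
    intro γ
    rw [hkf]
    exact Nat.floor_le (mul_nonneg hk0.le (hp0 γ))
  have hkge : ∀ γ, (k : ℝ) * p γ - 1 ≤ kf γ := by
    intro γ
    rw [hkf]
    have := Nat.lt_floor_add_one ((k : ℝ) * p γ)
    linarith
  have hksum : ∑ γ ∈ D.Γ m, kf γ ≤ k := by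
    have h1 : ((∑ γ ∈ D.Γ m, kf γ : ℕ) : ℝ) ≤ k := by
      push_cast
      calc ∑ γ ∈ D.Γ m, (kf γ : ℝ) ≤ ∑ γ ∈ D.Γ m, (k : ℝ) * p γ :=
            Finset.sum_le_sum fun γ _ => hkle γ
        _ = k := by rw [← Finset.mul_sum, hp1, mul_one]
    exact_mod_cast h1
  have hzge : ∀ i, ∑ γ ∈ D.Γ m, kf γ * γ i ≤ z i := by
    intro i
    have h1 : ((∑ γ ∈ D.Γ m, kf γ * γ i : ℕ) : ℝ) ≤ z i := by
      rw [hz1 i]
      push_cast
      exact Finset.sum_le_sum fun γ _ => mul_le_mul_of_nonneg_right (hkle γ) (Nat.cast_nonneg _)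
    exact_mod_cast h1
  obtain ⟨e, he⟩ : ∃ e : Fin n → ℕ, ∀ i, e i = z i - ∑ γ ∈ D.Γ m, kf γ * γ i := ⟨_, fun _ => rfl⟩
  have hez : ∀ i, e i + ∑ γ ∈ D.Γ m, kf γ * γ i = z i := by
    intro i
    rw [he]
    exact Nat.sub_add_cancel (hzge i)
  have hebd : ∀ i, e i ≤ ∑ γ ∈ D.Γ m, γ i := by
    intro i
    have h1 : (e i : ℝ) ≤ ((∑ γ ∈ D.Γ m, γ i : ℕ) : ℝ) := by
      have h2 : (e i : ℝ) + ∑ γ ∈ D.Γ m, (kf γ : ℝ) * γ i = z i := by
        have := congrArg (fun y : ℕ => (y : ℝ)) (hez i)
        push_cast at this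
        exact this
      rw [hz1 i] at h2
      push_cast
      have h3 : ∑ γ ∈ D.Γ m, (k * p γ) * (γ i : ℝ) ≤
          ∑ γ ∈ D.Γ m, ((γ i : ℝ) + (kf γ : ℝ) * γ i) := by
        refine Finset.sum_le_sum fun γ _ => ?_
        have h4 := hkge γ
        have h5 : (0 : ℝ) ≤ γ i := Nat.cast_nonneg _
        nlinarith
      rw [Finset.sum_add_distrib] at h3
      linarith
    exact_mod_cast h1
  have hesum : ((∑ i, e i : ℕ) : ℝ) ≤ D.c * r := by
    have h1 : ∑ i, e i ≤ ∑ γ ∈ D.Γ m, ∑ i, γ i := by
      rw [Finset.sum_comm]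
      exact Finset.sum_le_sum fun i _ => hebd i
    have h2 : ((∑ γ ∈ D.Γ m, ∑ i, γ i : ℕ) : ℝ) ≤ D.c * T := by
      rw [div_le_iff₀ D.hc] at hT
      linarith
    calc ((∑ i, e i : ℕ) : ℝ) ≤ ((∑ γ ∈ D.Γ m, ∑ i, γ i : ℕ) : ℝ) := by exact_mod_cast h1
      _ ≤ D.c * T := h2
      _ ≤ D.c * r := mul_le_mul_of_nonneg_left hrT D.hc.le
  have heΓ : e ∈ D.Γ r := D.simplex r hrm e hesum
  have h0Γ : (0 : Fin n → ℕ) ∈ D.Γ m := by
    refine D.simplex m hm 0 ?_
    simp only [Pi.zero_apply, Finset.sum_const_zero, Nat.cast_zero]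
    exact mul_nonneg D.hc.le (Nat.cast_nonneg _)
  obtain ⟨a1, a2⟩ := D.OkMem_nsmul g hg h0Γ heΓ (k - ∑ γ ∈ D.Γ m, kf γ)
  obtain ⟨b1, b2⟩ := D.OkMem_sum g hg (m := m) kf (D.Γ m) (fun _ h => h) a1
  have ez : e + (k - ∑ γ ∈ D.Γ m, kf γ) • (0 : Fin n → ℕ) + ∑ γ ∈ D.Γ m, kf γ • γ = z := by
    rw [smul_zero, add_zero]
    funext i
    rw [Pi.add_apply, Finset.sum_apply]
    simp only [Pi.smul_apply, smul_eq_mul]
    exact hez i
  have em : m * (∑ γ ∈ D.Γ m, kf γ) + (m * (k - ∑ γ ∈ D.Γ m, kf γ) + r) = m * k + r := by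
    rw [← add_assoc, ← Nat.mul_add, Nat.add_sub_cancel' hksum]
  rw [ez, em] at b1 b2
  refine ⟨b1, ?_⟩
  have c1 : ((∑ γ ∈ D.Γ m, kf γ * g m γ : ℕ) : ℝ) ≤ (g (m * k + r) z : ℝ) := by
    exact_mod_cast le_trans (Nat.le_add_right _ _) b2
  have c2 : k * t - ((∑ γ ∈ D.Γ m, g m γ : ℕ) : ℝ) ≤
      ((∑ γ ∈ D.Γ m, kf γ * g m γ : ℕ) : ℝ) := by
    have h1 : (k : ℝ) * t ≤ ∑ γ ∈ D.Γ m, (k * p γ) * (g m γ : ℝ) := by
      have h2 := mul_le_mul_of_nonneg_left hpt hk0.le
      rw [Finset.mul_sum] at h2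
      refine h2.trans (le_of_eq (Finset.sum_congr rfl fun γ _ => by ring))
    have h3 : ∑ γ ∈ D.Γ m, (k * p γ) * (g m γ : ℝ) ≤
        ∑ γ ∈ D.Γ m, ((g m γ : ℝ) + (kf γ : ℝ) * g m γ) := by
      refine Finset.sum_le_sum fun γ _ => ?_
      have h4 := hkge γ
      have h5 : (0 : ℝ) ≤ g m γ := Nat.cast_nonneg _
      nlinarith
    rw [Finset.sum_add_distrib] at h3
    push_cast
    linarith
  linarith

end Pool.Agent.Lib_GD.OkData

end

/-! ### from `Lib_GD.OkTend` -/

section

/-! B03b: lattice points of dilates. -/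

open scoped ENNReal
open MeasureTheory

namespace Pool.Agent.Lib_GD.OkData

open scoped Pointwise in
private theorem OkTend_card {n : ℕ} (A : Set (Fin n → ℝ)) (hA0 : ∀ x ∈ A, ∀ i, 0 ≤ x i) (k : ℕ)
    (hk : 1 ≤ k) :
    Nat.card {z : Fin n → ℕ // (fun i => (z i : ℝ) / k) ∈ A} =
      Nat.card ↑(A ∩ (k : ℝ)⁻¹ • Submodule.span ℤ (Set.range (Pi.basisFun ℝ (Fin n)))) := by
  have : NeZero k := ⟨by omega⟩
  have hk0 : (0 : ℝ) < k := by exact_mod_cast hk
  have hmem : ∀ z : {z : Fin n → ℕ // (fun i => (z i : ℝ) / k) ∈ A},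
      (fun i => (z.1 i : ℝ) / k) ∈
        (A ∩ (k : ℝ)⁻¹ • Submodule.span ℤ (Set.range (Pi.basisFun ℝ (Fin n))) :
          Set (Fin n → ℝ)) := by
    intro z
    refine ⟨z.2, ?_⟩
    refine BoxIntegral.unitPartition.mem_smul_span_iff.2 fun i => ⟨(z.1 i : ℤ), ?_⟩
    simp only [algebraMap_int_eq, eq_intCast, Int.cast_natCast]
    field_simp
  refine Nat.card_congr (Equiv.ofBijective (fun z => ⟨fun i => (z.1 i : ℝ) / k, hmem z⟩) ⟨?_, ?_⟩)
  · intro a b hab
    apply Subtype.ext
    funext i
    have h1 := congrFun (congrArg Subtype.val hab) i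
    simp only at h1
    rw [div_left_inj' hk0.ne'] at h1
    exact_mod_cast h1
  · rintro ⟨x, hx1, hx2⟩
    have h1 := BoxIntegral.unitPartition.mem_smul_span_iff.1 hx2
    choose m hm using h1
    simp only [algebraMap_int_eq, eq_intCast] at hm
    have h0 : ∀ i, 0 ≤ m i := by
      intro i
      have h2 : (0 : ℝ) ≤ (m i : ℝ) := by
        rw [hm i]
        exact mul_nonneg hk0.le (hA0 x hx1 i)
      exact_mod_cast h2
    have h3 : ∀ i, (((m i).toNat : ℕ) : ℝ) / k = x i := by
      intro i
      have h4 : (((m i).toNat : ℕ) : ℝ) = (m i : ℝ) := by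
        have := Int.toNat_of_nonneg (h0 i)
        exact_mod_cast this
      rw [h4, hm i]
      field_simp
    have h5 : (fun i => (((m i).toNat : ℕ) : ℝ) / k) = x := funext h3
    refine ⟨⟨fun i => (m i).toNat, ?_⟩, ?_⟩
    · simp only [h5]
      exact hx1
    · apply Subtype.ext
      exact h5

/-- B03b: lattice points of the dilates of a compact convex set of `[0, ∞)^n`. -/
theorem tendsto_lattice {n : ℕ} (A : Set (Fin n → ℝ)) (hA : IsCompact A) (hA' : Convex ℝ A)
    (hA0 : ∀ x ∈ A, ∀ i, 0 ≤ x i) :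
    Filter.Tendsto (fun k : ℕ => (Nat.card {z : Fin n → ℕ // (fun i => (z i : ℝ) / k) ∈ A} : ℝ) /
      (k : ℝ) ^ n) Filter.atTop (nhds (volume A).toReal) := by
  have h1 := tendsto_card_div_pow_atTop_volume A hA.isBounded hA.isClosed.measurableSet
    (hA'.addHaar_frontier volume)
  rw [measureReal_def] at h1
  refine h1.congr' ?_
  filter_upwards [Filter.eventually_ge_atTop 1] with k hk
  rw [OkTend_card A hA0 k hk, Fintype.card_fin]

end Pool.Agent.Lib_GD.OkData

end

/-! ### from `Lib_GD.CombDefs` -/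

section

/-!
# Combinatorial core: definitions
-/

namespace Pool.Agent.Lib_GD

/-- Exposure data on `N` points: `cost j S` and `phi j S` are the cost and the energy of exposing
`j` after `S`; the totals `A` and `v` do not depend on the order. -/
structure Profile (N : ℕ) where
  cost : Fin N → Finset (Fin N) → ℕ
  phi : Fin N → Finset (Fin N) → ℕ
  A : ℕ
  v : ℕ
  cost_sum : ∀ σ : Equiv.Perm (Fin N),
    ∑ k, cost (σ k) ((Finset.Iio k).map σ.toEmbedding) = A
  phi_sum : ∀ σ : Equiv.Perm (Fin N),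
    ∑ k, phi (σ k) ((Finset.Iio k).map σ.toEmbedding) = v
  cost_mono : ∀ S T j, S ⊆ T → j ∉ T → cost j S ≤ cost j T

/-- The class of `τ` for a colouring `c`. -/
def cls {N r : ℕ} (c : Fin N → Fin (r + 1)) (τ : Fin (r + 1)) : Finset (Fin N) :=
  Finset.univ.filter fun i => c i = τ

/-- The ranks `r S b` attached to sets of points, and the total energies
`G S = ∑_{b=1}^B r S b`. -/
structure Ranks (N : ℕ) where
  r : Finset (Fin N) → ℕ → ℕ
  r_le : ∀ S b, r S b ≤ N
  anti : ∀ S T b, S ⊆ T → r T b ≤ r S b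

/-- `G S = ∑_{b=1}^B r S b`. -/
def Ranks.G {N : ℕ} (R : Ranks N) (B : ℕ) (S : Finset (Fin N)) : ℕ :=
  ∑ b ∈ Finset.Icc 1 B, R.r S b

/-- Hypothesis (T): `φ(j|S) ≤ D a(j|S)`. -/
def Profile.HT {N : ℕ} (P : Profile N) (D : ℕ) : Prop :=
  ∀ j S, j ∉ S → P.phi j S ≤ D * P.cost j S

/-- Hypothesis (Exp): expensive exposures have energy at most `θ` times their cost. -/
def Profile.HExp {N : ℕ} (P : Profile N) (a : ℕ) (θ : ℝ) : Prop :=
  ∀ j S, j ∉ S → a < P.cost j S → (P.phi j S : ℝ) ≤ θ * P.cost j S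

/-- Hypothesis (EL). -/
def Profile.HEL {N : ℕ} (P : Profile N) (R : Ranks N) (D a : ℕ) : Prop :=
  ∀ (S E : Finset (Fin N)) (b : ℕ), E.Nonempty → Disjoint E S → 1 ≤ b → b ≤ D * a →
    (∀ i ∈ E, P.cost i S ≤ a ∧ b ≤ P.phi i S) → N ≤ R.r E b + S.card

/-- Hypothesis (CL). -/
def Profile.HCL {N : ℕ} (P : Profile N) (R : Ranks N) (D a C₂ : ℕ) (σ ξ : ℝ) : Prop :=
  ∀ (S : Finset (Fin N)) (j : Fin N), S.Nonempty → j ∉ S →
    R.G (D * a) S ≤ R.G (D * a) (insert j S) + C₂ * (D * a) →
    (R.G (D * a) S : ℝ) ≤ σ * P.cost j S + ξ * D * a * N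

end Pool.Agent.Lib_GD

end

/-! ### from `Lib_GD.CombWord` -/

section

namespace Pool.Agent.Lib_GD

/-- Building an order point by point, keeping an invariant. -/
private lemma combWord_build {N : ℕ} (I : Finset (Fin N) → Prop)
    (Q : Finset (Fin N) → Fin N → Prop) (h0 : I ∅)
    (hstep : ∀ S, I S → S ≠ Finset.univ → ∃ j, j ∉ S ∧ Q S j ∧ I (insert j S)) :
    ∃ σ : Equiv.Perm (Fin N), ∀ k : Fin N,
      Q ((Finset.Iio k).map σ.toEmbedding) (σ k) ∧ I ((Finset.Iio k).map σ.toEmbedding) := by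
  classical
  rcases Nat.eq_zero_or_pos N with hN | hN
  · subst hN
    exact ⟨Equiv.refl _, fun k => k.elim0⟩
  let d : Fin N := ⟨0, hN⟩
  have hex : ∀ S : Finset (Fin N), ∃ j, I S → S ≠ Finset.univ → j ∉ S ∧ Q S j ∧ I (insert j S) := by
    intro S
    by_cases h : I S ∧ S ≠ Finset.univ
    · obtain ⟨j, hj⟩ := hstep S h.1 h.2
      exact ⟨j, fun _ _ => hj⟩
    · exact ⟨d, fun h1 h2 => absurd ⟨h1, h2⟩ h⟩
  choose f hf using hex
  obtain ⟨T, hT0, hTs⟩ : ∃ T : ℕ → Finset (Fin N), T 0 = ∅ ∧ ∀ m, T (m + 1) = insert (f (T m)) (T m) :=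
    ⟨fun m => Nat.rec ∅ (fun _ S => insert (f S) S) m, rfl, fun m => rfl⟩
  have hT : ∀ m, m ≤ N → (T m).card = m ∧ I (T m) := by
    intro m
    induction m with
    | zero => intro _; rw [hT0]; exact ⟨rfl, h0⟩
    | succ m ih =>
      intro hm
      obtain ⟨h1, h2⟩ := ih (by omega)
      have hne : T m ≠ Finset.univ := by
        intro h
        rw [h, Finset.card_univ, Fintype.card_fin] at h1
        omega
      obtain ⟨h3, h4, h5⟩ := hf (T m) h2 hne
      rw [hTs]
      refine ⟨?_, h5⟩
      rw [Finset.card_insert_of_notMem h3, h1]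
  have hne : ∀ m, m < N → T m ≠ Finset.univ := by
    intro m hm h
    have h1 := (hT m hm.le).1
    rw [h, Finset.card_univ, Fintype.card_fin] at h1
    omega
  have hmono : Monotone T := by
    apply monotone_nat_of_le_succ
    intro m
    rw [hTs]
    exact Finset.subset_insert _ _
  have hmem : ∀ k l : Fin N, k < l → f (T k) ∈ T l := by
    intro k l h
    apply hmono (show (k : ℕ) + 1 ≤ l from h)
    rw [hTs]
    exact Finset.mem_insert_self _ _
  have hnot : ∀ k : Fin N, f (T k) ∉ T k := fun k =>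
    (hf (T k) (hT k k.2.le).2 (hne k k.2)).1
  have hinj : Function.Injective (fun k : Fin N => f (T k)) := by
    intro k l h
    dsimp only at h
    rcases lt_trichotomy k l with h1 | h1 | h1
    · exact absurd (h ▸ hmem k l h1) (hnot l)
    · exact h1
    · exact absurd (h.symm ▸ hmem l k h1) (hnot k)
  have hbij : Function.Bijective (fun k : Fin N => f (T k)) :=
    Finite.injective_iff_bijective.1 hinj
  obtain ⟨σ, hσ⟩ : ∃ σ : Equiv.Perm (Fin N), ∀ k, σ k = f (T k) :=
    ⟨Equiv.ofBijective _ hbij, fun k => rfl⟩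
  have himg : ∀ k : Fin N, (Finset.Iio k).map σ.toEmbedding = T k := by
    intro k
    apply Finset.eq_of_subset_of_card_le
    · intro x hx
      rw [Finset.mem_map] at hx
      obtain ⟨l, hl, rfl⟩ := hx
      rw [Finset.mem_Iio] at hl
      show σ l ∈ T k
      rw [hσ]
      exact hmem l k hl
    · rw [Finset.card_map, Fin.card_Iio, (hT k k.2.le).1]
  refine ⟨σ, fun k => ?_⟩
  rw [himg, hσ]
  exact ⟨(hf (T k) (hT k k.2.le).2 (hne k k.2)).2.1, (hT k k.2.le).2⟩

private lemma combWord_sum {N r : ℕ} (c : Fin N → Fin (r + 1)) (S : Finset (Fin N)) :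
    ∑ τ, (S ∩ cls c τ).card = S.card := by
  classical
  have h := Finset.card_eq_sum_card_fiberwise (f := c) (s := S) (t := Finset.univ)
    (fun x _ => Finset.mem_coe.2 (Finset.mem_univ _))
  rw [h]
  apply Finset.sum_congr rfl
  intro τ _
  congr 1
  ext x
  simp [cls]

/-- M02 (balanced greedy order): for a colouring `c` and any rule `P S j` such that inside every
non-empty remaining part of a class there is a `j` satisfying the rule, there is an order `σ`
following the rule such that, when the `i`-th point of the class `τ` is exposed, at most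
`N i / #class + r + 1` points are already exposed. -/
theorem exists_balanced_order {N r : ℕ} (c : Fin N → Fin (r + 1))
    (P : Finset (Fin N) → Fin N → Prop)
    (hP : ∀ (S : Finset (Fin N)) (τ : Fin (r + 1)), (cls c τ \ S).Nonempty →
      ∃ j ∈ cls c τ \ S, P S j) :
    ∃ σ : Equiv.Perm (Fin N), ∀ k : Fin N,
      P ((Finset.Iio k).map σ.toEmbedding) (σ k) ∧
      ((cls c (c (σ k))).card : ℝ) * (((Finset.Iio k).map σ.toEmbedding).card : ℝ) ≤
        N * (((Finset.Iio k).map σ.toEmbedding ∩ cls c (c (σ k))).card : ℝ) +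
          (r + 1) * (cls c (c (σ k))).card := by
  classical
  -- the invariant
  have hstep : ∀ S : Finset (Fin N), (∀ τ τ', (S ∩ cls c τ').card * (cls c τ).card ≤
      (S ∩ cls c τ).card * (cls c τ').card + (cls c τ).card) → S ≠ Finset.univ →
      ∃ j, j ∉ S ∧ P S j ∧ (∀ τ τ', (insert j S ∩ cls c τ').card * (cls c τ).card ≤
      (insert j S ∩ cls c τ).card * (cls c τ').card + (cls c τ).card) := by
    intro S hI hS
    -- unfinished classes
    have hne : (Finset.univ.filter fun τ : Fin (r + 1) => (cls c τ \ S).Nonempty).Nonempty := by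
      obtain ⟨x, hx⟩ : ∃ x, x ∉ S := by
        by_contra h
        push Not at h
        exact hS (Finset.eq_univ_iff_forall.2 h)
      refine ⟨c x, ?_⟩
      rw [Finset.mem_filter]
      refine ⟨Finset.mem_univ _, x, ?_⟩
      rw [Finset.mem_sdiff]
      exact ⟨by simp [cls], hx⟩
    obtain ⟨τ₀, hτ₀, hmin⟩ := Finset.exists_min_image _
      (fun τ => ((S ∩ cls c τ).card : ℝ) / (cls c τ).card) hne
    rw [Finset.mem_filter] at hτ₀
    obtain ⟨j, hj, hPj⟩ := hP S τ₀ hτ₀.2
    rw [Finset.mem_sdiff] at hj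
    refine ⟨j, hj.2, hPj, ?_⟩
    -- minimality, extended to the finished classes
    have hmin' : ∀ τ, (S ∩ cls c τ₀).card * (cls c τ).card ≤
        (S ∩ cls c τ).card * (cls c τ₀).card := by
      intro τ
      by_cases hτ : (cls c τ \ S).Nonempty
      · have h1 := hmin τ (Finset.mem_filter.2 ⟨Finset.mem_univ _, hτ⟩)
        have hp : (0 : ℝ) < (cls c τ).card := by
          have : (cls c τ).Nonempty := hτ.mono Finset.sdiff_subset
          exact_mod_cast this.card_pos
        have hp0 : (0 : ℝ) < (cls c τ₀).card := by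
          have : (cls c τ₀).Nonempty := ⟨j, hj.1⟩
          exact_mod_cast this.card_pos
        rw [div_le_div_iff₀ hp0 hp] at h1
        exact_mod_cast h1
      · have h2 : cls c τ ⊆ S := by
          rw [Finset.not_nonempty_iff_eq_empty, Finset.sdiff_eq_empty_iff_subset] at hτ
          exact hτ
        rw [Finset.inter_eq_right.2 h2, mul_comm]
        exact Nat.mul_le_mul_left _ (Finset.card_le_card Finset.inter_subset_right)
    have hcard : ∀ τ, (insert j S ∩ cls c τ).card =
        (S ∩ cls c τ).card + (if τ = τ₀ then 1 else 0) := by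
      intro τ
      by_cases hτ : τ = τ₀
      · subst hτ
        rw [Finset.insert_inter_of_mem hj.1, Finset.card_insert_of_notMem, if_pos rfl]
        intro h
        exact hj.2 (Finset.mem_inter.1 h).1
      · have : j ∉ cls c τ := by
          intro h
          apply hτ
          have h1 : c j = τ := by simpa [cls] using h
          have h2 : c j = τ₀ := by simpa [cls] using hj.1
          rw [← h1, h2]
        rw [Finset.insert_inter_of_notMem this, if_neg hτ, add_zero]
    intro τ τ'
    rw [hcard, hcard]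
    by_cases h' : τ' = τ₀
    · subst h'
      rw [if_pos rfl]
      have h3 := hmin' τ
      calc ((S ∩ cls c τ').card + 1) * (cls c τ).card
          = (S ∩ cls c τ').card * (cls c τ).card + (cls c τ).card := by ring
        _ ≤ (S ∩ cls c τ).card * (cls c τ').card + (cls c τ).card := by omega
        _ ≤ _ := by
            apply Nat.add_le_add_right
            apply Nat.mul_le_mul_right
            omega
    · rw [if_neg h', add_zero]
      calc (S ∩ cls c τ').card * (cls c τ).card
          ≤ (S ∩ cls c τ).card * (cls c τ').card + (cls c τ).card := hI τ τ'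
        _ ≤ _ := by
            apply Nat.add_le_add_right
            apply Nat.mul_le_mul_right
            omega
  obtain ⟨σ, hσ⟩ := combWord_build
    (fun S => ∀ τ τ', (S ∩ cls c τ').card * (cls c τ).card ≤
      (S ∩ cls c τ).card * (cls c τ').card + (cls c τ).card) P
    (by intro τ τ'; simp) hstep
  refine ⟨σ, fun k => ⟨(hσ k).1, ?_⟩⟩
  have hI := (hσ k).2
  generalize (Finset.Iio k).map σ.toEmbedding = S at hI ⊢
  generalize c (σ k) = τ
  have h1 : ∑ τ', (S ∩ cls c τ').card * (cls c τ).card ≤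
      ∑ τ', ((S ∩ cls c τ).card * (cls c τ').card + (cls c τ).card) :=
    Finset.sum_le_sum fun τ' _ => hI τ τ'
  rw [← Finset.sum_mul, combWord_sum, Finset.sum_add_distrib, ← Finset.mul_sum,
    Finset.sum_const, Finset.card_univ, Fintype.card_fin] at h1
  have h2 : ∑ τ', (cls c τ').card = N := by
    have h := combWord_sum c Finset.univ
    simp only [Finset.univ_inter, Finset.card_univ, Fintype.card_fin] at h
    exact h
  rw [h2, smul_eq_mul] at h1
  have h3 : ((S.card * (cls c τ).card : ℕ) : ℝ) ≤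
      (((S ∩ cls c τ).card * N + (r + 1) * (cls c τ).card : ℕ) : ℝ) := by
    exact_mod_cast h1
  push_cast at h3
  linarith

/-- M03 (blocked order): there is an order exposing the classes one after the other. -/
theorem exists_blocked_order {N r : ℕ} (c : Fin N → Fin (r + 1)) :
    ∃ σ : Equiv.Perm (Fin N), ∀ k l : Fin N, k < l → c (σ k) ≤ c (σ l) :=
  ⟨Tuple.sort c, fun _ _ h => Tuple.monotone_sort c h.le⟩

end Pool.Agent.Lib_GD

end

/-! ### from `Lib_GD.Elim` -/

section

/-! K06: elimination over a discrete valuation ring. -/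

open PowerSeries

namespace Pool.Agent.Lib_GD

private theorem Elim_dvd_min {O : Type} [CommRing O] [IsDomain O] [ValuationRing O] {ι : Type}
    (f : ι → O) (S : Finset ι) (hS : S.Nonempty) : ∃ i₀ ∈ S, ∀ i ∈ S, f i₀ ∣ f i := by
  classical
  induction hS using Finset.Nonempty.cons_induction with
  | singleton a => exact ⟨a, by simp, by simp⟩
  | cons a s ha hs ih =>
    obtain ⟨i₀, h0, h⟩ := ih
    rcases ValuationRing.dvd_total (f i₀) (f a) with h1 | h1
    · refine ⟨i₀, by simp [h0], ?_⟩
      intro i hi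
      rw [Finset.mem_cons] at hi
      rcases hi with rfl | hi
      · exact h1
      · exact h i hi
    · refine ⟨a, by simp, ?_⟩
      intro i hi
      rw [Finset.mem_cons] at hi
      rcases hi with rfl | hi
      · exact dvd_refl _
      · exact h1.trans (h i hi)

/-- Vectors over a valuation ring: a generating subfamily with at most `r` elements. -/
private theorem Elim_span {O : Type} [CommRing O] [IsDomain O] [ValuationRing O] {ι : Type}
    [DecidableEq ι] (S : Finset ι) : ∀ (r : ℕ) (c : ι → Fin r → O),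
    ∃ J : Finset ι, J ⊆ S ∧ J.card ≤ r ∧
      ∀ i ∈ S, c i ∈ Submodule.span O (c '' (J : Set ι)) := by
  intro r
  induction r with
  | zero =>
    intro c
    refine ⟨∅, by simp, by simp, ?_⟩
    intro i _
    rw [Subsingleton.elim (c i) 0]
    exact Submodule.zero_mem _
  | succ r ih =>
    intro c
    rcases S.eq_empty_or_nonempty with hS | hS
    · exact ⟨∅, by simp, by simp, by simp [hS]⟩
    obtain ⟨i₀, hi₀, hdiv⟩ := Elim_dvd_min (fun i => c i 0) S hS
    have hdiv' : ∀ i, ∃ q : O, i ∈ S → c i 0 = c i₀ 0 * q := by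
      intro i
      by_cases hi : i ∈ S
      · obtain ⟨q, hq⟩ := hdiv i hi
        exact ⟨q, fun _ => hq⟩
      · exact ⟨0, fun h => absurd h hi⟩
    choose q hq using hdiv'
    obtain ⟨J, hJS, hJc, hJ⟩ := ih (fun i k => c i k.succ - q i * c i₀ k.succ)
    refine ⟨insert i₀ J, ?_, ?_, ?_⟩
    · intro x hx
      rw [Finset.mem_insert] at hx
      rcases hx with rfl | hx
      · exact hi₀
      · exact hJS hx
    · exact (Finset.card_insert_le _ _).trans (Nat.succ_le_succ hJc)
    · intro i hi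
      let ext : (Fin r → O) →ₗ[O] (Fin (r + 1) → O) :=
        { toFun := fun w => Fin.cons 0 w
          map_add' := by
            intro x y
            funext k
            refine Fin.cases ?_ (fun k => ?_) k <;> simp
          map_smul' := by
            intro a x
            funext k
            refine Fin.cases ?_ (fun k => ?_) k <;> simp }
      have hext : ∀ l ∈ S, ext (fun k => c l k.succ - q l * c i₀ k.succ)
          = c l - q l • c i₀ := by
        intro l hl
        funext k
        refine Fin.cases ?_ (fun k => ?_) k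
        · simp [ext, hq l hl, mul_comm]
        · simp [ext]
      have hbase : c i₀ ∈ Submodule.span O (c '' ((insert i₀ J : Finset ι) : Set ι)) :=
        Submodule.subset_span ⟨i₀, by simp, rfl⟩
      have hmem : ext (fun k => c i k.succ - q i * c i₀ k.succ) ∈
          Submodule.span O (c '' ((insert i₀ J : Finset ι) : Set ι)) := by
        have h1 : ∀ w ∈ Submodule.span O
            ((fun i k => c i k.succ - q i * c i₀ k.succ : ι → Fin r → O) '' (J : Set ι)),
            ext w ∈ Submodule.span O (c '' ((insert i₀ J : Finset ι) : Set ι)) := by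
          intro w hw
          have h2 : Submodule.span O
              ((fun i k => c i k.succ - q i * c i₀ k.succ : ι → Fin r → O) '' (J : Set ι)) ≤
              (Submodule.span O (c '' ((insert i₀ J : Finset ι) : Set ι))).comap ext := by
            rw [Submodule.span_le]
            rintro _ ⟨l, hl, rfl⟩
            change ext (fun k => c l k.succ - q l * c i₀ k.succ) ∈
              Submodule.span O (c '' ((insert i₀ J : Finset ι) : Set ι))
            rw [hext l (hJS hl)]
            refine Submodule.sub_mem _ (Submodule.subset_span ⟨l, ?_, rfl⟩)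
              (Submodule.smul_mem _ _ hbase)
            simp only [Finset.coe_insert, Set.mem_insert_iff]
            exact Or.inr hl
          exact h2 hw
        exact h1 _ (hJ i hi)
      rw [hext i hi] at hmem
      have := Submodule.add_mem _ hmem (Submodule.smul_mem _ (q i) hbase)
      rwa [sub_add_cancel] at this

/-- Let `G i` (`i ∈ S`) be linear functionals on a finite free `O`-module `V` which are, modulo
`X ^ β`, combinations of `r` functionals `F k`. Then `r` of the `G i` are enough: if they vanish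
on `f`, all `G i f` are divisible by `X ^ β`. -/
theorem elimination {L : Type} [Field L] {V : Type} [AddCommGroup V] [Module L⟦X⟧ V]
    [Module.Free L⟦X⟧ V] [Module.Finite L⟦X⟧ V] {ι : Type} [DecidableEq ι]
    (S : Finset ι) (G : ι → V →ₗ[L⟦X⟧] L⟦X⟧) (r : ℕ) (F : Fin r → V →ₗ[L⟦X⟧] L⟦X⟧) (β : ℕ)
    (h : ∀ i ∈ S, ∃ c : Fin r → L⟦X⟧, ∀ v, (X : L⟦X⟧) ^ β ∣ G i v - ∑ k, c k * F k v) :
    ∃ J, J ⊆ S ∧ J.card ≤ r ∧ ∀ v, (∀ l ∈ J, G l v = 0) → ∀ i ∈ S, (X : L⟦X⟧) ^ β ∣ G i v := by
  have h' : ∀ i, ∃ c : Fin r → L⟦X⟧, i ∈ S → ∀ v, (X : L⟦X⟧) ^ β ∣ G i v - ∑ k, c k * F k v := by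
    intro i
    by_cases hi : i ∈ S
    · obtain ⟨c, hc⟩ := h i hi
      exact ⟨c, fun _ => hc⟩
    · exact ⟨0, fun h => absurd h hi⟩
  choose c hc using h'
  obtain ⟨J, hJS, hJc, hJ⟩ := Elim_span S r c
  refine ⟨J, hJS, hJc, ?_⟩
  intro v hv i hi
  let W : Submodule L⟦X⟧ (Fin r → L⟦X⟧) :=
    { carrier := {w | (X : L⟦X⟧) ^ β ∣ ∑ k, w k * F k v}
      add_mem' := by
        intro a b ha hb
        have : ∑ k, (a + b) k * F k v = ∑ k, a k * F k v + ∑ k, b k * F k v := by
          rw [← Finset.sum_add_distrib]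
          exact Finset.sum_congr rfl fun k _ => by simp [add_mul]
        change (X : L⟦X⟧) ^ β ∣ ∑ k, (a + b) k * F k v
        rw [this]
        exact dvd_add ha hb
      zero_mem' := by
        change (X : L⟦X⟧) ^ β ∣ ∑ k, (0 : Fin r → L⟦X⟧) k * F k v
        simp
      smul_mem' := by
        intro a b hb
        have : ∑ k, (a • b) k * F k v = a * ∑ k, b k * F k v := by
          rw [Finset.mul_sum]
          exact Finset.sum_congr rfl fun k _ => by simp [mul_assoc]
        change (X : L⟦X⟧) ^ β ∣ ∑ k, (a • b) k * F k v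
        rw [this]
        exact Dvd.dvd.mul_left hb a }
  have hW : Submodule.span L⟦X⟧ (c '' (J : Set ι)) ≤ W := by
    rw [Submodule.span_le]
    rintro _ ⟨l, hl, rfl⟩
    change (X : L⟦X⟧) ^ β ∣ ∑ k, c l k * F k v
    have h1 := hc l (hJS hl) v
    rw [hv l hl, zero_sub] at h1
    exact (dvd_neg.mp h1)
  have h2 : (X : L⟦X⟧) ^ β ∣ ∑ k, c i k * F k v := hW (hJ i hi)
  have h3 := dvd_add (hc i hi v) h2
  rwa [sub_add_cancel] at h3

end Pool.Agent.Lib_GD

end

/-! ### from `Lib_MP_e0d435_ag.Defs` -/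

section

/-
Definitions for the proof of gamma(P^n) = 1 (MP_e0d435_ag).
m = n + 1 homogeneous coordinates, polynomials of degree k in Bombieri normalisation.
-/

open Finset MeasureTheory Complex
open scoped ENNReal ContDiff

namespace GPn

/-- points of complex m-space -/
abbrev Pt (m : ℕ) := Fin m → ℂ

/-- squared Euclidean norm -/
noncomputable def nsq {m : ℕ} (x : Pt m) : ℝ := ∑ i, ‖x i‖ ^ 2

/-- Euclidean norm -/
noncomputable def enm {m : ℕ} (x : Pt m) : ℝ := Real.sqrt (nsq x)

/-- exponents of degree k in m variables -/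
def Ex (m k : ℕ) : Type := {a : Fin m → ℕ // ∑ i, a i = k}

noncomputable instance (m k : ℕ) : DecidableEq (Ex m k) := Classical.decEq _

noncomputable instance (m k : ℕ) : Fintype (Ex m k) :=
  Fintype.subtype (Finset.piAntidiag Finset.univ k) (by intro a; simp)

/-- Bombieri weight: square root of the multinomial coefficient -/
noncomputable def bw {m : ℕ} (a : Fin m → ℕ) : ℝ := Real.sqrt (Nat.multinomial Finset.univ a)

/-- the derivative of order al of the monomial with exponent a -/
noncomputable def dm {m : ℕ} (al a : Fin m → ℕ) (x : Pt m) : ℂ :=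
  ∏ i, (((a i).descFactorial (al i) : ℕ) : ℂ) * x i ^ (a i - al i)

/-- coefficient space of homogeneous polynomials of degree k, Bombieri norm -/
abbrev V (m k : ℕ) := EuclideanSpace ℂ (Ex m k)

/-- representing vector of the functional (derivative of order al at x) -/
noncomputable def evd {m : ℕ} (k : ℕ) (al : Fin m → ℕ) (x : Pt m) : V m k :=
  WithLp.toLp 2 (fun a => (starRingEnd ℂ) ((bw a.1 : ℂ) * dm al a.1 x))

/-- the value at x of the derivative of order al of the polynomial F -/
noncomputable def pd {m k : ℕ} (F : V m k) (al : Fin m → ℕ) (x : Pt m) : ℂ :=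
  ∑ a, F a * ((bw a.1 : ℂ) * dm al a.1 x)

/-- evaluation matrix -/
noncomputable def Mx {m k : ℕ} (X : Ex m k → Pt m) : Matrix (Ex m k) (Ex m k) ℂ :=
  Matrix.of fun j a => (bw a.1 : ℂ) * dm 0 a.1 (X j)

/-- the absolute value of the determinant of the evaluation matrix -/
noncomputable def Dl {m k : ℕ} (X : Ex m k → Pt m) : ℝ := ‖(Mx X).det‖

/-- annulus -/
def Ann (m : ℕ) : Set (Pt m) := {x | 1 ≤ nsq x ∧ nsq x ≤ 4}

/-- configurations in the annulus -/
def AnnC (m k : ℕ) : Set (Ex m k → Pt m) := {X | ∀ j, X j ∈ Ann m}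

/-- the auxiliary degree D -/
def dD (n : ℕ) : ℕ := 8 * n * (n + 1) * n.factorial - 1

/-- the order of vanishing l -/
def lL (n k : ℕ) : ℕ := k / (8 * (n + 1))

/-- number of exceptional points allowed -/
noncomputable def eN (n k : ℕ) : ℕ := Fintype.card (Ex (n + 1) k) / (4 * (16 * (n + 1)) ^ n)

open Classical in
/-- number of points near the hypersurface g = 0 -/
noncomputable def cnt {m k D : ℕ} (g : V m D) (del : ℝ) (X : Ex m k → Pt m) : ℕ :=
  (Finset.univ.filter fun j => ‖pd g 0 (X j)‖ < del * (enm (X j)) ^ D).card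

/-- bad configurations: too many points near a hypersurface of degree dD n -/
def BadS (n k : ℕ) (del : ℝ) : Set (Ex (n + 1) k → Pt (n + 1)) :=
  {X | ∃ g : V (n + 1) (dD n), ‖g‖ = 1 ∧ eN n k < cnt g del X}

/-- size of the evaluation at y on the subspace W -/
noncomputable def bW {m k : ℕ} (W : Submodule ℂ (V m k)) (y : Pt m) : ℝ :=
  ‖W.starProjection (evd k 0 y)‖

/-- size of the derivatives of order l at y on the subspace W -/
noncomputable def JW {m k : ℕ} (l : ℕ) (W : Submodule ℂ (V m k)) (y : Pt m) : ℝ :=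
  ∑ al : Ex m l, ‖W.starProjection (evd k al.1 y)‖

/-- polynomials vanishing at the points number 0, ..., i-1 (in the order s) of the configuration -/
noncomputable def Wo {m k N : ℕ} (X : Ex m k → Pt m) (s : Fin N → Ex m k) (i : Fin N) :
    Submodule ℂ (V m k) :=
  (Submodule.span ℂ {v | ∃ j : Fin N, j < i ∧ v = evd k 0 (X (s j))})ᗮ

end GPn

end

/-! ### from `Lib_MP_e0d435_ag.Basic` -/

section

/-
Basic facts on evaluation vectors (MP_e0d435_ag).
-/

open Finset MeasureTheory Complex
open scoped ENNReal ContDiff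

namespace GPn

theorem pd_eq {m k : ℕ} (F : V m k) (al : Fin m → ℕ) (x : Pt m) :
    pd F al x = ∑ a, F a * ((bw a.1 : ℂ) * dm al a.1 x) := rfl

theorem inner_evd {m k : ℕ} (al : Fin m → ℕ) (x : Pt m) (F : V m k) :
    inner ℂ (evd k al x) F = pd F al x := by
  simp only [PiLp.inner_apply, evd, pd, RCLike.inner_apply]
  refine Finset.sum_congr rfl fun a _ => ?_
  simp

theorem nsq_nonneg {m : ℕ} (x : Pt m) : 0 ≤ nsq x := Finset.sum_nonneg fun i _ => by positivity

theorem enm_nonneg {m : ℕ} (x : Pt m) : 0 ≤ enm x := Real.sqrt_nonneg _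

theorem enm_sq {m : ℕ} (x : Pt m) : enm x ^ 2 = nsq x := Real.sq_sqrt (nsq_nonneg x)

theorem dm_zero {m : ℕ} (a : Fin m → ℕ) (x : Pt m) : dm 0 a x = ∏ i, x i ^ a i := by
  simp [dm]

theorem bw_sq {m : ℕ} (a : Fin m → ℕ) : bw a * bw a = Nat.multinomial Finset.univ a :=
  Real.mul_self_sqrt (by positivity)

theorem bw_pos {m : ℕ} (a : Fin m → ℕ) : 0 < bw a :=
  Real.sqrt_pos.2 (by exact_mod_cast Nat.multinomial_pos _ _)

theorem sum_Ex {m k : ℕ} {M : Type*} [AddCommMonoid M] (f : (Fin m → ℕ) → M) :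
    ∑ a : Ex m k, f a.1 = ∑ a ∈ Finset.piAntidiag Finset.univ k, f a := by
  symm
  refine Finset.sum_subtype _ (fun a => ?_) f
  simp

theorem inner_ev_ev {m : ℕ} (k : ℕ) (x y : Pt m) :
    inner ℂ (evd k 0 x) (evd k 0 y) = (∑ i, x i * (starRingEnd ℂ) (y i)) ^ k := by
  rw [inner_evd, pd, Finset.sum_pow_eq_sum_piAntidiag,
    ← sum_Ex (m := m) (k := k) (fun a => ((Nat.multinomial Finset.univ a : ℕ) : ℂ) *
      ∏ i, (x i * (starRingEnd ℂ) (y i)) ^ a i)]
  refine Finset.sum_congr rfl fun a _ => ?_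
  simp only [evd, dm_zero, map_mul, Complex.conj_ofReal, map_prod, map_pow]
  have h : ((bw a.1 : ℂ)) * (bw a.1 : ℂ) = ((Nat.multinomial Finset.univ a.1 : ℕ) : ℂ) := by
    rw [← Complex.ofReal_mul, bw_sq]; simp
  simp only [mul_pow, Finset.prod_mul_distrib]
  rw [← h]
  ring

theorem norm_ev {m : ℕ} (k : ℕ) (x : Pt m) : ‖evd k 0 x‖ = enm x ^ k := by
  have h1 : ‖evd k 0 x‖ ^ 2 = (enm x ^ k) ^ 2 := by
    have h2 := inner_ev_ev k x x
    rw [inner_self_eq_norm_sq_to_K] at h2
    have h3 : (∑ i, x i * (starRingEnd ℂ) (x i)) = ((nsq x : ℝ) : ℂ) := by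
      simp only [nsq, Complex.ofReal_sum]
      refine Finset.sum_congr rfl fun i _ => ?_
      rw [Complex.mul_conj, Complex.normSq_eq_norm_sq]
    rw [h3] at h2
    have h4 : ((‖evd k 0 x‖ ^ 2 : ℝ) : ℂ) = ((nsq x ^ k : ℝ) : ℂ) := by
      rw [Complex.ofReal_pow, Complex.ofReal_pow]
      exact h2
    have h5 := Complex.ofReal_injective h4
    rw [h5, ← enm_sq, ← pow_mul, ← pow_mul, mul_comm]
  exact (pow_left_inj₀ (norm_nonneg _) (pow_nonneg (enm_nonneg x) k) (by norm_num)).1 h1

theorem norm_pd_le {m k : ℕ} (F : V m k) (x : Pt m) : ‖pd F 0 x‖ ≤ ‖F‖ * enm x ^ k := by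
  rw [← inner_evd, ← norm_ev, mul_comm]
  exact norm_inner_le_norm _ _

theorem continuous_dm {m : ℕ} (al a : Fin m → ℕ) : Continuous (fun x : Pt m => dm al a x) := by
  unfold dm
  fun_prop

theorem continuous_evd {m : ℕ} (k : ℕ) (al : Fin m → ℕ) :
    Continuous (fun x : Pt m => evd k al x) := by
  unfold evd
  refine (PiLp.continuous_toLp 2 _).comp ?_
  refine continuous_pi fun a => ?_
  have := continuous_dm al a.1 (m := m)
  exact Complex.continuous_conj.comp (continuous_const.mul this)

theorem continuous_pd {m k : ℕ} (F : V m k) (al : Fin m → ℕ) :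
    Continuous (fun x : Pt m => pd F al x) := by
  unfold pd
  refine continuous_finsetSum _ fun a _ => ?_
  exact continuous_const.mul (continuous_const.mul (continuous_dm al a.1))

theorem continuous_enm {m : ℕ} : Continuous (fun x : Pt m => enm x) := by
  unfold enm nsq
  fun_prop

theorem continuous_nsq {m : ℕ} : Continuous (fun x : Pt m => nsq x) := by
  unfold nsq
  fun_prop

/-- joint continuity -/
theorem continuous_pd₂ {m k : ℕ} (al : Fin m → ℕ) :
    Continuous (fun p : V m k × Pt m => pd p.1 al p.2) := by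
  unfold pd
  refine continuous_finsetSum _ fun a _ => ?_
  refine Continuous.mul ?_ (continuous_const.mul ((continuous_dm al a.1).comp continuous_snd))
  fun_prop

theorem pd_smul_left {m k : ℕ} (t : ℂ) (F : V m k) (al : Fin m → ℕ) (x : Pt m) :
    pd (t • F) al x = t * pd F al x := by
  simp [pd, Finset.mul_sum, mul_assoc]

theorem pd_add_left {m k : ℕ} (F G : V m k) (al : Fin m → ℕ) (x : Pt m) :
    pd (F + G) al x = pd F al x + pd G al x := by
  simp [pd, ← Finset.sum_add_distrib, add_mul]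

theorem pd_sub_left {m k : ℕ} (F G : V m k) (al : Fin m → ℕ) (x : Pt m) :
    pd (F - G) al x = pd F al x - pd G al x := by
  simp [pd, ← Finset.sum_sub_distrib, sub_mul]

theorem pd_zero_left {m k : ℕ} (al : Fin m → ℕ) (x : Pt m) : pd (0 : V m k) al x = 0 := by
  simp [pd]

theorem dm_smul {m : ℕ} (t : ℂ) (al a : Fin m → ℕ) (x : Pt m) :
    dm al a (t • x) = t ^ (∑ i, (a i - al i)) * dm al a x := by
  simp only [dm, Pi.smul_apply, smul_eq_mul, mul_pow]
  rw [← Finset.prod_pow_eq_pow_sum, ← Finset.prod_mul_distrib]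
  refine Finset.prod_congr rfl fun i _ => ?_
  ring

theorem evd_smul {m k : ℕ} (t : ℂ) (x : Pt m) :
    evd k 0 (t • x) = (starRingEnd ℂ) (t ^ k) • evd k 0 x := by
  ext a
  simp only [evd, PiLp.smul_apply, smul_eq_mul, dm_smul, map_mul, map_pow]
  have : ∑ i, (a.1 i - (0 : Fin m → ℕ) i) = k := by simpa using a.2
  rw [this]; ring

theorem pd_smul {m k : ℕ} (t : ℂ) (F : V m k) (x : Pt m) :
    pd F 0 (t • x) = t ^ k * pd F 0 x := by
  simp only [pd, dm_smul, Finset.mul_sum]
  refine Finset.sum_congr rfl fun a _ => ?_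
  have : ∑ i, (a.1 i - (0 : Fin m → ℕ) i) = k := by simpa using a.2
  rw [this]; ring

theorem hasDerivAt_dm {m : ℕ} (al a : Fin m → ℕ) (x : Pt m) (i : Fin m) (z : ℂ) :
    HasDerivAt (fun z : ℂ => dm al a (Function.update x i z))
      (dm (al + Pi.single i 1) a (Function.update x i z)) z := by
  classical
  have h1 : ∀ (al : Fin m → ℕ) (z : ℂ), dm al a (Function.update x i z) =
      ((((a i).descFactorial (al i) : ℕ) : ℂ) * z ^ (a i - al i)) *
      ∏ j ∈ Finset.univ.erase i, (((a j).descFactorial (al j) : ℕ) : ℂ) * x j ^ (a j - al j) := by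
    intro al z
    rw [dm, ← Finset.mul_prod_erase _ _ (Finset.mem_univ i)]
    congr 1
    · simp
    · refine Finset.prod_congr rfl fun j hj => ?_
      rw [Function.update_of_ne (Finset.ne_of_mem_erase hj)]
  have h2 : ∏ j ∈ Finset.univ.erase i,
      (((a j).descFactorial ((al + Pi.single i 1 : Fin m → ℕ) j) : ℕ) : ℂ) *
        x j ^ (a j - (al + Pi.single i 1 : Fin m → ℕ) j) =
      ∏ j ∈ Finset.univ.erase i, (((a j).descFactorial (al j) : ℕ) : ℂ) * x j ^ (a j - al j) := by
    refine Finset.prod_congr rfl fun j hj => ?_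
    have : (Pi.single i 1 : Fin m → ℕ) j = 0 := Pi.single_eq_of_ne (Finset.ne_of_mem_erase hj) _
    simp [this]
  rw [h1 (al + Pi.single i 1) z, h2]
  simp_rw [h1 al]
  refine HasDerivAt.mul_const ?_ _
  have h3 := ((hasDerivAt_pow (a i - al i) z).const_mul
    (((a i).descFactorial (al i) : ℕ) : ℂ))
  convert h3 using 1
  have h4 : (al + Pi.single i 1 : Fin m → ℕ) i = al i + 1 := by simp
  rw [h4, Nat.descFactorial_succ]
  push_cast
  have h5 : a i - (al i + 1) = a i - al i - 1 := by omega
  rw [h5]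
  ring

theorem hasDerivAt_pd {m k : ℕ} (F : V m k) (al : Fin m → ℕ) (x : Pt m) (i : Fin m) (z : ℂ) :
    HasDerivAt (fun z : ℂ => pd F al (Function.update x i z))
      (pd F (al + Pi.single i 1) (Function.update x i z)) z := by
  unfold pd
  refine HasDerivAt.fun_sum fun a _ => ?_
  exact ((hasDerivAt_dm al a.1 x i z).const_mul _).const_mul _

theorem Mx_apply {m k : ℕ} (X : Ex m k → Pt m) (j a : Ex m k) :
    Mx X j a = (bw a.1 : ℂ) * dm 0 a.1 (X j) := rfl

theorem Dl_sq {m k : ℕ} (X : Ex m k → Pt m) :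
    ((Dl X ^ 2 : ℝ) : ℂ) =
      (Matrix.of fun i j : Ex m k => (∑ r, (starRingEnd ℂ) (X i r) * X j r) ^ k).det := by
  have h1 : (Matrix.of fun i j : Ex m k => (∑ r, (starRingEnd ℂ) (X i r) * X j r) ^ k)
      = ((Mx X).map (starRingEnd ℂ)) * (Mx X).transpose := by
    ext i j
    rw [Matrix.of_apply, Matrix.mul_apply]
    have h2 := inner_ev_ev k (X j) (X i)
    have h3 : (∑ r, (starRingEnd ℂ) (X i r) * X j r) = ∑ r, X j r * (starRingEnd ℂ) (X i r) :=
      Finset.sum_congr rfl fun r _ => mul_comm _ _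
    rw [h3, ← h2, inner_evd, pd]
    refine Finset.sum_congr rfl fun a _ => ?_
    simp [evd, Mx]
  rw [h1, Matrix.det_mul, Matrix.det_transpose]
  have h2 : ((Mx X).map (starRingEnd ℂ)).det = (starRingEnd ℂ) (Mx X).det := by
    rw [RingHom.map_det]; rfl
  rw [h2, Dl, ← Complex.normSq_eq_norm_sq, Complex.normSq_eq_conj_mul_self]

theorem Dl_nonneg {m k : ℕ} (X : Ex m k → Pt m) : 0 ≤ Dl X := norm_nonneg _

theorem Dl_smul_at {m k : ℕ} (X : Ex m k → Pt m) (j : Ex m k) (t : ℂ) :
    Dl (Function.update X j (t • X j)) = ‖t‖ ^ k * Dl X := by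
  have h1 : Mx (Function.update X j (t • X j)) = (Mx X).updateRow j ((t ^ k) • (Mx X) j) := by
    ext i a
    by_cases hij : i = j
    · subst hij
      simp only [Mx_apply, Function.update_self, Matrix.updateRow_self, Pi.smul_apply, dm_smul,
        smul_eq_mul]
      have : ∑ r, (a.1 r - (0 : Fin m → ℕ) r) = k := by simpa using a.2
      rw [this]; ring
    · simp [Mx_apply, Function.update_of_ne hij, Matrix.updateRow_ne hij]
  rw [Dl, h1, Matrix.det_updateRow_smul]
  have h2 : (Mx X).updateRow j ((Mx X) j) = Mx X := Matrix.updateRow_eq_self _ _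
  rw [h2, norm_mul, norm_pow, Dl]

theorem continuous_Dl {m k : ℕ} : Continuous (fun X : Ex m k → Pt m => Dl X) := by
  unfold Dl
  refine Continuous.norm ?_
  refine Continuous.matrix_det ?_
  refine continuous_matrix fun j a => ?_
  simp only [Mx_apply]
  exact continuous_const.mul ((continuous_dm 0 a.1).comp (continuous_apply j))

theorem card_Ex' (m k : ℕ) : Fintype.card (Ex m k) = (Finset.piAntidiag (Finset.univ : Finset (Fin m)) k).card := by
  exact Fintype.subtype_card _ _

theorem card_Ex (n k : ℕ) : Fintype.card (Ex (n + 1) k) = (n + k).choose n := by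
  have e : Ex (n + 1) k ≃ Sym (Fin (n + 1)) k := by
    unfold Ex
    exact (Sym.equivNatSumOfFintype (Fin (n + 1)) k).symm
  have h1 : Fintype.card (Ex (n + 1) k) = Fintype.card (Sym (Fin (n + 1)) k) :=
    Fintype.card_congr e
  rw [h1, Sym.card_sym_eq_choose, Fintype.card_fin]
  have : n + 1 + k - 1 = n + k := by omega
  rw [this, Nat.choose_symm_add]

end GPn

end

/-! ### from `Lib_MP_e0d435_ag.Null` -/

section

/- piece EN: zero sets of polynomials are null -/

open Finset MeasureTheory Complex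
open scoped ENNReal ContDiff

namespace GPn

/-- the zero set of a nonzero polynomial in r variables is Lebesgue-null -/
theorem mv_null : ∀ {r : ℕ} (p : MvPolynomial (Fin r) ℂ), p ≠ 0 →
    volume {x : Fin r → ℂ | MvPolynomial.eval x p = 0} = 0 := by
  intro r
  induction r with
  | zero =>
    intro p hp
    have h : {x : Fin 0 → ℂ | MvPolynomial.eval x p = 0} = ∅ := by
      ext x
      simp only [Set.mem_ofPred_eq, Set.mem_empty_iff_false, iff_false]
      intro hx
      apply hp
      rw [MvPolynomial.eq_C_of_isEmpty p] at hx ⊢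
      rw [MvPolynomial.eval_C] at hx
      rw [hx, MvPolynomial.C_0]
    rw [h, measure_empty]
  | succ r ih =>
    intro p hp
    set q : Polynomial (MvPolynomial (Fin r) ℂ) := MvPolynomial.finSuccEquiv ℂ r p with hq
    have hq0 : q ≠ 0 := by
      intro h
      apply hp
      have := (MvPolynomial.finSuccEquiv ℂ r).injective (a₁ := p) (a₂ := 0)
      apply this
      rw [← hq, h, map_zero]
    set s : Set (ℂ × (Fin r → ℂ)) :=
      {z | MvPolynomial.eval (Fin.cons z.1 z.2 : Fin (r + 1) → ℂ) p = 0} with hs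
    have hcont : Continuous (fun z : ℂ × (Fin r → ℂ) =>
        MvPolynomial.eval (Fin.cons z.1 z.2 : Fin (r + 1) → ℂ) p) := by
      have h1 : Continuous (fun z : ℂ × (Fin r → ℂ) => (Fin.cons z.1 z.2 : Fin (r + 1) → ℂ)) := by
        refine continuous_pi fun i => ?_
        refine Fin.cases ?_ (fun j => ?_) i
        · simpa using continuous_fst
        · simp only [Fin.cons_succ]
          exact (continuous_apply j).comp continuous_snd
      exact (MvPolynomial.continuous_eval p).comp h1
    have hsm : MeasurableSet s := (isClosed_singleton.preimage hcont).measurableSet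
    have hs0 : (volume : Measure (ℂ × (Fin r → ℂ))) s = 0 := by
      rw [Measure.volume_eq_prod, Measure.measure_prod_null hsm]
      have hfin : Set.Finite {x0 : ℂ | q.eval (MvPolynomial.C x0) = 0} := by
        refine Set.Finite.preimage (MvPolynomial.C_injective (Fin r) ℂ).injOn
          (s := {y | q.eval y = 0}) ?_
        refine (q.roots.toFinset.finite_toSet).subset ?_
        intro y hy
        simp only [Finset.mem_coe, Multiset.mem_toFinset]
        exact (Polynomial.mem_roots hq0).2 hy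
      have hae : ∀ᵐ x0 : ℂ, x0 ∉ {x0 : ℂ | q.eval (MvPolynomial.C x0) = 0} :=
        measure_eq_zero_iff_ae_notMem.1 (hfin.measure_zero volume)
      filter_upwards [hae] with x0 hx0
      have hne : q.eval (MvPolynomial.C x0) ≠ 0 := hx0
      have h2 := ih _ hne
      have h3 : Prod.mk x0 ⁻¹' s = {x : Fin r → ℂ |
          MvPolynomial.eval x (q.eval (MvPolynomial.C x0)) = 0} := by
        ext x
        simp only [hs, Set.mem_preimage, Set.mem_ofPred_eq]
        rw [MvPolynomial.eval_eq_eval_mv_eval', ← hq, Polynomial.eval_map]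
        have h4 := Polynomial.eval₂_at_apply (p := q) (MvPolynomial.eval x)
          (MvPolynomial.C x0 : MvPolynomial (Fin r) ℂ)
        rw [MvPolynomial.eval_C] at h4
        rw [h4]
      rw [h3, h2]
      rfl
    have hmp := volume_preserving_piFinSuccAbove (fun _ : Fin (r + 1) => ℂ) 0
    have h5 : {x : Fin (r + 1) → ℂ | MvPolynomial.eval x p = 0} =
        (MeasurableEquiv.piFinSuccAbove (fun _ : Fin (r + 1) => ℂ) 0) ⁻¹' s := by
      ext x
      simp only [hs, Set.mem_preimage, Set.mem_ofPred_eq]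
      have h6 : (Fin.cons ((MeasurableEquiv.piFinSuccAbove (fun _ : Fin (r + 1) => ℂ) 0) x).1
          ((MeasurableEquiv.piFinSuccAbove (fun _ : Fin (r + 1) => ℂ) 0) x).2 :
          Fin (r + 1) → ℂ) = x := by
        funext i
        refine Fin.cases ?_ (fun j => ?_) i
        · rfl
        · rfl
      rw [h6]
    rw [h5, hmp.measure_preimage hsm.nullMeasurableSet, hs0]

/-- nonzero polynomials have null zero sets -/
theorem null_zero {m k : ℕ} (F : V m k) (hF : F ≠ 0) : volume {x : Pt m | pd F 0 x = 0} = 0 := by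
  set P : MvPolynomial (Fin m) ℂ :=
    ∑ a : Ex m k, MvPolynomial.monomial (Finsupp.equivFunOnFinite.symm a.1)
      (F a * (bw a.1 : ℂ)) with hP
  have hev : ∀ x : Pt m, MvPolynomial.eval x P = pd F 0 x := by
    intro x
    rw [hP, map_sum, pd]
    refine Finset.sum_congr rfl fun a _ => ?_
    rw [MvPolynomial.eval_monomial, dm_zero, Finsupp.prod_fintype]
    · simp only [Finsupp.equivFunOnFinite_symm_apply_apply]
      ring
    · intro i
      simp
  have hne : P ≠ 0 := by
    intro h0
    apply hF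
    ext a
    have h1 : MvPolynomial.coeff (Finsupp.equivFunOnFinite.symm a.1) P = F a * (bw a.1 : ℂ) := by
      rw [hP, MvPolynomial.coeff_sum]
      rw [Finset.sum_eq_single a]
      · simp
      · intro b _ hb
        rw [MvPolynomial.coeff_monomial, if_neg]
        intro h
        apply hb
        exact Subtype.ext (Finsupp.equivFunOnFinite.symm.injective h)
      · intro h
        exact absurd (Finset.mem_univ a) h
    rw [h0, MvPolynomial.coeff_zero] at h1
    have h2 : (bw a.1 : ℂ) ≠ 0 := by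
      exact_mod_cast (bw_pos a.1).ne'
    have h3 := (mul_eq_zero.1 h1.symm).resolve_right h2
    simpa using h3
  have := mv_null P hne
  simpa only [hev] using this

end GPn

end

/-! ### from `Lib_MP_e0d435_kv.DerExt` -/

section

/-! V03: derivations extend to algebraic extensions in characteristic zero.

Proof: `M → M'` is formally etale (`Algebra.FormallyEtale.of_isSeparable` or similar), so
`Ω_{M'/ℂ} = M' ⊗ Ω_{M/ℂ}` (`KaehlerDifferential.tensorKaehlerEquivOfFormallyEtale`; see the use in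
`Pool/Agent/Lib_GD/TrdegBound.lean`), or: Mathlib's extension of derivations of
`Differential` fields, or by hand on `M(θ)` for finite extensions. -/

namespace Pool.Agent.Lib_MP_e0d435_kv

theorem exists_der_ext {M M' : Type} [Field M] [Field M'] [Algebra ℂ M] [Algebra ℂ M']
    [Algebra M M'] [IsScalarTower ℂ M M'] [Algebra.IsAlgebraic M M'] (δ : Derivation ℂ M M) :
    ∃ δ' : Derivation ℂ M' M', ∀ f, δ' (algebraMap M M' f) = algebraMap M M' (δ f) := by
  have : CharZero M := charZero_of_injective_algebraMap (algebraMap ℂ M).injective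
  have : Algebra.FormallyEtale M M' := Algebra.FormallyEtale.of_isSeparable _ _
  let e := KaehlerDifferential.tensorKaehlerEquivOfFormallyEtale ℂ M M'
  let φ : TensorProduct M M' (Ω[M⁄ℂ]) →ₗ[M'] M' :=
    LinearMap.liftBaseChange M' (Algebra.linearMap M M' ∘ₗ δ.liftKaehlerDifferential)
  refine ⟨(φ ∘ₗ e.symm.toLinearMap).compDer (KaehlerDifferential.D ℂ M'), fun f => ?_⟩
  change φ (e.symm (KaehlerDifferential.D ℂ M' (algebraMap M M' f))) = _
  rw [KaehlerDifferential.tensorKaehlerEquivOfFormallyEtale_symm_D_algebraMap]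
  simp [φ]

end Pool.Agent.Lib_MP_e0d435_kv

end

/-! ### from `Lib_KF.GDom` -/

section

/-! G2d: the tensor product of two domains over `ℂ` is a domain. -/

open scoped TensorProduct

namespace Pool.Agent.Lib_KF

private theorem GDom_point (R : Type) [CommRing R] [IsDomain R] [Algebra ℂ R]
    [Algebra.FiniteType ℂ R] (c : R) (hc : c ≠ 0) : ∃ φ : R →ₐ[ℂ] ℂ, φ c ≠ 0 := by
  have hJ : IsJacobsonRing R := isJacobsonRing_of_finiteType (A := ℂ)
  have hbot : (⊥ : Ideal R).jacobson = ⊥ := hJ.out (Ideal.isRadical_bot)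
  have hm : ∃ m : Ideal R, m.IsMaximal ∧ c ∉ m := by
    by_contra hcon
    push Not at hcon
    apply hc
    have h1 : c ∈ (⊥ : Ideal R).jacobson := by
      rw [Ideal.jacobson, Ideal.mem_sInf]
      intro m hm
      exact hcon m hm.2
    rwa [hbot] at h1
  obtain ⟨m, hm, hcm⟩ := hm
  let _ : Field (R ⧸ m) := Ideal.Quotient.field m
  have hft : Algebra.FiniteType ℂ (R ⧸ m) := inferInstance
  have hfin : Module.Finite ℂ (R ⧸ m) := finite_of_finite_type_of_isJacobsonRing ℂ (R ⧸ m)
  have hint : Algebra.IsIntegral ℂ (R ⧸ m) := inferInstance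
  have hbij : Function.Bijective (Algebra.ofId ℂ (R ⧸ m)) :=
    IsAlgClosed.algebraMap_bijective_of_isIntegral
  let e : ℂ ≃ₐ[ℂ] (R ⧸ m) := AlgEquiv.ofBijective (Algebra.ofId ℂ (R ⧸ m)) hbij
  refine ⟨(e.symm : (R ⧸ m) →ₐ[ℂ] ℂ).comp (Ideal.Quotient.mkₐ ℂ m), ?_⟩
  intro h
  apply hcm
  have h1 : e.symm (Ideal.Quotient.mk m c) = 0 := h
  rw [EmbeddingLike.map_eq_zero_iff] at h1
  exact Ideal.Quotient.eq_zero_iff_mem.1 h1

/-- G2d. Proof: it suffices to treat `A` finitely generated over `ℂ`: if `u u' = 0` in `A ⊗ B`,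
write `u = ∑ a_i ⊗ b_i`, `u' = ∑ a'_j ⊗ b'_j` with `b_i` linearly independent and `b'_j` linearly
independent, and let `A₀` be the subalgebra generated by the `a_i`, `a'_j`; `A₀ ⊗ B → A ⊗ B` is
injective (flat over a field). For a maximal ideal `p` of `A₀`, `A₀ / p = ℂ` (Nullstellensatz), so
`(∑ a_i(p) b_i) (∑ a'_j(p) b'_j) = 0` in `B`, hence all `a_i ∈ p` or all `a'_j ∈ p`. So
`a_i a'_j` is in every maximal ideal of `A₀`, hence zero (`A₀` is a Jacobson ring and reduced), for
all `i, j`: so all `a_i = 0` or all `a'_j = 0`, i.e. `u = 0` or `u' = 0`. -/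
theorem tensor_isDomain (A B : Type) [CommRing A] [CommRing B] [IsDomain A] [IsDomain B]
    [Algebra ℂ A] [Algebra ℂ B] : IsDomain (A ⊗[ℂ] B) := by
  classical
  have hnt : Nontrivial (A ⊗[ℂ] B) := by
    refine ⟨⟨0, 1, fun h => ?_⟩⟩
    have hinj : Function.Injective (Algebra.TensorProduct.includeRight : B →ₐ[ℂ] A ⊗[ℂ] B) :=
      Algebra.TensorProduct.includeRight_injective (FaithfulSMul.algebraMap_injective ℂ A)
    have h1 : (Algebra.TensorProduct.includeRight : B →ₐ[ℂ] A ⊗[ℂ] B) 0 =
        (Algebra.TensorProduct.includeRight : B →ₐ[ℂ] A ⊗[ℂ] B) 1 := by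
      rw [map_zero, map_one]; exact h
    exact zero_ne_one (hinj h1)
  have hnz : NoZeroDivisors (A ⊗[ℂ] B) := by
    refine ⟨fun {u u'} huu => ?_⟩
    by_contra hcon
    push Not at hcon
    obtain ⟨hu, hu'⟩ := hcon
    let b := Module.Basis.ofVectorSpace ℂ B
    let bA := Algebra.TensorProduct.basis A b
    let f := bA.repr u
    let f' := bA.repr u'
    have hf : f ≠ 0 := fun h => hu (bA.repr.map_eq_zero_iff.1 h)
    have hf' : f' ≠ 0 := fun h => hu' (bA.repr.map_eq_zero_iff.1 h)
    obtain ⟨i0, hi0⟩ := Finsupp.ne_iff.1 hf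
    obtain ⟨j0, hj0⟩ := Finsupp.ne_iff.1 hf'
    rw [Finsupp.zero_apply] at hi0 hj0
    let A₀ : Subalgebra ℂ A := Algebra.adjoin ℂ
      (((f.support.image f ∪ f'.support.image f' : Finset A)) : Set A)
    have hm : ∀ i, f i ∈ A₀ := by
      intro i
      by_cases h : f i = 0
      · rw [h]; exact A₀.zero_mem
      · apply Algebra.subset_adjoin
        rw [Finset.mem_coe, Finset.mem_union]
        exact Or.inl (Finset.mem_image_of_mem f (Finsupp.mem_support_iff.2 h))
    have hm' : ∀ i, f' i ∈ A₀ := by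
      intro i
      by_cases h : f' i = 0
      · rw [h]; exact A₀.zero_mem
      · apply Algebra.subset_adjoin
        rw [Finset.mem_coe, Finset.mem_union]
        exact Or.inr (Finset.mem_image_of_mem f' (Finsupp.mem_support_iff.2 h))
    have hfg : A₀.FG := Subalgebra.fg_adjoin_finset _
    have hft : Algebra.FiniteType ℂ A₀ := (Subalgebra.fg_iff_finiteType A₀).1 hfg
    let v : A₀ ⊗[ℂ] B := ∑ i ∈ f.support, (⟨f i, hm i⟩ : A₀) ⊗ₜ[ℂ] b i
    let v' : A₀ ⊗[ℂ] B := ∑ i ∈ f'.support, (⟨f' i, hm' i⟩ : A₀) ⊗ₜ[ℂ] b i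
    let ψ : A₀ ⊗[ℂ] B →ₐ[ℂ] A ⊗[ℂ] B := Algebra.TensorProduct.map A₀.val (AlgHom.id ℂ B)
    have hψ : Function.Injective ψ := by
      have h1 : Function.Injective (LinearMap.rTensor B A₀.val.toLinearMap) :=
        Module.Flat.rTensor_preserves_injective_linearMap _ Subtype.val_injective
      exact h1
    have hv : ψ v = u := by
      have h1 := bA.linearCombination_repr u
      rw [Finsupp.linearCombination_apply, Finsupp.sum] at h1
      rw [map_sum]
      refine Eq.trans (Finset.sum_congr rfl fun i _ => ?_) h1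
      rw [Algebra.TensorProduct.map_tmul, Algebra.TensorProduct.basis_apply,
        TensorProduct.smul_tmul', smul_eq_mul, mul_one]
      rfl
    have hv' : ψ v' = u' := by
      have h1 := bA.linearCombination_repr u'
      rw [Finsupp.linearCombination_apply, Finsupp.sum] at h1
      rw [map_sum]
      refine Eq.trans (Finset.sum_congr rfl fun i _ => ?_) h1
      rw [Algebra.TensorProduct.map_tmul, Algebra.TensorProduct.basis_apply,
        TensorProduct.smul_tmul', smul_eq_mul, mul_one]
      rfl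
    have hvv : v * v' = 0 := by
      apply hψ
      rw [map_mul, hv, hv', huu, map_zero]
    obtain ⟨φ, hφ⟩ := GDom_point A₀ (⟨f i0, hm i0⟩ * ⟨f' j0, hm' j0⟩) (by
      intro h
      have h1 := congrArg Subtype.val h
      exact mul_ne_zero hi0 hj0 h1)
    let χ : A₀ ⊗[ℂ] B →ₐ[ℂ] B := Algebra.TensorProduct.lift ((Algebra.ofId ℂ B).comp φ)
      (AlgHom.id ℂ B) (fun _ _ => Commute.all _ _)
    have hχ : χ v = ∑ i ∈ f.support, φ ⟨f i, hm i⟩ • b i := by
      rw [map_sum]
      refine Finset.sum_congr rfl fun i _ => ?_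
      rw [Algebra.TensorProduct.lift_tmul, Algebra.smul_def]
      rfl
    have hχ' : χ v' = ∑ i ∈ f'.support, φ ⟨f' i, hm' i⟩ • b i := by
      rw [map_sum]
      refine Finset.sum_congr rfl fun i _ => ?_
      rw [Algebra.TensorProduct.lift_tmul, Algebra.smul_def]
      rfl
    have hprod : χ v * χ v' = 0 := by rw [← map_mul, hvv, map_zero]
    have hli := linearIndependent_iff'.1 b.linearIndependent
    apply hφ
    rw [map_mul]
    rcases mul_eq_zero.1 hprod with h | h
    · rw [hχ] at h
      have h1 := hli f.support (fun i => φ ⟨f i, hm i⟩) h i0 (Finsupp.mem_support_iff.2 hi0)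
      rw [h1, zero_mul]
    · rw [hχ'] at h
      have h1 := hli f'.support (fun i => φ ⟨f' i, hm' i⟩) h j0 (Finsupp.mem_support_iff.2 hj0)
      rw [h1, mul_zero]
  exact NoZeroDivisors.to_isDomain _

end Pool.Agent.Lib_KF

end
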