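import Mathlib
import Pool.Agent.Lib_GD.Defs

/-!
# MP_e0d435_ag: merged library part G03

Concatenation of library files (each in its own section), only to save build time.
-/

/-! ### from `Lib_GD.ArcDefs` -/

section

/-!
# Arc systems: definitions

`O = L⟦X⟧`; derivations of `L` act coefficientwise on `O`. An arc system is the linear algebra
shadow of `N` arcs `x_j : B_j → O` on an `n`-dimensional smooth variety and a space `𝒟` of
derivations of `L`: `u j α i` stands for `(∂^α s_i)(x_j)`, `ξ δ j l` for `δ (y_l (x_j))`.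
-/

open PowerSeries

namespace Pool.Agent.Lib_GD

/-- The colength of a submodule (`0` if it is infinite). -/
noncomputable def colen {A P : Type} [CommRing A] [AddCommGroup P] [Module A P]
    (M : Submodule A P) : ℕ :=
  (Module.length A (P ⧸ M)).toNat

/-- The submodule has finite colength. -/
def FinColen {A P : Type} [CommRing A] [AddCommGroup P] [Module A P] (M : Submodule A P) : Prop :=
  Module.length A (P ⧸ M) ≠ ⊤

variable {L : Type} [Field L] [Algebra ℂ L]

/-- Coefficientwise action of a derivation on power series. -/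
noncomputable def hat (δ : Derivation ℂ L L) (f : L⟦X⟧) : L⟦X⟧ :=
  PowerSeries.mk fun k => δ (PowerSeries.coeff k f)

/-- An arc system. -/
structure ArcSystem (L : Type) [Field L] [Algebra ℂ L] (n N : ℕ) where
  /-- the derivations -/
  𝒟 : Submodule L (Derivation ℂ L L)
  /-- `u j α i = (∂^α s_i)(x_j)` -/
  u : Fin N → (Fin n →₀ ℕ) → Fin N → L⟦X⟧
  /-- `ξ δ j l = δ (y_l (x_j))` -/
  ξ : Derivation ℂ L L → Fin N → Fin n → L⟦X⟧
  transport : ∀ δ ∈ 𝒟, ∀ j α i,
    hat δ (u j α i) = ∑ l, ξ δ j l * u j (α + Finsupp.single l 1) i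
  /-- the possible values of `ξ` -/
  Ξ : Submodule L⟦X⟧ (Fin N → Fin n → L⟦X⟧)
  mem_Ξ : ∀ v, v ∈ Ξ ↔ ∃ δ ∈ 𝒟, ξ δ = v
  fin_Ξ : FinColen Ξ

namespace ArcSystem

variable {n N : ℕ} (Γ : ArcSystem L n N)

/-- The total cost `A`. -/
noncomputable def A : ℕ := colen Γ.Ξ

/-- The functionals `f ↦ (∂^α f)(x_j)` on `H(O) = O^N`. -/
noncomputable def ev (j : Fin N) (α : Fin n →₀ ℕ) : (Fin N → L⟦X⟧) →ₗ[L⟦X⟧] L⟦X⟧ where
  toFun f := ∑ i, Γ.u j α i * f i
  map_add' f g := by simp [mul_add, Finset.sum_add_distrib]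
  map_smul' c f := by
    simp only [Pi.smul_apply, smul_eq_mul, RingHom.id_apply, Finset.mul_sum]
    exact Finset.sum_congr rfl fun i _ => by ring

/-- The elements of `Ξ` vanishing at the points of `S`. -/
def XiS (S : Finset (Fin N)) : Submodule L⟦X⟧ (Fin N → Fin n → L⟦X⟧) where
  carrier := {w | w ∈ Γ.Ξ ∧ ∀ i ∈ S, w i = 0}
  add_mem' {a b} ha hb := ⟨Γ.Ξ.add_mem ha.1 hb.1, fun i hi => by simp [ha.2 i hi, hb.2 i hi]⟩
  zero_mem' := ⟨Γ.Ξ.zero_mem, fun _ _ => rfl⟩
  smul_mem' c a ha := ⟨Γ.Ξ.smul_mem c ha.1, fun i hi => by simp [ha.2 i hi]⟩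

/-- `Ξ_{j|S}`. -/
noncomputable def Xirel (j : Fin N) (S : Finset (Fin N)) : Submodule L⟦X⟧ (Fin n → L⟦X⟧) :=
  (Γ.XiS S).map (LinearMap.proj j)

/-- The cost `a(j|S)`. -/
noncomputable def cost (j : Fin N) (S : Finset (Fin N)) : ℕ := colen (Γ.Xirel j S)

/-- The derivations killing the arcs `x_i`, `i ∈ S`. -/
def Dker (S : Finset (Fin N)) : Set (Derivation ℂ L L) :=
  {δ | δ ∈ Γ.𝒟 ∧ ∀ i ∈ S, Γ.ξ δ i = 0}

/-- Submodules of `H(O) = O^N` stable under the derivations killing the arcs in `S`. -/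
def Stable (S : Finset (Fin N)) (M : Submodule L⟦X⟧ (Fin N → L⟦X⟧)) : Prop :=
  ∀ δ ∈ Γ.Dker S, ∀ f ∈ M, (fun i => hat δ (f i)) ∈ M

/-- `W_S`: the elements of `H(O)` vanishing at the arcs `x_i`, `i ∈ S`. -/
def W (S : Finset (Fin N)) : Submodule L⟦X⟧ (Fin N → L⟦X⟧) where
  carrier := {f | ∀ i ∈ S, Γ.ev i 0 f = 0}
  add_mem' {a b} ha hb i hi := by simp [ha i hi, hb i hi]
  zero_mem' i _ := by simp
  smul_mem' c a ha i hi := by simp [ha i hi]

/-- The energy `φ(j|S)`: the smallest order at `x_j` of an element of `W_S`. -/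
noncomputable def phi (j : Fin N) (S : Finset (Fin N)) : ℕ :=
  sInf {k | ∃ f ∈ Γ.W S, ¬ (X : L⟦X⟧) ^ (k + 1) ∣ Γ.ev j 0 f}

/-- The evaluation determinant. -/
noncomputable def det : L⟦X⟧ := Matrix.det (Matrix.of fun j i : Fin N => Γ.u j 0 i)

/-- Hypothesis (T): vanishing orders of non-zero sections over `L` are at most `D`. -/
def HT (D : ℕ) : Prop :=
  ∀ (j : Fin N) (v : Fin N → L), v ≠ 0 →
    ∃ α : Fin n →₀ ℕ, α.degree ≤ D ∧ ∑ i, constantCoeff (Γ.u j α i) * v i ≠ 0

/-- Hypothesis (Sep): the jets of order `< q` are independent. -/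
def HSep (q : ℕ) : Prop :=
  ∀ j : Fin N, LinearIndependent L (fun α : {α : Fin n →₀ ℕ // α.degree < q} =>
    fun i : Fin N => constantCoeff (Γ.u j α i))

/-- Hypothesis (I2): a stable lattice `X ^ (-B) M`, `X ^ B O^N ⊆ M ⊆ O^N`, with integral values
at `x_j` has length at most `σ a(j|S)` over `O^N`. -/
def HI2 (σ : ℝ) : Prop :=
  ∀ (S : Finset (Fin N)) (j : Fin N), j ∉ S →
    ∀ (B : ℕ) (M : Submodule L⟦X⟧ (Fin N → L⟦X⟧)), (∀ f, (X : L⟦X⟧) ^ B • f ∈ M) →
      Γ.Stable S M → (∀ f ∈ M, (X : L⟦X⟧) ^ B ∣ Γ.ev j 0 f) →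
      (B : ℝ) * N - colen M ≤ σ * Γ.cost j S

/-- The disc lattice `X ^ B Λ_S` of radius `a`. -/
def Lam (B a : ℕ) (S : Finset (Fin N)) : Submodule L⟦X⟧ (Fin N → L⟦X⟧) where
  carrier := {f | ∀ i ∈ S, ∀ α : Fin n →₀ ℕ,
    (X : L⟦X⟧) ^ B ∣ X ^ (α.degree * a) * Γ.ev i α f}
  add_mem' {f g} hf hg i hi α := by
    rw [map_add, mul_add]; exact dvd_add (hf i hi α) (hg i hi α)
  zero_mem' i _ α := by simp
  smul_mem' c f hf i hi α := by
    rw [map_smul, smul_eq_mul, mul_left_comm]; exact Dvd.dvd.mul_left (hf i hi α) c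

/-- `r_S(b)` as a subspace of `L^N`: the reductions of the `f ∈ O^N` with
`X ^ (B - b) f ∈ X ^ B Λ_S`. -/
def rsub (B a : ℕ) (S : Finset (Fin N)) (b : ℕ) : Submodule L (Fin N → L) where
  carrier := {v | ∃ f : Fin N → L⟦X⟧, (∀ i, constantCoeff (f i) = v i) ∧
    (X : L⟦X⟧) ^ (B - b) • f ∈ Γ.Lam B a S}
  add_mem' {v w} := by
    rintro ⟨f, hf, hf'⟩ ⟨g, hg, hg'⟩
    exact ⟨f + g, fun i => by simp [hf i, hg i], by rw [smul_add]; exact add_mem hf' hg'⟩
  zero_mem' := ⟨0, fun i => by simp, by simp⟩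
  smul_mem' c v := by
    rintro ⟨f, hf, hf'⟩
    refine ⟨(C c : L⟦X⟧) • f, fun i => by simp [hf i], ?_⟩
    rw [smul_comm]; exact Submodule.smul_mem _ _ hf'

/-- `r_S(b)`. -/
noncomputable def rk (B a : ℕ) (S : Finset (Fin N)) (b : ℕ) : ℕ :=
  Module.finrank L (Γ.rsub B a S b)

end ArcSystem

end Pool.Agent.Lib_GD

end

/-! ### from `Lib_GD.Colen` -/

section

/-! K02: colengths of lattices over `O = L⟦X⟧`. -/

open PowerSeries

namespace Pool.Agent.Lib_GD

section ColenAux

variable {A : Type} [CommRing A] {P Q : Type} [AddCommGroup P] [Module A P]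
  [AddCommGroup Q] [Module A Q]

private theorem Colen_length_factor {M M' : Submodule A P} (h : M ≤ M') :
    Module.length A (P ⧸ M) =
      Module.length A (M'.map M.mkQ) + Module.length A (P ⧸ M') := by
  refine Module.length_eq_add_of_exact (M'.map M.mkQ).subtype (Submodule.factor h)
    (Submodule.subtype_injective _) (Submodule.factor_surjective h) ?_
  rw [LinearMap.exact_iff, Submodule.range_subtype]
  ext x
  obtain ⟨y, rfl⟩ := Submodule.mkQ_surjective M x
  constructor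
  · intro hy
    have hy' : Submodule.factor h (M.mkQ y) = 0 := hy
    have : (Submodule.Quotient.mk y : P ⧸ M') = 0 := hy'
    rw [Submodule.Quotient.mk_eq_zero] at this
    exact ⟨y, this, rfl⟩
  · rintro ⟨z, hz, hzy⟩
    rw [← hzy]
    change (Submodule.Quotient.mk z : P ⧸ M') = 0
    rw [Submodule.Quotient.mk_eq_zero]
    exact hz

private theorem Colen_coe {M : Submodule A P} (hM : FinColen M) :
    ((colen M : ℕ) : ℕ∞) = Module.length A (P ⧸ M) :=
  ENat.natCast_toNat hM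

private theorem Colen_eq_of {M : Submodule A P} {k : ℕ}
    (h : Module.length A (P ⧸ M) = (k : ℕ∞)) : FinColen M ∧ colen M = k := by
  refine ⟨?_, ?_⟩
  · unfold FinColen
    rw [h]
    exact ENat.natCast_ne_top k
  · unfold colen
    rw [h]
    rfl

end ColenAux

variable {L : Type} [Field L] {P : Type} [AddCommGroup P] [Module L⟦X⟧ P]

theorem finColen_mono {M M' : Submodule L⟦X⟧ P} (h : M ≤ M') (hM : FinColen M) :
    FinColen M' := by
  intro h'
  apply hM
  rw [Colen_length_factor h, h', add_top]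

theorem colen_anti {M M' : Submodule L⟦X⟧ P} (h : M ≤ M') (hM : FinColen M) :
    colen M' ≤ colen M := by
  have hM' := finColen_mono h hM
  have h1 := Colen_length_factor h
  rw [← Colen_coe hM, ← Colen_coe hM'] at h1
  have h2 : ((colen M' : ℕ) : ℕ∞) ≤ (colen M : ℕ) := by
    rw [h1]
    exact le_add_self
  exact_mod_cast h2

private theorem Colen_kill (k : ℕ) : ∀ (Q : Type) [AddCommGroup Q] [Module L⟦X⟧ Q],
    Module.length L⟦X⟧ Q ≤ (k : ℕ∞) → ∀ q : Q, (X : L⟦X⟧) ^ k • q = 0 := by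
  induction k with
  | zero =>
    intro Q _ _ h q
    have h0 : Module.length L⟦X⟧ Q = 0 := by simpa using h
    rw [Module.length_eq_zero_iff] at h0
    exact Subsingleton.elim _ _
  | succ k ih =>
    intro Q _ _ h q
    by_cases hs : Subsingleton Q
    · exact Subsingleton.elim _ _
    rw [not_subsingleton_iff_nontrivial] at hs
    have hfin : Module.length L⟦X⟧ Q ≠ ⊤ := ne_top_of_le_ne_top (ENat.natCast_ne_top _) h
    rw [Module.length_ne_top_iff, isFiniteLength_iff_isNoetherian_isArtinian] at hfin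
    obtain ⟨hN, hA⟩ := hfin
    set N : Submodule L⟦X⟧ Q := LinearMap.range (LinearMap.lsmul L⟦X⟧ Q X) with hNdef
    have hne : N ≠ ⊤ := by
      intro htop
      have h1 : (⊤ : Submodule L⟦X⟧ Q) ≤ Ideal.span {(X : L⟦X⟧)} • (⊤ : Submodule L⟦X⟧ Q) := by
        intro y _
        have hy : y ∈ N := by rw [htop]; trivial
        obtain ⟨z, hz⟩ := hy
        rw [← hz]
        exact Submodule.smul_mem_smul (Ideal.mem_span_singleton_self _) trivial
      have h2 : (⊤ : Submodule L⟦X⟧ Q) = ⊥ := by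
        refine Submodule.eq_bot_of_le_smul_of_le_jacobson_bot _ _
          (Module.Finite.fg_top) h1 ?_
        rw [← PowerSeries.maximalIdeal_eq_span_X]
        exact IsLocalRing.maximalIdeal_le_jacobson ⊥
      have : Subsingleton Q := by
        rw [← Submodule.subsingleton_iff L⟦X⟧]
        exact subsingleton_of_bot_eq_top h2.symm
      exact not_subsingleton Q this
    have hlt := Submodule.length_lt hne
    have hle : Module.length L⟦X⟧ N ≤ (k : ℕ∞) := by
      have h3 : Module.length L⟦X⟧ N < ((k + 1 : ℕ) : ℕ∞) := lt_of_lt_of_le hlt h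
      have h4 : Module.length L⟦X⟧ N ≠ ⊤ := ne_top_of_lt h3
      lift Module.length L⟦X⟧ N to ℕ using h4 with m
      have h5 : m < k + 1 := by exact_mod_cast h3
      exact_mod_cast Nat.lt_succ_iff.mp h5
    have h6 := ih N hle ⟨(X : L⟦X⟧) • q, ⟨q, rfl⟩⟩
    have h7 := congrArg Subtype.val h6
    rw [pow_succ, mul_smul]
    exact h7

/-- A submodule of colength `a` contains `X ^ a P`. -/
theorem X_pow_smul_mem {M : Submodule L⟦X⟧ P} (hM : FinColen M) {k : ℕ} (hk : colen M ≤ k)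
    (f : P) : (X : L⟦X⟧) ^ k • f ∈ M := by
  have h1 : Module.length L⟦X⟧ (P ⧸ M) ≤ (k : ℕ∞) := by
    rw [← Colen_coe hM]
    exact_mod_cast hk
  have h2 := Colen_kill k (P ⧸ M) h1 (Submodule.Quotient.mk f)
  rw [← Submodule.Quotient.mk_smul, Submodule.Quotient.mk_eq_zero] at h2
  exact h2

/-- Modular law for colengths. -/
theorem colen_inf_add_colen_sup {M M' : Submodule L⟦X⟧ P} (hM : FinColen M)
    (hM' : FinColen M') :
    FinColen (M ⊓ M') ∧ colen (M ⊓ M') + colen (M ⊔ M') = colen M + colen M' := by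
  have hMM : FinColen (M ⊔ M') := finColen_mono le_sup_left hM
  have key : Module.length L⟦X⟧ ((P ⧸ M) × (P ⧸ M')) =
      Module.length L⟦X⟧ (P ⧸ (M ⊓ M')) + Module.length L⟦X⟧ (P ⧸ (M ⊔ M')) := by
    let f : (P ⧸ (M ⊓ M')) →ₗ[L⟦X⟧] ((P ⧸ M) × (P ⧸ M')) :=
      LinearMap.prod (Submodule.factor inf_le_left) (Submodule.factor inf_le_right)
    let g : ((P ⧸ M) × (P ⧸ M')) →ₗ[L⟦X⟧] (P ⧸ (M ⊔ M')) :=
      LinearMap.comp (Submodule.factor le_sup_left) (LinearMap.fst _ _ _) -
        LinearMap.comp (Submodule.factor le_sup_right) (LinearMap.snd _ _ _)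
    refine Module.length_eq_add_of_exact f g ?_ ?_ ?_
    · rw [← LinearMap.ker_eq_bot, eq_bot_iff]
      intro x hx
      obtain ⟨y, rfl⟩ := Submodule.mkQ_surjective _ x
      have hx' : f ((M ⊓ M').mkQ y) = 0 := hx
      have h1 : (Submodule.Quotient.mk y : P ⧸ M) = 0 := congrArg Prod.fst hx'
      have h2 : (Submodule.Quotient.mk y : P ⧸ M') = 0 := congrArg Prod.snd hx'
      rw [Submodule.Quotient.mk_eq_zero] at h1 h2
      rw [Submodule.mem_bot]
      change (Submodule.Quotient.mk y : P ⧸ (M ⊓ M')) = 0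
      rw [Submodule.Quotient.mk_eq_zero]
      exact ⟨h1, h2⟩
    · intro x
      obtain ⟨y, rfl⟩ := Submodule.mkQ_surjective _ x
      refine ⟨(M.mkQ y, 0), ?_⟩
      change Submodule.factor (le_sup_left : M ≤ M ⊔ M') (M.mkQ y) -
        Submodule.factor (le_sup_right : M' ≤ M ⊔ M') (0 : P ⧸ M') = _
      rw [map_zero, sub_zero]
      rfl
    · rw [LinearMap.exact_iff]
      ext ⟨a, b⟩
      obtain ⟨a, rfl⟩ := Submodule.mkQ_surjective _ a
      obtain ⟨b, rfl⟩ := Submodule.mkQ_surjective _ b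
      constructor
      · intro h
        have h' : g (M.mkQ a, M'.mkQ b) = 0 := h
        have h1 : (Submodule.Quotient.mk a : P ⧸ (M ⊔ M')) - Submodule.Quotient.mk b = 0 := h'
        rw [← Submodule.Quotient.mk_sub, Submodule.Quotient.mk_eq_zero,
          Submodule.mem_sup] at h1
        obtain ⟨y, hy, z, hz, hyz⟩ := h1
        refine ⟨Submodule.Quotient.mk (a - y), ?_⟩
        refine Prod.ext ?_ ?_
        · change (Submodule.Quotient.mk (a - y) : P ⧸ M) = Submodule.Quotient.mk a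
          rw [Submodule.Quotient.eq]
          simpa using hy
        · change (Submodule.Quotient.mk (a - y) : P ⧸ M') = Submodule.Quotient.mk b
          rw [Submodule.Quotient.eq]
          have : a - y - b = z := by
            have h3 : z = a - b - y := by rw [← hyz]; abel
            rw [h3]; abel
          rw [this]
          exact hz
      · rintro ⟨x, hx⟩
        obtain ⟨c, rfl⟩ := Submodule.mkQ_surjective _ x
        change g (M.mkQ a, M'.mkQ b) = 0
        rw [← hx]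
        change (Submodule.Quotient.mk c : P ⧸ (M ⊔ M')) - Submodule.Quotient.mk c = 0
        rw [sub_self]
  rw [Module.length_prod, ← Colen_coe hM, ← Colen_coe hM', ← Colen_coe hMM] at key
  have hfin : FinColen (M ⊓ M') := by
    intro h
    rw [h, top_add] at key
    have : ((colen M + colen M' : ℕ) : ℕ∞) = ⊤ := by
      rw [← key]; push_cast; rfl
    exact ENat.natCast_ne_top _ this
  refine ⟨hfin, ?_⟩
  rw [← Colen_coe hfin] at key
  exact_mod_cast key.symm

private theorem Colen_length_X_pow (r B : ℕ) :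
    Module.length L⟦X⟧ ((Fin r → L⟦X⟧) ⧸
      LinearMap.range (LinearMap.lsmul L⟦X⟧ (Fin r → L⟦X⟧) (X ^ B))) = ((B * r : ℕ) : ℕ∞) := by
  have h1 : LinearMap.range (LinearMap.lsmul L⟦X⟧ (Fin r → L⟦X⟧) (X ^ B)) =
      Submodule.pi Set.univ (fun _ => (Ideal.span {(X : L⟦X⟧) ^ B} : Submodule L⟦X⟧ L⟦X⟧)) := by
    ext v
    rw [Submodule.mem_pi]
    constructor
    · rintro ⟨w, rfl⟩ i _
      change (X : L⟦X⟧) ^ B * w i ∈ Ideal.span {(X : L⟦X⟧) ^ B}
      rw [Ideal.mem_span_singleton]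
      exact dvd_mul_right _ _
    · intro h
      have h' : ∀ i, (X : L⟦X⟧) ^ B ∣ v i := fun i => Ideal.mem_span_singleton.mp (h i trivial)
      choose w hw using h'
      refine ⟨w, ?_⟩
      funext i
      exact (hw i).symm
  rw [h1, (Submodule.quotientPi _).length_eq, Module.length_pi_of_fintype]
  have h2 : Module.length L⟦X⟧ (L⟦X⟧ ⧸ (Ideal.span {(X : L⟦X⟧) ^ B})) = (B : ℕ∞) := by
    rw [← Ideal.span_singleton_pow, ← PowerSeries.maximalIdeal_eq_span_X]
    exact IsDiscreteValuationRing.length_quotient_pow_maximalIdeal L⟦X⟧ B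
  rw [Finset.sum_congr rfl (fun i _ => h2)]
  simp [mul_comm]

theorem colen_X_pow (r B : ℕ) :
    colen (LinearMap.range (LinearMap.lsmul L⟦X⟧ (Fin r → L⟦X⟧) (X ^ B))) = B * r :=
  (Colen_eq_of (Colen_length_X_pow (L := L) r B)).2

/-- `X ^ B O^r` has colength `B r`. -/
theorem finColen_of_X_pow {r B : ℕ} {M : Submodule L⟦X⟧ (Fin r → L⟦X⟧)}
    (h : ∀ f, (X : L⟦X⟧) ^ B • f ∈ M) : FinColen M ∧ colen M ≤ B * r := by
  have h1 : LinearMap.range (LinearMap.lsmul L⟦X⟧ (Fin r → L⟦X⟧) (X ^ B)) ≤ M := by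
    rintro _ ⟨f, rfl⟩
    exact h f
  have h2 := (Colen_eq_of (Colen_length_X_pow (L := L) r B)).1
  refine ⟨finColen_mono h1 h2, ?_⟩
  rw [← colen_X_pow (L := L) r B]
  exact colen_anti h1 h2

/-- If `M ≤ M'` and `X ^ h M' ≤ M` while `M' / M` has length `c`, then ... : in the form used,
a chain `M ≤ M'` with `colen M ≤ colen M' + c` satisfies `X ^ c M' ≤ M`. -/
theorem X_pow_smul_mem_of_colen {M M' : Submodule L⟦X⟧ P} (h : M ≤ M') (hM : FinColen M)
    {c : ℕ} (hc : colen M ≤ colen M' + c) {f : P} (hf : f ∈ M') :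
    (X : L⟦X⟧) ^ c • f ∈ M := by
  have hM' := finColen_mono h hM
  have h1 := Colen_length_factor h
  rw [← Colen_coe hM, ← Colen_coe hM'] at h1
  have h2 : Module.length L⟦X⟧ (M'.map M.mkQ) ≤ (c : ℕ∞) := by
    have h3 : Module.length L⟦X⟧ (M'.map M.mkQ) ≠ ⊤ := by
      intro h4
      rw [h4, top_add] at h1
      exact ENat.natCast_ne_top _ h1
    generalize Module.length L⟦X⟧ (M'.map M.mkQ) = ℓ at h1 h3
    lift ℓ to ℕ using h3
    have h5 : colen M = ℓ + colen M' := by exact_mod_cast h1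
    have h6 : ℓ ≤ c := by omega
    exact_mod_cast h6
  have h7 := Colen_kill c (M'.map M.mkQ) h2 ⟨M.mkQ f, ⟨f, hf, rfl⟩⟩
  have h8 : (Submodule.Quotient.mk ((X : L⟦X⟧) ^ c • f) : P ⧸ M) = 0 := by
    rw [Submodule.Quotient.mk_smul]
    exact congrArg Subtype.val h7
  rwa [Submodule.Quotient.mk_eq_zero] at h8

/-- The colength of `X ^ u M + X ^ B O^r`. -/
theorem colen_smul_sup {r B u : ℕ} {M : Submodule L⟦X⟧ (Fin r → L⟦X⟧)}
    (h : ∀ f, (X : L⟦X⟧) ^ B • f ∈ M) :
    colen (M.map (LinearMap.lsmul L⟦X⟧ (Fin r → L⟦X⟧) (X ^ u)) ⊔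
      LinearMap.range (LinearMap.lsmul L⟦X⟧ (Fin r → L⟦X⟧) (X ^ B))) ≤ colen M + u * r := by
  obtain ⟨hM, -⟩ := finColen_of_X_pow h
  set φ : (Fin r → L⟦X⟧) →ₗ[L⟦X⟧] (Fin r → L⟦X⟧) :=
    LinearMap.lsmul L⟦X⟧ (Fin r → L⟦X⟧) (X ^ u) with hφ
  have hφinj : Function.Injective φ := by
    intro a b hab
    have hab' : (X : L⟦X⟧) ^ u • a = (X : L⟦X⟧) ^ u • b := hab
    funext i
    have := congrFun hab' i
    simp only [Pi.smul_apply, smul_eq_mul] at this
    exact mul_left_cancel₀ (pow_ne_zero _ PowerSeries.X_ne_zero) this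
  have key : Module.length L⟦X⟧ ((Fin r → L⟦X⟧) ⧸ M.map φ) =
      Module.length L⟦X⟧ ((Fin r → L⟦X⟧) ⧸ M) +
        Module.length L⟦X⟧ ((Fin r → L⟦X⟧) ⧸ LinearMap.range φ) := by
    have hle : M.map φ ≤ LinearMap.range φ := LinearMap.map_le_range
    refine Module.length_eq_add_of_exact (Submodule.mapQ M (M.map φ) φ
      (Submodule.le_comap_map φ M)) (Submodule.factor hle) ?_ (Submodule.factor_surjective hle) ?_
    · rw [← LinearMap.ker_eq_bot, eq_bot_iff]
      intro x hx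
      obtain ⟨y, rfl⟩ := Submodule.mkQ_surjective _ x
      have hx' : (Submodule.Quotient.mk (φ y) : (Fin r → L⟦X⟧) ⧸ M.map φ) = 0 := hx
      rw [Submodule.Quotient.mk_eq_zero] at hx'
      obtain ⟨z, hz, hzy⟩ := hx'
      rw [Submodule.mem_bot]
      change (Submodule.Quotient.mk y : (Fin r → L⟦X⟧) ⧸ M) = 0
      rw [Submodule.Quotient.mk_eq_zero, ← hφinj hzy]
      exact hz
    · rw [LinearMap.exact_iff]
      ext x
      obtain ⟨y, rfl⟩ := Submodule.mkQ_surjective _ x
      constructor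
      · intro hx
        have hx' : (Submodule.Quotient.mk y : (Fin r → L⟦X⟧) ⧸ LinearMap.range φ) = 0 := hx
        rw [Submodule.Quotient.mk_eq_zero] at hx'
        obtain ⟨z, hz⟩ := hx'
        refine ⟨M.mkQ z, ?_⟩
        change (Submodule.Quotient.mk (φ z) : (Fin r → L⟦X⟧) ⧸ M.map φ) = _
        rw [hz]
        rfl
      · rintro ⟨z, hz⟩
        obtain ⟨w, rfl⟩ := Submodule.mkQ_surjective _ z
        rw [← hz]
        change (Submodule.Quotient.mk (φ w) : (Fin r → L⟦X⟧) ⧸ LinearMap.range φ) = 0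
        rw [Submodule.Quotient.mk_eq_zero]
        exact ⟨w, rfl⟩
  rw [hφ, Colen_length_X_pow (L := L) r u, ← hφ, ← Colen_coe hM] at key
  have key' : Module.length L⟦X⟧ ((Fin r → L⟦X⟧) ⧸ M.map φ) = ((colen M + u * r : ℕ) : ℕ∞) := by
    rw [key]; push_cast; rfl
  obtain ⟨h1, h2⟩ := Colen_eq_of key'
  rw [← h2]
  exact colen_anti le_sup_left h1

/-- Exactness: for submodules `Ξ` of a product `P × Q`, colength is additive along the
projection to `P`. -/
theorem colen_prod {Q : Type} [AddCommGroup Q] [Module L⟦X⟧ Q] {Ξ : Submodule L⟦X⟧ (P × Q)}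
    (h : FinColen Ξ) :
    FinColen (Ξ.map (LinearMap.fst L⟦X⟧ P Q)) ∧
    FinColen (Ξ.comap (LinearMap.inr L⟦X⟧ P Q)) ∧
    colen Ξ = colen (Ξ.map (LinearMap.fst L⟦X⟧ P Q)) +
      colen (Ξ.comap (LinearMap.inr L⟦X⟧ P Q)) := by
  have key : Module.length L⟦X⟧ ((P × Q) ⧸ Ξ) =
      Module.length L⟦X⟧ (Q ⧸ Ξ.comap (LinearMap.inr L⟦X⟧ P Q)) +
        Module.length L⟦X⟧ (P ⧸ Ξ.map (LinearMap.fst L⟦X⟧ P Q)) := by
    refine Module.length_eq_add_of_exact
      (Submodule.mapQ (Ξ.comap (LinearMap.inr L⟦X⟧ P Q)) Ξ (LinearMap.inr L⟦X⟧ P Q) le_rfl)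
      (Submodule.mapQ Ξ (Ξ.map (LinearMap.fst L⟦X⟧ P Q)) (LinearMap.fst L⟦X⟧ P Q)
        (Submodule.le_comap_map _ _)) ?_ ?_ ?_
    · rw [← LinearMap.ker_eq_bot, eq_bot_iff]
      intro x hx
      obtain ⟨y, rfl⟩ := Submodule.mkQ_surjective _ x
      have hx' : (Submodule.Quotient.mk (LinearMap.inr L⟦X⟧ P Q y) : (P × Q) ⧸ Ξ) = 0 := hx
      rw [Submodule.Quotient.mk_eq_zero] at hx'
      rw [Submodule.mem_bot]
      change (Submodule.Quotient.mk y : Q ⧸ Ξ.comap (LinearMap.inr L⟦X⟧ P Q)) = 0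
      rw [Submodule.Quotient.mk_eq_zero]
      exact hx'
    · intro x
      obtain ⟨y, rfl⟩ := Submodule.mkQ_surjective _ x
      exact ⟨Ξ.mkQ (y, 0), rfl⟩
    · rw [LinearMap.exact_iff]
      ext x
      obtain ⟨⟨p, q⟩, rfl⟩ := Submodule.mkQ_surjective _ x
      constructor
      · intro hx
        have hx' : (Submodule.Quotient.mk p : P ⧸ Ξ.map (LinearMap.fst L⟦X⟧ P Q)) = 0 := hx
        rw [Submodule.Quotient.mk_eq_zero] at hx'
        obtain ⟨⟨p', q'⟩, hz, hzp⟩ := hx'
        have hp : p' = p := hzp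
        subst hp
        refine ⟨Submodule.Quotient.mk (q - q'), ?_⟩
        change (Submodule.Quotient.mk (LinearMap.inr L⟦X⟧ P Q (q - q')) : (P × Q) ⧸ Ξ) =
          Submodule.Quotient.mk (p', q)
        rw [Submodule.Quotient.eq]
        have : (LinearMap.inr L⟦X⟧ P Q (q - q')) - (p', q) = -(p', q') := by
          ext <;> simp
        rw [this]
        exact Ξ.neg_mem hz
      · rintro ⟨z, hz⟩
        obtain ⟨w, rfl⟩ := Submodule.mkQ_surjective _ z
        rw [← hz]
        change (Submodule.Quotient.mk (0 : P) : P ⧸ Ξ.map (LinearMap.fst L⟦X⟧ P Q)) = 0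
        exact Submodule.Quotient.mk_zero _
  have h1 : FinColen (Ξ.map (LinearMap.fst L⟦X⟧ P Q)) := by
    intro h'
    apply h
    rw [key, h', add_top]
  have h2 : FinColen (Ξ.comap (LinearMap.inr L⟦X⟧ P Q)) := by
    intro h'
    apply h
    rw [key, h', top_add]
  refine ⟨h1, h2, ?_⟩
  rw [← Colen_coe h, ← Colen_coe h1, ← Colen_coe h2] at key
  rw [add_comm]
  exact_mod_cast key

end Pool.Agent.Lib_GD

end

/-! ### from `Lib_GD.HatLem` -/

section

/-! K01: the coefficientwise action of derivations. -/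

open PowerSeries

namespace Pool.Agent.Lib_GD

variable {L : Type} [Field L] [Algebra ℂ L]

theorem coeff_hat (δ : Derivation ℂ L L) (f : L⟦X⟧) (k : ℕ) :
    coeff k (hat δ f) = δ (coeff k f) := by
  rw [hat, PowerSeries.coeff_mk]

theorem hat_add (δ : Derivation ℂ L L) (f g : L⟦X⟧) : hat δ (f + g) = hat δ f + hat δ g := by
  ext k
  simp only [coeff_hat, map_add]

theorem hat_zero (δ : Derivation ℂ L L) : hat δ (0 : L⟦X⟧) = 0 := by
  ext k
  simp only [coeff_hat, map_zero]

theorem hat_mul (δ : Derivation ℂ L L) (f g : L⟦X⟧) :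
    hat δ (f * g) = f * hat δ g + hat δ f * g := by
  ext k
  rw [coeff_hat, PowerSeries.coeff_mul, map_add, PowerSeries.coeff_mul, PowerSeries.coeff_mul,
    map_sum, ← Finset.sum_add_distrib]
  refine Finset.sum_congr rfl fun p _ => ?_
  rw [Derivation.leibniz, coeff_hat, coeff_hat, smul_eq_mul, smul_eq_mul,
    mul_comm (δ (coeff p.1 f))]

theorem hat_sum (δ : Derivation ℂ L L) {ι : Type} (s : Finset ι) (f : ι → L⟦X⟧) :
    hat δ (∑ i ∈ s, f i) = ∑ i ∈ s, hat δ (f i) := by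
  classical
  induction s using Finset.induction_on with
  | empty => simp only [Finset.sum_empty, hat_zero]
  | insert a s ha ih => rw [Finset.sum_insert ha, Finset.sum_insert ha, hat_add, ih]

private theorem HatLem_X_pow (δ : Derivation ℂ L L) (k : ℕ) : hat δ ((X : L⟦X⟧) ^ k) = 0 := by
  ext m
  rw [coeff_hat, PowerSeries.coeff_X_pow, map_zero]
  split_ifs
  · exact Derivation.map_one_eq_zero δ
  · exact map_zero δ

theorem hat_X_pow_mul (δ : Derivation ℂ L L) (k : ℕ) (f : L⟦X⟧) :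
    hat δ (X ^ k * f) = X ^ k * hat δ f := by
  rw [hat_mul, HatLem_X_pow, zero_mul, add_zero]

theorem X_pow_dvd_hat (δ : Derivation ℂ L L) {k : ℕ} {f : L⟦X⟧} (h : (X : L⟦X⟧) ^ k ∣ f) :
    (X : L⟦X⟧) ^ k ∣ hat δ f := by
  obtain ⟨g, rfl⟩ := h
  rw [hat_X_pow_mul]
  exact dvd_mul_right _ _

theorem hat_add_der (δ δ' : Derivation ℂ L L) (f : L⟦X⟧) :
    hat (δ + δ') f = hat δ f + hat δ' f := by
  ext k
  simp only [coeff_hat, map_add, Derivation.add_apply]

theorem hat_smul_der (c : L) (δ : Derivation ℂ L L) (f : L⟦X⟧) :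
    hat (c • δ) f = C c * hat δ f := by
  ext k
  rw [coeff_hat, PowerSeries.coeff_C_mul, coeff_hat, Derivation.smul_apply, smul_eq_mul]

namespace ArcSystem

variable {n N : ℕ} (Γ : ArcSystem L n N)

theorem ev_apply (j : Fin N) (α : Fin n →₀ ℕ) (f : Fin N → L⟦X⟧) :
    Γ.ev j α f = ∑ i, Γ.u j α i * f i := rfl

/-- Transport law for `H(O)`. -/
theorem hat_ev (δ : Derivation ℂ L L) (hδ : δ ∈ Γ.𝒟) (j : Fin N) (α : Fin n →₀ ℕ)
    (f : Fin N → L⟦X⟧) :
    hat δ (Γ.ev j α f) = Γ.ev j α (fun i => hat δ (f i)) +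
      ∑ l, Γ.ξ δ j l * Γ.ev j (α + Finsupp.single l 1) f := by
  simp only [ev_apply, hat_sum, hat_mul, Finset.sum_add_distrib, Γ.transport δ hδ j α,
    Finset.sum_mul, Finset.mul_sum]
  congr 1
  rw [Finset.sum_comm]
  exact Finset.sum_congr rfl fun l _ => Finset.sum_congr rfl fun i _ => mul_assoc _ _ _

/-- The derivations killing the arcs in `S` kill the evaluations there. -/
theorem hat_ev_of_mem (S : Finset (Fin N)) (δ : Derivation ℂ L L) (hδ : δ ∈ Γ.Dker S)
    {i : Fin N} (hi : i ∈ S) (α : Fin n →₀ ℕ) (f : Fin N → L⟦X⟧) :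
    hat δ (Γ.ev i α f) = Γ.ev i α (fun k => hat δ (f k)) := by
  rw [Γ.hat_ev δ hδ.1, add_eq_left]
  refine Finset.sum_eq_zero fun l _ => ?_
  rw [hδ.2 i hi, Pi.zero_apply, zero_mul]

/-- `W_S` is stable. -/
theorem stable_W (S : Finset (Fin N)) : Γ.Stable S (Γ.W S) := by
  intro δ hδ f hf i hi
  rw [← Γ.hat_ev_of_mem S δ hδ hi, hf i hi, hat_zero]

/-- The disc lattices are stable. -/
theorem stable_Lam (B a : ℕ) (S : Finset (Fin N)) : Γ.Stable S (Γ.Lam B a S) := by
  intro δ hδ f hf i hi α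
  rw [← Γ.hat_ev_of_mem S δ hδ hi, ← hat_X_pow_mul]
  exact X_pow_dvd_hat δ (hf i hi α)

/-- The whole module is stable, sums, intersections, multiples by `X ^ k` of stable submodules
are stable. -/
theorem stable_top (S : Finset (Fin N)) : Γ.Stable S ⊤ := fun _ _ _ _ => Submodule.mem_top

theorem stable_sup {S : Finset (Fin N)} {M M' : Submodule L⟦X⟧ (Fin N → L⟦X⟧)}
    (h : Γ.Stable S M) (h' : Γ.Stable S M') : Γ.Stable S (M ⊔ M') := by
  intro δ hδ f hf
  obtain ⟨a, ha, b, hb, rfl⟩ := Submodule.mem_sup.1 hf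
  have h1 : (fun i => hat δ ((a + b) i)) = (fun i => hat δ (a i)) + fun i => hat δ (b i) := by
    funext i
    rw [Pi.add_apply, Pi.add_apply, hat_add]
  rw [h1]
  exact Submodule.add_mem_sup (h δ hδ a ha) (h' δ hδ b hb)

theorem stable_inf {S : Finset (Fin N)} {M M' : Submodule L⟦X⟧ (Fin N → L⟦X⟧)}
    (h : Γ.Stable S M) (h' : Γ.Stable S M') : Γ.Stable S (M ⊓ M') :=
  fun δ hδ f hf => ⟨h δ hδ f hf.1, h' δ hδ f hf.2⟩

/-- If `M` is stable so is `X ^ k M`. -/
theorem stable_map {S : Finset (Fin N)} {M : Submodule L⟦X⟧ (Fin N → L⟦X⟧)}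
    (h : Γ.Stable S M) (k : ℕ) :
    Γ.Stable S (M.map (LinearMap.lsmul L⟦X⟧ (Fin N → L⟦X⟧) (X ^ k))) := by
  intro δ hδ f hf
  obtain ⟨g, hg, rfl⟩ := Submodule.mem_map.1 hf
  refine Submodule.mem_map.2 ⟨fun i => hat δ (g i), h δ hδ g hg, ?_⟩
  funext i
  simp only [LinearMap.lsmul_apply, Pi.smul_apply, smul_eq_mul, hat_X_pow_mul]

end ArcSystem

end Pool.Agent.Lib_GD

end

/-! ### from `Lib_GD.Window` -/

section

/-! K09: the window lemma: stable sublattices of almost stable lattices. -/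

open PowerSeries

namespace Pool.Agent.Lib_GD

variable {L : Type} [Field L] [Algebra ℂ L]

/-- Stability of a lattice under a set `Δ` of derivations. -/
def StableD {N : ℕ} (Δ : Set (Derivation ℂ L L)) (M : Submodule L⟦X⟧ (Fin N → L⟦X⟧)) : Prop :=
  ∀ δ ∈ Δ, ∀ f ∈ M, (fun i => hat δ (f i)) ∈ M

section aux

variable {L : Type} [Field L] {N : ℕ}

/-- multiplication by `X ^ k` -/
private noncomputable abbrev Window_mul (L : Type) [Field L] (N k : ℕ) :
    (Fin N → L⟦X⟧) →ₗ[L⟦X⟧] (Fin N → L⟦X⟧) :=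
  LinearMap.lsmul L⟦X⟧ (Fin N → L⟦X⟧) (X ^ k)

private theorem Window_mul_apply (k : ℕ) (f : Fin N → L⟦X⟧) :
    Window_mul L N k f = (X : L⟦X⟧) ^ k • f := rfl

private theorem Window_mul_inj (k : ℕ) : Function.Injective (Window_mul L N k) := by
  intro f g h
  funext i
  have h1 : (X : L⟦X⟧) ^ k * f i = X ^ k * g i := congrFun h i
  exact mul_left_cancel₀ (pow_ne_zero k X_ne_zero) h1

private theorem Window_pow_add (a b : ℕ) (f : Fin N → L⟦X⟧) :
    (X : L⟦X⟧) ^ (a + b) • f = (X : L⟦X⟧) ^ a • (X : L⟦X⟧) ^ b • f := by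
  rw [pow_add, mul_smul]

/-- the colength of `X ^ k M` -/
private theorem Window_colen_map (k : ℕ) {M : Submodule L⟦X⟧ (Fin N → L⟦X⟧)} (hM : FinColen M) :
    FinColen (M.map (Window_mul L N k)) ∧
      colen (M.map (Window_mul L N k)) = colen M + k * N := by
  have hr : FinColen (LinearMap.range (Window_mul L N k)) :=
    (finColen_of_X_pow (B := k) fun f => LinearMap.mem_range.2 ⟨f, rfl⟩).1
  have hle : M.map (Window_mul L N k) ≤ LinearMap.range (Window_mul L N k) :=
    LinearMap.map_le_range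
  have key : Module.length L⟦X⟧ ((Fin N → L⟦X⟧) ⧸ M.map (Window_mul L N k)) =
      Module.length L⟦X⟧ ((Fin N → L⟦X⟧) ⧸ M) +
        Module.length L⟦X⟧ ((Fin N → L⟦X⟧) ⧸ LinearMap.range (Window_mul L N k)) := by
    refine Module.length_eq_add_of_exact
      (Submodule.mapQ M (M.map (Window_mul L N k)) (Window_mul L N k) (Submodule.le_comap_map _ _))
      (Submodule.mapQ _ _ LinearMap.id hle) ?_ ?_ ?_
    · rw [← LinearMap.ker_eq_bot, eq_bot_iff]
      intro x hx
      obtain ⟨f, rfl⟩ := Submodule.Quotient.mk_surjective _ x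
      rw [LinearMap.mem_ker, Submodule.mapQ_apply, Submodule.Quotient.mk_eq_zero] at hx
      obtain ⟨g, hg, hgf⟩ := Submodule.mem_map.1 hx
      have : g = f := Window_mul_inj k hgf
      rw [Submodule.mem_bot, Submodule.Quotient.mk_eq_zero, ← this]
      exact hg
    · intro x
      obtain ⟨f, rfl⟩ := Submodule.Quotient.mk_surjective _ x
      exact ⟨Submodule.Quotient.mk f, rfl⟩
    · intro x
      obtain ⟨f, rfl⟩ := Submodule.Quotient.mk_surjective _ x
      rw [Submodule.mapQ_apply, LinearMap.id_apply, Submodule.Quotient.mk_eq_zero]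
      constructor
      · rintro ⟨g, hg⟩
        exact ⟨Submodule.Quotient.mk g, by rw [Submodule.mapQ_apply, hg]⟩
      · rintro ⟨y, hy⟩
        obtain ⟨g, rfl⟩ := Submodule.Quotient.mk_surjective _ y
        rw [Submodule.mapQ_apply, Submodule.Quotient.eq] at hy
        have h1 : f = Window_mul L N k g - (Window_mul L N k g - f) := by abel
        rw [h1]
        exact Submodule.sub_mem _ ⟨g, rfl⟩ (hle hy)
  have hM' : Module.length L⟦X⟧ ((Fin N → L⟦X⟧) ⧸ M) ≠ ⊤ := hM
  have hr' : Module.length L⟦X⟧ ((Fin N → L⟦X⟧) ⧸ LinearMap.range (Window_mul L N k)) ≠ ⊤ := hr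
  constructor
  · unfold FinColen
    rw [key]
    exact WithTop.add_ne_top.2 ⟨hM', hr'⟩
  · have h1 : colen (LinearMap.range (Window_mul L N k)) = k * N := colen_X_pow N k
    rw [← h1]
    unfold colen
    rw [key, ENat.toNat_add hM' hr']

/-- equal colengths -/
private theorem Window_eq_of_colen {M M' : Submodule L⟦X⟧ (Fin N → L⟦X⟧)} (h : M ≤ M')
    (hM : FinColen M) (hc : colen M ≤ colen M') : M = M' := by
  by_contra hne
  have hlt : M < M' := lt_of_le_of_ne h hne
  have hM' : FinColen M' := finColen_mono h hM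
  have h1 : Module.length L⟦X⟧ ((Fin N → L⟦X⟧) ⧸ M') < Module.length L⟦X⟧ ((Fin N → L⟦X⟧) ⧸ M) := by
    rw [Module.length_quotient, Module.length_quotient]
    refine Order.coheight_strictAnti hlt ?_
    rw [← Module.length_quotient]
    exact lt_top_iff_ne_top.2 hM'
  have h2 : colen M' < colen M := by
    unfold colen
    have h3 : (Module.length L⟦X⟧ ((Fin N → L⟦X⟧) ⧸ M)) ≠ ⊤ := hM
    have h4 : (Module.length L⟦X⟧ ((Fin N → L⟦X⟧) ⧸ M')) ≠ ⊤ := hM'
    rw [← ENat.natCast_toNat h3, ← ENat.natCast_toNat h4] at h1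
    exact_mod_cast h1
  omega

/-- `Q ^ (u) = {f ∈ Λ : X ^ u f ∈ Q}` -/
private noncomputable def Window_Q (Λ Q : Submodule L⟦X⟧ (Fin N → L⟦X⟧)) (u : ℕ) :
    Submodule L⟦X⟧ (Fin N → L⟦X⟧) :=
  Λ ⊓ Q.comap (Window_mul L N u)

private theorem Window_mem {Λ Q : Submodule L⟦X⟧ (Fin N → L⟦X⟧)} {u : ℕ} {f : Fin N → L⟦X⟧} :
    f ∈ Window_Q Λ Q u ↔ f ∈ Λ ∧ (X : L⟦X⟧) ^ u • f ∈ Q := Iff.rfl

private theorem Window_mono {Λ Q : Submodule L⟦X⟧ (Fin N → L⟦X⟧)} {u v : ℕ} (h : u ≤ v) :
    Window_Q Λ Q u ≤ Window_Q Λ Q v := by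
  intro f hf
  obtain ⟨h1, h2⟩ := Window_mem.1 hf
  refine Window_mem.2 ⟨h1, ?_⟩
  obtain ⟨w, rfl⟩ := Nat.exists_eq_add_of_le h
  rw [add_comm, Window_pow_add]
  exact Q.smul_mem _ h2

private theorem Window_fin {Λ Q : Submodule L⟦X⟧ (Fin N → L⟦X⟧)} (hQΛ : Q ≤ Λ) (hQ : FinColen Q)
    (u : ℕ) : FinColen (Window_Q Λ Q u) := by
  refine finColen_mono ?_ hQ
  intro f hf
  exact Window_mem.2 ⟨hQΛ hf, Q.smul_mem _ hf⟩

/-- the modular law for `Q ^ (u)` and `X ^ k M` -/
private theorem Window_modular {Λ Q : Submodule L⟦X⟧ (Fin N → L⟦X⟧)} (hQΛ : Q ≤ Λ)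
    (hQ : FinColen Q) (u k : ℕ) {M : Submodule L⟦X⟧ (Fin N → L⟦X⟧)} (hM : M ≤ Λ)
    (hM' : Window_Q Λ Q (u + k) ≤ M) :
    colen (Window_Q Λ Q u ⊔ M.map (Window_mul L N k)) + colen (Window_Q Λ Q (u + k)) =
      colen (Window_Q Λ Q u) + colen M := by
  have hfM : FinColen M := finColen_mono hM' (Window_fin hQΛ hQ _)
  have h1 := colen_inf_add_colen_sup (Window_fin hQΛ hQ u) (Window_colen_map k hfM).1
  have h2 : Window_Q Λ Q u ⊓ M.map (Window_mul L N k) =
      (Window_Q Λ Q (u + k)).map (Window_mul L N k) := by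
    ext f
    constructor
    · rintro ⟨hf1, hf2⟩
      obtain ⟨g, hg, rfl⟩ := Submodule.mem_map.1 hf2
      refine Submodule.mem_map.2 ⟨g, Window_mem.2 ⟨hM hg, ?_⟩, rfl⟩
      have h3 := (Window_mem.1 hf1).2
      rw [Window_mul_apply, ← Window_pow_add] at h3
      exact h3
    · intro hf
      obtain ⟨g, hg, rfl⟩ := Submodule.mem_map.1 hf
      obtain ⟨hg1, hg2⟩ := Window_mem.1 hg
      refine ⟨Window_mem.2 ⟨Λ.smul_mem _ hg1, ?_⟩, Submodule.mem_map.2 ⟨g, hM' hg, rfl⟩⟩
      rw [Window_mul_apply, ← Window_pow_add]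
      exact hg2
  have h3 := h1.2
  rw [h2, (Window_colen_map k (Window_fin hQΛ hQ (u + k))).2, (Window_colen_map k hfM).2] at h3
  omega

private theorem Window_convex {Λ Q : Submodule L⟦X⟧ (Fin N → L⟦X⟧)} (hQΛ : Q ≤ Λ)
    (hQ : FinColen Q) (u : ℕ) :
    2 * colen (Window_Q Λ Q (u + 1)) ≤ colen (Window_Q Λ Q u) + colen (Window_Q Λ Q (u + 2)) ∧
    (colen (Window_Q Λ Q u) + colen (Window_Q Λ Q (u + 2)) ≤ 2 * colen (Window_Q Λ Q (u + 1)) →
      ∀ f ∈ Window_Q Λ Q (u + 1), ∃ a ∈ Window_Q Λ Q u, ∃ b ∈ Window_Q Λ Q (u + 2),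
        f = a + (X : L⟦X⟧) ^ 1 • b) := by
  have h1 := Window_modular hQΛ hQ u 1 (M := Window_Q Λ Q (u + 2)) inf_le_left
    (Window_mono (by omega))
  have hsub : Window_Q Λ Q u ⊔ (Window_Q Λ Q (u + 2)).map (Window_mul L N 1) ≤
      Window_Q Λ Q (u + 1) := by
    refine sup_le (Window_mono (by omega)) ?_
    intro f hf
    obtain ⟨g, hg, rfl⟩ := Submodule.mem_map.1 hf
    obtain ⟨hg1, hg2⟩ := Window_mem.1 hg
    refine Window_mem.2 ⟨Λ.smul_mem _ hg1, ?_⟩
    rw [Window_mul_apply, ← Window_pow_add]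
    exact hg2
  have hfin : FinColen (Window_Q Λ Q u ⊔ (Window_Q Λ Q (u + 2)).map (Window_mul L N 1)) :=
    finColen_mono le_sup_left (Window_fin hQΛ hQ u)
  have h2 := colen_anti hsub hfin
  refine ⟨by omega, ?_⟩
  intro h3 f hf
  have h4 := Window_eq_of_colen hsub hfin (by omega)
  rw [← h4] at hf
  obtain ⟨a, ha, b, hb, rfl⟩ := Submodule.mem_sup.1 hf
  obtain ⟨g, hg, rfl⟩ := Submodule.mem_map.1 hb
  exact ⟨a, ha, g, hg, rfl⟩

/-- in a window `Q ^ (u + j) ⊆ Q ^ (u) + X ^ k Q ^ (u + j + k)` -/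
private theorem Window_spread {Λ Q : Submodule L⟦X⟧ (Fin N → L⟦X⟧)} {u g : ℕ}
    (hE : ∀ i, i + 1 ≤ g → ∀ f ∈ Window_Q Λ Q (u + i + 1), ∃ a ∈ Window_Q Λ Q (u + i),
      ∃ b ∈ Window_Q Λ Q (u + i + 2), f = a + (X : L⟦X⟧) ^ 1 • b) :
    ∀ j k, j + k ≤ g + 1 → ∀ f ∈ Window_Q Λ Q (u + j), ∃ a ∈ Window_Q Λ Q u,
      ∃ b ∈ Window_Q Λ Q (u + j + k), f = a + (X : L⟦X⟧) ^ k • b := by
  intro j
  induction j with
  | zero =>
    intro k _ f hf
    exact ⟨f, hf, 0, Submodule.zero_mem _, by rw [smul_zero, add_zero]⟩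
  | succ j ihj =>
    intro k
    induction k with
    | zero =>
      intro _ f hf
      exact ⟨0, Submodule.zero_mem _, f, hf, by rw [pow_zero, one_smul, zero_add]⟩
    | succ k ihk =>
      intro hjk f hf
      obtain ⟨a, ha, b, hb, hfab⟩ := ihk (by omega) f hf
      have hb' : b ∈ Window_Q Λ Q (u + (j + k) + 1) := by
        have e : u + (j + 1) + k = u + (j + k) + 1 := by ring
        rw [← e]; exact hb
      obtain ⟨b0, hb0, b1, hb1, hbb⟩ := hE (j + k) (by omega) b hb'
      have hb0' : (X : L⟦X⟧) ^ k • b0 ∈ Window_Q Λ Q (u + j) := by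
        obtain ⟨h1, h2⟩ := Window_mem.1 hb0
        refine Window_mem.2 ⟨Λ.smul_mem _ h1, ?_⟩
        rw [← Window_pow_add]
        have e : u + j + k = u + (j + k) := by ring
        rw [e]; exact h2
      obtain ⟨a', ha', b2, hb2, he2⟩ := ihj (k + 1) (by omega) _ hb0'
      refine ⟨a + a', Submodule.add_mem _ ha ha', b1 + b2, Submodule.add_mem _ ?_ ?_, ?_⟩
      · have e : u + (j + 1) + (k + 1) = u + (j + k) + 2 := by ring
        rw [e]; exact hb1
      · exact Window_mono (by omega) hb2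
      · rw [hfab, hbb, smul_add, he2, ← Window_pow_add, smul_add]
        abel

/-- a convex decreasing sequence of naturals with a small total drop has a window -/
private theorem Window_exists (d : ℕ → ℕ) (hd : Antitone d)
    (hconv : ∀ u, 2 * d (u + 1) ≤ d u + d (u + 2)) (dΛ c u₁ P g : ℕ) (hlow : ∀ u, dΛ ≤ d u)
    (h0 : d 0 ≤ dΛ + c) (hu : 1 ≤ u₁) (hP : c ≤ P * u₁) :
    ∃ w ≤ P, d (u₁ + w * g) - d (u₁ + w * g + 1) = d (u₁ + (w + 1) * g) - d (u₁ + (w + 1) * g + 1) ∧
      d (u₁ + w * g) - d (u₁ + w * g + 1) ≤ P := by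
  set p : ℕ → ℕ := fun u => d u - d (u + 1) with hp
  have hpd : ∀ u, d u = d (u + 1) + p u := fun u => by
    have := hd (Nat.le_succ u)
    simp only [Nat.succ_eq_add_one] at this
    simp only [hp]
    omega
  have hpanti : Antitone p := by
    refine antitone_nat_of_succ_le ?_
    intro u
    have h1 := hpd u
    have h2 := hpd (u + 1)
    have h3 := hconv u
    simp only [add_assoc] at h2 h3 ⊢
    norm_num at h2 h3 ⊢
    omega
  have hsum : ∀ u, u * p u ≤ d 0 - d u := by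
    intro u
    induction u with
    | zero => simp
    | succ u ih =>
      have h1 : p (u + 1) ≤ p u := hpanti (Nat.le_succ u)
      have h2 := hpd u
      have h3 := hd (Nat.zero_le u)
      have h4 := hd (Nat.zero_le (u + 1))
      have h5 : (u + 1) * p (u + 1) ≤ (u + 1) * p u := Nat.mul_le_mul_left _ h1
      have h6 : (u + 1) * p u = u * p u + p u := by ring
      omega
  have hp1 : p u₁ ≤ P := by
    have h1 := hsum u₁
    have h2 := hlow u₁
    have h3 : u₁ * p u₁ ≤ u₁ * P := by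
      rw [mul_comm u₁ P]; omega
    exact Nat.le_of_mul_le_mul_left h3 (by omega)
  have hall : ∀ w, p (u₁ + w * g) ≤ P := fun w => (hpanti (Nat.le_add_right _ _)).trans hp1
  by_contra hcon
  push Not at hcon
  have hstrict : ∀ w, w ≤ P → p (u₁ + (w + 1) * g) < p (u₁ + w * g) := by
    intro w hw
    have h1 : p (u₁ + (w + 1) * g) ≤ p (u₁ + w * g) := hpanti (by
      have : (w + 1) * g = w * g + g := by ring
      omega)
    rcases h1.eq_or_lt with h2 | h2
    · exact absurd (hcon w hw h2.symm) (not_lt.2 (hall w))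
    · exact h2
  have hfin : ∀ w, w ≤ P + 1 → p (u₁ + w * g) + w ≤ P := by
    intro w
    induction w with
    | zero => intro _; simpa using hp1
    | succ w ih =>
      intro hw
      have h1 := ih (by omega)
      have h2 := hstrict w (by omega)
      omega
  have := hfin (P + 1) le_rfl
  omega

end aux

/-- K09a, one step. Let `Q ≤ Λ`, `Λ` stable, `X ^ h δ Q ⊆ Q`, `X ^ e Λ ⊆ Q`, length of `Λ/Q` at
most `c`, `u₁ ≥ 1`, `h < g` and `P ≥ c / u₁`. If `e > u₁ + (P + 1) g`, there is a stable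
`Λ' ≤ Λ` with `X ^ (e - (g - h)) Λ' ⊆ Q` and `colen Λ' ≤ colen Λ + (g - h) P`. -/
theorem window_step {N : ℕ} (Δ : Set (Derivation ℂ L L))
    (Λ Q : Submodule L⟦X⟧ (Fin N → L⟦X⟧)) (hQΛ : Q ≤ Λ) (hQ : FinColen Q) (hΛ : StableD Δ Λ)
    (h g e c u₁ P : ℕ) (hQs : ∀ δ ∈ Δ, ∀ f ∈ Q, (X : L⟦X⟧) ^ h • (fun i => hat δ (f i)) ∈ Q)
    (he : ∀ f ∈ Λ, (X : L⟦X⟧) ^ e • f ∈ Q) (hc : colen Q ≤ colen Λ + c) (hu : 1 ≤ u₁)
    (hP : c ≤ P * u₁) (hg : h < g) (he' : u₁ + (P + 1) * g ≤ e) :
    ∃ Λ' : Submodule L⟦X⟧ (Fin N → L⟦X⟧), Λ' ≤ Λ ∧ StableD Δ Λ' ∧ FinColen Λ' ∧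
      (∀ f ∈ Λ', (X : L⟦X⟧) ^ (e - (g - h)) • f ∈ Q) ∧
      colen Λ' ≤ colen Λ + (g - h) * P := by
  have hQ0 : Window_Q Λ Q 0 = Q := by
    ext f
    constructor
    · intro hf
      have := (Window_mem.1 hf).2
      rwa [pow_zero, one_smul] at this
    · intro hf
      exact Window_mem.2 ⟨hQΛ hf, by rw [pow_zero, one_smul]; exact hf⟩
  have hanti : Antitone fun u => colen (Window_Q Λ Q u) := fun u v huv =>
    colen_anti (Window_mono huv) (Window_fin hQΛ hQ u)
  obtain ⟨w, hw, hwin, hwP⟩ := Window_exists (fun u => colen (Window_Q Λ Q u)) hanti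
    (fun u => (Window_convex hQΛ hQ u).1) (colen Λ) c u₁ P g
    (fun u => colen_anti inf_le_left (Window_fin hQΛ hQ u)) (by simp only [hQ0]; exact hc) hu hP
  set u := u₁ + w * g with hu_def
  have hug : u₁ + (w + 1) * g = u + g := by rw [hu_def]; ring
  rw [hug] at hwin
  have hue : u + g ≤ e := by
    refine le_trans ?_ he'
    rw [← hug]
    have : (w + 1) * g ≤ (P + 1) * g := Nat.mul_le_mul_right _ (by omega)
    omega
  -- drops are constant in the window
  have hpa : ∀ v, colen (Window_Q Λ Q (v + 1)) - colen (Window_Q Λ Q (v + 2)) ≤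
      colen (Window_Q Λ Q v) - colen (Window_Q Λ Q (v + 1)) := by
    intro v
    have h1 := (Window_convex hQΛ hQ v).1
    have h2 := hanti (show v ≤ v + 1 by omega)
    have h3 := hanti (show v + 1 ≤ v + 2 by omega)
    simp only at h2 h3
    omega
  have hpanti : Antitone fun v => colen (Window_Q Λ Q v) - colen (Window_Q Λ Q (v + 1)) :=
    antitone_nat_of_succ_le hpa
  have hE : ∀ i, i + 1 ≤ g → ∀ f ∈ Window_Q Λ Q (u + i + 1), ∃ a ∈ Window_Q Λ Q (u + i),
      ∃ b ∈ Window_Q Λ Q (u + i + 2), f = a + (X : L⟦X⟧) ^ 1 • b := by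
    intro i hi
    refine (Window_convex hQΛ hQ (u + i)).2 ?_
    have h1 := hpanti (show u ≤ u + i by omega)
    have h2 := hpanti (show u + i + 1 ≤ u + g by omega)
    have h3 := hanti (show u + i ≤ u + i + 1 by omega)
    have h4 := hanti (show u + i + 1 ≤ u + i + 2 by omega)
    simp only at h1 h2 h3 h4
    have e1 : u + i + 1 + 1 = u + i + 2 := rfl
    rw [e1] at h2
    omega
  have hspread := Window_spread hE h (g - h) (by omega)
  set k := g - h with hk
  refine ⟨Window_Q Λ Q u ⊔ Λ.map (Window_mul L N k), ?_, ?_, ?_, ?_, ?_⟩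
  · refine sup_le inf_le_left ?_
    intro f hf
    obtain ⟨y, hy, rfl⟩ := Submodule.mem_map.1 hf
    exact Λ.smul_mem _ hy
  · intro δ hδ f hf
    obtain ⟨a, ha, b, hb, rfl⟩ := Submodule.mem_sup.1 hf
    obtain ⟨y, hy, rfl⟩ := Submodule.mem_map.1 hb
    have h1 : (fun i => hat δ ((a + Window_mul L N k y) i)) =
        (fun i => hat δ (a i)) + Window_mul L N k (fun i => hat δ (y i)) := by
      funext i
      have e1 : (a + Window_mul L N k y) i = a i + X ^ k * y i := rfl
      rw [e1, hat_add, hat_X_pow_mul]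
      rfl
    rw [h1]
    refine Submodule.add_mem _ ?_ (Submodule.mem_sup_right ⟨_, hΛ δ hδ y hy, rfl⟩)
    have h2 : (fun i => hat δ (a i)) ∈ Window_Q Λ Q (u + h) := by
      obtain ⟨ha1, ha2⟩ := Window_mem.1 ha
      refine Window_mem.2 ⟨hΛ δ hδ a ha1, ?_⟩
      have h3 := hQs δ hδ _ ha2
      have h4 : (fun i => hat δ (((X : L⟦X⟧) ^ u • a) i)) = (X : L⟦X⟧) ^ u • fun i => hat δ (a i) := by
        funext i
        exact hat_X_pow_mul δ u (a i)
      rw [h4, ← Window_pow_add, add_comm] at h3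
      exact h3
    obtain ⟨a', ha', b', hb', he2⟩ := hspread _ h2
    rw [he2]
    refine Submodule.add_mem _ (Submodule.mem_sup_left ha') (Submodule.mem_sup_right ⟨b', ?_, rfl⟩)
    exact (Window_mem.1 hb').1
  · exact finColen_mono le_sup_left (Window_fin hQΛ hQ u)
  · intro f hf
    obtain ⟨a, ha, b, hb, rfl⟩ := Submodule.mem_sup.1 hf
    obtain ⟨y, hy, rfl⟩ := Submodule.mem_map.1 hb
    rw [smul_add]
    refine Q.add_mem ?_ ?_
    · have h1 : e - k = (e - k - u) + u := by omega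
      rw [h1, Window_pow_add]
      exact Q.smul_mem _ (Window_mem.1 ha).2
    · rw [Window_mul_apply, ← Window_pow_add]
      have h1 : e - k + k = e := by omega
      rw [h1]
      exact he y hy
  · have h1 := Window_modular hQΛ hQ u k le_rfl (M := Λ) inf_le_left
    have h2 : ∀ i, colen (Window_Q Λ Q u) ≤ colen (Window_Q Λ Q (u + i)) + i * P := by
      intro i
      induction i with
      | zero => simp
      | succ i ih =>
        have h3 := hpanti (show u ≤ u + i by omega)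
        have h4 := hanti (show u + i ≤ u + i + 1 by omega)
        simp only at h3 h4
        have e1 : u + (i + 1) = u + i + 1 := rfl
        have e2 : (i + 1) * P = i * P + P := by ring
        rw [e1, e2]
        omega
    have h3 := h2 k
    omega

/-- K09b, iteration: there is a stable `Λ' ≤ Λ` with `X ^ (u₁ + (P + 1) g) Λ' ⊆ Q` and
`colen Λ' ≤ colen Λ + P (e + g)`. -/
theorem window {N : ℕ} (Δ : Set (Derivation ℂ L L))
    (Λ Q : Submodule L⟦X⟧ (Fin N → L⟦X⟧)) (hQΛ : Q ≤ Λ) (hQ : FinColen Q) (hΛ : StableD Δ Λ)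
    (h g e c u₁ P : ℕ) (hQs : ∀ δ ∈ Δ, ∀ f ∈ Q, (X : L⟦X⟧) ^ h • (fun i => hat δ (f i)) ∈ Q)
    (he : ∀ f ∈ Λ, (X : L⟦X⟧) ^ e • f ∈ Q) (hc : colen Q ≤ colen Λ + c) (hu : 1 ≤ u₁)
    (hP : c ≤ P * u₁) (hg : h < g) :
    ∃ Λ' : Submodule L⟦X⟧ (Fin N → L⟦X⟧), Λ' ≤ Λ ∧ StableD Δ Λ' ∧ FinColen Λ' ∧
      (∀ f ∈ Λ', (X : L⟦X⟧) ^ (u₁ + (P + 1) * g) • f ∈ Q) ∧
      colen Λ' ≤ colen Λ + P * (e + g) := by
  induction e using Nat.strong_induction_on generalizing Λ Q with
  | _ e ih =>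
    rcases Nat.lt_or_ge e (u₁ + (P + 1) * g) with hlt | hge
    · refine ⟨Λ, le_rfl, hΛ, finColen_mono hQΛ hQ, ?_, by omega⟩
      intro f hf
      have h1 : u₁ + (P + 1) * g = (u₁ + (P + 1) * g - e) + e := by omega
      rw [h1, Window_pow_add]
      exact Q.smul_mem _ (he f hf)
    · obtain ⟨Λ1, h1, h2, h3, h4, h5⟩ :=
        window_step Δ Λ Q hQΛ hQ hΛ h g e c u₁ P hQs he hc hu hP hg hge
      obtain ⟨hm1, hm2⟩ := colen_inf_add_colen_sup hQ h3
      have hsup : colen Λ ≤ colen (Q ⊔ Λ1) :=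
        colen_anti (sup_le hQΛ h1) (finColen_mono le_sup_left hQ)
      have hge' : g ≤ e := by
        have : g ≤ (P + 1) * g := Nat.le_mul_of_pos_left _ (by omega)
        omega
      obtain ⟨Λ2, k1, k2, k3, k4, k5⟩ := ih (e - (g - h)) (by omega) Λ1 (Q ⊓ Λ1) inf_le_right hm1 h2
        (by
          intro δ hδ f hf
          exact ⟨hQs δ hδ f hf.1, Λ1.smul_mem _ (h2 δ hδ f hf.2)⟩)
        (by
          intro f hf
          exact ⟨h4 f hf, Λ1.smul_mem _ hf⟩)
        (by omega)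
      refine ⟨Λ2, k1.trans h1, k2, k3, fun f hf => (k4 f hf).1, ?_⟩
      have e1 : e - (g - h) + g = e + g - (g - h) := by omega
      have e2 : (g - h) * P + P * (e + g - (g - h)) = P * (e + g) := by
        rw [mul_comm (g - h) P, ← mul_add]
        congr 1
        omega
      rw [e1] at k5
      omega

end Pool.Agent.Lib_GD

end

/-! ### from `Lib_GD.Rational` -/

section

/-! J01: stable lattices are defined over the constants. -/

open PowerSeries

namespace Pool.Agent.Lib_GD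

variable {L : Type} [Field L] [Algebra ℂ L]

/-- The constants of a set of derivations. -/
def consts (Δ : Set (Derivation ℂ L L)) : IntermediateField ℂ L where
  carrier := {c | ∀ δ ∈ Δ, δ c = 0}
  mul_mem' {a b} ha hb δ hδ := by simp [Derivation.leibniz, ha δ hδ, hb δ hδ]
  add_mem' {a b} ha hb δ hδ := by simp [ha δ hδ, hb δ hδ]
  algebraMap_mem' c δ _ := by simp
  inv_mem' a ha δ hδ := by simp [Derivation.leibniz_inv, ha δ hδ]

open scoped Classical in
/-- the support of a vector -/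
private noncomputable def Rational_supp {ι : Type} [Fintype ι] (v : ι → L) : Finset ι :=
  Finset.univ.filter fun i => v i ≠ 0

omit [Algebra ℂ L] in
private theorem Rational_mem_supp {ι : Type} [Fintype ι] (v : ι → L) (i : ι) :
    i ∈ Rational_supp v ↔ v i ≠ 0 := by
  classical
  simp [Rational_supp]

/-- a normalised vector of minimal support below a given vector has constant coordinates -/
private theorem Rational_min {ι : Type} [Fintype ι] (Δ : Set (Derivation ℂ L L))
    (U : Submodule L (ι → L)) (hU : ∀ δ ∈ Δ, ∀ v ∈ U, (fun i => δ (v i)) ∈ U)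
    (v : ι → L) (hv : v ∈ U) (hv0 : v ≠ 0) :
    ∃ u ∈ U, (∀ i, u i ∈ consts Δ) ∧ Rational_supp u ⊆ Rational_supp v ∧ ∃ i, u i = 1 := by
  classical
  have hex : ∃ n : ℕ, ∃ u ∈ U, u ≠ 0 ∧ Rational_supp u ⊆ Rational_supp v ∧ (Rational_supp u).card = n :=
    ⟨_, v, hv, hv0, Finset.Subset.refl _, rfl⟩
  obtain ⟨u, huU, hu0, hus, hun⟩ := Nat.find_spec hex
  have hmin : ∀ w ∈ U, w ≠ 0 → Rational_supp w ⊆ Rational_supp v →
      (Rational_supp u).card ≤ (Rational_supp w).card := by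
    intro w hw hw0 hws
    rw [hun]
    exact Nat.find_min' hex ⟨w, hw, hw0, hws, rfl⟩
  obtain ⟨i, hi⟩ : ∃ i, u i ≠ 0 := by
    by_contra hcon
    push Not at hcon
    exact hu0 (funext hcon)
  refine ⟨(u i)⁻¹ • u, U.smul_mem _ huU, ?_, ?_, i, ?_⟩
  · intro j δ hδ
    have h1 := hU δ hδ _ (U.smul_mem (u i)⁻¹ huU)
    have h2 : (fun j => δ (((u i)⁻¹ • u) j)) = 0 := by
      by_contra hne
      have h3 : Rational_supp (fun j => δ (((u i)⁻¹ • u) j)) ⊆ (Rational_supp u).erase i := by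
        intro j hj
        rw [Rational_mem_supp] at hj
        rw [Finset.mem_erase, Rational_mem_supp]
        refine ⟨?_, ?_⟩
        · rintro rfl
          apply hj
          simp only [Pi.smul_apply, smul_eq_mul]
          rw [inv_mul_cancel₀ hi]
          simp
        · intro h0
          apply hj
          simp only [Pi.smul_apply, smul_eq_mul]
          rw [h0]
          simp
      have h4 := hmin _ h1 hne (h3.trans ((Finset.erase_subset _ _).trans hus))
      have h5 := Finset.card_le_card h3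
      have h6 : i ∈ Rational_supp u := (Rational_mem_supp u i).2 hi
      have h7 := Finset.card_erase_lt_of_mem h6
      omega
    exact congrFun h2 j
  · intro j hj
    apply hus
    rw [Rational_mem_supp] at hj ⊢
    intro h0
    apply hj
    simp [h0]
  · simp [hi]

/-- J01a: a subspace of `L^p` stable under `Δ` is spanned by its vectors with constant
coordinates. -/
theorem span_consts {ι : Type} [Fintype ι] (Δ : Set (Derivation ℂ L L))
    (U : Submodule L (ι → L)) (hU : ∀ δ ∈ Δ, ∀ v ∈ U, (fun i => δ (v i)) ∈ U) :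
    Submodule.span L {v | v ∈ U ∧ ∀ i, v i ∈ consts Δ} = U := by
  classical
  apply le_antisymm
  · rw [Submodule.span_le]
    intro v hv
    exact hv.1
  · have key : ∀ n : ℕ, ∀ v ∈ U, (Rational_supp v).card = n →
        v ∈ Submodule.span L {v | v ∈ U ∧ ∀ i, v i ∈ consts Δ} := by
      intro n
      induction n using Nat.strong_induction_on with
      | _ n ih =>
        intro v hv hn
        by_cases hv0 : v = 0
        · rw [hv0]
          exact Submodule.zero_mem _
        · obtain ⟨u, huU, huc, hus, i, hi⟩ := Rational_min Δ U hU v hv hv0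
          have huS : u ∈ Submodule.span L {v | v ∈ U ∧ ∀ i, v i ∈ consts Δ} :=
            Submodule.subset_span ⟨huU, huc⟩
          have hiu : i ∈ Rational_supp u := by
            rw [Rational_mem_supp, hi]
            exact one_ne_zero
          have hiv : i ∈ Rational_supp v := hus hiu
          have h1 : v - v i • u ∈ U := U.sub_mem hv (U.smul_mem _ huU)
          have h2 : Rational_supp (v - v i • u) ⊆ (Rational_supp v).erase i := by
            intro j hj
            rw [Rational_mem_supp] at hj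
            rw [Finset.mem_erase]
            refine ⟨?_, ?_⟩
            · rintro rfl
              apply hj
              simp [hi]
            · by_contra hjv
              have h3 : v j = 0 := by
                by_contra h
                exact hjv ((Rational_mem_supp v j).2 h)
              have h4 : u j = 0 := by
                by_contra h
                exact hjv (hus ((Rational_mem_supp u j).2 h))
              apply hj
              simp [h3, h4]
          have h5 : (Rational_supp (v - v i • u)).card < n := by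
            have h6 := Finset.card_le_card h2
            have h7 := Finset.card_erase_lt_of_mem hiv
            omega
          have h8 := ih _ h5 _ h1 rfl
          have h9 : v = (v - v i • u) + v i • u := by
            rw [sub_add_cancel]
          rw [h9]
          exact Submodule.add_mem _ h8 (Submodule.smul_mem _ _ huS)
    intro v hv
    exact key _ v hv rfl


end Pool.Agent.Lib_GD

end

/-! ### from `Lib_KF.ChDefs` -/

section

/-!
# The chart of an arc: definitions

`k` is a field, `V` a `k`-algebra (a discrete valuation ring later), `s, u_l, w ∈ V`.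
`ev0 s u` and `ev1 s u w` evaluate polynomials in `s, u` and in `s, u, w`; the variable `none` of
`MvPolynomial (Option (Fin n)) k` is `s`, the variable `some l` is `u_l`.
-/

open PowerSeries

namespace Pool.Agent.Lib_KF

open Pool.Agent.Lib_GD

section

variable {k V : Type} [CommRing k] [CommRing V] [Algebra k V] {n : ℕ}

/-- evaluation of polynomials in `s, u` -/
noncomputable def ev0 (s : V) (u : Fin n → V) : MvPolynomial (Option (Fin n)) k →ₐ[k] V :=
  MvPolynomial.aeval (fun o => o.elim s u)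

/-- evaluation of polynomials in `s, u, w` -/
noncomputable def ev1 (s : V) (u : Fin n → V) (w : V) :
    Polynomial (MvPolynomial (Option (Fin n)) k) →+* V :=
  Polynomial.eval₂RingHom (ev0 (k := k) s u).toRingHom w

/-- `V` is a localisation of `k[s, u][w]/(F)`, `F` monic in `w`, with `F'(w)` invertible. -/
structure EtaleCoord (k V : Type) [CommRing k] [CommRing V] [Algebra k V] {n : ℕ} (s : V)
    (u : Fin n → V) (w : V) (F : Polynomial (MvPolynomial (Option (Fin n)) k)) : Prop where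
  monic : F.Monic
  root : ev1 s u w F = 0
  unit : IsUnit (ev1 s u w (Polynomial.derivative F))
  dvd : ∀ H : Polynomial (MvPolynomial (Option (Fin n)) k), ev1 s u w H = 0 → F ∣ H
  frac : ∀ v : V, ∃ q₁ q₂ : Polynomial (MvPolynomial (Option (Fin n)) k),
    IsUnit (ev1 s u w q₂) ∧ v * ev1 s u w q₂ = ev1 s u w q₁

/-- Dual derivations: `D l` is `∂/∂u_l` at fixed `s`; every derivation killing `s` is a
combination. -/
structure DualDer (k V : Type) [CommRing k] [CommRing V] [Algebra k V] {n : ℕ} (s : V)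
    (u : Fin n → V) (D : Fin n → Derivation k V V) : Prop where
  der_s : ∀ l, D l s = 0
  der_u : ∀ l j, D l (u j) = if l = j then 1 else 0
  chain : ∀ (M : Type) [AddCommGroup M] [Module k M] [Module V M] [IsScalarTower k V M]
    (d : Derivation k V M), d s = 0 → ∀ v, d v = ∑ l, D l v • d (u l)

end

section

variable {k L : Type} [Field k] [Field L] [Algebra k L]

/-- The fractions `a / b`, `a, b ∈ A`, which are power series. -/
def fracRing (A : Subalgebra k L⟦X⟧) : Subalgebra k L⟦X⟧ where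
  carrier := {f | ∃ a ∈ A, ∃ b ∈ A, b ≠ 0 ∧ f * b = a}
  mul_mem' := by
    rintro f g ⟨a, ha, b, hb, hb0, h⟩ ⟨a', ha', b', hb', hb0', h'⟩
    exact ⟨a * a', A.mul_mem ha ha', b * b', A.mul_mem hb hb', mul_ne_zero hb0 hb0', by
      rw [← h, ← h']; ring⟩
  add_mem' := by
    rintro f g ⟨a, ha, b, hb, hb0, h⟩ ⟨a', ha', b', hb', hb0', h'⟩
    exact ⟨a * b' + a' * b, A.add_mem (A.mul_mem ha hb') (A.mul_mem ha' hb), b * b',
      A.mul_mem hb hb', mul_ne_zero hb0 hb0', by rw [← h, ← h']; ring⟩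
  algebraMap_mem' c := ⟨algebraMap k L⟦X⟧ c, A.algebraMap_mem c, 1, A.one_mem, one_ne_zero,
    mul_one _⟩

theorem le_fracRing (A : Subalgebra k L⟦X⟧) : A ≤ fracRing A := fun a ha =>
  ⟨a, ha, 1, A.one_mem, one_ne_zero, mul_one _⟩

/-- `X` and the `y_l` generate a subring of `L⟦X⟧`. -/
noncomputable def polyRing (k : Type) [Field k] [Algebra k L] {n : ℕ} (y : Fin n → L⟦X⟧) :
    Subalgebra k L⟦X⟧ :=
  Algebra.adjoin k (insert (X : L⟦X⟧) (Set.range y))

end

end Pool.Agent.Lib_KF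

end

/-! ### from `Lib_GD.GeomDefs` -/

section

/-!
# Charts of a polarised smooth variety

A chart is an affine open subset `Spec B` of `X = Proj R` with coordinates `y_1, …, y_n` (so that
`Ω_B` is free on the `dy_l`) and a trivialisation of `O(1)`; `ρ : R → B` is dehomogenisation.
-/

open PowerSeries

namespace Pool.Agent.Lib_GD

/-- A chart. -/
structure Chart {R : Type} [CommRing R] [Algebra ℂ R] (𝒜 : ℕ → Submodule ℂ R) (n : ℕ) where
  B : Type
  [commRing : CommRing B]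
  [isDomain : IsDomain B]
  [algebra : Algebra ℂ B]
  [finiteType : Algebra.FiniteType ℂ B]
  [smooth : Algebra.FormallySmooth ℂ B]
  /-- dehomogenisation -/
  ρ : R →ₐ[ℂ] B
  F : R
  d : ℕ
  hd : 0 < d
  hF : F ∈ 𝒜 d
  unit : IsUnit (ρ F)
  inj : ∀ m, ∀ s ∈ 𝒜 m, ρ s = 0 → s = 0
  surj : ∀ b, ∃ k, ∃ s ∈ 𝒜 (d * k), b * ρ F ^ k = ρ s
  e : ℕ
  T : R
  hT : T ∈ 𝒜 (d * e + 1)
  ρT : ρ T = ρ F ^ e
  /-- coordinates -/
  y : Fin n → B
  /-- dual derivations -/
  der : Fin n → Derivation ℂ B B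
  der_y : ∀ l k, der l (y k) = if l = k then 1 else 0
  gen : ∀ b, KaehlerDifferential.D ℂ B b =
    ∑ l, der l b • KaehlerDifferential.D ℂ B (y l)

attribute [instance] Chart.commRing Chart.isDomain Chart.algebra Chart.finiteType Chart.smooth

variable {R : Type} [CommRing R] [Algebra ℂ R] {𝒜 : ℕ → Submodule ℂ R} {n N : ℕ}

/-- The iterated derivation `∂^α`. -/
noncomputable def Chart.dd (c : Chart 𝒜 n) (α : Fin n →₀ ℕ) : Module.End ℂ c.B :=
  ((List.finRange n).map fun l => ((c.der l : c.B →ₗ[ℂ] c.B) : Module.End ℂ c.B) ^ (α l)).prod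

/-- A finite family of charts covering `X`. -/
structure Atlas {R : Type} [CommRing R] [Algebra ℂ R] (𝒜 : ℕ → Submodule ℂ R) (n : ℕ) where
  r : ℕ
  chart : Fin r → Chart 𝒜 n
  cover : ∀ p : Ideal R, p.IsPrime → (∃ d > 0, ∃ f ∈ 𝒜 d, f ∉ p) →
    ∃ k, (chart k).F ∉ p ∧ (chart k).T ∉ p

end Pool.Agent.Lib_GD

end

/-! ### from `Lib_GD.AtlasEx` -/

section

/-! G04: existence of an atlas. -/

open KaehlerDifferential

namespace Pool.Agent.Lib_GD

open scoped IntermediateField.algebraAdjoinAdjoin in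
/-- the rank of the differentials of a finitely generated field is its transcendence degree -/
private theorem atlasEx_rank_field (L : Type) [Field L] [Algebra ℂ L] [Algebra.EssFiniteType ℂ L] :
    Module.rank L (Ω[L⁄ℂ]) = Algebra.trdeg ℂ L := by
  obtain ⟨s, hs, hsep⟩ := exists_isTranscendenceBasis_and_isSeparable_of_perfectField ℂ L
  set v : s → L := fun x => (x : L) with hv
  have hrange : (s : Set L) = Set.range v := by simp [hv]
  rw [hrange] at hsep
  have hb : AlgebraicIndependent ℂ v := hs.1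
  let A' := Algebra.adjoin ℂ (Set.range v)
  let K := IntermediateField.adjoin ℂ (Set.range v)
  let i1 : Algebra (MvPolynomial s ℂ) A' :=
    (hb.aevalEquiv : MvPolynomial s ℂ →+* A').toAlgebra
  have i2 : IsScalarTower ℂ (MvPolynomial s ℂ) A' :=
    .of_algebraMap_eq fun x => by
      change _ = hb.aevalEquiv (algebraMap ℂ (MvPolynomial s ℂ) x)
      rw [AlgEquiv.commutes]
  have i3 : Algebra.FormallyEtale (MvPolynomial s ℂ) A' :=
    Algebra.FormallyEtale.of_equiv
      (AlgEquiv.ofBijective (Algebra.ofId (MvPolynomial s ℂ) A') hb.aevalEquiv.bijective)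
  have i4 : Algebra.FormallyEtale A' K := .of_isLocalization (nonZeroDivisors _)
  have i5 : Algebra.FormallyEtale K L := Algebra.FormallyEtale.of_isSeparable _ L
  have i6 : Algebra.FormallyEtale A' L := .comp A' K L
  let b0 : Module.Basis s A' (Ω[A'⁄ℂ]) :=
    ((KaehlerDifferential.mvPolynomialBasis ℂ s).baseChange A').map
      (KaehlerDifferential.tensorKaehlerEquivOfFormallyEtale ℂ (MvPolynomial s ℂ) A')
  let b1 : Module.Basis s L (Ω[L⁄ℂ]) :=
    (b0.baseChange L).map (KaehlerDifferential.tensorKaehlerEquivOfFormallyEtale ℂ A' L)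
  rw [← b1.mk_eq_rank'', ← hs.cardinalMk_eq_trdeg]

/-- the number of elements of a basis of the differentials is the transcendence degree -/
private theorem atlasEx_card (B : Type) [CommRing B] [IsDomain B] [Algebra ℂ B]
    [Algebra.EssFiniteType ℂ B] {I : Type} (b : Module.Basis I B (Ω[B⁄ℂ])) :
    Cardinal.mk I = Algebra.trdeg ℂ B := by
  let L := FractionRing B
  have i0 : Algebra.EssFiniteType B L := Algebra.EssFiniteType.of_isLocalization L (nonZeroDivisors B)
  have i1 : Algebra.EssFiniteType ℂ L := .comp ℂ B L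
  have i2 : Algebra.FormallyEtale B L := .of_isLocalization (nonZeroDivisors B)
  let b1 : Module.Basis I L (Ω[L⁄ℂ]) :=
    (b.baseChange L).map (KaehlerDifferential.tensorKaehlerEquivOfFormallyEtale ℂ B L)
  have h1 := atlasEx_rank_field L
  rw [← b1.mk_eq_rank''] at h1
  rw [h1]
  have h2 := trdeg_add_eq ℂ B (A := L)
  have h3 : Algebra.trdeg B L = 0 := by
    rw [trdeg_eq_zero_iff]
    exact IsLocalization.isAlgebraic L (nonZeroDivisors B)
  rw [h3, add_zero] at h2
  exact h2.symm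

variable {R : Type} [CommRing R] [Algebra ℂ R] {𝒜 : ℕ → Submodule ℂ R} [GradedAlgebra 𝒜] {n : ℕ}

/-- homomorphisms out of a graded algebra -/
private theorem atlasEx_hom {B : Type} [CommRing B] [Algebra ℂ B] (f : ∀ m, 𝒜 m →ₗ[ℂ] B)
    (h1 : f 0 ⟨1, SetLike.one_mem_graded 𝒜⟩ = 1)
    (hmul : ∀ i j (a : 𝒜 i) (b : 𝒜 j), f (i + j) ⟨a * b, SetLike.mul_mem_graded a.2 b.2⟩ =
      f i a * f j b) :
    ∃ φ : R →ₐ[ℂ] B, ∀ m (s : 𝒜 m), φ s = f m s := by
  classical
  refine ⟨(DirectSum.toAlgebra ℂ (fun i => 𝒜 i) f h1 (fun {i j} a b => hmul i j a b)).comp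
    (DirectSum.decomposeAlgEquiv 𝒜 : R →ₐ[ℂ] _), fun m s => ?_⟩
  rw [AlgHom.comp_apply]
  have h2 : (DirectSum.decomposeAlgEquiv 𝒜 : R →ₐ[ℂ] _) (s : R) = DirectSum.of (fun i => 𝒜 i) m s := by
    change DirectSum.decompose 𝒜 (s : R) = _
    exact DirectSum.decompose_coe 𝒜 s
  rw [h2]
  exact DirectSum.toAddMonoid_of (fun i => (f i).toAddMonoidHom) m s

/-- the data of an open set on which `O(1)` is trivial -/
private structure AtlasExPre (𝒜 : ℕ → Submodule ℂ R) (p : Ideal R) (f g : R) (d : ℕ) where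
  B : Type
  [commRing : CommRing B]
  [isDomain : IsDomain B]
  [algebra : Algebra ℂ B]
  [smooth : Algebra.Smooth ℂ B]
  ρ : R →ₐ[ℂ] B
  unit : IsUnit (ρ f)
  eq : ρ f = ρ g
  inj : ∀ m, ∀ s ∈ 𝒜 m, ρ s = 0 → s = 0
  surj : ∀ b, ∃ k, ∃ s ∈ 𝒜 ((d + (d + 1)) * k), b * ρ (f * g) ^ k = ρ s
  q : Ideal B
  prime : q.IsPrime
  mem : ∀ m, ∀ s ∈ 𝒜 m, s ∈ p → ρ s ∈ q

private theorem atlasEx_pre (h : IsSmoothPolarised 𝒜 n) (p : Ideal R) (hp : p.IsPrime)
    (f g : R) (d : ℕ) (hf : f ∈ 𝒜 d) (hg : g ∈ 𝒜 (d + 1)) (hfp : f ∉ p) (hgp : g ∉ p) :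
    Nonempty (AtlasExPre 𝒜 p f g d) := by
  classical
  have hdom : IsDomain R := h.domain
  have hf0 : f ≠ 0 := fun h0 => hfp (h0 ▸ p.zero_mem)
  have hg0 : g ≠ 0 := fun h0 => hgp (h0 ▸ p.zero_mem)
  have hF0 : f * g ∈ 𝒜 (d + (d + 1)) := SetLike.mul_mem_graded hf hg
  have hFne : f * g ≠ 0 := mul_ne_zero hf0 hg0
  let B0 := HomogeneousLocalization.Away 𝒜 (f * g)
  let S := Localization.Away (f * g)
  have hSdom : IsDomain S := IsLocalization.isDomain_localization
    (powers_le_nonZeroDivisors_of_noZeroDivisors hFne)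
  have hSinj : Function.Injective (algebraMap R S) :=
    IsLocalization.injective S (powers_le_nonZeroDivisors_of_noZeroDivisors hFne)
  have hBdom : IsDomain B0 := Function.Injective.isDomain (algebraMap B0 S)
    (HomogeneousLocalization.val_injective _)
  have hFu : IsUnit (algebraMap R S (f * g)) := IsLocalization.Away.algebraMap_isUnit (f * g)
  -- the algebra structure
  let iC : Algebra ℂ B0 :=
    { (inferInstance : SMul ℂ B0) with
      algebraMap := (algebraMap (𝒜 0) B0).comp (algebraMap ℂ (𝒜 0))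
      commutes' := fun c x => mul_comm _ _
      smul_def' := fun c x => by
        apply HomogeneousLocalization.val_injective
        rw [HomogeneousLocalization.val_mul, HomogeneousLocalization.val_smul]
        rw [Algebra.smul_def]
        rfl }
  have iT : @IsScalarTower ℂ (𝒜 0) B0 Algebra.toSMul Algebra.toSMul Algebra.toSMul :=
    IsScalarTower.of_algebraMap_eq fun x => rfl
  have hbij : Function.Bijective (algebraMap ℂ (𝒜 0)) := by
    constructor
    · intro x y hxy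
      have h1 : algebraMap ℂ R x = algebraMap ℂ R y := congrArg Subtype.val hxy
      exact (algebraMap ℂ R).injective h1
    · rintro ⟨x, hx⟩
      have hx' := hx
      rw [h.connected] at hx'
      obtain ⟨c, hc⟩ := Algebra.mem_bot.1 hx'
      exact ⟨c, Subtype.ext hc⟩
  have hsm0 : Algebra.Smooth ℂ (𝒜 0) := Algebra.Smooth.of_equiv
    (AlgEquiv.ofBijective (Algebra.ofId ℂ (𝒜 0)) hbij)
  have hsm1 : Algebra.Smooth (𝒜 0) B0 := h.smooth _ (by omega) _ hF0 hFne
  have hsm : Algebra.Smooth ℂ B0 := Algebra.Smooth.comp ℂ (𝒜 0) B0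
  -- the homomorphism
  have hdeg : ∀ m, ∀ s ∈ 𝒜 m, s * f ^ (2 * m) ∈ 𝒜 (m • (d + (d + 1))) := by
    intro m s hs
    have h1 : f ^ (2 * m) ∈ 𝒜 ((2 * m) • d) := SetLike.pow_mem_graded _ hf
    have h2 := SetLike.mul_mem_graded hs h1
    have h3 : m + (2 * m) • d = m • (d + (d + 1)) := by
      simp only [smul_eq_mul]; ring
    rwa [h3] at h2
  have hmk : ∀ (k : ℕ) (a : R) (z : S), algebraMap R S a = z * algebraMap R S (f * g) ^ k →
      (Localization.mk a ⟨(f * g) ^ k, ⟨k, rfl⟩⟩ : S) = z := by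
    intro k a z hz
    rw [Localization.mk_eq_mk', IsLocalization.mk'_eq_iff_eq_mul]
    rw [hz, map_pow]
  have hmk' : ∀ (k : ℕ) (a : R), (Localization.mk a ⟨(f * g) ^ k, ⟨k, rfl⟩⟩ : S) *
      algebraMap R S (f * g) ^ k = algebraMap R S a := by
    intro k a
    rw [Localization.mk_eq_mk', ← map_pow]
    exact IsLocalization.mk'_spec S a (⟨(f * g) ^ k, ⟨k, rfl⟩⟩ : Submonoid.powers (f * g))
  obtain ⟨θ, hθ⟩ : ∃ θ : S, algebraMap R S g * θ = algebraMap R S f := by
    refine ⟨IsLocalization.mk' S (f ^ 2) (⟨f * g, 1, pow_one _⟩ : Submonoid.powers (f * g)), ?_⟩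
    have h1 := IsLocalization.mk'_spec' S (f ^ 2) (⟨f * g, 1, pow_one _⟩ : Submonoid.powers (f * g))
    have h2 : algebraMap R S f ≠ 0 := fun h0 => hf0 (hSinj (by rw [h0, map_zero]))
    apply mul_left_cancel₀ h2
    rw [← mul_assoc, ← map_mul, ← map_mul, ← pow_two]
    exact h1
  have hθF : algebraMap R S (f * g) * θ = algebraMap R S f ^ 2 := by
    rw [map_mul, mul_assoc, hθ, pow_two]
  have hlin : ∀ m (s : R) (hs : s ∈ 𝒜 m),
      (HomogeneousLocalization.Away.mk 𝒜 hF0 m (s * f ^ (2 * m)) (hdeg m s hs)).val =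
        algebraMap R S s * θ ^ m := by
    intro m s hs
    rw [HomogeneousLocalization.Away.val_mk]
    apply hmk
    rw [mul_assoc, ← mul_pow, mul_comm θ, hθF, ← pow_mul, map_mul, map_pow]
  let lin : ∀ m, 𝒜 m →ₗ[ℂ] B0 := fun m =>
    { toFun := fun s => HomogeneousLocalization.Away.mk 𝒜 hF0 m (s * f ^ (2 * m)) (hdeg m s s.2)
      map_add' := fun a b => by
        apply HomogeneousLocalization.val_injective
        rw [HomogeneousLocalization.val_add, hlin m _ a.2, hlin m _ b.2, hlin m _ (a + b).2]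
        rw [Submodule.coe_add, map_add, add_mul]
      map_smul' := fun c a => by
        apply HomogeneousLocalization.val_injective
        rw [RingHom.id_apply]
        have h1 : (c • (HomogeneousLocalization.Away.mk 𝒜 hF0 m (a * f ^ (2 * m))
            (hdeg m a a.2))).val = c • (HomogeneousLocalization.Away.mk 𝒜 hF0 m (a * f ^ (2 * m))
            (hdeg m a a.2)).val := HomogeneousLocalization.val_smul _ _ _
        rw [h1, hlin m _ a.2, hlin m _ (c • a).2]
        rw [Submodule.coe_smul, Algebra.smul_def, map_mul, Algebra.smul_def,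
          IsScalarTower.algebraMap_apply ℂ R S, mul_assoc] }
  have hval : ∀ m (s : 𝒜 m), (lin m s).val = algebraMap R S s * θ ^ m := fun m s => hlin m s s.2
  obtain ⟨ρ, hρ⟩ := atlasEx_hom (𝒜 := 𝒜) lin
    (by
      apply HomogeneousLocalization.val_injective
      rw [hval, HomogeneousLocalization.val_one, pow_zero, mul_one, map_one])
    (fun i j a b => by
      apply HomogeneousLocalization.val_injective
      rw [HomogeneousLocalization.val_mul, hval, hval, hval, map_mul, pow_add]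
      ring)
  have hρ' : ∀ m, ∀ s ∈ 𝒜 m, (ρ s).val = algebraMap R S s * θ ^ m := fun m s hs => by
    rw [hρ m ⟨s, hs⟩, hval]
  have hθ0 : θ ≠ 0 := by
    rintro rfl
    rw [mul_zero] at hθ
    exact hf0 (hSinj (by rw [← hθ, map_zero]))
  have hFFu : IsUnit (algebraMap R S (f * g)) := hFu
  have hfg : ρ f = ρ g := by
    apply HomogeneousLocalization.val_injective
    rw [hρ' _ _ hf, hρ' _ _ hg, ← hθ, pow_succ]
    ring
  -- the ideal
  let K := FractionRing (R ⧸ p)
  have hpu : IsUnit (algebraMap R K (f * g)) := by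
    rw [isUnit_iff_ne_zero, IsScalarTower.algebraMap_apply R (R ⧸ p) K]
    rw [Ne, FaithfulSMul.algebraMap_eq_zero_iff]
    rw [Ideal.Quotient.algebraMap_eq, Ideal.Quotient.eq_zero_iff_mem]
    exact fun hmem => (hp.mem_or_mem hmem).elim hfp hgp
  let ψ : S →+* K := IsLocalization.Away.lift (f * g) hpu
  have hψ : ∀ s, ψ (algebraMap R S s) = algebraMap R K s := fun s =>
    IsLocalization.Away.lift_eq (f * g) hpu s
  exact ⟨{
    B := B0
    ρ := ρ
    unit := by
      have h1 : g ^ (2 * d + 1) ∈ 𝒜 ((d + 1) • (d + (d + 1))) := by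
        have := SetLike.pow_mem_graded (A := 𝒜) (2 * d + 1) hg
        have h3 : (2 * d + 1) • (d + 1) = (d + 1) • (d + (d + 1)) := by
          simp only [smul_eq_mul]; ring
        rwa [h3] at this
      apply IsUnit.of_mul_eq_one
        (HomogeneousLocalization.Away.mk 𝒜 hF0 (d + 1) (g ^ (2 * d + 1)) h1)
      apply HomogeneousLocalization.val_injective
      rw [HomogeneousLocalization.val_mul, HomogeneousLocalization.val_one, hρ' _ _ hf,
        HomogeneousLocalization.Away.val_mk]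
      apply (hFFu.pow (d + 1)).mul_right_cancel
      rw [mul_assoc, hmk', one_mul, map_mul, mul_pow, map_pow]
      have h4 : algebraMap R S g ^ d * θ ^ d = algebraMap R S f ^ d := by
        rw [← mul_pow, hθ]
      calc algebraMap R S f * θ ^ d * algebraMap R S g ^ (2 * d + 1)
          = algebraMap R S f * (algebraMap R S g ^ d * θ ^ d) * algebraMap R S g ^ (d + 1) := by
            ring
        _ = algebraMap R S f ^ (d + 1) * algebraMap R S g ^ (d + 1) := by rw [h4]; ring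
    eq := hfg
    inj := fun m s hs h0 => by
      have h1 := hρ' m s hs
      rw [h0, HomogeneousLocalization.val_zero] at h1
      have h2 : algebraMap R S s = 0 := by
        rcases mul_eq_zero.1 h1.symm with h3 | h3
        · exact h3
        · exact absurd h3 (pow_ne_zero _ hθ0)
      exact hSinj (by rw [h2, map_zero])
    surj := fun b => by
      obtain ⟨k, a, ha, rfl⟩ := HomogeneousLocalization.Away.mk_surjective 𝒜 hF0 b
      have ha' : a ∈ 𝒜 ((d + (d + 1)) * k) := by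
        rwa [smul_eq_mul, mul_comm] at ha
      refine ⟨k, a, ha', ?_⟩
      apply HomogeneousLocalization.val_injective
      rw [HomogeneousLocalization.val_mul, HomogeneousLocalization.val_pow, hρ' _ _ hF0,
        hρ' _ _ ha', HomogeneousLocalization.Away.val_mk, mul_pow (algebraMap R S (f * g)),
        ← mul_assoc, hmk', ← pow_mul]
    q := RingHom.ker (ψ.comp (algebraMap B0 S))
    prime := RingHom.ker_isPrime _
    mem := fun m s hs hsp => by
      rw [RingHom.mem_ker, RingHom.comp_apply]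
      have h1 : algebraMap B0 S (ρ s) = algebraMap R S s * θ ^ m := hρ' m s hs
      rw [h1, map_mul, hψ]
      have h2 : algebraMap R K s = 0 := by
        rw [IsScalarTower.algebraMap_apply R (R ⧸ p) K]
        rw [Ideal.Quotient.algebraMap_eq, Ideal.Quotient.eq_zero_iff_mem.2 hsp, map_zero]
      rw [h2, zero_mul] }⟩

/-- a homomorphism which is injective on the graded pieces and multiplies them with the powers of
a variable -/
private theorem atlasEx_poly {B : Type} [CommRing B] [Algebra ℂ B] (ρ : R →ₐ[ℂ] B) :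
    ∃ φ : R →ₐ[ℂ] Polynomial B, ∀ m, ∀ s ∈ 𝒜 m, φ s = Polynomial.monomial m (ρ s) := by
  obtain ⟨φ, hφ⟩ := atlasEx_hom (𝒜 := 𝒜) (B := Polynomial B)
    (fun m => ((Polynomial.monomial m).restrictScalars ℂ).comp
      ((ρ : R →ₗ[ℂ] B).comp (𝒜 m).subtype))
    (by simp) (fun i j a b => by simp [Polynomial.monomial_mul_monomial])
  exact ⟨φ, fun m s hs => by rw [hφ m ⟨s, hs⟩]; simp⟩

private theorem atlasEx_trdeg {B : Type} [CommRing B] [IsDomain B] [IsDomain R] [Algebra ℂ B]
    (ρ : R →ₐ[ℂ] B) (F : R) (d : ℕ) (hF : F ∈ 𝒜 d) (hF0 : F ≠ 0)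
    (inj : ∀ m, ∀ s ∈ 𝒜 m, ρ s = 0 → s = 0)
    (surj : ∀ b, ∃ k, ∃ s ∈ 𝒜 (d * k), b * ρ F ^ k = ρ s)
    (e : ℕ) (T : R) (hT : T ∈ 𝒜 (d * e + 1)) (ρT : ρ T = ρ F ^ e) :
    Algebra.trdeg ℂ R = Algebra.trdeg ℂ B + 1 := by
  classical
  obtain ⟨φ, hφ⟩ := atlasEx_poly (𝒜 := 𝒜) ρ
  have hinj : Function.Injective φ := by
    rw [injective_iff_map_eq_zero]
    intro s hs
    have h1 : ∀ m, (DirectSum.decompose 𝒜 s m : R) = 0 := by
      intro m
      refine inj m _ (DirectSum.decompose 𝒜 s m).2 ?_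
      have h2 : φ s = ∑ i ∈ (DirectSum.decompose 𝒜 s).support,
          Polynomial.monomial i (ρ (DirectSum.decompose 𝒜 s i : R)) := by
        conv_lhs => rw [← DirectSum.sum_support_decompose 𝒜 s]
        rw [map_sum]
        exact Finset.sum_congr rfl fun i _ => hφ i _ (DirectSum.decompose 𝒜 s i).2
      have h3 : (φ s).coeff m = ρ (DirectSum.decompose 𝒜 s m : R) := by
        rw [h2, Polynomial.finsetSum_coeff]
        rw [Finset.sum_eq_single m]
        · simp
        · intro b _ hb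
          simp [Polynomial.coeff_monomial, hb]
        · intro hm
          have : DirectSum.decompose 𝒜 s m = 0 := by
            simpa using hm
          simp [this]
      rw [← h3, hs]
      simp
    rw [← DirectSum.sum_support_decompose 𝒜 s]
    exact Finset.sum_eq_zero fun i _ => h1 i
  let i1 : Algebra R (Polynomial B) := (φ : R →+* Polynomial B).toAlgebra
  have hmap : ∀ r, algebraMap R (Polynomial B) r = φ r := fun r => rfl
  have i2 : IsScalarTower ℂ R (Polynomial B) :=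
    .of_algebraMap_eq fun x => by
      rw [hmap, AlgHom.commutes]
  have hFpow : ∀ k, F ^ k ∈ 𝒜 (d * k) := fun k => by
    have := SetLike.pow_mem_graded (A := 𝒜) k hF
    rwa [smul_eq_mul, mul_comm] at this
  have hφF : ∀ k, φ (F ^ k) = Polynomial.monomial (d * k) (ρ F ^ k) := fun k => by
    rw [hφ _ _ (hFpow k), map_pow]
  have key : ∀ (r s : R) (z : Polynomial B), r ≠ 0 → φ r * z = φ s → IsAlgebraic R z := by
    intro r s z hr h
    refine ⟨Polynomial.C r * Polynomial.X - Polynomial.C s, ?_, ?_⟩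
    · intro h0
      have := congrArg (fun p => Polynomial.coeff p 1) h0
      simp only [Polynomial.coeff_sub, Polynomial.coeff_C_mul, Polynomial.coeff_X_one, mul_one,
        Polynomial.coeff_zero] at this
      rw [Polynomial.coeff_C_of_ne_zero (by norm_num), sub_zero] at this
      exact hr this
    · simp only [map_sub, map_mul, Polynomial.aeval_C, Polynomial.aeval_X, hmap]
      rw [h, sub_self]
  have hC : ∀ b : B, IsAlgebraic R (Polynomial.C b) := by
    intro b
    obtain ⟨k, s, hs, hbs⟩ := surj b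
    refine key (F ^ k) s _ (pow_ne_zero _ hF0) ?_
    rw [hφF, hφ _ _ hs, ← hbs, Polynomial.monomial_mul_C, mul_comm b]
  have hX : IsAlgebraic R (Polynomial.X : Polynomial B) := by
    refine key (F ^ e) T _ (pow_ne_zero _ hF0) ?_
    rw [hφF, hφ _ _ hT, ρT, Polynomial.monomial_mul_X]
  have hinj' : Function.Injective (algebraMap R (Polynomial B)) := hinj
  have i3 : FaithfulSMul R (Polynomial B) := (faithfulSMul_iff_algebraMap_injective _ _).2 hinj'
  have i4 : Algebra.IsAlgebraic R (Polynomial B) := by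
    refine ⟨fun p => ?_⟩
    induction p using Polynomial.induction_on with
    | C a => exact hC a
    | add p q hp hq => exact hp.add hq
    | monomial k a h => 
      rw [pow_succ, ← mul_assoc]
      exact h.mul hX
  have i5 : FaithfulSMul ℂ R := (faithfulSMul_iff_algebraMap_injective _ _).2
    (algebraMap ℂ R).injective
  have i6 : FaithfulSMul ℂ B := (faithfulSMul_iff_algebraMap_injective _ _).2
    (algebraMap ℂ B).injective
  have h1 := trdeg_add_eq ℂ R (A := Polynomial B)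
  have h2 := trdeg_add_eq ℂ B (A := Polynomial B)
  rw [trdeg_eq_zero_iff.2 i4, add_zero] at h1
  rw [Polynomial.trdeg_of_isDomain] at h2
  rw [h1, h2]

/-- G04a: around every point of `X` there is a chart. -/
theorem exists_chart (h : IsSmoothPolarised 𝒜 n) (hn : 1 ≤ n) (p : Ideal R) (hp : p.IsPrime)
    (hp' : ∃ d > 0, ∃ f ∈ 𝒜 d, f ∉ p) : ∃ c : Chart 𝒜 n, c.F ∉ p ∧ c.T ∉ p := by
  classical
  have hdom : IsDomain R := h.domain
  obtain ⟨d, f, hf, g, hg, hfp, hgp⟩ := h.line p hp hp'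
  obtain ⟨P⟩ := atlasEx_pre h p hp f g d hf hg hfp hgp
  obtain ⟨B0, ρ0, hu, hfg, inj, surj, q, hq, hmem⟩ := P
  have hf0 : f ≠ 0 := fun h0 => hfp (h0 ▸ p.zero_mem)
  have hg0 : g ≠ 0 := fun h0 => hgp (h0 ▸ p.zero_mem)
  have hfgd : f * g ∈ 𝒜 (d + (d + 1)) := SetLike.mul_mem_graded hf hg
  obtain ⟨b0, hb0, hstd⟩ := Algebra.IsSmoothAt.exists_notMem_isStandardSmooth ℂ q
  obtain ⟨k, a, ha, hab⟩ := surj b0
  have hb00 : b0 ≠ 0 := fun h0 => hb0 (h0 ▸ q.zero_mem)
  have hu2 : IsUnit (ρ0 (f * g)) := by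
    rw [map_mul, ← hfg]; exact hu.mul hu
  have hap : a ∉ p := by
    intro hap
    have h1 := hmem _ a ha hap
    rw [← hab] at h1
    rcases hq.mem_or_mem h1 with h2 | h2
    · exact hb0 h2
    · exact hq.ne_top (Ideal.eq_top_of_isUnit_mem _ h2 (hu2.pow k))
  have ha0 : a ≠ 0 := fun h0 => hap (h0 ▸ p.zero_mem)
  obtain ⟨I, b, hb⟩ := (Algebra.IsStandardSmooth.iff_exists_basis_kaehlerDifferential.1 hstd).2
  let B := Localization.Away b0
  have hBdom : IsDomain B := IsLocalization.isDomain_localization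
    (powers_le_nonZeroDivisors_of_noZeroDivisors hb00)
  have hBinj : Function.Injective (algebraMap B0 B) :=
    IsLocalization.injective B (powers_le_nonZeroDivisors_of_noZeroDivisors hb00)
  have hbu : IsUnit (algebraMap B0 B b0) := IsLocalization.Away.algebraMap_isUnit b0
  let ρ : R →ₐ[ℂ] B := (Algebra.algHom ℂ B0 B).comp ρ0
  have hρ : ∀ s, ρ s = algebraMap B0 B (ρ0 s) := fun s => rfl
  have hF : f * g * a ∈ 𝒜 ((d + (d + 1)) * (k + 1)) := by
    have h1 := SetLike.mul_mem_graded hfgd ha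
    have h2 : d + (d + 1) + (d + (d + 1)) * k = (d + (d + 1)) * (k + 1) := by ring
    rwa [h2] at h1
  have hT : g * g * a ∈ 𝒜 ((d + (d + 1)) * (k + 1) * 1 + 1) := by
    have h1 := SetLike.mul_mem_graded (SetLike.mul_mem_graded hg hg) ha
    have h2 : d + 1 + (d + 1) + (d + (d + 1)) * k = (d + (d + 1)) * (k + 1) * 1 + 1 := by ring
    rwa [h2] at h1
  have hρT : ρ (g * g * a) = ρ (f * g * a) ^ 1 := by
    simp only [hρ, map_mul, hfg, pow_one]
  have hF0 : f * g * a ≠ 0 := mul_ne_zero (mul_ne_zero hf0 hg0) ha0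
  have hρF : ρ (f * g * a) = algebraMap B0 B b0 * algebraMap B0 B (ρ0 (f * g)) ^ (k + 1) := by
    rw [hρ, map_mul ρ0 (f * g) a, ← hab, map_mul (algebraMap B0 B), map_mul (algebraMap B0 B),
      map_pow (algebraMap B0 B)]
    ring
  have hunit : IsUnit (ρ (f * g * a)) := by
    rw [hρF]
    exact hbu.mul ((hu2.map (algebraMap B0 B)).pow _)
  have hinj : ∀ m, ∀ s ∈ 𝒜 m, ρ s = 0 → s = 0 := fun m s hs h0 =>
    inj m s hs (hBinj (by rw [← hρ, h0, map_zero]))
  have hsurj : ∀ z : B, ∃ K, ∃ s ∈ 𝒜 ((d + (d + 1)) * (k + 1) * K),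
      z * ρ (f * g * a) ^ K = ρ s := by
    intro z
    obtain ⟨j, c, hc⟩ := IsLocalization.Away.surj b0 z
    obtain ⟨i, a', ha', hca'⟩ := surj c
    refine ⟨i + j, a' * a ^ i * (f * g) ^ ((k + 1) * j), ?_, ?_⟩
    · have h1 := SetLike.mul_mem_graded (SetLike.mul_mem_graded ha' (SetLike.pow_mem_graded i ha))
        (SetLike.pow_mem_graded ((k + 1) * j) hfgd)
      have h2 : (d + (d + 1)) * i + i • ((d + (d + 1)) * k) + ((k + 1) * j) • (d + (d + 1)) =
          (d + (d + 1)) * (k + 1) * (i + j) := by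
        simp only [smul_eq_mul]; ring
      rwa [h2] at h1
    · have h3 : ρ (a' * a ^ i * (f * g) ^ ((k + 1) * j)) =
          (z * algebraMap B0 B b0 ^ j * algebraMap B0 B (ρ0 (f * g)) ^ i) *
          (algebraMap B0 B b0 * algebraMap B0 B (ρ0 (f * g)) ^ k) ^ i *
            algebraMap B0 B (ρ0 (f * g)) ^ ((k + 1) * j) := by
        rw [hc, ← map_pow, ← map_mul, hca']
        rw [← map_pow (algebraMap B0 B) (ρ0 (f * g)) k, ← map_mul, hab]
        rw [hρ, map_mul, map_mul, map_mul, map_mul, map_pow, map_pow, map_pow, map_pow]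
      rw [h3, hρF]
      ring
  have htr := atlasEx_trdeg ρ (f * g * a) _ hF hF0 hinj hsurj 1 _ hT hρT
  rw [h.dim] at htr
  have hI : Cardinal.mk I = (n : Cardinal) := by
    rw [atlasEx_card B b]
    exact (Cardinal.add_one_inj.1 htr).symm
  obtain ⟨e⟩ := Cardinal.mk_eq_nat_iff.1 hI
  let b' : Module.Basis (Fin n) B (Ω[B⁄ℂ]) := b.reindex e
  have hb' : ∀ l, ∃ y : B, D ℂ B y = b' l := fun l => by
    obtain ⟨y, hy⟩ := hb ⟨e.symm l, rfl⟩
    exact ⟨y, by rw [hy, Module.Basis.reindex_apply]⟩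
  choose y hy using hb'
  refine ⟨{
    B := B
    ρ := ρ
    F := f * g * a
    d := (d + (d + 1)) * (k + 1)
    hd := by positivity
    hF := hF
    unit := hunit
    inj := hinj
    surj := hsurj
    e := 1
    T := g * g * a
    hT := hT
    ρT := hρT
    y := y
    der := fun l => (b'.coord l).compDer (D ℂ B)
    der_y := fun l k => by
      change b'.coord l (D ℂ B (y k)) = _
      rw [hy, Module.Basis.coord_apply, Module.Basis.repr_self, Finsupp.single_apply]
      simp only [eq_comm]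
    gen := fun z => by
      simp only [hy]
      exact (b'.sum_repr (D ℂ B z)).symm }, ?_, ?_⟩
  · exact fun hmem' => (hp.mem_or_mem hmem').elim (fun h1 => (hp.mem_or_mem h1).elim hfp hgp) hap
  · exact fun hmem' => (hp.mem_or_mem hmem').elim (fun h1 => (hp.mem_or_mem h1).elim hgp hgp) hap

/-- G04b: an atlas exists. -/
theorem exists_atlas (h : IsSmoothPolarised 𝒜 n) (hn : 1 ≤ n) : Nonempty (Atlas 𝒜 n) := by
  classical
  have hft : Algebra.FiniteType ℂ R := h.finiteType
  have hnoeth : IsNoetherianRing R := Algebra.FiniteType.isNoetherianRing ℂ R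
  let Q := {p : Ideal R // p.IsPrime ∧ ∃ d > 0, ∃ f ∈ 𝒜 d, f ∉ p}
  have hc : ∀ p : Q, ∃ c : Chart 𝒜 n, c.F ∉ p.1 ∧ c.T ∉ p.1 := fun p =>
    exists_chart h hn p.1 p.2.1 p.2.2
  choose c hcF hcT using hc
  have hfg : (Submodule.span R (Set.range fun p : Q => (c p).F * (c p).T)).FG :=
    IsNoetherian.noetherian _
  obtain ⟨t, ht, hspan⟩ := (Submodule.fg_span_iff_fg_span_finset_subset _).1 hfg
  choose g hg using fun x : t => ht x.2
  refine ⟨{
    r := t.card
    chart := fun i => c (g (t.equivFin.symm i))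
    cover := fun p hp hp' => ?_ }⟩
  by_contra hcon
  push Not at hcon
  have h1 : Submodule.span R (t : Set R) ≤ (p : Submodule R R) := by
    rw [Submodule.span_le]
    intro x hx
    have h2 := hcon (t.equivFin ⟨x, hx⟩)
    simp only [Equiv.symm_apply_apply] at h2
    have h3 := hg ⟨x, hx⟩
    simp only at h3
    rw [SetLike.mem_coe, ← h3]
    by_cases h4 : (c (g ⟨x, hx⟩)).F ∈ p
    · exact Ideal.mul_mem_right _ _ h4
    · exact Ideal.mul_mem_left _ _ (h2 h4)
  have h5 : (c ⟨p, hp, hp'⟩).F * (c ⟨p, hp, hp'⟩).T ∈ Submodule.span R (t : Set R) := by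
    rw [← hspan]
    exact Submodule.subset_span ⟨⟨p, hp, hp'⟩, rfl⟩
  rcases hp.mem_or_mem (h1 h5) with h6 | h6
  · exact hcF ⟨p, hp, hp'⟩ h6
  · exact hcT ⟨p, hp, hp'⟩ h6

end Pool.Agent.Lib_GD

end

/-! ### from `Lib_GD.Cost` -/

section

/-! K03: the chain rule for costs. -/

open PowerSeries

namespace Pool.Agent.Lib_GD.ArcSystem

variable {L : Type} [Field L] [Algebra ℂ L] {n N : ℕ} (Γ : ArcSystem L n N)

private theorem Cost_single {j : Fin N} {S : Finset (Fin N)} (hj : j ∉ S) {v : Fin n → L⟦X⟧}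
    (h : (Pi.single j v : Fin N → Fin n → L⟦X⟧) ∈ Γ.Ξ) : v ∈ Γ.Xirel j S := by
  refine Submodule.mem_map.2 ⟨Pi.single j v, ⟨h, fun i hi => ?_⟩, ?_⟩
  · exact Pi.single_eq_of_ne (ne_of_mem_of_not_mem hi hj) _
  · exact Pi.single_eq_same _ _

theorem finColen_Xirel (j : Fin N) (S : Finset (Fin N)) (hj : j ∉ S) :
    FinColen (Γ.Xirel j S) := by
  refine (finColen_of_X_pow (B := colen Γ.Ξ) fun f => ?_).1
  apply Γ.Cost_single hj
  rw [Pi.single_smul']
  exact X_pow_smul_mem Γ.fin_Ξ le_rfl _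

/-- `X ^ a(j|S) O^n ⊆ Ξ_{j|S}`. -/
theorem X_pow_cost_smul_mem (j : Fin N) (S : Finset (Fin N)) (hj : j ∉ S) (v : Fin n → L⟦X⟧) :
    (X : L⟦X⟧) ^ (Γ.cost j S) • v ∈ Γ.Xirel j S :=
  X_pow_smul_mem (Γ.finColen_Xirel j S hj) le_rfl v

/-- Elements of `Ξ_{j|S}` are the `ξ δ j`, `δ` killing the arcs in `S`. -/
theorem mem_Xirel (j : Fin N) (S : Finset (Fin N)) (v : Fin n → L⟦X⟧) :
    v ∈ Γ.Xirel j S ↔ ∃ δ ∈ Γ.Dker S, Γ.ξ δ j = v := by
  constructor
  · rintro ⟨w, ⟨hw, hw0⟩, rfl⟩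
    obtain ⟨δ, hδ, rfl⟩ := (Γ.mem_Ξ w).1 hw
    exact ⟨δ, ⟨hδ, hw0⟩, rfl⟩
  · rintro ⟨δ, ⟨hδ, h0⟩, rfl⟩
    exact Submodule.mem_map.2 ⟨Γ.ξ δ, ⟨(Γ.mem_Ξ _).2 ⟨δ, hδ, rfl⟩, h0⟩, rfl⟩

theorem cost_mono (S T : Finset (Fin N)) (j : Fin N) (h : S ⊆ T) (hj : j ∉ T) :
    Γ.cost j S ≤ Γ.cost j T := by
  refine colen_anti ?_ (Γ.finColen_Xirel j T hj)
  rintro v ⟨w, ⟨hw, hw0⟩, rfl⟩
  exact Submodule.mem_map.2 ⟨w, ⟨hw, fun i hi => hw0 i (h hi)⟩, rfl⟩

/-- the elements vanishing at the arcs in `S` -/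
private def Cost_T (L : Type) [Field L] (n : ℕ) {N : ℕ} (S : Finset (Fin N)) :
    Submodule L⟦X⟧ (Fin N → Fin n → L⟦X⟧) where
  carrier := {w | ∀ i ∈ S, w i = 0}
  add_mem' {a b} ha hb i hi := by simp [ha i hi, hb i hi]
  zero_mem' _ _ := rfl
  smul_mem' c a ha i hi := by simp [ha i hi]

private theorem Cost_step (j : Fin N) (S S' : Finset (Fin N)) (hj : j ∉ S)
    (hS : ∀ i, i ∈ S' ↔ i ∈ S ∨ i = j) :
    Module.length L⟦X⟧ ((Fin N → Fin n → L⟦X⟧) ⧸ (Γ.Ξ ⊔ Cost_T L n S')) =
      Module.length L⟦X⟧ ((Fin n → L⟦X⟧) ⧸ Γ.Xirel j S) +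
        Module.length L⟦X⟧ ((Fin N → Fin n → L⟦X⟧) ⧸ (Γ.Ξ ⊔ Cost_T L n S)) := by
  classical
  let V := Fin N → Fin n → L⟦X⟧
  let sg : (Fin n → L⟦X⟧) →ₗ[L⟦X⟧] V := LinearMap.single L⟦X⟧ (fun _ => Fin n → L⟦X⟧) j
  have hsg : ∀ v, sg v = Pi.single j v := fun _ => rfl
  have key : ∀ v, sg v ∈ Γ.Ξ ⊔ Cost_T L n S' ↔ v ∈ Γ.Xirel j S := by
    intro v
    constructor
    · intro h
      obtain ⟨w, hw, t, ht, hwt⟩ := Submodule.mem_sup.1 h
      have ht' : ∀ i ∈ S', t i = 0 := ht
      refine Submodule.mem_map.2 ⟨w, ⟨hw, fun i hi => ?_⟩, ?_⟩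
      · have h1 := congrFun hwt i
        rw [Pi.add_apply, ht' i ((hS i).2 (Or.inl hi)), add_zero, hsg,
          Pi.single_eq_of_ne (ne_of_mem_of_not_mem hi hj)] at h1
        exact h1
      · have h1 := congrFun hwt j
        rw [Pi.add_apply, ht' j ((hS j).2 (Or.inr rfl)), add_zero, hsg, Pi.single_eq_same] at h1
        exact h1
    · rintro ⟨w, ⟨hw, hw0⟩, rfl⟩
      have h1 : sg (w j) = w + (sg (w j) - w) := by abel
      change sg (w j) ∈ _
      rw [h1]
      refine Submodule.add_mem_sup hw ?_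
      change ∀ i ∈ S', (sg (w j) - w) i = 0
      intro i hi
      rw [Pi.sub_apply, hsg]
      rcases (hS i).1 hi with h2 | h2
      · rw [Pi.single_eq_of_ne (ne_of_mem_of_not_mem h2 hj), hw0 i h2, sub_zero]
      · subst h2
        rw [Pi.single_eq_same, sub_self]
  have hle : Γ.Ξ ⊔ Cost_T L n S' ≤ Γ.Ξ ⊔ Cost_T L n S := by
    refine sup_le_sup_left ?_ _
    intro w hw i hi
    exact hw i ((hS i).2 (Or.inl hi))
  let f : ((Fin n → L⟦X⟧) ⧸ Γ.Xirel j S) →ₗ[L⟦X⟧] (V ⧸ (Γ.Ξ ⊔ Cost_T L n S')) :=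
    Submodule.mapQ _ _ sg (fun v hv => (key v).2 hv)
  let g : (V ⧸ (Γ.Ξ ⊔ Cost_T L n S')) →ₗ[L⟦X⟧] (V ⧸ (Γ.Ξ ⊔ Cost_T L n S)) :=
    Submodule.mapQ _ _ LinearMap.id (fun v hv => hle hv)
  have hf : Function.Injective f := by
    rw [← LinearMap.ker_eq_bot, Submodule.ker_mapQ]
    refine (Submodule.eq_bot_iff _).2 ?_
    rintro x ⟨v, hv, rfl⟩
    rw [Submodule.mkQ_apply, Submodule.Quotient.mk_eq_zero]
    exact (key v).1 hv
  have hg : Function.Surjective g := by
    intro x
    obtain ⟨v, rfl⟩ := Submodule.Quotient.mk_surjective _ x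
    exact ⟨Submodule.Quotient.mk v, rfl⟩
  have hfg : Function.Exact f g := by
    intro x
    constructor
    · intro hx
      obtain ⟨v, rfl⟩ := Submodule.Quotient.mk_surjective _ x
      have h1 : v ∈ Γ.Ξ ⊔ Cost_T L n S := by
        rw [← Submodule.Quotient.mk_eq_zero]
        exact hx
      obtain ⟨w, hw, t, ht, rfl⟩ := Submodule.mem_sup.1 h1
      have ht' : ∀ i ∈ S, t i = 0 := ht
      refine ⟨Submodule.Quotient.mk (t j), ?_⟩
      change Submodule.Quotient.mk (sg (t j)) = _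
      rw [Submodule.Quotient.eq]
      have h2 : sg (t j) - (w + t) = -w + (sg (t j) - t) := by abel
      rw [h2]
      refine Submodule.add_mem_sup (neg_mem hw) ?_
      change ∀ i ∈ S', (sg (t j) - t) i = 0
      intro i hi
      rw [Pi.sub_apply, hsg]
      rcases (hS i).1 hi with h3 | h3
      · rw [Pi.single_eq_of_ne (ne_of_mem_of_not_mem h3 hj), ht' i h3, sub_zero]
      · subst h3
        rw [Pi.single_eq_same, sub_self]
    · rintro ⟨y, rfl⟩
      obtain ⟨v, rfl⟩ := Submodule.Quotient.mk_surjective _ y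
      change (Submodule.Quotient.mk (sg v) : V ⧸ (Γ.Ξ ⊔ Cost_T L n S)) = 0
      rw [Submodule.Quotient.mk_eq_zero]
      refine Submodule.mem_sup_right ?_
      change ∀ i ∈ S, (sg v) i = 0
      intro i hi
      rw [hsg]
      exact Pi.single_eq_of_ne (ne_of_mem_of_not_mem hi hj) _
  exact Module.length_eq_add_of_exact f g hf hg hfg

/-- The chain rule: the costs along any order add up to the colength of `Ξ`. -/
theorem cost_sum (σ : Equiv.Perm (Fin N)) :
    ∑ k, Γ.cost (σ k) ((Finset.Iio k).map σ.toEmbedding) = Γ.A := by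
  classical
  let S : ℕ → Finset (Fin N) := fun k =>
    (Finset.univ.filter fun i : Fin N => i.val < k).map σ.toEmbedding
  have hSmem : ∀ k i, i ∈ S k ↔ (σ.symm i).val < k := by
    intro k i
    simp only [S, Finset.mem_map, Finset.mem_filter, Finset.mem_univ, true_and,
      Equiv.coe_toEmbedding]
    constructor
    · rintro ⟨a, ha, rfl⟩
      rw [σ.symm_apply_apply]
      exact ha
    · intro h
      exact ⟨σ.symm i, h, σ.apply_symm_apply i⟩
  have hSk : ∀ k : Fin N, S k.val = (Finset.Iio k).map σ.toEmbedding := by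
    intro k
    simp only [S]
    congr 1
    ext i
    simp
  let c : ℕ → ℕ := fun k => if h : k < N then Γ.cost (σ ⟨k, h⟩) (S k) else 0
  have hfin : ∀ k, FinColen (Γ.Ξ ⊔ Cost_T L n (S k)) := fun k =>
    finColen_mono le_sup_left Γ.fin_Ξ
  have main : ∀ k, k ≤ N → colen (Γ.Ξ ⊔ Cost_T L n (S k)) = ∑ i ∈ Finset.range k, c i := by
    intro k
    induction k with
    | zero =>
      intro _
      have h1 : Γ.Ξ ⊔ Cost_T L n (S 0) = ⊤ := by
        rw [eq_top_iff]
        intro w _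
        refine Submodule.mem_sup_right ?_
        change ∀ i ∈ S 0, w i = 0
        intro i hi
        exact absurd ((hSmem 0 i).1 hi) (Nat.not_lt_zero _)
      rw [h1, Finset.range_zero, Finset.sum_empty]
      unfold colen
      have : Subsingleton ((Fin N → Fin n → L⟦X⟧) ⧸ (⊤ : Submodule L⟦X⟧ (Fin N → Fin n → L⟦X⟧))) :=
        Submodule.Quotient.subsingleton_iff.2 rfl
      rw [Module.length_eq_zero]
      rfl
    | succ k ih =>
      intro hk
      have hkN : k < N := hk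
      have hj : σ ⟨k, hkN⟩ ∉ S k := by
        rw [hSmem, σ.symm_apply_apply]
        exact lt_irrefl _
      have hstep := Γ.Cost_step (σ ⟨k, hkN⟩) (S k) (S (k + 1)) hj (by
        intro i
        rw [hSmem, hSmem, Nat.lt_succ_iff_lt_or_eq]
        refine or_congr Iff.rfl ?_
        constructor
        · intro h
          have : σ.symm i = ⟨k, hkN⟩ := Fin.ext h
          rw [← this, σ.apply_symm_apply]
        · rintro rfl
          rw [σ.symm_apply_apply])
      rw [Finset.sum_range_succ, ← ih (le_of_lt hkN)]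
      have hc : c k = Γ.cost (σ ⟨k, hkN⟩) (S k) := by
        simp only [c]
        rw [dif_pos hkN]
      rw [hc]
      unfold cost colen
      rw [hstep, ENat.toNat_add (Γ.finColen_Xirel _ _ hj) (hfin k), add_comm]
  have hN := main N le_rfl
  have h1 : Γ.Ξ ⊔ Cost_T L n (S N) = Γ.Ξ := by
    refine sup_eq_left.2 ?_
    intro w hw
    have h2 : w = 0 := by
      funext i
      exact hw i ((hSmem N i).2 (σ.symm i).isLt)
    rw [h2]
    exact Γ.Ξ.zero_mem
  rw [h1] at hN
  unfold A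
  rw [hN, ← Fin.sum_univ_eq_sum_range]
  refine Finset.sum_congr rfl fun k _ => ?_
  simp only [c]
  rw [dif_pos k.isLt, hSk k]

end Pool.Agent.Lib_GD.ArcSystem

end

/-! ### from `Lib_GD.JetBound` -/

section

/-! K04: the jet bound (I3) and the T-bound. -/

open PowerSeries

namespace Pool.Agent.Lib_GD.ArcSystem

variable {L : Type} [Field L] [Algebra ℂ L] {n N : ℕ} (Γ : ArcSystem L n N)

private theorem JetBound_step (S : Finset (Fin N)) (j : Fin N) (hj : j ∉ S)
    (W : Submodule L⟦X⟧ (Fin N → L⟦X⟧)) (hW : Γ.Stable S W) (b : ℕ) (β : Fin n →₀ ℕ)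
    (ih : ∀ f ∈ W, (X : L⟦X⟧) ^ b ∣ X ^ (β.degree * Γ.cost j S) * Γ.ev j β f) (l : Fin n) :
    ∀ f ∈ W, (X : L⟦X⟧) ^ b ∣
      X ^ ((β + Finsupp.single l 1).degree * Γ.cost j S) * Γ.ev j (β + Finsupp.single l 1) f := by
  intro f hf
  have h1 := Γ.X_pow_cost_smul_mem j S hj (Pi.single l 1)
  obtain ⟨δ, hδ, hξ⟩ := (Γ.mem_Xirel j S _).1 h1
  have h2 := X_pow_dvd_hat δ (ih f hf)
  rw [hat_X_pow_mul, Γ.hat_ev δ hδ.1, hξ, mul_add] at h2
  have h3 := ih _ (hW δ hδ f hf)
  have h4 := (dvd_add_right h3).1 h2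
  have h5 : ∑ l', (((X : L⟦X⟧) ^ Γ.cost j S • (Pi.single l 1 : Fin n → L⟦X⟧)) l') *
      Γ.ev j (β + Finsupp.single l' 1) f = X ^ Γ.cost j S * Γ.ev j (β + Finsupp.single l 1) f := by
    rw [Finset.sum_eq_single l]
    · rw [Pi.smul_apply, Pi.single_eq_same, smul_eq_mul, mul_one]
    · intro l' _ hl'
      rw [Pi.smul_apply, Pi.single_eq_of_ne hl', smul_zero, zero_mul]
    · intro h
      exact absurd (Finset.mem_univ l) h
  rw [h5] at h4
  have h6 : (β + Finsupp.single l 1).degree = β.degree + 1 := by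
    rw [map_add, Finsupp.degree_single]
  rw [h6, add_mul, one_mul, pow_add, mul_assoc]
  exact h4

/-- (I3): if `W` is stable and all values at `x_j` are divisible by `X ^ b`, then the jets of
order `|α|` are divisible by `X ^ (b - |α| a(j|S))`. -/
theorem jet_dvd (S : Finset (Fin N)) (j : Fin N) (hj : j ∉ S)
    (W : Submodule L⟦X⟧ (Fin N → L⟦X⟧)) (hW : Γ.Stable S W) (b : ℕ)
    (hb : ∀ f ∈ W, (X : L⟦X⟧) ^ b ∣ Γ.ev j 0 f) (α : Fin n →₀ ℕ) :
    ∀ f ∈ W, (X : L⟦X⟧) ^ b ∣ X ^ (α.degree * Γ.cost j S) * Γ.ev j α f := by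
  obtain ⟨m, hm⟩ : ∃ m, α.degree = m := ⟨_, rfl⟩
  induction m generalizing α with
  | zero =>
    intro f hf
    have h0 : α = 0 := (Finsupp.degree_eq_zero_iff α).1 hm
    subst h0
    exact Dvd.dvd.mul_left (hb f hf) _
  | succ m ih =>
    have hne : α ≠ 0 := by
      rintro rfl
      rw [map_zero] at hm
      exact absurd hm (by omega)
    obtain ⟨l, hl⟩ := Finsupp.ne_iff.1 hne
    have hl' : 1 ≤ α l := Nat.one_le_iff_ne_zero.2 hl
    have h1 : α - Finsupp.single l 1 + Finsupp.single l 1 = α := by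
      ext i
      rw [Finsupp.add_apply, Finsupp.tsub_apply]
      by_cases h : i = l
      · subst h
        rw [Finsupp.single_eq_same]
        omega
      · rw [Finsupp.single_eq_of_ne h]
        omega
    have h2 : (α - Finsupp.single l 1).degree = m := by
      have h3 : (α - Finsupp.single l 1 + Finsupp.single l 1).degree = m + 1 := by rw [h1, hm]
      rw [map_add, Finsupp.degree_single] at h3
      omega
    have h3 := Γ.JetBound_step S j hj W hW b (α - Finsupp.single l 1) (ih _ h2) l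
    rw [h1] at h3
    exact h3

/-- (T-bound): if moreover `W` contains an element which is non-zero modulo `X`, then
`b ≤ D a(j|S)`. -/
theorem le_of_primitive {D : ℕ} (hD : Γ.HT D) (S : Finset (Fin N)) (j : Fin N) (hj : j ∉ S)
    (W : Submodule L⟦X⟧ (Fin N → L⟦X⟧)) (hW : Γ.Stable S W) (b : ℕ)
    (hb : ∀ f ∈ W, (X : L⟦X⟧) ^ b ∣ Γ.ev j 0 f)
    (hp : ∃ f ∈ W, ∃ i, constantCoeff (f i) ≠ 0) : b ≤ D * Γ.cost j S := by
  obtain ⟨f, hf, i, hi⟩ := hp
  obtain ⟨α, hα, h1⟩ := hD j (fun i => constantCoeff (f i)) (fun h => hi (congrFun h i))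
  have h2 := Γ.jet_dvd S j hj W hW b hb α f hf
  have h3 : constantCoeff (Γ.ev j α f) ≠ 0 := by
    rw [ev_apply, map_sum]
    simp only [map_mul]
    exact h1
  have h4 : b ≤ α.degree * Γ.cost j S := by
    by_contra h
    have h5 : (X : L⟦X⟧) ^ (α.degree * Γ.cost j S + 1) ∣
        X ^ (α.degree * Γ.cost j S) * Γ.ev j α f :=
      dvd_trans (pow_dvd_pow _ (by omega)) h2
    rw [pow_succ] at h5
    have h6 : (X : L⟦X⟧) ∣ Γ.ev j α f :=
      (mul_dvd_mul_iff_left (pow_ne_zero _ PowerSeries.X_ne_zero)).1 h5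
    exact h3 (PowerSeries.X_dvd_iff.1 h6)
  exact le_trans h4 (Nat.mul_le_mul_right _ hα)

end Pool.Agent.Lib_GD.ArcSystem

end

/-! ### from `Lib_GD.PhiBasic` -/

section

/-! K05: energies. -/

open PowerSeries

namespace Pool.Agent.Lib_GD.ArcSystem

variable {L : Type} [Field L] [Algebra ℂ L] {n N : ℕ} (Γ : ArcSystem L n N)

/-- For `j ∉ S` (and non-zero determinant) some element of `W_S` does not vanish at `x_j`. -/
theorem exists_ev_ne_zero (hdet : Γ.det ≠ 0) (S : Finset (Fin N)) (j : Fin N) (hj : j ∉ S) :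
    ∃ f ∈ Γ.W S, Γ.ev j 0 f ≠ 0 := by
  classical
  obtain ⟨M, hM⟩ : ∃ M : Matrix (Fin N) (Fin N) L⟦X⟧, M = Matrix.of fun j i => Γ.u j 0 i :=
    ⟨_, rfl⟩
  have hd : Γ.det = M.det := by rw [hM]; rfl
  have key : ∀ k : Fin N, Γ.ev k 0 (fun i => M.adjugate i j) = if k = j then M.det else 0 := by
    intro k
    have h1 := congrFun (congrFun (Matrix.mul_adjugate M) k) j
    rw [Matrix.mul_apply, Matrix.smul_apply, Matrix.one_apply, smul_eq_mul] at h1
    rw [ev_apply]
    have h2 : ∑ i, Γ.u k 0 i * M.adjugate i j = ∑ i, M k i * M.adjugate i j := by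
      rw [hM]
      rfl
    rw [h2, h1]
    split_ifs <;> simp
  refine ⟨fun i => M.adjugate i j, ?_, ?_⟩
  · intro k hk
    rw [key, if_neg (ne_of_mem_of_not_mem hk hj)]
  · rw [key, if_pos rfl, ← hd]
    exact hdet

/-- All values at `x_j` of elements of `W_S` are divisible by `X ^ φ(j|S)`. -/
theorem X_pow_phi_dvd (hdet : Γ.det ≠ 0) (S : Finset (Fin N)) (j : Fin N) (hj : j ∉ S) :
    ∀ f ∈ Γ.W S, (X : L⟦X⟧) ^ (Γ.phi j S) ∣ Γ.ev j 0 f := by
  intro f hf
  by_contra hcon
  rcases Nat.eq_zero_or_pos (Γ.phi j S) with h0 | h0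
  · rw [h0, pow_zero] at hcon
    exact hcon (one_dvd _)
  · have h1 : Γ.phi j S - 1 ∈ {k | ∃ f ∈ Γ.W S, ¬ (X : L⟦X⟧) ^ (k + 1) ∣ Γ.ev j 0 f} := by
      refine ⟨f, hf, ?_⟩
      rw [Nat.sub_add_cancel h0]
      exact hcon
    have h2 : Γ.phi j S ≤ Γ.phi j S - 1 := Nat.sInf_le h1
    omega

/-- `φ(j|S)` is the largest such exponent. -/
theorem le_phi (hdet : Γ.det ≠ 0) (S : Finset (Fin N)) (j : Fin N) (hj : j ∉ S) (b : ℕ)
    (hb : ∀ f ∈ Γ.W S, (X : L⟦X⟧) ^ b ∣ Γ.ev j 0 f) : b ≤ Γ.phi j S := by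
  have hne : {k | ∃ f ∈ Γ.W S, ¬ (X : L⟦X⟧) ^ (k + 1) ∣ Γ.ev j 0 f}.Nonempty := by
    obtain ⟨f, hf, h⟩ := Γ.exists_ev_ne_zero hdet S j hj
    obtain ⟨m, hm⟩ : ∃ m, coeff m (Γ.ev j 0 f) ≠ 0 := by
      by_contra hcon
      push Not at hcon
      apply h
      ext m
      rw [hcon m, map_zero]
    refine ⟨m, f, hf, fun hd => hm ?_⟩
    exact (PowerSeries.X_pow_dvd_iff.1 hd) m (Nat.lt_succ_self m)
  obtain ⟨f, hf, h⟩ := Nat.sInf_mem hne
  by_contra hcon
  exact h (dvd_trans (pow_dvd_pow _ (by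
    have : Γ.phi j S < b := not_le.1 hcon
    exact this)) (hb f hf))

/-- `W_S` is saturated: divisible by `X` in `O^N` means divisible in `W_S`. -/
theorem mem_W_of_X_smul (S : Finset (Fin N)) (k : ℕ) (f : Fin N → L⟦X⟧)
    (h : (X : L⟦X⟧) ^ k • f ∈ Γ.W S) : f ∈ Γ.W S := by
  intro i hi
  have h1 := h i hi
  rw [map_smul, smul_eq_mul] at h1
  rcases mul_eq_zero.1 h1 with h2 | h2
  · exact absurd h2 (pow_ne_zero _ PowerSeries.X_ne_zero)
  · exact h2

/-- `W_S` as a kernel. -/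
private theorem PhiBasic_ker (S : Finset (Fin N)) :
    Γ.W S = LinearMap.ker (LinearMap.pi fun i : S => Γ.ev i.1 0) := by
  ext f
  rw [LinearMap.mem_ker]
  constructor
  · intro h
    funext i
    exact h i.1 i.2
  · intro h i hi
    exact congrFun h ⟨i, hi⟩

private theorem PhiBasic_finrank (S : Finset (Fin N)) :
    N ≤ Module.finrank L⟦X⟧ (Γ.W S) + S.card := by
  rw [Γ.PhiBasic_ker S]
  obtain ⟨F, hF⟩ : ∃ F : (Fin N → L⟦X⟧) →ₗ[L⟦X⟧] (S → L⟦X⟧),
      F = LinearMap.pi fun i : S => Γ.ev i.1 0 := ⟨_, rfl⟩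
  rw [← hF]
  have h1 := LinearMap.rank_range_add_rank_ker F
  have h2 := Submodule.finrank_le (LinearMap.range F)
  have h3 := congrArg Cardinal.toNat h1
  rw [Cardinal.toNat_add (Module.rank_lt_aleph0 _ _) (Module.rank_lt_aleph0 _ _)] at h3
  have h4 : Module.finrank L⟦X⟧ (LinearMap.range F) + Module.finrank L⟦X⟧ (LinearMap.ker F) =
      Module.finrank L⟦X⟧ (Fin N → L⟦X⟧) := h3
  rw [Module.finrank_fin_fun] at h4
  rw [Module.finrank_fintype_fun_eq_card, Fintype.card_coe] at h2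
  omega

/-- The reductions modulo `X` of the elements of `W_S` form a space of dimension at least
`N - #S`. -/
theorem le_finrank_W (S : Finset (Fin N)) :
    N ≤ Module.finrank L (Submodule.span L {v : Fin N → L | ∃ f ∈ Γ.W S,
      ∀ i, constantCoeff (f i) = v i}) + S.card := by
  have h0 := Γ.PhiBasic_finrank S
  obtain ⟨r, hr⟩ : ∃ r, r = Module.finrank L⟦X⟧ (Γ.W S) := ⟨_, rfl⟩
  rw [← hr] at h0
  obtain ⟨b⟩ : Nonempty (Module.Basis (Fin r) L⟦X⟧ (Γ.W S)) := by
    rw [hr]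
    exact ⟨Module.finBasis L⟦X⟧ (Γ.W S)⟩
  -- the reductions
  obtain ⟨v, hv⟩ : ∃ v : Fin r → Fin N → L, ∀ k i,
      v k i = constantCoeff ((b k : Fin N → L⟦X⟧) i) := ⟨_, fun _ _ => rfl⟩
  have hind : LinearIndependent L v := by
    rw [Fintype.linearIndependent_iff]
    intro c hc k
    -- the combination is divisible by `X`
    have h1 : ∀ i, (X : L⟦X⟧) ∣ (∑ k, (C (c k) : L⟦X⟧) • (b k : Fin N → L⟦X⟧)) i := by
      intro i
      rw [PowerSeries.X_dvd_iff, Finset.sum_apply, map_sum]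
      have h2 := congrFun hc i
      rw [Finset.sum_apply, Pi.zero_apply] at h2
      rw [← h2]
      refine Finset.sum_congr rfl fun k _ => ?_
      rw [Pi.smul_apply, Pi.smul_apply, smul_eq_mul, smul_eq_mul, map_mul,
        PowerSeries.constantCoeff_C, hv]
    choose g hg using h1
    have h3 : (X : L⟦X⟧) ^ 1 • g = ∑ k, (C (c k) : L⟦X⟧) • (b k : Fin N → L⟦X⟧) := by
      funext i
      rw [pow_one, Pi.smul_apply, smul_eq_mul, hg i]
    have h4 : g ∈ Γ.W S := by
      apply Γ.mem_W_of_X_smul S 1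
      rw [h3]
      exact Submodule.sum_mem _ fun k _ => Submodule.smul_mem _ _ (b k).2
    have h5 : (X : L⟦X⟧) • (⟨g, h4⟩ : Γ.W S) = ∑ k, (C (c k) : L⟦X⟧) • b k := by
      apply Subtype.ext
      rw [Submodule.coe_smul, Submodule.coe_sum]
      rw [pow_one] at h3
      exact h3
    have h6 : b.repr ((X : L⟦X⟧) • (⟨g, h4⟩ : Γ.W S)) k =
        b.repr (∑ k, (C (c k) : L⟦X⟧) • b k) k := by rw [h5]
    rw [map_smul, b.repr_sum_self] at h6
    have h7 : (C (c k) : L⟦X⟧) = X * b.repr ⟨g, h4⟩ k := by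
      rw [← h6]
      rfl
    have h8 := congrArg (constantCoeff (R := L)) h7
    rw [PowerSeries.constantCoeff_C, map_mul, PowerSeries.constantCoeff_X, zero_mul] at h8
    exact h8
  have hmem : ∀ k, v k ∈ Submodule.span L {v : Fin N → L | ∃ f ∈ Γ.W S,
      ∀ i, constantCoeff (f i) = v i} := fun k =>
    Submodule.subset_span ⟨b k, (b k).2, fun i => (hv k i).symm⟩
  have hind' : LinearIndependent L (fun k => (⟨v k, hmem k⟩ : Submodule.span L {v : Fin N → L |
      ∃ f ∈ Γ.W S, ∀ i, constantCoeff (f i) = v i})) := by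
    apply LinearIndependent.of_comp (Submodule.subtype _)
    exact hind
  have h9 := hind'.fintype_card_le_finrank
  rw [Fintype.card_fin] at h9
  omega

/-- `W_S` contains an element which is non-zero modulo `X` if `#S < N`. -/
theorem exists_primitive (S : Finset (Fin N)) (hS : S.card < N) :
    ∃ f ∈ Γ.W S, ∃ i, constantCoeff (f i) ≠ 0 := by
  by_contra hcon
  push Not at hcon
  have h1 : Submodule.span L {v : Fin N → L | ∃ f ∈ Γ.W S,
      ∀ i, constantCoeff (f i) = v i} = ⊥ := by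
    rw [Submodule.span_eq_bot]
    rintro v ⟨f, hf, hv⟩
    funext i
    rw [← hv i, hcon f hf i]
    rfl
  have h2 := Γ.le_finrank_W S
  rw [h1, finrank_bot] at h2
  omega

end Pool.Agent.Lib_GD.ArcSystem

end

/-! ### from `Lib_GD.PhiDet` -/

section

/-! K06: energies and the determinant. -/

open PowerSeries

namespace Pool.Agent.Lib_GD.ArcSystem

variable {L : Type} [Field L] [Algebra ℂ L] {n N : ℕ} (Γ : ArcSystem L n N)

/-- The evaluation matrix times a triangular family. -/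
private theorem PhiDet_tri (σ : Equiv.Perm (Fin N)) (f : Fin N → Fin N → L⟦X⟧)
    (hf : ∀ k, f k ∈ Γ.W ((Finset.Iio k).map σ.toEmbedding)) :
    (((Equiv.Perm.sign σ : ℤˣ) : ℤ) : L⟦X⟧) * Γ.det * (Matrix.of fun i k => f k i).det =
      ∏ k, Γ.ev (σ k) 0 (f k) := by
  have h1 : (((Equiv.Perm.sign σ : ℤˣ) : ℤ) : L⟦X⟧) * Γ.det =
      ((Matrix.of fun j i : Fin N => Γ.u j 0 i).submatrix σ id).det := by
    rw [Matrix.det_permute]
    rfl
  rw [h1, ← Matrix.det_mul, Matrix.det_of_isLowerTriangular]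
  · refine Finset.prod_congr rfl fun k _ => ?_
    rw [Matrix.mul_apply, ev_apply]
    rfl
  · intro i j hij
    have hij' : i < j := hij
    have h2 := hf j (σ i) (Finset.mem_map.2 ⟨i, Finset.mem_Iio.2 hij', rfl⟩)
    rw [ev_apply] at h2
    rw [Matrix.mul_apply]
    exact h2

/-- The determinant is non-zero as soon as (T) holds: otherwise some `x_j` would kill `W_S`,
`j ∉ S`, and by the jet bound all jets at `x_j` of the elements of `W_S` would vanish. -/
theorem det_ne_zero {D : ℕ} (hD : Γ.HT D) : Γ.det ≠ 0 := by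
  have key : ∀ k : Fin N, ∃ f ∈ Γ.W ((Finset.Iio k).map (Equiv.refl (Fin N)).toEmbedding),
      Γ.ev k 0 f ≠ 0 := by
    intro k
    by_contra hcon
    push Not at hcon
    have hk : k ∉ (Finset.Iio k).map (Equiv.refl (Fin N)).toEmbedding := by
      intro h
      obtain ⟨i, hi, hik⟩ := Finset.mem_map.1 h
      have hik' : i = k := hik
      rw [hik', Finset.mem_Iio] at hi
      exact lt_irrefl _ hi
    have hcard : ((Finset.Iio k).map (Equiv.refl (Fin N)).toEmbedding).card < N := by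
      rw [Finset.card_map]
      have := Finset.card_lt_univ_of_notMem (s := Finset.Iio k) (x := k) (by simp)
      rwa [Fintype.card_fin] at this
    have h1 := Γ.le_of_primitive hD _ k hk _ (Γ.stable_W _)
      (D * Γ.cost k ((Finset.Iio k).map (Equiv.refl (Fin N)).toEmbedding) + 1)
      (fun f hf => by rw [hcon f hf]; exact dvd_zero _) (Γ.exists_primitive _ hcard)
    omega
  choose f hf hne using key
  have h := Γ.PhiDet_tri (Equiv.refl (Fin N)) f hf
  intro h0
  rw [h0, mul_zero, zero_mul] at h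
  have h2 := Finset.prod_eq_zero_iff.1 h.symm
  obtain ⟨k, _, hk⟩ := h2
  exact hne k hk

/-- Sum of the energies along any order is the order of the determinant. -/
theorem phi_sum (hdet : Γ.det ≠ 0) (σ : Equiv.Perm (Fin N)) :
    ((∑ k, Γ.phi (σ k) ((Finset.Iio k).map σ.toEmbedding) : ℕ) : ℕ∞) = Γ.det.order := by
  classical
  have hk : ∀ k : Fin N, σ k ∉ (Finset.Iio k).map σ.toEmbedding := by
    intro k h
    obtain ⟨i, hi, hik⟩ := Finset.mem_map.1 h
    have hik' : i = k := σ.injective hik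
    rw [hik', Finset.mem_Iio] at hi
    exact lt_irrefl _ hi
  -- elements of minimal order
  have key : ∀ k : Fin N, ∃ f ∈ Γ.W ((Finset.Iio k).map σ.toEmbedding), ∃ v : L⟦X⟧,
      IsUnit v ∧ Γ.ev (σ k) 0 f = X ^ Γ.phi (σ k) ((Finset.Iio k).map σ.toEmbedding) * v := by
    intro k
    by_contra hcon
    push Not at hcon
    have h1 := Γ.le_phi hdet _ (σ k) (hk k) (Γ.phi (σ k) ((Finset.Iio k).map σ.toEmbedding) + 1)
      (by
        intro f hf
        obtain ⟨v, hv⟩ := Γ.X_pow_phi_dvd hdet _ (σ k) (hk k) f hf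
        have h2 : ¬ IsUnit v := fun h => hcon f hf v h hv
        have h3 : (X : L⟦X⟧) ∣ v := by
          rw [PowerSeries.X_dvd_iff]
          by_contra h4
          exact h2 (PowerSeries.isUnit_iff_constantCoeff.2 (isUnit_iff_ne_zero.2 h4))
        rw [hv, pow_succ]
        exact mul_dvd_mul_left _ h3)
    omega
  choose f hf v hv hev using key
  -- the family spans
  have hspan : ∀ d m : ℕ, m + d = N → ∀ g : Fin N → L⟦X⟧,
      (∀ i : Fin N, ((σ.symm i : Fin N) : ℕ) < m → Γ.ev i 0 g = 0) →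
      ∃ c : Fin N → L⟦X⟧, ∑ k, c k • f k = g := by
    intro d
    induction d with
    | zero =>
      intro m hm g hg
      refine ⟨0, ?_⟩
      have h1 : (Matrix.of fun j i : Fin N => Γ.u j 0 i).mulVec g = 0 := by
        funext j
        have h2 := hg j (by have := (σ.symm j).2; omega)
        rw [ev_apply] at h2
        exact h2
      have h3 := Matrix.eq_zero_of_mulVec_eq_zero hdet h1
      rw [h3]
      simp
    | succ d ih =>
      intro m hm g hg
      have hmN : m < N := by omega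
      obtain ⟨k, hkm⟩ : ∃ k : Fin N, (k : ℕ) = m := ⟨⟨m, hmN⟩, rfl⟩
      have hgW : g ∈ Γ.W ((Finset.Iio k).map σ.toEmbedding) := by
        intro i hi
        obtain ⟨i', hi', rfl⟩ := Finset.mem_map.1 hi
        refine hg _ ?_
        have h4 : σ.symm (σ.toEmbedding i') = i' := σ.symm_apply_apply i'
        rw [h4]
        have := Finset.mem_Iio.1 hi'
        have h5 : (i' : ℕ) < (k : ℕ) := this
        omega
      obtain ⟨e, he⟩ := Γ.X_pow_phi_dvd hdet _ (σ k) (hk k) g hgW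
      obtain ⟨w, hw⟩ := hv k
      have h5 : Γ.ev (σ k) 0 (g - (e * ((w⁻¹ : L⟦X⟧ˣ) : L⟦X⟧)) • f k) = 0 := by
        rw [map_sub, map_smul, he, hev k, ← hw, smul_eq_mul]
        have : (w : L⟦X⟧) * ((w⁻¹ : L⟦X⟧ˣ) : L⟦X⟧) = 1 := w.mul_inv
        linear_combination (-(X : L⟦X⟧) ^ Γ.phi (σ k) ((Finset.Iio k).map σ.toEmbedding) * e) * this
      obtain ⟨c, hc⟩ := ih (m + 1) (by omega) (g - (e * ((w⁻¹ : L⟦X⟧ˣ) : L⟦X⟧)) • f k) (by
        intro i hi
        by_cases hik : σ.symm i = k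
        · have h6 : i = σ k := by rw [← hik, Equiv.apply_symm_apply]
          rw [h6]
          exact h5
        · have h7 : ((σ.symm i : Fin N) : ℕ) < m := by
            have : ((σ.symm i : Fin N) : ℕ) ≠ k := fun h => hik (Fin.ext h)
            omega
          rw [map_sub, map_smul, hg i h7]
          have h8 := hf k i (Finset.mem_map.2 ⟨σ.symm i, Finset.mem_Iio.2
            (by rw [Fin.lt_def]; omega), σ.apply_symm_apply i⟩)
          rw [h8, smul_zero, sub_zero])
      refine ⟨c + Pi.single k (e * ((w⁻¹ : L⟦X⟧ˣ) : L⟦X⟧)), ?_⟩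
      have h9 : ∑ k', (c + Pi.single k (e * ((w⁻¹ : L⟦X⟧ˣ) : L⟦X⟧)) : Fin N → L⟦X⟧) k' • f k' =
          ∑ k', c k' • f k' + (e * ((w⁻¹ : L⟦X⟧ˣ) : L⟦X⟧)) • f k := by
        simp only [Pi.add_apply, add_smul, Finset.sum_add_distrib]
        congr 1
        rw [Finset.sum_eq_single k]
        · rw [Pi.single_eq_same]
        · intro k' _ hk'
          rw [Pi.single_eq_of_ne hk', zero_smul]
        · intro h
          exact absurd (Finset.mem_univ k) h
      rw [h9, hc]
      abel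
  have hunit : IsUnit (Matrix.of fun i k => f k i : Matrix (Fin N) (Fin N) L⟦X⟧).det := by
    have h1 : ∀ i : Fin N, ∃ c : Fin N → L⟦X⟧, ∑ k, c k • f k = Pi.single i 1 := fun i =>
      hspan N 0 (by omega) _ fun j hj => absurd hj (by omega)
    choose c hc using h1
    have h2 : (Matrix.of fun i k => f k i : Matrix (Fin N) (Fin N) L⟦X⟧) *
        (Matrix.of fun k i => c i k) = 1 := by
      ext a i
      rw [Matrix.mul_apply]
      have h3 := congrFun (hc i) a
      rw [Finset.sum_apply] at h3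
      simp only [Pi.smul_apply, smul_eq_mul] at h3
      simp only [Matrix.of_apply]
      rw [Matrix.one_apply, Finset.sum_congr rfl fun k _ => mul_comm (f k a) (c i k), h3,
        Pi.single_apply]
    have h4 := congrArg Matrix.det h2
    rw [Matrix.det_mul, Matrix.det_one] at h4
    exact IsUnit.of_mul_eq_one _ h4
  have htri := Γ.PhiDet_tri σ f hf
  have hprod : ∏ k, Γ.ev (σ k) 0 (f k) =
      X ^ (∑ k, Γ.phi (σ k) ((Finset.Iio k).map σ.toEmbedding)) * ∏ k, v k := by
    rw [← Finset.prod_pow_eq_pow_sum, ← Finset.prod_mul_distrib]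
    exact Finset.prod_congr rfl fun k _ => hev k
  have hvu : IsUnit (∏ k, v k) := by
    refine Finset.prod_induction v IsUnit (fun a b ha hb => ha.mul hb) isUnit_one fun k _ => hv k
  have hord0 : ∀ a : L⟦X⟧, IsUnit a → a.order = 0 := fun a ha => PowerSeries.order_zero_of_unit ha
  have hsign : (((((Equiv.Perm.sign σ : ℤˣ) : ℤ) : L⟦X⟧)) * Γ.det).order = Γ.det.order := by
    rcases Int.units_eq_one_or (Equiv.Perm.sign σ) with h | h
    · rw [h]; simp
    · rw [h]; simp
  rw [hprod] at htri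
  have h5 := congrArg PowerSeries.order htri
  have h6 := PowerSeries.order_mul ((((Equiv.Perm.sign σ : ℤˣ) : ℤ) : L⟦X⟧) * Γ.det)
    (Matrix.of fun i k => f k i).det
  rw [hsign, hord0 _ hunit, add_zero] at h6
  have h7 := PowerSeries.order_mul
    ((X : L⟦X⟧) ^ (∑ k, Γ.phi (σ k) ((Finset.Iio k).map σ.toEmbedding))) (∏ k, v k)
  rw [hord0 _ hvu, PowerSeries.order_X_pow, add_zero] at h7
  exact h7.symm.trans (h5.symm.trans h6)

/-- `φ(j|S) ≤ D a(j|S)`. -/
theorem phi_le (hdet : Γ.det ≠ 0) {D : ℕ} (hD : Γ.HT D) (S : Finset (Fin N)) (j : Fin N)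
    (hj : j ∉ S) : Γ.phi j S ≤ D * Γ.cost j S := by
  have hcard : S.card < N := by
    have := Finset.card_lt_univ_of_notMem hj
    rwa [Fintype.card_fin] at this
  exact Γ.le_of_primitive hD S j hj _ (Γ.stable_W S) _ (Γ.X_pow_phi_dvd hdet S j hj)
    (Γ.exists_primitive S hcard)

end Pool.Agent.Lib_GD.ArcSystem

end
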