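import Mathlib
import Pool.Agent.Lib_KF.Defs

/-!
# MP_e0d435_ag: merged library part G04

Concatenation of library files (each in its own section), only to save build time.
-/

/-! ### from `Lib_KF.GeoDefs` -/

section

/-!
# The finite projection `Spec R → ℂ ^ (n + 1)`, analytic families of arcs

A point of the cone `Spec R` is a homomorphism `ν : R →ₐ[ℂ] ℂ`.
-/

open MeasureTheory
open scoped ENNReal NNReal

namespace Pool.Agent.Lib_KF

open Pool.Agent.Lib_GD

/-- The fibre of `Spec R → ℂ ^ (n + 1)` over `y`. -/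
def fib {R : Type} [CommRing R] [Algebra ℂ R] {n : ℕ} (x : Fin (n + 1) → R)
    (y : Fin (n + 1) → ℂ) : Set (R →ₐ[ℂ] ℂ) :=
  {ν | ∀ b, ν (x b) = y b}

/-- The integral over the unit polydisc of the sum over the fibres of
`∏ |e i| ^ (- 2 c) |G| ^ (- 2 / r)`. -/
noncomputable def intI {R : Type} [CommRing R] [Algebra ℂ R] {n M : ℕ} (x : Fin (n + 1) → R)
    (G : R) (r : ℕ) (e : Fin M → R) (c : ℝ) : ℝ≥0∞ :=
  ∫⁻ y in Metric.ball (0 : Fin (n + 1) → ℂ) 1, ∑' ν : fib x y,
    ENNReal.ofReal ((∏ i, ‖ν.1 (e i)‖ ^ (-2 * c)) * ‖ν.1 G‖ ^ (-2 / (r : ℝ)))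

/-- `e i` at time `s`: the family `∑ s ^ l e i l`. -/
noncomputable def famAt {R : Type} [CommRing R] [Algebra ℂ R] {B : ℕ} (e : Fin (B + 1) → R)
    (s : ℂ) : R :=
  ∑ l : Fin (B + 1), (s ^ (l : ℕ)) • e l

/-- An analytic family of arcs `x(s, u)` on `X` (points `pt s u` of the cone over `X`), with the
contact orders `lam i` with the family of sections `e i (s)`, the contact order `g` with `G` and
the order `κ` of its Jacobian. -/
structure AnChart {R : Type} [CommRing R] [Algebra ℂ R] (𝒜 : ℕ → Submodule ℂ R) {n M B : ℕ}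
    (x : Fin (n + 1) → R) (G : R) (e : Fin M → Fin (B + 1) → R) (lam : Fin M → ℕ) (g κ : ℕ) where
  ρ : ℝ
  ρ_pos : 0 < ρ
  pt : ℂ → (Fin n → ℂ) → (R →ₐ[ℂ] ℂ)
  an : ∀ f, AnalyticOnNhd ℂ (fun p : ℂ × (Fin n → ℂ) => pt p.1 p.2 f) (Metric.ball 0 ρ)
  /-- the chart of `X` -/
  a : Fin (n + 1)
  unit : ∀ s u, ‖s‖ < ρ → ‖u‖ < ρ → pt s u (x a) ≠ 0
  C : ℝ
  e_le : ∀ i s u, ‖s‖ < ρ → ‖u‖ < ρ → ‖pt s u (famAt (e i) s)‖ ≤ C * ‖s‖ ^ lam i
  G_le : ∀ s u, ‖s‖ < ρ → ‖u‖ < ρ → ‖pt s u G‖ ≤ C * ‖s‖ ^ g
  /-- `G` has order exactly `g` -/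
  G_ne : ∀ s u, s ≠ 0 → ‖s‖ < ρ → ‖u‖ < ρ → pt s u G ≠ 0
  /-- for `s ≠ 0` the affine coordinates `x b / x a` of the point determine `u` -/
  inj : ∀ s u u', s ≠ 0 → ‖s‖ < ρ → ‖u‖ < ρ → ‖u'‖ < ρ →
    (∀ b : Fin n, pt s u (x (a.succAbove b)) / pt s u (x a) =
      pt s u' (x (a.succAbove b)) / pt s u' (x a)) → u = u'
  c : ℝ
  c_pos : 0 < c
  /-- the Jacobian of `u ↦ (x b / x a)_{b ≠ a}` -/
  jac : ∀ s u, ‖s‖ < ρ → ‖u‖ < ρ → c * ‖s‖ ^ κ ≤
    ‖Matrix.det (Matrix.of fun (b l : Fin n) =>
      fderiv ℂ (fun u : Fin n → ℂ => pt s u (x (a.succAbove b)) / pt s u (x a)) u (Pi.single l 1))‖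

end Pool.Agent.Lib_KF

end

/-! ### from `Lib_GD.DvrCoords` -/

section

/-! A01: coordinates on a divisorial valuation ring. -/

namespace Pool.Agent.Lib_GD

open scoped TensorProduct

/-- differentials of a field extension of `ℂ`: the differentials of a transcendence basis -/
private noncomputable def DvrCoords_basis (K : Type) [Field K] [Algebra ℂ K] {ι : Type} (u : ι → K)
    (hu : IsTranscendenceBasis ℂ u) :
    { b : Module.Basis ι K (KaehlerDifferential ℂ K) // ∀ i, b i = KaehlerDifferential.D ℂ K (u i) } := by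
  classical
  letI : Algebra (MvPolynomial ι ℂ) K := (MvPolynomial.aeval u).toRingHom.toAlgebra
  have hmap : ∀ p : MvPolynomial ι ℂ, algebraMap (MvPolynomial ι ℂ) K p = MvPolynomial.aeval u p :=
    fun p => rfl
  haveI : IsScalarTower ℂ (MvPolynomial ι ℂ) K := by
    refine IsScalarTower.of_algebraMap_eq fun x => ?_
    rw [hmap, MvPolynomial.algebraMap_eq, MvPolynomial.aeval_C]
  have hinj : Function.Injective (algebraMap (MvPolynomial ι ℂ) K) := hu.1
  haveI : FaithfulSMul (MvPolynomial ι ℂ) K := (faithfulSMul_iff_algebraMap_injective _ _).2 hinj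
  haveI halg : Algebra.IsAlgebraic (MvPolynomial ι ℂ) K := by
    have := hu.isAlgebraic
    refine Algebra.IsAlgebraic.of_ringHom_of_comp_eq (S := Algebra.adjoin ℂ (Set.range u)) (B := K)
      (f := hu.1.aevalEquiv.toRingEquiv.toRingHom) (g := RingHom.id K)
      hu.1.aevalEquiv.surjective Function.injective_id ?_
    ext x
    · simp [hmap]
    · simp [hmap]
  letI : Algebra (FractionRing (MvPolynomial ι ℂ)) K := FractionRing.liftAlgebra _ K
  haveI : IsScalarTower (MvPolynomial ι ℂ) (FractionRing (MvPolynomial ι ℂ)) K :=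
    FractionRing.isScalarTower_liftAlgebra _ K
  haveI : Algebra.IsAlgebraic (FractionRing (MvPolynomial ι ℂ)) K :=
    (IsFractionRing.comap_isAlgebraic_iff (A := MvPolynomial ι ℂ)).1 halg
  haveI : CharZero (FractionRing (MvPolynomial ι ℂ)) := inferInstance
  haveI : Algebra.FormallyEtale (FractionRing (MvPolynomial ι ℂ)) K :=
    Algebra.FormallyEtale.of_isSeparable _ _
  haveI : Algebra.FormallyEtale (MvPolynomial ι ℂ) (FractionRing (MvPolynomial ι ℂ)) :=
    Algebra.FormallyEtale.of_isLocalization (nonZeroDivisors (MvPolynomial ι ℂ))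
  haveI : Algebra.FormallyEtale (MvPolynomial ι ℂ) K :=
    Algebra.FormallyEtale.comp _ (FractionRing (MvPolynomial ι ℂ)) _
  refine ⟨((KaehlerDifferential.mvPolynomialBasis ℂ ι).baseChange K).map
    (KaehlerDifferential.tensorKaehlerEquivOfFormallyEtale ℂ (MvPolynomial ι ℂ) K), fun i => ?_⟩
  rw [Module.Basis.map_apply, Module.Basis.baseChange_apply,
    KaehlerDifferential.mvPolynomialBasis_apply,
    KaehlerDifferential.tensorKaehlerEquivOfFormallyEtale_apply,
    KaehlerDifferential.mapBaseChange_tmul, KaehlerDifferential.map_D, one_smul, hmap,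
    MvPolynomial.aeval_X]

/-- the residues: if the differentials of the `ū i` span `Ω_κ`, then `dt` and the `du i` span `Ω_V` -/
private theorem DvrCoords_span (V : Type) [CommRing V] [IsDomain V] [IsDiscreteValuationRing V]
    [Algebra ℂ V] [Algebra.EssFiniteType ℂ V] {ι : Type} (t : V) (ht : Irreducible t) (u : ι → V)
    (hu : Submodule.span (IsLocalRing.ResidueField V)
      (Set.range fun i => KaehlerDifferential.D ℂ (IsLocalRing.ResidueField V)
        (IsLocalRing.residue V (u i))) = ⊤) :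
    Submodule.span V (Set.range fun o : Option ι =>
      o.elim (KaehlerDifferential.D ℂ V t) (fun i => KaehlerDifferential.D ℂ V (u i))) = ⊤ := by
  have hsurj : Function.Surjective (algebraMap V (IsLocalRing.ResidueField V)) :=
    IsLocalRing.residue_surjective
  rw [← IsLocalRing.map_tensorProduct_mk_eq_top, Submodule.map_span, ← Set.range_comp,
    ← Submodule.restrictScalars_span V (IsLocalRing.ResidueField V) hsurj,
    Submodule.restrictScalars_eq_top_iff, eq_top_iff]
  set S := Submodule.span (IsLocalRing.ResidueField V) (Set.range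
    ((TensorProduct.mk V (IsLocalRing.ResidueField V) (KaehlerDifferential ℂ V) 1) ∘
      fun o : Option ι => o.elim (KaehlerDifferential.D ℂ V t)
        (fun i => KaehlerDifferential.D ℂ V (u i)))) with hS
  have h1 : (1 : IsLocalRing.ResidueField V) ⊗ₜ[V] KaehlerDifferential.D ℂ V t ∈ S :=
    Submodule.subset_span ⟨none, rfl⟩
  have h2 : ∀ i, (1 : IsLocalRing.ResidueField V) ⊗ₜ[V] KaehlerDifferential.D ℂ V (u i) ∈ S :=
    fun i => Submodule.subset_span ⟨some i, rfl⟩
  -- the kernel
  have hker : ∀ x, KaehlerDifferential.mapBaseChange ℂ V (IsLocalRing.ResidueField V) x = 0 →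
      x ∈ S := by
    intro x hx
    obtain ⟨y, rfl⟩ := (KaehlerDifferential.exact_kerCotangentToTensor_mapBaseChange ℂ V
      (IsLocalRing.ResidueField V) hsurj x).1 hx
    obtain ⟨⟨a, ha⟩, rfl⟩ := Ideal.toCotangent_surjective _ y
    rw [KaehlerDifferential.kerCotangentToTensor_toCotangent]
    have ha' : a ∈ IsLocalRing.maximalIdeal V := by
      rw [RingHom.mem_ker] at ha
      exact (IsLocalRing.residue_eq_zero_iff a).1 ha
    rw [ht.maximalIdeal_eq, Ideal.mem_span_singleton] at ha'
    obtain ⟨b, rfl⟩ := ha'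
    have ht0 : (algebraMap V (IsLocalRing.ResidueField V)) t = 0 := by
      have : t ∈ IsLocalRing.maximalIdeal V := by
        rw [ht.maximalIdeal_eq]; exact Ideal.mem_span_singleton_self t
      exact (IsLocalRing.residue_eq_zero_iff t).2 this
    have e : (1 : IsLocalRing.ResidueField V) ⊗ₜ[V] KaehlerDifferential.D ℂ V (t * b) =
        algebraMap V (IsLocalRing.ResidueField V) b •
          ((1 : IsLocalRing.ResidueField V) ⊗ₜ[V] KaehlerDifferential.D ℂ V t) := by
      rw [Derivation.leibniz, TensorProduct.tmul_add, ← TensorProduct.smul_tmul,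
        ← TensorProduct.smul_tmul, ← Algebra.algebraMap_eq_smul_one,
        ← Algebra.algebraMap_eq_smul_one, ht0, TensorProduct.zero_tmul, zero_add,
        TensorProduct.smul_tmul', smul_eq_mul, mul_one]
    rw [e]
    exact S.smul_mem _ h1
  intro x _
  have hx : KaehlerDifferential.mapBaseChange ℂ V (IsLocalRing.ResidueField V) x ∈
      Submodule.map (KaehlerDifferential.mapBaseChange ℂ V (IsLocalRing.ResidueField V)) S := by
    have h3 : Submodule.map (KaehlerDifferential.mapBaseChange ℂ V (IsLocalRing.ResidueField V)) S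
        = ⊤ := by
      rw [eq_top_iff, ← hu, Submodule.span_le]
      rintro _ ⟨i, rfl⟩
      refine ⟨_, h2 i, ?_⟩
      rw [KaehlerDifferential.mapBaseChange_tmul, KaehlerDifferential.map_D, one_smul]
      rfl
    rw [h3]
    exact Submodule.mem_top
  obtain ⟨y, hy, hxy⟩ := hx
  have h4 : x - y ∈ S := hker _ (by rw [map_sub, hxy, sub_self])
  have := S.add_mem h4 hy
  rwa [sub_add_cancel] at this

/-- lifts of algebraically independent residues and `t` are algebraically independent -/
private theorem DvrCoords_indep (V : Type) [CommRing V] [IsDomain V] [IsDiscreteValuationRing V]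
    [Algebra ℂ V] {ι : Type} (t : V) (ht : Irreducible t) (u : ι → V)
    (hu : AlgebraicIndependent ℂ fun i => IsLocalRing.residue V (u i)) :
    AlgebraicIndependent ℂ fun o : Option ι => o.elim t u := by
  let f : V →ₐ[ℂ] IsLocalRing.ResidueField V := IsScalarTower.toAlgHom ℂ V _
  have hf : ∀ x, f x = IsLocalRing.residue V x := fun x => rfl
  have hu1 : AlgebraicIndependent ℂ (f ∘ u) := hu
  have hu2 : AlgebraicIndependent ℂ u := hu1.of_comp f
  rw [hu2.option_iff_transcendental]
  -- elements of `adjoin` with residue zero vanish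
  have hA : ∀ x ∈ Algebra.adjoin ℂ (Set.range u), f x = 0 → x = 0 := by
    intro x hx h0
    rw [Algebra.adjoin_range_eq_range_aeval] at hx
    obtain ⟨p, rfl⟩ := hx
    have h1 : MvPolynomial.aeval (f ∘ u) p = 0 := by
      rw [← h0]
      change _ = f (MvPolynomial.aeval u p)
      rw [MvPolynomial.comp_aeval_apply]
      rfl
    have h2 : p = 0 := hu1 (by rw [h1, map_zero])
    rw [h2]
    exact map_zero _
  have ht0 : f t = 0 := by
    rw [hf]
    refine (IsLocalRing.residue_eq_zero_iff t).2 ?_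
    rw [ht.maximalIdeal_eq]
    exact Ideal.mem_span_singleton_self t
  rw [transcendental_iff]
  intro p
  induction hn : p.natDegree using Nat.strong_induction_on generalizing p with
  | _ n ih =>
    intro hp
    have hdiv := Polynomial.divX_mul_X_add p
    have h0 : p.coeff 0 = 0 := by
      have h1 : f (Polynomial.aeval t p) = 0 := by rw [hp, map_zero]
      rw [← hdiv, map_add, map_mul, Polynomial.aeval_X, Polynomial.aeval_C, map_add, map_mul, ht0,
        mul_zero, zero_add] at h1
      exact Subtype.ext (hA _ (p.coeff 0).2 h1)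
    rw [h0, Polynomial.C_0, add_zero] at hdiv
    by_cases hd : p.natDegree = 0
    · rw [Polynomial.eq_C_of_natDegree_eq_zero hd, h0, Polynomial.C_0]
    · have h2 : Polynomial.aeval t p.divX = 0 := by
        rw [← hdiv, map_mul, Polynomial.aeval_X] at hp
        exact (mul_eq_zero.1 hp).resolve_right ht.ne_zero
      have h3 : p.divX = 0 := by
        refine ih p.divX.natDegree ?_ p.divX rfl h2
        rw [Polynomial.natDegree_divX_eq_natDegree_tsub_one]
        omega
      rw [← hdiv, h3, zero_mul]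

/-- A01: a discrete valuation ring `V`, essentially of finite type over `ℂ`, of transcendence
degree `r + 1`, has coordinates `t` (a uniformiser), `w_1, …, w_r`: `Ω_{V/ℂ}` is free on
`dt, dw_l`. (Hence the dual derivations.) Proof: the conormal sequence and `Ω_κ` of dimension
`trdeg κ ≤ r` show that `Ω_V ⊗ κ` is generated by `dt` and `r` elements `dw_l`; Nakayama; the
generic rank of `Ω_V` is `r + 1`. -/
theorem exists_dvr_coords (V : Type) [CommRing V] [IsDomain V] [IsDiscreteValuationRing V]
    [Algebra ℂ V] [Algebra.EssFiniteType ℂ V] (r : ℕ) (hr : Algebra.trdeg ℂ V = (r + 1 : ℕ)) :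
    ∃ (t : V) (w : Fin r → V) (b : Module.Basis (Option (Fin r)) V (KaehlerDifferential ℂ V)),
      Irreducible t ∧ b none = KaehlerDifferential.D ℂ V t ∧
        ∀ l, b (some l) = KaehlerDifferential.D ℂ V (w l) := by
  classical
  obtain ⟨t, ht⟩ := IsDiscreteValuationRing.exists_irreducible V
  -- a transcendence basis of the residue field
  obtain ⟨ι, ub, hub⟩ := exists_isTranscendenceBasis' ℂ (IsLocalRing.ResidueField V)
  have hlift : ∀ i, ∃ v : V, IsLocalRing.residue V v = ub i :=
    fun i => IsLocalRing.residue_surjective (ub i)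
  choose u hu using hlift
  have hind : AlgebraicIndependent ℂ fun o : Option ι => o.elim t u := by
    refine DvrCoords_indep V t ht u ?_
    simp only [hu]
    exact hub.1
  have hcard : Cardinal.mk (Option ι) ≤ (r + 1 : ℕ) := by
    rw [← hr]
    exact hind.cardinalMk_le_trdeg
  have hfin : Finite (Option ι) := by
    rw [← Cardinal.lt_aleph0_iff_finite]
    exact hcard.trans_lt (Cardinal.natCast_lt_aleph0)
  have : Finite ι := Finite.of_injective (some : ι → Option ι) (Option.some_injective ι)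
  let _ : Fintype ι := Fintype.ofFinite ι
  have hcard' : Fintype.card ι ≤ r := by
    rw [Cardinal.mk_fintype, Fintype.card_option] at hcard
    have : Fintype.card ι + 1 ≤ r + 1 := by exact_mod_cast hcard
    omega
  obtain ⟨e⟩ : Nonempty (ι ↪ Fin r) :=
    Function.Embedding.nonempty_of_card_le (by rw [Fintype.card_fin]; exact hcard')
  -- the coordinates
  let w : Fin r → V := fun l => if h : ∃ i, e i = l then u h.choose else 0
  have hw : ∀ i, w (e i) = u i := by
    intro i
    have h : ∃ j, e j = e i := ⟨i, rfl⟩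
    simp only [w]
    rw [dif_pos h]
    congr 1
    exact e.injective h.choose_spec
  let ω : Option (Fin r) → KaehlerDifferential ℂ V := fun o =>
    o.elim (KaehlerDifferential.D ℂ V t) (fun l => KaehlerDifferential.D ℂ V (w l))
  have hspan : Submodule.span V (Set.range ω) = ⊤ := by
    have h1 := DvrCoords_span V t ht u (by
      obtain ⟨b, hb⟩ := DvrCoords_basis (IsLocalRing.ResidueField V) ub hub
      simp only [hu, ← hb]
      exact b.span_eq)
    rw [eq_top_iff, ← h1]
    refine Submodule.span_mono ?_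
    rintro _ ⟨o, rfl⟩
    rcases o with _ | i
    · exact ⟨none, rfl⟩
    · refine ⟨some (e i), ?_⟩
      simp only [ω, Option.elim, hw]
  -- the rank
  let K := FractionRing V
  have hK : Algebra.trdeg ℂ K = (r + 1 : ℕ) := by
    have : Algebra.IsAlgebraic V K := IsLocalization.isAlgebraic K (nonZeroDivisors V)
    have h := trdeg_add_eq ℂ V (A := K)
    rw [trdeg_eq_zero (R := V) (A := K), add_zero] at h
    rw [← h, hr]
  obtain ⟨ι', x, hx⟩ := exists_isTranscendenceBasis' ℂ K
  obtain ⟨bK, -⟩ := DvrCoords_basis K x hx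
  have hrank : Module.finrank K (KaehlerDifferential ℂ K) = r + 1 := by
    rw [Module.finrank, ← bK.mk_eq_rank'', hx.cardinalMk_eq_trdeg, hK]
    exact Cardinal.toNat_natCast _
  have hspanK : Submodule.span K (Set.range fun o => KaehlerDifferential.map ℂ ℂ V K (ω o)) = ⊤ := by
    have h1 := span_eq_top_of_isLocalizedModule K (nonZeroDivisors V)
      (KaehlerDifferential.map ℂ ℂ V K) hspan
    rw [← Set.range_comp] at h1
    exact h1
  have hliK : LinearIndependent K fun o => KaehlerDifferential.map ℂ ℂ V K (ω o) := by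
    refine linearIndependent_of_top_le_span_of_card_eq_finrank hspanK.ge ?_
    rw [hrank, Fintype.card_option, Fintype.card_fin]
  have hli : LinearIndependent V ω := by
    have h1 : LinearIndependent V fun o => KaehlerDifferential.map ℂ ℂ V K (ω o) :=
      hliK.restrict_scalars' V
    exact LinearIndependent.of_comp (KaehlerDifferential.map ℂ ℂ V K) h1
  refine ⟨t, w, Module.Basis.mk hli hspan.ge, ht, ?_, fun l => ?_⟩
  · rw [Module.Basis.mk_apply]
    rfl
  · rw [Module.Basis.mk_apply]
    rfl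

end Pool.Agent.Lib_GD

end

/-! ### from `Lib_KF.SHRoot` -/

section

/-!
# SH5a: analytic roots
-/

open scoped ENNReal NNReal

namespace Pool.Agent.Lib_KF

private theorem shroot_cd {N D : ℕ} (c : Fin D → MvPolynomial (Fin N) ℂ) :
    ContDiff ℂ (⊤ : WithTop ℕ∞) (fun u : (Fin N → ℂ) × ℂ =>
      u.2 ^ D + ∑ i : Fin D, MvPolynomial.eval u.1 (c i) * u.2 ^ (i : ℕ)) := by
  have h : ∀ p : MvPolynomial (Fin N) ℂ,
      ContDiff ℂ (⊤ : WithTop ℕ∞) (fun y : Fin N → ℂ => MvPolynomial.eval y p) := by
    intro p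
    induction p using MvPolynomial.induction_on with
    | C a => simpa using contDiff_const
    | add p q hp hq => simpa using hp.add hq
    | mul_X p i hp => simpa using hp.mul (contDiff_apply ℂ ℂ i)
  exact (contDiff_snd.pow D).add (ContDiff.sum fun i _ =>
    ((h (c i)).comp contDiff_fst).mul (contDiff_snd.pow (i : ℕ)))

/-- a simple root of a monic polynomial with analytic coefficients is analytic -/
theorem sh_root {N D : ℕ} (c : Fin D → MvPolynomial (Fin N) ℂ) (y₀ : Fin N → ℂ) (z₀ : ℂ)
    (h0 : z₀ ^ D + ∑ i : Fin D, MvPolynomial.eval y₀ (c i) * z₀ ^ (i : ℕ) = 0)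
    (h1 : D * z₀ ^ (D - 1) + ∑ i : Fin D, MvPolynomial.eval y₀ (c i) *
      ((i : ℕ) * z₀ ^ ((i : ℕ) - 1)) ≠ 0) :
    ∃ (ε : ℝ) (z : (Fin N → ℂ) → ℂ), 0 < ε ∧ z y₀ = z₀ ∧
      AnalyticOnNhd ℂ z (Metric.ball y₀ ε) ∧
      ∀ y ∈ Metric.ball y₀ ε,
        z y ^ D + ∑ i : Fin D, MvPolynomial.eval y (c i) * z y ^ (i : ℕ) = 0 := by
  set f : (Fin N → ℂ) × ℂ → ℂ := fun u =>
    u.2 ^ D + ∑ i : Fin D, MvPolynomial.eval u.1 (c i) * u.2 ^ (i : ℕ) with hf
  have hcd : ContDiffAt ℂ (⊤ : WithTop ℕ∞) f (y₀, z₀) := (shroot_cd c).contDiffAt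
  have hne : (⊤ : WithTop ℕ∞) ≠ 0 := by simp
  set a : ℂ := D * z₀ ^ (D - 1) + ∑ i : Fin D, MvPolynomial.eval y₀ (c i) *
      ((i : ℕ) * z₀ ^ ((i : ℕ) - 1)) with ha
  have hfd : HasFDerivAt f (fderiv ℂ f (y₀, z₀)) (y₀, z₀) :=
    (hcd.differentiableAt hne).hasFDerivAt
  have hcomp : fderiv ℂ f (y₀, z₀) ∘L ContinuousLinearMap.inr ℂ (Fin N → ℂ) ℂ =
      ContinuousLinearMap.toSpanSingleton ℂ a := by
    have hin : HasFDerivAt (fun z : ℂ => (y₀, z)) (ContinuousLinearMap.inr ℂ (Fin N → ℂ) ℂ) z₀ :=
      hasFDerivAt_prodMk_right y₀ z₀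
    have h2 : HasFDerivAt (fun z : ℂ => f (y₀, z))
        (fderiv ℂ f (y₀, z₀) ∘L ContinuousLinearMap.inr ℂ (Fin N → ℂ) ℂ) z₀ :=
      HasFDerivAt.comp z₀ hfd hin
    have h3 : HasDerivAt (fun z : ℂ => f (y₀, z)) a z₀ := by
      have h4 : HasDerivAt (fun z : ℂ => z ^ D) (D * z₀ ^ (D - 1)) z₀ := hasDerivAt_pow D z₀
      have h5 : ∀ i : Fin D, HasDerivAt
          (fun z : ℂ => MvPolynomial.eval y₀ (c i) * z ^ (i : ℕ))
          (MvPolynomial.eval y₀ (c i) * ((i : ℕ) * z₀ ^ ((i : ℕ) - 1))) z₀ := fun i =>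
        (hasDerivAt_pow (i : ℕ) z₀).const_mul _
      exact h4.add (HasDerivAt.fun_sum fun i _ => h5 i)
    exact h2.unique h3.hasFDerivAt
  have hinv : (fderiv ℂ f (y₀, z₀) ∘L ContinuousLinearMap.inr ℂ (Fin N → ℂ) ℂ).IsInvertible := by
    rw [hcomp]
    refine ⟨ContinuousLinearEquiv.unitsEquivAut ℂ (Units.mk0 a h1), ?_⟩
    ext
    simp
  have hz := hcd.contDiffAt_implicitFunction hne hinv
  set z := hcd.implicitFunction hne hinv with hzdef
  have hz0 : z y₀ = z₀ := hcd.implicitFunction_apply_self hne hinv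
  have hev := hcd.eventually_apply_implicitFunction hne hinv
  have hana : AnalyticAt ℂ z y₀ := ContDiffAt.analyticAt hz
  have hev2 := hana.eventually_analyticAt
  obtain ⟨ε, hε, hball⟩ := Metric.eventually_nhds_iff_ball.1 (hev.and hev2)
  refine ⟨ε, z, hε, hz0, fun y hy => (hball y hy).2, fun y hy => ?_⟩
  have h6 := (hball y hy).1
  rw [← hzdef] at h6
  have h7 : f (y₀, z₀) = 0 := h0
  rw [h7] at h6
  exact h6

end Pool.Agent.Lib_KF

end

/-! ### from `Lib_KF.KCNor` -/

section

/-!
# KC10: a normal noetherian domain is the intersection of its localizations at primes of height one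
-/

namespace Pool.Agent.Lib_KF

private theorem kcNor_prime {R : Type} [CommRing R] [IsNoetherianRing R] {N D : R}
    (hND : ¬ D ∣ N) :
    ∃ (p : Ideal R) (f₀ : R), p.IsPrime ∧ ∀ f, f ∈ p ↔ D ∣ f * (f₀ * N) := by
  classical
  set x : R ⧸ Ideal.span {D} := Ideal.Quotient.mk (Ideal.span {D}) N with hx
  have hx0 : x ≠ 0 := by
    intro h
    rw [hx, Ideal.Quotient.eq_zero_iff_mem, Ideal.mem_span_singleton] at h
    exact hND h
  let x' : Submodule.span R {x} := ⟨x, Submodule.mem_span_singleton_self x⟩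
  have hx' : x' ≠ 0 := fun h => hx0 (congrArg Subtype.val h)
  obtain ⟨p, hp, -⟩ := exists_le_isAssociatedPrime_of_isNoetherianRing (R := R) x' hx'
  rw [isAssociatedPrime_iff] at hp
  obtain ⟨hprime, y, hy⟩ := hp
  obtain ⟨f₀, hf₀⟩ := Submodule.mem_span_singleton.mp y.2
  refine ⟨p, f₀, hprime, fun f => ?_⟩
  have hsm : ∀ r : R, r • x = Ideal.Quotient.mk (Ideal.span {D}) (r * N) := by
    intro r
    rw [hx, map_mul]
    rfl
  have h1 : f ∈ p ↔ f • y = 0 := by
    rw [hy, Submodule.mem_colon_singleton, Submodule.mem_bot]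
  have h2 : f • y = 0 ↔ f • (y : R ⧸ Ideal.span {D}) = 0 := by
    rw [← Submodule.coe_smul, Submodule.coe_eq_zero]
  rw [h1, h2, ← hf₀, smul_smul, hsm, Ideal.Quotient.eq_zero_iff_mem, Ideal.mem_span_singleton,
    mul_assoc]

private theorem kcNor_dvr {S : Type} [CommRing S] [IsDomain S] [IsLocalRing S]
    [IsNoetherianRing S] [IsIntegrallyClosed S] {a d : S} (hd : d ≠ 0) (had : ¬ d ∣ a)
    (hm : ∀ m ∈ IsLocalRing.maximalIdeal S, d ∣ a * m)
    (hne : IsLocalRing.maximalIdeal S ≠ ⊥) : IsDiscreteValuationRing S := by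
  classical
  have ha : a ≠ 0 := by
    rintro rfl
    exact had (dvd_zero d)
  have hprin : ∃ m₁ ∈ IsLocalRing.maximalIdeal S, ∀ n ∈ IsLocalRing.maximalIdeal S,
      a * m₁ ≠ d * n := by
    by_contra hcon
    push Not at hcon
    let K := FractionRing S
    have hd' : algebraMap S K d ≠ 0 := by
      intro h
      exact hd ((IsFractionRing.injective S K) (by rw [h, map_zero]))
    let t : K := algebraMap S K a / algebraMap S K d
    let Nn : Submodule S K := Submodule.map (Algebra.linearMap S K) (IsLocalRing.maximalIdeal S)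
    have hint : IsIntegral S t := by
      refine isIntegral_of_smul_mem_submodule Nn ?_ ?_ t ?_
      · intro hbot
        apply hne
        rw [eq_bot_iff]
        intro z hz
        have : Algebra.linearMap S K z ∈ Nn := Submodule.mem_map_of_mem hz
        rw [hbot, Submodule.mem_bot] at this
        rw [Submodule.mem_bot]
        exact (IsFractionRing.injective S K) (by rw [map_zero]; exact this)
      · exact Submodule.FG.map _ (IsNoetherian.noetherian _)
      · rintro _ ⟨m, hmm, rfl⟩
        obtain ⟨n, hn, hmn⟩ := hcon m hmm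
        refine ⟨n, hn, ?_⟩
        rw [Algebra.linearMap_apply, Algebra.linearMap_apply, smul_eq_mul]
        have h3 : algebraMap S K a * algebraMap S K m = algebraMap S K d * algebraMap S K n := by
          rw [← map_mul, ← map_mul, hmn]
        rw [div_mul_eq_mul_div, h3, mul_div_cancel_left₀ _ hd']
    obtain ⟨y, hy⟩ := IsIntegrallyClosed.algebraMap_eq_of_integral hint
    apply had
    refine ⟨y, ?_⟩
    apply IsFractionRing.injective S K
    rw [map_mul, hy]
    exact (mul_div_cancel₀ _ hd').symm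
  obtain ⟨m₁, hm₁, hno⟩ := hprin
  obtain ⟨u, hu⟩ := hm m₁ hm₁
  have hunit : IsUnit u := by
    by_contra hnu
    exact hno u ((IsLocalRing.mem_maximalIdeal u).mpr hnu) hu
  obtain ⟨v, hv⟩ := hunit.exists_right_inv
  have hmax : IsLocalRing.maximalIdeal S = Ideal.span {m₁} := by
    apply le_antisymm
    · intro m hmm
      obtain ⟨c, hc⟩ := hm m hmm
      rw [Ideal.mem_span_singleton]
      refine ⟨v * c, ?_⟩
      apply mul_left_cancel₀ ha
      calc a * m = d * c := hc
        _ = d * (u * v) * c := by rw [hv, mul_one]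
        _ = (d * u) * (v * c) := by ring
        _ = a * (m₁ * (v * c)) := by rw [← hu, mul_assoc]
    · rw [Ideal.span_singleton_le_iff_mem]
      exact hm₁
  have hnf : ¬ IsField S := fun h => hne (IsLocalRing.isField_iff_maximalIdeal_eq.mp h)
  have hT := (IsDiscreteValuationRing.TFAE S hnf).out 4 0
  exact hT.mp ⟨⟨m₁, hmax⟩⟩

/-- Proof: let `I = {f | D ∣ f N} ≠ ⊤` and let `p = (D : g)`, `g ∈ (N)` modulo `D`, be an associated
prime of the cyclic submodule of `R / D` generated by `N` (`R` noetherian), so `p = {f | D ∣ f g}`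
is prime, `D ∤ g` and `g = f₀ N` modulo `D`. In `S = R_p` with maximal ideal `𝔪` we have `(g / D) 𝔪 ⊆ S`; if `(g / D) 𝔪 ⊆ 𝔪` then
`g / D` is integral over `S` (Cayley-Hamilton, `𝔪` is finitely generated and faithful), so `D ∣ g`
in `S`, i.e. some `s ∉ p` has `D ∣ s g`: contradiction. So `(g / D) 𝔪 = S`, `𝔪 = (D / g)` is
principal, `𝔪 ≠ 0`, `S` is a discrete valuation ring and `p` has height one (Krull). And `D ∤ N` in `S`,
otherwise `D ∣ g` in `S`. -/
theorem kc_normal {R : Type} [CommRing R] [IsDomain R] [IsNoetherianRing R]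
    [IsIntegrallyClosed R] {N D : R} (hD : D ≠ 0) (hND : ¬ D ∣ N) :
    ∃ (p : Ideal R) (_ : p.IsPrime), p.height = 1 ∧
      ∃ _ : IsDomain (Localization.AtPrime p),
        IsDiscreteValuationRing (Localization.AtPrime p) ∧
        ¬ algebraMap R (Localization.AtPrime p) D ∣ algebraMap R (Localization.AtPrime p) N := by
  classical
  obtain ⟨p, f₀, hp, hmem⟩ := kcNor_prime hND
  have := hp
  let S := Localization.AtPrime p
  have hle : p.primeCompl ≤ nonZeroDivisors R := Ideal.primeCompl_le_nonZeroDivisors p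
  have hdom : IsDomain S := IsLocalization.isDomain_localization hle
  have : IsNoetherianRing S := IsLocalization.isNoetherianRing p.primeCompl S inferInstance
  have : IsIntegrallyClosed S := isIntegrallyClosed_of_isLocalization S p.primeCompl hle
  have hinj : Function.Injective (algebraMap R S) := IsLocalization.injective S hle
  have hd : algebraMap R S D ≠ 0 := fun h => hD (hinj (by rw [h, map_zero]))
  have key : ¬ algebraMap R S D ∣ algebraMap R S (f₀ * N) := by
    rintro ⟨c, hc⟩
    obtain ⟨⟨r, s⟩, hrs⟩ := IsLocalization.mk'_surjective p.primeCompl c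
    have h1 : algebraMap R S (s : R) * c = algebraMap R S r := by
      rw [← hrs]
      exact IsLocalization.mk'_spec' S r s
    have h2 : algebraMap R S ((s : R) * (f₀ * N)) = algebraMap R S (D * r) := by
      rw [map_mul _ (s : R), hc, map_mul, ← h1]
      ring
    have h3 := hinj h2
    exact s.2 ((hmem _).mpr ⟨r, h3⟩)
  have hall : ∀ m ∈ IsLocalRing.maximalIdeal S, algebraMap R S D ∣ algebraMap R S (f₀ * N) * m := by
    intro m hm
    obtain ⟨⟨r, s⟩, hrs⟩ := IsLocalization.mk'_surjective p.primeCompl m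
    have hr : r ∈ p := by
      have h1 : algebraMap R S r = m * algebraMap R S (s : R) := by
        rw [← hrs]
        exact (IsLocalization.mk'_spec S r s).symm
      have h2 : algebraMap R S r ∈ IsLocalRing.maximalIdeal S := by
        rw [h1]
        exact Ideal.mul_mem_right _ _ hm
      exact (IsLocalization.AtPrime.to_map_mem_maximal_iff S p r).mp h2
    obtain ⟨c, hc⟩ := (hmem r).mp hr
    have hrs' : IsLocalization.mk' S r s = m := hrs
    have h4 : m = IsLocalization.mk' S 1 s * algebraMap R S r := by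
      rw [← hrs', IsLocalization.mk'_eq_mul_mk'_one (S := S) r s, mul_comm]
    refine ⟨IsLocalization.mk' S 1 s * algebraMap R S c, ?_⟩
    calc algebraMap R S (f₀ * N) * m = IsLocalization.mk' S 1 s * algebraMap R S (r * (f₀ * N)) := by
          rw [h4, map_mul _ r]; ring
      _ = IsLocalization.mk' S 1 s * (algebraMap R S D * algebraMap R S c) := by
          rw [hc, map_mul]
      _ = _ := by ring
  have hne : IsLocalRing.maximalIdeal S ≠ ⊥ := by
    intro hbot
    have hDp : D ∈ p := (hmem D).mpr (Dvd.intro _ rfl)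
    have := (IsLocalization.AtPrime.to_map_mem_maximal_iff S p D).mpr hDp
    rw [hbot, Ideal.mem_bot] at this
    exact hd this
  have hdvr : IsDiscreteValuationRing S := kcNor_dvr hd key hall hne
  refine ⟨p, hp, ?_, hdom, hdvr, ?_⟩
  · have h1 := IsLocalization.AtPrime.ringKrullDim_eq_height p S
    rw [IsDiscreteValuationRing.ringKrullDim_eq_one S] at h1
    exact_mod_cast h1.symm
  · intro h
    apply key
    rw [map_mul]
    exact Dvd.dvd.mul_left h _

end Pool.Agent.Lib_KF

end

/-! ### from `Lib_MP_e0d435_kv.Defs` -/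

section

/-!
# Log-differential discretely valued fields

Used as fields of values of families of arcs.
-/

namespace Pool.Agent.Lib_MP_e0d435_kv

/-- The integral order of an element (meaningful for `f ≠ 0`; `0` for `f = 0`). -/
noncomputable def ordZ {M : Type} [Field M] (w : AddValuation M (WithTop ℤ)) (f : M) : ℤ :=
  (w f).untopD 0

/-- The valuation ring. -/
def vring {M : Type} [Field M] (w : AddValuation M (WithTop ℤ)) : Subring M where
  carrier := {f | 0 ≤ w f}
  mul_mem' {a b} ha hb := by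
    have h := add_nonneg (show (0 : WithTop ℤ) ≤ w a from ha) (show (0 : WithTop ℤ) ≤ w b from hb)
    show 0 ≤ w (a * b)
    rw [AddValuation.map_mul]; exact h
  one_mem' := by show 0 ≤ w 1; rw [AddValuation.map_one]
  add_mem' {a b} ha hb := by
    show 0 ≤ w (a + b)
    exact (le_min (show (0 : WithTop ℤ) ≤ w a from ha) (show (0 : WithTop ℤ) ≤ w b from hb)).trans
      (AddValuation.map_add w a b)
  zero_mem' := by show 0 ≤ w 0; rw [AddValuation.map_zero]; exact le_top
  neg_mem' {a} ha := by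
    show 0 ≤ w (-a)
    rw [AddValuation.map_neg]; exact ha

/-- A log-differential discretely valued field: a field `M` over `ℂ` with a normalised discrete
valuation `w` and derivations `d_1, …, d_k` with `w (d_i f) ≥ w f` for all `f`. -/
structure LDF (k : ℕ) where
  M : Type
  [field : Field M]
  [algebra : Algebra ℂ M]
  w : AddValuation M (WithTop ℤ)
  t : M
  w_t : w t = 1
  d : Fin k → Derivation ℂ M M
  log : ∀ i f, w f ≤ w (d i f)

attribute [instance] LDF.field LDF.algebra

/-- The Jacobian determinant `det (d_i x_j)` of a `k`-tuple. -/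
noncomputable def LDF.jac {k : ℕ} (Λ : LDF k) (x : Fin k → Λ.M) : Λ.M :=
  Matrix.det (Matrix.of fun i j : Fin k => Λ.d i (x j))

/-- The logarithm of `|a|` to the base `ε`. -/
noncomputable def lg (ε : ℝ) (a : ℂ) : ℝ := Real.log ‖a‖ / Real.log ε

/-- The order `o` is `q log_ε |a|` up to `q η`. -/
def Approx (q ε η : ℝ) (o : ℤ) (a : ℂ) : Prop := |(o : ℝ) - q * lg ε a| ≤ q * η

/-- Polynomials in `k` variables. -/
abbrev Pol (k : ℕ) : Type := MvPolynomial (Fin k) ℂ

/-- Rational functions in `k` variables. -/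
abbrev Rat (k : ℕ) : Type := FractionRing (Pol k)

/-- The embedding of the polynomials in an extension field of the field of rational functions. -/
noncomputable def toN (k : ℕ) (N : Type) [Field N] [Algebra (Rat k) N] : Pol k →+* N :=
  (algebraMap (Rat k) N).comp (algebraMap (Pol k) (Rat k))

/-- `(y, ζ)` is a specialisation of `(X, z)`: all polynomial relations over `ℂ` between the
variables `X_1, …, X_k` (embedded by `f`) and the `z_i` hold for `y` and `ζ`. -/
def Specialises {k P : ℕ} {N : Type} [CommRing N] (f : Pol k →+* N) (z : Fin P → N)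
    (y : Fin k → ℂ) (ζ : Fin P → ℂ) : Prop :=
  ∀ p : MvPolynomial (Fin P) (Pol k), MvPolynomial.eval₂ f z p = 0 →
    MvPolynomial.eval₂ (MvPolynomial.eval y) ζ p = 0

/-- Splitting data for a family `g` of polynomials in `k + 1` variables, `X_0` being the main
variable: `g i = lead i ∏ (X_0 - ρ a) ^ (mult i a)` over the finite Galois extension `N` of the
field of rational functions in the other variables; `0` is one of the `ρ a`. -/
structure RootData (k J : ℕ) (g : Fin J → Pol (k + 1)) where
  N : Type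
  [field : Field N]
  [algebra : Algebra (Rat k) N]
  [finite : FiniteDimensional (Rat k) N]
  [galois : IsGalois (Rat k) N]
  D : ℕ
  ρ : Fin D → N
  inj : Function.Injective ρ
  zero : ∃ a, ρ a = 0
  lead : Fin J → Pol k
  lead_ne : ∀ i, lead i ≠ 0
  mult : Fin J → Fin D → ℕ
  factor : ∀ i, (MvPolynomial.finSuccEquiv ℂ k (g i)).map (toN k N) =
    Polynomial.C (toN k N (lead i)) *
      ∏ a, (Polynomial.X - Polynomial.C (ρ a)) ^ (mult i a)
  root : ∀ a, ρ a = 0 ∨ ∃ i, 0 < mult i a

attribute [instance] RootData.field RootData.algebra RootData.finite RootData.galois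

end Pool.Agent.Lib_MP_e0d435_kv

end

/-! ### from `Lib_MP_e0d435_kv.Basic` -/

section

/-! Elementary facts on orders. -/

namespace Pool.Agent.Lib_MP_e0d435_kv

section

variable {M : Type} [Field M] (w : AddValuation M (WithTop ℤ))

theorem w_eq {f : M} (hf : f ≠ 0) : w f = (ordZ w f : WithTop ℤ) := by
  unfold ordZ
  have h : w f ≠ ⊤ := (AddValuation.ne_top_iff w).2 hf
  obtain ⟨a, ha⟩ := WithTop.ne_top_iff_exists.1 h
  rw [← ha]; rfl

theorem le_w_iff {f : M} (hf : f ≠ 0) (a : ℤ) : (a : WithTop ℤ) ≤ w f ↔ a ≤ ordZ w f := by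
  rw [w_eq w hf, WithTop.coe_le_coe]

theorem lt_w_iff {f : M} (hf : f ≠ 0) (a : ℤ) : (a : WithTop ℤ) < w f ↔ a < ordZ w f := by
  rw [w_eq w hf, WithTop.coe_lt_coe]

theorem mem_vring {f : M} : f ∈ vring w ↔ 0 ≤ w f := Iff.rfl

theorem ordZ_eq_of_w {f : M} {a : ℤ} (h : w f = (a : WithTop ℤ)) : ordZ w f = a := by
  unfold ordZ; rw [h]; rfl

@[simp] theorem ordZ_one : ordZ w 1 = 0 := ordZ_eq_of_w w (by rw [AddValuation.map_one]; rfl)

theorem ordZ_mul {f g : M} (hf : f ≠ 0) (hg : g ≠ 0) : ordZ w (f * g) = ordZ w f + ordZ w g := by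
  apply ordZ_eq_of_w
  rw [AddValuation.map_mul, w_eq w hf, w_eq w hg, WithTop.coe_add]

theorem ordZ_neg (f : M) : ordZ w (-f) = ordZ w f := by
  unfold ordZ; rw [AddValuation.map_neg]

theorem ordZ_inv {f : M} (hf : f ≠ 0) : ordZ w f⁻¹ = - ordZ w f := by
  have h := ordZ_mul w hf (inv_ne_zero hf)
  rw [mul_inv_cancel₀ hf, ordZ_one] at h
  omega

theorem ordZ_div {f g : M} (hf : f ≠ 0) (hg : g ≠ 0) : ordZ w (f / g) = ordZ w f - ordZ w g := by
  rw [div_eq_mul_inv, ordZ_mul w hf (inv_ne_zero hg), ordZ_inv w hg]; ring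

theorem ordZ_pow {f : M} (hf : f ≠ 0) (n : ℕ) : ordZ w (f ^ n) = n * ordZ w f := by
  induction n with
  | zero => simp
  | succ n ih => rw [pow_succ, ordZ_mul w (pow_ne_zero n hf) hf, ih]; push_cast; ring

theorem ordZ_zpow {f : M} (hf : f ≠ 0) (n : ℤ) : ordZ w (f ^ n) = n * ordZ w f := by
  obtain ⟨m, rfl | rfl⟩ := n.eq_nat_or_neg
  · rw [zpow_natCast, ordZ_pow w hf]
  · rw [zpow_neg, zpow_natCast, ordZ_inv w (pow_ne_zero m hf), ordZ_pow w hf]; ring

theorem ordZ_prod {ι : Type} (s : Finset ι) (f : ι → M) (hf : ∀ i ∈ s, f i ≠ 0) :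
    ordZ w (∏ i ∈ s, f i) = ∑ i ∈ s, ordZ w (f i) := by
  classical
  induction s using Finset.induction_on with
  | empty => simp
  | insert i s hi ih =>
    rw [Finset.prod_insert hi, Finset.sum_insert hi, ordZ_mul w (hf i (Finset.mem_insert_self i s))
      (Finset.prod_ne_zero_iff.2 fun j hj => hf j (Finset.mem_insert_of_mem hj)),
      ih fun j hj => hf j (Finset.mem_insert_of_mem hj)]

theorem ordZ_add_ge {f g : M} (h : f + g ≠ 0) (c : ℤ) (hf : f = 0 ∨ c ≤ ordZ w f)
    (hg : g = 0 ∨ c ≤ ordZ w g) : c ≤ ordZ w (f + g) := by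
  rw [← le_w_iff w h]
  refine (le_min ?_ ?_).trans (AddValuation.map_add w f g)
  · by_cases h0 : f = 0
    · rw [h0, AddValuation.map_zero]; exact le_top
    · rw [le_w_iff w h0]; exact hf.resolve_left h0
  · by_cases h0 : g = 0
    · rw [h0, AddValuation.map_zero]; exact le_top
    · rw [le_w_iff w h0]; exact hg.resolve_left h0

theorem le_w_sum {ι : Type} (s : Finset ι) (f : ι → M) (c : WithTop ℤ)
    (hf : ∀ i ∈ s, c ≤ w (f i)) : c ≤ w (∑ i ∈ s, f i) := by
  classical
  induction s using Finset.induction_on with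
  | empty => rw [Finset.sum_empty, AddValuation.map_zero]; exact le_top
  | insert i s hi ih =>
    rw [Finset.sum_insert hi]
    exact (le_min (hf i (Finset.mem_insert_self i s))
      (ih fun j hj => hf j (Finset.mem_insert_of_mem hj))).trans (AddValuation.map_add w _ _)

theorem lt_w_sum {ι : Type} (s : Finset ι) (f : ι → M) (c : ℤ)
    (hf : ∀ i ∈ s, (c : WithTop ℤ) < w (f i)) : (c : WithTop ℤ) < w (∑ i ∈ s, f i) := by
  classical
  induction s using Finset.induction_on with
  | empty => rw [Finset.sum_empty, AddValuation.map_zero]; exact WithTop.coe_lt_top c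
  | insert i s hi ih =>
    rw [Finset.sum_insert hi]
    exact (lt_min (hf i (Finset.mem_insert_self i s))
      (ih fun j hj => hf j (Finset.mem_insert_of_mem hj))).trans_le (AddValuation.map_add w _ _)

theorem ordZ_add_of_lt {f g : M} (hf : f ≠ 0) (h : g = 0 ∨ ordZ w f < ordZ w g) :
    f + g ≠ 0 ∧ ordZ w (f + g) = ordZ w f := by
  have hlt : w f < w g := by
    rw [w_eq w hf]
    by_cases hg : g = 0
    · rw [hg, AddValuation.map_zero]; exact WithTop.coe_lt_top _
    · rw [lt_w_iff w hg]; exact h.resolve_left hg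
  have h1 : w (f + g) = w f := by
    exact AddValuation.map_add_eq_of_lt_left w hlt
  have h2 : f + g ≠ 0 := by
    rw [← AddValuation.ne_top_iff w, h1, w_eq w hf]; exact WithTop.coe_ne_top
  refine ⟨h2, ?_⟩
  unfold ordZ; rw [h1]

variable [Algebra ℂ M]

/-- A discrete valuation is trivial on `ℂ`, because `ℂ*` is divisible. -/
theorem w_algebraMap (a : ℂ) (ha : a ≠ 0) : w (algebraMap ℂ M a) = 0 := by
  have key : ∀ b : ℂ, b ≠ 0 → ordZ w (algebraMap ℂ M b) ≤ 0 := by
    intro b hb
    have hmap : ∀ c : ℂ, c ≠ 0 → algebraMap ℂ M c ≠ 0 := fun c hc => by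
      rwa [Ne, _root_.map_eq_zero]
    set m := ordZ w (algebraMap ℂ M b) with hm
    by_contra hcon
    push Not at hcon
    obtain ⟨c, hc⟩ : ∃ c : ℂ, c ^ (m.toNat + 1) = b :=
      IsAlgClosed.exists_pow_nat_eq b (Nat.succ_pos _)
    have hc0 : c ≠ 0 := by rintro rfl; exact hb (by rw [← hc, zero_pow (Nat.succ_ne_zero _)])
    have h1 : m = ((m.toNat + 1 : ℕ) : ℤ) * ordZ w (algebraMap ℂ M c) := by
      rw [← ordZ_pow w (hmap c hc0), ← map_pow, hc]
    have h2 : (m.toNat : ℤ) = m := Int.toNat_of_nonneg hcon.le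
    push_cast at h1
    rw [h2] at h1
    have h3 : 0 < ordZ w (algebraMap ℂ M c) := by
      by_contra h4
      push Not at h4
      nlinarith
    nlinarith
  have hne : algebraMap ℂ M a ≠ 0 := by rwa [Ne, _root_.map_eq_zero]
  have h1 := key a ha
  have h2 := key a⁻¹ (inv_ne_zero ha)
  rw [map_inv₀, ordZ_inv w hne] at h2
  rw [w_eq w hne, show ordZ w (algebraMap ℂ M a) = 0 by omega]; rfl

theorem ordZ_algebraMap (a : ℂ) : ordZ w (algebraMap ℂ M a) = 0 := by
  by_cases ha : a = 0
  · rw [ha, map_zero]; unfold ordZ; rw [AddValuation.map_zero]; rfl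
  · exact ordZ_eq_of_w w (by rw [w_algebraMap w a ha]; rfl)

end

namespace LDF

variable {k : ℕ} (Λ : LDF k)

theorem t_ne : Λ.t ≠ 0 := by
  intro h
  have := Λ.w_t
  rw [h, AddValuation.map_zero] at this
  exact absurd this (by decide)

@[simp] theorem ordZ_t : ordZ Λ.w Λ.t = 1 := ordZ_eq_of_w _ (by rw [Λ.w_t]; rfl)

theorem ordZ_le_d (i : Fin k) {f : Λ.M} (hf : f ≠ 0) (hd : Λ.d i f ≠ 0) :
    ordZ Λ.w f ≤ ordZ Λ.w (Λ.d i f) := by
  have h := Λ.log i f
  rw [w_eq _ hf, w_eq _ hd] at h
  exact_mod_cast h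

theorem exists_ord (p : ℤ) : ∃ f : Λ.M, f ≠ 0 ∧ ordZ Λ.w f = p :=
  ⟨Λ.t ^ p, zpow_ne_zero _ Λ.t_ne, by rw [ordZ_zpow _ Λ.t_ne, ordZ_t, mul_one]⟩

end LDF

end Pool.Agent.Lib_MP_e0d435_kv

end

/-! ### from `Lib_MP_e0d435_kv.Vring` -/

section

/-! V01: the valuation ring of a discrete valuation of a subfield.

`K` is a subfield of `M` on which `w` is not trivial, `V = {f ∈ K : w f ≥ 0}`. Proof: the least
positive value `e` of `w` on `K` is taken at `t ∈ K`; as `w (K*)` is a subgroup of `ℤ` it is `e ℤ`;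
every non-zero `f ∈ V` is `t ^ q` times a unit of `V` (`IsDiscreteValuationRing` of
`HasUnitMulPowIrreducibleFactorization`, see `ArcDivisor_dvr` in
`Pool/Agent/Lib_GD/ArcDivisor.lean`, which can be adapted). Every element of `K` is a quotient
of two elements of `V` (`f` or `f⁻¹` is in `V`). -/

namespace Pool.Agent.Lib_MP_e0d435_kv

/-- The valuation ring of `w` on a subfield `K`. -/
def vsub {M : Type} [Field M] (w : AddValuation M (WithTop ℤ)) (K : Subfield M) : Subring M :=
  K.toSubring ⊓ vring w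

theorem vsub_isFractionRing {M : Type} [Field M] (w : AddValuation M (WithTop ℤ))
    (K : Subfield M) (f : M) (hf : f ∈ K) : ∃ a b : vsub w K, b ≠ 0 ∧ f * b = a := by
  by_cases h0 : 0 ≤ w f
  · exact ⟨⟨f, hf, h0⟩, 1, one_ne_zero, by simp⟩
  · have hne : f ≠ 0 := by
      rintro rfl
      apply h0
      rw [AddValuation.map_zero]; exact le_top
    have h1 : 0 ≤ w f⁻¹ := by
      have h2 : ¬ (0 : ℤ) ≤ ordZ w f := fun h => h0 ((le_w_iff w hne 0).2 h)
      have h3 : (0 : ℤ) ≤ ordZ w f⁻¹ := by rw [ordZ_inv w hne]; omega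
      exact (le_w_iff w (inv_ne_zero hne) 0).2 h3
    refine ⟨1, ⟨f⁻¹, K.inv_mem hf, h1⟩, ?_, ?_⟩
    · intro h
      exact inv_ne_zero hne (congrArg Subtype.val h)
    · exact mul_inv_cancel₀ hne

private theorem Vring_core {V : Type} [CommRing V] [IsDomain V] (o : V → ℕ)
    (hmul : ∀ f g, f ≠ 0 → g ≠ 0 → o (f * g) = o f + o g) (hone : o 1 = 0)
    (hdvd : ∀ f g, f ≠ 0 → g ≠ 0 → o f ≤ o g → f ∣ g) (hnt : ∃ f, f ≠ 0 ∧ o f ≠ 0) :
    ∃ (e : ℕ) (_ : IsDiscreteValuationRing V), 1 ≤ e ∧
      ∀ f, f ≠ 0 → o f = e * (IsDiscreteValuationRing.addVal V f).toNat := by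
  classical
  have hunit : ∀ f : V, f ≠ 0 → o f = 0 → IsUnit f := fun f h0 h =>
    isUnit_of_dvd_one (hdvd f 1 h0 one_ne_zero (by rw [h]; exact Nat.zero_le _))
  have hunit' : ∀ f : V, IsUnit f → o f = 0 := by
    intro f hf
    obtain ⟨g, hg⟩ := hf.exists_right_inv
    have hg0 : g ≠ 0 := by rintro rfl; rw [mul_zero] at hg; exact zero_ne_one hg
    have h1 := hmul f g hf.ne_zero hg0
    rw [hg, hone] at h1
    omega
  have hex : ∃ e : ℕ, 1 ≤ e ∧ ∃ t : V, t ≠ 0 ∧ o t = e := by
    obtain ⟨f, hf, hf'⟩ := hnt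
    exact ⟨o f, Nat.one_le_iff_ne_zero.2 hf', f, hf, rfl⟩
  obtain ⟨he1, t, ht0, ht⟩ := Nat.find_spec hex
  have hmin : ∀ f : V, f ≠ 0 → o f < Nat.find hex → o f = 0 := by
    intro f hf hlt
    by_contra h0
    exact Nat.find_min hex hlt ⟨Nat.one_le_iff_ne_zero.2 h0, f, hf, rfl⟩
  generalize Nat.find hex = e at he1 ht hmin
  have htpow : ∀ q : ℕ, o (t ^ q) = q * e := by
    intro q
    induction q with
    | zero => simp [hone]
    | succ q ih => rw [pow_succ, hmul _ _ (pow_ne_zero q ht0) ht0, ih, ht]; ring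
  have hfac : ∀ f : V, f ≠ 0 → ∃ (q : ℕ) (u : V), IsUnit u ∧ f = t ^ q * u ∧ o f = q * e := by
    intro f hf
    have h1 : t ^ (o f / e) ∣ f := by
      apply hdvd _ _ (pow_ne_zero _ ht0) hf
      rw [htpow]
      exact Nat.div_mul_le_self _ e
    obtain ⟨u, hu⟩ := h1
    have hu0 : u ≠ 0 := by rintro rfl; exact hf (by rw [hu, mul_zero])
    have h2 : o f = o f / e * e + o u := by
      conv_lhs => rw [hu]
      rw [hmul _ _ (pow_ne_zero _ ht0) hu0, htpow]
    have h4 : o u < e := by
      have h5 := Nat.mod_lt (o f) (show 0 < e by omega)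
      have h6 := Nat.div_add_mod' (o f) e
      omega
    have h7 := hmin u hu0 h4
    exact ⟨o f / e, u, hunit u hu0 h7, hu, by omega⟩
  have htirr : Irreducible t := by
    constructor
    · intro hu
      have h1 := hunit' t hu
      omega
    · intro a b hab
      have ha0 : a ≠ 0 := by rintro rfl; exact ht0 (by rw [hab, zero_mul])
      have hb0 : b ≠ 0 := by rintro rfl; exact ht0 (by rw [hab, mul_zero])
      have h3 : e = o a + o b := by rw [← hmul a b ha0 hb0, ← hab, ht]
      by_cases hma : o a < e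
      · left
        exact hunit a ha0 (hmin a ha0 hma)
      · right
        exact hunit b hb0 (by omega)
  have hdvr : IsDiscreteValuationRing V := by
    apply IsDiscreteValuationRing.ofHasUnitMulPowIrreducibleFactorization
    refine ⟨t, htirr, ?_⟩
    intro f hf
    obtain ⟨q, u, hu, hfu, -⟩ := hfac f hf
    exact ⟨q, hu.unit, hfu.symm⟩
  refine ⟨e, hdvr, he1, ?_⟩
  intro f hf
  obtain ⟨q, u, hu, hfu, hord⟩ := hfac f hf
  have h1 : IsDiscreteValuationRing.addVal V f = q := by
    rw [IsDiscreteValuationRing.addVal_def f hu.unit htirr q (by rw [hfu, mul_comm]; rfl)]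
  rw [h1, hord, ENat.toNat_natCast]
  ring

private theorem Vring_units {V : Type} [CommRing V] [IsDomain V] (o : V → ℕ)
    (hmul : ∀ f g, f ≠ 0 → g ≠ 0 → o (f * g) = o f + o g) (hone : o 1 = 0)
    (hdvd : ∀ f g, f ≠ 0 → g ≠ 0 → o f ≤ o g → f ∣ g) (f : V) :
    IsUnit f ↔ f ≠ 0 ∧ o f = 0 := by
  constructor
  · intro hf
    refine ⟨hf.ne_zero, ?_⟩
    obtain ⟨g, hg⟩ := hf.exists_right_inv
    have hg0 : g ≠ 0 := by rintro rfl; rw [mul_zero] at hg; exact zero_ne_one hg
    have h1 := hmul f g hf.ne_zero hg0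
    rw [hg, hone] at h1
    omega
  · rintro ⟨h0, h⟩
    exact isUnit_of_dvd_one (hdvd f 1 h0 one_ne_zero (by rw [h]; exact Nat.zero_le _))

theorem vsub_dvr {M : Type} [Field M] (w : AddValuation M (WithTop ℤ)) (K : Subfield M)
    (hnt : ∃ f ∈ K, f ≠ 0 ∧ ordZ w f ≠ 0) :
    ∃ (e : ℕ) (_ : IsDiscreteValuationRing (vsub w K)), 1 ≤ e ∧
      (∀ f : vsub w K, f ≠ 0 →
        ordZ w (f : M) = e * (IsDiscreteValuationRing.addVal (vsub w K) f).toNat) ∧
      ∀ f : vsub w K, IsUnit f ↔ ((f : M) ≠ 0 ∧ ordZ w (f : M) = 0) := by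
  have hne : ∀ f : vsub w K, f ≠ 0 → (f : M) ≠ 0 := fun f hf h => hf (Subtype.ext h)
  have hnn : ∀ f : vsub w K, f ≠ 0 → 0 ≤ ordZ w (f : M) := fun f hf =>
    (le_w_iff w (hne f hf) 0).1 f.2.2
  have hmul : ∀ f g : vsub w K, f ≠ 0 → g ≠ 0 →
      (ordZ w ((f * g : vsub w K) : M)).toNat =
        (ordZ w (f : M)).toNat + (ordZ w (g : M)).toNat := by
    intro f g hf hg
    have h1 : ((f * g : vsub w K) : M) = (f : M) * (g : M) := rfl
    rw [h1, ordZ_mul w (hne f hf) (hne g hg)]
    have h2 := hnn f hf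
    have h3 := hnn g hg
    omega
  have hone : (ordZ w ((1 : vsub w K) : M)).toNat = 0 := by
    have h1 : ((1 : vsub w K) : M) = 1 := rfl
    rw [h1, ordZ_one]; rfl
  have hdvd : ∀ f g : vsub w K, f ≠ 0 → g ≠ 0 →
      (ordZ w (f : M)).toNat ≤ (ordZ w (g : M)).toNat → f ∣ g := by
    intro f g hf hg hle
    have hf' := hne f hf
    have hg' := hne g hg
    have h2 := hnn f hf
    have h3 := hnn g hg
    have h4 : 0 ≤ ordZ w ((g : M) / (f : M)) := by
      rw [ordZ_div w hg' hf']; omega
    refine ⟨⟨(g : M) / (f : M), K.div_mem g.2.1 f.2.1,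
      (le_w_iff w (div_ne_zero hg' hf') 0).2 h4⟩, ?_⟩
    apply Subtype.ext
    change (g : M) = (f : M) * ((g : M) / (f : M))
    field_simp
  have hnt' : ∃ f : vsub w K, f ≠ 0 ∧ (ordZ w (f : M)).toNat ≠ 0 := by
    obtain ⟨f, hfK, hf0, hf⟩ := hnt
    rcases lt_or_gt_of_ne hf with h | h
    · have h1 : 0 < ordZ w f⁻¹ := by rw [ordZ_inv w hf0]; omega
      refine ⟨⟨f⁻¹, K.inv_mem hfK, (le_w_iff w (inv_ne_zero hf0) 0).2 h1.le⟩, ?_, ?_⟩
      · intro h2; exact inv_ne_zero hf0 (congrArg Subtype.val h2)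
      · change (ordZ w f⁻¹).toNat ≠ 0; omega
    · refine ⟨⟨f, hfK, (le_w_iff w hf0 0).2 h.le⟩, ?_, ?_⟩
      · intro h2; exact hf0 (congrArg Subtype.val h2)
      · change (ordZ w f).toNat ≠ 0; omega
  obtain ⟨e, iV, he, hord⟩ := Vring_core (fun f : vsub w K => (ordZ w (f : M)).toNat)
    hmul hone hdvd hnt'
  refine ⟨e, iV, he, fun f hf => ?_, fun f => ?_⟩
  · have h1 := hord f hf
    have h2 := hnn f hf
    have h3 : ((ordZ w (f : M)).toNat : ℤ) = ordZ w (f : M) := Int.toNat_of_nonneg h2
    rw [← h3]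
    exact_mod_cast h1
  · rw [Vring_units (fun f : vsub w K => (ordZ w (f : M)).toNat) hmul hone hdvd f]
    constructor
    · rintro ⟨h1, h2⟩
      have h3 := hnn f h1
      exact ⟨hne f h1, by omega⟩
    · rintro ⟨h1, h2⟩
      refine ⟨fun h => h1 (by rw [h]; rfl), ?_⟩
      rw [h2]; rfl

private theorem Vring_eq {M : Type} [Field M] (w : AddValuation M (WithTop ℤ)) :
    vsub w ⊤ = vring w := by
  ext f
  exact ⟨fun h => h.2, fun h => ⟨trivial, h⟩⟩

/-- The valuation ring in the whole field. -/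
theorem vring_dvr {M : Type} [Field M] (w : AddValuation M (WithTop ℤ)) (t : M) (ht : w t = 1) :
    ∃ (_ : IsDiscreteValuationRing (vring w)), IsFractionRing (vring w) M ∧
      (∀ f : vring w, f ≠ 0 →
        ordZ w (f : M) = (IsDiscreteValuationRing.addVal (vring w) f).toNat) ∧
      ∀ f : vring w, f ∈ IsLocalRing.maximalIdeal (vring w) ↔ 1 ≤ w (f : M) := by
  have ht0 : t ≠ 0 := by
    rintro rfl
    rw [AddValuation.map_zero] at ht
    exact absurd ht (by decide)
  have hot : ordZ w t = 1 := ordZ_eq_of_w w (by rw [ht]; rfl)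
  have hmain := vsub_dvr w ⊤ ⟨t, trivial, ht0, by rw [hot]; decide⟩
  rw [Vring_eq w] at hmain
  obtain ⟨e, iV, he, hord, hunit⟩ := hmain
  have he1 : e = 1 := by
    have h1 := hord ⟨t, by show 0 ≤ w t; rw [ht]; decide⟩ (fun h => ht0 (congrArg Subtype.val h))
    rw [show ((⟨t, by show 0 ≤ w t; rw [ht]; decide⟩ : vring w) : M) = t from rfl, hot] at h1
    have h2 : (1 : ℕ) = e * (IsDiscreteValuationRing.addVal (vring w)
      (⟨t, by show 0 ≤ w t; rw [ht]; decide⟩ : vring w)).toNat := by exact_mod_cast h1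
    exact Nat.eq_one_of_mul_eq_one_right h2.symm
  subst he1
  refine ⟨iV, ?_, fun f hf => ?_, fun f => ?_⟩
  · refine IsFractionRing.of_field (R := vring w) (K := M) fun z => ?_
    obtain ⟨a, b, hb, hab⟩ := vsub_isFractionRing w ⊤ z trivial
    refine ⟨⟨(a : M), a.2.2⟩, ⟨(b : M), b.2.2⟩, ?_⟩
    have hb' : (b : M) ≠ 0 := fun h => hb (Subtype.ext h)
    change z = (a : M) / (b : M)
    rw [← hab]
    field_simp
  · rw [hord f hf]; simp
  · rw [IsLocalRing.mem_maximalIdeal, mem_nonunits_iff, hunit]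
    by_cases hf : (f : M) = 0
    · rw [hf, AddValuation.map_zero]
      simp
    · have h1 : (1 : WithTop ℤ) ≤ w (f : M) ↔ (1 : ℤ) ≤ ordZ w (f : M) := le_w_iff w hf 1
      have h2 : (0 : ℤ) ≤ ordZ w (f : M) := (le_w_iff w hf 0).1 f.2
      rw [h1]
      constructor
      · intro h
        by_contra h3
        exact h ⟨hf, by omega⟩
      · rintro h ⟨-, h3⟩
        omega

end Pool.Agent.Lib_MP_e0d435_kv

end

/-! ### from `Lib_MP_e0d435_kv.ValExt` -/

section

/-! V02: extension of a discrete valuation to a finite extension.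

Proof. `A = vring w` is a discrete valuation ring with fraction field `M` (V01). `B`, the integral
closure of `A` in `M'`, is a Dedekind domain with fraction field `M'`
(`integralClosure.isDedekindDomain`, `M'/M` is separable in characteristic zero) and not a field.
Let `P ≠ 0` be a maximal ideal of `B` over the maximal ideal of `A` (`B` is integral over `A`).
The `P`-adic valuation of `M'` (`IsDedekindDomain.HeightOneSpectrum.valuation`, or the localisation
`B_P`, a discrete valuation ring, and its `addVal` extended to the fraction field) is written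
additively: `w'`. `e = w' t`. For `f = t ^ m u`, `u` a unit of `A`, `w' f = e m`. An element `f`
with `w' f ≥ 0` is in `B_P`, so `f = a / b`, `a, b ∈ B`, `b ∉ P`. -/

namespace Pool.Agent.Lib_MP_e0d435_kv

section

variable {B L : Type} [CommRing B] [IsDedekindDomain B] [Field L] [Algebra B L]
  [IsFractionRing B L]

private theorem ValExt_exists (v : IsDedekindDomain.HeightOneSpectrum B) :
    ∃ w' : AddValuation L (WithTop ℤ), ∀ f : L, f ≠ 0 →
      w' f = ((-(WithZero.log (v.valuation L f)) : ℤ) : WithTop ℤ) := by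
  classical
  have hne : ∀ f : L, f ≠ 0 → v.valuation L f ≠ 0 := fun f hf =>
    (Valuation.ne_zero_iff _).2 hf
  refine ⟨AddValuation.of (fun f => if f = 0 then ⊤ else
    ((-(WithZero.log (v.valuation L f)) : ℤ) : WithTop ℤ)) (by simp) ?_ ?_ ?_, ?_⟩
  · rw [if_neg one_ne_zero, map_one, WithZero.log_one, neg_zero]; rfl
  · intro x y
    by_cases hx : x = 0
    · rw [hx, zero_add]; exact min_le_right _ _
    by_cases hy : y = 0
    · rw [hy, add_zero]; exact min_le_left _ _
    by_cases hxy : x + y = 0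
    · simp only [hxy, if_true]; exact le_top
    simp only [if_neg hx, if_neg hy, if_neg hxy]
    have h1 := (v.valuation L).map_add x y
    rcases le_total (v.valuation L x) (v.valuation L y) with h | h
    · rw [max_eq_right h] at h1
      refine (min_le_right _ _).trans ?_
      rw [WithTop.coe_le_coe]
      have h2 := (WithZero.log_le_log (hne _ hxy) (hne _ hy)).2 h1
      omega
    · rw [max_eq_left h] at h1
      refine (min_le_left _ _).trans ?_
      rw [WithTop.coe_le_coe]
      have h2 := (WithZero.log_le_log (hne _ hxy) (hne _ hx)).2 h1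
      omega
  · intro x y
    by_cases hx : x = 0
    · simp [hx]
    by_cases hy : y = 0
    · simp [hy]
    simp only [if_neg hx, if_neg hy, if_neg (mul_ne_zero hx hy)]
    rw [map_mul, WithZero.log_mul (hne _ hx) (hne _ hy), ← WithTop.coe_add]
    congr 1
    ring
  · intro f hf
    rw [AddValuation.of_apply, if_neg hf]

end

theorem exists_val_ext {M M' : Type} [Field M] [CharZero M] [Field M'] [Algebra M M']
    [FiniteDimensional M M'] (w : AddValuation M (WithTop ℤ)) (t : M) (ht : w t = 1) :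
    ∃ (w' : AddValuation M' (WithTop ℤ)) (t' : M') (e : ℕ), 1 ≤ e ∧ w' t' = 1 ∧
      (∀ f : M, w' (algebraMap M M' f) = e • w f) ∧
      (∀ f : M', IsIntegral (vring w) f → 0 ≤ w' f) ∧
      (∀ f : M', 0 ≤ w' f → ∃ a b : M', IsIntegral (vring w) a ∧ IsIntegral (vring w) b ∧
        w' b = 0 ∧ f * b = a) := by
  classical
  obtain ⟨iV, iF, -, hmax⟩ := vring_dvr w t ht
  have ht0 : t ≠ 0 := by
    rintro rfl
    rw [AddValuation.map_zero] at ht
    exact absurd ht (by decide)
  have hot : ordZ w t = 1 := ordZ_eq_of_w w (by rw [ht]; rfl)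
  let A := vring w
  let B := integralClosure (vring w) M'
  have hsep : Algebra.IsSeparable M M' := inferInstance
  have : IsDedekindDomain B := integralClosure.isDedekindDomain (vring w) M M'
  have : IsFractionRing B M' := integralClosure.isFractionRing_of_finite_extension M M'
  -- the element t of B
  have htA : (0 : WithTop ℤ) ≤ w t := by rw [ht]; decide
  let tA : vring w := ⟨t, htA⟩
  let tB : B := algebraMap (vring w) B tA
  have htB : (tB : M') = algebraMap M M' t := rfl
  have htB0 : tB ≠ 0 := by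
    intro h
    have h1 : (tB : M') = 0 := by rw [h]; rfl
    rw [htB, _root_.map_eq_zero] at h1
    exact ht0 h1
  have hnu : ¬ IsUnit tB := by
    intro hu
    obtain ⟨b, hb⟩ := hu.exists_right_inv
    have h1 : (b : M') = algebraMap M M' t⁻¹ := by
      have h2 : (tB : M') * (b : M') = 1 := by
        have h3 := congrArg (fun z : B => (z : M')) hb
        exact h3
      rw [htB] at h2
      rw [map_inv₀]
      exact (eq_inv_of_mul_eq_one_right h2)
    have h2 : IsIntegral (vring w) (algebraMap M M' t⁻¹) := by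
      rw [← h1]; exact b.2
    have h3 : IsIntegral (vring w) (t⁻¹ : M) :=
      (isIntegral_algebraMap_iff (algebraMap M M').injective).1 h2
    obtain ⟨y, hy⟩ := IsIntegrallyClosed.isIntegral_iff.1 h3
    have h4 : (0 : WithTop ℤ) ≤ w t⁻¹ := by
      rw [← hy]; exact y.2
    have h5 : (0 : ℤ) ≤ ordZ w t⁻¹ := (le_w_iff w (inv_ne_zero ht0) 0).1 h4
    rw [ordZ_inv w ht0, hot] at h5
    omega
  obtain ⟨P, hPm, hP⟩ := Ideal.exists_le_maximal (Ideal.span {tB})
    (by rwa [Ne, Ideal.span_singleton_eq_top])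
  have htP : tB ∈ P := hP (Ideal.mem_span_singleton_self tB)
  let v : IsDedekindDomain.HeightOneSpectrum B :=
    ⟨P, hPm.isPrime, fun h => htB0 (by rw [h] at htP; exact htP)⟩
  obtain ⟨w', hw'⟩ := ValExt_exists (L := M') v
  have hvne : ∀ f : M', f ≠ 0 → v.valuation M' f ≠ 0 := fun f hf =>
    (Valuation.ne_zero_iff _).2 hf
  have hnn : ∀ f : M', v.valuation M' f ≤ 1 ↔ 0 ≤ w' f := by
    intro f
    by_cases hf : f = 0
    · rw [hf, map_zero, AddValuation.map_zero]
      exact ⟨fun _ => le_top, fun _ => zero_le⟩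
    · rw [hw' f hf]
      have h1 := WithZero.log_le_log (hvne f hf) (one_ne_zero)
      rw [WithZero.log_one] at h1
      rw [← h1]
      constructor
      · intro h
        exact_mod_cast (show (0 : ℤ) ≤ -(WithZero.log (v.valuation M' f)) by omega)
      · intro h
        have h2 : (0 : ℤ) ≤ -(WithZero.log (v.valuation M' f)) := by exact_mod_cast h
        omega
  have hint : ∀ f : M', IsIntegral (vring w) f → 0 ≤ w' f := by
    intro f hf
    rw [← hnn]
    exact v.valuation_le_one (⟨f, hf⟩ : B)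
  obtain ⟨t', ht'⟩ := v.valuation_exists_uniformizer M'
  have ht'0 : t' ≠ 0 := by
    rintro rfl
    rw [map_zero] at ht'
    exact WithZero.exp_ne_zero ht'.symm
  have hwt' : w' t' = 1 := by
    rw [hw' t' ht'0, ht', WithZero.log_exp, neg_neg]; rfl
  have htM : algebraMap M M' t ≠ 0 := by rwa [Ne, _root_.map_eq_zero]
  have hwt : 1 ≤ ordZ w' (algebraMap M M' t) := by
    have h1 : v.valuation M' (algebraMap B M' tB) < 1 :=
      (v.valuation_lt_one_iff_mem tB).2 htP
    have h2 : algebraMap B M' tB = algebraMap M M' t := rfl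
    rw [h2] at h1
    have h3 := (WithZero.log_lt_log (hvne _ htM) one_ne_zero).2 h1
    rw [WithZero.log_one] at h3
    have h4 : ordZ w' (algebraMap M M' t) = -(WithZero.log (v.valuation M' (algebraMap M M' t))) :=
      ordZ_eq_of_w w' (hw' _ htM)
    omega
  have hunit : ∀ u : M, u ≠ 0 → ordZ w u = 0 → ordZ w' (algebraMap M M' u) = 0 := by
    intro u hu h
    have key : ∀ x : M, x ≠ 0 → ordZ w x = 0 → 0 ≤ ordZ w' (algebraMap M M' x) := by
      intro x hx hx0
      have hxA : (0 : WithTop ℤ) ≤ w x := (le_w_iff w hx 0).2 hx0.ge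
      have h1 : IsIntegral (vring w) (algebraMap M M' x) :=
        isIntegral_algebraMap (R := vring w) (x := (⟨x, hxA⟩ : vring w))
      have hxM : algebraMap M M' x ≠ 0 := by rwa [Ne, _root_.map_eq_zero]
      exact (le_w_iff w' hxM 0).1 (hint _ h1)
    have h1 := key u hu h
    have h2 := key u⁻¹ (inv_ne_zero hu) (by rw [ordZ_inv w hu, h]; rfl)
    have huM : algebraMap M M' u ≠ 0 := by rwa [Ne, _root_.map_eq_zero]
    rw [map_inv₀, ordZ_inv w' huM] at h2
    omega
  refine ⟨w', t', (ordZ w' (algebraMap M M' t)).toNat, by omega, hwt', fun f => ?_, hint,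
    fun f hf => ?_⟩
  · have he : (((ordZ w' (algebraMap M M' t)).toNat : ℕ) : ℤ) = ordZ w' (algebraMap M M' t) :=
      Int.toNat_of_nonneg (by omega)
    by_cases hf : f = 0
    · rw [hf, map_zero, AddValuation.map_zero, AddValuation.map_zero]
      obtain ⟨n, hn⟩ : ∃ n, (ordZ w' (algebraMap M M' t)).toNat = n + 1 :=
        ⟨(ordZ w' (algebraMap M M' t)).toNat - 1, by omega⟩
      rw [hn, succ_nsmul, WithTop.add_top]
    · have hfM : algebraMap M M' f ≠ 0 := by rwa [Ne, _root_.map_eq_zero]
      set m := ordZ w f with hm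
      have hz : t ^ m ≠ 0 := zpow_ne_zero _ ht0
      have h1 : ordZ w (f / t ^ m) = 0 := by
        rw [ordZ_div w hf hz, ordZ_zpow w ht0, hot]; omega
      have h2 := hunit (f / t ^ m) (div_ne_zero hf hz) h1
      rw [map_div₀, map_zpow₀, ordZ_div w' hfM (zpow_ne_zero _ htM), ordZ_zpow w' htM] at h2
      rw [w_eq w' hfM, w_eq w hf, ← hm]
      have h3 : ordZ w' (algebraMap M M' f) = m * ordZ w' (algebraMap M M' t) := by omega
      rw [h3]
      generalize (ordZ w' (algebraMap M M' t)).toNat = e at he ⊢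
      rw [← he]
      have h4 : e • ((m : ℤ) : WithTop ℤ) = ((e • m : ℤ) : WithTop ℤ) := (WithTop.coe_nsmul m e).symm
      rw [h4, nsmul_eq_mul, mul_comm]
  · have h1 := (hnn f).2 hf
    obtain ⟨n, d, hnd⟩ := v.exists_primeCompl_mul_eq_of_integer (K := M') f h1
    refine ⟨(n : M'), ((d : B) : M'), n.2, (d : B).2, ?_, hnd⟩
    have h2 : v.valuation M' (algebraMap B M' (d : B)) = 1 :=
      (v.valuation_eq_one_iff_notMem (K := M')).2 d.2
    have h3 : algebraMap B M' (d : B) = ((d : B) : M') := rfl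
    rw [h3] at h2
    have h4 : ((d : B) : M') ≠ 0 := by
      intro h
      rw [h, map_zero] at h2
      exact zero_ne_one h2
    rw [hw' _ h4, h2, WithZero.log_one, neg_zero]
    rfl

end Pool.Agent.Lib_MP_e0d435_kv

end

/-! ### from `Lib_MP_e0d435_kv.ResPol` -/

section

/-! V04: residues are algebraic. -/

namespace Pool.Agent.Lib_MP_e0d435_kv

private theorem resPol_fin {M : Type} [Field M] (w : AddValuation M (WithTop ℤ)) {x : M}
    (hx : x ≠ 0) : ∃ k : ℤ, w x = k := by
  have h : w x ≠ ⊤ := fun h => hx ((AddValuation.top_iff w).1 h)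
  exact ⟨(w x).untop h, (WithTop.coe_untop _ _).symm⟩

private theorem resPol_const {M : Type} [Field M] [Algebra ℂ M] (w : AddValuation M (WithTop ℤ))
    (c : ℂ) (hc : c ≠ 0) : w (algebraMap ℂ M c) = 0 := by
  have hinj : Function.Injective (algebraMap ℂ M) := (algebraMap ℂ M).injective
  have h0 : algebraMap ℂ M c ≠ 0 := fun h => hc (hinj (by rw [h, map_zero]))
  obtain ⟨k, hk⟩ := resPol_fin w h0
  obtain ⟨d, hd⟩ := IsAlgClosed.exists_pow_nat_eq c (n := k.natAbs + 1) (by omega)
  have hd0 : d ≠ 0 := by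
    rintro rfl
    rw [zero_pow (by omega)] at hd
    exact hc hd.symm
  have hd1 : algebraMap ℂ M d ≠ 0 := fun h => hd0 (hinj (by rw [h, map_zero]))
  obtain ⟨j, hj⟩ := resPol_fin w hd1
  have h1 : (k : WithTop ℤ) = ((((k.natAbs + 1 : ℕ) : ℤ) * j : ℤ) : WithTop ℤ) := by
    rw [← hk, ← hd, map_pow, AddValuation.map_pow, hj, ← WithTop.coe_nsmul, nsmul_eq_mul]
  have h2 : k = ((k.natAbs + 1 : ℕ) : ℤ) * j := by exact_mod_cast h1
  have h3 : k = 0 := by
    by_contra hk0
    have hj0 : j ≠ 0 := by
      rintro rfl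
      rw [mul_zero] at h2
      exact hk0 h2
    have h4 : k.natAbs = (k.natAbs + 1) * j.natAbs := by
      conv_lhs => rw [h2]
      rw [Int.natAbs_mul, Int.natAbs_natCast]
    have h5 : 1 ≤ j.natAbs := Nat.one_le_iff_ne_zero.2 (Int.natAbs_ne_zero.2 hj0)
    have h6 := Nat.mul_le_mul_left (k.natAbs + 1) h5
    rw [← h4, mul_one] at h6
    omega
  rw [hk, h3]
  rfl

private theorem resPol_nat {M : Type} [Field M] [Algebra ℂ M] (w : AddValuation M (WithTop ℤ))
    (n : ℕ) (hn : n ≠ 0) : w (n : M) = 0 := by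
  have h := resPol_const w (n : ℂ) (by exact_mod_cast hn)
  rwa [map_natCast] at h

/-- V04: the residue of a unit is algebraic: for `w' u = 0` there is a polynomial with coefficients
of order `≥ 0` with `w' (P u) > 0`, `w' (P' u) = 0`. Proof: `1, u, …, u ^ D`, `D = [M' : M]`, are
linearly dependent over `M`; dividing the relation by a coefficient of least order gives
`∑ a_i u ^ i = 0` with all `w a_i ≥ 0` and one `w a_i = 0`. So there are polynomials `P` over
`vring w`, not all of whose coefficients have positive order, with `w' (P u) > 0`. Take one whose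
reduction (the polynomial of the coefficients of order `0`) has least degree; dropping coefficients
of positive order, the leading coefficient has order `0` and the degree is positive
(a constant of order `0` has `w' = 0`). The derivative has smaller degree and leading coefficient
`n a_n` of order `0`, so by minimality not `w' (P' u) > 0`, i.e. `w' (P' u) = 0`. -/
theorem exists_residue_polynomial {M M' : Type} [Field M] [CharZero M] [Field M'] [Algebra ℂ M]
    [Algebra M M'] [FiniteDimensional M M'] (w : AddValuation M (WithTop ℤ))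
    (w' : AddValuation M' (WithTop ℤ)) (e : ℕ) (he : 1 ≤ e)
    (hw : ∀ f : M, w' (algebraMap M M' f) = e • w f) (u : M') (hu : w' u = 0) :
    ∃ P : Polynomial M, (∀ i, 0 ≤ w (P.coeff i)) ∧ 0 < w' (Polynomial.aeval u P) ∧
      w' (Polynomial.aeval u (Polynomial.derivative P)) = 0 := by
  classical
  -- the set of candidates
  let S : Polynomial M → Prop := fun P =>
    (∀ i, 0 ≤ w (P.coeff i)) ∧ (∃ i, w (P.coeff i) = 0) ∧ 0 < w' (Polynomial.aeval u P)
  have hpos : ∀ f : M, 0 < w f → 0 < w' (algebraMap M M' f) := by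
    intro f hf
    rw [hw]
    exact nsmul_pos hf (by omega)
  have hup : ∀ i : ℕ, w' (u ^ i) = 0 := by
    intro i
    rw [AddValuation.map_pow, hu, nsmul_zero]
  have hmono : ∀ (f : M) (i : ℕ), w' (algebraMap M M' f * u ^ i) = w' (algebraMap M M' f) := by
    intro f i
    rw [AddValuation.map_mul, hup, add_zero]
  have hnn : ∀ P : Polynomial M, (∀ i, 0 ≤ w (P.coeff i)) → 0 ≤ w' (Polynomial.aeval u P) := by
    intro P hP
    rw [Polynomial.aeval_eq_sum_range]
    refine AddValuation.map_le_sum _ fun i _ => ?_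
    rw [Algebra.smul_def, hmono, hw]
    exact nsmul_nonneg (hP i) e
  have hne : ∃ P, S P := by
    set p := minpoly M u with hp
    have hp0 : p ≠ 0 := minpoly.ne_zero (Algebra.IsIntegral.isIntegral u)
    obtain ⟨i, hi, hmin⟩ := Finset.exists_min_image p.support (fun i => w (p.coeff i))
      (Polynomial.nonempty_support_iff.2 hp0)
    have hc : p.coeff i ≠ 0 := Polynomial.mem_support_iff.1 hi
    have hcancel : w ((p.coeff i)⁻¹) + w (p.coeff i) = 0 := by
      rw [← AddValuation.map_mul, inv_mul_cancel₀ hc, AddValuation.map_one]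
    refine ⟨Polynomial.C (p.coeff i)⁻¹ * p, ?_, ⟨i, ?_⟩, ?_⟩
    · intro j
      rw [Polynomial.coeff_C_mul, AddValuation.map_mul]
      by_cases hj : p.coeff j = 0
      · rw [hj, AddValuation.map_zero]
        simp
      · rw [← hcancel]
        exact add_le_add_right (hmin j (Polynomial.mem_support_iff.2 hj)) _
    · rw [Polynomial.coeff_C_mul, AddValuation.map_mul, hcancel]
    · rw [map_mul, hp, minpoly.aeval, mul_zero, AddValuation.map_zero]
      exact WithTop.coe_lt_top 0
  -- minimal degree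
  obtain ⟨P, ⟨hP1, hP2, hP3⟩, hPmin⟩ :
      ∃ P, S P ∧ ∀ Q, S Q → P.natDegree ≤ Q.natDegree := by
    obtain ⟨P0, hP0⟩ := hne
    have hex : ∃ n, ∃ P, S P ∧ P.natDegree = n := ⟨_, P0, hP0, rfl⟩
    obtain ⟨P, hP, hd⟩ := Nat.find_spec hex
    refine ⟨P, hP, fun Q hQ => ?_⟩
    rw [hd]
    exact Nat.find_min' hex ⟨Q, hQ, rfl⟩
  -- the leading coefficient has order zero
  have hlead : w (P.coeff P.natDegree) = 0 := by
    by_contra hl
    have hl' : 0 < w (P.coeff P.natDegree) := lt_of_le_of_ne (hP1 _) (Ne.symm hl)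
    obtain ⟨i, hi⟩ := hP2
    have hin : i ≠ P.natDegree := by
      rintro rfl
      exact hl hi
    have hile : i ≤ P.natDegree := by
      apply Polynomial.le_natDegree_of_ne_zero
      intro h
      rw [h, AddValuation.map_zero] at hi
      exact absurd hi (by simp)
    have hQ : S P.eraseLead := by
      refine ⟨?_, ⟨i, ?_⟩, ?_⟩
      · intro j
        rw [Polynomial.eraseLead_coeff]
        split_ifs with h
        · rw [AddValuation.map_zero]
          simp
        · exact hP1 j
      · rw [Polynomial.eraseLead_coeff_of_ne _ hin]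
        exact hi
      · have h1 : Polynomial.aeval u P.eraseLead = Polynomial.aeval u P -
            algebraMap M M' (P.coeff P.natDegree) * u ^ P.natDegree := by
          rw [eq_sub_iff_add_eq]
          conv_rhs => rw [← Polynomial.eraseLead_add_monomial_natDegree_leadingCoeff P]
          rw [map_add, Polynomial.aeval_monomial]
          rfl
        rw [h1]
        refine lt_of_lt_of_le ?_ (AddValuation.map_sub w' _ _)
        refine lt_min hP3 ?_
        rw [hmono]
        exact hpos _ hl'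
    have h2 := hPmin _ hQ
    have h3 : P.eraseLead.natDegree < P.natDegree := by
      rcases Polynomial.eraseLead_natDegree_lt_or_eraseLead_eq_zero P with h | h
      · exact h
      · exfalso
        have := hQ.2.1
        rw [h] at this
        obtain ⟨k, hk⟩ := this
        rw [Polynomial.coeff_zero, AddValuation.map_zero] at hk
        exact absurd hk (by simp)
    omega
  have hdeg : P.natDegree ≠ 0 := by
    intro h0
    have h1 : P = Polynomial.C (P.coeff 0) := Polynomial.eq_C_of_natDegree_eq_zero h0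
    rw [h0] at hlead
    rw [h1, Polynomial.aeval_C, hw, hlead, nsmul_zero] at hP3
    exact lt_irrefl _ hP3
  refine ⟨P, hP1, hP3, ?_⟩
  have hD1 : ∀ i, 0 ≤ w ((Polynomial.derivative P).coeff i) := by
    intro i
    rw [Polynomial.coeff_derivative, AddValuation.map_mul]
    have : ((i : M) + 1) = ((i + 1 : ℕ) : M) := by push_cast; ring
    rw [this, resPol_nat w (i + 1) (by omega), add_zero]
    exact hP1 _
  refine le_antisymm ?_ (hnn _ hD1)
  by_contra hcon
  rw [not_le] at hcon
  have hSd : S (Polynomial.derivative P) := by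
    refine ⟨hD1, ⟨P.natDegree - 1, ?_⟩, hcon⟩
    rw [Polynomial.coeff_derivative, AddValuation.map_mul]
    have h1 : (((P.natDegree - 1 : ℕ) : M) + 1) = ((P.natDegree - 1 + 1 : ℕ) : M) := by
      push_cast
      ring
    rw [h1, resPol_nat w (P.natDegree - 1 + 1) (by omega), add_zero]
    have h2 : P.natDegree - 1 + 1 = P.natDegree := by omega
    rw [h2]
    exact hlead
  have h1 := hPmin _ hSd
  have h2 := Polynomial.natDegree_derivative_lt hdeg
  omega

end Pool.Agent.Lib_MP_e0d435_kv

end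

/-! ### from `Lib_MP_e0d435_kv.LogExt` -/

section

/-! V05: the log property is inherited by finite extensions (residue characteristic zero). -/

namespace Pool.Agent.Lib_MP_e0d435_kv

section LogExtAux

variable {M' : Type} [Field M'] [Algebra ℂ M'] (w' : AddValuation M' (WithTop ℤ))
  (δ' : Derivation ℂ M' M')

private def LogExt_good (c : ℤ) (x : M') : Prop := w' x + (c : WithTop ℤ) ≤ w' (δ' x)

variable {w' δ'}

private lemma LogExt_mul {c : ℤ} {x y : M'} (hx : LogExt_good w' δ' c x)
    (hy : LogExt_good w' δ' c y) : LogExt_good w' δ' c (x * y) := by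
  unfold LogExt_good at *
  rw [Derivation.leibniz, smul_eq_mul, smul_eq_mul]
  refine AddValuation.map_le_add w' ?_ ?_
  · rw [AddValuation.map_mul, AddValuation.map_mul, add_assoc]
    exact add_le_add le_rfl hy
  · rw [AddValuation.map_mul, AddValuation.map_mul, add_comm (w' x), add_assoc]
    exact add_le_add le_rfl hx

private lemma LogExt_div {c : ℤ} {x y : M'} (hy0 : y ≠ 0) (hxy : LogExt_good w' δ' c (x * y))
    (hy : LogExt_good w' δ' c y) : LogExt_good w' δ' c x := by
  unfold LogExt_good at *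
  have h1 : δ' (x * y) = x * δ' y + y * δ' x := by
    rw [Derivation.leibniz, smul_eq_mul, smul_eq_mul]
  have h2 : y * δ' x = δ' (x * y) + -(x * δ' y) := by rw [h1]; ring
  have h3 : w' (x * y) + (c : WithTop ℤ) ≤ w' (y * δ' x) := by
    rw [h2]
    refine AddValuation.map_le_add w' hxy ?_
    rw [AddValuation.map_neg, AddValuation.map_mul, AddValuation.map_mul, add_assoc]
    exact add_le_add le_rfl hy
  rw [AddValuation.map_mul, AddValuation.map_mul, add_comm (w' x), add_assoc] at h3
  exact (WithTop.add_le_add_iff_left ((AddValuation.ne_top_iff w').2 hy0)).1 h3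

private lemma LogExt_one (c : ℤ) : LogExt_good w' δ' c 1 := by
  unfold LogExt_good
  rw [Derivation.map_one_eq_zero, AddValuation.map_zero]
  exact le_top

private lemma LogExt_pow {c : ℤ} {x : M'} (hx : LogExt_good w' δ' c x) (n : ℕ) :
    LogExt_good w' δ' c (x ^ n) := by
  induction n with
  | zero => rw [pow_zero]; exact LogExt_one c
  | succ n ih => rw [pow_succ]; exact LogExt_mul ih hx

private lemma LogExt_all {c : ℤ} {t' : M'} (ht' : w' t' = 1)
    (hu : ∀ u, w' u = 0 → LogExt_good w' δ' c u) (ht : LogExt_good w' δ' c t') (g : M') :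
    LogExt_good w' δ' c g := by
  by_cases hg : g = 0
  · unfold LogExt_good
    have h0 : δ' (0 : M') = 0 := map_zero δ'
    rw [hg, h0, AddValuation.map_zero]
    exact le_top
  have ht0 : t' ≠ 0 := by
    intro h
    rw [h, AddValuation.map_zero] at ht'
    exact absurd ht' (by decide)
  have hot : ordZ w' t' = 1 := ordZ_eq_of_w w' (by rw [ht']; rfl)
  have hn : t' ^ (-ordZ w' g).toNat ≠ 0 := pow_ne_zero _ ht0
  have hp : t' ^ (ordZ w' g).toNat ≠ 0 := pow_ne_zero _ ht0
  set u : M' := g * t' ^ (-ordZ w' g).toNat / t' ^ (ordZ w' g).toNat with hudef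
  have hu0 : u ≠ 0 := div_ne_zero (mul_ne_zero hg hn) hp
  have huo : ordZ w' u = 0 := by
    rw [hudef, ordZ_div w' (mul_ne_zero hg hn) hp, ordZ_mul w' hg hn, ordZ_pow w' ht0,
      ordZ_pow w' ht0, hot]
    omega
  have huw : w' u = 0 := by rw [w_eq w' hu0, huo]; rfl
  have h1 : g * t' ^ (-ordZ w' g).toNat = u * t' ^ (ordZ w' g).toNat := by
    rw [hudef, div_mul_cancel₀ _ hp]
  refine LogExt_div hn ?_ (LogExt_pow ht _)
  rw [h1]
  exact LogExt_mul (hu u huw) (LogExt_pow ht _)

private lemma LogExt_pos {a : WithTop ℤ} (h : 0 < a) : 1 ≤ a := by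
  induction a using WithTop.recTopCoe with
  | top => exact le_top
  | coe a =>
    have h1 : (0 : ℤ) < a := by exact_mod_cast h
    have h2 : (1 : ℤ) ≤ a := h1
    exact_mod_cast h2

end LogExtAux

section LogExtPoly

variable {M M' : Type} [Field M] [Field M'] [Algebra ℂ M] [Algebra ℂ M'] [Algebra M M']

private lemma LogExt_aeval (δ : Derivation ℂ M M) (δ' : Derivation ℂ M' M')
    (hδ' : ∀ f, δ' (algebraMap M M' f) = algebraMap M M' (δ f)) (u : M')
    (P : Polynomial M) : ∃ Q : Polynomial M, (∀ i, Q.coeff i = δ (P.coeff i)) ∧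
      δ' (Polynomial.aeval u P) = Polynomial.aeval u Q +
        Polynomial.aeval u (Polynomial.derivative P) * δ' u := by
  induction P using Polynomial.induction_on' with
  | add P1 P2 h1 h2 =>
    obtain ⟨Q1, h1, h1'⟩ := h1
    obtain ⟨Q2, h2, h2'⟩ := h2
    refine ⟨Q1 + Q2, fun i => ?_, ?_⟩
    · rw [Polynomial.coeff_add, Polynomial.coeff_add, map_add, h1, h2]
    · rw [map_add, map_add, h1', h2', Polynomial.derivative_add, map_add, map_add]
      ring
  | monomial n a =>
    refine ⟨Polynomial.monomial n (δ a), fun i => ?_, ?_⟩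
    · rw [Polynomial.coeff_monomial, Polynomial.coeff_monomial]
      split_ifs
      · rfl
      · rw [map_zero]
    · rw [Polynomial.derivative_monomial, Polynomial.aeval_monomial, Polynomial.aeval_monomial,
        Polynomial.aeval_monomial, Derivation.leibniz, Derivation.leibniz_pow, hδ', smul_eq_mul,
        smul_eq_mul, smul_eq_mul, nsmul_eq_mul, map_mul, map_natCast]
      ring

private lemma LogExt_aeval_nonneg (w : AddValuation M (WithTop ℤ))
    (w' : AddValuation M' (WithTop ℤ)) (e : ℕ)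
    (hw : ∀ f : M, w' (algebraMap M M' f) = e • w f) (u : M') (hu : w' u = 0)
    (Q : Polynomial M) (hQ : ∀ i, 0 ≤ w (Q.coeff i)) : 0 ≤ w' (Polynomial.aeval u Q) := by
  rw [Polynomial.aeval_eq_sum_range]
  refine AddValuation.map_le_sum w' fun i _ => ?_
  rw [Algebra.smul_def, AddValuation.map_mul, AddValuation.map_pow, hu, smul_zero, add_zero, hw]
  exact nsmul_nonneg (hQ i) e

end LogExtPoly

/-- V05: the log property. Proof. (1) `δ'` is bounded below on the integral closure `B` of
`A = vring w` in `M'`: `B` is a finite `A`-module (`IsIntegralClosure.finite`, `A` is a discrete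
valuation ring by V01) and `δ' (∑ a_i b_i) = ∑ δ a_i b_i + ∑ a_i δ' b_i`, `w (δ a_i) ≥ 0`. Hence
`w' (δ' f) ≥ - C` whenever `w' f ≥ 0`: `f = a / b`, `δ' f = (b δ' a - a δ' b) / b ^ 2` (`hfrac`).
(2) For `g ≠ 0` put `λ g = w' (δ' g) - w' g` (`⊤` if `δ' g = 0`), the order of `δ' g / g`; since
`g = t' ^ k u` with `w' u = 0` and `δ' g / g = k δ' t' / t' + δ' u / u`, `λ g ≥ - C - 1`. Let `m` be
the least value of `λ`; suppose `m < 0`. (3) If `w' u = 0` then `λ u > m`: take `P` of V04; then
`δ' (P u) = P^δ u + P' u δ' u`, where `P^δ` has the coefficients `δ a_i`, of order `≥ 0`; and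
`w' (δ' (P u)) ≥ w' (P u) + m ≥ 1 + m` (or `P u = 0`), so `w' (δ' u) ≥ min (0, 1 + m) > m`.
(4) `t' ^ e = u t₁` where `t₁` is the image of `t` and `w' u = 0`; so
`e δ' t' / t' = δ' u / u + δ t / t` has order `> m`, and `w' e = 0`; so `λ t' > m`. (5) By
`g = t' ^ k u` again `λ g > m` for all `g`, contradiction. So `m ≥ 0`. -/
theorem log_ext {M M' : Type} [Field M] [CharZero M] [Field M'] [Algebra ℂ M] [Algebra ℂ M']
    [Algebra M M'] [IsScalarTower ℂ M M'] [FiniteDimensional M M']
    (w : AddValuation M (WithTop ℤ)) (t : M) (ht : w t = 1)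
    (w' : AddValuation M' (WithTop ℤ)) (t' : M') (e : ℕ) (he : 1 ≤ e) (ht' : w' t' = 1)
    (hw : ∀ f : M, w' (algebraMap M M' f) = e • w f)
    (hint : ∀ f : M', IsIntegral (vring w) f → 0 ≤ w' f)
    (hfrac : ∀ f : M', 0 ≤ w' f → ∃ a b : M', IsIntegral (vring w) a ∧
      IsIntegral (vring w) b ∧ w' b = 0 ∧ f * b = a)
    (δ : Derivation ℂ M M) (hδ : ∀ f, w f ≤ w (δ f))
    (δ' : Derivation ℂ M' M') (hδ' : ∀ f, δ' (algebraMap M M' f) = algebraMap M M' (δ f)) :
    ∀ f, w' f ≤ w' (δ' f) := by
  classical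
  obtain ⟨hdvr, hfr, -, -⟩ := vring_dvr w t ht
  have ht0' : t' ≠ 0 := by
    intro h
    rw [h, AddValuation.map_zero] at ht'
    exact absurd ht' (by decide)
  -- (1) a bound on the integral closure
  have hfin : Module.Finite (vring w) (integralClosure (vring w) M') :=
    IsIntegralClosure.finite (vring w) M M' (integralClosure (vring w) M')
  obtain ⟨S, hS⟩ := hfin.fg_top
  obtain ⟨C, hC⟩ : ∃ C : ℕ, ∀ b ∈ S, ((-(C : ℤ) : ℤ) : WithTop ℤ) ≤ w' (δ' (b : M')) := by
    refine ⟨∑ b ∈ S, (-ordZ w' (δ' (b : M'))).toNat, fun b hb => ?_⟩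
    by_cases h0 : δ' (b : M') = 0
    · rw [h0, AddValuation.map_zero]
      exact le_top
    · rw [le_w_iff w' h0]
      have h1 := Finset.single_le_sum
        (f := fun b : integralClosure (vring w) M' => (-ordZ w' (δ' (b : M'))).toNat)
        (fun _ _ => Nat.zero_le _) hb
      have h2 := Int.self_le_toNat (-ordZ w' (δ' (b : M')))
      have h3 : ((-ordZ w' (δ' (b : M'))).toNat : ℤ) ≤
          ((∑ b ∈ S, (-ordZ w' (δ' (b : M'))).toNat : ℕ) : ℤ) := by exact_mod_cast h1
      omega
  have hCint : ∀ f : M', IsIntegral (vring w) f → ((-(C : ℤ) : ℤ) : WithTop ℤ) ≤ w' (δ' f) := by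
    intro f hf
    have hmem : (⟨f, hf⟩ : integralClosure (vring w) M') ∈ Submodule.span (vring w)
        (S : Set (integralClosure (vring w) M')) := by
      rw [hS]
      exact Submodule.mem_top
    have key : ∀ x ∈ Submodule.span (vring w) (S : Set (integralClosure (vring w) M')),
        ((-(C : ℤ) : ℤ) : WithTop ℤ) ≤ w' (δ' (x : M')) := by
      intro x hx
      induction hx using Submodule.span_induction with
      | mem x hx => exact hC x hx
      | zero =>
        rw [ZeroMemClass.coe_zero, map_zero, AddValuation.map_zero]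
        exact le_top
      | add x y _ _ hx hy =>
        rw [AddMemClass.coe_add, map_add]
        exact AddValuation.map_le_add w' hx hy
      | smul a x _ hx =>
        have h1 : ((a • x : integralClosure (vring w) M') : M') =
            algebraMap M M' (a : M) * (x : M') := by
          change a • (x : M') = _
          rw [Algebra.smul_def]
          rfl
        rw [h1, Derivation.leibniz, smul_eq_mul, smul_eq_mul, hδ']
        have ha : 0 ≤ w (a : M) := a.2
        have hx0 : 0 ≤ w' (x : M') := hint _ x.2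
        have hC0 : ((-(C : ℤ) : ℤ) : WithTop ℤ) ≤ 0 := by
          have : (-(C : ℤ) : ℤ) ≤ 0 := by omega
          exact_mod_cast this
        refine AddValuation.map_le_add w' ?_ ?_
        · rw [AddValuation.map_mul, hw]
          calc ((-(C : ℤ) : ℤ) : WithTop ℤ) = 0 + ((-(C : ℤ) : ℤ) : WithTop ℤ) := by rw [zero_add]
            _ ≤ e • w (a : M) + w' (δ' (x : M')) := add_le_add (nsmul_nonneg ha e) hx
        · rw [AddValuation.map_mul, hw]
          exact hC0.trans (add_nonneg hx0 (nsmul_nonneg (ha.trans (hδ _)) e))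
    exact key _ hmem
  -- (2) a bound on the valuation ring
  have hCval : ∀ f : M', 0 ≤ w' f → ((-(C : ℤ) : ℤ) : WithTop ℤ) ≤ w' (δ' f) := by
    intro f hf
    obtain ⟨a, b, ha, hb, hb0, hab⟩ := hfrac f hf
    have h1 : δ' (f * b) = f * δ' b + b * δ' f := by
      rw [Derivation.leibniz, smul_eq_mul, smul_eq_mul]
    have h2 : b * δ' f = δ' a + -(f * δ' b) := by rw [← hab, h1]; ring
    have h3 : ((-(C : ℤ) : ℤ) : WithTop ℤ) ≤ w' (b * δ' f) := by
      rw [h2]
      refine AddValuation.map_le_add w' (hCint a ha) ?_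
      rw [AddValuation.map_neg, AddValuation.map_mul]
      calc ((-(C : ℤ) : ℤ) : WithTop ℤ) = 0 + ((-(C : ℤ) : ℤ) : WithTop ℤ) := by rw [zero_add]
        _ ≤ w' f + w' (δ' b) := add_le_add hf (hCint b hb)
    rwa [AddValuation.map_mul, hb0, zero_add] at h3
  have hstart : ∀ g, LogExt_good w' δ' (-((C + 1 : ℕ) : ℤ)) g := by
    refine LogExt_all ht' ?_ ?_
    · intro u hu
      unfold LogExt_good
      rw [hu, zero_add]
      refine le_trans ?_ (hCval u hu.ge)
      have : (-((C + 1 : ℕ) : ℤ)) ≤ -(C : ℤ) := by push_cast; omega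
      exact_mod_cast this
    · unfold LogExt_good
      rw [ht']
      refine le_trans ?_ (hCval t' (by rw [ht']; decide))
      have : (1 : ℤ) + (-((C + 1 : ℕ) : ℤ)) ≤ -(C : ℤ) := by push_cast; omega
      exact_mod_cast this
  -- (3), (4), (5) the step
  have hstep : ∀ n : ℕ, (∀ g, LogExt_good w' δ' (-((n + 1 : ℕ) : ℤ)) g) →
      ∀ g, LogExt_good w' δ' (-(n : ℤ)) g := by
    intro n hn
    have hn0 : ((-(n : ℤ) : ℤ) : WithTop ℤ) ≤ 0 := by
      have : (-(n : ℤ) : ℤ) ≤ 0 := by omega
      exact_mod_cast this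
    have hunit : ∀ u, w' u = 0 → LogExt_good w' δ' (-(n : ℤ)) u := by
      intro u hu
      obtain ⟨P, hP, hP1, hP2⟩ := exists_residue_polynomial w w' e he hw u hu
      obtain ⟨Q, hQ, hQ1⟩ := LogExt_aeval δ δ' hδ' u P
      have h1 : Polynomial.aeval u (Polynomial.derivative P) * δ' u =
          δ' (Polynomial.aeval u P) + -Polynomial.aeval u Q := by rw [hQ1]; ring
      have h2 : 0 ≤ w' (Polynomial.aeval u Q) :=
        LogExt_aeval_nonneg w w' e hw u hu Q fun i => by
          rw [hQ]
          exact (hP i).trans (hδ _)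
      have h3 : ((-(n : ℤ) : ℤ) : WithTop ℤ) ≤
          w' (Polynomial.aeval u (Polynomial.derivative P) * δ' u) := by
        rw [h1]
        refine AddValuation.map_le_add w' ?_ ?_
        · refine le_trans ?_ (hn (Polynomial.aeval u P))
          refine le_trans ?_ (add_le_add (LogExt_pos hP1) le_rfl)
          have : (-(n : ℤ)) ≤ 1 + (-((n + 1 : ℕ) : ℤ)) := by push_cast; omega
          exact_mod_cast this
        · rw [AddValuation.map_neg]
          exact hn0.trans h2
      rw [AddValuation.map_mul, hP2, zero_add] at h3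
      unfold LogExt_good
      rw [hu, zero_add]
      exact h3
    have htt : LogExt_good w' δ' (-(n : ℤ)) t' := by
      have ht0 : t ≠ 0 := by
        intro h
        rw [h, AddValuation.map_zero] at ht
        exact absurd ht (by decide)
      have ht1 : algebraMap M M' t ≠ 0 := by rwa [Ne, _root_.map_eq_zero]
      have hot : ordZ w' t' = 1 := ordZ_eq_of_w w' (by rw [ht']; rfl)
      have hwt1 : w' (algebraMap M M' t) = ((e : ℤ) : WithTop ℤ) := by
        rw [hw, ht]
        have : (1 : WithTop ℤ) = ((1 : ℤ) : WithTop ℤ) := rfl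
        rw [this, ← WithTop.coe_nsmul, nsmul_eq_mul, mul_one]
      have hot1 : ordZ w' (algebraMap M M' t) = e := ordZ_eq_of_w w' hwt1
      set u : M' := t' ^ e / algebraMap M M' t with hudef
      have hu0 : u ≠ 0 := div_ne_zero (pow_ne_zero _ ht0') ht1
      have huw : w' u = 0 := by
        rw [w_eq w' hu0, hudef, ordZ_div w' (pow_ne_zero _ ht0') ht1, ordZ_pow w' ht0', hot, hot1,
          mul_one, sub_self]
        rfl
      have h1 : t' ^ e = u * algebraMap M M' t := by rw [hudef, div_mul_cancel₀ _ ht1]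
      have h2 : LogExt_good w' δ' (-(n : ℤ)) (algebraMap M M' t) := by
        unfold LogExt_good
        rw [hδ', hw, hw]
        calc e • w t + ((-(n : ℤ) : ℤ) : WithTop ℤ) ≤ e • w t + 0 := add_le_add le_rfl hn0
          _ = e • w t := add_zero _
          _ ≤ e • w (δ t) := nsmul_le_nsmul_right (hδ t) e
      have h3 : LogExt_good w' δ' (-(n : ℤ)) (t' ^ e) := by
        rw [h1]
        exact LogExt_mul (hunit u huw) h2
      unfold LogExt_good at h3 ⊢
      have he0 : ((e : ℕ) : M') = algebraMap ℂ M' (e : ℂ) := (map_natCast _ _).symm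
      have hwe : w' ((e : ℕ) : M') = 0 := by
        rw [he0]
        exact w_algebraMap w' _ (Nat.cast_ne_zero.2 (by omega))
      rw [Derivation.leibniz_pow, nsmul_eq_mul, smul_eq_mul, AddValuation.map_mul, hwe, zero_add,
        AddValuation.map_mul] at h3
      have hpw : ∀ k : ℕ, w' (t' ^ k) = ((k : ℤ) : WithTop ℤ) := by
        intro k
        rw [w_eq w' (pow_ne_zero _ ht0'), ordZ_pow w' ht0', hot, mul_one]
      rw [hpw, hpw] at h3
      have h4 : (((e - 1 : ℕ) : ℤ) : WithTop ℤ) + (w' t' + ((-(n : ℤ) : ℤ) : WithTop ℤ)) =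
          ((e : ℤ) : WithTop ℤ) + ((-(n : ℤ) : ℤ) : WithTop ℤ) := by
        rw [ht', ← add_assoc]
        congr 1
        have : ((e - 1 : ℕ) : ℤ) + 1 = (e : ℤ) := by omega
        exact_mod_cast this
      rw [← h4] at h3
      exact (WithTop.add_le_add_iff_left WithTop.coe_ne_top).1 h3
    exact LogExt_all ht' hunit htt
  have hall : ∀ n : ℕ, (∀ g, LogExt_good w' δ' (-(n : ℤ)) g) →
      ∀ g, LogExt_good w' δ' (-((0 : ℕ) : ℤ)) g := by
    intro n
    induction n with
    | zero => exact fun h => h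
    | succ n ih => exact fun h => ih (hstep n h)
  intro f
  have h := hall _ hstart f
  unfold LogExt_good at h
  have h0 : ((-((0 : ℕ) : ℤ) : ℤ) : WithTop ℤ) = 0 := by simp
  rw [h0, add_zero] at h
  exact h

end Pool.Agent.Lib_MP_e0d435_kv

end

/-! ### from `Lib_MP_e0d435_kv.JacInd` -/

section

/-! V08: a non-vanishing Jacobian implies algebraic independence; Jacobians in extensions. -/

namespace Pool.Agent.Lib_MP_e0d435_kv

/-- Chain rule. -/
private theorem jacInd_chain {k : ℕ} {M : Type} [Field M] [Algebra ℂ M] (D : Derivation ℂ M M)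
    (x : Fin k → M) (p : MvPolynomial (Fin k) ℂ) :
    D (MvPolynomial.aeval x p) =
      ∑ j, D (x j) * MvPolynomial.aeval x (MvPolynomial.pderiv j p) := by
  classical
  induction p using MvPolynomial.induction_on with
  | C a =>
    simp [MvPolynomial.aeval_C]
  | add p q hp hq =>
    simp only [map_add, hp, hq, mul_add, Finset.sum_add_distrib]
  | mul_X p i hp =>
    have h1 : ∀ j, MvPolynomial.aeval x (MvPolynomial.pderiv j (p * MvPolynomial.X i)) =
        MvPolynomial.aeval x (MvPolynomial.pderiv j p) * x i +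
          MvPolynomial.aeval x p * (if j = i then 1 else 0) := by
      intro j
      rw [MvPolynomial.pderiv_mul, MvPolynomial.pderiv_X, map_add, map_mul, map_mul,
        MvPolynomial.aeval_X]
      congr 2
      by_cases hji : j = i
      · subst hji; simp
      · rw [if_neg hji, Pi.single_apply, if_neg (fun h => hji h.symm), map_zero]
    simp only [h1, mul_add, Finset.sum_add_distrib]
    rw [map_mul, MvPolynomial.aeval_X, Derivation.leibniz, hp, smul_eq_mul, smul_eq_mul,
      Finset.mul_sum]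
    have h2 : ∑ j, D (x j) * (MvPolynomial.aeval x p * if j = i then 1 else 0) =
        MvPolynomial.aeval x p * D (x i) := by
      rw [Finset.sum_eq_single i]
      · rw [if_pos rfl]; ring
      · intro j _ hj
        rw [if_neg hj]; ring
      · intro h; exact absurd (Finset.mem_univ i) h
    rw [h2, add_comm]
    congr 1
    refine Finset.sum_congr rfl fun j _ => ?_
    ring

private theorem jacInd_deg {k n : ℕ} {p : MvPolynomial (Fin k) ℂ} (hp : p.totalDegree ≤ n + 1)
    (j : Fin k) : (MvPolynomial.pderiv j p).totalDegree ≤ n := by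
  classical
  refine Finset.sup_le fun m hm => ?_
  rw [MvPolynomial.mem_support_iff, MvPolynomial.coeff_pderiv] at hm
  have h1 : m + Finsupp.single j 1 ∈ p.support := by
    rw [MvPolynomial.mem_support_iff]
    intro h0
    apply hm
    rw [h0]; simp
  have h2 := (MvPolynomial.le_totalDegree h1).trans hp
  have h3 : ((m + Finsupp.single j 1).sum fun _ e => e) = (m.sum fun _ e => e) + 1 := by
    rw [Finsupp.sum_add_index' (fun _ => rfl) (fun _ _ _ => rfl), Finsupp.sum_single_index rfl]
  rw [h3] at h2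
  omega

private theorem jacInd_const {k : ℕ} {p : MvPolynomial (Fin k) ℂ}
    (hp : ∀ j, MvPolynomial.pderiv j p = 0) : p = MvPolynomial.C (MvPolynomial.coeff 0 p) := by
  classical
  ext m
  rw [MvPolynomial.coeff_C]
  by_cases hm : 0 = m
  · rw [if_pos hm, hm]
  · rw [if_neg hm]
    obtain ⟨j, hj⟩ : ∃ j, m j ≠ 0 := by
      by_contra hcon
      push Not at hcon
      exact hm (Finsupp.ext fun j => (hcon j).symm)
    obtain ⟨m', h1⟩ : ∃ m' : Fin k →₀ ℕ, m = m' + Finsupp.single j 1 := by
      refine ⟨m - Finsupp.single j 1, (tsub_add_cancel_of_le ?_).symm⟩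
      rw [Finsupp.single_le_iff]
      omega
    have h2 := congrArg (MvPolynomial.coeff m') (hp j)
    rw [MvPolynomial.coeff_pderiv, ← h1, MvPolynomial.coeff_zero] at h2
    rcases mul_eq_zero.1 h2 with h3 | h3
    · exact h3
    · exfalso
      have h4 : ((m' j + 1 : ℕ) : ℂ) = 0 := by
        push_cast; exact h3
      exact absurd (Nat.cast_eq_zero.1 h4) (Nat.succ_ne_zero _)

/-- Proof: let `p ≠ 0` be a polynomial of least total degree with `p (x) = 0`. Then
`0 = d_i (p (x)) = ∑_j (∂_j p)(x) d_i x_j` for all `i` (`Derivation` of an `aeval`: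
`MvPolynomial.mkDerivation` / `Derivation.leibniz` induction), so `(∂_j p)(x) = 0` for all `j`
because the matrix is invertible, so `∂_j p = 0` for all `j` (smaller total degree), so `p` is a
constant (characteristic zero), so `p = 0`. -/
theorem LDF.algebraicIndependent_of_jac {k : ℕ} (Λ : LDF k) (x : Fin k → Λ.M)
    (h : Λ.jac x ≠ 0) : AlgebraicIndependent ℂ x := by
  classical
  have key : ∀ (n : ℕ) (p : MvPolynomial (Fin k) ℂ), p.totalDegree ≤ n →
      MvPolynomial.aeval x p = 0 → p = 0 := by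
    have hconst : ∀ p : MvPolynomial (Fin k) ℂ, p = MvPolynomial.C (MvPolynomial.coeff 0 p) →
        MvPolynomial.aeval x p = 0 → p = 0 := by
      intro p hp h0
      rw [hp, MvPolynomial.aeval_C] at h0
      have h1 : MvPolynomial.coeff 0 p = 0 := by
        by_contra hne
        exact hne ((FaithfulSMul.algebraMap_injective ℂ Λ.M) (by rw [h0, map_zero]))
      rw [hp, h1, map_zero]
    intro n
    induction n with
    | zero =>
      intro p hp h0
      refine hconst p ?_ h0
      exact MvPolynomial.totalDegree_eq_zero_iff_eq_C.1 (Nat.le_zero.1 hp)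
    | succ n ih =>
      intro p hp h0
      refine hconst p (jacInd_const fun j => ih _ (jacInd_deg hp j) ?_) h0
      have hmul : (Matrix.of fun i j : Fin k => Λ.d i (x j)).mulVec
          (fun j => MvPolynomial.aeval x (MvPolynomial.pderiv j p)) = 0 := by
        funext i
        have h1 := jacInd_chain (Λ.d i) x p
        rw [h0, map_zero] at h1
        rw [Matrix.mulVec, dotProduct, Pi.zero_apply, h1]
        rfl
      have h2 := Matrix.eq_zero_of_mulVec_eq_zero h hmul
      exact congrFun h2 j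
  rw [AlgebraicIndependent]
  rw [injective_iff_map_eq_zero]
  intro p hp
  exact key p.totalDegree p le_rfl hp

/-- Jacobians in an extension with compatible derivations. -/
theorem LDF.jac_map {k : ℕ} (Λ Λ' : LDF k) (ι : Λ.M →ₐ[ℂ] Λ'.M)
    (hd : ∀ i f, Λ'.d i (ι f) = ι (Λ.d i f)) (x : Fin k → Λ.M) :
    Λ'.jac (fun i => ι (x i)) = ι (Λ.jac x) := by
  have h := AlgHom.map_det ι (Matrix.of fun i j : Fin k => Λ.d i (x j))
  rw [LDF.jac, LDF.jac, h]
  congr 1
  ext i j
  simp only [Matrix.of_apply, AlgHom.mapMatrix_apply, Matrix.map_apply, hd]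

/-- The Jacobian of `(x_0, ι x')` in a Gauss extension; `x_0` has `d_0 x_0 = ι b`.
Proof: the row of the derivation `0` is `(ι b, 0, …, 0)` (`Matrix.det_succ_row_zero`). -/
theorem LDF.jac_cons {k : ℕ} (Λ : LDF k) (Λ' : LDF (k + 1)) (ι : Λ.M →ₐ[ℂ] Λ'.M)
    (hd : ∀ i f, Λ'.d (Fin.succ i) (ι f) = ι (Λ.d i f)) (hd0 : ∀ f, Λ'.d 0 (ι f) = 0)
    (x' : Fin k → Λ.M) (x0 : Λ'.M) (b : Λ.M) (hb : Λ'.d 0 x0 = ι b) :
    Λ'.jac (Fin.cons x0 fun i => ι (x' i)) = ι (b * Λ.jac x') := by
  rw [LDF.jac, Matrix.det_succ_row_zero, Fin.sum_univ_succ]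
  have h1 : ∀ j : Fin k, (Matrix.of fun i j : Fin (k + 1) =>
      Λ'.d i ((Fin.cons x0 fun i => ι (x' i) : Fin (k + 1) → Λ'.M) j)) 0 j.succ = 0 := by
    intro j
    rw [Matrix.of_apply, Fin.cons_succ, hd0]
  have h2 : (Matrix.of fun i j : Fin (k + 1) =>
      Λ'.d i ((Fin.cons x0 fun i => ι (x' i) : Fin (k + 1) → Λ'.M) j)) 0 0 = ι b := by
    rw [Matrix.of_apply, Fin.cons_zero, hb]
  rw [h2, Finset.sum_eq_zero fun j _ => by rw [h1 j]; ring, add_zero]
  have h3 := AlgHom.map_det ι (Matrix.of fun i j : Fin k => Λ.d i (x' j))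
  rw [map_mul, LDF.jac, h3, Fin.val_zero, pow_zero, one_mul]
  congr 2
  ext i j
  simp only [Matrix.submatrix_apply, Matrix.of_apply, AlgHom.mapMatrix_apply, Matrix.map_apply,
    Fin.succAbove_zero, Fin.cons_succ, hd]

end Pool.Agent.Lib_MP_e0d435_kv

end

/-! ### from `Lib_MP_e0d435_kv.Newton` -/

section

/-! V09: a near tie of the Newton polygon gives a root near by. -/

namespace Pool.Agent.Lib_MP_e0d435_kv

/-- Strict real lower bound for the order of a sum. -/
private theorem Newton_lt_add {M : Type} [Field M] (w : AddValuation M (WithTop ℤ)) {f g : M}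
    (h : f + g ≠ 0) (c : ℝ) (hf : f = 0 ∨ c < (ordZ w f : ℝ)) (hg : g = 0 ∨ c < (ordZ w g : ℝ)) :
    c < (ordZ w (f + g) : ℝ) := by
  have key : ⌊c⌋ + 1 ≤ ordZ w (f + g) := by
    refine ordZ_add_ge w h _ (hf.imp_right fun h1 => ?_) (hg.imp_right fun h1 => ?_)
    · have := Int.floor_lt.2 h1
      omega
    · have := Int.floor_lt.2 h1
      omega
  exact Int.floor_lt.1 (by omega)

/-- The dominant coefficient if no root has order near `τ`. -/
private theorem Newton_dom {M : Type} [Field M] (w : AddValuation M (WithTop ℤ)) (c : M)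
    (hc : c ≠ 0) (τ δ : ℝ) (hδ : 0 ≤ δ) (s : Multiset M) :
    (∀ ζ ∈ s, ζ ≠ 0) → (∀ ζ ∈ s, δ < |(ordZ w ζ : ℝ) - τ|) →
    ∃ j, (Polynomial.C c * (s.map fun ζ => Polynomial.X - Polynomial.C ζ).prod).coeff j ≠ 0 ∧
      ∀ l, l ≠ j →
        (Polynomial.C c * (s.map fun ζ => Polynomial.X - Polynomial.C ζ).prod).coeff l ≠ 0 →
        (ordZ w ((Polynomial.C c *
          (s.map fun ζ => Polynomial.X - Polynomial.C ζ).prod).coeff j) : ℝ) + j * τ + δ <
        ordZ w ((Polynomial.C c *
          (s.map fun ζ => Polynomial.X - Polynomial.C ζ).prod).coeff l) + l * τ := by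
  induction s using Multiset.induction_on with
  | empty =>
    intro _ _
    refine ⟨0, by simpa using hc, fun l hl h => absurd ?_ h⟩
    simp [Polynomial.coeff_C, hl]
  | cons ζ s ih =>
    intro hs hno
    obtain ⟨j, hj, hdom⟩ := ih (fun x hx => hs x (Multiset.mem_cons_of_mem hx))
      (fun x hx => hno x (Multiset.mem_cons_of_mem hx))
    have hζ : ζ ≠ 0 := hs ζ (Multiset.mem_cons_self ζ s)
    have hζn := hno ζ (Multiset.mem_cons_self ζ s)
    set Q : Polynomial M := Polynomial.C c * (s.map fun ζ => Polynomial.X - Polynomial.C ζ).prod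
      with hQ
    have hP : Polynomial.C c * ((ζ ::ₘ s).map fun ζ => Polynomial.X - Polynomial.C ζ).prod =
        Polynomial.X * Q + Polynomial.C (-ζ) * Q := by
      rw [Multiset.map_cons, Multiset.prod_cons, hQ, map_neg]
      ring
    have hco : ∀ l, (Polynomial.X * Q + Polynomial.C (-ζ) * Q).coeff l =
        (Polynomial.X * Q).coeff l + (-ζ) * Q.coeff l := by
      intro l
      rw [Polynomial.coeff_add, Polynomial.coeff_C_mul]
    have hX0 : (Polynomial.X * Q).coeff 0 = 0 := by
      rw [Polynomial.mul_coeff_zero, Polynomial.coeff_X_zero, zero_mul]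
    have hXs : ∀ l, (Polynomial.X * Q).coeff (l + 1) = Q.coeff l := fun l =>
      Polynomial.coeff_X_mul Q l
    have hord : ∀ l, Q.coeff l ≠ 0 →
        (ordZ w ((-ζ) * Q.coeff l) : ℝ) = ordZ w ζ + ordZ w (Q.coeff l) := by
      intro l hl
      rw [ordZ_mul w (neg_ne_zero.2 hζ) hl, ordZ_neg]
      push_cast
      ring
    rw [hP]
    rcases lt_abs.1 hζn with hbig | hsmall
    · -- order of the root larger than `τ + δ`: the index moves to `j + 1`
      have hmain : (Polynomial.X * Q).coeff (j + 1) + (-ζ) * Q.coeff (j + 1) ≠ 0 ∧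
          ordZ w ((Polynomial.X * Q).coeff (j + 1) + (-ζ) * Q.coeff (j + 1)) =
            ordZ w (Q.coeff j) := by
        rw [hXs]
        refine ordZ_add_of_lt w hj ?_
        by_cases h0 : Q.coeff (j + 1) = 0
        · left; rw [h0, mul_zero]
        · right
          have h1 := hdom (j + 1) (by omega) h0
          have h2 := hord (j + 1) h0
          have h3 : (ordZ w (Q.coeff j) : ℝ) < ordZ w ((-ζ) * Q.coeff (j + 1)) := by
            rw [h2]
            push_cast at h1
            linarith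
          exact_mod_cast h3
      refine ⟨j + 1, by rw [hco]; exact hmain.1, fun l hl hne => ?_⟩
      rw [hco] at hne
      rw [hco, hco, hmain.2]
      have h4 : (ordZ w (Q.coeff j) : ℝ) + ((j + 1 : ℕ) : ℝ) * τ + δ - l * τ <
          ordZ w ((Polynomial.X * Q).coeff l + (-ζ) * Q.coeff l) := by
        refine Newton_lt_add w hne _ ?_ ?_
        · rcases l with _ | l
          · left; exact hX0
          · rw [hXs]
            by_cases h0 : Q.coeff l = 0
            · left; exact h0
            · right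
              have h1 := hdom l (by omega) h0
              push_cast
              linarith
        · by_cases h0 : Q.coeff l = 0
          · left; rw [h0, mul_zero]
          · right
            rw [hord l h0]
            by_cases hlj : l = j
            · subst hlj
              push_cast
              linarith
            · have h1 := hdom l hlj h0
              push_cast
              linarith
      linarith
    · -- order of the root smaller than `τ - δ`: the index stays
      have hmain : (Polynomial.X * Q).coeff j + (-ζ) * Q.coeff j ≠ 0 ∧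
          ordZ w ((Polynomial.X * Q).coeff j + (-ζ) * Q.coeff j) =
            ordZ w ((-ζ) * Q.coeff j) := by
        rw [add_comm]
        refine ordZ_add_of_lt w (mul_ne_zero (neg_ne_zero.2 hζ) hj) ?_
        rcases j with _ | j
        · left; exact hX0
        · rw [hXs]
          by_cases h0 : Q.coeff j = 0
          · left; exact h0
          · right
            have h1 := hdom j (by omega) h0
            have h2 := hord (j + 1) hj
            have h3 : (ordZ w ((-ζ) * Q.coeff (j + 1)) : ℝ) < ordZ w (Q.coeff j) := by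
              rw [h2]
              push_cast at h1
              linarith
            exact_mod_cast h3
      refine ⟨j, by rw [hco]; exact hmain.1, fun l hl hne => ?_⟩
      rw [hco] at hne
      rw [hco, hco, hmain.2, hord j hj]
      have h4 : (ordZ w ζ : ℝ) + ordZ w (Q.coeff j) + j * τ + δ - l * τ <
          ordZ w ((Polynomial.X * Q).coeff l + (-ζ) * Q.coeff l) := by
        refine Newton_lt_add w hne _ ?_ ?_
        · rcases l with _ | l
          · left; exact hX0
          · rw [hXs]
            by_cases h0 : Q.coeff l = 0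
            · left; exact h0
            · right
              by_cases hlj : l = j
              · subst hlj
                push_cast
                linarith
              · have h1 := hdom l hlj h0
                push_cast
                linarith
        · by_cases h0 : Q.coeff l = 0
          · left; rw [h0, mul_zero]
          · right
            rw [hord l h0]
            have h1 := hdom l hl h0
            linarith
      linarith

/-- Let `P = c ∏ (X - ζ)` over the multiset `s` of non-zero roots, `v l = ord (coeff l) + l τ`.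
If two different `l` have `v l ≤ min v + δ` then a root has `|ord ζ - τ| ≤ δ`.
Proof: suppose that no root has this property. By induction on `s` there is an index `j` with
`coeff j ≠ 0` and `v l > v j + δ` for all `l ≠ j` with `coeff l ≠ 0`: multiplying by `X - ζ` the
new coefficient is `a_{l-1} - ζ a_l`; if `ord ζ < τ - δ`, the same `j` works, with new value
`v j + ord ζ`; if `ord ζ > τ + δ` then `j + 1` works, with new value `v j + τ`. -/
theorem newton_near {M : Type} [Field M] (w : AddValuation M (WithTop ℤ)) (s : Multiset M)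
    (hs : ∀ ζ ∈ s, ζ ≠ 0) (c : M) (hc : c ≠ 0) (τ δ : ℝ) (hδ : 0 ≤ δ) (P : Polynomial M)
    (hP : P = Polynomial.C c * (s.map fun ζ => Polynomial.X - Polynomial.C ζ).prod)
    (j₀ j₁ : ℕ) (hj : j₀ ≠ j₁) (h₀ : P.coeff j₀ ≠ 0) (h₁ : P.coeff j₁ ≠ 0)
    (m₀ : ∀ l, P.coeff l ≠ 0 →
      (ordZ w (P.coeff j₀) : ℝ) + j₀ * τ ≤ ordZ w (P.coeff l) + l * τ + δ)
    (m₁ : ∀ l, P.coeff l ≠ 0 →
      (ordZ w (P.coeff j₁) : ℝ) + j₁ * τ ≤ ordZ w (P.coeff l) + l * τ + δ) :
    ∃ ζ ∈ s, |(ordZ w ζ : ℝ) - τ| ≤ δ := by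
  by_contra hcon
  push Not at hcon
  obtain ⟨j, hj', hdom⟩ := Newton_dom w c hc τ δ hδ s hs hcon
  rw [← hP] at hj'
  have e₀ : j₀ = j := by
    by_contra h
    have h1 := hdom j₀ h (by rw [← hP]; exact h₀)
    rw [← hP] at h1
    have h2 := m₀ j hj'
    linarith
  have e₁ : j₁ = j := by
    by_contra h
    have h1 := hdom j₁ h (by rw [← hP]; exact h₁)
    rw [← hP] at h1
    have h2 := m₁ j hj'
    linarith
  exact hj (e₀.trans e₁.symm)

end Pool.Agent.Lib_MP_e0d435_kv

end

/-! ### from `Lib_MP_e0d435_kv.Vand` -/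

section

/-! V10: pigeonhole and Vandermonde. -/

namespace Pool.Agent.Lib_MP_e0d435_kv

/-- the matrix of the node values -/
private noncomputable def VandM {P T : ℕ} (s : Fin P → Fin T) : Matrix (Fin P) (Fin P) ℝ :=
  Matrix.vandermonde fun j => ((s j : ℕ) : ℝ)

private theorem Vand_solve {P T : ℕ} (s : Fin P → Fin T) (hs : Function.Injective s)
    (a : Fin P → ℝ) (δ : ℝ) (h : ∀ j, |∑ i : Fin P, ((s j : ℕ) : ℝ) ^ (i : ℕ) * a i| ≤ δ)
    (i : Fin P) : |a i| ≤ (∑ i, ∑ j, |(VandM s)⁻¹ i j|) * δ := by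
  have hinj : Function.Injective fun j => ((s j : ℕ) : ℝ) := by
    intro j j' hj
    exact hs (Fin.ext (Nat.cast_injective hj))
  have hdet : IsUnit (VandM s).det :=
    (Matrix.det_vandermonde_ne_zero_iff.2 hinj).isUnit
  have h1 : (VandM s)⁻¹.mulVec ((VandM s).mulVec a) = a := by
    rw [Matrix.mulVec_mulVec, Matrix.nonsing_inv_mul _ hdet, Matrix.one_mulVec]
  have h2 : ∀ j, |(VandM s).mulVec a j| ≤ δ := h
  have hδ : 0 ≤ δ := (abs_nonneg _).trans (h2 i)
  have h3 : |a i| ≤ ∑ j, |(VandM s)⁻¹ i j| * δ := by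
    have h4 : a i = ∑ j, (VandM s)⁻¹ i j * (VandM s).mulVec a j := by
      conv_lhs => rw [← h1]
      rfl
    rw [h4]
    refine (Finset.abs_sum_le_sum_abs _ _).trans (Finset.sum_le_sum fun j _ => ?_)
    rw [abs_mul]
    exact mul_le_mul_of_nonneg_left (h2 j) (abs_nonneg _)
  rw [← Finset.sum_mul] at h3
  refine h3.trans (mul_le_mul_of_nonneg_right ?_ hδ)
  exact Finset.single_le_sum (f := fun i => ∑ j, |(VandM s)⁻¹ i j|)
    (fun _ _ => Finset.sum_nonneg fun _ _ => abs_nonneg _) (Finset.mem_univ i)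

/-- Proof: `T = P n + 1` (or more); by the pigeonhole principle some `σ` is used for at least `P`
values of `t < T` (for `P = 0` any `σ` will do; `n ≥ 1` because `t = 0` gives an element of `G`);
the Vandermonde matrix of `P` distinct values `t` is invertible, and the entries of its inverse are
bounded by a constant, the maximum over the finitely many `P`-element subsets of `{t < T}`. -/
theorem vand_select (P n : ℕ) :
    ∃ (T : ℕ) (C : ℝ), 0 < T ∧ 0 < C ∧ ∀ {G : Type} [Fintype G], Fintype.card G = n →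
      ∀ (Δ : G → Fin P → ℝ) (δ : ℝ), 0 ≤ δ →
      (∀ t < T, ∃ σ : G, |∑ i : Fin P, (t : ℝ) ^ (i : ℕ) * Δ σ i| ≤ δ) → ∃ σ, ∀ i, |Δ σ i| ≤ C * δ := by
  classical
  have hnn : ∀ s : Fin P → Fin (n * P + 1), 0 ≤ ∑ i, ∑ j, |(VandM s)⁻¹ i j| := fun s =>
    Finset.sum_nonneg fun _ _ => Finset.sum_nonneg fun _ _ => abs_nonneg _
  refine ⟨n * P + 1, 1 + ∑ s : Fin P → Fin (n * P + 1), ∑ i, ∑ j, |(VandM s)⁻¹ i j|,
    Nat.succ_pos _, add_pos_of_pos_of_nonneg one_pos (Finset.sum_nonneg fun s _ => hnn s), ?_⟩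
  intro G _ hG Δ δ hδ H
  choose f hf using fun t : Fin (n * P + 1) => H t.1 t.2
  obtain ⟨σ, -, hσ⟩ := Finset.exists_lt_card_fiber_of_mul_lt_card_of_maps_to
    (s := (Finset.univ : Finset (Fin (n * P + 1)))) (t := (Finset.univ : Finset G)) (f := f)
    (n := P) (fun _ _ => Finset.mem_univ _) (by
      rw [Finset.card_univ, Finset.card_univ, Fintype.card_fin, hG]
      exact Nat.lt_succ_self _)
  refine ⟨σ, fun i => ?_⟩
  let s : Fin P ↪o Fin (n * P + 1) :=
    Finset.orderEmbOfCardLe (Finset.univ.filter fun t => f t = σ) hσ.le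
  have hs : ∀ j, f (s j) = σ := by
    intro j
    have h1 := Finset.orderEmbOfCardLe_mem (Finset.univ.filter fun t => f t = σ) hσ.le j
    exact (Finset.mem_filter.1 h1).2
  have h2 := Vand_solve s s.injective (Δ σ) δ (fun j => by
    have h3 := hf (s j)
    rw [hs j] at h3
    exact h3) i
  refine h2.trans (mul_le_mul_of_nonneg_right ?_ hδ)
  have h4 : ∑ i, ∑ j, |(VandM (s : Fin P → Fin (n * P + 1)))⁻¹ i j| ≤
      ∑ s : Fin P → Fin (n * P + 1), ∑ i, ∑ j, |(VandM s)⁻¹ i j| :=
    Finset.single_le_sum (f := fun s : Fin P → Fin (n * P + 1) => ∑ i, ∑ j, |(VandM s)⁻¹ i j|)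
      (fun s _ => hnn s) (Finset.mem_univ _)
  linarith

end Pool.Agent.Lib_MP_e0d435_kv

end

/-! ### from `Lib_MP_e0d435_kv.AdDefs` -/

section

/-! The function field of `X` and its valuation rings inside a field of values of an arc. -/

namespace Pool.Agent.Lib_MP_e0d435_kv

variable {M : Type} [Field M] [Algebra ℂ M]

/-- The valuation ring of `w` on an intermediate field. -/
def vfun (w : AddValuation M (WithTop ℤ)) (K : IntermediateField ℂ M) : Subalgebra ℂ M where
  carrier := {f | f ∈ K ∧ 0 ≤ w f}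
  mul_mem' {a b} ha hb := ⟨K.mul_mem ha.1 hb.1, by
    rw [AddValuation.map_mul]; exact add_nonneg ha.2 hb.2⟩
  add_mem' {a b} ha hb := ⟨K.add_mem ha.1 hb.1,
    (le_min ha.2 hb.2).trans (AddValuation.map_add w a b)⟩
  algebraMap_mem' a := ⟨K.algebraMap_mem a, by
    by_cases ha : a = 0
    · rw [ha, map_zero, AddValuation.map_zero]; exact le_top
    · rw [w_algebraMap w a ha]⟩

variable {R : Type} [CommRing R] [Algebra ℂ R]

/-- The function field of `X = Proj R`: the quotients `φ s / φ s'`, `s`, `s'` homogeneous of the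
same degree. -/
def funField (𝒜 : ℕ → Submodule ℂ R) [GradedAlgebra 𝒜] (φ : R →ₐ[ℂ] M)
    (hφ : Function.Injective φ) : IntermediateField ℂ M where
  carrier := {z | ∃ m, ∃ s ∈ 𝒜 m, ∃ s' ∈ 𝒜 m, s' ≠ 0 ∧ z * φ s' = φ s}
  mul_mem' := by
    rintro a b ⟨m, s, hs, s', hs', h0, h⟩ ⟨k, t, ht, t', ht', k0, k1⟩
    refine ⟨m + k, s * t, SetLike.mul_mem_graded hs ht, s' * t', SetLike.mul_mem_graded hs' ht',
      ?_, ?_⟩
    · intro h2
      have h3 : φ s' * φ t' = 0 := by rw [← map_mul, h2, map_zero]
      rcases mul_eq_zero.1 h3 with h4 | h4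
      · exact h0 (hφ (by rw [h4, map_zero]))
      · exact k0 (hφ (by rw [h4, map_zero]))
    · rw [map_mul, map_mul, ← h, ← k1]; ring
  add_mem' := by
    rintro a b ⟨m, s, hs, s', hs', h0, h⟩ ⟨k, t, ht, t', ht', k0, k1⟩
    refine ⟨m + k, s * t' + s' * t, add_mem (SetLike.mul_mem_graded hs ht')
      (SetLike.mul_mem_graded hs' ht), s' * t', SetLike.mul_mem_graded hs' ht', ?_, ?_⟩
    · intro h2
      have h3 : φ s' * φ t' = 0 := by rw [← map_mul, h2, map_zero]
      rcases mul_eq_zero.1 h3 with h4 | h4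
      · exact h0 (hφ (by rw [h4, map_zero]))
      · exact k0 (hφ (by rw [h4, map_zero]))
    · rw [map_mul, map_add, map_mul, map_mul, ← h, ← k1]; ring
  algebraMap_mem' a := by
    refine ⟨0, algebraMap ℂ R a, SetLike.algebraMap_mem_graded 𝒜 a, 1, SetLike.one_mem_graded 𝒜,
      ?_, ?_⟩
    · intro h
      have : φ 1 = φ 0 := by rw [h]
      rw [map_one, map_zero] at this
      exact one_ne_zero this
    · rw [map_one, mul_one, AlgHom.commutes]
  inv_mem' := by
    rintro a ⟨m, s, hs, s', hs', h0, h⟩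
    by_cases ha : a = 0
    · refine ⟨m, 0, Submodule.zero_mem _, s', hs', h0, ?_⟩
      rw [ha, inv_zero, zero_mul, map_zero]
    · refine ⟨m, s', hs', s, hs, ?_, ?_⟩
      · intro h1
        rw [h1, map_zero] at h
        rcases mul_eq_zero.1 h with h4 | h4
        · exact ha h4
        · exact h0 (hφ (by rw [h4, map_zero]))
      · rw [← h, ← mul_assoc, inv_mul_cancel₀ ha, one_mul]

end Pool.Agent.Lib_MP_e0d435_kv

end

/-! ### from `Lib_MP_e0d435_kv.AdField` -/

section

/-! AD5a: the function field of `X`: transcendence degree `n`, finitely generated. -/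

namespace Pool.Agent.Lib_MP_e0d435_kv

open Pool.Agent.Lib_GD Pool.Agent.Lib_KF

variable {R : Type} [CommRing R] [Algebra ℂ R] {𝒜 : ℕ → Submodule ℂ R} [GradedAlgebra 𝒜]
  {n r d : ℕ} {x : Fin (n + 1) → R} {G : R} {M : Type} [Field M] [Algebra ℂ M]

private theorem adField_denom (φ : R →ₐ[ℂ] M) (hφ : Function.Injective φ)
    (c : ℕ → funField 𝒜 φ hφ) (N : ℕ) :
    ∃ m, ∃ b ∈ 𝒜 m, b ≠ 0 ∧ ∀ i < N, ∃ a ∈ 𝒜 m, (c i : M) * φ b = φ a := by
  induction N with
  | zero =>
    refine ⟨0, 1, SetLike.one_mem_graded 𝒜, ?_, fun i hi => absurd hi (Nat.not_lt_zero i)⟩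
    intro h
    have : φ 1 = φ 0 := by rw [h]
    rw [map_one, map_zero] at this
    exact one_ne_zero this
  | succ N ih =>
    obtain ⟨m, b, hb, hb0, H⟩ := ih
    obtain ⟨k, s, hs, s', hs', h0, h⟩ := (c N).2
    refine ⟨m + k, b * s', SetLike.mul_mem_graded hb hs', ?_, ?_⟩
    · intro h2
      have h3 : φ b * φ s' = 0 := by rw [← map_mul, h2, map_zero]
      rcases mul_eq_zero.1 h3 with h4 | h4
      · exact hb0 (hφ (by rw [h4, map_zero]))
      · exact h0 (hφ (by rw [h4, map_zero]))
    · intro i hi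
      rcases Nat.lt_succ_iff_lt_or_eq.1 hi with hi | hi
      · obtain ⟨a, ha, haa⟩ := H i hi
        refine ⟨a * s', SetLike.mul_mem_graded ha hs', ?_⟩
        rw [map_mul, map_mul, ← haa]; ring
      · subst hi
        refine ⟨b * s, SetLike.mul_mem_graded hb hs, ?_⟩
        rw [map_mul, map_mul, ← h]; ring

private theorem adField_transc (h : IsFano 𝒜 n r d x G) (φ : R →ₐ[ℂ] M)
    (hφ : Function.Injective φ) : Transcendental (funField 𝒜 φ hφ) (φ (x 0)) := by
  have := h.domain
  rintro ⟨p, hp0, hp⟩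
  apply hp0
  obtain ⟨m, b, hb, hb0, H⟩ := adField_denom φ hφ (fun i => p.coeff i) (p.natDegree + 1)
  choose! a ha haa using H
  have hx0 : x 0 ≠ 0 := h.x_indep.ne_zero 0
  have h1 : φ (∑ i ∈ Finset.range (p.natDegree + 1), a i * x 0 ^ i) = 0 := by
    rw [Polynomial.aeval_eq_sum_range] at hp
    rw [map_sum]
    have h2 : φ b * (∑ i ∈ Finset.range (p.natDegree + 1), p.coeff i • φ (x 0) ^ i) = 0 := by
      rw [hp, mul_zero]
    rw [Finset.mul_sum] at h2
    rw [← h2]
    refine Finset.sum_congr rfl fun i hi => ?_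
    rw [map_mul, ← haa i (Finset.mem_range.1 hi), map_pow]
    have h3 : p.coeff i • φ (x 0) ^ i = (p.coeff i : M) * φ (x 0) ^ i := rfl
    rw [h3]; ring
  have h4 : ∑ i ∈ Finset.range (p.natDegree + 1), a i * x 0 ^ i = 0 := hφ (by rw [h1, map_zero])
  have hmem : ∀ i < p.natDegree + 1, a i * x 0 ^ i ∈ 𝒜 (m + i * d) := fun i hi =>
    SetLike.mul_mem_graded (ha i hi) (by simpa using SetLike.pow_mem_graded i (h.x_mem 0))
  ext j
  by_cases hj : j < p.natDegree + 1
  · have h5 : a j * x 0 ^ j = 0 := by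
      have h6 := congrArg (fun z => (DirectSum.decompose 𝒜 z (m + j * d) : R)) h4
      simp only [DirectSum.decompose_sum, DirectSum.decompose_zero] at h6
      rw [DFinsupp.finsetSum_apply, AddSubmonoidClass.coe_finsetSum,
        Finset.sum_eq_single j] at h6
      · rw [DirectSum.decompose_of_mem_same 𝒜 (hmem j hj)] at h6
        simpa using h6
      · intro i hi hij
        rw [DirectSum.decompose_of_mem_ne 𝒜 (hmem i (Finset.mem_range.1 hi))]
        intro h7
        apply hij
        have h8 : i * d = j * d := by omega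
        exact Nat.eq_of_mul_eq_mul_right h.d_pos h8
      · intro h9
        exact absurd (Finset.mem_range.2 hj) h9
    have h6 : a j = 0 := by
      rcases mul_eq_zero.1 h5 with h7 | h7
      · exact h7
      · exact absurd h7 (pow_ne_zero j hx0)
    have h7 := haa j hj
    rw [h6, map_zero] at h7
    rcases mul_eq_zero.1 h7 with h8 | h8
    · simpa using h8
    · exact absurd (hφ (by rw [h8, map_zero])) hb0
  · rw [Polynomial.coeff_eq_zero_of_natDegree_lt (by omega), Polynomial.coeff_zero]

private theorem adField_mem_alg {s : Set M} {z : M} :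
    z ∈ (AlgebraicIndependent.matroid ℂ M).closure s ↔
      IsAlgebraic (Algebra.adjoin ℂ s) z := by
  rw [AlgebraicIndependent.matroid_closure_eq, SetLike.mem_coe, Subalgebra.mem_algebraicClosure]

private theorem adField_map {A B : Type} [CommRing A] [Algebra ℂ A] [CommRing B] [Algebra ℂ B]
    (F : A →ₐ[ℂ] B) (hF : Function.Injective F) (S : Set A) {a : A}
    (ha : IsAlgebraic (Algebra.adjoin ℂ S) a) : IsAlgebraic (Algebra.adjoin ℂ (F '' S)) (F a) := by
  have hmem : ∀ b : Algebra.adjoin ℂ S, F b ∈ Algebra.adjoin ℂ (F '' S) := fun b => by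
    rw [← AlgHom.map_adjoin]; exact ⟨b, b.2, rfl⟩
  let f : Algebra.adjoin ℂ S →+* Algebra.adjoin ℂ (F '' S) :=
    ((F.comp (Algebra.adjoin ℂ S).val).codRestrict (Algebra.adjoin ℂ (F '' S)) hmem).toRingHom
  refine ha.ringHom_of_comp_eq f F.toRingHom ?_ ?_
  · intro b c hbc
    exact Subtype.ext (hF (congrArg Subtype.val hbc))
  · ext b
    rfl

/-- Proof: the `n` elements `φ(x_b)/φ(x_0)`, `b ≠ 0`, are algebraically independent (a relation,
multiplied by a power of `x_0`, is a homogeneous relation between the `x_b`), and the function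
field is algebraic over the field generated by them: for `s ∈ 𝒜 m` the element
`z = s^d / x_0^m` is integral over `ℂ[x_b/x_0]` (divide the homogeneous integral equation of
`s^d ∈ 𝒜 (d m)`, with coefficients forms of degree `i m` in `x`, by `x_0^(m p)`), and
`(s/s')^d = z/z'`. -/
theorem funField_trdeg (h : IsFano 𝒜 n r d x G) (φ : R →ₐ[ℂ] M) (hφ : Function.Injective φ) :
    Algebra.trdeg ℂ (funField 𝒜 φ hφ) = (n : ℕ) := by
  have := h.domain
  set K := funField 𝒜 φ hφ with hK
  obtain ⟨s0, hs0⟩ := exists_isTranscendenceBasis ℂ K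
  set t := φ (x 0) with ht
  have ht0 : t ≠ 0 := by
    intro h1
    exact h.x_indep.ne_zero 0 (hφ (by rw [← ht, h1, map_zero]))
  set s : Set M := Subtype.val '' s0 with hs
  set X : Set M := Set.range (fun b => φ (x b)) with hX
  set 𝓜 := AlgebraicIndependent.matroid ℂ M with h𝓜
  have hsI : 𝓜.Indep s := by
    rw [h𝓜, AlgebraicIndependent.matroid_indep_iff]
    have h1 : AlgebraicIndependent ℂ (K.val ∘ (Subtype.val : s0 → K)) :=
      hs0.1.map' K.val.injective
    have h2 := h1.coe_range
    rw [Set.range_comp, Subtype.range_coe] at h2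
    exact h2
  have hXI : 𝓜.Indep X := by
    rw [h𝓜, AlgebraicIndependent.matroid_indep_iff]
    exact (h.x_indep.map' (f := φ) hφ).coe_range
  have hKs : ∀ z : K, (z : M) ∈ 𝓜.closure s := by
    intro z
    rw [adField_mem_alg]
    have h1 := hs0.isAlgebraic.isAlgebraic z
    rw [Subtype.range_coe] at h1
    exact adField_map K.val K.val.injective s0 h1
  have hts : t ∉ 𝓜.closure s := by
    rw [adField_mem_alg]
    intro h1
    have hle : Algebra.adjoin ℂ s ≤ K.toSubalgebra := by
      rw [Algebra.adjoin_le_iff]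
      rintro _ ⟨z, _, rfl⟩
      exact z.2
    exact adField_transc h φ hφ (h1.ringHom_of_comp_eq (Subalgebra.inclusion hle).toRingHom
      (RingHom.id M) (Subalgebra.inclusion_injective hle) (by ext; rfl))
  have hRX : ∀ a : R, φ a ∈ 𝓜.closure X := by
    intro a
    rw [adField_mem_alg]
    have h1 := h.x_finite
    have h2 : IsAlgebraic (Algebra.adjoin ℂ (Set.range x)) a := IsAlgebraic.of_finite _ a
    have h3 := adField_map φ hφ (Set.range x) h2
    rw [← Set.range_comp] at h3
    exact h3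
  have hKX : ∀ z : K, (z : M) ∈ 𝓜.closure X := by
    rintro ⟨z, m, a, ha, a', ha', h0, h1⟩
    have h2 := hRX a
    have h3 := hRX a'
    rw [adField_mem_alg] at h2 h3 ⊢
    have h4 : φ a' ≠ 0 := fun h5 => h0 (hφ (by rw [h5, map_zero]))
    refine IsAlgebraic.of_mul (mem_nonZeroDivisors_of_ne_zero h4) h3 ?_
    rw [mul_comm]
    change IsAlgebraic _ (z * φ a')
    rw [h1]
    exact h2
  have hXs : X ⊆ 𝓜.closure (insert t s) := by
    rintro _ ⟨b, rfl⟩
    have hy : φ (x b) / t ∈ K :=
      ⟨d, x b, h.x_mem b, x 0, h.x_mem 0, h.x_indep.ne_zero 0, div_mul_cancel₀ _ ht0⟩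
    have h1 : φ (x b) / t ∈ 𝓜.closure (insert t s) :=
      𝓜.closure_subset_closure (Set.subset_insert t s) (hKs ⟨_, hy⟩)
    have h2 : t ∈ 𝓜.closure (insert t s) :=
      𝓜.mem_closure_of_mem (Set.mem_insert t s) (Set.subset_univ _)
    rw [adField_mem_alg] at h1 h2
    change φ (x b) ∈ _
    rw [adField_mem_alg, ← div_mul_cancel₀ (φ (x b)) ht0]
    exact h1.mul h2
  have hsX : insert t s ⊆ 𝓜.closure X := by
    refine Set.insert_subset (hRX _) ?_
    rintro _ ⟨z, _, rfl⟩
    exact hKX z
  have hcl : 𝓜.closure (insert t s) = 𝓜.closure X :=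
    subset_antisymm (𝓜.closure_subset_closure_of_subset_closure hsX)
      (𝓜.closure_subset_closure_of_subset_closure hXs)
  have hts' : t ∉ s := fun h1 => hts (𝓜.mem_closure_of_mem h1 (Set.subset_univ _))
  have hI : 𝓜.Indep (insert t s) :=
    (hsI.insert_indep_iff_of_notMem hts').2 ⟨Set.mem_univ _, hts⟩
  have hcard : (insert t s).encard = X.encard := by
    rw [← hI.eRk_eq_encard, ← hXI.eRk_eq_encard, ← 𝓜.eRk_closure_eq, hcl, 𝓜.eRk_closure_eq]
  have hXc : X.encard = (n + 1 : ℕ) := by
    have h1 : Function.Injective (fun b => φ (x b)) := hφ.comp h.x_indep.injective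
    rw [hX, ← Set.image_univ, h1.encard_image, Set.encard_univ]
    simp
  rw [hXc, Set.encard_insert_of_notMem hts', hs,
    Function.Injective.encard_image Subtype.val_injective] at hcard
  have hs0c : s0.encard = (n : ℕ) := by
    push_cast at hcard
    exact (ENat.add_left_injective_of_ne_top ENat.one_ne_top) hcard
  rw [← hs0.cardinalMk_eq_trdeg]
  exact Cardinal.toENat_eq_natCast.1 hs0c

/-- Proof: `R` is a finitely generated algebra (`x_finite`), so generated by homogeneous
`g_1, …, g_p` of degrees `m_i`; with `f, g ≠ 0` of degrees `k`, `k + 1` (`h.line` for the prime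
`0`) and `θ = g/f` the function field is generated by the `g_i/θ^(m_i)`: `s/θ^m`, `s ∈ 𝒜 m`, is a
polynomial in them, and `s/s' = (s/θ^m)/(s'/θ^m)`. -/
theorem funField_fg (h : IsFano 𝒜 n r d x G) (φ : R →ₐ[ℂ] M) (hφ : Function.Injective φ) :
    Algebra.EssFiniteType ℂ (funField 𝒜 φ hφ) := by
  classical
  have := h.domain
  have hx0 : x 0 ≠ 0 := h.x_indep.ne_zero 0
  obtain ⟨k, f, hf, g, hg, hfn, hgn⟩ := h.line ⊥ Ideal.isPrime_bot
    ⟨d, h.d_pos, x 0, h.x_mem 0, by simpa using hx0⟩
  have hf0 : f ≠ 0 := by simpa using hfn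
  have hg0 : g ≠ 0 := by simpa using hgn
  have hφf : φ f ≠ 0 := fun h1 => hf0 (hφ (by rw [h1, map_zero]))
  have hφg : φ g ≠ 0 := fun h1 => hg0 (hφ (by rw [h1, map_zero]))
  set u : M := φ f / φ g with hu
  have hu0 : u ≠ 0 := div_ne_zero hφf hφg
  set ψ : R →ₐ[ℂ] M := (DirectSum.toAlgebra ℂ (fun i => 𝒜 i)
    (fun i => (u ^ i) • (φ.toLinearMap ∘ₗ (𝒜 i).subtype))
    (by simp) (by
      intro i j a b
      simp [pow_add]
      ring)).comp (DirectSum.decomposeAlgEquiv 𝒜).toAlgHom with hψ
  have hψm : ∀ m, ∀ s ∈ 𝒜 m, ψ s = u ^ m * φ s := by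
    intro m s hs
    rw [hψ]
    simp [DirectSum.decompose_of_mem 𝒜 hs]
  have hψK : ∀ a, ψ a ∈ funField 𝒜 φ hφ := by
    intro a
    rw [← DirectSum.sum_support_decompose 𝒜 a, map_sum]
    refine sum_mem fun i _ => ?_
    rw [hψm i _ (SetLike.coe_mem _)]
    refine ⟨i * k + i, f ^ i * (DirectSum.decompose 𝒜 a i : R),
      SetLike.mul_mem_graded (by simpa using SetLike.pow_mem_graded i hf) (SetLike.coe_mem _),
      g ^ i, ?_, pow_ne_zero i hg0, ?_⟩
    · have h1 := SetLike.pow_mem_graded i hg
      simpa [mul_add] using h1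
    · rw [map_mul, map_pow, map_pow, hu, div_pow]
      field_simp
  have : Algebra.FiniteType ℂ R := by
    have := h.x_finite
    have : Algebra.FiniteType ℂ (Algebra.adjoin ℂ (Set.range x)) :=
      (Subalgebra.fg_iff_finiteType _).1 ⟨(Set.finite_range x).toFinset, by simp⟩
    exact Algebra.FiniteType.trans this inferInstance
  rw [IntermediateField.essFiniteType_iff]
  obtain ⟨S, hS⟩ := (Algebra.FiniteType.out : (⊤ : Subalgebra ℂ R).FG)
  refine ⟨S.image ψ, le_antisymm ?_ ?_⟩
  · rw [IntermediateField.adjoin_le_iff]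
    intro z hz
    obtain ⟨a, _, rfl⟩ := Finset.mem_image.1 (Finset.mem_coe.1 hz)
    exact hψK a
  · have hψE : ∀ a, ψ a ∈ IntermediateField.adjoin ℂ ((S.image ψ : Finset M) : Set M) := by
      intro a
      apply IntermediateField.algebra_adjoin_le_adjoin
      rw [Finset.coe_image, ← AlgHom.map_adjoin, hS]
      exact ⟨a, trivial, rfl⟩
    rintro z ⟨m, a, ha, a', ha', h0, h1⟩
    have h2 : φ a' ≠ 0 := fun h5 => h0 (hφ (by rw [h5, map_zero]))
    have h3 : z = ψ a / ψ a' := by
      rw [hψm m a ha, hψm m a' ha', ← h1]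
      have := pow_ne_zero m hu0
      field_simp
    rw [h3]
    exact div_mem (hψE a) (hψE a')

end Pool.Agent.Lib_MP_e0d435_kv

end
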