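import Mathlib
import Pool.Agent.Lib_MP_e0d435_m.G02
import Pool.Agent.Lib_MP_e0d435_m.G04

/-!
# MP_e0d435_ag: merged library part G06

Concatenation of library files (each in its own section), only to save build time.
-/

/-! ### from `Lib_KF.KCBase` -/

section

/-!
# KC00: basic facts on `x : ℂ[x_0 .. x_n] → R` and its fibres

`R` is a finite module over `ℂ[x]`, the `x b` are algebraically independent, `R` is a normal domain.
-/

open MeasureTheory
open scoped ENNReal NNReal

namespace Pool.Agent.Lib_KF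

open Pool.Agent.Lib_GD

/-- The unit polydisc without `h = 0`. -/
def W0 {n : ℕ} (h : MvPolynomial (Fin (n + 1)) ℂ) : Set (Fin (n + 1) → ℂ) :=
  {y | ‖y‖ < 1 ∧ MvPolynomial.eval y h ≠ 0}

theorem isOpen_W0 {n : ℕ} (h : MvPolynomial (Fin (n + 1)) ℂ) : IsOpen (W0 h) :=
  (isOpen_lt continuous_norm continuous_const).inter
    (isOpen_ne_fun (MvPolynomial.continuous_eval h) continuous_const)

/-- a non-zero polynomial does not vanish identically on a non-empty open set -/
theorem kc_exists_ne {N : ℕ} (q : MvPolynomial (Fin N) ℂ) (hq : q ≠ 0) {U : Set (Fin N → ℂ)}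
    (hU : IsOpen U) (hne : U.Nonempty) : ∃ y ∈ U, MvPolynomial.eval y q ≠ 0 := by
  by_contra hcon
  push Not at hcon
  have h1 : volume U ≤ volume {y : Fin N → ℂ | MvPolynomial.eval y q = 0} :=
    measure_mono fun y hy => hcon y hy
  rw [GPn.mv_null q hq] at h1
  exact (hU.measure_pos volume hne).ne' (le_antisymm h1 bot_le)

section Fib

variable {R : Type} [CommRing R] [Algebra ℂ R] {n : ℕ} {x : Fin (n + 1) → R}

/-- `ν ∘ aeval x` is evaluation at `y` for `ν` in the fibre over `y`. -/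
theorem fib_aeval {y : Fin (n + 1) → ℂ} {ν : R →ₐ[ℂ] ℂ} (hν : ν ∈ fib x y)
    (p : MvPolynomial (Fin (n + 1)) ℂ) : ν (MvPolynomial.aeval x p) = MvPolynomial.eval y p := by
  have h : ν.comp (MvPolynomial.aeval x) = MvPolynomial.aeval y := by
    ext b
    simp [hν b]
  have h2 := DFunLike.congr_fun h p
  rw [AlgHom.comp_apply] at h2
  rw [h2, MvPolynomial.aeval_eq_eval]

private theorem kcbase_mem (a : Algebra.adjoin ℂ (Set.range x)) :
    ∃ p : MvPolynomial (Fin (n + 1)) ℂ, MvPolynomial.aeval x p = (a : R) := by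
  have h : (a : R) ∈ (MvPolynomial.aeval x : MvPolynomial (Fin (n + 1)) ℂ →ₐ[ℂ] R).range :=
    (Algebra.adjoin_range_eq_range_aeval ℂ x) ▸ a.2
  exact h

/-- Every `f : R` satisfies a monic equation over `ℂ[x]`. -/
theorem kc_integral (hfin : Module.Finite (Algebra.adjoin ℂ (Set.range x)) R) (f : R) :
    ∃ (D : ℕ) (c : Fin D → MvPolynomial (Fin (n + 1)) ℂ), 1 ≤ D ∧
      f ^ D = ∑ i : Fin D, MvPolynomial.aeval x (c i) * f ^ (i : ℕ) := by
  classical
  rcases subsingleton_or_nontrivial R with hs | hn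
  · exact ⟨1, fun _ => 0, le_rfl, Subsingleton.elim _ _⟩
  have := hfin
  have : Algebra.IsIntegral (Algebra.adjoin ℂ (Set.range x)) R := Algebra.IsIntegral.of_finite _ _
  obtain ⟨P, hP, hPf⟩ := Algebra.IsIntegral.isIntegral (R := Algebra.adjoin ℂ (Set.range x)) f
  choose p hp using fun i : ℕ => kcbase_mem (x := x) (P.coeff i)
  refine ⟨P.natDegree, fun i => -p i, ?_, ?_⟩
  · rw [Nat.one_le_iff_ne_zero]
    intro h0
    rw [hP.natDegree_eq_zero] at h0
    rw [h0, Polynomial.eval₂_one] at hPf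
    exact one_ne_zero hPf
  · have h1 : Polynomial.aeval f P = 0 := hPf
    rw [Polynomial.aeval_eq_sum_range, Finset.sum_range_succ, hP.coeff_natDegree, one_smul] at h1
    rw [← Finset.sum_range (fun i => MvPolynomial.aeval x (-p i) * f ^ i)]
    have h2 : ∀ i, P.coeff i • f ^ i = MvPolynomial.aeval x (p i) * f ^ i := by
      intro i
      rw [hp i, Algebra.smul_def]
      rfl
    rw [Finset.sum_congr rfl fun i _ => h2 i] at h1
    rw [add_eq_zero_iff_eq_neg'.1 h1]
    simp only [map_neg, neg_mul, Finset.sum_neg_distrib]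

/-- Over the unit polydisc every `f : R` is bounded (use `kc_integral`). -/
theorem fib_bdd (hfin : Module.Finite (Algebra.adjoin ℂ (Set.range x)) R) (f : R) :
    ∃ C : ℝ, ∀ y ∈ Metric.ball (0 : Fin (n + 1) → ℂ) 1, ∀ ν ∈ fib x y, ‖ν f‖ ≤ C := by
  classical
  obtain ⟨D, c, hD, hf⟩ := kc_integral hfin f
  have hB : ∀ i : Fin D, ∃ B : ℝ, ∀ y ∈ Metric.closedBall (0 : Fin (n + 1) → ℂ) 1,
      ‖MvPolynomial.eval y (c i)‖ ≤ B := fun i =>
    (isCompact_closedBall _ _).exists_bound_of_continuousOn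
      (MvPolynomial.continuous_eval (c i)).continuousOn
  choose B hB using hB
  refine ⟨max 1 (∑ i, |B i|), fun y hy ν hν => ?_⟩
  have hy' : y ∈ Metric.closedBall (0 : Fin (n + 1) → ℂ) 1 := Metric.ball_subset_closedBall hy
  rcases le_or_gt ‖ν f‖ 1 with h1 | h1
  · exact h1.trans (le_max_left _ _)
  refine le_trans ?_ (le_max_right _ _)
  have h2 : ν f ^ D = ∑ i : Fin D, MvPolynomial.eval y (c i) * ν f ^ (i : ℕ) := by
    rw [← map_pow, hf, map_sum]
    refine Finset.sum_congr rfl fun i _ => ?_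
    rw [map_mul, map_pow, fib_aeval hν]
  obtain ⟨d, rfl⟩ : ∃ d, D = d + 1 := ⟨D - 1, by omega⟩
  have h3 : ‖ν f‖ ^ (d + 1) ≤ (∑ i, |B i|) * ‖ν f‖ ^ d := by
    rw [← norm_pow, h2, Finset.sum_mul]
    refine (norm_sum_le _ _).trans (Finset.sum_le_sum fun i _ => ?_)
    rw [norm_mul, norm_pow]
    have h4 : ‖ν f‖ ^ (i : ℕ) ≤ ‖ν f‖ ^ d := pow_le_pow_right₀ h1.le (by omega)
    exact mul_le_mul ((hB i y hy').trans (le_abs_self _)) h4 (by positivity) (abs_nonneg _)
  rw [pow_succ'] at h3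
  exact le_of_mul_le_mul_right h3 (by positivity)

/-- Every fibre is finite (`R` is generated by finitely many elements as a module, each of them has
finitely many possible values by `kc_integral`). -/
theorem fib_finite (hfin : Module.Finite (Algebra.adjoin ℂ (Set.range x)) R)
    (y : Fin (n + 1) → ℂ) : (fib x y).Finite := by
  classical
  obtain ⟨S, hS⟩ := hfin.fg_top
  have hroots : ∀ s : S, ∃ T : Set ℂ, T.Finite ∧ ∀ ν ∈ fib x y, ν (s : R) ∈ T := by
    intro s
    obtain ⟨D, c, hD, hf⟩ := kc_integral hfin (s : R)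
    set q : Polynomial ℂ := Polynomial.X ^ D -
      ∑ i : Fin D, Polynomial.C (MvPolynomial.eval y (c i)) * Polynomial.X ^ (i : ℕ) with hq
    have hqm : q.Monic := by
      refine Polynomial.monic_X_pow_sub ?_
      refine (Polynomial.degree_sum_le _ _).trans_lt ?_
      rw [Finset.sup_lt_iff (by exact WithBot.bot_lt_coe D)]
      intro i _
      refine (Polynomial.degree_C_mul_X_pow_le _ _).trans_lt ?_
      exact_mod_cast i.2
    refine ⟨q.roots.toFinset, Finset.finite_toSet _, fun ν hν => ?_⟩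
    rw [Finset.mem_coe, Multiset.mem_toFinset, Polynomial.mem_roots hqm.ne_zero,
      Polynomial.IsRoot.def, hq, Polynomial.eval_sub, Polynomial.eval_pow, Polynomial.eval_X,
      Polynomial.eval_finsetSum, ← map_pow, hf, map_sum, sub_eq_zero]
    refine Finset.sum_congr rfl fun i _ => ?_
    rw [map_mul, map_pow, fib_aeval hν, Polynomial.eval_mul, Polynomial.eval_C,
      Polynomial.eval_pow, Polynomial.eval_X]
  choose T hT hTν using hroots
  refine Set.Finite.of_finite_image (f := fun ν : R →ₐ[ℂ] ℂ => fun s : S => ν (s : R)) ?_ ?_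
  · refine (Set.Finite.pi (t := T) hT).subset ?_
    rintro _ ⟨ν, hν, rfl⟩ s _
    exact hTν s ν hν
  · intro ν hν μ hμ h
    refine AlgHom.ext fun r => ?_
    have hr : r ∈ Submodule.span (Algebra.adjoin ℂ (Set.range x)) (S : Set R) := by
      rw [hS]
      trivial
    induction hr using Submodule.span_induction with
    | mem s hs => exact congrFun h ⟨s, hs⟩
    | zero => rw [map_zero, map_zero]
    | add a b _ _ ha hb => rw [map_add, map_add, ha, hb]
    | smul a b _ hb =>
      obtain ⟨p, hp⟩ := kcbase_mem a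
      have h1 : a • b = MvPolynomial.aeval x p * b := by
        rw [hp, Algebra.smul_def]
        rfl
      rw [h1, map_mul, map_mul, fib_aeval hν, fib_aeval hμ, hb]

/-- Every fibre is non-empty: lying over for the finite extension `ℂ[x] ⊆ R` and
`R / 𝔪 = ℂ`. -/
theorem fib_nonempty (hx : AlgebraicIndependent ℂ x)
    (hfin : Module.Finite (Algebra.adjoin ℂ (Set.range x)) R)
    (y : Fin (n + 1) → ℂ) : (fib x y).Nonempty := by
  classical
  have := hfin
  have : Algebra.IsIntegral (Algebra.adjoin ℂ (Set.range x)) R := Algebra.IsIntegral.of_finite _ _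
  set φ : Algebra.adjoin ℂ (Set.range x) →ₐ[ℂ] ℂ :=
    (MvPolynomial.aeval y).comp (hx.aevalEquiv.symm : _ →ₐ[ℂ] _) with hφ
  have hφs : Function.Surjective φ := fun c => ⟨algebraMap ℂ _ c, by rw [AlgHom.commutes]; rfl⟩
  have hmax : (RingHom.ker φ).IsMaximal := RingHom.ker_isMaximal_of_surjective φ hφs
  obtain ⟨Q, hQ, hQc⟩ := Ideal.exists_ideal_over_maximal_of_isIntegral (S := R) (RingHom.ker φ)
    (by
      intro a ha
      have h1 : (a : R) = 0 := ha
      have h2 : a = 0 := Subtype.ext h1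
      rw [h2]
      exact zero_mem _)
  have hφp : ∀ p : MvPolynomial (Fin (n + 1)) ℂ, φ (hx.aevalEquiv p) = MvPolynomial.eval y p := by
    intro p
    rw [hφ]
    simp [MvPolynomial.aeval_eq_eval]
  have hmem : ∀ p : MvPolynomial (Fin (n + 1)) ℂ,
      MvPolynomial.aeval x p - algebraMap ℂ R (MvPolynomial.eval y p) ∈ Q := by
    intro p
    have h1 : hx.aevalEquiv (p - MvPolynomial.C (MvPolynomial.eval y p)) ∈ RingHom.ker φ := by
      change φ (hx.aevalEquiv (p - MvPolynomial.C (MvPolynomial.eval y p))) = 0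
      rw [hφp]
      simp
    rw [← hQc, Ideal.mem_comap] at h1
    have h2 : algebraMap (Algebra.adjoin ℂ (Set.range x)) R
        (hx.aevalEquiv (p - MvPolynomial.C (MvPolynomial.eval y p))) =
        MvPolynomial.aeval x p - algebraMap ℂ R (MvPolynomial.eval y p) := by
      rw [hx.algebraMap_aevalEquiv]
      simp
    rwa [h2] at h1
  let : Field (R ⧸ Q) := Ideal.Quotient.field Q
  have : Algebra.IsIntegral ℂ (R ⧸ Q) := by
    refine ⟨fun k => ?_⟩
    obtain ⟨f, rfl⟩ := Ideal.Quotient.mk_surjective k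
    obtain ⟨D, c, hD, hf⟩ := kc_integral hfin f
    refine ⟨Polynomial.X ^ D -
      ∑ i : Fin D, Polynomial.C (MvPolynomial.eval y (c i)) * Polynomial.X ^ (i : ℕ), ?_, ?_⟩
    · refine Polynomial.monic_X_pow_sub ?_
      refine (Polynomial.degree_sum_le _ _).trans_lt ?_
      rw [Finset.sup_lt_iff (by exact WithBot.bot_lt_coe D)]
      intro i _
      refine (Polynomial.degree_C_mul_X_pow_le _ _).trans_lt ?_
      exact_mod_cast i.2
    · rw [Polynomial.eval₂_sub, Polynomial.eval₂_pow, Polynomial.eval₂_X,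
        Polynomial.eval₂_finsetSum, ← map_pow, hf, map_sum, sub_eq_zero]
      refine Finset.sum_congr rfl fun i _ => ?_
      rw [map_mul, map_pow, Polynomial.eval₂_mul, Polynomial.eval₂_C, Polynomial.eval₂_pow,
        Polynomial.eval₂_X]
      congr 1
      exact Ideal.Quotient.eq.2 (hmem (c i))
  have hbij := IsAlgClosed.algebraMap_bijective_of_isIntegral (k := ℂ) (K := R ⧸ Q)
  set E : ℂ ≃ₐ[ℂ] (R ⧸ Q) := AlgEquiv.ofBijective (Algebra.ofId ℂ (R ⧸ Q)) hbij with hE
  refine ⟨(E.symm : (R ⧸ Q) →ₐ[ℂ] ℂ).comp (Ideal.Quotient.mkₐ ℂ Q), fun b => ?_⟩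
  have h1 : Ideal.Quotient.mkₐ ℂ Q (x b) = E (y b) := by
    have h2 := hmem (MvPolynomial.X b)
    rw [MvPolynomial.aeval_X, MvPolynomial.eval_X] at h2
    exact Ideal.Quotient.eq.2 h2
  rw [AlgHom.comp_apply, h1]
  exact E.symm_apply_apply (y b)

/-- `f ≠ 0` divides a non-zero polynomial in the `x b` (the constant term of a monic equation of
minimal degree). -/
theorem kc_norm [IsDomain R] (hfin : Module.Finite (Algebra.adjoin ℂ (Set.range x)) R) (f : R)
    (hf : f ≠ 0) : ∃ q : MvPolynomial (Fin (n + 1)) ℂ, q ≠ 0 ∧ ∃ f' : R,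
      f * f' = MvPolynomial.aeval x q := by
  have := hfin
  have : Algebra.IsIntegral (Algebra.adjoin ℂ (Set.range x)) R := Algebra.IsIntegral.of_finite _ _
  have halg : IsAlgebraic (Algebra.adjoin ℂ (Set.range x)) f :=
    (Algebra.IsIntegral.isIntegral (R := Algebra.adjoin ℂ (Set.range x)) f).isAlgebraic
  obtain ⟨r, hr, f', hf'⟩ := halg.exists_nonzero_dvd (mem_nonZeroDivisors_of_ne_zero hf)
  obtain ⟨q, hq⟩ := kcbase_mem r
  refine ⟨q, ?_, f', ?_⟩
  · rintro rfl
    rw [map_zero] at hq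
    exact hr (Subtype.ext hq.symm)
  · rw [hq, ← hf']
    rfl

/-- `f ≠ 0` does not vanish on the fibres over a dense open set. -/
theorem fib_ne [IsDomain R] (hfin : Module.Finite (Algebra.adjoin ℂ (Set.range x)) R) (f : R)
    (hf : f ≠ 0) : ∃ q : MvPolynomial (Fin (n + 1)) ℂ, q ≠ 0 ∧
      ∀ y, MvPolynomial.eval y q ≠ 0 → ∀ ν ∈ fib x y, ν f ≠ 0 := by
  obtain ⟨q, hq, f', hf'⟩ := kc_norm hfin f hf
  refine ⟨q, hq, fun y hy ν hν h0 => hy ?_⟩
  rw [← fib_aeval hν, ← hf', map_mul, h0, zero_mul]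

/-- A function which vanishes on the fibres over a non-empty open set is zero. -/
theorem fib_zero [IsDomain R] (hx : AlgebraicIndependent ℂ x)
    (hfin : Module.Finite (Algebra.adjoin ℂ (Set.range x)) R) (f : R)
    {U : Set (Fin (n + 1) → ℂ)} (hU : IsOpen U) (hne : U.Nonempty)
    (h0 : ∀ y ∈ U, ∀ ν ∈ fib x y, ν f = 0) : f = 0 := by
  by_contra hf
  obtain ⟨q, hq, hqf⟩ := fib_ne hfin f hf
  obtain ⟨y, hyU, hy⟩ := kc_exists_ne q hq hU hne
  obtain ⟨ν, hν⟩ := fib_nonempty hx hfin y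
  exact hqf y hy ν hν (h0 y hyU ν hν)

/-- `R` is noetherian. -/
theorem kc_noeth (hfin : Module.Finite (Algebra.adjoin ℂ (Set.range x)) R) :
    IsNoetherianRing R := by
  have := hfin
  have : Algebra.FiniteType ℂ (Algebra.adjoin ℂ (Set.range x)) := by
    rw [← Subalgebra.fg_iff_finiteType, ← Set.Finite.coe_toFinset (Set.finite_range x)]
    exact Subalgebra.fg_adjoin_finset _
  have : IsNoetherianRing (Algebra.adjoin ℂ (Set.range x)) :=
    Algebra.FiniteType.isNoetherianRing ℂ _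
  exact IsNoetherianRing.of_finite (Algebra.adjoin ℂ (Set.range x)) R

end Fib

end Pool.Agent.Lib_KF

end

/-! ### from `Lib_KF.SHBase` -/

section

/-!
# SH: `R` as a finite algebra over `ℂ[x_0 .. x_n]`, definitions
-/

open scoped ENNReal NNReal

namespace Pool.Agent.Lib_KF

open Pool.Agent.Lib_GD

/-- `ℂ[x_0, …, x_n]` -/
abbrev PA (n : ℕ) : Type := MvPolynomial (Fin (n + 1)) ℂ

/-- the coordinates as elements of the `ℂ[x]`-algebra `R` -/
noncomputable def xx (R : Type) [CommRing R] (n : ℕ) [Algebra (PA n) R] : Fin (n + 1) → R :=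
  fun b => algebraMap (PA n) R (MvPolynomial.X b)

theorem aeval_xx {R : Type} [CommRing R] [Algebra ℂ R] {n : ℕ} [Algebra (PA n) R]
    [IsScalarTower ℂ (PA n) R] (p : PA n) :
    MvPolynomial.aeval (xx R n) p = algebraMap (PA n) R p := by
  have h : (MvPolynomial.aeval (xx R n) : PA n →ₐ[ℂ] R) = IsScalarTower.toAlgHom ℂ (PA n) R := by
    ext b
    simp [xx]
  rw [h]
  rfl

end Pool.Agent.Lib_KF

end

/-! ### from `Lib_KF.SHDisc` -/

section

/-!
# SH3: the discriminant
-/

open scoped ENNReal NNReal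

namespace Pool.Agent.Lib_KF

open Pool.Agent.Lib_GD

attribute [local instance] FractionRing.liftAlgebra FractionRing.isScalarTower_liftAlgebra

variable {R : Type} [CommRing R] [IsDomain R] [IsIntegrallyClosed R] [Algebra ℂ R] {n : ℕ}
  [Algebra (PA n) R] [IsScalarTower ℂ (PA n) R] [Module.Finite (PA n) R]
  [Module.IsTorsionFree (PA n) R]

/-- the discriminant `det (Tr (β a β c))` -/
noncomputable def shDisc {k : ℕ} (β : Fin (k + 1) → R) : PA n :=
  Matrix.det (Matrix.of fun a c => Algebra.intTrace (PA n) R (β a * β c))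

omit [Algebra ℂ R] [IsScalarTower ℂ (PA n) R] in
open nonZeroDivisors in
/-- the trace form in the basis `β` of the field extension, and coordinates -/
private theorem SHDisc_aux {k : ℕ} (β : Fin (k + 1) → R) (hβ : LinearIndependent (PA n) β)
    (hsp : ∀ f : R, ∃ q : PA n, q ≠ 0 ∧ ∃ p : Fin (k + 1) → PA n,
      algebraMap (PA n) R q * f = ∑ a, algebraMap (PA n) R (p a) * β a) :
    ∃ b : Module.Basis (Fin (k + 1)) (FractionRing (PA n)) (FractionRing R),
      (∀ a, b a = algebraMap R (FractionRing R) (β a)) ∧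
      (∀ f : R, algebraMap (PA n) (FractionRing (PA n)) (Algebra.intTrace (PA n) R f) =
        Algebra.trace (FractionRing (PA n)) (FractionRing R) (algebraMap R (FractionRing R) f)) ∧
      Module.Finite (FractionRing (PA n)) (FractionRing R) := by
  have h1 : IsIntegralClosure R (PA n) (FractionRing R) :=
    IsIntegralClosure.of_isIntegrallyClosed _ _ _
  have h2 : Algebra.IsAlgebraic (FractionRing (PA n)) (FractionRing R) :=
    isAlgebraic_of_isFractionRing (PA n) R ..
  have h3 : IsLocalization (Algebra.algebraMapSubmonoid R (PA n)⁰) (FractionRing R) :=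
    IsIntegralClosure.isLocalization _ (FractionRing (PA n)) _ _
  have h4 : FiniteDimensional (FractionRing (PA n)) (FractionRing R) :=
    .of_isLocalization (PA n) R (PA n)⁰
  have hinj : Function.Injective (algebraMap R (FractionRing R)) :=
    IsFractionRing.injective R (FractionRing R)
  have hinjA : Function.Injective (algebraMap (PA n) (FractionRing (PA n))) :=
    IsFractionRing.injective (PA n) (FractionRing (PA n))
  have hli : LinearIndependent (FractionRing (PA n))
      (fun a => algebraMap R (FractionRing R) (β a)) := by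
    rw [← LinearIndependent.iff_fractionRing (PA n) (FractionRing (PA n))]
    exact hβ.map' (IsScalarTower.toAlgHom (PA n) R (FractionRing R)).toLinearMap
      (LinearMap.ker_eq_bot.2 hinj)
  have hspan : ⊤ ≤ Submodule.span (FractionRing (PA n))
      (Set.range (fun a => algebraMap R (FractionRing R) (β a))) := by
    intro y _
    have hf : ∀ f : R, algebraMap R (FractionRing R) f ∈ Submodule.span (FractionRing (PA n))
        (Set.range (fun a => algebraMap R (FractionRing R) (β a))) := by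
      intro f
      obtain ⟨q, hq, p, hp⟩ := hsp f
      have hq' : algebraMap (PA n) (FractionRing (PA n)) q ≠ 0 := by
        rwa [Ne, map_eq_zero_iff _ hinjA]
      have h5 : algebraMap (PA n) (FractionRing (PA n)) q • algebraMap R (FractionRing R) f =
          ∑ a, algebraMap (PA n) (FractionRing (PA n)) (p a) •
            algebraMap R (FractionRing R) (β a) := by
        have h6 := congrArg (algebraMap R (FractionRing R)) hp
        rw [map_mul, map_sum] at h6
        rw [algebraMap_smul, Algebra.smul_def,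
          IsScalarTower.algebraMap_apply (PA n) R (FractionRing R), h6]
        refine Finset.sum_congr rfl fun a _ => ?_
        rw [map_mul, algebraMap_smul, Algebra.smul_def,
          IsScalarTower.algebraMap_apply (PA n) R (FractionRing R)]
      have h7 : algebraMap R (FractionRing R) f =
          (algebraMap (PA n) (FractionRing (PA n)) q)⁻¹ •
          ∑ a, algebraMap (PA n) (FractionRing (PA n)) (p a) •
            algebraMap R (FractionRing R) (β a) := by
        rw [← h5, smul_smul, inv_mul_cancel₀ hq', one_smul]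
      rw [h7]
      refine Submodule.smul_mem _ _ (Submodule.sum_mem _ fun a _ => Submodule.smul_mem _ _ ?_)
      exact Submodule.subset_span ⟨a, rfl⟩
    obtain ⟨⟨f, s⟩, hs⟩ := IsLocalization.surj (Algebra.algebraMapSubmonoid R (PA n)⁰) y
    obtain ⟨s', hs', hs2⟩ := s.2
    have hs0 : s' ≠ 0 := nonZeroDivisors.ne_zero hs'
    have hs1 : algebraMap (PA n) (FractionRing (PA n)) s' ≠ 0 := by
      rwa [Ne, map_eq_zero_iff _ hinjA]
    have h8 : algebraMap (PA n) (FractionRing (PA n)) s' • y =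
        algebraMap R (FractionRing R) f := by
      rw [← hs, algebraMap_smul, Algebra.smul_def,
        IsScalarTower.algebraMap_apply (PA n) R (FractionRing R), mul_comm]
      congr 2
    have h9 : y = (algebraMap (PA n) (FractionRing (PA n)) s')⁻¹ •
        algebraMap R (FractionRing R) f := by
      rw [← h8, smul_smul, inv_mul_cancel₀ hs1, one_smul]
    rw [h9]
    exact Submodule.smul_mem _ _ (hf f)
  refine ⟨Module.Basis.mk hli hspan, fun a => by rw [Module.Basis.mk_apply], fun f => ?_, h4⟩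
  exact Algebra.algebraMap_intTrace_fractionRing f

/-- nondegeneracy of the trace form of the separable extension `Frac R / ℂ(x)`, of which `β` is a
basis by `hsp` -/
theorem shDisc_ne {k : ℕ} (β : Fin (k + 1) → R) (hβ : LinearIndependent (PA n) β)
    (hsp : ∀ f : R, ∃ q : PA n, q ≠ 0 ∧ ∃ p : Fin (k + 1) → PA n,
      algebraMap (PA n) R q * f = ∑ a, algebraMap (PA n) R (p a) * β a) :
    shDisc (n := n) β ≠ 0 := by
  obtain ⟨b, hb, htr, hfin⟩ := SHDisc_aux (n := n) β hβ hsp
  have hsep : Algebra.IsSeparable (FractionRing (PA n)) (FractionRing R) := by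
    have : CharZero (FractionRing (PA n)) := inferInstance
    infer_instance
  have h1 := det_traceForm_ne_zero b
  intro h0
  apply h1
  have h2 : ((Algebra.traceForm (FractionRing (PA n)) (FractionRing R)).toMatrix b :
      Matrix (Fin (k + 1)) (Fin (k + 1)) (FractionRing (PA n))) =
      (algebraMap (PA n) (FractionRing (PA n))).mapMatrix
        (Matrix.of fun a c => Algebra.intTrace (PA n) R (β a * β c)) := by
    ext a c
    rw [LinearMap.BilinForm.toMatrix_apply, Algebra.traceForm_apply, hb, hb, ← map_mul, ← htr]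
    rfl
  rw [h2, ← RingHom.map_det]
  have h3 : Matrix.det (Matrix.of fun a c => Algebra.intTrace (PA n) R (β a * β c)) = 0 := h0
  rw [h3, map_zero]

/-- `f = ∑ c_a β_a` in `Frac R`, `Tr (f β_c) = ∑ c_a Tr (β_a β_c)`; Cramer. -/
theorem shDisc_span {k : ℕ} (β : Fin (k + 1) → R) (hβ : LinearIndependent (PA n) β)
    (hsp : ∀ f : R, ∃ q : PA n, q ≠ 0 ∧ ∃ p : Fin (k + 1) → PA n,
      algebraMap (PA n) R q * f = ∑ a, algebraMap (PA n) R (p a) * β a) (f : R) :
    ∃ p : Fin (k + 1) → PA n,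
      algebraMap (PA n) R (shDisc β) * f = ∑ a, algebraMap (PA n) R (p a) * β a := by
  obtain ⟨b, hb, htr, hfin⟩ := SHDisc_aux (n := n) β hβ hsp
  let M : Matrix (Fin (k + 1)) (Fin (k + 1)) (PA n) :=
    Matrix.of fun a c => Algebra.intTrace (PA n) R (β a * β c)
  let t : Fin (k + 1) → PA n := fun c => Algebra.intTrace (PA n) R (f * β c)
  let φ := algebraMap (PA n) (FractionRing (PA n))
  let F : FractionRing R := algebraMap R (FractionRing R) f
  let c : Fin (k + 1) → FractionRing (PA n) := fun a => b.repr F a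
  have hF : F = ∑ a, c a • b a := (b.sum_repr F).symm
  have h1 : (fun a => φ (t a)) = Matrix.vecMul c (φ.mapMatrix M) := by
    funext d
    show φ (Algebra.intTrace (PA n) R (f * β d)) = _
    rw [htr, map_mul]
    show Algebra.trace _ _ (F * _) = _
    rw [hF, Finset.sum_mul, map_sum]
    refine Finset.sum_congr rfl fun a _ => ?_
    rw [smul_mul_assoc, map_smul, hb, ← map_mul, ← htr]
    rfl
  have h2 : Matrix.vecMul (fun a => φ (t a)) (φ.mapMatrix M.adjugate) = φ M.det • c := by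
    rw [h1, Matrix.vecMul_vecMul, ← map_mul, Matrix.mul_adjugate]
    rw [show φ.mapMatrix (M.det • (1 : Matrix (Fin (k + 1)) (Fin (k + 1)) (PA n))) =
      φ M.det • (1 : Matrix (Fin (k + 1)) (Fin (k + 1)) (FractionRing (PA n))) by
        ext i j
        by_cases hij : i = j
        · subst hij; simp
        · simp [hij]]
    rw [Matrix.vecMul_smul, Matrix.vecMul_one]
  refine ⟨Matrix.vecMul t M.adjugate, ?_⟩
  apply IsFractionRing.injective R (FractionRing R)
  rw [map_mul, map_sum]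
  have h3 : ∀ q : PA n, ∀ y : FractionRing R,
      algebraMap R (FractionRing R) (algebraMap (PA n) R q) * y = φ q • y := by
    intro q y
    rw [← IsScalarTower.algebraMap_apply, algebraMap_smul, Algebra.smul_def]
  rw [h3]
  show φ M.det • F = _
  rw [hF, Finset.smul_sum]
  refine Finset.sum_congr rfl fun a _ => ?_
  rw [map_mul, h3, ← hb, smul_smul]
  congr 1
  have h4 := congrFun h2 a
  rw [Pi.smul_apply, smul_eq_mul] at h4
  rw [← h4]
  show (∑ d, φ (t d) * φ (M.adjugate d a)) = φ (∑ d, t d * M.adjugate d a)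
  rw [map_sum]
  exact Finset.sum_congr rfl fun d _ => (map_mul _ _ _).symm

end Pool.Agent.Lib_KF

end

/-! ### from `Lib_KF.SHFib` -/

section

/-!
# SH4: the fibres over points where the discriminant does not vanish
-/

open scoped ENNReal NNReal

namespace Pool.Agent.Lib_KF

open Pool.Agent.Lib_GD

section A

variable {B : Type*} [CommRing B] [Algebra ℂ B] [Module.Finite ℂ B]

/-- a maximal ideal is the kernel of a homomorphism to `ℂ` -/
private theorem SHFib_max (P : Ideal B) [P.IsMaximal] : ∃ ν : B →ₐ[ℂ] ℂ, RingHom.ker ν = P := by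
  let : Field (B ⧸ P) := Ideal.Quotient.field P
  have : Module.Finite ℂ (B ⧸ P) := Module.Finite.of_surjective
    (Ideal.Quotient.mkₐ ℂ P).toLinearMap (Ideal.Quotient.mkₐ_surjective ℂ P)
  have : Algebra.IsIntegral ℂ (B ⧸ P) := Algebra.IsIntegral.of_finite _ _
  have hbij := IsAlgClosed.algebraMap_bijective_of_isIntegral (k := ℂ) (K := B ⧸ P)
  set E : ℂ ≃ₐ[ℂ] (B ⧸ P) := AlgEquiv.ofBijective (Algebra.ofId ℂ (B ⧸ P)) hbij with hE
  refine ⟨(E.symm : (B ⧸ P) →ₐ[ℂ] ℂ).comp (Ideal.Quotient.mkₐ ℂ P), ?_⟩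
  ext z
  rw [RingHom.mem_ker, AlgHom.comp_apply]
  constructor
  · intro h
    have h2 : Ideal.Quotient.mkₐ ℂ P z = 0 := by
      have h3 : E.symm (Ideal.Quotient.mkₐ ℂ P z) = E.symm 0 := by rw [map_zero]; exact h
      exact E.symm.injective h3
    exact Ideal.Quotient.eq_zero_iff_mem.1 h2
  · intro h
    have h2 : Ideal.Quotient.mkₐ ℂ P z = 0 := Ideal.Quotient.eq_zero_iff_mem.2 h
    rw [h2, map_zero]

/-- the common kernel -/
private theorem SHFib_ker (hnd : ∀ x : B, (∀ z, Algebra.trace ℂ B (x * z) = 0) → x = 0)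
    (x : B) (hx : ∀ ν : B →ₐ[ℂ] ℂ, ν x = 0) : x = 0 := by
  have : IsArtinianRing B := IsArtinianRing.of_finite ℂ B
  have hnil : IsNilpotent x := by
    rw [nilpotent_iff_mem_prime]
    intro P hP
    have : P.IsMaximal := IsArtinianRing.isMaximal_of_isPrime P
    obtain ⟨ν, hν⟩ := SHFib_max P
    rw [← hν]
    exact hx ν
  refine hnd x fun z => ?_
  have h1 : IsNilpotent (x * z) := (Commute.all x z).isNilpotent_mul_right hnil
  have h2 : IsNilpotent (Algebra.lmul ℂ B (x * z)) := h1.map (Algebra.lmul ℂ B)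
  exact (LinearMap.isNilpotent_trace_of_isNilpotent h2).eq_zero

omit [Module.Finite ℂ B] in
private theorem SHFib_li : LinearIndependent ℂ
    (AlgHom.toLinearMap : (B →ₐ[ℂ] ℂ) → B →ₗ[ℂ] ℂ) :=
  linearIndependent_algHom_toLinearMap ℂ B ℂ

private theorem SHFib_fin : Finite (B →ₐ[ℂ] ℂ) :=
  (SHFib_li (B := B)).finite

/-- the homomorphism to the product -/
private noncomputable def SHFib_phi (B : Type*) [CommRing B] [Algebra ℂ B] :
    B →ₐ[ℂ] ((B →ₐ[ℂ] ℂ) → ℂ) :=
  AlgHom.pi fun ν => ν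

private theorem SHFib_bij (hnd : ∀ x : B, (∀ z, Algebra.trace ℂ B (x * z) = 0) → x = 0) :
    Function.Bijective (SHFib_phi B) := by
  have hfin : Finite (B →ₐ[ℂ] ℂ) := SHFib_fin
  have : Fintype (B →ₐ[ℂ] ℂ) := Fintype.ofFinite _
  have hinj : Function.Injective (SHFib_phi B) := by
    rw [injective_iff_map_eq_zero]
    intro x hx
    exact SHFib_ker hnd x fun ν => congrFun hx ν
  have h1 : Fintype.card (B →ₐ[ℂ] ℂ) ≤ Module.finrank ℂ B := by
    have h2 := (SHFib_li (B := B)).fintype_card_le_finrank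
    rwa [Module.finrank_linearMap_self] at h2
  have h3 : Module.finrank ℂ B = Module.finrank ℂ ((B →ₐ[ℂ] ℂ) → ℂ) := by
    refine le_antisymm (LinearMap.finrank_le_finrank_of_injective
      (f := (SHFib_phi B).toLinearMap) hinj) ?_
    rwa [Module.finrank_fintype_fun_eq_card]
  exact ⟨hinj, (LinearMap.injective_iff_surjective_of_finrank_eq_finrank
    (f := (SHFib_phi B).toLinearMap) h3).1 hinj⟩

private theorem SHFib_card (hnd : ∀ x : B, (∀ z, Algebra.trace ℂ B (x * z) = 0) → x = 0) :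
    Nat.card (B →ₐ[ℂ] ℂ) = Module.finrank ℂ B := by
  have hfin : Finite (B →ₐ[ℂ] ℂ) := SHFib_fin
  have : Fintype (B →ₐ[ℂ] ℂ) := Fintype.ofFinite _
  have h1 := LinearEquiv.finrank_eq
    (LinearEquiv.ofBijective (SHFib_phi B).toLinearMap (SHFib_bij hnd))
  rw [h1, Module.finrank_fintype_fun_eq_card, Nat.card_eq_fintype_card]

private theorem SHFib_mat {ι : Type*} [Fintype ι] [DecidableEq ι] (v : ι → ℂ) :
    Algebra.leftMulMatrix (Pi.basisFun ℂ ι) v = Matrix.diagonal v := by
  ext i j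
  rw [Algebra.leftMulMatrix_eq_repr_mul, Pi.basisFun_repr, Pi.basisFun_apply, Pi.mul_apply,
    Matrix.diagonal_apply, Pi.single_apply]
  split_ifs with h
  · rw [mul_one]
  · rw [mul_zero]

private theorem SHFib_tr (hnd : ∀ x : B, (∀ z, Algebra.trace ℂ B (x * z) = 0) → x = 0)
    (x : B) : Algebra.trace ℂ B x = ∑ᶠ ν : B →ₐ[ℂ] ℂ, ν x := by
  classical
  have hfin : Finite (B →ₐ[ℂ] ℂ) := SHFib_fin
  have : Fintype (B →ₐ[ℂ] ℂ) := Fintype.ofFinite _
  rw [finsum_eq_sum_of_fintype]
  rw [← Algebra.trace_eq_of_algEquiv (AlgEquiv.ofBijective (SHFib_phi B) (SHFib_bij hnd)) x]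
  rw [Algebra.trace_eq_matrix_trace (Pi.basisFun ℂ (B →ₐ[ℂ] ℂ)), SHFib_mat, Matrix.trace_diagonal]
  rfl

private theorem SHFib_nm (hnd : ∀ x : B, (∀ z, Algebra.trace ℂ B (x * z) = 0) → x = 0)
    (x : B) : Algebra.norm ℂ x = ∏ᶠ ν : B →ₐ[ℂ] ℂ, ν x := by
  classical
  have hfin : Finite (B →ₐ[ℂ] ℂ) := SHFib_fin
  have : Fintype (B →ₐ[ℂ] ℂ) := Fintype.ofFinite _
  rw [finprod_eq_prod_of_fintype]
  rw [← Algebra.norm_eq_of_algEquiv (AlgEquiv.ofBijective (SHFib_phi B) (SHFib_bij hnd)) x]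
  rw [Algebra.norm_eq_matrix_det (Pi.basisFun ℂ (B →ₐ[ℂ] ℂ)), SHFib_mat, Matrix.det_diagonal]
  rfl

end A

section Mat

/-- multiplication matrices from `δ f β_j = ∑ P_{ij} β_i` -/
private theorem SHFib_lmm {A R F C : Type*} [CommRing A] [CommRing R] [Algebra A R] [Field F]
    [CommRing C] [Algebra F C] {m : ℕ} (ρ : A →+* F) (ψ : R →+* C)
    (hψ : ∀ p, ψ (algebraMap A R p) = algebraMap F C (ρ p)) (β : Fin m → R)
    (b : Module.Basis (Fin m) F C) (hb : ∀ a, b a = ψ (β a)) (δ : A) (hδ : ρ δ ≠ 0) (f : R)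
    (P : Matrix (Fin m) (Fin m) A)
    (hP : ∀ j, algebraMap A R δ * (f * β j) = ∑ i, algebraMap A R (P i j) * β i) :
    Algebra.leftMulMatrix b (ψ f) = (ρ δ)⁻¹ • P.map ρ := by
  ext i j
  rw [Algebra.leftMulMatrix_eq_repr_mul, Matrix.smul_apply, Matrix.map_apply, smul_eq_mul]
  have h1 : ρ δ • (ψ f * b j) = ∑ i, ρ (P i j) • b i := by
    have h2 := congrArg ψ (hP j)
    rw [map_mul, map_mul, map_sum, hψ, ← Algebra.smul_def] at h2
    rw [hb, h2]
    refine Finset.sum_congr rfl fun i _ => ?_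
    rw [map_mul, hψ, ← Algebra.smul_def, hb]
  have h3 : ψ f * b j = ∑ i, ((ρ δ)⁻¹ * ρ (P i j)) • b i := by
    rw [← inv_smul_smul₀ hδ (ψ f * b j), h1, Finset.smul_sum]
    refine Finset.sum_congr rfl fun i _ => ?_
    rw [mul_smul]
  rw [h3, Module.Basis.repr_sum_self]

private theorem SHFib_trace {A R F C : Type*} [CommRing A] [CommRing R] [Algebra A R] [Field F]
    [CommRing C] [Algebra F C] {m : ℕ} (ρ : A →+* F) (ψ : R →+* C)
    (hψ : ∀ p, ψ (algebraMap A R p) = algebraMap F C (ρ p)) (β : Fin m → R)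
    (b : Module.Basis (Fin m) F C) (hb : ∀ a, b a = ψ (β a)) (δ : A) (hδ : ρ δ ≠ 0) (f : R)
    (P : Matrix (Fin m) (Fin m) A)
    (hP : ∀ j, algebraMap A R δ * (f * β j) = ∑ i, algebraMap A R (P i j) * β i) :
    ρ δ * Algebra.trace F C (ψ f) = ρ P.trace := by
  rw [Algebra.trace_eq_matrix_trace b, SHFib_lmm ρ ψ hψ β b hb δ hδ f P hP, Matrix.trace_smul,
    smul_eq_mul, mul_inv_cancel_left₀ hδ]
  simp [Matrix.trace]

private theorem SHFib_norm {A R F C : Type*} [CommRing A] [CommRing R] [Algebra A R] [Field F]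
    [CommRing C] [Algebra F C] {m : ℕ} (ρ : A →+* F) (ψ : R →+* C)
    (hψ : ∀ p, ψ (algebraMap A R p) = algebraMap F C (ρ p)) (β : Fin m → R)
    (b : Module.Basis (Fin m) F C) (hb : ∀ a, b a = ψ (β a)) (δ : A) (hδ : ρ δ ≠ 0) (f : R)
    (P : Matrix (Fin m) (Fin m) A)
    (hP : ∀ j, algebraMap A R δ * (f * β j) = ∑ i, algebraMap A R (P i j) * β i) :
    ρ δ ^ m * Algebra.norm F (ψ f) = ρ P.det := by
  rw [Algebra.norm_eq_matrix_det b, SHFib_lmm ρ ψ hψ β b hb δ hδ f P hP, Matrix.det_smul,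
    Fintype.card_fin, ← mul_assoc, ← mul_pow, mul_inv_cancel₀ hδ, one_pow, one_mul, RingHom.map_det,
    RingHom.mapMatrix_apply]

end Mat

variable {R : Type} [CommRing R] [IsDomain R] [IsIntegrallyClosed R] [Algebra ℂ R] {n : ℕ}
  [Algebra (PA n) R] [IsScalarTower ℂ (PA n) R] [Module.Finite (PA n) R]
  [Module.IsTorsionFree (PA n) R]

section Frac

attribute [local instance] FractionRing.liftAlgebra FractionRing.isScalarTower_liftAlgebra

omit [IsIntegrallyClosed R] [Algebra ℂ R] [IsScalarTower ℂ (PA n) R] in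
/-- `β` is a basis of the fraction field -/
private theorem SHFib_basis {k : ℕ} (β : Fin (k + 1) → R) (hβ : LinearIndependent (PA n) β)
    (δ : PA n) (hδ : δ ≠ 0)
    (hspan : ∀ f : R, ∃ p : Fin (k + 1) → PA n,
      algebraMap (PA n) R δ * f = ∑ a, algebraMap (PA n) R (p a) * β a) :
    ∃ b : Module.Basis (Fin (k + 1)) (FractionRing (PA n)) (FractionRing R),
      ∀ a, b a = algebraMap R (FractionRing R) (β a) := by
  have hint : Algebra.IsIntegral (PA n) R := Algebra.IsIntegral.of_finite _ _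
  have hinj : Function.Injective (algebraMap R (FractionRing R)) :=
    IsFractionRing.injective R (FractionRing R)
  have h1 : LinearIndependent (PA n) (fun a => algebraMap R (FractionRing R) (β a)) :=
    hβ.map' (IsScalarTower.toAlgHom (PA n) R (FractionRing R)).toLinearMap
      (LinearMap.ker_eq_bot.2 hinj)
  have h2 : LinearIndependent (FractionRing (PA n))
      (fun a => algebraMap R (FractionRing R) (β a)) :=
    (LinearIndependent.iff_fractionRing (PA n) (FractionRing (PA n))).1 h1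
  have hA : ∀ p : PA n, algebraMap R (FractionRing R) (algebraMap (PA n) R p) =
      algebraMap (FractionRing (PA n)) (FractionRing R) (algebraMap (PA n) (FractionRing (PA n)) p) := by
    intro p
    rw [← IsScalarTower.algebraMap_apply (PA n) R (FractionRing R),
      ← IsScalarTower.algebraMap_apply (PA n) (FractionRing (PA n)) (FractionRing R)]
  have hA0 : ∀ p : PA n, p ≠ 0 → algebraMap (PA n) (FractionRing (PA n)) p ≠ 0 := fun p hp => by
    rw [Ne, FaithfulSMul.algebraMap_eq_zero_iff]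
    exact hp
  have h3 : ⊤ ≤ Submodule.span (FractionRing (PA n))
      (Set.range (fun a => algebraMap R (FractionRing R) (β a))) := by
    intro z _
    obtain ⟨⟨r, s⟩, hz⟩ := IsLocalization.surj (nonZeroDivisors R) z
    have hs0 : (s : R) ≠ 0 := nonZeroDivisors.ne_zero s.2
    have halg : IsAlgebraic (PA n) (s : R) := (Algebra.IsIntegral.isIntegral (s : R)).isAlgebraic
    obtain ⟨a, ha0, t, ht⟩ := halg.exists_nonzero_dvd s.2
    obtain ⟨p, hp⟩ := hspan (r * t)
    have h4 : algebraMap (FractionRing (PA n)) (FractionRing R)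
        (algebraMap (PA n) (FractionRing (PA n)) (δ * a)) * z =
        ∑ a, algebraMap (FractionRing (PA n)) (FractionRing R)
          (algebraMap (PA n) (FractionRing (PA n)) (p a)) * algebraMap R (FractionRing R) (β a) := by
      have h5 := congrArg (algebraMap R (FractionRing R)) hp
      rw [map_mul, map_mul, map_sum] at h5
      rw [map_mul, map_mul, ← hA, ← hA, ht, map_mul]
      have h6 : algebraMap R (FractionRing R) (algebraMap (PA n) R δ) *
          (algebraMap R (FractionRing R) (s : R) * algebraMap R (FractionRing R) t) * z =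
          algebraMap R (FractionRing R) (algebraMap (PA n) R δ) *
          ((z * algebraMap R (FractionRing R) (s : R)) * algebraMap R (FractionRing R) t) := by
        ring
      rw [h6, hz, h5]
      refine Finset.sum_congr rfl fun a _ => ?_
      rw [map_mul, hA]
    have h7 : algebraMap (PA n) (FractionRing (PA n)) (δ * a) ≠ 0 := hA0 _ (mul_ne_zero hδ ha0)
    rw [← Algebra.smul_def] at h4
    rw [← inv_smul_smul₀ h7 z, h4]
    refine Submodule.smul_mem _ _ (Submodule.sum_mem _ fun a _ => ?_)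
    rw [← Algebra.smul_def]
    exact Submodule.smul_mem _ _ (Submodule.subset_span ⟨a, rfl⟩)
  exact ⟨Module.Basis.mk h2 h3, fun a => by rw [Module.Basis.mk_apply]⟩

omit [Algebra ℂ R] [IsScalarTower ℂ (PA n) R] in
private theorem SHFib_int {k : ℕ} (β : Fin (k + 1) → R) (hβ : LinearIndependent (PA n) β)
    (δ : PA n) (hδ : δ ≠ 0)
    (hspan : ∀ f : R, ∃ p : Fin (k + 1) → PA n,
      algebraMap (PA n) R δ * f = ∑ a, algebraMap (PA n) R (p a) * β a)
    (f : R) (P : Matrix (Fin (k + 1)) (Fin (k + 1)) (PA n))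
    (hP : ∀ j, algebraMap (PA n) R δ * (f * β j) = ∑ i, algebraMap (PA n) R (P i j) * β i) :
    δ * Algebra.intTrace (PA n) R f = P.trace ∧
      δ ^ (k + 1) * Algebra.intNorm (PA n) R f = P.det := by
  obtain ⟨b, hb⟩ := SHFib_basis β hβ δ hδ hspan
  have hint : Algebra.IsIntegral (PA n) R := Algebra.IsIntegral.of_finite _ _
  have hinj : Function.Injective (algebraMap (PA n) (FractionRing (PA n))) :=
    IsFractionRing.injective (PA n) (FractionRing (PA n))
  have hA : ∀ p : PA n, algebraMap R (FractionRing R) (algebraMap (PA n) R p) =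
      algebraMap (FractionRing (PA n)) (FractionRing R) (algebraMap (PA n) (FractionRing (PA n)) p) := by
    intro p
    rw [← IsScalarTower.algebraMap_apply (PA n) R (FractionRing R),
      ← IsScalarTower.algebraMap_apply (PA n) (FractionRing (PA n)) (FractionRing R)]
  have hδ' : algebraMap (PA n) (FractionRing (PA n)) δ ≠ 0 := by
    rw [Ne, FaithfulSMul.algebraMap_eq_zero_iff]
    exact hδ
  constructor
  · apply hinj
    rw [map_mul, Algebra.algebraMap_intTrace_fractionRing]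
    exact SHFib_trace (algebraMap (PA n) (FractionRing (PA n))) (algebraMap R (FractionRing R)) hA β
      b hb δ hδ' f P hP
  · apply hinj
    rw [map_mul, map_pow, Algebra.algebraMap_intNorm_fractionRing]
    exact SHFib_norm (algebraMap (PA n) (FractionRing (PA n))) (algebraMap R (FractionRing R)) hA β
      b hb δ hδ' f P hP

end Frac

section Quot

variable (R) in
/-- the ideal of the fibre -/
private noncomputable def SHFib_I (y : Fin (n + 1) → ℂ) : Ideal R :=
  Ideal.map (algebraMap (PA n) R) (RingHom.ker (MvPolynomial.eval y))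

omit [IsDomain R] [IsIntegrallyClosed R] [Module.Finite (PA n) R]
  [Module.IsTorsionFree (PA n) R] in
private theorem SHFib_mk (y : Fin (n + 1) → ℂ) (p : PA n) :
    Ideal.Quotient.mk (SHFib_I R y) (algebraMap (PA n) R p) =
      algebraMap ℂ (R ⧸ SHFib_I R y) (MvPolynomial.eval y p) := by
  have h1 : p - MvPolynomial.C (MvPolynomial.eval y p) ∈ RingHom.ker (MvPolynomial.eval y) := by
    rw [RingHom.mem_ker, map_sub, MvPolynomial.eval_C, sub_self]
  have h2 := Ideal.mem_map_of_mem (algebraMap (PA n) R) h1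
  rw [map_sub] at h2
  have h3 : algebraMap (PA n) R (MvPolynomial.C (MvPolynomial.eval y p)) =
      algebraMap ℂ R (MvPolynomial.eval y p) := by
    rw [IsScalarTower.algebraMap_apply ℂ (PA n) R, MvPolynomial.algebraMap_eq]
  rw [h3] at h2
  exact Ideal.Quotient.eq.2 h2

omit [IsScalarTower ℂ (PA n) R] [Algebra ℂ R] in
private theorem SHFib_tau (y : Fin (n + 1) → ℂ) (f : R) (hf : f ∈ SHFib_I R y) (r : R) :
    MvPolynomial.eval y (Algebra.intTrace (PA n) R (r * f)) = 0 := by
  revert r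
  have hf' : f ∈ Submodule.span R
      (algebraMap (PA n) R '' (RingHom.ker (MvPolynomial.eval y) : Set (PA n))) := hf
  clear hf
  induction hf' using Submodule.span_induction with
  | mem x hx =>
    obtain ⟨p, hp, rfl⟩ := hx
    intro r
    have h1 : MvPolynomial.eval y p = 0 := hp
    rw [mul_comm, ← Algebra.smul_def, map_smul, smul_eq_mul, map_mul, h1, zero_mul]
  | zero =>
    intro r
    rw [mul_zero, map_zero, map_zero]
  | add a b _ _ ha hb =>
    intro r
    rw [mul_add, map_add, map_add, ha, hb, add_zero]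
  | smul a b _ hb =>
    intro r
    rw [smul_eq_mul, ← mul_assoc]
    exact hb (r * a)

/-- the values of the trace form determine the coefficients -/
private theorem SHFib_zero {k : ℕ} (β : Fin (k + 1) → R) (y : Fin (n + 1) → ℂ)
    (hy : MvPolynomial.eval y (shDisc (n := n) β) ≠ 0) (c : Fin (k + 1) → ℂ)
    (hc : ∀ a, MvPolynomial.eval y (Algebra.intTrace (PA n) R
      (β a * ∑ b, algebraMap ℂ R (c b) * β b)) = 0) : c = 0 := by
  set T : Matrix (Fin (k + 1)) (Fin (k + 1)) ℂ := (MvPolynomial.eval y).mapMatrix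
    (Matrix.of fun a c => Algebra.intTrace (PA n) R (β a * β c)) with hT
  have hdet : T.det ≠ 0 := by
    rw [hT, ← RingHom.map_det]
    exact hy
  have h1 : T.mulVec c = 0 := by
    ext a
    have h2 := hc a
    rw [Finset.mul_sum, map_sum, map_sum] at h2
    rw [Matrix.mulVec, Pi.zero_apply, dotProduct, ← h2]
    refine Finset.sum_congr rfl fun b _ => ?_
    have h3 : β a * (algebraMap ℂ R (c b) * β b) =
        (MvPolynomial.C (c b) : PA n) • (β a * β b) := by
      rw [Algebra.smul_def, IsScalarTower.algebraMap_apply ℂ (PA n) R, MvPolynomial.algebraMap_eq]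
      ring
    rw [h3, map_smul, smul_eq_mul, map_mul, MvPolynomial.eval_C, mul_comm]
    rfl
  exact Matrix.eq_zero_of_mulVec_eq_zero hdet h1

/-- `β` is a basis of the fibre algebra -/
private theorem SHFib_qbasis {k : ℕ} (β : Fin (k + 1) → R)
    (hspan : ∀ f : R, ∃ p : Fin (k + 1) → PA n,
      algebraMap (PA n) R (shDisc β) * f = ∑ a, algebraMap (PA n) R (p a) * β a)
    (y : Fin (n + 1) → ℂ) (hy : MvPolynomial.eval y (shDisc (n := n) β) ≠ 0) :
    ∃ b : Module.Basis (Fin (k + 1)) ℂ (R ⧸ SHFib_I R y),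
      ∀ a, b a = Ideal.Quotient.mk (SHFib_I R y) (β a) := by
  have h1 : LinearIndependent ℂ (fun a => Ideal.Quotient.mk (SHFib_I R y) (β a)) := by
    rw [Fintype.linearIndependent_iff]
    intro c hc a
    have h2 : Ideal.Quotient.mk (SHFib_I R y) (∑ b, algebraMap ℂ R (c b) * β b) = 0 := by
      rw [← hc, map_sum]
      refine Finset.sum_congr rfl fun b _ => ?_
      rw [map_mul, Algebra.smul_def]
      rfl
    have h3 := Ideal.Quotient.eq_zero_iff_mem.1 h2
    exact congrFun (SHFib_zero β y hy c fun a => SHFib_tau y _ h3 (β a)) a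
  have h2 : ⊤ ≤ Submodule.span ℂ (Set.range fun a => Ideal.Quotient.mk (SHFib_I R y) (β a)) := by
    intro z _
    obtain ⟨f, rfl⟩ := Ideal.Quotient.mk_surjective z
    obtain ⟨p, hp⟩ := hspan f
    have h3 := congrArg (Ideal.Quotient.mk (SHFib_I R y)) hp
    rw [map_mul, map_sum, SHFib_mk, ← Algebra.smul_def] at h3
    rw [← inv_smul_smul₀ hy (Ideal.Quotient.mk (SHFib_I R y) f), h3]
    refine Submodule.smul_mem _ _ (Submodule.sum_mem _ fun a _ => ?_)
    rw [map_mul, SHFib_mk, ← Algebra.smul_def]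
    exact Submodule.smul_mem _ _ (Submodule.subset_span ⟨a, rfl⟩)
  exact ⟨Module.Basis.mk h1 h2, fun a => by rw [Module.Basis.mk_apply]⟩

/-- trace and norm of the fibre algebra -/
private theorem SHFib_qtr {k : ℕ} (β : Fin (k + 1) → R) (hβ : LinearIndependent (PA n) β)
    (hspan : ∀ f : R, ∃ p : Fin (k + 1) → PA n,
      algebraMap (PA n) R (shDisc β) * f = ∑ a, algebraMap (PA n) R (p a) * β a)
    (y : Fin (n + 1) → ℂ) (hy : MvPolynomial.eval y (shDisc (n := n) β) ≠ 0) (f : R) :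
    Algebra.trace ℂ (R ⧸ SHFib_I R y) (Ideal.Quotient.mk (SHFib_I R y) f) =
      MvPolynomial.eval y (Algebra.intTrace (PA n) R f) ∧
    Algebra.norm ℂ (Ideal.Quotient.mk (SHFib_I R y) f) =
      MvPolynomial.eval y (Algebra.intNorm (PA n) R f) := by
  obtain ⟨b, hb⟩ := SHFib_qbasis β hspan y hy
  have hδ : shDisc (n := n) β ≠ 0 := fun h => hy (by rw [h, map_zero])
  choose p hp using fun j => hspan (f * β j)
  have hP : ∀ j, algebraMap (PA n) R (shDisc β) * (f * β j) =
      ∑ i, algebraMap (PA n) R ((Matrix.of fun i j => p j i) i j) * β i := hp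
  obtain ⟨h1, h2⟩ := SHFib_int β hβ (shDisc β) hδ hspan f _ hP
  constructor
  · have h3 := SHFib_trace (MvPolynomial.eval y) (Ideal.Quotient.mk (SHFib_I R y))
      (fun p => SHFib_mk y p) β b hb (shDisc β) hy f _ hP
    rw [← h1, map_mul] at h3
    exact mul_left_cancel₀ hy h3
  · have h3 := SHFib_norm (MvPolynomial.eval y) (Ideal.Quotient.mk (SHFib_I R y))
      (fun p => SHFib_mk y p) β b hb (shDisc β) hy f _ hP
    rw [← h2, map_mul, map_pow] at h3
    exact mul_left_cancel₀ (pow_ne_zero _ hy) h3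

/-- the trace form of the fibre algebra is nondegenerate -/
private theorem SHFib_nd {k : ℕ} (β : Fin (k + 1) → R) (hβ : LinearIndependent (PA n) β)
    (hspan : ∀ f : R, ∃ p : Fin (k + 1) → PA n,
      algebraMap (PA n) R (shDisc β) * f = ∑ a, algebraMap (PA n) R (p a) * β a)
    (y : Fin (n + 1) → ℂ) (hy : MvPolynomial.eval y (shDisc (n := n) β) ≠ 0)
    (x : R ⧸ SHFib_I R y)
    (hx : ∀ z, Algebra.trace ℂ (R ⧸ SHFib_I R y) (x * z) = 0) : x = 0 := by
  obtain ⟨b, hb⟩ := SHFib_qbasis β hspan y hy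
  have h1 : x = Ideal.Quotient.mk (SHFib_I R y) (∑ a, algebraMap ℂ R (b.repr x a) * β a) := by
    rw [map_sum]
    conv_lhs => rw [← b.sum_repr x]
    refine Finset.sum_congr rfl fun a _ => ?_
    rw [map_mul, Algebra.smul_def, hb]
    rfl
  have h2 : (fun a => b.repr x a) = 0 := by
    refine SHFib_zero β y hy _ fun a => ?_
    rw [← (SHFib_qtr β hβ hspan y hy _).1, map_mul, ← h1, mul_comm]
    exact hx _
  rw [h1]
  have h3 : ∀ a, b.repr x a = 0 := fun a => congrFun h2 a
  simp only [h3, map_zero, zero_mul, Finset.sum_const_zero]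

variable (R) in
/-- points of the fibre algebra as points of `Spec R` -/
private noncomputable def SHFib_e (y : Fin (n + 1) → ℂ) (ν : (R ⧸ SHFib_I R y) →ₐ[ℂ] ℂ) :
    R →ₐ[ℂ] ℂ := ν.comp (Ideal.Quotient.mkₐ ℂ (SHFib_I R y))

omit [IsDomain R] [IsIntegrallyClosed R] [Module.Finite (PA n) R]
  [Module.IsTorsionFree (PA n) R] [IsScalarTower ℂ (PA n) R] in
private theorem SHFib_einj (y : Fin (n + 1) → ℂ) : Function.Injective (SHFib_e R y) := by
  intro ν μ h
  refine AlgHom.ext fun z => ?_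
  obtain ⟨f, rfl⟩ := Ideal.Quotient.mk_surjective z
  exact DFunLike.congr_fun h f

omit [IsDomain R] [IsIntegrallyClosed R] [Module.Finite (PA n) R]
  [Module.IsTorsionFree (PA n) R] in
private theorem SHFib_erange (y : Fin (n + 1) → ℂ) : Set.range (SHFib_e R y) = fib (xx R n) y := by
  ext ν
  constructor
  · rintro ⟨μ, rfl⟩ b
    show μ (Ideal.Quotient.mk (SHFib_I R y) (algebraMap (PA n) R (MvPolynomial.X b))) = y b
    rw [SHFib_mk, AlgHom.commutes, MvPolynomial.eval_X]
    rfl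
  · intro hν
    have h1 : ∀ f ∈ SHFib_I R y, ν f = 0 := by
      intro f hf
      have h2 : SHFib_I R y ≤ RingHom.ker ν := by
        refine Ideal.map_le_iff_le_comap.2 fun p hp => ?_
        have h3 : MvPolynomial.eval y p = 0 := hp
        show ν (algebraMap (PA n) R p) = 0
        rw [← aeval_xx, fib_aeval hν, h3]
      exact h2 hf
    refine ⟨Ideal.Quotient.liftₐ (SHFib_I R y) ν h1, ?_⟩
    ext f
    rfl

end Quot

/-- Let `δ = shDisc β`, `δ (y) ≠ 0`. `A_δ → R_δ` is free with basis `β` (`hspan`), so the fibre algebra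
`B = R / 𝔪_y R = ℂ ⊗ R` has the basis `β`, its trace form has the matrix `(Tr (β a β c)) (y)`
(`Algebra.intTrace_eq_of_isLocalization`, `Algebra.intTrace_eq_trace`, base change), which is
invertible. A nilpotent element has trace zero times everything, so `B` is reduced, finite
dimensional over `ℂ`: `B ≅ ℂ ^ (k + 1)` by the homomorphisms `B → ℂ`, which are the points of the fibre. -/
theorem sh_fibre {k : ℕ} (β : Fin (k + 1) → R) (hβ : LinearIndependent (PA n) β)
    (hspan : ∀ f : R, ∃ p : Fin (k + 1) → PA n,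
      algebraMap (PA n) R (shDisc β) * f = ∑ a, algebraMap (PA n) R (p a) * β a)
    (y : Fin (n + 1) → ℂ) (hy : MvPolynomial.eval y (shDisc (n := n) β) ≠ 0) :
    (fib (xx R n) y).Finite ∧ (fib (xx R n) y).ncard = k + 1 ∧
    (∀ c : Fin (k + 1) → ℂ, (∀ ν ∈ fib (xx R n) y, ∑ a, c a * ν (β a) = 0) → c = 0) ∧
    (∀ f : R, ∑ᶠ ν ∈ fib (xx R n) y, ν f =
      MvPolynomial.eval y (Algebra.intTrace (PA n) R f)) ∧
    ∀ f : R, ∏ᶠ ν ∈ fib (xx R n) y, ν f =
      MvPolynomial.eval y (Algebra.intNorm (PA n) R f) := by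
  obtain ⟨b, hb⟩ := SHFib_qbasis β hspan y hy
  have hfinB : Module.Finite ℂ (R ⧸ SHFib_I R y) := Module.Finite.of_basis b
  have hnd := SHFib_nd β hβ hspan y hy
  have hfin : Finite ((R ⧸ SHFib_I R y) →ₐ[ℂ] ℂ) := SHFib_fin
  rw [← SHFib_erange]
  refine ⟨Set.finite_range _, ?_, ?_, ?_, ?_⟩
  · rw [← Nat.card_coe_set_eq, Nat.card_range_of_injective (SHFib_einj y), SHFib_card hnd,
      Module.finrank_eq_card_basis b, Fintype.card_fin]
  · intro c hc
    have h1 : ∑ a, c a • b a = 0 := by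
      refine SHFib_ker hnd _ fun ν => ?_
      have h2 := hc _ ⟨ν, rfl⟩
      rw [map_sum, ← h2]
      refine Finset.sum_congr rfl fun a _ => ?_
      rw [map_smul, smul_eq_mul, hb]
      rfl
    funext a
    exact Fintype.linearIndependent_iff.1 b.linearIndependent c h1 a
  · intro f
    rw [finsum_mem_range (SHFib_einj y), ← (SHFib_qtr β hβ hspan y hy f).1, SHFib_tr hnd]
    rfl
  · intro f
    rw [finprod_mem_range (SHFib_einj y), ← (SHFib_qtr β hβ hspan y hy f).2, SHFib_nm hnd]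
    rfl

end Pool.Agent.Lib_KF

end

/-! ### from `Lib_KF.SHSec` -/

section

/-!
# SH5: local holomorphic sections
-/

open scoped ENNReal NNReal

namespace Pool.Agent.Lib_KF

open Pool.Agent.Lib_GD

variable {R : Type} [CommRing R] [IsDomain R] [IsIntegrallyClosed R] [Algebra ℂ R] {n : ℕ}
  [Algebra (PA n) R] [IsScalarTower ℂ (PA n) R] [Module.Finite (PA n) R]
  [Module.IsTorsionFree (PA n) R]

/-- the numerator of the Lagrange formula -/
private noncomputable def SHSecNum {D : ℕ} (c : Fin D → ℂ) (z : ℂ) (T : ℕ → ℂ) : ℂ :=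
  ∑ j ∈ Finset.range D, z ^ j * T (D - 1 - j) +
    ∑ i : Fin D, c i * ∑ j ∈ Finset.range (i : ℕ), z ^ j * T ((i : ℕ) - 1 - j)

private noncomputable def SHSecDer {D : ℕ} (c : Fin D → ℂ) (z : ℂ) : ℂ :=
  D * z ^ (D - 1) + ∑ i : Fin D, c i * ((i : ℕ) * z ^ ((i : ℕ) - 1))

private lemma SHSec_num_self {D : ℕ} (c : Fin D → ℂ) (z : ℂ) :
    SHSecNum c z (fun m => z ^ m) = SHSecDer c z := by
  unfold SHSecNum SHSecDer
  rw [geom_sum₂_self]
  congr 1
  refine Finset.sum_congr rfl fun i _ => ?_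
  rw [geom_sum₂_self]

private lemma SHSec_num_mul {D : ℕ} (c : Fin D → ℂ) (z w : ℂ) :
    SHSecNum c z (fun m => w ^ m) * (z - w) =
      (z ^ D + ∑ i : Fin D, c i * z ^ (i : ℕ)) - (w ^ D + ∑ i : Fin D, c i * w ^ (i : ℕ)) := by
  unfold SHSecNum
  rw [add_mul, geom_sum₂_mul, Finset.sum_mul]
  have h : ∀ i : Fin D, c i * (∑ j ∈ Finset.range (i : ℕ), z ^ j * w ^ ((i : ℕ) - 1 - j)) *
      (z - w) = c i * z ^ (i : ℕ) - c i * w ^ (i : ℕ) := fun i => by
    rw [mul_assoc, geom_sum₂_mul, mul_sub]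
  rw [Finset.sum_congr rfl fun i _ => h i, Finset.sum_sub_distrib]
  ring

private lemma SHSec_num_sum {ι : Type} {D : ℕ} (c : Fin D → ℂ) (z : ℂ) (S : Finset ι)
    (g w : ι → ℂ) :
    SHSecNum c z (fun m => ∑ ν ∈ S, g ν * w ν ^ m) =
      ∑ ν ∈ S, g ν * SHSecNum c z (fun m => w ν ^ m) := by
  unfold SHSecNum
  simp only [mul_add, Finset.sum_add_distrib, Finset.mul_sum]
  congr 1
  · rw [Finset.sum_comm]
    refine Finset.sum_congr rfl fun j _ => Finset.sum_congr rfl fun i _ => ?_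
    ring
  · rw [Finset.sum_congr rfl fun i _ => Finset.sum_comm, Finset.sum_comm]
    refine Finset.sum_congr rfl fun j _ => Finset.sum_congr rfl fun i _ =>
      Finset.sum_congr rfl fun l _ => ?_
    ring

private lemma SHSec_lag {ι : Type} [DecidableEq ι] {D : ℕ} (c : Fin D → ℂ) (z : ℂ) (S : Finset ι) (w : ι → ℂ)
    (hP : ∀ T, ∏ ν ∈ S, (T - w ν) = T ^ D + ∑ i : Fin D, c i * T ^ (i : ℕ))
    (hz : z ^ D + ∑ i : Fin D, c i * z ^ (i : ℕ) = 0) :
    (∃ ν ∈ S, w ν = z) ∧ ∀ ν ∈ S, w ν = z →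
      (SHSecDer c z = ∏ ν' ∈ S.erase ν, (z - w ν')) ∧ (SHSecDer c z ≠ 0 → ∀ g : ι → ℂ,
        SHSecDer c z * g ν = SHSecNum c z (fun m => ∑ ν ∈ S, g ν * w ν ^ m)) := by
  have h1 : ∃ ν ∈ S, w ν = z := by
    rw [← hP z, Finset.prod_eq_zero_iff] at hz
    obtain ⟨ν, hν, h⟩ := hz
    exact ⟨ν, hν, (sub_eq_zero.1 h).symm⟩
  have h2 : ∀ ν ∈ S, w ν ^ D + ∑ i : Fin D, c i * w ν ^ (i : ℕ) = 0 := fun ν hν => by
    rw [← hP]
    exact Finset.prod_eq_zero hν (sub_self _)
  have h3 : ∀ ν ∈ S, w ν ≠ z → SHSecNum c z (fun m => w ν ^ m) = 0 := by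
    intro ν hν hne
    have h := SHSec_num_mul c z (w ν)
    rw [hz, h2 ν hν, sub_zero] at h
    exact (mul_eq_zero.1 h).resolve_right (sub_ne_zero.2 hne.symm)
  refine ⟨h1, fun ν hν hw => ?_⟩
  have h4 : SHSecDer c z = ∏ ν' ∈ S.erase ν, (z - w ν') := by
    have h5 : (∏ ν ∈ S, (Polynomial.X - Polynomial.C (w ν)) : Polynomial ℂ) =
        Polynomial.X ^ D + ∑ i : Fin D, Polynomial.C (c i) * Polynomial.X ^ (i : ℕ) := by
      refine Polynomial.funext fun T => ?_
      rw [Polynomial.eval_prod]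
      simp only [Polynomial.eval_sub, Polynomial.eval_X, Polynomial.eval_C, Polynomial.eval_add,
        Polynomial.eval_pow, Polynomial.eval_finsetSum, Polynomial.eval_mul]
      exact hP T
    have h6 := congrArg (fun q => Polynomial.eval z (Polynomial.derivative q)) h5
    simp only [← Finset.mul_prod_erase S _ hν, Polynomial.derivative_mul, Polynomial.derivative_sub,
      Polynomial.derivative_X, Polynomial.derivative_C, sub_zero, one_mul, Polynomial.eval_add,
      Polynomial.eval_mul, Polynomial.eval_sub, Polynomial.eval_X, Polynomial.eval_C, hw, sub_self,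
      zero_mul, add_zero, Polynomial.eval_prod, Polynomial.derivative_add,
      Polynomial.derivative_X_pow, Polynomial.derivative_sum, Polynomial.eval_finsetSum,
      Polynomial.eval_pow] at h6
    rw [h6]
    unfold SHSecDer
    simp
  refine ⟨h4, fun hne g => ?_⟩
  rw [SHSec_num_sum, Finset.sum_eq_single_of_mem ν hν]
  · rw [hw, SHSec_num_self, mul_comm]
  · intro ν' hν' hne'
    by_cases h : w ν' = z
    · exfalso
      refine hne ?_
      rw [h4]
      exact Finset.prod_eq_zero (Finset.mem_erase.2 ⟨hne', hν'⟩) (by rw [h, sub_self])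
    · rw [h3 ν' hν' h, mul_zero]

omit [IsDomain R] [IsIntegrallyClosed R] [Algebra (PA n) R] [IsScalarTower ℂ (PA n) R]
  [Module.Finite (PA n) R] [Module.IsTorsionFree (PA n) R] in
private lemma SHSec_theta {k : ℕ} (β : Fin (k + 1) → R) (F : Set (R →ₐ[ℂ] ℂ)) (hfin : F.Finite)
    (hcard : F.ncard = k + 1)
    (hind : ∀ c : Fin (k + 1) → ℂ, (∀ ν ∈ F, ∑ a, c a * ν (β a) = 0) → c = 0) :
    ∃ θ : R, Set.InjOn (fun ν : R →ₐ[ℂ] ℂ => ν θ) F := by
  classical
  have := hfin.fintype
  let L : (Fin (k + 1) → ℂ) →ₗ[ℂ] (F → ℂ) :=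
    { toFun := fun c ν => ∑ a, c a * ν.1 (β a)
      map_add' := fun c c' => by
        ext ν
        simp [add_mul, Finset.sum_add_distrib]
      map_smul' := fun r c => by
        ext ν
        simp [mul_assoc, Finset.mul_sum] }
  have hinj : Function.Injective L := by
    rw [injective_iff_map_eq_zero]
    intro c hc
    exact hind c fun ν hν => congrFun hc ⟨ν, hν⟩
  have hdim : Module.finrank ℂ (Fin (k + 1) → ℂ) = Module.finrank ℂ (F → ℂ) := by
    rw [Module.finrank_fintype_fun_eq_card, Module.finrank_fintype_fun_eq_card, Fintype.card_fin,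
      ← hcard, Set.ncard_eq_toFinset_card', Set.toFinset_card]
  have hsurj := (LinearMap.injective_iff_surjective_of_finrank_eq_finrank hdim).1 hinj
  obtain ⟨t, ht⟩ := hsurj (fun ν => ((Fintype.equivFin F ν : ℕ) : ℂ))
  have h1 : ∀ ν (hν : ν ∈ F), ν (∑ a, t a • β a) = ((Fintype.equivFin F ⟨ν, hν⟩ : ℕ) : ℂ) := by
    intro ν hν
    rw [map_sum]
    simp only [map_smul, smul_eq_mul]
    exact congrFun ht ⟨ν, hν⟩
  refine ⟨∑ a, t a • β a, fun ν hν ν' hν' h => ?_⟩
  have h2 : ν (∑ a, t a • β a) = ν' (∑ a, t a • β a) := h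
  rw [h1 ν hν, h1 ν' hν'] at h2
  have h3 := (Fintype.equivFin F).injective (Fin.ext (Nat.cast_injective h2))
  exact congrArg Subtype.val h3

omit [IsScalarTower ℂ (PA n) R] in
private lemma SHSec_char {k : ℕ} (θ : R) : ∃ c : Fin (k + 1) → PA n,
    ∀ (y : Fin (n + 1) → ℂ) (S : Finset (R →ₐ[ℂ] ℂ)), S.card = k + 1 →
      (∀ f : R, ∏ ν ∈ S, ν f = MvPolynomial.eval y (Algebra.intNorm (PA n) R f)) →
      ∀ T : ℂ, ∏ ν ∈ S, (T - ν θ) =
        T ^ (k + 1) + ∑ i : Fin (k + 1), MvPolynomial.eval y (c i) * T ^ (i : ℕ) := by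
  classical
  set b : ℕ → Polynomial ℂ := fun j => Lagrange.basis (Finset.range (k + 2)) (fun j : ℕ => (j : ℂ)) j
    with hb
  refine ⟨fun i => ∑ j ∈ Finset.range (k + 2), MvPolynomial.C ((b j).coeff i) *
    Algebra.intNorm (PA n) R (algebraMap ℂ R j - θ), fun y S hS hn T => ?_⟩
  set P : Polynomial ℂ := ∏ ν ∈ S, (Polynomial.X - Polynomial.C (ν θ)) with hP
  have hmon : P.Monic := Polynomial.monic_prod_of_monic _ _ fun ν _ => Polynomial.monic_X_sub_C _
  have hdeg : P.natDegree = k + 1 := by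
    rw [hP, Polynomial.natDegree_prod_of_monic _ _ fun ν _ => Polynomial.monic_X_sub_C _]
    simp [hS]
  have hev : ∀ T, P.eval T = ∏ ν ∈ S, (T - ν θ) := fun T => by
    rw [hP, Polynomial.eval_prod]
    simp
  have hint : P = Lagrange.interpolate (Finset.range (k + 2)) (fun j : ℕ => (j : ℂ))
      fun i => P.eval (i : ℂ) := by
    refine Lagrange.eq_interpolate (fun i _ j _ h => Nat.cast_injective h) ?_
    rw [Polynomial.degree_eq_natDegree hmon.ne_zero, hdeg, Finset.card_range]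
    exact_mod_cast Nat.lt_succ_self _
  have hcoef : ∀ i, P.coeff i = MvPolynomial.eval y (∑ j ∈ Finset.range (k + 2),
      MvPolynomial.C ((b j).coeff i) * Algebra.intNorm (PA n) R (algebraMap ℂ R j - θ)) := by
    intro i
    have h1 : P.coeff i = (∑ j ∈ Finset.range (k + 2), Polynomial.C (P.eval (j : ℂ)) * b j).coeff i := by
      conv_lhs => rw [hint]
      rw [Lagrange.interpolate_apply]
    rw [h1, Polynomial.finsetSum_coeff, map_sum]
    refine Finset.sum_congr rfl fun j _ => ?_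
    rw [Polynomial.coeff_C_mul, map_mul, MvPolynomial.eval_C, ← hn, hev, mul_comm]
    congr 1
    refine Finset.prod_congr rfl fun ν _ => ?_
    rw [map_sub, AlgHom.commutes]
    rfl
  rw [← hev, hmon.as_sum, hdeg, Polynomial.eval_add, Polynomial.eval_pow, Polynomial.eval_X,
    Polynomial.eval_finsetSum, Finset.sum_range]
  congr 1
  refine Finset.sum_congr rfl fun i _ => ?_
  rw [Polynomial.eval_mul, Polynomial.eval_C, Polynomial.eval_pow, Polynomial.eval_X, hcoef]

private lemma SHSec_an {N : ℕ} (p : MvPolynomial (Fin N) ℂ) (s : Set (Fin N → ℂ)) :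
    AnalyticOnNhd ℂ (fun y => MvPolynomial.eval y p) s :=
  (AnalyticOnNhd.eval_mvPolynomial p).mono (Set.subset_univ _)

/-- Choose `θ = ∑ t_a β_a`, `t_a ∈ ℂ`, with different values at the `k + 1` points of the fibre over
`y₀` (possible by `indep`). Then `1, θ, …, θ ^ k` is a basis of the fibre algebra (Vandermonde), so the
determinant `Δ ∈ ℂ[x]` of the coefficients of `δ θ ^ i` in terms of `β` does not vanish at `y₀` and `R_(Δ δ) = A_(Δ δ) [θ] =
A_(Δ δ) [T] / (P)`, `P` the characteristic polynomial of `θ` (monic of degree `k + 1`,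
coefficients in `ℂ[x]` as `R` is integral over the integrally closed `ℂ[x]`; or use the minimal polynomial over `ℂ[x]`). `ν₀ θ` is a simple root of
`P_{y₀}`; take the analytic root `z (y)` of `sh_root`; the homomorphism `x ↦ y`, `θ ↦ z (y)` of `R_(Δ δ)` is `σ y`;
`σ y (f)` is a polynomial in `z (y)` with coefficients rational in `y`. -/
theorem sh_sec {k : ℕ} (β : Fin (k + 1) → R) (hβ : LinearIndependent (PA n) β)
    (hspan : ∀ f : R, ∃ p : Fin (k + 1) → PA n,
      algebraMap (PA n) R (shDisc β) * f = ∑ a, algebraMap (PA n) R (p a) * β a)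
    (y₀ : Fin (n + 1) → ℂ) (hy : MvPolynomial.eval y₀ (shDisc (n := n) β) ≠ 0)
    (ν₀ : R →ₐ[ℂ] ℂ) (hν₀ : ν₀ ∈ fib (xx R n) y₀) :
    ∃ (ε : ℝ) (σ : (Fin (n + 1) → ℂ) → (R →ₐ[ℂ] ℂ)), 0 < ε ∧ σ y₀ = ν₀ ∧
      (∀ y ∈ Metric.ball y₀ ε, σ y ∈ fib (xx R n) y) ∧
      ∀ f, AnalyticOnNhd ℂ (fun y => σ y f) (Metric.ball y₀ ε) := by
  classical
  have hgood : ∀ y : Fin (n + 1) → ℂ, MvPolynomial.eval y (shDisc (n := n) β) ≠ 0 →
      ∃ S : Finset (R →ₐ[ℂ] ℂ), (∀ ν, ν ∈ S ↔ ν ∈ fib (xx R n) y) ∧ S.card = k + 1 ∧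
        (∀ f : R, ∑ ν ∈ S, ν f = MvPolynomial.eval y (Algebra.intTrace (PA n) R f)) ∧
        ∀ f : R, ∏ ν ∈ S, ν f = MvPolynomial.eval y (Algebra.intNorm (PA n) R f) := by
    intro y hy
    obtain ⟨hfin, hcard, _, htr, hnm⟩ := sh_fibre β hβ hspan y hy
    refine ⟨hfin.toFinset, fun ν => hfin.mem_toFinset, ?_, fun f => ?_, fun f => ?_⟩
    · rw [← Set.ncard_eq_toFinset_card _ hfin, hcard]
    · rw [← htr f, finsum_mem_eq_finite_toFinset_sum _ hfin]
    · rw [← hnm f, finprod_mem_eq_finite_toFinset_prod _ hfin]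
  obtain ⟨hfin0, hcard0, hind0, _, _⟩ := sh_fibre β hβ hspan y₀ hy
  obtain ⟨θ, hθ⟩ := SHSec_theta β _ hfin0 hcard0 hind0
  obtain ⟨c, hc⟩ := SHSec_char (n := n) (k := k) θ
  obtain ⟨S₀, hS₀, hS₀c, hS₀t, hS₀n⟩ := hgood y₀ hy
  have hP₀ := hc y₀ S₀ hS₀c hS₀n
  have h0 : (ν₀ θ) ^ (k + 1) +
      ∑ i : Fin (k + 1), MvPolynomial.eval y₀ (c i) * (ν₀ θ) ^ (i : ℕ) = 0 := by
    rw [← hP₀]
    exact Finset.prod_eq_zero ((hS₀ ν₀).2 hν₀) (sub_self _)
  obtain ⟨_, hlag⟩ := SHSec_lag (fun i => MvPolynomial.eval y₀ (c i)) (ν₀ θ) S₀ (fun ν => ν θ)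
    hP₀ h0
  obtain ⟨hder, -⟩ := hlag ν₀ ((hS₀ ν₀).2 hν₀) rfl
  have h1 : SHSecDer (fun i => MvPolynomial.eval y₀ (c i)) (ν₀ θ) ≠ 0 := by
    rw [hder, Finset.prod_ne_zero_iff]
    intro ν' hν' h
    exact (Finset.mem_erase.1 hν').1
      (hθ ((hS₀ ν').1 (Finset.mem_erase.1 hν').2) hν₀ (sub_eq_zero.1 h).symm)
  obtain ⟨ε₁, z, hε₁, hz0, hza, hzr⟩ := sh_root c y₀ (ν₀ θ) h0 h1
  have hΦ : AnalyticOnNhd ℂ (fun y => SHSecDer (fun i => MvPolynomial.eval y (c i)) (z y))
      (Metric.ball y₀ ε₁) := by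
    unfold SHSecDer
    refine (analyticOnNhd_const.mul (hza.pow _)).add ?_
    refine Finset.analyticOnNhd_fun_sum _ fun i _ => ?_
    exact (SHSec_an _ _).mul (analyticOnNhd_const.mul (hza.pow _))
  have hy₁ : y₀ ∈ Metric.ball y₀ ε₁ := Metric.mem_ball_self hε₁
  have e1 : ∀ᶠ y in nhds y₀, SHSecDer (fun i => MvPolynomial.eval y (c i)) (z y) ≠ 0 := by
    refine (hΦ y₀ hy₁).continuousAt.eventually_ne ?_
    simpa only [hz0] using h1
  have e2 : ∀ᶠ y in nhds y₀, MvPolynomial.eval y (shDisc (n := n) β) ≠ 0 :=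
    (SHSec_an (shDisc (n := n) β) Set.univ y₀ (Set.mem_univ _)).continuousAt.eventually_ne hy
  obtain ⟨ε₂, hε₂, he⟩ := Metric.eventually_nhds_iff_ball.1 (e1.and e2)
  have hsub1 : Metric.ball y₀ (min ε₁ ε₂) ⊆ Metric.ball y₀ ε₁ :=
    Metric.ball_subset_ball (min_le_left _ _)
  have hsub2 : Metric.ball y₀ (min ε₁ ε₂) ⊆ Metric.ball y₀ ε₂ :=
    Metric.ball_subset_ball (min_le_right _ _)
  let σ : (Fin (n + 1) → ℂ) → (R →ₐ[ℂ] ℂ) := fun y =>
    if h : ∃ ν ∈ fib (xx R n) y, ν θ = z y then h.choose else ν₀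
  have hkey : ∀ y ∈ Metric.ball y₀ (min ε₁ ε₂), (σ y ∈ fib (xx R n) y ∧ σ y θ = z y) ∧
      ∀ f, SHSecDer (fun i => MvPolynomial.eval y (c i)) (z y) * σ y f =
        SHSecNum (fun i => MvPolynomial.eval y (c i)) (z y)
          (fun m => MvPolynomial.eval y (Algebra.intTrace (PA n) R (f * θ ^ m))) := by
    intro y hyb
    obtain ⟨hd, hδ⟩ := he y (hsub2 hyb)
    obtain ⟨S, hS, hSc, hSt, hSn⟩ := hgood y hδ
    have hP := hc y S hSc hSn
    obtain ⟨⟨ν, hν, hνz⟩, hl⟩ := SHSec_lag (fun i => MvPolynomial.eval y (c i)) (z y) S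
      (fun ν => ν θ) hP (hzr y (hsub1 hyb))
    have hex : ∃ ν ∈ fib (xx R n) y, ν θ = z y := ⟨ν, (hS ν).1 hν, hνz⟩
    have hσ : σ y ∈ fib (xx R n) y ∧ σ y θ = z y := by
      have : σ y = hex.choose := dif_pos hex
      rw [this]
      exact hex.choose_spec
    refine ⟨hσ, fun f => ?_⟩
    have h2 := (hl (σ y) ((hS _).2 hσ.1) hσ.2).2 hd (fun ν => ν f)
    rw [h2]
    congr 1
    funext m
    rw [← hSt]
    refine Finset.sum_congr rfl fun ν _ => ?_
    rw [map_mul, map_pow]
  have hy₀ : y₀ ∈ Metric.ball y₀ (min ε₁ ε₂) := Metric.mem_ball_self (lt_min hε₁ hε₂)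
  refine ⟨min ε₁ ε₂, σ, lt_min hε₁ hε₂, ?_, fun y hyb => (hkey y hyb).1.1, fun f => ?_⟩
  · have h3 := (hkey y₀ hy₀).1
    refine hθ h3.1 hν₀ ?_
    change σ y₀ θ = ν₀ θ
    rw [h3.2, hz0]
  · have hnum : AnalyticOnNhd ℂ (fun y => SHSecNum (fun i => MvPolynomial.eval y (c i)) (z y)
        (fun m => MvPolynomial.eval y (Algebra.intTrace (PA n) R (f * θ ^ m))))
        (Metric.ball y₀ (min ε₁ ε₂)) := by
      unfold SHSecNum
      refine (Finset.analyticOnNhd_fun_sum _ fun j _ => ?_).add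
        (Finset.analyticOnNhd_fun_sum _ fun i _ => ?_)
      · exact ((hza.mono hsub1).pow _).mul (SHSec_an _ _)
      · refine (SHSec_an _ _).mul (Finset.analyticOnNhd_fun_sum _ fun j _ => ?_)
        exact ((hza.mono hsub1).pow _).mul (SHSec_an _ _)
    refine (hnum.div (hΦ.mono hsub1) fun y hyb => (he y (hsub2 hyb)).1).congr Metric.isOpen_ball
      fun y hyb => ?_
    rw [div_eq_iff (he y (hsub2 hyb)).1, ← (hkey y hyb).2 f, mul_comm]

end Pool.Agent.Lib_KF

end

/-! ### from `Lib_KF.KCRot` -/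

section

/-!
# KC01: the circle action on the cone; polynomials equivariant under it
-/

open MeasureTheory
open scoped ENNReal NNReal

namespace Pool.Agent.Lib_KF

open Pool.Agent.Lib_GD

section Rot

variable {R : Type} [CommRing R] [Algebra ℂ R] (𝒜 : ℕ → Submodule ℂ R) [GradedAlgebra 𝒜]

/-- The action of `t ∈ ℂ` on the cone: `rot t ν f = t ^ j ν f` for `f ∈ 𝒜 j`. -/
theorem exists_rot (t : ℂ) (ν : R →ₐ[ℂ] ℂ) :
    ∃ ν' : R →ₐ[ℂ] ℂ, ∀ j, ∀ f ∈ 𝒜 j, ν' f = t ^ j * ν f := by
  classical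
  let F : ∀ j, 𝒜 j →ₗ[ℂ] ℂ := fun j => t ^ j • (ν.toLinearMap ∘ₗ (𝒜 j).subtype)
  have hone : F 0 (GradedMonoid.GOne.one (A := fun j => 𝒜 j)) = 1 := by
    change t ^ 0 * ν (1 : R) = 1
    simp
  have hmul : ∀ {i j : ℕ} (a : 𝒜 i) (c : 𝒜 j),
      F (i + j) (GradedMonoid.GMul.mul (A := fun j => 𝒜 j) a c) = F i a * F j c := by
    intro i j a c
    change t ^ (i + j) * ν ((a : R) * (c : R)) = (t ^ i * ν a) * (t ^ j * ν c)
    rw [map_mul, pow_add]
    ring
  let Φ : (DirectSum ℕ fun j => 𝒜 j) →ₐ[ℂ] ℂ := DirectSum.toAlgebra ℂ (fun j => 𝒜 j) F hone hmul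
  refine ⟨Φ.comp (DirectSum.decomposeAlgEquiv 𝒜).toAlgHom, fun j f hf => ?_⟩
  change Φ (DirectSum.decompose 𝒜 f) = _
  lift f to 𝒜 j using hf
  rw [DirectSum.decompose_coe]
  exact DirectSum.toSemiring_of (fun i => (F i).toAddMonoidHom) hone hmul j f

/-- see `exists_rot` -/
noncomputable def rot (t : ℂ) (ν : R →ₐ[ℂ] ℂ) : R →ₐ[ℂ] ℂ := (exists_rot 𝒜 t ν).choose

theorem rot_apply (t : ℂ) (ν : R →ₐ[ℂ] ℂ) {j : ℕ} {f : R} (hf : f ∈ 𝒜 j) :
    rot 𝒜 t ν f = t ^ j * ν f := (exists_rot 𝒜 t ν).choose_spec j f hf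

include 𝒜 in
private lemma KCRot_ext {ν ν' : R →ₐ[ℂ] ℂ} (h : ∀ j, ∀ f ∈ 𝒜 j, ν f = ν' f) : ν = ν' := by
  classical
  ext f
  induction f using DirectSum.Decomposition.inductionOn 𝒜 with
  | zero => simp
  | homogeneous m => exact h _ _ m.2
  | add a c ha hc => rw [map_add, map_add, ha, hc]

theorem rot_one (ν : R →ₐ[ℂ] ℂ) : rot 𝒜 1 ν = ν := by
  refine KCRot_ext 𝒜 fun j f hf => ?_
  rw [rot_apply 𝒜 _ _ hf, one_pow, one_mul]

theorem rot_rot (s t : ℂ) (ν : R →ₐ[ℂ] ℂ) : rot 𝒜 s (rot 𝒜 t ν) = rot 𝒜 (s * t) ν := by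
  refine KCRot_ext 𝒜 fun j f hf => ?_
  rw [rot_apply 𝒜 _ _ hf, rot_apply 𝒜 _ _ hf, rot_apply 𝒜 _ _ hf, mul_pow, mul_assoc]

theorem rot_mem_fib {n d : ℕ} {x : Fin (n + 1) → R} (hx : ∀ b, x b ∈ 𝒜 d) (t : ℂ)
    {y : Fin (n + 1) → ℂ} {ν : R →ₐ[ℂ] ℂ} (hν : ν ∈ fib x y) :
    rot 𝒜 t ν ∈ fib x (t ^ d • y) := by
  intro b
  rw [rot_apply 𝒜 _ _ (hx b), hν b, Pi.smul_apply, smul_eq_mul]

/-- For `t ≠ 0` the map `rot t` is a bijection of the fibres. -/
theorem rot_bijOn {n d : ℕ} {x : Fin (n + 1) → R} (hx : ∀ b, x b ∈ 𝒜 d) {t : ℂ} (ht : t ≠ 0)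
    (y : Fin (n + 1) → ℂ) : Set.BijOn (rot 𝒜 t) (fib x y) (fib x (t ^ d • y)) := by
  have h1 : ∀ ν, rot 𝒜 t⁻¹ (rot 𝒜 t ν) = ν := fun ν => by
    rw [rot_rot, inv_mul_cancel₀ ht, rot_one]
  have h2 : ∀ ν, rot 𝒜 t (rot 𝒜 t⁻¹ ν) = ν := fun ν => by
    rw [rot_rot, mul_inv_cancel₀ ht, rot_one]
  refine ⟨fun ν hν => rot_mem_fib 𝒜 hx t hν, fun ν _ ν' _ h => ?_, fun ν hν => ?_⟩
  · rw [← h1 ν, h, h1]
  · refine ⟨rot 𝒜 t⁻¹ ν, ?_, h2 ν⟩
    have h := rot_mem_fib 𝒜 hx t⁻¹ hν
    rwa [smul_smul, ← mul_pow, inv_mul_cancel₀ ht, one_pow, one_smul] at h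

/-- If `ν f` is invariant under the circle action over a non-empty open set, then `f` is
constant. -/
theorem kc_deg_zero {n : ℕ} {x : Fin (n + 1) → R} [IsDomain R] (hx : AlgebraicIndependent ℂ x)
    (hfin : Module.Finite (Algebra.adjoin ℂ (Set.range x)) R)
    (h0 : 𝒜 0 = Subalgebra.toSubmodule (⊥ : Subalgebra ℂ R)) (f : R)
    {U : Set (Fin (n + 1) → ℂ)} (hU : IsOpen U) (hne : U.Nonempty)
    (hinv : ∀ y ∈ U, ∀ ν ∈ fib x y, ∀ θ : ℝ, rot 𝒜 (Complex.exp (θ * Complex.I)) ν f = ν f) :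
    ∃ c : ℂ, f = algebraMap ℂ R c := by
  classical
  have hdec : ∀ g : R, ∑ j ∈ (DirectSum.decompose 𝒜 g).support,
      ((DirectSum.decompose 𝒜 g j : 𝒜 j) : R) = g := fun g =>
    DirectSum.sum_support_decompose 𝒜 g
  have hcomp : ∀ j, 1 ≤ j → ((DirectSum.decompose 𝒜 f j : 𝒜 j) : R) = 0 := by
    intro j hj
    refine fib_zero hx hfin _ hU hne fun y hy ν hν => ?_
    set P : Polynomial ℂ := ∑ i ∈ (DirectSum.decompose 𝒜 f).support,
      Polynomial.C (ν (DirectSum.decompose 𝒜 f i : 𝒜 i)) * Polynomial.X ^ i -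
      Polynomial.C (ν f) with hP
    have hroot : ∀ θ : ℝ, P.IsRoot (Complex.exp (θ * Complex.I)) := by
      intro θ
      have h := hinv y hy ν hν θ
      rw [Polynomial.IsRoot, hP, Polynomial.eval_sub, Polynomial.eval_finsetSum,
        Polynomial.eval_C]
      rw [← h, sub_eq_zero]
      conv_rhs => rw [← hdec f]
      rw [map_sum]
      refine Finset.sum_congr rfl fun i _ => ?_
      rw [rot_apply 𝒜 _ _ (DirectSum.decompose 𝒜 f i).2, Polynomial.eval_mul,
        Polynomial.eval_C, Polynomial.eval_pow, Polynomial.eval_X, mul_comm]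
    have hinf : Set.Infinite {z | P.IsRoot z} := by
      refine Set.Infinite.mono (s := (fun θ : ℝ => Complex.exp (θ * Complex.I)) ''
        Set.Ioo (0 : ℝ) 1) ?_ ?_
      · rintro _ ⟨θ, _, rfl⟩
        exact hroot θ
      · refine (Set.Ioo_infinite one_pos).image ?_
        intro a ha c hc hac
        have h3 : Complex.exp (a * Complex.I) = Complex.exp (c * Complex.I) := hac
        rw [Complex.exp_eq_exp_iff_exists_int] at h3
        obtain ⟨m, hm⟩ := h3
        have h4 : (a : ℂ) = c + m * (2 * Real.pi) := by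
          have h5 : (a : ℂ) * Complex.I = (c + m * (2 * Real.pi)) * Complex.I := by
            rw [hm]
            ring
          exact mul_right_cancel₀ Complex.I_ne_zero h5
        have h6 : a = c + m * (2 * Real.pi) := by exact_mod_cast h4
        have hpi := Real.pi_gt_three
        have h7 : (m : ℝ) = 0 := by
          by_contra hm0
          have h8 : 1 ≤ |(m : ℝ)| := by
            have : m ≠ 0 := fun h => hm0 (by simp [h])
            exact_mod_cast Int.one_le_abs this
          have h9 : |a - c| < 1 := abs_lt.2 ⟨by linarith [ha.1, ha.2, hc.1, hc.2],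
            by linarith [ha.1, ha.2, hc.1, hc.2]⟩
          have h10 : |a - c| = |(m : ℝ)| * (2 * Real.pi) := by
            rw [h6, add_sub_cancel_left, abs_mul, abs_of_pos (by positivity : 0 < 2 * Real.pi)]
          nlinarith
        rw [h6, h7]
        ring
    have hP0 : P = 0 := Polynomial.eq_zero_of_infinite_isRoot P hinf
    have hc : P.coeff j = ν ((DirectSum.decompose 𝒜 f j : 𝒜 j) : R) := by
      rw [hP, Polynomial.coeff_sub, Polynomial.finsetSum_coeff, Polynomial.coeff_C,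
        if_neg (by omega), sub_zero]
      simp only [Polynomial.coeff_C_mul, Polynomial.coeff_X_pow, mul_ite, mul_one, mul_zero]
      rw [Finset.sum_ite_eq]
      split_ifs with h
      · rfl
      · rw [DFinsupp.notMem_support_iff.1 h]
        simp
    rw [← hc, hP0, Polynomial.coeff_zero]
  have hf0 : f = ((DirectSum.decompose 𝒜 f 0 : 𝒜 0) : R) := by
    conv_lhs => rw [← hdec f]
    refine Finset.sum_eq_single 0 (fun j _ hj => hcomp j (by omega)) fun h => ?_
    rw [DFinsupp.notMem_support_iff.1 h]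
    rfl
  have hm : f ∈ 𝒜 0 := by
    rw [hf0]
    exact (DirectSum.decompose 𝒜 f 0).2
  rw [h0] at hm
  obtain ⟨c, hc⟩ := Algebra.mem_bot.1 (show f ∈ (⊥ : Subalgebra ℂ R) from hm)
  exact ⟨c, hc.symm⟩

end Rot

private lemma KCRot_eval {N : ℕ} {φ : MvPolynomial (Fin N) ℂ} {m : ℕ} (hφ : φ.IsHomogeneous m)
    (c : ℂ) (y : Fin N → ℂ) :
    MvPolynomial.eval (c • y) φ = c ^ m * MvPolynomial.eval y φ := by
  rw [MvPolynomial.eval_eq', MvPolynomial.eval_eq', Finset.mul_sum]
  refine Finset.sum_congr rfl fun s hs => ?_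
  have h1 : ∑ i, s i = m := by
    have h := hφ (MvPolynomial.mem_support_iff.1 hs)
    rw [← h, Finsupp.weight_apply, Finsupp.sum_fintype _ _ (fun i => by simp)]
    simp
  simp only [Pi.smul_apply, smul_eq_mul, mul_pow]
  rw [Finset.prod_mul_distrib, Finset.prod_pow_eq_pow_sum, h1]
  ring

/-- A polynomial with `p (t ^ d y) = t ^ e p (y)` for all `t ≠ 0`, `y` is zero or homogeneous of
degree `e / d`. -/
theorem kc_homog_of_equivariant {N : ℕ} (p : MvPolynomial (Fin N) ℂ) {d e : ℕ} (hd : 1 ≤ d)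
    (hp : ∀ t : ℂ, t ≠ 0 → ∀ y : Fin N → ℂ,
      MvPolynomial.eval (t ^ d • y) p = t ^ e * MvPolynomial.eval y p) :
    p = 0 ∨ ∃ w, d * w = e ∧ p.IsHomogeneous w := by
  have hcomp : ∀ w, d * w ≠ e → MvPolynomial.homogeneousComponent w p = 0 := by
    intro w hw
    refine MvPolynomial.funext fun y => ?_
    rw [map_zero]
    set P : Polynomial ℂ := ∑ i ∈ Finset.range (p.totalDegree + 1),
      Polynomial.C (MvPolynomial.eval y (MvPolynomial.homogeneousComponent i p)) *
        Polynomial.X ^ (d * i) - Polynomial.C (MvPolynomial.eval y p) * Polynomial.X ^ e with hP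
    have hroot : ∀ t : ℂ, t ≠ 0 → P.IsRoot t := by
      intro t ht
      rw [Polynomial.IsRoot, hP, Polynomial.eval_sub, Polynomial.eval_finsetSum,
        Polynomial.eval_mul, Polynomial.eval_C, Polynomial.eval_pow, Polynomial.eval_X,
        mul_comm, ← hp t ht y, sub_eq_zero]
      conv_rhs => rw [← MvPolynomial.sum_homogeneousComponent p]
      rw [map_sum]
      refine Finset.sum_congr rfl fun i _ => ?_
      rw [Polynomial.eval_mul, Polynomial.eval_C, Polynomial.eval_pow, Polynomial.eval_X]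
      rw [KCRot_eval (MvPolynomial.homogeneousComponent_isHomogeneous i p), ← pow_mul, mul_comm]
    have hP0 : P = 0 := by
      refine Polynomial.eq_zero_of_infinite_isRoot P ?_
      refine Set.Infinite.mono (s := {0}ᶜ) (fun t ht => hroot t ht) ?_
      exact (Set.finite_singleton _).infinite_compl
    have hc : P.coeff (d * w) = MvPolynomial.eval y (MvPolynomial.homogeneousComponent w p) := by
      rw [hP, Polynomial.coeff_sub, Polynomial.finsetSum_coeff, Polynomial.coeff_C_mul,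
        Polynomial.coeff_X_pow, if_neg hw, mul_zero, sub_zero]
      have h1 : ∀ i, d * w = d * i ↔ w = i := fun i =>
        ⟨fun h => Nat.eq_of_mul_eq_mul_left (by omega) h, fun h => by rw [h]⟩
      simp only [Polynomial.coeff_C_mul, Polynomial.coeff_X_pow, mul_ite, mul_one, mul_zero, h1]
      rw [Finset.sum_ite_eq]
      split_ifs with h
      · rfl
      · rw [MvPolynomial.homogeneousComponent_eq_zero _ _ (by
          rw [Finset.mem_range] at h
          omega), map_zero]
    rw [← hc, hP0, Polynomial.coeff_zero]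
  by_cases h : ∃ w, d * w = e
  · obtain ⟨w, hw⟩ := h
    refine Or.inr ⟨w, hw, ?_⟩
    have h1 : p = MvPolynomial.homogeneousComponent w p := by
      ext s
      rw [MvPolynomial.coeff_homogeneousComponent]
      split_ifs with h2
      · rfl
      · have h3 := congrArg (MvPolynomial.coeff s) (hcomp s.degree (fun h4 => h2
          (Nat.eq_of_mul_eq_mul_left (by omega) (h4.trans hw.symm))))
        rwa [MvPolynomial.coeff_homogeneousComponent, if_pos rfl, MvPolynomial.coeff_zero] at h3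
    rw [h1]
    exact MvPolynomial.homogeneousComponent_isHomogeneous w p
  · left
    rw [← MvPolynomial.sum_homogeneousComponent p]
    exact Finset.sum_eq_zero fun w _ => hcomp w fun hw => h ⟨w, hw⟩

/-- the substitution `X i ↦ X i * T` -/
private noncomputable def KCRotPhi (N : ℕ) :
    MvPolynomial (Fin N) ℂ →ₐ[ℂ] Polynomial (MvPolynomial (Fin N) ℂ) :=
  MvPolynomial.aeval fun i => Polynomial.C (MvPolynomial.X i) * Polynomial.X

private lemma KCRot_phi_monomial {N : ℕ} (s : Fin N →₀ ℕ) (c : ℂ) :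
    KCRotPhi N (MvPolynomial.monomial s c) =
      Polynomial.monomial s.degree (MvPolynomial.monomial s c) := by
  unfold KCRotPhi
  rw [MvPolynomial.aeval_monomial, Finsupp.prod_fintype _ _ (fun i => by simp)]
  simp only [mul_pow]
  rw [Finset.prod_mul_distrib, Finset.prod_pow_eq_pow_sum, MvPolynomial.monomial_eq,
    Finsupp.prod_fintype _ _ (fun i => by simp), ← Polynomial.C_mul_X_pow_eq_monomial,
    Finsupp.degree_eq_sum]
  simp only [map_mul, map_prod, map_pow]
  rw [mul_assoc]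
  rfl

private lemma KCRot_phi_coeff {N : ℕ} (p : MvPolynomial (Fin N) ℂ) (k : ℕ) :
    (KCRotPhi N p).coeff k = MvPolynomial.homogeneousComponent k p := by
  induction p using MvPolynomial.induction_on' with
  | monomial s c =>
    rw [KCRot_phi_monomial, Polynomial.coeff_monomial]
    ext s'
    rw [MvPolynomial.coeff_homogeneousComponent, MvPolynomial.coeff_monomial]
    by_cases h : s = s'
    · subst h
      by_cases h1 : s.degree = k
      · simp [h1]
      · simp [h1]
    · split_ifs <;> simp [MvPolynomial.coeff_monomial, h]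
  | add p q hp hq => rw [map_add, Polynomial.coeff_add, hp, hq, map_add]

/-- A factor of a non-zero homogeneous polynomial is homogeneous. -/
theorem kc_homog_of_dvd {N w : ℕ} {p q : MvPolynomial (Fin N) ℂ} (hq : q ≠ 0)
    (hqw : q.IsHomogeneous w) (hpq : p ∣ q) : ∃ w', p.IsHomogeneous w' := by
  obtain ⟨r, rfl⟩ := hpq
  have hinj : ∀ g : MvPolynomial (Fin N) ℂ, g ≠ 0 → KCRotPhi N g ≠ 0 := by
    intro g hg h
    refine hg ?_
    rw [← MvPolynomial.sum_homogeneousComponent g]
    exact Finset.sum_eq_zero fun k _ => by rw [← KCRot_phi_coeff, h, Polynomial.coeff_zero]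
  have hp0 := hinj p (left_ne_zero_of_mul hq)
  have hr0 := hinj r (right_ne_zero_of_mul hq)
  have h1 : KCRotPhi N (p * r) = Polynomial.monomial w (p * r) := by
    ext1 k
    rw [KCRot_phi_coeff, Polynomial.coeff_monomial]
    split_ifs with h
    · subst h
      exact MvPolynomial.homogeneousComponent_eq_self hqw
    · rw [MvPolynomial.homogeneousComponent_of_mem
        ((MvPolynomial.mem_homogeneousSubmodule _ _).2 hqw), if_neg (Ne.symm h)]
  rw [map_mul] at h1
  have h2 : (KCRotPhi N p).natDegree + (KCRotPhi N r).natDegree = w := by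
    rw [← Polynomial.natDegree_mul hp0 hr0, h1, Polynomial.natDegree_monomial_eq _ hq]
  have h3 : (KCRotPhi N p).natTrailingDegree + (KCRotPhi N r).natTrailingDegree = w := by
    rw [← Polynomial.natTrailingDegree_mul hp0 hr0, h1, Polynomial.natTrailingDegree_monomial hq]
  have h4 := Polynomial.natTrailingDegree_le_natDegree (KCRotPhi N p)
  have h5 := Polynomial.natTrailingDegree_le_natDegree (KCRotPhi N r)
  refine ⟨(KCRotPhi N p).natDegree, ?_⟩
  have h6 : MvPolynomial.homogeneousComponent (KCRotPhi N p).natDegree p = p := by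
    ext s
    rw [MvPolynomial.coeff_homogeneousComponent]
    split_ifs with h7
    · rfl
    · symm
      have h8 : (KCRotPhi N p).coeff s.degree = 0 := by
        rcases lt_or_gt_of_ne h7 with h9 | h9
        · exact Polynomial.coeff_eq_zero_of_lt_natTrailingDegree (by omega)
        · exact Polynomial.coeff_eq_zero_of_natDegree_lt h9
      rw [KCRot_phi_coeff] at h8
      have h10 := congrArg (MvPolynomial.coeff s) h8
      rwa [MvPolynomial.coeff_homogeneousComponent, if_pos rfl, MvPolynomial.coeff_zero] at h10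
  have h7 := MvPolynomial.homogeneousComponent_isHomogeneous (KCRotPhi N p).natDegree p
  rwa [h6] at h7

end Pool.Agent.Lib_KF

end

/-! ### from `Lib_KF.KCRem` -/

section

/-!
# KC02: square integrable holomorphic functions of one variable extend over finitely many points
-/

open MeasureTheory
open scoped ENNReal NNReal

namespace Pool.Agent.Lib_KF

section Aux

open Complex Set Metric

private theorem kcRem_rot (c : ℂ) (θ : ℝ) :
    MeasurePreserving (fun w : ℂ => c + (w - c) * circleMap 0 1 θ) := by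
  have h1 : MeasurePreserving (fun w : ℂ => w - c) := measurePreserving_sub_right volume c
  have h2 : MeasurePreserving (fun w : ℂ => w * circleMap 0 1 θ) := by
    have h := (rotation (Circle.exp θ)).measurePreserving
    convert h using 1
    funext w
    rw [rotation_apply, Circle.coe_exp, circleMap]
    simp [mul_comm]
  have h3 : MeasurePreserving (fun w : ℂ => c + w) := measurePreserving_add_left volume c
  exact h3.comp (h2.comp h1)

/-- Mean value inequality for `|F|²` on rotation invariant sets. -/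
private theorem kcRem_mean {F : ℂ → ℂ} {c : ℂ} {ρ : ℝ}
    (hF : ∀ z, ‖z - c‖ ≤ ρ → DifferentiableAt ℂ F z) (hFm : Measurable F) {T : Set ℝ}
    (hT : MeasurableSet T) (hTρ : ∀ t ∈ T, t ≤ ρ) :
    ENNReal.ofReal (‖F c‖ ^ 2) * volume {w : ℂ | ‖w - c‖ ∈ T} ≤
      ∫⁻ w in {w : ℂ | ‖w - c‖ ∈ T}, ENNReal.ofReal (‖F w‖ ^ 2) := by
  set D : Set ℂ := {w : ℂ | ‖w - c‖ ∈ T} with hD
  have hDm : MeasurableSet D := by
    have : Measurable (fun w : ℂ => ‖w - c‖) := by fun_prop
    exact this hT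
  have hgm : Measurable (fun w : ℂ => ENNReal.ofReal (‖F w‖ ^ 2)) := by fun_prop
  set A := ∫⁻ w in D, ENNReal.ofReal (‖F w‖ ^ 2) with hA
  have hrot : ∀ θ : ℝ, ∫⁻ w in D, ENNReal.ofReal (‖F (c + (w - c) * circleMap 0 1 θ)‖ ^ 2) = A := by
    intro θ
    have h := (kcRem_rot c θ).setLIntegral_comp_preimage hDm hgm
    rw [hA, ← h]
    congr 2
    ext w
    simp [hD]
  have hswap : ∫⁻ θ in Ioc (0 : ℝ) (2 * Real.pi), ∫⁻ w in D,
      ENNReal.ofReal (‖F (c + (w - c) * circleMap 0 1 θ)‖ ^ 2) =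
      ∫⁻ w in D, ∫⁻ θ in Ioc (0 : ℝ) (2 * Real.pi),
        ENNReal.ofReal (‖F (c + (w - c) * circleMap 0 1 θ)‖ ^ 2) := by
    refine lintegral_lintegral_swap ?_
    refine Measurable.aemeasurable ?_
    have h1 : Measurable (fun p : ℝ × ℂ => c + (p.2 - c) * circleMap 0 1 p.1) := by
      have : Continuous (fun p : ℝ × ℂ => c + (p.2 - c) * circleMap 0 1 p.1) := by
        unfold circleMap
        fun_prop
      exact this.measurable
    exact hgm.comp h1
  have hvol : volume (Ioc (0 : ℝ) (2 * Real.pi)) = ENNReal.ofReal (2 * Real.pi) := by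
    rw [Real.volume_Ioc, sub_zero]
  have hpt : ∀ w ∈ D, ENNReal.ofReal (2 * Real.pi) * ENNReal.ofReal (‖F c‖ ^ 2) ≤
      ∫⁻ θ in Ioc (0 : ℝ) (2 * Real.pi),
        ENNReal.ofReal (‖F (c + (w - c) * circleMap 0 1 θ)‖ ^ 2) := by
    intro w hw
    have hwρ : ‖w - c‖ ≤ ρ := hTρ _ hw
    set G : ℂ → ℂ := fun z => (F (c + (w - c) * z)) ^ 2 with hG
    have hGd : ∀ z : ℂ, ‖z‖ ≤ 1 → DifferentiableAt ℂ G z := by
      intro z hz
      have h1 : DifferentiableAt ℂ F (c + (w - c) * z) := by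
        apply hF
        rw [add_sub_cancel_left, norm_mul]
        calc ‖w - c‖ * ‖z‖ ≤ ‖w - c‖ * 1 := by gcongr
          _ ≤ ρ := by rw [mul_one]; exact hwρ
      have h2 : DifferentiableAt ℂ (fun z => c + (w - c) * z) z := by fun_prop
      exact (DifferentiableAt.comp z h1 h2).pow 2
    have hav : Real.circleAverage G 0 1 = G 0 := by
      apply circleAverage_of_differentiable_on_off_countable (s := ∅) countable_empty
      · intro z hz
        refine (hGd z ?_).continuousAt.continuousWithinAt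
        simpa using hz
      · intro z hz
        refine hGd z ?_
        have := hz.1
        rw [mem_ball_zero_iff, abs_one] at this
        exact this.le
    have h0 : G 0 = F c ^ 2 := by simp [hG]
    rw [h0, Real.circleAverage_def] at hav
    have h3 : ∫ θ in (0 : ℝ)..2 * Real.pi, G (circleMap 0 1 θ) = ((2 * Real.pi : ℝ) : ℂ) * F c ^ 2 := by
      rw [← hav, real_smul, ← mul_assoc, ← ofReal_mul, mul_inv_cancel₀ Real.two_pi_pos.ne']
      simp
    rw [intervalIntegral.integral_of_le Real.two_pi_pos.le] at h3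
    have h4 := enorm_integral_le_lintegral_enorm (μ := volume.restrict (Ioc (0 : ℝ) (2 * Real.pi)))
      (fun θ => G (circleMap 0 1 θ))
    rw [h3] at h4
    refine le_trans (le_of_eq ?_) (h4.trans (le_of_eq ?_))
    · rw [← ENNReal.ofReal_mul Real.two_pi_pos.le, ← ofReal_norm, norm_mul, norm_pow,
        Complex.norm_real, Real.norm_of_nonneg Real.two_pi_pos.le]
    · refine lintegral_congr fun θ => ?_
      rw [← ofReal_norm, hG, norm_pow]
  have h5 : ENNReal.ofReal (2 * Real.pi) * ENNReal.ofReal (‖F c‖ ^ 2) * volume D ≤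
      A * ENNReal.ofReal (2 * Real.pi) := by
    calc ENNReal.ofReal (2 * Real.pi) * ENNReal.ofReal (‖F c‖ ^ 2) * volume D
        = ∫⁻ _ in D, ENNReal.ofReal (2 * Real.pi) * ENNReal.ofReal (‖F c‖ ^ 2) := by
          rw [setLIntegral_const]
      _ ≤ ∫⁻ w in D, ∫⁻ θ in Ioc (0 : ℝ) (2 * Real.pi),
        ENNReal.ofReal (‖F (c + (w - c) * circleMap 0 1 θ)‖ ^ 2) := setLIntegral_mono' hDm hpt
      _ = A * ENNReal.ofReal (2 * Real.pi) := by
          rw [← hswap, lintegral_congr hrot, setLIntegral_const, hvol]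
  have h6 : ENNReal.ofReal (2 * Real.pi) ≠ 0 := by
    simpa using Real.two_pi_pos
  rw [mul_comm A, mul_assoc] at h5
  exact (ENNReal.mul_le_mul_iff_right h6 ENNReal.ofReal_ne_top).1 h5

/-- The growth estimate at a possible singularity. -/
private theorem kcRem_tendsto {s : Set ℂ} {c : ℂ} (hs : IsOpen s) (hc : c ∈ s) {f : ℂ → ℂ}
    (hf : DifferentiableOn ℂ f (s \ {c})) (hL2 : ∫⁻ z in s, ‖f z‖ₑ ^ 2 ≠ ⊤) :
    Filter.Tendsto (fun z => f z * (z - c)) (nhdsWithin c {c}ᶜ) (nhds 0) := by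
  classical
  set s' : Set ℂ := s \ {c} with hs'
  have hs'o : IsOpen s' := hs.sdiff isClosed_singleton
  set F : ℂ → ℂ := s'.piecewise f 0 with hF
  have hFm : Measurable F :=
    hf.continuousOn.measurable_piecewise continuousOn_const hs'o.measurableSet
  have hFd : ∀ z ∈ s', DifferentiableAt ℂ F z := by
    intro z hz
    have h1 : DifferentiableAt ℂ f z := hf.differentiableAt (hs'o.mem_nhds hz)
    refine h1.congr_of_eventuallyEq ?_
    filter_upwards [hs'o.mem_nhds hz] with w hw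
    rw [hF, Set.piecewise_eq_of_mem _ _ _ hw]
  obtain ⟨r, hr, hball⟩ := Metric.isOpen_iff.1 hs c hc
  -- the integrals over shrinking balls
  have hJ : Filter.Tendsto (fun z : ℂ => ∫⁻ w in closedBall c (2 * ‖z - c‖),
      (s.indicator (fun w => ‖f w‖ₑ ^ 2)) w) (nhdsWithin c {c}ᶜ) (nhds 0) := by
    refine tendsto_setLIntegral_zero (μ := volume) ?_ ?_
    · rw [lintegral_indicator hs.measurableSet]
      exact hL2
    · have h1 : Filter.Tendsto (fun z : ℂ => ENNReal.ofReal (2 * ‖z - c‖) ^ 2 * NNReal.pi)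
          (nhds c) (nhds (ENNReal.ofReal (2 * ‖c - c‖) ^ 2 * NNReal.pi)) := by
        have h2 : Continuous (fun z : ℂ => ENNReal.ofReal (2 * ‖z - c‖) ^ 2) := by
          refine (ENNReal.continuous_pow 2).comp ?_
          exact ENNReal.continuous_ofReal.comp (by fun_prop)
        exact ENNReal.Tendsto.mul_const h2.continuousAt (Or.inr ENNReal.coe_ne_top)
      rw [sub_self, norm_zero, mul_zero, ENNReal.ofReal_zero, zero_pow two_ne_zero, zero_mul] at h1
      refine (h1.mono_left nhdsWithin_le_nhds).congr fun z => ?_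
      rw [Function.comp_apply, Complex.volume_closedBall]
  have hest : ∀ᶠ z in nhdsWithin c {c}ᶜ, ENNReal.ofReal (‖f z * (z - c)‖ ^ 2 * (Real.pi / 4)) ≤
      ∫⁻ w in closedBall c (2 * ‖z - c‖), (s.indicator (fun w => ‖f w‖ₑ ^ 2)) w := by
    have hev : ∀ᶠ z in nhdsWithin c {c}ᶜ, z ∈ ball c (r / 2) :=
      nhdsWithin_le_nhds (ball_mem_nhds c (half_pos hr))
    filter_upwards [hev, self_mem_nhdsWithin] with z hz hzc
    have hzc' : z ≠ c := hzc
    have hd : 0 < ‖z - c‖ := norm_pos_iff.2 (sub_ne_zero.2 hzc')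
    have hzr : ‖z - c‖ < r / 2 := by rwa [mem_ball, dist_eq_norm] at hz
    have hin : ∀ w : ℂ, ‖w - z‖ ≤ ‖z - c‖ / 2 → w ∈ s' := by
      intro w hw
      refine ⟨hball ?_, ?_⟩
      · rw [mem_ball, dist_eq_norm]
        calc ‖w - c‖ = ‖(w - z) + (z - c)‖ := by rw [sub_add_sub_cancel]
          _ ≤ ‖w - z‖ + ‖z - c‖ := norm_add_le _ _
          _ < r := by linarith
      · intro h
        rw [mem_singleton_iff] at h
        rw [h, norm_sub_rev] at hw
        linarith
    have hsub : {w : ℂ | ‖w - z‖ ∈ Iic (‖z - c‖ / 2)} ⊆ closedBall c (2 * ‖z - c‖) := by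
      intro w hw
      have hw' : ‖w - z‖ ≤ ‖z - c‖ / 2 := hw
      rw [mem_closedBall, dist_eq_norm]
      calc ‖w - c‖ = ‖(w - z) + (z - c)‖ := by rw [sub_add_sub_cancel]
        _ ≤ ‖w - z‖ + ‖z - c‖ := norm_add_le _ _
        _ ≤ 2 * ‖z - c‖ := by linarith
    have hm := kcRem_mean (F := F) (c := z) (ρ := ‖z - c‖ / 2) (T := Iic (‖z - c‖ / 2))
      (fun w hw => hFd w (hin w hw)) hFm measurableSet_Iic (fun t ht => ht)
    have hset : {w : ℂ | ‖w - z‖ ∈ Iic (‖z - c‖ / 2)} = closedBall z (‖z - c‖ / 2) := by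
      ext w
      rw [mem_setOf_eq, mem_Iic, mem_closedBall, dist_eq_norm]
    have hFz : F z = f z := by
      rw [hF, Set.piecewise_eq_of_mem _ _ _ (hin z (by rw [sub_self, norm_zero]; positivity))]
    have hvol : ENNReal.ofReal (‖F z‖ ^ 2) * volume {w : ℂ | ‖w - z‖ ∈ Iic (‖z - c‖ / 2)} =
        ENNReal.ofReal (‖f z * (z - c)‖ ^ 2 * (Real.pi / 4)) := by
      rw [hset, Complex.volume_closedBall, hFz, ← ENNReal.ofReal_pow (by positivity)]
      have hpi : (NNReal.pi : ℝ≥0∞) = ENNReal.ofReal Real.pi := by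
        rw [← NNReal.coe_real_pi, ENNReal.ofReal_coe_nnreal]
      rw [hpi, ← ENNReal.ofReal_mul (by positivity), ← ENNReal.ofReal_mul (by positivity),
        norm_mul]
      congr 1
      ring
    rw [← hvol]
    refine hm.trans ?_
    rw [← lintegral_indicator (by rw [hset]; exact measurableSet_closedBall),
      ← lintegral_indicator measurableSet_closedBall]
    refine lintegral_mono fun w => ?_
    by_cases hw : w ∈ {w : ℂ | ‖w - z‖ ∈ Iic (‖z - c‖ / 2)}
    · rw [indicator_of_mem hw, indicator_of_mem (hsub hw)]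
      have hws : w ∈ s' := hin w hw
      rw [indicator_of_mem hws.1, hF, Set.piecewise_eq_of_mem _ _ _ hws, ← ofReal_norm,
        ENNReal.ofReal_pow (norm_nonneg _)]
    · rw [indicator_of_notMem hw]
      exact zero_le
  have h0 : Filter.Tendsto (fun z => ENNReal.ofReal (‖f z * (z - c)‖ ^ 2 * (Real.pi / 4)))
      (nhdsWithin c {c}ᶜ) (nhds 0) :=
    tendsto_of_tendsto_of_tendsto_of_le_of_le' tendsto_const_nhds hJ
      (Filter.Eventually.of_forall fun _ => zero_le) hest
  have h1 := (ENNReal.tendsto_toReal ENNReal.zero_ne_top).comp h0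
  rw [ENNReal.toReal_zero] at h1
  have h2 : Filter.Tendsto (fun z => ‖f z * (z - c)‖ ^ 2) (nhdsWithin c {c}ᶜ) (nhds 0) := by
    have h3 := h1.mul_const (4 / Real.pi)
    rw [zero_mul] at h3
    refine h3.congr fun z => ?_
    rw [Function.comp_apply, ENNReal.toReal_ofReal (by positivity)]
    field_simp
  have h4 := (Real.continuous_sqrt.tendsto 0).comp h2
  rw [Real.sqrt_zero] at h4
  rw [tendsto_zero_iff_norm_tendsto_zero]
  refine h4.congr fun z => ?_
  rw [Function.comp_apply, Real.sqrt_sq (norm_nonneg _)]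

/-- One singular point. -/
private theorem kcRem_one {s : Set ℂ} {c : ℂ} (hs : IsOpen s) (hc : c ∈ s) {f : ℂ → ℂ}
    (hf : DifferentiableOn ℂ f (s \ {c})) (hL2 : ∫⁻ z in s, ‖f z‖ₑ ^ 2 ≠ ⊤) :
    ∃ a : ℂ, DifferentiableOn ℂ (Function.update f c a) s := by
  refine ⟨_, Complex.differentiableOn_update_limUnder_of_isLittleO (hs.mem_nhds hc) hf ?_⟩
  rw [Asymptotics.isLittleO_iff_tendsto']
  · have h1 := kcRem_tendsto hs hc hf hL2
    have h2 : Filter.Tendsto (fun z => f c * (z - c)) (nhdsWithin c {c}ᶜ) (nhds 0) := by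
      have h3 : Continuous (fun z => f c * (z - c)) := by fun_prop
      have h4 := h3.tendsto c
      rw [sub_self, mul_zero] at h4
      exact h4.mono_left nhdsWithin_le_nhds
    have h5 := h1.sub h2
    rw [sub_zero] at h5
    refine h5.congr fun z => ?_
    rw [div_inv_eq_mul]
    ring
  · filter_upwards [self_mem_nhdsWithin] with z hz h
    exact absurd (sub_eq_zero.1 (inv_eq_zero.1 h)) hz

end Aux

/-- One variable: a square integrable holomorphic function on `U` minus a finite set extends.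
Proof: at a point `c` of `Z` the mean value property on the disc of radius `|z - c| / 2` about `z`
and Cauchy-Schwarz give `|z - c| |f z| ≤ C (∫_{B(z, |z - c| / 2)} |f|²) ^ (1/2) → 0`, so
`Complex.differentiableOn_update_limUnder_of_isLittleO` applies; then glue (`Z` is finite). -/
theorem kc_removable {U Z : Set ℂ} (hU : IsOpen U) (hZ : Z.Finite) {f : ℂ → ℂ}
    (hf : DifferentiableOn ℂ f (U \ Z)) (hL2 : ∫⁻ z in U, ‖f z‖ₑ ^ 2 ≠ ⊤) :
    ∃ g : ℂ → ℂ, DifferentiableOn ℂ g U ∧ Set.EqOn g f (U \ Z) := by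
  induction Z, hZ using Set.Finite.induction_on generalizing f with
  | empty => exact ⟨f, by rwa [Set.diff_empty] at hf, fun _ _ => rfl⟩
  | @insert a S haS hS ih =>
    by_cases haU : a ∈ U
    · have hso : IsOpen (U \ S) := hU.sdiff hS.isClosed
      have hset : U \ insert a S = (U \ S) \ {a} := by
        rw [← Set.union_singleton, Set.diff_diff]
      rw [hset] at hf
      have hL : ∫⁻ z in U \ S, ‖f z‖ₑ ^ 2 ≠ ⊤ :=
        ne_top_of_le_ne_top hL2 (lintegral_mono_set Set.diff_subset)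
      obtain ⟨b, hb⟩ := kcRem_one hso ⟨haU, haS⟩ hf hL
      have hL' : ∫⁻ z in U, ‖Function.update f a b z‖ₑ ^ 2 ≠ ⊤ := by
        have : ∫⁻ z in U, ‖Function.update f a b z‖ₑ ^ 2 = ∫⁻ z in U, ‖f z‖ₑ ^ 2 := by
          refine lintegral_congr_ae ?_
          have h1 : ∀ᵐ z : ℂ ∂(volume.restrict U), z ≠ a :=
            ae_restrict_of_ae (by
              rw [ae_iff]
              simp)
          filter_upwards [h1] with z hz
          rw [Function.update_of_ne hz]
        rwa [this]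
      obtain ⟨g, hg, hge⟩ := ih hb hL'
      refine ⟨g, hg, fun z hz => ?_⟩
      rw [hset] at hz
      rw [hge hz.1, Function.update_of_ne hz.2]
    · have hset : U \ insert a S = U \ S := by
        ext z
        constructor
        · rintro ⟨h1, h2⟩
          exact ⟨h1, fun h => h2 (Set.mem_insert_of_mem a h)⟩
        · rintro ⟨h1, h2⟩
          refine ⟨h1, fun h => ?_⟩
          rcases Set.mem_insert_iff.1 h with h | h
          · exact haU (h ▸ h1)
          · exact h2 h
      rw [hset] at hf ⊢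
      exact ih hf hL2

end Pool.Agent.Lib_KF

end

/-! ### from `Lib_KF.KCPoly` -/

section

/-!
# KC06: holomorphic functions on the polydisc which are homogeneous under the circle action
-/

open MeasureTheory
open scoped ENNReal NNReal

namespace Pool.Agent.Lib_KF

/-- One variable: an entire function of growth `(1 + |t|) ^ w` is a polynomial of degree `≤ w`. -/
private theorem kcPoly_one (w : ℕ) : ∀ (f : ℂ → ℂ), Differentiable ℂ f → ∀ K : ℝ,
    (∀ t, ‖f t‖ ≤ K * (1 + ‖t‖) ^ w) →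
    ∃ p : Polynomial ℂ, p.natDegree ≤ w ∧ ∀ t, f t = p.eval t := by
  induction w with
  | zero =>
    intro f hf K hK
    have hb : Bornology.IsBounded (Set.range f) := by
      rw [isBounded_iff_forall_norm_le]
      refine ⟨K, ?_⟩
      rintro _ ⟨t, rfl⟩
      simpa using hK t
    obtain ⟨c, hc⟩ := hf.exists_const_forall_eq_of_bounded hb
    refine ⟨Polynomial.C c, ?_, fun t => ?_⟩
    · rw [Polynomial.natDegree_C]
    · rw [Polynomial.eval_C, hc]
  | succ w ih =>
    intro f hf K hK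
    have hK0 : 0 ≤ K := by
      have := (norm_nonneg _).trans (hK 0)
      simpa using this
    set g : ℂ → ℂ := dslope f 0 with hg
    have hgd : Differentiable ℂ g := by
      rw [← differentiableOn_univ] at hf ⊢
      exact (Complex.differentiableOn_dslope Filter.univ_mem).2 hf
    have hfg : ∀ t, f t = f 0 + t * g t := by
      intro t
      have h := sub_smul_dslope f 0 t
      rw [sub_zero, smul_eq_mul] at h
      rw [hg, h]
      ring
    obtain ⟨B, hB⟩ := (isCompact_closedBall (0 : ℂ) 1).exists_bound_of_continuousOn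
      hgd.continuous.continuousOn
    have hgrow : ∀ t, ‖g t‖ ≤ max (4 * K) B * (1 + ‖t‖) ^ w := by
      intro t
      have h1w : (1 : ℝ) ≤ (1 + ‖t‖) ^ w := one_le_pow₀ (by linarith [norm_nonneg t])
      rcases le_or_gt ‖t‖ 1 with ht | ht
      · have h1 : ‖g t‖ ≤ B := hB t (by simpa using ht)
        have h2 : B ≤ max (4 * K) B := le_max_right _ _
        have h3 : 0 ≤ max (4 * K) B := le_trans (by positivity) (le_max_left _ _)
        nlinarith
      · have h1 : t * g t = f t - f 0 := by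
          rw [hfg t]
          ring
        have h2 : ‖t‖ * ‖g t‖ ≤ K * (1 + ‖t‖) ^ (w + 1) + K := by
          rw [← norm_mul, h1]
          have h3 : ‖f 0‖ ≤ K := by simpa using hK 0
          exact (norm_sub_le _ _).trans (add_le_add (hK t) h3)
        have h4 : K ≤ K * (1 + ‖t‖) ^ (w + 1) := by
          have : (1 : ℝ) ≤ (1 + ‖t‖) ^ (w + 1) := one_le_pow₀ (by linarith [norm_nonneg t])
          nlinarith
        have h5 : ‖t‖ * ‖g t‖ ≤ ‖t‖ * (4 * K * (1 + ‖t‖) ^ w) := by
          calc ‖t‖ * ‖g t‖ ≤ 2 * (K * (1 + ‖t‖) ^ (w + 1)) := by linarith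
            _ = 2 * K * (1 + ‖t‖) ^ w * (1 + ‖t‖) := by ring
            _ ≤ 2 * K * (1 + ‖t‖) ^ w * (2 * ‖t‖) := by
                apply mul_le_mul_of_nonneg_left _ (by positivity)
                linarith
            _ = ‖t‖ * (4 * K * (1 + ‖t‖) ^ w) := by ring
        have h6 : ‖g t‖ ≤ 4 * K * (1 + ‖t‖) ^ w := le_of_mul_le_mul_left h5 (by linarith)
        exact h6.trans (mul_le_mul_of_nonneg_right (le_max_left _ _) (by positivity))
    obtain ⟨p, hp1, hp2⟩ := ih g hgd _ hgrow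
    refine ⟨Polynomial.C (f 0) + Polynomial.X * p, ?_, fun t => ?_⟩
    · refine (Polynomial.natDegree_add_le _ _).trans (max_le ?_ ?_)
      · rw [Polynomial.natDegree_C]
        omega
      · refine Polynomial.natDegree_mul_le.trans ?_
        have := Polynomial.natDegree_X_le (R := ℂ)
        omega
    · rw [hfg t, Polynomial.eval_add, Polynomial.eval_C, Polynomial.eval_mul, Polynomial.eval_X,
        hp2]

private theorem kcPoly_norm_cons {N : ℕ} (t : ℂ) (z : Fin N → ℂ) :
    ‖(Fin.cons t z : Fin (N + 1) → ℂ)‖ ≤ ‖t‖ + ‖z‖ := by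
  rw [pi_norm_le_iff_of_nonneg (by positivity)]
  intro i
  refine Fin.cases ?_ (fun j => ?_) i
  · rw [Fin.cons_zero]
    linarith [norm_nonneg z]
  · rw [Fin.cons_succ]
    have := norm_le_pi_norm z j
    linarith [norm_nonneg t]

private theorem kcPoly_eval {N : ℕ} (y : Fin (N + 1) → ℂ) (b : Polynomial ℂ) :
    MvPolynomial.eval y (Polynomial.aeval (MvPolynomial.X 0 : MvPolynomial (Fin (N + 1)) ℂ) b) =
      b.eval (y 0) := by
  induction b using Polynomial.induction_on' with
  | add p q hp hq => rw [map_add, map_add, hp, hq, Polynomial.eval_add]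
  | monomial n a =>
    rw [Polynomial.aeval_monomial, map_mul, map_pow, MvPolynomial.eval_X, Polynomial.eval_monomial,
      MvPolynomial.algebraMap_eq, MvPolynomial.eval_C]

/-- An entire function of polynomial growth is a polynomial. Proof: in each variable it is a
polynomial of degree at most `w` (Cauchy estimates / Liouville), so Lagrange interpolation at
`w + 1` points in one variable after the other (induction on `N`) gives a polynomial. -/
theorem kc_poly_growth {N : ℕ} (G : (Fin N → ℂ) → ℂ) (w : ℕ)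
    (hG : ∀ y i, Differentiable ℂ (fun t => G (Function.update y i t))) (C : ℝ)
    (hC : ∀ y, ‖G y‖ ≤ C * (1 + ‖y‖) ^ w) :
    ∃ p : MvPolynomial (Fin N) ℂ, ∀ y, G y = MvPolynomial.eval y p := by
  classical
  induction N generalizing C with
  | zero =>
    refine ⟨MvPolynomial.C (G 0), fun y => ?_⟩
    rw [MvPolynomial.eval_C, Subsingleton.elim y 0]
  | succ N ih =>
    have hC0 : 0 ≤ C := by
      have := (norm_nonneg _).trans (hC 0)
      simpa using this
    have hsub : ∀ (t : ℂ) (z : Fin N → ℂ), ‖G (Fin.cons t z)‖ ≤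
        C * ((1 + ‖t‖) * (1 + ‖z‖)) ^ w := by
      intro t z
      refine (hC _).trans ?_
      apply mul_le_mul_of_nonneg_left _ hC0
      apply pow_le_pow_left₀ (by positivity)
      have h1 := kcPoly_norm_cons t z
      nlinarith [mul_nonneg (norm_nonneg t) (norm_nonneg z)]
    -- polynomials in the first variable
    have hfirst : ∀ z : Fin N → ℂ, ∃ p : Polynomial ℂ, p.natDegree ≤ w ∧
        ∀ t, G (Fin.cons t z) = p.eval t := by
      intro z
      refine kcPoly_one w (fun t => G (Fin.cons t z)) ?_ (C * (1 + ‖z‖) ^ w) ?_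
      · have h := hG (Fin.cons 0 z) 0
        simp only [Fin.update_cons_zero] at h
        exact h
      · intro t
        refine (hsub t z).trans (le_of_eq ?_)
        rw [mul_pow]
        ring
    have hrest : ∀ s : ℂ, ∃ p : MvPolynomial (Fin N) ℂ,
        ∀ z, G (Fin.cons s z) = MvPolynomial.eval z p := by
      intro s
      refine ih (fun z => G (Fin.cons s z)) ?_ (C * (1 + ‖s‖) ^ w) ?_
      · intro z i
        have h := hG (Fin.cons s z) i.succ
        simp only [← Fin.cons_update] at h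
        exact h
      · intro z
        refine (hsub s z).trans (le_of_eq ?_)
        rw [mul_pow]
        ring
    choose q hq using hrest
    let v : ℕ → ℂ := fun j => (j : ℂ)
    have hv : Set.InjOn v (Finset.range (w + 1)) := fun a _ b _ h => Nat.cast_injective h
    refine ⟨∑ j ∈ Finset.range (w + 1), MvPolynomial.rename Fin.succ (q (v j)) *
      Polynomial.aeval (MvPolynomial.X 0) (Lagrange.basis (Finset.range (w + 1)) v j),
      fun y => ?_⟩
    obtain ⟨p, hp1, hp2⟩ := hfirst (Fin.tail y)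
    have hdeg : p.degree < (Finset.range (w + 1)).card := by
      rw [Finset.card_range]
      refine lt_of_le_of_lt Polynomial.degree_le_natDegree ?_
      exact_mod_cast Nat.lt_succ_of_le hp1
    have hL := Lagrange.eq_interpolate hv hdeg
    have h1 : G y = p.eval (y 0) := by
      rw [← hp2, Fin.cons_self_tail]
    rw [h1, hL, Lagrange.interpolate_apply, Polynomial.eval_finsetSum, map_sum]
    refine Finset.sum_congr rfl fun j _ => ?_
    rw [Polynomial.eval_mul, Polynomial.eval_C, map_mul, kcPoly_eval, MvPolynomial.eval_rename,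
      ← hp2, hq]
    rfl

end Pool.Agent.Lib_KF

end

/-! ### from `Lib_KF.KCNonint` -/

section

/-!
# KC17: a pole along `h₁ = 0` is not integrable
-/

open MeasureTheory
open scoped ENNReal NNReal

namespace Pool.Agent.Lib_KF

private theorem kcn_inv_sq_top (c r : ℝ) (hc : 0 < c) (hr : 0 < r) (t₀ : ℂ) :
    ∫⁻ t in Metric.ball t₀ r, ENNReal.ofReal (c * (‖t - t₀‖ ^ 2)⁻¹) = ⊤ := by
  -- disjoint balls in the dyadic annuli
  set A : ℕ → Set ℂ := fun n => Metric.ball (t₀ + ((3 / 4 * (r * (1 / 2) ^ n) : ℝ) : ℂ))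
    (r * (1 / 2) ^ n / 4) with hA
  have hpos : ∀ n : ℕ, 0 < r * (1 / 2) ^ n := fun n => by positivity
  have hbd : ∀ n, ∀ t ∈ A n, r * (1 / 2) ^ n / 2 < ‖t - t₀‖ ∧ ‖t - t₀‖ < r * (1 / 2) ^ n := by
    intro n t ht
    have hd : ‖t - (t₀ + ((3 / 4 * (r * (1 / 2) ^ n) : ℝ) : ℂ))‖ < r * (1 / 2) ^ n / 4 := by
      rw [← dist_eq_norm]
      exact ht
    have hn : ‖(((3 / 4 * (r * (1 / 2) ^ n) : ℝ)) : ℂ)‖ = 3 / 4 * (r * (1 / 2) ^ n) := by
      rw [Complex.norm_real, Real.norm_eq_abs, abs_of_pos]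
      have := hpos n
      positivity
    have h1 : t - t₀ = (t - (t₀ + ((3 / 4 * (r * (1 / 2) ^ n) : ℝ) : ℂ))) +
        ((3 / 4 * (r * (1 / 2) ^ n) : ℝ) : ℂ) := by ring
    constructor
    · have h2 : ‖(((3 / 4 * (r * (1 / 2) ^ n) : ℝ)) : ℂ)‖ ≤ ‖t - t₀‖ +
          ‖t - (t₀ + ((3 / 4 * (r * (1 / 2) ^ n) : ℝ) : ℂ))‖ := by
        have : (((3 / 4 * (r * (1 / 2) ^ n) : ℝ)) : ℂ) = (t - t₀) -
          (t - (t₀ + ((3 / 4 * (r * (1 / 2) ^ n) : ℝ) : ℂ))) := by ring
        calc ‖(((3 / 4 * (r * (1 / 2) ^ n) : ℝ)) : ℂ)‖ = ‖(t - t₀) -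
          (t - (t₀ + ((3 / 4 * (r * (1 / 2) ^ n) : ℝ) : ℂ)))‖ := by rw [← this]
          _ ≤ _ := norm_sub_le _ _
      rw [hn] at h2
      linarith
    · have h2 : ‖t - t₀‖ ≤ ‖t - (t₀ + ((3 / 4 * (r * (1 / 2) ^ n) : ℝ) : ℂ))‖ +
          ‖(((3 / 4 * (r * (1 / 2) ^ n) : ℝ)) : ℂ)‖ := by
        conv_lhs => rw [h1]
        exact norm_add_le _ _
      rw [hn] at h2
      linarith
  have hmono : ∀ m n : ℕ, m < n → r * (1 / 2) ^ n ≤ r * (1 / 2) ^ m / 2 := by
    intro m n hmn
    have : ((1 : ℝ) / 2) ^ n ≤ (1 / 2) ^ (m + 1) :=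
      pow_le_pow_of_le_one (by norm_num) (by norm_num) hmn
    calc r * (1 / 2) ^ n ≤ r * (1 / 2) ^ (m + 1) := by gcongr
      _ = r * (1 / 2) ^ m / 2 := by rw [pow_succ]; ring
  have hdisj : Pairwise (Function.onFun Disjoint A) := by
    intro m n hmn
    rw [Function.onFun, Set.disjoint_left]
    intro t htm htn
    rcases lt_or_gt_of_ne hmn with h | h
    · have := hmono m n h
      have h1 := (hbd m t htm).1
      have h2 := (hbd n t htn).2
      linarith
    · have := hmono n m h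
      have h1 := (hbd n t htn).1
      have h2 := (hbd m t htm).2
      linarith
  have hsub : (⋃ n, A n) ⊆ Metric.ball t₀ r := by
    intro t ht
    obtain ⟨n, hn⟩ := Set.mem_iUnion.1 ht
    rw [Metric.mem_ball, dist_eq_norm]
    refine lt_of_lt_of_le (hbd n t hn).2 ?_
    have : ((1 : ℝ) / 2) ^ n ≤ 1 := pow_le_one₀ (by norm_num) (by norm_num)
    nlinarith
  have hterm : ∀ n, ENNReal.ofReal (c * Real.pi / 16) ≤
      ∫⁻ t in A n, ENNReal.ofReal (c * (‖t - t₀‖ ^ 2)⁻¹) := by
    intro n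
    calc ENNReal.ofReal (c * Real.pi / 16)
        = ENNReal.ofReal (c * ((r * (1 / 2) ^ n) ^ 2)⁻¹) * volume (A n) := by
          rw [hA]
          simp only
          rw [Complex.volume_ball, ← ENNReal.ofReal_pow (by have := hpos n; positivity)]
          have hpi : ((NNReal.pi : ℝ≥0) : ℝ≥0∞) = ENNReal.ofReal Real.pi := by
            rw [← NNReal.coe_real_pi, ENNReal.ofReal_coe_nnreal]
          rw [hpi, ← ENNReal.ofReal_mul (by positivity), ← ENNReal.ofReal_mul (by
            have := hpos n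
            positivity)]
          congr 1
          have h0 : r * (1 / 2) ^ n ≠ 0 := (hpos n).ne'
          field_simp
          try ring
      _ = ∫⁻ t in A n, ENNReal.ofReal (c * ((r * (1 / 2) ^ n) ^ 2)⁻¹) := by
          rw [setLIntegral_const]
      _ ≤ _ := by
          refine setLIntegral_mono' measurableSet_ball ?_
          intro t ht
          refine ENNReal.ofReal_le_ofReal ?_
          have h1 := (hbd n t ht).1
          have h2 := (hbd n t ht).2
          have h3 : 0 < ‖t - t₀‖ := by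
            have := hpos n
            linarith
          have : ((r * (1 / 2) ^ n) ^ 2)⁻¹ ≤ (‖t - t₀‖ ^ 2)⁻¹ := by
            gcongr
          gcongr
  rw [eq_top_iff]
  calc (⊤ : ℝ≥0∞) = ∑' _ : ℕ, ENNReal.ofReal (c * Real.pi / 16) := by
        rw [ENNReal.tsum_const_eq_top_of_ne_zero]
        have : 0 < c * Real.pi / 16 := by positivity
        exact (ENNReal.ofReal_pos.2 this).ne'
    _ ≤ ∑' n, ∫⁻ t in A n, ENNReal.ofReal (c * (‖t - t₀‖ ^ 2)⁻¹) := ENNReal.tsum_le_tsum hterm
    _ = ∫⁻ t in ⋃ n, A n, ENNReal.ofReal (c * (‖t - t₀‖ ^ 2)⁻¹) :=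
        (lintegral_iUnion (fun n => measurableSet_ball) hdisj _).symm
    _ ≤ _ := lintegral_mono_set hsub

private theorem kcn_poly_top (P : Polynomial ℂ) (hP : P ≠ 0) {t₁ : ℂ} (ht₁ : P.eval t₁ = 0)
    (c r : ℝ) (hc : 0 < c) (hr : 0 < r) :
    ∫⁻ t in Metric.ball t₁ r, ENNReal.ofReal (c * (‖P.eval t‖ ^ 2)⁻¹) = ⊤ := by
  obtain ⟨Q, hQ⟩ := Polynomial.dvd_iff_isRoot.2 ht₁
  obtain ⟨L, hL⟩ := (isCompact_closedBall t₁ r).exists_bound_of_continuousOn
    (f := fun t => Q.eval t) Q.continuous.continuousOn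
  have hL' : ∀ t ∈ Metric.ball t₁ r, ‖Q.eval t‖ ≤ max L 1 := fun t ht =>
    (hL t (Metric.ball_subset_closedBall ht)).trans (le_max_left _ _)
  have hM : 0 < max L 1 := lt_of_lt_of_le one_pos (le_max_right _ _)
  rw [eq_top_iff, ← kcn_inv_sq_top (c * ((max L 1) ^ 2)⁻¹) r (by positivity) hr t₁]
  refine lintegral_mono_ae ?_
  have hfin : (P.roots.toFinset : Set ℂ).Finite := Finset.finite_toSet _
  have h0 : volume (P.roots.toFinset : Set ℂ) = 0 := hfin.measure_zero _
  have hae : ∀ᵐ t ∂(volume.restrict (Metric.ball t₁ r)), t ∉ (P.roots.toFinset : Set ℂ) :=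
    ae_restrict_of_ae (measure_eq_zero_iff_ae_notMem.1 h0)
  filter_upwards [hae, ae_restrict_mem measurableSet_ball] with t ht htb
  have hne : P.eval t ≠ 0 := by
    intro h
    apply ht
    simp [hP, h]
  refine ENNReal.ofReal_le_ofReal ?_
  rw [mul_assoc]
  refine mul_le_mul_of_nonneg_left ?_ hc.le
  rw [← mul_inv]
  have hev : P.eval t = (t - t₁) * Q.eval t := by
    conv_lhs => rw [hQ]
    simp
  have h1 : ‖P.eval t‖ ≤ max L 1 * ‖t - t₁‖ := by
    rw [hev, norm_mul, mul_comm]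
    exact mul_le_mul_of_nonneg_right (hL' t htb) (norm_nonneg _)
  have h2 : 0 < ‖P.eval t‖ := norm_pos_iff.2 hne
  rw [← mul_pow]
  gcongr

private theorem kcn_eval_smul {N : ℕ} (p : MvPolynomial (Fin N) ℂ) {w : ℕ}
    (hw : p.IsHomogeneous w) (t : ℂ) (y : Fin N → ℂ) :
    MvPolynomial.eval (t • y) p = t ^ w * MvPolynomial.eval y p := by
  rw [MvPolynomial.eval_eq', MvPolynomial.eval_eq', Finset.mul_sum]
  refine Finset.sum_congr rfl fun d hd => ?_
  have h1 : ∑ i, d i = w := by
    have h3 := hw (MvPolynomial.mem_support_iff.1 hd)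
    rw [Finsupp.weight_apply, Finsupp.sum_fintype _ _ (fun i => by simp)] at h3
    rw [← h3]
    refine Finset.sum_congr rfl fun i _ => ?_
    rw [Pi.one_apply, smul_eq_mul, mul_one]
  have h2 : ∏ i, (t • y) i ^ d i = t ^ w * ∏ i, y i ^ d i := by
    rw [← h1, ← Finset.prod_pow_eq_pow_sum, ← Finset.prod_mul_distrib]
    refine Finset.prod_congr rfl fun i _ => ?_
    rw [Pi.smul_apply, smul_eq_mul, mul_pow]
  rw [h2]
  ring

private theorem kcn_line_eval {N : ℕ} (p : MvPolynomial (Fin N) ℂ) (y v : Fin N → ℂ) (t : ℂ) :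
    (MvPolynomial.aeval (fun i => Polynomial.C (y i) + Polynomial.C (v i) * Polynomial.X) p).eval t
      = MvPolynomial.eval (y + t • v) p := by
  induction p using MvPolynomial.induction_on with
  | C c => simp
  | add p q hp hq => simp [hp, hq]
  | mul_X p i hp =>
    rw [map_mul, Polynomial.eval_mul, hp, map_mul, MvPolynomial.aeval_X, MvPolynomial.eval_X,
      Polynomial.eval_add, Polynomial.eval_mul, Polynomial.eval_C, Polynomial.eval_C,
      Polynomial.eval_X, Pi.add_apply, Pi.smul_apply, smul_eq_mul, mul_comm (v i) t]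

private theorem kcn_exists_point {N : ℕ} (h₁ a b : MvPolynomial (Fin N) ℂ) (hirr : Irreducible h₁)
    {w : ℕ} (hw : h₁.IsHomogeneous w) (ha : ¬ h₁ ∣ a) (hb : ¬ h₁ ∣ b) :
    ∃ y₀ ∈ Metric.ball (0 : Fin N → ℂ) 1, MvPolynomial.eval y₀ h₁ = 0 ∧
      MvPolynomial.eval y₀ a ≠ 0 ∧ MvPolynomial.eval y₀ b ≠ 0 := by
  have hprime : Prime h₁ := hirr.prime
  have hI : (Ideal.span {h₁}).IsPrime := (Ideal.span_singleton_prime hprime.ne_zero).2 hprime
  have hab : ¬ h₁ ∣ a * b := fun h => (hprime.dvd_or_dvd h).elim ha hb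
  have h1 : a * b ∉ MvPolynomial.vanishingIdeal ℂ
      (MvPolynomial.zeroLocus ℂ (Ideal.span {h₁})) := by
    rw [MvPolynomial.IsPrime.vanishingIdeal_zeroLocus]
    rw [Ideal.mem_span_singleton]
    exact hab
  rw [MvPolynomial.mem_vanishingIdeal_iff] at h1
  push Not at h1
  obtain ⟨y₁, hy₁, hab₁⟩ := h1
  have hh : MvPolynomial.eval y₁ h₁ = 0 := by
    have := hy₁ h₁ (Ideal.mem_span_singleton_self h₁)
    simpa [MvPolynomial.aeval_eq_eval] using this
  have hab₂ : MvPolynomial.eval y₁ (a * b) ≠ 0 := by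
    simpa [MvPolynomial.aeval_eq_eval] using hab₁
  set Q := MvPolynomial.aeval (fun i => Polynomial.C ((0 : Fin N → ℂ) i) +
    Polynomial.C (y₁ i) * Polynomial.X) (a * b) with hQ
  have hQev : ∀ t, Q.eval t = MvPolynomial.eval (t • y₁) (a * b) := by
    intro t
    rw [hQ, kcn_line_eval, zero_add]
  have hQ0 : Q ≠ 0 := by
    intro h
    apply hab₂
    have := hQev 1
    rw [h] at this
    simpa using this.symm
  have hfin : (Q.roots.toFinset : Set ℂ).Finite := Finset.finite_toSet _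
  have hnh : {t : ℂ | ‖t‖ * ‖y₁‖ < 1} ∈ nhds (0 : ℂ) := by
    have : IsOpen {t : ℂ | ‖t‖ * ‖y₁‖ < 1} :=
      isOpen_lt (continuous_norm.mul continuous_const) continuous_const
    exact this.mem_nhds (by simp)
  obtain ⟨t, ht, htQ⟩ := ((infinite_of_mem_nhds (0 : ℂ) hnh).sdiff hfin).nonempty
  have hQt : Q.eval t ≠ 0 := by
    intro h
    apply htQ
    simp [hQ0, h]
  rw [hQev, map_mul] at hQt
  refine ⟨t • y₁, ?_, ?_, left_ne_zero_of_mul hQt, right_ne_zero_of_mul hQt⟩
  · rw [mem_ball_zero_iff, norm_smul]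
    exact ht
  · rw [kcn_eval_smul h₁ hw, hh, mul_zero]

/-- A polynomial which does not vanish on a circle and is smaller at the centre has a zero inside. -/
private theorem kcn_exists_zero (P : Polynomial ℂ) {ρ m : ℝ} (hm : 0 < m)
    (hs : ∀ t ∈ Metric.sphere (0 : ℂ) ρ, m ≤ ‖P.eval t‖) (h0 : ‖P.eval 0‖ < m) (hρ : 0 < ρ) :
    ∃ t ∈ Metric.closedBall (0 : ℂ) ρ, P.eval t = 0 := by
  by_contra hcon
  push Not at hcon
  have hd : DiffContOnCl ℂ (fun t => (P.eval t)⁻¹) (Metric.ball (0 : ℂ) ρ) := by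
    apply DifferentiableOn.diffContOnCl
    rw [closure_ball _ hρ.ne']
    exact P.differentiable.differentiableOn.inv hcon
  have := Complex.norm_le_of_forall_mem_frontier_norm_le (f := fun t => (P.eval t)⁻¹)
    Metric.isBounded_ball hd (C := m⁻¹) (z := 0) (by
      intro z hz
      rw [frontier_ball _ hρ.ne'] at hz
      rw [norm_inv]
      exact inv_anti₀ hm (hs z hz)) (subset_closure (Metric.mem_ball_self hρ))
  rw [norm_inv] at this
  have hne : 0 < ‖P.eval 0‖ := norm_pos_iff.2 (hcon 0 (Metric.mem_closedBall_self hρ.le))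
  have := (inv_le_inv₀ hne hm).1 this
  linarith

/-- Proof. Some `y₁` has `h₁ (y₁) = 0`, `a b (y₁) ≠ 0` (Nullstellensatz, `(h₁)` is prime); by
homogeneity of `h₁` some `y₀ = t y₁` in the polydisc has the same property. Choose a direction `v` with
`τ ↦ h₁ (y₀ + τ v)` not identically zero and a small `ρ` with `h₁ (y₀ + τ v) ≠ 0` for `|τ| = ρ`. For
small `z` in a complement of `ℂ v` the function `τ ↦ h₁ (y₀ + τ v + z)` has a zero `τ (z)` with
`|τ (z)| < ρ` (otherwise its inverse is holomorphic on the disc, and the maximum principle bounds `1 / |h₁ (y₀ + z)|`,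
which tends to infinity). So `|h₁ (y₀ + τ v + z)| ≤ C |τ - τ (z)|`, the integrand is at least
`c |τ - τ (z)| ^ (- s j) ≥ c' |τ - τ (z)| ^ (- 2)` on a small disc, whose integral over `τ` is infinite for every `z`. Fubini. -/
theorem kc_nonint {N : ℕ} (h₁ a b : MvPolynomial (Fin N) ℂ) (hirr : Irreducible h₁)
    {w : ℕ} (hw : h₁.IsHomogeneous w) (ha : ¬ h₁ ∣ a) (hb : ¬ h₁ ∣ b) (j : ℕ) (s : ℝ)
    (hs : 0 < s) (hsj : 2 ≤ s * j) :
    ∫⁻ y in Metric.ball (0 : Fin N → ℂ) 1, ENNReal.ofReal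
      ((‖MvPolynomial.eval y a‖ / (‖MvPolynomial.eval y b‖ * ‖MvPolynomial.eval y h₁‖ ^ j)) ^ s)
      = ⊤ := by
  classical
  obtain ⟨y₀, hy₀, hy₀h, hy₀a, hy₀b⟩ := kcn_exists_point h₁ a b hirr hw ha hb
  set F : (Fin N → ℂ) → ℝ≥0∞ := fun y => ENNReal.ofReal
      ((‖MvPolynomial.eval y a‖ / (‖MvPolynomial.eval y b‖ * ‖MvPolynomial.eval y h₁‖ ^ j)) ^ s)
    with hF
  have hca : Continuous fun y : Fin N → ℂ => MvPolynomial.eval y a := MvPolynomial.continuous_eval a
  have hcb : Continuous fun y : Fin N → ℂ => MvPolynomial.eval y b := MvPolynomial.continuous_eval b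
  have hch : Continuous fun y : Fin N → ℂ => MvPolynomial.eval y h₁ :=
    MvPolynomial.continuous_eval h₁
  have hFm : Measurable F := by
    refine ENNReal.measurable_ofReal.comp ?_
    refine Measurable.pow_const ?_ s
    exact hca.norm.measurable.div (hcb.norm.measurable.mul (hch.norm.measurable.pow_const j))
  -- the good neighbourhood of `y₀`
  set c₁ : ℝ := ‖MvPolynomial.eval y₀ a‖ / 2 with hc₁
  set C₂ : ℝ := ‖MvPolynomial.eval y₀ b‖ + 1 with hC₂
  have hc₁pos : 0 < c₁ := by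
    have := norm_pos_iff.2 hy₀a
    positivity
  have hC₂pos : 0 < C₂ := by positivity
  have hev : ∀ᶠ x in nhds y₀, x ∈ Metric.ball (0 : Fin N → ℂ) 1 ∧
      c₁ ≤ ‖MvPolynomial.eval x a‖ ∧ MvPolynomial.eval x b ≠ 0 ∧ ‖MvPolynomial.eval x b‖ ≤ C₂ ∧
      ‖MvPolynomial.eval x h₁‖ ≤ 1 := by
    have e1 : ∀ᶠ x in nhds y₀, x ∈ Metric.ball (0 : Fin N → ℂ) 1 :=
      Metric.isOpen_ball.mem_nhds hy₀
    have e2 : ∀ᶠ x in nhds y₀, c₁ < ‖MvPolynomial.eval x a‖ :=
      hca.norm.continuousAt.eventually (lt_mem_nhds (by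
        have := norm_pos_iff.2 hy₀a
        rw [hc₁]
        linarith))
    have e3 : ∀ᶠ x in nhds y₀, MvPolynomial.eval x b ≠ 0 :=
      hcb.continuousAt.eventually_ne hy₀b
    have e4 : ∀ᶠ x in nhds y₀, ‖MvPolynomial.eval x b‖ < C₂ :=
      hcb.norm.continuousAt.eventually (gt_mem_nhds (by
        rw [hC₂]
        linarith))
    have e5 : ∀ᶠ x in nhds y₀, ‖MvPolynomial.eval x h₁‖ < 1 :=
      hch.norm.continuousAt.eventually (gt_mem_nhds (by
        simp only
        rw [hy₀h]
        simp))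
    filter_upwards [e1, e2, e3, e4, e5] with x x1 x2 x3 x4 x5
    exact ⟨x1, x2.le, x3, x4.le, x5.le⟩
  obtain ⟨r₀, hr₀, hball⟩ := Metric.eventually_nhds_iff_ball.1 hev
  set c₃ : ℝ := (c₁ / C₂) ^ s with hc₃
  have hc₃pos : 0 < c₃ := Real.rpow_pos_of_pos (div_pos hc₁pos hC₂pos) s
  have hFlow : ∀ x ∈ Metric.ball y₀ r₀,
      ENNReal.ofReal (c₃ * (‖MvPolynomial.eval x h₁‖ ^ 2)⁻¹) ≤ F x := by
    intro x hx
    obtain ⟨-, x2, x3, x4, x5⟩ := hball x hx
    refine ENNReal.ofReal_le_ofReal ?_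
    by_cases h0 : MvPolynomial.eval x h₁ = 0
    · rw [h0]
      simp only [norm_zero, ne_eq, OfNat.ofNat_ne_zero, not_false_eq_true, zero_pow, inv_zero,
        mul_zero]
      positivity
    · have hpos : 0 < ‖MvPolynomial.eval x h₁‖ := norm_pos_iff.2 h0
      have hbpos : 0 < ‖MvPolynomial.eval x b‖ := norm_pos_iff.2 x3
      have h1 : c₁ / C₂ * (‖MvPolynomial.eval x h₁‖ ^ j)⁻¹ ≤ ‖MvPolynomial.eval x a‖ /
          (‖MvPolynomial.eval x b‖ * ‖MvPolynomial.eval x h₁‖ ^ j) := by
        rw [← div_div, ← div_eq_mul_inv]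
        gcongr
      have h2 : (c₁ / C₂ * (‖MvPolynomial.eval x h₁‖ ^ j)⁻¹) ^ s ≤ (‖MvPolynomial.eval x a‖ /
          (‖MvPolynomial.eval x b‖ * ‖MvPolynomial.eval x h₁‖ ^ j)) ^ s :=
        Real.rpow_le_rpow (by positivity) h1 hs.le
      refine le_trans ?_ h2
      rw [Real.mul_rpow (by positivity) (by positivity)]
      refine mul_le_mul_of_nonneg_left ?_ hc₃pos.le
      rw [Real.inv_rpow (by positivity)]
      refine inv_anti₀ (by positivity) ?_
      rw [← Real.rpow_natCast (‖MvPolynomial.eval x h₁‖) j, ← Real.rpow_mul hpos.le,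
        ← Real.rpow_natCast (‖MvPolynomial.eval x h₁‖) 2]
      refine Real.rpow_le_rpow_of_exponent_ge hpos x5 ?_
      push_cast
      linarith [mul_comm s (j : ℝ)]
  -- the direction
  obtain ⟨v₁, hv₁⟩ : ∃ v₁, MvPolynomial.eval v₁ h₁ ≠ 0 := by
    by_contra hcon
    push Not at hcon
    exact hirr.ne_zero (MvPolynomial.funext fun x => by rw [hcon x, map_zero])
  set v := v₁ - y₀ with hv
  set L : (Fin N → ℂ) → Polynomial ℂ := fun y =>
    MvPolynomial.aeval (fun i => Polynomial.C (y i) + Polynomial.C (v i) * Polynomial.X) h₁ with hL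
  have hLev : ∀ y t, (L y).eval t = MvPolynomial.eval (y + t • v) h₁ := fun y t =>
    kcn_line_eval h₁ y v t
  have hL0 : L y₀ ≠ 0 := by
    intro h
    apply hv₁
    have := hLev y₀ 1
    rw [h] at this
    simpa [hv] using this.symm
  -- the radius
  obtain ⟨ρ, ⟨hρ0, hρ1⟩, hρ2⟩ : ∃ ρ ∈ Set.Ioo (0 : ℝ) (r₀ / (4 * (‖v‖ + 1))),
      ρ ∉ ((fun t : ℂ => ‖t‖) '' ((L y₀).roots.toFinset : Set ℂ)) := by
    have hfin : ((fun t : ℂ => ‖t‖) '' ((L y₀).roots.toFinset : Set ℂ)).Finite :=
      (Finset.finite_toSet _).image _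
    have hinf : (Set.Ioo (0 : ℝ) (r₀ / (4 * (‖v‖ + 1)))).Infinite :=
      Set.Ioo_infinite (by positivity)
    obtain ⟨ρ, h1, h2⟩ := (hinf.sdiff hfin).nonempty
    exact ⟨ρ, h1, h2⟩
  have hρv : 2 * ρ * ‖v‖ ≤ r₀ / 2 := by
    have h1 : ρ * (4 * (‖v‖ + 1)) < r₀ := by
      rwa [lt_div_iff₀ (by positivity)] at hρ1
    nlinarith [norm_nonneg v]
  have hsph : ∀ t ∈ Metric.sphere (0 : ℂ) ρ, (L y₀).eval t ≠ 0 := by
    intro t ht h
    apply hρ2
    refine ⟨t, ?_, by simpa using ht⟩
    simp [hL0, h]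
  obtain ⟨m, hm, hmin⟩ : ∃ m : ℝ, 0 < m ∧ ∀ t ∈ Metric.sphere (0 : ℂ) ρ,
      m < ‖MvPolynomial.eval (y₀ + t • v) h₁‖ := by
    have hne : (Metric.sphere (0 : ℂ) ρ).Nonempty := ⟨(ρ : ℂ), by simp [abs_of_pos hρ0]⟩
    obtain ⟨t₀, ht₀, hmin⟩ := (isCompact_sphere (0 : ℂ) ρ).exists_isMinOn hne
      (f := fun t => ‖(L y₀).eval t‖) (L y₀).continuous.norm.continuousOn
    have hp : 0 < ‖(L y₀).eval t₀‖ := norm_pos_iff.2 (hsph t₀ ht₀)
    refine ⟨‖(L y₀).eval t₀‖ / 2, by positivity, fun t ht => ?_⟩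
    have := hmin ht
    rw [← hLev]
    simp only [Set.mem_ofPred_eq] at this
    linarith
  have hcont2 : Continuous fun z : (Fin N → ℂ) × ℂ => ‖MvPolynomial.eval (z.1 + z.2 • v) h₁‖ :=
    (hch.comp (continuous_fst.add (continuous_snd.smul continuous_const))).norm
  have hevs : ∀ᶠ y in nhds y₀, ∀ t ∈ Metric.sphere (0 : ℂ) ρ,
      m < ‖MvPolynomial.eval (y + t • v) h₁‖ := by
    refine IsCompact.eventually_forall_of_forall_eventually (isCompact_sphere (0 : ℂ) ρ) ?_
    intro t ht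
    exact hcont2.continuousAt.eventually (lt_mem_nhds (hmin t ht))
  have hev0 : ∀ᶠ y in nhds y₀, ‖MvPolynomial.eval y h₁‖ < m :=
    hch.norm.continuousAt.eventually (gt_mem_nhds (by
      simp only
      rw [hy₀h]
      simpa using hm))
  obtain ⟨δ₁, hδ₁, hδb⟩ := Metric.eventually_nhds_iff_ball.1 (hevs.and hev0)
  set δ := min δ₁ (r₀ / 2) with hδ
  have hδpos : 0 < δ := lt_min hδ₁ (by positivity)
  have hin : ∀ y ∈ Metric.ball y₀ δ, ∀ t ∈ Metric.ball (0 : ℂ) (2 * ρ),
      y + t • v ∈ Metric.ball y₀ r₀ := by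
    intro y hy t ht
    rw [Metric.mem_ball, dist_eq_norm] at hy ⊢
    rw [mem_ball_zero_iff] at ht
    have h1 : ‖t • v‖ ≤ 2 * ρ * ‖v‖ := by
      rw [norm_smul]
      gcongr
    have h2 : y + t • v - y₀ = (y - y₀) + t • v := by abel
    rw [h2]
    calc ‖(y - y₀) + t • v‖ ≤ ‖y - y₀‖ + ‖t • v‖ := norm_add_le _ _
      _ < δ + r₀ / 2 := by linarith
      _ ≤ r₀ := by
        have := min_le_right δ₁ (r₀ / 2)
        linarith
  -- the inner integral is infinite
  have hinner : ∀ y ∈ Metric.ball y₀ δ,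
      ∫⁻ t in Metric.ball (0 : ℂ) (2 * ρ), F (y + t • v) = ⊤ := by
    intro y hy
    obtain ⟨h1, h2⟩ := hδb y (Metric.ball_subset_ball (min_le_left _ _) hy)
    obtain ⟨t₁, ht₁, hz⟩ := kcn_exists_zero (L y) hm (fun t ht => by
      rw [hLev]
      exact (h1 t ht).le) (by
      rw [hLev]
      simpa using h2) hρ0
    have hLy : L y ≠ 0 := by
      intro h
      have h3 := h1 (ρ : ℂ) (by simp [abs_of_pos hρ0])
      rw [← hLev, h] at h3
      simp only [Polynomial.eval_zero, norm_zero] at h3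
      linarith
    have hsub : Metric.ball t₁ ρ ⊆ Metric.ball (0 : ℂ) (2 * ρ) := by
      refine Metric.ball_subset_ball' ?_
      rw [Metric.mem_closedBall] at ht₁
      linarith
    rw [eq_top_iff, ← kcn_poly_top (L y) hLy hz c₃ ρ hc₃pos hρ0]
    refine le_trans ?_ (lintegral_mono_set hsub)
    refine setLIntegral_mono' measurableSet_ball fun t ht => ?_
    rw [hLev]
    exact hFlow _ (hin y hy t (hsub ht))
  -- Fubini
  by_contra hcon
  have hlt : ∫⁻ y in Metric.ball (0 : Fin N → ℂ) 1, F y < ⊤ := lt_top_iff_ne_top.2 hcon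
  have hshift : ∀ t ∈ Metric.ball (0 : ℂ) (2 * ρ),
      ∫⁻ y in Metric.ball y₀ δ, F (y + t • v) ≤ ∫⁻ y in Metric.ball (0 : Fin N → ℂ) 1, F y := by
    intro t ht
    rw [← lintegral_indicator measurableSet_ball, ← lintegral_indicator measurableSet_ball,
      ← lintegral_add_right_eq_self (μ := volume)
        ((Metric.ball (0 : Fin N → ℂ) 1).indicator F) (t • v)]
    refine lintegral_mono fun y => ?_
    by_cases hy : y ∈ Metric.ball y₀ δ
    · rw [Set.indicator_of_mem hy]
      have hx := (hball _ (hin y hy t ht)).1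
      rw [Set.indicator_of_mem hx]
    · rw [Set.indicator_of_notMem hy]
      exact zero_le
  have hmeas : Measurable fun z : (Fin N → ℂ) × ℂ => F (z.1 + z.2 • v) :=
    hFm.comp (continuous_fst.add (continuous_snd.smul continuous_const)).measurable
  have hswap : ∫⁻ y in Metric.ball y₀ δ, ∫⁻ t in Metric.ball (0 : ℂ) (2 * ρ), F (y + t • v)
      = ∫⁻ t in Metric.ball (0 : ℂ) (2 * ρ), ∫⁻ y in Metric.ball y₀ δ, F (y + t • v) :=
    lintegral_lintegral_swap hmeas.aemeasurable
  have htop : ∫⁻ y in Metric.ball y₀ δ, ∫⁻ t in Metric.ball (0 : ℂ) (2 * ρ), F (y + t • v) = ⊤ := by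
    rw [setLIntegral_congr_fun measurableSet_ball (g := fun _ => (⊤ : ℝ≥0∞)) hinner,
      setLIntegral_const, ENNReal.top_mul]
    exact (Metric.measure_ball_pos volume y₀ hδpos).ne'
  have hle : ∫⁻ t in Metric.ball (0 : ℂ) (2 * ρ), ∫⁻ y in Metric.ball y₀ δ, F (y + t • v)
      ≤ (∫⁻ y in Metric.ball (0 : Fin N → ℂ) 1, F y) * volume (Metric.ball (0 : ℂ) (2 * ρ)) := by
    rw [← setLIntegral_const]
    exact setLIntegral_mono' measurableSet_ball hshift
  rw [← hswap, htop, top_le_iff] at hle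
  exact (ENNReal.mul_lt_top hlt measure_ball_lt_top).ne hle

end Pool.Agent.Lib_KF

end
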