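import Mathlib
import Pool.Agent.Lib_MP_e0d435_m.G02
import Pool.Agent.Lib_MP_e0d435_m.G03
import Pool.Agent.Lib_MP_e0d435_m.G04

/-!
# MP_e0d435_ag: merged library part G07

Concatenation of library files (each in its own section), only to save build time.
-/

/-! ### from `Lib_KF.ChNorm` -/

section

/-! CH10: normalisation of an arc on the cone. -/

open PowerSeries

namespace Pool.Agent.Lib_KF

open Pool.Agent.Lib_GD

variable {R : Type} [CommRing R] [Algebra ℂ R] {𝒜 : ℕ → Submodule ℂ R} [GradedAlgebra 𝒜]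
  {n r d : ℕ} {x : Fin (n + 1) → R} {G : R}

/-- A homogeneous polynomial at a multiple of a point. -/
private theorem ChNorm_hom {S : Type} [CommRing S] [Algebra ℂ S] {σ : Type} [Fintype σ]
    {p : MvPolynomial σ ℂ} {k : ℕ} (hp : p.IsHomogeneous k) (η : S) (y : σ → S) :
    MvPolynomial.aeval (fun b => η * y b) p = η ^ k * MvPolynomial.aeval y p := by
  rw [MvPolynomial.aeval_def, MvPolynomial.eval₂_eq', MvPolynomial.aeval_def,
    MvPolynomial.eval₂_eq', Finset.mul_sum]
  refine Finset.sum_congr rfl fun m hm => ?_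
  have h1 : ∑ b, m b = k := by
    have h2 := hp (MvPolynomial.mem_support_iff.1 hm)
    rw [← h2, Finsupp.weight_apply, Finsupp.sum_fintype _ _ (by simp)]
    simp
  have h3 : ∏ b, (η * y b) ^ m b = η ^ k * ∏ b, y b ^ m b := by
    rw [← h1, ← Finset.prod_pow_eq_pow_sum, ← Finset.prod_mul_distrib]
    exact Finset.prod_congr rfl fun b _ => mul_pow _ _ _
  rw [h3]
  ring

/-- Dehomogenisation is injective on homogeneous polynomials. -/
private theorem ChNorm_dehom {n : ℕ} (a : Fin (n + 1)) {p : MvPolynomial (Fin (n + 1)) ℂ} {k : ℕ}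
    (hp : p.IsHomogeneous k)
    (h0 : MvPolynomial.aeval (a.insertNth (α := fun _ => MvPolynomial (Fin n) ℂ) 1
      MvPolynomial.X) p = 0) : p = 0 := by
  have key : MvPolynomial.X a * p = 0 := by
    apply MvPolynomial.funext
    intro z
    rw [map_mul, map_zero, MvPolynomial.eval_X]
    by_cases hz : z a = 0
    · rw [hz, zero_mul]
    · have h1 : (fun b => z a * (z b / z a)) = z := by
        funext b
        field_simp
      have h2 := ChNorm_hom hp (z a) (fun b => z b / z a)
      rw [h1] at h2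
      have h3 : MvPolynomial.aeval (fun b => z b / z a) p = 0 := by
        have h4 : (MvPolynomial.aeval (R := ℂ) (fun l : Fin n => z (a.succAbove l) / z a)).comp
            (MvPolynomial.aeval (a.insertNth (α := fun _ => MvPolynomial (Fin n) ℂ) 1
              MvPolynomial.X)) = MvPolynomial.aeval (fun b => z b / z a) := by
          apply MvPolynomial.algHom_ext
          intro b
          refine a.succAboveCases ?_ (fun l => ?_) b
          · simp [hz]
          · simp
        rw [← h4, AlgHom.comp_apply, h0, map_zero]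
      rw [h3, mul_zero] at h2
      have h5 : MvPolynomial.eval z p = 0 := by
        rw [← MvPolynomial.aeval_eq_eval]
        exact h2
      rw [h5, mul_zero]
  rcases mul_eq_zero.1 key with h | h
  · exact absurd h (MvPolynomial.X_ne_zero a)
  · exact h

/-- A non-zero homogeneous polynomial does not vanish at `ỹ`. -/
private theorem ChNorm_ne {n : ℕ} (a : Fin (n + 1)) {S : Type} [CommRing S] [Algebra ℂ S]
    {y : Fin n → S} (hy : AlgebraicIndependent ℂ y) {p : MvPolynomial (Fin (n + 1)) ℂ} {k : ℕ}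
    (hp : p.IsHomogeneous k) (h0 : p ≠ 0) :
    MvPolynomial.aeval (a.insertNth (α := fun _ => S) 1 y) p ≠ 0 := by
  intro h
  apply h0
  apply ChNorm_dehom a hp
  have h4 : (MvPolynomial.aeval (R := ℂ) y).comp
      (MvPolynomial.aeval (a.insertNth (α := fun _ => MvPolynomial (Fin n) ℂ) 1
        MvPolynomial.X)) = MvPolynomial.aeval (a.insertNth (α := fun _ => S) 1 y) := by
    apply MvPolynomial.algHom_ext
    intro b
    refine a.succAboveCases ?_ (fun l => ?_) b
    · simp
    · simp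
  rw [← h4, AlgHom.comp_apply] at h
  exact (injective_iff_map_eq_zero _).1 hy _ h

/-- A non-zero element of `R` divides a non-zero polynomial in the `x_b`. -/
private theorem ChNorm_mult (h : IsFano 𝒜 n r d x G) {g : R} (hg : g ≠ 0) :
    ∃ p : MvPolynomial (Fin (n + 1)) ℂ, p ≠ 0 ∧ g ∣ MvPolynomial.aeval x p := by
  haveI := h.domain
  haveI := h.x_finite
  have h1 := Ideal.comap_ne_bot_of_integral_mem (R := Algebra.adjoin ℂ (Set.range x)) hg
    (Ideal.mem_span_singleton_self g)
    (Algebra.IsIntegral.isIntegral (R := Algebra.adjoin ℂ (Set.range x)) g)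
  obtain ⟨c, hc, hc0⟩ := Submodule.exists_mem_ne_zero_of_ne_bot h1
  obtain ⟨c, hcm⟩ := c
  rw [Ideal.mem_comap, Ideal.mem_span_singleton] at hc
  have hcm' := hcm
  rw [Algebra.adjoin_range_eq_range_aeval] at hcm'
  obtain ⟨p, hp⟩ := hcm'
  refine ⟨p, ?_, ?_⟩
  · rintro rfl
    apply hc0
    rw [map_zero] at hp
    exact Subtype.ext hp.symm
  · have h2 : MvPolynomial.aeval x p = c := hp
    rw [h2]
    exact hc

/-- A polynomial at a multiple of a point. -/
private theorem ChNorm_sum {S : Type} [CommRing S] [Algebra ℂ S] {σ : Type} [Fintype σ]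
    (p : MvPolynomial σ ℂ) (η : S) (y : σ → S) :
    MvPolynomial.aeval (fun b => η * y b) p = ∑ k ∈ Finset.range (p.totalDegree + 1),
      η ^ k * MvPolynomial.aeval y (MvPolynomial.homogeneousComponent k p) := by
  conv_lhs => rw [← MvPolynomial.sum_homogeneousComponent p]
  rw [map_sum]
  exact Finset.sum_congr rfl fun k _ =>
    ChNorm_hom (MvPolynomial.homogeneousComponent_isHomogeneous k p) η y

/-- A non-zero polynomial has a non-zero homogeneous component. -/
private theorem ChNorm_comp {σ : Type} {p : MvPolynomial σ ℂ} (hp : p ≠ 0) :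
    ∃ k ∈ Finset.range (p.totalDegree + 1), MvPolynomial.homogeneousComponent k p ≠ 0 := by
  by_contra hcon
  push Not at hcon
  apply hp
  rw [← MvPolynomial.sum_homogeneousComponent p]
  exact Finset.sum_eq_zero hcon

/-- The values at `x_b` in terms of the affine coordinates. -/
private theorem ChNorm_x {S : Type} [CommRing S] (v : Fin (n + 1) → S) (a : Fin (n + 1)) (η' : S)
    (ha : v a * η' = 1) (b : Fin (n + 1)) :
    v b = v a * a.insertNth (α := fun _ => S) 1 (fun l => v (a.succAbove l) * η') b := by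
  refine a.succAboveCases ?_ (fun l => ?_) b
  · simp
  · rw [Fin.insertNth_apply_succAbove]
    calc v (a.succAbove l) = v (a.succAbove l) * (v a * η') := by rw [ha, mul_one]
      _ = _ := by ring

/-- CH10a. Scaling: for `t` in a commutative `ℂ`-algebra `S` and `φ : R → S` there is
`f ↦ ∑ t ^ j φ(f_j)`, `f_j` the components of `f`. -/
theorem exists_scale {S : Type} [CommRing S] [Algebra ℂ S] (φ : R →ₐ[ℂ] S) (t : S) :
    ∃ ψ : R →ₐ[ℂ] S, ∀ j, ∀ f ∈ 𝒜 j, ψ f = t ^ j * φ f := by
  let F : ∀ i, 𝒜 i →ₗ[ℂ] S := fun i =>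
    (LinearMap.mulLeft ℂ (t ^ i)).comp (φ.toLinearMap.comp (𝒜 i).subtype)
  have hF : ∀ i (f : 𝒜 i), F i f = t ^ i * φ f := fun i f => rfl
  refine ⟨(DirectSum.toAlgebra ℂ (fun i => 𝒜 i) F ?_ ?_).comp
    (DirectSum.decomposeAlgEquiv 𝒜).toAlgHom, fun j f hf => ?_⟩
  · rw [hF]
    simp
  · intro i j ai aj
    rw [hF, hF, hF]
    simp [pow_add]
    ring
  · rw [AlgHom.comp_apply]
    have h1 : (DirectSum.decomposeAlgEquiv 𝒜).toAlgHom f = DirectSum.of (fun i => 𝒜 i) j ⟨f, hf⟩ :=
      DirectSum.decompose_of_mem 𝒜 hf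
    rw [h1, DirectSum.toAlgebra_apply, DirectSum.toSemiring_of]
    exact hF j ⟨f, hf⟩

/-- CH10b. Normalisation of an arc: apply `h.line` to the kernel of the constant coefficient of
`φ` (`x a` is not in it) to get `f₀ ∈ 𝒜 k₀`, `f₁ ∈ 𝒜 (k₀ + 1)` with `φ f₀`, `φ f₁` units, and scale
by `ω = φ f₀ / φ f₁`. -/
theorem exists_normalised (h : IsFano 𝒜 n r d x G) {L : Type} [Field L] [Algebra ℂ L]
    (φ : R →ₐ[ℂ] L⟦X⟧) (a : Fin (n + 1)) (ha : IsUnit (φ (x a))) :
    ∃ (k₀ : ℕ) (f₀ f₁ : R) (ω : L⟦X⟧) (φ₀ : R →ₐ[ℂ] L⟦X⟧), IsUnit ω ∧ f₀ ∈ 𝒜 k₀ ∧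
      f₁ ∈ 𝒜 (k₀ + 1) ∧ (∀ j, ∀ f ∈ 𝒜 j, φ₀ f = ω ^ j * φ f) ∧ φ₀ f₀ = φ₀ f₁ ∧
      IsUnit (φ₀ f₀) := by
  let q : R →+* L := (PowerSeries.constantCoeff (R := L)).comp φ.toRingHom
  have hq : ∀ f, f ∉ RingHom.ker q → IsUnit (φ f) := by
    intro f hf
    rw [PowerSeries.isUnit_iff_constantCoeff, isUnit_iff_ne_zero]
    exact fun h0 => hf ((RingHom.mem_ker).2 h0)
  obtain ⟨k₀, f₀, hf₀, f₁, hf₁, h0, h1⟩ := h.line (RingHom.ker q) (RingHom.ker_isPrime q)
    ⟨d, h.d_pos, x a, h.x_mem a, fun hk => by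
      have h2 := PowerSeries.isUnit_iff_constantCoeff.1 ha
      exact h2.ne_zero ((RingHom.mem_ker).1 hk)⟩
  have hu0 := hq f₀ h0
  have hu1 := hq f₁ h1
  obtain ⟨u0, hu0⟩ := hu0
  obtain ⟨u1, hu1⟩ := hu1
  obtain ⟨φ₀, hφ₀⟩ := exists_scale (𝒜 := 𝒜) φ ((u0 * u1⁻¹ : (L⟦X⟧)ˣ) : L⟦X⟧)
  refine ⟨k₀, f₀, f₁, _, φ₀, (u0 * u1⁻¹).isUnit, hf₀, hf₁, hφ₀, ?_, ?_⟩
  · rw [hφ₀ _ _ hf₀, hφ₀ _ _ hf₁, pow_succ, ← hu0, ← hu1, mul_assoc]
    congr 1
    rw [← Units.val_mul]
    congr 1
    rw [inv_mul_cancel_right]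
  · rw [hφ₀ _ _ hf₀, ← hu0]
    exact ((u0 * u1⁻¹).isUnit.pow k₀).mul u0.isUnit

/-- CH10c. If `φ₀ f₀ = φ₀ f₁` with `f₀`, `f₁` of degrees `k₀`, `k₀ + 1`, not zero, and the
`y_l = φ₀ (x_{a.succAbove l}) / φ₀ (x_a)` are algebraically independent over `ℂ`, then all elements
of `φ₀ R` are algebraic over `ℂ[y]`. The non-zero element `f₁ - f₀` of `R` is integral over
`ℂ[x_0, …, x_n]`, so (constant coefficient of a minimal integral equation, `R` a domain) it divides
some `P(x_0, …, x_n) ≠ 0`, and `P(φ₀ x) = 0`. With `η = φ₀ (x_a)`, `0 = ∑_j η ^ j P_j(ỹ)`, `P_j`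
the homogeneous components, `ỹ_a = 1`, `ỹ_{a.succAbove l} = y_l`; some `P_j(ỹ) ≠ 0`. So `η` is
algebraic over `ℂ[y]`, hence all `φ₀ (x_b)`, and `R` is integral over `ℂ[x]`. -/
theorem isAlgebraic_of_normalised (h : IsFano 𝒜 n r d x G) {L : Type} [Field L] [Algebra ℂ L]
    (φ₀ : R →ₐ[ℂ] L⟦X⟧) (a : Fin (n + 1)) (η' : L⟦X⟧) (ha : φ₀ (x a) * η' = 1) (k₀ : ℕ)
    (f₀ f₁ : R) (hf₀ : f₀ ∈ 𝒜 k₀) (hf₁ : f₁ ∈ 𝒜 (k₀ + 1)) (hf : φ₀ f₀ = φ₀ f₁)
    (hne : φ₀ f₀ ≠ 0)
    (hind : AlgebraicIndependent ℂ (fun l : Fin n => φ₀ (x (a.succAbove l)) * η')) (f : R) :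
    IsAlgebraic (Algebra.adjoin ℂ (Set.range fun l : Fin n => φ₀ (x (a.succAbove l)) * η'))
      (φ₀ f) := by
  classical
  haveI := h.domain
  haveI := h.x_finite
  set η := φ₀ (x a) with hη
  set y : Fin n → L⟦X⟧ := fun l => φ₀ (x (a.succAbove l)) * η' with hy
  set yt : Fin (n + 1) → L⟦X⟧ := a.insertNth (α := fun _ => L⟦X⟧) 1 y with hyt
  set B := Algebra.adjoin ℂ (Set.range y) with hB
  have hx : ∀ b, φ₀ (x b) = η * yt b := ChNorm_x (fun b => φ₀ (x b)) a η' ha
  have hytB : ∀ b, yt b ∈ B := by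
    intro b
    refine a.succAboveCases ?_ (fun l => ?_) b
    · rw [hyt, Fin.insertNth_apply_same]
      exact B.one_mem
    · rw [hyt, Fin.insertNth_apply_succAbove]
      exact Algebra.subset_adjoin ⟨l, rfl⟩
  have hrange : ∀ p : MvPolynomial (Fin (n + 1)) ℂ, MvPolynomial.aeval yt p ∈ B := by
    intro p
    have h1 : (MvPolynomial.aeval (R := ℂ) yt).range ≤ B := by
      rw [← Algebra.adjoin_range_eq_range_aeval]
      exact Algebra.adjoin_le (Set.range_subset_iff.2 hytB)
    exact h1 ⟨p, rfl⟩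
  -- an algebraic equation of `η`
  have hf₀0 : f₀ ≠ 0 := by
    rintro rfl
    exact hne (map_zero _)
  have hg : f₁ - f₀ ≠ 0 := by
    intro h0
    rw [sub_eq_zero] at h0
    rw [h0] at hf₁
    have := DirectSum.degree_eq_of_mem_mem 𝒜 hf₀ hf₁ hf₀0
    omega
  obtain ⟨p, hp, hdvd⟩ := ChNorm_mult h hg
  have hzero : MvPolynomial.aeval (fun b => η * yt b) p = 0 := by
    have h1 : φ₀ (MvPolynomial.aeval x p) = 0 := by
      obtain ⟨c, hc⟩ := hdvd
      rw [hc, map_mul, map_sub, hf, sub_self, zero_mul]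
    rw [MvPolynomial.comp_aeval_apply] at h1
    have h2 : (fun b => φ₀ (x b)) = fun b => η * yt b := funext hx
    rw [← h2, ← h1]
  rw [ChNorm_sum] at hzero
  have hηalg : IsAlgebraic B η := by
    refine ⟨∑ k ∈ Finset.range (p.totalDegree + 1), Polynomial.C
      (⟨MvPolynomial.aeval yt (MvPolynomial.homogeneousComponent k p), hrange _⟩ : B) *
      Polynomial.X ^ k, ?_, ?_⟩
    · obtain ⟨k, hk, hk0⟩ := ChNorm_comp hp
      intro h0
      have h1 := congrArg (fun q => Polynomial.coeff q k) h0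
      simp only [Polynomial.finsetSum_coeff, Polynomial.coeff_C_mul_X_pow,
        Polynomial.coeff_zero] at h1
      rw [Finset.sum_ite_eq, if_pos hk] at h1
      exact ChNorm_ne a hind (MvPolynomial.homogeneousComponent_isHomogeneous k p) hk0
        (congrArg Subtype.val h1)
    · rw [map_sum, ← hzero]
      refine Finset.sum_congr rfl fun k _ => ?_
      rw [map_mul, Polynomial.aeval_C, map_pow, Polynomial.aeval_X, mul_comm]
      rfl
  -- transitivity
  have hxK : ∀ b, φ₀ (x b) ∈ Subalgebra.algebraicClosure B L⟦X⟧ := by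
    intro b
    rw [hx]
    exact (hηalg : _).mul (isAlgebraic_algebraMap (⟨yt b, hytB b⟩ : B))
  have hCK : ∀ c : Algebra.adjoin ℂ (Set.range x), φ₀ c ∈ Subalgebra.algebraicClosure B L⟦X⟧ := by
    intro c
    have h1 : Algebra.adjoin ℂ (Set.range x) ≤
        ((Subalgebra.algebraicClosure B L⟦X⟧).restrictScalars ℂ).comap φ₀ :=
      Algebra.adjoin_le (Set.range_subset_iff.2 hxK)
    exact h1 c.2
  have hint : IsIntegral (Subalgebra.algebraicClosure B L⟦X⟧) (φ₀ f) := by
    refine IsIntegral.map_of_comp_eq (R := Algebra.adjoin ℂ (Set.range x))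
      (RingHom.codRestrict (φ₀.toRingHom.comp (algebraMap (Algebra.adjoin ℂ (Set.range x)) R))
        (Subalgebra.algebraicClosure B L⟦X⟧) hCK) φ₀.toRingHom ?_
      (Algebra.IsIntegral.isIntegral (R := Algebra.adjoin ℂ (Set.range x)) f)
    ext c
    rfl
  exact hint.isAlgebraic.restrictScalars B

/-- CH10d. In the situation of CH10c (only `φ₀ (x_a)` invertible and the independence of `y` are
needed) a non-zero homogeneous element of `R` is not killed by `φ₀`: it divides some non-zero
homogeneous `P(x_0, …, x_n)`, and `P(φ₀ x) = η ^ j P(ỹ) ≠ 0`. -/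
theorem map_ne_zero_of_homogeneous (h : IsFano 𝒜 n r d x G) {L : Type} [Field L] [Algebra ℂ L]
    (φ₀ : R →ₐ[ℂ] L⟦X⟧) (a : Fin (n + 1)) (η' : L⟦X⟧) (ha : φ₀ (x a) * η' = 1)
    (hind : AlgebraicIndependent ℂ (fun l : Fin n => φ₀ (x (a.succAbove l)) * η')) (j : ℕ) (f : R)
    (hf : f ∈ 𝒜 j) (hf0 : f ≠ 0) : φ₀ f ≠ 0 := by
  intro hφf
  set η := φ₀ (x a) with hη
  set y : Fin n → L⟦X⟧ := fun l => φ₀ (x (a.succAbove l)) * η' with hy
  set yt : Fin (n + 1) → L⟦X⟧ := a.insertNth (α := fun _ => L⟦X⟧) 1 y with hyt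
  have hx : ∀ b, φ₀ (x b) = η * yt b := ChNorm_x (fun b => φ₀ (x b)) a η' ha
  obtain ⟨ψ, hψ⟩ := exists_scale (𝒜 := 𝒜)
    ((Algebra.ofId L⟦X⟧ (Polynomial L⟦X⟧)).restrictScalars ℂ |>.comp φ₀)
    (Polynomial.X : Polynomial L⟦X⟧)
  have hψ' : ∀ j, ∀ f ∈ 𝒜 j, ψ f = Polynomial.X ^ j * Polynomial.C (φ₀ f) := hψ
  obtain ⟨p, hp, hdvd⟩ := ChNorm_mult h hf0
  have h1 : ψ (MvPolynomial.aeval x p) = 0 := by
    obtain ⟨c, hc⟩ := hdvd
    rw [hc, map_mul, hψ' j f hf, hφf, map_zero, mul_zero, zero_mul]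
  have h2 : MvPolynomial.aeval (fun b => (Polynomial.X ^ d * Polynomial.C η) *
      Polynomial.C (yt b)) p = 0 := by
    have h3 : (fun b => (Polynomial.X ^ d * Polynomial.C η) * Polynomial.C (yt b)) =
        fun b => ψ (x b) := by
      funext b
      rw [hψ' d _ (h.x_mem b), hx, map_mul, mul_assoc]
    rw [h3, ← h1, MvPolynomial.comp_aeval_apply]
  rw [ChNorm_sum] at h2
  obtain ⟨k, hk, hk0⟩ := ChNorm_comp hp
  have h4 : ∀ k, MvPolynomial.aeval (fun b => Polynomial.C (yt b))
      (MvPolynomial.homogeneousComponent k p) =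
      Polynomial.C (MvPolynomial.aeval yt (MvPolynomial.homogeneousComponent k p)) := by
    intro k
    have h6 := MvPolynomial.comp_aeval_apply (f := yt)
      ((Algebra.ofId L⟦X⟧ (Polynomial L⟦X⟧)).restrictScalars ℂ)
      (MvPolynomial.homogeneousComponent k p)
    exact h6.symm
  have h5 := congrArg (fun q => Polynomial.coeff q (d * k)) h2
  simp only [Polynomial.finsetSum_coeff, Polynomial.coeff_zero] at h5
  rw [Finset.sum_eq_single k] at h5
  · rw [h4, mul_pow, ← pow_mul, mul_assoc, ← Polynomial.C_pow, ← Polynomial.C_mul,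
      Polynomial.X_pow_mul, Polynomial.coeff_C_mul_X_pow, if_pos rfl] at h5
    have hηu : η ≠ 0 := left_ne_zero_of_mul_eq_one ha
    rcases mul_eq_zero.1 h5 with h6 | h6
    · exact pow_ne_zero k hηu h6
    · exact ChNorm_ne a hind (MvPolynomial.homogeneousComponent_isHomogeneous k p) hk0 h6
  · intro i _ hik
    rw [h4, mul_pow, ← pow_mul, mul_assoc, ← Polynomial.C_pow, ← Polynomial.C_mul,
      Polynomial.X_pow_mul, Polynomial.coeff_C_mul_X_pow, if_neg]
    intro h6
    exact hik (Nat.eq_of_mul_eq_mul_left h.d_pos h6).symm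
  · intro h6
    exact absurd hk h6

/-- `R` is a finitely generated `ℂ`-algebra. -/
theorem IsFano.finiteType (h : IsFano 𝒜 n r d x G) : Algebra.FiniteType ℂ R := by
  haveI := h.x_finite
  haveI : Algebra.FiniteType ℂ (Algebra.adjoin ℂ (Set.range x)) :=
    (Subalgebra.fg_iff_finiteType _).1 (Subalgebra.fg_def.2 ⟨_, Set.finite_range x, rfl⟩)
  exact Algebra.FiniteType.trans (S := Algebra.adjoin ℂ (Set.range x)) inferInstance inferInstance

end Pool.Agent.Lib_KF

end

/-! ### from `Lib_GD.ChartDer` -/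

section

/-! G01: calculus on a chart. -/

open PowerSeries

namespace Pool.Agent.Lib_GD.Chart

variable {R : Type} [CommRing R] [Algebra ℂ R] {𝒜 : ℕ → Submodule ℂ R} {n : ℕ}
  (c : Chart 𝒜 n)

/-- Every derivation is determined by the coordinates. -/
theorem der_eq {M : Type} [AddCommGroup M] [Module ℂ M] [Module c.B M]
    [IsScalarTower ℂ c.B M] (D : Derivation ℂ c.B M) (b : c.B) :
    D b = ∑ l, c.der l b • D (c.y l) := by
  have h := congrArg D.liftKaehlerDifferential (c.gen b)
  rw [map_sum, Derivation.liftKaehlerDifferential_comp_D] at h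
  rw [h]
  refine Finset.sum_congr rfl fun l _ => ?_
  rw [map_smul, Derivation.liftKaehlerDifferential_comp_D]

theorem der_comm (l k : Fin n) (b : c.B) : c.der l (c.der k b) = c.der k (c.der l b) := by
  have h := c.der_eq ⁅c.der l, c.der k⁆ b
  have h0 : ∀ i, ⁅c.der l, c.der k⁆ (c.y i) = 0 := by
    intro i
    rw [Derivation.commutator_apply, c.der_y, c.der_y]
    split_ifs <;> simp
  simp only [h0, smul_zero, Finset.sum_const_zero] at h
  rw [Derivation.commutator_apply] at h
  exact sub_eq_zero.1 h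

theorem dd_eq (α : Fin n →₀ ℕ) : c.dd α = ddG c.der α := rfl

theorem dd_zero (b : c.B) : c.dd 0 b = b := ddG_zero c.der b

theorem dd_add_single (α : Fin n →₀ ℕ) (l : Fin n) (b : c.B) :
    c.dd (α + Finsupp.single l 1) b = c.dd α (c.der l b) :=
  ddG_add_single c.der c.der_comm α l b

theorem der_dd (α : Fin n →₀ ℕ) (l : Fin n) (b : c.B) :
    c.der l (c.dd α b) = c.dd (α + Finsupp.single l 1) b :=
  der_ddG c.der c.der_comm α l b

theorem dd_add (α β : Fin n →₀ ℕ) (b : c.B) : c.dd (α + β) b = c.dd α (c.dd β b) :=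
  ddG_add c.der c.der_comm α β b

/-- Divided powers `x(∂^α b) / α!`. -/
noncomputable def tay {K : Type} [CommRing K] [Algebra ℂ K] (x : c.B →ₐ[ℂ] K)
    (α : Fin n →₀ ℕ) (b : c.B) : K :=
  algebraMap ℂ K (∏ l, ((α l).factorial : ℂ))⁻¹ * x (c.dd α b)

/-- The Taylor homomorphism at a point `x`. -/
theorem exists_taylor {K : Type} [CommRing K] [Algebra ℂ K] (x : c.B →ₐ[ℂ] K) :
    ∃ T : c.B →ₐ[ℂ] MvPowerSeries (Fin n) K, ∀ b α, MvPowerSeries.coeff α (T b) = c.tay x α b :=
  ⟨taylorG c.der c.der_comm x, fun b α => coeff_taylorG c.der c.der_comm x b α⟩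

/-- Leibniz rule for Taylor coefficients. -/
theorem tay_mul {K : Type} [CommRing K] [Algebra ℂ K] (x : c.B →ₐ[ℂ] K)
    (α : Fin n →₀ ℕ) (b b' : c.B) :
    c.tay x α (b * b') = ∑ p ∈ Finset.HasAntidiagonal.antidiagonal α,
      c.tay x p.1 b * c.tay x p.2 b' := by
  classical
  obtain ⟨T, hT⟩ := c.exists_taylor x
  rw [← hT, map_mul, MvPowerSeries.coeff_mul]
  refine Finset.sum_congr rfl fun p _ => ?_
  rw [hT, hT]

/-- Transport: for an arc `x : B → L⟦X⟧` and a derivation `δ` of `L`. -/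
theorem hat_arc {L : Type} [Field L] [Algebra ℂ L] (x : c.B →ₐ[ℂ] L⟦X⟧)
    (δ : Derivation ℂ L L) (b : c.B) :
    hat δ (x b) = ∑ l, x (c.der l b) * hat δ (x (c.y l)) := by
  letI : Module c.B L⟦X⟧ := Module.compHom L⟦X⟧ x.toRingHom
  have hsm : ∀ (b : c.B) (f : L⟦X⟧), b • f = x b * f := fun _ _ => rfl
  haveI : IsScalarTower ℂ c.B L⟦X⟧ := ⟨fun z b f => by
    rw [hsm, hsm, map_smul, smul_mul_assoc]⟩
  let D : Derivation ℂ c.B L⟦X⟧ :=
    { toFun := fun b => hat δ (x b)
      map_add' := fun a b => by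
        ext k; simp [hat]
      map_smul' := fun z b => by
        ext k; simp [hat]
      map_one_eq_zero' := by
        change hat δ (x 1) = 0
        ext k
        rw [map_one, hat, PowerSeries.coeff_mk, PowerSeries.coeff_one]
        split_ifs <;> simp
      leibniz' := fun a b => by
        change hat δ (x (a * b)) = a • hat δ (x b) + b • hat δ (x a)
        rw [hsm, hsm, map_mul]
        ext k
        simp only [hat, PowerSeries.coeff_mk, PowerSeries.coeff_mul, map_sum, map_add,
          Derivation.leibniz, smul_eq_mul]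
        rw [Finset.sum_add_distrib]
        congr 1
        rw [← Finset.Nat.sum_antidiagonal_swap]
        rfl }
  have h := c.der_eq D b
  exact h

end Pool.Agent.Lib_GD.Chart

end

/-! ### from `Lib_GD.ChartPoint` -/

section

/-! G05: points of `X` and charts. -/

open PowerSeries

namespace Pool.Agent.Lib_GD

variable {R : Type} [CommRing R] [Algebra ℂ R] {𝒜 : ℕ → Submodule ℂ R} [GradedAlgebra 𝒜]
  {n : ℕ}

section ChartPoint

variable (c : Chart 𝒜 n)

private theorem ChartPoint_pow (k : ℕ) : c.F ^ k ∈ 𝒜 (c.d * k) := by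
  have h := SetLike.pow_mem_graded k c.hF
  rwa [smul_eq_mul, Nat.mul_comm] at h

private theorem ChartPoint_inj (m : ℕ) (s s' : R) (hs : s ∈ 𝒜 m) (hs' : s' ∈ 𝒜 m)
    (h : c.ρ s = c.ρ s') : s = s' := by
  have h1 := c.inj m (s - s') (sub_mem hs hs') (by rw [map_sub, h, sub_self])
  exact sub_eq_zero.1 h1

variable {V : Type} [CommRing V] [Algebra ℂ V] (φ : R →ₐ[ℂ] V)

omit [Algebra ℂ V] in
private theorem ChartPoint_mulmem {a b : R} {i j l : ℕ} (ha : a ∈ 𝒜 i) (hb : b ∈ 𝒜 j)
    (h : i + j = l) : a * b ∈ 𝒜 l := by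
  subst h
  exact SetLike.mul_mem_graded ha hb

/-- two presentations of the same function -/
private theorem ChartPoint_eq {b : c.B} {k k' : ℕ} {s s' : R} (hs : s ∈ 𝒜 (c.d * k))
    (hs' : s' ∈ 𝒜 (c.d * k')) (h : b * c.ρ c.F ^ k = c.ρ s) (h' : b * c.ρ c.F ^ k' = c.ρ s') :
    φ s * φ c.F ^ k' = φ s' * φ c.F ^ k := by
  have h1 : s * c.F ^ k' = s' * c.F ^ k := by
    refine ChartPoint_inj c (c.d * (k + k')) _ _
      (ChartPoint_mulmem hs (ChartPoint_pow c k') (by ring))
      (ChartPoint_mulmem hs' (ChartPoint_pow c k) (by ring)) ?_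
    rw [map_mul, map_mul, map_pow, map_pow, ← h, ← h']
    ring
  rw [← map_pow, ← map_mul, h1, map_mul, map_pow]

end ChartPoint

/-- G05a: a point `φ : R → V` of the cone for which `F` and `T` are units comes from the chart:
`φ s = w^m ψ (ρ s)` for `s ∈ 𝒜 m`. -/
theorem Chart.exists_point (c : Chart 𝒜 n) {V : Type} [CommRing V] [Algebra ℂ V]
    (φ : R →ₐ[ℂ] V) (hF : IsUnit (φ c.F)) (hT : IsUnit (φ c.T)) :
    ∃ (ψ : c.B →ₐ[ℂ] V) (w : Vˣ), ∀ m, ∀ s ∈ 𝒜 m, φ s = (w : V) ^ m * ψ (c.ρ s) := by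
  classical
  obtain ⟨uF, huF⟩ := hF
  obtain ⟨uT, huT⟩ := hT
  choose k s hs hks using c.surj
  let f : c.B → V := fun b => φ (s b) * ((uF⁻¹ : Vˣ) : V) ^ k b
  -- the value of f from any presentation
  have key : ∀ (b : c.B) (l : ℕ) (t : R), t ∈ 𝒜 (c.d * l) → b * c.ρ c.F ^ l = c.ρ t →
      f b * φ c.F ^ l = φ t := by
    intro b l t ht h
    have h1 := ChartPoint_eq c φ (hs b) ht (hks b) h
    have h2 : φ c.F ^ k b * ((uF⁻¹ : Vˣ) : V) ^ k b = 1 := by
      rw [← huF, ← mul_pow, Units.mul_inv, one_pow]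
    calc f b * φ c.F ^ l = φ (s b) * φ c.F ^ l * ((uF⁻¹ : Vˣ) : V) ^ k b := by
          change φ (s b) * ((uF⁻¹ : Vˣ) : V) ^ k b * φ c.F ^ l = _
          ring
      _ = φ t * (φ c.F ^ k b * ((uF⁻¹ : Vˣ) : V) ^ k b) := by rw [h1]; ring
      _ = φ t := by rw [h2, mul_one]
  have canc : ∀ (l : ℕ) (x y : V), x * φ c.F ^ l = y * φ c.F ^ l → x = y := by
    intro l x y h
    have h1 : φ c.F ^ l * ((uF⁻¹ : Vˣ) : V) ^ l = 1 := by
      rw [← huF, ← mul_pow, Units.mul_inv, one_pow]
    calc x = x * φ c.F ^ l * ((uF⁻¹ : Vˣ) : V) ^ l := by rw [mul_assoc, h1, mul_one]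
      _ = y * φ c.F ^ l * ((uF⁻¹ : Vˣ) : V) ^ l := by rw [h]
      _ = y := by rw [mul_assoc, h1, mul_one]
  have own : ∀ b, f b * φ c.F ^ k b = φ (s b) := fun b => key b (k b) (s b) (hs b) (hks b)
  have hone : f 1 = 1 := by
    have h := key 1 0 1 (by rw [Nat.mul_zero]; exact SetLike.one_mem_graded 𝒜)
      (by rw [map_one, pow_zero, mul_one])
    rwa [pow_zero, mul_one, map_one] at h
  have hzero : f 0 = 0 := by
    have h := key 0 0 0 (zero_mem _) (by rw [map_zero, zero_mul])
    rwa [pow_zero, mul_one, map_zero] at h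
  have hmul : ∀ a b, f (a * b) = f a * f b := by
    intro a b
    refine canc (k a + k b) _ _ ?_
    rw [key (a * b) (k a + k b) (s a * s b) (ChartPoint_mulmem (hs a) (hs b) (by ring))
      (by rw [map_mul, ← hks a, ← hks b]; ring), map_mul, ← own a, ← own b]
    ring
  have hadd : ∀ a b, f (a + b) = f a + f b := by
    intro a b
    refine canc (k a + k b) _ _ ?_
    rw [key (a + b) (k a + k b) (s a * c.F ^ k b + s b * c.F ^ k a)
      (add_mem (ChartPoint_mulmem (hs a) (ChartPoint_pow c _) (by ring))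
        (ChartPoint_mulmem (hs b) (ChartPoint_pow c _) (by ring)))
      (by rw [map_add, map_mul, map_mul, map_pow, map_pow, ← hks a, ← hks b]; ring),
      map_add, map_mul, map_mul, map_pow, map_pow, ← own a, ← own b]
    ring
  have halg : ∀ z : ℂ, f (algebraMap ℂ c.B z) = algebraMap ℂ V z := by
    intro z
    have h := key (algebraMap ℂ c.B z) 0 (algebraMap ℂ R z)
      (by rw [Nat.mul_zero]; exact SetLike.algebraMap_mem_graded 𝒜 z)
      (by rw [AlgHom.commutes, pow_zero, mul_one])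
    rwa [pow_zero, mul_one, AlgHom.commutes] at h
  let ψ : c.B →ₐ[ℂ] V :=
    { toFun := f
      map_one' := hone
      map_mul' := hmul
      map_zero' := hzero
      map_add' := hadd
      commutes' := halg }
  refine ⟨ψ, uT * (uF ^ c.e)⁻¹, fun m t ht => ?_⟩
  change φ t = _ * f (c.ρ t)
  set K := k (c.ρ t) with hK
  have h1 : t * c.F ^ (c.e * m + K) = c.T ^ m * s (c.ρ t) := by
    have hTm : c.T ^ m ∈ 𝒜 ((c.d * c.e + 1) * m) := by
      have h := SetLike.pow_mem_graded m c.hT
      rwa [smul_eq_mul, Nat.mul_comm] at h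
    refine ChartPoint_inj c (m + c.d * (c.e * m + K)) _ _
      (ChartPoint_mulmem ht (ChartPoint_pow c _) rfl)
      (ChartPoint_mulmem hTm (hs (c.ρ t)) (by rw [← hK]; ring)) ?_
    rw [map_mul, map_mul, map_pow, map_pow, c.ρT, ← hks (c.ρ t), ← hK]
    ring
  have h2 := congrArg φ h1
  rw [map_mul, map_mul, map_pow, map_pow, ← own (c.ρ t), ← hK] at h2
  refine canc (c.e * m + K) _ _ ?_
  rw [h2]
  have h3 : ((uT * (uF ^ c.e)⁻¹ : Vˣ) : V) ^ m * φ c.F ^ (c.e * m) = φ c.T ^ m := by
    rw [← huF, ← huT, pow_mul, ← mul_pow, ← Units.val_pow_eq_pow_val, ← Units.val_mul,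
      mul_assoc, inv_mul_cancel, mul_one]
  rw [← h3, pow_add]
  ring

/-- G05b: with an atlas every point of `X` with values in a local ring comes from a chart. -/
theorem Atlas.exists_point (a : Atlas 𝒜 n) {V : Type} [CommRing V] [IsLocalRing V]
    [Algebra ℂ V] (φ : R →ₐ[ℂ] V) (hφ : ∃ d > 0, ∃ f ∈ 𝒜 d, IsUnit (φ f)) :
    ∃ (k : Fin a.r) (ψ : (a.chart k).B →ₐ[ℂ] V) (w : Vˣ),
      ∀ m, ∀ s ∈ 𝒜 m, φ s = (w : V) ^ m * ψ ((a.chart k).ρ s) := by
  obtain ⟨d, hd, f, hf, hu⟩ := hφ
  set p : Ideal R := Ideal.comap φ (IsLocalRing.maximalIdeal V) with hp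
  have hmem : ∀ x : R, x ∉ p ↔ IsUnit (φ x) := by
    intro x
    rw [hp, Ideal.mem_comap, IsLocalRing.mem_maximalIdeal, mem_nonunits_iff, not_not]
  have hpp : p.IsPrime := Ideal.comap_isPrime _ _
  obtain ⟨k, h1, h2⟩ := a.cover p hpp ⟨d, hd, f, hf, (hmem f).2 hu⟩
  obtain ⟨ψ, w, h⟩ := (a.chart k).exists_point φ ((hmem _).1 h1) ((hmem _).1 h2)
  exact ⟨k, ψ, w, h⟩

/-- G05c: the ratios of sections are exactly the functions of the chart. -/
theorem Chart.ratio_mem (c : Chart 𝒜 n) (b : c.B) :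
    ∃ m, ∃ s ∈ 𝒜 m, ∃ s' ∈ 𝒜 m, IsUnit (c.ρ s') ∧ b * c.ρ s' = c.ρ s := by
  obtain ⟨k, s, hs, h⟩ := c.surj b
  refine ⟨c.d * k, s, hs, c.F ^ k, ChartPoint_pow c k, ?_, ?_⟩
  · rw [map_pow]
    exact c.unit.pow k
  · rw [map_pow]
    exact h

/-- G05d: every chart has a `ℂ`-point. -/
theorem Chart.exists_C_point (c : Chart 𝒜 n) : Nonempty (c.B →ₐ[ℂ] ℂ) := by
  obtain ⟨M, hM⟩ := Ideal.exists_maximal c.B
  letI : Field (c.B ⧸ M) := Ideal.Quotient.field M
  have h1 : Algebra.FiniteType ℂ (c.B ⧸ M) :=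
    Algebra.FiniteType.of_surjective (Ideal.Quotient.mkₐ ℂ M) (Ideal.Quotient.mkₐ_surjective ℂ M)
  have h2 : Module.Finite ℂ (c.B ⧸ M) := finite_of_finite_type_of_isJacobsonRing ℂ (c.B ⧸ M)
  have h3 : Function.Bijective (algebraMap ℂ (c.B ⧸ M)) :=
    IsAlgClosed.algebraMap_bijective_of_isIntegral
  let e : ℂ ≃ₐ[ℂ] (c.B ⧸ M) := AlgEquiv.ofBijective (Algebra.ofId ℂ _) h3
  exact ⟨(e.symm : (c.B ⧸ M) →ₐ[ℂ] ℂ).comp (Ideal.Quotient.mkₐ ℂ M)⟩

end Pool.Agent.Lib_GD

end

/-! ### from `Lib_GD.TrdegBound` -/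

section

/-! J02: derivations and algebraic independence. -/

open PowerSeries

namespace Pool.Agent.Lib_GD

variable {L : Type} [Field L] [Algebra ℂ L]

/-- A derivation which kills a ring `R` is linear over `R`. -/
private def trdegBoundDer (R : Type) [CommRing R] [Algebra R L] (δ : Derivation ℂ L L)
    (h : ∀ r : R, δ (algebraMap R L r) = 0) : Derivation R L L :=
  Derivation.mk'
    { toFun := δ
      map_add' := δ.map_add
      map_smul' := fun r x => by
        rw [Algebra.smul_def, δ.leibniz, h r, smul_zero, add_zero, smul_eq_mul,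
          RingHom.id_apply, Algebra.smul_def] }
    (fun a b => δ.leibniz a b)

private theorem trdegBound_der_algebraic_aux (R : Type) [CommRing R] [Algebra R L]
    (hinj : Function.Injective (algebraMap R L)) (δ : Derivation ℂ L L)
    (h : ∀ r : R, δ (algebraMap R L r) = 0) (a : L) (n : ℕ) :
    ∀ p : Polynomial R, p ≠ 0 → p.natDegree ≤ n → Polynomial.aeval a p = 0 → δ a = 0 := by
  have hL : CharZero L := charZero_of_injective_algebraMap (algebraMap ℂ L).injective
  induction n with
  | zero =>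
    intro p hp hn h0
    exfalso
    have h1 : p = Polynomial.C (p.coeff 0) := Polynomial.eq_C_of_natDegree_le_zero hn
    rw [h1, Polynomial.aeval_C] at h0
    have h2 : p.coeff 0 = 0 := hinj (by rw [h0, map_zero])
    exact hp (by rw [h1, h2, map_zero])
  | succ n ih =>
    intro p hp hn h0
    by_cases h1 : Polynomial.aeval a (Polynomial.derivative p) = 0
    · by_cases h2 : Polynomial.derivative p = 0
      · exfalso
        have h3 : p.natDegree = 0 := by
          by_contra h3
          obtain ⟨m, hm⟩ := Nat.exists_eq_succ_of_ne_zero h3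
          have h4 : (Polynomial.derivative p).coeff m = 0 := by rw [h2, Polynomial.coeff_zero]
          rw [Polynomial.coeff_derivative] at h4
          have h5 : algebraMap R L (p.coeff (m + 1)) * ((m : L) + 1) = 0 := by
            have h6 := congrArg (algebraMap R L) h4
            simpa using h6
          have h7 : ((m : L) + 1) ≠ 0 := by exact_mod_cast Nat.succ_ne_zero m
          have h8 : algebraMap R L (p.coeff (m + 1)) = 0 := by
            rcases mul_eq_zero.mp h5 with h | h
            · exact h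
            · exact absurd h h7
          have h9 : p.coeff (m + 1) = 0 := hinj (by rw [h8, map_zero])
          have h10 : p.leadingCoeff = 0 := by
            rw [Polynomial.leadingCoeff, hm]
            exact h9
          exact hp (Polynomial.leadingCoeff_eq_zero.mp h10)
        have h4 : p = Polynomial.C (p.coeff 0) := Polynomial.eq_C_of_natDegree_le_zero h3.le
        rw [h4, Polynomial.aeval_C] at h0
        have h5 : p.coeff 0 = 0 := hinj (by rw [h0, map_zero])
        exact hp (by rw [h4, h5, map_zero])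
      · refine ih _ h2 ?_ h1
        have := Polynomial.natDegree_derivative_le p
        omega
    · have h2 := (trdegBoundDer R δ h).map_aeval p a
      rw [h0, map_zero] at h2
      have h3 : Polynomial.aeval a (Polynomial.derivative p) * δ a = 0 := h2.symm
      rcases mul_eq_zero.mp h3 with h | h
      · exact absurd h h1
      · exact h

private theorem trdegBound_der_algebraic (R : Type) [CommRing R] [Algebra R L]
    (hinj : Function.Injective (algebraMap R L)) (δ : Derivation ℂ L L)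
    (h : ∀ r : R, δ (algebraMap R L r) = 0) {a : L} (ha : IsAlgebraic R a) : δ a = 0 := by
  obtain ⟨p, hp, h0⟩ := ha
  exact trdegBound_der_algebraic_aux R hinj δ h a p.natDegree p hp le_rfl h0

private theorem trdegBound_der_adjoin {K : Type} [Field K] [Algebra K L] (δ : Derivation ℂ L L)
    (h : ∀ r : K, δ (algebraMap K L r) = 0) (S : Set L) (hS : ∀ x ∈ S, δ x = 0)
    (y : Algebra.adjoin K S) : δ (algebraMap (Algebra.adjoin K S) L y) = 0 := by
  obtain ⟨y, hy⟩ := y
  change δ y = 0
  induction hy using Algebra.adjoin_induction with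
  | mem x hx => exact hS x hx
  | algebraMap r => exact h r
  | add x y _ _ hx hy => rw [map_add, hx, hy, add_zero]
  | mul x y _ _ hx hy => rw [δ.leibniz, hx, hy, smul_zero, smul_zero, add_zero]

/-- J02a: if a space of derivations `Δ` of `L` realises, on a finite family `z` of elements, a
space of values of dimension at least `r`, then `r` members of the family are algebraically
independent over the constants of `Δ`. -/
theorem exists_algebraicIndependent {ι : Type} [Fintype ι] (Δ : Submodule L (Derivation ℂ L L))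
    (z : ι → L) (r : ℕ)
    (h : r ≤ Module.finrank L (Submodule.span L {v : ι → L | ∃ δ ∈ Δ, ∀ p, δ (z p) = v p})) :
    ∃ s : Finset ι, r ≤ s.card ∧
      AlgebraicIndependent (consts (Δ : Set (Derivation ℂ L L))) (fun p : s => z p) := by
  classical
  set K := consts (Δ : Set (Derivation ℂ L L)) with hK
  -- a maximal independent subfamily
  have h0 : ({s : Finset ι | AlgebraicIndepOn K z (s : Set ι)} : Set (Finset ι)).Nonempty := by
    refine ⟨∅, ?_⟩
    change AlgebraicIndepOn K z ((∅ : Finset ι) : Set ι)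
    rw [Finset.coe_empty]
    have : IsEmpty ((∅ : Set ι) : Type) := inferInstance
    exact algebraicIndependent_empty_type_iff.mpr (algebraMap K L).injective
  obtain ⟨s, hs⟩ := Set.Finite.exists_maximal (Set.toFinite _) h0
  have hs1 : AlgebraicIndepOn K z (s : Set ι) := hs.prop
  have halg : ∀ q, IsAlgebraic (Algebra.adjoin K (z '' (s : Set ι))) (z q) := by
    intro q
    by_contra hq
    have h1 : AlgebraicIndepOn K z (insert q (s : Set ι)) := hs1.insert hq
    have h2 : (insert q s : Finset ι) ∈ {s : Finset ι | AlgebraicIndepOn K z (s : Set ι)} := by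
      change AlgebraicIndepOn K z ((insert q s : Finset ι) : Set ι)
      rw [Finset.coe_insert]
      exact h1
    have h3 : insert q s ≤ s := hs.le_of_ge h2 (Finset.subset_insert q s)
    have h4 : q ∈ s := h3 (Finset.mem_insert_self q s)
    refine hq ?_
    exact isAlgebraic_algebraMap (⟨z q, Algebra.subset_adjoin ⟨q, h4, rfl⟩⟩ :
      Algebra.adjoin K (z '' (s : Set ι)))
  have hkill : ∀ δ ∈ Δ, (∀ p ∈ s, δ (z p) = 0) → ∀ q, δ (z q) = 0 := by
    intro δ hδ h1 q
    refine trdegBound_der_algebraic (Algebra.adjoin K (z '' (s : Set ι)))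
      Subtype.val_injective δ ?_ (halg q)
    refine trdegBound_der_adjoin δ (fun r => r.2 δ hδ) _ ?_
    rintro x ⟨p, hp, rfl⟩
    exact h1 p hp
  -- the values form a submodule
  let ev : Derivation ℂ L L →ₗ[L] (ι → L) :=
    { toFun := fun δ p => δ (z p)
      map_add' := fun _ _ => rfl
      map_smul' := fun _ _ => rfl }
  have hspan : Submodule.span L {v : ι → L | ∃ δ ∈ Δ, ∀ p, δ (z p) = v p} = Δ.map ev := by
    have h1 : {v : ι → L | ∃ δ ∈ Δ, ∀ p, δ (z p) = v p} = ((Δ.map ev : Submodule L (ι → L)) :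
        Set (ι → L)) := by
      ext v
      constructor
      · rintro ⟨δ, hδ, hv⟩
        exact ⟨δ, hδ, funext hv⟩
      · rintro ⟨δ, hδ, hv⟩
        exact ⟨δ, hδ, fun p => congrFun hv p⟩
    rw [h1, Submodule.span_eq]
  rw [hspan] at h
  refine ⟨s, ?_, hs1⟩
  let ρ : (ι → L) →ₗ[L] (s → L) := LinearMap.funLeft L L (fun p : s => (p : ι))
  have hinj : Function.Injective (ρ.domRestrict (Δ.map ev)) := by
    rw [injective_iff_map_eq_zero]
    rintro ⟨v, δ, hδ, rfl⟩ hv
    have h1 : ∀ p ∈ s, δ (z p) = 0 := fun p hp => congrFun hv ⟨p, hp⟩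
    apply Subtype.ext
    funext q
    exact hkill δ hδ h1 q
  have h2 := LinearMap.finrank_le_finrank_of_injective hinj
  have h3 : Module.finrank L (s → L) = s.card := by
    rw [Module.finrank_fintype_fun_eq_card, Fintype.card_coe]
  omega

private theorem trdegBound_exists_basis {κ : Type} (x : κ → L)
    (hx : IsTranscendenceBasis ℂ x) (w : κ → L) : ∃ δ : Derivation ℂ L L, ∀ i, δ (x i) = w i := by
  let _ : Algebra (MvPolynomial κ ℂ) L := (MvPolynomial.aeval x).toRingHom.toAlgebra
  have hmap : ∀ p : MvPolynomial κ ℂ, algebraMap (MvPolynomial κ ℂ) L p = MvPolynomial.aeval x p :=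
    fun _ => rfl
  have : IsScalarTower ℂ (MvPolynomial κ ℂ) L := by
    refine IsScalarTower.of_algebraMap_eq fun c => ?_
    rw [hmap, MvPolynomial.algebraMap_eq, MvPolynomial.aeval_C]
  have hinj : Function.Injective (algebraMap (MvPolynomial κ ℂ) L) := hx.1
  have : FaithfulSMul (MvPolynomial κ ℂ) L := (faithfulSMul_iff_algebraMap_injective _ _).mpr hinj
  let _ : Algebra (FractionRing (MvPolynomial κ ℂ)) L := FractionRing.liftAlgebra _ _
  have : IsScalarTower (MvPolynomial κ ℂ) (FractionRing (MvPolynomial κ ℂ)) L :=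
    FractionRing.isScalarTower_liftAlgebra _ _
  have halg0 : ∀ a : L, IsAlgebraic (MvPolynomial κ ℂ) a := by
    intro a
    obtain ⟨p, hp, hp0⟩ := hx.isAlgebraic.isAlgebraic a
    have hsymm : ∀ y : Algebra.adjoin ℂ (Set.range x),
        algebraMap (MvPolynomial κ ℂ) L (hx.1.aevalEquiv.symm y) = (y : L) := by
      intro y
      rw [hmap]
      have h1 := hx.1.algebraMap_aevalEquiv (hx.1.aevalEquiv.symm y)
      rw [AlgEquiv.apply_symm_apply] at h1
      exact h1.symm
    refine ⟨p.map hx.1.aevalEquiv.symm.toAlgHom.toRingHom, ?_, ?_⟩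
    · rw [Ne, Polynomial.map_eq_zero_iff]
      · exact hp
      · exact hx.1.aevalEquiv.symm.injective
    · rw [Polynomial.aeval_def, Polynomial.eval₂_map]
      rw [Polynomial.aeval_def] at hp0
      have h2 : (algebraMap (MvPolynomial κ ℂ) L).comp
          hx.1.aevalEquiv.symm.toAlgHom.toRingHom =
          algebraMap (Algebra.adjoin ℂ (Set.range x)) L := by
        ext y
        exact hsymm y
      rw [h2]
      exact hp0
  have : Algebra.IsAlgebraic (FractionRing (MvPolynomial κ ℂ)) L := by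
    refine ⟨fun a => ?_⟩
    exact (halg0 a).extendScalars (IsFractionRing.injective (MvPolynomial κ ℂ)
      (FractionRing (MvPolynomial κ ℂ)))
  have : Algebra.FormallyEtale (MvPolynomial κ ℂ) (FractionRing (MvPolynomial κ ℂ)) :=
    Algebra.FormallyEtale.of_isLocalization (nonZeroDivisors (MvPolynomial κ ℂ))
  have hcz : CharZero (FractionRing (MvPolynomial κ ℂ)) :=
    charZero_of_injective_algebraMap (algebraMap ℂ (FractionRing (MvPolynomial κ ℂ))).injective
  have : Algebra.FormallyEtale (FractionRing (MvPolynomial κ ℂ)) L :=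
    Algebra.FormallyEtale.of_isSeparable _ _
  have : Algebra.FormallyEtale (MvPolynomial κ ℂ) L :=
    Algebra.FormallyEtale.comp _ (FractionRing (MvPolynomial κ ℂ)) _
  let D0 : Derivation ℂ (MvPolynomial κ ℂ) L := MvPolynomial.mkDerivation ℂ w
  let ψ : (TensorProduct (MvPolynomial κ ℂ) L (Ω[MvPolynomial κ ℂ⁄ℂ])) →ₗ[L] L :=
    LinearMap.liftBaseChange L D0.liftKaehlerDifferential
  let e := KaehlerDifferential.tensorKaehlerEquivOfFormallyEtale ℂ (MvPolynomial κ ℂ) L
  refine ⟨(ψ.comp e.symm.toLinearMap).compDer (KaehlerDifferential.D ℂ L), fun i => ?_⟩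
  have h1 : x i = algebraMap (MvPolynomial κ ℂ) L (MvPolynomial.X i) := by
    rw [hmap, MvPolynomial.aeval_X]
  change ψ (e.symm (KaehlerDifferential.D ℂ L (x i))) = w i
  rw [h1, KaehlerDifferential.tensorKaehlerEquivOfFormallyEtale_symm_D_algebraMap]
  simp [ψ, D0]

/-- J02c: in characteristic zero derivations of a field can be prescribed arbitrarily on an
algebraically independent family. -/
theorem exists_derivation {ι : Type} (z : ι → L) (hz : AlgebraicIndependent ℂ z) (v : ι → L) :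
    ∃ δ : Derivation ℂ L L, ∀ i, δ (z i) = v i := by
  classical
  obtain ⟨T, hT, hB⟩ := exists_isTranscendenceBasis_superset hz.coe_range
  obtain ⟨δ, hδ⟩ := trdegBound_exists_basis (fun t : T => (t : L)) hB
    (fun t => if h : ∃ i, z i = t then v h.choose else 0)
  refine ⟨δ, fun i => ?_⟩
  have h1 := hδ ⟨z i, hT ⟨i, rfl⟩⟩
  have h2 : ∃ j, z j = z i := ⟨i, rfl⟩
  have h3 : h2.choose = i := hz.injective h2.choose_spec
  simp only at h1
  rw [dif_pos h2, h3] at h1
  exact h1

/-- J02d: an element killed by all derivations which kill the family `z` is algebraic over the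
field generated by `z`. -/
theorem isAlgebraic_of_derivation {ι : Type} (z : ι → L) (f : L)
    (h : ∀ δ : Derivation ℂ L L, (∀ i, δ (z i) = 0) → δ f = 0) :
    IsAlgebraic (IntermediateField.adjoin ℂ (Set.range z)) f := by
  classical
  by_contra hf
  obtain ⟨B, hB⟩ := (AlgebraicIndependent.matroid ℂ L).exists_isBasis (Set.range z)
  rw [AlgebraicIndependent.matroid_isBasis_iff] at hB
  obtain ⟨hB1, hB2, hB3⟩ := hB
  have hfB : Transcendental (Algebra.adjoin ℂ B) f := by
    intro halg
    apply hf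
    obtain ⟨p, hp, hp0⟩ := halg
    have hle : Algebra.adjoin ℂ B ≤
        (IntermediateField.adjoin ℂ (Set.range z)).toSubalgebra :=
      Algebra.adjoin_le fun x hx => IntermediateField.subset_adjoin ℂ _ (hB2 hx)
    refine ⟨p.map (Subalgebra.inclusion hle).toRingHom, ?_, ?_⟩
    · rw [Ne, Polynomial.map_eq_zero_iff]
      · exact hp
      · exact Subalgebra.inclusion_injective hle
    · rw [Polynomial.aeval_def, Polynomial.eval₂_map]
      exact hp0
  have hind : AlgebraicIndependent ℂ (fun o : Option B => o.elim f (fun b : B => (b : L))) := by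
    have hB1' : AlgebraicIndependent ℂ (fun b : B => (b : L)) := hB1
    rw [AlgebraicIndependent.option_iff_transcendental hB1', Subtype.range_coe]
    exact hfB
  obtain ⟨δ, hδ⟩ := exists_derivation _ hind (fun o => o.elim 1 (fun _ => 0))
  have h1 : δ f = 1 := hδ none
  have h2 : ∀ b ∈ B, δ b = 0 := fun b hb => hδ (some ⟨b, hb⟩)
  have h3 : ∀ i, δ (z i) = 0 := by
    intro i
    refine trdegBound_der_algebraic (Algebra.adjoin ℂ B) Subtype.val_injective δ ?_
      (hB3 (z i) ⟨i, rfl⟩)
    exact trdegBound_der_adjoin δ (fun r => δ.map_algebraMap r) _ h2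
  rw [h δ h3] at h1
  exact zero_ne_one h1

end Pool.Agent.Lib_GD

end

/-! ### from `Lib_GD.GenericArc` -/

section

/-! A03: the generic arc of a divisorial valuation ring. -/

open PowerSeries

namespace Pool.Agent.Lib_GD

theorem genericArc_ddG_coord {n : ℕ} {B : Type} [CommRing B] [Algebra ℂ B]
    (der : Fin n → Derivation ℂ B B) (hc : ∀ l k b, der l (der k b) = der k (der l b))
    (y : Fin n → B) (hy : ∀ l k, der l (y k) = if l = k then 1 else 0)
    (α : Fin n →₀ ℕ) (k : Fin n) :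
    ddG der α (y k) = if α = 0 then y k else if α = Finsupp.single k 1 then 1 else 0 := by
  split_ifs with h1 h2
  · rw [h1, ddG_zero]
  · rw [h2, ddG_single, hy, if_pos rfl]
  · obtain ⟨l, hl⟩ : ∃ l, α l ≠ 0 := by
      by_contra hcon
      push Not at hcon
      exact h1 (by ext l; simp [hcon l])
    obtain ⟨β, rfl⟩ : ∃ β : Fin n →₀ ℕ, α = β + Finsupp.single l 1 := by
      refine ⟨α - Finsupp.single l 1, ?_⟩
      rw [tsub_add_cancel_of_le]
      rw [Finsupp.single_le_iff]
      omega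
    rw [ddG_add_single der hc, hy]
    by_cases hlk : l = k
    · subst hlk
      rw [if_pos rfl]
      have hβ : β ≠ 0 := by
        rintro rfl
        exact h2 (by simp)
      obtain ⟨l', hl'⟩ : ∃ l', β l' ≠ 0 := by
        by_contra hcon
        push Not at hcon
        exact hβ (by ext l; simp [hcon l])
      obtain ⟨γ, rfl⟩ : ∃ γ : Fin n →₀ ℕ, β = γ + Finsupp.single l' 1 := by
        refine ⟨β - Finsupp.single l' 1, ?_⟩
        rw [tsub_add_cancel_of_le]
        rw [Finsupp.single_le_iff]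
        omega
      rw [ddG_add_single der hc, Derivation.map_one_eq_zero, map_zero]
    · rw [if_neg hlk, map_zero]

theorem genericArc_taylor_coord {n : ℕ} {B : Type} [CommRing B] [Algebra ℂ B]
    (der : Fin n → Derivation ℂ B B) (hc : ∀ l k b, der l (der k b) = der k (der l b))
    (y : Fin n → B) (hy : ∀ l k, der l (y k) = if l = k then 1 else 0)
    {K : Type} [Field K] [Algebra ℂ K] (x : B →ₐ[ℂ] K) (k : Fin n) :
    taylorG der hc x (y k) = MvPowerSeries.C (x (y k)) + MvPowerSeries.X k := by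
  classical
  ext α
  rw [coeff_taylorG, tayG, genericArc_ddG_coord der hc y hy, map_add, MvPowerSeries.coeff_C,
    MvPowerSeries.coeff_X]
  have h01 : (Finsupp.single k 1 : Fin n →₀ ℕ) ≠ 0 := by simp
  split_ifs with h1 h2 h3
  · exact absurd (h2.symm.trans h1) h01
  · subst h1; simp
  · subst h3
    have : (∏ l, (((Finsupp.single k 1 : Fin n →₀ ℕ) l).factorial : ℂ)) = 1 := by
      refine Finset.prod_eq_one fun l _ => ?_
      by_cases hl : k = l
      · subst hl; simp
      · simp [hl]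
    rw [this]; simp
  · simp

/-- Independence from dual derivations. -/
theorem genericArc_algInd {n : ℕ} {K : Type} [Field K] [Algebra ℂ K]
    (der : Fin n → Derivation ℂ K K) (hc : ∀ l k b, der l (der k b) = der k (der l b))
    (z : Fin n → K)
    (hz : ∀ l k, der l (z k) = if l = k then 1 else 0) : AlgebraicIndependent ℂ z := by
  rw [algebraicIndependent_iff]
  intro p hp
  have h1 : taylorG der hc (AlgHom.id ℂ K) (MvPolynomial.aeval z p) = 0 := by rw [hp, map_zero]
  rw [MvPolynomial.comp_aeval_apply] at h1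
  let c : MvPolynomial (Fin n) K →ₐ[ℂ] MvPowerSeries (Fin n) K :=
    { MvPolynomial.coeToMvPowerSeries.ringHom (σ := Fin n) (R := K) with
      commutes' := fun r => by
        change ((algebraMap ℂ (MvPolynomial (Fin n) K) r : MvPolynomial (Fin n) K) :
          MvPowerSeries (Fin n) K) = _
        rw [IsScalarTower.algebraMap_apply ℂ K (MvPolynomial (Fin n) K),
          MvPolynomial.algebraMap_eq, MvPolynomial.coe_C]
        exact (MvPowerSeries.algebraMap_apply (r := r)).symm }
  have hc' : ∀ q : MvPolynomial (Fin n) K, c q = (q : MvPowerSeries (Fin n) K) := fun q => rfl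
  let e : Fin n → MvPolynomial (Fin n) K := fun k => MvPolynomial.C (z k) + MvPolynomial.X k
  have h2 : (fun k => taylorG der hc (AlgHom.id ℂ K) (z k)) = fun k => c (e k) := by
    funext k
    rw [genericArc_taylor_coord der hc z hz, hc']
    simp [e]
  rw [h2, ← MvPolynomial.comp_aeval_apply, hc'] at h1
  have h4 : MvPolynomial.aeval (R := ℂ) e p = 0 := by exact_mod_cast h1
  let g : MvPolynomial (Fin n) K →ₐ[ℂ] MvPolynomial (Fin n) K :=
    (MvPolynomial.aeval (R := K) (fun k => (MvPolynomial.X k - MvPolynomial.C (z k) :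
        MvPolynomial (Fin n) K))).restrictScalars ℂ
  have h5 : g (MvPolynomial.aeval (R := ℂ) e p) = MvPolynomial.map (algebraMap ℂ K) p := by
    rw [MvPolynomial.comp_aeval_apply]
    have h6 : (fun k => g (e k)) = fun k => (MvPolynomial.X k : MvPolynomial (Fin n) K) := by
      funext k
      simp [g, e]
    rw [h6]
    clear h1 h4 h6 hp
    induction p using MvPolynomial.induction_on with
    | C a =>
      rw [MvPolynomial.map_C, MvPolynomial.aeval_C,
        IsScalarTower.algebraMap_apply ℂ K (MvPolynomial (Fin n) K), MvPolynomial.algebraMap_eq]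
    | add p q hp hq => rw [map_add, map_add, hp, hq]
    | mul_X p k hp => rw [map_mul, map_mul, hp]; simp
  rw [h4, map_zero] at h5
  exact (MvPolynomial.map_injective _ (algebraMap ℂ K).injective) (by rw [← h5, map_zero])

/-- A derivation preserving the kernel of a surjection descends. -/
theorem genericArc_desc {V κ : Type} [CommRing V] [CommRing κ] [Algebra ℂ V] [Algebra ℂ κ]
    [Algebra V κ] [IsScalarTower ℂ V κ] (hs : Function.Surjective (algebraMap V κ))
    (d : Derivation ℂ V V)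
    (hd : ∀ f, algebraMap V κ f = 0 → algebraMap V κ (d f) = 0) :
    ∃ e : Derivation ℂ κ κ, ∀ f, e (algebraMap V κ f) = algebraMap V κ (d f) := by
  choose g hg using hs
  have key : ∀ f f', algebraMap V κ f = algebraMap V κ f' →
      algebraMap V κ (d f) = algebraMap V κ (d f') := by
    intro f f' h
    have := hd (f - f') (by rw [map_sub, h, sub_self])
    rw [map_sub, map_sub, sub_eq_zero] at this
    exact this
  let E : κ →ₗ[ℂ] κ :=
    { toFun := fun c => algebraMap V κ (d (g c))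
      map_add' := fun c c' => by
        rw [← map_add, ← map_add]
        exact key _ _ (by rw [hg, map_add, hg, hg])
      map_smul' := fun z c => by
        have h1 : algebraMap V κ (d (g (z • c))) = algebraMap V κ (d (z • g c)) := by
          refine key _ _ ?_
          rw [hg, Algebra.smul_def, Algebra.smul_def, map_mul, hg,
            ← IsScalarTower.algebraMap_apply]
        rw [h1, Derivation.map_smul, Algebra.smul_def, map_mul, ← IsScalarTower.algebraMap_apply,
          RingHom.id_apply, Algebra.smul_def] }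
  have hE : ∀ f, E (algebraMap V κ f) = algebraMap V κ (d f) := fun f =>
    key _ _ (hg _)
  refine ⟨Derivation.mk' E ?_, hE⟩
  intro c c'
  obtain ⟨f, rfl⟩ : ∃ f, algebraMap V κ f = c := ⟨g c, hg c⟩
  obtain ⟨f', rfl⟩ : ∃ f, algebraMap V κ f = c' := ⟨g c', hg c'⟩
  rw [← map_mul, hE, hE, hE, Derivation.leibniz, map_add, smul_eq_mul, smul_eq_mul, smul_eq_mul,
    smul_eq_mul, map_mul, map_mul]

/-- A03: let `V` be a discrete valuation ring with coordinates `t, w_l` as in A01, A02. There are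
a field `L` and a homomorphism `Φ : V → L⟦X⟧` with `ord Φ(f) = v(f)` such that the derivations of
`L`, acting coefficientwise, realise all prescribed values on `Φ t` (divisible by `X`) and on the
`Φ (w_l)`. Construction: `κ` the residue field, `L = Frac κ[a_i, b_{l,i+1}]`,
`T = ∑ a_i X^{i+1}`, `U_l = ∑ b_{l,i+1} X^{i+1}`,
`Φ f = ∑_α (residue of δ^α f) / α! · T^{α_0} U^{α'}`. -/
theorem exists_generic_arc (V : Type) [CommRing V] [IsDomain V] [IsDiscreteValuationRing V]
    [Algebra ℂ V] (r : ℕ) (t : V) (w : Fin r → V) (ht : Irreducible t)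
    (δt : Derivation ℂ V V) (δ : Fin r → Derivation ℂ V V)
    (h1 : δt t = 1) (h2 : ∀ l, δt (w l) = 0) (h3 : ∀ l, δ l t = 0)
    (h4 : ∀ l k, δ l (w k) = if l = k then 1 else 0)
    (h5 : ∀ f, KaehlerDifferential.D ℂ V f = δt f • KaehlerDifferential.D ℂ V t +
        ∑ l, δ l f • KaehlerDifferential.D ℂ V (w l))
    (h6 : ∀ l f, δt (δ l f) = δ l (δt f)) (h7 : ∀ l k f, δ l (δ k f) = δ k (δ l f)) :
    ∃ (L : Type) (_ : Field L) (_ : Algebra ℂ L) (Φ : V →ₐ[ℂ] L⟦X⟧),
      (∀ f, (Φ f).order = IsDiscreteValuationRing.addVal V f) ∧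
      ∀ (ζ₀ : L⟦X⟧) (ζ : Fin r → L⟦X⟧), X ∣ ζ₀ →
        ∃ d : Derivation ℂ L L, hat d (Φ t) = ζ₀ ∧ ∀ l, hat d (Φ (w l)) = ζ l := by
  classical
  let κ : Type := IsLocalRing.ResidueField V
  let σ : Type := Option (Fin r) × ℕ
  let L : Type := FractionRing (MvPolynomial σ κ)
  -- the point
  let x : V →ₐ[ℂ] L := (IsScalarTower.toAlgHom ℂ κ L).comp (IsScalarTower.toAlgHom ℂ V κ)
  let cc : σ → L := fun s => algebraMap (MvPolynomial σ κ) L (MvPolynomial.X s)
  let der : Fin (r + 1) → Derivation ℂ V V := Fin.cons δt δ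
  let y : Fin (r + 1) → V := Fin.cons t w
  have hc : ∀ l k b, der l (der k b) = der k (der l b) := by
    intro l k b
    refine Fin.cases ?_ (fun l => ?_) l <;> refine Fin.cases ?_ (fun k => ?_) k
    · rfl
    · exact h6 k b
    · exact (h6 l b).symm
    · exact h7 l k b
  have hy : ∀ l k, der l (y k) = if l = k then 1 else 0 := by
    intro l k
    refine Fin.cases ?_ (fun l => ?_) l <;> refine Fin.cases ?_ (fun k => ?_) k
    · simpa [der, y] using h1
    · simpa [der, y, Fin.succ_ne_zero, (Fin.succ_ne_zero _).symm] using h2 k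
    · simpa [der, y, Fin.succ_ne_zero] using h3 l
    · simpa [der, y] using h4 l k
  -- the arc
  let idx : Fin (r + 1) → Option (Fin r) := Fin.cons none some
  let a : Fin (r + 1) → L⟦X⟧ := fun k => PowerSeries.mk fun i =>
    if i = 0 then 0 else cc (idx k, i)
  have ha0 : ∀ k, MvPowerSeries.constantCoeff (a k) = 0 := by
    intro k
    change PowerSeries.constantCoeff (a k) = 0
    rw [← PowerSeries.coeff_zero_eq_constantCoeff_apply]
    simp [a]
  have ha : MvPowerSeries.HasSubst a := MvPowerSeries.hasSubst_of_constantCoeff_zero ha0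
  have hxt : x t = 0 := by
    change algebraMap κ L (algebraMap V κ t) = 0
    have : algebraMap V κ t = 0 := by
      change IsLocalRing.residue V t = 0
      rw [IsLocalRing.residue_eq_zero_iff, ht.maximalIdeal_eq]
      exact Ideal.mem_span_singleton_self t
    rw [this, map_zero]
  have hcc : ∀ s, cc s ≠ 0 := by
    intro s h
    have := (map_eq_zero_iff _ (IsFractionRing.injective (MvPolynomial σ κ) L)).1 h
    exact MvPolynomial.X_ne_zero s this
  let sb : MvPowerSeries (Fin (r + 1)) L →ₐ[L] L⟦X⟧ := MvPowerSeries.substAlgHom ha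
  let Φ : V →ₐ[ℂ] L⟦X⟧ := (sb.restrictScalars ℂ).comp (taylorG der hc x)
  have hsbC : ∀ c : L, sb (MvPowerSeries.C c) = C c := by
    intro c
    exact sb.commutes c
  have hΦy : ∀ k, Φ (y k) = C (x (y k)) + a k := by
    intro k
    change sb (taylorG der hc x (y k)) = _
    rw [genericArc_taylor_coord der hc y hy x k, map_add, hsbC]
    congr 1
    exact MvPowerSeries.substAlgHom_X ha k
  have hΦ0 : ∀ f, constantCoeff (Φ f) = x f := by
    intro f
    have e1 : MvPowerSeries.constantCoeff (taylorG der hc x f) = x f := by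
      rw [← MvPowerSeries.coeff_zero_eq_constantCoeff_apply, coeff_taylorG, tayG, ddG_zero]
      simp
    have e2 : Φ f = sb (taylorG der hc x f - MvPowerSeries.C (x f)) + C (x f) := by
      rw [map_sub, hsbC, sub_add_cancel]
      rfl
    rw [e2, map_add, constantCoeff_C]
    have e3 : MvPowerSeries.constantCoeff (taylorG der hc x f - MvPowerSeries.C (x f)) = 0 := by
      rw [map_sub, e1, MvPowerSeries.constantCoeff_C, sub_self]
    have e4 := MvPowerSeries.constantCoeff_subst_eq_zero ha ha0 e3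
    have e5 : constantCoeff (sb (taylorG der hc x f - MvPowerSeries.C (x f))) = 0 := by
      change MvPowerSeries.constantCoeff (sb _) = 0
      rw [← e4]
      congr 1
      exact congrFun (MvPowerSeries.coe_substAlgHom ha) _
    rw [e5, zero_add]
  have hΦt : Φ t = a 0 := by
    have := hΦy 0
    simp only [y, Fin.cons_zero, hxt, map_zero, zero_add] at this
    exact this
  have hΦw : ∀ l, Φ (w l) = C (x (w l)) + a l.succ := by
    intro l
    have := hΦy l.succ
    simpa only [y, Fin.cons_succ] using this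
  refine ⟨L, inferInstance, inferInstance, Φ, ?_, ?_⟩
  · -- orders
    have hot : (Φ t).order = 1 := by
      rw [hΦt]
      have : ((1 : ℕ) : ℕ∞) = 1 := rfl
      rw [← this, PowerSeries.order_eq_nat]
      constructor
      · simp only [a, coeff_mk, one_ne_zero, if_false]
        exact hcc _
      · intro i hi
        have : i = 0 := by omega
        subst this
        simp [a]
    intro f
    by_cases hf : f = 0
    · subst hf; simp
    · obtain ⟨k, u, rfl⟩ := IsDiscreteValuationRing.eq_unit_mul_pow_irreducible hf ht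
      have hu : (Φ u).order = 0 := by
        have h := hΦ0 (u : V)
        have hxu : x (u : V) ≠ 0 := (u.isUnit.map x).ne_zero
        have : ((0 : ℕ) : ℕ∞) = 0 := rfl
        rw [← this, PowerSeries.order_eq_nat]
        refine ⟨?_, fun i hi => absurd hi (Nat.not_lt_zero i)⟩
        rw [coeff_zero_eq_constantCoeff_apply, h]
        exact hxu
      rw [map_mul, map_pow, PowerSeries.order_mul, PowerSeries.order_pow, hot, hu]
      rw [IsDiscreteValuationRing.addVal_def _ u ht k rfl]
      simp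
  · -- derivations
    intro ζ₀ ζ hζ₀
    have hex : ∀ l, ∃ e : Derivation ℂ κ κ, ∀ f, e (algebraMap V κ f) =
        algebraMap V κ (δ l f) := by
      intro l
      refine genericArc_desc (V := V) (κ := κ) IsLocalRing.residue_surjective (δ l) ?_
      intro f hf
      have hf' : f ∈ IsLocalRing.maximalIdeal V := by
        rw [← IsLocalRing.residue_eq_zero_iff]; exact hf
      rw [ht.maximalIdeal_eq, Ideal.mem_span_singleton] at hf'
      obtain ⟨g, rfl⟩ := hf'
      rw [Derivation.leibniz, h3, smul_zero, add_zero, smul_eq_mul, map_mul]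
      have : algebraMap V κ t = 0 := by
        change IsLocalRing.residue V t = 0
        rw [IsLocalRing.residue_eq_zero_iff, ht.maximalIdeal_eq]
        exact Ideal.mem_span_singleton_self t
      rw [this, zero_mul]
    choose e he using hex
    have hAI : AlgebraicIndependent ℂ (fun l => algebraMap V κ (w l)) := by
      refine genericArc_algInd e ?_ _ ?_
      · intro l k b
        obtain ⟨f, rfl⟩ := IsLocalRing.residue_surjective (R := V) b
        change e l (e k (algebraMap V κ f)) = e k (e l (algebraMap V κ f))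
        rw [he, he, he, he, h7]
      · intro l k
        rw [he, h4]
        split_ifs <;> simp
    have hAI2 : AlgebraicIndependent κ cc := by
      have := (MvPolynomial.algebraicIndependent_X σ κ).map'
        (f := IsScalarTower.toAlgHom κ (MvPolynomial σ κ) L)
        (IsFractionRing.injective (MvPolynomial σ κ) L)
      exact this
    have hAI3 := hAI.sumElim_comp hAI2
    obtain ⟨d, hd⟩ := exists_derivation _ hAI3
      (Sum.elim (fun s : σ => s.1.elim (coeff s.2 ζ₀) (fun l => coeff s.2 (ζ l)))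
        (fun l => coeff 0 (ζ l)))
    have hd1 : ∀ i, d (cc (none, i)) = coeff i ζ₀ := fun i => hd (Sum.inl (none, i))
    have hd2 : ∀ l i, d (cc (some l, i)) = coeff i (ζ l) := fun l i => hd (Sum.inl (some l, i))
    have hd3 : ∀ l, d (x (w l)) = coeff 0 (ζ l) := fun l => hd (Sum.inr l)
    refine ⟨d, ?_, ?_⟩
    · rw [hΦt]
      ext i
      rw [coeff_hat]
      simp only [a, coeff_mk]
      by_cases hi : i = 0
      · subst hi
        rw [if_pos rfl, map_zero, coeff_zero_eq_constantCoeff_apply, eq_comm,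
          ← X_dvd_iff]
        exact hζ₀
      · rw [if_neg hi]
        exact hd1 i
    · intro l
      rw [hΦw]
      ext i
      rw [coeff_hat, map_add, coeff_C]
      simp only [a, coeff_mk]
      by_cases hi : i = 0
      · subst hi
        rw [if_pos rfl, if_pos rfl, add_zero]
        exact hd3 l
      · rw [if_neg hi, if_neg hi, zero_add]
        exact hd2 l i

end Pool.Agent.Lib_GD

end

/-! ### from `Lib_GD.Growth` -/

section

/-! G03: finiteness and growth of the graded pieces. -/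

namespace Pool.Agent.Lib_GD

variable {R : Type} [CommRing R] [Algebra ℂ R] {𝒜 : ℕ → Submodule ℂ R} [GradedAlgebra 𝒜] {n : ℕ}


/-- homogeneous generators of the irrelevant ideal -/
private theorem Growth_gen (h : IsSmoothPolarised 𝒜 n) :
    ∃ (S : Finset R) (e : R → ℕ), (∀ a ∈ S, 1 ≤ e a) ∧
      ∀ m, 1 ≤ m → ∀ x ∈ 𝒜 m, ∃ y : R → R,
        (∀ a ∈ S, y a = 0 ∨ (e a ≤ m ∧ y a ∈ 𝒜 (m - e a))) ∧ x = ∑ a ∈ S, y a * a := by
  classical
  have h1 := h.finiteType
  have hN : IsNoetherianRing R := Algebra.FiniteType.isNoetherianRing ℂ R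
  obtain ⟨S, hS, hspan⟩ := (Submodule.fg_span_iff_fg_span_finset_subset (R := R)
    {x : R | ∃ d, 1 ≤ d ∧ x ∈ 𝒜 d}).1 (IsNoetherian.noetherian _)
  have hS' : ∀ a ∈ S, ∃ d, 1 ≤ d ∧ a ∈ 𝒜 d := fun a ha => hS ha
  choose! e he1 he2 using hS'
  refine ⟨S, e, he1, ?_⟩
  intro m hm x hx
  have hx1 : x ∈ Submodule.span R (S : Set R) := by
    rw [← hspan]
    exact Submodule.subset_span ⟨m, hm, hx⟩
  obtain ⟨f, _, hf⟩ := Submodule.mem_span_finset.1 hx1
  refine ⟨fun a => if e a ≤ m then (DirectSum.decompose 𝒜 (f a) (m - e a) : R) else 0, ?_, ?_⟩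
  · intro a _
    by_cases h2 : e a ≤ m
    · right
      refine ⟨h2, ?_⟩
      simp only [h2, if_true]
      exact SetLike.coe_mem _
    · left
      simp only [h2, if_false]
  · have h3 : x = GradedRing.proj 𝒜 m x := by
      rw [GradedRing.proj_apply, DirectSum.decompose_of_mem_same 𝒜 hx]
    rw [h3]
    conv_lhs => rw [← hf]
    rw [map_sum]
    refine Finset.sum_congr rfl fun a ha => ?_
    rw [smul_eq_mul, GradedRing.proj_apply, DirectSum.coe_decompose_mul_of_right_mem 𝒜 m (he2 a ha)]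
    by_cases h2 : e a ≤ m
    · simp only [h2, if_true]
    · simp only [h2, if_false, zero_mul]

theorem finite_graded (h : IsSmoothPolarised 𝒜 n) (m : ℕ) : Module.Finite ℂ (𝒜 m) := by
  classical
  obtain ⟨S, e, he, hgen⟩ := Growth_gen h
  rw [Module.Finite.iff_fg]
  induction m using Nat.strong_induction_on with
  | _ m ih =>
    rcases Nat.eq_zero_or_pos m with rfl | hm
    · rw [h.connected, Algebra.toSubmodule_bot, Submodule.one_eq_span]
      exact Submodule.fg_span_singleton _
    · have h1 : (⨆ a ∈ S, if e a ≤ m then (𝒜 (m - e a)).map (LinearMap.mulRight ℂ a) else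
          (⊥ : Submodule ℂ R)).FG := by
        refine Submodule.fg_biSup S _ fun a ha => ?_
        by_cases h2 : e a ≤ m
        · simp only [h2, if_true]
          exact (ih (m - e a) (by have := he a ha; omega)).map _
        · simp only [h2, if_false]
          exact Submodule.fg_bot
      refine Submodule.FG.of_le h1 fun x hx => ?_
      obtain ⟨y, hy, rfl⟩ := hgen m hm x hx
      refine Submodule.sum_mem _ fun a ha => ?_
      rcases hy a ha with h2 | ⟨h2, h3⟩
      · rw [h2, zero_mul]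
        exact Submodule.zero_mem _
      · refine Submodule.mem_iSup_of_mem a (Submodule.mem_iSup_of_mem ha ?_)
        simp only [h2, if_true]
        exact ⟨y a, h3, rfl⟩

/-- the polynomials of bounded degree times the module generators -/
private noncomputable def GrowthW {s K : ℕ} (G : MvPolynomial (Fin s) ℂ →ₐ[ℂ] R) (g : Fin K → R)
    (D : ℕ) : Submodule ℂ R :=
  Submodule.span ℂ (Set.range fun p : (Fin s → Fin (D + 1)) × Fin K =>
    G (MvPolynomial.monomial (Finsupp.equivFunOnFinite.symm fun i => (p.1 i : ℕ)) 1) * g p.2)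

private theorem GrowthW_mono' {s K : ℕ} (G : MvPolynomial (Fin s) ℂ →ₐ[ℂ] R) (g : Fin K → R)
    (D : ℕ) (α : Fin s →₀ ℕ) (hα : ∀ i, α i ≤ D) (k : Fin K) :
    G (MvPolynomial.monomial α 1) * g k ∈ GrowthW G g D := by
  refine Submodule.subset_span ⟨(fun i => ⟨α i, by have := hα i; omega⟩, k), ?_⟩
  have h1 : (Finsupp.equivFunOnFinite.symm fun i => α i) = α := by
    ext i
    rfl
  simp only [h1]

private theorem GrowthW_poly {s K : ℕ} (G : MvPolynomial (Fin s) ℂ →ₐ[ℂ] R) (g : Fin K → R)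
    (D : ℕ) (P : MvPolynomial (Fin s) ℂ) (hP : ∀ i, P.degreeOf i ≤ D) (k : Fin K) :
    G P * g k ∈ GrowthW G g D := by
  have h0 : G P = ∑ α ∈ P.support, G (MvPolynomial.monomial α (MvPolynomial.coeff α P)) := by
    conv_lhs => rw [P.as_sum, map_sum]
  rw [h0, Finset.sum_mul]
  refine Submodule.sum_mem _ fun α hα => ?_
  have h1 : MvPolynomial.monomial α (MvPolynomial.coeff α P) =
      MvPolynomial.coeff α P • MvPolynomial.monomial α (1 : ℂ) := by
    rw [MvPolynomial.smul_monomial, smul_eq_mul, mul_one]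
  rw [h1, map_smul, smul_mul_assoc]
  exact Submodule.smul_mem _ _ (GrowthW_mono' G g D α
    (fun i => (MvPolynomial.monomial_le_degreeOf i hα).trans (hP i)) k)

private theorem GrowthW_le {s K : ℕ} (G : MvPolynomial (Fin s) ℂ →ₐ[ℂ] R) (g : Fin K → R)
    {D D' : ℕ} (hD : D ≤ D') : GrowthW G g D ≤ GrowthW G g D' := by
  refine Submodule.span_le.2 ?_
  rintro _ ⟨p, rfl⟩
  refine GrowthW_mono' G g D' _ (fun i => ?_) p.2
  have := (p.1 i).isLt
  change (p.1 i : ℕ) ≤ D'
  omega

private theorem GrowthW_card {s K : ℕ} (G : MvPolynomial (Fin s) ℂ →ₐ[ℂ] R) (g : Fin K → R)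
    (D : ℕ) : Module.finrank ℂ (GrowthW G g D) ≤ (D + 1) ^ s * K := by
  refine (finrank_range_le_card _).trans (le_of_eq ?_)
  rw [Fintype.card_prod, Fintype.card_fun, Fintype.card_fin, Fintype.card_fin, Fintype.card_fin]

private theorem GrowthW_mul {s K : ℕ} (G : MvPolynomial (Fin s) ℂ →ₐ[ℂ] R) (g : Fin K → R)
    (c : ℕ) (a : R) (P : Fin K → Fin K → MvPolynomial (Fin s) ℂ)
    (hP : ∀ i k j, (P i k).degreeOf j ≤ c) (ha : ∀ i, a * g i = ∑ k, G (P i k) * g k)
    (D : ℕ) (w : R) (hw : w ∈ GrowthW G g D) : a * w ∈ GrowthW G g (D + c) := by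
  unfold GrowthW at hw
  induction hw using Submodule.span_induction with
  | mem x hx =>
    obtain ⟨p, rfl⟩ := hx
    have h1 : a * (G (MvPolynomial.monomial (Finsupp.equivFunOnFinite.symm
        fun i => (p.1 i : ℕ)) 1) * g p.2) = ∑ k, G (MvPolynomial.monomial
        (Finsupp.equivFunOnFinite.symm fun i => (p.1 i : ℕ)) 1 * P p.2 k) * g k := by
      rw [mul_left_comm, ha, Finset.mul_sum]
      refine Finset.sum_congr rfl fun k _ => ?_
      rw [map_mul, mul_assoc]
    simp only [h1]
    refine Submodule.sum_mem _ fun k _ => GrowthW_poly G g _ _ (fun j => ?_) k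
    refine (MvPolynomial.degreeOf_mul_le j _ _).trans ?_
    rw [MvPolynomial.degreeOf_monomial_eq _ _ one_ne_zero]
    have h2 := (p.1 j).isLt
    have h3 := hP p.2 k j
    change (p.1 j : ℕ) + _ ≤ D + c
    omega
  | zero =>
    rw [mul_zero]
    exact Submodule.zero_mem _
  | add x y _ _ hx hy =>
    rw [mul_add]
    exact Submodule.add_mem _ hx hy
  | smul r x _ hx =>
    rw [mul_smul_comm]
    exact Submodule.smul_mem _ _ hx

/-- non-zero elements of all large degrees -/
private theorem Growth_large (h : IsSmoothPolarised 𝒜 n)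
    (h0 : ∃ d > 0, ∃ f ∈ 𝒜 d, f ≠ 0) : ∃ j₀, ∀ j, j₀ ≤ j → ∃ f ∈ 𝒜 j, f ≠ 0 := by
  have hdom := h.domain
  obtain ⟨d, f, hf, g, hg, hf0, hg0⟩ := h.line ⊥ Ideal.isPrime_bot (by
    obtain ⟨d, hd, f, hf, hf0⟩ := h0
    exact ⟨d, hd, f, hf, fun hc => hf0 (by simpa using hc)⟩)
  have hf0' : f ≠ 0 := fun hc => hf0 (by simp [hc])
  have hg0' : g ≠ 0 := fun hc => hg0 (by simp [hc])
  rcases Nat.eq_zero_or_pos d with rfl | hd
  · refine ⟨0, fun j _ => ⟨g ^ j, ?_, pow_ne_zero _ hg0'⟩⟩
    have := SetLike.pow_mem_graded j hg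
    simpa using this
  · refine ⟨d * d, fun j hj => ⟨f ^ (j / d - j % d) * g ^ (j % d), ?_,
      mul_ne_zero (pow_ne_zero _ hf0') (pow_ne_zero _ hg0')⟩⟩
    have h1 := SetLike.mul_mem_graded (SetLike.pow_mem_graded (j / d - j % d) hf)
      (SetLike.pow_mem_graded (j % d) hg)
    have h2 : j % d < d := Nat.mod_lt _ hd
    have h3 : d ≤ j / d := (Nat.le_div_iff_mul_le hd).2 hj
    have h4 : (j / d - j % d) • d + (j % d) • (d + 1) = j := by
      rw [smul_eq_mul, smul_eq_mul, mul_add, mul_one, ← add_assoc, ← add_mul,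
        Nat.sub_add_cancel (by omega)]
      exact Nat.div_add_mod' j d
    rwa [h4] at h1

/-- `N_m ≤ C m^n`. -/
theorem secDim_le (h : IsSmoothPolarised 𝒜 n) :
    ∃ C : ℕ, ∀ m, 1 ≤ m → secDim 𝒜 m ≤ C * m ^ n := by
  classical
  by_cases h0 : ∃ d > 0, ∃ f ∈ 𝒜 d, f ≠ 0
  swap
  · refine ⟨0, fun m hm => ?_⟩
    push Not at h0
    have h1 : 𝒜 m = ⊥ := by
      rw [Submodule.eq_bot_iff]
      exact fun x hx => h0 m hm x hx
    unfold secDim
    rw [h1, finrank_bot]
    exact Nat.zero_le _
  obtain ⟨j₀, hj₀⟩ := Growth_large h h0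
  choose! H hH1 hH2 using hj₀
  obtain ⟨S, e, he, hgen⟩ := Growth_gen h
  have hfin := fun m => finite_graded h m
  have hdom := h.domain
  have hft := h.finiteType
  obtain ⟨s, G, hG, hGfin⟩ := exists_finite_inj_algHom_of_fg ℂ R
  have hs : s ≤ n + 1 := by
    have h1 : AlgebraicIndependent ℂ (fun i => G (MvPolynomial.X i)) := by
      rw [algebraicIndependent_iff_injective_aeval]
      have h2 : MvPolynomial.aeval (fun i => G (MvPolynomial.X i)) = G := by
        refine MvPolynomial.algHom_ext fun i => ?_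
        rw [MvPolynomial.aeval_X]
      rw [h2]
      exact hG
    have h3 := h1.cardinalMk_le_trdeg
    rw [h.dim, Cardinal.mk_fin] at h3
    exact_mod_cast h3
  have hK : ∃ (K : ℕ) (g : Fin K → R), ∀ x : R, ∃ P : Fin K → MvPolynomial (Fin s) ℂ,
      x = ∑ k, G (P k) * g k := by
    let := G.toRingHom.toAlgebra
    have : Module.Finite (MvPolynomial (Fin s) ℂ) R := hGfin
    obtain ⟨K, g, hg⟩ := Module.Finite.exists_fin (R := MvPolynomial (Fin s) ℂ) (M := R)
    refine ⟨K, g, fun x => ?_⟩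
    have hx : x ∈ Submodule.span (MvPolynomial (Fin s) ℂ) (Set.range g) := by
      rw [hg]
      trivial
    obtain ⟨P, hP⟩ := (Submodule.mem_span_range_iff_exists_fun _).1 hx
    exact ⟨P, hP.symm⟩
  obtain ⟨K, g, hg⟩ := hK
  choose P hP using hg
  -- the degree constant
  obtain ⟨c, hc1, hc2⟩ : ∃ c, (∀ a ∈ S, ∀ i k j, (P (a * g i) k).degreeOf j ≤ c) ∧
      ∀ k j, (P 1 k).degreeOf j ≤ c := by
    refine ⟨(S.sup fun a => Finset.univ.sup fun i => Finset.univ.sup fun k =>
      Finset.univ.sup fun j => (P (a * g i) k).degreeOf j) +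
      (Finset.univ.sup fun k => Finset.univ.sup fun j => (P 1 k).degreeOf j), ?_, ?_⟩
    · intro a ha i k j
      refine le_trans ?_ (Nat.le_add_right _ _)
      refine le_trans ?_ (Finset.le_sup (f := fun a => Finset.univ.sup fun i =>
        Finset.univ.sup fun k => Finset.univ.sup fun j => (P (a * g i) k).degreeOf j) ha)
      refine le_trans ?_ (Finset.le_sup (f := fun i =>
        Finset.univ.sup fun k => Finset.univ.sup fun j => (P (a * g i) k).degreeOf j)
        (Finset.mem_univ i))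
      refine le_trans ?_ (Finset.le_sup (f := fun k =>
        Finset.univ.sup fun j => (P (a * g i) k).degreeOf j) (Finset.mem_univ k))
      exact Finset.le_sup (f := fun j => (P (a * g i) k).degreeOf j) (Finset.mem_univ j)
    · intro k j
      refine le_trans ?_ (Nat.le_add_left _ _)
      refine le_trans ?_ (Finset.le_sup (f := fun k =>
        Finset.univ.sup fun j => (P 1 k).degreeOf j) (Finset.mem_univ k))
      exact Finset.le_sup (f := fun j => (P 1 k).degreeOf j) (Finset.mem_univ j)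
  have hmain : ∀ m, 𝒜 m ≤ GrowthW G g (c * (m + 1)) := by
    intro m
    induction m using Nat.strong_induction_on with
    | _ m ih =>
      rcases Nat.eq_zero_or_pos m with rfl | hm
      · rw [h.connected, Algebra.toSubmodule_bot, Submodule.one_eq_span, Submodule.span_le,
          Set.singleton_subset_iff, SetLike.mem_coe, hP 1]
        refine Submodule.sum_mem _ fun k _ => GrowthW_poly G g _ _ (fun j => ?_) k
        have := hc2 k j
        simpa using this
      · intro x hx
        obtain ⟨y, hy, rfl⟩ := hgen m hm x hx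
        refine Submodule.sum_mem _ fun a ha => ?_
        rcases hy a ha with h2 | ⟨h2, h3⟩
        · rw [h2, zero_mul]
          exact Submodule.zero_mem _
        · have h4 := ih (m - e a) (by have := he a ha; omega) h3
          have h5 := GrowthW_mul G g c a (fun i k => P (a * g i) k)
            (fun i k j => hc1 a ha i k j) (fun i => hP (a * g i)) _ _ h4
          rw [mul_comm (y a) a]
          refine GrowthW_le G g ?_ h5
          have h6 : m - e a + 1 + 1 ≤ m + 1 := by
            have := he a ha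
            omega
          calc c * (m - e a + 1) + c = c * (m - e a + 1 + 1) := by ring
            _ ≤ c * (m + 1) := Nat.mul_le_mul_left c h6
  refine ⟨(c * (j₀ + 3) + 1) ^ (n + 1) * K, fun m hm => ?_⟩
  -- multiplication by sections of degrees `j₀, ..., j₀ + m - 1`
  set Φ : (Fin m → 𝒜 m) →ₗ[ℂ] R := ∑ j : Fin m,
    (LinearMap.mulLeft ℂ (H (j₀ + j))).comp ((𝒜 m).subtype.comp (LinearMap.proj j)) with hΦ
  have hΦa : ∀ x, Φ x = ∑ j : Fin m, H (j₀ + j) * (x j : R) := by
    intro x
    rw [hΦ, LinearMap.sum_apply]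
    rfl
  have hmem : ∀ (x : Fin m → 𝒜 m) (j : Fin m), H (j₀ + j) * (x j : R) ∈ 𝒜 (j₀ + j + m) :=
    fun x j => SetLike.mul_mem_graded (hH1 (j₀ + j) (Nat.le_add_right _ _)) (x j).2
  have hinj : Function.Injective Φ := by
    rw [← LinearMap.ker_eq_bot, LinearMap.ker_eq_bot']
    intro x hx
    rw [hΦa] at hx
    funext i
    have h1 : GradedRing.proj 𝒜 (j₀ + i + m) (∑ j : Fin m, H (j₀ + j) * (x j : R)) = 0 := by
      rw [hx, map_zero]
    rw [map_sum, Finset.sum_eq_single i] at h1
    · rw [GradedRing.proj_apply, DirectSum.decompose_of_mem_same 𝒜 (hmem x i)] at h1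
      rcases mul_eq_zero.1 h1 with h2 | h2
      · exact absurd h2 (hH2 _ (Nat.le_add_right _ _))
      · exact Subtype.ext h2
    · intro j _ hj
      rw [GradedRing.proj_apply]
      refine DirectSum.decompose_of_mem_ne 𝒜 (hmem x j) fun hc => hj ?_
      apply Fin.ext
      omega
    · intro hc
      exact absurd (Finset.mem_univ i) hc
  have hrange : LinearMap.range Φ ≤ GrowthW G g (c * (2 * m + j₀ + 1)) := by
    rintro _ ⟨x, rfl⟩
    rw [hΦa]
    refine Submodule.sum_mem _ fun j _ => ?_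
    refine GrowthW_le G g ?_ (hmain _ (hmem x j))
    have := j.isLt
    exact Nat.mul_le_mul_left c (by omega)
  have hfinW : Module.Finite ℂ (GrowthW G g (c * (2 * m + j₀ + 1))) := by
    unfold GrowthW
    exact FiniteDimensional.span_of_finite ℂ (Set.finite_range _)
  have h1 : m * secDim 𝒜 m ≤ (c * (2 * m + j₀ + 1) + 1) ^ s * K := by
    calc m * secDim 𝒜 m = Module.finrank ℂ (Fin m → 𝒜 m) := by
          rw [Module.finrank_pi_fintype]
          simp [secDim]
      _ = Module.finrank ℂ (LinearMap.range Φ) := (LinearMap.finrank_range_of_inj hinj).symm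
      _ ≤ Module.finrank ℂ (GrowthW G g (c * (2 * m + j₀ + 1))) := Submodule.finrank_mono hrange
      _ ≤ _ := GrowthW_card G g _
  have h2 : c * (2 * m + j₀ + 1) + 1 ≤ (c * (j₀ + 3) + 1) * m := by
    have h3 : 2 * m + j₀ + 1 ≤ (j₀ + 3) * m := by nlinarith
    calc c * (2 * m + j₀ + 1) + 1 ≤ c * ((j₀ + 3) * m) + m :=
          Nat.add_le_add (Nat.mul_le_mul_left c h3) hm
      _ = (c * (j₀ + 3) + 1) * m := by ring
  have h4 : (c * (2 * m + j₀ + 1) + 1) ^ s ≤ ((c * (j₀ + 3) + 1) * m) ^ (n + 1) :=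
    (Nat.pow_le_pow_left h2 s).trans (Nat.pow_le_pow_right (by positivity) hs)
  have h5 : m * secDim 𝒜 m ≤ m * ((c * (j₀ + 3) + 1) ^ (n + 1) * K * m ^ n) := by
    calc m * secDim 𝒜 m ≤ ((c * (j₀ + 3) + 1) * m) ^ (n + 1) * K :=
          h1.trans (Nat.mul_le_mul_right K h4)
      _ = m * ((c * (j₀ + 3) + 1) ^ (n + 1) * K * m ^ n) := by
          rw [mul_pow, pow_succ m n]
          ring
  exact Nat.le_of_mul_le_mul_left h5 hm

/-- The sections `secBasis 𝒜 m` form a basis of `𝒜 m`. -/
theorem secBasis_spec (h : IsSmoothPolarised 𝒜 n) (m : ℕ) :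
    (∀ i, secBasis 𝒜 m i ∈ 𝒜 m) ∧ LinearIndependent ℂ (secBasis 𝒜 m) ∧
      Submodule.span ℂ (Set.range (secBasis 𝒜 m)) = 𝒜 m := by
  have hfin := finite_graded h m
  have h1 : secBasis 𝒜 m = fun i => ((𝒜 m).subtype (Module.finBasis ℂ (𝒜 m) i) : R) := by
    funext i
    unfold secBasis
    rw [dif_pos hfin]
    rfl
  refine ⟨fun i => ?_, ?_, ?_⟩
  · rw [h1]
    exact (Module.finBasis ℂ (𝒜 m) i).2
  · rw [h1]
    exact (Module.finBasis ℂ (𝒜 m)).linearIndependent.map' (𝒜 m).subtype (Submodule.ker_subtype _)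
  · have h2 : Set.range (secBasis 𝒜 m) =
        (𝒜 m).subtype '' Set.range (Module.finBasis ℂ (𝒜 m)) := by
      ext x
      constructor
      · rintro ⟨i, rfl⟩
        exact ⟨_, ⟨i, rfl⟩, (congrFun h1 i).symm⟩
      · rintro ⟨_, ⟨i, rfl⟩, rfl⟩
        exact ⟨i, congrFun h1 i⟩
    rw [h2, Submodule.span_image, Module.Basis.span_eq, Submodule.map_top, Submodule.range_subtype]

end Pool.Agent.Lib_GD

end

/-! ### from `Lib_GD.Sep` -/

section

/-! G06: separation of jets. -/

open PowerSeries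

namespace Pool.Agent.Lib_GD

variable {R : Type} [CommRing R] [Algebra ℂ R] {𝒜 : ℕ → Submodule ℂ R} [GradedAlgebra 𝒜]
  {n : ℕ}

section Aux

variable {L : Type} [Field L] [Algebra ℂ L]

/-- the span over `L` of the Taylor expansions of the sections of degree `m` -/
private noncomputable def Sep_W (c : Chart 𝒜 n) (t : c.B →ₐ[ℂ] MvPowerSeries (Fin n) L) (m : ℕ) :
    Submodule L (MvPowerSeries (Fin n) L) :=
  Submodule.span L {f | ∃ s ∈ 𝒜 m, f = t (c.ρ s)}

private theorem Sep_mem (c : Chart 𝒜 n) (t : c.B →ₐ[ℂ] MvPowerSeries (Fin n) L) {m : ℕ} {s : R}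
    (hs : s ∈ 𝒜 m) : t (c.ρ s) ∈ Sep_W c t m :=
  Submodule.subset_span ⟨s, hs, rfl⟩

private theorem Sep_mul (c : Chart 𝒜 n) (t : c.B →ₐ[ℂ] MvPowerSeries (Fin n) L) {a b : ℕ}
    {f g : MvPowerSeries (Fin n) L} (hf : f ∈ Sep_W c t a) (hg : g ∈ Sep_W c t b) :
    f * g ∈ Sep_W c t (a + b) := by
  have h1 : Sep_W c t a * Sep_W c t b ≤ Sep_W c t (a + b) := by
    unfold Sep_W
    rw [Submodule.span_mul_span]
    refine Submodule.span_le.2 ?_
    rintro _ ⟨_, ⟨s, hs, rfl⟩, _, ⟨s', hs', rfl⟩, rfl⟩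
    refine Submodule.subset_span ⟨s * s', SetLike.mul_mem_graded hs hs', ?_⟩
    simp only [map_mul]
  exact h1 (Submodule.mul_mem_mul hf hg)

private theorem Sep_one (c : Chart 𝒜 n) (t : c.B →ₐ[ℂ] MvPowerSeries (Fin n) L) :
    (1 : MvPowerSeries (Fin n) L) ∈ Sep_W c t 0 := by
  have h := Sep_mem c t (SetLike.one_mem_graded 𝒜)
  rwa [map_one, map_one] at h

private theorem Sep_pow (c : Chart 𝒜 n) (t : c.B →ₐ[ℂ] MvPowerSeries (Fin n) L) {a : ℕ}
    {f : MvPowerSeries (Fin n) L} (hf : f ∈ Sep_W c t a) (k : ℕ) :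
    f ^ k ∈ Sep_W c t (a * k) := by
  induction k with
  | zero => simpa using Sep_one c t
  | succ k ih =>
    rw [pow_succ, mul_add, mul_one]
    exact Sep_mul c t ih hf

private theorem Sep_prod (c : Chart 𝒜 n) (t : c.B →ₐ[ℂ] MvPowerSeries (Fin n) L) {a : ℕ}
    {f : Fin n → MvPowerSeries (Fin n) L} (hf : ∀ l, f l ∈ Sep_W c t a) (β : Fin n → ℕ)
    (s : Finset (Fin n)) : ∏ l ∈ s, f l ^ β l ∈ Sep_W c t (a * ∑ l ∈ s, β l) := by
  classical
  induction s using Finset.induction_on with
  | empty => simpa using Sep_one c t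
  | insert l s hl ih =>
    rw [Finset.prod_insert hl, Finset.sum_insert hl, mul_add]
    exact Sep_mul c t (Sep_pow c t (hf l) _) ih

private theorem Sep_exists_add (α : Fin n →₀ ℕ) (h : α ≠ 0) :
    ∃ (α' : Fin n →₀ ℕ) (l : Fin n), α = α' + Finsupp.single l 1 := by
  obtain ⟨l, hl⟩ := Finsupp.ne_iff.1 h
  refine ⟨α - Finsupp.single l 1, l, ?_⟩
  rw [tsub_add_cancel_of_le]
  rw [Finsupp.single_le_iff]
  exact Nat.one_le_iff_ne_zero.2 hl

omit [GradedAlgebra 𝒜] in
private theorem Sep_dd_one (c : Chart 𝒜 n) (α : Fin n →₀ ℕ) (h : α ≠ 0) : c.dd α 1 = 0 := by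
  obtain ⟨α', l, rfl⟩ := Sep_exists_add α h
  rw [c.dd_add_single, Derivation.map_one_eq_zero, map_zero]

omit [GradedAlgebra 𝒜] in
private theorem Sep_taylor_y (c : Chart 𝒜 n) (x : c.B →ₐ[ℂ] L)
    (t : c.B →ₐ[ℂ] MvPowerSeries (Fin n) L)
    (ht : ∀ b α, MvPowerSeries.coeff α (t b) = c.tay x α b) (l : Fin n) :
    t (c.y l) = MvPowerSeries.C (x (c.y l)) + MvPowerSeries.X l := by
  classical
  ext α
  rw [ht, map_add, MvPowerSeries.coeff_C, MvPowerSeries.coeff_X]
  by_cases h0 : α = 0
  · subst h0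
    have h1 : (0 : Fin n →₀ ℕ) ≠ Finsupp.single l 1 := by
      intro h
      have := congrArg (fun f => f l) h
      simp at this
    rw [if_pos rfl, if_neg h1, Chart.tay, c.dd_zero]
    simp
  · obtain ⟨α', k, rfl⟩ := Sep_exists_add α h0
    rw [if_neg h0, zero_add, Chart.tay, c.dd_add_single, c.der_y]
    by_cases hα' : α' = 0
    · subst hα'
      rw [zero_add]
      by_cases hkl : k = l
      · subst hkl
        rw [if_pos rfl, if_pos rfl, c.dd_zero, map_one, mul_one]
        have h2 : ∏ j, ((Finsupp.single k 1 j).factorial : ℂ) = 1 := by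
          refine Finset.prod_eq_one fun j _ => ?_
          by_cases hj : k = j
          · subst hj; simp
          · rw [Finsupp.single_eq_of_ne (Ne.symm hj)]; simp
        rw [h2]; simp
      · have h3 : Finsupp.single k 1 ≠ Finsupp.single l 1 := by
          intro h
          exact hkl ((Finsupp.single_left_inj one_ne_zero).1 h)
        rw [if_neg hkl, if_neg h3, map_zero, map_zero, mul_zero]
    · have h4 : α' + Finsupp.single k 1 ≠ Finsupp.single l 1 := by
        intro h
        apply hα'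
        have h5 := congrArg Finsupp.degree h
        rw [map_add, Finsupp.degree_single, Finsupp.degree_single] at h5
        exact (Finsupp.degree_eq_zero_iff _).1 (by omega)
      rw [if_neg h4]
      split_ifs
      · rw [Sep_dd_one c α' hα', map_zero, mul_zero]
      · rw [map_zero, map_zero, mul_zero]

private theorem Sep_prod_X (β : Fin n →₀ ℕ) :
    ∏ l, (MvPowerSeries.X l : MvPowerSeries (Fin n) L) ^ β l = MvPowerSeries.monomial β 1 := by
  classical
  have h : ∀ s : Finset (Fin n), ∏ l ∈ s, (MvPowerSeries.X l : MvPowerSeries (Fin n) L) ^ β l =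
      MvPowerSeries.monomial (∑ l ∈ s, Finsupp.single l (β l)) 1 := by
    intro s
    induction s using Finset.induction_on with
    | empty => simp [MvPowerSeries.monomial_zero_one]
    | insert l s hl ih =>
      rw [Finset.prod_insert hl, Finset.sum_insert hl, ih, MvPowerSeries.X_pow_eq,
        MvPowerSeries.monomial_mul_monomial, one_mul]
  rw [h, Finsupp.univ_sum_single]

end Aux

/-- G06 (Sep): at every point of a chart with values in a field the jets of order `< q` of the
sections of degree `m` are independent functionals, for `q ≤ c₀ m`. -/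
theorem Chart.sep (h : IsSmoothPolarised 𝒜 n) (c : Chart 𝒜 n) :
    ∃ c₀ : ℝ, 0 < c₀ ∧ ∃ m₀ : ℕ, ∀ m, m₀ ≤ m → ∀ (L : Type) [Field L] [Algebra ℂ L]
      (x : c.B →ₐ[ℂ] L) (q : ℕ), (q : ℝ) ≤ c₀ * m →
      LinearIndependent L (fun α : {α : Fin n →₀ ℕ // α.degree < q} =>
        fun i : Fin (secDim 𝒜 m) => x (c.dd α.1 (c.ρ (secBasis 𝒜 m i)))) := by
  classical
  choose k Y hY hYρ using fun l => c.surj (c.y l)
  set K : ℕ := ∑ l, k l with hK
  have hkK : ∀ l, k l ≤ K := fun l => Finset.single_le_sum (fun _ _ => Nat.zero_le _)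
    (Finset.mem_univ l)
  refine ⟨1 / (2 * (c.d * K + 1)), by positivity, 2 * (c.d * c.e + 1) * c.d,
    fun m hm L _ _ x q hq => ?_⟩
  obtain ⟨t, ht⟩ := c.exists_taylor x
  set u : MvPowerSeries (Fin n) L := t (c.ρ c.F) with hu
  have hcoeff : ∀ b α, x (c.dd α b) =
      algebraMap ℂ L (∏ l, ((α l).factorial : ℂ)) * MvPowerSeries.coeff α (t b) := by
    intro b α
    rw [ht, Chart.tay, ← mul_assoc, ← map_mul, mul_inv_cancel₀, map_one, one_mul]
    exact Finset.prod_ne_zero_iff.2 fun l _ => by exact_mod_cast (Nat.factorial_ne_zero _)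
  have hu0 : MvPowerSeries.constantCoeff u ≠ 0 := by
    have h1 : IsUnit (x (c.ρ c.F)) := c.unit.map x
    have h2 : MvPowerSeries.coeff 0 u = x (c.ρ c.F) := by
      rw [hu, ht, Chart.tay, c.dd_zero]; simp
    rw [← MvPowerSeries.coeff_zero_eq_constantCoeff_apply, h2]
    exact h1.ne_zero
  -- the elements of the span
  have hFW : u ∈ Sep_W c t c.d := Sep_mem c t c.hF
  have hTW : u ^ c.e ∈ Sep_W c t (c.d * c.e + 1) := by
    have h1 := Sep_mem c t c.hT
    rwa [c.ρT, map_pow] at h1
  have hXW : ∀ l, MvPowerSeries.X l * u ^ K ∈ Sep_W c t (c.d * K) := by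
    intro l
    have h1 : Y l * c.F ^ (K - k l) ∈ 𝒜 (c.d * K) := by
      have h2 := SetLike.mul_mem_graded (hY l) (SetLike.pow_mem_graded (K - k l) c.hF)
      have h3 : c.d * k l + (K - k l) • c.d = c.d * K := by
        rw [smul_eq_mul, mul_comm (K - k l), ← mul_add, Nat.add_sub_cancel' (hkK l)]
      rwa [h3] at h2
    have h2 := Sep_mem c t h1
    have h3 : t (c.ρ (Y l * c.F ^ (K - k l))) =
        (MvPowerSeries.C (x (c.y l)) + MvPowerSeries.X l) * u ^ K := by
      rw [map_mul, ← hYρ, map_pow, mul_assoc, ← pow_add, Nat.add_sub_cancel' (hkK l), map_mul,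
        map_pow, Sep_taylor_y c x t ht]
    have h4 : u ^ K ∈ Sep_W c t (c.d * K) := Sep_pow c t hFW K
    have h5 : MvPowerSeries.X l * u ^ K = t (c.ρ (Y l * c.F ^ (K - k l))) -
        x (c.y l) • u ^ K := by
      rw [h3, add_mul, MvPowerSeries.smul_eq_C_mul]
      ring
    rw [h5]
    exact Submodule.sub_mem _ h2 (Submodule.smul_mem _ _ h4)
  rw [linearIndependent_iff']
  intro S g hg
  by_contra hne
  push Not at hne
  obtain ⟨α₀, hα₀, hα₀'⟩ := hne
  obtain ⟨β, hβ, hβmax⟩ := Finset.exists_max_image (S.filter fun α => g α ≠ 0)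
    (fun α => α.1.degree) ⟨α₀, Finset.mem_filter.2 ⟨hα₀, hα₀'⟩⟩
  obtain ⟨hβS, hgβ⟩ := Finset.mem_filter.1 hβ
  -- the functional
  let Λ : MvPowerSeries (Fin n) L →ₗ[L] L :=
    ∑ α ∈ S, (g α * algebraMap ℂ L (∏ l, ((α.1 l).factorial : ℂ))) • MvPowerSeries.coeff α.1
  have hΛ : ∀ f, Λ f = ∑ α ∈ S, (g α * algebraMap ℂ L (∏ l, ((α.1 l).factorial : ℂ))) *
      MvPowerSeries.coeff α.1 f := by
    intro f
    simp [Λ, LinearMap.sum_apply]
  have hbasis : ∀ i, Λ (t (c.ρ (secBasis 𝒜 m i))) = 0 := by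
    intro i
    have h1 := congrFun hg i
    rw [Finset.sum_apply] at h1
    rw [hΛ]
    refine Eq.trans ?_ h1
    simp only [Pi.smul_apply, smul_eq_mul]
    refine Finset.sum_congr rfl fun α _ => ?_
    rw [hcoeff, mul_assoc]
  have hsec : ∀ s ∈ 𝒜 m, Λ (t (c.ρ s)) = 0 := by
    intro s hs
    rw [← (secBasis_spec h m).2.2] at hs
    induction hs using Submodule.span_induction with
    | mem s hs =>
      obtain ⟨i, rfl⟩ := hs
      exact hbasis i
    | zero => rw [map_zero, map_zero, map_zero]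
    | add s s' _ _ hs hs' => rw [map_add, map_add, map_add, hs, hs', add_zero]
    | smul z s _ hs =>
      rw [map_smul, map_smul]
      have h1 : z • t (c.ρ s) = (algebraMap ℂ L z) • t (c.ρ s) := by
        rw [algebraMap_smul]
      rw [h1, map_smul, hs, smul_zero]
  have hW : ∀ f ∈ Sep_W c t m, Λ f = 0 := by
    intro f hf
    have h1 : Sep_W c t m ≤ LinearMap.ker Λ := by
      refine Submodule.span_le.2 ?_
      rintro _ ⟨s, hs, rfl⟩
      exact hsec s hs
    exact h1 hf
  -- the degree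
  have hdeg : 2 * (c.d * K) * β.1.degree ≤ m := by
    have h1 : (β.1.degree : ℝ) ≤ 1 / (2 * (c.d * K + 1)) * m :=
      le_trans (by exact_mod_cast β.2.le) hq
    have h2 : (2 * (c.d * K + 1) : ℝ) * β.1.degree ≤ m := by
      have h3 : (0 : ℝ) < 2 * (c.d * K + 1) := by positivity
      calc (2 * (c.d * K + 1) : ℝ) * β.1.degree ≤
          2 * (c.d * K + 1) * (1 / (2 * (c.d * K + 1)) * m) :=
            mul_le_mul_of_nonneg_left h1 h3.le
        _ = m := by field_simp
    have h4 : 2 * (c.d * K + 1) * β.1.degree ≤ m := by exact_mod_cast h2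
    nlinarith
  have hd := c.hd
  have hmod : m % c.d < c.d := Nat.mod_lt _ hd
  have hle : c.d * (c.e * (m % c.d) + K * β.1.degree) ≤ m := by
    have h1 : c.d * (c.e * (m % c.d)) ≤ c.d * c.e * c.d := by
      rw [← mul_assoc]
      exact Nat.mul_le_mul_left _ hmod.le
    nlinarith
  set j : ℕ := m / c.d - (c.e * (m % c.d) + K * β.1.degree) with hj
  have hj' : c.e * (m % c.d) + K * β.1.degree + j = m / c.d :=
    Nat.add_sub_of_le ((Nat.le_div_iff_mul_le hd).2 (by rwa [mul_comm]))
  have hmeq : (c.d * c.e + 1) * (m % c.d) + c.d * j + c.d * K * β.1.degree = m := by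
    have h1 := Nat.div_add_mod m c.d
    rw [← hj'] at h1
    nlinarith
  have hfinal : (u ^ c.e) ^ (m % c.d) * u ^ j *
      ∏ l, (MvPowerSeries.X l * u ^ K) ^ (β.1 l) ∈ Sep_W c t m := by
    have h1 := Sep_mul c t (Sep_mul c t (Sep_pow c t hTW (m % c.d)) (Sep_pow c t hFW j))
      (Sep_prod c t hXW β.1 Finset.univ)
    rwa [← Finsupp.degree_eq_sum, hmeq] at h1
  set M : ℕ := c.e * (m % c.d) + j + K * ∑ l, β.1 l with hM
  have hprod : (u ^ c.e) ^ (m % c.d) * u ^ j * ∏ l, (MvPowerSeries.X l * u ^ K) ^ (β.1 l) =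
      u ^ M * MvPowerSeries.monomial β.1 1 := by
    rw [← Sep_prod_X]
    simp only [mul_pow, Finset.prod_mul_distrib]
    rw [Finset.prod_congr rfl fun l _ => (pow_mul u K (β.1 l)).symm, Finset.prod_pow_eq_pow_sum,
      ← Finset.mul_sum, hM, pow_add, pow_add, pow_mul]
    ring
  rw [hprod] at hfinal
  have h0 := hW _ hfinal
  rw [hΛ, Finset.sum_eq_single β] at h0
  · rw [MvPowerSeries.coeff_mul_monomial, if_pos le_rfl, tsub_self, mul_one,
      MvPowerSeries.coeff_zero_eq_constantCoeff_apply, map_pow] at h0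
    have h1 : algebraMap ℂ L (∏ l, ((β.1 l).factorial : ℂ)) ≠ 0 := by
      rw [Ne, _root_.map_eq_zero]
      exact Finset.prod_ne_zero_iff.2 fun l _ => by exact_mod_cast (Nat.factorial_ne_zero _)
    exact mul_ne_zero (mul_ne_zero hgβ h1) (pow_ne_zero _ hu0) h0
  · intro α hα hαβ
    rw [MvPowerSeries.coeff_mul_monomial]
    split_ifs with hle'
    · have h1 : g α = 0 := by
        by_contra hgα
        have h2 := hβmax α (Finset.mem_filter.2 ⟨hα, hgα⟩)
        have h3 : β.1 + (α.1 - β.1) = α.1 := add_tsub_cancel_of_le hle'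
        have h4 := congrArg Finsupp.degree h3
        rw [map_add] at h4
        have h5 : (α.1 - β.1).degree = 0 := by
          have h6 : α.1.degree ≤ β.1.degree := h2
          omega
        rw [Finsupp.degree_eq_zero_iff] at h5
        rw [h5, add_zero] at h3
        exact hαβ (Subtype.ext h3.symm)
      rw [h1, zero_mul, zero_mul]
    · rw [mul_zero]
  · intro h1
    exact absurd hβS h1

end Pool.Agent.Lib_GD

end

/-! ### from `Lib_GD.ChartTay` -/

section

/-! G02: Taylor expansions at a `ℂ`-point. -/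

open PowerSeries

namespace Pool.Agent.Lib_GD.Chart

variable {R : Type} [CommRing R] [Algebra ℂ R] {𝒜 : ℕ → Submodule ℂ R} {n : ℕ}
  (c : Chart 𝒜 n)

private theorem ChartTay_zero (x : c.B →ₐ[ℂ] ℂ) (b : c.B) : c.tay x 0 b = x b := by
  unfold tay
  rw [c.dd_zero]
  simp

private theorem ChartTay_dd_one (α : Fin n →₀ ℕ) (hα : α ≠ 0) : c.dd α (1 : c.B) = 0 := by
  classical
  obtain ⟨l, hl⟩ : ∃ l, α l ≠ 0 := by
    by_contra h
    push Not at h
    exact hα (Finsupp.ext h)
  have h1 : α = (α - Finsupp.single l 1) + Finsupp.single l 1 := by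
    ext i
    by_cases hi : i = l
    · subst hi
      simp only [Finsupp.add_apply, Finsupp.tsub_apply, Finsupp.single_eq_same]
      omega
    · simp [Finsupp.single_eq_of_ne hi]
  rw [h1, c.dd_add_single, Derivation.map_one_eq_zero, map_zero]

private theorem ChartTay_coord (x : c.B →ₐ[ℂ] ℂ) (α : Fin n →₀ ℕ) (l : Fin n) :
    c.tay x α (c.y l - algebraMap ℂ c.B (x (c.y l))) =
      if α = Finsupp.single l 1 then 1 else 0 := by
  classical
  by_cases hα : α = 0
  · subst hα
    rw [ChartTay_zero, map_sub, AlgHom.commutes]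
    have h1 : (0 : Fin n →₀ ℕ) ≠ Finsupp.single l 1 := by
      intro h
      have := DFunLike.congr_fun h l
      simp at this
    rw [if_neg h1]
    simp
  · obtain ⟨k, hk⟩ : ∃ k, α k ≠ 0 := by
      by_contra h
      push Not at h
      exact hα (Finsupp.ext h)
    obtain ⟨α', hα'⟩ : ∃ α' : Fin n →₀ ℕ, α = α' + Finsupp.single k 1 := by
      refine ⟨α - Finsupp.single k 1, ?_⟩
      ext i
      by_cases hi : i = k
      · subst hi
        simp only [Finsupp.add_apply, Finsupp.tsub_apply, Finsupp.single_eq_same]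
        omega
      · simp [Finsupp.single_eq_of_ne hi]
    have h1 : c.dd α (c.y l - algebraMap ℂ c.B (x (c.y l))) =
        c.dd α' (if k = l then (1 : c.B) else 0) := by
      rw [hα', c.dd_add_single, map_sub, c.der_y, Derivation.map_algebraMap, sub_zero]
    by_cases hkl : k = l
    · subst hkl
      rw [if_pos rfl] at h1
      by_cases h0 : α' = 0
      · subst h0
        rw [zero_add] at hα'
        rw [if_pos hα']
        unfold tay
        rw [h1, c.dd_zero, map_one, mul_one, hα']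
        have h2 : ∏ i, (((Finsupp.single k 1 : Fin n →₀ ℕ) i).factorial : ℂ) = 1 := by
          refine Finset.prod_eq_one fun i _ => ?_
          by_cases hi : i = k
          · subst hi
            simp
          · simp [Finsupp.single_eq_of_ne hi]
        rw [h2]
        simp
      · have h2 : α ≠ Finsupp.single k 1 := by
          intro h
          rw [hα'] at h
          have h3 : α' = 0 := by
            have : α' + Finsupp.single k 1 = 0 + Finsupp.single k 1 := by rw [h, zero_add]
            exact add_right_cancel this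
          exact h0 h3
        rw [if_neg h2]
        unfold tay
        rw [h1, ChartTay_dd_one c α' h0]
        simp
    · rw [if_neg hkl] at h1
      have h2 : α ≠ Finsupp.single l 1 := by
        intro h
        rw [h] at hk
        rw [Finsupp.single_eq_of_ne hkl] at hk
        exact hk rfl
      rw [if_neg h2]
      unfold tay
      rw [h1]
      simp

/-- Taylor coefficients of a power of `y - y(x)`: if `x : B → K`, then
`tay x α (∏ (y_l - p_l)^{β_l})` is `1` for `α = β` and `0` for `α.degree ≤ β.degree`, `α ≠ β`,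
where `p_l ∈ ℂ`; more generally with values in `K` the elements live in `K ⊗ B`. Here is the
form used: for `p : Fin n → ℂ` with `x (y l) = p l`. -/
theorem tay_monomial (x : c.B →ₐ[ℂ] ℂ) (α β : Fin n →₀ ℕ) :
    c.tay x α (∏ l, (c.y l - algebraMap ℂ c.B (x (c.y l))) ^ (β l)) = if α = β then 1 else 0 := by
  classical
  obtain ⟨T, hT⟩ := c.exists_taylor x
  have hX : ∀ l, T (c.y l - algebraMap ℂ c.B (x (c.y l))) = MvPowerSeries.X l := by
    intro l
    ext γ
    rw [hT, ChartTay_coord c x γ l, MvPowerSeries.coeff_X]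
  rw [← hT, map_prod]
  have h1 : ∏ l, T ((c.y l - algebraMap ℂ c.B (x (c.y l))) ^ (β l)) =
      MvPowerSeries.monomial β (1 : ℂ) := by
    rw [MvPowerSeries.monomial_one_eq, Finsupp.prod_fintype _ _ (fun i => pow_zero _)]
    refine Finset.prod_congr rfl fun l _ => ?_
    rw [map_pow, hX]
  rw [h1, MvPowerSeries.coeff_monomial]

/-- the Euler derivation at the point `x` -/
private noncomputable def ChartTay_eu (x : c.B →ₐ[ℂ] ℂ) : Derivation ℂ c.B c.B :=
  ∑ l, (c.y l - algebraMap ℂ c.B (x (c.y l))) • c.der l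

private theorem ChartTay_eu_apply (x : c.B →ₐ[ℂ] ℂ) (b : c.B) :
    ChartTay_eu c x b = ∑ l, (c.y l - algebraMap ℂ c.B (x (c.y l))) * c.der l b := by
  unfold ChartTay_eu
  have h : ∀ s : Finset (Fin n),
      (∑ l ∈ s, (c.y l - algebraMap ℂ c.B (x (c.y l))) • c.der l) b =
        ∑ l ∈ s, (c.y l - algebraMap ℂ c.B (x (c.y l))) * c.der l b := by
    intro s
    classical
    induction s using Finset.induction_on with
    | empty => simp
    | insert a s ha ih =>
      rw [Finset.sum_insert ha, Finset.sum_insert ha, Derivation.add_apply, ih,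
        Derivation.smul_apply, smul_eq_mul]
  exact h Finset.univ

private theorem ChartTay_y_mem (x : c.B →ₐ[ℂ] ℂ) (b : c.B) :
    b - algebraMap ℂ c.B (x b) ∈ RingHom.ker x.toRingHom := by
  rw [RingHom.mem_ker]
  change x (b - algebraMap ℂ c.B (x b)) = 0
  rw [map_sub, AlgHom.commutes]
  simp

/-- modulo the square of the maximal ideal -/
private theorem ChartTay_sq (x : c.B →ₐ[ℂ] ℂ) (b : c.B) (hb : b ∈ RingHom.ker x.toRingHom) :
    ChartTay_eu c x b - b ∈ RingHom.ker x.toRingHom ^ 2 := by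
  set m : Ideal c.B := RingHom.ker x.toRingHom with hm
  let D : Derivation ℂ c.B (c.B ⧸ m ^ 2) :=
    { toFun := fun b => Ideal.Quotient.mk (m ^ 2) (b - algebraMap ℂ c.B (x b))
      map_add' := fun a b => by
        rw [map_add, map_add, ← map_add (Ideal.Quotient.mk (m ^ 2))]
        congr 1
        ring
      map_smul' := fun z b => by
        rw [RingHom.id_apply, map_smul, smul_eq_mul, map_mul]
        have h1 : z • b - algebraMap ℂ c.B z * algebraMap ℂ c.B (x b) =
            z • (b - algebraMap ℂ c.B (x b)) := by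
          rw [smul_sub, Algebra.smul_def, Algebra.smul_def]
        rw [h1]
        rfl
      map_one_eq_zero' := by
        change Ideal.Quotient.mk (m ^ 2) (1 - algebraMap ℂ c.B (x 1)) = 0
        rw [map_one, map_one, sub_self, map_zero]
      leibniz' := fun a b => by
        change Ideal.Quotient.mk (m ^ 2) (a * b - algebraMap ℂ c.B (x (a * b))) =
          a • Ideal.Quotient.mk (m ^ 2) (b - algebraMap ℂ c.B (x b)) +
          b • Ideal.Quotient.mk (m ^ 2) (a - algebraMap ℂ c.B (x a))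
        rw [Algebra.smul_def, Algebra.smul_def, Ideal.Quotient.algebraMap_eq, ← map_mul,
          ← map_mul, ← map_add, Ideal.Quotient.eq, map_mul, map_mul]
        have h1 : a * b - algebraMap ℂ c.B (x a) * algebraMap ℂ c.B (x b) -
            (a * (b - algebraMap ℂ c.B (x b)) + b * (a - algebraMap ℂ c.B (x a))) =
            -((a - algebraMap ℂ c.B (x a)) * (b - algebraMap ℂ c.B (x b))) := by ring
        rw [h1, pow_two]
        exact neg_mem (Ideal.mul_mem_mul (ChartTay_y_mem c x a) (ChartTay_y_mem c x b)) }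
  have h := c.der_eq D b
  have h1 : D b = Ideal.Quotient.mk (m ^ 2) b := by
    change Ideal.Quotient.mk (m ^ 2) (b - algebraMap ℂ c.B (x b)) = _
    have h2 : x b = 0 := hb
    rw [h2, map_zero, sub_zero]
  have h2 : ∑ l, c.der l b • D (c.y l) = Ideal.Quotient.mk (m ^ 2) (ChartTay_eu c x b) := by
    rw [ChartTay_eu_apply, map_sum]
    refine Finset.sum_congr rfl fun l _ => ?_
    change c.der l b • Ideal.Quotient.mk (m ^ 2) (c.y l - algebraMap ℂ c.B (x (c.y l))) = _
    rw [Algebra.smul_def, Ideal.Quotient.algebraMap_eq, ← map_mul, mul_comm]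
  rw [h1, h2] at h
  exact (Ideal.Quotient.eq.1 h.symm)

private theorem ChartTay_eu_pow (x : c.B →ₐ[ℂ] ℂ) (k : ℕ) : ∀ b ∈ RingHom.ker x.toRingHom ^ k,
    ChartTay_eu c x b - (k : c.B) * b ∈ RingHom.ker x.toRingHom ^ (k + 1) := by
  induction k with
  | zero =>
    intro b _
    rw [Nat.cast_zero, zero_mul, sub_zero, zero_add, pow_one, ChartTay_eu_apply]
    exact Ideal.sum_mem _ fun l _ => Ideal.mul_mem_right _ _ (ChartTay_y_mem c x (c.y l))
  | succ k ih =>
    intro b hb
    rw [pow_succ] at hb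
    refine Submodule.mul_induction_on hb ?_ ?_
    · intro u hu v hv
      have h1 := ih u hu
      have h2 := ChartTay_sq c x v hv
      have h3 : ChartTay_eu c x (u * v) - ((k + 1 : ℕ) : c.B) * (u * v) =
          u * (ChartTay_eu c x v - v) + (ChartTay_eu c x u - (k : c.B) * u) * v := by
        rw [Derivation.leibniz, smul_eq_mul, smul_eq_mul]
        push_cast
        ring
      rw [h3]
      refine Ideal.add_mem _ ?_ ?_
      · have h4 : RingHom.ker x.toRingHom ^ (k + 1 + 1) =
            RingHom.ker x.toRingHom ^ k * RingHom.ker x.toRingHom ^ 2 := by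
          rw [← pow_add]
        rw [h4]
        exact Ideal.mul_mem_mul hu h2
      · rw [pow_succ (RingHom.ker x.toRingHom) (k + 1)]
        exact Ideal.mul_mem_mul h1 hv
    · intro u v hu hv
      have h3 : ChartTay_eu c x (u + v) - ((k + 1 : ℕ) : c.B) * (u + v) =
          (ChartTay_eu c x u - ((k + 1 : ℕ) : c.B) * u) +
          (ChartTay_eu c x v - ((k + 1 : ℕ) : c.B) * v) := by
        rw [map_add]
        ring
      rw [h3]
      exact Ideal.add_mem _ hu hv

private theorem ChartTay_mem_pow (x : c.B →ₐ[ℂ] ℂ) (k : ℕ) : ∀ b : c.B,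
    (∀ α, x (c.dd α b) = 0) → b ∈ RingHom.ker x.toRingHom ^ k := by
  induction k with
  | zero =>
    intro b _
    simp
  | succ k ih =>
    intro b hb
    rcases Nat.eq_zero_or_pos k with hk | hk
    · subst hk
      rw [zero_add, pow_one]
      have h1 := hb 0
      rw [c.dd_zero] at h1
      exact h1
    · have hder : ∀ l, c.der l b ∈ RingHom.ker x.toRingHom ^ k := by
        intro l
        refine ih _ fun α => ?_
        rw [← c.dd_add_single]
        exact hb _
      have heu : ChartTay_eu c x b ∈ RingHom.ker x.toRingHom ^ (k + 1) := by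
        rw [ChartTay_eu_apply]
        refine Ideal.sum_mem _ fun l _ => ?_
        rw [pow_succ, mul_comm (RingHom.ker x.toRingHom ^ k)]
        exact Ideal.mul_mem_mul (ChartTay_y_mem c x (c.y l)) (hder l)
      have h1 := ChartTay_eu_pow c x k b (ih b hb)
      have h2 : (k : c.B) * b ∈ RingHom.ker x.toRingHom ^ (k + 1) := by
        have h3 : (k : c.B) * b = ChartTay_eu c x b - (ChartTay_eu c x b - (k : c.B) * b) := by
          ring
        rw [h3]
        exact Ideal.sub_mem _ heu h1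
      have hk0 : (k : ℂ) ≠ 0 := by
        exact_mod_cast hk.ne'
      have h4 : b = algebraMap ℂ c.B ((k : ℂ)⁻¹) * ((k : c.B) * b) := by
        have h5 : (k : c.B) = algebraMap ℂ c.B (k : ℂ) := by simp
        rw [← mul_assoc, h5, ← map_mul, inv_mul_cancel₀ hk0, map_one, one_mul]
      rw [h4]
      exact Ideal.mul_mem_left _ _ h2

/-- G02: a function all of whose Taylor coefficients at a `ℂ`-point vanish is zero. -/
theorem eq_zero_of_tay (x : c.B →ₐ[ℂ] ℂ) (b : c.B) (h : ∀ α, c.tay x α b = 0) : b = 0 := by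
  haveI : IsNoetherianRing c.B := Algebra.FiniteType.isNoetherianRing ℂ c.B
  have h1 : ∀ α, x (c.dd α b) = 0 := by
    intro α
    have h2 := h α
    unfold tay at h2
    have h3 : algebraMap ℂ ℂ (∏ l, ((α l).factorial : ℂ))⁻¹ ≠ 0 := by
      rw [Algebra.algebraMap_self, RingHom.id_apply]
      refine inv_ne_zero (Finset.prod_ne_zero_iff.2 fun l _ => ?_)
      exact_mod_cast Nat.factorial_ne_zero _
    exact (mul_eq_zero.1 h2).resolve_left h3
  have h2 : b ∈ ⨅ k : ℕ, RingHom.ker x.toRingHom ^ k := by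
    rw [Submodule.mem_iInf]
    exact fun k => ChartTay_mem_pow c x k b h1
  have hne : RingHom.ker x.toRingHom ≠ ⊤ := RingHom.ker_ne_top _
  rw [Ideal.iInf_pow_eq_bot_of_isDomain _ hne] at h2
  exact h2

end Pool.Agent.Lib_GD.Chart

end

/-! ### from `Lib_GD.OrdC` -/

section

/-! G07: bound for vanishing orders at `ℂ`-points. -/

open PowerSeries

namespace Pool.Agent.Lib_GD

variable {R : Type} [CommRing R] [Algebra ℂ R] {𝒜 : ℕ → Submodule ℂ R} [GradedAlgebra 𝒜]
  {n : ℕ}

omit [GradedAlgebra 𝒜] in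
private theorem dd_mul_zero (c : Chart 𝒜 n) (x : c.B →ₐ[ℂ] ℂ) (q : ℕ) (b b' : c.B)
    (hb : ∀ α : Fin n →₀ ℕ, α.degree < q → x (c.dd α b) = 0) (α : Fin n →₀ ℕ)
    (hα : α.degree < q) : x (c.dd α (b * b')) = 0 := by
  classical
  have h1 : c.tay x α (b * b') = 0 := by
    rw [c.tay_mul]
    refine Finset.sum_eq_zero fun p hp => ?_
    have h2 : p.1 + p.2 = α := Finset.HasAntidiagonal.mem_antidiagonal.1 hp
    have h3 : p.1.degree + p.2.degree = α.degree := by rw [← map_add, h2]
    have h4 : c.tay x p.1 b = 0 := by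
      unfold Chart.tay
      rw [hb p.1 (by omega), mul_zero]
    rw [h4, zero_mul]
  unfold Chart.tay at h1
  rcases mul_eq_zero.1 h1 with h2 | h2
  · exfalso
    have h3 : (∏ l, ((α l).factorial : ℂ)) ≠ 0 :=
      Finset.prod_ne_zero_iff.2 fun _ _ => Nat.cast_ne_zero.2 (Nat.factorial_ne_zero _)
    have h4 : (∏ l, ((α l).factorial : ℂ))⁻¹ = 0 := by simpa using h2
    exact inv_ne_zero h3 h4
  · exact h2

private theorem count_step (h : IsSmoothPolarised 𝒜 n) (hn : 1 ≤ n) (c : Chart 𝒜 n) (m M Q : ℕ)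
    (x : c.B →ₐ[ℂ] ℂ)
    (hsep : LinearIndependent ℂ (fun α : {α : Fin n →₀ ℕ // α.degree < n * Q} =>
        fun i : Fin (secDim 𝒜 (m + M)) => x (c.dd α.1 (c.ρ (secBasis 𝒜 (m + M) i)))))
    (s : R) (hs : s ∈ 𝒜 m) (hs0 : s ≠ 0)
    (hj : ∀ α : Fin n →₀ ℕ, α.degree < n * Q → x (c.dd α (c.ρ s)) = 0) :
    Q ^ n + secDim 𝒜 M ≤ secDim 𝒜 (m + M) := by
  classical
  have := h.domain
  -- the multi-indices
  let g : (Fin n → Fin Q) → {α : Fin n →₀ ℕ // α.degree < n * Q} := fun a =>
    ⟨Finsupp.equivFunOnFinite.symm fun l => (a l : ℕ), by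
      rw [Finsupp.degree_eq_sum]
      simp only [Finsupp.equivFunOnFinite_symm_apply_apply]
      have h1 : ∑ l : Fin n, (a l : ℕ) < ∑ l : Fin n, Q :=
        Finset.sum_lt_sum_of_nonempty ⟨⟨0, hn⟩, Finset.mem_univ _⟩ fun l _ => (a l).2
      simpa using h1⟩
  have hg : Function.Injective g := by
    intro a a' haa
    have h1 : (g a).1 = (g a').1 := congrArg Subtype.val haa
    funext l
    have h2 : (g a).1 l = (g a').1 l := by rw [h1]
    exact Fin.ext h2
  have hA := hsep.comp g hg
  let A : Matrix (Fin n → Fin Q) (Fin (secDim 𝒜 (m + M))) ℂ :=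
    Matrix.of fun a i => x (c.dd (g a).1 (c.ρ (secBasis 𝒜 (m + M) i)))
  have hAr : A.rank = Q ^ n := by
    have h1 : A.rank = Fintype.card (Fin n → Fin Q) := LinearIndependent.rank_matrix hA
    rw [h1]
    simp
  -- the products
  obtain ⟨hb1, hb2, hb3⟩ := secBasis_spec (𝒜 := 𝒜) h (m + M)
  obtain ⟨hb1', hb2', hb3'⟩ := secBasis_spec (𝒜 := 𝒜) h M
  have hex : ∀ j : Fin (secDim 𝒜 M), ∃ e : Fin (secDim 𝒜 (m + M)) → ℂ,
      ∑ i, e i • secBasis 𝒜 (m + M) i = s * secBasis 𝒜 M j := by
    intro j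
    have h1 : s * secBasis 𝒜 M j ∈ 𝒜 (m + M) := SetLike.mul_mem_graded hs (hb1' j)
    rw [← hb3] at h1
    exact (Submodule.mem_span_range_iff_exists_fun ℂ).1 h1
  choose e he using hex
  have hB : LinearIndependent ℂ e := by
    let L : (Fin (secDim 𝒜 (m + M)) → ℂ) →ₗ[ℂ] R := Fintype.linearCombination ℂ (secBasis 𝒜 (m + M))
    refine LinearIndependent.of_comp L ?_
    have h1 : L ∘ e = (LinearMap.mulLeft ℂ s) ∘ secBasis 𝒜 M := by
      funext j
      simp only [Function.comp_apply, LinearMap.mulLeft_apply, L, Fintype.linearCombination_apply]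
      exact he j
    rw [h1]
    refine hb2'.map' _ ?_
    rw [LinearMap.ker_eq_bot]
    intro u v huv
    simp only [LinearMap.mulLeft_apply] at huv
    exact mul_left_cancel₀ hs0 huv
  let B : Matrix (Fin (secDim 𝒜 M)) (Fin (secDim 𝒜 (m + M))) ℂ := Matrix.of e
  have hBr : B.transpose.rank = secDim 𝒜 M := by
    rw [Matrix.rank_transpose]
    have h1 : B.rank = Fintype.card (Fin (secDim 𝒜 M)) := LinearIndependent.rank_matrix hB
    rw [h1]
    simp
  have hAB : A * B.transpose = 0 := by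
    ext a j
    rw [Matrix.mul_apply]
    simp only [Matrix.transpose_apply, Matrix.zero_apply, A, B, Matrix.of_apply]
    have h1 : x (c.dd (g a).1 (c.ρ (s * secBasis 𝒜 M j))) = 0 := by
      rw [map_mul]
      exact dd_mul_zero c x (n * Q) _ _ hj (g a).1 (g a).2
    rw [← he j] at h1
    rw [map_sum, map_sum, map_sum] at h1
    rw [← h1]
    refine Finset.sum_congr rfl fun i _ => ?_
    rw [map_smul, map_smul, map_smul, smul_eq_mul, mul_comm]
  have h1 := Matrix.rank_add_rank_le_card_of_mul_eq_zero hAB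
  rw [hAr, hBr, Fintype.card_fin] at h1
  exact h1

/-- G07a (T) at `ℂ`-points. -/
theorem Chart.ord_le_C (h : IsSmoothPolarised 𝒜 n) (hn : 1 ≤ n) (c : Chart 𝒜 n) :
    ∃ C : ℕ, ∀ m, 1 ≤ m → ∀ (x : c.B →ₐ[ℂ] ℂ), ∀ s ∈ 𝒜 m, s ≠ 0 →
      ∃ α : Fin n →₀ ℕ, α.degree ≤ C * m ∧ x (c.dd α (c.ρ s)) ≠ 0 := by
  obtain ⟨c₀, hc₀, m₀, hsep⟩ := c.sep h
  obtain ⟨C₁, hC₁⟩ := secDim_le (𝒜 := 𝒜) h
  have hn0 : (0 : ℝ) < n := by exact_mod_cast hn
  -- the constants
  obtain ⟨K, hK⟩ := exists_nat_gt (max (C₁ * (4 * n / c₀) ^ n) (max (n / c₀) (max m₀ 1)))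
  have hK1 : C₁ * (4 * n / c₀) ^ n < (K : ℝ) := lt_of_le_of_lt (le_max_left _ _) hK
  have hK2 : n / c₀ < (K : ℝ) :=
    lt_of_le_of_lt ((le_max_left _ _).trans (le_max_right _ _)) hK
  have hK3 : (m₀ : ℝ) < (K : ℝ) :=
    lt_of_le_of_lt ((le_max_left _ _).trans ((le_max_right _ _).trans (le_max_right _ _))) hK
  have hK4 : (1 : ℝ) < (K : ℝ) :=
    lt_of_le_of_lt ((le_max_right _ _).trans ((le_max_right _ _).trans (le_max_right _ _))) hK
  have hK3' : m₀ < K := by exact_mod_cast hK3
  have hK4' : 1 < K := by exact_mod_cast hK4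
  have hK0 : (0 : ℝ) < K := by linarith
  set C' : ℕ := ⌊c₀ * K / n⌋₊ with hC'
  have hy1 : 1 ≤ c₀ * K / n := by
    rw [le_div_iff₀ hn0, one_mul]
    rw [div_lt_iff₀ hc₀] at hK2
    linarith
  have hfl : (C' : ℝ) ≤ c₀ * K / n := Nat.floor_le (by positivity)
  have hfl2 : c₀ * K / n / 2 ≤ (C' : ℝ) := by
    have h1 := Nat.lt_floor_add_one (c₀ * K / n)
    rw [← hC'] at h1
    have h2 : 1 ≤ C' := by
      rw [hC']
      exact Nat.le_floor (by simpa using hy1)
    have h3 : (1 : ℝ) ≤ C' := by exact_mod_cast h2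
    linarith
  refine ⟨n * C', ?_⟩
  intro m hm x s hs hs0
  by_contra hcon
  push Not at hcon
  have hmr : (1 : ℝ) ≤ m := by exact_mod_cast hm
  have hj : ∀ α : Fin n →₀ ℕ, α.degree < n * (C' * m) → x (c.dd α (c.ρ s)) = 0 := by
    intro α hα
    exact hcon α (by rw [mul_assoc]; exact hα.le)
  -- the iteration
  have hiter : ∀ k : ℕ, k * (C' * m) ^ n ≤ secDim 𝒜 (k * m + K * m) := by
    intro k
    induction k with
    | zero => simp
    | succ k ih =>
      have h1 := count_step h hn c m (k * m + K * m) (C' * m) x (by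
        refine hsep (m + (k * m + K * m)) ?_ ℂ x (n * (C' * m)) ?_
        · nlinarith
        · push_cast
          have h2 : (n : ℝ) * C' ≤ c₀ * K := by
            rw [le_div_iff₀ hn0] at hfl
            linarith
          have h3 : (n : ℝ) * (C' * m) ≤ c₀ * (K * m) := by nlinarith
          have h4 : (0 : ℝ) ≤ (m : ℝ) + k * m := by positivity
          nlinarith) s hs hs0 hj
      have h2 : (k + 1) * m + K * m = m + (k * m + K * m) := by ring
      rw [h2]
      calc (k + 1) * (C' * m) ^ n = (C' * m) ^ n + k * (C' * m) ^ n := by ring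
        _ ≤ (C' * m) ^ n + secDim 𝒜 (k * m + K * m) := Nat.add_le_add_left ih _
        _ ≤ _ := h1
  have h1 := hiter K
  have h2 := hC₁ (K * m + K * m) (by nlinarith)
  have h3 : K * (C' * m) ^ n ≤ C₁ * (K * m + K * m) ^ n := h1.trans h2
  have h4 : (K : ℝ) * (C' * m) ^ n ≤ C₁ * (K * m + K * m) ^ n := by exact_mod_cast h3
  have h5 : (K : ℝ) * (C' : ℝ) ^ n ≤ C₁ * (2 * K) ^ n := by
    have h6 : (K : ℝ) * (C' * m) ^ n = (K * (C' : ℝ) ^ n) * m ^ n := by rw [mul_pow]; ring
    have h7 : (C₁ : ℝ) * (K * m + K * m) ^ n = (C₁ * (2 * K) ^ n) * m ^ n := by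
      rw [← two_mul, ← mul_assoc, mul_pow]; ring
    rw [h6, h7] at h4
    exact le_of_mul_le_mul_right h4 (by positivity)
  have h6 : (c₀ * K / n / 2) ^ n ≤ (C' : ℝ) ^ n := pow_le_pow_left₀ (by positivity) hfl2 n
  have h7 : (K : ℝ) * (c₀ * K / n / 2) ^ n ≤ C₁ * (2 * K) ^ n :=
    (mul_le_mul_of_nonneg_left h6 hK0.le).trans h5
  have h8 : (C₁ : ℝ) * (2 * K) ^ n = C₁ * (4 * n / c₀) ^ n * (c₀ * K / n / 2) ^ n := by
    rw [mul_assoc, ← mul_pow]
    congr 2
    field_simp
    ring
  rw [h8] at h7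
  have h9 : (K : ℝ) ≤ C₁ * (4 * n / c₀) ^ n := le_of_mul_le_mul_right h7 (by positivity)
  linarith

end Pool.Agent.Lib_GD

end
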