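import Mathlib
import Pool.Agent.Lib_KF.Defs
import Pool.Agent.Lib_MP_e0d435_m.G01
import Pool.Agent.Lib_MP_e0d435_m.G03

/-!
# MP_e0d435_ag: merged library part G08

Concatenation of library files (each in its own section), only to save build time.
-/

/-! ### from `Lib_KF.PDefs` -/

section

/-! Polarised varieties without a smoothness assumption. -/

namespace Pool.Agent.Lib_KF

open Pool.Agent.Lib_GD

/-- `R` is (up to finitely many degrees) a section ring of an ample line bundle on a projective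
variety `X = Proj R` of dimension `n`. -/
structure IsPol {R : Type} [CommRing R] [Algebra ℂ R] (𝒜 : ℕ → Submodule ℂ R)
    [GradedAlgebra 𝒜] (n : ℕ) : Prop where
  domain : IsDomain R
  finiteType : Algebra.FiniteType ℂ R
  connected : 𝒜 0 = Subalgebra.toSubmodule (⊥ : Subalgebra ℂ R)
  line : ∀ p : Ideal R, p.IsPrime → (∃ d > 0, ∃ f ∈ 𝒜 d, f ∉ p) →
    ∃ d, ∃ f ∈ 𝒜 d, ∃ g ∈ 𝒜 (d + 1), f ∉ p ∧ g ∉ p
  dim : Algebra.trdeg ℂ R = n + 1

variable {R : Type} [CommRing R] [Algebra ℂ R] {𝒜 : ℕ → Submodule ℂ R} [GradedAlgebra 𝒜]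

theorem IsFano.isPol {n r d : ℕ} {x : Fin (n + 1) → R} {G : R} (h : IsFano 𝒜 n r d x G) :
    IsPol 𝒜 n := by
  classical
  have hdom := h.domain
  have hfin := h.x_finite
  refine ⟨h.domain, ?_, h.connected, h.line, ?_⟩
  · have h0 : (Algebra.adjoin ℂ (Set.range x)).FG := by
      have := Subalgebra.fg_adjoin_finset (R := ℂ) (Finset.univ.image x)
      rwa [Finset.coe_image, Finset.coe_univ, Set.image_univ] at this
    have h1 : Algebra.FiniteType ℂ (Algebra.adjoin ℂ (Set.range x)) :=
      (Subalgebra.fg_iff_finiteType _).1 h0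
    exact Algebra.FiniteType.trans h1 inferInstance
  · have halg : Algebra.IsAlgebraic (Algebra.adjoin ℂ (Set.range x)) R := inferInstance
    have htr : IsTranscendenceBasis ℂ x :=
      h.x_indep.isTranscendenceBasis_iff_isAlgebraic.2 halg
    have h2 := htr.cardinalMk_eq_trdeg
    rw [← h2]
    simp

end Pool.Agent.Lib_KF

end

/-! ### from `Lib_KF.PAtlas` -/

section

/-! Existence of a chart (generic smoothness). -/

open KaehlerDifferential

namespace Pool.Agent.Lib_KF

open Pool.Agent.Lib_GD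

open scoped IntermediateField.algebraAdjoinAdjoin in
/-- the rank of the differentials of a finitely generated field is its transcendence degree -/
private theorem atlasEx_rank_field (L : Type) [Field L] [Algebra ℂ L] [Algebra.EssFiniteType ℂ L] :
    Module.rank L (Ω[L⁄ℂ]) = Algebra.trdeg ℂ L := by
  obtain ⟨s, hs, hsep⟩ := exists_isTranscendenceBasis_and_isSeparable_of_perfectField ℂ L
  set v : s → L := fun x => (x : L) with hv
  have hrange : (s : Set L) = Set.range v := by simp [hv]
  rw [hrange] at hsep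
  have hb : AlgebraicIndependent ℂ v := hs.1
  let A' := Algebra.adjoin ℂ (Set.range v)
  let K := IntermediateField.adjoin ℂ (Set.range v)
  let i1 : Algebra (MvPolynomial s ℂ) A' :=
    (hb.aevalEquiv : MvPolynomial s ℂ →+* A').toAlgebra
  have i2 : IsScalarTower ℂ (MvPolynomial s ℂ) A' :=
    .of_algebraMap_eq fun x => by
      change _ = hb.aevalEquiv (algebraMap ℂ (MvPolynomial s ℂ) x)
      rw [AlgEquiv.commutes]
  have i3 : Algebra.FormallyEtale (MvPolynomial s ℂ) A' :=
    Algebra.FormallyEtale.of_equiv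
      (AlgEquiv.ofBijective (Algebra.ofId (MvPolynomial s ℂ) A') hb.aevalEquiv.bijective)
  have i4 : Algebra.FormallyEtale A' K := .of_isLocalization (nonZeroDivisors _)
  have i5 : Algebra.FormallyEtale K L := Algebra.FormallyEtale.of_isSeparable _ L
  have i6 : Algebra.FormallyEtale A' L := .comp A' K L
  let b0 : Module.Basis s A' (Ω[A'⁄ℂ]) :=
    ((KaehlerDifferential.mvPolynomialBasis ℂ s).baseChange A').map
      (KaehlerDifferential.tensorKaehlerEquivOfFormallyEtale ℂ (MvPolynomial s ℂ) A')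
  let b1 : Module.Basis s L (Ω[L⁄ℂ]) :=
    (b0.baseChange L).map (KaehlerDifferential.tensorKaehlerEquivOfFormallyEtale ℂ A' L)
  rw [← b1.mk_eq_rank'', ← hs.cardinalMk_eq_trdeg]

/-- the number of elements of a basis of the differentials is the transcendence degree -/
private theorem atlasEx_card (B : Type) [CommRing B] [IsDomain B] [Algebra ℂ B]
    [Algebra.EssFiniteType ℂ B] {I : Type} (b : Module.Basis I B (Ω[B⁄ℂ])) :
    Cardinal.mk I = Algebra.trdeg ℂ B := by
  let L := FractionRing B
  have i0 : Algebra.EssFiniteType B L := Algebra.EssFiniteType.of_isLocalization L (nonZeroDivisors B)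
  have i1 : Algebra.EssFiniteType ℂ L := .comp ℂ B L
  have i2 : Algebra.FormallyEtale B L := .of_isLocalization (nonZeroDivisors B)
  let b1 : Module.Basis I L (Ω[L⁄ℂ]) :=
    (b.baseChange L).map (KaehlerDifferential.tensorKaehlerEquivOfFormallyEtale ℂ B L)
  have h1 := atlasEx_rank_field L
  rw [← b1.mk_eq_rank''] at h1
  rw [h1]
  have h2 := trdeg_add_eq ℂ B (A := L)
  have h3 : Algebra.trdeg B L = 0 := by
    rw [trdeg_eq_zero_iff]
    exact IsLocalization.isAlgebraic L (nonZeroDivisors B)
  rw [h3, add_zero] at h2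
  exact h2.symm

variable {R : Type} [CommRing R] [Algebra ℂ R] {𝒜 : ℕ → Submodule ℂ R} [GradedAlgebra 𝒜] {n : ℕ}

/-- homomorphisms out of a graded algebra -/
private theorem atlasEx_hom {B : Type} [CommRing B] [Algebra ℂ B] (f : ∀ m, 𝒜 m →ₗ[ℂ] B)
    (h1 : f 0 ⟨1, SetLike.one_mem_graded 𝒜⟩ = 1)
    (hmul : ∀ i j (a : 𝒜 i) (b : 𝒜 j), f (i + j) ⟨a * b, SetLike.mul_mem_graded a.2 b.2⟩ =
      f i a * f j b) :
    ∃ φ : R →ₐ[ℂ] B, ∀ m (s : 𝒜 m), φ s = f m s := by
  classical
  refine ⟨(DirectSum.toAlgebra ℂ (fun i => 𝒜 i) f h1 (fun {i j} a b => hmul i j a b)).comp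
    (DirectSum.decomposeAlgEquiv 𝒜 : R →ₐ[ℂ] _), fun m s => ?_⟩
  rw [AlgHom.comp_apply]
  have h2 : (DirectSum.decomposeAlgEquiv 𝒜 : R →ₐ[ℂ] _) (s : R) = DirectSum.of (fun i => 𝒜 i) m s := by
    change DirectSum.decompose 𝒜 (s : R) = _
    exact DirectSum.decompose_coe 𝒜 s
  rw [h2]
  exact DirectSum.toAddMonoid_of (fun i => (f i).toAddMonoidHom) m s

/-- the data of an open set on which `O(1)` is trivial -/
private structure AtlasExPre (𝒜 : ℕ → Submodule ℂ R) (f g : R) (d : ℕ) where
  B : Type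
  [commRing : CommRing B]
  [isDomain : IsDomain B]
  [algebra : Algebra ℂ B]
  [ft : Algebra.FiniteType ℂ B]
  ρ : R →ₐ[ℂ] B
  unit : IsUnit (ρ f)
  eq : ρ f = ρ g
  inj : ∀ m, ∀ s ∈ 𝒜 m, ρ s = 0 → s = 0
  surj : ∀ b, ∃ k, ∃ s ∈ 𝒜 ((d + (d + 1)) * k), b * ρ (f * g) ^ k = ρ s

private theorem atlasEx_pre (h : IsPol 𝒜 n)
    (f g : R) (d : ℕ) (hf : f ∈ 𝒜 d) (hg : g ∈ 𝒜 (d + 1)) (hf0 : f ≠ 0) (hg0 : g ≠ 0) :
    Nonempty (AtlasExPre 𝒜 f g d) := by
  classical
  have hdom : IsDomain R := h.domain
  have hF0 : f * g ∈ 𝒜 (d + (d + 1)) := SetLike.mul_mem_graded hf hg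
  have hFne : f * g ≠ 0 := mul_ne_zero hf0 hg0
  let B0 := HomogeneousLocalization.Away 𝒜 (f * g)
  let S := Localization.Away (f * g)
  have hSdom : IsDomain S := IsLocalization.isDomain_localization
    (powers_le_nonZeroDivisors_of_noZeroDivisors hFne)
  have hSinj : Function.Injective (algebraMap R S) :=
    IsLocalization.injective S (powers_le_nonZeroDivisors_of_noZeroDivisors hFne)
  have hBdom : IsDomain B0 := Function.Injective.isDomain (algebraMap B0 S)
    (HomogeneousLocalization.val_injective _)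
  have hFu : IsUnit (algebraMap R S (f * g)) := IsLocalization.Away.algebraMap_isUnit (f * g)
  -- the algebra structure
  let iC : Algebra ℂ B0 :=
    { (inferInstance : SMul ℂ B0) with
      algebraMap := (algebraMap (𝒜 0) B0).comp (algebraMap ℂ (𝒜 0))
      commutes' := fun c x => mul_comm _ _
      smul_def' := fun c x => by
        apply HomogeneousLocalization.val_injective
        rw [HomogeneousLocalization.val_mul, HomogeneousLocalization.val_smul]
        rw [Algebra.smul_def]
        rfl }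
  have iT : @IsScalarTower ℂ (𝒜 0) B0 Algebra.toSMul Algebra.toSMul Algebra.toSMul :=
    IsScalarTower.of_algebraMap_eq fun x => rfl
  have hbij : Function.Bijective (algebraMap ℂ (𝒜 0)) := by
    constructor
    · intro x y hxy
      have h1 : algebraMap ℂ R x = algebraMap ℂ R y := congrArg Subtype.val hxy
      exact (algebraMap ℂ R).injective h1
    · rintro ⟨x, hx⟩
      have hx' := hx
      rw [h.connected] at hx'
      obtain ⟨c, hc⟩ := Algebra.mem_bot.1 hx'
      exact ⟨c, Subtype.ext hc⟩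
  have hft : Algebra.FiniteType ℂ R := h.finiteType
  have hst : @IsScalarTower ℂ (𝒜 0) R Algebra.toSMul Algebra.toSMul Algebra.toSMul :=
    IsScalarTower.of_algebraMap_eq fun x => rfl
  have hft0 : Algebra.FiniteType (𝒜 0) R :=
    Algebra.FiniteType.of_restrictScalars_finiteType ℂ (𝒜 0) R
  have hsm0 : Algebra.FiniteType ℂ (𝒜 0) := Algebra.FiniteType.of_surjective (Algebra.ofId ℂ (𝒜 0))
    hbij.2
  have hsm1 : Algebra.FiniteType (𝒜 0) B0 :=
    HomogeneousLocalization.Away.finiteType (f * g) _ hF0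
  have hsm : Algebra.FiniteType ℂ B0 := Algebra.FiniteType.trans hsm0 hsm1
  -- the homomorphism
  have hdeg : ∀ m, ∀ s ∈ 𝒜 m, s * f ^ (2 * m) ∈ 𝒜 (m • (d + (d + 1))) := by
    intro m s hs
    have h1 : f ^ (2 * m) ∈ 𝒜 ((2 * m) • d) := SetLike.pow_mem_graded _ hf
    have h2 := SetLike.mul_mem_graded hs h1
    have h3 : m + (2 * m) • d = m • (d + (d + 1)) := by
      simp only [smul_eq_mul]; ring
    rwa [h3] at h2
  have hmk : ∀ (k : ℕ) (a : R) (z : S), algebraMap R S a = z * algebraMap R S (f * g) ^ k →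
      (Localization.mk a ⟨(f * g) ^ k, ⟨k, rfl⟩⟩ : S) = z := by
    intro k a z hz
    rw [Localization.mk_eq_mk', IsLocalization.mk'_eq_iff_eq_mul]
    rw [hz, map_pow]
  have hmk' : ∀ (k : ℕ) (a : R), (Localization.mk a ⟨(f * g) ^ k, ⟨k, rfl⟩⟩ : S) *
      algebraMap R S (f * g) ^ k = algebraMap R S a := by
    intro k a
    rw [Localization.mk_eq_mk', ← map_pow]
    exact IsLocalization.mk'_spec S a (⟨(f * g) ^ k, ⟨k, rfl⟩⟩ : Submonoid.powers (f * g))
  obtain ⟨θ, hθ⟩ : ∃ θ : S, algebraMap R S g * θ = algebraMap R S f := by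
    refine ⟨IsLocalization.mk' S (f ^ 2) (⟨f * g, 1, pow_one _⟩ : Submonoid.powers (f * g)), ?_⟩
    have h1 := IsLocalization.mk'_spec' S (f ^ 2) (⟨f * g, 1, pow_one _⟩ : Submonoid.powers (f * g))
    have h2 : algebraMap R S f ≠ 0 := fun h0 => hf0 (hSinj (by rw [h0, map_zero]))
    apply mul_left_cancel₀ h2
    rw [← mul_assoc, ← map_mul, ← map_mul, ← pow_two]
    exact h1
  have hθF : algebraMap R S (f * g) * θ = algebraMap R S f ^ 2 := by
    rw [map_mul, mul_assoc, hθ, pow_two]
  have hlin : ∀ m (s : R) (hs : s ∈ 𝒜 m),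
      (HomogeneousLocalization.Away.mk 𝒜 hF0 m (s * f ^ (2 * m)) (hdeg m s hs)).val =
        algebraMap R S s * θ ^ m := by
    intro m s hs
    rw [HomogeneousLocalization.Away.val_mk]
    apply hmk
    rw [mul_assoc, ← mul_pow, mul_comm θ, hθF, ← pow_mul, map_mul, map_pow]
  let lin : ∀ m, 𝒜 m →ₗ[ℂ] B0 := fun m =>
    { toFun := fun s => HomogeneousLocalization.Away.mk 𝒜 hF0 m (s * f ^ (2 * m)) (hdeg m s s.2)
      map_add' := fun a b => by
        apply HomogeneousLocalization.val_injective
        rw [HomogeneousLocalization.val_add, hlin m _ a.2, hlin m _ b.2, hlin m _ (a + b).2]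
        rw [Submodule.coe_add, map_add, add_mul]
      map_smul' := fun c a => by
        apply HomogeneousLocalization.val_injective
        rw [RingHom.id_apply]
        have h1 : (c • (HomogeneousLocalization.Away.mk 𝒜 hF0 m (a * f ^ (2 * m))
            (hdeg m a a.2))).val = c • (HomogeneousLocalization.Away.mk 𝒜 hF0 m (a * f ^ (2 * m))
            (hdeg m a a.2)).val := HomogeneousLocalization.val_smul _ _ _
        rw [h1, hlin m _ a.2, hlin m _ (c • a).2]
        rw [Submodule.coe_smul, Algebra.smul_def, map_mul, Algebra.smul_def,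
          IsScalarTower.algebraMap_apply ℂ R S, mul_assoc] }
  have hval : ∀ m (s : 𝒜 m), (lin m s).val = algebraMap R S s * θ ^ m := fun m s => hlin m s s.2
  obtain ⟨ρ, hρ⟩ := atlasEx_hom (𝒜 := 𝒜) lin
    (by
      apply HomogeneousLocalization.val_injective
      rw [hval, HomogeneousLocalization.val_one, pow_zero, mul_one, map_one])
    (fun i j a b => by
      apply HomogeneousLocalization.val_injective
      rw [HomogeneousLocalization.val_mul, hval, hval, hval, map_mul, pow_add]
      ring)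
  have hρ' : ∀ m, ∀ s ∈ 𝒜 m, (ρ s).val = algebraMap R S s * θ ^ m := fun m s hs => by
    rw [hρ m ⟨s, hs⟩, hval]
  have hθ0 : θ ≠ 0 := by
    rintro rfl
    rw [mul_zero] at hθ
    exact hf0 (hSinj (by rw [← hθ, map_zero]))
  have hFFu : IsUnit (algebraMap R S (f * g)) := hFu
  have hfg : ρ f = ρ g := by
    apply HomogeneousLocalization.val_injective
    rw [hρ' _ _ hf, hρ' _ _ hg, ← hθ, pow_succ]
    ring
  exact ⟨{
    B := B0
    ρ := ρ
    unit := by
      have h1 : g ^ (2 * d + 1) ∈ 𝒜 ((d + 1) • (d + (d + 1))) := by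
        have := SetLike.pow_mem_graded (A := 𝒜) (2 * d + 1) hg
        have h3 : (2 * d + 1) • (d + 1) = (d + 1) • (d + (d + 1)) := by
          simp only [smul_eq_mul]; ring
        rwa [h3] at this
      apply IsUnit.of_mul_eq_one
        (HomogeneousLocalization.Away.mk 𝒜 hF0 (d + 1) (g ^ (2 * d + 1)) h1)
      apply HomogeneousLocalization.val_injective
      rw [HomogeneousLocalization.val_mul, HomogeneousLocalization.val_one, hρ' _ _ hf,
        HomogeneousLocalization.Away.val_mk]
      apply (hFFu.pow (d + 1)).mul_right_cancel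
      rw [mul_assoc, hmk', one_mul, map_mul, mul_pow, map_pow]
      have h4 : algebraMap R S g ^ d * θ ^ d = algebraMap R S f ^ d := by
        rw [← mul_pow, hθ]
      calc algebraMap R S f * θ ^ d * algebraMap R S g ^ (2 * d + 1)
          = algebraMap R S f * (algebraMap R S g ^ d * θ ^ d) * algebraMap R S g ^ (d + 1) := by
            ring
        _ = algebraMap R S f ^ (d + 1) * algebraMap R S g ^ (d + 1) := by rw [h4]; ring
    eq := hfg
    inj := fun m s hs h0 => by
      have h1 := hρ' m s hs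
      rw [h0, HomogeneousLocalization.val_zero] at h1
      have h2 : algebraMap R S s = 0 := by
        rcases mul_eq_zero.1 h1.symm with h3 | h3
        · exact h3
        · exact absurd h3 (pow_ne_zero _ hθ0)
      exact hSinj (by rw [h2, map_zero])
    surj := fun b => by
      obtain ⟨k, a, ha, rfl⟩ := HomogeneousLocalization.Away.mk_surjective 𝒜 hF0 b
      have ha' : a ∈ 𝒜 ((d + (d + 1)) * k) := by
        rwa [smul_eq_mul, mul_comm] at ha
      refine ⟨k, a, ha', ?_⟩
      apply HomogeneousLocalization.val_injective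
      rw [HomogeneousLocalization.val_mul, HomogeneousLocalization.val_pow, hρ' _ _ hF0,
        hρ' _ _ ha', HomogeneousLocalization.Away.val_mk, mul_pow (algebraMap R S (f * g)),
        ← mul_assoc, hmk', ← pow_mul] }⟩

/-- a homomorphism which is injective on the graded pieces and multiplies them with the powers of
a variable -/
private theorem atlasEx_poly {B : Type} [CommRing B] [Algebra ℂ B] (ρ : R →ₐ[ℂ] B) :
    ∃ φ : R →ₐ[ℂ] Polynomial B, ∀ m, ∀ s ∈ 𝒜 m, φ s = Polynomial.monomial m (ρ s) := by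
  obtain ⟨φ, hφ⟩ := atlasEx_hom (𝒜 := 𝒜) (B := Polynomial B)
    (fun m => ((Polynomial.monomial m).restrictScalars ℂ).comp
      ((ρ : R →ₗ[ℂ] B).comp (𝒜 m).subtype))
    (by simp) (fun i j a b => by simp [Polynomial.monomial_mul_monomial])
  exact ⟨φ, fun m s hs => by rw [hφ m ⟨s, hs⟩]; simp⟩

private theorem atlasEx_trdeg {B : Type} [CommRing B] [IsDomain B] [IsDomain R] [Algebra ℂ B]
    (ρ : R →ₐ[ℂ] B) (F : R) (d : ℕ) (hF : F ∈ 𝒜 d) (hF0 : F ≠ 0)
    (inj : ∀ m, ∀ s ∈ 𝒜 m, ρ s = 0 → s = 0)
    (surj : ∀ b, ∃ k, ∃ s ∈ 𝒜 (d * k), b * ρ F ^ k = ρ s)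
    (e : ℕ) (T : R) (hT : T ∈ 𝒜 (d * e + 1)) (ρT : ρ T = ρ F ^ e) :
    Algebra.trdeg ℂ R = Algebra.trdeg ℂ B + 1 := by
  classical
  obtain ⟨φ, hφ⟩ := atlasEx_poly (𝒜 := 𝒜) ρ
  have hinj : Function.Injective φ := by
    rw [injective_iff_map_eq_zero]
    intro s hs
    have h1 : ∀ m, (DirectSum.decompose 𝒜 s m : R) = 0 := by
      intro m
      refine inj m _ (DirectSum.decompose 𝒜 s m).2 ?_
      have h2 : φ s = ∑ i ∈ (DirectSum.decompose 𝒜 s).support,
          Polynomial.monomial i (ρ (DirectSum.decompose 𝒜 s i : R)) := by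
        conv_lhs => rw [← DirectSum.sum_support_decompose 𝒜 s]
        rw [map_sum]
        exact Finset.sum_congr rfl fun i _ => hφ i _ (DirectSum.decompose 𝒜 s i).2
      have h3 : (φ s).coeff m = ρ (DirectSum.decompose 𝒜 s m : R) := by
        rw [h2, Polynomial.finsetSum_coeff]
        rw [Finset.sum_eq_single m]
        · simp
        · intro b _ hb
          simp [Polynomial.coeff_monomial, hb]
        · intro hm
          have : DirectSum.decompose 𝒜 s m = 0 := by
            simpa using hm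
          simp [this]
      rw [← h3, hs]
      simp
    rw [← DirectSum.sum_support_decompose 𝒜 s]
    exact Finset.sum_eq_zero fun i _ => h1 i
  let i1 : Algebra R (Polynomial B) := (φ : R →+* Polynomial B).toAlgebra
  have hmap : ∀ r, algebraMap R (Polynomial B) r = φ r := fun r => rfl
  have i2 : IsScalarTower ℂ R (Polynomial B) :=
    .of_algebraMap_eq fun x => by
      rw [hmap, AlgHom.commutes]
  have hFpow : ∀ k, F ^ k ∈ 𝒜 (d * k) := fun k => by
    have := SetLike.pow_mem_graded (A := 𝒜) k hF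
    rwa [smul_eq_mul, mul_comm] at this
  have hφF : ∀ k, φ (F ^ k) = Polynomial.monomial (d * k) (ρ F ^ k) := fun k => by
    rw [hφ _ _ (hFpow k), map_pow]
  have key : ∀ (r s : R) (z : Polynomial B), r ≠ 0 → φ r * z = φ s → IsAlgebraic R z := by
    intro r s z hr h
    refine ⟨Polynomial.C r * Polynomial.X - Polynomial.C s, ?_, ?_⟩
    · intro h0
      have := congrArg (fun p => Polynomial.coeff p 1) h0
      simp only [Polynomial.coeff_sub, Polynomial.coeff_C_mul, Polynomial.coeff_X_one, mul_one,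
        Polynomial.coeff_zero] at this
      rw [Polynomial.coeff_C_of_ne_zero (by norm_num), sub_zero] at this
      exact hr this
    · simp only [map_sub, map_mul, Polynomial.aeval_C, Polynomial.aeval_X, hmap]
      rw [h, sub_self]
  have hC : ∀ b : B, IsAlgebraic R (Polynomial.C b) := by
    intro b
    obtain ⟨k, s, hs, hbs⟩ := surj b
    refine key (F ^ k) s _ (pow_ne_zero _ hF0) ?_
    rw [hφF, hφ _ _ hs, ← hbs, Polynomial.monomial_mul_C, mul_comm b]
  have hX : IsAlgebraic R (Polynomial.X : Polynomial B) := by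
    refine key (F ^ e) T _ (pow_ne_zero _ hF0) ?_
    rw [hφF, hφ _ _ hT, ρT, Polynomial.monomial_mul_X]
  have hinj' : Function.Injective (algebraMap R (Polynomial B)) := hinj
  have i3 : FaithfulSMul R (Polynomial B) := (faithfulSMul_iff_algebraMap_injective _ _).2 hinj'
  have i4 : Algebra.IsAlgebraic R (Polynomial B) := by
    refine ⟨fun p => ?_⟩
    induction p using Polynomial.induction_on with
    | C a => exact hC a
    | add p q hp hq => exact hp.add hq
    | monomial k a h => 
      rw [pow_succ, ← mul_assoc]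
      exact h.mul hX
  have i5 : FaithfulSMul ℂ R := (faithfulSMul_iff_algebraMap_injective _ _).2
    (algebraMap ℂ R).injective
  have i6 : FaithfulSMul ℂ B := (faithfulSMul_iff_algebraMap_injective _ _).2
    (algebraMap ℂ B).injective
  have h1 := trdeg_add_eq ℂ R (A := Polynomial B)
  have h2 := trdeg_add_eq ℂ B (A := Polynomial B)
  rw [trdeg_eq_zero_iff.2 i4, add_zero] at h1
  rw [Polynomial.trdeg_of_isDomain] at h2
  rw [h1, h2]

/-- There is a chart (generic smoothness). -/
theorem exists_chartP (h : IsPol 𝒜 n)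
    (hp' : ∃ d > 0, ∃ f ∈ 𝒜 d, f ≠ 0) : Nonempty (Chart 𝒜 n) := by
  classical
  have hdom : IsDomain R := h.domain
  obtain ⟨d, f, hf, g, hg, hfp, hgp⟩ := h.line ⊥ Ideal.isPrime_bot (by
    obtain ⟨d, hd, f, hf, hf0⟩ := hp'
    exact ⟨d, hd, f, hf, by simpa using hf0⟩)
  have hf0 : f ≠ 0 := by simpa using hfp
  have hg0 : g ≠ 0 := by simpa using hgp
  obtain ⟨P⟩ := atlasEx_pre h f g d hf hg hf0 hg0
  obtain ⟨B0, ρ0, hu, hfg, inj, surj⟩ := P
  have hfp0 : Algebra.FinitePresentation ℂ B0 := Algebra.FinitePresentation.of_finiteType.1 ‹_›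
  have hq : (⊥ : Ideal B0).IsPrime := Ideal.isPrime_bot
  have hsmooth : Algebra.IsSmoothAt ℂ (⊥ : Ideal B0) := by
    let K := FractionRing B0
    have i0 : Algebra.EssFiniteType B0 K :=
      Algebra.EssFiniteType.of_isLocalization K (nonZeroDivisors B0)
    have i1 : Algebra.EssFiniteType ℂ K := .comp ℂ B0 K
    have i2 : Algebra.FormallySmooth ℂ K := inferInstance
    have e0 : (⊥ : Ideal B0).primeCompl = nonZeroDivisors B0 := by
      ext z
      rw [mem_nonZeroDivisors_iff_ne_zero]
      simp [Ideal.primeCompl]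
    have i3 : IsLocalization (⊥ : Ideal B0).primeCompl K := by
      rw [e0]
      infer_instance
    let e : K ≃ₐ[B0] Localization.AtPrime (⊥ : Ideal B0) :=
      IsLocalization.algEquiv (⊥ : Ideal B0).primeCompl K _
    exact Algebra.FormallySmooth.of_equiv (e.restrictScalars ℂ)
  have hfgd : f * g ∈ 𝒜 (d + (d + 1)) := SetLike.mul_mem_graded hf hg
  obtain ⟨b0, hb0, hstd⟩ := Algebra.IsSmoothAt.exists_notMem_isStandardSmooth ℂ (⊥ : Ideal B0)
  obtain ⟨k, a, ha, hab⟩ := surj b0
  have hb00 : b0 ≠ 0 := by simpa using hb0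
  have hu2 : IsUnit (ρ0 (f * g)) := by
    rw [map_mul, ← hfg]; exact hu.mul hu
  have ha0 : a ≠ 0 := by
    rintro rfl
    rw [map_zero] at hab
    exact mul_ne_zero hb00 (hu2.pow k).ne_zero hab
  obtain ⟨I, b, hb⟩ := (Algebra.IsStandardSmooth.iff_exists_basis_kaehlerDifferential.1 hstd).2
  let B := Localization.Away b0
  have hBdom : IsDomain B := IsLocalization.isDomain_localization
    (powers_le_nonZeroDivisors_of_noZeroDivisors hb00)
  have hBinj : Function.Injective (algebraMap B0 B) :=
    IsLocalization.injective B (powers_le_nonZeroDivisors_of_noZeroDivisors hb00)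
  have hbu : IsUnit (algebraMap B0 B b0) := IsLocalization.Away.algebraMap_isUnit b0
  let ρ : R →ₐ[ℂ] B := (Algebra.algHom ℂ B0 B).comp ρ0
  have hρ : ∀ s, ρ s = algebraMap B0 B (ρ0 s) := fun s => rfl
  have hF : f * g * a ∈ 𝒜 ((d + (d + 1)) * (k + 1)) := by
    have h1 := SetLike.mul_mem_graded hfgd ha
    have h2 : d + (d + 1) + (d + (d + 1)) * k = (d + (d + 1)) * (k + 1) := by ring
    rwa [h2] at h1
  have hT : g * g * a ∈ 𝒜 ((d + (d + 1)) * (k + 1) * 1 + 1) := by
    have h1 := SetLike.mul_mem_graded (SetLike.mul_mem_graded hg hg) ha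
    have h2 : d + 1 + (d + 1) + (d + (d + 1)) * k = (d + (d + 1)) * (k + 1) * 1 + 1 := by ring
    rwa [h2] at h1
  have hρT : ρ (g * g * a) = ρ (f * g * a) ^ 1 := by
    simp only [hρ, map_mul, hfg, pow_one]
  have hF0 : f * g * a ≠ 0 := mul_ne_zero (mul_ne_zero hf0 hg0) ha0
  have hρF : ρ (f * g * a) = algebraMap B0 B b0 * algebraMap B0 B (ρ0 (f * g)) ^ (k + 1) := by
    rw [hρ, map_mul ρ0 (f * g) a, ← hab, map_mul (algebraMap B0 B), map_mul (algebraMap B0 B),
      map_pow (algebraMap B0 B)]
    ring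
  have hunit : IsUnit (ρ (f * g * a)) := by
    rw [hρF]
    exact hbu.mul ((hu2.map (algebraMap B0 B)).pow _)
  have hinj : ∀ m, ∀ s ∈ 𝒜 m, ρ s = 0 → s = 0 := fun m s hs h0 =>
    inj m s hs (hBinj (by rw [← hρ, h0, map_zero]))
  have hsurj : ∀ z : B, ∃ K, ∃ s ∈ 𝒜 ((d + (d + 1)) * (k + 1) * K),
      z * ρ (f * g * a) ^ K = ρ s := by
    intro z
    obtain ⟨j, c, hc⟩ := IsLocalization.Away.surj b0 z
    obtain ⟨i, a', ha', hca'⟩ := surj c
    refine ⟨i + j, a' * a ^ i * (f * g) ^ ((k + 1) * j), ?_, ?_⟩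
    · have h1 := SetLike.mul_mem_graded (SetLike.mul_mem_graded ha' (SetLike.pow_mem_graded i ha))
        (SetLike.pow_mem_graded ((k + 1) * j) hfgd)
      have h2 : (d + (d + 1)) * i + i • ((d + (d + 1)) * k) + ((k + 1) * j) • (d + (d + 1)) =
          (d + (d + 1)) * (k + 1) * (i + j) := by
        simp only [smul_eq_mul]; ring
      rwa [h2] at h1
    · have h3 : ρ (a' * a ^ i * (f * g) ^ ((k + 1) * j)) =
          (z * algebraMap B0 B b0 ^ j * algebraMap B0 B (ρ0 (f * g)) ^ i) *
          (algebraMap B0 B b0 * algebraMap B0 B (ρ0 (f * g)) ^ k) ^ i *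
            algebraMap B0 B (ρ0 (f * g)) ^ ((k + 1) * j) := by
        rw [hc, ← map_pow, ← map_mul, hca']
        rw [← map_pow (algebraMap B0 B) (ρ0 (f * g)) k, ← map_mul, hab]
        rw [hρ, map_mul, map_mul, map_mul, map_mul, map_pow, map_pow, map_pow, map_pow]
      rw [h3, hρF]
      ring
  have htr := atlasEx_trdeg ρ (f * g * a) _ hF hF0 hinj hsurj 1 _ hT hρT
  rw [h.dim] at htr
  have hI : Cardinal.mk I = (n : Cardinal) := by
    rw [atlasEx_card B b]
    exact (Cardinal.add_one_inj.1 htr).symm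
  obtain ⟨e⟩ := Cardinal.mk_eq_nat_iff.1 hI
  let b' : Module.Basis (Fin n) B (Ω[B⁄ℂ]) := b.reindex e
  have hb' : ∀ l, ∃ y : B, D ℂ B y = b' l := fun l => by
    obtain ⟨y, hy⟩ := hb ⟨e.symm l, rfl⟩
    exact ⟨y, by rw [hy, Module.Basis.reindex_apply]⟩
  choose y hy using hb'
  exact ⟨{
    B := B
    ρ := ρ
    F := f * g * a
    d := (d + (d + 1)) * (k + 1)
    hd := by positivity
    hF := hF
    unit := hunit
    inj := hinj
    surj := hsurj
    e := 1
    T := g * g * a
    hT := hT
    ρT := hρT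
    y := y
    der := fun l => (b'.coord l).compDer (D ℂ B)
    der_y := fun l k => by
      change b'.coord l (D ℂ B (y k)) = _
      rw [hy, Module.Basis.coord_apply, Module.Basis.repr_self, Finsupp.single_apply]
      simp only [eq_comm]
    gen := fun z => by
      simp only [hy]
      exact (b'.sum_repr (D ℂ B z)).symm }⟩

end Pool.Agent.Lib_KF

end

/-! ### from `Lib_KF.CDefs` -/

section

/-!
# Arc systems with poles: definitions

`O = L⟦X⟧`. An arc system with poles is the linear algebra shadow of `N` arcs `x_j : R → O` on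
the cone over a normal variety. `e j` is the order at `x_j` of the denominator `h` of the
derivations `D_l = x_a ∂/∂x_l`; `u j α i = X ^ (|α| e_j) (D^α s_i)(x_j)`, `ξ δ j l = δ (y_l (x_j))`,
`y_l = x_l / x_a`, and `g j` is the order of `G` at `x_j`.
-/

open PowerSeries

namespace Pool.Agent.Lib_KF

open Pool.Agent.Lib_GD (hat colen FinColen ArcSystem)

variable {L : Type} [Field L] [Algebra ℂ L]

/-- An arc system with poles. -/
structure ArcSys (L : Type) [Field L] [Algebra ℂ L] (n N : ℕ) where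
  /-- the derivations -/
  𝒟 : Submodule L (Derivation ℂ L L)
  /-- the order of the denominator at `x_j` -/
  e : Fin N → ℕ
  /-- `u j α i = X ^ (|α| e_j) (D^α s_i)(x_j)` -/
  u : Fin N → (Fin n →₀ ℕ) → Fin N → L⟦X⟧
  /-- `ξ δ j l = δ (y_l (x_j))` -/
  ξ : Derivation ℂ L L → Fin N → Fin n → L⟦X⟧
  /-- the connection form of the chosen frames -/
  w : Derivation ℂ L L → Fin N → (Fin n →₀ ℕ) → L⟦X⟧
  transport : ∀ δ ∈ 𝒟, ∀ j α i,
    X ^ e j * hat δ (u j α i) =
      (∑ l, ξ δ j l * u j (α + Finsupp.single l 1) i) + X ^ e j * (w δ j α * u j α i)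
  /-- the possible values of `ξ` -/
  Ξ : Submodule L⟦X⟧ (Fin N → Fin n → L⟦X⟧)
  mem_Ξ : ∀ v, v ∈ Ξ ↔ ∃ δ ∈ 𝒟, ξ δ = v
  fin_Ξ : FinColen Ξ
  /-- the order of `G` at `x_j` -/
  g : Fin N → ℕ
  /-- the index -/
  r : ℕ

namespace ArcSys

variable {n N : ℕ} (Γ : ArcSys L n N)

/-- The arc system without sections; it carries the costs `a(j|S)`. -/
noncomputable def base : ArcSystem L n N where
  𝒟 := Γ.𝒟
  u := fun _ _ _ => 0
  ξ := Γ.ξ
  transport := by
    intro δ _ j α i
    rw [Pool.Agent.Lib_GD.hat_zero]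
    simp
  Ξ := Γ.Ξ
  mem_Ξ := Γ.mem_Ξ
  fin_Ξ := Γ.fin_Ξ

/-- The arc system of dimension `0` with the same evaluation matrix; it carries the energies. -/
noncomputable def lin : ArcSystem L 0 N where
  𝒟 := ⊥
  u := fun j _ i => Γ.u j 0 i
  ξ := fun _ => 0
  transport := by
    intro δ hδ j α i
    rw [Submodule.mem_bot] at hδ
    subst hδ
    ext k
    simp [hat]
  Ξ := ⊥
  mem_Ξ := by
    intro v
    constructor
    · intro _
      exact ⟨0, Submodule.zero_mem _, Subsingleton.elim _ _⟩
    · intro _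
      rw [Submodule.mem_bot]
      exact Subsingleton.elim _ _
  fin_Ξ := by
    unfold FinColen
    have : Subsingleton ((Fin N → Fin 0 → L⟦X⟧) ⧸
        (⊥ : Submodule L⟦X⟧ (Fin N → Fin 0 → L⟦X⟧))) :=
      ⟨fun a b => by
        obtain ⟨a, rfl⟩ := Submodule.Quotient.mk_surjective _ a
        obtain ⟨b, rfl⟩ := Submodule.Quotient.mk_surjective _ b
        rw [Subsingleton.elim a b]⟩
    rw [Module.length_eq_zero]
    exact ENat.zero_ne_top

/-- The cost `a(j|S)`: the colength of the possible values of `ξ` at `x_j` for derivations killing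
the arcs `x_i`, `i ∈ S`. -/
noncomputable def cost (j : Fin N) (S : Finset (Fin N)) : ℕ := Γ.base.cost j S

/-- The cost `c(j|S) = r a(j|S) - ord G(x_j)` of the pair. -/
noncomputable def cc (j : Fin N) (S : Finset (Fin N)) : ℕ := Γ.r * Γ.cost j S - Γ.g j

/-- The total cost of the pair. -/
noncomputable def AA : ℕ := Γ.r * colen Γ.Ξ - ∑ j, Γ.g j

/-- The derivations killing the arcs `x_i`, `i ∈ S`. -/
def Dker (S : Finset (Fin N)) : Set (Derivation ℂ L L) :=
  {δ | δ ∈ Γ.𝒟 ∧ ∀ i ∈ S, Γ.ξ δ i = 0}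

/-- Submodules of `H(O) = O^N` stable under the derivations killing the arcs in `S`. -/
def Stable (S : Finset (Fin N)) (M : Submodule L⟦X⟧ (Fin N → L⟦X⟧)) : Prop :=
  ∀ δ ∈ Γ.Dker S, ∀ f ∈ M, (fun i => hat δ (f i)) ∈ M

/-- The functionals `f ↦ X ^ (|α| e_j) (D^α f)(x_j)` on `H(O) = O^N`. -/
noncomputable def ev (j : Fin N) (α : Fin n →₀ ℕ) : (Fin N → L⟦X⟧) →ₗ[L⟦X⟧] L⟦X⟧ where
  toFun f := ∑ i, Γ.u j α i * f i
  map_add' f g := by simp [mul_add, Finset.sum_add_distrib]
  map_smul' c f := by
    simp only [Pi.smul_apply, smul_eq_mul, RingHom.id_apply, Finset.mul_sum]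
    exact Finset.sum_congr rfl fun i _ => by ring

/-- `W_S`: the elements of `H(O)` vanishing at the arcs `x_i`, `i ∈ S`. -/
def W (S : Finset (Fin N)) : Submodule L⟦X⟧ (Fin N → L⟦X⟧) where
  carrier := {f | ∀ i ∈ S, Γ.ev i 0 f = 0}
  add_mem' {a b} ha hb i hi := by simp [ha i hi, hb i hi]
  zero_mem' i _ := by simp
  smul_mem' c a ha i hi := by simp [ha i hi]

/-- The energy `φ(j|S)`: the smallest order at `x_j` of an element of `W_S`. -/
noncomputable def phi (j : Fin N) (S : Finset (Fin N)) : ℕ :=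
  sInf {k | ∃ f ∈ Γ.W S, ¬ (X : L⟦X⟧) ^ (k + 1) ∣ Γ.ev j 0 f}

/-- The evaluation determinant. -/
noncomputable def det : L⟦X⟧ := Matrix.det (Matrix.of fun j i : Fin N => Γ.u j 0 i)

/-- Hypothesis (T'): a section which is non-zero modulo `X` has a jet of order at most `D` at `x_j`
whose value has order at most `D e_j`. -/
def HT (D : ℕ) : Prop :=
  ∀ (j : Fin N) (f : Fin N → L⟦X⟧), (∃ i, constantCoeff (f i) ≠ 0) →
    ∃ α : Fin n →₀ ℕ, α.degree ≤ D ∧ ¬ (X : L⟦X⟧) ^ (D * Γ.e j + 1) ∣ Γ.ev j α f

/-- Hypothesis (Sep'): the jets of order `< q` are independent up to a bounded denominator. -/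
def HSep (q : ℕ) : Prop :=
  ∀ (j : Fin N) (k : ℕ) (s : Finset (Fin n →₀ ℕ)) (c : (Fin n →₀ ℕ) → L⟦X⟧),
    (∀ α ∈ s, α.degree < q) → (∀ f, (X : L⟦X⟧) ^ k ∣ ∑ α ∈ s, c α * Γ.ev j α f) →
      ∀ α ∈ s, (X : L⟦X⟧) ^ k ∣ X ^ (2 * q * Γ.e j) * c α

/-- The lower bound for the costs (from `δ > 0`): `a(j|S) + e_j ≤ C₁ c(j|S)`. -/
def HUP (C₁ : ℕ) : Prop :=
  ∀ (j : Fin N) (S : Finset (Fin N)), j ∉ S →
    Γ.g j ≤ Γ.r * Γ.cost j S ∧ Γ.cost j S + Γ.e j ≤ C₁ * Γ.cc j S

/-- Hypothesis (I2): a stable lattice `X ^ (-B) M`, `X ^ B O^N ⊆ M ⊆ O^N`, with integral values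
at `x_j` has length at most `σ c(j|S)` over `O^N`. -/
def HI2 (σ : ℝ) : Prop :=
  ∀ (S : Finset (Fin N)) (j : Fin N), j ∉ S →
    ∀ (B : ℕ) (M : Submodule L⟦X⟧ (Fin N → L⟦X⟧)), (∀ f, (X : L⟦X⟧) ^ B • f ∈ M) →
      Γ.Stable S M → (∀ f ∈ M, (X : L⟦X⟧) ^ B ∣ Γ.ev j 0 f) →
      (B : ℝ) * N - colen M ≤ σ * Γ.cc j S

/-- The disc lattice `X ^ B Λ_S` of radius `a`; only the points with `e_i ≤ a` count. -/
def Lam (B a : ℕ) (S : Finset (Fin N)) : Submodule L⟦X⟧ (Fin N → L⟦X⟧) where
  carrier := {f | ∀ i ∈ S, Γ.e i ≤ a → ∀ α : Fin n →₀ ℕ,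
    (X : L⟦X⟧) ^ B ∣ X ^ (α.degree * (a - Γ.e i)) * Γ.ev i α f}
  add_mem' {f g} hf hg i hi ha α := by
    rw [map_add, mul_add]; exact dvd_add (hf i hi ha α) (hg i hi ha α)
  zero_mem' i _ _ α := by simp
  smul_mem' c f hf i hi ha α := by
    rw [map_smul, smul_eq_mul, mul_left_comm]; exact Dvd.dvd.mul_left (hf i hi ha α) c

/-- `r_S(b)` as a subspace of `L^N`: the reductions of the `f ∈ O^N` with
`X ^ (B - b) f ∈ X ^ B Λ_S`. -/
def rsub (B a : ℕ) (S : Finset (Fin N)) (b : ℕ) : Submodule L (Fin N → L) where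
  carrier := {v | ∃ f : Fin N → L⟦X⟧, (∀ i, constantCoeff (f i) = v i) ∧
    (X : L⟦X⟧) ^ (B - b) • f ∈ Γ.Lam B a S}
  add_mem' {v w} := by
    rintro ⟨f, hf, hf'⟩ ⟨g, hg, hg'⟩
    exact ⟨f + g, fun i => by simp [hf i, hg i], by rw [smul_add]; exact add_mem hf' hg'⟩
  zero_mem' := ⟨0, fun i => by simp, by simp⟩
  smul_mem' c v := by
    rintro ⟨f, hf, hf'⟩
    refine ⟨(C c : L⟦X⟧) • f, fun i => by simp [hf i], ?_⟩
    rw [smul_comm]; exact Submodule.smul_mem _ _ hf'

/-- `r_S(b)`. -/
noncomputable def rk (B a : ℕ) (S : Finset (Fin N)) (b : ℕ) : ℕ :=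
  Module.finrank L (Γ.rsub B a S b)

end ArcSys

end Pool.Agent.Lib_KF

end

/-! ### from `Lib_KF.RMet` -/

section

/-! RS02: a smooth positive definite Hermitian matrix function has a Chern connection. -/

open MeasureTheory Complex
open scoped ENNReal ContDiff ComplexConjugate

namespace Pool.Agent.Lib_KF

open GPn

/-- the derivative `dz` of a smooth function is smooth -/
private theorem RMet_dz {E : Type} [NormedAddCommGroup E] [NormedSpace ℂ E] {W : Set E}
    (hW : IsOpen W) {F : E → ℂ} (hF : ContDiffOn ℝ ∞ F W) (v : E) :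
    ContDiffOn ℝ ∞ (dz v F) W := by
  have h1 : ContDiffOn ℝ ∞ (fderiv ℝ F) W := hF.fderiv_of_isOpen hW (by simp)
  have h2 : ∀ w : E, ContDiffOn ℝ ∞ (fun x => fderiv ℝ F x w) W := fun w =>
    h1.clm_apply contDiffOn_const
  unfold dz
  exact ((h2 v).sub (contDiffOn_const.mul (h2 (I • v)))).div_const 2

/-- the determinant of a matrix of smooth functions is smooth -/
private theorem RMet_det {E : Type} [NormedAddCommGroup E] [NormedSpace ℂ E] {W : Set E} {D : ℕ}
    {N : E → Matrix (Fin D) (Fin D) ℂ} (hN : ∀ a c, ContDiffOn ℝ ∞ (fun x => N x a c) W) :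
    ContDiffOn ℝ ∞ (fun x => (N x).det) W := by
  simp only [Matrix.det_apply]
  refine ContDiffOn.sum fun σ _ => ?_
  refine ContDiffOn.const_smul _ ?_
  exact contDiffOn_prod fun i _ => hN (σ i) i

private theorem RMet_adj {E : Type} [NormedAddCommGroup E] [NormedSpace ℂ E] {W : Set E} {D : ℕ}
    {N : E → Matrix (Fin D) (Fin D) ℂ} (hN : ∀ a c, ContDiffOn ℝ ∞ (fun x => N x a c) W)
    (i j : Fin D) : ContDiffOn ℝ ∞ (fun x => (N x).adjugate i j) W := by
  simp only [Matrix.adjugate_apply]
  refine RMet_det fun a c => ?_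
  by_cases h : a = j
  · subst h
    simp only [Matrix.updateRow_self]
    exact contDiffOn_const
  · simp only [Matrix.updateRow_ne h]
    exact hN a c

/-- a positive definite matrix is invertible -/
private theorem RMet_ne {D : ℕ} (H : Fin D → Fin D → ℂ)
    (pos : ∀ u : Fin D → ℂ, u ≠ 0 → 0 < (ip H u u).re) : (Matrix.of H).det ≠ 0 := by
  intro h
  obtain ⟨u, hu, h1⟩ := Matrix.exists_mulVec_eq_zero_iff.2 h
  have h2 : ip H u u = 0 := by
    unfold ip
    refine Finset.sum_eq_zero fun a _ => ?_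
    have h3 : ∑ c, H a c * u c = 0 := by
      have := congrFun h1 a
      simpa [Matrix.mulVec, dotProduct] using this
    simp only [mul_assoc]
    rw [← Finset.mul_sum, h3, mul_zero]
  have h4 := pos u hu
  rw [h2] at h4
  simp at h4

theorem exists_hmet {E : Type} [NormedAddCommGroup E] [NormedSpace ℂ E] {W : Set E}
    (hW : IsOpen W) {ι : Type} [Fintype ι] (b : Module.Basis ι ℂ E) {D : ℕ}
    (H : E → Fin D → Fin D → ℂ) (smH : ∀ a c, ContDiffOn ℝ ∞ (fun x => H x a c) W)
    (herm : ∀ x ∈ W, ∀ a c, H x a c = conj (H x c a))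
    (pos : ∀ x ∈ W, ∀ u : Fin D → ℂ, u ≠ 0 → 0 < (ip (H x) u u).re) :
    ∃ M : HMet W b D, M.H = H := by
  have hdet : ContDiffOn ℝ ∞ (fun x => (Matrix.of (H x)).det) W :=
    RMet_det (N := fun x => Matrix.of (H x)) smH
  have hadj : ∀ i j, ContDiffOn ℝ ∞ (fun x => (Matrix.of (H x)).adjugate i j) W := fun i j =>
    RMet_adj (N := fun x => Matrix.of (H x)) smH i j
  refine ⟨⟨H, fun k x a c => ∑ e, (((Matrix.of (H x)).det)⁻¹ * (Matrix.of (H x)).adjugate a e) *
    dz (b k) (fun y => H y e c) x, smH, ?_, herm, pos, ?_⟩, rfl⟩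
  · intro k a c
    refine ContDiffOn.sum fun e _ => ?_
    refine ContDiffOn.mul (ContDiffOn.mul ?_ (hadj a e)) (RMet_dz hW (smH e c) (b k))
    exact hdet.inv fun x hx => RMet_ne (H x) (pos x hx)
  · intro k a c x hx
    have h0 := RMet_ne (H x) (pos x hx)
    have h1 := (Matrix.of (H x)).mul_adjugate
    have h2 : ∀ f, ∑ e, H x a e * (Matrix.of (H x)).adjugate e f =
        (Matrix.of (H x)).det * (if a = f then 1 else 0) := by
      intro f
      have := congrFun (congrFun h1 a) f
      rw [Matrix.mul_apply] at this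
      simpa [Matrix.smul_apply, Matrix.one_apply] using this
    have h3 : ∑ e, H x a e * ∑ f, (((Matrix.of (H x)).det)⁻¹ * (Matrix.of (H x)).adjugate e f) *
        dz (b k) (fun y => H y f c) x =
        ∑ f, ((Matrix.of (H x)).det)⁻¹ * (∑ e, H x a e * (Matrix.of (H x)).adjugate e f) *
          dz (b k) (fun y => H y f c) x := by
      simp only [Finset.mul_sum, Finset.sum_mul]
      rw [Finset.sum_comm]
      refine Finset.sum_congr rfl fun f _ => Finset.sum_congr rfl fun e _ => ?_
      ring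
    rw [h3]
    have h4 : ∀ f, ((Matrix.of (H x)).det)⁻¹ * (∑ e, H x a e * (Matrix.of (H x)).adjugate e f) *
          dz (b k) (fun y => H y f c) x = if a = f then dz (b k) (fun y => H y f c) x else 0 := by
      intro f
      rw [h2 f, ← mul_assoc, inv_mul_cancel₀ h0, one_mul]
      split_ifs <;> simp
    rw [Finset.sum_congr rfl fun f _ => h4 f, Finset.sum_ite_eq]
    simp

end Pool.Agent.Lib_KF

end

/-! ### from `Lib_KF.RWeyl` -/

section

/-! RS09: Weyl's lemma for the Cauchy-Riemann equations on an open set. -/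

open MeasureTheory Complex
open scoped ENNReal ContDiff ComplexConjugate

namespace Pool.Agent.Lib_KF

open GPn

section Local

variable {E : Type} [NormedAddCommGroup E] [NormedSpace ℂ E] [FiniteDimensional ℂ E]
  [MeasurableSpace E] [BorelSpace E]

private noncomputable def rot (t : ℝ) : ℂ := Complex.exp (t * I)

private theorem norm_rot (t : ℝ) : ‖rot t‖ = 1 := Complex.norm_exp_ofReal_mul_I t

private theorem rot_ne (t : ℝ) : rot t ≠ 0 := Complex.exp_ne_zero _

/-- multiplication by a unit complex number preserves Haar measure -/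
private theorem circle_mp (mu : Measure E) [mu.IsAddHaarMeasure] (t : ℝ) :
    MeasurePreserving (fun x : E => rot t • x) mu mu := by
  have : ProperSpace E := FiniteDimensional.proper_rclike ℂ E
  let e : E ≃L[ℝ] E :=
    (ContinuousLinearEquiv.smulLeft (Units.mk0 (rot t) (rot_ne t)) : E ≃L[ℂ] E).restrictScalars ℝ
  have he : ∀ x, e x = rot t • x := fun x => rfl
  have hmeas : Measurable (fun x : E => rot t • x) := (continuous_const_smul (rot t)).measurable
  refine ⟨hmeas, ?_⟩
  have h1 : (mu.map e).IsAddHaarMeasure := e.isAddHaarMeasure_map mu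
  have h2 : mu.map (fun x : E => rot t • x) = mu.map e := rfl
  rw [h2]
  have h3 := Measure.isAddLeftInvariant_eq_smul (mu.map e) mu
  have h4 : (mu.map e) (Metric.closedBall 0 1) = mu (Metric.closedBall 0 1) := by
    rw [Measure.map_apply e.continuous.measurable Metric.isClosed_closedBall.measurableSet]
    congr 1
    ext x
    simp only [Set.mem_preimage, Metric.mem_closedBall, dist_zero_right, he, norm_smul, norm_rot,
      one_mul]
  rw [h3] at h4
  rw [h3]
  set c := (mu.map e).addHaarScalarFactor mu with hc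
  have h5 : mu (Metric.closedBall 0 1) ≠ 0 :=
    (Metric.measure_closedBall_pos mu 0 one_pos).ne'
  have h6 : mu (Metric.closedBall 0 1) ≠ ⊤ := (measure_closedBall_lt_top).ne
  have h7 : ((c : NNReal) : ℝ≥0∞) * mu (Metric.closedBall 0 1) = 1 * mu (Metric.closedBall 0 1) := by
    rw [one_mul]; exact h4
  have h8 : ((c : NNReal) : ℝ≥0∞) = 1 := (ENNReal.mul_left_inj h5 h6).1 h7
  have h9 : c = 1 := by exact_mod_cast h8
  rw [h9, one_smul]

/-- the convolution-type function -/
private noncomputable def HF (mu : Measure E) (h : E → ℂ) (ph : E → ℂ) (x : E) : ℂ :=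
  ∫ y, h y * ph (y - x) ∂mu

private theorem RWeyl_eq_conv (mu : Measure E) (h ph : E → ℂ) :
    HF mu h ph = MeasureTheory.convolution h (fun z => ph (-z))
      (ContinuousLinearMap.mul ℝ ℂ) mu := by
  funext x
  simp only [HF, MeasureTheory.convolution, ContinuousLinearMap.mul_apply', neg_sub]

private theorem RWeyl_cont (mu : Measure E) [mu.IsAddHaarMeasure] (h : E → ℂ)
    (hloc : LocallyIntegrable h mu) (ph : E → ℂ) (hs : Continuous ph)
    (hc : HasCompactSupport ph) : Continuous (HF mu h ph) := by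
  rw [RWeyl_eq_conv]
  exact (hc.comp_homeomorph (Homeomorph.neg E)).continuous_convolution_right
    (ContinuousLinearMap.mul ℝ ℂ) hloc (hs.comp continuous_neg)

private theorem RWeyl_deriv (mu : Measure E) [mu.IsAddHaarMeasure] {ι : Type} [Fintype ι]
    (b : Module.Basis ι ℂ E) (h : E → ℂ) (hloc : LocallyIntegrable h mu) {U : Set E}
    (hol : ∀ ps : E → ℂ, SCW U ps → ∀ j, ∫ x, h x * dzb (b j) ps x ∂mu = 0)
    (ph : E → ℂ) (hs : ContDiff ℝ ∞ ph) (hc : HasCompactSupport ph) (x : E)
    (hx : tsupport (fun t => ph (t - x)) ⊆ U) :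
    DifferentiableAt ℝ (HF mu h ph) x ∧
      ∀ j, fderiv ℝ (HF mu h ph) x (I • b j) = I * fderiv ℝ (HF mu h ph) x (b j) := by
  have : ProperSpace E := FiniteDimensional.proper_rclike ℂ E
  set g : E → ℂ := fun z => ph (-z) with hg
  have hgs : ContDiff ℝ ∞ g := hs.comp contDiff_neg
  have hgc : HasCompactSupport g := hc.comp_homeomorph (Homeomorph.neg E)
  have hHF : HF mu h ph = MeasureTheory.convolution h g (ContinuousLinearMap.mul ℝ ℂ) mu :=
    RWeyl_eq_conv mu h ph
  have hd := hgc.hasFDerivAt_convolution_right (ContinuousLinearMap.mul ℝ ℂ) hloc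
    (hgs.of_le (by simp)) x
  rw [← hHF] at hd
  refine ⟨hd.differentiableAt, ?_⟩
  have hfd := hd.fderiv
  have hcd : HasCompactSupport (fderiv ℝ g) := hgc.fderiv ℝ
  have hcont : Continuous (fderiv ℝ g) := hgs.continuous_fderiv (by simp)
  have hex : ConvolutionExistsAt h (fderiv ℝ g) x
      ((ContinuousLinearMap.mul ℝ ℂ).precompR E) mu :=
    hcd.convolutionExists_right _ hloc hcont x
  have happ : ∀ v, fderiv ℝ (HF mu h ph) x v = ∫ t, h t * fderiv ℝ g (x - t) v ∂mu := by
    intro v
    rw [hfd, MeasureTheory.convolution, ContinuousLinearMap.integral_apply hex.integrable]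
    rfl
  have hint : ∀ v, Integrable (fun t => h t * fderiv ℝ g (x - t) v) mu := by
    intro v
    have := hex.integrable.apply_continuousLinearMap v
    exact this
  intro j
  set v := b j with hv
  rw [happ, happ]
  -- use hol with the function t ↦ g (x - t)
  have hgx : (fun t => g (x - t)) = fun t => ph (t - x) := by
    funext t
    simp only [hg, neg_sub]
  have h1 := hol (fun t => g (x - t)) ⟨hgs.comp (contDiff_const.sub contDiff_id),
    hgc.comp_homeomorph (Homeomorph.subLeft x), by rw [hgx]; exact hx⟩ j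
  have h2 : ∀ t w, fderiv ℝ (fun t => g (x - t)) t w = - fderiv ℝ g (x - t) w := by
    intro t w
    have h3 : HasFDerivAt (fun t => g (x - t)) ((fderiv ℝ g (x - t)).comp
        (-(ContinuousLinearMap.id ℝ E))) t := by
      have h4 : HasFDerivAt (fun t : E => x - t) (-(ContinuousLinearMap.id ℝ E)) t :=
        (hasFDerivAt_id t).const_sub x
      exact ((hgs.differentiable (by simp)) (x - t)).hasFDerivAt.comp t h4
    rw [h3.fderiv]
    simp
  simp only [dzb, h2] at h1
  have h5 : ∫ t, h t * fderiv ℝ g (x - t) v ∂mu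
      + I * ∫ t, h t * fderiv ℝ g (x - t) (I • v) ∂mu = 0 := by
    have h6 : (-2 : ℂ) * ∫ t, h t * ((-fderiv ℝ g (x - t) v +
        I * -fderiv ℝ g (x - t) (I • v)) / 2) ∂mu = 0 := by
      rw [h1, mul_zero]
    rw [← integral_const_mul, ← integral_add (hint v) ((hint (I • v)).const_mul I)]
    rw [← integral_const_mul] at h6
    rw [← h6]
    congr 1
    funext t
    ring
  have h6 : ∫ t, h t * fderiv ℝ g (x - t) v ∂mu
      = - (I * ∫ t, h t * fderiv ℝ g (x - t) (I • v) ∂mu) := eq_neg_of_add_eq_zero_left h5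
  rw [h6]
  have : I * -(I * ∫ t, h t * fderiv ℝ g (x - t) (I • v) ∂mu)
      = -(I * I) * ∫ t, h t * fderiv ℝ g (x - t) (I • v) ∂mu := by ring
  rw [this, Complex.I_mul_I]
  simp

/-- circle invariant bumps -/
private theorem exists_bumps (mu : Measure E) [mu.IsAddHaarMeasure] :
    ∃ r : ℕ → E → ℝ, (∀ n, ContDiff ℝ ∞ (r n)) ∧ (∀ n, HasCompactSupport (r n)) ∧
      (∀ n x, 0 ≤ r n x) ∧ (∀ n, ∫ x, r n x ∂mu = 1) ∧
      (∀ n (t : ℝ) x, r n (rot t • x) = r n x) ∧
      Filter.Tendsto (fun n => Function.support (r n)) Filter.atTop (nhds 0).smallSets := by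
  have : ProperSpace E := FiniteDimensional.proper_rclike ℂ E
  let b := Module.finBasis ℂ E
  -- equivalence with euclidean space
  let e : E ≃L[ℂ] EuclideanSpace ℂ (Fin (Module.finrank ℂ E)) :=
    (b.equivFun.toContinuousLinearEquiv).trans
      (PiLp.continuousLinearEquiv 2 ℂ (fun _ : Fin (Module.finrank ℂ E) => ℂ)).symm
  set q : E → ℝ := fun x => ‖e x‖ ^ 2 with hq
  have hqs : ContDiff ℝ ∞ q := by
    have h1 : ContDiff ℝ ∞ (fun x : E => e x) := (e.contDiff (n := ∞)).restrict_scalars ℝ
    exact h1.norm_sq ℝ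
  have hq0 : ∀ x, 0 ≤ q x := fun x => by positivity
  have hqr : ∀ (t : ℝ) x, q (rot t • x) = q x := by
    intro t x
    simp only [hq, map_smul, norm_smul, norm_rot, one_mul]
  -- comparison of norms
  obtain ⟨C, hC0, hC⟩ : ∃ C : ℝ, 0 < C ∧ ∀ x : E, ‖x‖ ≤ C * ‖e x‖ := by
    refine ⟨‖(e.symm : EuclideanSpace ℂ (Fin (Module.finrank ℂ E)) →L[ℂ] E)‖ + 1, by positivity,
      fun x => ?_⟩
    have h1 := (e.symm : EuclideanSpace ℂ (Fin (Module.finrank ℂ E)) →L[ℂ] E).le_opNorm (e x)
    have h2 : (e.symm : EuclideanSpace ℂ (Fin (Module.finrank ℂ E)) →L[ℂ] E) (e x) = x :=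
      e.symm_apply_apply x
    rw [h2] at h1
    nlinarith [norm_nonneg (e x)]
  set s : ℕ → E → ℝ := fun n x => Real.smoothTransition (1 - ((n : ℝ) + 1) * q x) with hsdef
  have hss : ∀ n, ContDiff ℝ ∞ (s n) := fun n =>
    Real.smoothTransition.contDiff.comp (contDiff_const.sub (contDiff_const.mul hqs))
  have hsn : ∀ n x, 0 ≤ s n x := fun n x => Real.smoothTransition.nonneg _
  have hsupp : ∀ n, Function.support (s n) ⊆
      Metric.closedBall 0 (C * Real.sqrt (1 / ((n : ℝ) + 1))) := by
    intro n x hx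
    have h1 : ¬ (1 - ((n : ℝ) + 1) * q x ≤ 0) := by
      intro h2
      exact hx (Real.smoothTransition.zero_of_nonpos h2)
    push Not at h1
    have h3 : q x ≤ 1 / ((n : ℝ) + 1) := by
      rw [le_div_iff₀ (by positivity)]
      nlinarith
    have h4 : ‖e x‖ ≤ Real.sqrt (1 / ((n : ℝ) + 1)) := Real.le_sqrt_of_sq_le h3
    rw [mem_closedBall_zero_iff]
    exact (hC x).trans (mul_le_mul_of_nonneg_left h4 hC0.le)
  have hsc : ∀ n, HasCompactSupport (s n) := fun n =>
    HasCompactSupport.of_support_subset_isCompact (isCompact_closedBall _ _) (hsupp n)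
  have hint : ∀ n, Integrable (s n) mu := fun n =>
    (hss n).continuous.integrable_of_hasCompactSupport (hsc n)
  have hpos : ∀ n, 0 < ∫ x, s n x ∂mu := by
    intro n
    refine (hss n).continuous.integral_pos_of_hasCompactSupport_nonneg_nonzero (hsc n) (hsn n)
      (x := 0) ?_
    simp [hsdef, hq]
  refine ⟨fun n x => (∫ x, s n x ∂mu)⁻¹ * s n x, fun n => contDiff_const.mul (hss n),
    fun n => (hsc n).mul_left, fun n x => mul_nonneg (inv_nonneg.2 (hpos n).le) (hsn n x),
    fun n => ?_, fun n t x => ?_, ?_⟩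
  · rw [integral_const_mul, inv_mul_cancel₀ (hpos n).ne']
  · simp only [hsdef, hqr]
  · rw [Filter.tendsto_smallSets_iff]
    intro U hU
    obtain ⟨d, hd, hdU⟩ := Metric.nhds_basis_closedBall.mem_iff.1 hU
    have h1 : Filter.Tendsto (fun n : ℕ => C * Real.sqrt (1 / ((n : ℝ) + 1))) Filter.atTop
        (nhds (C * Real.sqrt 0)) :=
      (tendsto_one_div_add_atTop_nhds_zero_nat.sqrt).const_mul C
    rw [Real.sqrt_zero, mul_zero] at h1
    filter_upwards [h1.eventually (ge_mem_nhds hd)] with n hn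
    intro x hx
    have hx' : x ∈ Function.support (s n) := by
      intro h2
      apply hx
      simp only [h2, mul_zero]
    exact hdU (Metric.closedBall_subset_closedBall hn (hsupp n hx'))


/-- the convolution with a test function is holomorphic -/
private theorem RWeyl_hol (mu : Measure E) [mu.IsAddHaarMeasure] {ι : Type} [Fintype ι]
    (b : Module.Basis ι ℂ E) (h : E → ℂ) (hloc : LocallyIntegrable h mu) {U : Set E}
    (hol : ∀ ps : E → ℂ, SCW U ps → ∀ j, ∫ x, h x * dzb (b j) ps x ∂mu = 0)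
    (ph : E → ℂ) (hs : ContDiff ℝ ∞ ph) (hc : HasCompactSupport ph) (x : E)
    (hx : tsupport (fun t => ph (t - x)) ⊆ U) :
    DifferentiableAt ℂ (HF mu h ph) x := by
  obtain ⟨h1, h2'⟩ := RWeyl_deriv mu b h hloc hol ph hs hc x hx
  rw [differentiableAt_iff_restrictScalars ℝ h1]
  set L := fderiv ℝ (HF mu h ph) x with hL
  have hsplit : ∀ (c : ℂ) (v : E), c • v = c.re • v + c.im • (I • v) := by
    intro c v
    rw [← Complex.coe_smul c.re, ← Complex.coe_smul c.im, smul_smul, ← add_smul,
      Complex.re_add_im]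
  have h2 : ∀ v : E, L (I • v) = I * L v := by
    intro v
    have hv : v ∈ Submodule.span ℂ (Set.range b) := by rw [b.span_eq]; trivial
    induction hv using Submodule.span_induction with
    | mem y hy =>
      obtain ⟨j, rfl⟩ := hy
      exact h2' j
    | zero => simp
    | add y z _ _ hy hz => rw [smul_add, map_add, map_add, hy, hz]; ring
    | smul c y _ hy =>
      have h3 : I • c • y = c.re • (I • y) - c.im • y := by
        rw [hsplit c y, smul_add, smul_comm I c.re, smul_comm I c.im, smul_smul I I y,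
          Complex.I_mul_I, neg_one_smul, smul_neg, sub_eq_add_neg]
      have h4 : L (c • y) = (c.re : ℂ) * L y + (c.im : ℂ) * (I * L y) := by
        rw [hsplit c y, map_add, map_smul, map_smul, hy, Complex.real_smul, Complex.real_smul]
      rw [h3, h4, map_sub, L.map_smul c.re (I • y), L.map_smul c.im y, hy, Complex.real_smul,
        Complex.real_smul]
      have : I * ((c.re : ℂ) * L y + (c.im : ℂ) * (I * L y))
          = (c.re : ℂ) * (I * L y) + (I * I) * ((c.im : ℂ) * L y) := by ring
      rw [this, Complex.I_mul_I]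
      ring
  have hsm : ∀ (c : ℂ) (v : E), L (c • v) = c • L v := by
    intro c v
    rw [hsplit c v, map_add, map_smul, map_smul, h2 v, smul_eq_mul, Complex.real_smul,
      Complex.real_smul]
    conv_rhs => rw [← Complex.re_add_im c]
    ring
  refine ⟨⟨{ toFun := L, map_add' := fun a b => map_add L a b, map_smul' := hsm }, L.cont⟩, ?_⟩
  ext v
  rfl

/-- mean value property -/
private theorem RWeyl_mean (mu : Measure E) [mu.IsAddHaarMeasure] (u : E → ℂ)
    (huc : Continuous u) {V : Set E} (x : E) {δ : ℝ} (hball : Metric.closedBall x δ ⊆ V)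
    (hu : ∀ y ∈ V, DifferentiableAt ℂ u y) (ph : E → ℂ) (hpc : Continuous ph)
    (hc : HasCompactSupport ph) (hδ : Function.support ph ⊆ Metric.closedBall 0 δ)
    (hr : ∀ (t : ℝ) x, ph (rot t • x) = ph x) :
    HF mu u ph x = u x * ∫ y, ph y ∂mu := by
  have : ProperSpace E := FiniteDimensional.proper_rclike ℂ E
  have h0 : HF mu u ph x = ∫ y, u (x + y) * ph y ∂mu := by
    unfold HF
    rw [← integral_add_left_eq_self (fun y => u y * ph (y - x)) x]
    simp
  have hI : ∀ t : ℝ, ∫ y, u (x + rot t • y) * ph y ∂mu = ∫ y, u (x + y) * ph y ∂mu := by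
    intro t
    have h1 := (circle_mp mu t).integral_comp
      (Homeomorph.smulOfNeZero (rot t) (rot_ne t) (α := E)).measurableEmbedding
      (fun y => u (x + y) * ph y)
    rw [← h1]
    refine integral_congr_ae (Filter.Eventually.of_forall fun y => ?_)
    simp only [hr]
  -- the inner average
  have hA : ∀ y : E, ph y ≠ 0 →
      ∫ t in Set.Ioc 0 (2 * Real.pi), u (x + rot t • y) = 2 * Real.pi * u x := by
    intro y hy
    have hyδ : ‖y‖ ≤ δ := by simpa using hδ hy
    set G : ℂ → ℂ := fun z => u (x + z • y) with hG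
    have hGd : ∀ z ∈ Metric.closedBall (0 : ℂ) 1, DifferentiableAt ℂ G z := by
      intro z hz
      have hz' : ‖z‖ ≤ 1 := by simpa using hz
      refine (hu _ (hball ?_)).comp z ((differentiableAt_const x).add
        (differentiableAt_id.smul_const y))
      rw [Metric.mem_closedBall, dist_eq_norm]
      simp only [add_sub_cancel_left, norm_smul]
      calc ‖z‖ * ‖y‖ ≤ 1 * ‖y‖ := by gcongr
        _ ≤ δ := by rw [one_mul]; exact hyδ
    have hGo : DiffContOnCl ℂ G (Metric.ball 0 |(1 : ℝ)|) := by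
      rw [abs_one]
      refine ⟨fun z hz => (hGd z (Metric.ball_subset_closedBall hz)).differentiableWithinAt, ?_⟩
      rw [closure_ball 0 one_ne_zero]
      exact fun z hz => (hGd z hz).continuousAt.continuousWithinAt
    have h1 : Real.circleAverage G 0 1 = G 0 := DiffContOnCl.circleAverage hGo
    rw [Real.circleAverage, intervalIntegral.integral_of_le (by positivity)] at h1
    have h2 : ∀ t : ℝ, G (circleMap 0 1 t) = u (x + rot t • y) := by
      intro t
      simp [hG, circleMap, rot]
    simp only [h2] at h1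
    have h3 : G 0 = u x := by simp [hG]
    rw [h3] at h1
    rw [← h1, Complex.real_smul]
    push_cast
    have hpi : (Real.pi : ℂ) ≠ 0 := by exact_mod_cast Real.pi_ne_zero
    field_simp
  -- Fubini
  obtain ⟨R, hR⟩ : ∃ R, ∀ y ∈ tsupport ph, ‖y‖ ≤ R := hc.isBounded.exists_norm_le
  obtain ⟨M, hM⟩ : ∃ M, ∀ y ∈ Metric.closedBall x R, ‖u y‖ ≤ M :=
    (isCompact_closedBall x R).exists_bound_of_continuousOn huc.continuousOn
  have hrotc : Continuous fun p : ℝ × E => rot p.1 • p.2 := by
    unfold rot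
    fun_prop
  have hint : Integrable (Function.uncurry fun (t : ℝ) (y : E) => u (x + rot t • y) * ph y)
      ((volume.restrict (Set.Ioc 0 (2 * Real.pi))).prod mu) := by
    have hph : Integrable ph mu := hpc.integrable_of_hasCompactSupport hc
    have hone : Integrable (fun _ : ℝ => M) (volume.restrict (Set.Ioc 0 (2 * Real.pi))) :=
      integrable_const M
    refine (hone.mul_prod hph.norm).mono' ?_ (Filter.Eventually.of_forall ?_)
    · refine Continuous.aestronglyMeasurable ?_
      exact (huc.comp (continuous_const.add hrotc)).mul (hpc.comp continuous_snd)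
    · rintro ⟨t, y⟩
      simp only [Function.uncurry_apply_pair, norm_mul]
      by_cases hy : y ∈ tsupport ph
      · refine mul_le_mul_of_nonneg_right (hM _ ?_) (norm_nonneg _)
        rw [Metric.mem_closedBall, dist_eq_norm]
        simp only [add_sub_cancel_left, norm_smul, norm_rot, one_mul]
        exact hR y hy
      · rw [image_eq_zero_of_notMem_tsupport hy]
        simp
  have hswap := integral_integral_swap hint
  simp only [hI] at hswap
  have h4 : ∀ y : E, ∫ t in Set.Ioc 0 (2 * Real.pi), u (x + rot t • y) * ph y =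
      2 * Real.pi * u x * ph y := by
    intro y
    rw [integral_mul_const]
    by_cases hy : ph y = 0
    · rw [hy, mul_zero, mul_zero]
    · rw [hA y hy]
  simp only [h4] at hswap
  rw [integral_const_mul] at hswap
  rw [setIntegral_const, Real.volume_real_Ioc_of_le (by positivity), sub_zero,
    Complex.real_smul] at hswap
  rw [h0]
  have hpi : ((2 * Real.pi : ℝ) : ℂ) ≠ 0 := by
    exact_mod_cast (by positivity : (2 * Real.pi) ≠ 0)
  have h5 : ((2 * Real.pi : ℝ) : ℂ) * ∫ y, u (x + y) * ph y ∂mu =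
      ((2 * Real.pi : ℝ) : ℂ) * (u x * ∫ y, ph y ∂mu) := by
    rw [hswap]
    push_cast
    ring
  exact mul_left_cancel₀ hpi h5

/-- Fubini -/
private theorem HF_fub (mu : Measure E) [mu.IsAddHaarMeasure] (h : E → ℂ)
    (hloc : LocallyIntegrable h mu) (ps r : E → ℂ) (hps : Continuous ps)
    (hpc : HasCompactSupport ps) (hrs : Continuous r) (hrc : HasCompactSupport r) :
    ∫ x, ps x * HF mu h r x ∂mu = ∫ y, h y * ∫ x, ps x * r (y - x) ∂mu ∂mu := by
  have : ProperSpace E := FiniteDimensional.proper_rclike ℂ E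
  set A := tsupport ps with hA
  have hAc : IsCompact A := hpc
  obtain ⟨M, hM⟩ : ∃ M, ∀ x, ‖ps x‖ ≤ M := hps.bounded_above_of_compact_support hpc
  have hM0 : 0 ≤ M := (norm_nonneg _).trans (hM 0)
  set B := tsupport r with hB
  have hBc : IsCompact B := hrc
  obtain ⟨M', hM'⟩ : ∃ M, ∀ x, ‖r x‖ ≤ M := hrs.bounded_above_of_compact_support hrc
  have hM'0 : 0 ≤ M' := (norm_nonneg _).trans (hM' 0)
  set AB : Set E := (fun p : E × E => p.1 + p.2) '' (A ×ˢ B) with hAB
  have hABc : IsCompact AB := (hAc.prod hBc).image (continuous_fst.add continuous_snd)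
  have hhi : Integrable (AB.indicator fun y => ‖h y‖) mu := by
    rw [integrable_indicator_iff hABc.measurableSet]
    exact (hloc.integrableOn_isCompact hABc).norm
  have hAi : Integrable (A.indicator fun _ => M * M') mu := by
    rw [integrable_indicator_iff hAc.measurableSet]
    exact integrableOn_const hAc.measure_lt_top.ne
  have hFi : Integrable (Function.uncurry fun x y : E => ps x * (h y * r (y - x)))
      (mu.prod mu) := by
    refine (hAi.mul_prod hhi).mono' ?_ (Filter.Eventually.of_forall ?_)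
    · refine AEStronglyMeasurable.mul ?_ (AEStronglyMeasurable.mul ?_ ?_)
      · exact (hps.comp continuous_fst).aestronglyMeasurable
      · exact hloc.aestronglyMeasurable.comp_snd
      · exact (hrs.comp (continuous_snd.sub continuous_fst)).aestronglyMeasurable
    · rintro ⟨x, y⟩
      simp only [Function.uncurry_apply_pair, norm_mul]
      by_cases hx : x ∈ A
      · by_cases hy : y - x ∈ B
        · have hyAB : y ∈ AB := ⟨(x, y - x), ⟨hx, hy⟩, by simp⟩
          rw [Set.indicator_of_mem hx, Set.indicator_of_mem hyAB]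
          have h3 := hM x
          have h4 := hM' (y - x)
          calc ‖ps x‖ * (‖h y‖ * ‖r (y - x)‖) ≤ M * (‖h y‖ * M') := by gcongr
            _ = M * M' * ‖h y‖ := by ring
        · have : r (y - x) = 0 := image_eq_zero_of_notMem_tsupport hy
          rw [this]
          simp only [norm_zero, mul_zero]
          refine mul_nonneg (Set.indicator_nonneg (fun _ _ => by positivity) _)
            (Set.indicator_nonneg (fun _ _ => norm_nonneg _) _)
      · have : ps x = 0 := image_eq_zero_of_notMem_tsupport hx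
        rw [this]
        simp only [norm_zero, zero_mul]
        refine mul_nonneg (Set.indicator_nonneg (fun _ _ => by positivity) _)
          (Set.indicator_nonneg (fun _ _ => norm_nonneg _) _)
  have hswap := integral_integral_swap hFi
  have h1 : ∫ x, ps x * HF mu h r x ∂mu = ∫ x, ∫ y, ps x * (h y * r (y - x)) ∂mu ∂mu := by
    refine integral_congr_ae (Filter.Eventually.of_forall fun x => ?_)
    simp only [HF]
    rw [← integral_const_mul]
  rw [h1, hswap]
  refine integral_congr_ae (Filter.Eventually.of_forall fun y => ?_)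
  simp only
  rw [← integral_const_mul]
  refine integral_congr_ae (Filter.Eventually.of_forall fun x => ?_)
  simp only
  ring

/-- the two convolutions commute -/
private theorem HF_comm (mu : Measure E) [mu.IsAddHaarMeasure] (h : E → ℂ)
    (hloc : LocallyIntegrable h mu) (s r : E → ℂ) (hss : Continuous s)
    (hsc : HasCompactSupport s) (hrs : Continuous r) (hrc : HasCompactSupport r) (x : E) :
    HF mu (HF mu h r) s x = HF mu (HF mu h s) r x := by
  have hcomp : ∀ p : E → ℂ, HasCompactSupport p → HasCompactSupport fun y => p (y - x) :=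
    fun p hp => hp.comp_homeomorph (Homeomorph.subRight x)
  have h1 : ∀ p q : E → ℂ, Continuous p → HasCompactSupport p → Continuous q →
      HasCompactSupport q → HF mu (HF mu h q) p x =
        ∫ w, h w * ∫ y, p (y - x) * q (w - y) ∂mu ∂mu := by
    intro p q hp hpc hq hqc
    have h2 := HF_fub mu h hloc (fun y => p (y - x)) q
      (hp.comp (continuous_id.sub continuous_const)) (hcomp p hpc) hq hqc
    rw [← h2]
    unfold HF
    refine integral_congr_ae (Filter.Eventually.of_forall fun y => ?_)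
    simp only
    ring
  rw [h1 s r hss hsc hrs hrc, h1 r s hrs hrc hss hsc]
  refine integral_congr_ae (Filter.Eventually.of_forall fun w => ?_)
  simp only
  congr 1
  rw [← integral_sub_left_eq_self (fun y => s (y - x) * r (w - y)) mu (w + x)]
  refine integral_congr_ae (Filter.Eventually.of_forall fun y => ?_)
  simp only
  have e1 : w + x - y - x = w - y := by abel
  have e2 : w - (w + x - y) = y - x := by abel
  rw [e1, e2]
  ring

/-- the local statement on a ball -/
private theorem RWeyl_ball (mu : Measure E) [mu.IsAddHaarMeasure] {ι : Type} [Fintype ι]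
    (b : Module.Basis ι ℂ E) (h : E → ℂ) (hloc : LocallyIntegrable h mu) (x0 : E) {R : ℝ}
    (hR : 0 < R) (hol : ∀ ps : E → ℂ, SCW (Metric.ball x0 (2 * R)) ps →
      ∀ j, ∫ x, h x * dzb (b j) ps x ∂mu = 0) :
    ∃ H : E → ℂ, DifferentiableOn ℂ H (Metric.ball x0 (R / 2)) ∧
      ∀ᵐ x ∂mu, x ∈ Metric.ball x0 (R / 2) → h x = H x := by
  have : ProperSpace E := FiniteDimensional.proper_rclike ℂ E
  obtain ⟨r', hrs', hrc', hr0', hr1', hrr', hrt'⟩ := exists_bumps mu
  obtain ⟨N, hN⟩ : ∃ N, ∀ n ≥ N, Function.support (r' n) ⊆ Metric.closedBall 0 (R / 2) :=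
    Filter.eventually_atTop.1 ((Filter.tendsto_smallSets_iff.1 hrt') _
      (Metric.closedBall_mem_nhds 0 (by linarith)))
  set r : ℕ → E → ℝ := fun n => r' (n + N) with hrdef
  have hrs : ∀ n, ContDiff ℝ ∞ (r n) := fun n => hrs' _
  have hrc : ∀ n, HasCompactSupport (r n) := fun n => hrc' _
  have hr0 : ∀ n x, 0 ≤ r n x := fun n => hr0' _
  have hr1 : ∀ n, ∫ x, r n x ∂mu = 1 := fun n => hr1' _
  have hrr : ∀ n (t : ℝ) x, r n (rot t • x) = r n x := fun n => hrr' _
  have hrt : Filter.Tendsto (fun n => Function.support (r n)) Filter.atTop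
      (nhds (0 : E)).smallSets := hrt'.comp (Filter.tendsto_add_atTop_nat N)
  have hrsup : ∀ n, Function.support (r n) ⊆ Metric.closedBall 0 (R / 2) := fun n =>
    hN _ (Nat.le_add_left N n)
  set rc : ℕ → E → ℂ := fun n x => (r n x : ℂ) with hrcdef
  have hrcs : ∀ n, ContDiff ℝ ∞ (rc n) := fun n => Complex.ofRealCLM.contDiff.comp (hrs n)
  have hrcc : ∀ n, HasCompactSupport (rc n) := fun n =>
    (hrc n).comp_left (g := fun x : ℝ => (x : ℂ)) (by simp)
  have hrcr : ∀ n (t : ℝ) x, rc n (rot t • x) = rc n x := fun n t x => by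
    simp only [hrcdef, hrr]
  have hrcsup : ∀ n, Function.support (rc n) ⊆ Metric.closedBall 0 (R / 2) := by
    intro n x hx
    refine hrsup n fun h0 => hx ?_
    simp only [hrcdef, h0, Complex.ofReal_zero]
  have hrc1 : ∀ n, ∫ x, rc n x ∂mu = 1 := fun n => by
    simp only [hrcdef]
    rw [integral_complex_ofReal, hr1]
    simp
  have hHol : ∀ n, ∀ x ∈ Metric.ball x0 R, DifferentiableAt ℂ (HF mu h (rc n)) x := by
    intro n x hx
    refine RWeyl_hol mu b h hloc hol (rc n) (hrcs n) (hrcc n) x ?_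
    have h1 : tsupport (fun t => rc n (t - x)) ⊆ Metric.closedBall x (R / 2) := by
      refine closure_minimal ?_ Metric.isClosed_closedBall
      intro t ht
      have := hrcsup n (show t - x ∈ Function.support (rc n) from ht)
      rw [mem_closedBall_zero_iff] at this
      rwa [Metric.mem_closedBall, dist_eq_norm]
    refine h1.trans fun t ht => ?_
    rw [Metric.mem_closedBall] at ht
    rw [Metric.mem_ball] at hx ⊢
    have := dist_triangle t x x0
    linarith
  have hsame : ∀ n, ∀ x ∈ Metric.ball x0 (R / 2), HF mu h (rc n) x = HF mu h (rc 0) x := by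
    intro n x hx
    have hb : Metric.closedBall x (R / 2) ⊆ Metric.ball x0 R := by
      intro t ht
      rw [Metric.mem_closedBall] at ht
      rw [Metric.mem_ball] at hx ⊢
      have := dist_triangle t x x0
      linarith
    have h1 := RWeyl_mean mu (HF mu h (rc n))
      (RWeyl_cont mu h hloc (rc n) (hrcs n).continuous (hrcc n)) x hb (hHol n) (rc 0)
      (hrcs 0).continuous (hrcc 0) (hrcsup 0) (hrcr 0)
    have h2 := RWeyl_mean mu (HF mu h (rc 0))
      (RWeyl_cont mu h hloc (rc 0) (hrcs 0).continuous (hrcc 0)) x hb (hHol 0) (rc n)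
      (hrcs n).continuous (hrcc n) (hrcsup n) (hrcr n)
    rw [hrc1, mul_one] at h1 h2
    rw [← h1, ← h2]
    exact HF_comm mu h hloc (rc 0) (rc n) (hrcs 0).continuous (hrcc 0) (hrcs n).continuous
      (hrcc n) x
  set H := HF mu h (rc 0) with hH
  have hHc : Continuous H := RWeyl_cont mu h hloc (rc 0) (hrcs 0).continuous (hrcc 0)
  refine ⟨H, fun x hx => (hHol 0 x (Metric.ball_subset_ball (by linarith) hx)).differentiableWithinAt,
    ?_⟩
  have hint : ∀ ps : E → ℝ, ContDiff ℝ ∞ ps → HasCompactSupport ps →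
      Integrable (fun x => ps x • h x) mu := fun ps h1 h2 =>
    hloc.integrable_smul_left_of_hasCompactSupport h1.continuous h2
  have key : ∀ ps : E → ℝ, ContDiff ℝ ∞ ps → HasCompactSupport ps →
      tsupport ps ⊆ Metric.ball x0 (R / 2) → ∫ x, ps x • h x ∂mu = ∫ x, ps x • H x ∂mu := by
    intro ps hps hpc hpU
    set A := tsupport ps with hA
    have hAc : IsCompact A := hpc
    set K := Metric.cthickening 1 A with hK
    have hKc : IsCompact K := hAc.cthickening
    obtain ⟨M, hM⟩ : ∃ M, ∀ x, ‖ps x‖ ≤ M := hps.continuous.bounded_above_of_compact_support hpc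
    have hM0 : 0 ≤ M := (norm_nonneg _).trans (hM 0)
    -- pointwise convergence
    have hconv : ∀ y, Filter.Tendsto (fun n => ∫ t, r n t * ps (y - t) ∂mu) Filter.atTop
        (nhds (ps y)) := by
      intro y
      have h1 := convolution_tendsto_right (μ := mu) (φ := r) (g := fun _ => ps) (k := fun _ => y)
        (x₀ := y) (z₀ := ps y) (l := Filter.atTop)
        (Filter.Eventually.of_forall hr0) (Filter.Eventually.of_forall hr1) hrt
        (Filter.Eventually.of_forall fun _ => hps.continuous.aestronglyMeasurable)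
        ((hps.continuous.tendsto y).comp Filter.tendsto_snd) tendsto_const_nhds
      simpa [MeasureTheory.convolution, smul_eq_mul] using h1
    -- value of the approximations
    have hval : ∀ n, ∫ y, (∫ t, r n t * ps (y - t) ∂mu) • h y ∂mu = ∫ x, ps x • H x ∂mu := by
      intro n
      have h1 := HF_fub mu h hloc (fun x => (ps x : ℂ)) (rc n)
        (Complex.continuous_ofReal.comp hps.continuous)
        (hpc.comp_left (g := fun x : ℝ => (x : ℂ)) (by simp)) (hrcs n).continuous (hrcc n)
      have h2 : ∫ x, ps x • H x ∂mu = ∫ x, (ps x : ℂ) * HF mu h (rc n) x ∂mu := by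
        refine integral_congr_ae (Filter.Eventually.of_forall fun x => ?_)
        simp only [Complex.real_smul]
        by_cases hx : x ∈ tsupport ps
        · rw [hsame n x (hpU hx)]
        · rw [image_eq_zero_of_notMem_tsupport hx]
          simp
      rw [h2, h1]
      refine integral_congr_ae (Filter.Eventually.of_forall fun y => ?_)
      change (∫ t, r n t * ps (y - t) ∂mu) • h y = h y * ∫ x, (ps x : ℂ) * rc n (y - x) ∂mu
      have h6 : ∫ t, r n t * ps (y - t) ∂mu = ∫ x, ps x * r n (y - x) ∂mu := by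
        have h7 := integral_sub_left_eq_self (fun x => r n x * ps (y - x)) mu y
        rw [← h7]
        refine integral_congr_ae (Filter.Eventually.of_forall fun x => ?_)
        simp only [sub_sub_cancel]
        ring
      have h8 : ∫ x, (ps x : ℂ) * rc n (y - x) ∂mu =
          ((∫ x, ps x * r n (y - x) ∂mu : ℝ) : ℂ) := by
        rw [← integral_complex_ofReal]
        refine integral_congr_ae (Filter.Eventually.of_forall fun x => ?_)
        simp only [hrcdef]
        push_cast
        ring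
      rw [h8, h6, Complex.real_smul, mul_comm]
    -- dominated convergence
    have hlim : Filter.Tendsto (fun n => ∫ y, (∫ t, r n t * ps (y - t) ∂mu) • h y ∂mu)
        Filter.atTop (nhds (∫ y, ps y • h y ∂mu)) := by
      have hev : ∀ᶠ n in Filter.atTop, Function.support (r n) ⊆ Metric.closedBall 0 1 :=
        (Filter.tendsto_smallSets_iff.1 hrt) _ (Metric.closedBall_mem_nhds 0 one_pos)
      refine tendsto_integral_filter_of_dominated_convergence
        (K.indicator fun y => M * ‖h y‖) ?_ ?_ ?_ ?_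
      · refine Filter.Eventually.of_forall fun n => ?_
        have h9 : Continuous fun y => ∫ t, r n t * ps (y - t) ∂mu := by
          have h10 := (hrc n).continuous_convolution_left (ContinuousLinearMap.mul ℝ ℝ)
            (hrs n).continuous (hps.continuous.locallyIntegrable (μ := mu))
          exact h10
        exact h9.aestronglyMeasurable.smul hloc.aestronglyMeasurable
      · filter_upwards [hev] with n hn
        refine Filter.Eventually.of_forall fun y => ?_
        have hb : ‖∫ t, r n t * ps (y - t) ∂mu‖ ≤ M := by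
          have h11 : ‖∫ t, r n t * ps (y - t) ∂mu‖ ≤ ∫ t, r n t * M ∂mu := by
            refine norm_integral_le_of_norm_le ?_ (Filter.Eventually.of_forall fun t => ?_)
            · exact ((hrs n).continuous.integrable_of_hasCompactSupport (hrc n)).mul_const M
            · rw [norm_mul, Real.norm_of_nonneg (hr0 n t)]
              exact mul_le_mul_of_nonneg_left (hM _) (hr0 n t)
          rw [integral_mul_const, hr1, one_mul] at h11
          exact h11
        by_cases hy : y ∈ K
        · rw [Set.indicator_of_mem hy, norm_smul]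
          exact mul_le_mul_of_nonneg_right hb (norm_nonneg _)
        · have h12 : ∀ t, r n t * ps (y - t) = 0 := by
            intro t
            by_cases ht : r n t = 0
            · rw [ht, zero_mul]
            · have ht' : ‖t‖ ≤ 1 := by simpa using hn ht
              have : y - t ∉ A := by
                intro h13
                apply hy
                refine Metric.mem_cthickening_of_dist_le y (y - t) 1 A h13 ?_
                simpa [dist_eq_norm] using ht'
              rw [image_eq_zero_of_notMem_tsupport this, mul_zero]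
          simp only [h12, integral_zero, zero_smul, norm_zero]
          exact Set.indicator_nonneg (fun _ _ => by positivity) _
      · rw [integrable_indicator_iff hKc.measurableSet]
        exact (hloc.integrableOn_isCompact hKc).norm.const_mul M
      · refine Filter.Eventually.of_forall fun y => ?_
        exact (hconv y).smul_const (h y)
    have hlim0 : Filter.Tendsto (fun n : ℕ => ∫ y, (∫ t, r n t * ps (y - t) ∂mu) • h y ∂mu)
        Filter.atTop (nhds (∫ x, ps x • H x ∂mu)) := by
      simp only [hval]; exact tendsto_const_nhds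
    exact tendsto_nhds_unique hlim hlim0
  -- conclusion
  have hHl : LocallyIntegrable H mu := hHc.locallyIntegrable
  have hfin : ∀ᵐ x ∂mu, x ∈ Metric.ball x0 (R / 2) → h x - H x = 0 := by
    refine Metric.isOpen_ball.ae_eq_zero_of_integral_contDiff_smul_eq_zero
      ((hloc.sub hHl).locallyIntegrableOn _) fun ps hps hpc hpU => ?_
    have h1 := key ps hps hpc hpU
    have hi2 : Integrable (fun x => ps x • H x) mu :=
      hHl.integrable_smul_left_of_hasCompactSupport hps.continuous hpc
    have h3 : ∫ x, ps x • (h x - H x) ∂mu = ∫ x, ps x • h x ∂mu - ∫ x, ps x • H x ∂mu := by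
      rw [← integral_sub (hint ps hps hpc) hi2]
      refine integral_congr_ae (Filter.Eventually.of_forall fun x => ?_)
      simp only [smul_sub]
    rw [h1, sub_self] at h3
    exact h3
  filter_upwards [hfin] with x hx hxU
  exact sub_eq_zero.1 (hx hxU)


end Local

theorem weyl_local {E : Type} [NormedAddCommGroup E] [NormedSpace ℂ E] [FiniteDimensional ℂ E]
    [MeasurableSpace E] [BorelSpace E] (μ : Measure E) [μ.IsAddHaarMeasure] {W : Set E}
    (hW : IsOpen W) {ι : Type} [Fintype ι] (b : Module.Basis ι ℂ E) (u : E → ℂ)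
    (hu : LocallyIntegrableOn u W μ)
    (hol : ∀ ψ : E → ℂ, SCW W ψ → ∀ j, ∫ x in W, u x * dzb (b j) ψ x ∂μ = 0) :
    ∃ F : E → ℂ, DifferentiableOn ℂ F W ∧ u =ᵐ[μ.restrict W] F := by
  classical
  have : ProperSpace E := FiniteDimensional.proper_rclike ℂ E
  -- local solutions
  have hloc : ∀ x : E, ∃ ρ : ℝ, ∃ H : E → ℂ, x ∈ W → 0 < ρ ∧ Metric.ball x ρ ⊆ W ∧
      DifferentiableOn ℂ H (Metric.ball x ρ) ∧
      ∀ᵐ y ∂μ, y ∈ Metric.ball x ρ → u y = H y := by
    intro x0
    by_cases hx0 : x0 ∈ W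
    swap
    · exact ⟨0, 0, fun h => absurd h hx0⟩
    obtain ⟨r, hr, hrW⟩ := Metric.nhds_basis_closedBall.mem_iff.1 (hW.mem_nhds hx0)
    set K := Metric.closedBall x0 r with hK
    have hKc : IsCompact K := isCompact_closedBall x0 r
    set h : E → ℂ := K.indicator u with hh
    have hint : Integrable h μ := by
      rw [hh, integrable_indicator_iff hKc.measurableSet]
      exact hu.integrableOn_compact_subset hrW hKc
    have hdzb0 : ∀ (ps : E → ℂ) (v x : E), x ∉ tsupport ps → dzb v ps x = 0 := by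
      intro ps v x hx
      have h1 : fderiv ℝ ps x = 0 := by
        by_contra h2
        exact hx (support_fderiv_subset ℝ h2)
      simp [dzb, h1]
    have hol' : ∀ ps : E → ℂ, SCW (Metric.ball x0 (2 * (r / 2))) ps →
        ∀ j, ∫ x, h x * dzb (b j) ps x ∂μ = 0 := by
      intro ps hps j
      have hpsK : tsupport ps ⊆ K := by
        refine hps.2.2.trans ?_
        rw [mul_div_cancel₀ _ two_ne_zero]
        exact Metric.ball_subset_closedBall
      rw [← hol ps ⟨hps.1, hps.2.1, hpsK.trans hrW⟩ j, ← integral_indicator hW.measurableSet]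
      refine integral_congr_ae (Filter.Eventually.of_forall fun x => ?_)
      by_cases hx : x ∈ tsupport ps
      · have h1 := hpsK hx
        simp only [hh]
        rw [Set.indicator_of_mem h1, Set.indicator_of_mem (hrW h1)]
      · have h1 := hdzb0 ps (b j) x hx
        simp only [h1, mul_zero]
        by_cases hxW : x ∈ W
        · rw [Set.indicator_of_mem hxW, h1, mul_zero]
        · rw [Set.indicator_of_notMem hxW]
    obtain ⟨H, hH1, hH2⟩ := RWeyl_ball μ b h hint.locallyIntegrable x0 (R := r / 2)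
      (by linarith) hol'
    have hsub : Metric.ball x0 (r / 2 / 2) ⊆ K :=
      (Metric.ball_subset_ball (by linarith)).trans Metric.ball_subset_closedBall
    refine ⟨r / 2 / 2, H, fun _ => ⟨by linarith, hsub.trans hrW, hH1, ?_⟩⟩
    filter_upwards [hH2] with y hy hyb
    rw [← hy hyb, hh, Set.indicator_of_mem (hsub hyb)]
  choose ρ H hρ using hloc
  have hagree : ∀ x ∈ W, ∀ y ∈ Metric.ball x (ρ x), H y y = H x y := by
    intro x hx y hy
    obtain ⟨h1, h2, h3, h4⟩ := hρ x hx
    obtain ⟨h1', h2', h3', h4'⟩ := hρ y (h2 hy)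
    set V := Metric.ball x (ρ x) ∩ Metric.ball y (ρ y) with hV
    have hVo : IsOpen V := Metric.isOpen_ball.inter Metric.isOpen_ball
    have h5 : H y =ᵐ[μ.restrict V] H x := by
      rw [Filter.EventuallyEq, ae_restrict_iff' hVo.measurableSet]
      filter_upwards [h4, h4'] with z hz hz' hzV
      rw [← hz hzV.1, ← hz' hzV.2]
    exact Measure.eqOn_open_of_ae_eq h5 hVo (h3'.continuousOn.mono Set.inter_subset_right)
      (h3.continuousOn.mono Set.inter_subset_left) ⟨hy, Metric.mem_ball_self h1'⟩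
  refine ⟨fun y => H y y, ?_, ?_⟩
  · intro x hx
    obtain ⟨h1, h2, h3, h4⟩ := hρ x hx
    have h5 : DifferentiableAt ℂ (H x) x :=
      h3.differentiableAt (Metric.ball_mem_nhds x h1)
    have h6 : (fun y => H y y) =ᶠ[nhds x] H x := by
      filter_upwards [Metric.ball_mem_nhds x h1] with y hy using hagree x hx y hy
    exact (h5.congr_of_eventuallyEq h6).differentiableWithinAt
  · rw [Filter.EventuallyEq, ae_restrict_iff' hW.measurableSet, ae_iff]
    refine measure_null_of_locally_null _ fun x hx => ?_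
    rw [Set.mem_ofPred_eq, Classical.not_imp] at hx
    obtain ⟨h1, h2, h3, h4⟩ := hρ x hx.1
    rw [ae_iff] at h4
    refine ⟨Metric.ball x (ρ x) ∩ {y | ¬(y ∈ W → u y = H y y)}, ?_, ?_⟩
    · exact Filter.inter_mem (mem_nhdsWithin_of_mem_nhds (Metric.ball_mem_nhds x h1))
        self_mem_nhdsWithin
    · refine measure_mono_null ?_ h4
      rintro y ⟨hy1, hy2⟩
      rw [Set.mem_ofPred_eq, Classical.not_imp] at hy2 ⊢
      refine ⟨hy1, ?_⟩
      rw [← hagree x hx.1 y hy1]
      exact hy2.2

end Pool.Agent.Lib_KF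

end

/-! ### from `Lib_KF.ChCoord` -/

section

/-! CH02: coordinates on a divisorial valuation ring over a field. -/

namespace Pool.Agent.Lib_KF

open scoped TensorProduct

/-- differentials of a field extension of `k`: the differentials of a transcendence basis -/
private noncomputable def ChCoord_basis (k K : Type) [Field k] [CharZero k] [Field K] [Algebra k K] {ι : Type} (u : ι → K)
    (hu : IsTranscendenceBasis k u) :
    { b : Module.Basis ι K (KaehlerDifferential k K) // ∀ i, b i = KaehlerDifferential.D k K (u i) } := by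
  classical
  letI : Algebra (MvPolynomial ι k) K := (MvPolynomial.aeval u).toRingHom.toAlgebra
  have hmap : ∀ p : MvPolynomial ι k, algebraMap (MvPolynomial ι k) K p = MvPolynomial.aeval u p :=
    fun p => rfl
  haveI : IsScalarTower k (MvPolynomial ι k) K := by
    refine IsScalarTower.of_algebraMap_eq fun x => ?_
    rw [hmap, MvPolynomial.algebraMap_eq, MvPolynomial.aeval_C]
  have hinj : Function.Injective (algebraMap (MvPolynomial ι k) K) := hu.1
  haveI : FaithfulSMul (MvPolynomial ι k) K := (faithfulSMul_iff_algebraMap_injective _ _).2 hinj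
  haveI halg : Algebra.IsAlgebraic (MvPolynomial ι k) K := by
    have := hu.isAlgebraic
    refine Algebra.IsAlgebraic.of_ringHom_of_comp_eq (S := Algebra.adjoin k (Set.range u)) (B := K)
      (f := hu.1.aevalEquiv.toRingEquiv.toRingHom) (g := RingHom.id K)
      hu.1.aevalEquiv.surjective Function.injective_id ?_
    ext x
    · simp [hmap]
    · simp [hmap]
  letI : Algebra (FractionRing (MvPolynomial ι k)) K := FractionRing.liftAlgebra _ K
  haveI : IsScalarTower (MvPolynomial ι k) (FractionRing (MvPolynomial ι k)) K :=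
    FractionRing.isScalarTower_liftAlgebra _ K
  haveI : Algebra.IsAlgebraic (FractionRing (MvPolynomial ι k)) K :=
    (IsFractionRing.comap_isAlgebraic_iff (A := MvPolynomial ι k)).1 halg
  haveI : CharZero (FractionRing (MvPolynomial ι k)) := inferInstance
  haveI : Algebra.FormallyEtale (FractionRing (MvPolynomial ι k)) K :=
    Algebra.FormallyEtale.of_isSeparable _ _
  haveI : Algebra.FormallyEtale (MvPolynomial ι k) (FractionRing (MvPolynomial ι k)) :=
    Algebra.FormallyEtale.of_isLocalization (nonZeroDivisors (MvPolynomial ι k))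
  haveI : Algebra.FormallyEtale (MvPolynomial ι k) K :=
    Algebra.FormallyEtale.comp _ (FractionRing (MvPolynomial ι k)) _
  refine ⟨((KaehlerDifferential.mvPolynomialBasis k ι).baseChange K).map
    (KaehlerDifferential.tensorKaehlerEquivOfFormallyEtale k (MvPolynomial ι k) K), fun i => ?_⟩
  rw [Module.Basis.map_apply, Module.Basis.baseChange_apply,
    KaehlerDifferential.mvPolynomialBasis_apply,
    KaehlerDifferential.tensorKaehlerEquivOfFormallyEtale_apply,
    KaehlerDifferential.mapBaseChange_tmul, KaehlerDifferential.map_D, one_smul, hmap,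
    MvPolynomial.aeval_X]

/-- the residues: if the differentials of the `ū i` span `Ω_κ`, then `dt` and the `du i` span `Ω_V` -/
private theorem ChCoord_span (k V : Type) [Field k] [CommRing V] [IsDomain V] [IsDiscreteValuationRing V]
    [Algebra k V] [Algebra.EssFiniteType k V] {ι : Type} (t : V) (ht : Irreducible t) (u : ι → V)
    (hu : Submodule.span (IsLocalRing.ResidueField V)
      (Set.range fun i => KaehlerDifferential.D k (IsLocalRing.ResidueField V)
        (IsLocalRing.residue V (u i))) = ⊤) :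
    Submodule.span V (Set.range fun o : Option ι =>
      o.elim (KaehlerDifferential.D k V t) (fun i => KaehlerDifferential.D k V (u i))) = ⊤ := by
  have hsurj : Function.Surjective (algebraMap V (IsLocalRing.ResidueField V)) :=
    IsLocalRing.residue_surjective
  rw [← IsLocalRing.map_tensorProduct_mk_eq_top, Submodule.map_span, ← Set.range_comp,
    ← Submodule.restrictScalars_span V (IsLocalRing.ResidueField V) hsurj,
    Submodule.restrictScalars_eq_top_iff, eq_top_iff]
  set S := Submodule.span (IsLocalRing.ResidueField V) (Set.range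
    ((TensorProduct.mk V (IsLocalRing.ResidueField V) (KaehlerDifferential k V) 1) ∘
      fun o : Option ι => o.elim (KaehlerDifferential.D k V t)
        (fun i => KaehlerDifferential.D k V (u i)))) with hS
  have h1 : (1 : IsLocalRing.ResidueField V) ⊗ₜ[V] KaehlerDifferential.D k V t ∈ S :=
    Submodule.subset_span ⟨none, rfl⟩
  have h2 : ∀ i, (1 : IsLocalRing.ResidueField V) ⊗ₜ[V] KaehlerDifferential.D k V (u i) ∈ S :=
    fun i => Submodule.subset_span ⟨some i, rfl⟩
  -- the kernel
  have hker : ∀ x, KaehlerDifferential.mapBaseChange k V (IsLocalRing.ResidueField V) x = 0 →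
      x ∈ S := by
    intro x hx
    obtain ⟨y, rfl⟩ := (KaehlerDifferential.exact_kerCotangentToTensor_mapBaseChange k V
      (IsLocalRing.ResidueField V) hsurj x).1 hx
    obtain ⟨⟨a, ha⟩, rfl⟩ := Ideal.toCotangent_surjective _ y
    rw [KaehlerDifferential.kerCotangentToTensor_toCotangent]
    have ha' : a ∈ IsLocalRing.maximalIdeal V := by
      rw [RingHom.mem_ker] at ha
      exact (IsLocalRing.residue_eq_zero_iff a).1 ha
    rw [ht.maximalIdeal_eq, Ideal.mem_span_singleton] at ha'
    obtain ⟨b, rfl⟩ := ha'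
    have ht0 : (algebraMap V (IsLocalRing.ResidueField V)) t = 0 := by
      have : t ∈ IsLocalRing.maximalIdeal V := by
        rw [ht.maximalIdeal_eq]; exact Ideal.mem_span_singleton_self t
      exact (IsLocalRing.residue_eq_zero_iff t).2 this
    have e : (1 : IsLocalRing.ResidueField V) ⊗ₜ[V] KaehlerDifferential.D k V (t * b) =
        algebraMap V (IsLocalRing.ResidueField V) b •
          ((1 : IsLocalRing.ResidueField V) ⊗ₜ[V] KaehlerDifferential.D k V t) := by
      rw [Derivation.leibniz, TensorProduct.tmul_add, ← TensorProduct.smul_tmul,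
        ← TensorProduct.smul_tmul, ← Algebra.algebraMap_eq_smul_one,
        ← Algebra.algebraMap_eq_smul_one, ht0, TensorProduct.zero_tmul, zero_add,
        TensorProduct.smul_tmul', smul_eq_mul, mul_one]
    rw [e]
    exact S.smul_mem _ h1
  intro x _
  have hx : KaehlerDifferential.mapBaseChange k V (IsLocalRing.ResidueField V) x ∈
      Submodule.map (KaehlerDifferential.mapBaseChange k V (IsLocalRing.ResidueField V)) S := by
    have h3 : Submodule.map (KaehlerDifferential.mapBaseChange k V (IsLocalRing.ResidueField V)) S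
        = ⊤ := by
      rw [eq_top_iff, ← hu, Submodule.span_le]
      rintro _ ⟨i, rfl⟩
      refine ⟨_, h2 i, ?_⟩
      rw [KaehlerDifferential.mapBaseChange_tmul, KaehlerDifferential.map_D, one_smul]
      rfl
    rw [h3]
    exact Submodule.mem_top
  obtain ⟨y, hy, hxy⟩ := hx
  have h4 : x - y ∈ S := hker _ (by rw [map_sub, hxy, sub_self])
  have := S.add_mem h4 hy
  rwa [sub_add_cancel] at this

/-- lifts of algebraically independent residues and `t` are algebraically independent -/
private theorem ChCoord_indep (k V : Type) [Field k] [CommRing V] [IsDomain V] [IsDiscreteValuationRing V]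
    [Algebra k V] {ι : Type} (t : V) (ht : Irreducible t) (u : ι → V)
    (hu : AlgebraicIndependent k fun i => IsLocalRing.residue V (u i)) :
    AlgebraicIndependent k fun o : Option ι => o.elim t u := by
  let f : V →ₐ[k] IsLocalRing.ResidueField V := IsScalarTower.toAlgHom k V _
  have hf : ∀ x, f x = IsLocalRing.residue V x := fun x => rfl
  have hu1 : AlgebraicIndependent k (f ∘ u) := hu
  have hu2 : AlgebraicIndependent k u := hu1.of_comp f
  rw [hu2.option_iff_transcendental]
  -- elements of `adjoin` with residue zero vanish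
  have hA : ∀ x ∈ Algebra.adjoin k (Set.range u), f x = 0 → x = 0 := by
    intro x hx h0
    rw [Algebra.adjoin_range_eq_range_aeval] at hx
    obtain ⟨p, rfl⟩ := hx
    have h1 : MvPolynomial.aeval (f ∘ u) p = 0 := by
      rw [← h0]
      change _ = f (MvPolynomial.aeval u p)
      rw [MvPolynomial.comp_aeval_apply]
      rfl
    have h2 : p = 0 := hu1 (by rw [h1, map_zero])
    rw [h2]
    exact map_zero _
  have ht0 : f t = 0 := by
    rw [hf]
    refine (IsLocalRing.residue_eq_zero_iff t).2 ?_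
    rw [ht.maximalIdeal_eq]
    exact Ideal.mem_span_singleton_self t
  rw [transcendental_iff]
  intro p
  induction hn : p.natDegree using Nat.strong_induction_on generalizing p with
  | _ n ih =>
    intro hp
    have hdiv := Polynomial.divX_mul_X_add p
    have h0 : p.coeff 0 = 0 := by
      have h1 : f (Polynomial.aeval t p) = 0 := by rw [hp, map_zero]
      rw [← hdiv, map_add, map_mul, Polynomial.aeval_X, Polynomial.aeval_C, map_add, map_mul, ht0,
        mul_zero, zero_add] at h1
      exact Subtype.ext (hA _ (p.coeff 0).2 h1)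
    rw [h0, Polynomial.C_0, add_zero] at hdiv
    by_cases hd : p.natDegree = 0
    · rw [Polynomial.eq_C_of_natDegree_eq_zero hd, h0, Polynomial.C_0]
    · have h2 : Polynomial.aeval t p.divX = 0 := by
        rw [← hdiv, map_mul, Polynomial.aeval_X] at hp
        exact (mul_eq_zero.1 hp).resolve_right ht.ne_zero
      have h3 : p.divX = 0 := by
        refine ih p.divX.natDegree ?_ p.divX rfl h2
        rw [Polynomial.natDegree_divX_eq_natDegree_tsub_one]
        omega
      rw [← hdiv, h3, zero_mul]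

/-- CH02a. PORT of `Pool.Agent.Lib_GD.exists_dvr_coords` (file `Lib_GD/DvrCoords.lean`, 253
lines) from `ℂ` to a field `k` of characteristic zero, with given `s` and `u`: the `n` residues
`ū_l` are a transcendence basis of the residue field because `trdeg V = n + 1`
(`DvrCoords_indep`). -/
theorem exists_basis_kaehler (k V : Type) [Field k] [CharZero k] [CommRing V] [IsDomain V]
    [IsDiscreteValuationRing V] [Algebra k V] [Algebra.EssFiniteType k V] (n : ℕ)
    (hV : Algebra.trdeg k V = (n + 1 : ℕ)) (s : V) (hs : Irreducible s) (u : Fin n → V)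
    (hu : AlgebraicIndependent k (fun i => IsLocalRing.residue V (u i))) :
    ∃ b : Module.Basis (Option (Fin n)) V (KaehlerDifferential k V),
      b none = KaehlerDifferential.D k V s ∧ ∀ l, b (some l) = KaehlerDifferential.D k V (u l) := by
  classical
  -- the residues are a transcendence basis
  have hub : IsTranscendenceBasis k fun i => IsLocalRing.residue V (u i) := by
    refine hu.isTranscendenceBasis_of_trdeg_le_of_finite ?_
    obtain ⟨ι, ub, hb⟩ := exists_isTranscendenceBasis' k (IsLocalRing.ResidueField V)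
    have hlift : ∀ i, ∃ v : V, IsLocalRing.residue V v = ub i :=
      fun i => IsLocalRing.residue_surjective (ub i)
    choose v hv using hlift
    have hind : AlgebraicIndependent k fun o : Option ι => o.elim s v := by
      refine ChCoord_indep k V s hs v ?_
      simp only [hv]
      exact hb.1
    have hcard : Cardinal.mk (Option ι) ≤ (n + 1 : ℕ) := by
      rw [← hV]
      exact hind.cardinalMk_le_trdeg
    have hfin : Finite (Option ι) := by
      rw [← Cardinal.lt_aleph0_iff_finite]
      exact hcard.trans_lt (Cardinal.natCast_lt_aleph0)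
    have : Finite ι := Finite.of_injective (some : ι → Option ι) (Option.some_injective ι)
    let _ : Fintype ι := Fintype.ofFinite ι
    have hcard' : Fintype.card ι ≤ n := by
      rw [Cardinal.mk_fintype, Fintype.card_option] at hcard
      have : Fintype.card ι + 1 ≤ n + 1 := by exact_mod_cast hcard
      omega
    rw [← hb.cardinalMk_eq_trdeg, Cardinal.mk_fintype, Cardinal.mk_fintype, Fintype.card_fin]
    exact_mod_cast hcard'
  let ω : Option (Fin n) → KaehlerDifferential k V := fun o =>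
    o.elim (KaehlerDifferential.D k V s) (fun l => KaehlerDifferential.D k V (u l))
  have hspan : Submodule.span V (Set.range ω) = ⊤ := by
    refine ChCoord_span k V s hs u ?_
    obtain ⟨b, hb⟩ := ChCoord_basis k (IsLocalRing.ResidueField V) _ hub
    simp only [← hb]
    exact b.span_eq
  -- the rank
  let K := FractionRing V
  have hK : Algebra.trdeg k K = (n + 1 : ℕ) := by
    have : Algebra.IsAlgebraic V K := IsLocalization.isAlgebraic K (nonZeroDivisors V)
    have h := trdeg_add_eq k V (A := K)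
    rw [trdeg_eq_zero (R := V) (A := K), add_zero] at h
    rw [← h, hV]
  obtain ⟨ι', x, hx⟩ := exists_isTranscendenceBasis' k K
  obtain ⟨bK, -⟩ := ChCoord_basis k K x hx
  have hrank : Module.finrank K (KaehlerDifferential k K) = n + 1 := by
    rw [Module.finrank, ← bK.mk_eq_rank'', hx.cardinalMk_eq_trdeg, hK]
    exact Cardinal.toNat_natCast _
  have hspanK : Submodule.span K (Set.range fun o => KaehlerDifferential.map k k V K (ω o)) = ⊤ := by
    have h1 := span_eq_top_of_isLocalizedModule K (nonZeroDivisors V)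
      (KaehlerDifferential.map k k V K) hspan
    rw [← Set.range_comp] at h1
    exact h1
  have hliK : LinearIndependent K fun o => KaehlerDifferential.map k k V K (ω o) := by
    refine linearIndependent_of_top_le_span_of_card_eq_finrank hspanK.ge ?_
    rw [hrank, Fintype.card_option, Fintype.card_fin]
  have hli : LinearIndependent V ω := by
    have h1 : LinearIndependent V fun o => KaehlerDifferential.map k k V K (ω o) :=
      hliK.restrict_scalars' V
    exact LinearIndependent.of_comp (KaehlerDifferential.map k k V K) h1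
  refine ⟨Module.Basis.mk hli hspan.ge, ?_, fun l => ?_⟩
  · rw [Module.Basis.mk_apply]
    rfl
  · rw [Module.Basis.mk_apply]
    rfl

/-- CH02b. `s, u_l` are algebraically independent (`DvrCoords_indep` in `Lib_GD/DvrCoords.lean`
with `k` for `ℂ`). -/
theorem algebraicIndependent_option (k V : Type) [Field k] [CommRing V] [IsDomain V]
    [IsDiscreteValuationRing V] [Algebra k V] (n : ℕ) (s : V) (hs : Irreducible s) (u : Fin n → V)
    (hu : AlgebraicIndependent k (fun i => IsLocalRing.residue V (u i))) :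
    AlgebraicIndependent k (fun o : Option (Fin n) => o.elim s u) :=
  ChCoord_indep k V s hs u hu

/-- CH02c. The dual derivations. `D l` is the coordinate of `D f` along `D (u l)` (compare
`Lib_GD/DvrDer.lean`); for `chain`, a derivation `d` is `d.liftKaehlerDifferential` composed with
`D k V`, expand `D k V v` in the basis. -/
theorem exists_dualDer (k V : Type) [Field k] [CommRing V] [Algebra k V] (n : ℕ) (s : V)
    (u : Fin n → V) (b : Module.Basis (Option (Fin n)) V (KaehlerDifferential k V))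
    (hb : b none = KaehlerDifferential.D k V s)
    (hb' : ∀ l, b (some l) = KaehlerDifferential.D k V (u l)) :
    ∃ D : Fin n → Derivation k V V, DualDer k V s u D := by
  classical
  set c : Option (Fin n) → Derivation k V V := fun i =>
    (b.coord i).compDer (KaehlerDifferential.D k V) with hc
  have hca : ∀ i f, c i f = b.repr (KaehlerDifferential.D k V f) i := fun i f => rfl
  have h1 : ∀ i, c i s = if i = none then 1 else 0 := by
    intro i
    rw [hca, ← hb, Module.Basis.repr_self, Finsupp.single_apply]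
    by_cases h : i = none
    · rw [if_pos h, if_pos h.symm]
    · rw [if_neg h, if_neg (Ne.symm h)]
  have h2 : ∀ i l, c i (u l) = if i = some l then 1 else 0 := by
    intro i l
    rw [hca, ← hb', Module.Basis.repr_self, Finsupp.single_apply]
    by_cases h : i = some l
    · rw [if_pos h, if_pos h.symm]
    · rw [if_neg h, if_neg (Ne.symm h)]
  refine ⟨fun l => c (some l), ⟨?_, ?_, ?_⟩⟩
  · intro l
    rw [h1, if_neg (by simp)]
  · intro l j
    rw [h2]
    simp
  · intro M _ _ _ _ d hd v
    have h3 := b.sum_repr (KaehlerDifferential.D k V v)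
    rw [Fintype.sum_option] at h3
    simp only [hb, hb'] at h3
    have h4 : d v = d.liftKaehlerDifferential (KaehlerDifferential.D k V v) :=
      (d.liftKaehlerDifferential_comp_D v).symm
    rw [h4, ← h3, map_add, map_sum]
    simp only [map_smul, Derivation.liftKaehlerDifferential_comp_D, hd, smul_zero, zero_add]
    rfl

end Pool.Agent.Lib_KF

end

/-! ### from `Lib_KF.ChImpl` -/

section

/-! CH04: the implicit function theorem for polynomials. -/

namespace Pool.Agent.Lib_KF

open scoped Topology ContDiff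

section ChImpl

variable {E : Type*} [NormedAddCommGroup E] [NormedSpace ℂ E]

private theorem ChImpl_ev1_eq {n : ℕ} (s : ℂ) (u : Fin n → ℂ) (w : ℂ)
    (H : Polynomial (MvPolynomial (Option (Fin n)) ℂ)) :
    ev1 (k := ℂ) s u w H = (H.map (ev0 (k := ℂ) s u).toRingHom).eval w := by
  rw [Polynomial.eval_map]
  rfl

private theorem ChImpl_ev0_analytic {n : ℕ} {s : E → ℂ} {u : E → Fin n → ℂ} {x : E}
    (hs : AnalyticAt ℂ s x) (hu : AnalyticAt ℂ u x) (H : MvPolynomial (Option (Fin n)) ℂ) :
    AnalyticAt ℂ (fun y => ev0 (k := ℂ) (s y) (u y) H) x := by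
  induction H using MvPolynomial.induction_on with
  | C a =>
    have : (fun y => ev0 (k := ℂ) (s y) (u y) (MvPolynomial.C a)) = fun _ => a := by
      funext y
      simp [ev0]
    rw [this]
    exact analyticAt_const
  | add p q hp hq =>
    simp only [map_add]
    exact hp.add hq
  | mul_X p o hp =>
    simp only [map_mul]
    refine hp.mul ?_
    rcases o with _ | l
    · have : (fun y => ev0 (k := ℂ) (s y) (u y) (MvPolynomial.X none)) = s := by
        funext y
        simp [ev0]
      rw [this]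
      exact hs
    · have : (fun y => ev0 (k := ℂ) (s y) (u y) (MvPolynomial.X (some l))) = fun y => u y l := by
        funext y
        simp [ev0]
      rw [this]
      exact (ContinuousLinearMap.proj (R := ℂ) (φ := fun _ : Fin n => ℂ) l).analyticAt _ |>.comp hu

private theorem ChImpl_ev1_analytic {n : ℕ} {s : E → ℂ} {u : E → Fin n → ℂ} {w : E → ℂ} {x : E}
    (hs : AnalyticAt ℂ s x) (hu : AnalyticAt ℂ u x) (hw : AnalyticAt ℂ w x)
    (H : Polynomial (MvPolynomial (Option (Fin n)) ℂ)) :
    AnalyticAt ℂ (fun y => ev1 (k := ℂ) (s y) (u y) (w y) H) x := by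
  induction H using Polynomial.induction_on' with
  | add p q hp hq =>
    simp only [map_add]
    exact hp.add hq
  | monomial m a =>
    have : (fun y => ev1 (k := ℂ) (s y) (u y) (w y) (Polynomial.monomial m a)) =
        fun y => ev0 (k := ℂ) (s y) (u y) a * w y ^ m := by
      funext y
      simp [ev1]
    rw [this]
    exact (ChImpl_ev0_analytic hs hu a).mul (hw.pow m)

end ChImpl

/-- CH04a. Substituting analytic functions in a polynomial gives an analytic function. (Both `s`
and `u` are coordinates, `W` is analytic; induction on the polynomial.) -/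
theorem analyticOnNhd_ev1 {n : ℕ} (u₀ : Fin n → ℂ) (W : ℂ × (Fin n → ℂ) → ℂ) (S : Set (ℂ × (Fin n → ℂ)))
    (hW : AnalyticOnNhd ℂ W S) (H : Polynomial (MvPolynomial (Option (Fin n)) ℂ)) :
    AnalyticOnNhd ℂ (fun p : ℂ × (Fin n → ℂ) => ev1 (k := ℂ) p.1 (u₀ + p.2) (W p) H) S := by
  intro x hx
  exact ChImpl_ev1_analytic analyticAt_fst (analyticAt_const.add analyticAt_snd) (hW x hx) H

/-- CH04b. Implicit function theorem: `F(0, u₀, w₀) = 0`, `∂F/∂w (0, u₀, w₀) ≠ 0`; there is an
analytic function `W` near `0` with `F(s, u₀ + u, W(s, u)) = 0`, `W(0) = w₀`. Apply the inverse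
function theorem to `(s, u, w) ↦ (s, u, F(s, u₀ + u, w₀ + w))` (analytic; e.g.
`ContDiffAt.toOpenPartialHomeomorph` and `ContDiffAt.to_localInverse` with `n = ω`, or
`n = ∞` and `DifferentiableOn.analyticOnNhd`), then shrink the ball so that `F'` and `q` do not
vanish. -/
theorem exists_implicit {n : ℕ} (F q : Polynomial (MvPolynomial (Option (Fin n)) ℂ))
    (u₀ : Fin n → ℂ) (w₀ : ℂ) (hF : ev1 (k := ℂ) (0 : ℂ) u₀ w₀ F = 0)
    (hF' : ev1 (k := ℂ) (0 : ℂ) u₀ w₀ (Polynomial.derivative F) ≠ 0)
    (hq : ev1 (k := ℂ) (0 : ℂ) u₀ w₀ q ≠ 0) :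
    ∃ (ρ : ℝ) (W : ℂ × (Fin n → ℂ) → ℂ), 0 < ρ ∧ W 0 = w₀ ∧
      AnalyticOnNhd ℂ W (Metric.ball 0 ρ) ∧
      ∀ p ∈ Metric.ball (0 : ℂ × (Fin n → ℂ)) ρ,
        ev1 (k := ℂ) p.1 (u₀ + p.2) (W p) F = 0 ∧
        ev1 (k := ℂ) p.1 (u₀ + p.2) (W p) (Polynomial.derivative F) ≠ 0 ∧
        ev1 (k := ℂ) p.1 (u₀ + p.2) (W p) q ≠ 0 := by
  classical
  let f : (ℂ × (Fin n → ℂ)) × ℂ → ℂ := fun x => ev1 (k := ℂ) x.1.1 (u₀ + x.1.2) x.2 F
  let x₀ : (ℂ × (Fin n → ℂ)) × ℂ := (0, w₀)
  have hfa : AnalyticAt ℂ f x₀ :=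
    ChImpl_ev1_analytic (s := fun x : (ℂ × (Fin n → ℂ)) × ℂ => x.1.1)
      (u := fun x : (ℂ × (Fin n → ℂ)) × ℂ => u₀ + x.1.2)
      (w := fun x : (ℂ × (Fin n → ℂ)) × ℂ => x.2)
      (analyticAt_fst.comp analyticAt_fst)
      (analyticAt_const.add (analyticAt_snd.comp analyticAt_fst)) analyticAt_snd F
  have hfx : f x₀ = 0 := by simpa [f, x₀] using hF
  have cdf : ContDiffAt ℂ ω f x₀ := hfa.contDiffAt
  have hd : HasDerivAt (fun w : ℂ => f (0, w))
      (ev1 (k := ℂ) (0 : ℂ) u₀ w₀ (Polynomial.derivative F)) w₀ := by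
    have h1 : (fun w : ℂ => f (0, w)) =
        fun w => (F.map (ev0 (k := ℂ) (0 : ℂ) u₀).toRingHom).eval w := by
      funext w
      simp only [f, Prod.fst_zero, Prod.snd_zero, add_zero]
      exact ChImpl_ev1_eq _ _ _ _
    rw [h1, ChImpl_ev1_eq, ← Polynomial.derivative_map]
    exact Polynomial.hasDerivAt _ _
  have if₂ : (fderiv ℂ f x₀ ∘L .inr ℂ (ℂ × (Fin n → ℂ)) ℂ).IsInvertible := by
    have hc : HasFDerivAt (fun w : ℂ => f (0, w))
        (fderiv ℂ f x₀ ∘L .inr ℂ (ℂ × (Fin n → ℂ)) ℂ) w₀ := by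
      have h1 : HasFDerivAt f (fderiv ℂ f x₀) (0, w₀) := hfa.differentiableAt.hasFDerivAt
      have h2 : HasFDerivAt (fun w : ℂ => ((0 : ℂ × (Fin n → ℂ)), w))
          (.inr ℂ (ℂ × (Fin n → ℂ)) ℂ) w₀ := hasFDerivAt_prodMk_right _ _
      exact h1.comp w₀ h2
    have he := hc.hasDerivAt.unique hd
    refine ⟨ContinuousLinearEquiv.unitsEquivAut ℂ (Units.mk0 _ hF'), ?_⟩
    ext
    simp only [ContinuousLinearMap.coe_comp, Function.comp_apply] at he ⊢
    simpa using he.symm
  set W := cdf.implicitFunction (by simp) if₂ with hWdef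
  have hW0 : W 0 = w₀ := cdf.implicitFunction_apply_self (by simp) if₂
  have hWev : ∀ᶠ p in 𝓝 (0 : ℂ × (Fin n → ℂ)), f (p, W p) = f x₀ :=
    cdf.eventually_apply_implicitFunction (by simp) if₂
  have hWa : AnalyticAt ℂ W 0 := by
    exact (cdf.contDiffAt_implicitFunction (by simp) if₂).analyticAt
  have hne : ∀ H : Polynomial (MvPolynomial (Option (Fin n)) ℂ),
      ev1 (k := ℂ) (0 : ℂ) u₀ w₀ H ≠ 0 →
      ∀ᶠ p in 𝓝 (0 : ℂ × (Fin n → ℂ)), ev1 (k := ℂ) p.1 (u₀ + p.2) (W p) H ≠ 0 := by
    intro H hH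
    have h1 : AnalyticAt ℂ (fun p : ℂ × (Fin n → ℂ) => ev1 (k := ℂ) p.1 (u₀ + p.2) (W p) H) 0 :=
      ChImpl_ev1_analytic analyticAt_fst (analyticAt_const.add analyticAt_snd) hWa H
    have h2 : (fun p : ℂ × (Fin n → ℂ) => ev1 (k := ℂ) p.1 (u₀ + p.2) (W p) H) 0 ≠ 0 := by
      simpa [hW0] using hH
    exact h1.continuousAt.eventually_ne h2
  obtain ⟨ρ, hρ, hball⟩ := Metric.eventually_nhds_iff_ball.1
    ((hWev.and (hWa.eventually_analyticAt)).and ((hne _ hF').and (hne _ hq)))
  refine ⟨ρ, W, hρ, hW0, fun x hx => (hball x hx).1.2, fun p hp => ?_⟩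
  obtain ⟨⟨h1, -⟩, h2, h3⟩ := hball p hp
  refine ⟨?_, h2, h3⟩
  rw [hfx] at h1
  exact h1

end Pool.Agent.Lib_KF

end

/-! ### from `Lib_KF.ChEvDer` -/

section

/-! CH05c: derivations and the analytic family. -/

namespace Pool.Agent.Lib_KF

/-- the directional derivative of `f` at `y` in the direction `l` exists and equals `d` -/
private def cheval2_LD {n : ℕ} (y : Fin n → ℂ) (l : Fin n) (f : (Fin n → ℂ) → ℂ) (d : ℂ) : Prop :=
  DifferentiableAt ℂ f y ∧ fderiv ℂ f y (Pi.single l 1) = d

section LD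
variable {n : ℕ} {y : Fin n → ℂ} {l : Fin n}

private theorem cheval2_LD_const (c : ℂ) : cheval2_LD y l (fun _ => c) 0 :=
  ⟨differentiableAt_const c, by simp⟩

private theorem cheval2_LD_add {f g : (Fin n → ℂ) → ℂ} {a b : ℂ} (hf : cheval2_LD y l f a)
    (hg : cheval2_LD y l g b) : cheval2_LD y l (fun y' => f y' + g y') (a + b) := by
  refine ⟨hf.1.add hg.1, ?_⟩
  have h := fderiv_fun_add hf.1 hg.1
  rw [h, add_apply, hf.2, hg.2]

private theorem cheval2_LD_mul {f g : (Fin n → ℂ) → ℂ} {a b : ℂ} (hf : cheval2_LD y l f a)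
    (hg : cheval2_LD y l g b) :
    cheval2_LD y l (fun y' => f y' * g y') (a * g y + f y * b) := by
  refine ⟨hf.1.mul hg.1, ?_⟩
  have h : fderiv ℂ (fun y' => f y' * g y') y = f y • fderiv ℂ g y + g y • fderiv ℂ f y :=
    fderiv_fun_mul hf.1 hg.1
  rw [h, add_apply, smul_apply, smul_apply, hf.2, hg.2, smul_eq_mul, smul_eq_mul]
  ring

private theorem cheval2_LD_congr {f g : (Fin n → ℂ) → ℂ} {a : ℂ} (hf : cheval2_LD y l f a)
    (h : g =ᶠ[nhds y] f) : cheval2_LD y l g a :=
  ⟨hf.1.congr_of_eventuallyEq h, by rw [h.fderiv_eq, hf.2]⟩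

private theorem cheval2_LD_unique {f : (Fin n → ℂ) → ℂ} {a b : ℂ} (hf : cheval2_LD y l f a)
    (hg : cheval2_LD y l f b) : a = b := hf.2.symm.trans hg.2

private theorem cheval2_LD_proj (c : ℂ) (j : Fin n) :
    cheval2_LD y l (fun y' => c + y' j) (if l = j then 1 else 0) := by
  have h1 : HasFDerivAt (fun y' : Fin n → ℂ => c + y' j)
      (ContinuousLinearMap.proj (R := ℂ) (φ := fun _ : Fin n => ℂ) j) y :=
    (ContinuousLinearMap.proj (R := ℂ) (φ := fun _ : Fin n => ℂ) j).hasFDerivAt.const_add c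
  refine ⟨h1.differentiableAt, ?_⟩
  rw [h1.fderiv, ContinuousLinearMap.proj_apply, Pi.single_apply]
  by_cases h : j = l
  · subst h; simp
  · rw [if_neg h, if_neg (Ne.symm h)]

end LD

section
variable {Q : Type} [CommRing Q] [Algebra ℂ Q] {n : ℕ}

private theorem cheval2_ev0_add {k V : Type} [CommRing k] [CommRing V] [Algebra k V] (s : V)
    (u : Fin n → V) (w : V) (g : MvPolynomial (Option (Fin n)) k) :
    ev1 s u w (Polynomial.C g) = ev0 s u g := by
  simp [ev1]

private theorem cheval2_ev1_X {k V : Type} [CommRing k] [CommRing V] [Algebra k V] (s : V)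
    (u : Fin n → V) (w : V) : ev1 (k := k) s u w Polynomial.X = w := by
  simp [ev1]

/-- coefficients -/
private theorem cheval2_coef_V {V : Type} [CommRing V] [Algebra ℂ V] [Algebra Q V]
    [IsScalarTower ℂ Q V] (s : V) (u : Fin n → V) (D : Fin n → Derivation ℂ V V)
    (hDQ : ∀ l (c : Q), D l (algebraMap Q V c) = 0) (hDs : ∀ l, D l s = 0)
    (hDu : ∀ l j, D l (u j) = if l = j then 1 else 0) (l : Fin n)
    (g : MvPolynomial (Option (Fin n)) Q) :
    D l (ev0 s u g) = ev0 s u (MvPolynomial.pderiv (some l) g) := by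
  induction g using MvPolynomial.induction_on with
  | C a => simp [ev0, hDQ]
  | add p q hp hq => simp only [map_add, hp, hq]
  | mul_X p i hp =>
    rw [map_mul, Derivation.leibniz, hp, Derivation.leibniz, MvPolynomial.pderiv_X]
    cases i with
    | none =>
      have h1 : ev0 (k := Q) s u (MvPolynomial.X none) = s := by simp [ev0]
      rw [h1, hDs]
      simp only [smul_eq_mul, mul_zero, zero_add, map_add, map_mul, h1]
      rw [Pi.single_eq_of_ne (by simp)]
      simp
    | some j =>
      have h1 : ev0 (k := Q) s u (MvPolynomial.X (some j)) = u j := by simp [ev0]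
      rw [h1, hDu]
      simp only [smul_eq_mul, map_add, map_mul, h1]
      by_cases h : l = j
      · subst h; simp
      · rw [if_neg h, Pi.single_eq_of_ne (by simpa using Ne.symm h)]
        simp

private theorem cheval2_coef_C (χ : Q →ₐ[ℂ] ℂ) (u₀ : Fin n → ℂ) (z : ℂ) (y : Fin n → ℂ)
    (l : Fin n) (g : MvPolynomial (Option (Fin n)) Q) :
    cheval2_LD y l (fun y' => ev0 (k := ℂ) z (u₀ + y') (MvPolynomial.map χ.toRingHom g))
      (ev0 (k := ℂ) z (u₀ + y) (MvPolynomial.map χ.toRingHom
        (MvPolynomial.pderiv (some l) g))) := by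
  induction g using MvPolynomial.induction_on with
  | C a => simpa [ev0] using cheval2_LD_const (y := y) (l := l) (χ a)
  | add p q hp hq =>
    simp only [map_add]
    exact cheval2_LD_add hp hq
  | mul_X p i hp =>
    have h2 : cheval2_LD y l
        (fun y' => ev0 (k := ℂ) z (u₀ + y') (MvPolynomial.map χ.toRingHom (MvPolynomial.X i)))
        (ev0 (k := ℂ) z (u₀ + y) (MvPolynomial.map χ.toRingHom
          (MvPolynomial.pderiv (some l) (MvPolynomial.X i)))) := by
      rw [MvPolynomial.pderiv_X]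
      cases i with
      | none =>
        rw [Pi.single_eq_of_ne (by simp)]
        simpa [ev0] using cheval2_LD_const (y := y) (l := l) z
      | some j =>
        have h3 := cheval2_LD_proj (y := y) (l := l) (u₀ j) j
        by_cases h : l = j
        · subst h
          simpa [ev0] using h3
        · rw [if_neg h] at h3
          rw [Pi.single_eq_of_ne (by simpa using Ne.symm h)]
          simpa [ev0] using h3
    have h4 := cheval2_LD_mul hp h2
    simp only [map_mul, Derivation.leibniz, map_add, smul_eq_mul]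
    convert h4 using 1
    ring

/-- chain rule for `F(s, u, w)` -/
private theorem cheval2_chain (χ : Q →ₐ[ℂ] ℂ) (u₀ : Fin n → ℂ)
    {V : Type} [CommRing V] [Algebra ℂ V] [Algebra Q V]
    [IsScalarTower ℂ Q V] (s : V) (u : Fin n → V) (w : V) (D : Fin n → Derivation ℂ V V)
    (hDQ : ∀ l (c : Q), D l (algebraMap Q V c) = 0) (hDs : ∀ l, D l s = 0)
    (hDu : ∀ l j, D l (u j) = if l = j then 1 else 0) (l : Fin n) (ρ : ℝ)
    (W : ℂ × (Fin n → ℂ) → ℂ)
    (hW : ∀ z y, ‖z‖ < ρ → ‖y‖ < ρ → DifferentiableAt ℂ (fun y' => W (z, y')) y)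
    (H : Polynomial (MvPolynomial (Option (Fin n)) Q)) :
    ∃ H₁ : Polynomial (MvPolynomial (Option (Fin n)) Q),
      D l (ev1 s u w H) = ev1 s u w H₁ + ev1 s u w (Polynomial.derivative H) * D l w ∧
      ∀ z y, ‖z‖ < ρ → ‖y‖ < ρ → cheval2_LD y l
        (fun y' => ev1 (k := ℂ) z (u₀ + y') (W (z, y')) (H.map (MvPolynomial.map χ.toRingHom)))
        (ev1 (k := ℂ) z (u₀ + y) (W (z, y)) (H₁.map (MvPolynomial.map χ.toRingHom)) +
          ev1 (k := ℂ) z (u₀ + y) (W (z, y))
            ((Polynomial.derivative H).map (MvPolynomial.map χ.toRingHom)) *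
            fderiv ℂ (fun y' => W (z, y')) y (Pi.single l 1)) := by
  induction H using Polynomial.induction_on with
  | C a =>
    refine ⟨Polynomial.C (MvPolynomial.pderiv (some l) a), ?_, fun z y _ _ => ?_⟩
    · rw [cheval2_ev0_add, cheval2_ev0_add, cheval2_coef_V s u D hDQ hDs hDu]
      simp
    · simp only [Polynomial.map_C, cheval2_ev0_add, Polynomial.derivative_C, Polynomial.map_zero,
        map_zero, zero_mul, add_zero]
      exact cheval2_coef_C χ u₀ z y l a
  | add p q hp hq =>
    obtain ⟨P, hP1, hP2⟩ := hp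
    obtain ⟨R, hR1, hR2⟩ := hq
    refine ⟨P + R, ?_, fun z y hz hy => ?_⟩
    · rw [map_add, map_add, hP1, hR1, map_add, Polynomial.derivative_add, map_add]
      ring
    · have h := cheval2_LD_add (hP2 z y hz hy) (hR2 z y hz hy)
      simp only [Polynomial.map_add, map_add]
      convert h using 1
      ring
  | monomial m a hm =>
    obtain ⟨P, hP1, hP2⟩ := hm
    have e : Polynomial.C a * Polynomial.X ^ (m + 1) =
        (Polynomial.C a * Polynomial.X ^ m) * Polynomial.X := by rw [pow_succ, mul_assoc]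
    rw [e]
    generalize Polynomial.C a * Polynomial.X ^ m = H₀ at hP1 hP2 ⊢
    refine ⟨P * Polynomial.X, ?_, fun z y hz hy => ?_⟩
    · rw [map_mul, Derivation.leibniz, hP1, Polynomial.derivative_mul, Polynomial.derivative_X,
        map_add, map_mul, map_mul, map_mul, cheval2_ev1_X, map_one]
      simp only [smul_eq_mul]
      ring
    · have h := cheval2_LD_mul (hP2 z y hz hy) (⟨hW z y hz hy, rfl⟩ :
        cheval2_LD y l (fun y' => W (z, y')) (fderiv ℂ (fun y' => W (z, y')) y (Pi.single l 1)))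
      simp only [Polynomial.map_mul, Polynomial.map_X, map_mul, cheval2_ev1_X,
        Polynomial.derivative_mul, Polynomial.derivative_X, Polynomial.map_add,
        map_add, mul_one]
      convert h using 1
      ring

end

/-- CH05c: the family of CH05b and derivations. -/
theorem ev_der (Q V : Type) [CommRing Q] [Algebra ℂ Q] [CommRing V] [IsDomain V] [Algebra ℂ V]
    [Algebra Q V] [IsScalarTower ℂ Q V] (χ : Q →ₐ[ℂ] ℂ) {n : ℕ} (s : V) (u : Fin n → V) (w : V)
    (F q : Polynomial (MvPolynomial (Option (Fin n)) Q)) (hroot : ev1 s u w F = 0)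
    (q' : V) (hq' : ev1 s u w q * q' = 1) (F' : V)
    (hF' : ev1 s u w (Polynomial.derivative F) * F' = 1) (ρ : ℝ) (u₀ : Fin n → ℂ)
    (W : ℂ × (Fin n → ℂ) → ℂ) (hW : AnalyticOnNhd ℂ W (Metric.ball 0 ρ))
    (hWF : ∀ p ∈ Metric.ball (0 : ℂ × (Fin n → ℂ)) ρ, ev1 (k := ℂ) p.1 (u₀ + p.2) (W p)
      (F.map (MvPolynomial.map χ.toRingHom)) = 0)
    (𝒲 : Subalgebra ℂ V) (h𝒲 : 𝒲 = Algebra.adjoin ℂ (Set.range (algebraMap Q V) ∪
      insert s (insert w (insert q' (Set.range u))))) (hF'𝒲 : F' ∈ 𝒲)
    (ev : ℂ → (Fin n → ℂ) → (𝒲 →ₐ[ℂ] ℂ))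
    (han : ∀ v, AnalyticOnNhd ℂ (fun p : ℂ × (Fin n → ℂ) => ev p.1 p.2 v) (Metric.ball 0 ρ))
    (hev : ∀ z y, ‖z‖ < ρ → ‖y‖ < ρ → (∀ h : s ∈ 𝒲, ev z y ⟨s, h⟩ = z) ∧
        (∀ l, ∀ h : u l ∈ 𝒲, ev z y ⟨u l, h⟩ = u₀ l + y l) ∧
        (∀ h : w ∈ 𝒲, ev z y ⟨w, h⟩ = W (z, y)) ∧
        (∀ c : Q, ∀ h : algebraMap Q V c ∈ 𝒲, ev z y ⟨algebraMap Q V c, h⟩ = χ c))
    (D : Fin n → Derivation ℂ V V) (hDQ : ∀ l (c : Q), D l (algebraMap Q V c) = 0)
    (hDs : ∀ l, D l s = 0) (hDu : ∀ l j, D l (u j) = if l = j then 1 else 0) :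
    ∃ hD : ∀ l, ∀ v ∈ 𝒲, D l v ∈ 𝒲, ∀ l v, ∀ h : v ∈ 𝒲, ∀ z y, ‖z‖ < ρ → ‖y‖ < ρ →
      fderiv ℂ (fun y' : Fin n → ℂ => ev z y' ⟨v, h⟩) y (Pi.single l 1) =
        ev z y ⟨D l v, hD l v h⟩ := by
  have hsub : ∀ g ∈ (Set.range (algebraMap Q V) ∪ insert s (insert w (insert q' (Set.range u)))),
      g ∈ 𝒲 := by
    intro g hg
    rw [h𝒲]
    exact Algebra.subset_adjoin hg
  have hQ : ∀ c : Q, algebraMap Q V c ∈ 𝒲 := fun c => hsub _ (Or.inl ⟨c, rfl⟩)
  have hs : s ∈ 𝒲 := hsub _ (Or.inr (Or.inl rfl))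
  have hw : w ∈ 𝒲 := hsub _ (Or.inr (Or.inr (Or.inl rfl)))
  have hq : q' ∈ 𝒲 := hsub _ (Or.inr (Or.inr (Or.inr (Or.inl rfl))))
  have hu : ∀ l, u l ∈ 𝒲 := fun l => hsub _ (Or.inr (Or.inr (Or.inr (Or.inr ⟨l, rfl⟩))))
  have hball : ∀ z (y : Fin n → ℂ), ‖z‖ < ρ → ‖y‖ < ρ → (z, y) ∈ Metric.ball (0 : ℂ × (Fin n → ℂ)) ρ := by
    intro z y hz hy
    rw [mem_ball_zero_iff, Prod.norm_def]
    exact max_lt hz hy
  have hnear : ∀ y : Fin n → ℂ, ‖y‖ < ρ → ∀ᶠ y' in nhds y, ‖y'‖ < ρ := fun y hy =>
    (continuous_norm.tendsto y).eventually (eventually_lt_nhds hy)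
  have hslice : ∀ (f : ℂ × (Fin n → ℂ) → ℂ), AnalyticOnNhd ℂ f (Metric.ball 0 ρ) →
      ∀ z y, ‖z‖ < ρ → ‖y‖ < ρ → DifferentiableAt ℂ (fun y' => f (z, y')) y := by
    intro f hf z y hz hy
    have h1 : DifferentiableAt ℂ f (z, y) := (hf _ (hball z y hz hy)).differentiableAt
    exact h1.comp y ((differentiableAt_const z).prodMk differentiableAt_id)
  have hdW : ∀ z y, ‖z‖ < ρ → ‖y‖ < ρ → DifferentiableAt ℂ (fun y' => W (z, y')) y :=
    hslice W hW
  have hdev : ∀ v : 𝒲, ∀ z y, ‖z‖ < ρ → ‖y‖ < ρ → DifferentiableAt ℂ (fun y' => ev z y' v) y :=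
    fun v => hslice _ (han v)
  -- the image of the polynomials
  have hαmem : ∀ H : Polynomial (MvPolynomial (Option (Fin n)) Q), ev1 s u w H ∈ 𝒲 := by
    have h0 : ∀ g : MvPolynomial (Option (Fin n)) Q, ev0 s u g ∈ 𝒲 := by
      intro g
      induction g using MvPolynomial.induction_on with
      | C a => simpa [ev0] using hQ a
      | add p q hp hq => rw [map_add]; exact 𝒲.add_mem hp hq
      | mul_X p i hp =>
        rw [map_mul]
        refine 𝒲.mul_mem hp ?_
        cases i with
        | none => simpa [ev0] using hs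
        | some j => simpa [ev0] using hu j
    intro H
    induction H using Polynomial.induction_on with
    | C a => rw [cheval2_ev0_add]; exact h0 a
    | add p q hp hq => rw [map_add]; exact 𝒲.add_mem hp hq
    | monomial m a hm =>
      rw [pow_succ, ← mul_assoc, map_mul, cheval2_ev1_X]
      exact 𝒲.mul_mem hm hw
  -- the values of the family
  have hval : ∀ z y, ‖z‖ < ρ → ‖y‖ < ρ → ∀ H : Polynomial (MvPolynomial (Option (Fin n)) Q),
      ev z y ⟨ev1 s u w H, hαmem H⟩ =
        ev1 (k := ℂ) z (u₀ + y) (W (z, y)) (H.map (MvPolynomial.map χ.toRingHom)) := by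
    intro z y hz hy H
    obtain ⟨e1, e2, e3, e4⟩ := hev z y hz hy
    have hadd : ∀ a b : V, ∀ (ha : a ∈ 𝒲) (hb : b ∈ 𝒲) (hab : a + b ∈ 𝒲),
        ev z y ⟨a + b, hab⟩ = ev z y ⟨a, ha⟩ + ev z y ⟨b, hb⟩ := by
      intro a b ha hb hab
      rw [← map_add]
      rfl
    have hmul : ∀ a b : V, ∀ (ha : a ∈ 𝒲) (hb : b ∈ 𝒲) (hab : a * b ∈ 𝒲),
        ev z y ⟨a * b, hab⟩ = ev z y ⟨a, ha⟩ * ev z y ⟨b, hb⟩ := by
      intro a b ha hb hab
      rw [← map_mul]
      rfl
    have h0 : ∀ g : MvPolynomial (Option (Fin n)) Q, ∀ hg : ev0 s u g ∈ 𝒲,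
        ev z y ⟨ev0 s u g, hg⟩ =
          ev0 (k := ℂ) z (u₀ + y) (MvPolynomial.map χ.toRingHom g) := by
      intro g
      induction g using MvPolynomial.induction_on with
      | C a =>
        intro hg
        have e : ev0 s u (MvPolynomial.C a) = algebraMap Q V a := by simp [ev0]
        simp only [e]
        rw [e4 a]
        simp [ev0]
      | add p q hp hq =>
        intro hg
        have ha : ev0 s u p ∈ 𝒲 := by
          rw [← cheval2_ev0_add s u w]; exact hαmem _
        have hb : ev0 s u q ∈ 𝒲 := by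
          rw [← cheval2_ev0_add s u w]; exact hαmem _
        simp only [map_add]
        rw [hadd _ _ ha hb, hp, hq]
      | mul_X p i hp =>
        intro hg
        have ha : ev0 s u p ∈ 𝒲 := by
          rw [← cheval2_ev0_add s u w]; exact hαmem _
        have hb : ev0 (k := Q) s u (MvPolynomial.X i) ∈ 𝒲 := by
          rw [← cheval2_ev0_add s u w]; exact hαmem _
        simp only [map_mul]
        rw [hmul _ _ ha hb, hp]
        congr 1
        cases i with
        | none =>
          have e : ev0 (k := Q) s u (MvPolynomial.X none) = s := by simp [ev0]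
          simp only [e]
          rw [e1]
          simp [ev0]
        | some j =>
          have e : ev0 (k := Q) s u (MvPolynomial.X (some j)) = u j := by simp [ev0]
          simp only [e]
          rw [e2]
          simp [ev0]
    induction H using Polynomial.induction_on with
    | C a =>
      simp only [Polynomial.map_C, cheval2_ev0_add]
      exact h0 a _
    | add p q hp hq =>
      simp only [map_add, Polynomial.map_add]
      rw [hadd _ _ (hαmem p) (hαmem q), hp, hq]
    | monomial m a hm =>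
      have e : Polynomial.C a * Polynomial.X ^ (m + 1) =
          (Polynomial.C a * Polynomial.X ^ m) * Polynomial.X := by rw [pow_succ, mul_assoc]
      have hstep : ∀ H₀ : Polynomial (MvPolynomial (Option (Fin n)) Q),
          ev z y ⟨ev1 s u w H₀, hαmem H₀⟩ = ev1 (k := ℂ) z (u₀ + y) (W (z, y))
            (H₀.map (MvPolynomial.map χ.toRingHom)) →
          ev z y ⟨ev1 s u w (H₀ * Polynomial.X), hαmem _⟩ = ev1 (k := ℂ) z (u₀ + y) (W (z, y))
            ((H₀ * Polynomial.X).map (MvPolynomial.map χ.toRingHom)) := by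
        intro H₀ hH
        simp only [map_mul, Polynomial.map_mul, Polynomial.map_X, cheval2_ev1_X]
        rw [hmul _ _ (hαmem H₀) hw, hH, e3]
      simp only [e]
      exact hstep _ hm
  have hadd' : ∀ z y, ∀ a b : V, ∀ (ha : a ∈ 𝒲) (hb : b ∈ 𝒲) (hab : a + b ∈ 𝒲),
      ev z y ⟨a + b, hab⟩ = ev z y ⟨a, ha⟩ + ev z y ⟨b, hb⟩ := by
    intro z y a b ha hb hab
    rw [← map_add]
    rfl
  have hmul' : ∀ z y, ∀ a b : V, ∀ (ha : a ∈ 𝒲) (hb : b ∈ 𝒲) (hab : a * b ∈ 𝒲),
      ev z y ⟨a * b, hab⟩ = ev z y ⟨a, ha⟩ * ev z y ⟨b, hb⟩ := by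
    intro z y a b ha hb hab
    rw [← map_mul]
    rfl
  have hneg' : ∀ z y, ∀ a : V, ∀ (ha : a ∈ 𝒲) (hab : -a ∈ 𝒲),
      ev z y ⟨-a, hab⟩ = - ev z y ⟨a, ha⟩ := by
    intro z y a ha hab
    rw [← map_neg]
    rfl
  have hone' : ∀ z y, ∀ (hab : (1 : V) ∈ 𝒲), ev z y ⟨1, hab⟩ = 1 := by
    intro z y hab
    exact map_one (ev z y)
  -- `w`
  have hLDev : ∀ (l : Fin n) (v : 𝒲) z y, ‖z‖ < ρ → ‖y‖ < ρ →
      cheval2_LD y l (fun y' => ev z y' v) (fderiv ℂ (fun y' => ev z y' v) y (Pi.single l 1)) :=
    fun l v z y hz hy => ⟨hdev v z y hz hy, rfl⟩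
  have hch := fun l => cheval2_chain χ u₀ s u w D hDQ hDs hDu l ρ W hdW
  have hDw : ∀ l, ∃ h : D l w ∈ 𝒲, ∀ z y, ‖z‖ < ρ → ‖y‖ < ρ →
      cheval2_LD y l (fun y' => W (z, y')) (ev z y ⟨D l w, h⟩) := by
    intro l
    obtain ⟨F₁, h1, h2⟩ := hch l F
    rw [hroot, map_zero] at h1
    have h3 : D l w = - (F' * ev1 s u w F₁) := by
      have h4 : F' * (ev1 s u w F₁ + ev1 s u w (Polynomial.derivative F) * D l w) = 0 := by
        rw [← h1, mul_zero]
      have h5 : F' * ev1 s u w (Polynomial.derivative F) = 1 := by rw [mul_comm]; exact hF'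
      rw [mul_add, ← mul_assoc, h5, one_mul] at h4
      exact eq_neg_of_add_eq_zero_right h4
    have hmem : F' * ev1 s u w F₁ ∈ 𝒲 := 𝒲.mul_mem hF'𝒲 (hαmem F₁)
    have hmem' : - (F' * ev1 s u w F₁) ∈ 𝒲 := 𝒲.neg_mem hmem
    refine ⟨by rw [h3]; exact hmem', fun z y hz hy => ⟨hdW z y hz hy, ?_⟩⟩
    simp only [h3]
    rw [hneg' z y _ hmem, hmul' z y _ _ hF'𝒲 (hαmem F₁), hval z y hz hy]
    have h6 : cheval2_LD y l (fun y' => ev1 (k := ℂ) z (u₀ + y') (W (z, y'))
        (F.map (MvPolynomial.map χ.toRingHom))) 0 := by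
      refine cheval2_LD_congr (cheval2_LD_const 0) ?_
      filter_upwards [hnear y hy] with y' hy'
      exact hWF (z, y') (hball z y' hz hy')
    have h7 := cheval2_LD_unique (h2 z y hz hy) h6
    have h8 : ev z y ⟨F', hF'𝒲⟩ * ev1 (k := ℂ) z (u₀ + y) (W (z, y))
        ((Polynomial.derivative F).map (MvPolynomial.map χ.toRingHom)) = 1 := by
      rw [← hval z y hz hy, ← hmul' z y _ _ hF'𝒲 (hαmem _) (𝒲.mul_mem hF'𝒲 (hαmem _))]
      have h9 : F' * ev1 s u w (Polynomial.derivative F) = 1 := by rw [mul_comm]; exact hF'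
      simp only [h9]
      exact hone' z y _
    linear_combination (ev z y ⟨F', hF'𝒲⟩) * h7 -
      (fderiv ℂ (fun y' => W (z, y')) y (Pi.single l 1)) * h8
  -- the image of the polynomials
  have hDα : ∀ l (H : Polynomial (MvPolynomial (Option (Fin n)) Q)),
      ∃ h : D l (ev1 s u w H) ∈ 𝒲, ∀ z y, ‖z‖ < ρ → ‖y‖ < ρ →
      cheval2_LD y l (fun y' => ev z y' ⟨ev1 s u w H, hαmem H⟩)
        (ev z y ⟨D l (ev1 s u w H), h⟩) := by
    intro l H
    obtain ⟨H₁, h1, h2⟩ := hch l H
    obtain ⟨hw1, hw2⟩ := hDw l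
    have hm1 : ev1 s u w (Polynomial.derivative H) * D l w ∈ 𝒲 := 𝒲.mul_mem (hαmem _) hw1
    have hm2 : ev1 s u w H₁ + ev1 s u w (Polynomial.derivative H) * D l w ∈ 𝒲 :=
      𝒲.add_mem (hαmem _) hm1
    refine ⟨by rw [h1]; exact hm2, fun z y hz hy => ?_⟩
    simp only [h1]
    rw [hadd' z y _ _ (hαmem H₁) hm1, hmul' z y _ _ (hαmem _) hw1, hval z y hz hy,
      hval z y hz hy]
    have h3 := h2 z y hz hy
    rw [(hw2 z y hz hy).2] at h3
    refine cheval2_LD_congr h3 ?_
    filter_upwards [hnear y hy] with y' hy'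
    exact hval z y' hz hy' H
  -- `q'`
  have hDq : ∀ l, ∃ h : D l q' ∈ 𝒲, ∀ z y, ‖z‖ < ρ → ‖y‖ < ρ →
      cheval2_LD y l (fun y' => ev z y' ⟨q', hq⟩) (ev z y ⟨D l q', h⟩) := by
    intro l
    obtain ⟨hm, h2⟩ := hDα l q
    have h1 : ev1 s u w q • D l q' + q' • D l (ev1 s u w q) = 0 := by
      rw [← Derivation.leibniz, hq', Derivation.map_one_eq_zero]
    simp only [smul_eq_mul] at h1
    have h3 : D l q' = - (q' * (q' * D l (ev1 s u w q))) := by
      have h4 : q' * ev1 s u w q = 1 := by rw [mul_comm]; exact hq'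
      linear_combination q' * h1 - D l q' * h4
    have hm1 : q' * D l (ev1 s u w q) ∈ 𝒲 := 𝒲.mul_mem hq hm
    have hm2 : q' * (q' * D l (ev1 s u w q)) ∈ 𝒲 := 𝒲.mul_mem hq hm1
    refine ⟨by rw [h3]; exact 𝒲.neg_mem hm2, fun z y hz hy => ?_⟩
    simp only [h3]
    rw [hneg' z y _ hm2, hmul' z y _ _ hq hm1, hmul' z y _ _ hq hm]
    have h4 := hLDev l ⟨q', hq⟩ z y hz hy
    refine ⟨h4.1, ?_⟩
    have h5 := cheval2_LD_mul h4 (h2 z y hz hy)
    have h7 : ∀ y', ev z y' ⟨q', hq⟩ * ev z y' ⟨ev1 s u w q, hαmem q⟩ = 1 := by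
      intro y'
      rw [← hmul' z y' _ _ hq (hαmem _) (𝒲.mul_mem hq (hαmem _))]
      have h9 : q' * ev1 s u w q = 1 := by rw [mul_comm]; exact hq'
      simp only [h9]
      exact hone' z y' _
    have h6 : cheval2_LD y l (fun y' => ev z y' ⟨q', hq⟩ * ev z y' ⟨ev1 s u w q, hαmem q⟩) 0 := by
      simp only [h7]
      exact cheval2_LD_const 1
    have h8 := cheval2_LD_unique h5 h6
    linear_combination (ev z y ⟨q', hq⟩) * h8 -
      (fderiv ℂ (fun y' => ev z y' ⟨q', hq⟩) y (Pi.single l 1)) * h7 y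
  -- all elements
  have hall : ∀ l, ∀ v ∈ 𝒲, ∀ h : v ∈ 𝒲, ∃ h' : D l v ∈ 𝒲, ∀ z y, ‖z‖ < ρ → ‖y‖ < ρ →
      cheval2_LD y l (fun y' => ev z y' ⟨v, h⟩) (ev z y ⟨D l v, h'⟩) := by
    intro l v hv
    have hv' := hv
    rw [h𝒲] at hv'
    induction hv' using Algebra.adjoin_induction with
    | mem x hx =>
      intro h
      rcases hx with ⟨c, rfl⟩ | rfl | rfl | rfl | ⟨j, rfl⟩
      · refine ⟨by rw [hDQ]; exact 𝒲.zero_mem, fun z y hz hy => ?_⟩
        simp only [hDQ]
        have h1 : ev z y ⟨0, 𝒲.zero_mem⟩ = 0 := map_zero (ev z y)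
        rw [h1]
        refine cheval2_LD_congr (cheval2_LD_const (χ c)) ?_
        filter_upwards [hnear y hy] with y' hy'
        exact (hev z y' hz hy').2.2.2 c h
      · refine ⟨by rw [hDs]; exact 𝒲.zero_mem, fun z y hz hy => ?_⟩
        simp only [hDs]
        have h1 : ev z y ⟨0, 𝒲.zero_mem⟩ = 0 := map_zero (ev z y)
        rw [h1]
        refine cheval2_LD_congr (cheval2_LD_const z) ?_
        filter_upwards [hnear y hy] with y' hy'
        exact (hev z y' hz hy').1 h
      · obtain ⟨h1, h2⟩ := hDw l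
        refine ⟨h1, fun z y hz hy => cheval2_LD_congr (h2 z y hz hy) ?_⟩
        filter_upwards [hnear y hy] with y' hy'
        exact (hev z y' hz hy').2.2.1 h
      · exact hDq l
      · refine ⟨by rw [hDu]; split_ifs; exacts [𝒲.one_mem, 𝒲.zero_mem], fun z y hz hy => ?_⟩
        simp only [hDu]
        have h2 := cheval2_LD_proj (y := y) (l := l) (u₀ j) j
        have h3 : ∀ hm : (if l = j then (1 : V) else 0) ∈ 𝒲,
            ev z y ⟨if l = j then 1 else 0, hm⟩ = if l = j then 1 else 0 := by
          intro hm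
          by_cases hl : l = j
          · simp only [if_pos hl]
            exact map_one (ev z y)
          · simp only [if_neg hl]
            exact map_zero (ev z y)
        rw [h3]
        refine cheval2_LD_congr h2 ?_
        filter_upwards [hnear y hy] with y' hy'
        exact (hev z y' hz hy').2.1 j h
    | algebraMap r =>
      intro h
      have h0 : D l (algebraMap ℂ V r) = 0 := (D l).map_algebraMap r
      refine ⟨by rw [h0]; exact 𝒲.zero_mem, fun z y hz hy => ?_⟩
      simp only [h0]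
      have h1 : ev z y ⟨0, 𝒲.zero_mem⟩ = 0 := map_zero (ev z y)
      rw [h1]
      refine cheval2_LD_congr (cheval2_LD_const r) ?_
      filter_upwards with y'
      exact (ev z y').commutes r
    | add a b ha hb iha ihb =>
      intro h
      have ha' : a ∈ 𝒲 := by rw [h𝒲]; exact ha
      have hb' : b ∈ 𝒲 := by rw [h𝒲]; exact hb
      obtain ⟨h1, h2⟩ := iha ha' ha'
      obtain ⟨h3, h4⟩ := ihb hb' hb'
      refine ⟨by rw [map_add]; exact 𝒲.add_mem h1 h3, fun z y hz hy => ?_⟩
      simp only [map_add]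
      rw [hadd' z y _ _ h1 h3]
      refine cheval2_LD_congr (cheval2_LD_add (h2 z y hz hy) (h4 z y hz hy)) ?_
      filter_upwards with y'
      exact hadd' z y' _ _ ha' hb' _
    | mul a b ha hb iha ihb =>
      intro h
      have ha' : a ∈ 𝒲 := by rw [h𝒲]; exact ha
      have hb' : b ∈ 𝒲 := by rw [h𝒲]; exact hb
      obtain ⟨h1, h2⟩ := iha ha' ha'
      obtain ⟨h3, h4⟩ := ihb hb' hb'
      have h5 : D l (a * b) = D l a * b + a * D l b := by
        rw [Derivation.leibniz, smul_eq_mul, smul_eq_mul]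
        ring
      have hm1 : D l a * b ∈ 𝒲 := 𝒲.mul_mem h1 hb'
      have hm2 : a * D l b ∈ 𝒲 := 𝒲.mul_mem ha' h3
      refine ⟨by rw [h5]; exact 𝒲.add_mem hm1 hm2, fun z y hz hy => ?_⟩
      simp only [h5]
      rw [hadd' z y _ _ hm1 hm2, hmul' z y _ _ h1 hb', hmul' z y _ _ ha' h3]
      refine cheval2_LD_congr (cheval2_LD_mul (h2 z y hz hy) (h4 z y hz hy)) ?_
      filter_upwards with y'
      exact hmul' z y' _ _ ha' hb' _
  refine ⟨fun l v hv => (hall l v hv hv).1, fun l v h z y hz hy => ?_⟩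
  obtain ⟨h1, h2⟩ := hall l v h h
  exact (h2 z y hz hy).2

end Pool.Agent.Lib_KF

end
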