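import Mathlib
import Pool.Agent.Lib_MP_e0d435_m.G01
import Pool.Agent.Lib_MP_e0d435_m.G05

/-!
# MP_e0d435_ag: merged library part G09

Concatenation of library files (each in its own section), only to save build time.
-/

/-! ### from `Lib_KF.HDualW` -/

section

/-! H08: the dual estimate. -/

open MeasureTheory Complex
open scoped ENNReal ContDiff ComplexConjugate

namespace Pool.Agent.Lib_KF

open GPn

namespace HDualW

section calc1

variable {E : Type} [NormedAddCommGroup E] [NormedSpace ℂ E] {W : Set E}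

/-- the product of a function smooth on `W` and a test function is a test function -/
theorem scw_mul (hW : IsOpen W) {u ψ : E → ℂ} (hu : ContDiffOn ℝ ∞ u W) (hψ : SCW W ψ) :
    SCW W (fun x => u x * ψ x) := by
  refine ⟨?_, hψ.2.1.mul_left, ?_⟩
  · rw [contDiff_iff_contDiffAt]
    intro x
    by_cases hx : x ∈ W
    · exact (hu.contDiffAt (hW.mem_nhds hx)).mul hψ.1.contDiffAt
    · have h1 : x ∉ tsupport ψ := fun h => hx (hψ.2.2 h)
      have h2 : ψ =ᶠ[nhds x] 0 := notMem_tsupport_iff_eventuallyEq.1 h1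
      have h3 : (fun x => u x * ψ x) =ᶠ[nhds x] fun _ => 0 := by
        filter_upwards [h2] with y hy
        simp [hy]
      exact contDiffAt_const.congr_of_eventuallyEq h3
  · exact (closure_mono (fun x hx => by
      simp only [Function.mem_support] at hx ⊢
      exact right_ne_zero_of_mul hx)).trans hψ.2.2

theorem scw_of_zero {u ψ : E → ℂ} (hu : ContDiff ℝ ∞ u) (hψ : SCW W ψ)
    (h : ∀ x, x ∉ tsupport ψ → u x = 0) : SCW W u := by
  have hs : tsupport u ⊆ tsupport ψ := by
    refine closure_minimal (fun x hx => ?_) (isClosed_tsupport ψ)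
    by_contra h'
    exact hx (h x h')
  exact ⟨hu, hψ.2.1.of_isClosed_subset (isClosed_tsupport u) hs, hs.trans hψ.2.2⟩

theorem contDiff_fderiv_apply {F : E → ℂ} (hF : ContDiff ℝ ∞ F) (v : E) :
    ContDiff ℝ ∞ (fun x => fderiv ℝ F x v) :=
  (hF.fderiv_right (m := ∞) (by simp)).clm_apply contDiff_const

theorem contDiff_dz {F : E → ℂ} (hF : ContDiff ℝ ∞ F) (v : E) : ContDiff ℝ ∞ (dz v F) := by
  unfold dz
  exact ((contDiff_fderiv_apply hF v).sub
    (contDiff_const.mul (contDiff_fderiv_apply hF (I • v)))).div_const 2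

theorem contDiff_dzb {F : E → ℂ} (hF : ContDiff ℝ ∞ F) (v : E) : ContDiff ℝ ∞ (dzb v F) := by
  unfold dzb
  exact ((contDiff_fderiv_apply hF v).add
    (contDiff_const.mul (contDiff_fderiv_apply hF (I • v)))).div_const 2

theorem contDiffOn_fderiv_apply (hW : IsOpen W) {F : E → ℂ} (hF : ContDiffOn ℝ ∞ F W) (v : E) :
    ContDiffOn ℝ ∞ (fun x => fderiv ℝ F x v) W :=
  (hF.fderiv_of_isOpen (m := ∞) hW (by simp)).clm_apply contDiffOn_const

theorem contDiffOn_dz (hW : IsOpen W) {F : E → ℂ} (hF : ContDiffOn ℝ ∞ F W) (v : E) :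
    ContDiffOn ℝ ∞ (dz v F) W := by
  unfold dz
  exact ((contDiffOn_fderiv_apply hW hF v).sub
    (contDiffOn_const.mul (contDiffOn_fderiv_apply hW hF (I • v)))).div_const 2

theorem fderiv_zero_off {ψ : E → ℂ} {x : E} (hx : x ∉ tsupport ψ) : fderiv ℝ ψ x = 0 := by
  have h2 : ψ =ᶠ[nhds x] fun _ => 0 := notMem_tsupport_iff_eventuallyEq.1 hx
  rw [h2.fderiv_eq]
  simp

theorem dz_zero_off {ψ : E → ℂ} {x : E} (hx : x ∉ tsupport ψ) (v : E) : dz v ψ x = 0 := by
  simp [dz, fderiv_zero_off hx]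

theorem dzb_zero_off {ψ : E → ℂ} {x : E} (hx : x ∉ tsupport ψ) (v : E) : dzb v ψ x = 0 := by
  simp [dzb, fderiv_zero_off hx]

theorem scw_dz {ψ : E → ℂ} (hψ : SCW W ψ) (v : E) : SCW W (dz v ψ) :=
  scw_of_zero (contDiff_dz hψ.1 v) hψ fun _ hx => dz_zero_off hx v

theorem scw_dzb {ψ : E → ℂ} (hψ : SCW W ψ) (v : E) : SCW W (dzb v ψ) :=
  scw_of_zero (contDiff_dzb hψ.1 v) hψ fun _ hx => dzb_zero_off hx v

theorem scw_add {u v : E → ℂ} (hu : SCW W u) (hv : SCW W v) : SCW W (fun x => u x + v x) := by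
  refine ⟨hu.1.add hv.1, hu.2.1.add hv.2.1, (tsupport_add u v).trans ?_⟩
  exact Set.union_subset hu.2.2 hv.2.2

theorem scw_neg {u : E → ℂ} (hu : SCW W u) : SCW W (fun x => - u x) :=
  scw_of_zero hu.1.neg hu fun x hx => by
    have : u x = 0 := image_eq_zero_of_notMem_tsupport hx
    simp [this]

theorem scw_sub {u v : E → ℂ} (hu : SCW W u) (hv : SCW W v) : SCW W (fun x => u x - v x) := by
  simpa [sub_eq_add_neg] using scw_add hu (scw_neg hv)

theorem scw_zero : SCW W (fun _ : E => (0 : ℂ)) := by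
  refine ⟨contDiff_const, HasCompactSupport.zero, ?_⟩
  have : tsupport (fun _ : E => (0 : ℂ)) = ∅ := by
    rw [tsupport_eq_empty_iff]
    rfl
  rw [this]
  exact Set.empty_subset _

theorem scw_sum {κ : Type*} (s : Finset κ) {F : κ → E → ℂ} (hF : ∀ j, SCW W (F j)) :
    SCW W (fun x => ∑ j ∈ s, F j x) := by
  classical
  induction s using Finset.induction_on with
  | empty => simpa using scw_zero
  | insert a s ha ih =>
    have := scw_add (hF a) ih
    simpa [Finset.sum_insert ha] using this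

/-- the operators dzb commute -/
theorem dzb_comm {F : E → ℂ} (hF : ContDiff ℝ ∞ F) (v w x : E) :
    dzb v (dzb w F) x = dzb w (dzb v F) x := by
  have hd2 : Differentiable ℝ (fderiv ℝ F) :=
    (hF.fderiv_right (m := ∞) (by simp)).differentiable (by simp)
  have key : ∀ v w : E, fderiv ℝ (fun y => fderiv ℝ F y w) x v = fderiv ℝ (fderiv ℝ F) x v w := by
    intro v w
    have h1 : HasFDerivAt (fun y => fderiv ℝ F y w)
        ((ContinuousLinearMap.apply ℝ ℂ w).comp (fderiv ℝ (fderiv ℝ F) x)) x :=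
      (ContinuousLinearMap.apply ℝ ℂ w).hasFDerivAt.comp x (hd2 x).hasFDerivAt
    rw [h1.fderiv]
    rfl
  have hsym : ∀ v w : E, fderiv ℝ (fderiv ℝ F) x v w = fderiv ℝ (fderiv ℝ F) x w v := by
    intro v w
    have := (hF.contDiffAt (x := x)).isSymmSndFDerivAt
      (by rw [minSmoothness_of_isRCLikeNormedField]; exact WithTop.coe_le_coe.2 le_top)
    exact this v w
  have hda : ∀ w : E, DifferentiableAt ℝ (fun y => fderiv ℝ F y w) x := fun w =>
    (hd2 x).clm_apply (differentiableAt_const w)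
  have expand : ∀ v w : E, fderiv ℝ (dzb w F) x v =
      (fderiv ℝ (fderiv ℝ F) x v w + I * fderiv ℝ (fderiv ℝ F) x v (I • w)) / 2 := by
    intro v w
    have h1 : HasFDerivAt (fun y => fderiv ℝ F y w) (fderiv ℝ (fun y => fderiv ℝ F y w) x) x :=
      (hda w).hasFDerivAt
    have h2 : HasFDerivAt (fun y => fderiv ℝ F y (I • w))
        (fderiv ℝ (fun y => fderiv ℝ F y (I • w)) x) x := (hda (I • w)).hasFDerivAt
    have h3 := (h1.add (h2.const_mul I)).mul_const ((2 : ℂ)⁻¹)
    have h4 : dzb w F = fun y => (fderiv ℝ F y w + I * fderiv ℝ F y (I • w)) * (2 : ℂ)⁻¹ := by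
      funext y
      simp [dzb, div_eq_mul_inv]
    have h5 : HasFDerivAt (dzb w F) ((2 : ℂ)⁻¹ • (fderiv ℝ (fun y => fderiv ℝ F y w) x +
        I • fderiv ℝ (fun y => fderiv ℝ F y (I • w)) x)) x := by
      rw [h4]
      exact h3
    rw [h5.fderiv]
    simp only [smul_apply, add_apply, smul_eq_mul, key]
    ring
  rw [dzb, dzb, expand, expand, expand, expand, hsym w v, hsym w (I • v), hsym (I • w) v,
    hsym (I • w) (I • v)]
  ring

theorem dzb_mul {u v : E → ℂ} {x : E} (hu : DifferentiableAt ℝ u x) (hv : DifferentiableAt ℝ v x)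
    (w : E) : dzb w (fun y => u y * v y) x = dzb w u x * v x + u x * dzb w v x := by
  have h1 : fderiv ℝ (fun y => u y * v y) x = u x • fderiv ℝ v x + v x • fderiv ℝ u x :=
    fderiv_fun_mul hu hv
  simp only [dzb, h1, add_apply, smul_apply, smul_eq_mul]
  ring

variable [FiniteDimensional ℂ E] [MeasurableSpace E] [BorelSpace E]

theorem integral_fderiv_zero (μ : Measure E) [μ.IsAddHaarMeasure] {F : E → ℂ}
    (hF : ContDiff ℝ ∞ F) (hc : HasCompactSupport F) (v : E) :
    ∫ x, fderiv ℝ F x v ∂μ = 0 := by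
  have : FiniteDimensional ℝ E := FiniteDimensional.complexToReal E
  have hd : Continuous (fun x => fderiv ℝ F x v) := (contDiff_fderiv_apply hF v).continuous
  have hdc : HasCompactSupport (fun x => fderiv ℝ F x v) :=
    (hc.fderiv ℝ).comp_left (g := fun L : E →L[ℝ] ℂ => L v) (by simp)
  have h := integral_mul_fderiv_eq_neg_fderiv_mul_of_integrable (μ := μ) (𝕜 := ℂ)
    (f := fun _ : E => (1 : ℂ)) (g := F) (v := v)
    (by simp) (by simpa using hd.integrable_of_hasCompactSupport hdc)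
    (by simpa using hF.continuous.integrable_of_hasCompactSupport hc)
    (fun x _ => differentiableAt_const _) (fun x _ => hF.differentiable (by simp) x)
  simpa using h

theorem integral_dzb_zero (μ : Measure E) [μ.IsAddHaarMeasure] {F : E → ℂ}
    (hF : ContDiff ℝ ∞ F) (hc : HasCompactSupport F) (v : E) :
    ∫ x, dzb v F x ∂μ = 0 := by
  have hi : ∀ w : E, Integrable (fun x => fderiv ℝ F x w) μ := fun w =>
    (contDiff_fderiv_apply hF w).continuous.integrable_of_hasCompactSupport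
      ((hc.fderiv ℝ).comp_left (g := fun L : E →L[ℝ] ℂ => L w) (by simp))
  unfold dzb
  rw [integral_div, integral_add (hi v) ((hi (I • v)).const_mul I), integral_const_mul,
    integral_fderiv_zero μ hF hc, integral_fderiv_zero μ hF hc]
  simp

/-- scalar integration by parts -/
theorem ibp_scalar (hW : IsOpen W) (μ : Measure E) [μ.IsAddHaarMeasure] {u ψ : E → ℂ}
    (hu : ContDiffOn ℝ ∞ u W) (hψ : SCW W ψ) (v : E) :
    ∫ x, u x * dzb v ψ x ∂μ = - ∫ x, dzb v u x * ψ x ∂μ := by
  have hp := scw_mul hW hu hψ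
  have h0 := integral_dzb_zero μ hp.1 hp.2.1 v
  have h1 : ∀ x, dzb v (fun x => u x * ψ x) x = dzb v u x * ψ x + u x * dzb v ψ x := by
    intro x
    by_cases hx : x ∈ W
    · exact dzb_mul ((hu.contDiffAt (hW.mem_nhds hx)).differentiableAt (by simp))
        ((hψ.1.differentiable (by simp)) x) v
    · have h1 : x ∉ tsupport ψ := fun h => hx (hψ.2.2 h)
      have h2 : ψ x = 0 := image_eq_zero_of_notMem_tsupport h1
      have h3 : x ∉ tsupport (fun x => u x * ψ x) := fun h => hx (hp.2.2 h)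
      rw [dzb_zero_off h3, dzb_zero_off h1, h2]
      simp
  have hdu : ContDiffOn ℝ ∞ (dzb v u) W := by
    unfold dzb
    exact ((contDiffOn_fderiv_apply hW hu v).add
      (contDiffOn_const.mul (contDiffOn_fderiv_apply hW hu (I • v)))).div_const 2
  have hi1 : Integrable (fun x => dzb v u x * ψ x) μ :=
    (scw_mul hW hdu hψ).1.continuous.integrable_of_hasCompactSupport (scw_mul hW hdu hψ).2.1
  have hi2 : Integrable (fun x => u x * dzb v ψ x) μ :=
    (scw_mul hW hu (scw_dzb hψ v)).1.continuous.integrable_of_hasCompactSupport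
      (scw_mul hW hu (scw_dzb hψ v)).2.1
  simp_rw [h1] at h0
  rw [integral_add hi1 hi2] at h0
  exact eq_neg_of_add_eq_zero_right h0

end calc1


section alg

variable {E : Type} [NormedAddCommGroup E] [NormedSpace ℂ E] {W : Set E} {ι : Type} [Fintype ι]
  {b : Module.Basis ι ℂ E} {D : ℕ}

theorem ip_sum_left (H : Fin D → Fin D → ℂ) (α : Fin D → ℂ) (P : Fin D → Fin D → ℂ)
    (v : Fin D → ℂ) :
    ip H (fun a => ∑ i, α i * P i a) v = ∑ i, α i * ip H (P i) v := by
  simp only [ip, Finset.mul_sum]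
  calc ∑ a, ∑ c, ∑ i, conj (v a) * H a c * (α i * P i c)
      = ∑ a, ∑ i, ∑ c, conj (v a) * H a c * (α i * P i c) :=
        Finset.sum_congr rfl fun a _ => Finset.sum_comm
    _ = ∑ i, ∑ a, ∑ c, conj (v a) * H a c * (α i * P i c) := Finset.sum_comm
    _ = _ := by
        refine Finset.sum_congr rfl fun i _ => Finset.sum_congr rfl fun a _ =>
          Finset.sum_congr rfl fun c _ => ?_
        ring

theorem ip_sum_right (H : Fin D → Fin D → ℂ) (β : Fin D → ℂ) (P : Fin D → Fin D → ℂ)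
    (u : Fin D → ℂ) :
    ip H u (fun a => ∑ i, β i * P i a) = ∑ i, conj (β i) * ip H u (P i) := by
  simp only [ip, map_sum, map_mul, Finset.mul_sum, Finset.sum_mul]
  calc ∑ a, ∑ c, ∑ i, conj (β i) * conj (P i a) * H a c * u c
      = ∑ a, ∑ i, ∑ c, conj (β i) * conj (P i a) * H a c * u c :=
        Finset.sum_congr rfl fun a _ => Finset.sum_comm
    _ = ∑ i, ∑ a, ∑ c, conj (β i) * conj (P i a) * H a c * u c := Finset.sum_comm
    _ = _ := by
        refine Finset.sum_congr rfl fun i _ => Finset.sum_congr rfl fun a _ =>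
          Finset.sum_congr rfl fun c _ => ?_
        ring

theorem ip_zero_left (H : Fin D → Fin D → ℂ) (v : Fin D → ℂ) : ip H (fun _ => 0) v = 0 := by
  simp [ip]

theorem ip_zero_right (H : Fin D → Fin D → ℂ) (v : Fin D → ℂ) : ip H v (fun _ => 0) = 0 := by
  simp [ip]

theorem ip_smul (H : Fin D → Fin D → ℂ) (t : ℂ) (u v : Fin D → ℂ) :
    ip (fun a c => t * H a c) u v = t * ip H u v := by
  simp only [ip, Finset.mul_sum]
  refine Finset.sum_congr rfl fun a _ => Finset.sum_congr rfl fun c _ => ?_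
  ring

theorem ip_sum_left' {κ : Type*} (s : Finset κ) (H : Fin D → Fin D → ℂ) (F : κ → Fin D → ℂ)
    (v : Fin D → ℂ) :
    ip H (fun a => ∑ k ∈ s, F k a) v = ∑ k ∈ s, ip H (F k) v := by
  simp only [ip, Finset.mul_sum]
  calc ∑ a, ∑ c, ∑ k ∈ s, conj (v a) * H a c * F k c
      = ∑ a, ∑ k ∈ s, ∑ c, conj (v a) * H a c * F k c :=
        Finset.sum_congr rfl fun a _ => Finset.sum_comm
    _ = _ := Finset.sum_comm

theorem ip_sum_right' {κ : Type*} (s : Finset κ) (H : Fin D → Fin D → ℂ) (F : κ → Fin D → ℂ)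
    (u : Fin D → ℂ) :
    ip H u (fun a => ∑ k ∈ s, F k a) = ∑ k ∈ s, ip H u (F k) := by
  simp only [ip, map_sum, Finset.sum_mul]
  calc ∑ a, ∑ c, ∑ k ∈ s, conj (F k a) * H a c * u c
      = ∑ a, ∑ k ∈ s, ∑ c, conj (F k a) * H a c * u c :=
        Finset.sum_congr rfl fun a _ => Finset.sum_comm
    _ = _ := Finset.sum_comm

/-- a frame at one point -/
structure FrameAt (H : Fin D → Fin D → ℂ) (P Q : Fin D → Fin D → ℂ) : Prop where
  orth : ∀ i j, ip H (P i) (P j) = if i = j then 1 else 0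
  rec' : ∀ u : Fin D → ℂ, ∀ a, ∑ i, (∑ c, Q i c * u c) * P i a = u a

theorem FrameAt.QP {H P Q : Fin D → Fin D → ℂ} (h : FrameAt H P Q) (z : Fin D → ℂ) (i : Fin D) :
    ∑ c, Q i c * (∑ j, z j * P j c) = z i := by
  set u : Fin D → ℂ := fun a => ∑ j, z j * P j a with hu
  have h1 : ip H u (P i) = z i := by
    rw [hu, ip_sum_left]
    simp [h.orth]
  have h2 : u = fun a => ∑ j, (∑ c, Q j c * u c) * P j a := by
    funext a
    exact (h.rec' u a).symm
  have h3 : ip H u (P i) = ∑ c, Q i c * u c := by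
    conv_lhs => rw [h2]
    rw [ip_sum_left]
    simp [h.orth]
  exact h3.symm.trans h1

theorem FrameAt.ipQ {H P Q : Fin D → Fin D → ℂ} (h : FrameAt H P Q) (u v : Fin D → ℂ) :
    ip H u v = ∑ i, (∑ c, Q i c * u c) * conj (∑ c, Q i c * v c) := by
  have h2 : ∀ u : Fin D → ℂ, u = fun a => ∑ j, (∑ c, Q j c * u c) * P j a := by
    intro u
    funext a
    exact (h.rec' u a).symm
  conv_lhs => rw [h2 u, h2 v]
  rw [ip_sum_left]
  refine Finset.sum_congr rfl fun i _ => ?_
  rw [ip_sum_right]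
  simp [h.orth]

theorem FrameAt.nsqQ {H P Q : Fin D → Fin D → ℂ} (h : FrameAt H P Q) (u : Fin D → ℂ) :
    (ip H u u).re = ∑ i, ‖∑ c, Q i c * u c‖ ^ 2 := by
  rw [h.ipQ, Complex.re_sum]
  refine Finset.sum_congr rfl fun i _ => ?_
  rw [Complex.mul_conj, Complex.ofReal_re, Complex.normSq_eq_norm_sq]

theorem FrameAt.nonneg {H P Q : Fin D → Fin D → ℂ} (h : FrameAt H P Q) (u : Fin D → ℂ) :
    0 ≤ (ip H u u).re := by
  rw [h.nsqQ]
  positivity

/-- Cauchy-Schwarz -/
theorem FrameAt.cs {H P Q : Fin D → Fin D → ℂ} (h : FrameAt H P Q) (u v : Fin D → ℂ) :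
    ‖ip H u v‖ ^ 2 ≤ (ip H u u).re * (ip H v v).re := by
  rw [h.nsqQ, h.nsqQ, h.ipQ]
  calc ‖∑ i, (∑ c, Q i c * u c) * conj (∑ c, Q i c * v c)‖ ^ 2
      ≤ (∑ i, ‖∑ c, Q i c * u c‖ * ‖∑ c, Q i c * v c‖) ^ 2 := by
        gcongr
        refine (norm_sum_le _ _).trans (le_of_eq (Finset.sum_congr rfl fun i _ => ?_))
        rw [norm_mul, RCLike.norm_conj]
    _ ≤ _ := Finset.sum_mul_sq_le_sq_mul_sq _ _ _

theorem cont_nsq (M : HMet W b D) : ContinuousOn (fun p : E × (Fin D → ℂ) => M.nsq p.1 p.2)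
    (W ×ˢ Set.univ) := by
  unfold HMet.nsq ip
  refine Complex.continuous_re.comp_continuousOn ?_
  refine continuousOn_finsetSum _ fun a _ => continuousOn_finsetSum _ fun c _ => ?_
  have h1 : ContinuousOn (fun p : E × (Fin D → ℂ) => M.H p.1 a c) (W ×ˢ Set.univ) :=
    (M.smH a c).continuousOn.comp continuousOn_fst fun p hp => hp.1
  have h2 : Continuous (fun p : E × (Fin D → ℂ) => conj (p.2 a)) :=
    Complex.continuous_conj.comp ((continuous_apply a).comp continuous_snd)
  have h3 : Continuous (fun p : E × (Fin D → ℂ) => p.2 c) :=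
    (continuous_apply c).comp continuous_snd
  exact (h2.continuousOn.mul h1).mul h3.continuousOn

theorem nsq_smul (M : HMet W b D) (x : E) (t : ℝ) (u : Fin D → ℂ) :
    M.nsq x (fun a => (t : ℂ) * u a) = t ^ 2 * M.nsq x u := by
  have : ip (M.H x) (fun a => (t : ℂ) * u a) (fun a => (t : ℂ) * u a) =
      ((t ^ 2 : ℝ) : ℂ) * ip (M.H x) u u := by
    simp only [ip, map_mul, conj_ofReal, Finset.mul_sum]
    refine Finset.sum_congr rfl fun a _ => Finset.sum_congr rfl fun c _ => ?_
    push_cast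
    ring
  rw [HMet.nsq, this, Complex.re_ofReal_mul, HMet.nsq]

/-- the metric is bounded below on compact sets -/
theorem bdd_below (M : HMet W b D) {K : Set E} (hK : IsCompact K) (hKW : K ⊆ W) :
    ∃ C : ℝ, 0 ≤ C ∧ ∀ x ∈ K, ∀ u : Fin D → ℂ, ∀ a, ‖u a‖ ^ 2 ≤ C * M.nsq x u := by
  have hS : IsCompact (K ×ˢ Metric.sphere (0 : Fin D → ℂ) 1) :=
    hK.prod (isCompact_sphere _ _)
  rcases (K ×ˢ Metric.sphere (0 : Fin D → ℂ) 1).eq_empty_or_nonempty with he | hne
  · refine ⟨0, le_rfl, fun x hx u a => ?_⟩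
    by_cases hu : u = 0
    · simp [hu]
    · exfalso
      have hn : ‖u‖ ≠ 0 := norm_ne_zero_iff.2 hu
      have : ((x, (‖u‖⁻¹ : ℝ) • u) : E × (Fin D → ℂ)) ∈ K ×ˢ Metric.sphere (0 : Fin D → ℂ) 1 := by
        refine ⟨hx, ?_⟩
        rw [mem_sphere_zero_iff_norm, norm_smul, norm_inv, norm_norm, inv_mul_cancel₀ hn]
      rw [he] at this
      exact this
  · obtain ⟨p, hp, hmin⟩ := hS.exists_isMinOn hne
      ((cont_nsq M).mono (Set.prod_mono hKW (Set.subset_univ _)))
    have hp2 : p.2 ≠ 0 := by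
      intro h0
      have h1 := hp.2
      rw [mem_sphere_zero_iff_norm, h0, norm_zero] at h1
      exact zero_ne_one h1
    have hm : 0 < M.nsq p.1 p.2 := M.pos p.1 (hKW hp.1) p.2 hp2
    refine ⟨(M.nsq p.1 p.2)⁻¹, inv_nonneg.2 hm.le, fun x hx u a => ?_⟩
    by_cases hu : u = 0
    · subst hu
      simp [HMet.nsq, ip]
    · have hn : 0 < ‖u‖ := norm_pos_iff.2 hu
      have hmem : ((x, fun a => ((‖u‖⁻¹ : ℝ) : ℂ) * u a) : E × (Fin D → ℂ)) ∈
          K ×ˢ Metric.sphere (0 : Fin D → ℂ) 1 := by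
        refine ⟨hx, ?_⟩
        have h2 : (fun a => ((‖u‖⁻¹ : ℝ) : ℂ) * u a) = (‖u‖⁻¹ : ℝ) • u := by
          funext a
          simp
        rw [mem_sphere_zero_iff_norm, h2, norm_smul, norm_inv, norm_norm, inv_mul_cancel₀ hn.ne']
      have h1 : M.nsq p.1 p.2 ≤ M.nsq x (fun a => ((‖u‖⁻¹ : ℝ) : ℂ) * u a) :=
        isMinOn_iff.1 hmin (x, fun a => ((‖u‖⁻¹ : ℝ) : ℂ) * u a) hmem
      rw [nsq_smul] at h1
      have h3 : M.nsq p.1 p.2 * ‖u‖ ^ 2 ≤ M.nsq x u := by
        have h4 := mul_le_mul_of_nonneg_right h1 (sq_nonneg ‖u‖)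
        have h5 : (‖u‖⁻¹) ^ 2 * M.nsq x u * ‖u‖ ^ 2 = M.nsq x u := by
          field_simp
        rwa [h5] at h4
      calc ‖u a‖ ^ 2 ≤ ‖u‖ ^ 2 := by
            gcongr
            exact norm_le_pi_norm u a
        _ ≤ (M.nsq p.1 p.2)⁻¹ * M.nsq x u := by
            rw [inv_mul_eq_div, le_div_iff₀ hm]
            linarith

end alg

section hilb

variable {E : Type} [NormedAddCommGroup E] [NormedSpace ℂ E]
  [MeasurableSpace E] [BorelSpace E] {W : Set E} {ι : Type} [Fintype ι]
  {b : Module.Basis ι ℂ E} {D : ℕ}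

/-- the Hilbert space -/
abbrev HH (ν : Measure E) (κ : Type) [Fintype κ] := PiLp 2 (fun _ : κ => Lp ℂ 2 ν)

variable {κ : Type} [Fintype κ]

/-- element of the Hilbert space from a family of functions -/
noncomputable def mk (ν : Measure E) (u : κ → E → ℂ) (hu : ∀ j, MemLp (u j) 2 ν) :
    HH ν κ := WithLp.toLp 2 (fun j => (hu j).toLp (u j))

theorem mk_apply (ν : Measure E) (u : κ → E → ℂ) (hu : ∀ j, MemLp (u j) 2 ν) (j : κ) :
    (mk ν u hu) j = (hu j).toLp (u j) := rfl

theorem inner_toLp_left (ν : Measure E) {u : E → ℂ} (hu : MemLp u 2 ν) (g : Lp ℂ 2 ν) :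
    inner ℂ (hu.toLp u) g = ∫ x, g x * conj (u x) ∂ν := by
  rw [MeasureTheory.L2.inner_def]
  refine integral_congr_ae ?_
  filter_upwards [hu.coeFn_toLp] with x hx
  rw [hx, RCLike.inner_apply]

theorem inner_mk_left (ν : Measure E) (u : κ → E → ℂ) (hu : ∀ j, MemLp (u j) 2 ν)
    (g : HH ν κ) :
    inner ℂ (mk ν u hu) g = ∑ j, ∫ x, g j x * conj (u j x) ∂ν := by
  rw [PiLp.inner_apply]
  refine Finset.sum_congr rfl fun j _ => ?_
  rw [mk_apply, inner_toLp_left]

theorem int_mul_conj (ν : Measure E) {u v : E → ℂ} (hu : MemLp u 2 ν) (hv : MemLp v 2 ν) :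
    Integrable (fun x => u x * conj (v x)) ν := by
  have := L2.integrable_inner (𝕜 := ℂ) (hv.toLp v) (hu.toLp u)
  refine this.congr ?_
  filter_upwards [hu.coeFn_toLp, hv.coeFn_toLp] with x h1 h2
  rw [h1, h2, RCLike.inner_apply]

variable (μ : Measure E) [IsFiniteMeasureOnCompacts μ]

/-- `P ψ` is square integrable -/
theorem memLp_P (N : HMet W b D) (hW : IsOpen W) {P Q : E → Fin D → Fin D → ℂ}
    (hP : ∀ i a, Measurable fun x => P x i a)
    (hPQ : ∀ x ∈ W, FrameAt (N.H x) (P x) (Q x)) {ψ : E → ℂ} (hψ : SCW W ψ) (i a : Fin D) :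
    MemLp (fun x => conj (P x i a * ψ x)) 2 (μ.restrict W) := by
  obtain ⟨C, hC0, hC⟩ := bdd_below N hψ.2.1 hψ.2.2
  have h0 : MemLp ψ 2 μ := hψ.1.continuous.memLp_of_hasCompactSupport hψ.2.1
  have h1 : MemLp ψ 2 (μ.restrict W) := h0.restrict W
  refine h1.of_le_mul (c := Real.sqrt C) ?_ ?_
  · have h2 : Measurable fun x => conj (P x i a * ψ x) :=
      Complex.continuous_conj.measurable.comp ((hP i a).mul hψ.1.continuous.measurable)
    exact h2.aestronglyMeasurable
  · refine (ae_restrict_iff' hW.measurableSet).2 (Filter.Eventually.of_forall fun x hx => ?_)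
    rw [RCLike.norm_conj, norm_mul]
    by_cases hxs : x ∈ tsupport ψ
    · gcongr
      refine Real.le_sqrt_of_sq_le ?_
      have h2 := hC x hxs (P x i) a
      have h3 : N.nsq x (P x i) = 1 := by
        rw [HMet.nsq, (hPQ x hx).orth]
        simp
      rwa [h3, mul_one] at h2
    · have : ψ x = 0 := image_eq_zero_of_notMem_tsupport hxs
      simp [this]

/-- components in the frame -/
def comp (Q : E → Fin D → Fin D → ℂ) (F : Fin D → E → ℂ) (i : Fin D) (x : E) : ℂ :=
  ∑ c, Q x i c * F c x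

omit [IsFiniteMeasureOnCompacts μ] in
theorem memLp_comp (N : HMet W b D) (hW : IsOpen W) {P Q : E → Fin D → Fin D → ℂ}
    (hQ : ∀ i a, Measurable fun x => Q x i a)
    (hPQ : ∀ x ∈ W, FrameAt (N.H x) (P x) (Q x)) {F : Fin D → E → ℂ}
    (hF : ∀ a, AEStronglyMeasurable (F a) (μ.restrict W))
    (hF2 : ∫⁻ x in W, ENNReal.ofReal (N.nsq x (fun a => F a x)) ∂μ ≠ ⊤) (i : Fin D) :
    MemLp (comp Q F i) 2 (μ.restrict W) := by
  have hm : AEStronglyMeasurable (comp Q F i) (μ.restrict W) := by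
    unfold comp
    exact Finset.aestronglyMeasurable_fun_sum _ fun c _ =>
      (hQ i c).aestronglyMeasurable.mul (hF c)
  rw [memLp_two_iff_integrable_sq_norm hm]
  refine ⟨hm.norm.pow 2, ?_⟩
  refine lt_of_le_of_lt ?_ (lt_top_iff_ne_top.2 hF2)
  refine setLIntegral_mono' hW.measurableSet fun x hx => ?_
  rw [Real.enorm_eq_ofReal (by positivity)]
  refine ENNReal.ofReal_le_ofReal ?_
  rw [HMet.nsq, (hPQ x hx).nsqQ]
  exact Finset.single_le_sum (f := fun i => ‖∑ c, Q x i c * F c x‖ ^ 2)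
    (fun i _ => by positivity) (Finset.mem_univ i)

omit [IsFiniteMeasureOnCompacts μ] in
theorem int_ip (N : HMet W b D) (hW : IsOpen W) {P Q : E → Fin D → Fin D → ℂ}
    (hQ : ∀ i a, Measurable fun x => Q x i a)
    (hPQ : ∀ x ∈ W, FrameAt (N.H x) (P x) (Q x)) {F G : Fin D → E → ℂ}
    (hF : ∀ a, AEStronglyMeasurable (F a) (μ.restrict W))
    (hF2 : ∫⁻ x in W, ENNReal.ofReal (N.nsq x (fun a => F a x)) ∂μ ≠ ⊤)
    (hG : ∀ a, AEStronglyMeasurable (G a) (μ.restrict W))
    (hG2 : ∫⁻ x in W, ENNReal.ofReal (N.nsq x (fun a => G a x)) ∂μ ≠ ⊤) :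
    IntegrableOn (fun x => ip (N.H x) (fun a => F a x) (fun a => G a x)) W μ := by
  have h1 : Integrable (fun x => ∑ i, comp Q F i x * conj (comp Q G i x)) (μ.restrict W) :=
    integrable_finsetSum _ fun i _ => int_mul_conj _ (memLp_comp μ N hW hQ hPQ hF hF2 i)
      (memLp_comp μ N hW hQ hPQ hG hG2 i)
  refine h1.congr ?_
  refine (ae_restrict_iff' hW.measurableSet).2 (Filter.Eventually.of_forall fun x hx => ?_)
  simp only [comp]
  rw [(hPQ x hx).ipQ]

omit [IsFiniteMeasureOnCompacts μ] in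
theorem integral_ip (N : HMet W b D) (hW : IsOpen W) {P Q : E → Fin D → Fin D → ℂ}
    (hQ : ∀ i a, Measurable fun x => Q x i a)
    (hPQ : ∀ x ∈ W, FrameAt (N.H x) (P x) (Q x)) {F G : Fin D → E → ℂ}
    (hF : ∀ a, AEStronglyMeasurable (F a) (μ.restrict W))
    (hF2 : ∫⁻ x in W, ENNReal.ofReal (N.nsq x (fun a => F a x)) ∂μ ≠ ⊤)
    (hG : ∀ a, AEStronglyMeasurable (G a) (μ.restrict W))
    (hG2 : ∫⁻ x in W, ENNReal.ofReal (N.nsq x (fun a => G a x)) ∂μ ≠ ⊤) :
    ∫ x in W, ip (N.H x) (fun a => F a x) (fun a => G a x) ∂μ =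
      ∑ i, ∫ x in W, comp Q F i x * conj (comp Q G i x) ∂μ := by
  rw [← integral_finsetSum _ fun i _ => int_mul_conj _ (memLp_comp μ N hW hQ hPQ hF hF2 i)
      (memLp_comp μ N hW hQ hPQ hG hG2 i)]
  refine setIntegral_congr_fun hW.measurableSet fun x hx => ?_
  simp only [comp]
  rw [(hPQ x hx).ipQ]

/-- the functional `h ↦ ∫ h_{k a} ψ` -/
noncomputable def TT [DecidableEq ι] (N : HMet W b D) (hW : IsOpen W)
    {P Q : E → Fin D → Fin D → ℂ}
    (hP : ∀ i a, Measurable fun x => P x i a)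
    (hPQ : ∀ x ∈ W, FrameAt (N.H x) (P x) (Q x)) {ψ : E → ℂ} (hψ : SCW W ψ) (k : ι)
    (a : Fin D) : HH (μ.restrict W) (ι × Fin D) :=
  mk (μ.restrict W) (fun p x => if p.1 = k then conj (P x p.2 a * ψ x) else 0) (by
    intro p
    by_cases h : p.1 = k
    · simpa [h] using memLp_P μ N hW hP hPQ hψ p.2 a
    · simp [h])

/-- a family of functions from an element of the Hilbert space -/
noncomputable def rc (P : E → Fin D → Fin D → ℂ) {ν : Measure E} (h : HH ν (ι × Fin D)) (k : ι)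
    (a : Fin D) (x : E) : ℂ := ∑ i, h (k, i) x * P x i a

theorem inner_TT [DecidableEq ι] (N : HMet W b D) (hW : IsOpen W)
    {P Q : E → Fin D → Fin D → ℂ}
    (hP : ∀ i a, Measurable fun x => P x i a)
    (hPQ : ∀ x ∈ W, FrameAt (N.H x) (P x) (Q x)) {ψ : E → ℂ} (hψ : SCW W ψ) (k : ι)
    (a : Fin D) (h : HH (μ.restrict W) (ι × Fin D)) :
    inner ℂ (TT μ N hW hP hPQ hψ k a) h = ∫ x, rc P h k a x * ψ x ∂μ := by
  have h1 : ∫ x, rc P h k a x * ψ x ∂μ = ∫ x in W, rc P h k a x * ψ x ∂μ := by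
    refine (setIntegral_eq_integral_of_forall_compl_eq_zero fun x hx => ?_).symm
    have : ψ x = 0 := image_eq_zero_of_notMem_tsupport fun h => hx (hψ.2.2 h)
    rw [this, mul_zero]
  rw [h1, TT, inner_mk_left, Fintype.sum_prod_type, Finset.sum_eq_single k]
  · have h2 : ∀ i, Integrable (fun x => h (k, i) x * conj (conj (P x i a * ψ x)))
        (μ.restrict W) := fun i =>
      int_mul_conj _ (Lp.memLp _) (memLp_P μ N hW hP hPQ hψ i a)
    simp only [if_true]
    rw [← integral_finsetSum _ fun i _ => h2 i]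
    refine integral_congr_ae (Filter.Eventually.of_forall fun x => ?_)
    simp only [rc, Finset.sum_mul, RCLike.conj_conj, Complex.conj_conj]
    refine Finset.sum_congr rfl fun i _ => ?_
    ring
  · intro j _ hj
    refine Finset.sum_eq_zero fun i _ => ?_
    simp [hj]
  · intro h
    exact absurd (Finset.mem_univ k) h

/-- the closed subspace of weakly closed forms -/
noncomputable def KK [DecidableEq ι] (N : HMet W b D) (hW : IsOpen W)
    {P Q : E → Fin D → Fin D → ℂ}
    (hP : ∀ i a, Measurable fun x => P x i a)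
    (hPQ : ∀ x ∈ W, FrameAt (N.H x) (P x) (Q x)) :
    Submodule ℂ (HH (μ.restrict W) (ι × Fin D)) :=
  (Submodule.span ℂ {T | ∃ j k a, ∃ ψ : E → ℂ, ∃ h : SCW W ψ,
    T = TT μ N hW hP hPQ (scw_dzb h (b j)) k a - TT μ N hW hP hPQ (scw_dzb h (b k)) j a})ᗮ

theorem mem_KK [DecidableEq ι] (N : HMet W b D) (hW : IsOpen W)
    {P Q : E → Fin D → Fin D → ℂ}
    (hP : ∀ i a, Measurable fun x => P x i a)
    (hPQ : ∀ x ∈ W, FrameAt (N.H x) (P x) (Q x)) (h : HH (μ.restrict W) (ι × Fin D)) :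
    h ∈ KK μ N hW hP hPQ ↔ WeakClosed W μ b (rc P h) := by
  rw [KK, Submodule.mem_orthogonal]
  constructor
  · intro H j k a ψ hψ
    have := H _ (Submodule.subset_span ⟨j, k, a, ψ, hψ, rfl⟩)
    rw [inner_sub_left, inner_TT, inner_TT] at this
    exact sub_eq_zero.1 this
  · intro H u hu
    induction hu using Submodule.span_induction with
    | mem x hx =>
      obtain ⟨j, k, a, ψ, hψ, rfl⟩ := hx
      rw [inner_sub_left, inner_TT, inner_TT]
      exact sub_eq_zero.2 (H j k a ψ hψ)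
    | zero => exact inner_zero_left _
    | add x y _ _ hx hy => rw [inner_add_left, hx, hy, add_zero]
    | smul a x _ hx => rw [inner_smul_left, hx, mul_zero]

/-- orthogonal projection onto closed forms -/
theorem proj (N : HMet W b D) (hW : IsOpen W) (F : ι → Fin D → E → ℂ)
    (hF : ∀ k a, AEStronglyMeasurable (F k a) (μ.restrict W))
    (hF2 : ∀ k, ∫⁻ x in W, ENNReal.ofReal (N.nsq x (fun a => F k a x)) ∂μ ≠ ⊤) :
    ∃ g : ι → Fin D → E → ℂ, (∀ k a, AEStronglyMeasurable (g k a) (μ.restrict W)) ∧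
      (∀ k, ∫⁻ x in W, ENNReal.ofReal (N.nsq x (fun a => g k a x)) ∂μ ≠ ⊤) ∧
      WeakClosed W μ b g ∧
      ∀ v : ι → Fin D → E → ℂ, (∀ k a, AEStronglyMeasurable (v k a) (μ.restrict W)) →
        (∀ k, ∫⁻ x in W, ENNReal.ofReal (N.nsq x (fun a => v k a x)) ∂μ ≠ ⊤) →
        WeakClosed W μ b v →
        ∑ k, ∫ x in W, ip (N.H x) (fun a => v k a x) (fun a => F k a x) ∂μ =
        ∑ k, ∫ x in W, ip (N.H x) (fun a => v k a x) (fun a => g k a x) ∂μ := by
  classical
  obtain ⟨P, Q, hP, hQ, h1, h2, h3⟩ := N.exists_frame hW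
  have hPQ : ∀ x ∈ W, FrameAt (N.H x) (P x) (Q x) := fun x hx => ⟨h1 x hx, h2 x hx⟩
  have hFL : ∀ p : ι × Fin D, MemLp (comp Q (F p.1) p.2) 2 (μ.restrict W) := fun p =>
    memLp_comp μ N hW hQ hPQ (hF p.1) (hF2 p.1) p.2
  set A : HH (μ.restrict W) (ι × Fin D) :=
    mk (μ.restrict W) (fun p : ι × Fin D => comp Q (F p.1) p.2) hFL with hA
  have hKc : (KK μ N hW hP hPQ).HasOrthogonalProjection := by
    unfold KK
    infer_instance
  obtain ⟨y, hy, z, hz, hyz⟩ := (KK μ N hW hP hPQ).exists_add_mem_mem_orthogonal A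
  have hym : ∀ p, StronglyMeasurable (y p : E → ℂ) := fun p => Lp.stronglyMeasurable (y p)
  have hgm : ∀ k a, AEStronglyMeasurable (rc P y k a) (μ.restrict W) := by
    intro k a
    unfold rc
    exact Finset.aestronglyMeasurable_fun_sum _ fun i _ =>
      (hym (k, i)).aestronglyMeasurable.mul (hP i a).aestronglyMeasurable
  have hcomp : ∀ x ∈ W, ∀ k i, comp Q (rc P y k) i x = y (k, i) x := by
    intro x hx k i
    exact (hPQ x hx).QP (fun i => y (k, i) x) i
  have hg2 : ∀ k, ∫⁻ x in W, ENNReal.ofReal (N.nsq x (fun a => rc P y k a x)) ∂μ ≠ ⊤ := by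
    intro k
    have h4 : Integrable (fun x => ∑ i, ‖y (k, i) x‖ ^ 2) (μ.restrict W) :=
      integrable_finsetSum _ fun i _ => (Lp.memLp (y (k, i))).integrable_norm_pow (by norm_num)
    have h5 := h4.lintegral_lt_top.ne
    refine (lt_of_le_of_lt ?_ (lt_top_iff_ne_top.2 h5)).ne
    refine setLIntegral_mono' hW.measurableSet fun x hx => ?_
    refine ENNReal.ofReal_le_ofReal (le_of_eq ?_)
    rw [HMet.nsq, (hPQ x hx).nsqQ]
    refine Finset.sum_congr rfl fun i _ => ?_
    have := hcomp x hx k i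
    rw [comp] at this
    rw [this]
  refine ⟨rc P y, hgm, hg2, (mem_KK μ N hW hP hPQ y).1 hy, ?_⟩
  intro v hv hv2 hvcl
  have hvL : ∀ p : ι × Fin D, MemLp (comp Q (v p.1) p.2) 2 (μ.restrict W) := fun p =>
    memLp_comp μ N hW hQ hPQ (hv p.1) (hv2 p.1) p.2
  set V : HH (μ.restrict W) (ι × Fin D) :=
    mk (μ.restrict W) (fun p : ι × Fin D => comp Q (v p.1) p.2) hvL with hV
  have hVK : V ∈ KK μ N hW hP hPQ := by
    rw [mem_KK]
    intro j k a ψ hψ
    have h6 : ∀ k a, ∀ φ : E → ℂ, SCW W φ →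
        ∫ x, rc P V k a x * φ x ∂μ = ∫ x, v k a x * φ x ∂μ := by
      intro k a φ hφ
      have h7 : ∀ G : E → ℂ, ∫ x, G x * φ x ∂μ = ∫ x in W, G x * φ x ∂μ := by
        intro G
        refine (setIntegral_eq_integral_of_forall_compl_eq_zero fun x hx => ?_).symm
        have : φ x = 0 := image_eq_zero_of_notMem_tsupport fun h => hx (hφ.2.2 h)
        rw [this, mul_zero]
      rw [h7, h7]
      refine integral_congr_ae ?_
      have h8 : ∀ᵐ x ∂(μ.restrict W), ∀ i, V (k, i) x = comp Q (v k) i x := by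
        rw [MeasureTheory.ae_all_iff]
        intro i
        exact (hvL (k, i)).coeFn_toLp
      filter_upwards [h8, ae_restrict_mem hW.measurableSet] with x hx hxW
      have : rc P V k a x = v k a x := by
        unfold rc
        simp only [hx]
        exact (hPQ x hxW).rec' (fun c => v k c x) a
      rw [this]
    rw [h6 k a _ (scw_dzb hψ (b j)), h6 j a _ (scw_dzb hψ (b k))]
    exact hvcl j k a ψ hψ
  have hin : inner ℂ A V = inner ℂ y V := by
    rw [hyz, inner_add_left, Submodule.inner_left_of_mem_orthogonal hVK hz, add_zero]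
  have hl : inner ℂ A V =
      ∑ k, ∫ x in W, ip (N.H x) (fun a => v k a x) (fun a => F k a x) ∂μ := by
    rw [hA, inner_mk_left, Fintype.sum_prod_type]
    refine Finset.sum_congr rfl fun k _ => ?_
    rw [integral_ip μ N hW hQ hPQ (hv k) (hv2 k) (hF k) (hF2 k)]
    refine Finset.sum_congr rfl fun i _ => ?_
    refine integral_congr_ae ?_
    filter_upwards [(hvL (k, i)).coeFn_toLp] with x hx
    rw [hV, mk_apply, hx]
  have hr : inner ℂ y V =
      ∑ k, ∫ x in W, ip (N.H x) (fun a => v k a x) (fun a => rc P y k a x) ∂μ := by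
    rw [PiLp.inner_apply, Fintype.sum_prod_type]
    refine Finset.sum_congr rfl fun k _ => ?_
    rw [integral_ip μ N hW hQ hPQ (hv k) (hv2 k) (hgm k) (hg2 k)]
    refine Finset.sum_congr rfl fun i _ => ?_
    rw [MeasureTheory.L2.inner_def]
    refine integral_congr_ae ?_
    filter_upwards [(hvL (k, i)).coeFn_toLp, ae_restrict_mem hW.measurableSet] with x hx hxW
    rw [RCLike.inner_apply, hcomp x hxW, hV, mk_apply, hx]
  rw [← hl, ← hr, hin]

end hilb

section main

variable {E : Type} [NormedAddCommGroup E] [NormedSpace ℂ E] [FiniteDimensional ℂ E]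
  [MeasurableSpace E] [BorelSpace E] {W : Set E} {ι : Type} [Fintype ι]
  {b : Module.Basis ι ℂ E} {D : ℕ}

omit [FiniteDimensional ℂ E] [MeasurableSpace E] [BorelSpace E] in
theorem contDiffOn_conj {v : E → ℂ} (hv : ContDiffOn ℝ ∞ v W) :
    ContDiffOn ℝ ∞ (fun x => conj (v x)) W :=
  Complex.conjCLE.contDiff.comp_contDiffOn hv

omit [FiniteDimensional ℂ E] [MeasurableSpace E] [BorelSpace E] in
theorem scw_ip (N : HMet W b D) (hW : IsOpen W) {u v : Fin D → E → ℂ}
    (hu : ∀ a, SCW W (u a)) (hv : ∀ a, ContDiffOn ℝ ∞ (v a) W) :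
    SCW W (fun x => ip (N.H x) (fun a => u a x) (fun a => v a x)) := by
  unfold ip
  refine scw_sum _ fun a => scw_sum _ fun c => ?_
  exact scw_mul hW ((contDiffOn_conj (hv a)).mul (N.smH a c)) (hu c)

omit [FiniteDimensional ℂ E] [MeasurableSpace E] [BorelSpace E] in
theorem nsq_nonneg (N : HMet W b D) {x : E} (hx : x ∈ W) (u : Fin D → ℂ) : 0 ≤ N.nsq x u := by
  by_cases hu : u = 0
  · subst hu
    simp [HMet.nsq, ip]
  · exact (N.pos x hx u hu).le

omit [FiniteDimensional ℂ E] [MeasurableSpace E] [BorelSpace E] in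
theorem zero_off {u : Fin D → E → ℂ} (hu : ∀ a, SCW W (u a)) {x : E} (hx : x ∉ W) :
    (fun a => u a x) = fun _ => 0 := by
  funext a
  exact image_eq_zero_of_notMem_tsupport fun h => hx ((hu a).2.2 h)

theorem int_nsq (N : HMet W b D) (hW : IsOpen W) (μ : Measure E) [μ.IsAddHaarMeasure]
    {u : Fin D → E → ℂ} (hu : ∀ a, SCW W (u a)) :
    Integrable (fun x => N.nsq x (fun a => u a x)) μ := by
  have h1 := scw_ip N hW hu fun a => (hu a).1.contDiffOn
  exact (Complex.continuous_re.comp h1.1.continuous).integrable_of_hasCompactSupport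
    (h1.2.1.comp_left Complex.zero_re)

theorem lint_nsq (N : HMet W b D) (hW : IsOpen W) (μ : Measure E) [μ.IsAddHaarMeasure]
    {u : Fin D → E → ℂ} (hu : ∀ a, SCW W (u a)) :
    ∫⁻ x in W, ENNReal.ofReal (N.nsq x (fun a => u a x)) ∂μ ≠ ⊤ :=
  (int_nsq N hW μ hu).integrableOn.lintegral_lt_top.ne

/-- `N.ch` preserves test functions -/
theorem scw_ch (N : HMet W b D) (hW : IsOpen W) (k : ι) {u : Fin D → E → ℂ}
    (hu : ∀ a, SCW W (u a)) (a : Fin D) : SCW W (fun x => N.ch k u x a) := by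
  unfold HMet.ch
  exact scw_add (scw_dz (hu a) _) (scw_sum _ fun c => scw_mul hW (N.smA k a c) (hu c))

theorem setInt_eq (μ : Measure E) {G : E → ℂ} (h : ∀ x, x ∉ W → G x = 0) :
    ∫ x in W, G x ∂μ = ∫ x, G x ∂μ :=
  setIntegral_eq_integral_of_forall_compl_eq_zero h

theorem closed_dzb (μ : Measure E) [μ.IsAddHaarMeasure] (hW : IsOpen W) {w : Fin D → E → ℂ}
    (hw : ∀ a, SCW W (w a)) : WeakClosed W μ b (fun k a => dzb (b k) (w a)) := by
  intro j k a ψ hψ
  rw [ibp_scalar hW μ (contDiff_dzb (hw a).1 _).contDiffOn hψ,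
    ibp_scalar hW μ (contDiff_dzb (hw a).1 _).contDiffOn hψ]
  simp_rw [dzb_comm (hw a).1 (b j) (b k)]

theorem closed_single (μ : Measure E) [μ.IsAddHaarMeasure] (hW : IsOpen W) [DecidableEq ι]
    (k₀ : ι) (v : Fin D → E → ℂ) (hv : ∀ a, ContDiffOn ℝ ∞ (v a) W)
    (hvcl : ∀ k, k ≠ k₀ → ∀ a, ∀ x ∈ W, dzb (b k) (v a) x = 0) :
    WeakClosed W μ b (fun k a x => if k = k₀ then v a x else 0) := by
  have hz : ∀ j, j ≠ k₀ → ∀ a, ∀ ψ : E → ℂ, SCW W ψ → ∫ x, v a x * dzb (b j) ψ x ∂μ = 0 := by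
    intro j hj a ψ hψ
    rw [ibp_scalar hW μ (hv a) hψ]
    have : ∀ x, dzb (b j) (v a) x * ψ x = 0 := by
      intro x
      by_cases hx : x ∈ W
      · rw [hvcl j hj a x hx, zero_mul]
      · have : ψ x = 0 := image_eq_zero_of_notMem_tsupport fun h => hx (hψ.2.2 h)
        rw [this, mul_zero]
    simp [this]
  intro j k a ψ hψ
  by_cases hk : k = k₀
  · by_cases hj : j = k₀
    · rw [hk, hj]
    · simp only [hk, hj, if_true, if_false, zero_mul, integral_zero]
      exact hz j hj a ψ hψ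
  · by_cases hj : j = k₀
    · simp only [hk, hj, if_true, if_false, zero_mul, integral_zero]
      exact (hz k hk a ψ hψ).symm
    · simp only [hk, hj, if_false, zero_mul]

theorem int_ip' (N : HMet W b D) (hW : IsOpen W) (μ : Measure E) {F G : Fin D → E → ℂ}
    (hF : ∀ a, AEStronglyMeasurable (F a) (μ.restrict W))
    (hF2 : ∫⁻ x in W, ENNReal.ofReal (N.nsq x (fun a => F a x)) ∂μ ≠ ⊤)
    (hG : ∀ a, AEStronglyMeasurable (G a) (μ.restrict W))
    (hG2 : ∫⁻ x in W, ENNReal.ofReal (N.nsq x (fun a => G a x)) ∂μ ≠ ⊤) :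
    IntegrableOn (fun x => ip (N.H x) (fun a => F a x) (fun a => G a x)) W μ := by
  obtain ⟨P, Q, hP, hQ, h1, h2, h3⟩ := N.exists_frame hW
  exact int_ip μ N hW hQ (fun x hx => ⟨h1 x hx, h2 x hx⟩ : ∀ x ∈ W, FrameAt (N.H x) (P x) (Q x))
    hF hF2 hG hG2

theorem cs' (N : HMet W b D) (hW : IsOpen W) {x : E} (hx : x ∈ W) (u v : Fin D → ℂ) :
    ‖ip (N.H x) u v‖ ^ 2 ≤ N.nsq x u * N.nsq x v := by
  obtain ⟨P, Q, hP, hQ, h1, h2, h3⟩ := N.exists_frame hW
  exact (⟨h1 x hx, h2 x hx⟩ : FrameAt (N.H x) (P x) (Q x)).cs u v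

theorem aesm_nsq (N : HMet W b D) (hW : IsOpen W) (μ : Measure E) {F : Fin D → E → ℂ}
    (hF : ∀ a, AEStronglyMeasurable (F a) (μ.restrict W)) :
    AEStronglyMeasurable (fun x => N.nsq x (fun a => F a x)) (μ.restrict W) := by
  unfold HMet.nsq ip
  refine Complex.continuous_re.comp_aestronglyMeasurable ?_
  refine Finset.aestronglyMeasurable_fun_sum _ fun a _ =>
    Finset.aestronglyMeasurable_fun_sum _ fun c _ => ?_
  exact ((Complex.continuous_conj.comp_aestronglyMeasurable (hF a)).mul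
    ((N.smH a c).continuousOn.aestronglyMeasurable hW.measurableSet)).mul (hF c)

theorem lint_cs (ν : Measure E) {G : E → ℂ} {A B : E → ℝ≥0∞} (hA : AEMeasurable A ν)
    (hB : AEMeasurable B ν) (h : ∀ᵐ x ∂ν, ‖G x‖ₑ ^ 2 ≤ A x * B x) :
    ‖∫ x, G x ∂ν‖ₑ ^ 2 ≤ (∫⁻ x, A x ∂ν) * ∫⁻ x, B x ∂ν := by
  have h1 : ‖∫ x, G x ∂ν‖ₑ ≤
      ∫⁻ x, ((fun x => A x ^ (1 / 2 : ℝ)) * fun x => B x ^ (1 / 2 : ℝ)) x ∂ν := by
    refine (enorm_integral_le_lintegral_enorm _).trans (lintegral_mono_ae ?_)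
    filter_upwards [h] with x hx
    rw [Pi.mul_apply, ← ENNReal.mul_rpow_of_nonneg _ _ (by norm_num)]
    calc ‖G x‖ₑ = (‖G x‖ₑ ^ 2) ^ (1 / 2 : ℝ) := by
          rw [← ENNReal.rpow_natCast, ← ENNReal.rpow_mul]
          norm_num
      _ ≤ _ := ENNReal.rpow_le_rpow hx (by norm_num)
  have h2 := h1.trans (ENNReal.lintegral_mul_le_Lp_mul_Lq ν Real.HolderConjugate.two_two
    (hA.pow_const _) (hB.pow_const _))
  have h3 : ∀ y : ℝ≥0∞, (y ^ (1 / 2 : ℝ)) ^ (2 : ℝ) = y := by
    intro y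
    rw [← ENNReal.rpow_mul]
    norm_num
  simp only [h3] at h2
  calc ‖∫ x, G x ∂ν‖ₑ ^ 2 ≤
        ((∫⁻ x, A x ∂ν) ^ (1 / 2 : ℝ) * (∫⁻ x, B x ∂ν) ^ (1 / 2 : ℝ)) ^ 2 :=
        ENNReal.pow_le_pow_left h2
    _ = _ := by
        rw [← ENNReal.mul_rpow_of_nonneg _ _ (by norm_num), ← ENNReal.rpow_natCast,
          ← ENNReal.rpow_mul]
        norm_num

end main

end HDualW

variable {E : Type} [NormedAddCommGroup E] [NormedSpace ℂ E] [FiniteDimensional ℂ E]
  [MeasurableSpace E] [BorelSpace E] {W : Set E} {ι : Type} [Fintype ι]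
  {b : Module.Basis ι ℂ E} {D : ℕ}

open HDualW in
/-- `v dzbar_{k₀}` is a closed form; `C₁` bounds `∫ |v|² / κ exp (2 θ - χ)`. -/
theorem HMet.dual (M : HMet W b D) (hW : IsOpen W) (μ : Measure E) [μ.IsAddHaarMeasure]
    (θ χ : E → ℝ) (hθ : ContDiffOn ℝ ∞ θ W) (hχ : ContDiffOn ℝ ∞ χ W) (κ : E → ℝ)
    (hκ : ContinuousOn κ W) (hκ0 : ∀ x ∈ W, 0 ≤ κ x) (k₀ : ι)
    (hcurv : ∀ x ∈ W, ∀ f : ι → Fin D → ℂ, κ x * M.nsq x (f k₀) ≤ M.curv x f)
    (hlev : ∀ x ∈ W, ∀ f : ι → Fin D → ℂ,
      2 * gradsq b θ x * ∑ k, M.nsq x (f k) ≤ levH b (M.H x) χ x f)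
    (hcut : HasCutoffs W b θ)
    (v : Fin D → E → ℂ) (hv : ∀ a, ContDiffOn ℝ ∞ (v a) W)
    (hvcl : ∀ k, k ≠ k₀ → ∀ a, ∀ x ∈ W, dzb (b k) (v a) x = 0)
    (hv2 : M.L2 μ (fun y => χ y - θ y) v ≠ ⊤)
    (C₁ : ℝ) (hC₁ : 0 ≤ C₁) (hvκ : ∀ x ∈ W, κ x = 0 → ∀ a, v a x = 0)
    (hvM : ∫⁻ x in W, ENNReal.ofReal ((κ x)⁻¹ * M.nsq x (fun a => v a x) *
      Real.exp (2 * θ x - χ x)) ∂μ ≤ ENNReal.ofReal C₁)
    (f : ι → Fin D → E → ℂ) (hf : ∀ k a, SCW W (f k a)) :
    ‖∫ x, ip (M.H x) (fun a => v a x) (fun a => f k₀ a x) * Real.exp (-(χ x - θ x)) ∂μ‖ ^ 2 ≤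
      2 * C₁ * ∫ x, M.nsq x (M.LL (fun y => χ y - θ y) f x) * Real.exp (-χ x) ∂μ := by
  classical
  have hσ : ContDiffOn ℝ ∞ (fun y => χ y - θ y) W := hχ.sub hθ
  set N : HMet W b D := M.twist hW (fun y => χ y - θ y) hσ with hN
  have ipN : ∀ x (u v : Fin D → ℂ), ip (N.H x) u v =
      ip (M.H x) u v * (Real.exp (-(χ x - θ x)) : ℂ) := by
    intro x u v
    rw [mul_comm]
    exact ip_smul (M.H x) _ u v
  have nsqN : ∀ x (u : Fin D → ℂ), N.nsq x u = M.nsq x u * Real.exp (-(χ x - θ x)) := by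
    intro x u
    rw [mul_comm]
    exact HMet.nsq_twist M hW _ hσ x u
  have L2N : ∀ u : Fin D → E → ℂ, ∫⁻ x in W, ENNReal.ofReal (N.nsq x (fun a => u a x)) ∂μ =
      M.L2 μ (fun y => χ y - θ y) u := by
    intro u
    unfold HMet.L2
    simp only [nsqN]
  have hfm : ∀ k a, AEStronglyMeasurable (f k a) (μ.restrict W) := fun k a =>
    (hf k a).1.continuous.aestronglyMeasurable
  have hvm : ∀ a, AEStronglyMeasurable (v a) (μ.restrict W) := fun a =>
    (hv a).continuousOn.aestronglyMeasurable hW.measurableSet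
  have hf2 : ∀ k, ∫⁻ x in W, ENNReal.ofReal (N.nsq x (fun a => f k a x)) ∂μ ≠ ⊤ := fun k =>
    lint_nsq N hW μ (hf k)
  obtain ⟨g, hgm, hg2, hgcl, hg⟩ := proj (μ := μ) N hW f hfm hf2
  -- the divergence of `f`
  have hch : ∀ x a, M.LL (fun y => χ y - θ y) f x a = ∑ k, N.ch k (f k) x a := by
    intro x a
    unfold HMet.LL
    refine Finset.sum_congr rfl fun k _ => ?_
    exact (HMet.ch_twist M hW _ hσ k (f k) x a).symm
  have hl : ∀ a, SCW W (fun x => M.LL (fun y => χ y - θ y) f x a) := by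
    intro a
    simp only [hch]
    exact scw_sum _ fun k => scw_ch N hW k (hf k) a
  have hWLL : M.WeakLL μ (fun y => χ y - θ y) g
      (fun a x => M.LL (fun y => χ y - θ y) f x a) := by
    intro u hu
    have hdu : ∀ k a, SCW W (dzb (b k) (u a)) := fun k a => scw_dzb (hu a) _
    have hdum : ∀ k a, AEStronglyMeasurable (dzb (b k) (u a)) (μ.restrict W) := fun k a =>
      (hdu k a).1.continuous.aestronglyMeasurable
    have hdu2 : ∀ k, ∫⁻ x in W, ENNReal.ofReal (N.nsq x (fun a => dzb (b k) (u a) x)) ∂μ ≠ ⊤ :=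
      fun k => lint_nsq N hW μ (hdu k)
    have h1 := hg (fun k a => dzb (b k) (u a)) hdum hdu2 (closed_dzb μ hW hu)
    have h2 : ∀ k, ∫ x in W, ip (N.H x) (fun a => dzb (b k) (u a) x) (fun a => f k a x) ∂μ =
        - ∫ x, ip (N.H x) (fun a => u a x) (N.ch k (f k) x) ∂μ := by
      intro k
      rw [N.ibp hW μ k u (f k) (fun a => (hu a).1.contDiffOn) (hf k), neg_neg]
      refine setInt_eq μ fun x hx => ?_
      rw [zero_off (hf k) hx, ip_zero_right]
    have h3 : ∀ k, Integrable (fun x => ip (N.H x) (fun a => u a x) (N.ch k (f k) x)) μ := by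
      intro k
      have h4 := scw_ip N hW hu fun a => (scw_ch N hW k (hf k) a).1.contDiffOn
      exact h4.1.continuous.integrable_of_hasCompactSupport h4.2.1
    calc ∫ x, ip (M.H x) (fun a => u a x) (fun a => M.LL (fun y => χ y - θ y) f x a) *
          (Real.exp (-(χ x - θ x)) : ℂ) ∂μ
        = ∫ x, ∑ k, ip (N.H x) (fun a => u a x) (N.ch k (f k) x) ∂μ := by
          refine integral_congr_ae (Filter.Eventually.of_forall fun x => ?_)
          simp only
          rw [← ipN, ← ip_sum_right']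
          simp only [hch]
      _ = ∑ k, ∫ x, ip (N.H x) (fun a => u a x) (N.ch k (f k) x) ∂μ :=
          integral_finsetSum _ fun k _ => h3 k
      _ = - ∑ k, ∫ x in W, ip (N.H x) (fun a => dzb (b k) (u a) x) (fun a => f k a x) ∂μ := by
          rw [Finset.sum_congr rfl fun k _ => h2 k, Finset.sum_neg_distrib, neg_neg]
      _ = - ∑ k, ∫ x in W, ip (N.H x) (fun a => dzb (b k) (u a) x) (fun a => g k a x) ∂μ := by
          rw [h1]
      _ = - ∫ x in W, ∑ k, ip (N.H x) (fun a => dzb (b k) (u a) x) (fun a => g k a x) ∂μ := by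
          rw [integral_finsetSum _ fun k _ => int_ip' N hW μ (hdum k) (hdu2 k) (hgm k) (hg2 k)]
      _ = - ∫ x in W, (∑ k, ip (M.H x) (fun a => dzb (b k) (u a) x) (fun a => g k a x)) *
            (Real.exp (-(χ x - θ x)) : ℂ) ∂μ := by
          congr 1
          refine integral_congr_ae (Filter.Eventually.of_forall fun x => ?_)
          simp only [ipN, Finset.sum_mul]
      _ = - ∫ x, (∑ k, ip (M.H x) (fun a => dzb (b k) (u a) x) (fun a => g k a x)) *
            (Real.exp (-(χ x - θ x)) : ℂ) ∂μ := by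
          congr 1
          refine setInt_eq μ fun x hx => ?_
          rw [Finset.sum_eq_zero fun k _ => ?_, zero_mul]
          rw [zero_off (hdu k) hx, ip_zero_left]
  set l : Fin D → E → ℂ := fun a x => M.LL (fun y => χ y - θ y) f x a with hldef
  set N' : HMet W b D := M.twist hW χ hχ with hN'
  have nsqN' : ∀ x (u : Fin D → ℂ), N'.nsq x u = M.nsq x u * Real.exp (-χ x) := by
    intro x u
    rw [mul_comm]
    exact HMet.nsq_twist M hW _ hχ x u
  have hlint : Integrable (fun x => M.nsq x (fun a => l a x) * Real.exp (-χ x)) μ := by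
    have := int_nsq N' hW μ hl
    simpa only [nsqN'] using this
  have hl0 : ∀ x, x ∉ W → M.nsq x (fun a => l a x) = 0 := by
    intro x hx
    rw [zero_off hl hx, HMet.nsq, ip_zero_left, Complex.zero_re]
  have hl2 : M.L2 μ χ l = ENNReal.ofReal
      (∫ x, M.nsq x (fun a => l a x) * Real.exp (-χ x) ∂μ) := by
    rw [← setIntegral_eq_integral_of_forall_compl_eq_zero (s := W) fun x hx => by
      rw [hl0 x hx, zero_mul]]
    rw [ofReal_integral_eq_lintegral_ofReal hlint.integrableOn]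
    · rfl
    · refine (ae_restrict_iff' hW.measurableSet).2 (Filter.Eventually.of_forall fun x hx => ?_)
      exact mul_nonneg (nsq_nonneg M hx _) (Real.exp_pos _).le
  have hlnn : 0 ≤ ∫ x, M.nsq x (fun a => l a x) * Real.exp (-χ x) ∂μ := by
    refine integral_nonneg fun x => ?_
    by_cases hx : x ∈ W
    · exact mul_nonneg (nsq_nonneg M hx _) (Real.exp_pos _).le
    · simp only [hl0 x hx, zero_mul, Pi.zero_apply, le_refl]
  have hap := M.apriori_weak hW μ θ χ hθ hχ κ hκ hκ0 k₀ hcurv hlev hcut g hgm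
    (fun k => by rw [← L2N]; exact hg2 k) l
    (fun a => (hl a).1.continuous.aestronglyMeasurable) (by rw [hl2]; exact ENNReal.ofReal_ne_top)
    hWLL hgcl
  -- the pairing
  have hvf := hg (fun k a x => if k = k₀ then v a x else 0)
    (fun k a => by
      by_cases hk : k = k₀
      · simpa only [hk, if_true] using hvm a
      · simp only [hk, if_false]
        exact aestronglyMeasurable_const)
    (fun k => by
      by_cases hk : k = k₀
      · simp only [hk, if_true]
        rw [L2N]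
        exact hv2
      · simp only [hk, if_false]
        have : ∀ x, N.nsq x (fun _ => 0) = 0 := by
          intro x
          rw [HMet.nsq, ip_zero_left, Complex.zero_re]
        simp [this])
    (closed_single μ hW k₀ v hv hvcl)
  have hsg : ∀ G : ι → Fin D → E → ℂ,
      ∑ k, ∫ x in W, ip (N.H x) (fun a => if k = k₀ then v a x else 0) (fun a => G k a x) ∂μ =
      ∫ x in W, ip (N.H x) (fun a => v a x) (fun a => G k₀ a x) ∂μ := by
    intro G
    rw [Finset.sum_eq_single k₀]
    · simp only [if_true]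
    · intro k _ hk
      simp only [hk, if_false, ip_zero_left, integral_zero]
    · intro h
      exact absurd (Finset.mem_univ k₀) h
  rw [hsg, hsg] at hvf
  have hpair : ∫ x, ip (M.H x) (fun a => v a x) (fun a => f k₀ a x) *
      (Real.exp (-(χ x - θ x)) : ℂ) ∂μ =
      ∫ x in W, ip (N.H x) (fun a => v a x) (fun a => g k₀ a x) ∂μ := by
    rw [← hvf, setInt_eq μ fun x hx => by rw [zero_off (hf k₀) hx, ip_zero_right]]
    simp only [ipN]
  rw [hpair]
  have hcs := lint_cs (μ.restrict W)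
    (G := fun x => ip (N.H x) (fun a => v a x) (fun a => g k₀ a x))
    (A := fun x => ENNReal.ofReal ((κ x)⁻¹ * M.nsq x (fun a => v a x) *
      Real.exp (2 * θ x - χ x)))
    (B := fun x => ENNReal.ofReal (κ x * M.nsq x (fun a => g k₀ a x) * Real.exp (-χ x)))
    (by
      have h1 : AEMeasurable κ (μ.restrict W) := hκ.aemeasurable hW.measurableSet
      have h2 : AEMeasurable (fun x => Real.exp (2 * θ x - χ x)) (μ.restrict W) :=
        (Real.continuous_exp.comp_continuousOn
          ((continuousOn_const.mul hθ.continuousOn).sub hχ.continuousOn)).aemeasurable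
          hW.measurableSet
      exact ((h1.inv.mul (aesm_nsq M hW μ hvm).aemeasurable).mul h2).ennreal_ofReal)
    (by
      have h1 : AEMeasurable κ (μ.restrict W) := hκ.aemeasurable hW.measurableSet
      have h2 : AEMeasurable (fun x => Real.exp (-χ x)) (μ.restrict W) :=
        (Real.continuous_exp.comp_continuousOn hχ.continuousOn.neg).aemeasurable
          hW.measurableSet
      exact ((h1.mul (aesm_nsq M hW μ (hgm k₀)).aemeasurable).mul h2).ennreal_ofReal)
    (by
      refine (ae_restrict_iff' hW.measurableSet).2 (Filter.Eventually.of_forall fun x hx => ?_)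
      have hκx := hκ0 x hx
      have hnv := nsq_nonneg M hx (fun a => v a x)
      have hng := nsq_nonneg M hx (fun a => g k₀ a x)
      rw [← ENNReal.ofReal_mul (by positivity), ← ofReal_norm,
        ← ENNReal.ofReal_pow (norm_nonneg _)]
      refine ENNReal.ofReal_le_ofReal ?_
      by_cases hk : κ x = 0
      · have : (fun a => v a x) = fun _ => 0 := by
          funext a
          exact hvκ x hx hk a
        simp [this, ip_zero_left, hk]
      · rw [ipN, norm_mul, mul_pow, Complex.norm_real, Real.norm_eq_abs, abs_of_pos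
          (Real.exp_pos _)]
        have h1 := cs' M hW hx (fun a => v a x) (fun a => g k₀ a x)
        calc ‖ip (M.H x) (fun a => v a x) (fun a => g k₀ a x)‖ ^ 2 *
              Real.exp (-(χ x - θ x)) ^ 2
            ≤ (M.nsq x (fun a => v a x) * M.nsq x (fun a => g k₀ a x)) *
              Real.exp (-(χ x - θ x)) ^ 2 := by gcongr
          _ = _ := by
              have h2 : Real.exp (-(χ x - θ x)) ^ 2 =
                  Real.exp (2 * θ x - χ x) * Real.exp (-χ x) := by
                rw [← Real.exp_nat_mul, ← Real.exp_add]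
                congr 1
                push_cast
                ring
              rw [h2]
              field_simp)
  have hfin : ENNReal.ofReal (‖∫ x in W, ip (N.H x) (fun a => v a x)
      (fun a => g k₀ a x) ∂μ‖ ^ 2) ≤ ENNReal.ofReal
      (2 * C₁ * ∫ x, M.nsq x (fun a => l a x) * Real.exp (-χ x) ∂μ) := by
    calc ENNReal.ofReal (‖∫ x in W, ip (N.H x) (fun a => v a x) (fun a => g k₀ a x) ∂μ‖ ^ 2)
        = ‖∫ x in W, ip (N.H x) (fun a => v a x) (fun a => g k₀ a x) ∂μ‖ₑ ^ 2 := by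
          rw [ENNReal.ofReal_pow (norm_nonneg _), ofReal_norm]
      _ ≤ _ := hcs
      _ ≤ ENNReal.ofReal C₁ * (2 * M.L2 μ χ l) := by gcongr
      _ = _ := by
          rw [hl2, ENNReal.ofReal_mul (by positivity), ENNReal.ofReal_mul (by norm_num)]
          rw [ENNReal.ofReal_ofNat]
          ring
  exact (ENNReal.ofReal_le_ofReal_iff (by positivity)).1 hfin

end Pool.Agent.Lib_KF

end

/-! ### from `Lib_KF.HLim` -/

section

/-! H10: the limit of the dual estimates. -/

open MeasureTheory Complex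
open scoped ENNReal ContDiff ComplexConjugate

namespace Pool.Agent.Lib_KF

open GPn

section HLimAux

open Filter Topology

variable {E : Type} [NormedAddCommGroup E] [NormedSpace ℂ E]

private lemma hlim_continuous {F : Type} [NormedAddCommGroup F] {W K : Set E} (hW : IsOpen W)
    (hK : IsClosed K) (hKW : K ⊆ W) {g : E → F} (hg : ContinuousOn g W)
    (h0 : ∀ x, x ∉ K → g x = 0) : Continuous g := by
  rw [continuous_iff_continuousAt]
  intro x
  by_cases hx : x ∈ W
  · exact hg.continuousAt (hW.mem_nhds hx)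
  · have hxK : x ∉ K := fun h => hx (hKW h)
    have h1 : g =ᶠ[𝓝 x] fun _ => 0 := by
      filter_upwards [hK.isOpen_compl.mem_nhds hxK] with y hy using h0 y hy
    exact (continuousAt_congr h1).2 continuousAt_const

private lemma hlim_integrable [MeasurableSpace E] [BorelSpace E] (μ : Measure E)
    [IsFiniteMeasureOnCompacts μ] {F : Type} [NormedAddCommGroup F] {W K : Set E} (hW : IsOpen W)
    (hK : IsCompact K) (hKW : K ⊆ W) {g : E → F} (hg : ContinuousOn g W)
    (h0 : ∀ x, x ∉ K → g x = 0) : Integrable g μ :=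
  (hlim_continuous hW hK.isClosed hKW hg h0).integrable_of_hasCompactSupport
    (HasCompactSupport.intro hK h0)

private lemma hlim_dz_comp {ρ : E → ℝ} {x : E} (hρ : DifferentiableAt ℝ ρ x) {φ : ℝ → ℝ} {φ' : ℝ}
    (hφ : HasDerivAt φ φ' (ρ x)) (v : E) :
    dz v (fun y => (φ (ρ y) : ℂ)) x = φ' * dz v (fun y => (ρ y : ℂ)) x := by
  have h1 : HasFDerivAt (fun y => (ρ y : ℂ)) (Complex.ofRealCLM.comp (fderiv ℝ ρ x)) x :=
    Complex.ofRealCLM.hasFDerivAt.comp x hρ.hasFDerivAt
  have h2 : HasFDerivAt (fun y => (φ (ρ y) : ℂ))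
      (Complex.ofRealCLM.comp (φ' • fderiv ℝ ρ x)) x :=
    Complex.ofRealCLM.hasFDerivAt.comp x (hφ.comp_hasFDerivAt x hρ.hasFDerivAt)
  unfold dz
  rw [h1.fderiv, h2.fderiv]
  simp
  ring

private lemma hlim_ip_expand {D : ℕ} (H : Fin D → Fin D → ℂ) (p q : Fin D → ℂ) (s : ℝ) :
    ip H (fun a => p a - s * q a) (fun a => p a - s * q a) =
      ip H p p - s * (ip H p q + ip H q p) + (s : ℂ) ^ 2 * ip H q q := by
  unfold ip
  rw [← Finset.sum_add_distrib, Finset.mul_sum, Finset.mul_sum, ← Finset.sum_sub_distrib,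
    ← Finset.sum_add_distrib]
  refine Finset.sum_congr rfl fun a _ => ?_
  rw [← Finset.sum_add_distrib, Finset.mul_sum, Finset.mul_sum, ← Finset.sum_sub_distrib,
    ← Finset.sum_add_distrib]
  refine Finset.sum_congr rfl fun c _ => ?_
  simp only [map_sub, map_mul, Complex.conj_ofReal]
  ring

private lemma hlim_ip_zero {D : ℕ} (H : Fin D → Fin D → ℂ) (u w : Fin D → ℂ)
    (h : (∀ a, u a = 0) ∨ ∀ a, w a = 0) : ip H u w = 0 := by
  unfold ip
  refine Finset.sum_eq_zero fun a _ => Finset.sum_eq_zero fun c _ => ?_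
  rcases h with h | h
  · rw [h c, mul_zero]
  · rw [h a, map_zero, zero_mul, zero_mul]

private lemma hlim_ip_continuousOn {D : ℕ} {W : Set E} {H : E → Fin D → Fin D → ℂ}
    {u w : E → Fin D → ℂ} (hH : ∀ a c, ContinuousOn (fun x => H x a c) W)
    (hu : ∀ a, ContinuousOn (fun x => u x a) W) (hw : ∀ a, ContinuousOn (fun x => w x a) W) :
    ContinuousOn (fun x => ip (H x) (u x) (w x)) W := by
  unfold ip
  refine continuousOn_finsetSum _ fun a _ => continuousOn_finsetSum _ fun c _ => ?_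
  exact ((Complex.continuous_conj.comp_continuousOn (hw a)).mul (hH a c)).mul (hu c)

private lemma hlim_dz_continuousOn {W : Set E} (hW : IsOpen W) {F : E → ℂ}
    (hF : ContDiffOn ℝ ∞ F W) (v : E) : ContinuousOn (fun x => dz v F x) W := by
  have h1 : ContinuousOn (fun x => fderiv ℝ F x) W :=
    hF.continuousOn_fderiv_of_isOpen hW (by simp)
  unfold dz
  exact ((h1.clm_apply continuousOn_const).sub
    (continuousOn_const.mul (h1.clm_apply continuousOn_const))).div_const _

private lemma hlim_dz_zero {F : E → ℂ} {x : E} (h : F =ᶠ[𝓝 x] 0) (v : E) : dz v F x = 0 := by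
  unfold dz
  rw [h.fderiv_eq]
  simp

end HLimAux

variable {E : Type} [NormedAddCommGroup E] [NormedSpace ℂ E] [FiniteDimensional ℂ E]
  [MeasurableSpace E] [BorelSpace E] {W : Set E} {ι : Type} [Fintype ι]
  [DecidableEq ι] {b : Module.Basis ι ℂ E} {D : ℕ}

/-- H10: the limit `t → 0` of the dual estimates. -/
theorem HMet.dual_limit (M : HMet W b D) (hW : IsOpen W) (μ : Measure E) [μ.IsAddHaarMeasure]
    (ρ : E → ℝ) (hρ : Exhaust W b ρ) (κ : E → ℝ)
    (hκ : ContinuousOn κ W) (hκ0 : ∀ x ∈ W, 0 ≤ κ x) (k₀ : ι)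
    (hcurv : ∀ x ∈ W, ∀ f : ι → Fin D → ℂ, κ x * M.nsq x (f k₀) ≤ M.curv x f)
    (v : Fin D → E → ℂ) (hv : ∀ a, ContDiffOn ℝ ∞ (v a) W)
    (hvcl : ∀ k, k ≠ k₀ → ∀ a, ∀ x ∈ W, dzb (b k) (v a) x = 0)
    (c : ℝ) (hc : 0 < c) (hvκ : ∀ x ∈ W, (∃ a, v a x ≠ 0) → c ≤ κ x ∧ κ x ≤ c⁻¹)
    (C₁ : ℝ) (hC₁ : 0 ≤ C₁)
    (hvM : ∫⁻ x in W, ENNReal.ofReal ((κ x)⁻¹ * M.nsq x (fun a => v a x)) ∂μ ≤ ENNReal.ofReal C₁)
    (f : ι → Fin D → E → ℂ) (hf : ∀ k a, SCW W (f k a)) :
    ‖∫ x, ip (M.H x) (fun a => v a x) (fun a => f k₀ a x) ∂μ‖ ^ 2 ≤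
      16 * C₁ * ∫ x, M.nsq x (fun a => ∑ k, M.ch k (f k) x a) ∂μ := by
  classical
  obtain ⟨B, hB, hw⟩ := exists_weights (b := b) hW ρ hρ
  have hρc : ContinuousOn ρ W := hρ.smooth.continuousOn
  have hρd : ∀ x ∈ W, DifferentiableAt ℝ ρ x := fun x hx =>
    (hρ.smooth.contDiffAt (hW.mem_nhds hx)).differentiableAt (by simp)
  have hnz : ∀ x, ∀ u : Fin D → ℂ, (∀ a, u a = 0) → M.nsq x u = 0 := by
    intro x u hu
    unfold HMet.nsq
    rw [hlim_ip_zero (M.H x) u u (Or.inl hu)]
    simp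
  have hnn : ∀ x ∈ W, ∀ u : Fin D → ℂ, 0 ≤ M.nsq x u := by
    intro x hx u
    by_cases hu : u = 0
    · rw [hnz x u (fun a => by rw [hu]; rfl)]
    · exact (M.pos x hx u hu).le
  -- the compact set
  obtain ⟨K, hKc, hKW, hK⟩ : ∃ K : Set E, IsCompact K ∧ K ⊆ W ∧
      ∀ k a x, x ∉ K → f k a =ᶠ[nhds x] 0 := by
    refine ⟨⋃ k, ⋃ a, tsupport (f k a),
      isCompact_iUnion fun k => isCompact_iUnion fun a => (hf k a).2.1,
      Set.iUnion_subset fun k => Set.iUnion_subset fun a => (hf k a).2.2, ?_⟩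
    intro k a x hx
    have h1 : x ∉ tsupport (f k a) := fun h => hx (Set.mem_iUnion₂.2 ⟨k, a, h⟩)
    exact notMem_tsupport_iff_eventuallyEq.1 h1
  have hK0 : ∀ k a x, x ∉ K → f k a x = 0 := fun k a x hx => (hK k a x hx).eq_of_nhds
  have hfc : ∀ k a, ContinuousOn (f k a) W := fun k a => (hf k a).1.continuous.continuousOn
  have hHc : ∀ a e, ContinuousOn (fun x => M.H x a e) W := fun a e => (M.smH a e).continuousOn
  have hvc : ∀ a, ContinuousOn (v a) W := fun a => (hv a).continuousOn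
  -- abbreviations
  let T : ℕ → ℝ := fun n => 1 / ((n : ℝ) + 1)
  have hT0 : ∀ n, 0 < T n := fun n => by positivity
  have hT1 : ∀ n, T n ≤ 1 := fun n => by
    simp only [T]
    rw [div_le_one (by positivity)]
    linarith [(Nat.cast_nonneg n : (0 : ℝ) ≤ n)]
  have hTl : Filter.Tendsto T Filter.atTop (nhds 0) := tendsto_one_div_add_atTop_nhds_zero_nat
  let θ : ℕ → E → ℝ := fun n x => 2 * Real.log (1 + T n * ρ x)
  let χ : ℕ → E → ℝ := fun n x => B * T n ^ 2 * ρ x ^ 5
  let p : E → Fin D → ℂ := fun x a => ∑ k, M.ch k (f k) x a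
  let q : E → Fin D → ℂ := fun x a => ∑ k, dz (b k) (fun y => (ρ y : ℂ)) x * f k a x
  let s : ℕ → E → ℝ := fun n x => B * T n ^ 2 * (5 * ρ x ^ 4) - 2 * (T n / (1 + T n * ρ x))
  have hpos : ∀ n, ∀ x ∈ W, 1 ≤ 1 + T n * ρ x := fun n x hx => by
    have := mul_nonneg (hT0 n).le (zero_le_one.trans (hρ.one_le x hx))
    linarith
  -- the dual estimates
  have key : ∀ n, ‖∫ x, ip (M.H x) (fun a => v a x) (fun a => f k₀ a x) *
      Real.exp (-(χ n x - θ n x)) ∂μ‖ ^ 2 ≤
      2 * (8 * C₁) * ∫ x, M.nsq x (M.LL (fun y => χ n y - θ n y) f x) *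
        Real.exp (-χ n x) ∂μ := by
    intro n
    obtain ⟨h1, h2, h3, h4, h5, h6⟩ := hw (T n) (hT0 n) (hT1 n)
    have h7 : ∀ x ∈ W, κ x = 0 → ∀ a, v a x = 0 := by
      intro x hx hx0 a
      by_contra hne
      have := (hvκ x hx ⟨a, hne⟩).1
      rw [hx0] at this
      exact absurd this (not_le.2 hc)
    refine M.dual hW μ (θ n) (χ n) h1 h2 κ hκ hκ0 k₀ hcurv (h3 D M) h4 v hv hvcl ?_ (8 * C₁)
      (by positivity) h7 ?_ f hf
    · unfold HMet.L2
      refine ne_top_of_le_ne_top (b := ENNReal.ofReal (8 * c⁻¹) * ENNReal.ofReal C₁)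
        (ENNReal.mul_ne_top ENNReal.ofReal_ne_top ENNReal.ofReal_ne_top) ?_
      refine le_trans ?_ (mul_le_mul_right hvM _)
      rw [← lintegral_const_mul' _ _ ENNReal.ofReal_ne_top]
      refine setLIntegral_mono' hW.measurableSet fun x hx => ?_
      rw [← ENNReal.ofReal_mul (by positivity)]
      refine ENNReal.ofReal_le_ofReal ?_
      have h8 : Real.exp (-(χ n x - θ n x)) ≤ 8 :=
        (Real.exp_le_exp.2 (by have := h6 x hx; simp only [χ, θ] at *; linarith)).trans (h5 x hx)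
      by_cases hvx : ∃ a, v a x ≠ 0
      · obtain ⟨hk1, hk2⟩ := hvκ x hx hvx
        have hkp : 0 < κ x := hc.trans_le hk1
        have h9 := hnn x hx (fun a => v a x)
        have h10 : M.nsq x (fun a => v a x) = κ x * ((κ x)⁻¹ * M.nsq x (fun a => v a x)) := by
          rw [mul_inv_cancel_left₀ hkp.ne']
        have h11 : 0 ≤ (κ x)⁻¹ * M.nsq x (fun a => v a x) := mul_nonneg (by positivity) h9
        calc M.nsq x (fun a => v a x) * Real.exp (-(χ n x - θ n x))
            ≤ M.nsq x (fun a => v a x) * 8 := mul_le_mul_of_nonneg_left h8 h9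
          _ = 8 * (κ x * ((κ x)⁻¹ * M.nsq x (fun a => v a x))) := by rw [← h10]; ring
          _ ≤ 8 * (c⁻¹ * ((κ x)⁻¹ * M.nsq x (fun a => v a x))) := by
              gcongr
          _ = 8 * c⁻¹ * ((κ x)⁻¹ * M.nsq x (fun a => v a x)) := by ring
      · push Not at hvx
        rw [hnz x _ hvx]
        simp
    · rw [ENNReal.ofReal_mul (by norm_num)]
      refine le_trans ?_ (mul_le_mul_right hvM _)
      rw [← lintegral_const_mul' _ _ ENNReal.ofReal_ne_top]
      refine setLIntegral_mono' hW.measurableSet fun x hx => ?_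
      rw [← ENNReal.ofReal_mul (by norm_num)]
      refine ENNReal.ofReal_le_ofReal ?_
      have h9 := hnn x hx (fun a => v a x)
      have h11 : 0 ≤ (κ x)⁻¹ * M.nsq x (fun a => v a x) :=
        mul_nonneg (inv_nonneg.2 (hκ0 x hx)) h9
      rw [mul_comm 8]
      exact mul_le_mul_of_nonneg_left (h5 x hx) h11
  -- off `K` everything vanishes
  have hp0 : ∀ x, x ∉ K → ∀ a, p x a = 0 := by
    intro x hx a
    refine Finset.sum_eq_zero fun k _ => ?_
    unfold HMet.ch
    rw [hlim_dz_zero (hK k a x hx), zero_add]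
    exact Finset.sum_eq_zero fun e _ => by rw [hK0 k e x hx, mul_zero]
  have hq0 : ∀ x, x ∉ K → ∀ a, q x a = 0 := by
    intro x hx a
    exact Finset.sum_eq_zero fun k _ => by rw [hK0 k a x hx, mul_zero]
  have hpc : ∀ a, ContinuousOn (fun x => p x a) W := by
    intro a
    refine continuousOn_finsetSum _ fun k _ => ?_
    unfold HMet.ch
    refine (hlim_dz_continuousOn hW (hf k a).1.contDiffOn _).add ?_
    exact continuousOn_finsetSum _ fun e _ => ((M.smA k a e).continuousOn).mul (hfc k e)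
  have hqc : ∀ a, ContinuousOn (fun x => q x a) W := by
    intro a
    refine continuousOn_finsetSum _ fun k _ => ?_
    exact (hlim_dz_continuousOn hW
      (Complex.ofRealCLM.contDiff.comp_contDiffOn hρ.smooth) _).mul (hfc k a)
  -- the form of `LL`
  have hLL : ∀ n x, (M.nsq x (M.LL (fun y => χ n y - θ n y) f x)) =
      M.nsq x (p x) - s n x * ((ip (M.H x) (p x) (q x)).re + (ip (M.H x) (q x) (p x)).re) +
        s n x ^ 2 * M.nsq x (q x) := by
    intro n x
    by_cases hx : x ∈ K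
    · have hxW := hKW hx
      have h1 : M.LL (fun y => χ n y - θ n y) f x = fun a => p x a - s n x * q x a := by
        funext a
        unfold HMet.LL
        simp only [p, q]
        rw [Finset.sum_sub_distrib, Finset.mul_sum]
        congr 1
        refine Finset.sum_congr rfl fun k _ => ?_
        have h2 : HasDerivAt (fun r : ℝ => B * T n ^ 2 * r ^ 5 - 2 * Real.log (1 + T n * r))
            (s n x) (ρ x) := by
          have h3 : HasDerivAt (fun r : ℝ => r ^ 5) (5 * ρ x ^ 4) (ρ x) := by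
            simpa using hasDerivAt_pow 5 (ρ x)
          have h4 : HasDerivAt (fun r : ℝ => 1 + T n * r) (T n) (ρ x) := by
            simpa using ((hasDerivAt_id (ρ x)).const_mul (T n)).const_add 1
          have h5 := h4.log (by have := hpos n x hxW; linarith)
          exact (h3.const_mul (B * T n ^ 2)).sub (h5.const_mul 2)
        have h6 := hlim_dz_comp (hρd x hxW) h2 (b k)
        simp only [χ, θ]
        rw [h6, mul_assoc]
      rw [h1]
      unfold HMet.nsq
      rw [hlim_ip_expand]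
      simp only [Complex.add_re, Complex.sub_re, Complex.re_ofReal_mul]
      congr 1
      rw [← Complex.ofReal_pow, Complex.re_ofReal_mul]
    · rw [hnz x (p x) (hp0 x hx), hnz x (q x) (hq0 x hx),
        hlim_ip_zero (M.H x) (p x) (q x) (Or.inl (hp0 x hx)),
        hlim_ip_zero (M.H x) (q x) (p x) (Or.inl (hq0 x hx)), hnz]
      · simp
      · intro a
        unfold HMet.LL
        refine Finset.sum_eq_zero fun k _ => ?_
        rw [hK0 k a x hx, mul_zero, sub_zero]
        unfold HMet.ch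
        rw [hlim_dz_zero (hK k a x hx), zero_add]
        exact Finset.sum_eq_zero fun e _ => by rw [hK0 k e x hx, mul_zero]
  -- limits of the weights
  have hslim : ∀ x, Filter.Tendsto (fun n => s n x) Filter.atTop (nhds 0) := by
    intro x
    have h1 : Filter.Tendsto (fun n => B * T n ^ 2 * (5 * ρ x ^ 4)) Filter.atTop
        (nhds (B * 0 ^ 2 * (5 * ρ x ^ 4))) := ((hTl.pow 2).const_mul B).mul_const _
    have h2 : Filter.Tendsto (fun n => T n / (1 + T n * ρ x)) Filter.atTop
        (nhds (0 / (1 + 0 * ρ x))) :=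
      hTl.div ((hTl.mul_const _).const_add 1) (by simp)
    have h3 := h1.sub (h2.const_mul 2)
    simpa using h3
  have hχlim : ∀ x, Filter.Tendsto (fun n => χ n x) Filter.atTop (nhds 0) := by
    intro x
    have h1 : Filter.Tendsto (fun n => B * T n ^ 2 * ρ x ^ 5) Filter.atTop
        (nhds (B * 0 ^ 2 * ρ x ^ 5)) := ((hTl.pow 2).const_mul B).mul_const _
    simpa using h1
  have hθlim : ∀ x, Filter.Tendsto (fun n => θ n x) Filter.atTop (nhds 0) := by
    intro x
    have h1 : Filter.Tendsto (fun n => 1 + T n * ρ x) Filter.atTop (nhds (1 + 0 * ρ x)) :=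
      (hTl.mul_const _).const_add 1
    have h2 : Filter.Tendsto (fun n => Real.log (1 + T n * ρ x)) Filter.atTop
        (nhds (Real.log (1 + 0 * ρ x))) := h1.log (by simp)
    have h3 := h2.const_mul 2
    simpa using h3
  have hχc : ∀ n, ContinuousOn (χ n) W := fun n => continuousOn_const.mul (hρc.pow 5)
  have hθc : ∀ n, ContinuousOn (θ n) W := fun n =>
    continuousOn_const.mul ((continuousOn_const.add (continuousOn_const.mul hρc)).log
      fun x hx => (zero_lt_one.trans_le (hpos n x hx)).ne')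
  have hsc : ∀ n, ContinuousOn (s n) W := fun n =>
    (continuousOn_const.mul (continuousOn_const.mul (hρc.pow 4))).sub
      (continuousOn_const.mul (continuousOn_const.div
        (continuousOn_const.add (continuousOn_const.mul hρc))
        fun x hx => (zero_lt_one.trans_le (hpos n x hx)).ne'))
  have hχ0 : ∀ n, ∀ x ∈ W, 0 ≤ χ n x := fun n x hx => by
    have h1 : 0 ≤ ρ x := zero_le_one.trans (hρ.one_le x hx)
    have h2 : 0 ≤ B := zero_le_one.trans hB
    simp only [χ]
    positivity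
  -- the left side
  have hic : ContinuousOn (fun x => ip (M.H x) (fun a => v a x) (fun a => f k₀ a x)) W :=
    hlim_ip_continuousOn hHc hvc (hfc k₀)
  have hi0 : ∀ x, x ∉ K → ip (M.H x) (fun a => v a x) (fun a => f k₀ a x) = 0 := fun x hx =>
    hlim_ip_zero _ _ _ (Or.inr fun a => hK0 k₀ a x hx)
  have hI : Filter.Tendsto (fun n => ∫ x, ip (M.H x) (fun a => v a x) (fun a => f k₀ a x) *
      (Real.exp (-(χ n x - θ n x)) : ℂ) ∂μ) Filter.atTop
      (nhds (∫ x, ip (M.H x) (fun a => v a x) (fun a => f k₀ a x) ∂μ)) := by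
    refine tendsto_integral_of_dominated_convergence
      (fun x => ‖ip (M.H x) (fun a => v a x) (fun a => f k₀ a x)‖ * 8) ?_ ?_ ?_ ?_
    · intro n
      refine (hlim_continuous hW hKc.isClosed hKW (hic.mul ?_) ?_).aestronglyMeasurable
      · exact Complex.continuous_ofReal.comp_continuousOn
          (Real.continuous_exp.comp_continuousOn ((hχc n).sub (hθc n)).neg)
      · intro x hx
        simp only [Pi.mul_apply]
        rw [hi0 x hx, zero_mul]
    · refine hlim_integrable μ hW hKc hKW (hic.norm.mul continuousOn_const) ?_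
      intro x hx
      rw [hi0 x hx, norm_zero, zero_mul]
    · intro n
      refine Filter.Eventually.of_forall fun x => ?_
      by_cases hx : x ∈ K
      · rw [norm_mul]
        refine mul_le_mul_of_nonneg_left ?_ (norm_nonneg _)
        rw [Complex.norm_real, Real.norm_eq_abs, abs_of_pos (Real.exp_pos _)]
        obtain ⟨h1, h2, h3, h4, h5, h6⟩ := hw (T n) (hT0 n) (hT1 n)
        have h7 := h6 x (hKW hx)
        have h8 := h5 x (hKW hx)
        refine (Real.exp_le_exp.2 ?_).trans h8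
        simp only [χ, θ]
        linarith
      · rw [hi0 x hx, zero_mul, norm_zero, zero_mul]
    · refine Filter.Eventually.of_forall fun x => ?_
      have h1 : Filter.Tendsto (fun n => (Real.exp (-(χ n x - θ n x)) : ℂ)) Filter.atTop
          (nhds ((Real.exp (-(0 - 0)) : ℝ) : ℂ)) :=
        (Complex.continuous_ofReal.tendsto _).comp
          ((Real.continuous_exp.tendsto _).comp ((hχlim x).sub (hθlim x)).neg)
      have h2 := h1.const_mul (ip (M.H x) (fun a => v a x) (fun a => f k₀ a x))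
      simpa using h2
  -- the right side
  let r : E → ℝ := fun x => (ip (M.H x) (p x) (q x)).re + (ip (M.H x) (q x) (p x)).re
  have hnpc : ContinuousOn (fun x => M.nsq x (p x)) W :=
    Complex.continuous_re.comp_continuousOn (hlim_ip_continuousOn hHc hpc hpc)
  have hnqc : ContinuousOn (fun x => M.nsq x (q x)) W :=
    Complex.continuous_re.comp_continuousOn (hlim_ip_continuousOn hHc hqc hqc)
  have hrc : ContinuousOn r W :=
    (Complex.continuous_re.comp_continuousOn (hlim_ip_continuousOn hHc hpc hqc)).add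
      (Complex.continuous_re.comp_continuousOn (hlim_ip_continuousOn hHc hqc hpc))
  have hnp0 : ∀ x, x ∉ K → M.nsq x (p x) = 0 := fun x hx => hnz x _ (hp0 x hx)
  have hnq0 : ∀ x, x ∉ K → M.nsq x (q x) = 0 := fun x hx => hnz x _ (hq0 x hx)
  have hr0 : ∀ x, x ∉ K → r x = 0 := fun x hx => by
    simp only [r]
    rw [hlim_ip_zero (M.H x) (p x) (q x) (Or.inl (hp0 x hx)),
      hlim_ip_zero (M.H x) (q x) (p x) (Or.inl (hq0 x hx))]
    simp
  have hJ : Filter.Tendsto (fun n => ∫ x, M.nsq x (M.LL (fun y => χ n y - θ n y) f x) *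
      Real.exp (-χ n x) ∂μ) Filter.atTop (nhds (∫ x, M.nsq x (p x) ∂μ)) := by
    have h0 : (fun n => ∫ x, M.nsq x (M.LL (fun y => χ n y - θ n y) f x) *
        Real.exp (-χ n x) ∂μ) = fun n => ∫ x, (M.nsq x (p x) - s n x * r x +
          s n x ^ 2 * M.nsq x (q x)) * Real.exp (-χ n x) ∂μ := by
      funext n
      congr 1
      funext x
      rw [hLL]
    rw [h0]
    refine tendsto_integral_of_dominated_convergence
      (fun x => |M.nsq x (p x)| + (5 * B * ρ x ^ 4 + 2) * |r x| +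
        (5 * B * ρ x ^ 4 + 2) ^ 2 * |M.nsq x (q x)|) ?_ ?_ ?_ ?_
    · intro n
      refine (hlim_continuous hW hKc.isClosed hKW (ContinuousOn.mul ((hnpc.sub
        ((hsc n).mul hrc)).add (((hsc n).pow 2).mul hnqc))
        (Real.continuous_exp.comp_continuousOn (hχc n).neg)) ?_).aestronglyMeasurable
      intro x hx
      change (M.nsq x (p x) - s n x * r x + s n x ^ 2 * M.nsq x (q x)) *
        Real.exp (-χ n x) = 0
      rw [hnp0 x hx, hnq0 x hx, hr0 x hx]
      simp
    · have hSc : ContinuousOn (fun x => 5 * B * ρ x ^ 4 + 2) W :=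
        (continuousOn_const.mul (hρc.pow 4)).add continuousOn_const
      refine hlim_integrable μ hW hKc hKW ((hnpc.abs.add (hSc.mul hrc.abs)).add
        ((hSc.pow 2).mul hnqc.abs)) ?_
      intro x hx
      rw [hnp0 x hx, hnq0 x hx, hr0 x hx]
      simp
    · intro n
      refine Filter.Eventually.of_forall fun x => ?_
      by_cases hx : x ∈ K
      · have hxW := hKW hx
        have hρ1 := hρ.one_le x hxW
        have hρ0 : 0 ≤ ρ x := zero_le_one.trans hρ1
        have hB0 : 0 ≤ B := zero_le_one.trans hB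
        have hT2 : T n ^ 2 ≤ 1 := pow_le_one₀ (hT0 n).le (hT1 n)
        have hs1 : |s n x| ≤ 5 * B * ρ x ^ 4 + 2 := by
          have h1 : 0 ≤ B * T n ^ 2 * (5 * ρ x ^ 4) := by positivity
          have h2 : B * T n ^ 2 * (5 * ρ x ^ 4) ≤ 5 * B * ρ x ^ 4 := by
            calc B * T n ^ 2 * (5 * ρ x ^ 4) ≤ B * 1 * (5 * ρ x ^ 4) := by gcongr
              _ = 5 * B * ρ x ^ 4 := by ring
          have h3 : 0 ≤ T n / (1 + T n * ρ x) :=
            div_nonneg (hT0 n).le (zero_le_one.trans (hpos n x hxW))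
          have h4 : T n / (1 + T n * ρ x) ≤ 1 := by
            rw [div_le_one (zero_lt_one.trans_le (hpos n x hxW))]
            exact (hT1 n).trans (hpos n x hxW)
          rw [abs_le]
          constructor <;> simp only [s] <;> linarith
        have he1 : Real.exp (-χ n x) ≤ 1 := by
          rw [Real.exp_le_one_iff]
          have := hχ0 n x hxW
          linarith
        rw [Real.norm_eq_abs, abs_mul, abs_of_pos (Real.exp_pos (-χ n x))]
        refine (mul_le_mul_of_nonneg_left he1 (abs_nonneg _)).trans ?_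
        rw [mul_one]
        refine (abs_add_le _ _).trans (add_le_add ((abs_sub _ _).trans ?_) ?_)
        · refine add_le_add le_rfl ?_
          rw [abs_mul]
          exact mul_le_mul_of_nonneg_right hs1 (abs_nonneg _)
        · rw [abs_mul, abs_pow]
          exact mul_le_mul_of_nonneg_right (pow_le_pow_left₀ (abs_nonneg _) hs1 2)
            (abs_nonneg _)
      · rw [hnp0 x hx, hnq0 x hx, hr0 x hx]
        simp
    · refine Filter.Eventually.of_forall fun x => ?_
      have h1 : Filter.Tendsto (fun n => Real.exp (-χ n x)) Filter.atTop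
          (nhds (Real.exp (-0))) := (Real.continuous_exp.tendsto _).comp (hχlim x).neg
      have h2 := (((hslim x).mul_const (r x)).const_sub (M.nsq x (p x))).add
        (((hslim x).pow 2).mul_const (M.nsq x (q x)))
      have h3 := h2.mul h1
      simpa using h3
  have hfin := le_of_tendsto_of_tendsto' ((hI.norm).pow 2) (hJ.const_mul (2 * (8 * C₁))) key
  have h16 : 2 * (8 * C₁) = 16 * C₁ := by ring
  rw [h16] at hfin
  exact hfin

end Pool.Agent.Lib_KF

end

/-! ### from `Lib_KF.HMain` -/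

section

/-! H11: Hörmander's theorem. -/

open MeasureTheory Complex
open scoped ENNReal ContDiff ComplexConjugate

namespace Pool.Agent.Lib_KF

open GPn

/-! ### Hilbert space -/

private theorem hmain_riesz {𝓗 V : Type*} [NormedAddCommGroup 𝓗] [InnerProductSpace ℂ 𝓗]
    [CompleteSpace 𝓗] [AddCommGroup V] [Module ℂ V] (T : V →ₗ[ℂ] 𝓗) (l : V →ₗ[ℂ] ℂ) (C : ℝ)
    (hC : 0 ≤ C) (h : ∀ f, ‖l f‖ ^ 2 ≤ C * ‖T f‖ ^ 2) :
    ∃ U : 𝓗, ‖U‖ ^ 2 ≤ C ∧ ∀ f, inner ℂ U (T f) = l f := by
  have hle : ∀ f, ‖l f‖ ≤ √C * ‖T f‖ := by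
    intro f
    have h1 := Real.sqrt_le_sqrt (h f)
    rwa [Real.sqrt_sq (norm_nonneg _), Real.sqrt_mul hC, Real.sqrt_sq (norm_nonneg _)] at h1
  have hk : ∀ f, T f = 0 → l f = 0 := by
    intro f hf
    have := hle f
    rw [hf, norm_zero, mul_zero] at this
    exact norm_le_zero_iff.1 this
  obtain ⟨S, hS⟩ := T.rangeRestrict.exists_rightInverse_of_surjective (LinearMap.range_rangeRestrict T)
  have hS1 : ∀ y : LinearMap.range T, T (S y) = y := by
    intro y
    have := congrArg (fun g : LinearMap.range T →ₗ[ℂ] LinearMap.range T => ((g y : _) : 𝓗)) hS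
    simpa using this
  have hgT : ∀ f, l (S ⟨T f, LinearMap.mem_range_self T f⟩) = l f := by
    intro f
    have h1 : T (S ⟨T f, LinearMap.mem_range_self T f⟩ - f) = 0 := by
      rw [map_sub, hS1]
      simp
    have h2 := hk _ h1
    rw [map_sub] at h2
    exact sub_eq_zero.1 h2
  set g : LinearMap.range T →ₗ[ℂ] ℂ := l ∘ₗ S with hg
  have hgb : ∀ y : LinearMap.range T, ‖g y‖ ≤ √C * ‖y‖ := by
    intro y
    have := hle (S y)
    rw [hS1] at this
    simpa [hg] using this
  obtain ⟨G, hG1, hG2⟩ := exists_extension_norm_eq (LinearMap.range T) (g.mkContinuous (√C) hgb)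
  refine ⟨(InnerProductSpace.toDual ℂ 𝓗).symm G, ?_, ?_⟩
  · have h1 : ‖(InnerProductSpace.toDual ℂ 𝓗).symm G‖ ≤ √C := by
      rw [LinearIsometryEquiv.norm_map, hG2]
      exact g.mkContinuous_norm_le (Real.sqrt_nonneg _) _
    calc _ ≤ (√C) ^ 2 := pow_le_pow_left₀ (norm_nonneg _) h1 2
      _ = C := Real.sq_sqrt hC
  · intro f
    rw [InnerProductSpace.toDual_symm_apply]
    have := hG1 ⟨T f, LinearMap.mem_range_self T f⟩
    rw [LinearMap.mkContinuous_apply] at this
    change G (T f) = _ at this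
    rw [this]
    exact hgT f

/-! ### algebra of `ip` -/

section
variable {D : ℕ}

private theorem hmain_ip_add_left (H : Fin D → Fin D → ℂ) (u u' v : Fin D → ℂ) :
    ip H (fun a => u a + u' a) v = ip H u v + ip H u' v := by
  simp only [ip, mul_add, Finset.sum_add_distrib]

private theorem hmain_ip_smul_left (H : Fin D → Fin D → ℂ) (c : ℂ) (u v : Fin D → ℂ) :
    ip H (fun a => c * u a) v = c * ip H u v := by
  simp only [ip, Finset.mul_sum]
  refine Finset.sum_congr rfl fun a _ => Finset.sum_congr rfl fun e _ => ?_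
  ring

private theorem hmain_ip_sum_left {κ : Type*} (s : Finset κ) (H : Fin D → Fin D → ℂ)
    (c : κ → ℂ) (u : κ → Fin D → ℂ) (v : Fin D → ℂ) :
    ip H (fun a => ∑ i ∈ s, c i * u i a) v = ∑ i ∈ s, c i * ip H (u i) v := by
  classical
  induction s using Finset.induction_on with
  | empty => simp [ip]
  | insert i s hi ih =>
    simp only [Finset.sum_insert hi]
    rw [hmain_ip_add_left, hmain_ip_smul_left, ih]

private theorem hmain_ip_add_right (H : Fin D → Fin D → ℂ) (u v v' : Fin D → ℂ) :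
    ip H u (fun a => v a + v' a) = ip H u v + ip H u v' := by
  simp only [ip, map_add, add_mul, Finset.sum_add_distrib]

private theorem hmain_ip_smul_right (H : Fin D → Fin D → ℂ) (c : ℂ) (u v : Fin D → ℂ) :
    ip H u (fun a => c * v a) = conj c * ip H u v := by
  simp only [ip, Finset.mul_sum, map_mul]
  refine Finset.sum_congr rfl fun a _ => Finset.sum_congr rfl fun e _ => ?_
  ring

private theorem hmain_ip_sum_right {κ : Type*} (s : Finset κ) (H : Fin D → Fin D → ℂ)
    (c : κ → ℂ) (u : Fin D → ℂ) (v : κ → Fin D → ℂ) :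
    ip H u (fun a => ∑ i ∈ s, c i * v i a) = ∑ i ∈ s, conj (c i) * ip H u (v i) := by
  classical
  induction s using Finset.induction_on with
  | empty => simp [ip]
  | insert i s hi ih =>
    simp only [Finset.sum_insert hi]
    rw [hmain_ip_add_right, hmain_ip_smul_right, ih]

private theorem hmain_frame_ip (H P Q : Fin D → Fin D → ℂ)
    (hP : ∀ i j, ip H (P i) (P j) = if i = j then 1 else 0)
    (hPQ : ∀ u : Fin D → ℂ, ∀ a, ∑ i, (∑ c, Q i c * u c) * P i a = u a) (z w : Fin D → ℂ) :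
    ip H (fun a => ∑ i, z i * P i a) w = ∑ i, z i * conj (∑ c, Q i c * w c) := by
  have hw : w = fun a => ∑ i, (∑ c, Q i c * w c) * P i a := by
    funext a
    exact (hPQ w a).symm
  rw [hmain_ip_sum_left]
  refine Finset.sum_congr rfl fun i _ => ?_
  congr 1
  conv_lhs => rw [hw]
  rw [hmain_ip_sum_right]
  simp only [hP]
  simp

private theorem hmain_frame_nsq (H P : Fin D → Fin D → ℂ)
    (hP : ∀ i j, ip H (P i) (P j) = if i = j then 1 else 0) (z : Fin D → ℂ) :
    (ip H (fun a => ∑ i, z i * P i a) (fun a => ∑ i, z i * P i a)).re = ∑ i, ‖z i‖ ^ 2 := by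
  rw [hmain_ip_sum_left]
  simp only [hmain_ip_sum_right, hP]
  simp only [mul_ite, mul_one, mul_zero, Finset.sum_ite_eq, Finset.mem_univ, if_true]
  rw [re_sum]
  refine Finset.sum_congr rfl fun i _ => ?_
  rw [mul_conj, normSq_eq_norm_sq, ofReal_re]

/-- `ip H u v` in terms of `H v` -/
private theorem hmain_ip_herm (H : Fin D → Fin D → ℂ) (hH : ∀ a c, H a c = conj (H c a))
    (u v : Fin D → ℂ) : ip H u v = ∑ c, conj (∑ a, H c a * v a) * u c := by
  unfold ip
  rw [Finset.sum_comm]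
  refine Finset.sum_congr rfl fun c _ => ?_
  rw [map_sum, Finset.sum_mul]
  refine Finset.sum_congr rfl fun a _ => ?_
  rw [map_mul, ← hH a c]
  ring

end

/-! ### calculus -/

section
variable {E : Type} [NormedAddCommGroup E] [NormedSpace ℂ E]

private theorem hmain_dz_add (v : E) {F G : E → ℂ} {x : E} (hF : DifferentiableAt ℝ F x)
    (hG : DifferentiableAt ℝ G x) : dz v (fun y => F y + G y) x = dz v F x + dz v G x := by
  have h := fderiv_fun_add hF hG
  simp only [dz, h, add_apply]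
  ring

private theorem hmain_dz_mul (v : E) {F G : E → ℂ} {x : E} (hF : DifferentiableAt ℝ F x)
    (hG : DifferentiableAt ℝ G x) :
    dz v (fun y => F y * G y) x = dz v F x * G x + F x * dz v G x := by
  have h : fderiv ℝ (fun y => F y * G y) x = F x • fderiv ℝ G x + G x • fderiv ℝ F x :=
    fderiv_fun_mul hF hG
  simp only [dz, h, add_apply, smul_apply, smul_eq_mul]
  ring

private theorem hmain_dz_const_mul (v : E) (c : ℂ) {F : E → ℂ} {x : E}
    (hF : DifferentiableAt ℝ F x) : dz v (fun y => c * F y) x = c * dz v F x := by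
  have h : fderiv ℝ (fun y => c * F y) x = c • fderiv ℝ F x := fderiv_const_mul hF c
  simp only [dz, h, smul_apply, smul_eq_mul]
  ring

private theorem hmain_dz_sum {κ : Type*} (s : Finset κ) (v : E) {F : κ → E → ℂ} {x : E}
    (hF : ∀ i ∈ s, DifferentiableAt ℝ (F i) x) :
    dz v (fun y => ∑ i ∈ s, F i y) x = ∑ i ∈ s, dz v (F i) x := by
  have h : fderiv ℝ (fun y => ∑ i ∈ s, F i y) x = ∑ i ∈ s, fderiv ℝ (F i) x := fderiv_fun_sum hF
  simp only [dz, h, FunLike.coe_sum, Finset.sum_apply]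
  rw [Finset.mul_sum, ← Finset.sum_sub_distrib, Finset.sum_div]

private theorem hmain_dz_congr (v : E) {F G : E → ℂ} {x : E} (h : F =ᶠ[nhds x] G) :
    dz v F x = dz v G x := by
  simp only [dz, h.fderiv_eq]

private theorem hmain_dz_zero (v : E) (x : E) : dz v (fun _ => (0 : ℂ)) x = 0 := by
  simp [dz]

private theorem hmain_dz_conj (v : E) {F : E → ℂ} {x : E} (hF : DifferentiableAt ℝ F x) :
    conj (dz v (fun y => conj (F y)) x) = dzb v F x := by
  have h : fderiv ℝ (fun y => conj (F y)) x = (conjCLE : ℂ →L[ℝ] ℂ).comp (fderiv ℝ F x) :=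
    (conjCLE.toContinuousLinearMap.hasFDerivAt.comp x hF.hasFDerivAt).fderiv
  simp only [dz, dzb, h]
  simp [map_ofNat]

private theorem hmain_dz_smooth {F : E → ℂ} (hF : ContDiff ℝ ∞ F) (v : E) :
    ContDiff ℝ ∞ (dz v F) := by
  have h : ContDiff ℝ ∞ (fderiv ℝ F) := hF.fderiv_right (m := ∞) (by simp)
  have h1 : ContDiff ℝ ∞ (fun x => fderiv ℝ F x v) := h.clm_apply contDiff_const
  have h2 : ContDiff ℝ ∞ (fun x => fderiv ℝ F x (I • v)) := h.clm_apply contDiff_const
  have : dz v F = fun x => (fderiv ℝ F x v - I * fderiv ℝ F x (I • v)) / 2 := rfl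
  rw [this]
  exact (h1.sub (contDiff_const.mul h2)).div_const 2

private theorem hmain_scw_zero {W : Set E} : SCW W (fun _ => (0 : ℂ)) :=
  ⟨contDiff_const, HasCompactSupport.zero, by
    have : tsupport (fun _ : E => (0 : ℂ)) = ∅ := tsupport_eq_empty_iff.2 rfl
    rw [this]; exact Set.empty_subset _⟩

private theorem hmain_scw_add {W : Set E} {f g : E → ℂ} (hf : SCW W f) (hg : SCW W g) :
    SCW W (fun x => f x + g x) := by
  refine ⟨hf.1.add hg.1, hf.2.1.add hg.2.1, ?_⟩
  exact (tsupport_add f g).trans (Set.union_subset hf.2.2 hg.2.2)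

private theorem hmain_scw_smul {W : Set E} {f : E → ℂ} (c : ℂ) (hf : SCW W f) :
    SCW W (fun x => c * f x) := by
  refine ⟨contDiff_const.mul hf.1, hf.2.1.mul_left, ?_⟩
  exact (tsupport_mul_subset_right (f := fun _ => c) (g := f)).trans hf.2.2

/-- a function smooth on `W` times (the conjugate of) a test function -/
private theorem hmain_scw_mul {W : Set E} (hW : IsOpen W) {G f : E → ℂ}
    (hG : ContDiffOn ℝ ∞ G W) (hf : SCW W f) : SCW W (fun x => G x * conj (f x)) := by
  have hs : Function.support (fun x => G x * conj (f x)) ⊆ Function.support f := by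
    intro x hx
    rw [Function.mem_support] at hx ⊢
    intro h
    exact hx (by rw [h, map_zero, mul_zero])
  have hts : tsupport (fun x => G x * conj (f x)) ⊆ tsupport f := closure_mono hs
  refine ⟨?_, ?_, hts.trans hf.2.2⟩
  · rw [contDiff_iff_contDiffAt]
    intro x
    by_cases hx : x ∈ tsupport f
    · exact ((hG x (hf.2.2 hx)).contDiffAt (hW.mem_nhds (hf.2.2 hx))).mul
        (conjCLE.contDiff.contDiffAt.comp x hf.1.contDiffAt)
    · have h0 : (fun x => G x * conj (f x)) =ᶠ[nhds x] fun _ => 0 := by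
        filter_upwards [(isClosed_tsupport f).isOpen_compl.mem_nhds hx] with y hy
        rw [image_eq_zero_of_notMem_tsupport hy, map_zero, mul_zero]
      exact contDiffAt_const.congr_of_eventuallyEq h0
  · exact hf.2.1.mono hs

end

/-! ### the inverse matrix -/

section
variable {E : Type} [NormedAddCommGroup E] [NormedSpace ℂ E] {D : ℕ}

private theorem hmain_det_smooth {W : Set E} {m : ℕ} (B : E → Matrix (Fin m) (Fin m) ℂ)
    (hB : ∀ a c, ContDiffOn ℝ ∞ (fun x => B x a c) W) :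
    ContDiffOn ℝ ∞ (fun x => (B x).det) W := by
  simp only [Matrix.det_apply]
  refine ContDiffOn.sum fun σ _ => ?_
  refine ContDiffOn.const_smul _ ?_
  exact contDiffOn_prod fun i _ => hB _ _

private theorem hmain_inv_smooth {W : Set E} (B : E → Matrix (Fin D) (Fin D) ℂ)
    (hB : ∀ a c, ContDiffOn ℝ ∞ (fun x => B x a c) W) (hd : ∀ x ∈ W, (B x).det ≠ 0) (a c : Fin D) :
    ContDiffOn ℝ ∞ (fun x => (B x)⁻¹ a c) W := by
  have h : ∀ x, (B x)⁻¹ a c = ((B x).det)⁻¹ * ((B x).updateRow c (Pi.single a 1)).det := by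
    intro x
    rw [Matrix.inv_def, Ring.inverse_eq_inv', Matrix.smul_apply, smul_eq_mul,
      Matrix.adjugate_apply]
  simp only [h]
  refine ((hmain_det_smooth B hB).inv hd).mul (hmain_det_smooth _ fun i j => ?_)
  by_cases hi : i = c
  · subst hi
    simp only [Matrix.updateRow_self]
    exact contDiffOn_const
  · simp only [Matrix.updateRow_ne hi]
    exact hB i j

private theorem hmain_det_ne (H : Fin D → Fin D → ℂ)
    (hpos : ∀ u : Fin D → ℂ, u ≠ 0 → 0 < (ip H u u).re) : (Matrix.of H).det ≠ 0 := by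
  intro h
  obtain ⟨u, hu, hu0⟩ := Matrix.exists_mulVec_eq_zero_iff.2 h
  have h1 : ip H u u = 0 := by
    unfold ip
    have h2 : ∀ a, ∑ c, H a c * u c = 0 := by
      intro a
      have := congrFun hu0 a
      simpa [Matrix.mulVec, dotProduct] using this
    simp only [mul_assoc, ← Finset.mul_sum, h2, mul_zero, Finset.sum_const_zero]
  have := hpos u hu
  rw [h1] at this
  simp at this

end

/-! ### the main part -/

section
variable {E : Type} [NormedAddCommGroup E] [NormedSpace ℂ E] [FiniteDimensional ℂ E]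
  [MeasurableSpace E] [BorelSpace E] {W : Set E} {ι : Type} [Fintype ι]
  {b : Module.Basis ι ℂ E} {D : ℕ}

/-- test forms -/
private def hmain_V (W : Set E) (ι : Type) (D : ℕ) : Submodule ℂ (ι → Fin D → E → ℂ) where
  carrier := {f | ∀ k a, SCW W (f k a)}
  add_mem' := fun hf hg k a => hmain_scw_add (hf k a) (hg k a)
  zero_mem' := fun _ _ => hmain_scw_zero
  smul_mem' := fun c _ hf k a => hmain_scw_smul c (hf k a)

/-- the divergence -/
private noncomputable def hmain_Div (M : HMet W b D) (f : ι → Fin D → E → ℂ) (x : E)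
    (a : Fin D) : ℂ := ∑ k, M.ch k (f k) x a

omit [FiniteDimensional ℂ E] [MeasurableSpace E] [BorelSpace E] in
private theorem hmain_diff {f : E → ℂ} (hf : SCW W f) (x : E) : DifferentiableAt ℝ f x :=
  hf.1.contDiffAt.differentiableAt (by simp)

omit [FiniteDimensional ℂ E] [MeasurableSpace E] [BorelSpace E] in
private theorem hmain_Div_add (M : HMet W b D) (f g : ι → Fin D → E → ℂ)
    (hf : ∀ k a, SCW W (f k a)) (hg : ∀ k a, SCW W (g k a)) (x : E) (a : Fin D) :
    hmain_Div M (fun k a x => f k a x + g k a x) x a = hmain_Div M f x a + hmain_Div M g x a := by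
  simp only [hmain_Div, HMet.ch]
  rw [← Finset.sum_add_distrib]
  refine Finset.sum_congr rfl fun k _ => ?_
  rw [hmain_dz_add _ (hmain_diff (hf k a) x) (hmain_diff (hg k a) x)]
  simp only [mul_add, Finset.sum_add_distrib]
  ring

omit [FiniteDimensional ℂ E] [MeasurableSpace E] [BorelSpace E] in
private theorem hmain_Div_smul (M : HMet W b D) (c : ℂ) (f : ι → Fin D → E → ℂ)
    (hf : ∀ k a, SCW W (f k a)) (x : E) (a : Fin D) :
    hmain_Div M (fun k a x => c * f k a x) x a = c * hmain_Div M f x a := by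
  simp only [hmain_Div, HMet.ch]
  rw [Finset.mul_sum]
  refine Finset.sum_congr rfl fun k _ => ?_
  rw [hmain_dz_const_mul _ _ (hmain_diff (hf k a) x), mul_add, Finset.mul_sum]
  congr 1
  refine Finset.sum_congr rfl fun e _ => ?_
  ring

omit [FiniteDimensional ℂ E] [MeasurableSpace E] [BorelSpace E] in
private theorem hmain_ch_cont (M : HMet W b D) (k : ι) (u : Fin D → E → ℂ)
    (hu : ∀ a, SCW W (u a)) (a : Fin D) : ContinuousOn (fun x => M.ch k u x a) W := by
  unfold HMet.ch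
  refine ((hmain_dz_smooth (hu a).1 (b k)).continuous.continuousOn).add ?_
  exact continuousOn_finsetSum _ fun c _ =>
    (M.smA k a c).continuousOn.mul (hu c).1.continuous.continuousOn

omit [FiniteDimensional ℂ E] [MeasurableSpace E] [BorelSpace E] in
private theorem hmain_Div_cont (M : HMet W b D) (f : ι → Fin D → E → ℂ)
    (hf : ∀ k a, SCW W (f k a)) (a : Fin D) : ContinuousOn (fun x => hmain_Div M f x a) W :=
  continuousOn_finsetSum _ fun k _ => hmain_ch_cont M k (f k) (hf k) a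

omit [FiniteDimensional ℂ E] [MeasurableSpace E] [BorelSpace E] in
private theorem hmain_ch_zero (M : HMet W b D) (k : ι) (u : Fin D → E → ℂ) (x : E)
    (hx : ∀ a, x ∉ tsupport (u a)) (a : Fin D) : M.ch k u x a = 0 := by
  unfold HMet.ch
  have h1 : fderiv ℝ (u a) x = 0 := fderiv_of_notMem_tsupport ℝ (hx a)
  have h2 : ∀ c, u c x = 0 := fun c => image_eq_zero_of_notMem_tsupport (hx c)
  simp [dz, h1, h2]

omit [FiniteDimensional ℂ E] [MeasurableSpace E] [BorelSpace E] in
private theorem hmain_Div_zero (M : HMet W b D) (f : ι → Fin D → E → ℂ) (x : E)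
    (hx : x ∉ ⋃ k, ⋃ a, tsupport (f k a)) (a : Fin D) : hmain_Div M f x a = 0 := by
  simp only [Set.mem_iUnion, not_exists] at hx
  exact Finset.sum_eq_zero fun k _ => hmain_ch_zero M k (f k) x (hx k) a

omit [FiniteDimensional ℂ E] [MeasurableSpace E] [BorelSpace E] in
private theorem hmain_K_compact (f : ι → Fin D → E → ℂ) (hf : ∀ k a, SCW W (f k a)) :
    IsCompact (⋃ k, ⋃ a, tsupport (f k a)) :=
  isCompact_iUnion fun k => isCompact_iUnion fun a => (hf k a).2.1

omit [FiniteDimensional ℂ E] [MeasurableSpace E] [BorelSpace E] [Fintype ι] in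
private theorem hmain_K_sub (f : ι → Fin D → E → ℂ) (hf : ∀ k a, SCW W (f k a)) :
    (⋃ k, ⋃ a, tsupport (f k a)) ⊆ W :=
  Set.iUnion_subset fun k => Set.iUnion_subset fun a => (hf k a).2.2

omit [NormedSpace ℂ E] [FiniteDimensional ℂ E] in
private theorem hmain_integrable {F : Type*} [NormedAddCommGroup F] (μ : Measure E)
    [μ.IsAddHaarMeasure] {K : Set E} (hK : IsCompact K) (hKW : K ⊆ W) {g : E → F}
    (hg : ContinuousOn g W) (h0 : ∀ x, x ∉ K → g x = 0) : Integrable g μ := by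
  have h1 : IntegrableOn g K μ := (hg.mono hKW).integrableOn_compact hK
  rwa [integrableOn_iff_integrable_of_support_subset] at h1
  intro x hx
  by_contra h
  exact hx (h0 x h)

omit [FiniteDimensional ℂ E] [MeasurableSpace E] [BorelSpace E] in
private theorem hmain_ip_cont (M : HMet W b D) (u v : E → Fin D → ℂ)
    (hu : ∀ a, ContinuousOn (fun x => u x a) W) (hv : ∀ a, ContinuousOn (fun x => v x a) W) :
    ContinuousOn (fun x => ip (M.H x) (u x) (v x)) W := by
  unfold ip
  refine continuousOn_finsetSum _ fun a _ => continuousOn_finsetSum _ fun c _ => ?_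
  exact ((Complex.continuous_conj.comp_continuousOn (hv a)).mul (M.smH a c).continuousOn).mul (hu c)

private theorem hmain_ip_zero_left (H : Fin D → Fin D → ℂ) (u v : Fin D → ℂ)
    (h : ∀ a, u a = 0) : ip H u v = 0 := by
  simp [ip, h]

private theorem hmain_ip_zero_right (H : Fin D → Fin D → ℂ) (u v : Fin D → ℂ)
    (h : ∀ a, v a = 0) : ip H u v = 0 := by
  simp [ip, h]

omit [FiniteDimensional ℂ E] in
private theorem hmain_nsq_int (M : HMet W b D) (μ : Measure E) [μ.IsAddHaarMeasure]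
    (f : ι → Fin D → E → ℂ) (hf : ∀ k a, SCW W (f k a)) :
    Integrable (fun x => M.nsq x (hmain_Div M f x)) μ := by
  refine hmain_integrable μ (hmain_K_compact f hf) (hmain_K_sub f hf) ?_ ?_
  · exact Complex.continuous_re.comp_continuousOn
      (hmain_ip_cont M _ _ (hmain_Div_cont M f hf) (hmain_Div_cont M f hf))
  · intro x hx
    unfold HMet.nsq
    rw [hmain_ip_zero_left _ _ _ (hmain_Div_zero M f x hx)]
    simp

omit [FiniteDimensional ℂ E] in
private theorem hmain_ip_int (M : HMet W b D) (μ : Measure E) [μ.IsAddHaarMeasure] (k₀ : ι)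
    (v : Fin D → E → ℂ) (hv : ∀ a, ContDiffOn ℝ ∞ (v a) W)
    (f : ι → Fin D → E → ℂ) (hf : ∀ k a, SCW W (f k a)) :
    Integrable (fun x => ip (M.H x) (fun a => v a x) (fun a => f k₀ a x)) μ := by
  refine hmain_integrable μ (hmain_K_compact f hf) (hmain_K_sub f hf) ?_ ?_
  · exact hmain_ip_cont M (fun x a => v a x) (fun x a => f k₀ a x)
      (fun a => (hv a).continuousOn) (fun a => (hf k₀ a).1.continuous.continuousOn)
  · intro x hx
    simp only [Set.mem_iUnion, not_exists] at hx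
    exact hmain_ip_zero_right _ _ _ fun a => image_eq_zero_of_notMem_tsupport (hx k₀ a)

/-- the isometry given by the frame -/
private noncomputable def hmain_T (Q : E → Fin D → Fin D → ℂ) (w : E → Fin D → ℂ) (x : E) :
    EuclideanSpace ℂ (Fin D) := WithLp.toLp 2 (fun i => ∑ c, Q x i c * w x c)

private theorem hmain_aesm {X : Type*} [MeasurableSpace X] {ν : Measure X} (g : Fin D → X → ℂ)
    (hg : ∀ i, AEStronglyMeasurable (g i) ν) :
    AEStronglyMeasurable (fun x => (WithLp.toLp 2 (fun i => g i x) : EuclideanSpace ℂ (Fin D)))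
      ν := by
  have h1 : AEMeasurable (fun x => fun i => g i x) ν :=
    aemeasurable_pi_iff.2 fun i => (hg i).aemeasurable
  exact (PiLp.continuous_toLp 2 _).comp_aestronglyMeasurable h1.aestronglyMeasurable

omit [FiniteDimensional ℂ E] in
private theorem hmain_memLp (M : HMet W b D) (hW : IsOpen W) (μ : Measure E)
    [μ.IsAddHaarMeasure] (Q : E → Fin D → Fin D → ℂ)
    (hQ : ∀ i a, Measurable fun x => Q x i a)
    (hQn : ∀ x ∈ W, ∀ u : Fin D → ℂ, M.nsq x u = ∑ i, ‖∑ c, Q x i c * u c‖ ^ 2)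
    (f : ι → Fin D → E → ℂ) (hf : ∀ k a, SCW W (f k a)) :
    MemLp (hmain_T Q (hmain_Div M f)) 2 (μ.restrict W) := by
  have hm : AEStronglyMeasurable (hmain_T Q (hmain_Div M f)) (μ.restrict W) := by
    refine hmain_aesm (fun i x => ∑ c, Q x i c * hmain_Div M f x c) fun i => ?_
    refine Finset.aestronglyMeasurable_fun_sum _ fun c _ => ?_
    exact (hQ i c).aestronglyMeasurable.mul
      ((hmain_Div_cont M f hf c).aestronglyMeasurable hW.measurableSet)
  rw [memLp_two_iff_integrable_sq_norm hm]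
  refine ((hmain_nsq_int M μ f hf).integrableOn (s := W)).congr ?_
  filter_upwards [ae_restrict_mem hW.measurableSet] with x hx
  rw [hQn x hx, EuclideanSpace.norm_sq_eq]
  rfl

/-- norms in `Lp` -/
private theorem hmain_norm_sq {X : Type*} [MeasurableSpace X] {ν : Measure X}
    (u : Lp (EuclideanSpace ℂ (Fin D)) 2 ν) : ‖u‖ ^ 2 = ∫ x, ‖u x‖ ^ 2 ∂ν := by
  have h := @inner_self_eq_norm_sq_to_K ℂ (Lp (EuclideanSpace ℂ (Fin D)) 2 ν) _ _ _ u
  rw [L2.inner_def] at h
  have e : ∀ x, inner ℂ (u x) (u x) = ((‖u x‖ ^ 2 : ℝ) : ℂ) := by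
    intro x
    rw [inner_self_eq_norm_sq_to_K]
    simp
  simp only [e] at h
  rw [integral_complex_ofReal] at h
  have h2 : ((∫ x, ‖u x‖ ^ 2 ∂ν : ℝ) : ℂ) = ((‖u‖ ^ 2 : ℝ) : ℂ) := by
    rw [h]; simp
  exact_mod_cast h2.symm

/-- the isometry as a linear map -/
private noncomputable def hmain_Tl (M : HMet W b D) (hW : IsOpen W) (μ : Measure E)
    [μ.IsAddHaarMeasure] (Q : E → Fin D → Fin D → ℂ)
    (hQ : ∀ i a, Measurable fun x => Q x i a)
    (hQn : ∀ x ∈ W, ∀ u : Fin D → ℂ, M.nsq x u = ∑ i, ‖∑ c, Q x i c * u c‖ ^ 2) :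
    hmain_V W ι D →ₗ[ℂ] Lp (EuclideanSpace ℂ (Fin D)) 2 (μ.restrict W) where
  toFun f := (hmain_memLp M hW μ Q hQ hQn f.1 f.2).toLp _
  map_add' f g := by
    rw [← MemLp.toLp_add]
    refine MemLp.toLp_congr _ _ (Filter.Eventually.of_forall fun x => ?_)
    have h : ∀ a, hmain_Div M (f + g).1 x a = hmain_Div M f.1 x a + hmain_Div M g.1 x a :=
      fun a => hmain_Div_add M f.1 g.1 f.2 g.2 x a
    change hmain_T Q (hmain_Div M (f + g).1) x = hmain_T Q (hmain_Div M f.1) x +
      hmain_T Q (hmain_Div M g.1) x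
    unfold hmain_T
    rw [← WithLp.toLp_add]
    congr 1
    funext i
    simp only [h, mul_add, Finset.sum_add_distrib, Pi.add_apply]
  map_smul' c f := by
    rw [RingHom.id_apply, ← MemLp.toLp_const_smul]
    refine MemLp.toLp_congr _ _ (Filter.Eventually.of_forall fun x => ?_)
    have h : ∀ a, hmain_Div M (c • f).1 x a = c * hmain_Div M f.1 x a :=
      fun a => hmain_Div_smul M c f.1 f.2 x a
    change hmain_T Q (hmain_Div M (c • f).1) x = c • hmain_T Q (hmain_Div M f.1) x
    unfold hmain_T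
    rw [← WithLp.toLp_smul]
    congr 1
    funext i
    simp only [h, Pi.smul_apply, smul_eq_mul, Finset.mul_sum]
    refine Finset.sum_congr rfl fun e _ => ?_
    ring

/-- the functional -/
private noncomputable def hmain_l (M : HMet W b D) (μ : Measure E) [μ.IsAddHaarMeasure] (k₀ : ι)
    (v : Fin D → E → ℂ) (hv : ∀ a, ContDiffOn ℝ ∞ (v a) W) : hmain_V W ι D →ₗ[ℂ] ℂ where
  toFun f := ∫ x, conj (ip (M.H x) (fun a => v a x) (fun a => f.1 k₀ a x)) ∂μ
  map_add' f g := by
    have hi : ∀ f : hmain_V W ι D,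
        Integrable (fun x => conj (ip (M.H x) (fun a => v a x) (fun a => f.1 k₀ a x))) μ :=
      fun f => conjCLE.toContinuousLinearMap.integrable_comp (hmain_ip_int M μ k₀ v hv f.1 f.2)
    rw [← integral_add (hi f) (hi g)]
    refine integral_congr_ae (Filter.Eventually.of_forall fun x => ?_)
    change conj (ip (M.H x) (fun a => v a x) (fun a => f.1 k₀ a x + g.1 k₀ a x)) = _
    rw [hmain_ip_add_right, map_add]
  map_smul' c f := by
    rw [RingHom.id_apply, smul_eq_mul, ← integral_const_mul]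
    refine integral_congr_ae (Filter.Eventually.of_forall fun x => ?_)
    change conj (ip (M.H x) (fun a => v a x) (fun a => c * f.1 k₀ a x)) = _
    rw [hmain_ip_smul_right, map_mul, Complex.conj_conj]

variable [DecidableEq ι]

/-- the special test form -/
private noncomputable def hmain_f (M : HMet W b D) (j : ι) (a : Fin D) (ψ : E → ℂ) :
    ι → Fin D → E → ℂ :=
  fun k c x => if k = j then (Matrix.of (M.H x))⁻¹ c a * conj (ψ x) else 0

omit [FiniteDimensional ℂ E] [MeasurableSpace E] [BorelSpace E] in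
private theorem hmain_f_scw (M : HMet W b D) (hW : IsOpen W) (j : ι) (a : Fin D) (ψ : E → ℂ)
    (hψ : SCW W ψ) (k : ι) (c : Fin D) : SCW W (hmain_f M j a ψ k c) := by
  unfold hmain_f
  by_cases hk : k = j
  · simp only [hk, if_true]
    exact hmain_scw_mul hW (hmain_inv_smooth (fun x => Matrix.of (M.H x)) (fun a c => M.smH a c)
      (fun x hx => hmain_det_ne (M.H x) (M.pos x hx)) c a) hψ
  · simp only [hk, if_false]
    exact hmain_scw_zero

omit [FiniteDimensional ℂ E] [MeasurableSpace E] [BorelSpace E] in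
private theorem hmain_f_mul (M : HMet W b D) (j : ι) (a : Fin D) (ψ : E → ℂ) (x : E)
    (hx : x ∈ W) (c : Fin D) :
    ∑ e, M.H x c e * hmain_f M j a ψ j e x = if c = a then conj (ψ x) else 0 := by
  have h1 : (Matrix.of (M.H x)) * (Matrix.of (M.H x))⁻¹ = 1 :=
    Matrix.mul_nonsing_inv _ (isUnit_iff_ne_zero.2 (hmain_det_ne (M.H x) (M.pos x hx)))
  have h2 : ∑ e, M.H x c e * (Matrix.of (M.H x))⁻¹ e a = if c = a then 1 else 0 := by
    have := congrFun (congrFun h1 c) a
    rw [Matrix.mul_apply, Matrix.one_apply] at this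
    exact this
  unfold hmain_f
  simp only [if_true, ← mul_assoc, ← Finset.sum_mul, h2]
  split_ifs <;> simp

omit [FiniteDimensional ℂ E] [MeasurableSpace E] [BorelSpace E] [DecidableEq ι] in
/-- `H (δ_k f) = ∂_k (H f)` -/
private theorem hmain_H_ch (M : HMet W b D) (hW : IsOpen W) (k : ι) (u : Fin D → E → ℂ)
    (hu : ∀ a, SCW W (u a)) (x : E) (hx : x ∈ W) (c : Fin D) :
    ∑ a, M.H x c a * M.ch k u x a = dz (b k) (fun y => ∑ a, M.H y c a * u a y) x := by
  have hH : ∀ a, DifferentiableAt ℝ (fun y => M.H y c a) x := fun a =>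
    ((M.smH c a x hx).contDiffAt (hW.mem_nhds hx)).differentiableAt (by simp)
  rw [hmain_dz_sum (F := fun a y => M.H y c a * u a y) Finset.univ (b k)
    fun a _ => (hH a).mul (hmain_diff (hu a) x)]
  have e : ∀ a, dz (b k) (fun y => M.H y c a * u a y) x =
      (∑ e, M.H x c e * M.A k x e a) * u a x + M.H x c a * dz (b k) (u a) x := by
    intro a
    rw [hmain_dz_mul _ (hH a) (hmain_diff (hu a) x), M.chern k c a x hx]
  simp only [e]
  unfold HMet.ch
  simp only [mul_add, Finset.sum_add_distrib, Finset.mul_sum, Finset.sum_mul]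
  rw [add_comm, Finset.sum_comm]
  congr 1
  refine Finset.sum_congr rfl fun a _ => Finset.sum_congr rfl fun e _ => ?_
  ring

omit [FiniteDimensional ℂ E] [MeasurableSpace E] [BorelSpace E] in
private theorem hmain_f_div (M : HMet W b D) (hW : IsOpen W) (j : ι) (a : Fin D) (ψ : E → ℂ)
    (hψ : SCW W ψ) (x : E) (hx : x ∈ W) (u : Fin D → ℂ) :
    ip (M.H x) u (hmain_Div M (hmain_f M j a ψ) x) = u a * dzb (b j) ψ x := by
  have h0 : ∀ c, hmain_Div M (hmain_f M j a ψ) x c = M.ch j (hmain_f M j a ψ j) x c := by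
    intro c
    unfold hmain_Div
    refine Finset.sum_eq_single j (fun k _ hk => ?_) (by simp)
    refine hmain_ch_zero M k _ x (fun e => ?_) c
    have : hmain_f M j a ψ k e = fun _ => 0 := by
      funext y
      simp [hmain_f, hk]
    rw [this, notMem_tsupport_iff_eventuallyEq]
    exact Filter.EventuallyEq.rfl
  have h1 : hmain_Div M (hmain_f M j a ψ) x = M.ch j (hmain_f M j a ψ j) x := funext h0
  rw [h1, hmain_ip_herm _ (M.herm x hx)]
  have h2 : ∀ c, ∑ e, M.H x c e * M.ch j (hmain_f M j a ψ j) x e =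
      dz (b j) (fun y => if c = a then conj (ψ y) else 0) x := by
    intro c
    rw [hmain_H_ch M hW j _ (hmain_f_scw M hW j a ψ hψ j) x hx c]
    refine hmain_dz_congr _ ?_
    filter_upwards [hW.mem_nhds hx] with y hy
    exact hmain_f_mul M j a ψ y hy c
  simp only [h2]
  rw [Finset.sum_eq_single a]
  · simp only [if_true]
    rw [hmain_dz_conj _ (hmain_diff hψ x), mul_comm]
  · intro c _ hc
    simp only [hc, if_false]
    rw [hmain_dz_zero]
    simp
  · simp

omit [FiniteDimensional ℂ E] [MeasurableSpace E] [BorelSpace E] in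
private theorem hmain_f_v (M : HMet W b D) (j k₀ : ι) (a : Fin D) (ψ : E → ℂ) (x : E)
    (hx : x ∈ W) (v : Fin D → ℂ) :
    ip (M.H x) v (fun c => hmain_f M j a ψ k₀ c x) = (if j = k₀ then v a else 0) * ψ x := by
  by_cases hj : j = k₀
  · subst hj
    rw [hmain_ip_herm _ (M.herm x hx)]
    simp only [hmain_f_mul M j a ψ x hx]
    rw [Finset.sum_eq_single a]
    · simp [mul_comm]
    · intro c _ hc
      simp [hc]
    · simp
  · rw [if_neg hj, hmain_ip_zero_right, zero_mul]
    intro c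
    simp [hmain_f, Ne.symm hj]

end

variable {E : Type} [NormedAddCommGroup E] [NormedSpace ℂ E] [FiniteDimensional ℂ E]
  [MeasurableSpace E] [BorelSpace E] {W : Set E} {ι : Type} [Fintype ι]
  [DecidableEq ι] {b : Module.Basis ι ℂ E} {D : ℕ}

/-- H11: Hörmander's theorem. -/
theorem HMet.hormander (M : HMet W b D) (hW : IsOpen W) (μ : Measure E) [μ.IsAddHaarMeasure]
    (ρ : E → ℝ) (hρ : Exhaust W b ρ) (κ : E → ℝ)
    (hκ : ContinuousOn κ W) (hκ0 : ∀ x ∈ W, 0 ≤ κ x) (k₀ : ι)
    (hcurv : ∀ x ∈ W, ∀ f : ι → Fin D → ℂ, κ x * M.nsq x (f k₀) ≤ M.curv x f)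
    (v : Fin D → E → ℂ) (hv : ∀ a, ContDiffOn ℝ ∞ (v a) W)
    (hvcl : ∀ k, k ≠ k₀ → ∀ a, ∀ x ∈ W, dzb (b k) (v a) x = 0)
    (c : ℝ) (hc : 0 < c) (hvκ : ∀ x ∈ W, (∃ a, v a x ≠ 0) → c ≤ κ x ∧ κ x ≤ c⁻¹)
    (C₁ : ℝ) (hC₁ : 0 ≤ C₁)
    (hvM : ∫⁻ x in W, ENNReal.ofReal ((κ x)⁻¹ * M.nsq x (fun a => v a x)) ∂μ ≤
      ENNReal.ofReal C₁) :
    ∃ u : Fin D → E → ℂ, (∀ a, AEStronglyMeasurable (u a) (μ.restrict W)) ∧
      ∫⁻ x in W, ENNReal.ofReal (M.nsq x (fun a => u a x)) ∂μ ≤ ENNReal.ofReal (16 * C₁) ∧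
      ∀ ψ : E → ℂ, SCW W ψ → ∀ j a,
        ∫ x in W, u a x * dzb (b j) ψ x ∂μ =
          - ∫ x in W, (if j = k₀ then v a x else 0) * ψ x ∂μ := by
  obtain ⟨P, Q, hPm, hQm, hP, hPQ, hQn⟩ := M.exists_frame hW
  have hWm : MeasurableSet W := hW.measurableSet
  set ν := μ.restrict W with hν
  have haeW : ∀ᵐ x ∂ν, x ∈ W := ae_restrict_mem hWm
  set T := hmain_Tl M hW μ Q hQm hQn with hT
  set l := hmain_l M μ k₀ v hv with hl
  have hTc : ∀ f : hmain_V W ι D, (T f : E → EuclideanSpace ℂ (Fin D)) =ᵐ[ν]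
      hmain_T Q (hmain_Div M f.1) := fun f =>
    MemLp.coeFn_toLp (hmain_memLp M hW μ Q hQm hQn f.1 f.2)
  have hTn : ∀ f : hmain_V W ι D, ‖T f‖ ^ 2 = ∫ x, M.nsq x (hmain_Div M f.1 x) ∂μ := by
    intro f
    rw [hmain_norm_sq]
    have h1 : ∫ x, M.nsq x (hmain_Div M f.1 x) ∂μ = ∫ x in W, M.nsq x (hmain_Div M f.1 x) ∂μ := by
      refine (setIntegral_eq_integral_of_forall_compl_eq_zero fun x hx => ?_).symm
      unfold HMet.nsq
      rw [hmain_ip_zero_left _ _ _ (hmain_Div_zero M f.1 x fun h => hx (hmain_K_sub f.1 f.2 h))]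
      simp
    rw [h1]
    refine integral_congr_ae ?_
    filter_upwards [hTc f, haeW] with x hx hxW
    rw [hx, hQn x hxW, EuclideanSpace.norm_sq_eq]
    rfl
  have hest : ∀ f : hmain_V W ι D, ‖l f‖ ^ 2 ≤ (16 * C₁) * ‖T f‖ ^ 2 := by
    intro f
    have h1 := M.dual_limit hW μ ρ hρ κ hκ hκ0 k₀ hcurv v hv hvcl c hc hvκ C₁ hC₁ hvM f.1 f.2
    have h2 : l f = conj (∫ x, ip (M.H x) (fun a => v a x) (fun a => f.1 k₀ a x) ∂μ) :=
      integral_conj
    rw [h2, RCLike.norm_conj, hTn f]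
    exact h1
  obtain ⟨U, hU1, hU2⟩ := hmain_riesz T l (16 * C₁) (by positivity) hest
  refine ⟨fun a x => -∑ i, U x i * P x i a, ?_, ?_, ?_⟩
  · intro a
    refine (Finset.aestronglyMeasurable_fun_sum _ fun i _ => ?_).neg
    refine AEStronglyMeasurable.mul ?_ (hPm i a).aestronglyMeasurable
    exact (PiLp.continuous_apply 2 _ i).comp_aestronglyMeasurable (Lp.aestronglyMeasurable U)
  · have h1 : ∀ x ∈ W, M.nsq x (fun a => -∑ i, U x i * P x i a) = ‖U x‖ ^ 2 := by
      intro x hx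
      rw [EuclideanSpace.norm_sq_eq]
      have h2 := hmain_frame_nsq (M.H x) (P x) (hP x hx) (fun i => - U x i)
      simp only [norm_neg] at h2
      rw [← h2]
      unfold HMet.nsq
      simp only [neg_mul, Finset.sum_neg_distrib]
    have h2 : ∫⁻ x in W, ENNReal.ofReal (M.nsq x (fun a => -∑ i, U x i * P x i a)) ∂μ =
        ∫⁻ x, ENNReal.ofReal (‖U x‖ ^ 2) ∂ν := by
      refine lintegral_congr_ae ?_
      filter_upwards [haeW] with x hx
      rw [h1 x hx]
    rw [h2]
    have h3 : Integrable (fun x => ‖U x‖ ^ 2) ν :=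
      (memLp_two_iff_integrable_sq_norm (Lp.aestronglyMeasurable U)).1 (Lp.memLp U)
    rw [← ofReal_integral_eq_lintegral_ofReal h3
      (Filter.Eventually.of_forall fun x => by positivity), ← hmain_norm_sq]
    exact ENNReal.ofReal_le_ofReal hU1
  · intro ψ hψ j a
    set f : hmain_V W ι D := ⟨hmain_f M j a ψ, hmain_f_scw M hW j a ψ hψ⟩ with hf
    have h1 := hU2 f
    have h2 : l f = conj (∫ x in W, (if j = k₀ then v a x else 0) * ψ x ∂μ) := by
      have h3 : l f = conj (∫ x, ip (M.H x) (fun a => v a x) (fun a => f.1 k₀ a x) ∂μ) :=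
        integral_conj
      rw [h3]
      congr 1
      have h4 : ∫ x, ip (M.H x) (fun a => v a x) (fun a => f.1 k₀ a x) ∂μ =
          ∫ x in W, ip (M.H x) (fun a => v a x) (fun a => f.1 k₀ a x) ∂μ := by
        refine (setIntegral_eq_integral_of_forall_compl_eq_zero fun x hx => ?_).symm
        refine hmain_ip_zero_right _ _ _ fun a => image_eq_zero_of_notMem_tsupport fun h => hx ?_
        exact (f.2 k₀ a).2.2 h
      rw [h4]
      refine setIntegral_congr_fun hWm fun x hx => ?_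
      exact hmain_f_v M j k₀ a ψ x hx (fun a => v a x)
    have h3 : inner ℂ U (T f) =
        - conj (∫ x in W, (-∑ i, U x i * P x i a) * dzb (b j) ψ x ∂μ) := by
      rw [L2.inner_def, ← integral_conj, ← integral_neg]
      refine integral_congr_ae ?_
      filter_upwards [hTc f, haeW] with x hx hxW
      rw [hx]
      have h4 := hmain_frame_ip (M.H x) (P x) (Q x) (hP x hxW) (hPQ x hxW) (fun i => U x i)
        (hmain_Div M f.1 x)
      have h5 := hmain_f_div M hW j a ψ hψ x hxW (fun a => ∑ i, U x i * P x i a)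
      have h6 : inner ℂ (U x) (hmain_T Q (hmain_Div M f.1) x) =
          conj (∑ i, U x i * conj (∑ c, Q x i c * hmain_Div M f.1 x c)) := by
        rw [PiLp.inner_apply, map_sum]
        refine Finset.sum_congr rfl fun i _ => ?_
        rw [map_mul, Complex.conj_conj]
        simp only [hmain_T, RCLike.inner_apply]
        rw [mul_comm]
      rw [h6, ← h4, h5]
      simp only [map_mul, map_neg, neg_mul, neg_neg]
    rw [h3, h2] at h1
    have h4 := congrArg conj h1
    simp only [map_neg, Complex.conj_conj] at h4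
    rw [← h4]
    ring

end Pool.Agent.Lib_KF

end
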