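import Mathlib
import Pool.Agent.Lib_MP_e0d435_m.G03
import Pool.Agent.Lib_MP_e0d435_m.G04
import Pool.Agent.Lib_MP_e0d435_m.G06
import Pool.Agent.Lib_MP_e0d435_m.G07
import Pool.Agent.Lib_MP_e0d435_m.G08

/-!
# MP_e0d435_ag: merged library part G10

Concatenation of library files (each in its own section), only to save build time.
-/

/-! ### from `Lib_KF.PGrowth` -/

section

/-! G03: finiteness and growth of the graded pieces. -/

namespace Pool.Agent.Lib_KF

open Pool.Agent.Lib_GD

variable {R : Type} [CommRing R] [Algebra ℂ R] {𝒜 : ℕ → Submodule ℂ R} [GradedAlgebra 𝒜] {n : ℕ}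


/-- homogeneous generators of the irrelevant ideal -/
private theorem Growth_gen (h : IsPol 𝒜 n) :
    ∃ (S : Finset R) (e : R → ℕ), (∀ a ∈ S, 1 ≤ e a) ∧
      ∀ m, 1 ≤ m → ∀ x ∈ 𝒜 m, ∃ y : R → R,
        (∀ a ∈ S, y a = 0 ∨ (e a ≤ m ∧ y a ∈ 𝒜 (m - e a))) ∧ x = ∑ a ∈ S, y a * a := by
  classical
  have h1 := h.finiteType
  have hN : IsNoetherianRing R := Algebra.FiniteType.isNoetherianRing ℂ R
  obtain ⟨S, hS, hspan⟩ := (Submodule.fg_span_iff_fg_span_finset_subset (R := R)
    {x : R | ∃ d, 1 ≤ d ∧ x ∈ 𝒜 d}).1 (IsNoetherian.noetherian _)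
  have hS' : ∀ a ∈ S, ∃ d, 1 ≤ d ∧ a ∈ 𝒜 d := fun a ha => hS ha
  choose! e he1 he2 using hS'
  refine ⟨S, e, he1, ?_⟩
  intro m hm x hx
  have hx1 : x ∈ Submodule.span R (S : Set R) := by
    rw [← hspan]
    exact Submodule.subset_span ⟨m, hm, hx⟩
  obtain ⟨f, _, hf⟩ := Submodule.mem_span_finset.1 hx1
  refine ⟨fun a => if e a ≤ m then (DirectSum.decompose 𝒜 (f a) (m - e a) : R) else 0, ?_, ?_⟩
  · intro a _
    by_cases h2 : e a ≤ m
    · right
      refine ⟨h2, ?_⟩
      simp only [h2, if_true]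
      exact SetLike.coe_mem _
    · left
      simp only [h2, if_false]
  · have h3 : x = GradedRing.proj 𝒜 m x := by
      rw [GradedRing.proj_apply, DirectSum.decompose_of_mem_same 𝒜 hx]
    rw [h3]
    conv_lhs => rw [← hf]
    rw [map_sum]
    refine Finset.sum_congr rfl fun a ha => ?_
    rw [smul_eq_mul, GradedRing.proj_apply, DirectSum.coe_decompose_mul_of_right_mem 𝒜 m (he2 a ha)]
    by_cases h2 : e a ≤ m
    · simp only [h2, if_true]
    · simp only [h2, if_false, zero_mul]

theorem finite_gradedP (h : IsPol 𝒜 n) (m : ℕ) : Module.Finite ℂ (𝒜 m) := by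
  classical
  obtain ⟨S, e, he, hgen⟩ := Growth_gen h
  rw [Module.Finite.iff_fg]
  induction m using Nat.strong_induction_on with
  | _ m ih =>
    rcases Nat.eq_zero_or_pos m with rfl | hm
    · rw [h.connected, Algebra.toSubmodule_bot, Submodule.one_eq_span]
      exact Submodule.fg_span_singleton _
    · have h1 : (⨆ a ∈ S, if e a ≤ m then (𝒜 (m - e a)).map (LinearMap.mulRight ℂ a) else
          (⊥ : Submodule ℂ R)).FG := by
        refine Submodule.fg_biSup S _ fun a ha => ?_
        by_cases h2 : e a ≤ m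
        · simp only [h2, if_true]
          exact (ih (m - e a) (by have := he a ha; omega)).map _
        · simp only [h2, if_false]
          exact Submodule.fg_bot
      refine Submodule.FG.of_le h1 fun x hx => ?_
      obtain ⟨y, hy, rfl⟩ := hgen m hm x hx
      refine Submodule.sum_mem _ fun a ha => ?_
      rcases hy a ha with h2 | ⟨h2, h3⟩
      · rw [h2, zero_mul]
        exact Submodule.zero_mem _
      · refine Submodule.mem_iSup_of_mem a (Submodule.mem_iSup_of_mem ha ?_)
        simp only [h2, if_true]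
        exact ⟨y a, h3, rfl⟩

/-- the polynomials of bounded degree times the module generators -/
private noncomputable def GrowthW {s K : ℕ} (G : MvPolynomial (Fin s) ℂ →ₐ[ℂ] R) (g : Fin K → R)
    (D : ℕ) : Submodule ℂ R :=
  Submodule.span ℂ (Set.range fun p : (Fin s → Fin (D + 1)) × Fin K =>
    G (MvPolynomial.monomial (Finsupp.equivFunOnFinite.symm fun i => (p.1 i : ℕ)) 1) * g p.2)

private theorem GrowthW_mono' {s K : ℕ} (G : MvPolynomial (Fin s) ℂ →ₐ[ℂ] R) (g : Fin K → R)
    (D : ℕ) (α : Fin s →₀ ℕ) (hα : ∀ i, α i ≤ D) (k : Fin K) :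
    G (MvPolynomial.monomial α 1) * g k ∈ GrowthW G g D := by
  refine Submodule.subset_span ⟨(fun i => ⟨α i, by have := hα i; omega⟩, k), ?_⟩
  have h1 : (Finsupp.equivFunOnFinite.symm fun i => α i) = α := by
    ext i
    rfl
  simp only [h1]

private theorem GrowthW_poly {s K : ℕ} (G : MvPolynomial (Fin s) ℂ →ₐ[ℂ] R) (g : Fin K → R)
    (D : ℕ) (P : MvPolynomial (Fin s) ℂ) (hP : ∀ i, P.degreeOf i ≤ D) (k : Fin K) :
    G P * g k ∈ GrowthW G g D := by
  have h0 : G P = ∑ α ∈ P.support, G (MvPolynomial.monomial α (MvPolynomial.coeff α P)) := by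
    conv_lhs => rw [P.as_sum, map_sum]
  rw [h0, Finset.sum_mul]
  refine Submodule.sum_mem _ fun α hα => ?_
  have h1 : MvPolynomial.monomial α (MvPolynomial.coeff α P) =
      MvPolynomial.coeff α P • MvPolynomial.monomial α (1 : ℂ) := by
    rw [MvPolynomial.smul_monomial, smul_eq_mul, mul_one]
  rw [h1, map_smul, smul_mul_assoc]
  exact Submodule.smul_mem _ _ (GrowthW_mono' G g D α
    (fun i => (MvPolynomial.monomial_le_degreeOf i hα).trans (hP i)) k)

private theorem GrowthW_le {s K : ℕ} (G : MvPolynomial (Fin s) ℂ →ₐ[ℂ] R) (g : Fin K → R)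
    {D D' : ℕ} (hD : D ≤ D') : GrowthW G g D ≤ GrowthW G g D' := by
  refine Submodule.span_le.2 ?_
  rintro _ ⟨p, rfl⟩
  refine GrowthW_mono' G g D' _ (fun i => ?_) p.2
  have := (p.1 i).isLt
  change (p.1 i : ℕ) ≤ D'
  omega

private theorem GrowthW_card {s K : ℕ} (G : MvPolynomial (Fin s) ℂ →ₐ[ℂ] R) (g : Fin K → R)
    (D : ℕ) : Module.finrank ℂ (GrowthW G g D) ≤ (D + 1) ^ s * K := by
  refine (finrank_range_le_card _).trans (le_of_eq ?_)
  rw [Fintype.card_prod, Fintype.card_fun, Fintype.card_fin, Fintype.card_fin, Fintype.card_fin]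

private theorem GrowthW_mul {s K : ℕ} (G : MvPolynomial (Fin s) ℂ →ₐ[ℂ] R) (g : Fin K → R)
    (c : ℕ) (a : R) (P : Fin K → Fin K → MvPolynomial (Fin s) ℂ)
    (hP : ∀ i k j, (P i k).degreeOf j ≤ c) (ha : ∀ i, a * g i = ∑ k, G (P i k) * g k)
    (D : ℕ) (w : R) (hw : w ∈ GrowthW G g D) : a * w ∈ GrowthW G g (D + c) := by
  unfold GrowthW at hw
  induction hw using Submodule.span_induction with
  | mem x hx =>
    obtain ⟨p, rfl⟩ := hx
    have h1 : a * (G (MvPolynomial.monomial (Finsupp.equivFunOnFinite.symm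
        fun i => (p.1 i : ℕ)) 1) * g p.2) = ∑ k, G (MvPolynomial.monomial
        (Finsupp.equivFunOnFinite.symm fun i => (p.1 i : ℕ)) 1 * P p.2 k) * g k := by
      rw [mul_left_comm, ha, Finset.mul_sum]
      refine Finset.sum_congr rfl fun k _ => ?_
      rw [map_mul, mul_assoc]
    simp only [h1]
    refine Submodule.sum_mem _ fun k _ => GrowthW_poly G g _ _ (fun j => ?_) k
    refine (MvPolynomial.degreeOf_mul_le j _ _).trans ?_
    rw [MvPolynomial.degreeOf_monomial_eq _ _ one_ne_zero]
    have h2 := (p.1 j).isLt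
    have h3 := hP p.2 k j
    change (p.1 j : ℕ) + _ ≤ D + c
    omega
  | zero =>
    rw [mul_zero]
    exact Submodule.zero_mem _
  | add x y _ _ hx hy =>
    rw [mul_add]
    exact Submodule.add_mem _ hx hy
  | smul r x _ hx =>
    rw [mul_smul_comm]
    exact Submodule.smul_mem _ _ hx

/-- non-zero elements of all large degrees -/
private theorem Growth_large (h : IsPol 𝒜 n)
    (h0 : ∃ d > 0, ∃ f ∈ 𝒜 d, f ≠ 0) : ∃ j₀, ∀ j, j₀ ≤ j → ∃ f ∈ 𝒜 j, f ≠ 0 := by
  have hdom := h.domain
  obtain ⟨d, f, hf, g, hg, hf0, hg0⟩ := h.line ⊥ Ideal.isPrime_bot (by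
    obtain ⟨d, hd, f, hf, hf0⟩ := h0
    exact ⟨d, hd, f, hf, fun hc => hf0 (by simpa using hc)⟩)
  have hf0' : f ≠ 0 := fun hc => hf0 (by simp [hc])
  have hg0' : g ≠ 0 := fun hc => hg0 (by simp [hc])
  rcases Nat.eq_zero_or_pos d with rfl | hd
  · refine ⟨0, fun j _ => ⟨g ^ j, ?_, pow_ne_zero _ hg0'⟩⟩
    have := SetLike.pow_mem_graded j hg
    simpa using this
  · refine ⟨d * d, fun j hj => ⟨f ^ (j / d - j % d) * g ^ (j % d), ?_,
      mul_ne_zero (pow_ne_zero _ hf0') (pow_ne_zero _ hg0')⟩⟩
    have h1 := SetLike.mul_mem_graded (SetLike.pow_mem_graded (j / d - j % d) hf)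
      (SetLike.pow_mem_graded (j % d) hg)
    have h2 : j % d < d := Nat.mod_lt _ hd
    have h3 : d ≤ j / d := (Nat.le_div_iff_mul_le hd).2 hj
    have h4 : (j / d - j % d) • d + (j % d) • (d + 1) = j := by
      rw [smul_eq_mul, smul_eq_mul, mul_add, mul_one, ← add_assoc, ← add_mul,
        Nat.sub_add_cancel (by omega)]
      exact Nat.div_add_mod' j d
    rwa [h4] at h1

/-- `N_m ≤ C m^n`. -/
theorem secDim_leP (h : IsPol 𝒜 n) :
    ∃ C : ℕ, ∀ m, 1 ≤ m → secDim 𝒜 m ≤ C * m ^ n := by
  classical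
  by_cases h0 : ∃ d > 0, ∃ f ∈ 𝒜 d, f ≠ 0
  swap
  · refine ⟨0, fun m hm => ?_⟩
    push Not at h0
    have h1 : 𝒜 m = ⊥ := by
      rw [Submodule.eq_bot_iff]
      exact fun x hx => h0 m hm x hx
    unfold secDim
    rw [h1, finrank_bot]
    exact Nat.zero_le _
  obtain ⟨j₀, hj₀⟩ := Growth_large h h0
  choose! H hH1 hH2 using hj₀
  obtain ⟨S, e, he, hgen⟩ := Growth_gen h
  have hfin := fun m => finite_gradedP h m
  have hdom := h.domain
  have hft := h.finiteType
  obtain ⟨s, G, hG, hGfin⟩ := exists_finite_inj_algHom_of_fg ℂ R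
  have hs : s ≤ n + 1 := by
    have h1 : AlgebraicIndependent ℂ (fun i => G (MvPolynomial.X i)) := by
      rw [algebraicIndependent_iff_injective_aeval]
      have h2 : MvPolynomial.aeval (fun i => G (MvPolynomial.X i)) = G := by
        refine MvPolynomial.algHom_ext fun i => ?_
        rw [MvPolynomial.aeval_X]
      rw [h2]
      exact hG
    have h3 := h1.cardinalMk_le_trdeg
    rw [h.dim, Cardinal.mk_fin] at h3
    exact_mod_cast h3
  have hK : ∃ (K : ℕ) (g : Fin K → R), ∀ x : R, ∃ P : Fin K → MvPolynomial (Fin s) ℂ,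
      x = ∑ k, G (P k) * g k := by
    let := G.toRingHom.toAlgebra
    have : Module.Finite (MvPolynomial (Fin s) ℂ) R := hGfin
    obtain ⟨K, g, hg⟩ := Module.Finite.exists_fin (R := MvPolynomial (Fin s) ℂ) (M := R)
    refine ⟨K, g, fun x => ?_⟩
    have hx : x ∈ Submodule.span (MvPolynomial (Fin s) ℂ) (Set.range g) := by
      rw [hg]
      trivial
    obtain ⟨P, hP⟩ := (Submodule.mem_span_range_iff_exists_fun _).1 hx
    exact ⟨P, hP.symm⟩
  obtain ⟨K, g, hg⟩ := hK
  choose P hP using hg
  -- the degree constant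
  obtain ⟨c, hc1, hc2⟩ : ∃ c, (∀ a ∈ S, ∀ i k j, (P (a * g i) k).degreeOf j ≤ c) ∧
      ∀ k j, (P 1 k).degreeOf j ≤ c := by
    refine ⟨(S.sup fun a => Finset.univ.sup fun i => Finset.univ.sup fun k =>
      Finset.univ.sup fun j => (P (a * g i) k).degreeOf j) +
      (Finset.univ.sup fun k => Finset.univ.sup fun j => (P 1 k).degreeOf j), ?_, ?_⟩
    · intro a ha i k j
      refine le_trans ?_ (Nat.le_add_right _ _)
      refine le_trans ?_ (Finset.le_sup (f := fun a => Finset.univ.sup fun i =>
        Finset.univ.sup fun k => Finset.univ.sup fun j => (P (a * g i) k).degreeOf j) ha)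
      refine le_trans ?_ (Finset.le_sup (f := fun i =>
        Finset.univ.sup fun k => Finset.univ.sup fun j => (P (a * g i) k).degreeOf j)
        (Finset.mem_univ i))
      refine le_trans ?_ (Finset.le_sup (f := fun k =>
        Finset.univ.sup fun j => (P (a * g i) k).degreeOf j) (Finset.mem_univ k))
      exact Finset.le_sup (f := fun j => (P (a * g i) k).degreeOf j) (Finset.mem_univ j)
    · intro k j
      refine le_trans ?_ (Nat.le_add_left _ _)
      refine le_trans ?_ (Finset.le_sup (f := fun k =>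
        Finset.univ.sup fun j => (P 1 k).degreeOf j) (Finset.mem_univ k))
      exact Finset.le_sup (f := fun j => (P 1 k).degreeOf j) (Finset.mem_univ j)
  have hmain : ∀ m, 𝒜 m ≤ GrowthW G g (c * (m + 1)) := by
    intro m
    induction m using Nat.strong_induction_on with
    | _ m ih =>
      rcases Nat.eq_zero_or_pos m with rfl | hm
      · rw [h.connected, Algebra.toSubmodule_bot, Submodule.one_eq_span, Submodule.span_le,
          Set.singleton_subset_iff, SetLike.mem_coe, hP 1]
        refine Submodule.sum_mem _ fun k _ => GrowthW_poly G g _ _ (fun j => ?_) k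
        have := hc2 k j
        simpa using this
      · intro x hx
        obtain ⟨y, hy, rfl⟩ := hgen m hm x hx
        refine Submodule.sum_mem _ fun a ha => ?_
        rcases hy a ha with h2 | ⟨h2, h3⟩
        · rw [h2, zero_mul]
          exact Submodule.zero_mem _
        · have h4 := ih (m - e a) (by have := he a ha; omega) h3
          have h5 := GrowthW_mul G g c a (fun i k => P (a * g i) k)
            (fun i k j => hc1 a ha i k j) (fun i => hP (a * g i)) _ _ h4
          rw [mul_comm (y a) a]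
          refine GrowthW_le G g ?_ h5
          have h6 : m - e a + 1 + 1 ≤ m + 1 := by
            have := he a ha
            omega
          calc c * (m - e a + 1) + c = c * (m - e a + 1 + 1) := by ring
            _ ≤ c * (m + 1) := Nat.mul_le_mul_left c h6
  refine ⟨(c * (j₀ + 3) + 1) ^ (n + 1) * K, fun m hm => ?_⟩
  -- multiplication by sections of degrees `j₀, ..., j₀ + m - 1`
  set Φ : (Fin m → 𝒜 m) →ₗ[ℂ] R := ∑ j : Fin m,
    (LinearMap.mulLeft ℂ (H (j₀ + j))).comp ((𝒜 m).subtype.comp (LinearMap.proj j)) with hΦ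
  have hΦa : ∀ x, Φ x = ∑ j : Fin m, H (j₀ + j) * (x j : R) := by
    intro x
    rw [hΦ, LinearMap.sum_apply]
    rfl
  have hmem : ∀ (x : Fin m → 𝒜 m) (j : Fin m), H (j₀ + j) * (x j : R) ∈ 𝒜 (j₀ + j + m) :=
    fun x j => SetLike.mul_mem_graded (hH1 (j₀ + j) (Nat.le_add_right _ _)) (x j).2
  have hinj : Function.Injective Φ := by
    rw [← LinearMap.ker_eq_bot, LinearMap.ker_eq_bot']
    intro x hx
    rw [hΦa] at hx
    funext i
    have h1 : GradedRing.proj 𝒜 (j₀ + i + m) (∑ j : Fin m, H (j₀ + j) * (x j : R)) = 0 := by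
      rw [hx, map_zero]
    rw [map_sum, Finset.sum_eq_single i] at h1
    · rw [GradedRing.proj_apply, DirectSum.decompose_of_mem_same 𝒜 (hmem x i)] at h1
      rcases mul_eq_zero.1 h1 with h2 | h2
      · exact absurd h2 (hH2 _ (Nat.le_add_right _ _))
      · exact Subtype.ext h2
    · intro j _ hj
      rw [GradedRing.proj_apply]
      refine DirectSum.decompose_of_mem_ne 𝒜 (hmem x j) fun hc => hj ?_
      apply Fin.ext
      omega
    · intro hc
      exact absurd (Finset.mem_univ i) hc
  have hrange : LinearMap.range Φ ≤ GrowthW G g (c * (2 * m + j₀ + 1)) := by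
    rintro _ ⟨x, rfl⟩
    rw [hΦa]
    refine Submodule.sum_mem _ fun j _ => ?_
    refine GrowthW_le G g ?_ (hmain _ (hmem x j))
    have := j.isLt
    exact Nat.mul_le_mul_left c (by omega)
  have hfinW : Module.Finite ℂ (GrowthW G g (c * (2 * m + j₀ + 1))) := by
    unfold GrowthW
    exact FiniteDimensional.span_of_finite ℂ (Set.finite_range _)
  have h1 : m * secDim 𝒜 m ≤ (c * (2 * m + j₀ + 1) + 1) ^ s * K := by
    calc m * secDim 𝒜 m = Module.finrank ℂ (Fin m → 𝒜 m) := by
          rw [Module.finrank_pi_fintype]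
          simp [secDim]
      _ = Module.finrank ℂ (LinearMap.range Φ) := (LinearMap.finrank_range_of_inj hinj).symm
      _ ≤ Module.finrank ℂ (GrowthW G g (c * (2 * m + j₀ + 1))) := Submodule.finrank_mono hrange
      _ ≤ _ := GrowthW_card G g _
  have h2 : c * (2 * m + j₀ + 1) + 1 ≤ (c * (j₀ + 3) + 1) * m := by
    have h3 : 2 * m + j₀ + 1 ≤ (j₀ + 3) * m := by nlinarith
    calc c * (2 * m + j₀ + 1) + 1 ≤ c * ((j₀ + 3) * m) + m :=
          Nat.add_le_add (Nat.mul_le_mul_left c h3) hm
      _ = (c * (j₀ + 3) + 1) * m := by ring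
  have h4 : (c * (2 * m + j₀ + 1) + 1) ^ s ≤ ((c * (j₀ + 3) + 1) * m) ^ (n + 1) :=
    (Nat.pow_le_pow_left h2 s).trans (Nat.pow_le_pow_right (by positivity) hs)
  have h5 : m * secDim 𝒜 m ≤ m * ((c * (j₀ + 3) + 1) ^ (n + 1) * K * m ^ n) := by
    calc m * secDim 𝒜 m ≤ ((c * (j₀ + 3) + 1) * m) ^ (n + 1) * K :=
          h1.trans (Nat.mul_le_mul_right K h4)
      _ = m * ((c * (j₀ + 3) + 1) ^ (n + 1) * K * m ^ n) := by
          rw [mul_pow, pow_succ m n]
          ring
  exact Nat.le_of_mul_le_mul_left h5 hm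

/-- The sections `secBasis 𝒜 m` form a basis of `𝒜 m`. -/
theorem secBasis_specP (h : IsPol 𝒜 n) (m : ℕ) :
    (∀ i, secBasis 𝒜 m i ∈ 𝒜 m) ∧ LinearIndependent ℂ (secBasis 𝒜 m) ∧
      Submodule.span ℂ (Set.range (secBasis 𝒜 m)) = 𝒜 m := by
  have hfin := finite_gradedP h m
  have h1 : secBasis 𝒜 m = fun i => ((𝒜 m).subtype (Module.finBasis ℂ (𝒜 m) i) : R) := by
    funext i
    unfold secBasis
    rw [dif_pos hfin]
    rfl
  refine ⟨fun i => ?_, ?_, ?_⟩
  · rw [h1]
    exact (Module.finBasis ℂ (𝒜 m) i).2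
  · rw [h1]
    exact (Module.finBasis ℂ (𝒜 m)).linearIndependent.map' (𝒜 m).subtype (Submodule.ker_subtype _)
  · have h2 : Set.range (secBasis 𝒜 m) =
        (𝒜 m).subtype '' Set.range (Module.finBasis ℂ (𝒜 m)) := by
      ext x
      constructor
      · rintro ⟨i, rfl⟩
        exact ⟨_, ⟨i, rfl⟩, (congrFun h1 i).symm⟩
      · rintro ⟨_, ⟨i, rfl⟩, rfl⟩
        exact ⟨i, congrFun h1 i⟩
    rw [h2, Submodule.span_image, Module.Basis.span_eq, Submodule.map_top, Submodule.range_subtype]

end Pool.Agent.Lib_KF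

end

/-! ### from `Lib_KF.PSep` -/

section

/-! G06: separation of jets. -/

open PowerSeries

namespace Pool.Agent.Lib_KF

open Pool.Agent.Lib_GD

variable {R : Type} [CommRing R] [Algebra ℂ R] {𝒜 : ℕ → Submodule ℂ R} [GradedAlgebra 𝒜]
  {n : ℕ}

section Aux

variable {L : Type} [Field L] [Algebra ℂ L]

/-- the span over `L` of the Taylor expansions of the sections of degree `m` -/
private noncomputable def Sep_W (c : Chart 𝒜 n) (t : c.B →ₐ[ℂ] MvPowerSeries (Fin n) L) (m : ℕ) :
    Submodule L (MvPowerSeries (Fin n) L) :=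
  Submodule.span L {f | ∃ s ∈ 𝒜 m, f = t (c.ρ s)}

private theorem Sep_mem (c : Chart 𝒜 n) (t : c.B →ₐ[ℂ] MvPowerSeries (Fin n) L) {m : ℕ} {s : R}
    (hs : s ∈ 𝒜 m) : t (c.ρ s) ∈ Sep_W c t m :=
  Submodule.subset_span ⟨s, hs, rfl⟩

private theorem Sep_mul (c : Chart 𝒜 n) (t : c.B →ₐ[ℂ] MvPowerSeries (Fin n) L) {a b : ℕ}
    {f g : MvPowerSeries (Fin n) L} (hf : f ∈ Sep_W c t a) (hg : g ∈ Sep_W c t b) :
    f * g ∈ Sep_W c t (a + b) := by
  have h1 : Sep_W c t a * Sep_W c t b ≤ Sep_W c t (a + b) := by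
    unfold Sep_W
    rw [Submodule.span_mul_span]
    refine Submodule.span_le.2 ?_
    rintro _ ⟨_, ⟨s, hs, rfl⟩, _, ⟨s', hs', rfl⟩, rfl⟩
    refine Submodule.subset_span ⟨s * s', SetLike.mul_mem_graded hs hs', ?_⟩
    simp only [map_mul]
  exact h1 (Submodule.mul_mem_mul hf hg)

private theorem Sep_one (c : Chart 𝒜 n) (t : c.B →ₐ[ℂ] MvPowerSeries (Fin n) L) :
    (1 : MvPowerSeries (Fin n) L) ∈ Sep_W c t 0 := by
  have h := Sep_mem c t (SetLike.one_mem_graded 𝒜)
  rwa [map_one, map_one] at h

private theorem Sep_pow (c : Chart 𝒜 n) (t : c.B →ₐ[ℂ] MvPowerSeries (Fin n) L) {a : ℕ}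
    {f : MvPowerSeries (Fin n) L} (hf : f ∈ Sep_W c t a) (k : ℕ) :
    f ^ k ∈ Sep_W c t (a * k) := by
  induction k with
  | zero => simpa using Sep_one c t
  | succ k ih =>
    rw [pow_succ, mul_add, mul_one]
    exact Sep_mul c t ih hf

private theorem Sep_prod (c : Chart 𝒜 n) (t : c.B →ₐ[ℂ] MvPowerSeries (Fin n) L) {a : ℕ}
    {f : Fin n → MvPowerSeries (Fin n) L} (hf : ∀ l, f l ∈ Sep_W c t a) (β : Fin n → ℕ)
    (s : Finset (Fin n)) : ∏ l ∈ s, f l ^ β l ∈ Sep_W c t (a * ∑ l ∈ s, β l) := by
  classical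
  induction s using Finset.induction_on with
  | empty => simpa using Sep_one c t
  | insert l s hl ih =>
    rw [Finset.prod_insert hl, Finset.sum_insert hl, mul_add]
    exact Sep_mul c t (Sep_pow c t (hf l) _) ih

private theorem Sep_exists_add (α : Fin n →₀ ℕ) (h : α ≠ 0) :
    ∃ (α' : Fin n →₀ ℕ) (l : Fin n), α = α' + Finsupp.single l 1 := by
  obtain ⟨l, hl⟩ := Finsupp.ne_iff.1 h
  refine ⟨α - Finsupp.single l 1, l, ?_⟩
  rw [tsub_add_cancel_of_le]
  rw [Finsupp.single_le_iff]
  exact Nat.one_le_iff_ne_zero.2 hl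

omit [GradedAlgebra 𝒜] in
private theorem Sep_dd_one (c : Chart 𝒜 n) (α : Fin n →₀ ℕ) (h : α ≠ 0) : c.dd α 1 = 0 := by
  obtain ⟨α', l, rfl⟩ := Sep_exists_add α h
  rw [c.dd_add_single, Derivation.map_one_eq_zero, map_zero]

omit [GradedAlgebra 𝒜] in
private theorem Sep_taylor_y (c : Chart 𝒜 n) (x : c.B →ₐ[ℂ] L)
    (t : c.B →ₐ[ℂ] MvPowerSeries (Fin n) L)
    (ht : ∀ b α, MvPowerSeries.coeff α (t b) = c.tay x α b) (l : Fin n) :
    t (c.y l) = MvPowerSeries.C (x (c.y l)) + MvPowerSeries.X l := by
  classical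
  ext α
  rw [ht, map_add, MvPowerSeries.coeff_C, MvPowerSeries.coeff_X]
  by_cases h0 : α = 0
  · subst h0
    have h1 : (0 : Fin n →₀ ℕ) ≠ Finsupp.single l 1 := by
      intro h
      have := congrArg (fun f => f l) h
      simp at this
    rw [if_pos rfl, if_neg h1, Chart.tay, c.dd_zero]
    simp
  · obtain ⟨α', k, rfl⟩ := Sep_exists_add α h0
    rw [if_neg h0, zero_add, Chart.tay, c.dd_add_single, c.der_y]
    by_cases hα' : α' = 0
    · subst hα'
      rw [zero_add]
      by_cases hkl : k = l
      · subst hkl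
        rw [if_pos rfl, if_pos rfl, c.dd_zero, map_one, mul_one]
        have h2 : ∏ j, ((Finsupp.single k 1 j).factorial : ℂ) = 1 := by
          refine Finset.prod_eq_one fun j _ => ?_
          by_cases hj : k = j
          · subst hj; simp
          · rw [Finsupp.single_eq_of_ne (Ne.symm hj)]; simp
        rw [h2]; simp
      · have h3 : Finsupp.single k 1 ≠ Finsupp.single l 1 := by
          intro h
          exact hkl ((Finsupp.single_left_inj one_ne_zero).1 h)
        rw [if_neg hkl, if_neg h3, map_zero, map_zero, mul_zero]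
    · have h4 : α' + Finsupp.single k 1 ≠ Finsupp.single l 1 := by
        intro h
        apply hα'
        have h5 := congrArg Finsupp.degree h
        rw [map_add, Finsupp.degree_single, Finsupp.degree_single] at h5
        exact (Finsupp.degree_eq_zero_iff _).1 (by omega)
      rw [if_neg h4]
      split_ifs
      · rw [Sep_dd_one c α' hα', map_zero, mul_zero]
      · rw [map_zero, map_zero, mul_zero]

private theorem Sep_prod_X (β : Fin n →₀ ℕ) :
    ∏ l, (MvPowerSeries.X l : MvPowerSeries (Fin n) L) ^ β l = MvPowerSeries.monomial β 1 := by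
  classical
  have h : ∀ s : Finset (Fin n), ∏ l ∈ s, (MvPowerSeries.X l : MvPowerSeries (Fin n) L) ^ β l =
      MvPowerSeries.monomial (∑ l ∈ s, Finsupp.single l (β l)) 1 := by
    intro s
    induction s using Finset.induction_on with
    | empty => simp [MvPowerSeries.monomial_zero_one]
    | insert l s hl ih =>
      rw [Finset.prod_insert hl, Finset.sum_insert hl, ih, MvPowerSeries.X_pow_eq,
        MvPowerSeries.monomial_mul_monomial, one_mul]
  rw [h, Finsupp.univ_sum_single]

end Aux

/-- G06 (Sep): at every point of a chart with values in a field the jets of order `< q` of the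
sections of degree `m` are independent functionals, for `q ≤ c₀ m`. -/
theorem chart_sepP (h : IsPol 𝒜 n) (c : Chart 𝒜 n) :
    ∃ c₀ : ℝ, 0 < c₀ ∧ ∃ m₀ : ℕ, ∀ m, m₀ ≤ m → ∀ (L : Type) [Field L] [Algebra ℂ L]
      (x : c.B →ₐ[ℂ] L) (q : ℕ), (q : ℝ) ≤ c₀ * m →
      LinearIndependent L (fun α : {α : Fin n →₀ ℕ // α.degree < q} =>
        fun i : Fin (secDim 𝒜 m) => x (c.dd α.1 (c.ρ (secBasis 𝒜 m i)))) := by
  classical
  choose k Y hY hYρ using fun l => c.surj (c.y l)
  set K : ℕ := ∑ l, k l with hK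
  have hkK : ∀ l, k l ≤ K := fun l => Finset.single_le_sum (fun _ _ => Nat.zero_le _)
    (Finset.mem_univ l)
  refine ⟨1 / (2 * (c.d * K + 1)), by positivity, 2 * (c.d * c.e + 1) * c.d,
    fun m hm L _ _ x q hq => ?_⟩
  obtain ⟨t, ht⟩ := c.exists_taylor x
  set u : MvPowerSeries (Fin n) L := t (c.ρ c.F) with hu
  have hcoeff : ∀ b α, x (c.dd α b) =
      algebraMap ℂ L (∏ l, ((α l).factorial : ℂ)) * MvPowerSeries.coeff α (t b) := by
    intro b α
    rw [ht, Chart.tay, ← mul_assoc, ← map_mul, mul_inv_cancel₀, map_one, one_mul]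
    exact Finset.prod_ne_zero_iff.2 fun l _ => by exact_mod_cast (Nat.factorial_ne_zero _)
  have hu0 : MvPowerSeries.constantCoeff u ≠ 0 := by
    have h1 : IsUnit (x (c.ρ c.F)) := c.unit.map x
    have h2 : MvPowerSeries.coeff 0 u = x (c.ρ c.F) := by
      rw [hu, ht, Chart.tay, c.dd_zero]; simp
    rw [← MvPowerSeries.coeff_zero_eq_constantCoeff_apply, h2]
    exact h1.ne_zero
  -- the elements of the span
  have hFW : u ∈ Sep_W c t c.d := Sep_mem c t c.hF
  have hTW : u ^ c.e ∈ Sep_W c t (c.d * c.e + 1) := by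
    have h1 := Sep_mem c t c.hT
    rwa [c.ρT, map_pow] at h1
  have hXW : ∀ l, MvPowerSeries.X l * u ^ K ∈ Sep_W c t (c.d * K) := by
    intro l
    have h1 : Y l * c.F ^ (K - k l) ∈ 𝒜 (c.d * K) := by
      have h2 := SetLike.mul_mem_graded (hY l) (SetLike.pow_mem_graded (K - k l) c.hF)
      have h3 : c.d * k l + (K - k l) • c.d = c.d * K := by
        rw [smul_eq_mul, mul_comm (K - k l), ← mul_add, Nat.add_sub_cancel' (hkK l)]
      rwa [h3] at h2
    have h2 := Sep_mem c t h1
    have h3 : t (c.ρ (Y l * c.F ^ (K - k l))) =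
        (MvPowerSeries.C (x (c.y l)) + MvPowerSeries.X l) * u ^ K := by
      rw [map_mul, ← hYρ, map_pow, mul_assoc, ← pow_add, Nat.add_sub_cancel' (hkK l), map_mul,
        map_pow, Sep_taylor_y c x t ht]
    have h4 : u ^ K ∈ Sep_W c t (c.d * K) := Sep_pow c t hFW K
    have h5 : MvPowerSeries.X l * u ^ K = t (c.ρ (Y l * c.F ^ (K - k l))) -
        x (c.y l) • u ^ K := by
      rw [h3, add_mul, MvPowerSeries.smul_eq_C_mul]
      ring
    rw [h5]
    exact Submodule.sub_mem _ h2 (Submodule.smul_mem _ _ h4)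
  rw [linearIndependent_iff']
  intro S g hg
  by_contra hne
  push Not at hne
  obtain ⟨α₀, hα₀, hα₀'⟩ := hne
  obtain ⟨β, hβ, hβmax⟩ := Finset.exists_max_image (S.filter fun α => g α ≠ 0)
    (fun α => α.1.degree) ⟨α₀, Finset.mem_filter.2 ⟨hα₀, hα₀'⟩⟩
  obtain ⟨hβS, hgβ⟩ := Finset.mem_filter.1 hβ
  -- the functional
  let Λ : MvPowerSeries (Fin n) L →ₗ[L] L :=
    ∑ α ∈ S, (g α * algebraMap ℂ L (∏ l, ((α.1 l).factorial : ℂ))) • MvPowerSeries.coeff α.1
  have hΛ : ∀ f, Λ f = ∑ α ∈ S, (g α * algebraMap ℂ L (∏ l, ((α.1 l).factorial : ℂ))) *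
      MvPowerSeries.coeff α.1 f := by
    intro f
    simp [Λ, LinearMap.sum_apply]
  have hbasis : ∀ i, Λ (t (c.ρ (secBasis 𝒜 m i))) = 0 := by
    intro i
    have h1 := congrFun hg i
    rw [Finset.sum_apply] at h1
    rw [hΛ]
    refine Eq.trans ?_ h1
    simp only [Pi.smul_apply, smul_eq_mul]
    refine Finset.sum_congr rfl fun α _ => ?_
    rw [hcoeff, mul_assoc]
  have hsec : ∀ s ∈ 𝒜 m, Λ (t (c.ρ s)) = 0 := by
    intro s hs
    rw [← (secBasis_specP h m).2.2] at hs
    induction hs using Submodule.span_induction with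
    | mem s hs =>
      obtain ⟨i, rfl⟩ := hs
      exact hbasis i
    | zero => rw [map_zero, map_zero, map_zero]
    | add s s' _ _ hs hs' => rw [map_add, map_add, map_add, hs, hs', add_zero]
    | smul z s _ hs =>
      rw [map_smul, map_smul]
      have h1 : z • t (c.ρ s) = (algebraMap ℂ L z) • t (c.ρ s) := by
        rw [algebraMap_smul]
      rw [h1, map_smul, hs, smul_zero]
  have hW : ∀ f ∈ Sep_W c t m, Λ f = 0 := by
    intro f hf
    have h1 : Sep_W c t m ≤ LinearMap.ker Λ := by
      refine Submodule.span_le.2 ?_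
      rintro _ ⟨s, hs, rfl⟩
      exact hsec s hs
    exact h1 hf
  -- the degree
  have hdeg : 2 * (c.d * K) * β.1.degree ≤ m := by
    have h1 : (β.1.degree : ℝ) ≤ 1 / (2 * (c.d * K + 1)) * m :=
      le_trans (by exact_mod_cast β.2.le) hq
    have h2 : (2 * (c.d * K + 1) : ℝ) * β.1.degree ≤ m := by
      have h3 : (0 : ℝ) < 2 * (c.d * K + 1) := by positivity
      calc (2 * (c.d * K + 1) : ℝ) * β.1.degree ≤
          2 * (c.d * K + 1) * (1 / (2 * (c.d * K + 1)) * m) :=
            mul_le_mul_of_nonneg_left h1 h3.le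
        _ = m := by field_simp
    have h4 : 2 * (c.d * K + 1) * β.1.degree ≤ m := by exact_mod_cast h2
    nlinarith
  have hd := c.hd
  have hmod : m % c.d < c.d := Nat.mod_lt _ hd
  have hle : c.d * (c.e * (m % c.d) + K * β.1.degree) ≤ m := by
    have h1 : c.d * (c.e * (m % c.d)) ≤ c.d * c.e * c.d := by
      rw [← mul_assoc]
      exact Nat.mul_le_mul_left _ hmod.le
    nlinarith
  set j : ℕ := m / c.d - (c.e * (m % c.d) + K * β.1.degree) with hj
  have hj' : c.e * (m % c.d) + K * β.1.degree + j = m / c.d :=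
    Nat.add_sub_of_le ((Nat.le_div_iff_mul_le hd).2 (by rwa [mul_comm]))
  have hmeq : (c.d * c.e + 1) * (m % c.d) + c.d * j + c.d * K * β.1.degree = m := by
    have h1 := Nat.div_add_mod m c.d
    rw [← hj'] at h1
    nlinarith
  have hfinal : (u ^ c.e) ^ (m % c.d) * u ^ j *
      ∏ l, (MvPowerSeries.X l * u ^ K) ^ (β.1 l) ∈ Sep_W c t m := by
    have h1 := Sep_mul c t (Sep_mul c t (Sep_pow c t hTW (m % c.d)) (Sep_pow c t hFW j))
      (Sep_prod c t hXW β.1 Finset.univ)
    rwa [← Finsupp.degree_eq_sum, hmeq] at h1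
  set M : ℕ := c.e * (m % c.d) + j + K * ∑ l, β.1 l with hM
  have hprod : (u ^ c.e) ^ (m % c.d) * u ^ j * ∏ l, (MvPowerSeries.X l * u ^ K) ^ (β.1 l) =
      u ^ M * MvPowerSeries.monomial β.1 1 := by
    rw [← Sep_prod_X]
    simp only [mul_pow, Finset.prod_mul_distrib]
    rw [Finset.prod_congr rfl fun l _ => (pow_mul u K (β.1 l)).symm, Finset.prod_pow_eq_pow_sum,
      ← Finset.mul_sum, hM, pow_add, pow_add, pow_mul]
    ring
  rw [hprod] at hfinal
  have h0 := hW _ hfinal
  rw [hΛ, Finset.sum_eq_single β] at h0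
  · rw [MvPowerSeries.coeff_mul_monomial, if_pos le_rfl, tsub_self, mul_one,
      MvPowerSeries.coeff_zero_eq_constantCoeff_apply, map_pow] at h0
    have h1 : algebraMap ℂ L (∏ l, ((β.1 l).factorial : ℂ)) ≠ 0 := by
      rw [Ne, _root_.map_eq_zero]
      exact Finset.prod_ne_zero_iff.2 fun l _ => by exact_mod_cast (Nat.factorial_ne_zero _)
    exact mul_ne_zero (mul_ne_zero hgβ h1) (pow_ne_zero _ hu0) h0
  · intro α hα hαβ
    rw [MvPowerSeries.coeff_mul_monomial]
    split_ifs with hle'
    · have h1 : g α = 0 := by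
        by_contra hgα
        have h2 := hβmax α (Finset.mem_filter.2 ⟨hα, hgα⟩)
        have h3 : β.1 + (α.1 - β.1) = α.1 := add_tsub_cancel_of_le hle'
        have h4 := congrArg Finsupp.degree h3
        rw [map_add] at h4
        have h5 : (α.1 - β.1).degree = 0 := by
          have h6 : α.1.degree ≤ β.1.degree := h2
          omega
        rw [Finsupp.degree_eq_zero_iff] at h5
        rw [h5, add_zero] at h3
        exact hαβ (Subtype.ext h3.symm)
      rw [h1, zero_mul, zero_mul]
    · rw [mul_zero]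
  · intro h1
    exact absurd hβS h1

end Pool.Agent.Lib_KF

end

/-! ### from `Lib_KF.SHBasis` -/

section

/-!
# SH1: a homogeneous basis of `Frac R` over `ℂ(x)` containing `1`
-/

open scoped ENNReal NNReal

namespace Pool.Agent.Lib_KF

open Pool.Agent.Lib_GD

variable {R : Type} [CommRing R] [IsDomain R] [Algebra ℂ R] {n : ℕ} [Algebra (PA n) R]
  [IsScalarTower ℂ (PA n) R] [Module.Finite (PA n) R] [Module.IsTorsionFree (PA n) R]

/-- `K = Frac R` is finite over `K₀ = Frac ℂ[x]` and spanned over `K₀` by the homogeneous elements of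
`R` (every element of `K` is `f / q`, `f ∈ R`, `q ∈ ℂ[x]`, as `R` is integral). Extend `{1}` to a
`K₀`-basis inside the set of homogeneous elements (`exists_linearIndepOn_extension` or similar). -/
theorem sh_basis (𝒜 : ℕ → Submodule ℂ R) [GradedAlgebra 𝒜] :
    ∃ (k : ℕ) (β : Fin (k + 1) → R) (deg : Fin (k + 1) → ℕ), β 0 = 1 ∧
      (∀ a, β a ∈ 𝒜 (deg a)) ∧ LinearIndependent (PA n) β ∧
      ∀ f : R, ∃ q : PA n, q ≠ 0 ∧ ∃ p : Fin (k + 1) → PA n,
        algebraMap (PA n) R q * f = ∑ a, algebraMap (PA n) R (p a) * β a := by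
  classical
  have hinj : Function.Injective (algebraMap (PA n) R) :=
    (Module.isTorsionFree_iff_algebraMap_injective).1 inferInstance
  -- the sizes of the families
  let P : ℕ → Prop := fun k => ∃ (β : Fin (k + 1) → R) (deg : Fin (k + 1) → ℕ), β 0 = 1 ∧
    (∀ a, β a ∈ 𝒜 (deg a)) ∧ LinearIndependent (PA n) β
  have hP0 : P 0 := by
    refine ⟨fun _ => 1, fun _ => 0, rfl, fun _ => SetLike.GradedOne.one_mem, ?_⟩
    rw [Fintype.linearIndependent_iff]
    intro g hg i
    rw [Fin.sum_univ_one] at hg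
    have h1 : algebraMap (PA n) R (g 0) = 0 := by
      rw [Algebra.algebraMap_eq_smul_one]
      exact hg
    have h2 : g 0 = 0 := hinj (by rw [h1, map_zero])
    have h3 : i = 0 := Fin.ext (by have := i.isLt; simp only [Fin.val_zero]; omega)
    rw [h3]
    exact h2
  have hbd : ∀ k, P k → k ≤ Module.finrank (PA n) R := by
    rintro k ⟨β, deg, -, -, hli⟩
    have h := hli.fintype_card_le_finrank
    rw [Fintype.card_fin] at h
    omega
  obtain ⟨k, hk, hmax⟩ : ∃ k, P k ∧ ∀ m, P m → m ≤ k := by
    refine ⟨Nat.findGreatest P (Module.finrank (PA n) R), ?_, ?_⟩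
    · exact Nat.findGreatest_spec (m := 0) (Nat.zero_le _) hP0
    · intro m hm
      exact Nat.le_findGreatest (hbd m hm) hm
  obtain ⟨β, deg, hβ0, hβh, hβli⟩ := hk
  refine ⟨k, β, deg, hβ0, hβh, hβli, ?_⟩
  -- homogeneous elements
  have hhom : ∀ (i : ℕ) (f : R), f ∈ 𝒜 i → ∃ q : PA n, q ≠ 0 ∧ ∃ p : Fin (k + 1) → PA n,
      algebraMap (PA n) R q * f = ∑ a, algebraMap (PA n) R (p a) * β a := by
    intro i f hf
    by_contra hcon
    push Not at hcon
    have hP : P (k + 1) := by
      refine ⟨Fin.snoc (α := fun _ => R) β f, Fin.snoc (α := fun _ => ℕ) deg i, ?_, ?_, ?_⟩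
      · have h0 : (0 : Fin (k + 1 + 1)) = Fin.castSucc 0 := rfl
        rw [h0, Fin.snoc_castSucc]
        exact hβ0
      · intro a
        refine Fin.lastCases ?_ (fun b => ?_) a
        · rw [Fin.snoc_last, Fin.snoc_last]
          exact hf
        · rw [Fin.snoc_castSucc, Fin.snoc_castSucc]
          exact hβh b
      · rw [Fintype.linearIndependent_iff]
        intro g hg
        rw [Fin.sum_univ_castSucc] at hg
        simp only [Fin.snoc_castSucc, Fin.snoc_last] at hg
        have hlast : g (Fin.last (k + 1)) = 0 := by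
          by_contra hne
          refine hcon _ hne (fun a => - g (Fin.castSucc a)) ?_
          have h1 : algebraMap (PA n) R (g (Fin.last (k + 1))) * f =
              - ∑ a : Fin (k + 1), g (Fin.castSucc a) • β a := by
            rw [← Algebra.smul_def]
            exact (neg_eq_of_add_eq_zero_right hg).symm
          rw [h1, ← Finset.sum_neg_distrib]
          refine Finset.sum_congr rfl fun a _ => ?_
          rw [map_neg, neg_mul, Algebra.smul_def]
        rw [hlast, zero_smul, add_zero] at hg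
        have hrest := (Fintype.linearIndependent_iff.1 hβli) (fun a => g (Fin.castSucc a)) hg
        intro a
        refine Fin.lastCases ?_ (fun b => ?_) a
        · exact hlast
        · exact hrest b
    have := hmax _ hP
    omega
  -- the general case
  intro f
  have key : ∀ (s : Finset ℕ) (c : ℕ → R), (∀ i ∈ s, c i ∈ 𝒜 i) →
      ∃ q : PA n, q ≠ 0 ∧ ∃ p : Fin (k + 1) → PA n,
        algebraMap (PA n) R q * (∑ i ∈ s, c i) = ∑ a, algebraMap (PA n) R (p a) * β a := by
    intro s c
    refine Finset.induction_on s ?_ ?_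
    · intro _
      refine ⟨1, one_ne_zero, fun _ => 0, ?_⟩
      simp
    · intro i s his ih hmem
      obtain ⟨q₁, hq₁, p₁, h₁⟩ := ih fun j hj => hmem j (Finset.mem_insert_of_mem hj)
      obtain ⟨q₂, hq₂, p₂, h₂⟩ := hhom i (c i) (hmem i (Finset.mem_insert_self i s))
      refine ⟨q₁ * q₂, mul_ne_zero hq₁ hq₂, fun a => q₁ * p₂ a + q₂ * p₁ a, ?_⟩
      rw [Finset.sum_insert his]
      have e1 : algebraMap (PA n) R (q₁ * q₂) * (c i + ∑ x ∈ s, c x) =
          algebraMap (PA n) R q₁ * (algebraMap (PA n) R q₂ * c i) +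
          algebraMap (PA n) R q₂ * (algebraMap (PA n) R q₁ * ∑ x ∈ s, c x) := by
        rw [map_mul]; ring
      rw [e1, h₁, h₂, Finset.mul_sum, Finset.mul_sum, ← Finset.sum_add_distrib]
      refine Finset.sum_congr rfl fun a _ => ?_
      rw [map_add, map_mul, map_mul]; ring
  have hf : f = ∑ i ∈ (DirectSum.decompose 𝒜 f).support, (DirectSum.decompose 𝒜 f i : R) :=
    (DirectSum.sum_support_decompose 𝒜 f).symm
  obtain ⟨q, hq, p, hp⟩ := key (DirectSum.decompose 𝒜 f).support
    (fun i => (DirectSum.decompose 𝒜 f i : R)) fun i _ => (DirectSum.decompose 𝒜 f i).2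
  refine ⟨q, hq, p, ?_⟩
  rw [← hp]
  rw [← hf]

end Pool.Agent.Lib_KF

end

/-! ### from `Lib_KF.KCHt` -/

section

/-!
# KC11: primes of height one of `R` lie over primes of height one of `ℂ[x]`, which are principal
-/

namespace Pool.Agent.Lib_KF

/-- Going down for the integral extension `ℂ[x] ⊆ R` (`Mathlib.RingTheory.IntegralClosure.GoingDown`,
`ℂ[x]` is integrally closed): the contraction of `p` has height one (it is not `0` by integrality), so
it is generated by an irreducible polynomial (`ℂ[x]` is factorial). -/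
theorem kc_contract {R : Type} [CommRing R] [IsDomain R] [Algebra ℂ R] {n : ℕ}
    {x : Fin (n + 1) → R} (hx : AlgebraicIndependent ℂ x)
    (hfin : Module.Finite (Algebra.adjoin ℂ (Set.range x)) R)
    (p : Ideal R) (hp : p.IsPrime) (hp1 : p.height = 1) :
    ∃ h₁ : MvPolynomial (Fin (n + 1)) ℂ, Irreducible h₁ ∧
      p.comap (MvPolynomial.aeval x : MvPolynomial (Fin (n + 1)) ℂ →ₐ[ℂ] R) =
        Ideal.span {h₁} := by
  classical
  let φ : MvPolynomial (Fin (n + 1)) ℂ →+* R :=
    (MvPolynomial.aeval x : MvPolynomial (Fin (n + 1)) ℂ →ₐ[ℂ] R).toRingHom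
  let _ : Algebra (MvPolynomial (Fin (n + 1)) ℂ) R := φ.toAlgebra
  have hmap : ∀ a, algebraMap (MvPolynomial (Fin (n + 1)) ℂ) R a = MvPolynomial.aeval x a :=
    fun a => rfl
  have hinj : Function.Injective (algebraMap (MvPolynomial (Fin (n + 1)) ℂ) R) := hx
  have : FaithfulSMul (MvPolynomial (Fin (n + 1)) ℂ) R :=
    (faithfulSMul_iff_algebraMap_injective _ _).2 hinj
  have : Algebra.IsIntegral (MvPolynomial (Fin (n + 1)) ℂ) R := by
    refine ⟨fun r => ?_⟩
    obtain ⟨P, hP, hr⟩ : IsIntegral (Algebra.adjoin ℂ (Set.range x)) r :=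
      Algebra.IsIntegral.isIntegral r
    let ψ : MvPolynomial (Fin (n + 1)) ℂ →+* Algebra.adjoin ℂ (Set.range x) :=
      ((MvPolynomial.aeval x : MvPolynomial (Fin (n + 1)) ℂ →ₐ[ℂ] R).codRestrict
        (Algebra.adjoin ℂ (Set.range x)) (fun a => by
          rw [Algebra.adjoin_range_eq_range_aeval]
          exact ⟨a, rfl⟩)).toRingHom
    have hψ : Function.Surjective ψ := by
      rintro ⟨y, hy⟩
      rw [Algebra.adjoin_range_eq_range_aeval] at hy
      obtain ⟨a, ha⟩ := hy
      exact ⟨a, Subtype.ext ha⟩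
    obtain ⟨Q, hQ, -, hQm⟩ := Polynomial.lifts_and_natDegree_eq_and_monic
      (f := ψ) ((Polynomial.mem_lifts _).2 (Polynomial.map_surjective ψ hψ P)) hP
    refine ⟨Q, hQm, ?_⟩
    rw [← hQ, Polynomial.eval₂_map] at hr
    exact hr
  set q : Ideal (MvPolynomial (Fin (n + 1)) ℂ) := p.under (MvPolynomial (Fin (n + 1)) ℂ) with hq
  have : q.IsPrime := Ideal.IsPrime.under _ p
  have : p.LiesOver q := ⟨rfl⟩
  have hp0 : p ≠ ⊥ := Ideal.ne_bot_of_height_eq_one hp1
  have hq0 : q ≠ ⊥ := Ideal.IsIntegral.comap_ne_bot _ hp0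
  obtain ⟨h, hh, hprime⟩ := Ideal.IsPrime.exists_mem_prime_of_ne_bot ‹q.IsPrime› hq0
  refine ⟨h, hprime.irreducible, ?_⟩
  have hle : Ideal.span {h} ≤ q := (Ideal.span_singleton_le_iff_mem _).2 hh
  have : (Ideal.span {h}).IsPrime := (Ideal.span_singleton_prime hprime.ne_zero).2 hprime
  by_contra hne
  have hlt : Ideal.span {h} < q := lt_of_le_of_ne hle fun he => hne he.symm
  obtain ⟨P, hP, hPp, hPo⟩ := Ideal.exists_ideal_lt_liesOver_of_lt (S := R) p hlt
  have h1 := Ideal.height_add_one_le_of_lt_of_isPrime hP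
  rw [hp1] at h1
  have h2 : P.height = 0 := by
    have h3 : P.height + 1 ≤ 0 + 1 := by simpa using h1
    exact nonpos_iff_eq_zero.1 ((ENat.add_le_add_iff_right ENat.one_ne_top).1 h3)
  have h3 : P = ⊥ := Ideal.height_eq_zero_iff_eq_bot.1 h2
  have h4 : algebraMap (MvPolynomial (Fin (n + 1)) ℂ) R h ∈ P := by
    have h5 : h ∈ P.under (MvPolynomial (Fin (n + 1)) ℂ) := by
      rw [← hPo.over]
      exact Ideal.mem_span_singleton_self h
    exact h5
  rw [h3, Ideal.mem_bot] at h4
  exact hprime.ne_zero (hinj (h4.trans (map_zero _).symm))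

end Pool.Agent.Lib_KF

end

/-! ### from `Lib_KF.KCOrdG` -/

section

/-!
# KC12: the order of `G` along a prime of height one is at least `r (e - 1)`
-/

open scoped ENNReal NNReal

namespace Pool.Agent.Lib_KF

open Pool.Agent.Lib_GD

private theorem KCOrdG_ord_prod {R : Type} [CommRing R] [IsDomain R] {m : Type} (s : Finset m)
    (c : m → R) (hc : ∀ i, c i ≠ 0) : Ring.ord R (∏ i ∈ s, c i) = ∑ i ∈ s, Ring.ord R (c i) := by
  classical
  induction s using Finset.induction_on with
  | empty => simp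
  | insert a s ha ih =>
    rw [Finset.prod_insert ha, Finset.sum_insert ha, Ring.ord_mul R, ih]
    exact mem_nonZeroDivisors_of_ne_zero (Finset.prod_ne_zero_iff.2 fun i _ => hc i)

/-- The length of the cokernel of a square matrix over a principal ideal domain. -/
private theorem KCOrdG_length {R : Type} [CommRing R] [IsDomain R] [IsPrincipalIdealRing R]
    {m : Type} [Fintype m] [DecidableEq m] (A : Matrix m m R) (hA : A.det ≠ 0) :
    Module.length R ((m → R) ⧸ Submodule.span R (Set.range A)) = Ring.ord R A.det := by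
  set N : Submodule R (m → R) := Submodule.span R (Set.range A) with hN
  have hr : LinearMap.range A.vecMulLinear = N := by
    rw [range_vecMulLinear]
    rfl
  have hinj : Function.Injective A.vecMulLinear := by
    rw [← LinearMap.ker_eq_bot, LinearMap.ker_eq_bot']
    intro x hx
    exact Matrix.eq_zero_of_vecMul_eq_zero hA hx
  let eN : (m → R) ≃ₗ[R] N :=
    (LinearEquiv.ofInjective A.vecMulLinear hinj).trans (LinearEquiv.ofEq _ _ hr)
  have heN : ∀ x, ((eN x : N) : m → R) = A.vecMulLinear x := fun x => rfl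
  have hrank : Module.finrank R N = Module.finrank R (m → R) := eN.finrank_eq.symm
  let b := Pi.basisFun R m
  let b' := Submodule.smithNormalFormTopBasis b hrank
  let ab := Submodule.smithNormalFormBotBasis b hrank
  let c := Submodule.smithNormalFormCoeffs b hrank
  have hab : ∀ i, (ab i : m → R) = c i • b' i := Submodule.smithNormalFormBotBasis_def b hrank
  have hc : ∀ i, c i ≠ 0 := fun i => Submodule.smithNormalFormCoeffs_ne_zero b hrank i
  rw [(N.quotientEquivPiSpan b hrank).length_eq, Module.length_pi_of_fintype]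
  have h1 : ∑ i, Module.length R (R ⧸ Ideal.span ({c i} : Set R)) = Ring.ord R (∏ i, c i) := by
    rw [KCOrdG_ord_prod _ _ hc]
    rfl
  refine h1.trans (Ring.ord_eq_of_associated ?_)
  -- the two determinants
  let ψ : (m → R) →ₗ[R] (m → R) := N.subtype ∘ₗ (b'.equiv ab (Equiv.refl m)).toLinearMap
  have hψ : LinearMap.det ψ = ∏ i, c i := by
    rw [← LinearMap.det_toMatrix b', ← Matrix.det_diagonal]
    congr 1
    ext i j
    rw [LinearMap.toMatrix_apply]
    have h2 : ψ (b' j) = c j • b' j := by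
      rw [← hab j]
      show ((b'.equiv ab (Equiv.refl m) (b' j) : N) : m → R) = ab j
      rw [Module.Basis.equiv_apply]
      rfl
    rw [h2, map_smul, Finsupp.smul_apply, Module.Basis.repr_self, Matrix.diagonal_apply,
      smul_eq_mul, Finsupp.single_apply]
    split_ifs with h3 h4 h4
    · rw [mul_one, h3]
    · exact absurd h3.symm h4
    · exact absurd h4.symm h3
    · rw [mul_zero]
  have hφ : LinearMap.det A.vecMulLinear = A.det := by
    rw [← Matrix.mulVecLin_transpose, ← Matrix.toLin'_apply', LinearMap.det_toLin',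
      Matrix.det_transpose]
  rw [← hψ, ← hφ]
  refine (LinearMap.associated_det_of_eq_comp (eN.trans (b'.equiv ab (Equiv.refl m)).symm)
    A.vecMulLinear ψ fun x => ?_).symm
  show A.vecMulLinear x = ((b'.equiv ab (Equiv.refl m)
    ((b'.equiv ab (Equiv.refl m)).symm (eN x)) : N) : m → R)
  rw [LinearEquiv.apply_symm_apply, heN]

/-- If the cokernel has finite length the determinant is not zero. -/
private theorem KCOrdG_det_ne {R : Type} [CommRing R] [IsDomain R] [IsDiscreteValuationRing R]
    {m : Type} [Fintype m] [DecidableEq m] (A : Matrix m m R)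
    (h : Module.length R ((m → R) ⧸ Submodule.span R (Set.range A)) ≠ ⊤) : A.det ≠ 0 := by
  intro h0
  obtain ⟨w, hw0, hw⟩ := Matrix.exists_mulVec_eq_zero_iff.2 h0
  obtain ⟨q, hq⟩ : ∃ q, w q ≠ 0 := by
    by_contra hne
    push Not at hne
    exact hw0 (funext hne)
  let ℓ : (m → R) →ₗ[R] R := ∑ i, w i • LinearMap.proj i
  have hℓ : ∀ x, ℓ x = ∑ i, w i * x i := by
    intro x
    simp [ℓ, LinearMap.sum_apply]
  have hker : Submodule.span R (Set.range A) ≤ LinearMap.ker ℓ := by
    rw [Submodule.span_le]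
    rintro _ ⟨p, rfl⟩
    show ℓ (A p) = 0
    rw [hℓ]
    have := congrFun hw p
    rw [Matrix.mulVec, dotProduct, Pi.zero_apply] at this
    rw [← this]
    exact Finset.sum_congr rfl fun i _ => mul_comm _ _
  let g : R →ₗ[R] ((m → R) ⧸ Submodule.span R (Set.range A)) :=
    (Submodule.mkQ _) ∘ₗ (LinearMap.single R (fun _ => R) q)
  have hg : Function.Injective g := by
    rw [← LinearMap.ker_eq_bot, LinearMap.ker_eq_bot']
    intro x hx
    have h1 : (Pi.single q x : m → R) ∈ Submodule.span R (Set.range A) :=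
      (Submodule.Quotient.mk_eq_zero _).1 hx
    have h2 : ℓ (Pi.single q x) = 0 := hker h1
    rw [hℓ, Finset.sum_eq_single q] at h2
    · rw [Pi.single_eq_same] at h2
      exact (mul_eq_zero.1 h2).resolve_left hq
    · intro i _ hi
      rw [Pi.single_eq_of_ne hi, mul_zero]
    · intro hh
      exact absurd (Finset.mem_univ q) hh
  have h3 : Module.length R R ≠ ⊤ := fun hh =>
    h (top_le_iff.1 (hh ▸ Module.length_le_of_injective g hg))
  have h4 : IsArtinian R R := (isFiniteLength_iff_isNoetherian_isArtinian.1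
    (Module.length_ne_top_iff.1 h3)).2
  have h5 : IsArtinianRing R := h4
  exact IsDiscreteValuationRing.not_isField R (IsArtinianRing.isField_of_isDomain R)

private theorem KCOrdG_ord_dvr {R : Type} [CommRing R] [IsDomain R] [IsDiscreteValuationRing R]
    (x : R) (hx : x ≠ 0) : Ring.ord R x = IsDiscreteValuationRing.addVal R x := by
  obtain ⟨ϖ, hϖ⟩ := IsDiscreteValuationRing.exists_irreducible R
  obtain ⟨n, u, rfl⟩ := IsDiscreteValuationRing.eq_unit_mul_pow_irreducible hx hϖ
  rw [IsDiscreteValuationRing.addVal_def' u hϖ n, Ring.ord_mul_of_isUnit_left u.isUnit,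
    Ring.ord_pow (mem_nonZeroDivisors_of_ne_zero hϖ.ne_zero), Ring.ord_of_irreducible hϖ,
    nsmul_eq_mul, mul_one]

/-- `h₁ ∤ ∂_b h₁` for some `b`. -/
private theorem KCOrdG_pderiv {σ : Type} (f : MvPolynomial σ ℂ) (hf : Irreducible f) :
    ∃ b, ¬ f ∣ MvPolynomial.pderiv b f := by
  classical
  by_contra hcon
  push Not at hcon
  have h0 : ∀ b, MvPolynomial.pderiv b f = 0 := by
    intro b
    by_contra hb
    obtain ⟨q, hq⟩ := hcon b
    have hq0 : q ≠ 0 := by
      rintro rfl
      exact hb (by rw [hq, mul_zero])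
    have h1 : (MvPolynomial.pderiv b f).totalDegree = f.totalDegree + q.totalDegree := by
      rw [hq, MvPolynomial.totalDegree_mul_of_isDomain hf.ne_zero hq0]
    obtain ⟨m, hm, hm2⟩ : ∃ m ∈ (MvPolynomial.pderiv b f).support,
        (MvPolynomial.pderiv b f).totalDegree = m.sum fun _ e => e := by
      have hne : (MvPolynomial.pderiv b f).support.Nonempty := by
        rw [Finset.nonempty_iff_ne_empty]
        intro h
        exact hb (MvPolynomial.support_eq_empty.1 h)
      obtain ⟨m, hm, hm2⟩ := Finset.exists_mem_eq_sup _ hne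
        (fun m : σ →₀ ℕ => m.sum fun _ e => e)
      exact ⟨m, hm, hm2⟩
    rw [MvPolynomial.mem_support_iff, MvPolynomial.coeff_pderiv] at hm
    have h2 : m + Finsupp.single b 1 ∈ f.support :=
      MvPolynomial.mem_support_iff.2 (left_ne_zero_of_mul hm)
    have h3 := MvPolynomial.le_totalDegree h2
    have h4 : ((m + Finsupp.single b 1 : σ →₀ ℕ).sum fun _ e => e) =
        (m.sum fun _ e => e) + 1 := by
      rw [Finsupp.sum_add_index' (by simp) (by simp)]
      simp
    omega
  have h1 : f = MvPolynomial.C (MvPolynomial.coeff 0 f) := by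
    ext m
    rw [MvPolynomial.coeff_C]
    split_ifs with hm
    · rw [hm]
    · obtain ⟨b, hb⟩ : ∃ b, m b ≠ 0 := by
        by_contra h
        push Not at h
        exact hm (by ext b; simp [h b])
      have h2 := MvPolynomial.coeff_pderiv (i := b) f (m - Finsupp.single b 1)
      rw [h0 b, MvPolynomial.coeff_zero] at h2
      have h3 : m - Finsupp.single b 1 + Finsupp.single b 1 = m := by
        apply tsub_add_cancel_of_le
        rw [Finsupp.single_le_iff]
        omega
      rw [h3] at h2
      rcases mul_eq_zero.1 h2.symm with h4 | h4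
      · exact h4
      · exfalso
        have h5 : ((((m - Finsupp.single b 1 : σ →₀ ℕ) b + 1 : ℕ)) : ℂ) = 0 := by
          push_cast
          exact h4
        rw [Nat.cast_eq_zero] at h5
        omega
  have h2 : MvPolynomial.coeff 0 f ≠ 0 := by
    intro h
    rw [h, map_zero] at h1
    exact hf.ne_zero h1
  apply hf.not_isUnit
  rw [h1]
  exact (isUnit_iff_ne_zero.2 h2).map MvPolynomial.C

/-- the differential of a polynomial -/
private theorem KCOrdG_D {V : Type} [CommRing V] [Algebra ℂ V] {σ : Type} [Fintype σ] (y : σ → V)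
    (f : MvPolynomial σ ℂ) :
    KaehlerDifferential.D ℂ V (MvPolynomial.aeval y f) =
      ∑ b, MvPolynomial.aeval y (MvPolynomial.pderiv b f) • KaehlerDifferential.D ℂ V (y b) := by
  classical
  induction f using MvPolynomial.induction_on with
  | C a =>
    rw [MvPolynomial.aeval_C, Derivation.map_algebraMap]
    simp
  | add p q hp hq =>
    rw [map_add, map_add, hp, hq, ← Finset.sum_add_distrib]
    refine Finset.sum_congr rfl fun b _ => ?_
    rw [map_add, map_add, add_smul]
  | mul_X p i hp =>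
    rw [map_mul, Derivation.leibniz, hp, MvPolynomial.aeval_X]
    have h1 : ∀ b, MvPolynomial.aeval y (MvPolynomial.pderiv b (p * MvPolynomial.X i)) •
        KaehlerDifferential.D ℂ V (y b) =
        (y i) • (MvPolynomial.aeval y (MvPolynomial.pderiv b p) •
          KaehlerDifferential.D ℂ V (y b)) +
        (if b = i then MvPolynomial.aeval y p • KaehlerDifferential.D ℂ V (y b) else 0) := by
      intro b
      rw [MvPolynomial.pderiv_mul, map_add, map_mul, map_mul, MvPolynomial.aeval_X, add_smul,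
        mul_comm, mul_smul]
      congr 1
      split_ifs with h
      · rw [h, MvPolynomial.pderiv_X_self, map_one, mul_one]
      · rw [MvPolynomial.pderiv_X_of_ne (Ne.symm h), map_zero, mul_zero, zero_smul]
    rw [Finset.sum_congr rfl fun b _ => h1 b, Finset.sum_add_distrib, Finset.sum_ite_eq' _ i,
      if_pos (Finset.mem_univ i), ← Finset.smul_sum, add_comm]

/-- Cramer: a vector with a unit entry whose product with `A` is divisible by `s`. -/
private theorem KCOrdG_dvd {V : Type} [CommRing V] {m : Type} [Fintype m] [DecidableEq m]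
    (A : Matrix m m V) (w v : m → V) (s : V) (h : Matrix.vecMul w A = s • v) (i : m)
    (hi : IsUnit (w i)) : s ∣ A.det := by
  have h1 : Matrix.vecMul (Matrix.vecMul w A) A.adjugate = A.det • w := by
    rw [Matrix.vecMul_vecMul, Matrix.mul_adjugate, Matrix.vecMul_smul, Matrix.vecMul_one]
  rw [h, Matrix.smul_vecMul] at h1
  have h2 := congrFun h1 i
  rw [Pi.smul_apply, Pi.smul_apply, smul_eq_mul, smul_eq_mul] at h2
  have h3 : s ∣ A.det * w i := ⟨_, h2.symm⟩
  exact (IsUnit.dvd_mul_right hi).1 h3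

/-- the transcendence degree of a localisation of a finite extension of `ℂ[x]` -/
private theorem KCOrdG_trdeg {R : Type} [CommRing R] [IsDomain R] [Algebra ℂ R] {n : ℕ}
    {x : Fin (n + 1) → R} (hx : AlgebraicIndependent ℂ x)
    (hfin : Module.Finite (Algebra.adjoin ℂ (Set.range x)) R) (p : Ideal R) [p.IsPrime]
    [IsDomain (Localization.AtPrime p)] :
    Algebra.trdeg ℂ (Localization.AtPrime p) = (n + 1 : ℕ) := by
  have := hfin
  have : Algebra.IsIntegral (Algebra.adjoin ℂ (Set.range x)) R := Algebra.IsIntegral.of_finite _ _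
  have h1 : IsTranscendenceBasis ℂ x := by
    rw [hx.isTranscendenceBasis_iff_isAlgebraic]
    infer_instance
  have h2 := h1.cardinalMk_eq_trdeg
  have h3 : Algebra.IsAlgebraic R (Localization.AtPrime p) :=
    IsLocalization.isAlgebraic _ p.primeCompl
  have : FaithfulSMul R (Localization.AtPrime p) :=
    (faithfulSMul_iff_algebraMap_injective _ _).2
      (IsLocalization.injective _ p.primeCompl_le_nonZeroDivisors)
  have h4 := trdeg_add_eq ℂ R (A := Localization.AtPrime p)
  rw [trdeg_eq_zero (R := R) (A := Localization.AtPrime p), add_zero] at h4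
  rw [← h4, ← h2]
  simp

variable {R : Type} [CommRing R] [Algebra ℂ R] {𝒜 : ℕ → Submodule ℂ R}
    [GradedAlgebra 𝒜] {n r d : ℕ} {x : Fin (n + 1) → R} {G : R}

/-- `length (S / (g)) = ord g` in a discrete valuation ring. -/
theorem kc_length_quot {S : Type} [CommRing S] [IsDomain S] [IsDiscreteValuationRing S] (g : S) :
    Module.length S (S ⧸ Ideal.span {g}) = IsDiscreteValuationRing.addVal S g := by
  by_cases hg : g = 0
  · subst hg
    rw [IsDiscreteValuationRing.addVal_zero]
    have h1 : Ring.ord S (0 : S) = Module.length S S := Ring.ord_zero S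
    have h2 : Module.length S (S ⧸ Ideal.span {(0 : S)}) = Ring.ord S (0 : S) := rfl
    rw [h2, h1]
    by_contra h
    have h4 : IsArtinian S S := (isFiniteLength_iff_isNoetherian_isArtinian.1
      (Module.length_ne_top_iff.1 h)).2
    have h5 : IsArtinianRing S := h4
    exact IsDiscreteValuationRing.not_isField S (IsArtinianRing.isField_of_isDomain S)
  · exact KCOrdG_ord_dvr g hg

/-- `length (Ω_{R_p} / ⟨dx_b⟩) ≥ e - 1`, `e = ord_p (h₁)`, `p ∩ ℂ[x] = (h₁)`. Write
`h₁ = u t ^ e`, so `d h₁ ∈ t ^ (e - 1) Ω`, `d h₁ = ∑ (∂_b h₁) dx_b`, and some `∂_b h₁` is a unit of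
`R_p` (it is not divisible by `h₁` by degree). So `⟨dx⟩ + t ^ (e - 1) Ω` is generated by `n` of the
`dx_b` and `t ^ (e - 1) Ω`, and `Ω / t ^ (e - 1) Ω` has length at least `(n + 1) (e - 1)`, because `Ω` is finitely
generated over `R_p` of rank `n + 1 = trdeg`. (The quotient by `n` elements killed by `t ^ (e - 1)` loses at
most `n (e - 1)`.) -/
theorem kc_length_kaehler (h : IsFano 𝒜 n r d x G) (p : Ideal R) (hp : p.IsPrime)
    (hdom : IsDomain (Localization.AtPrime p))
    (hdvr : IsDiscreteValuationRing (Localization.AtPrime p))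
    (h₁ : MvPolynomial (Fin (n + 1)) ℂ) (hirr : Irreducible h₁)
    (hc : p.comap (MvPolynomial.aeval x : MvPolynomial (Fin (n + 1)) ℂ →ₐ[ℂ] R) =
        Ideal.span {h₁}) :
    IsDiscreteValuationRing.addVal (Localization.AtPrime p)
        (algebraMap R (Localization.AtPrime p) (MvPolynomial.aeval x h₁)) - 1 ≤
      Module.length (Localization.AtPrime p)
      (KaehlerDifferential ℂ (Localization.AtPrime p) ⧸
        Submodule.span (Localization.AtPrime p) (Set.range fun b =>
          KaehlerDifferential.D ℂ (Localization.AtPrime p)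
            (algebraMap R (Localization.AtPrime p) (x b)))) := by
  classical
  have := h.domain
  have := h.x_finite
  set V := Localization.AtPrime p with hV
  have hft := h.finiteType
  have hess : Algebra.EssFiniteType ℂ V := by
    have h1 : Algebra.EssFiniteType R V := Algebra.EssFiniteType.of_isLocalization _ p.primeCompl
    exact Algebra.EssFiniteType.comp ℂ R V
  obtain ⟨t, w, b, ht, -, -⟩ := exists_dvr_coords V n (KCOrdG_trdeg h.x_indep h.x_finite p)
  let y : Fin (n + 1) → V := fun i => algebraMap R V (x i)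
  have hy : ∀ f : MvPolynomial (Fin (n + 1)) ℂ,
      algebraMap R V (MvPolynomial.aeval x f) = MvPolynomial.aeval y f := by
    intro f
    have h1 : (IsScalarTower.toAlgHom ℂ R V).comp (MvPolynomial.aeval x) =
        MvPolynomial.aeval y := by
      apply MvPolynomial.algHom_ext
      intro i
      simp [y]
    rw [← h1]
    rfl
  have hinj : Function.Injective (algebraMap R V) :=
    IsLocalization.injective _ p.primeCompl_le_nonZeroDivisors
  have hne : MvPolynomial.aeval y h₁ ≠ 0 := by
    rw [← hy]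
    intro h0
    have h1 : MvPolynomial.aeval x h₁ = 0 := hinj (by rw [h0, map_zero])
    exact hirr.ne_zero (h.x_indep (by rw [h1, map_zero]))
  obtain ⟨e, u, hu⟩ := IsDiscreteValuationRing.eq_unit_mul_pow_irreducible hne ht
  rw [hy, hu, IsDiscreteValuationRing.addVal_def' u ht e]
  -- some derivative is a unit
  obtain ⟨i₀, hi₀⟩ := KCOrdG_pderiv h₁ hirr
  have hunit : IsUnit (MvPolynomial.aeval y (MvPolynomial.pderiv i₀ h₁)) := by
    rw [← hy, IsLocalization.AtPrime.isUnit_to_map_iff V p]
    intro hmem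
    have h1 : MvPolynomial.pderiv i₀ h₁ ∈ p.comap
        (MvPolynomial.aeval x : MvPolynomial (Fin (n + 1)) ℂ →ₐ[ℂ] R) := hmem
    rw [hc, Ideal.mem_span_singleton] at h1
    exact hi₀ h1
  -- the matrix
  let c : Module.Basis (Fin (n + 1)) V (KaehlerDifferential ℂ V) :=
    b.reindex (Fintype.equivOfCardEq (by simp))
  let A : Matrix (Fin (n + 1)) (Fin (n + 1)) V := fun i j =>
    c.equivFun (KaehlerDifferential.D ℂ V (y i)) j
  have hlen : Module.length V (KaehlerDifferential ℂ V ⧸
      Submodule.span V (Set.range fun b => KaehlerDifferential.D ℂ V (y b))) =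
      Module.length V ((Fin (n + 1) → V) ⧸ Submodule.span V (Set.range A)) := by
    refine (Submodule.Quotient.equiv _ _ c.equivFun ?_).length_eq
    rw [Submodule.map_span, ← Set.range_comp]
    rfl
  have hgoal : Module.length V (KaehlerDifferential ℂ V ⧸
      Submodule.span V (Set.range fun b => KaehlerDifferential.D ℂ V
        (algebraMap R V (x b)))) =
      Module.length V ((Fin (n + 1) → V) ⧸ Submodule.span V (Set.range A)) := hlen
  rw [hgoal]
  by_cases hdet : A.det = 0
  · have h1 : Module.length V ((Fin (n + 1) → V) ⧸ Submodule.span V (Set.range A)) = ⊤ := by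
      by_contra h2
      exact KCOrdG_det_ne A h2 hdet
    rw [h1]
    exact le_top
  rw [KCOrdG_length A hdet]
  rcases e with _ | e
  · simp
  have hdvd : t ^ e ∣ A.det := by
    refine KCOrdG_dvd A (fun i => MvPolynomial.aeval y (MvPolynomial.pderiv i h₁))
      (c.equivFun (t • KaehlerDifferential.D ℂ V (u : V) +
        ((u : V) * (e + 1 : ℕ)) • KaehlerDifferential.D ℂ V t)) (t ^ e) ?_ i₀ hunit
    have h1 := KCOrdG_D y h₁
    rw [hu, Derivation.leibniz, Derivation.leibniz_pow] at h1
    have h2 : Matrix.vecMul (fun i => MvPolynomial.aeval y (MvPolynomial.pderiv i h₁)) A =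
        c.equivFun (∑ b, MvPolynomial.aeval y (MvPolynomial.pderiv b h₁) •
          KaehlerDifferential.D ℂ V (y b)) := by
      rw [map_sum]
      ext j
      rw [Matrix.vecMul, dotProduct, Finset.sum_apply]
      refine Finset.sum_congr rfl fun i _ => ?_
      rw [map_smul, Pi.smul_apply, smul_eq_mul]
    have h3 : (u : V) • (e + 1) • t ^ (e + 1 - 1) • KaehlerDifferential.D ℂ V t +
        t ^ (e + 1) • KaehlerDifferential.D ℂ V (u : V) =
        t ^ e • (t • KaehlerDifferential.D ℂ V (u : V) +
        ((u : V) * (e + 1 : ℕ)) • KaehlerDifferential.D ℂ V t) := by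
      rw [smul_add, smul_smul, smul_smul, add_comm, Nat.add_sub_cancel]
      congr 1
      rw [← Nat.cast_smul_eq_nsmul V, smul_smul, smul_smul]
      congr 1
      push_cast
      ring
    rw [h2, ← h1, h3]
    exact c.equivFun.map_smul _ _
  calc ((e + 1 : ℕ) : ℕ∞) - 1 = (e : ℕ∞) := by
        have h5 : (1 : ℕ∞) = ((1 : ℕ) : ℕ∞) := rfl
        rw [h5, ← ENat.natCast_sub, Nat.add_sub_cancel]
    _ = Ring.ord V (t ^ e) := by
        rw [Ring.ord_pow (mem_nonZeroDivisors_of_ne_zero ht.ne_zero),
          Ring.ord_of_irreducible ht, nsmul_eq_mul, mul_one]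
    _ ≤ Ring.ord V A.det := Ring.ord_le_ord_of_dvd hdvd

/-- consequence of `G_ord` -/
theorem kc_ordG (h : IsFano 𝒜 n r d x G) (p : Ideal R) (hp : p.IsPrime) (hp1 : p.height = 1)
    (hdom : IsDomain (Localization.AtPrime p))
    (hdvr : IsDiscreteValuationRing (Localization.AtPrime p))
    (h₁ : MvPolynomial (Fin (n + 1)) ℂ) (hirr : Irreducible h₁)
    (hc : p.comap (MvPolynomial.aeval x : MvPolynomial (Fin (n + 1)) ℂ →ₐ[ℂ] R) =
        Ideal.span {h₁}) :
    (r : ℕ∞) * (IsDiscreteValuationRing.addVal (Localization.AtPrime p)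
        (algebraMap R (Localization.AtPrime p) (MvPolynomial.aeval x h₁)) - 1) ≤
      IsDiscreteValuationRing.addVal (Localization.AtPrime p)
        (algebraMap R (Localization.AtPrime p) G) := by
  have h1 := h.G_ord p hp hp1
  have h2 := kc_length_quot (algebraMap R (Localization.AtPrime p) G)
  rw [← h2, h1]
  exact mul_le_mul_right (kc_length_kaehler h p hp hdom hdvr h₁ hirr hc) _

end Pool.Agent.Lib_KF

end

/-! ### from `Lib_KF.ChFrac` -/

section

/-! CH07: the valuation ring of an arc. -/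

open PowerSeries

namespace Pool.Agent.Lib_KF

open Pool.Agent.Lib_GD

variable {k L : Type} [Field k] [Field L] [Algebra k L]

private theorem ChFrac_mem_iff (A : Subalgebra k L⟦X⟧) (f : L⟦X⟧) :
    f ∈ fracRing A ↔ ∃ a ∈ A, ∃ b ∈ A, b ≠ 0 ∧ f * b = a := Iff.rfl

/-- CH07a. `fracRing A` is a discrete valuation ring with uniformiser `X`: a non-zero `f` of it is
`X ^ m * v`, `v = f / X ^ m` again a fraction of elements of `A`, with non-zero constant
coefficient, and the inverse (in `L⟦X⟧`) of such a `v` is in `fracRing A`. -/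
theorem isUnit_fracRing (A : Subalgebra k L⟦X⟧) (f : fracRing A) :
    IsUnit f ↔ constantCoeff f.1 ≠ 0 := by
  constructor
  · intro h
    have h1 : IsUnit f.1 := h.map (fracRing A).val
    exact (h1.map (constantCoeff (R := L))).ne_zero
  · intro h
    have h1 : f.1 * (f.1)⁻¹ = 1 := PowerSeries.mul_inv_cancel _ h
    obtain ⟨a, ha, b, hb, hb0, hab⟩ := (ChFrac_mem_iff A f.1).1 f.2
    have hf0 : f.1 ≠ 0 := by
      intro h0
      rw [h0, map_zero] at h
      exact h rfl
    have hmem : (f.1)⁻¹ ∈ fracRing A := by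
      rw [ChFrac_mem_iff]
      refine ⟨b, hb, a, ha, ?_, ?_⟩
      · rw [← hab]
        exact mul_ne_zero hf0 hb0
      · rw [← hab, ← mul_assoc, mul_comm _ f.1, h1, one_mul]
    exact IsUnit.of_mul_eq_one ⟨(f.1)⁻¹, hmem⟩ (Subtype.ext h1)

theorem exists_eq_X_pow_mul (A : Subalgebra k L⟦X⟧) (hX : (X : L⟦X⟧) ∈ A) (f : fracRing A)
    (hf : f ≠ 0) : ∃ (m : ℕ) (v : fracRing A), IsUnit v ∧ f.1.order = m ∧
      f = (⟨X, le_fracRing A hX⟩ : fracRing A) ^ m * v := by
  have hf0 : f.1 ≠ 0 := fun h => hf (Subtype.ext h)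
  obtain ⟨a, ha, b, hb, hb0, hab⟩ := (ChFrac_mem_iff A f.1).1 f.2
  have h1 : (X : L⟦X⟧) ^ f.1.order.toNat * divXPowOrder f.1 = f.1 := X_pow_order_mul_divXPowOrder
  have hmem : divXPowOrder f.1 ∈ fracRing A := by
    rw [ChFrac_mem_iff]
    refine ⟨a, ha, X ^ f.1.order.toNat * b, A.mul_mem (A.pow_mem hX _) hb,
      mul_ne_zero (pow_ne_zero _ X_ne_zero) hb0, ?_⟩
    rw [← hab]
    nth_rewrite 3 [← h1]
    ring
  refine ⟨f.1.order.toNat, ⟨divXPowOrder f.1, hmem⟩, ?_, (coe_toNat_order hf0).symm, ?_⟩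
  · rw [isUnit_fracRing]
    exact fun h => hf0 (constantCoeff_divXPowOrder_eq_zero_iff.1 h)
  · exact Subtype.ext h1.symm

theorem fracRing_isDVR (A : Subalgebra k L⟦X⟧) (hX : (X : L⟦X⟧) ∈ A) :
    IsDiscreteValuationRing (fracRing A) ∧ Irreducible (⟨X, le_fracRing A hX⟩ : fracRing A) := by
  have hirr : Irreducible (⟨X, le_fracRing A hX⟩ : fracRing A) := by
    constructor
    · rw [isUnit_fracRing]
      simp
    · intro a b hab
      by_contra hcon
      push Not at hcon
      have ha := hcon.1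
      have hb := hcon.2
      rw [isUnit_fracRing, not_not] at ha hb
      have h1 : (X : L⟦X⟧) = a.1 * b.1 := congrArg Subtype.val hab
      have h2 := congrArg (coeff 1) h1
      rw [coeff_one_X, coeff_mul] at h2
      rw [Finset.Nat.antidiagonal_succ] at h2
      simp [ha, hb] at h2
  refine ⟨?_, hirr⟩
  apply IsDiscreteValuationRing.ofHasUnitMulPowIrreducibleFactorization
  refine ⟨_, hirr, ?_⟩
  intro f hf
  obtain ⟨m, v, hv, -, hfv⟩ := exists_eq_X_pow_mul A hX f hf
  exact ⟨m, hv.unit, hfv.symm⟩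

/-- CH07b. Residues are constant coefficients. -/
theorem residue_indep (A : Subalgebra k L⟦X⟧) [IsLocalRing (fracRing A)] {n : ℕ}
    (u : Fin n → fracRing A)
    (hu : AlgebraicIndependent k (fun l => constantCoeff (u l).1)) :
    AlgebraicIndependent k (fun l => IsLocalRing.residue (fracRing A) (u l)) := by
  let c : fracRing A →+* L := (constantCoeff (R := L)).comp (fracRing A).val.toRingHom
  have hc : IsLocalHom c := ⟨fun f hf => (isUnit_fracRing A f).2 hf.ne_zero⟩
  let φ : IsLocalRing.ResidueField (fracRing A) →ₐ[k] L :=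
    { IsLocalRing.ResidueField.lift c with
      commutes' := fun r => by
        change IsLocalRing.ResidueField.lift c
          (IsLocalRing.residue (fracRing A) (algebraMap k (fracRing A) r)) = _
        rw [IsLocalRing.ResidueField.lift_residue_apply]
        change constantCoeff (algebraMap k L⟦X⟧ r) = _
        rw [PowerSeries.algebraMap_apply, PowerSeries.constantCoeff_C] }
  refine AlgebraicIndependent.of_comp φ ?_
  exact hu

private theorem ChFrac_mono {A B : Subalgebra k L⟦X⟧} (h : A ≤ B) : fracRing A ≤ fracRing B := by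
  rintro f ⟨a, ha, b, hb, hb0, e⟩
  exact ⟨a, h ha, b, h hb, hb0, e⟩

/-- Elements of `fracRing A` are algebraic over a subring over which `A` is algebraic. -/
private theorem ChFrac_alg (P A : Subalgebra k L⟦X⟧)
    (halg : ∀ a ∈ A, IsAlgebraic P a) (f : L⟦X⟧) (hf : f ∈ fracRing A) : IsAlgebraic P f := by
  obtain ⟨a, ha, b, hb, hb0, hab⟩ := hf
  have hinj : Function.Injective (algebraMap L⟦X⟧ (FractionRing L⟦X⟧)) :=
    IsFractionRing.injective _ _
  rw [← isAlgebraic_algebraMap_iff (A := FractionRing L⟦X⟧) hinj]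
  have h1 : IsAlgebraic P (algebraMap L⟦X⟧ (FractionRing L⟦X⟧) a) :=
    (isAlgebraic_algebraMap_iff hinj).2 (halg a ha)
  have h2 : IsAlgebraic P (algebraMap L⟦X⟧ (FractionRing L⟦X⟧) b) :=
    (isAlgebraic_algebraMap_iff hinj).2 (halg b hb)
  have h3 : algebraMap L⟦X⟧ (FractionRing L⟦X⟧) f =
      algebraMap L⟦X⟧ (FractionRing L⟦X⟧) a * (algebraMap L⟦X⟧ (FractionRing L⟦X⟧) b)⁻¹ := by
    rw [← hab, map_mul, mul_inv_cancel_right₀]
    exact fun h => hb0 (hinj (by rw [h, map_zero]))
  rw [h3]
  exact h1.mul h2.inv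

/-- If every element of `V` is a fraction of elements of `A`, then the fraction field of `V` is
essentially of finite type. -/
private theorem ChFrac_ess {k A V : Type} [Field k] [CommRing A] [IsDomain A] [CommRing V]
    [IsDomain V] [Algebra k A] [Algebra k V] [Algebra.FiniteType k A] (ι : A →ₐ[k] V)
    (hι : Function.Injective ι) (key : ∀ f : V, ∃ a b : A, b ≠ 0 ∧ f * ι b = ι a)
    (K : Type) [Field K] [Algebra V K] [IsFractionRing V K] [Algebra k K] [IsScalarTower k V K] :
    Algebra.EssFiniteType k K := by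
  let : Algebra A K := ((algebraMap V K).comp ι.toRingHom).toAlgebra
  have hAK : ∀ a : A, algebraMap A K a = algebraMap V K (ι a) := fun _ => rfl
  have : IsScalarTower k A K := by
    refine IsScalarTower.of_algebraMap_eq fun x => ?_
    rw [hAK, ι.commutes]
    exact IsScalarTower.algebraMap_apply k V K x
  have hinjV : Function.Injective (algebraMap V K) := IsFractionRing.injective _ _
  have hinj : Function.Injective (algebraMap A K) := by
    intro a b h
    rw [hAK, hAK] at h
    exact hι (hinjV h)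
  have : FaithfulSMul A K := (faithfulSMul_iff_algebraMap_injective _ _).2 hinj
  have : IsFractionRing A K := by
    refine IsFractionRing.of_field A K ?_
    intro z
    obtain ⟨f, g, hg, rfl⟩ := IsFractionRing.div_surjective (A := V) z
    have hg0 : g ≠ 0 := nonZeroDivisors.ne_zero hg
    obtain ⟨a, b, hb, h1⟩ := key f
    obtain ⟨a', b', hb', h2⟩ := key g
    have hbK : algebraMap V K (ι b) ≠ 0 := fun h => hb (hι (hinjV (by rw [h, map_zero, map_zero])))
    have hbK' : algebraMap V K (ι b') ≠ 0 :=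
      fun h => hb' (hι (hinjV (by rw [h, map_zero, map_zero])))
    have hgK : algebraMap V K g ≠ 0 := fun h => hg0 (hinjV (by rw [h, map_zero]))
    refine ⟨a * b', b * a', ?_⟩
    rw [hAK, hAK, map_mul ι, map_mul ι, ← h1, ← h2]
    simp only [map_mul]
    field_simp
  have : Algebra.EssFiniteType A K :=
    Algebra.EssFiniteType.of_isLocalization K (nonZeroDivisors A)
  exact Algebra.EssFiniteType.comp k A K

/-- CH07c. Transcendence degree and finite generation. `≤`: `fracRing A` is algebraic over `A`, `A`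
over `polyRing k y`, which has `n + 1` generators. `≥`: `X, u_l` are algebraically independent
(CH02b, CH07b). The fraction field of `fracRing A` is the fraction field of `A`, so it is
essentially of finite type (`Algebra.EssFiniteType.comp k A _`, localisation). -/
theorem trdeg_fracRing [CharZero k] {n : ℕ} (y : Fin n → L⟦X⟧) (A : Subalgebra k L⟦X⟧)
    (hA : polyRing k y ≤ A) (hfg : A.FG) (halg : ∀ a ∈ A, IsAlgebraic (polyRing k y) a)
    (u : Fin n → L⟦X⟧) (hu : ∀ l, u l ∈ fracRing (polyRing k y))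
    (hind : AlgebraicIndependent k (fun l => constantCoeff (u l))) :
    Algebra.trdeg k (fracRing A) = (n + 1 : ℕ) ∧
      Algebra.EssFiniteType k (FractionRing (fracRing A)) := by
  classical
  have hXP : (X : L⟦X⟧) ∈ polyRing k y := Algebra.subset_adjoin (Set.mem_insert _ _)
  have hyP : ∀ l, y l ∈ polyRing k y := fun l =>
    Algebra.subset_adjoin (Set.mem_insert_of_mem _ ⟨l, rfl⟩)
  have hX : (X : L⟦X⟧) ∈ A := hA hXP
  obtain ⟨hdvr, hirr⟩ := fracRing_isDVR A hX
  constructor
  · apply le_antisymm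
    · -- the generators
      let g : Option (Fin n) → fracRing A := fun o =>
        o.elim ⟨X, le_fracRing A hX⟩ (fun l => ⟨y l, le_fracRing A (hA (hyP l))⟩)
      have hmap : (Algebra.adjoin k (Set.range g)).map (fracRing A).val = polyRing k y := by
        rw [AlgHom.map_adjoin, polyRing, ← Set.range_comp]
        congr 1
        ext z
        constructor
        · rintro ⟨o, rfl⟩
          rcases o with _ | l
          · exact Set.mem_insert _ _
          · exact Set.mem_insert_of_mem _ ⟨l, rfl⟩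
        · rintro (rfl | ⟨l, rfl⟩)
          · exact ⟨none, rfl⟩
          · exact ⟨some l, rfl⟩
      have hP : ∀ z : Algebra.adjoin k (Set.range g), (z : fracRing A).1 ∈ polyRing k y := by
        intro z
        rw [← hmap]
        exact ⟨_, z.2, rfl⟩
      let φ : Algebra.adjoin k (Set.range g) →+* polyRing k y :=
        { toFun := fun z => ⟨(z : fracRing A).1, hP z⟩
          map_one' := rfl
          map_mul' := fun _ _ => rfl
          map_zero' := rfl
          map_add' := fun _ _ => rfl }
      have hφ : Function.Surjective φ := by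
        rintro ⟨z, hz⟩
        rw [← hmap] at hz
        obtain ⟨w, hw, hwz⟩ := hz
        exact ⟨⟨w, hw⟩, Subtype.ext hwz⟩
      have hA' : Algebra.IsAlgebraic (Algebra.adjoin k (Set.range g)) (fracRing A) := by
        refine ⟨fun f => ?_⟩
        refine IsAlgebraic.of_ringHom_of_comp_eq φ (fracRing A).val.toRingHom
          (ChFrac_alg (polyRing k y) A halg f.1 f.2) hφ Subtype.val_injective ?_
        ext z
        rfl
      obtain ⟨t, ht, htb⟩ := exists_isTranscendenceBasis_subset (R := k) (Set.range g)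
      rw [← htb.cardinalMk_eq_trdeg]
      refine (Cardinal.mk_le_mk_of_subset ht).trans ?_
      refine Cardinal.mk_range_le.trans ?_
      simp
    · have hres := residue_indep A (fun l => (⟨u l, ChFrac_mono hA (hu l)⟩ : fracRing A)) hind
      have h1 := algebraicIndependent_option k (fracRing A) n _ hirr _ hres
      have h2 := h1.cardinalMk_le_trdeg
      refine le_trans (le_of_eq ?_) h2
      simp
  · have hft : Algebra.FiniteType k A := ⟨(Subalgebra.fg_top A).2 hfg⟩
    refine ChFrac_ess (Subalgebra.inclusion (le_fracRing A)) (Subalgebra.inclusion_injective _)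
      ?_ (FractionRing (fracRing A))
    intro f
    obtain ⟨a, ha, b, hb, hb0, hab⟩ := (ChFrac_mem_iff A f.1).1 f.2
    exact ⟨⟨a, ha⟩, ⟨b, hb⟩, fun h => hb0 (congrArg Subtype.val h), Subtype.ext hab⟩

theorem fracRing_mono {A B : Subalgebra k L⟦X⟧} (h : A ≤ B) : fracRing A ≤ fracRing B := by
  rintro f ⟨a, ha, b, hb, hb0, e⟩
  exact ⟨a, h ha, b, h hb, hb0, e⟩

end Pool.Agent.Lib_KF

end

/-! ### from `Lib_MP_e0d435_kv.Gauss` -/

section

/-! V07: the Gauss extension `M(u)` of a log-differential discretely valued field.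

`M' = RatFunc M` (or the fraction field of `M[u]`), `w' (∑ a_i u ^ i) = min_i w a_i` on
polynomials, `w' (P / Q) = w' P - w' Q`; multiplicativity is the Gauss lemma: after scaling by powers
of `t` both polynomials have least order `0`, take the least indices `i₀`, `j₀` where the order `0`
is attained and look at the coefficient `i₀ + j₀` of the product. Derivations:
`d' (i + 1) (∑ a_j u ^ j) = ∑ (d i a_j) u ^ j`, `d' 0 = d / du`, extended to quotients by
`d (P / Q) = (Q d P - P d Q) / Q ^ 2`. The log property: for polynomials clear (the order of the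
integer factors in `d / du` is `≥ 0`); for quotients `w' (Q dP - P dQ) ≥ w' P + w' Q`. -/

namespace Pool.Agent.Lib_MP_e0d435_kv

open Polynomial

section DerFrac

variable {A K : Type} [CommRing A] [IsDomain A] [Field K] [Algebra A K] [IsFractionRing A K]
  [Algebra ℂ A] [Algebra ℂ K] [IsScalarTower ℂ A K]

/-- `a ↦ a + d(a) ε` -/
private noncomputable def gaussDual (δ : Derivation ℂ A A) : A →+* TrivSqZeroExt K K where
  toFun a := TrivSqZeroExt.inl (algebraMap A K a) + TrivSqZeroExt.inr (algebraMap A K (δ a))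
  map_one' := by ext <;> simp
  map_zero' := by ext <;> simp
  map_add' a b := by
    ext
    · simp
    · simp only [map_add, TrivSqZeroExt.snd_add, TrivSqZeroExt.snd_inl, TrivSqZeroExt.snd_inr,
        zero_add]
  map_mul' a b := by
    ext
    · simp
    · simp only [Derivation.leibniz, smul_eq_mul, map_add, map_mul, TrivSqZeroExt.snd_add,
        TrivSqZeroExt.snd_inl, TrivSqZeroExt.snd_inr, zero_add, TrivSqZeroExt.snd_mul,
        TrivSqZeroExt.fst_add, TrivSqZeroExt.fst_inl, TrivSqZeroExt.fst_inr, add_zero,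
        MulOpposite.smul_eq_mul_unop, MulOpposite.unop_op]
      ring

omit [IsDomain A] [IsFractionRing A K] [Algebra ℂ K] [IsScalarTower ℂ A K] in
private theorem gaussDual_fst (δ : Derivation ℂ A A) (a : A) :
    (gaussDual (K := K) δ a).fst = algebraMap A K a := by
  show (TrivSqZeroExt.inl (algebraMap A K a) + TrivSqZeroExt.inr (algebraMap A K (δ a)) :
    TrivSqZeroExt K K).fst = _
  rw [TrivSqZeroExt.fst_add, TrivSqZeroExt.fst_inl, TrivSqZeroExt.fst_inr, add_zero]

omit [IsDomain A] [IsFractionRing A K] [Algebra ℂ K] [IsScalarTower ℂ A K] in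
private theorem gaussDual_snd (δ : Derivation ℂ A A) (a : A) :
    (gaussDual (K := K) δ a).snd = algebraMap A K (δ a) := by
  show (TrivSqZeroExt.inl (algebraMap A K a) + TrivSqZeroExt.inr (algebraMap A K (δ a)) :
    TrivSqZeroExt K K).snd = _
  rw [TrivSqZeroExt.snd_add, TrivSqZeroExt.snd_inl, TrivSqZeroExt.snd_inr, zero_add]

omit [IsDomain A] in
/-- A derivation of a domain extends to the fraction field. -/
private theorem exists_der_frac (δ : Derivation ℂ A A) :
    ∃ D : Derivation ℂ K K, ∀ a, D (algebraMap A K a) = algebraMap A K (δ a) := by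
  have hu : ∀ y : nonZeroDivisors A, IsUnit (gaussDual (K := K) δ y) := by
    intro y
    rw [TrivSqZeroExt.isUnit_iff_isUnit_fst, gaussDual_fst]
    exact (IsLocalization.map_units K y)
  set g : K →+* TrivSqZeroExt K K := IsLocalization.lift hu with hg
  have hg1 : ∀ a, g (algebraMap A K a) = gaussDual (K := K) δ a := fun a =>
    IsLocalization.lift_eq hu a
  have hfst : ∀ x, (g x).fst = x := by
    have h1 : ((TrivSqZeroExt.fstHom K K K).toRingHom.comp g) = RingHom.id K := by
      apply IsLocalization.ringHom_ext (nonZeroDivisors A)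
      ext a
      show (g (algebraMap A K a)).fst = algebraMap A K a
      rw [hg1, gaussDual_fst]
    intro x
    exact congrArg (fun h : K →+* K => h x) h1
  have hC : ∀ c : ℂ, g (algebraMap ℂ K c) = TrivSqZeroExt.inl (algebraMap ℂ K c) := by
    intro c
    rw [IsScalarTower.algebraMap_apply ℂ A K, hg1]
    ext
    · rw [gaussDual_fst, TrivSqZeroExt.fst_inl]
    · rw [gaussDual_snd, Derivation.map_algebraMap, TrivSqZeroExt.snd_inl, map_zero]
  let L : K →ₗ[ℂ] K :=
    { toFun := fun x => (g x).snd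
      map_add' := fun x y => by simp
      map_smul' := fun c x => by
        rw [Algebra.smul_def, map_mul, hC]
        simp [Algebra.smul_def] }
  refine ⟨Derivation.mk' L fun x y => ?_, fun a => ?_⟩
  · show (g (x * y)).snd = x • (g y).snd + y • (g x).snd
    rw [map_mul, TrivSqZeroExt.snd_mul, hfst, hfst, MulOpposite.smul_eq_mul_unop,
      MulOpposite.unop_op, smul_eq_mul, smul_eq_mul, mul_comm y]
  · show (g (algebraMap A K a)).snd = _
    rw [hg1, gaussDual_snd]

end DerFrac

section GaussVal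

variable {M : Type} [Field M] (w : AddValuation M (WithTop ℤ))

/-- The least order of the coefficients. -/
private noncomputable def gv (P : M[X]) : WithTop ℤ := P.support.inf fun i => w (P.coeff i)

private theorem le_gv_iff (P : M[X]) (c : WithTop ℤ) : c ≤ gv w P ↔ ∀ i, c ≤ w (P.coeff i) := by
  unfold gv
  rw [Finset.le_inf_iff]
  constructor
  · intro h i
    by_cases hi : i ∈ P.support
    · exact h i hi
    · rw [notMem_support_iff.1 hi, AddValuation.map_zero]; exact le_top
  · intro h i _
    exact h i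

private theorem gv_le (P : M[X]) (i : ℕ) : gv w P ≤ w (P.coeff i) := (le_gv_iff w P _).1 le_rfl i

private theorem gv_zero : gv w (0 : M[X]) = ⊤ := by simp [gv]

private theorem exists_gv (P : M[X]) (hP : P ≠ 0) :
    ∃ (a : ℤ) (i : ℕ), gv w P = (a : WithTop ℤ) ∧ w (P.coeff i) = (a : WithTop ℤ) ∧
      ∀ j < i, (a : WithTop ℤ) < w (P.coeff j) := by
  classical
  have h1 : ∃ i, w (P.coeff i) = gv w P := by
    obtain ⟨i, -, hi⟩ := Finset.exists_mem_eq_inf P.support (support_nonempty.2 hP)
      (fun i => w (P.coeff i))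
    exact ⟨i, hi.symm⟩
  have h2 : gv w P ≠ ⊤ := by
    obtain ⟨i, hi⟩ := support_nonempty.2 hP
    have h3 := gv_le w P i
    have h4 : w (P.coeff i) ≠ ⊤ := (AddValuation.ne_top_iff w).2 (mem_support_iff.1 hi)
    exact ne_top_of_le_ne_top h4 h3
  obtain ⟨a, ha⟩ := WithTop.ne_top_iff_exists.1 h2
  refine ⟨a, Nat.find h1, ha.symm, (Nat.find_spec h1).trans ha.symm, fun j hj => ?_⟩
  rw [ha]
  exact lt_of_le_of_ne (gv_le w P j) fun h => Nat.find_min h1 hj h.symm

private theorem gv_ne_top (P : M[X]) (hP : P ≠ 0) : gv w P ≠ ⊤ := by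
  obtain ⟨a, -, ha, -⟩ := exists_gv w P hP
  rw [ha]; exact WithTop.coe_ne_top

private theorem gv_one : gv w (1 : M[X]) = 0 := by
  apply le_antisymm
  · have := gv_le w (1 : M[X]) 0
    rwa [coeff_one_zero, AddValuation.map_one] at this
  · rw [le_gv_iff]
    intro i
    rw [coeff_one]
    split_ifs
    · rw [AddValuation.map_one]
    · rw [AddValuation.map_zero]; exact le_top

private theorem gv_add (P Q : M[X]) : min (gv w P) (gv w Q) ≤ gv w (P + Q) := by
  rw [le_gv_iff]
  intro i
  rw [coeff_add]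
  exact (min_le_min (gv_le w P i) (gv_le w Q i)).trans (AddValuation.map_add w _ _)

private theorem gv_mul (P Q : M[X]) : gv w (P * Q) = gv w P + gv w Q := by
  classical
  by_cases hP : P = 0
  · rw [hP, zero_mul, gv_zero, top_add]
  by_cases hQ : Q = 0
  · rw [hQ, mul_zero, gv_zero, add_top]
  obtain ⟨a, i, ha, hai, hai'⟩ := exists_gv w P hP
  obtain ⟨b, j, hb, hbj, hbj'⟩ := exists_gv w Q hQ
  apply le_antisymm
  · refine (gv_le w (P * Q) (i + j)).trans (le_of_eq ?_)
    rw [coeff_mul]
    have hmem : (i, j) ∈ Finset.HasAntidiagonal.antidiagonal (i + j) := by simp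
    rw [← Finset.add_sum_erase _ _ hmem, ha, hb]
    have h1 : w (P.coeff i * Q.coeff j) = ((a + b : ℤ) : WithTop ℤ) := by
      rw [AddValuation.map_mul, hai, hbj, WithTop.coe_add]
    have h2 : ((a + b : ℤ) : WithTop ℤ) <
        w (∑ x ∈ (Finset.HasAntidiagonal.antidiagonal (i + j)).erase (i, j), P.coeff x.1 * Q.coeff x.2) := by
      apply AddValuation.map_lt_sum w WithTop.coe_ne_top
      rintro ⟨x, y⟩ hxy
      rw [Finset.mem_erase, Finset.HasAntidiagonal.mem_antidiagonal] at hxy
      obtain ⟨hne, hsum⟩ := hxy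
      simp only at hsum ⊢
      have hax : (a : WithTop ℤ) ≤ w (P.coeff x) := by rw [← ha]; exact gv_le w P x
      have hby : (b : WithTop ℤ) ≤ w (Q.coeff y) := by rw [← hb]; exact gv_le w Q y
      rw [AddValuation.map_mul, WithTop.coe_add]
      by_cases hx : x < i
      · exact WithTop.add_lt_add_of_lt_of_le WithTop.coe_ne_top (hai' x hx) hby
      · have hy : y < j := by
          by_contra hy
          apply hne
          have : x = i := by omega
          have : y = j := by omega
          subst_vars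
          rfl
        exact WithTop.add_lt_add_of_le_of_lt WithTop.coe_ne_top hax (hbj' y hy)
    rw [← h1] at h2
    rw [AddValuation.map_add_eq_of_lt_left w h2, h1, WithTop.coe_add]
  · rw [le_gv_iff]
    intro n
    rw [coeff_mul]
    apply AddValuation.map_le_sum w
    rintro ⟨x, y⟩ -
    rw [AddValuation.map_mul]
    exact add_le_add (gv_le w P x) (gv_le w Q y)

/-- The Gauss valuation on polynomials. -/
private noncomputable def gval : AddValuation M[X] (WithTop ℤ) :=
  AddValuation.of (gv w) (gv_zero w) (gv_one w) (gv_add w) (gv_mul w)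

private theorem exists_gauss_val {K : Type} [Field K] [Algebra M[X] K] [IsFractionRing M[X] K] :
    ∃ w' : AddValuation K (WithTop ℤ), ∀ P, w' (algebraMap M[X] K P) = gv w P := by
  have hS : nonZeroDivisors M[X] ≤ (AddValuation.toValuation (gval w)).supp.primeCompl := by
    intro Q hQ h
    have h1 : (AddValuation.toValuation (gval w)) Q = 0 := h
    have h2 : gv w Q = ⊤ := h1
    exact gv_ne_top w Q (nonZeroDivisors.ne_zero hQ) h2
  refine ⟨AddValuation.ofValuation
    ((AddValuation.toValuation (gval w)).extendToLocalization hS K), fun P => ?_⟩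
  exact Valuation.extendToLocalization_apply_map_apply _ hS K P

end GaussVal

section Log

variable {M : Type} [Field M] [Algebra ℂ M] (w : AddValuation M (WithTop ℤ))

private theorem gv_derivative (P : M[X]) : gv w P ≤ gv w (derivative P) := by
  rw [le_gv_iff]
  intro n
  rw [coeff_derivative, AddValuation.map_mul]
  have h1 : w ((n : M) + 1) = 0 := by
    have h2 : ((n : M) + 1) = algebraMap ℂ M ((n : ℂ) + 1) := by simp
    rw [h2]
    exact w_algebraMap w _ (Nat.cast_add_one_ne_zero n)
  rw [h1, add_zero]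
  exact gv_le w P (n + 1)

private noncomputable def gaussMapCoeffs (δ : Derivation ℂ M M) : Derivation ℂ M[X] M[X] :=
  PolynomialModule.equivPolynomialSelf.compDer δ.mapCoeffs

private theorem gaussMapCoeffs_coeff (δ : Derivation ℂ M M) (P : M[X]) (i : ℕ) :
    (gaussMapCoeffs δ P).coeff i = δ (P.coeff i) := rfl

private theorem gv_gaussMapCoeffs (δ : Derivation ℂ M M) (h : ∀ f, w f ≤ w (δ f)) (P : M[X]) :
    gv w P ≤ gv w (gaussMapCoeffs δ P) := by
  rw [le_gv_iff]
  intro n
  rw [gaussMapCoeffs_coeff]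
  exact (gv_le w P n).trans (h _)

/-- The log property extends to quotients. -/
private theorem gauss_log {A K : Type} [CommRing A] [IsDomain A] [Field K] [Algebra A K]
    [IsFractionRing A K] [Algebra ℂ K] (w' : AddValuation K (WithTop ℤ)) (D : Derivation ℂ K K)
    (h : ∀ a : A, w' (algebraMap A K a) ≤ w' (D (algebraMap A K a))) (f : K) :
    w' f ≤ w' (D f) := by
  obtain ⟨p, q, hq, rfl⟩ := IsFractionRing.div_surjective (A := A) f
  set x := algebraMap A K p with hx
  set y := algebraMap A K q with hy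
  have hy0 : y ≠ 0 := IsFractionRing.to_map_ne_zero_of_mem_nonZeroDivisors hq
  have h1 : D (x / y) * (y * y) = y * D x - x * D y := by
    rw [Derivation.leibniz_div]
    simp only [smul_eq_mul]
    field_simp
  have h2 : w' (x / y) + w' (y * y) = w' x + w' y := by
    rw [← AddValuation.map_mul, ← AddValuation.map_mul]
    congr 1
    field_simp
  have h3 : w' x + w' y ≤ w' (y * D x - x * D y) := by
    apply AddValuation.map_le_sub
    · rw [AddValuation.map_mul, add_comm]
      exact add_le_add le_rfl (h p)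
    · rw [AddValuation.map_mul]
      exact add_le_add le_rfl (h q)
  have h4 : w' (y * y) ≠ ⊤ := (AddValuation.ne_top_iff w').2 (mul_ne_zero hy0 hy0)
  rw [← h1, ← h2, AddValuation.map_mul w' (D (x / y)) (y * y)] at h3
  exact (WithTop.add_le_add_iff_right h4).1 h3

end Log

theorem LDF.gauss {k : ℕ} (Λ : LDF k) :
    ∃ (Λ' : LDF (k + 1)) (ι : Λ.M →ₐ[ℂ] Λ'.M) (u : Λ'.M),
      (∀ a b : Λ.M, Λ'.w (ι a + ι b * u) = min (Λ.w a) (Λ.w b)) ∧
      (∀ i f, Λ'.d (Fin.succ i) (ι f) = ι (Λ.d i f)) ∧ (∀ i : Fin k, Λ'.d (Fin.succ i) u = 0) ∧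
      (∀ f, Λ'.d 0 (ι f) = 0) ∧ Λ'.d 0 u = 1 := by
  classical
  let A : Type := Λ.M[X]
  let K : Type := FractionRing Λ.M[X]
  obtain ⟨w', hw'⟩ := exists_gauss_val Λ.w (K := FractionRing Λ.M[X])
  obtain ⟨D0, hD0⟩ := exists_der_frac (A := Λ.M[X]) (K := FractionRing Λ.M[X])
    (derivative'.restrictScalars ℂ)
  have hD : ∀ i, ∃ D : Derivation ℂ (FractionRing Λ.M[X]) (FractionRing Λ.M[X]),
      ∀ a, D (algebraMap Λ.M[X] _ a) = algebraMap Λ.M[X] _ (gaussMapCoeffs (Λ.d i) a) :=
    fun i => exists_der_frac _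
  choose D hD using hD
  let ι : Λ.M →ₐ[ℂ] FractionRing Λ.M[X] :=
    (IsScalarTower.toAlgHom ℂ Λ.M[X] (FractionRing Λ.M[X])).comp CAlgHom
  have hι : ∀ f, ι f = algebraMap Λ.M[X] _ (C f) := fun f => rfl
  let Λ' : LDF (k + 1) :=
    { M := FractionRing Λ.M[X]
      w := w'
      t := algebraMap Λ.M[X] _ (C Λ.t)
      w_t := by
        rw [hw']
        apply le_antisymm
        · have := gv_le Λ.w (C Λ.t) 0
          rwa [coeff_C_zero, Λ.w_t] at this
        · rw [le_gv_iff]
          intro i
          rw [coeff_C]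
          split_ifs
          · rw [Λ.w_t]
          · rw [AddValuation.map_zero]; exact le_top
      d := Fin.cons D0 D
      log := by
        intro i
        refine Fin.cases ?_ (fun i => ?_) i
        · exact gauss_log (A := Λ.M[X]) w' _ fun a => by
            show w' (algebraMap _ _ a) ≤ w' (D0 (algebraMap _ _ a))
            rw [hD0, hw', hw']
            exact gv_derivative Λ.w a
        · exact gauss_log (A := Λ.M[X]) w' _ fun a => by
            show w' (algebraMap _ _ a) ≤ w' (D i (algebraMap _ _ a))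
            rw [hD, hw', hw']
            exact gv_gaussMapCoeffs Λ.w _ (Λ.log i) a }
  refine ⟨Λ', ι, algebraMap Λ.M[X] _ X, ?_, ?_, ?_, ?_, ?_⟩
  · intro a b
    show w' (algebraMap Λ.M[X] _ (C a) + algebraMap Λ.M[X] _ (C b) * algebraMap Λ.M[X] _ X) = _
    rw [← map_mul, ← map_add, hw']
    apply le_antisymm
    · refine le_min ?_ ?_
      · have := gv_le Λ.w (C a + C b * X) 0
        simpa using this
      · have := gv_le Λ.w (C a + C b * X) 1
        simpa [coeff_C] using this
    · rw [le_gv_iff]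
      intro i
      rcases i with _ | _ | i
      · simp
      · simp [coeff_C]
      · simp
  · intro i f
    show D i (algebraMap Λ.M[X] _ (C f)) = algebraMap Λ.M[X] _ (C (Λ.d i f))
    rw [hD]
    congr 1
    ext n
    rw [gaussMapCoeffs_coeff, coeff_C, coeff_C]
    split_ifs
    · rfl
    · rw [map_zero]
  · intro i
    show D i (algebraMap Λ.M[X] _ X) = 0
    rw [hD]
    have : gaussMapCoeffs (Λ.d i) (X : Λ.M[X]) = 0 := by
      ext n
      rw [gaussMapCoeffs_coeff, coeff_X]
      split_ifs
      · rw [Derivation.map_one_eq_zero, coeff_zero]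
      · rw [map_zero, coeff_zero]
    rw [this, map_zero]
  · intro f
    show D0 (algebraMap Λ.M[X] _ (C f)) = 0
    rw [hD0]
    show algebraMap Λ.M[X] _ (derivative (C f)) = 0
    rw [derivative_C, map_zero]
  · show D0 (algebraMap Λ.M[X] _ X) = 1
    rw [hD0]
    show algebraMap Λ.M[X] _ (derivative X) = 1
    rw [derivative_X, map_one]

end Pool.Agent.Lib_MP_e0d435_kv

end

/-! ### from `Lib_MP_e0d435_kv.AdRes` -/

section

/-! AD3: the residue field is large (Newton argument). -/

namespace Pool.Agent.Lib_MP_e0d435_kv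

section newton

variable {M : Type} [Field M] [Algebra ℂ M] {V : Type} [CommRing V] [Algebra ℂ V]
  (σ : V →ₐ[ℂ] M) (D : V →ₗ[ℂ] M) (hD : ∀ f g, D (f * g) = σ f * D g + σ g * D f)

include hD

private theorem AdRes_one : D 1 = 0 := by
  have h := hD 1 1
  rw [mul_one, map_one σ, one_mul] at h
  exact left_eq_add.1 h

private theorem AdRes_zero_of_adjoin {ι : Type} (u : ι → V) (hu : ∀ i, D (u i) = 0)
    (p : MvPolynomial ι ℂ) : D (MvPolynomial.aeval u p) = 0 := by
  induction p using MvPolynomial.induction_on with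
  | C a =>
    rw [MvPolynomial.aeval_C, Algebra.algebraMap_eq_smul_one, map_smul, AdRes_one σ D hD,
      smul_zero]
  | add p q hp hq => rw [map_add, map_add, hp, hq, add_zero]
  | mul_X p i hp => rw [map_mul, hD, hp, MvPolynomial.aeval_X, hu, mul_zero, mul_zero, add_zero]

private theorem AdRes_pow (f : V) (m : ℕ) : D (f ^ m) = m * σ f ^ (m - 1) * D f := by
  induction m with
  | zero => rw [pow_zero, AdRes_one σ D hD]; simp
  | succ m ih =>
    rw [pow_succ, hD, ih, map_pow]
    rcases m with _ | m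
    · simp
    · simp only [Nat.add_sub_cancel, Nat.cast_add, Nat.cast_one]
      ring

private theorem AdRes_eval₂ {ι : Type} (u : ι → V) (hu : ∀ i, D (u i) = 0) (f : V)
    (P : Polynomial (MvPolynomial ι ℂ)) :
    D (P.eval₂ (MvPolynomial.aeval u : MvPolynomial ι ℂ →ₐ[ℂ] V).toRingHom f) =
      σ (P.derivative.eval₂ (MvPolynomial.aeval u : MvPolynomial ι ℂ →ₐ[ℂ] V).toRingHom f) *
        D f := by
  induction P using Polynomial.induction_on' with
  | add p q hp hq =>
    rw [Polynomial.eval₂_add, map_add, hp, hq, Polynomial.derivative_add,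
      Polynomial.eval₂_add, map_add, add_mul]
  | monomial m a =>
    rw [Polynomial.eval₂_monomial, Polynomial.derivative_monomial, Polynomial.eval₂_monomial, hD]
    have h0 : D ((MvPolynomial.aeval u : MvPolynomial ι ℂ →ₐ[ℂ] V).toRingHom a) = 0 :=
      AdRes_zero_of_adjoin σ D hD u hu a
    rw [h0, mul_zero, add_zero, AdRes_pow σ D hD]
    simp only [map_mul, map_natCast, map_pow]
    ring

end newton

/-- The Newton argument. `V` a discrete valuation ring with `σ : V → M`, `ord σ f = e ord f`; `D` a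
derivation of `V` with values in `M` (over `σ`), bounded below, which kills a uniformiser `t` and
elements `u i` whose residues are a transcendence basis of the residue field. Then `D = 0`.
Proof: otherwise let `g` have `ord D g = m` least (`m` exists by boundedness). The residue of `g`
is algebraic over the residues of the `u i`: there is `P ∈ ℂ[u][T]` of least degree with
`P(g) ∈ t V`, then `P'(g)` is a unit; `P(g) = t g'`, and `D (P g) = σ (P' g) D g`,
`D (t g') = σ t D g'`, so `ord D g' = m - e`, contradiction. (`ArcDivisor_newton` in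
`Pool/Agent/Lib_GD/ArcDivisor.lean` is the same argument.) -/
theorem newton_kill {M : Type} [Field M] [Algebra ℂ M] (w : AddValuation M (WithTop ℤ))
    {V : Type} [CommRing V] [IsDomain V] [IsDiscreteValuationRing V] [Algebra ℂ V]
    (σ : V →ₐ[ℂ] M) (hσ : Function.Injective σ) (e : ℕ) (he : 1 ≤ e)
    (hord : ∀ f : V, f ≠ 0 → ordZ w (σ f) = e * (IsDiscreteValuationRing.addVal V f).toNat)
    {ι : Type} (u : ι → V)
    (hu : IsTranscendenceBasis ℂ (fun i => IsLocalRing.residue V (u i)))
    (t : V) (ht : Irreducible t) (D : V →ₗ[ℂ] M)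
    (hD : ∀ f g, D (f * g) = σ f * D g + σ g * D f)
    (C : ℤ) (hC : ∀ f, D f ≠ 0 → - C ≤ ordZ w (D f))
    (h0 : ∀ i, D (u i) = 0) (h1 : D t = 0) (f : V) : D f = 0 := by
  classical
  by_contra hf
  have hex : ∃ m : ℕ, ∃ f : V, D f ≠ 0 ∧ (ordZ w (D f) + C).toNat = m := ⟨_, f, hf, rfl⟩
  obtain ⟨g, hgne, hg⟩ := Nat.find_spec hex
  have hmin : ∀ (g' : V), D g' ≠ 0 → Nat.find hex ≤ (ordZ w (D g') + C).toNat :=
    fun g' hg' => Nat.find_min' hex ⟨g', hg', rfl⟩
  generalize Nat.find hex = m at hg hmin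
  clear hf f hex
  let π : V →ₐ[ℂ] IsLocalRing.ResidueField V :=
    IsScalarTower.toAlgHom ℂ V (IsLocalRing.ResidueField V)
  have hπ : ∀ v, π v = IsLocalRing.residue V v := fun v => rfl
  set ub : ι → IsLocalRing.ResidueField V := fun i => IsLocalRing.residue V (u i) with hub
  have hev : ∀ P : Polynomial (MvPolynomial ι ℂ),
      π (P.eval₂ (MvPolynomial.aeval u : MvPolynomial ι ℂ →ₐ[ℂ] V).toRingHom g) =
      P.eval₂ (MvPolynomial.aeval ub : MvPolynomial ι ℂ →ₐ[ℂ] _).toRingHom (π g) := by
    intro P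
    have h1 : π.toRingHom.comp (MvPolynomial.aeval u : MvPolynomial ι ℂ →ₐ[ℂ] V).toRingHom =
        (MvPolynomial.aeval ub : MvPolynomial ι ℂ →ₐ[ℂ] _).toRingHom := by
      have : π.comp (MvPolynomial.aeval u) = MvPolynomial.aeval ub := by
        ext i
        simp [hub, hπ]
      rw [← this]; rfl
    rw [← h1]
    exact Polynomial.hom_eval₂ P _ π.toRingHom g
  have hexP : ∃ d : ℕ, ∃ P : Polynomial (MvPolynomial ι ℂ), P ≠ 0 ∧ P.natDegree = d ∧
      P.eval₂ (MvPolynomial.aeval ub : MvPolynomial ι ℂ →ₐ[ℂ] _).toRingHom (π g) = 0 := by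
    have halg := hu.isAlgebraic
    obtain ⟨Q, hQ0, hQ⟩ := halg.isAlgebraic (π g)
    refine ⟨_, Q.map hu.1.aevalEquiv.symm.toRingEquiv.toRingHom, ?_, rfl, ?_⟩
    · rw [Ne, Polynomial.map_eq_zero_iff]
      · exact hQ0
      · exact hu.1.aevalEquiv.symm.injective
    · rw [Polynomial.eval₂_map]
      rw [Polynomial.aeval_def] at hQ
      have h2 : (MvPolynomial.aeval ub : MvPolynomial ι ℂ →ₐ[ℂ] _).toRingHom.comp
          hu.1.aevalEquiv.symm.toRingEquiv.toRingHom =
          algebraMap (Algebra.adjoin ℂ (Set.range ub)) (IsLocalRing.ResidueField V) := by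
        refine RingHom.ext fun a => ?_
        have h3 := hu.1.algebraMap_aevalEquiv (hu.1.aevalEquiv.symm a)
        rw [AlgEquiv.apply_symm_apply] at h3
        exact h3.symm
      rw [h2]
      exact hQ
  obtain ⟨P, hP0, hPd, hPev⟩ := Nat.find_spec hexP
  have hPmin : ∀ P' : Polynomial (MvPolynomial ι ℂ), P' ≠ 0 → P'.natDegree < P.natDegree →
      P'.eval₂ (MvPolynomial.aeval ub : MvPolynomial ι ℂ →ₐ[ℂ] _).toRingHom (π g) ≠ 0 := by
    intro P' h0 hlt h1
    rw [hPd] at hlt
    exact Nat.find_min hexP hlt ⟨P', h0, rfl, h1⟩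
  clear hPd hexP
  have hPdeg : P.natDegree ≠ 0 := by
    intro h0
    obtain ⟨a, rfl⟩ := Polynomial.natDegree_eq_zero.1 h0
    rw [Polynomial.eval₂_C] at hPev
    have h1 : a = 0 := by
      have h2 := (injective_iff_map_eq_zero (MvPolynomial.aeval ub : MvPolynomial ι ℂ →ₐ[ℂ] _)).1
        hu.1 a hPev
      exact h2
    exact hP0 (by rw [h1, map_zero])
  have hP'0 : P.derivative ≠ 0 := fun h =>
    hPdeg (Polynomial.derivative_eq_zero.1 h)
  have hP'ev := hPmin P.derivative hP'0 (Polynomial.natDegree_derivative_lt hPdeg)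
  rw [← hev] at hP'ev hPev
  set E := P.eval₂ (MvPolynomial.aeval u : MvPolynomial ι ℂ →ₐ[ℂ] V).toRingHom g with hE
  set E' := P.derivative.eval₂ (MvPolynomial.aeval u : MvPolynomial ι ℂ →ₐ[ℂ] V).toRingHom g
    with hE'
  have hder : D E = σ E' * D g := AdRes_eval₂ σ D hD u h0 g P
  have hE'u : IsUnit E' := by
    rw [hπ] at hP'ev
    by_contra hcon
    exact hP'ev ((IsLocalRing.residue_eq_zero_iff E').2 ((IsLocalRing.mem_maximalIdeal E').2 hcon))
  have hEm : t ∣ E := by
    rw [hπ, IsLocalRing.residue_eq_zero_iff, ht.maximalIdeal_eq, Ideal.mem_span_singleton] at hPev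
    exact hPev
  obtain ⟨g', hg'⟩ := hEm
  rw [hg', hD, h1, mul_zero, add_zero] at hder
  have hσt : σ t ≠ 0 := fun h => ht.ne_zero (hσ (by rw [h, map_zero]))
  have hσE : σ E' ≠ 0 := fun h => hE'u.ne_zero (hσ (by rw [h, map_zero]))
  have ht1 : ordZ w (σ t) = e := by
    rw [hord t ht.ne_zero, IsDiscreteValuationRing.addVal_uniformizer ht]
    simp
  have hE1 : ordZ w (σ E') = 0 := by
    have h2 := IsDiscreteValuationRing.addVal_eq_zero_of_unit hE'u.unit
    rw [IsUnit.unit_spec] at h2
    rw [hord E' hE'u.ne_zero, h2]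
    simp
  have hg'ne : D g' ≠ 0 := by
    intro h
    rw [h, mul_zero] at hder
    exact mul_ne_zero hσE hgne hder.symm
  have hord' := congrArg (ordZ w) hder
  rw [ordZ_mul w hσt hg'ne, ordZ_mul w hσE hgne, ht1, hE1, zero_add] at hord'
  have h5 := hmin g' hg'ne
  have h6 := hC g' hg'ne
  have h7 := hC g hgne
  omega

/-- Proof: let `u : ι → V` lift a transcendence basis of the residue field. If `ι` had fewer than
`n - 1` elements (or take a maximal algebraically independent family), then there is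
`c ≠ 0` in `M ^ (n + 1)` with `∑ c_i (d_i σ(t)) = 0`, `∑ c_i d_i σ(u_j) = 0` for all `j`,
`∑ c_i d_i τ = 0` (at most `n` equations, `n + 1` unknowns); the derivation `D = ∑ c_i d_i ∘ σ` is
bounded below by `min ord c_i`, so it vanishes on `V` (`newton_kill`), in particular on the `y l`:
then `c` is in the left kernel of the matrix, contradiction. If the residue field has
transcendence degree at least `n - 1` take `n - 1` members of a transcendence basis. -/
theorem exists_residue_indep {n : ℕ} (hn : 1 ≤ n) (Λ : LDF (n + 1))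
    {V : Type} [CommRing V] [IsDomain V] [IsDiscreteValuationRing V] [Algebra ℂ V]
    (σ : V →ₐ[ℂ] Λ.M) (hσ : Function.Injective σ) (e : ℕ) (he : 1 ≤ e)
    (hord : ∀ f : V, f ≠ 0 → ordZ Λ.w (σ f) = e * (IsDiscreteValuationRing.addVal V f).toNat)
    (y : Fin n → V) (τ : Λ.M) (hτ : τ ≠ 0)
    (hdet : Matrix.det (Matrix.of fun i j : Fin (n + 1) =>
      (Fin.cons (Λ.d i τ / τ) (fun l : Fin n => Λ.d i (σ (y l))) : Fin (n + 1) → Λ.M) j) ≠ 0) :
    ∃ v : Fin (n - 1) → V, AlgebraicIndependent ℂ (fun i => IsLocalRing.residue V (v i)) := by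
  classical
  obtain ⟨s, hs⟩ := exists_isTranscendenceBasis ℂ (IsLocalRing.ResidueField V)
  by_cases hbig : Nonempty (Fin (n - 1) ↪ s)
  · obtain ⟨j⟩ := hbig
    choose v hv using fun i => IsLocalRing.residue_surjective (R := V)
      (j i : IsLocalRing.ResidueField V)
    refine ⟨v, ?_⟩
    have : (fun i => IsLocalRing.residue V (v i)) =
        (fun z : s => (z : IsLocalRing.ResidueField V)) ∘ j := by
      funext i; exact hv i
    rw [this]
    exact hs.1.comp j j.injective
  · exfalso
    have hfin : Finite s := by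
      by_contra hinf
      rw [not_finite_iff_infinite] at hinf
      exact hbig ⟨(Fin.valEmbedding).trans (Infinite.natEmbedding s)⟩
    have := Fintype.ofFinite s
    have hcard : Fintype.card s < n - 1 := by
      by_contra hcon
      rw [not_lt] at hcon
      apply hbig
      have : Fintype.card (Fin (n - 1)) ≤ Fintype.card s := by rwa [Fintype.card_fin]
      exact Function.Embedding.nonempty_of_card_le this
    choose u hu using fun i : s => IsLocalRing.residue_surjective (R := V)
      (i : IsLocalRing.ResidueField V)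
    have hu' : IsTranscendenceBasis ℂ (fun i : s => IsLocalRing.residue V (u i)) := by
      have : (fun i : s => IsLocalRing.residue V (u i)) =
          (fun z : s => (z : IsLocalRing.ResidueField V)) := by
        funext i; exact hu i
      rw [this]; exact hs
    obtain ⟨t, ht⟩ := IsDiscreteValuationRing.exists_irreducible V
    let g : Option (Option s) → Λ.M := fun o => o.elim τ (fun o => o.elim (σ t) fun i => σ (u i))
    let L : (Fin (n + 1) → Λ.M) →ₗ[Λ.M] (Option (Option s) → Λ.M) :=
      { toFun := fun c o => ∑ i, c i * Λ.d i (g o)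
        map_add' := fun v w => by
          funext o
          simp only [Pi.add_apply, add_mul, Finset.sum_add_distrib]
        map_smul' := fun a v => by
          funext o
          simp only [Pi.smul_apply, smul_eq_mul, RingHom.id_apply, Finset.mul_sum]
          exact Finset.sum_congr rfl fun l _ => by ring }
    have hL : ¬ Function.Injective L := by
      intro hinj
      have := LinearMap.finrank_le_finrank_of_injective (f := L) hinj
      rw [Module.finrank_pi, Module.finrank_pi, Fintype.card_fin, Fintype.card_option,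
        Fintype.card_option] at this
      omega
    rw [injective_iff_map_eq_zero] at hL
    push Not at hL
    obtain ⟨c, hc, hc0⟩ := hL
    have hc' : ∀ o, ∑ i, c i * Λ.d i (g o) = 0 := fun o => congrFun hc o
    let D : V →ₗ[ℂ] Λ.M :=
      { toFun := fun f => ∑ i, c i * Λ.d i (σ f)
        map_add' := fun f f' => by
          simp only [map_add, mul_add, Finset.sum_add_distrib]
        map_smul' := fun a f => by
          simp only [map_smul, RingHom.id_apply, Derivation.map_smul, Finset.smul_sum,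
            mul_smul_comm] }
    have hDd : ∀ f, D f = ∑ i, c i * Λ.d i (σ f) := fun f => rfl
    have hDm : ∀ f f', D (f * f') = σ f * D f' + σ f' * D f := by
      intro f f'
      rw [hDd, hDd, hDd, Finset.mul_sum, Finset.mul_sum, ← Finset.sum_add_distrib]
      refine Finset.sum_congr rfl fun i _ => ?_
      rw [map_mul, Derivation.leibniz, smul_eq_mul, smul_eq_mul]
      ring
    have hbd : ∀ f, D f ≠ 0 → - (∑ i, |ordZ Λ.w (c i)|) ≤ ordZ Λ.w (D f) := by
      intro f hf
      rw [← le_w_iff _ hf, hDd]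
      refine le_w_sum _ _ _ _ fun i _ => ?_
      by_cases hz : c i * Λ.d i (σ f) = 0
      · rw [hz, AddValuation.map_zero]
        exact le_top
      · have h1 : c i ≠ 0 := left_ne_zero_of_mul hz
        have h2 : Λ.d i (σ f) ≠ 0 := right_ne_zero_of_mul hz
        have h3 : σ f ≠ 0 := fun h => h2 (by rw [h, map_zero])
        have hf0 : f ≠ 0 := fun h => h3 (by rw [h, map_zero])
        rw [le_w_iff _ hz, ordZ_mul _ h1 h2]
        have h4 := Λ.ordZ_le_d i h3 h2
        have h5 : 0 ≤ ordZ Λ.w (σ f) := by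
          rw [hord f hf0]
          positivity
        have h6 : |ordZ Λ.w (c i)| ≤ ∑ i, |ordZ Λ.w (c i)| :=
          Finset.single_le_sum (f := fun i => |ordZ Λ.w (c i)|) (fun i _ => abs_nonneg _)
            (Finset.mem_univ i)
        have h7 := neg_abs_le (ordZ Λ.w (c i))
        linarith
    have hall := newton_kill Λ.w σ hσ e he hord u hu' t ht D hDm _ hbd
      (fun i => hc' (some (some i))) (hc' (some none))
    apply hdet
    rw [← Matrix.exists_vecMul_eq_zero_iff]
    refine ⟨c, hc0, ?_⟩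
    funext j
    rw [Matrix.vecMul, dotProduct]
    simp only [Matrix.of_apply, Pi.zero_apply]
    refine Fin.cases ?_ (fun l => ?_) j
    · simp only [Fin.cons_zero]
      have h1 : ∑ i, c i * Λ.d i τ = 0 := hc' none
      calc ∑ i, c i * (Λ.d i τ / τ) = (∑ i, c i * Λ.d i τ) / τ := by
            rw [Finset.sum_div]
            exact Finset.sum_congr rfl fun i _ => by ring
        _ = 0 := by rw [h1, zero_div]
    · simp only [Fin.cons_succ]
      exact hall (y l)

end Pool.Agent.Lib_MP_e0d435_kv

end
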