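import Mathlib
import Pool.Agent.Lib_MP_e0d435_m.G02
import Pool.Agent.Lib_MP_e0d435_m.G03
import Pool.Agent.Lib_MP_e0d435_m.G04
import Pool.Agent.Lib_MP_e0d435_m.G06
import Pool.Agent.Lib_MP_e0d435_m.G08

/-!
# MP_e0d435_ag: merged library part G11

Concatenation of library files (each in its own section), only to save build time.
-/

/-! ### from `Lib_KF.CJet` -/

section

/-! C02: transport, the jet bound (I3) and the T-bound for arc systems with poles. -/

open PowerSeries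

namespace Pool.Agent.Lib_KF.ArcSys

open Pool.Agent.Lib_GD (hat colen FinColen ArcSystem)

variable {L : Type} [Field L] [Algebra ℂ L] {n N : ℕ} (Γ : ArcSys L n N)

theorem ev_apply (j : Fin N) (α : Fin n →₀ ℕ) (f : Fin N → L⟦X⟧) :
    Γ.ev j α f = ∑ i, Γ.u j α i * f i := rfl

/-- The costs come from `Γ.base` (all cost lemmas: `Γ.base.cost_mono`, `Γ.base.mem_Xirel`,
`Γ.base.X_pow_cost_smul_mem`, `Γ.base.cost_sum`, ... of `Lib_GD.Cost`). -/
theorem cost_eq (j : Fin N) (S : Finset (Fin N)) : Γ.cost j S = Γ.base.cost j S := rfl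

/-- The transport for functionals (`Lib_GD.HatLem.hat_ev`). -/
theorem hat_ev (δ : Derivation ℂ L L) (hδ : δ ∈ Γ.𝒟) (j : Fin N) (α : Fin n →₀ ℕ)
    (f : Fin N → L⟦X⟧) :
    X ^ Γ.e j * hat δ (Γ.ev j α f) = X ^ Γ.e j * Γ.ev j α (fun i => hat δ (f i)) +
      (∑ l, Γ.ξ δ j l * Γ.ev j (α + Finsupp.single l 1) f) +
        X ^ Γ.e j * (Γ.w δ j α * Γ.ev j α f) := by
  have h0 : X ^ Γ.e j * hat δ (Γ.ev j α f) = X ^ Γ.e j * Γ.ev j α (fun i => hat δ (f i)) +
      ∑ i, (X ^ Γ.e j * hat δ (Γ.u j α i)) * f i := by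
    simp only [ev_apply, Pool.Agent.Lib_GD.hat_sum, Pool.Agent.Lib_GD.hat_mul,
      Finset.sum_add_distrib, mul_add, Finset.mul_sum, mul_assoc]
  have h1 : ∑ i, (X ^ Γ.e j * hat δ (Γ.u j α i)) * f i =
      (∑ l, Γ.ξ δ j l * Γ.ev j (α + Finsupp.single l 1) f) +
        X ^ Γ.e j * (Γ.w δ j α * Γ.ev j α f) := by
    simp only [Γ.transport δ hδ j α, add_mul, Finset.sum_add_distrib, ev_apply]
    congr 1
    · simp only [Finset.sum_mul, Finset.mul_sum]
      rw [Finset.sum_comm]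
      exact Finset.sum_congr rfl fun l _ => Finset.sum_congr rfl fun i _ => mul_assoc _ _ _
    · simp only [Finset.mul_sum, mul_assoc]
  rw [h0, h1, add_assoc]

theorem hat_ev_of_mem (S : Finset (Fin N)) (δ : Derivation ℂ L L) (hδ : δ ∈ Γ.Dker S)
    {j : Fin N} (hj : j ∈ S) (α : Fin n →₀ ℕ) (f : Fin N → L⟦X⟧) :
    hat δ (Γ.ev j α f) = Γ.ev j α (fun i => hat δ (f i)) + Γ.w δ j α * Γ.ev j α f := by
  have h0 := Γ.hat_ev δ hδ.1 j α f
  have h1 : ∑ l, Γ.ξ δ j l * Γ.ev j (α + Finsupp.single l 1) f = 0 := by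
    refine Finset.sum_eq_zero fun l _ => ?_
    rw [hδ.2 j hj, Pi.zero_apply, zero_mul]
  rw [h1, add_zero, ← mul_add] at h0
  exact mul_left_cancel₀ (pow_ne_zero _ PowerSeries.X_ne_zero) h0

theorem stable_W (S : Finset (Fin N)) : Γ.Stable S (Γ.W S) := by
  intro δ hδ f hf i hi
  have h0 := Γ.hat_ev_of_mem S δ hδ hi 0 f
  rw [hf i hi, Pool.Agent.Lib_GD.hat_zero, mul_zero, add_zero] at h0
  exact h0.symm

theorem stable_Lam (B a : ℕ) (S : Finset (Fin N)) : Γ.Stable S (Γ.Lam B a S) := by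
  intro δ hδ f hf i hi ha α
  have h0 := Γ.hat_ev_of_mem S δ hδ hi α f
  have h1 := Pool.Agent.Lib_GD.X_pow_dvd_hat δ (hf i hi ha α)
  rw [Pool.Agent.Lib_GD.hat_X_pow_mul, h0, mul_add] at h1
  refine (dvd_add_left ?_).1 h1
  rw [mul_left_comm]
  exact Dvd.dvd.mul_left (hf i hi ha α) _

private theorem CJet_step (S : Finset (Fin N)) (j : Fin N) (hj : j ∉ S)
    (W : Submodule L⟦X⟧ (Fin N → L⟦X⟧)) (hW : Γ.Stable S W) (b : ℕ) (β : Fin n →₀ ℕ)
    (ih : ∀ f ∈ W, (X : L⟦X⟧) ^ (b + β.degree * Γ.e j) ∣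
      X ^ (β.degree * Γ.cost j S) * Γ.ev j β f) (l : Fin n) :
    ∀ f ∈ W, (X : L⟦X⟧) ^ (b + (β + Finsupp.single l 1).degree * Γ.e j) ∣
      X ^ ((β + Finsupp.single l 1).degree * Γ.cost j S) *
        Γ.ev j (β + Finsupp.single l 1) f := by
  intro f hf
  have h1 := Γ.base.X_pow_cost_smul_mem j S hj (Pi.single l 1)
  obtain ⟨δ, hδ', hξ'⟩ := (Γ.base.mem_Xirel j S _).1 h1
  have hδ : δ ∈ Γ.Dker S := hδ'
  have hξ : Γ.ξ δ j = (X : L⟦X⟧) ^ Γ.cost j S • (Pi.single l 1 : Fin n → L⟦X⟧) := hξ'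
  have h2 := mul_dvd_mul_left ((X : L⟦X⟧) ^ Γ.e j)
    (Pool.Agent.Lib_GD.X_pow_dvd_hat δ (ih f hf))
  rw [Pool.Agent.Lib_GD.hat_X_pow_mul, mul_left_comm ((X : L⟦X⟧) ^ Γ.e j)
    ((X : L⟦X⟧) ^ (β.degree * Γ.cost j S)), Γ.hat_ev δ hδ.1, mul_add, mul_add] at h2
  have h3 := mul_dvd_mul_left ((X : L⟦X⟧) ^ Γ.e j) (ih _ (hW δ hδ f hf))
  have h4 : (X : L⟦X⟧) ^ Γ.e j * X ^ (b + β.degree * Γ.e j) ∣
      X ^ (β.degree * Γ.cost j S) * (X ^ Γ.e j * (Γ.w δ j β * Γ.ev j β f)) := by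
    have h := mul_dvd_mul_left ((X : L⟦X⟧) ^ Γ.e j) (Dvd.dvd.mul_left (ih f hf) (Γ.w δ j β))
    refine dvd_trans h (dvd_of_eq ?_)
    ring
  rw [mul_left_comm] at h3
  have h5 := (dvd_add_left h4).1 h2
  have h6 := (dvd_add_right h3).1 h5
  have h7 : ∑ l', Γ.ξ δ j l' * Γ.ev j (β + Finsupp.single l' 1) f =
      X ^ Γ.cost j S * Γ.ev j (β + Finsupp.single l 1) f := by
    rw [hξ, Finset.sum_eq_single l]
    · rw [Pi.smul_apply, Pi.single_eq_same, smul_eq_mul, mul_one]
    · intro l' _ hl'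
      rw [Pi.smul_apply, Pi.single_eq_of_ne hl', smul_zero, zero_mul]
    · intro h
      exact absurd (Finset.mem_univ l) h
  rw [h7] at h6
  have h8 : (β + Finsupp.single l 1).degree = β.degree + 1 := by
    rw [map_add, Finsupp.degree_single]
  have h9 : (X : L⟦X⟧) ^ (b + (β.degree + 1) * Γ.e j) =
      X ^ Γ.e j * X ^ (b + β.degree * Γ.e j) := by
    rw [← pow_add]
    congr 1
    ring
  have h10 : (X : L⟦X⟧) ^ ((β.degree + 1) * Γ.cost j S) * Γ.ev j (β + Finsupp.single l 1) f =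
      X ^ (β.degree * Γ.cost j S) *
        (X ^ Γ.cost j S * Γ.ev j (β + Finsupp.single l 1) f) := by
    rw [← mul_assoc, ← pow_add, add_mul, one_mul]
  rw [h8, h9, h10]
  exact h6

/-- (I3): if `W` is stable and all values at `x_j` are divisible by `X ^ b`, then the jets
`ev j α = X ^ (|α| e_j) (D^α ·)(x_j)` satisfy
`ord ≥ b + |α| (e_j - a(j|S))`. Induction on `|α|` as in `Lib_GD.JetBound.jet_dvd`: for the
derivation `δ ∈ Dker S` with `ξ δ j = X ^ a (Pi.single l 1)`, `hat_ev` gives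
`X ^ a ev (α + l) f = X ^ e (hat δ (ev α f) - ev α (hat δ f) - w ev α f)`. -/
theorem jet_dvd (S : Finset (Fin N)) (j : Fin N) (hj : j ∉ S)
    (W : Submodule L⟦X⟧ (Fin N → L⟦X⟧)) (hW : Γ.Stable S W) (b : ℕ)
    (hb : ∀ f ∈ W, (X : L⟦X⟧) ^ b ∣ Γ.ev j 0 f) (α : Fin n →₀ ℕ) :
    ∀ f ∈ W, (X : L⟦X⟧) ^ (b + α.degree * Γ.e j) ∣
      X ^ (α.degree * Γ.cost j S) * Γ.ev j α f := by
  obtain ⟨m, hm⟩ : ∃ m, α.degree = m := ⟨_, rfl⟩
  induction m generalizing α with
  | zero =>
    intro f hf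
    have h0 : α = 0 := (Finsupp.degree_eq_zero_iff α).1 hm
    subst h0
    rw [hm, zero_mul, add_zero]
    exact Dvd.dvd.mul_left (hb f hf) _
  | succ m ih =>
    have hne : α ≠ 0 := by
      rintro rfl
      rw [map_zero] at hm
      exact absurd hm (by omega)
    obtain ⟨l, hl⟩ := Finsupp.ne_iff.1 hne
    have hl' : 1 ≤ α l := Nat.one_le_iff_ne_zero.2 hl
    have h1 : α - Finsupp.single l 1 + Finsupp.single l 1 = α := by
      ext i
      rw [Finsupp.add_apply, Finsupp.tsub_apply]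
      by_cases h : i = l
      · subst h
        rw [Finsupp.single_eq_same]
        omega
      · rw [Finsupp.single_eq_of_ne h]
        omega
    have h2 : (α - Finsupp.single l 1).degree = m := by
      have h3 : (α - Finsupp.single l 1 + Finsupp.single l 1).degree = m + 1 := by rw [h1, hm]
      rw [map_add, Finsupp.degree_single] at h3
      omega
    have h3 := Γ.CJet_step S j hj W hW b (α - Finsupp.single l 1) (ih _ h2) l
    rw [h1] at h3
    exact h3

/-- (T-bound): if moreover `W` contains an element which is non-zero modulo `X`, then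
`b ≤ D max(a(j|S), e_j)`: with `α`, `|α| ≤ D`, from (T'), `b + |α| e ≤ |α| a + D e`. -/
theorem le_of_primitive {D : ℕ} (hD : Γ.HT D) (S : Finset (Fin N)) (j : Fin N) (hj : j ∉ S)
    (W : Submodule L⟦X⟧ (Fin N → L⟦X⟧)) (hW : Γ.Stable S W) (b : ℕ)
    (hb : ∀ f ∈ W, (X : L⟦X⟧) ^ b ∣ Γ.ev j 0 f)
    (hp : ∃ f ∈ W, ∃ i, constantCoeff (f i) ≠ 0) : b ≤ D * max (Γ.cost j S) (Γ.e j) := by
  obtain ⟨f, hf, hi⟩ := hp
  obtain ⟨α, hα, h1⟩ := hD j f hi
  have h2 := Γ.jet_dvd S j hj W hW b hb α f hf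
  have h4 : b + α.degree * Γ.e j ≤ α.degree * Γ.cost j S + D * Γ.e j := by
    by_contra h
    have h5 : (X : L⟦X⟧) ^ (α.degree * Γ.cost j S + (D * Γ.e j + 1)) ∣
        X ^ (α.degree * Γ.cost j S) * Γ.ev j α f :=
      dvd_trans (pow_dvd_pow _ (by omega)) h2
    rw [pow_add] at h5
    exact h1 ((mul_dvd_mul_iff_left (pow_ne_zero _ PowerSeries.X_ne_zero)).1 h5)
  rcases le_total (Γ.cost j S) (Γ.e j) with h5 | h5
  · rw [max_eq_right h5]
    have h6 : α.degree * Γ.cost j S ≤ α.degree * Γ.e j := Nat.mul_le_mul_left _ h5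
    omega
  · rw [max_eq_left h5]
    obtain ⟨k, hk⟩ := Nat.exists_eq_add_of_le h5
    have h6 : α.degree * k ≤ D * k := Nat.mul_le_mul_right _ hα
    rw [hk] at h4 ⊢
    rw [mul_add] at h4 ⊢
    omega

end Pool.Agent.Lib_KF.ArcSys

end

/-! ### from `Lib_KF.CPhi` -/

section

/-! C03: energies. Everything which only concerns the evaluation matrix is transferred from
`Γ.lin : ArcSystem L 0 N` (`Lib_GD.PhiBasic`, `Lib_GD.PhiDet`); there the only multi-index is `0`. -/

open PowerSeries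

namespace Pool.Agent.Lib_KF.ArcSys

open Pool.Agent.Lib_GD (hat colen FinColen ArcSystem)

variable {L : Type} [Field L] [Algebra ℂ L] {n N : ℕ} (Γ : ArcSys L n N)

theorem lin_W (S : Finset (Fin N)) : Γ.lin.W S = Γ.W S := by
  ext f
  exact Iff.rfl

theorem lin_phi (j : Fin N) (S : Finset (Fin N)) : Γ.lin.phi j S = Γ.phi j S := by
  rfl

theorem lin_det : Γ.lin.det = Γ.det := by
  rfl

theorem X_pow_phi_dvd (hdet : Γ.det ≠ 0) (S : Finset (Fin N)) (j : Fin N) (hj : j ∉ S) :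
    ∀ f ∈ Γ.W S, (X : L⟦X⟧) ^ (Γ.phi j S) ∣ Γ.ev j 0 f := by
  intro f hf
  exact Γ.lin.X_pow_phi_dvd hdet S j hj f hf

theorem exists_primitive (S : Finset (Fin N)) (hS : S.card < N) :
    ∃ f ∈ Γ.W S, ∃ i, constantCoeff (f i) ≠ 0 := by
  exact Γ.lin.exists_primitive S hS

theorem le_finrank_W (S : Finset (Fin N)) :
    N ≤ Module.finrank L (Submodule.span L {v : Fin N → L | ∃ f ∈ Γ.W S,
      ∀ i, constantCoeff (f i) = v i}) + S.card := by
  exact Γ.lin.le_finrank_W S

theorem phi_sum (hdet : Γ.det ≠ 0) (σ : Equiv.Perm (Fin N)) :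
    ((∑ k, Γ.phi (σ k) ((Finset.Iio k).map σ.toEmbedding) : ℕ) : ℕ∞) = Γ.det.order := by
  exact Γ.lin.phi_sum hdet σ

/-- The evaluation matrix times a triangular family. -/
private theorem CPhi_tri (f : Fin N → Fin N → L⟦X⟧)
    (hf : ∀ k, f k ∈ Γ.W (Finset.Iio k)) :
    Γ.det * (Matrix.of fun i k => f k i).det = ∏ k, Γ.ev k 0 (f k) := by
  have h1 : Γ.det = (Matrix.of fun j i : Fin N => Γ.u j 0 i).det := rfl
  rw [h1, ← Matrix.det_mul, Matrix.det_of_isLowerTriangular]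
  · refine Finset.prod_congr rfl fun k _ => ?_
    rw [Matrix.mul_apply, ev_apply]
    rfl
  · intro i j hij
    have hij' : i < j := hij
    have h2 := hf j i (Finset.mem_Iio.2 hij')
    rw [ev_apply] at h2
    rw [Matrix.mul_apply]
    exact h2

/-- As `Lib_GD.ArcSystem.det_ne_zero`, with `le_of_primitive` of `CJet`. -/
theorem det_ne_zero {D : ℕ} (hD : Γ.HT D) : Γ.det ≠ 0 := by
  have key : ∀ k : Fin N, ∃ f ∈ Γ.W (Finset.Iio k), Γ.ev k 0 f ≠ 0 := by
    intro k
    by_contra hcon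
    push Not at hcon
    have hk : k ∉ Finset.Iio k := fun h => lt_irrefl _ (Finset.mem_Iio.1 h)
    have hcard : (Finset.Iio k).card < N := by
      have := Finset.card_lt_univ_of_notMem hk
      rwa [Fintype.card_fin] at this
    have h1 := Γ.le_of_primitive hD _ k hk _ (Γ.stable_W _)
      (D * max (Γ.cost k (Finset.Iio k)) (Γ.e k) + 1)
      (fun f hf => by rw [hcon f hf]; exact dvd_zero _) (Γ.exists_primitive _ hcard)
    omega
  choose f hf hne using key
  have h := Γ.CPhi_tri f hf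
  intro h0
  rw [h0, zero_mul] at h
  obtain ⟨k, _, hk⟩ := Finset.prod_eq_zero_iff.1 h.symm
  exact hne k hk

theorem phi_le (hdet : Γ.det ≠ 0) {D : ℕ} (hD : Γ.HT D) (S : Finset (Fin N)) (j : Fin N)
    (hj : j ∉ S) : Γ.phi j S ≤ D * max (Γ.cost j S) (Γ.e j) := by
  have hcard : S.card < N := by
    have := Finset.card_lt_univ_of_notMem hj
    rwa [Fintype.card_fin] at this
  exact Γ.le_of_primitive hD S j hj _ (Γ.stable_W S) _ (Γ.X_pow_phi_dvd hdet S j hj)
    (Γ.exists_primitive S hcard)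

/-- The costs of the pair are monotone. -/
theorem cc_mono (S T : Finset (Fin N)) (j : Fin N) (h : S ⊆ T) (hj : j ∉ T) :
    Γ.cc j S ≤ Γ.cc j T := by
  exact Nat.sub_le_sub_right (Nat.mul_le_mul_left _ (Γ.base.cost_mono S T j h hj)) _

/-- The costs of the pair along any order add up to the total cost. -/
theorem cc_sum {C₁ : ℕ} (hUP : Γ.HUP C₁) (σ : Equiv.Perm (Fin N)) :
    ∑ k, Γ.cc (σ k) ((Finset.Iio k).map σ.toEmbedding) = Γ.AA := by
  have hk : ∀ k : Fin N, σ k ∉ (Finset.Iio k).map σ.toEmbedding := by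
    intro k h
    obtain ⟨i, hi, hik⟩ := Finset.mem_map.1 h
    have hik' : i = k := σ.injective hik
    rw [hik', Finset.mem_Iio] at hi
    exact lt_irrefl _ hi
  have h1 : ∑ k, Γ.cc (σ k) ((Finset.Iio k).map σ.toEmbedding) =
      ∑ k, Γ.r * Γ.cost (σ k) ((Finset.Iio k).map σ.toEmbedding) - ∑ k, Γ.g (σ k) := by
    rw [← Finset.sum_tsub_distrib]
    · rfl
    · intro k _
      exact (hUP _ _ (hk k)).1
  rw [h1, ← Finset.mul_sum, Equiv.sum_comp σ Γ.g]
  have h2 : ∑ k, Γ.cost (σ k) ((Finset.Iio k).map σ.toEmbedding) = colen Γ.Ξ :=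
    Γ.base.cost_sum σ
  rw [h2]
  rfl

/-- The costs relative to a fixed set of points add up to at most the total cost
(`EPrime_sum` of `Lib_GD.EPrime`). -/
theorem cc_sum_le {C₁ : ℕ} (hUP : Γ.HUP C₁) (K P : Finset (Fin N)) (hP : ∀ i ∈ P, i ∉ K) :
    ∑ i ∈ P, Γ.cc i K ≤ Γ.AA := by
  classical
  let f : Fin N → ℕ := fun i => if i ∈ K then 0 else 1
  let σ : Equiv.Perm (Fin N) := Tuple.sort f
  have hmono : Monotone (f ∘ σ) := Tuple.monotone_sort f
  have hlt : ∀ x ∈ K, ∀ i, i ∉ K → σ.symm x < σ.symm i := by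
    intro x hx i hi
    by_contra hcon
    have h := hmono (not_lt.1 hcon)
    simp only [Function.comp_apply, Equiv.apply_symm_apply, f, hi, hx, if_true, if_false] at h
    omega
  have hsum := Γ.cc_sum hUP σ
  have h2 : ∑ k, Γ.cc (σ k) ((Finset.Iio k).map σ.toEmbedding) =
      ∑ i, Γ.cc i ((Finset.Iio (σ.symm i)).map σ.toEmbedding) := by
    rw [← Equiv.sum_comp σ (fun i => Γ.cc i ((Finset.Iio (σ.symm i)).map σ.toEmbedding))]
    exact Finset.sum_congr rfl fun k _ => by rw [Equiv.symm_apply_apply]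
  rw [← hsum, h2]
  refine (Finset.sum_le_sum fun i hi => ?_).trans
    (Finset.sum_le_sum_of_subset_of_nonneg (Finset.subset_univ P) fun _ _ _ => Nat.zero_le _)
  refine Γ.cc_mono K _ i ?_ ?_
  · intro x hx
    rw [Finset.mem_map]
    exact ⟨σ.symm x, Finset.mem_Iio.2 (hlt x hx i (hP i hi)), σ.apply_symm_apply x⟩
  · rw [Finset.mem_map]
    rintro ⟨k, hk, hki⟩
    have h3 : k = σ.symm i := by
      rw [← hki]
      exact (σ.symm_apply_apply k).symm
    rw [h3] at hk
    exact lt_irrefl _ (Finset.mem_Iio.1 hk)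

end Pool.Agent.Lib_KF.ArcSys

end

/-! ### from `Lib_KF.KCCau` -/

section

/-!
# KC03: Cauchy integrals depending on parameters are holomorphic
-/

open MeasureTheory
open scoped ENNReal NNReal

namespace Pool.Agent.Lib_KF

/-- A bounded holomorphic function is Lipschitz on a smaller ball (Schwarz lemma on lines). -/
private lemma kccau_lip {E : Type} [NormedAddCommGroup E] [NormedSpace ℂ E] {F : E → ℂ} {z₀ : E}
    {r M : ℝ} (hr : 0 < r) (hM : 0 ≤ M)
    (hd : ∀ z ∈ Metric.ball z₀ (2 * r), DifferentiableAt ℂ F z)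
    (hb : ∀ z ∈ Metric.ball z₀ (2 * r), ‖F z‖ ≤ M)
    {z z' : E} (hz : z ∈ Metric.ball z₀ r) (hz' : z' ∈ Metric.ball z₀ r) :
    ‖F z' - F z‖ ≤ 2 * M / r * ‖z' - z‖ := by
  by_cases h0 : z' = z
  · rw [h0, sub_self, sub_self, norm_zero, norm_zero, mul_zero]
  have hn : 0 < ‖z' - z‖ := norm_pos_iff.2 (sub_ne_zero.2 h0)
  have hsub : Metric.ball z₀ r ⊆ Metric.ball z₀ (2 * r) := Metric.ball_subset_ball (by linarith)
  by_cases hlt : ‖z' - z‖ < r
  · have hR : 1 < r / ‖z' - z‖ := by rw [lt_div_iff₀ hn, one_mul]; exact hlt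
    have hin : ∀ t ∈ Metric.ball (0 : ℂ) (r / ‖z' - z‖),
        z + t • (z' - z) ∈ Metric.ball z₀ (2 * r) := by
      intro t ht
      rw [Metric.mem_ball, dist_zero_right, lt_div_iff₀ hn] at ht
      rw [Metric.mem_ball, dist_eq_norm] at hz ⊢
      calc ‖z + t • (z' - z) - z₀‖ = ‖(z - z₀) + t • (z' - z)‖ := by congr 1; abel
        _ ≤ ‖z - z₀‖ + ‖t • (z' - z)‖ := norm_add_le _ _
        _ < r + r := by rw [norm_smul]; linarith
        _ = 2 * r := by ring
    have hφd : DifferentiableOn ℂ (fun t : ℂ => F (z + t • (z' - z)))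
        (Metric.ball 0 (r / ‖z' - z‖)) := by
      intro t ht
      have h1 : DifferentiableAt ℂ (fun t : ℂ => z + t • (z' - z)) t :=
        (differentiableAt_id.smul_const (z' - z)).const_add z
      exact (DifferentiableAt.comp t (hd _ (hin t ht)) h1).differentiableWithinAt
    have hmaps : Set.MapsTo (fun t : ℂ => F (z + t • (z' - z)))
        (Metric.ball 0 (r / ‖z' - z‖)) (Metric.closedBall (F (z + (0 : ℂ) • (z' - z))) (2 * M)) := by
      intro t ht
      rw [Metric.mem_closedBall, dist_eq_norm]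
      have h1 := hb _ (hin t ht)
      have h2 := hb _ (hin 0 (Metric.mem_ball_self (by positivity)))
      calc _ ≤ ‖F (z + t • (z' - z))‖ + ‖F (z + (0 : ℂ) • (z' - z))‖ := norm_sub_le _ _
        _ ≤ 2 * M := by linarith
    have h1in : (1 : ℂ) ∈ Metric.ball (0 : ℂ) (r / ‖z' - z‖) := by
      rw [Metric.mem_ball, dist_zero_right, norm_one]
      exact hR
    have h1 := Complex.dist_le_div_mul_dist_of_mapsTo_ball hφd hmaps h1in
    rw [dist_zero_right, norm_one, mul_one, dist_eq_norm, one_smul, zero_smul, add_zero,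
      add_sub_cancel] at h1
    refine h1.trans (le_of_eq ?_)
    field_simp
  · rw [not_lt] at hlt
    have h1 := hb z' (hsub hz')
    have h2 := hb z (hsub hz)
    calc ‖F z' - F z‖ ≤ ‖F z'‖ + ‖F z‖ := norm_sub_le _ _
      _ ≤ 2 * M := by linarith
      _ = 2 * M / r * r := by field_simp
      _ ≤ 2 * M / r * ‖z' - z‖ := by gcongr

/-- `(1 / 2 π i) ∮ f (ζ, z) / (ζ - τ) dζ` is holomorphic in `(τ, z)`. -/
theorem kc_cauchy {E : Type} [NormedAddCommGroup E] [NormedSpace ℂ E] [FiniteDimensional ℂ E]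
    {V : Set (ℂ × E)} (hV : IsOpen V) {f : ℂ × E → ℂ} (hf : DifferentiableOn ℂ f V)
    {c : ℂ} {ρ : ℝ} (hρ : 0 < ρ) {B : Set E} (hB : IsOpen B)
    (hsub : Metric.sphere c ρ ×ˢ B ⊆ V) :
    DifferentiableOn ℂ (fun p : ℂ × E =>
      (2 * Real.pi * Complex.I)⁻¹ * ∮ ζ in C(c, ρ), f (ζ, p.2) / (ζ - p.1))
      (Metric.ball c ρ ×ˢ B) := by
  classical
  rintro ⟨τ₀, z₀⟩ ⟨hτ₀, hz₀⟩
  have hτ₀ : τ₀ ∈ Metric.ball c ρ := hτ₀
  have hz₀ : z₀ ∈ B := hz₀
  haveI : ProperSpace E := FiniteDimensional.proper ℂ E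
  obtain ⟨r0, hr0, hr0B⟩ := Metric.isOpen_iff.1 hB z₀ hz₀
  obtain ⟨r, hr, hrr0⟩ : ∃ r : ℝ, 0 < r ∧ 2 * r < r0 := ⟨r0 / 3, by positivity, by linarith⟩
  have hballB : Metric.closedBall z₀ (2 * r) ⊆ B := fun z hz =>
    hr0B (lt_of_le_of_lt (Metric.mem_closedBall.1 hz) hrr0)
  have hK : IsCompact (Metric.sphere c ρ ×ˢ Metric.closedBall z₀ (2 * r)) :=
    (isCompact_sphere c ρ).prod (isCompact_closedBall z₀ (2 * r))
  have hKV : Metric.sphere c ρ ×ˢ Metric.closedBall z₀ (2 * r) ⊆ V := fun p hp =>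
    hsub ⟨hp.1, hballB hp.2⟩
  obtain ⟨M0, hM0⟩ := hK.exists_bound_of_continuousOn (hf.continuousOn.mono hKV)
  obtain ⟨M, hM, hMb⟩ : ∃ M : ℝ, 0 ≤ M ∧ ∀ p ∈ Metric.sphere c ρ ×ˢ Metric.closedBall z₀ (2 * r),
      ‖f p‖ ≤ M := ⟨max M0 0, le_max_right _ _, fun p hp => (hM0 p hp).trans (le_max_left _ _)⟩
  obtain ⟨δ, hδ, hδρ⟩ : ∃ δ : ℝ, 0 < δ ∧ ‖τ₀ - c‖ + 2 * δ = ρ := by
    rw [Metric.mem_ball, dist_eq_norm] at hτ₀
    exact ⟨(ρ - ‖τ₀ - c‖) / 2, by linarith, by ring⟩
  have hsph : ∀ θ, circleMap c ρ θ ∈ Metric.sphere c ρ := fun θ =>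
    circleMap_mem_sphere c hρ.le θ
  let G : ℂ × E → ℝ → ℂ := fun p θ => deriv (circleMap c ρ) θ •
    (f (circleMap c ρ θ, p.2) / (circleMap c ρ θ - p.1))
  -- continuity in the angle
  have hGc : ∀ p ∈ Metric.ball c ρ ×ˢ B, Continuous (G p) := by
    intro p hp
    have h1 : Continuous (fun θ : ℝ => deriv (circleMap c ρ) θ) := by
      simp only [deriv_circleMap]
      exact (continuous_circleMap 0 ρ).mul continuous_const
    have h2 : Continuous (fun θ : ℝ => f (circleMap c ρ θ, p.2)) :=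
      hf.continuousOn.comp_continuous ((continuous_circleMap c ρ).prodMk continuous_const)
        fun θ => hsub ⟨hsph θ, hp.2⟩
    have h3 : Continuous (fun θ : ℝ => circleMap c ρ θ - p.1) :=
      (continuous_circleMap c ρ).sub continuous_const
    exact h1.smul (h2.div h3 fun θ => sub_ne_zero.2 (circleMap_ne_mem_ball hp.1 θ))
  -- differentiability
  have hGd : ∀ θ, DifferentiableAt ℂ (fun p => G p θ) (τ₀, z₀) := by
    intro θ
    have h1 : DifferentiableAt ℂ (fun p : ℂ × E => f (circleMap c ρ θ, p.2)) (τ₀, z₀) := by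
      have h2 : DifferentiableAt ℂ f (circleMap c ρ θ, z₀) :=
        hf.differentiableAt (hV.mem_nhds (hsub ⟨hsph θ, hz₀⟩))
      have h3 : DifferentiableAt ℂ (fun p : ℂ × E => (circleMap c ρ θ, p.2)) (τ₀, z₀) :=
        (differentiableAt_const _).prodMk differentiableAt_snd
      exact DifferentiableAt.comp (τ₀, z₀) (g := f) h2 h3
    have h4 : DifferentiableAt ℂ (fun p : ℂ × E => circleMap c ρ θ - p.1) (τ₀, z₀) :=
      differentiableAt_fst.const_sub _
    have h5 : DifferentiableAt ℂ (fun p : ℂ × E => (circleMap c ρ θ - p.1)⁻¹) (τ₀, z₀) :=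
      h4.inv (sub_ne_zero.2 (circleMap_ne_mem_ball hτ₀ θ))
    have h6 := (h1.mul h5).const_smul (deriv (circleMap c ρ) θ)
    refine h6.congr_of_eventuallyEq (Filter.Eventually.of_forall fun p => ?_)
    simp only [G, div_eq_mul_inv, Pi.smul_apply, Pi.mul_apply]
  let F' : ℝ → (ℂ × E) →L[ℂ] ℂ := fun θ => fderiv ℂ (fun p => G p θ) (τ₀, z₀)
  -- the ball
  have hε : 0 < min r δ := lt_min hr hδ
  have hs : ∀ p ∈ Metric.ball (τ₀, z₀) (min r δ), p.2 ∈ Metric.ball z₀ r ∧
      ‖p.1 - τ₀‖ < δ ∧ p ∈ Metric.ball c ρ ×ˢ B := by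
    intro p hp
    rw [Metric.mem_ball, Prod.dist_eq] at hp
    have h1 : dist p.1 τ₀ < min r δ := (le_max_left _ _).trans_lt hp
    have h2 : dist p.2 z₀ < min r δ := (le_max_right _ _).trans_lt hp
    have h3 : dist p.2 z₀ < r := h2.trans_le (min_le_left _ _)
    have h4 : ‖p.1 - τ₀‖ < δ := by rw [← dist_eq_norm]; exact h1.trans_le (min_le_right _ _)
    refine ⟨h3, h4, ?_, hballB ?_⟩
    · rw [Metric.mem_ball, dist_eq_norm]
      calc ‖p.1 - c‖ = ‖(p.1 - τ₀) + (τ₀ - c)‖ := by congr 1; ring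
        _ ≤ ‖p.1 - τ₀‖ + ‖τ₀ - c‖ := norm_add_le _ _
        _ < ρ := by linarith
    · rw [Metric.mem_closedBall]
      linarith
  have hden : ∀ θ, ∀ p ∈ Metric.ball (τ₀, z₀) (min r δ), δ ≤ ‖circleMap c ρ θ - p.1‖ := by
    intro θ p hp
    obtain ⟨-, h4, -⟩ := hs p hp
    have h5 : ‖circleMap c ρ θ - c‖ = ρ := by
      have := hsph θ
      rwa [Metric.mem_sphere, dist_eq_norm] at this
    have h6 : ‖circleMap c ρ θ - c‖ ≤ ‖circleMap c ρ θ - p.1‖ + ‖p.1 - c‖ := norm_sub_le_norm_sub_add_norm_sub _ _ _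
    have h7 : ‖p.1 - c‖ ≤ ‖p.1 - τ₀‖ + ‖τ₀ - c‖ := norm_sub_le_norm_sub_add_norm_sub _ _ _
    linarith
  -- Lipschitz bound
  have hlip : ∀ θ, LipschitzOnWith (Real.nnabs (ρ * (2 * M / r / δ + M / δ ^ 2)))
      (fun p => G p θ) (Metric.ball (τ₀, z₀) (min r δ)) := by
    intro θ
    refine LipschitzOnWith.of_dist_le_mul fun p hp p' hp' => ?_
    obtain ⟨h1, h2, h3⟩ := hs p hp
    obtain ⟨h1', h2', h3'⟩ := hs p' hp'
    have hC0 : 0 ≤ ρ * (2 * M / r / δ + M / δ ^ 2) := by positivity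
    rw [Real.coe_nnabs, abs_of_nonneg hC0, dist_eq_norm, dist_eq_norm]
    have hγ : ‖deriv (circleMap c ρ) θ‖ = ρ := by
      rw [deriv_circleMap, norm_mul, norm_circleMap_zero, Complex.norm_I, mul_one,
        abs_of_pos hρ]
    have hd1 := hden θ p hp
    have hd2 := hden θ p' hp'
    have hn1 : circleMap c ρ θ - p.1 ≠ 0 := norm_pos_iff.1 (hδ.trans_le hd1)
    have hn2 : circleMap c ρ θ - p'.1 ≠ 0 := norm_pos_iff.1 (hδ.trans_le hd2)
    have hz1 : ‖f (circleMap c ρ θ, p.2) - f (circleMap c ρ θ, p'.2)‖ ≤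
        2 * M / r * ‖p.2 - p'.2‖ := by
      refine kccau_lip (F := fun z => f (circleMap c ρ θ, z)) hr hM ?_ ?_ h1' h1
      · intro z hz
        have h4 : z ∈ B := hballB (Metric.ball_subset_closedBall hz)
        have h5 : DifferentiableAt ℂ f (circleMap c ρ θ, z) :=
          hf.differentiableAt (hV.mem_nhds (hsub ⟨hsph θ, h4⟩))
        exact DifferentiableAt.comp z (g := f) h5
          ((differentiableAt_const _).prodMk differentiableAt_id)
      · intro z hz
        exact hMb _ ⟨hsph θ, Metric.ball_subset_closedBall hz⟩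
    have hz2 : ‖f (circleMap c ρ θ, p'.2)‖ ≤ M :=
      hMb _ ⟨hsph θ, Metric.ball_subset_closedBall (Metric.ball_subset_ball (by linarith) h1')⟩
    have e1 : G p θ - G p' θ = deriv (circleMap c ρ) θ *
        ((f (circleMap c ρ θ, p.2) - f (circleMap c ρ θ, p'.2)) / (circleMap c ρ θ - p.1) +
          f (circleMap c ρ θ, p'.2) * (p.1 - p'.1) /
            ((circleMap c ρ θ - p.1) * (circleMap c ρ θ - p'.1))) := by
      simp only [G, smul_eq_mul]
      field_simp
      ring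
    have hp1 : ‖p.1 - p'.1‖ ≤ ‖p - p'‖ := norm_fst_le (p - p')
    have hp2 : ‖p.2 - p'.2‖ ≤ ‖p - p'‖ := norm_snd_le (p - p')
    rw [e1, norm_mul, hγ, mul_assoc]
    refine mul_le_mul_of_nonneg_left ?_ hρ.le
    refine (norm_add_le _ _).trans ?_
    rw [add_mul]
    refine add_le_add ?_ ?_
    · rw [norm_div]
      calc ‖f (circleMap c ρ θ, p.2) - f (circleMap c ρ θ, p'.2)‖ / ‖circleMap c ρ θ - p.1‖
          ≤ (2 * M / r * ‖p - p'‖) / δ := by
            refine div_le_div₀ (by positivity) (hz1.trans ?_) hδ hd1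
            exact mul_le_mul_of_nonneg_left hp2 (by positivity)
        _ = 2 * M / r / δ * ‖p - p'‖ := by ring
    · rw [norm_div, norm_mul, norm_mul]
      calc ‖f (circleMap c ρ θ, p'.2)‖ * ‖p.1 - p'.1‖ /
            (‖circleMap c ρ θ - p.1‖ * ‖circleMap c ρ θ - p'.1‖)
          ≤ (M * ‖p - p'‖) / (δ * δ) := by
            refine div_le_div₀ (by positivity) (mul_le_mul hz2 hp1 (norm_nonneg _) hM)
              (by positivity) (mul_le_mul hd1 hd2 hδ.le (norm_nonneg _))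
        _ = M / δ ^ 2 * ‖p - p'‖ := by ring
  -- measurability of the derivative
  have hmeas : AEStronglyMeasurable F' (volume.restrict (Set.uIoc 0 (2 * Real.pi))) := by
    have hv : ∀ v : ℂ × E, AEStronglyMeasurable (fun θ => F' θ v)
        (volume.restrict (Set.uIoc 0 (2 * Real.pi))) := by
      intro v
      obtain ⟨N, hN⟩ := exists_nat_gt (‖v‖ / min r δ)
      let cc : ℕ → ℂ := fun n => ((n + N + 1 : ℕ) : ℂ)
      have hccn : ∀ n, ‖cc n‖ = ((n + N + 1 : ℕ) : ℝ) := fun n => by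
        simp only [cc]
        rw [Complex.norm_natCast]
      have hcc : Filter.Tendsto (fun n => ‖cc n‖) Filter.atTop Filter.atTop := by
        simp only [hccn]
        exact tendsto_natCast_atTop_atTop.comp
          ((Filter.tendsto_add_atTop_nat (N + 1)).congr fun n => by ring)
      have hin : ∀ n, (τ₀, z₀) + (cc n)⁻¹ • v ∈ Metric.ball c ρ ×ˢ B := by
        intro n
        refine (hs _ ?_).2.2
        rw [Metric.mem_ball, dist_eq_norm, add_sub_cancel_left, norm_smul, norm_inv, hccn]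
        rw [inv_mul_lt_iff₀ (by positivity)]
        rw [div_lt_iff₀ hε] at hN
        refine hN.trans_le ?_
        refine mul_le_mul_of_nonneg_right ?_ hε.le
        push_cast
        linarith [(Nat.cast_nonneg n : (0 : ℝ) ≤ n)]
      refine aestronglyMeasurable_of_tendsto_ae Filter.atTop
        (f := fun n θ => cc n • (G ((τ₀, z₀) + (cc n)⁻¹ • v) θ - G (τ₀, z₀) θ)) ?_ ?_
      · intro n
        exact (((hGc _ (hin n)).sub (hGc _ ⟨hτ₀, hz₀⟩)).const_smul (cc n)).aestronglyMeasurable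
      · refine Filter.Eventually.of_forall fun θ => ?_
        exact (hGd θ).hasFDerivAt.lim v hcc
    have hsum : F' = fun θ => ∑ i, F' θ (Module.finBasis ℂ (ℂ × E) i) •
        LinearMap.toContinuousLinearMap ((Module.finBasis ℂ (ℂ × E)).coord i) := by
      funext θ
      refine ContinuousLinearMap.ext fun x => ?_
      conv_lhs => rw [← (Module.finBasis ℂ (ℂ × E)).sum_repr x]
      rw [map_sum, _root_.sum_apply]
      refine Finset.sum_congr rfl fun i _ => ?_
      rw [map_smul, smul_eq_mul, _root_.smul_apply, smul_eq_mul, mul_comm]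
      rfl
    rw [hsum]
    refine Finset.aestronglyMeasurable_fun_sum _ fun i _ => ?_
    exact (hv _).smul_const _
  have hfin := (intervalIntegral.hasFDerivAt_integral_of_dominated_loc_of_lip (𝕜 := ℂ)
    (μ := volume) (a := 0) (b := 2 * Real.pi) (F := G) (F' := F') (x₀ := (τ₀, z₀))
    (s := Metric.ball (τ₀, z₀) (min r δ))
    (bound := fun _ => ρ * (2 * M / r / δ + M / δ ^ 2))
    (Metric.ball_mem_nhds _ hε)
    (by
      filter_upwards [Metric.ball_mem_nhds (τ₀, z₀) hε] with p hp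
      exact (hGc p (hs p hp).2.2).aestronglyMeasurable)
    ((hGc _ ⟨hτ₀, hz₀⟩).intervalIntegrable _ _) hmeas
    (Filter.Eventually.of_forall fun θ _ => hlip θ)
    intervalIntegrable_const
    (Filter.Eventually.of_forall fun θ _ => (hGd θ).hasFDerivAt)).2
  exact (hfin.differentiableAt.const_mul _).differentiableWithinAt

end Pool.Agent.Lib_KF

end

/-! ### from `Lib_KF.KCExt` -/

section

/-!
# KC04: square integrable holomorphic functions extend over the zero set of a polynomial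
-/

open MeasureTheory
open scoped ENNReal NNReal

namespace Pool.Agent.Lib_KF

/-- coordinates `ℂ × E` such that the first one is in the direction `v` -/
private theorem KCExt_equiv {N : ℕ} (v : Fin (N + 1) → ℂ) (hv : v ≠ 0) :
    ∃ L : (ℂ × (Fin N → ℂ)) ≃L[ℂ] (Fin (N + 1) → ℂ), ∀ τ z, L (τ, z) = L (0, z) + τ • v := by
  obtain ⟨i, hi⟩ := Function.ne_iff.1 hv
  have hi' : v i ≠ 0 := hi
  let M : (Fin (N + 1) → ℂ) →ₗ[ℂ] ℂ × (Fin N → ℂ) :=
    { toFun := fun y => (y i / v i, fun l => y (i.succAbove l) - (y i / v i) * v (i.succAbove l))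
      map_add' := by
        intro y y'
        refine Prod.ext ?_ (funext fun l => ?_)
        · simp only [Pi.add_apply, Prod.fst_add]
          ring
        · simp only [Pi.add_apply, Prod.snd_add]
          ring
      map_smul' := by
        intro c y
        refine Prod.ext ?_ (funext fun l => ?_)
        · simp only [Pi.smul_apply, smul_eq_mul, RingHom.id_apply, Prod.smul_fst]
          ring
        · simp only [Pi.smul_apply, smul_eq_mul, RingHom.id_apply, Prod.smul_snd]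
          ring }
  have hM : ∀ y, M y = (y i / v i, fun l => y (i.succAbove l) - (y i / v i) * v (i.succAbove l)) :=
    fun _ => rfl
  have hinj : Function.Injective M := by
    rw [injective_iff_map_eq_zero]
    intro y hy
    rw [hM] at hy
    have h1 : y i = 0 := by
      have h2 : y i / v i = 0 := congrArg Prod.fst hy
      exact (div_eq_zero_iff.1 h2).resolve_right hi'
    funext j
    refine i.succAboveCases ?_ (fun l => ?_) j
    · exact h1
    · have h3 := congrFun (congrArg Prod.snd hy) l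
      simpa [h1] using h3
  have hdim : Module.finrank ℂ (Fin (N + 1) → ℂ) = Module.finrank ℂ (ℂ × (Fin N → ℂ)) := by
    rw [Module.finrank_prod, Module.finrank_fin_fun, Module.finrank_fin_fun, Module.finrank_self]
    ring
  let e := (LinearMap.linearEquivOfInjective M hinj hdim).symm
  have he : e (1, 0) = v := by
    rw [LinearEquiv.symm_apply_eq, LinearMap.linearEquivOfInjective_apply, hM]
    refine Prod.ext ?_ (funext fun l => ?_)
    · simp [hi']
    · simp [hi']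
  refine ⟨e.toContinuousLinearEquiv, fun τ z => ?_⟩
  have h1 : ((τ, z) : ℂ × (Fin N → ℂ)) = (0, z) + τ • (1, 0) := by
    refine Prod.ext ?_ ?_ <;> simp
  rw [h1, map_add, map_smul]
  congr 2

private theorem KCExt_poly {N : ℕ} (h : MvPolynomial (Fin N) ℂ) (a v : Fin N → ℂ) :
    ∃ q : Polynomial ℂ, ∀ τ : ℂ, q.eval τ = MvPolynomial.eval (a + τ • v) h := by
  refine ⟨MvPolynomial.aeval (fun j => Polynomial.C (a j) + Polynomial.X * Polynomial.C (v j)) h,
    fun τ => ?_⟩
  have h1 : (Polynomial.aeval τ : Polynomial ℂ →ₐ[ℂ] ℂ).comp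
      (MvPolynomial.aeval (fun j => Polynomial.C (a j) + Polynomial.X * Polynomial.C (v j))) =
      MvPolynomial.aeval (a + τ • v) := by
    apply MvPolynomial.algHom_ext
    intro j
    simp
    ring
  have h2 := DFunLike.congr_fun h1 h
  rw [AlgHom.comp_apply, Polynomial.coe_aeval_eq_eval, MvPolynomial.aeval_eq_eval] at h2
  exact h2

private theorem KCExt_meas {N : ℕ} (L : (ℂ × (Fin N → ℂ)) ≃L[ℂ] (Fin (N + 1) → ℂ))
    (p : Fin (N + 1) → ℂ) (S : Set (Fin (N + 1) → ℂ)) (F : (Fin (N + 1) → ℂ) → ℝ≥0∞)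
    (hF : ∫⁻ y in S, F y ≠ ⊤) :
    ∫⁻ q in (fun q => p + L q) ⁻¹' S, F (p + L q) ≠ ⊤ := by
  have hemb : MeasurableEmbedding (L : (ℂ × (Fin N → ℂ)) → (Fin (N + 1) → ℂ)) :=
    L.toHomeomorph.measurableEmbedding
  have h1 : ∫⁻ q in (fun q => p + L q) ⁻¹' S, F (p + L q) =
      ∫⁻ u in (fun u => p + u) ⁻¹' S, F (p + u)
        ∂(Measure.map L (volume : Measure (ℂ × (Fin N → ℂ)))) := by
    rw [hemb.restrict_map, hemb.lintegral_map]
    rfl
  have h0 : (volume : Measure (ℂ × (Fin N → ℂ))).IsAddHaarMeasure :=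
    Measure.prod.instIsAddHaarMeasure _ _
  have h0' : (Measure.map L (volume : Measure (ℂ × (Fin N → ℂ)))).IsAddHaarMeasure :=
    L.isAddHaarMeasure_map volume
  have h2 : Measure.map L (volume : Measure (ℂ × (Fin N → ℂ))) =
      Measure.addHaarScalarFactor (Measure.map L (volume : Measure (ℂ × (Fin N → ℂ)))) volume •
        (volume : Measure (Fin (N + 1) → ℂ)) :=
    Measure.isAddLeftInvariant_eq_smul _ _
  have h3 : ∫⁻ u in (fun u => p + u) ⁻¹' S, F (p + u) = ∫⁻ y in S, F y :=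
    (measurePreserving_add_left volume p).setLIntegral_comp_preimage_emb
      (measurableEmbedding_addLeft p) F S
  rw [h1, h2, Measure.restrict_smul, lintegral_smul_measure, h3]
  exact ENNReal.mul_ne_top ENNReal.coe_ne_top hF

/-- Local extension. Choose `w` with `h w ≠ 0`, `v = w - p` (if `h p ≠ 0` nothing is to be
proved), a complement `E` of the line `ℂ v`, coordinates `y = p + τ v + z`, `z ∈ E`; `τ ↦ h (p + τ v)` is not
zero, so there are `ρ` and a ball `B` about `0` in `E` such that `h (p + τ v + z) ≠ 0` for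
`|τ| = ρ`, `z ∈ B` and all these points with `|τ| ≤ ρ` are in `U`. Let `g` be the Cauchy integral of
`f` over `|τ| = ρ` (`kc_cauchy`). For almost every `z` the function `τ ↦ f (p + τ v + z)` is square
integrable (Fubini) and so `g = f` there by `kc_removable` (also if `h (p + · v + z)` has only
finitely many zeros; it is not identically zero as it does not vanish on `|τ| = ρ`); by continuity
`g = f` wherever `h ≠ 0`. -/
theorem kc_extend_local {N : ℕ} {U : Set (Fin N → ℂ)} (hU : IsOpen U)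
    (h : MvPolynomial (Fin N) ℂ) (hh : h ≠ 0) {f : (Fin N → ℂ) → ℂ}
    (hf : DifferentiableOn ℂ f (U ∩ {y | MvPolynomial.eval y h ≠ 0}))
    (hL2 : ∫⁻ y in U ∩ {y | MvPolynomial.eval y h ≠ 0}, ‖f y‖ₑ ^ 2 ≠ ⊤)
    (p : Fin N → ℂ) (hp : p ∈ U) :
    ∃ V : Set (Fin N → ℂ), IsOpen V ∧ p ∈ V ∧ V ⊆ U ∧ ∃ g : (Fin N → ℂ) → ℂ,
      DifferentiableOn ℂ g V ∧ Set.EqOn g f (V ∩ {y | MvPolynomial.eval y h ≠ 0}) := by
  have hne : IsOpen {y : Fin N → ℂ | MvPolynomial.eval y h ≠ 0} :=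
    isOpen_ne_fun (MvPolynomial.continuous_eval h) continuous_const
  set S : Set (Fin N → ℂ) := U ∩ {y | MvPolynomial.eval y h ≠ 0} with hSdef
  have hS : IsOpen S := hU.inter hne
  by_cases hhp : MvPolynomial.eval p h = 0
  swap
  · exact ⟨S, hS, ⟨hp, hhp⟩, Set.inter_subset_left, f, hf, fun _ _ => rfl⟩
  -- a direction in which `h` does not vanish identically
  obtain ⟨w, hw⟩ : ∃ w, MvPolynomial.eval w h ≠ 0 := by
    by_contra hcon
    push Not at hcon
    exact hh (MvPolynomial.funext fun y => by rw [hcon y, map_zero])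
  have hv : w - p ≠ 0 := by
    intro h0
    rw [sub_eq_zero.1 h0] at hw
    exact hw hhp
  obtain ⟨N', rfl⟩ : ∃ N', N = N' + 1 := by
    refine ⟨N - 1, ?_⟩
    rcases Nat.eq_zero_or_pos N with h0 | h0
    · subst h0
      exact absurd (Subsingleton.elim _ _) hv
    · omega
  obtain ⟨L, hL⟩ := KCExt_equiv (w - p) hv
  set Φ : ℂ × (Fin N' → ℂ) → (Fin (N' + 1) → ℂ) := fun q => p + L q with hΦ
  have hΦc : Continuous Φ := continuous_const.add L.continuous
  have hΦd : Differentiable ℂ Φ := (differentiable_const p).add L.differentiable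
  have hΦ0 : Φ 0 = p := by simp [hΦ]
  -- the polynomials on the lines
  have hpoly : ∀ z : Fin N' → ℂ, ∃ q : Polynomial ℂ, ∀ τ : ℂ,
      q.eval τ = MvPolynomial.eval (Φ (τ, z)) h := by
    intro z
    obtain ⟨q, hq⟩ := KCExt_poly h (p + L (0, z)) (w - p)
    refine ⟨q, fun τ => ?_⟩
    rw [hq, hΦ]
    simp only
    rw [hL τ z, add_assoc]
  have hfin : ∀ z : Fin N' → ℂ, (∃ τ, MvPolynomial.eval (Φ (τ, z)) h ≠ 0) →
      {τ : ℂ | MvPolynomial.eval (Φ (τ, z)) h = 0}.Finite := by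
    rintro z ⟨τ, hτ⟩
    obtain ⟨q, hq⟩ := hpoly z
    have hq0 : q ≠ 0 := by
      rintro rfl
      apply hτ
      rw [← hq τ, Polynomial.eval_zero]
    refine (Polynomial.finite_setOfPred_isRoot hq0).subset fun t ht => ?_
    change q.eval t = 0
    rw [hq t]
    exact ht
  -- the radius
  have hΦU : IsOpen (Φ ⁻¹' U) := hU.preimage hΦc
  obtain ⟨r, hr0, hr⟩ := Metric.isOpen_iff.1 hΦU 0 (by rw [Set.mem_preimage, hΦ0]; exact hp)
  have hfin0 : {τ : ℂ | MvPolynomial.eval (Φ (τ, 0)) h = 0}.Finite := by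
    refine hfin 0 ⟨1, ?_⟩
    have h1 : Φ (1, 0) = w := by
      rw [hΦ]
      simp only
      rw [hL 1 0]
      have h2 : L ((0 : ℂ), (0 : Fin N' → ℂ)) = 0 := by
        have h3 : (((0 : ℂ), (0 : Fin N' → ℂ)) : ℂ × (Fin N' → ℂ)) = 0 := rfl
        rw [h3, map_zero]
      rw [h2, zero_add, one_smul]
      abel
    rw [h1]
    exact hw
  obtain ⟨ρ, hρ, hρn⟩ : ∃ ρ ∈ Set.Ioo 0 r,
      ρ ∉ (fun τ : ℂ => ‖τ‖) '' {τ : ℂ | MvPolynomial.eval (Φ (τ, 0)) h = 0} :=
    (Set.Ioo_infinite hr0).exists_notMem_finite (hfin0.image _)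
  have hρ0 : 0 < ρ := hρ.1
  -- the set where everything is defined
  set V' : Set (ℂ × (Fin N' → ℂ)) := Φ ⁻¹' S with hV'def
  have hV' : IsOpen V' := hS.preimage hΦc
  have hsph : Metric.sphere (0 : ℂ) ρ ×ˢ ({0} : Set (Fin N' → ℂ)) ⊆ V' := by
    rintro ⟨τ, z⟩ ⟨hτ, hz⟩
    simp only [Set.mem_singleton_iff] at hz
    simp only [Metric.mem_sphere, dist_zero_right] at hτ
    subst hz
    refine ⟨hr ?_, fun h0 => hρn ⟨τ, h0, hτ⟩⟩
    rw [Metric.mem_ball, dist_zero_right, Prod.norm_mk, norm_zero, max_eq_left (norm_nonneg _), hτ]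
    exact hρ.2
  have hball : Metric.closedBall (0 : ℂ) ρ ×ˢ ({0} : Set (Fin N' → ℂ)) ⊆ Φ ⁻¹' U := by
    rintro ⟨τ, z⟩ ⟨hτ, hz⟩
    simp only [Set.mem_singleton_iff] at hz
    simp only [Metric.mem_closedBall, dist_zero_right] at hτ
    subst hz
    refine hr ?_
    rw [Metric.mem_ball, dist_zero_right, Prod.norm_mk, norm_zero, max_eq_left (norm_nonneg _)]
    exact hτ.trans_lt hρ.2
  obtain ⟨u1, B1, hu1, hB1, hs1, ht1, hsub1⟩ :=
    generalized_tube_lemma (isCompact_sphere (0 : ℂ) ρ) isCompact_singleton hV' hsph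
  obtain ⟨u2, B2, hu2, hB2, hs2, ht2, hsub2⟩ :=
    generalized_tube_lemma (isCompact_closedBall (0 : ℂ) ρ) isCompact_singleton hΦU hball
  set B : Set (Fin N' → ℂ) := B1 ∩ B2 with hBdef
  have hB : IsOpen B := hB1.inter hB2
  have h0B : (0 : Fin N' → ℂ) ∈ B := ⟨ht1 rfl, ht2 rfl⟩
  have hsphB : Metric.sphere (0 : ℂ) ρ ×ˢ B ⊆ V' :=
    (Set.prod_mono hs1 Set.inter_subset_left).trans hsub1
  have hballB : Metric.closedBall (0 : ℂ) ρ ×ˢ B ⊆ Φ ⁻¹' U :=
    (Set.prod_mono hs2 Set.inter_subset_right).trans hsub2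
  -- the function in the new coordinates and its Cauchy integral
  set f' : ℂ × (Fin N' → ℂ) → ℂ := fun q => f (Φ q) with hf'def
  have hf' : DifferentiableOn ℂ f' V' := hf.comp hΦd.differentiableOn fun q hq => hq
  have hG := kc_cauchy hV' hf' hρ0 hB hsphB
  set G : ℂ × (Fin N' → ℂ) → ℂ := fun q =>
    (2 * Real.pi * Complex.I)⁻¹ * ∮ ζ in C(0, ρ), f' (ζ, q.2) / (ζ - q.1) with hGdef
  -- square integrability in the new coordinates
  have hL2' : ∫⁻ q in V', ‖f' q‖ₑ ^ 2 ≠ ⊤ := KCExt_meas L p S (fun y => ‖f y‖ₑ ^ 2) hL2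
  set K : ℂ × (Fin N' → ℂ) → ℝ≥0∞ := V'.indicator (fun q => ‖f' q‖ₑ ^ 2) with hKdef
  have hK : AEMeasurable K ((volume : Measure ℂ).prod (volume : Measure (Fin N' → ℂ))) := by
    rw [hKdef, aemeasurable_indicator_iff hV'.measurableSet]
    refine ContinuousOn.aemeasurable ?_ hV'.measurableSet
    exact (ENNReal.continuous_pow 2).comp_continuousOn hf'.continuousOn.enorm
  have hKint : ∫⁻ z, ∫⁻ τ, K (τ, z) ≠ ⊤ := by
    rw [← lintegral_prod_symm K hK, ← Measure.volume_eq_prod, hKdef,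
      lintegral_indicator hV'.measurableSet]
    exact hL2'
  have hae : ∀ᵐ z : Fin N' → ℂ, ∫⁻ τ, K (τ, z) < ⊤ := ae_lt_top' hK.lintegral_prod_left' hKint
  have hgood : ∀ z ∈ B, ∫⁻ τ, K (τ, z) < ⊤ → ∀ τ ∈ Metric.ball (0 : ℂ) ρ,
      (τ, z) ∈ V' → G (τ, z) = f' (τ, z) := by
    intro z hz hzint τ hτ hτV
    set Uz : Set ℂ := {t | Φ (t, z) ∈ U} with hUz
    set Zz : Set ℂ := {t | MvPolynomial.eval (Φ (t, z)) h = 0} with hZz
    have hcz : Continuous fun t : ℂ => (t, z) := by fun_prop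
    have hUzo : IsOpen Uz := hU.preimage (hΦc.comp hcz)
    have hZf : Zz.Finite := by
      refine hfin z ⟨(ρ : ℂ), ?_⟩
      have h1 : ((ρ : ℂ), z) ∈ V' := hsphB ⟨by
        simp [abs_of_pos hρ0], hz⟩
      exact h1.2
    have hdiff : ∀ t, t ∈ Uz \ Zz ↔ (t, z) ∈ V' := fun t => Iff.rfl
    have hdf : DifferentiableOn ℂ (fun t => f' (t, z)) (Uz \ Zz) := by
      refine hf'.comp (Differentiable.differentiableOn (by fun_prop)) fun t ht => ?_
      exact (hdiff t).1 ht
    have hmeas : MeasurableSet (Uz \ Zz) := hUzo.measurableSet.diff hZf.measurableSet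
    have hint : ∫⁻ t in Uz, ‖f' (t, z)‖ₑ ^ 2 ≠ ⊤ := by
      have h1 : ∫⁻ t in Uz, ‖f' (t, z)‖ₑ ^ 2 = ∫⁻ t in Uz \ Zz, ‖f' (t, z)‖ₑ ^ 2 := by
        refine (setLIntegral_congr ?_).symm
        exact sdiff_null_ae_eq_self (hZf.measure_zero _)
      have h2 : ∫⁻ t in Uz \ Zz, ‖f' (t, z)‖ₑ ^ 2 = ∫⁻ t, K (t, z) := by
        rw [← lintegral_indicator hmeas]
        refine lintegral_congr fun t => ?_
        by_cases ht : t ∈ Uz \ Zz
        · rw [Set.indicator_of_mem ht, hKdef, Set.indicator_of_mem ((hdiff t).1 ht)]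
        · rw [Set.indicator_of_notMem ht, hKdef,
            Set.indicator_of_notMem (fun h3 => ht ((hdiff t).2 h3))]
      rw [h1, h2]
      exact hzint.ne
    obtain ⟨g, hgd, hge⟩ := kc_removable hUzo hZf hdf hint
    have hcb : Metric.closedBall (0 : ℂ) ρ ⊆ Uz := fun t ht => hballB ⟨ht, hz⟩
    have h1 := (hgd.diffContOnCl_ball hcb).two_pi_i_inv_smul_circleIntegral_sub_inv_smul hτ
    have h2 : g τ = f' (τ, z) := hge ((hdiff τ).2 hτV)
    rw [← h2, ← h1]
    change (2 * Real.pi * Complex.I)⁻¹ * (∮ ζ in C(0, ρ), f' (ζ, z) / (ζ - τ)) =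
      (2 * Real.pi * Complex.I)⁻¹ * (∮ ζ in C(0, ρ), (ζ - τ)⁻¹ * g ζ)
    congr 1
    refine circleIntegral.integral_congr hρ0.le fun ζ hζ => ?_
    have h3 : g ζ = f' (ζ, z) := hge ((hdiff ζ).2 (hsphB ⟨hζ, hz⟩))
    rw [h3, div_eq_mul_inv, mul_comm]
  have hall : ∀ τ ∈ Metric.ball (0 : ℂ) ρ, ∀ z ∈ B, (τ, z) ∈ V' → G (τ, z) = f' (τ, z) := by
    intro τ hτ z hz hzV
    have hcτ : Continuous fun z : Fin N' → ℂ => (τ, z) := by fun_prop
    set O : Set (Fin N' → ℂ) := B ∩ {z | (τ, z) ∈ V'} with hO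
    have hOo : IsOpen O := hB.inter (hV'.preimage hcτ)
    have hdense : Dense {z : Fin N' → ℂ | ∫⁻ τ, K (τ, z) < ⊤} := Measure.dense_of_ae hae
    have heq : Set.EqOn (fun z => G (τ, z)) (fun z => f' (τ, z))
        (O ∩ {z : Fin N' → ℂ | ∫⁻ τ, K (τ, z) < ⊤}) := fun z' hz' =>
      hgood z' hz'.1.1 hz'.2 τ hτ hz'.1.2
    have hGc : ContinuousOn (fun z => G (τ, z)) O :=
      hG.continuousOn.comp hcτ.continuousOn fun z' hz' => ⟨hτ, hz'.1⟩
    have hfc : ContinuousOn (fun z => f' (τ, z)) O :=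
      hf'.continuousOn.comp hcτ.continuousOn fun z' hz' => hz'.2
    exact heq.of_subset_closure hGc hfc Set.inter_subset_left
      (hdense.open_subset_closure_inter hOo) ⟨hz, hzV⟩
  -- back to the old coordinates
  have hΨc : Continuous fun y : Fin (N' + 1) → ℂ => L.symm (y - p) :=
    L.symm.continuous.comp (continuous_id.sub continuous_const)
  have hΨd : Differentiable ℂ fun y : Fin (N' + 1) → ℂ => L.symm (y - p) :=
    L.symm.differentiable.comp (differentiable_id.sub (differentiable_const p))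
  have hΦΨ : ∀ y, Φ (L.symm (y - p)) = y := by
    intro y
    rw [hΦ]
    simp
  refine ⟨(fun y => L.symm (y - p)) ⁻¹' (Metric.ball (0 : ℂ) ρ ×ˢ B),
    (Metric.isOpen_ball.prod hB).preimage hΨc, ?_, ?_, fun y => G (L.symm (y - p)), ?_, ?_⟩
  · rw [Set.mem_preimage, sub_self, map_zero]
    exact ⟨Metric.mem_ball_self hρ0, h0B⟩
  · intro y hy
    have h1 : Φ (L.symm (y - p)) ∈ U :=
      hballB ⟨Metric.ball_subset_closedBall hy.1, hy.2⟩
    rw [hΦΨ] at h1
    exact h1
  · exact hG.comp hΨd.differentiableOn fun y hy => hy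
  · rintro y ⟨hy, hy0⟩
    have hyU : y ∈ U := by
      have h1 : Φ (L.symm (y - p)) ∈ U :=
        hballB ⟨Metric.ball_subset_closedBall hy.1, hy.2⟩
      rw [hΦΨ] at h1
      exact h1
    have hyV : L.symm (y - p) ∈ V' := by
      change Φ (L.symm (y - p)) ∈ S
      rw [hΦΨ]
      exact ⟨hyU, hy0⟩
    have h2 : G (L.symm (y - p)) = f (Φ (L.symm (y - p))) := hall _ hy.1 _ hy.2 hyV
    rw [hΦΨ] at h2
    exact h2

end Pool.Agent.Lib_KF

end

/-! ### from `Lib_KF.KCExtG` -/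

section

/-!
# KC05: global extension
-/

open MeasureTheory
open scoped ENNReal NNReal

namespace Pool.Agent.Lib_KF

private theorem KCExtG_dense {N : ℕ} (h : MvPolynomial (Fin N) ℂ) (hh : h ≠ 0)
    (x : Fin N → ℂ) : x ∈ closure {y : Fin N → ℂ | MvPolynomial.eval y h ≠ 0} := by
  by_contra hx
  have h1 : ∀ᶠ y in nhds x, MvPolynomial.eval y h = 0 := by
    filter_upwards [isClosed_closure.isOpen_compl.mem_nhds hx] with y hy
    by_contra hne
    exact hy (subset_closure hne)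
  have h2 : (fun y : Fin N → ℂ => MvPolynomial.eval y h) = fun _ => (0 : ℂ) :=
    AnalyticOnNhd.eq_of_eventuallyEq (AnalyticOnNhd.eval_mvPolynomial h)
      analyticOnNhd_const h1
  apply hh
  apply MvPolynomial.funext
  intro y
  rw [map_zero]
  exact congrFun h2 y

/-- Gluing of the local extensions of `kc_extend_local` (two local extensions agree where both are
defined, by continuity and density of `h ≠ 0`). -/
theorem kc_extend {N : ℕ} {U : Set (Fin N → ℂ)} (hU : IsOpen U)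
    (h : MvPolynomial (Fin N) ℂ) (hh : h ≠ 0) {f : (Fin N → ℂ) → ℂ}
    (hf : DifferentiableOn ℂ f (U ∩ {y | MvPolynomial.eval y h ≠ 0}))
    (hL2 : ∫⁻ y in U ∩ {y | MvPolynomial.eval y h ≠ 0}, ‖f y‖ₑ ^ 2 ≠ ⊤) :
    ∃ g : (Fin N → ℂ) → ℂ,
      DifferentiableOn ℂ g U ∧ Set.EqOn g f (U ∩ {y | MvPolynomial.eval y h ≠ 0}) := by
  classical
  choose V hVo hpV hVU g hg hgf using
    fun p : U => kc_extend_local hU h hh hf hL2 (p : Fin N → ℂ) p.2
  have hS : IsOpen {y : Fin N → ℂ | MvPolynomial.eval y h ≠ 0} :=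
    isOpen_ne_fun (MvPolynomial.continuous_eval h) continuous_const
  -- two local extensions agree
  have hag : ∀ p q : U, ∀ x ∈ V p ∩ V q, g p x = g q x := by
    intro p q x hx
    have hcp : ContinuousAt (g p) x :=
      ((hg p).differentiableAt ((hVo p).mem_nhds hx.1)).continuousAt
    have hcq : ContinuousAt (g q) x :=
      ((hg q).differentiableAt ((hVo q).mem_nhds hx.2)).continuousAt
    have hne : (nhdsWithin x {y : Fin N → ℂ | MvPolynomial.eval y h ≠ 0}).NeBot :=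
      mem_closure_iff_nhdsWithin_neBot.1 (KCExtG_dense h hh x)
    have hev : g p =ᶠ[nhdsWithin x {y : Fin N → ℂ | MvPolynomial.eval y h ≠ 0}] g q := by
      have h1 : V p ∩ V q ∈ nhdsWithin x {y : Fin N → ℂ | MvPolynomial.eval y h ≠ 0} :=
        mem_nhdsWithin_of_mem_nhds (((hVo p).inter (hVo q)).mem_nhds hx)
      filter_upwards [h1, self_mem_nhdsWithin] with y hy hy'
      rw [hgf p ⟨hy.1, hy'⟩, hgf q ⟨hy.2, hy'⟩]
    have h1 := hcp.continuousWithinAt (s := {y : Fin N → ℂ | MvPolynomial.eval y h ≠ 0})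
    have h2 := hcq.continuousWithinAt (s := {y : Fin N → ℂ | MvPolynomial.eval y h ≠ 0})
    exact tendsto_nhds_unique_of_eventuallyEq h1 h2 hev
  let G : (Fin N → ℂ) → ℂ := fun x => if hx : x ∈ U then g ⟨x, hx⟩ x else 0
  have hG : ∀ p : U, ∀ x ∈ V p, G x = g p x := by
    intro p x hx
    have hxU : x ∈ U := hVU p hx
    show (if hx : x ∈ U then g ⟨x, hx⟩ x else 0) = g p x
    rw [dif_pos hxU]
    exact hag ⟨x, hxU⟩ p x ⟨hpV ⟨x, hxU⟩, hx⟩
  refine ⟨G, ?_, ?_⟩
  · intro x hx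
    have h1 : DifferentiableAt ℂ (g ⟨x, hx⟩) x :=
      (hg ⟨x, hx⟩).differentiableAt ((hVo ⟨x, hx⟩).mem_nhds (hpV ⟨x, hx⟩))
    have h2 : G =ᶠ[nhds x] g ⟨x, hx⟩ := by
      filter_upwards [(hVo ⟨x, hx⟩).mem_nhds (hpV ⟨x, hx⟩)] with y hy
      exact hG ⟨x, hx⟩ y hy
    exact (h1.congr_of_eventuallyEq h2).differentiableWithinAt
  · intro x hx
    rw [hG ⟨x, hx.1⟩ x (hpV ⟨x, hx.1⟩)]
    exact hgf ⟨x, hx.1⟩ ⟨hpV ⟨x, hx.1⟩, hx.2⟩

end Pool.Agent.Lib_KF

end

/-! ### from `Lib_KF.ChEval` -/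

section

/-! CH05: analytic families of points. -/

namespace Pool.Agent.Lib_KF

open IsLocalRing

/-- An analytic family of homomorphisms from a subalgebra `𝒲` of `V` to `ℂ`, with coordinates
`s, u`. -/
structure EvFam (k V : Type) [Field k] [CommRing V] [Algebra k V] [Algebra ℂ V] {n : ℕ} (s : V)
    (u : Fin n → V) (D : Fin n → Derivation k V V) (Z : Set V) (Zc : Set k) where
  𝒲 : Subalgebra ℂ V
  hs : s ∈ 𝒲
  hu : ∀ l, u l ∈ 𝒲
  hZ : ∀ z ∈ Z, z ∈ 𝒲
  hc : ∀ c ∈ Zc, algebraMap k V c ∈ 𝒲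
  hD : ∀ l, ∀ v ∈ 𝒲, D l v ∈ 𝒲
  ρ : ℝ
  ρ_pos : 0 < ρ
  u₀ : Fin n → ℂ
  ev : ℂ → (Fin n → ℂ) → (𝒲 →ₐ[ℂ] ℂ)
  an : ∀ v, AnalyticOnNhd ℂ (fun p : ℂ × (Fin n → ℂ) => ev p.1 p.2 v) (Metric.ball 0 ρ)
  ev_s : ∀ z y, ‖z‖ < ρ → ‖y‖ < ρ → ev z y ⟨s, hs⟩ = z
  ev_u : ∀ z y, ‖z‖ < ρ → ‖y‖ < ρ → ∀ l, ev z y ⟨u l, hu l⟩ = u₀ l + y l
  ev_c : ∀ c, ∀ h : c ∈ Zc, ∀ z y, ‖z‖ < ρ → ‖y‖ < ρ →
    ev z y ⟨algebraMap k V c, hc c h⟩ = ev 0 0 ⟨algebraMap k V c, hc c h⟩
  ev_D : ∀ l v, ∀ h : v ∈ 𝒲, ∀ z y, ‖z‖ < ρ → ‖y‖ < ρ →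
    fderiv ℂ (fun y' : Fin n → ℂ => ev z y' ⟨v, h⟩) y (Pi.single l 1) =
      ev z y ⟨D l v, hD l v h⟩

/-- CH05a. A `ℂ`-point of a finitely generated domain where a given element does not vanish: this
is the private `Spec0_point` of `Lib_GD/Spec0.lean` (copy the proof). -/
theorem exists_point (P : Type) [CommRing P] [IsDomain P] [Algebra ℂ P]
    [Algebra.FiniteType ℂ P] (f : P) (hf : f ≠ 0) : ∃ x : P →ₐ[ℂ] ℂ, x f ≠ 0 := by
  have : IsJacobsonRing P := isJacobsonRing_of_finiteType (A := ℂ)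
  have h1 : (⊥ : Ideal P).jacobson = ⊥ := by
    apply IsJacobsonRing.out'
    exact Ideal.IsPrime.isRadical (Ideal.isPrime_bot)
  have h2 : f ∉ (⊥ : Ideal P).jacobson := by
    rw [h1]
    exact fun h => hf ((Submodule.mem_bot P).1 h)
  rw [Ideal.jacobson, Submodule.mem_sInf] at h2
  push Not at h2
  obtain ⟨m, ⟨-, hm⟩, hfm⟩ := h2
  have := hm
  let : Field (P ⧸ m) := Ideal.Quotient.field m
  have : Module.Finite ℂ (P ⧸ m) := finite_of_finite_type_of_isJacobsonRing ℂ (P ⧸ m)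
  have : Algebra.IsIntegral ℂ (P ⧸ m) := inferInstance
  have hb := IsAlgClosed.algebraMap_bijective_of_isIntegral (k := ℂ) (K := P ⧸ m)
  let e : ℂ ≃ₐ[ℂ] (P ⧸ m) := AlgEquiv.ofBijective (Algebra.ofId ℂ (P ⧸ m)) hb
  refine ⟨e.symm.toAlgHom.comp (Ideal.Quotient.mkₐ ℂ m), ?_⟩
  intro h
  apply hfm
  have h3 : e.symm (Ideal.Quotient.mk m f) = 0 := h
  have h4 : Ideal.Quotient.mk m f = 0 := by
    rw [← map_zero e.symm] at h3
    exact e.symm.injective h3
  exact Ideal.Quotient.eq_zero_iff_mem.1 h4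

private abbrev ChEval_A (n : ℕ) (Q : Type) [CommRing Q] : Type :=
  Polynomial (MvPolynomial (Option (Fin n)) Q)

private theorem ChEval_eq {R V : Type} [CommRing R] [CommRing V] (Φ : R →+* V) (Ψ : R →+* ℂ)
    (h : ∀ G, Φ G = 0 → Ψ G = 0) {G G' : R} (he : Φ G = Φ G') : Ψ G = Ψ G' := by
  have h1 := h (G - G') (by rw [map_sub, he, sub_self])
  rw [map_sub] at h1
  exact sub_eq_zero.1 h1

/-- clearing of the denominators: `q^N G(1/q)` -/
private noncomputable def ChEval_H {A : Type} [CommRing A] (q : A) (G : Polynomial A) : A :=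
  ∑ i ∈ Finset.range (G.natDegree + 1), G.coeff i * q ^ (G.natDegree - i)

private theorem ChEval_clear {A B : Type} [CommRing A] [CommRing B] (φ : A →+* B) (q : A) (q' : B)
    (h : φ q * q' = 1) (G : Polynomial A) :
    φ (ChEval_H q G) = φ q ^ G.natDegree * G.eval₂ φ q' := by
  rw [ChEval_H, map_sum, Polynomial.eval₂_eq_sum_range, Finset.mul_sum]
  refine Finset.sum_congr rfl fun i hi => ?_
  have hi' : i ≤ G.natDegree := Nat.lt_succ_iff.1 (Finset.mem_range.1 hi)
  rw [map_mul, map_pow]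
  have h1 : φ q ^ G.natDegree = φ q ^ (G.natDegree - i) * φ q ^ i := by
    rw [← pow_add, Nat.sub_add_cancel hi']
  have h2 : φ q ^ i * q' ^ i = 1 := by
    rw [← mul_pow, h, one_pow]
  rw [h1]
  calc φ (G.coeff i) * φ q ^ (G.natDegree - i)
      = φ (G.coeff i) * φ q ^ (G.natDegree - i) * 1 := by rw [mul_one]
    _ = φ (G.coeff i) * φ q ^ (G.natDegree - i) * (φ q ^ i * q' ^ i) := by rw [h2]
    _ = φ q ^ (G.natDegree - i) * φ q ^ i * (φ (G.coeff i) * q' ^ i) := by ring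

/-- the specialised evaluation -/
private noncomputable def ChEval_psi {Q : Type} [CommRing Q] [Algebra ℂ Q] (χ : Q →ₐ[ℂ] ℂ)
    {n : ℕ} (u₀ : Fin n → ℂ) (W : ℂ × (Fin n → ℂ) → ℂ) (p : ℂ × (Fin n → ℂ)) :
    Polynomial (MvPolynomial (Option (Fin n)) Q) →+* ℂ :=
  (ev1 (k := ℂ) p.1 (u₀ + p.2) (W p)).comp
    (Polynomial.mapRingHom (MvPolynomial.map χ.toRingHom))

private theorem ChEval_psi_apply {Q : Type} [CommRing Q] [Algebra ℂ Q] (χ : Q →ₐ[ℂ] ℂ)
    {n : ℕ} (u₀ : Fin n → ℂ) (W : ℂ × (Fin n → ℂ) → ℂ) (p : ℂ × (Fin n → ℂ))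
    (H : Polynomial (MvPolynomial (Option (Fin n)) Q)) :
    ChEval_psi χ u₀ W p H = ev1 (k := ℂ) p.1 (u₀ + p.2) (W p)
      (H.map (MvPolynomial.map χ.toRingHom)) := rfl

private theorem ChEval_ev1_C {k V : Type} [CommRing k] [CommRing V] [Algebra k V] {n : ℕ} (s : V)
    (u : Fin n → V) (w : V) (a : MvPolynomial (Option (Fin n)) k) :
    ev1 s u w (Polynomial.C a) = MvPolynomial.aeval (fun o : Option (Fin n) => o.elim s u) a := by
  show Polynomial.eval₂ _ _ _ = _
  rw [Polynomial.eval₂_C]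
  rfl

private theorem ChEval_ev1_X {k V : Type} [CommRing k] [CommRing V] [Algebra k V] {n : ℕ} (s : V)
    (u : Fin n → V) (w : V) :
    ev1 (k := k) s u w Polynomial.X = w := by
  show Polynomial.eval₂ _ _ _ = _
  rw [Polynomial.eval₂_X]

/-- CH05b. Evaluation of `Q[s, u][w]/(F)[1/q]` along the implicit function, as a homomorphism on
its image `𝒲` in `V`.
`Q → V` and `χ : Q → ℂ` are homomorphisms; `ι` extends `Q → V` by `s, u, w`. `ker` says that
a polynomial over `Q` which vanishes at `(s, u, w)` is a multiple of `F`. The family is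
`H(s,u,w) / q(s,u,w)^m ↦ H^χ(z, u₀ + y, W(z, y)) / q^χ(…)^m`; well defined since
`H(s,u,w) q^a = H'(s,u,w) q^b` gives `F ∣ H q^a - H' q^b` in `Q[s,u][w]`, and `F^χ` vanishes at
`(z, u₀ + y, W)`. Outside the ball put `ev z y := ev 0 0`. -/
theorem exists_ev (Q V : Type) [CommRing Q] [Algebra ℂ Q] [CommRing V] [IsDomain V] [Algebra ℂ V]
    [Algebra Q V] [IsScalarTower ℂ Q V] (χ : Q →ₐ[ℂ] ℂ) {n : ℕ} (s : V) (u : Fin n → V) (w : V)
    (F q : Polynomial (MvPolynomial (Option (Fin n)) Q))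
    (hker : ∀ H : Polynomial (MvPolynomial (Option (Fin n)) Q), ev1 s u w H = 0 → F ∣ H)
    (q' : V) (hq' : ev1 s u w q * q' = 1) (ρ : ℝ) (hρ : 0 < ρ) (u₀ : Fin n → ℂ)
    (W : ℂ × (Fin n → ℂ) → ℂ) (hW : AnalyticOnNhd ℂ W (Metric.ball 0 ρ))
    (hWF : ∀ p ∈ Metric.ball (0 : ℂ × (Fin n → ℂ)) ρ, ev1 (k := ℂ) p.1 (u₀ + p.2) (W p)
      (F.map (MvPolynomial.map χ.toRingHom)) = 0)
    (hWq : ∀ p ∈ Metric.ball (0 : ℂ × (Fin n → ℂ)) ρ, ev1 (k := ℂ) p.1 (u₀ + p.2) (W p)
      (q.map (MvPolynomial.map χ.toRingHom)) ≠ 0) :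
    ∃ (𝒲 : Subalgebra ℂ V) (ev : ℂ → (Fin n → ℂ) → (𝒲 →ₐ[ℂ] ℂ)),
      𝒲 = Algebra.adjoin ℂ (Set.range (algebraMap Q V) ∪ insert s (insert w (insert q'
        (Set.range u)))) ∧
      (∀ v, AnalyticOnNhd ℂ (fun p : ℂ × (Fin n → ℂ) => ev p.1 p.2 v) (Metric.ball 0 ρ)) ∧
      ∀ z y, ‖z‖ < ρ → ‖y‖ < ρ → (∀ h : s ∈ 𝒲, ev z y ⟨s, h⟩ = z) ∧
        (∀ l, ∀ h : u l ∈ 𝒲, ev z y ⟨u l, h⟩ = u₀ l + y l) ∧
        (∀ h : w ∈ 𝒲, ev z y ⟨w, h⟩ = W (z, y)) ∧
        (∀ c : Q, ∀ h : algebraMap Q V c ∈ 𝒲, ev z y ⟨algebraMap Q V c, h⟩ = χ c) := by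
  classical
  set φ : ChEval_A n Q →+* V := ev1 s u w with hφ
  set ψ : ℂ × (Fin n → ℂ) → (ChEval_A n Q →+* ℂ) := ChEval_psi χ u₀ W with hψ
  have hψF : ∀ p ∈ Metric.ball (0 : ℂ × (Fin n → ℂ)) ρ, ψ p F = 0 := hWF
  have hψq : ∀ p ∈ Metric.ball (0 : ℂ × (Fin n → ℂ)) ρ, ψ p q ≠ 0 := hWq
  set Φ : Polynomial (ChEval_A n Q) →+* V := Polynomial.eval₂RingHom φ q' with hΦ
  set Ψ : ℂ × (Fin n → ℂ) → (Polynomial (ChEval_A n Q) →+* ℂ) :=
    fun p => Polynomial.eval₂RingHom (ψ p) (ψ p q)⁻¹ with hΨ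
  have hΨ0 : ∀ G, Φ G = 0 → ∀ p ∈ Metric.ball (0 : ℂ × (Fin n → ℂ)) ρ, Ψ p G = 0 := by
    intro G hG p hp
    have h1 : φ (ChEval_H q G) = 0 := by
      rw [ChEval_clear φ q q' hq' G]
      have h2 : G.eval₂ φ q' = 0 := hG
      rw [h2, mul_zero]
    obtain ⟨H, hH⟩ := hker _ h1
    have h3 : ψ p (ChEval_H q G) = 0 := by
      rw [hH, map_mul, hψF p hp, zero_mul]
    rw [ChEval_clear (ψ p) q (ψ p q)⁻¹ (mul_inv_cancel₀ (hψq p hp)) G] at h3
    exact (mul_eq_zero.1 h3).resolve_left (pow_ne_zero _ (hψq p hp))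
  have hΨe : ∀ G G', Φ G = Φ G' → ∀ p ∈ Metric.ball (0 : ℂ × (Fin n → ℂ)) ρ,
      Ψ p G = Ψ p G' := by
    intro G G' h p hp
    exact ChEval_eq Φ (Ψ p) (fun G hG => hΨ0 G hG p hp) h
  -- generators
  have gΦ : ∀ H : ChEval_A n Q, Φ (Polynomial.C H) = φ H := fun H => Polynomial.eval₂_C _ _
  have gΨ : ∀ p, ∀ H : ChEval_A n Q, Ψ p (Polynomial.C H) = ψ p H := fun p H => Polynomial.eval₂_C _ _
  have gψC : ∀ p (a : MvPolynomial (Option (Fin n)) Q), ψ p (Polynomial.C a) =
      MvPolynomial.aeval (fun o : Option (Fin n) => o.elim p.1 (u₀ + p.2))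
        (MvPolynomial.map χ.toRingHom a) := by
    intro p a
    rw [hψ, ChEval_psi_apply, Polynomial.map_C]
    exact ChEval_ev1_C _ _ _ _
  have es : φ (Polynomial.C (MvPolynomial.X none)) = s := by
    rw [hφ, ChEval_ev1_C, MvPolynomial.aeval_X]
    rfl
  have eu : ∀ l, φ (Polynomial.C (MvPolynomial.X (some l))) = u l := by
    intro l
    rw [hφ, ChEval_ev1_C, MvPolynomial.aeval_X]
    rfl
  have ew : φ Polynomial.X = w := ChEval_ev1_X _ _ _
  have ec : ∀ c, φ (Polynomial.C (MvPolynomial.C c)) = algebraMap Q V c := by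
    intro c
    rw [hφ, ChEval_ev1_C, MvPolynomial.aeval_C]
  have fs : ∀ p, ψ p (Polynomial.C (MvPolynomial.X none)) = p.1 := by
    intro p
    rw [gψC, MvPolynomial.map_X, MvPolynomial.aeval_X]
    rfl
  have fu : ∀ p l, ψ p (Polynomial.C (MvPolynomial.X (some l))) = u₀ l + p.2 l := by
    intro p l
    rw [gψC, MvPolynomial.map_X, MvPolynomial.aeval_X]
    rfl
  have fw : ∀ p, ψ p Polynomial.X = W p := by
    intro p
    rw [hψ, ChEval_psi_apply, Polynomial.map_X]
    exact ChEval_ev1_X _ _ _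
  have fc : ∀ p c, ψ p (Polynomial.C (MvPolynomial.C c)) = χ c := by
    intro p c
    rw [gψC, MvPolynomial.map_C, MvPolynomial.aeval_C]
    rfl
  -- surjectivity
  set 𝒲 : Subalgebra ℂ V := Algebra.adjoin ℂ (Set.range (algebraMap Q V) ∪ insert s (insert w
    (insert q' (Set.range u)))) with h𝒲
  have hsurj : ∀ v : 𝒲, ∃ G, Φ G = v := by
    rintro ⟨v, hv⟩
    show ∃ G, Φ G = v
    induction hv using Algebra.adjoin_induction with
    | mem x hx =>
      rcases hx with ⟨c, rfl⟩ | hx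
      · exact ⟨Polynomial.C (Polynomial.C (MvPolynomial.C c)), by rw [gΦ, ec]⟩
      · rcases hx with rfl | rfl | rfl | ⟨l, rfl⟩
        · exact ⟨Polynomial.C (Polynomial.C (MvPolynomial.X none)), by rw [gΦ, es]⟩
        · exact ⟨Polynomial.C Polynomial.X, by rw [gΦ, ew]⟩
        · exact ⟨Polynomial.X, Polynomial.eval₂_X _ _⟩
        · exact ⟨Polynomial.C (Polynomial.C (MvPolynomial.X (some l))), by rw [gΦ, eu]⟩
    | algebraMap c =>
      exact ⟨Polynomial.C (Polynomial.C (MvPolynomial.C (algebraMap ℂ Q c))), by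
        rw [gΦ, ec, ← IsScalarTower.algebraMap_apply]⟩
    | add x y _ _ hx hy =>
      obtain ⟨G, hG⟩ := hx
      obtain ⟨G', hG'⟩ := hy
      exact ⟨G + G', by rw [map_add, hG, hG']⟩
    | mul x y _ _ hx hy =>
      obtain ⟨G, hG⟩ := hx
      obtain ⟨G', hG'⟩ := hy
      exact ⟨G * G', by rw [map_mul, hG, hG']⟩
  choose g hg using hsurj
  -- the point
  set pt : ℂ × (Fin n → ℂ) → ℂ × (Fin n → ℂ) :=
    fun p => if p ∈ Metric.ball (0 : ℂ × (Fin n → ℂ)) ρ then p else 0 with hpt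
  have hpt1 : ∀ p ∈ Metric.ball (0 : ℂ × (Fin n → ℂ)) ρ, pt p = p := fun p hp => if_pos hp
  have hpt2 : ∀ p, pt p ∈ Metric.ball (0 : ℂ × (Fin n → ℂ)) ρ := by
    intro p
    by_cases hp : p ∈ Metric.ball (0 : ℂ × (Fin n → ℂ)) ρ
    · rw [hpt1 p hp]
      exact hp
    · rw [hpt]
      simp only
      rw [if_neg hp]
      exact Metric.mem_ball_self hρ
  have key : ∀ (p : ℂ × (Fin n → ℂ)) (v : 𝒲) (G : Polynomial (ChEval_A n Q)), Φ G = v →
      Ψ (pt p) (g v) = Ψ (pt p) G := fun p v G h => hΨe _ _ ((hg v).trans h.symm) _ (hpt2 p)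
  let ev : ℂ → (Fin n → ℂ) → (𝒲 →ₐ[ℂ] ℂ) := fun z y =>
    { toFun := fun v => Ψ (pt (z, y)) (g v)
      map_one' := by
        rw [key (z, y) 1 1 (by rw [map_one]; rfl), map_one]
      map_mul' := fun a b => by
        rw [key (z, y) (a * b) (g a * g b) (by rw [map_mul, hg, hg]; rfl), map_mul]
      map_zero' := by
        rw [key (z, y) 0 0 (by rw [map_zero]; rfl), map_zero]
      map_add' := fun a b => by
        rw [key (z, y) (a + b) (g a + g b) (by rw [map_add, hg, hg]; rfl), map_add]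
      commutes' := fun c => by
        rw [key (z, y) (algebraMap ℂ 𝒲 c)
          (Polynomial.C (Polynomial.C (MvPolynomial.C (algebraMap ℂ Q c)))) (by
            rw [gΦ, ec, ← IsScalarTower.algebraMap_apply]
            rfl), gΨ, fc, AlgHom.commutes] }
  have hev : ∀ z y v, ev z y v = Ψ (pt (z, y)) (g v) := fun z y v => rfl
  refine ⟨𝒲, ev, rfl, ?_, ?_⟩
  · intro v
    have h1 : AnalyticOnNhd ℂ (fun p : ℂ × (Fin n → ℂ) =>
        ∑ i ∈ Finset.range ((g v).natDegree + 1), ψ p ((g v).coeff i) * ((ψ p q)⁻¹) ^ i)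
        (Metric.ball 0 ρ) := by
      refine Finset.analyticOnNhd_fun_sum _ fun i _ => ?_
      refine AnalyticOnNhd.mul ?_ (AnalyticOnNhd.pow (AnalyticOnNhd.inv ?_ hψq) i)
      · exact analyticOnNhd_ev1 u₀ W _ hW _
      · exact analyticOnNhd_ev1 u₀ W _ hW _
    refine h1.congr Metric.isOpen_ball ?_
    intro p hp
    show _ = ev p.1 p.2 v
    rw [hev, Prod.mk.eta, hpt1 p hp]
    show _ = Polynomial.eval₂ (ψ p) (ψ p q)⁻¹ (g v)
    rw [Polynomial.eval₂_eq_sum_range]
  · intro z y hz hy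
    have hp : (z, y) ∈ Metric.ball (0 : ℂ × (Fin n → ℂ)) ρ := by
      rw [Metric.mem_ball, dist_zero_right, Prod.norm_mk]
      exact max_lt hz hy
    refine ⟨fun h => ?_, fun l h => ?_, fun h => ?_, fun c h => ?_⟩
    · rw [hev, key (z, y) ⟨s, h⟩ (Polynomial.C (Polynomial.C (MvPolynomial.X none)))
        (by rw [gΦ, es]), hpt1 _ hp, gΨ, fs]
    · rw [hev, key (z, y) ⟨u l, h⟩ (Polynomial.C (Polynomial.C (MvPolynomial.X (some l))))
        (by rw [gΦ, eu]), hpt1 _ hp, gΨ, fu]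
    · rw [hev, key (z, y) ⟨w, h⟩ (Polynomial.C Polynomial.X)
        (by rw [gΦ, ew]), hpt1 _ hp, gΨ, fw]
    · rw [hev, key (z, y) ⟨algebraMap Q V c, h⟩ (Polynomial.C (Polynomial.C (MvPolynomial.C c)))
        (by rw [gΦ, ec]), hpt1 _ hp, gΨ, fc]

end Pool.Agent.Lib_KF

end

/-! ### from `Lib_MP_e0d435_kv.AdW` -/

section

/-! AD1: injectivity and the weight of an arc on the cone. -/

namespace Pool.Agent.Lib_MP_e0d435_kv

open Pool.Agent.Lib_GD Pool.Agent.Lib_KF

variable {R : Type} [CommRing R] [Algebra ℂ R] {𝒜 : ℕ → Submodule ℂ R} [GradedAlgebra 𝒜]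
  {n r d : ℕ} {x : Fin (n + 1) → R} {G : R} {M : Type} [Field M] [Algebra ℂ M]

/-- Proof: `R` is a domain, integral over `ℂ[x]`: a non-zero `f` with `φ f = 0` has a monic equation
over `ℂ[x]` with non-zero constant coefficient `a` (divide by a power of the variable), so
`φ a = 0`, but `φ` is injective on `ℂ[x]`. -/
theorem phi_injective (h : IsFano 𝒜 n r d x G) (φ : R →ₐ[ℂ] M)
    (hi : AlgebraicIndependent ℂ (fun b => φ (x b))) : Function.Injective φ := by
  have := h.domain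
  have := h.x_finite
  have : Algebra.IsIntegral (Algebra.adjoin ℂ (Set.range x)) R := Algebra.IsIntegral.of_finite _ _
  have h1 : (RingHom.ker φ).comap (algebraMap (Algebra.adjoin ℂ (Set.range x)) R) = ⊥ := by
    refine (Submodule.eq_bot_iff _).2 fun a ha => ?_
    have ha2 : φ (a : R) = 0 := ha
    obtain ⟨p, hp⟩ : ∃ p : MvPolynomial (Fin (n + 1)) ℂ, MvPolynomial.aeval x p = (a : R) := by
      have h3 : (a : R) ∈ (MvPolynomial.aeval x : MvPolynomial (Fin (n + 1)) ℂ →ₐ[ℂ] R).range :=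
        (Algebra.adjoin_range_eq_range_aeval ℂ x) ▸ a.2
      exact h3
    have h4 : MvPolynomial.aeval (fun b => φ (x b)) p = 0 := by
      have h5 : (MvPolynomial.aeval (fun b => φ (x b)) : MvPolynomial (Fin (n + 1)) ℂ →ₐ[ℂ] M) =
          φ.comp (MvPolynomial.aeval x) := by
        ext b
        simp
      rw [h5, AlgHom.comp_apply, hp, ha2]
    have h6 : p = 0 := hi (by rw [h4, map_zero])
    rw [h6, map_zero] at hp
    exact Subtype.ext hp.symm
  have h2 : RingHom.ker φ = ⊥ := Ideal.eq_bot_of_comap_eq_bot h1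
  exact (RingHom.injective_iff_ker_eq_bot φ).2 h2

private theorem adw_integral (hfin : Module.Finite (Algebra.adjoin ℂ (Set.range x)) R)
    [Nontrivial R] (f : R) :
    ∃ (D : ℕ) (c : Fin D → MvPolynomial (Fin (n + 1)) ℂ), 1 ≤ D ∧
      f ^ D = ∑ i : Fin D, MvPolynomial.aeval x (c i) * f ^ (i : ℕ) := by
  classical
  have := hfin
  have : Algebra.IsIntegral (Algebra.adjoin ℂ (Set.range x)) R := Algebra.IsIntegral.of_finite _ _
  obtain ⟨P, hP, hPf⟩ := Algebra.IsIntegral.isIntegral (R := Algebra.adjoin ℂ (Set.range x)) f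
  have hmem : ∀ a : Algebra.adjoin ℂ (Set.range x),
      ∃ p : MvPolynomial (Fin (n + 1)) ℂ, MvPolynomial.aeval x p = (a : R) := by
    intro a
    have h : (a : R) ∈ (MvPolynomial.aeval x : MvPolynomial (Fin (n + 1)) ℂ →ₐ[ℂ] R).range :=
      (Algebra.adjoin_range_eq_range_aeval ℂ x) ▸ a.2
    exact h
  choose p hp using fun i : ℕ => hmem (P.coeff i)
  refine ⟨P.natDegree, fun i => -p i, ?_, ?_⟩
  · rw [Nat.one_le_iff_ne_zero]
    intro h0
    rw [hP.natDegree_eq_zero] at h0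
    rw [h0, Polynomial.eval₂_one] at hPf
    exact one_ne_zero hPf
  · have h1 : Polynomial.aeval f P = 0 := hPf
    rw [Polynomial.aeval_eq_sum_range, Finset.sum_range_succ, hP.coeff_natDegree, one_smul] at h1
    rw [← Finset.sum_range (fun i => MvPolynomial.aeval x (-p i) * f ^ i)]
    have h2 : ∀ i, P.coeff i • f ^ i = MvPolynomial.aeval x (p i) * f ^ i := by
      intro i
      rw [hp i, Algebra.smul_def]
      rfl
    rw [Finset.sum_congr rfl fun i _ => h2 i] at h1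
    rw [add_eq_zero_iff_eq_neg'.1 h1]
    simp only [map_neg, neg_mul, Finset.sum_neg_distrib]

/-- a homogeneous integral equation -/
private theorem adw_homeq (hfin : Module.Finite (Algebra.adjoin ℂ (Set.range x)) R)
    [Nontrivial R] {m : ℕ} {s : R} (hs : s ∈ 𝒜 m) :
    ∃ (D : ℕ) (c : Fin D → MvPolynomial (Fin (n + 1)) ℂ), 1 ≤ D ∧
      s ^ D = ∑ i : Fin D, (DirectSum.decompose 𝒜 (MvPolynomial.aeval x (c i))
        (D * m - (i : ℕ) * m) : R) * s ^ (i : ℕ) := by
  obtain ⟨D, c, hD, hc⟩ := adw_integral hfin s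
  refine ⟨D, c, hD, ?_⟩
  have h1 : s ^ D ∈ 𝒜 (D * m) := by
    have := SetLike.pow_mem_graded D hs
    simpa using this
  have h2 : ∀ i : Fin D, s ^ (i : ℕ) ∈ 𝒜 ((i : ℕ) * m) := fun i => by
    have := SetLike.pow_mem_graded (i : ℕ) hs
    simpa using this
  have h3 : (DirectSum.decompose 𝒜 (s ^ D) (D * m) : R) = s ^ D :=
    DirectSum.decompose_of_mem_same 𝒜 h1
  rw [← h3, hc, DirectSum.decompose_sum, DFinsupp.finsetSum_apply, AddSubmonoidClass.coe_finsetSum]
  refine Finset.sum_congr rfl fun i _ => ?_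
  rw [DirectSum.coe_decompose_mul_of_right_mem_of_le 𝒜 (h2 i)
    (Nat.mul_le_mul_right m i.2.le)]

/-- `d ord φ(z) ≥ e μ` -/
private def AdWle (w : AddValuation M (WithTop ℤ)) (φ : R →ₐ[ℂ] M) (d : ℕ) (μ : ℤ) (e : ℕ)
    (z : R) : Prop := ∀ a : ℤ, d * a < e * μ → (a : WithTop ℤ) < w (φ z)

/-- `d ord φ(z) > e μ` -/
private def AdWlt (w : AddValuation M (WithTop ℤ)) (φ : R →ₐ[ℂ] M) (d : ℕ) (μ : ℤ) (e : ℕ)
    (z : R) : Prop := ∀ a : ℤ, d * a ≤ e * μ → (a : WithTop ℤ) < w (φ z)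

private theorem adwle_zero (w : AddValuation M (WithTop ℤ)) (φ : R →ₐ[ℂ] M) (d : ℕ) (μ : ℤ)
    (e : ℕ) : AdWle w φ d μ e 0 := by
  intro a _
  rw [map_zero, AddValuation.map_zero]
  exact WithTop.coe_lt_top a

private theorem adwlt_zero (w : AddValuation M (WithTop ℤ)) (φ : R →ₐ[ℂ] M) (d : ℕ) (μ : ℤ)
    (e : ℕ) : AdWlt w φ d μ e 0 := by
  intro a _
  rw [map_zero, AddValuation.map_zero]
  exact WithTop.coe_lt_top a

private theorem adwle_add {w : AddValuation M (WithTop ℤ)} {φ : R →ₐ[ℂ] M} {d : ℕ} {μ : ℤ}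
    {e : ℕ} {y z : R} (hy : AdWle w φ d μ e y) (hz : AdWle w φ d μ e z) :
    AdWle w φ d μ e (y + z) := by
  intro a ha
  rw [map_add]
  exact (lt_min (hy a ha) (hz a ha)).trans_le (AddValuation.map_add w _ _)

private theorem adwlt_add {w : AddValuation M (WithTop ℤ)} {φ : R →ₐ[ℂ] M} {d : ℕ} {μ : ℤ}
    {e : ℕ} {y z : R} (hy : AdWlt w φ d μ e y) (hz : AdWlt w φ d μ e z) :
    AdWlt w φ d μ e (y + z) := by
  intro a ha
  rw [map_add]
  exact (lt_min (hy a ha) (hz a ha)).trans_le (AddValuation.map_add w _ _)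

private theorem adwle_iff {w : AddValuation M (WithTop ℤ)} {φ : R →ₐ[ℂ] M}
    (hφ : Function.Injective φ) {d : ℕ} {μ : ℤ} {e : ℕ} {z : R} (hz : z ≠ 0) :
    AdWle w φ d μ e z ↔ e * μ ≤ d * ordZ w (φ z) := by
  have h0 : φ z ≠ 0 := fun h => hz (hφ (by rw [h, map_zero]))
  constructor
  · intro h
    by_contra hcon
    push Not at hcon
    have h1 := h _ hcon
    rw [lt_w_iff w h0] at h1
    exact lt_irrefl _ h1
  · intro h a ha
    rw [lt_w_iff w h0]
    have h1 : (d : ℤ) * a < d * ordZ w (φ z) := ha.trans_le h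
    exact lt_of_mul_lt_mul_left h1 (by positivity)

private theorem adwlt_iff {w : AddValuation M (WithTop ℤ)} {φ : R →ₐ[ℂ] M}
    (hφ : Function.Injective φ) {d : ℕ} {μ : ℤ} {e : ℕ} {z : R} (hz : z ≠ 0) :
    AdWlt w φ d μ e z ↔ e * μ < d * ordZ w (φ z) := by
  have h0 : φ z ≠ 0 := fun h => hz (hφ (by rw [h, map_zero]))
  constructor
  · intro h
    by_contra hcon
    push Not at hcon
    have h1 := h _ hcon
    rw [lt_w_iff w h0] at h1
    exact lt_irrefl _ h1
  · intro h a ha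
    rw [lt_w_iff w h0]
    have h1 : (d : ℤ) * a < d * ordZ w (φ z) := ha.trans_lt h
    exact lt_of_mul_lt_mul_left h1 (by positivity)

/-- the components of a polynomial in `x` -/
private theorem adw_poly [IsDomain R] (hxm : ∀ b, x b ∈ 𝒜 d)
    (w : AddValuation M (WithTop ℤ)) (φ : R →ₐ[ℂ] M) (hφ : Function.Injective φ)
    (hx0 : ∀ b, x b ≠ 0) (μ : ℤ) (hμ : ∀ b, μ ≤ ordZ w (φ (x b)))
    (p : MvPolynomial (Fin (n + 1)) ℂ) :
    ∀ e : ℕ, AdWle w φ d μ e (DirectSum.decompose 𝒜 (MvPolynomial.aeval x p) e : R) := by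
  induction p using MvPolynomial.induction_on with
  | C c =>
    intro e
    have h1 : MvPolynomial.aeval x (MvPolynomial.C c) ∈ 𝒜 0 := by
      rw [MvPolynomial.aeval_C]
      exact SetLike.algebraMap_mem_graded 𝒜 c
    by_cases he : e = 0
    · rw [he, DirectSum.decompose_of_mem_same 𝒜 h1, MvPolynomial.aeval_C]
      intro a ha
      rw [AlgHom.commutes]
      by_cases hc : c = 0
      · rw [hc, map_zero, AddValuation.map_zero]
        exact WithTop.coe_lt_top a
      · rw [w_algebraMap w c hc]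
        have h2 : (d : ℤ) * a < 0 := by simpa using ha
        have h3 : a < 0 := by
          by_contra h4
          push Not at h4
          have : 0 ≤ (d : ℤ) * a := by positivity
          omega
        exact_mod_cast h3
    · rw [DirectSum.decompose_of_mem_ne 𝒜 h1 (Ne.symm he)]
      exact adwle_zero w φ d μ e
  | add p q hp hq =>
    intro e
    rw [map_add, DirectSum.decompose_add, DirectSum.add_apply, Submodule.coe_add]
    exact adwle_add (hp e) (hq e)
  | mul_X p b hp =>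
    intro e
    rw [map_mul, MvPolynomial.aeval_X]
    by_cases he : d ≤ e
    · rw [DirectSum.coe_decompose_mul_of_right_mem_of_le 𝒜 (hxm b) he]
      have h1 := hp (e - d)
      set z : R := (DirectSum.decompose 𝒜 (MvPolynomial.aeval x p) (e - d) : R) with hz
      by_cases hz0 : z = 0
      · rw [hz0, zero_mul]
        exact adwle_zero w φ d μ e
      · rw [adwle_iff hφ hz0] at h1
        rw [adwle_iff hφ (mul_ne_zero hz0 (hx0 b)), map_mul, ordZ_mul w
          (fun h => hz0 (hφ (by rw [h, map_zero]))) (fun h => hx0 b (hφ (by rw [h, map_zero])))]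
        have h2 := hμ b
        have h3 : (d : ℤ) * μ ≤ d * ordZ w (φ (x b)) := mul_le_mul_of_nonneg_left h2 (by positivity)
        rw [Nat.cast_sub he] at h1
        linarith
    · rw [DirectSum.coe_decompose_mul_of_right_mem_of_not_le 𝒜 (hxm b) he]
      exact adwle_zero w φ d μ e

/-- step (1) -/
private theorem adw_ge [IsDomain R] (hfin : Module.Finite (Algebra.adjoin ℂ (Set.range x)) R)
    (hxm : ∀ b, x b ∈ 𝒜 d) (hd : 1 ≤ d)
    (w : AddValuation M (WithTop ℤ)) (φ : R →ₐ[ℂ] M) (hφ : Function.Injective φ)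
    (hx0 : ∀ b, x b ≠ 0) (μ : ℤ) (hμ : ∀ b, μ ≤ ordZ w (φ (x b)))
    {m : ℕ} {s : R} (hs : s ∈ 𝒜 m) (hs0 : s ≠ 0) :
    m * μ ≤ d * ordZ w (φ s) := by
  by_contra hcon
  push Not at hcon
  set o := ordZ w (φ s) with ho
  have hφs : φ s ≠ 0 := fun h => hs0 (hφ (by rw [h, map_zero]))
  obtain ⟨D, c, hD, hc⟩ := adw_homeq (𝒜 := 𝒜) hfin hs
  have hd' : (0 : ℤ) < d := by exact_mod_cast hd
  have h1 : ((D * o : ℤ) : WithTop ℤ) < w (φ (s ^ D)) := by
    rw [hc, map_sum]
    refine lt_w_sum w _ _ _ fun i _ => ?_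
    set z : R := (DirectSum.decompose 𝒜 (MvPolynomial.aeval x (c i)) (D * m - (i : ℕ) * m) : R)
      with hz
    by_cases hz0 : z = 0
    · rw [hz0, zero_mul, map_zero, AddValuation.map_zero]
      exact WithTop.coe_lt_top _
    have h2 := adw_poly hxm w φ hφ hx0 μ hμ (c i) (D * m - (i : ℕ) * m)
    rw [← hz, adwle_iff hφ hz0] at h2
    have hφz : φ z ≠ 0 := fun h => hz0 (hφ (by rw [h, map_zero]))
    rw [map_mul, map_pow, lt_w_iff w (mul_ne_zero hφz (pow_ne_zero _ hφs)),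
      ordZ_mul w hφz (pow_ne_zero _ hφs), ordZ_pow w hφs, ← ho]
    have hi : (i : ℕ) < D := i.2
    rw [Nat.cast_sub (Nat.mul_le_mul_right m hi.le)] at h2
    push_cast at h2
    have hi2 : (0 : ℤ) < (D : ℤ) - (i : ℕ) := by
      have : ((i : ℕ) : ℤ) < (D : ℤ) := by exact_mod_cast hi
      omega
    have h3 : ((D : ℤ) - (i : ℕ)) * (d * o) < ((D : ℤ) - (i : ℕ)) * (m * μ) :=
      mul_lt_mul_of_pos_left hcon hi2
    have h4 : (d : ℤ) * (D * o) < d * (ordZ w (φ z) + (i : ℕ) * o) := by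
      have h5 : ((D : ℤ) * m - (i : ℕ) * m) * μ = ((D : ℤ) - (i : ℕ)) * (m * μ) := by ring
      rw [h5] at h2
      have h6 : (d : ℤ) * (D * o) = ((D : ℤ) - (i : ℕ)) * (d * o) + d * ((i : ℕ) * o) := by ring
      rw [h6, mul_add]
      linarith
    exact lt_of_mul_lt_mul_left h4 hd'.le
  rw [map_pow, lt_w_iff w (pow_ne_zero _ hφs), ordZ_pow w hφs, ← ho] at h1
  exact lt_irrefl _ h1

/-- Proof. `μ = min_b ord φ(x_b)`. (1) `d ord φ(s) ≥ m μ` for `0 ≠ s ∈ 𝒜 m`: `s` has an equation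
`s^p + a_1 s^(p-1) + … + a_p = 0` with `a_i ∈ ℂ[x]`, homogeneous of degree `i m` in `R` (take the
component of degree `p m` of an integral equation; the components of elements of `ℂ[x]` are in
`ℂ[x]`); so `a_i` is a form of degree `i m / d` in `x` (or `0`) and `d ord φ(a_i) ≥ i m μ`; if
`d ord φ(s) < m μ` then `s^p` would have strictly the least order. (2) The set `p` of the `s` all
of whose homogeneous components `s_m` are `0` or have `d ord φ(s_m) > m μ` is a homogeneous prime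
ideal (`Ideal.IsHomogeneous.isPrime_of_homogeneous_mem_or_mem`; `ord` of products; `φ`
injective), it does not contain the `x_b` with `ord φ(x_b) = μ`. (3) `h.line` gives `f ∈ 𝒜 k`,
`g ∈ 𝒜 (k + 1)`, not in `p`: `d ord φ(f) = k μ`, `d ord φ(g) = (k + 1) μ`; put
`w₁ = ord φ(g) - ord φ(f)`, then `d w₁ = μ`. -/
theorem exists_weight (h : IsFano 𝒜 n r d x G) (w : AddValuation M (WithTop ℤ))
    (φ : R →ₐ[ℂ] M) (hφ : Function.Injective φ) :
    ∃ (w₁ : ℤ) (k : ℕ) (f g : R), f ∈ 𝒜 k ∧ g ∈ 𝒜 (k + 1) ∧ f ≠ 0 ∧ g ≠ 0 ∧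
      ordZ w (φ f) = k * w₁ ∧ ordZ w (φ g) = (k + 1) * w₁ ∧
      (∀ m : ℕ, ∀ s ∈ 𝒜 m, s ≠ 0 → m * w₁ ≤ ordZ w (φ s)) ∧
      ∃ b, ordZ w (φ (x b)) = d * w₁ := by
  have := h.domain
  have hx0 : ∀ b, x b ≠ 0 := fun b => h.x_indep.ne_zero b
  have hd := h.d_pos
  have hd' : (0 : ℤ) < d := by exact_mod_cast hd
  obtain ⟨b₀, -, hb₀⟩ := Finset.exists_min_image (Finset.univ : Finset (Fin (n + 1)))
    (fun b => ordZ w (φ (x b))) ⟨0, Finset.mem_univ _⟩
  set μ := ordZ w (φ (x b₀)) with hμdef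
  have hμ : ∀ b, μ ≤ ordZ w (φ (x b)) := fun b => hb₀ b (Finset.mem_univ b)
  have hge : ∀ (m : ℕ) (s : R), s ∈ 𝒜 m → s ≠ 0 → m * μ ≤ d * ordZ w (φ s) :=
    fun m s hs hs0 => adw_ge h.x_finite h.x_mem hd w φ hφ hx0 μ hμ hs hs0
  -- the ideal
  let p : Ideal R :=
    { carrier := {s | ∀ m, AdWlt w φ d μ m (DirectSum.decompose 𝒜 s m : R)}
      zero_mem' := by
        intro m
        rw [DirectSum.decompose_zero, DirectSum.zero_apply, ZeroMemClass.coe_zero]
        exact adwlt_zero w φ d μ m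
      add_mem' := by
        intro a b ha hb m
        rw [DirectSum.decompose_add, DirectSum.add_apply, Submodule.coe_add]
        exact adwlt_add (ha m) (hb m)
      smul_mem' := by
        intro c s hs
        show ∀ m, AdWlt w φ d μ m (DirectSum.decompose 𝒜 (c * s) m : R)
        induction c using DirectSum.Decomposition.inductionOn 𝒜 with
        | zero =>
          intro m
          rw [zero_mul, DirectSum.decompose_zero, DirectSum.zero_apply, ZeroMemClass.coe_zero]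
          exact adwlt_zero w φ d μ m
        | homogeneous c =>
          rename_i i
          intro m
          by_cases him : i ≤ m
          · rw [DirectSum.coe_decompose_mul_of_left_mem_of_le 𝒜 c.2 him]
            by_cases hc0 : (c : R) = 0
            · rw [hc0, zero_mul]
              exact adwlt_zero w φ d μ m
            have h1 := hs (m - i)
            set z : R := (DirectSum.decompose 𝒜 s (m - i) : R) with hz
            by_cases hz0 : z = 0
            · rw [hz0, mul_zero]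
              exact adwlt_zero w φ d μ m
            rw [adwlt_iff hφ hz0] at h1
            rw [adwlt_iff hφ (mul_ne_zero hc0 hz0), map_mul, ordZ_mul w
              (fun h => hc0 (hφ (by rw [h, map_zero]))) (fun h => hz0 (hφ (by rw [h, map_zero])))]
            have h2 := hge i c c.2 hc0
            rw [Nat.cast_sub him] at h1
            linarith
          · rw [DirectSum.coe_decompose_mul_of_left_mem_of_not_le 𝒜 c.2 him]
            exact adwlt_zero w φ d μ m
        | add a b ha hb =>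
          intro m
          rw [add_mul, DirectSum.decompose_add, DirectSum.add_apply, Submodule.coe_add]
          exact adwlt_add (ha m) (hb m) }
  have hpmem : ∀ s, s ∈ p ↔ ∀ m, AdWlt w φ d μ m (DirectSum.decompose 𝒜 s m : R) :=
    fun s => Iff.rfl
  have hphom : ∀ (m : ℕ) (s : R), s ∈ 𝒜 m → (s ∈ p ↔ AdWlt w φ d μ m s) := by
    intro m s hs
    rw [hpmem]
    constructor
    · intro h1
      have h2 := h1 m
      rwa [DirectSum.decompose_of_mem_same 𝒜 hs] at h2
    · intro h1 k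
      by_cases hk : m = k
      · subst hk
        rwa [DirectSum.decompose_of_mem_same 𝒜 hs]
      · rw [DirectSum.decompose_of_mem_ne 𝒜 hs hk]
        exact adwlt_zero w φ d μ k
  have hnot : ∀ (m : ℕ) (s : R), s ∈ 𝒜 m → s ∉ p → s ≠ 0 ∧ (d : ℤ) * ordZ w (φ s) = m * μ := by
    intro m s hs hsp
    have hs0 : s ≠ 0 := by
      rintro rfl
      exact hsp p.zero_mem
    rw [hphom m s hs, adwlt_iff hφ hs0, not_lt] at hsp
    exact ⟨hs0, le_antisymm hsp (hge m s hs hs0)⟩
  have hxb : x b₀ ∉ p := by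
    rw [hphom d _ (h.x_mem b₀), adwlt_iff hφ (hx0 b₀), ← hμdef]
    exact lt_irrefl _
  have hphomog : p.IsHomogeneous 𝒜 := by
    intro i s hs
    rw [hphom i _ (SetLike.coe_mem _)]
    exact (hpmem s).1 hs i
  have hprime : p.IsPrime := by
    refine hphomog.isPrime_of_homogeneous_mem_or_mem ?_ ?_
    · intro htop
      exact hxb (htop ▸ Submodule.mem_top)
    · rintro a b ⟨i, hi⟩ ⟨j, hj⟩ hab
      by_contra hcon
      push Not at hcon
      obtain ⟨ha0, ha⟩ := hnot i a hi hcon.1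
      obtain ⟨hb0, hb⟩ := hnot j b hj hcon.2
      rw [hphom (i + j) _ (SetLike.mul_mem_graded hi hj), adwlt_iff hφ (mul_ne_zero ha0 hb0),
        map_mul, ordZ_mul w (fun h => ha0 (hφ (by rw [h, map_zero])))
        (fun h => hb0 (hφ (by rw [h, map_zero]))), mul_add, ha, hb] at hab
      push_cast at hab
      linarith
  obtain ⟨k, f, hf, g, hg, hfp, hgp⟩ := h.line p hprime ⟨d, hd, x b₀, h.x_mem b₀, hxb⟩
  obtain ⟨hf0, hf1⟩ := hnot k f hf hfp
  obtain ⟨hg0, hg1⟩ := hnot (k + 1) g hg hgp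
  have hw : (d : ℤ) * (ordZ w (φ g) - ordZ w (φ f)) = μ := by
    rw [mul_sub, hf1, hg1]
    push_cast
    ring
  refine ⟨ordZ w (φ g) - ordZ w (φ f), k, f, g, hf, hg, hf0, hg0, ?_, ?_, ?_, b₀, ?_⟩
  · refine mul_left_cancel₀ hd'.ne' ?_
    rw [hf1, mul_left_comm, hw]
  · refine mul_left_cancel₀ hd'.ne' ?_
    rw [hg1, mul_left_comm, hw]
    push_cast
    ring
  · intro m s hs hs0
    refine le_of_mul_le_mul_left ?_ hd'
    rw [mul_left_comm, hw]
    exact hge m s hs hs0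
  · rw [hw]

end Pool.Agent.Lib_MP_e0d435_kv

end

/-! ### from `Lib_GD.ArcColen` -/

section

/-! A05: colengths and matrices. -/

open PowerSeries

namespace Pool.Agent.Lib_GD

private theorem ArcColen_ord_prod {R : Type} [CommRing R] [IsDomain R] {m : Type} (s : Finset m)
    (c : m → R) (hc : ∀ i, c i ≠ 0) : Ring.ord R (∏ i ∈ s, c i) = ∑ i ∈ s, Ring.ord R (c i) := by
  classical
  induction s using Finset.induction_on with
  | empty => simp
  | insert a s ha ih =>
    rw [Finset.prod_insert ha, Finset.sum_insert ha, Ring.ord_mul R, ih]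
    exact mem_nonZeroDivisors_of_ne_zero (Finset.prod_ne_zero_iff.2 fun i _ => hc i)

/-- The length of the cokernel of a square matrix over a principal ideal domain. -/
private theorem ArcColen_length {R : Type} [CommRing R] [IsDomain R] [IsPrincipalIdealRing R]
    {m : Type} [Fintype m] [DecidableEq m] (A : Matrix m m R) (hA : A.det ≠ 0) :
    Module.length R ((m → R) ⧸ Submodule.span R (Set.range A)) = Ring.ord R A.det := by
  set N : Submodule R (m → R) := Submodule.span R (Set.range A) with hN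
  have hr : LinearMap.range A.vecMulLinear = N := by
    rw [range_vecMulLinear]
    rfl
  have hinj : Function.Injective A.vecMulLinear := by
    rw [← LinearMap.ker_eq_bot, LinearMap.ker_eq_bot']
    intro x hx
    exact Matrix.eq_zero_of_vecMul_eq_zero hA hx
  let eN : (m → R) ≃ₗ[R] N :=
    (LinearEquiv.ofInjective A.vecMulLinear hinj).trans (LinearEquiv.ofEq _ _ hr)
  have heN : ∀ x, ((eN x : N) : m → R) = A.vecMulLinear x := fun x => rfl
  have hrank : Module.finrank R N = Module.finrank R (m → R) := eN.finrank_eq.symm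
  let b := Pi.basisFun R m
  let b' := Submodule.smithNormalFormTopBasis b hrank
  let ab := Submodule.smithNormalFormBotBasis b hrank
  let c := Submodule.smithNormalFormCoeffs b hrank
  have hab : ∀ i, (ab i : m → R) = c i • b' i := Submodule.smithNormalFormBotBasis_def b hrank
  have hc : ∀ i, c i ≠ 0 := fun i => Submodule.smithNormalFormCoeffs_ne_zero b hrank i
  rw [(N.quotientEquivPiSpan b hrank).length_eq, Module.length_pi_of_fintype]
  have h1 : ∑ i, Module.length R (R ⧸ Ideal.span ({c i} : Set R)) = Ring.ord R (∏ i, c i) := by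
    rw [ArcColen_ord_prod _ _ hc]
    rfl
  refine h1.trans (Ring.ord_eq_of_associated ?_)
  -- the two determinants
  let ψ : (m → R) →ₗ[R] (m → R) := N.subtype ∘ₗ (b'.equiv ab (Equiv.refl m)).toLinearMap
  have hψ : LinearMap.det ψ = ∏ i, c i := by
    rw [← LinearMap.det_toMatrix b', ← Matrix.det_diagonal]
    congr 1
    ext i j
    rw [LinearMap.toMatrix_apply]
    have h2 : ψ (b' j) = c j • b' j := by
      rw [← hab j]
      show ((b'.equiv ab (Equiv.refl m) (b' j) : N) : m → R) = ab j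
      rw [Module.Basis.equiv_apply]
      rfl
    rw [h2, map_smul, Finsupp.smul_apply, Module.Basis.repr_self, Matrix.diagonal_apply,
      smul_eq_mul, Finsupp.single_apply]
    split_ifs with h3 h4 h4
    · rw [mul_one, h3]
    · exact absurd h3.symm h4
    · exact absurd h4.symm h3
    · rw [mul_zero]
  have hφ : LinearMap.det A.vecMulLinear = A.det := by
    rw [← Matrix.mulVecLin_transpose, ← Matrix.toLin'_apply', LinearMap.det_toLin',
      Matrix.det_transpose]
  rw [← hψ, ← hφ]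
  refine (LinearMap.associated_det_of_eq_comp (eN.trans (b'.equiv ab (Equiv.refl m)).symm)
    A.vecMulLinear ψ fun x => ?_).symm
  show A.vecMulLinear x = ((b'.equiv ab (Equiv.refl m)
    ((b'.equiv ab (Equiv.refl m)).symm (eN x)) : N) : m → R)
  rw [LinearEquiv.apply_symm_apply, heN]

/-- If the cokernel has finite length the determinant is not zero. -/
private theorem ArcColen_det_ne {R : Type} [CommRing R] [IsDomain R] [IsDiscreteValuationRing R]
    {m : Type} [Fintype m] [DecidableEq m] (A : Matrix m m R)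
    (h : Module.length R ((m → R) ⧸ Submodule.span R (Set.range A)) ≠ ⊤) : A.det ≠ 0 := by
  intro h0
  obtain ⟨w, hw0, hw⟩ := Matrix.exists_mulVec_eq_zero_iff.2 h0
  obtain ⟨q, hq⟩ : ∃ q, w q ≠ 0 := by
    by_contra hne
    push Not at hne
    exact hw0 (funext hne)
  let ℓ : (m → R) →ₗ[R] R := ∑ i, w i • LinearMap.proj i
  have hℓ : ∀ x, ℓ x = ∑ i, w i * x i := by
    intro x
    simp [ℓ, LinearMap.sum_apply]
  have hker : Submodule.span R (Set.range A) ≤ LinearMap.ker ℓ := by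
    rw [Submodule.span_le]
    rintro _ ⟨p, rfl⟩
    show ℓ (A p) = 0
    rw [hℓ]
    have := congrFun hw p
    rw [Matrix.mulVec, dotProduct, Pi.zero_apply] at this
    rw [← this]
    exact Finset.sum_congr rfl fun i _ => mul_comm _ _
  let g : R →ₗ[R] ((m → R) ⧸ Submodule.span R (Set.range A)) :=
    (Submodule.mkQ _) ∘ₗ (LinearMap.single R (fun _ => R) q)
  have hg : Function.Injective g := by
    rw [← LinearMap.ker_eq_bot, LinearMap.ker_eq_bot']
    intro x hx
    have h1 : (Pi.single q x : m → R) ∈ Submodule.span R (Set.range A) :=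
      (Submodule.Quotient.mk_eq_zero _).1 hx
    have h2 : ℓ (Pi.single q x) = 0 := hker h1
    rw [hℓ, Finset.sum_eq_single q] at h2
    · rw [Pi.single_eq_same] at h2
      exact (mul_eq_zero.1 h2).resolve_left hq
    · intro i _ hi
      rw [Pi.single_eq_of_ne hi, mul_zero]
    · intro hh
      exact absurd (Finset.mem_univ q) hh
  have h3 : Module.length R R ≠ ⊤ := fun hh =>
    h (top_le_iff.1 (hh ▸ Module.length_le_of_injective g hg))
  have h4 : IsArtinian R R := (isFiniteLength_iff_isNoetherian_isArtinian.1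
    (Module.length_ne_top_iff.1 h3)).2
  have h5 : IsArtinianRing R := h4
  exact IsDiscreteValuationRing.not_isField R (IsArtinianRing.isField_of_isDomain R)

private theorem ArcColen_ord_dvr {R : Type} [CommRing R] [IsDomain R] [IsDiscreteValuationRing R]
    (x : R) (hx : x ≠ 0) : Ring.ord R x = IsDiscreteValuationRing.addVal R x := by
  obtain ⟨ϖ, hϖ⟩ := IsDiscreteValuationRing.exists_irreducible R
  obtain ⟨n, u, rfl⟩ := IsDiscreteValuationRing.eq_unit_mul_pow_irreducible hx hϖ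
  rw [IsDiscreteValuationRing.addVal_def' u hϖ n, Ring.ord_mul_of_isUnit_left u.isUnit,
    Ring.ord_pow (mem_nonZeroDivisors_of_ne_zero hϖ.ne_zero), Ring.ord_of_irreducible hϖ,
    nsmul_eq_mul, mul_one]

private theorem ArcColen_ord_series {L : Type} [Field L] (f : L⟦X⟧) (hf : f ≠ 0) :
    Ring.ord L⟦X⟧ f = f.order := by
  have h1 : f.order = (f.order.toNat : ℕ∞) := by
    rw [ENat.natCast_toNat]
    exact fun h => hf (PowerSeries.order_eq_top.1 h)
  have h2 : IsUnit (divXPowOrder f) := by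
    rw [PowerSeries.isUnit_iff_constantCoeff, isUnit_iff_ne_zero, constantCoeff_divXPowOrder]
    exact coeff_order hf
  conv_lhs => rw [← X_pow_order_mul_divXPowOrder (f := f)]
  rw [Ring.ord_mul_of_isUnit_right h2, Ring.ord_pow (mem_nonZeroDivisors_of_ne_zero X_ne_zero),
    Ring.ord_of_irreducible X_irreducible, nsmul_eq_mul, mul_one, ← h1]

/-- A05 (linear algebra over a DVR and `L⟦X⟧`): if `J` is an `r × r` matrix over `V` with
`length (V^r / J V^r) = a` and `Φ : V → L⟦X⟧` preserves orders, then the submodule of `O^r` of all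
`ζ₀ Φ(J_0) + ∑ ζ_l Φ(J_l)`, `X ∣ ζ₀` (`J_i` the rows), has colength `a + 1`; here for index types
`Option (Fin r)` and `κ`. -/
theorem colen_of_matrix {V : Type} [CommRing V] [IsDomain V] [IsDiscreteValuationRing V]
    {L : Type} [Field L] (Φ : V →+* L⟦X⟧)
    (hΦ : ∀ f, (Φ f).order = IsDiscreteValuationRing.addVal V f) {r : ℕ} {κ : Type} [Fintype κ]
    [DecidableEq κ] (hκ : Fintype.card κ = r + 1) (J : κ → Option (Fin r) → V)
    (a : ℕ) (ha : Module.length V ((Option (Fin r) → V) ⧸ Submodule.span V (Set.range J)) = a)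
    (M : Submodule L⟦X⟧ (κ → L⟦X⟧))
    (hM : ∀ v, v ∈ M ↔ ∃ ζ : Option (Fin r) → L⟦X⟧, X ∣ ζ none ∧
      ∀ p, v p = ∑ q, ζ q * Φ (J p q)) :
    FinColen M ∧ colen M = a + 1 := by
  classical
  let e : κ ≃ Option (Fin r) := Fintype.equivOfCardEq (by
    rw [hκ, Fintype.card_option, Fintype.card_fin])
  let A : Matrix (Option (Fin r)) (Option (Fin r)) V := fun i q => J (e.symm i) q
  have hrange : Set.range A = Set.range J := by
    ext x
    constructor
    · rintro ⟨i, rfl⟩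
      exact ⟨e.symm i, rfl⟩
    · rintro ⟨p, rfl⟩
      exact ⟨e p, by show J (e.symm (e p)) = J p; rw [e.symm_apply_apply]⟩
  rw [← hrange] at ha
  have hA : A.det ≠ 0 := ArcColen_det_ne A (by rw [ha]; exact ENat.natCast_ne_top a)
  have ha' : IsDiscreteValuationRing.addVal V A.det = a := by
    rw [← ArcColen_ord_dvr _ hA, ← ArcColen_length A hA, ha]
  -- the matrix over the power series
  let d : Option (Fin r) → L⟦X⟧ := fun q => if q = none then X else 1
  let B : Matrix (Option (Fin r)) (Option (Fin r)) L⟦X⟧ :=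
    Matrix.diagonal d * (A.map Φ).transpose
  have hB : ∀ q i, B q i = d q * Φ (A i q) := by
    intro q i
    exact (Matrix.diagonal_mul d (A.map Φ).transpose q i).trans rfl
  have hdetC : (A.map Φ).det = Φ A.det := (RingHom.map_det Φ A).symm
  have hdetC0 : (A.map Φ).det ≠ 0 := by
    rw [hdetC]
    intro h
    have h2 := hΦ A.det
    rw [h, PowerSeries.order_zero, ha'] at h2
    exact ENat.natCast_ne_top a h2.symm
  have hdetd : ∏ q, d q = X := by
    rw [Fintype.prod_option]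
    simp [d]
  have hdetB : B.det = X * (A.map Φ).det := by
    rw [Matrix.det_mul, Matrix.det_diagonal, Matrix.det_transpose, hdetd]
  have hdetB0 : B.det ≠ 0 := by
    rw [hdetB]
    exact mul_ne_zero X_ne_zero hdetC0
  have hlenB : Module.length L⟦X⟧ ((Option (Fin r) → L⟦X⟧) ⧸
      Submodule.span L⟦X⟧ (Set.range B)) = ((a + 1 : ℕ) : ℕ∞) := by
    rw [ArcColen_length B hdetB0, hdetB,
      Ring.ord_mul L⟦X⟧ (mem_nonZeroDivisors_of_ne_zero hdetC0),
      Ring.ord_of_irreducible X_irreducible, ArcColen_ord_series _ hdetC0, hdetC, hΦ, ha',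
      Nat.cast_add, Nat.cast_one, add_comm]
  -- reindexing
  let E : (κ → L⟦X⟧) ≃ₗ[L⟦X⟧] (Option (Fin r) → L⟦X⟧) :=
    LinearEquiv.funCongrLeft L⟦X⟧ L⟦X⟧ e.symm
  have hE : ∀ v i, E v i = v (e.symm i) := fun v i => rfl
  have hmap : M.map (E : (κ → L⟦X⟧) →ₗ[L⟦X⟧] (Option (Fin r) → L⟦X⟧)) =
      Submodule.span L⟦X⟧ (Set.range B) := by
    ext x
    rw [Submodule.mem_span_range_iff_exists_fun]
    constructor
    · rintro ⟨v, hv, rfl⟩
      obtain ⟨ζ, ⟨z, hz⟩, h⟩ := (hM v).1 hv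
      refine ⟨fun q => if q = none then z else ζ q, ?_⟩
      funext i
      rw [Finset.sum_apply]
      show _ = v (e.symm i)
      rw [h (e.symm i)]
      refine Finset.sum_congr rfl fun q _ => ?_
      rw [Pi.smul_apply, smul_eq_mul, hB]
      rcases q with _ | q
      · simp only [d, if_true]
        rw [hz]
        ring
      · simp only [d, reduceCtorEq, if_false, one_mul]
        rfl
    · rintro ⟨c, rfl⟩
      refine ⟨fun p => ∑ q, (c q * d q) * Φ (J p q), ?_, ?_⟩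
      · refine (hM _).2 ⟨fun q => c q * d q, ?_, fun p => rfl⟩
        simp only [d, if_true]
        exact dvd_mul_left _ _
      · funext i
        rw [Finset.sum_apply]
        show ∑ q, (c q * d q) * Φ (J (e.symm i) q) = _
        refine Finset.sum_congr rfl fun q _ => ?_
        rw [Pi.smul_apply, smul_eq_mul, hB, mul_assoc]
  have hlen : Module.length L⟦X⟧ ((κ → L⟦X⟧) ⧸ M) = ((a + 1 : ℕ) : ℕ∞) := by
    rw [← hlenB]
    exact (Submodule.Quotient.equiv M _ E hmap).length_eq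
  refine ⟨?_, ?_⟩
  · rw [FinColen, hlen]
    exact ENat.natCast_ne_top _
  · rw [colen, hlen, ENat.toNat_natCast]

end Pool.Agent.Lib_GD

end

/-! ### from `Lib_MP_e0d435_kv.AdLen` -/

section

/-! AD4: the order of the Jacobian bounds the log discrepancy. -/

namespace Pool.Agent.Lib_MP_e0d435_kv

private theorem adLen_ord_prod {R : Type} [CommRing R] [IsDomain R] {m : Type} (s : Finset m)
    (c : m → R) (hc : ∀ i, c i ≠ 0) : Ring.ord R (∏ i ∈ s, c i) = ∑ i ∈ s, Ring.ord R (c i) := by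
  classical
  induction s using Finset.induction_on with
  | empty => simp
  | insert a s ha ih =>
    rw [Finset.prod_insert ha, Finset.sum_insert ha, Ring.ord_mul R, ih]
    exact mem_nonZeroDivisors_of_ne_zero (Finset.prod_ne_zero_iff.2 fun i _ => hc i)

/-- The length of the cokernel of a square matrix over a principal ideal domain. -/
private theorem adLen_length {R : Type} [CommRing R] [IsDomain R] [IsPrincipalIdealRing R]
    {m : Type} [Fintype m] [DecidableEq m] (A : Matrix m m R) (hA : A.det ≠ 0) :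
    Module.length R ((m → R) ⧸ Submodule.span R (Set.range A)) = Ring.ord R A.det := by
  set N : Submodule R (m → R) := Submodule.span R (Set.range A) with hN
  have hr : LinearMap.range A.vecMulLinear = N := by
    rw [range_vecMulLinear]
    rfl
  have hinj : Function.Injective A.vecMulLinear := by
    rw [← LinearMap.ker_eq_bot, LinearMap.ker_eq_bot']
    intro x hx
    exact Matrix.eq_zero_of_vecMul_eq_zero hA hx
  let eN : (m → R) ≃ₗ[R] N :=
    (LinearEquiv.ofInjective A.vecMulLinear hinj).trans (LinearEquiv.ofEq _ _ hr)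
  have heN : ∀ x, ((eN x : N) : m → R) = A.vecMulLinear x := fun x => rfl
  have hrank : Module.finrank R N = Module.finrank R (m → R) := eN.finrank_eq.symm
  let b := Pi.basisFun R m
  let b' := Submodule.smithNormalFormTopBasis b hrank
  let ab := Submodule.smithNormalFormBotBasis b hrank
  let c := Submodule.smithNormalFormCoeffs b hrank
  have hab : ∀ i, (ab i : m → R) = c i • b' i := Submodule.smithNormalFormBotBasis_def b hrank
  have hc : ∀ i, c i ≠ 0 := fun i => Submodule.smithNormalFormCoeffs_ne_zero b hrank i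
  rw [(N.quotientEquivPiSpan b hrank).length_eq, Module.length_pi_of_fintype]
  have h1 : ∑ i, Module.length R (R ⧸ Ideal.span ({c i} : Set R)) = Ring.ord R (∏ i, c i) := by
    rw [adLen_ord_prod _ _ hc]
    rfl
  refine h1.trans (Ring.ord_eq_of_associated ?_)
  -- the two determinants
  let ψ : (m → R) →ₗ[R] (m → R) := N.subtype ∘ₗ (b'.equiv ab (Equiv.refl m)).toLinearMap
  have hψ : LinearMap.det ψ = ∏ i, c i := by
    rw [← LinearMap.det_toMatrix b', ← Matrix.det_diagonal]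
    congr 1
    ext i j
    rw [LinearMap.toMatrix_apply]
    have h2 : ψ (b' j) = c j • b' j := by
      rw [← hab j]
      show ((b'.equiv ab (Equiv.refl m) (b' j) : N) : m → R) = ab j
      rw [Module.Basis.equiv_apply]
      rfl
    rw [h2, map_smul, Finsupp.smul_apply, Module.Basis.repr_self, Matrix.diagonal_apply,
      smul_eq_mul, Finsupp.single_apply]
    split_ifs with h3 h4 h4
    · rw [mul_one, h3]
    · exact absurd h3.symm h4
    · exact absurd h4.symm h3
    · rw [mul_zero]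
  have hφ : LinearMap.det A.vecMulLinear = A.det := by
    rw [← Matrix.mulVecLin_transpose, ← Matrix.toLin'_apply', LinearMap.det_toLin',
      Matrix.det_transpose]
  rw [← hψ, ← hφ]
  refine (LinearMap.associated_det_of_eq_comp (eN.trans (b'.equiv ab (Equiv.refl m)).symm)
    A.vecMulLinear ψ fun x => ?_).symm
  show A.vecMulLinear x = ((b'.equiv ab (Equiv.refl m)
    ((b'.equiv ab (Equiv.refl m)).symm (eN x)) : N) : m → R)
  rw [LinearEquiv.apply_symm_apply, heN]

private theorem adLen_ord_dvr {R : Type} [CommRing R] [IsDomain R] [IsDiscreteValuationRing R]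
    (x : R) (hx : x ≠ 0) : Ring.ord R x = IsDiscreteValuationRing.addVal R x := by
  obtain ⟨ϖ, hϖ⟩ := IsDiscreteValuationRing.exists_irreducible R
  obtain ⟨n, u, rfl⟩ := IsDiscreteValuationRing.eq_unit_mul_pow_irreducible hx hϖ
  rw [IsDiscreteValuationRing.addVal_def' u hϖ n, Ring.ord_mul_of_isUnit_left u.isUnit,
    Ring.ord_pow (mem_nonZeroDivisors_of_ne_zero hϖ.ne_zero), Ring.ord_of_irreducible hϖ,
    nsmul_eq_mul, mul_one]

/-- The length of `V^k` modulo the span of the rows of a square matrix of non-zero determinant is the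
order of the determinant. (`ArcColen_det_ne` and the proof of `colen_of_matrix` in
`Pool/Agent/Lib_GD/ArcColen.lean` contain this; Smith normal form or `Ring.ord`.) Conversely if the
determinant is zero then the length is infinite. -/
theorem length_matrix {V : Type} [CommRing V] [IsDomain V] [IsDiscreteValuationRing V] {k : ℕ}
    (A : Matrix (Fin k) (Fin k) V) (hA : A.det ≠ 0) :
    Module.length V ((Fin k → V) ⧸ Submodule.span V (Set.range A)) =
      IsDiscreteValuationRing.addVal V A.det := by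
  rw [adLen_length A hA, adLen_ord_dvr _ hA]

private theorem adLen_der {V : Type} [CommRing V] [Algebra ℂ V] {M : Type} [Field M]
    [Algebra ℂ M] (σ : V →ₐ[ℂ] M) (δ : Derivation ℂ M M) {ι : Type} [Fintype ι]
    (b : Module.Basis ι V (KaehlerDifferential ℂ V)) (g : ι → V)
    (hb : ∀ q, b q = KaehlerDifferential.D ℂ V (g q)) (f : V) :
    δ (σ f) = ∑ q, δ (σ (g q)) * σ (b.repr (KaehlerDifferential.D ℂ V f) q) := by
  let _ : Module V M := Module.compHom M σ.toRingHom
  have hsm : ∀ (b : V) (f : M), b • f = σ b * f := fun _ _ => rfl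
  have : IsScalarTower ℂ V M := ⟨fun z b f => by
    rw [hsm, hsm, map_smul, smul_mul_assoc]⟩
  let D : Derivation ℂ V M :=
    { toFun := fun b => δ (σ b)
      map_add' := fun a b => by rw [map_add, map_add]
      map_smul' := fun z b => by
        rw [map_smul]
        exact δ.map_smul z (σ b)
      map_one_eq_zero' := by
        change δ (σ 1) = 0
        rw [map_one, Derivation.map_one_eq_zero]
      leibniz' := fun a b => by
        change δ (σ (a * b)) = a • δ (σ b) + b • δ (σ a)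
        rw [hsm, hsm, map_mul, Derivation.leibniz]
        rfl }
  have h1 : D.liftKaehlerDifferential (KaehlerDifferential.D ℂ V f) = δ (σ f) :=
    D.liftKaehlerDifferential_comp_D f
  rw [← h1]
  conv_lhs => rw [← b.sum_repr (KaehlerDifferential.D ℂ V f)]
  rw [map_sum]
  refine Finset.sum_congr rfl fun q _ => ?_
  rw [map_smul, hb, hsm, Derivation.liftKaehlerDifferential_comp_D, mul_comm]
  rfl

private theorem adLen_w_prod {M : Type} [Field M] (w : AddValuation M (WithTop ℤ)) {ι : Type}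
    (s : Finset ι) (f : ι → M) : w (∏ i ∈ s, f i) = ∑ i ∈ s, w (f i) := by
  classical
  induction s using Finset.induction_on with
  | empty => rw [Finset.prod_empty, Finset.sum_empty, AddValuation.map_one]
  | insert a s ha ih => rw [Finset.prod_insert ha, Finset.sum_insert ha, AddValuation.map_mul, ih]

private theorem adLen_det {M : Type} [Field M] (w : AddValuation M (WithTop ℤ)) {k : ℕ}
    (A : Matrix (Fin k) (Fin k) M) (j0 : Fin k) (c : WithTop ℤ) (hA : ∀ i j, 0 ≤ w (A i j))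
    (hj : ∀ i, c ≤ w (A i j0)) : c ≤ w A.det := by
  rw [Matrix.det_apply]
  refine AddValuation.map_le_sum _ fun π _ => ?_
  have h1 : w (Equiv.Perm.sign π • ∏ i, A (π i) i) = w (∏ i, A (π i) i) := by
    rcases Int.units_eq_one_or (Equiv.Perm.sign π) with h | h
    · rw [h, one_smul]
    · rw [h, Units.neg_smul, one_smul, AddValuation.map_neg]
  rw [h1, adLen_w_prod]
  exact (hj _).trans (Finset.single_le_sum (f := fun i => w (A (π i) i)) (fun i _ => hA _ _)
    (Finset.mem_univ j0))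

/-- Proof: `n = r + 1`, `Ω_V` is free on `dt, dw_1, …, dw_r` (`exists_dvr_coords`); write
`D y_l = ∑_q a_lq b_q`. For every derivation `d_i` of `Λ.M`:
`d_i σ(y_l) = ∑_q σ(a_lq) d_i σ(b'_q)`, `b' = (t, w)` (the derivation `d_i ∘ σ` factors through
`Ω_V`, see `ArcDivisor_hat_basis`). So the matrix of `hdet` is the product of the matrix with
the columns `d_i τ / τ`, `d_i σ(t)`, `d_i σ(w_q)` and the block matrix `1 ⊕ σ(a)ᵀ`; its determinant is
`σ(det a) det (…)`, so `det a ≠ 0`, the length is `ord det a` (`length_matrix`), and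
`ord det (…) ≥ e` because all entries have `w ≥ 0` and those of the column of `t` have
`w (d_i σ t) ≥ w (σ t) = e`. -/
theorem length_le_jac {n : ℕ} (hn : 1 ≤ n) (Λ : LDF (n + 1))
    {V : Type} [CommRing V] [IsDomain V] [IsDiscreteValuationRing V] [Algebra ℂ V]
    [Algebra.EssFiniteType ℂ V] (htr : Algebra.trdeg ℂ V = (n : ℕ))
    (σ : V →ₐ[ℂ] Λ.M) (hσ : Function.Injective σ) (e : ℕ) (he : 1 ≤ e)
    (hord : ∀ f : V, f ≠ 0 → ordZ Λ.w (σ f) = e * (IsDiscreteValuationRing.addVal V f).toNat)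
    (y : Fin n → V) (τ : Λ.M) (hτ : τ ≠ 0)
    (hdet : Matrix.det (Matrix.of fun i j : Fin (n + 1) =>
      (Fin.cons (Λ.d i τ / τ) (fun l : Fin n => Λ.d i (σ (y l))) : Fin (n + 1) → Λ.M) j) ≠ 0) :
    Module.length V (KaehlerDifferential ℂ V ⧸ Submodule.span V
      (Set.range fun l => KaehlerDifferential.D ℂ V (y l))) ≠ ⊤ ∧
    (e : ℤ) * (1 + (Module.length V (KaehlerDifferential ℂ V ⧸ Submodule.span V
      (Set.range fun l => KaehlerDifferential.D ℂ V (y l)))).toNat) ≤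
    ordZ Λ.w (Matrix.det (Matrix.of fun i j : Fin (n + 1) =>
      (Fin.cons (Λ.d i τ / τ) (fun l : Fin n => Λ.d i (σ (y l))) : Fin (n + 1) → Λ.M) j)) := by
  obtain ⟨r, rfl⟩ : ∃ r, n = r + 1 := ⟨n - 1, by omega⟩
  obtain ⟨t, u, b0, ht, hbt, hbu⟩ := Pool.Agent.Lib_GD.exists_dvr_coords V r htr
  let b := b0.reindex (finSuccEquiv r).symm
  let g : Fin (r + 1) → V := Fin.cons t u
  have hb : ∀ q, b q = KaehlerDifferential.D ℂ V (g q) := by
    intro q
    refine Fin.cases ?_ (fun l => ?_) q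
    · simp [b, g, hbt]
    · simp [b, g, hbu]
  let A : Matrix (Fin (r + 1)) (Fin (r + 1)) V := fun l q =>
    b.repr (KaehlerDifferential.D ℂ V (y l)) q
  set J : Matrix (Fin (r + 1 + 1)) (Fin (r + 1 + 1)) Λ.M :=
    Matrix.of fun i j : Fin (r + 1 + 1) =>
      (Fin.cons (Λ.d i τ / τ) (fun l : Fin (r + 1) => Λ.d i (σ (y l))) : Fin (r + 1 + 1) → Λ.M) j
    with hJ
  let J0 : Matrix (Fin (r + 1 + 1)) (Fin (r + 1 + 1)) Λ.M :=
    Matrix.of fun i j : Fin (r + 1 + 1) =>
      (Fin.cons (Λ.d i τ / τ) (fun q : Fin (r + 1) => Λ.d i (σ (g q))) : Fin (r + 1 + 1) → Λ.M) j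
  let T : Matrix (Fin (r + 1 + 1)) (Fin (r + 1 + 1)) Λ.M :=
    Matrix.of fun i j : Fin (r + 1 + 1) =>
      (Fin.cons (Fin.cons 1 (fun _ => 0) : Fin (r + 1 + 1) → Λ.M)
        (fun q : Fin (r + 1) => (Fin.cons 0 (fun l => σ (A l q)) : Fin (r + 1 + 1) → Λ.M)) :
        Fin (r + 1 + 1) → Fin (r + 1 + 1) → Λ.M) i j
  have hJT : J = J0 * T := by
    ext i j
    rw [Matrix.mul_apply, Fin.sum_univ_succ]
    refine Fin.cases ?_ (fun l => ?_) j
    · simp [J, J0, T]
    · have h := adLen_der σ (Λ.d i) b g hb (y l)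
      simp only [J, J0, T, Matrix.of_apply, Fin.cons_zero, Fin.cons_succ, mul_zero, zero_add]
      exact h
  have hT : T.det = σ A.det := by
    rw [Matrix.det_succ_row_zero, Fin.sum_univ_succ]
    have h1 : ∀ l : Fin (r + 1), T 0 l.succ = 0 := fun l => by simp [T]
    have h2 : T.submatrix Fin.succ (Fin.succAbove 0) = (A.map σ).transpose := by
      ext i j
      simp [T]
    have h3 : T 0 0 = 1 := by simp [T]
    rw [h2, h3, Matrix.det_transpose]
    simp only [h1, mul_zero, zero_mul, Finset.sum_const_zero, add_zero]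
    rw [Fin.val_zero, pow_zero, one_mul, one_mul]
    exact (AlgHom.map_det σ A).symm
  have hdetJ : J.det = J0.det * σ A.det := by rw [hJT, Matrix.det_mul, hT]
  have hJ0 : J0.det ≠ 0 := by
    intro h
    apply hdet
    rw [hdetJ, h, zero_mul]
  have hσA : σ A.det ≠ 0 := by
    intro h
    apply hdet
    rw [hdetJ, h, mul_zero]
  have hA : A.det ≠ 0 := by
    intro h
    apply hσA
    rw [h, map_zero]
  -- the length
  have hmap : (Submodule.span V (Set.range fun l => KaehlerDifferential.D ℂ V (y l))).map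
      (b.equivFun : KaehlerDifferential ℂ V →ₗ[V] (Fin (r + 1) → V)) =
      Submodule.span V (Set.range A) := by
    rw [Submodule.map_span, ← Set.range_comp]
    rfl
  have hlen : Module.length V (KaehlerDifferential ℂ V ⧸ Submodule.span V
      (Set.range fun l => KaehlerDifferential.D ℂ V (y l))) =
      IsDiscreteValuationRing.addVal V A.det := by
    rw [← length_matrix A hA]
    exact (Submodule.Quotient.equiv _ _ b.equivFun hmap).length_eq
  have htop : IsDiscreteValuationRing.addVal V A.det ≠ ⊤ := by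
    rw [Ne, IsDiscreteValuationRing.addVal_eq_top_iff]
    exact hA
  refine ⟨by rw [hlen]; exact htop, ?_⟩
  -- orders
  have hnn : ∀ f : V, 0 ≤ Λ.w (σ f) := by
    intro f
    by_cases hf : f = 0
    · rw [hf, map_zero, AddValuation.map_zero]
      exact le_top
    · have h1 : σ f ≠ 0 := fun h => hf (hσ (by rw [h, map_zero]))
      have h2 : ((0 : ℤ) : WithTop ℤ) ≤ Λ.w (σ f) := by
        rw [le_w_iff Λ.w h1, hord f hf]
        positivity
      exact h2
  have hcol : ∀ i, ((e : ℤ) : WithTop ℤ) ≤ Λ.w (J0 i 1) := by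
    intro i
    have h0 : J0 i 1 = Λ.d i (σ t) := by
      change J0 i (Fin.succ 0) = _
      simp [J0, g]
    have h1 : σ t ≠ 0 := fun h => ht.ne_zero (hσ (by rw [h, map_zero]))
    rw [h0]
    refine le_trans ?_ (Λ.log i (σ t))
    rw [le_w_iff Λ.w h1, hord t ht.ne_zero, IsDiscreteValuationRing.addVal_uniformizer ht]
    simp
  have hent : ∀ i j, 0 ≤ Λ.w (J0 i j) := by
    intro i j
    refine Fin.cases ?_ (fun q => ?_) j
    · have h0 : J0 i 0 = Λ.d i τ / τ := by simp [J0]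
      rw [h0, div_eq_mul_inv, AddValuation.map_mul]
      have h1 : Λ.w τ + Λ.w τ⁻¹ = 0 := by
        rw [← AddValuation.map_mul, mul_inv_cancel₀ hτ, AddValuation.map_one]
      rw [← h1]
      exact add_le_add_left (Λ.log i τ) _
    · have h0 : J0 i q.succ = Λ.d i (σ (g q)) := by simp [J0]
      rw [h0]
      exact (hnn _).trans (Λ.log i _)
  have hge : (e : ℤ) ≤ ordZ Λ.w J0.det :=
    (le_w_iff Λ.w hJ0 e).1 (adLen_det Λ.w J0 1 _ hent hcol)
  rw [hlen, hdetJ, ordZ_mul Λ.w hJ0 hσA, hord _ hA]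
  linarith


end Pool.Agent.Lib_MP_e0d435_kv

end
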