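import Mathlib
import Pool.Agent.Lib_KF.Defs
import Pool.Agent.Lib_MP_e0d435_m.G02
import Pool.Agent.Lib_MP_e0d435_m.G03
import Pool.Agent.Lib_MP_e0d435_m.G04
import Pool.Agent.Lib_MP_e0d435_m.G06
import Pool.Agent.Lib_MP_e0d435_m.G07

/-!
# MP_e0d435_ag: merged library part G12

Concatenation of library files (each in its own section), only to save build time.
-/

/-! ### from `Lib_GD.OrdFacts` -/

section

/-! B07a: order functions of divisors over `X`. -/

open scoped ENNReal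

namespace Pool.Agent.Lib_GD

/-- monomials with bounded exponents in algebraically independent elements -/
private theorem OrdFacts_mono {F : Type} [Field F] [Algebra ℂ F] {n K : ℕ} {z : Fin n → F}
    (hind : AlgebraicIndependent ℂ z) (c : (Fin n → Fin (K + 1)) → ℂ)
    (hc : ∑ α, c α • ∏ i, z i ^ (α i : ℕ) = 0) : ∀ α, c α = 0 := by
  classical
  let μ : (Fin n → Fin (K + 1)) → (Fin n →₀ ℕ) := fun α =>
    Finsupp.equivFunOnFinite.symm (fun i => (α i : ℕ))
  have hμ : Function.Injective μ := by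
    intro α β h
    funext i
    have h1 := DFunLike.congr_fun h i
    simp only [μ, Finsupp.equivFunOnFinite_symm_apply_apply] at h1
    exact Fin.ext h1
  let P : MvPolynomial (Fin n) ℂ := ∑ α, MvPolynomial.monomial (μ α) (c α)
  have hP : P = 0 := by
    refine algebraicIndependent_iff.1 hind P ?_
    rw [← hc, map_sum]
    refine Finset.sum_congr rfl fun α _ => ?_
    rw [MvPolynomial.aeval_monomial, Algebra.smul_def, Finsupp.prod_fintype _ _ (by simp)]
    simp only [μ, Finsupp.equivFunOnFinite_symm_apply_apply]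
  intro β
  have h1 := congrArg (MvPolynomial.coeff (μ β)) hP
  simp only [P, MvPolynomial.coeff_sum, MvPolynomial.coeff_monomial,
    MvPolynomial.coeff_zero] at h1
  rw [Finset.sum_eq_single β] at h1
  · simpa using h1
  · intro α _ hα
    rw [if_neg fun h => hα (hμ h)]
  · intro h
    exact absurd (Finset.mem_univ β) h

/-- the products `s ^ j * g ^ (N - j - |α|) * a ^ α` are linearly independent -/
private theorem OrdFacts_core {R F : Type} [CommRing R] [IsDomain R] [Algebra ℂ R] [Field F]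
    [Algebra ℂ F] (φ : R →ₐ[ℂ] F) {n : ℕ} {s g : R} {a : Fin n → R} (hs : s ≠ 0)
    (hφs : φ s = 0) (hg : φ g ≠ 0)
    (hind : AlgebraicIndependent ℂ (fun i => φ (a i) / φ g)) (K : ℕ) :
    LinearIndependent ℂ (fun p : Fin (K + 1) × (Fin n → Fin (K + 1)) =>
      s ^ (p.1 : ℕ) * (g ^ ((n + 1) * K - p.1 - ∑ i, (p.2 i : ℕ)) *
        ∏ i, a i ^ (p.2 i : ℕ))) := by
  classical
  rw [Fintype.linearIndependent_iff]
  intro c hc
  set B : Fin (K + 1) × (Fin n → Fin (K + 1)) → R := fun p =>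
    g ^ ((n + 1) * K - p.1 - ∑ i, (p.2 i : ℕ)) * ∏ i, a i ^ (p.2 i : ℕ) with hB
  have main : ∀ j : ℕ, ∀ (hj : j < K + 1) (α : Fin n → Fin (K + 1)), c (⟨j, hj⟩, α) = 0 := by
    intro j
    induction j using Nat.strong_induction_on with
    | _ j ih =>
      intro hj α
      have h1 : ∀ p : Fin (K + 1) × (Fin n → Fin (K + 1)),
          c p • (s ^ (p.1 : ℕ) * B p) = s ^ j * (c p • (s ^ ((p.1 : ℕ) - j) * B p)) := by
        intro p
        rcases lt_or_ge (p.1 : ℕ) j with h2 | h2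
        · have h3 : c p = 0 := ih p.1 h2 p.1.2 p.2
          rw [h3, zero_smul, zero_smul, mul_zero]
        · rw [mul_smul_comm, ← mul_assoc (s ^ j), ← pow_add, Nat.add_sub_cancel' h2]
      have h2 : s ^ j * ∑ p, c p • (s ^ ((p.1 : ℕ) - j) * B p) = 0 := by
        rw [Finset.mul_sum, ← hc]
        exact Finset.sum_congr rfl fun p _ => (h1 p).symm
      have h3 : ∑ p, c p • (s ^ ((p.1 : ℕ) - j) * B p) = 0 :=
        (mul_eq_zero.1 h2).resolve_left (pow_ne_zero j hs)
      have h4 := congrArg φ h3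
      rw [map_sum, map_zero, Fintype.sum_prod_type, Finset.sum_eq_single ⟨j, hj⟩] at h4
      · have h5 : ∀ β : Fin n → Fin (K + 1),
            φ (c (⟨j, hj⟩, β) • (s ^ (((⟨j, hj⟩ : Fin (K + 1)) : ℕ) - j) * B (⟨j, hj⟩, β))) =
            φ g ^ ((n + 1) * K - j) *
              (c (⟨j, hj⟩, β) • ∏ i, (φ (a i) / φ g) ^ (β i : ℕ)) := by
          intro β
          have hle : ∑ i, (β i : ℕ) ≤ (n + 1) * K - j := by
            have h6 : ∑ i, (β i : ℕ) ≤ ∑ _i : Fin n, K :=
              Finset.sum_le_sum fun i _ => Nat.lt_succ_iff.1 (β i).2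
            rw [Finset.sum_const, Finset.card_univ, Fintype.card_fin, smul_eq_mul] at h6
            have h7 : (n + 1) * K = n * K + K := by ring
            omega
          rw [map_smul, Nat.sub_self, pow_zero, one_mul, mul_smul_comm]
          congr 1
          simp only [hB, map_mul, map_pow, map_prod, div_pow, Finset.prod_div_distrib,
            Finset.prod_pow_eq_pow_sum]
          rw [← mul_div_assoc, eq_div_iff (pow_ne_zero _ hg), mul_right_comm, ← pow_add,
            Nat.sub_add_cancel hle]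
        simp_rw [h5] at h4
        rw [← Finset.mul_sum] at h4
        exact OrdFacts_mono hind (fun β => c (⟨j, hj⟩, β))
          ((mul_eq_zero.1 h4).resolve_left (pow_ne_zero _ hg)) α
      · intro j' _ hj'
        refine Finset.sum_eq_zero fun β _ => ?_
        rcases lt_trichotomy (j' : ℕ) j with h5 | h5 | h5
        · have h6 : c (j', β) = 0 := ih j' h5 j'.2 β
          rw [h6, zero_smul, map_zero]
        · exact absurd (Fin.ext h5) hj'
        · rw [map_smul, map_mul, map_pow, hφs, zero_pow (Nat.sub_ne_zero_of_lt h5), zero_mul,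
            smul_zero]
      · intro h
        exact absurd (Finset.mem_univ _) h
  intro p
  exact main p.1 p.1.2 p.2

set_option linter.unusedSectionVars false

variable {R : Type} [CommRing R] [Algebra ℂ R] {𝒜 : ℕ → Submodule ℂ R} [GradedAlgebra 𝒜]
  {n : ℕ}

/-- B07a: the order function of a divisor over `X` on homogeneous sections. -/
theorem DivisorOver.ord_mul_section (E : DivisorOver 𝒜 n 1) (s s' : R) :
    E.ord (E.φ 0 (s * s')) = E.ord (E.φ 0 s) + E.ord (E.φ 0 s') := by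
  rw [map_mul]
  exact IsDiscreteValuationRing.addVal_mul

/-- growth contradiction -/
private theorem OrdFacts_growth (h : IsSmoothPolarised 𝒜 n) {F : Type} [Field F]
    [Algebra ℂ F] (φ : R →ₐ[ℂ] F) {D : ℕ} (hD : 0 < D) {s g : R} {a : Fin n → R}
    (hsD : s ∈ 𝒜 D) (hgD : g ∈ 𝒜 D) (haD : ∀ i, a i ∈ 𝒜 D) (hs : s ≠ 0)
    (hφs : φ s = 0) (hg : φ g ≠ 0)
    (hind : AlgebraicIndependent ℂ (fun i => φ (a i) / φ g)) : False := by
  have := h.domain
  obtain ⟨C, hC⟩ := secDim_le h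
  set K := C * (D * (n + 1)) ^ n + 1 with hK
  have hlin := OrdFacts_core φ hs hφs hg hind K
  have hmem : ∀ p : Fin (K + 1) × (Fin n → Fin (K + 1)),
      s ^ (p.1 : ℕ) * (g ^ ((n + 1) * K - p.1 - ∑ i, (p.2 i : ℕ)) *
        ∏ i, a i ^ (p.2 i : ℕ)) ∈ 𝒜 (D * ((n + 1) * K)) := by
    intro p
    have hj : (p.1 : ℕ) ≤ K := Nat.lt_succ_iff.1 p.1.2
    have h6 : ∑ i, (p.2 i : ℕ) ≤ ∑ _i : Fin n, K :=
      Finset.sum_le_sum fun i _ => Nat.lt_succ_iff.1 (p.2 i).2
    rw [Finset.sum_const, Finset.card_univ, Fintype.card_fin, smul_eq_mul] at h6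
    have h7 : (n + 1) * K = n * K + K := by ring
    have h1 := SetLike.pow_mem_graded (p.1 : ℕ) hsD
    have h2 := SetLike.pow_mem_graded ((n + 1) * K - p.1 - ∑ i, (p.2 i : ℕ)) hgD
    have h3 : ∏ i, a i ^ (p.2 i : ℕ) ∈ 𝒜 (∑ i, (p.2 i : ℕ) • D) :=
      SetLike.prod_mem_graded 𝒜 (fun i => (p.2 i : ℕ) • D) (fun i => a i ^ (p.2 i : ℕ))
        (fun i _ => SetLike.pow_mem_graded _ (haD i))
    have h4 := SetLike.mul_mem_graded h1 (SetLike.mul_mem_graded h2 h3)
    have h5 : (p.1 : ℕ) • D + (((n + 1) * K - p.1 - ∑ i, (p.2 i : ℕ)) • D +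
        ∑ i, (p.2 i : ℕ) • D) = D * ((n + 1) * K) := by
      rw [← Finset.sum_smul, ← add_smul, ← add_smul, smul_eq_mul, mul_comm]
      congr 1
      omega
    rw [h5] at h4
    exact h4
  have := finite_graded h (D * ((n + 1) * K))
  have hlin2 : LinearIndependent ℂ (fun p : Fin (K + 1) × (Fin n → Fin (K + 1)) =>
      (⟨_, hmem p⟩ : 𝒜 (D * ((n + 1) * K)))) := by
    refine LinearIndependent.of_comp (𝒜 (D * ((n + 1) * K))).subtype ?_
    exact hlin
  have hcard := hlin2.fintype_card_le_finrank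
  rw [Fintype.card_prod, Fintype.card_pi_const, Fintype.card_fin, ← pow_succ'] at hcard
  have hK1 : 1 ≤ K := by omega
  have h8 := hC (D * ((n + 1) * K)) (Nat.mul_pos hD (Nat.mul_pos (Nat.succ_pos n) hK1))
  have h9 : (K + 1) ^ (n + 1) ≤ C * (D * ((n + 1) * K)) ^ n := le_trans hcard h8
  have h10 : C * (D * ((n + 1) * K)) ^ n = C * (D * (n + 1)) ^ n * K ^ n := by
    rw [← mul_assoc D, mul_pow (D * (n + 1)) K, mul_assoc]
  rw [h10] at h9
  have h11 : C * (D * (n + 1)) ^ n * K ^ n ≤ K * K ^ n :=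
    Nat.mul_le_mul_right _ (by omega)
  have h12 : K * K ^ n = K ^ (n + 1) := (pow_succ' K n).symm
  have h13 : K ^ (n + 1) < (K + 1) ^ (n + 1) := Nat.pow_lt_pow_left (Nat.lt_succ_self K) (by omega)
  omega

theorem DivisorOver.ord_ne_top (h : IsSmoothPolarised 𝒜 n) (hn : 1 ≤ n)
    (E : DivisorOver 𝒜 n 1) (m : ℕ) (s : R) (hs : s ∈ 𝒜 m) (hs0 : s ≠ 0) :
    E.ord (E.φ 0 s) ≠ ⊤ := by
  classical
  have := h.domain
  intro htop
  unfold DivisorOver.ord at htop
  rw [IsDiscreteValuationRing.addVal_eq_top_iff] at htop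
  -- the algebraically independent ratios
  set S : Set (FractionRing E.V) := {z | ∃ j m, ∃ s ∈ 𝒜 m, ∃ s' ∈ 𝒜 m,
    E.φ j s' ≠ 0 ∧ z = algebraMap E.V (FractionRing E.V) (E.φ j s) /
      algebraMap E.V (FractionRing E.V) (E.φ j s')} with hS
  have hinj : Function.Injective (algebraMap E.V (FractionRing E.V)) :=
    IsFractionRing.injective E.V (FractionRing E.V)
  have halg : Algebra.IsAlgebraic (Algebra.adjoin ℂ S) (FractionRing E.V) := by
    rw [← IntermediateField.isAlgebraic_adjoin_iff_top, E.generates]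
    infer_instance
  obtain ⟨t, htS, ht⟩ := exists_isTranscendenceBasis_subset (R := ℂ) S
  have htr : Cardinal.mk t = n := by
    rw [ht.cardinalMk_eq_trdeg]
    have : Algebra.IsAlgebraic E.V (FractionRing E.V) :=
      IsLocalization.isAlgebraic _ (nonZeroDivisors E.V)
    have h1 := trdeg_add_eq ℂ E.V (A := FractionRing E.V)
    rw [trdeg_eq_zero (R := E.V) (A := FractionRing E.V), add_zero, E.trdeg, mul_one] at h1
    exact h1.symm
  have hcard : Cardinal.mk (Fin n) = Cardinal.mk t := by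
    rw [htr, Cardinal.mk_fin]
  obtain ⟨e⟩ := Cardinal.eq.1 hcard
  have hind : AlgebraicIndependent ℂ (fun i : Fin n => ((e i : t) : FractionRing E.V)) :=
    ht.1.comp e e.injective
  have hex : ∀ i : Fin n, ∃ m, ∃ a ∈ 𝒜 m, ∃ b ∈ 𝒜 m, E.φ 0 b ≠ 0 ∧
      ((e i : t) : FractionRing E.V) = algebraMap E.V (FractionRing E.V) (E.φ 0 a) /
        algebraMap E.V (FractionRing E.V) (E.φ 0 b) := by
    intro i
    obtain ⟨j, m, a, ha, b, hb, h1, h2⟩ := htS (e i).2
    have hj : j = 0 := Subsingleton.elim _ _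
    subst hj
    exact ⟨m, a, ha, b, hb, h1, h2⟩
  choose M a ha b hb hb0 hab using hex
  obtain ⟨d, hd, f, hf, hfu⟩ := E.centre 0
  have hf0 : E.φ 0 f ≠ 0 := hfu.ne_zero
  -- common denominators
  set g1 : R := (∏ i, b i) * f with hg1
  set M1 : ℕ := ∑ i, M i + d with hM1
  have hg1m : g1 ∈ 𝒜 M1 :=
    SetLike.mul_mem_graded (SetLike.prod_mem_graded 𝒜 M b (fun i _ => hb i)) hf
  have hg10 : E.φ 0 g1 ≠ 0 := by
    rw [hg1, map_mul, map_prod]
    exact mul_ne_zero (Finset.prod_ne_zero_iff.2 fun i _ => hb0 i) hf0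
  set a1 : Fin n → R := fun i => (a i * ∏ l ∈ Finset.univ.erase i, b l) * f with ha1
  have ha1m : ∀ i, a1 i ∈ 𝒜 M1 := by
    intro i
    have h1 : ∏ l ∈ Finset.univ.erase i, b l ∈ 𝒜 (∑ l ∈ Finset.univ.erase i, M l) :=
      SetLike.prod_mem_graded 𝒜 M b (fun l _ => hb l)
    have h2 := SetLike.mul_mem_graded (SetLike.mul_mem_graded (ha i) h1) hf
    rw [Finset.add_sum_erase _ _ (Finset.mem_univ i)] at h2
    exact h2
  have hratio : ∀ i, E.φ 0 (a1 i) * E.φ 0 (b i) = E.φ 0 (a i) * E.φ 0 g1 := by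
    intro i
    rw [← map_mul, ← map_mul]
    congr 1
    rw [ha1, hg1, ← Finset.mul_prod_erase _ _ (Finset.mem_univ i)]
    ring
  have hM1pos : 0 < M1 := by omega
  -- the element of the kernel
  set s1 : R := s * f with hs1
  have hs1m : s1 ∈ 𝒜 (m + d) := SetLike.mul_mem_graded hs hf
  have hfR : f ≠ 0 := by
    intro h1
    rw [h1, map_zero] at hf0
    exact hf0 rfl
  have hs10 : s1 ≠ 0 := mul_ne_zero hs0 hfR
  have hs1k : E.φ 0 s1 = 0 := by rw [hs1, map_mul, htop, zero_mul]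
  have hmd : 0 < m + d := by omega
  let ψ : R →ₐ[ℂ] FractionRing E.V :=
    (IsScalarTower.toAlgHom ℂ E.V (FractionRing E.V)).comp (E.φ 0)
  have hψ : ∀ x, ψ x = algebraMap E.V (FractionRing E.V) (E.φ 0 x) := fun x => rfl
  refine OrdFacts_growth h ψ (D := M1 * (m + d)) (Nat.mul_pos hM1pos hmd)
    (s := s1 ^ M1) (g := g1 ^ (m + d)) (a := fun i => a1 i * g1 ^ (m + d - 1))
    ?_ ?_ ?_ (pow_ne_zero _ hs10) ?_ ?_ ?_
  · have h1 := SetLike.pow_mem_graded M1 hs1m
    rw [smul_eq_mul] at h1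
    exact h1
  · have h1 := SetLike.pow_mem_graded (m + d) hg1m
    rw [smul_eq_mul, mul_comm] at h1
    exact h1
  · intro i
    have h1 := SetLike.mul_mem_graded (ha1m i) (SetLike.pow_mem_graded (m + d - 1) hg1m)
    have h2 : M1 + (m + d - 1) • M1 = M1 * (m + d) := by
      rw [smul_eq_mul]
      obtain ⟨q, hq⟩ : ∃ q, m + d = q + 1 := ⟨m + d - 1, by omega⟩
      rw [hq, Nat.add_sub_cancel]
      ring
    rw [h2] at h1
    exact h1
  · rw [hψ, map_pow, hs1k, zero_pow hM1pos.ne', map_zero]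
  · rw [hψ, map_pow, map_pow]
    exact pow_ne_zero _ ((map_ne_zero_iff _ hinj).2 hg10)
  · have h1 : (fun i => ψ (a1 i * g1 ^ (m + d - 1)) / ψ (g1 ^ (m + d))) =
        fun i : Fin n => ((e i : t) : FractionRing E.V) := by
      funext i
      have hG : algebraMap E.V (FractionRing E.V) (E.φ 0 g1) ≠ 0 :=
        (map_ne_zero_iff _ hinj).2 hg10
      have hBi : algebraMap E.V (FractionRing E.V) (E.φ 0 (b i)) ≠ 0 :=
        (map_ne_zero_iff _ hinj).2 (hb0 i)
      have h2 : algebraMap E.V (FractionRing E.V) (E.φ 0 (a1 i)) *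
          algebraMap E.V (FractionRing E.V) (E.φ 0 (b i)) =
          algebraMap E.V (FractionRing E.V) (E.φ 0 (a i)) *
          algebraMap E.V (FractionRing E.V) (E.φ 0 g1) := by
        rw [← map_mul (algebraMap E.V (FractionRing E.V)),
          ← map_mul (algebraMap E.V (FractionRing E.V)), hratio i]
      obtain ⟨q, hq⟩ : ∃ q, m + d = q + 1 := ⟨m + d - 1, by omega⟩
      rw [hab i, hψ, hψ, hq, Nat.add_sub_cancel]
      simp only [map_mul, map_pow]
      rw [pow_succ, div_eq_div_iff (mul_ne_zero (pow_ne_zero _ hG) hG) hBi]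
      linear_combination (algebraMap E.V (FractionRing E.V) (E.φ 0 g1)) ^ q * h2
    rw [h1]
    exact hind

end Pool.Agent.Lib_GD

end

/-! ### from `Lib_GD.OkGeom` -/

section

/-! B07: the graded semigroup of leading exponents. -/

open scoped ENNReal

namespace Pool.Agent.Lib_GD

variable {R : Type} [CommRing R] [Algebra ℂ R] {𝒜 : ℕ → Submodule ℂ R} [GradedAlgebra 𝒜]
  {n : ℕ}

theorem okGeom_exists_pos (h : IsSmoothPolarised 𝒜 n) : ∃ d > 0, ∃ f ∈ 𝒜 d, f ≠ 0 := by
  classical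
  by_contra hcon
  push Not at hcon
  have hdim := h.dim
  have halg : Algebra.IsAlgebraic ℂ R := by
    refine ⟨fun r => ?_⟩
    have hr : r = ((DirectSum.decompose 𝒜 r) 0 : R) := by
      conv_lhs => rw [← DirectSum.sum_support_decompose 𝒜 r]
      by_cases h0 : (0 : ℕ) ∈ (DirectSum.decompose 𝒜 r).support
      · rw [Finset.sum_eq_single_of_mem 0 h0]
        intro d _ hd
        exact hcon d (Nat.pos_of_ne_zero hd) _ (SetLike.coe_mem _)
      · have h1 : ((DirectSum.decompose 𝒜 r) 0 : R) = 0 := by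
          rw [DFinsupp.notMem_support_iff] at h0
          rw [h0]; rfl
        rw [h1]
        refine Finset.sum_eq_zero fun d hd => ?_
        refine hcon d (Nat.pos_of_ne_zero ?_) _ (SetLike.coe_mem _)
        rintro rfl
        exact h0 hd
    have hm : r ∈ 𝒜 0 := by rw [hr]; exact SetLike.coe_mem _
    rw [h.connected] at hm
    obtain ⟨z, rfl⟩ := Algebra.mem_bot.1 ((Subalgebra.mem_toSubmodule _).1 hm)
    exact isAlgebraic_algebraMap z
  have h0 : Algebra.trdeg ℂ R = 0 := _root_.trdeg_eq_zero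
  rw [h0] at hdim
  have h2 : ((n : Cardinal) + 1) = ((n + 1 : ℕ) : Cardinal) := by simp
  rw [h2] at hdim
  have h3 : ((0 : ℕ) : Cardinal) = ((n + 1 : ℕ) : Cardinal) := by simpa using hdim
  rw [Nat.cast_inj] at h3
  omega

/-- Leading exponents. -/
def OkLead (c : Chart 𝒜 n) (x : c.B →ₐ[ℂ] ℂ) (s : R) (γ : DegLex (Fin n →₀ ℕ)) : Prop :=
  c.tay x (ofDegLex γ) (c.ρ s) ≠ 0 ∧ ∀ α < γ, c.tay x (ofDegLex α) (c.ρ s) = 0

theorem okLead_mul (c : Chart 𝒜 n) (x : c.B →ₐ[ℂ] ℂ) {s s' : R} {γ γ' : DegLex (Fin n →₀ ℕ)}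
    (h : OkLead c x s γ) (h' : OkLead c x s' γ') : OkLead c x (s * s') (γ + γ') := by
  classical
  constructor
  · rw [map_mul, c.tay_mul, Finset.sum_eq_single (ofDegLex γ, ofDegLex γ')]
    · exact mul_ne_zero h.1 h'.1
    · rintro ⟨p, q⟩ hpq hne
      have hpq' : p + q = ofDegLex γ + ofDegLex γ' := Finset.HasAntidiagonal.mem_antidiagonal.1 hpq
      have e : toDegLex p + toDegLex q = γ + γ' := hpq'
      rcases lt_trichotomy (toDegLex p) γ with hlt | heq | hgt
      · rw [show c.tay x p (c.ρ s) = 0 from h.2 _ hlt, zero_mul]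
      · exfalso
        apply hne
        have hq : toDegLex q = γ' := by
          rw [heq] at e
          exact add_left_cancel e
        exact Prod.ext heq hq
      · have hq : toDegLex q < γ' := by
          by_contra hcon
          push Not at hcon
          exact absurd e (ne_of_gt (add_lt_add_of_lt_of_le hgt hcon))
        rw [show c.tay x q (c.ρ s') = 0 from h'.2 _ hq, mul_zero]
    · intro hcon
      exfalso
      apply hcon
      rw [Finset.HasAntidiagonal.mem_antidiagonal, ofDegLex_add]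
  · intro α hα
    rw [map_mul, c.tay_mul]
    refine Finset.sum_eq_zero ?_
    rintro ⟨p, q⟩ hpq
    have hpq' : p + q = ofDegLex α := Finset.HasAntidiagonal.mem_antidiagonal.1 hpq
    have e : toDegLex p + toDegLex q = α := hpq'
    by_cases hlt : toDegLex p < γ
    · rw [show c.tay x p (c.ρ s) = 0 from h.2 _ hlt, zero_mul]
    · push Not at hlt
      have hq : toDegLex q < γ' := by
        by_contra hcon
        push Not at hcon
        exact absurd (e ▸ hα) (not_lt_of_ge (add_le_add hlt hcon))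
      rw [show c.tay x q (c.ρ s') = 0 from h'.2 _ hq, mul_zero]

/-- The functionals. -/
noncomputable def okFun (c : Chart 𝒜 n) (x : c.B →ₐ[ℂ] ℂ) (m : ℕ) (α : DegLex (Fin n →₀ ℕ)) :
    𝒜 m →ₗ[ℂ] ℂ where
  toFun s := c.tay x (ofDegLex α) (c.ρ s)
  map_add' s s' := by simp [Chart.tay, mul_add]
  map_smul' z s := by simp [Chart.tay, mul_left_comm]

theorem okFun_apply (c : Chart 𝒜 n) (x : c.B →ₐ[ℂ] ℂ) (m : ℕ) (α : DegLex (Fin n →₀ ℕ))
    (s : 𝒜 m) : okFun c x m α s = c.tay x (ofDegLex α) (c.ρ s) := rfl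

theorem okFun_inj (c : Chart 𝒜 n) (x : c.B →ₐ[ℂ] ℂ) (m : ℕ) (s : 𝒜 m)
    (hs : ∀ α, okFun c x m α s = 0) : s = 0 := by
  have h1 : c.ρ s = 0 := c.eq_zero_of_tay x _ fun α => hs (toDegLex α)
  exact Subtype.ext (c.inj m s s.2 h1)

/-- Separation of jets, in the form of prescribed jets. -/
theorem okGeom_prescribe {N : ℕ} {ι : Type} [Finite ι] (v : ι → Fin N → ℂ)
    (hv : LinearIndependent ℂ v) (i₀ : ι) [DecidableEq ι] :
    ∃ w : Fin N → ℂ, ∀ i, ∑ j, w j * v i j = if i = i₀ then 1 else 0 := by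
  have hinj : Function.Injective (Finsupp.linearCombination ℂ v) := hv
  obtain ⟨G, hG⟩ := LinearMap.exists_leftInverse_of_injective (Finsupp.linearCombination ℂ v)
    (LinearMap.ker_eq_bot.2 hinj)
  let F : (Fin N → ℂ) →ₗ[ℂ] ℂ := (Finsupp.lapply i₀).comp G
  refine ⟨fun j => F (fun k => if j = k then 1 else 0), fun i => ?_⟩
  have h1 : F (v i) = if i = i₀ then 1 else 0 := by
    have h2 : G (v i) = Finsupp.single i 1 := by
      have := congrFun (congrArg DFunLike.coe hG) (Finsupp.single i 1)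
      simpa using this
    change (G (v i)) i₀ = _
    rw [h2, Finsupp.single_apply]
  rw [← h1, LinearMap.pi_apply_eq_sum_univ F (v i)]
  refine Finset.sum_congr rfl fun j _ => ?_
  rw [smul_eq_mul, mul_comm]

theorem okGeom_simplex (h : IsSmoothPolarised 𝒜 n) (c : Chart 𝒜 n) (x : c.B →ₐ[ℂ] ℂ) :
    ∃ c₁ : ℝ, 0 < c₁ ∧ ∃ m₀ : ℕ, 1 ≤ m₀ ∧ ∀ m, m₀ ≤ m → ∀ γ : DegLex (Fin n →₀ ℕ),
      ((ofDegLex γ).degree : ℝ) ≤ c₁ * m → ∃ s ∈ 𝒜 m, OkLead c x s γ := by
  classical
  obtain ⟨c₀, hc₀, m₀, hsep⟩ := Chart.sep h c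
  refine ⟨c₀ / 2, half_pos hc₀, max m₀ (⌈2 / c₀⌉₊ + 1), by omega, ?_⟩
  intro m hm γ hγ
  have hm1 : m₀ ≤ m := le_trans (le_max_left _ _) hm
  have hm2 : 2 / c₀ ≤ m := by
    have h1 : ⌈2 / c₀⌉₊ ≤ m := by
      have := le_trans (le_max_right _ _) hm
      omega
    exact (Nat.le_ceil _).trans (by exact_mod_cast h1)
  have hm3 : 1 ≤ c₀ / 2 * m := by
    rw [div_le_iff₀ hc₀] at hm2
    nlinarith
  have hq : (((ofDegLex γ).degree + 1 : ℕ) : ℝ) ≤ c₀ * m := by
    push_cast
    linarith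
  have hli := hsep m hm1 ℂ x _ hq
  have : Finite {α : Fin n →₀ ℕ // α.degree < (ofDegLex γ).degree + 1} :=
    hli.finite_of_isNoetherian
  obtain ⟨w, hw⟩ := okGeom_prescribe _ hli ⟨ofDegLex γ, Nat.lt_succ_self _⟩
  have hsb := (secBasis_spec h m).1
  let s : R := ∑ i, w i • secBasis 𝒜 m i
  have hs : s ∈ 𝒜 m := Submodule.sum_mem _ fun i _ => Submodule.smul_mem _ _ (hsb i)
  have hval : ∀ α : Fin n →₀ ℕ, x (c.dd α (c.ρ s)) =
      ∑ i, w i * x (c.dd α (c.ρ (secBasis 𝒜 m i))) := by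
    intro α
    simp only [s, map_sum, map_smul, smul_eq_mul]
  refine ⟨s, hs, ?_, ?_⟩
  · have h1 := hw ⟨ofDegLex γ, Nat.lt_succ_self _⟩
    rw [if_pos rfl] at h1
    unfold Chart.tay
    rw [hval, h1, mul_one]
    exact (map_ne_zero_iff _ (algebraMap ℂ ℂ).injective).2 (inv_ne_zero (facG_ne_zero _))
  · intro α hα
    have hdeg : (ofDegLex α).degree < (ofDegLex γ).degree + 1 :=
      Nat.lt_succ_of_le (Finsupp.DegLex.monotone_degree hα.le)
    have h1 := hw ⟨ofDegLex α, hdeg⟩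
    rw [if_neg] at h1
    · unfold Chart.tay
      rw [hval, h1, mul_zero]
    · intro hcon
      have : ofDegLex α = ofDegLex γ := congrArg Subtype.val hcon
      exact absurd hα (by rw [show α = γ from this]; exact lt_irrefl _)

theorem okGeom_bdd (h : IsSmoothPolarised 𝒜 n) (hn : 1 ≤ n) (c : Chart 𝒜 n)
    (x : c.B →ₐ[ℂ] ℂ) :
    ∃ C : ℕ, ∀ m, ∀ s ∈ 𝒜 m, ∀ γ, OkLead c x s γ → (ofDegLex γ).degree ≤ C * m := by
  obtain ⟨C, hC⟩ := Chart.ord_le_C h hn c
  refine ⟨C, fun m s hs γ hγ => ?_⟩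
  rcases Nat.eq_zero_or_pos m with rfl | hm
  · rw [h.connected] at hs
    obtain ⟨z, rfl⟩ := Algebra.mem_bot.1 ((Subalgebra.mem_toSubmodule _).1 hs)
    have hz : z ≠ 0 := by
      rintro rfl
      apply hγ.1
      rw [map_zero, map_zero]
      simp [Chart.tay]
    by_contra hcon
    have h0 : (toDegLex (0 : Fin n →₀ ℕ)) < γ := by
      rw [Finsupp.DegLex.lt_iff]
      left
      simp only [ofDegLex_toDegLex, map_zero]
      omega
    have h1 := hγ.2 _ h0
    rw [AlgHom.commutes, Chart.tay, ofDegLex_toDegLex, c.dd_zero, AlgHom.commutes] at h1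
    simp at h1
    exact hz h1
  · have hs0 : s ≠ 0 := by
      rintro rfl
      apply hγ.1
      rw [map_zero]
      simp [Chart.tay]
    obtain ⟨α, hα, hα'⟩ := hC m hm x s hs hs0
    refine le_trans ?_ hα
    have hle : γ ≤ toDegLex α := by
      by_contra hcon
      push Not at hcon
      have h1 := hγ.2 _ hcon
      rw [Chart.tay, mul_eq_zero, map_eq_zero_iff _ (algebraMap ℂ ℂ).injective] at h1
      rcases h1 with h1 | h1
      · exact inv_ne_zero (facG_ne_zero _) h1
      · exact hα' h1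
    exact Finsupp.DegLex.monotone_degree hle

/-- The set of leading exponents and the weights, from B08. -/
theorem okGeom_leading (h : IsSmoothPolarised 𝒜 n) (c : Chart 𝒜 n) (x : c.B →ₐ[ℂ] ℂ) (m : ℕ)
    (f : 𝒜 m → ℕ∞) (U : ℕ → Submodule ℂ (𝒜 m)) (hU : ∀ k v, v ∈ U k ↔ (k : ℕ∞) ≤ f v)
    (hf : ∀ v, v ≠ 0 → f v ≠ ⊤) :
    ∃ (Γ : Finset (DegLex (Fin n →₀ ℕ))) (g : DegLex (Fin n →₀ ℕ) → ℕ),
      Γ.card = secDim 𝒜 m ∧
      (∀ γ, γ ∈ Γ ↔ ∃ s ∈ 𝒜 m, OkLead c x s γ) ∧
      (∀ γ ∈ Γ, ∃ s : 𝒜 m, OkLead c x s γ ∧ f s = g γ) ∧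
      (∀ γ, ∀ s : 𝒜 m, OkLead c x s γ → f s ≤ g γ) ∧
      (∀ k : ℕ, (Γ.filter fun γ => k ≤ g γ).card = Module.finrank ℂ (U k)) ∧
      ∀ b : Fin (secDim 𝒜 m) → 𝒜 m, LinearIndependent ℂ b →
        ∑ i, (f (b i)).toNat ≤ ∑ γ ∈ Γ, g γ := by
  have := finite_graded h m
  obtain ⟨Γ, g, h1, h2, h3, h4, h5, h6⟩ := exists_leading (V := 𝒜 m) (okFun c x m)
    (okFun_inj c x m) f U hU hf
  refine ⟨Γ, g, h1, ?_, ?_, ?_, h5, h6⟩
  · intro γ
    rw [h2]
    constructor
    · rintro ⟨v, hv, hv'⟩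
      exact ⟨v, v.2, hv, hv'⟩
    · rintro ⟨s, hs, hv, hv'⟩
      exact ⟨⟨s, hs⟩, hv, hv'⟩
  · intro γ hγ
    obtain ⟨v, hv, hv', hv''⟩ := h3 γ hγ
    exact ⟨v, ⟨hv, hv'⟩, hv''⟩
  · intro γ s hs
    exact h4 γ s hs.1 hs.2

/-- Exponents as functions. -/
noncomputable def okEmb : DegLex (Fin n →₀ ℕ) ≃ (Fin n → ℕ) := ofDegLex.trans Finsupp.equivFunOnFinite

theorem okEmb_add (γ γ' : DegLex (Fin n →₀ ℕ)) : okEmb (γ + γ') = okEmb γ + okEmb γ' := rfl

theorem okEmb_sum (γ : DegLex (Fin n →₀ ℕ)) : ∑ i, okEmb γ i = (ofDegLex γ).degree := by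
  rw [Finsupp.degree_eq_sum]
  rfl

/-- B07: the leading exponents (for the order: total degree, then lexicographic) of the sections
at a `ℂ`-point form data as in `OkData`, the same for all divisors; every divisor over `X` gives a
superadditive weight computing its filtration. -/
theorem exists_okData (h : IsSmoothPolarised 𝒜 n) (hn : 1 ≤ n) :
    ∃ D : OkData n, (∀ m, 1 ≤ m → (D.Γ m).card = secDim 𝒜 m) ∧
      ∀ E : DivisorOver 𝒜 n 1, ∃ g : ℕ → (Fin n → ℕ) → ℕ, D.IsWeight g ∧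
        (∀ m, 1 ≤ m → ∀ r : ℝ, D.cnt g m r = Module.finrank ℂ (E.filt 𝒜 m r)) ∧
        ∀ m, 1 ≤ m → ∀ b : Fin (secDim 𝒜 m) → R, (∀ i, b i ∈ 𝒜 m) → LinearIndependent ℂ b →
          ∑ i, (E.ord (E.φ 0 (b i))).toNat ≤ ∑ γ ∈ D.Γ m, g m γ := by
  classical
  -- a chart and a point
  have := h.domain
  obtain ⟨d, hd, f, hf, hf0⟩ := okGeom_exists_pos h
  obtain ⟨c, -, -⟩ := exists_chart h hn ⊥ Ideal.isPrime_bot ⟨d, hd, f, hf, by simpa using hf0⟩
  obtain ⟨x⟩ := c.exists_C_point
  -- the sets of leading exponents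
  have hΓ : ∀ m, ∃ Γ : Finset (DegLex (Fin n →₀ ℕ)), Γ.card = secDim 𝒜 m ∧
      ∀ γ, γ ∈ Γ ↔ ∃ s ∈ 𝒜 m, OkLead c x s γ := by
    intro m
    obtain ⟨Γ, g, h1, h2, -⟩ := okGeom_leading h c x m (fun v => if v = 0 then ⊤ else 0)
      (fun k => if k = 0 then ⊤ else ⊥) (by
        intro k v
        by_cases hk : k = 0
        · simp [hk]
        · by_cases hv : v = 0
          · simp [hk, hv]
          · simp [hk, hv]) (by intro v hv; simp [hv])
    exact ⟨Γ, h1, h2⟩
  choose Γ hΓcard hΓmem using hΓ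
  obtain ⟨C, hC⟩ := okGeom_bdd h hn c x
  obtain ⟨c₁, hc₁, m₀, hm₀, hsimp⟩ := okGeom_simplex h c x
  have hmem : ∀ m γ, okEmb γ ∈ (Γ m).map okEmb.toEmbedding ↔ γ ∈ Γ m := by
    intro m γ
    rw [Finset.mem_map_equiv, Equiv.symm_apply_apply]
  have hadd : ∀ m m' γ γ', γ ∈ (Γ m).map okEmb.toEmbedding →
      γ' ∈ (Γ m').map okEmb.toEmbedding → γ + γ' ∈ (Γ (m + m')).map okEmb.toEmbedding := by
    intro m m' γ γ' hγ hγ'
    obtain ⟨γ, rfl⟩ := okEmb.surjective γ
    obtain ⟨γ', rfl⟩ := okEmb.surjective γ'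
    rw [← okEmb_add]
    rw [hmem, hΓmem] at hγ hγ' ⊢
    obtain ⟨s, hs, hl⟩ := hγ
    obtain ⟨s', hs', hl'⟩ := hγ'
    exact ⟨s * s', SetLike.mul_mem_graded hs hs', okLead_mul c x hl hl'⟩
  have hbdd : ∀ m, ∀ γ ∈ (Γ m).map okEmb.toEmbedding, ∑ i, γ i ≤ C * m := by
    intro m γ hγ
    obtain ⟨γ, rfl⟩ := okEmb.surjective γ
    rw [hmem, hΓmem] at hγ
    obtain ⟨s, hs, hl⟩ := hγ
    rw [okEmb_sum]
    exact hC m s hs γ hl
  have hsim : ∀ m, m₀ ≤ m → ∀ γ : Fin n → ℕ, ((∑ i, γ i : ℕ) : ℝ) ≤ c₁ * m →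
      γ ∈ (Γ m).map okEmb.toEmbedding := by
    intro m hm γ hγ
    obtain ⟨γ, rfl⟩ := okEmb.surjective γ
    rw [hmem, hΓmem]
    rw [okEmb_sum] at hγ
    exact hsimp m hm γ hγ
  let D : OkData n := ⟨fun m => (Γ m).map okEmb.toEmbedding, hadd, C, hbdd, c₁, hc₁, m₀, hm₀,
    hsim⟩
  refine ⟨D, fun m _ => by rw [Finset.card_map, hΓcard], fun E => ?_⟩
  -- the weights
  have hord : ∀ (k : ℕ) (s : R), ENNReal.ofReal k ≤ (E.ord (E.φ 0 s) : ℝ≥0∞) ↔
      (k : ℕ∞) ≤ E.ord (E.φ 0 s) := by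
    intro k s
    rw [ENNReal.ofReal_natCast]
    rw [← ENat.toENNReal_coe, ENat.toENNReal_le]
  have hg : ∀ m, ∃ g : DegLex (Fin n →₀ ℕ) → ℕ,
      (∀ γ ∈ Γ m, ∃ s : 𝒜 m, OkLead c x s γ ∧ E.ord (E.φ 0 s) = g γ) ∧
      (∀ γ, ∀ s : 𝒜 m, OkLead c x s γ → E.ord (E.φ 0 s) ≤ g γ) ∧
      (∀ k : ℕ, ((Γ m).filter fun γ => k ≤ g γ).card =
        Module.finrank ℂ ((E.filt 𝒜 m k).comap (𝒜 m).subtype)) ∧
      ∀ b : Fin (secDim 𝒜 m) → 𝒜 m, LinearIndependent ℂ b →
        ∑ i, (E.ord (E.φ 0 (b i))).toNat ≤ ∑ γ ∈ Γ m, g γ := by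
    intro m
    obtain ⟨Γ', g, h1, h2, h3⟩ := okGeom_leading h c x m (fun v => E.ord (E.φ 0 v))
      (fun k => (E.filt 𝒜 m k).comap (𝒜 m).subtype) (by
        intro k v
        rw [Submodule.mem_comap]
        constructor
        · intro hv
          exact (hord k v).1 hv.2
        · intro hv
          exact ⟨v.2, (hord k v).2 hv⟩) (by
        intro v hv
        exact E.ord_ne_top h hn m v v.2 (by simpa using hv))
    have : Γ' = Γ m := by
      ext γ
      rw [h2, hΓmem]
    subst this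
    exact ⟨g, h3⟩
  choose g hg1 hg2 hg3 hg4 using hg
  refine ⟨fun m γ => g m (okEmb.symm γ), ?_, ?_, ?_⟩
  · intro m m' γ γ' hγ hγ'
    obtain ⟨γ, rfl⟩ := okEmb.surjective γ
    obtain ⟨γ', rfl⟩ := okEmb.surjective γ'
    rw [← okEmb_add]
    change g m (okEmb.symm (okEmb γ)) + g m' (okEmb.symm (okEmb γ')) ≤
      g (m + m') (okEmb.symm (okEmb (γ + γ')))
    rw [Equiv.symm_apply_apply, Equiv.symm_apply_apply, Equiv.symm_apply_apply]
    have hγ1 : γ ∈ Γ m := by
      have := hγ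
      simpa only [D, Finset.mem_map_equiv, Equiv.symm_apply_apply] using this
    have hγ2 : γ' ∈ Γ m' := by
      have := hγ'
      simpa only [D, Finset.mem_map_equiv, Equiv.symm_apply_apply] using this
    obtain ⟨s, hs, hs'⟩ := hg1 m γ hγ1
    obtain ⟨t, ht, ht'⟩ := hg1 m' γ' hγ2
    have h1 := hg2 (m + m') (γ + γ') ⟨s * t, SetLike.mul_mem_graded s.2 t.2⟩
      (okLead_mul c x hs ht)
    rw [DivisorOver.ord_mul_section, hs', ht'] at h1
    exact_mod_cast h1
  · intro m _ r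
    have h1 : D.cnt (fun m γ => g m (okEmb.symm γ)) m r =
        ((Γ m).filter fun γ => ⌈r⌉₊ ≤ g m γ).card := by
      unfold OkData.cnt
      rw [← Finset.card_map okEmb.toEmbedding]
      congr 1
      ext γ
      obtain ⟨γ, rfl⟩ := okEmb.surjective γ
      rw [Finset.mem_map_equiv, Finset.mem_filter, Finset.mem_filter, Equiv.symm_apply_apply,
        Finset.mem_map_equiv, Equiv.symm_apply_apply, Nat.ceil_le]
      change (γ ∈ Γ m ∧ r ≤ ((g m (okEmb.symm (okEmb γ)) : ℕ) : ℝ)) ↔ _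
      rw [Equiv.symm_apply_apply]
    rw [h1, hg3]
    have h2 : E.filt 𝒜 m (⌈r⌉₊ : ℝ) = E.filt 𝒜 m r := by
      ext s
      change (s ∈ 𝒜 m ∧ _) ↔ (s ∈ 𝒜 m ∧ _)
      refine and_congr_right fun _ => ?_
      rw [hord]
      generalize E.ord (E.φ 0 s) = o
      induction o using ENat.recTopCoe with
      | top => simp
      | coe o =>
        rw [Nat.cast_le, Nat.ceil_le, ENat.toENNReal_coe, ENNReal.ofReal_le_natCast]
    rw [h2]
    have hle : E.filt 𝒜 m r ≤ 𝒜 m := fun s hs => hs.1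
    exact LinearEquiv.finrank_eq (Submodule.comapSubtypeEquivOfLe hle)
  · intro m _ b hb hbi
    have h1 := hg4 m (fun i => ⟨b i, hb i⟩) (by
      refine LinearIndependent.of_comp (𝒜 m).subtype ?_
      exact hbi)
    refine h1.trans (le_of_eq ?_)
    change _ = ∑ γ ∈ (Γ m).map okEmb.toEmbedding, g m (okEmb.symm γ)
    rw [Finset.sum_map]
    refine Finset.sum_congr rfl fun γ _ => ?_
    rw [Equiv.coe_toEmbedding, Equiv.symm_apply_apply]

end Pool.Agent.Lib_GD

end

/-! ### from `Lib_KF.SHHom` -/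

section

/-!
# SH2: traces and norms of homogeneous elements are homogeneous
-/

open scoped ENNReal NNReal

namespace Pool.Agent.Lib_KF

open Pool.Agent.Lib_GD

/-! ### The scaling automorphisms -/

private theorem SHHom_ext {S : Type} [CommRing S] [Algebra ℂ S] {𝒜 : ℕ → Submodule ℂ S}
    [GradedAlgebra 𝒜] (f g : S →ₐ[ℂ] S) (h : ∀ j, ∀ a ∈ 𝒜 j, f a = g a) : f = g := by
  classical
  ext a
  rw [← DirectSum.sum_support_decompose 𝒜 a, map_sum, map_sum]
  exact Finset.sum_congr rfl fun j _ => h j _ (SetLike.coe_mem _)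

private theorem SHHom_exists_rot {S : Type} [CommRing S] [Algebra ℂ S]
    (𝒜 : ℕ → Submodule ℂ S) [GradedAlgebra 𝒜] (z : ℂ) :
    ∃ μ : S →ₐ[ℂ] S, ∀ j, ∀ a ∈ 𝒜 j, μ a = z ^ j • a := by
  classical
  have hone : (fun j => (z ^ j • (𝒜 j).subtype : 𝒜 j →ₗ[ℂ] S)) 0
      (GradedMonoid.GOne.one (A := fun i => 𝒜 i)) = 1 := by
    change z ^ 0 • (1 : S) = 1
    rw [pow_zero, one_smul]
  have hmul : ∀ {i j : ℕ} (a : 𝒜 i) (b : 𝒜 j),
      (fun j => (z ^ j • (𝒜 j).subtype : 𝒜 j →ₗ[ℂ] S)) (i + j)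
        (GradedMonoid.GMul.mul (A := fun i => 𝒜 i) a b) =
      (fun j => (z ^ j • (𝒜 j).subtype : 𝒜 j →ₗ[ℂ] S)) i a *
      (fun j => (z ^ j • (𝒜 j).subtype : 𝒜 j →ₗ[ℂ] S)) j b := by
    intro i j a b
    change z ^ (i + j) • ((a : S) * (b : S)) = (z ^ i • (a : S)) * (z ^ j • (b : S))
    rw [smul_mul_smul_comm, pow_add]
  refine ⟨(DirectSum.toAlgebra ℂ (fun i => 𝒜 i)
      (fun j => z ^ j • (𝒜 j).subtype) hone @hmul).comp
        (DirectSum.decomposeAlgEquiv 𝒜).toAlgHom, fun j a ha => ?_⟩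
  have h1 : (DirectSum.decomposeAlgEquiv 𝒜) a = DirectSum.of (fun i => 𝒜 i) j ⟨a, ha⟩ :=
    DirectSum.decompose_of_mem 𝒜 ha
  change (DirectSum.toAlgebra ℂ (fun i => 𝒜 i)
      (fun j => z ^ j • (𝒜 j).subtype) hone @hmul)
        ((DirectSum.decomposeAlgEquiv 𝒜) a) = _
  rw [h1]
  exact DirectSum.toSemiring_of
    (fun j => (z ^ j • (𝒜 j).subtype : 𝒜 j →ₗ[ℂ] S).toAddMonoidHom)
    hone @hmul j ⟨a, ha⟩

private theorem SHHom_exists_equiv {S : Type} [CommRing S] [Algebra ℂ S]
    (𝒜 : ℕ → Submodule ℂ S) [GradedAlgebra 𝒜] (z : ℂ) (hz : z ≠ 0) :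
    ∃ σ : S ≃ₐ[ℂ] S, ∀ j, ∀ a ∈ 𝒜 j, σ a = z ^ j • a := by
  obtain ⟨f, hf⟩ := SHHom_exists_rot 𝒜 z
  obtain ⟨g, hg⟩ := SHHom_exists_rot 𝒜 z⁻¹
  refine ⟨AlgEquiv.ofAlgHom f g ?_ ?_, hf⟩
  · refine SHHom_ext (𝒜 := 𝒜) _ _ fun j a ha => ?_
    change f (g a) = a
    rw [hg j a ha, map_smul, hf j a ha, smul_smul, ← mul_pow, inv_mul_cancel₀ hz, one_pow,
      one_smul]
  · refine SHHom_ext (𝒜 := 𝒜) _ _ fun j a ha => ?_
    change g (f a) = a
    rw [hf j a ha, map_smul, hg j a ha, smul_smul, ← mul_pow, mul_inv_cancel₀ hz, one_pow,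
      one_smul]

/-- scaling of the variables -/
private noncomputable def SHHom_tau (n : ℕ) (c : ℂ) (hc : c ≠ 0) : PA n ≃ₐ[ℂ] PA n :=
  AlgEquiv.ofAlgHom
    (MvPolynomial.aeval fun b => MvPolynomial.C c * MvPolynomial.X b)
    (MvPolynomial.aeval fun b => MvPolynomial.C c⁻¹ * MvPolynomial.X b)
    (by
      ext b : 1
      simp only [AlgHom.coe_comp, Function.comp_apply, MvPolynomial.aeval_X, map_mul,
        MvPolynomial.algHom_C, MvPolynomial.algebraMap_eq, AlgHom.coe_id, id]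
      rw [← mul_assoc, ← map_mul, inv_mul_cancel₀ hc, map_one, one_mul])
    (by
      ext b : 1
      simp only [AlgHom.coe_comp, Function.comp_apply, MvPolynomial.aeval_X, map_mul,
        MvPolynomial.algHom_C, MvPolynomial.algebraMap_eq, AlgHom.coe_id, id]
      rw [← mul_assoc, ← map_mul, mul_inv_cancel₀ hc, map_one, one_mul])

private theorem SHHom_tau_eval (n : ℕ) (c : ℂ) (hc : c ≠ 0) (p : PA n) (y : Fin (n + 1) → ℂ) :
    MvPolynomial.eval y (SHHom_tau n c hc p) = MvPolynomial.eval (c • y) p := by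
  have h : ((MvPolynomial.aeval y).comp (SHHom_tau n c hc).toAlgHom : PA n →ₐ[ℂ] ℂ) =
      MvPolynomial.aeval (c • y) := by
    ext b
    change MvPolynomial.aeval y (MvPolynomial.aeval (fun b => MvPolynomial.C c * MvPolynomial.X b)
      (MvPolynomial.X b)) = _
    simp
  exact DFunLike.congr_fun h p

variable {R : Type} [CommRing R] [IsDomain R] [IsIntegrallyClosed R] [Algebra ℂ R] {n : ℕ}
  [Algebra (PA n) R] [IsScalarTower ℂ (PA n) R] [Module.Finite (PA n) R]
  [Module.IsTorsionFree (PA n) R]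

section

set_option linter.unusedSectionVars false

attribute [local instance] FractionRing.liftAlgebra

private theorem SHHom_frac (τ : PA n ≃+* PA n) (σ : R ≃+* R)
    (hc : ∀ a, algebraMap (PA n) R (τ a) = σ (algebraMap (PA n) R a)) :
    RingHom.comp (algebraMap (FractionRing (PA n)) (FractionRing R))
      ((IsFractionRing.ringEquivOfRingEquiv τ :
        FractionRing (PA n) ≃+* FractionRing (PA n)) : FractionRing (PA n) →+* _) =
      RingHom.comp ((IsFractionRing.ringEquivOfRingEquiv σ :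
        FractionRing R ≃+* FractionRing R) : FractionRing R →+* _)
        (algebraMap (FractionRing (PA n)) (FractionRing R)) := by
  refine IsLocalization.ringHom_ext (nonZeroDivisors (PA n)) ?_
  refine RingHom.ext fun a => ?_
  simp only [RingHom.coe_comp, Function.comp_apply, RingHom.coe_coe,
    IsFractionRing.ringEquivOfRingEquiv_algebraMap, ← IsScalarTower.algebraMap_apply]
  rw [IsScalarTower.algebraMap_apply (PA n) R (FractionRing R), hc,
    IsScalarTower.algebraMap_apply (PA n) R (FractionRing R),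
    IsFractionRing.ringEquivOfRingEquiv_algebraMap]

private theorem SHHom_trace (τ : PA n ≃+* PA n) (σ : R ≃+* R)
    (hc : ∀ a, algebraMap (PA n) R (τ a) = σ (algebraMap (PA n) R a)) (f : R) :
    Algebra.intTrace (PA n) R (σ f) = τ (Algebra.intTrace (PA n) R f) := by
  apply IsFractionRing.injective (PA n) (FractionRing (PA n))
  have h1 := Algebra.trace_eq_of_equiv_equiv _ _ (SHHom_frac τ σ hc)
    (algebraMap R (FractionRing R) f)
  rw [IsFractionRing.ringEquivOfRingEquiv_algebraMap,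
    ← Algebra.algebraMap_intTrace_fractionRing, ← Algebra.algebraMap_intTrace_fractionRing,
    RingEquiv.eq_symm_apply, IsFractionRing.ringEquivOfRingEquiv_algebraMap] at h1
  exact h1.symm

private theorem SHHom_norm (τ : PA n ≃+* PA n) (σ : R ≃+* R)
    (hc : ∀ a, algebraMap (PA n) R (τ a) = σ (algebraMap (PA n) R a)) (f : R) :
    Algebra.intNorm (PA n) R (σ f) = τ (Algebra.intNorm (PA n) R f) := by
  apply IsFractionRing.injective (PA n) (FractionRing (PA n))
  have h1 := Algebra.norm_eq_of_equiv_equiv _ _ (SHHom_frac τ σ hc)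
    (algebraMap R (FractionRing R) f)
  rw [IsFractionRing.ringEquivOfRingEquiv_algebraMap,
    ← Algebra.algebraMap_intNorm_fractionRing, ← Algebra.algebraMap_intNorm_fractionRing,
    RingEquiv.eq_symm_apply, IsFractionRing.ringEquivOfRingEquiv_algebraMap] at h1
  exact h1.symm

private theorem SHHom_norm_map (a : PA n) :
    Algebra.intNorm (PA n) R (algebraMap (PA n) R a) =
      a ^ Module.finrank (FractionRing (PA n)) (FractionRing R) := by
  have : Module.Free (FractionRing (PA n)) (FractionRing R) := Module.Free.of_divisionRing _ _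
  apply IsFractionRing.injective (PA n) (FractionRing (PA n))
  rw [Algebra.algebraMap_intNorm_fractionRing, ← IsScalarTower.algebraMap_apply,
    IsScalarTower.algebraMap_apply (PA n) (FractionRing (PA n)) (FractionRing R),
    Algebra.norm_algebraMap, map_pow]

private theorem SHHom_norm_ne {f : R} (hf : f ≠ 0) : Algebra.intNorm (PA n) R f ≠ 0 := by
  have : FiniteDimensional (FractionRing (PA n)) (FractionRing R) :=
    .of_isLocalization (PA n) R (nonZeroDivisors (PA n))
  exact Algebra.intNorm_ne_zero.2 hf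

end

private theorem SHHom_compat {𝒜 : ℕ → Submodule ℂ R} [GradedAlgebra 𝒜] {d : ℕ}
    (hx : ∀ b, xx R n b ∈ 𝒜 d) (t : ℂ) (ht : t ≠ 0) (σ : R ≃ₐ[ℂ] R)
    (hσ : ∀ j, ∀ a ∈ 𝒜 j, σ a = t ^ j • a) (a : PA n) :
    algebraMap (PA n) R (SHHom_tau n (t ^ d) (pow_ne_zero d ht) a) =
      σ (algebraMap (PA n) R a) := by
  have h : (IsScalarTower.toAlgHom ℂ (PA n) R).comp
      (SHHom_tau n (t ^ d) (pow_ne_zero d ht)).toAlgHom =
      σ.toAlgHom.comp (IsScalarTower.toAlgHom ℂ (PA n) R) := by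
    ext b
    change algebraMap (PA n) R (MvPolynomial.aeval
      (fun b => MvPolynomial.C (t ^ d) * MvPolynomial.X b) (MvPolynomial.X b)) =
      σ (algebraMap (PA n) R (MvPolynomial.X b))
    rw [MvPolynomial.aeval_X]
    have h1 := hσ d _ (hx b)
    unfold xx at h1
    rw [h1, ← MvPolynomial.smul_eq_C_mul]
    exact map_smul (IsScalarTower.toAlgHom ℂ (PA n) R) (t ^ d) (MvPolynomial.X b)
  exact DFunLike.congr_fun h a

/-- The ring automorphisms `σ_t` of `R` (multiplication by `t ^ j` on `𝒜 j`) and `τ_t` of `ℂ[x]`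
(`x_b ↦ t ^ d x_b`) are compatible; extend them to the fraction fields and use
`Algebra.trace_eq_of_equiv_equiv`. `σ_t f = t ^ j f` and the trace is `ℂ`-linear. -/
theorem sh_trace_hom {𝒜 : ℕ → Submodule ℂ R} [GradedAlgebra 𝒜] {d : ℕ}
    (hx : ∀ b, xx R n b ∈ 𝒜 d) {j : ℕ} {f : R} (hf : f ∈ 𝒜 j) (t : ℂ) (ht : t ≠ 0)
    (y : Fin (n + 1) → ℂ) :
    MvPolynomial.eval (t ^ d • y) (Algebra.intTrace (PA n) R f) =
      t ^ j * MvPolynomial.eval y (Algebra.intTrace (PA n) R f) := by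
  obtain ⟨σ, hσ⟩ := SHHom_exists_equiv 𝒜 t ht
  have h1 := SHHom_trace (SHHom_tau n (t ^ d) (pow_ne_zero d ht)).toRingEquiv σ.toRingEquiv
    (SHHom_compat hx t ht σ hσ) f
  change Algebra.intTrace (PA n) R (σ f) =
    SHHom_tau n (t ^ d) (pow_ne_zero d ht) (Algebra.intTrace (PA n) R f) at h1
  rw [← SHHom_tau_eval n (t ^ d) (pow_ne_zero d ht), ← h1, hσ j f hf,
    ← algebraMap_smul (PA n) (t ^ j) f, map_smul, smul_eq_mul, map_mul,
    MvPolynomial.algebraMap_eq, MvPolynomial.eval_C]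

/-- The same for the norm (`Algebra.norm_eq_of_equiv_equiv`); `e = j [K : K₀]`. -/
theorem sh_norm_hom {𝒜 : ℕ → Submodule ℂ R} [GradedAlgebra 𝒜] {d : ℕ}
    (hx : ∀ b, xx R n b ∈ 𝒜 d) {j : ℕ} {f : R} (hf : f ∈ 𝒜 j) :
    ∃ e : ℕ, ∀ t : ℂ, t ≠ 0 → ∀ y : Fin (n + 1) → ℂ,
      MvPolynomial.eval (t ^ d • y) (Algebra.intNorm (PA n) R f) =
        t ^ e * MvPolynomial.eval y (Algebra.intNorm (PA n) R f) := by
  obtain ⟨N, hN⟩ : ∃ N : ℕ, ∀ a : PA n,
      Algebra.intNorm (PA n) R (algebraMap (PA n) R a) = a ^ N := ⟨_, SHHom_norm_map⟩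
  refine ⟨j * N, fun t ht y => ?_⟩
  obtain ⟨σ, hσ⟩ := SHHom_exists_equiv 𝒜 t ht
  have h1 := SHHom_norm (SHHom_tau n (t ^ d) (pow_ne_zero d ht)).toRingEquiv σ.toRingEquiv
    (SHHom_compat hx t ht σ hσ) f
  change Algebra.intNorm (PA n) R (σ f) =
    SHHom_tau n (t ^ d) (pow_ne_zero d ht) (Algebra.intNorm (PA n) R f) at h1
  rw [← SHHom_tau_eval n (t ^ d) (pow_ne_zero d ht), ← h1, hσ j f hf,
    ← algebraMap_smul (PA n) (t ^ j) f, Algebra.smul_def, map_mul, hN, map_mul, map_pow,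
    MvPolynomial.algebraMap_eq, MvPolynomial.eval_C, pow_mul]

/-- the norm of a non-zero element is not zero -/
theorem sh_norm_ne {f : R} (hf : f ≠ 0) : Algebra.intNorm (PA n) R f ≠ 0 :=
  SHHom_norm_ne hf

end Pool.Agent.Lib_KF

end

/-! ### from `Lib_KF.KCHom` -/

section

/-!
# KC07: circle equivariant holomorphic functions on the polydisc are polynomials
-/

open MeasureTheory
open scoped ENNReal NNReal

namespace Pool.Agent.Lib_KF

/-- homogeneity on the polydisc -/
private theorem kcHom_disc {N : ℕ} {g : (Fin N → ℂ) → ℂ}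
    (hg : DifferentiableOn ℂ g (Metric.ball 0 1)) {d w : ℕ} (hd : 1 ≤ d)
    (hinv : ∀ θ : ℝ, ∀ y ∈ Metric.ball (0 : Fin N → ℂ) 1,
      g (Complex.exp (d * θ * Complex.I) • y) = Complex.exp ((d * w : ℕ) * θ * Complex.I) * g y)
    {y : Fin N → ℂ} (hy : y ∈ Metric.ball (0 : Fin N → ℂ) 1) {t : ℂ} (ht : ‖t‖ ≤ 1) :
    g (t • y) = t ^ w * g y := by
  have hy1 : ‖y‖ < 1 := by simpa using hy
  have hmap : ∀ t : ℂ, ‖t‖ ≤ 1 → t • y ∈ Metric.ball (0 : Fin N → ℂ) 1 := by
    intro t ht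
    rw [mem_ball_zero_iff, norm_smul]
    exact lt_of_le_of_lt (mul_le_of_le_one_left (norm_nonneg y) ht) hy1
  have hcl : closure (Metric.ball (0 : ℂ) 1) = Metric.closedBall 0 1 :=
    closure_ball _ one_ne_zero
  have hf : DiffContOnCl ℂ (fun t : ℂ => g (t • y)) (Metric.ball 0 1) := by
    constructor
    · exact hg.comp (by fun_prop) fun t ht => hmap t (by simpa using (mem_ball_zero_iff.1 ht).le)
    · rw [hcl]
      exact hg.continuousOn.comp (by fun_prop) fun t ht => hmap t (by simpa using ht)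
  have hf2 : DiffContOnCl ℂ (fun t : ℂ => t ^ w * g y) (Metric.ball 0 1) :=
    (by fun_prop : Differentiable ℂ fun t : ℂ => t ^ w * g y).diffContOnCl
  have heq : Set.EqOn (fun t : ℂ => g (t • y)) (fun t : ℂ => t ^ w * g y)
      (frontier (Metric.ball 0 1)) := by
    intro t ht
    rw [frontier_ball _ one_ne_zero, mem_sphere_zero_iff_norm] at ht
    have hd0 : (d : ℂ) ≠ 0 := by
      rw [Nat.cast_ne_zero]
      omega
    have h1 := hinv (t.arg / d) y hy
    have h2 : (d : ℂ) * ((t.arg / d : ℝ) : ℂ) * Complex.I = t.arg * Complex.I := by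
      push_cast
      field_simp
    have h3 : ((d * w : ℕ) : ℂ) * ((t.arg / d : ℝ) : ℂ) * Complex.I =
        w * (t.arg * Complex.I) := by
      push_cast
      field_simp
    have h4 : Complex.exp (t.arg * Complex.I) = t := by
      have h5 := Complex.norm_mul_exp_arg_mul_I t
      rw [ht] at h5
      simpa using h5
    rw [h2, h3, Complex.exp_nat_mul, h4] at h1
    exact h1
  have hmem : t ∈ closure (Metric.ball (0 : ℂ) 1) := by
    rw [hcl]
    simpa using ht
  exact Complex.eqOn_closure_of_eqOn_frontier Metric.isBounded_ball hf hf2 heq hmem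

/-- Proof: for `y` in the polydisc `φ (t) = g (t y)` is holomorphic on `|t| < 1 / ‖y‖` and
`φ (e^{i d θ} t) = e^{i j θ} φ (t)`, so only the Taylor coefficient of degree `w`, `d w = j`,
can be non-zero: `g (t y) = t ^ w g y` (`g = 0` if `d` does not divide `j`). So `g` extends to the
entire function `G y = t ^ (- w) g (t y)` (`t` small, e.g. `t = 1 / (1 + ‖y‖) / 2`), bounded by
`C (1 + ‖y‖) ^ w`; apply `kc_poly_growth` and `kc_homog_of_equivariant`. -/
theorem kc_poly {N : ℕ} {g : (Fin N → ℂ) → ℂ}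
    (hg : DifferentiableOn ℂ g (Metric.ball 0 1)) {d j : ℕ} (hd : 1 ≤ d)
    (hinv : ∀ θ : ℝ, ∀ y ∈ Metric.ball (0 : Fin N → ℂ) 1,
      g (Complex.exp (d * θ * Complex.I) • y) = Complex.exp (j * θ * Complex.I) * g y) :
    ∃ p : MvPolynomial (Fin N) ℂ, (∀ y ∈ Metric.ball (0 : Fin N → ℂ) 1,
      g y = MvPolynomial.eval y p) ∧ (p = 0 ∨ ∃ w, d * w = j ∧ p.IsHomogeneous w) := by
  have hd0 : (d : ℂ) ≠ 0 := by
    rw [Nat.cast_ne_zero]
    omega
  by_cases hdj : d ∣ j
  swap
  · -- `g = 0`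
    refine ⟨0, fun y hy => ?_, Or.inl rfl⟩
    rw [map_zero]
    have h1 := hinv (2 * Real.pi / d) y hy
    have h2 : (d : ℂ) * ((2 * Real.pi / d : ℝ) : ℂ) * Complex.I = 2 * Real.pi * Complex.I := by
      push_cast
      field_simp
    rw [h2, Complex.exp_two_pi_mul_I, one_smul] at h1
    by_contra hne
    have h3 : Complex.exp ((j : ℂ) * ((2 * Real.pi / d : ℝ) : ℂ) * Complex.I) = 1 := by
      have h4 : (Complex.exp ((j : ℂ) * ((2 * Real.pi / d : ℝ) : ℂ) * Complex.I) - 1) * g y = 0 := by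
        rw [sub_mul, one_mul, ← h1, sub_self]
      rcases mul_eq_zero.1 h4 with h5 | h5
      · exact sub_eq_zero.1 h5
      · exact absurd h5 hne
    rw [Complex.exp_eq_one_iff] at h3
    obtain ⟨n, hn⟩ := h3
    apply hdj
    have h5 : (j : ℂ) = n * d := by
      have h6 : (j : ℂ) * ((2 * Real.pi / d : ℝ) : ℂ) * Complex.I =
          (j / d) * (2 * Real.pi * Complex.I) := by
        push_cast
        field_simp
      rw [h6] at hn
      have h7 : (j : ℂ) / d = n := mul_right_cancel₀ Complex.two_pi_I_ne_zero hn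
      rw [← h7]
      field_simp
    have h8 : (j : ℤ) = n * d := by exact_mod_cast h5
    exact Int.natCast_dvd_natCast.1 ⟨n, by rw [h8]; ring⟩
  obtain ⟨w, rfl⟩ := hdj
  have hdisc : ∀ y ∈ Metric.ball (0 : Fin N → ℂ) 1, ∀ t : ℂ, ‖t‖ ≤ 1 →
      g (t • y) = t ^ w * g y := fun y hy t ht => kcHom_disc hg hd hinv hy ht
  -- the extension
  let τ : (Fin N → ℂ) → ℂ := fun y => ((1 / (2 * (1 + ‖y‖)) : ℝ) : ℂ)
  have hτpos : ∀ y : Fin N → ℂ, (0 : ℝ) < 1 / (2 * (1 + ‖y‖)) := fun y => by positivity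
  have hτ0 : ∀ y, τ y ≠ 0 := fun y => by
    have := (hτpos y).ne'
    exact Complex.ofReal_ne_zero.2 this
  have hτn : ∀ y, ‖τ y‖ = 1 / (2 * (1 + ‖y‖)) := fun y => by
    show ‖((1 / (2 * (1 + ‖y‖)) : ℝ) : ℂ)‖ = _
    rw [Complex.norm_real, Real.norm_of_nonneg (hτpos y).le]
  have hτhalf : ∀ y, ‖τ y • y‖ ≤ 1 / 2 := fun y => by
    rw [norm_smul, hτn, div_mul_eq_mul_div, one_mul, div_le_div_iff₀ (by positivity) (by norm_num)]
    nlinarith [norm_nonneg y]
  let G : (Fin N → ℂ) → ℂ := fun y => (τ y ^ w)⁻¹ * g (τ y • y)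
  have hG : ∀ (y : Fin N → ℂ) (s : ℂ), s ≠ 0 → ‖s • y‖ < 1 →
      G y = (s ^ w)⁻¹ * g (s • y) := by
    intro y s hs hsy
    have key : ∀ a b : ℂ, a ≠ 0 → b ≠ 0 → ‖a • y‖ < 1 → ‖b‖ ≤ ‖a‖ →
        (b ^ w)⁻¹ * g (b • y) = (a ^ w)⁻¹ * g (a • y) := by
      intro a b ha hb hay hab
      have h1 : b • y = (b / a) • (a • y) := by
        rw [smul_smul, div_mul_cancel₀ _ ha]
      rw [h1, hdisc (a • y) (by simpa using hay) (b / a) (by
        rw [norm_div]
        exact div_le_one_of_le₀ hab (norm_nonneg a)), div_pow]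
      have hbw : b ^ w ≠ 0 := pow_ne_zero _ hb
      have haw : a ^ w ≠ 0 := pow_ne_zero _ ha
      field_simp
    have hty : ‖τ y • y‖ < 1 := lt_of_le_of_lt (hτhalf y) (by norm_num)
    rcases le_total ‖s‖ ‖τ y‖ with h | h
    · exact (key (τ y) s (hτ0 y) hs hty h).symm
    · exact key s (τ y) hs (hτ0 y) hsy h
  have hGg : ∀ y ∈ Metric.ball (0 : Fin N → ℂ) 1, G y = g y := by
    intro y hy
    have h1 := hG y 1 one_ne_zero (by rw [one_smul]; simpa using hy)
    rw [h1, one_pow, inv_one, one_mul, one_smul]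
  obtain ⟨B, hB⟩ := (isCompact_closedBall (0 : Fin N → ℂ) (1 / 2)).exists_bound_of_continuousOn
    (hg.continuousOn.mono (Metric.closedBall_subset_ball (by norm_num)))
  have hgrow : ∀ y, ‖G y‖ ≤ (2 ^ w * B) * (1 + ‖y‖) ^ w := by
    intro y
    show ‖(τ y ^ w)⁻¹ * g (τ y • y)‖ ≤ _
    rw [norm_mul, norm_inv, norm_pow, hτn]
    have h1 : ‖g (τ y • y)‖ ≤ B := hB _ (by simpa using hτhalf y)
    have h2 : ((1 / (2 * (1 + ‖y‖))) ^ w)⁻¹ = 2 ^ w * (1 + ‖y‖) ^ w := by
      rw [one_div, inv_pow, inv_inv, mul_pow]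
    rw [h2]
    calc 2 ^ w * (1 + ‖y‖) ^ w * ‖g (τ y • y)‖ ≤ 2 ^ w * (1 + ‖y‖) ^ w * B := by
          apply mul_le_mul_of_nonneg_left h1
          positivity
      _ = (2 ^ w * B) * (1 + ‖y‖) ^ w := by ring
  have hdiff : ∀ y i, Differentiable ℂ (fun t => G (Function.update y i t)) := by
    intro y i t0
    obtain ⟨r, hr, hlt⟩ : ∃ r : ℝ, 0 < r ∧ ‖(r : ℂ) • Function.update y i t0‖ < 1 := by
      have hr : (0 : ℝ) < 1 / (2 + ‖Function.update y i t0‖) := by positivity
      refine ⟨1 / (2 + ‖Function.update y i t0‖), hr, ?_⟩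
      rw [norm_smul, Complex.norm_real, Real.norm_of_nonneg hr.le, div_mul_eq_mul_div, one_mul,
        div_lt_one (by positivity)]
      linarith
    have hr0 : (r : ℂ) ≠ 0 := Complex.ofReal_ne_zero.2 hr.ne'
    have hupd : Differentiable ℂ (fun t : ℂ => Function.update y i t) := fun t =>
      (hasFDerivAt_update y t).differentiableAt
    have hus : Differentiable ℂ (fun t : ℂ => (r : ℂ) • (Function.update y i t : Fin N → ℂ)) :=
      Differentiable.const_smul hupd (r : ℂ)
    have hcont : Continuous fun t : ℂ => ‖(r : ℂ) • (Function.update y i t : Fin N → ℂ)‖ :=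
      continuous_norm.comp hus.continuous
    have hev : ∀ᶠ t in nhds t0, G (Function.update y i t) =
        ((r : ℂ) ^ w)⁻¹ * g ((r : ℂ) • Function.update y i t) := by
      have h1 : ∀ᶠ t in nhds t0, ‖(r : ℂ) • Function.update y i t‖ < 1 :=
        hcont.continuousAt.eventually_lt continuousAt_const hlt
      exact h1.mono fun t ht => hG (Function.update y i t) (r : ℂ) hr0 ht
    have hd1 : DifferentiableAt ℂ (fun t => ((r : ℂ) ^ w)⁻¹ *
        g ((r : ℂ) • Function.update y i t)) t0 := by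
      refine DifferentiableAt.const_mul ?_ _
      have h1 : DifferentiableAt ℂ g ((r : ℂ) • Function.update y i t0) :=
        (hg _ (by simpa using hlt)).differentiableAt
          (Metric.isOpen_ball.mem_nhds (by simpa using hlt))
      exact DifferentiableAt.comp (f := fun t : ℂ => (r : ℂ) • (Function.update y i t : Fin N → ℂ))
        t0 h1 (hus t0)
    exact hd1.congr_of_eventuallyEq hev
  obtain ⟨p, hp⟩ := kc_poly_growth G w hdiff _ hgrow
  refine ⟨p, fun y hy => by rw [← hGg y hy, hp], ?_⟩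
  refine kc_homog_of_equivariant p hd fun t ht y => ?_
  rw [← hp, ← hp]
  have htd : t ^ d ≠ 0 := pow_ne_zero _ ht
  have h1 := hG (t ^ d • y) (τ (t ^ d • y)) (hτ0 _) (lt_of_le_of_lt (hτhalf _) (by norm_num))
  have h2 := hG y (τ (t ^ d • y) * t ^ d) (mul_ne_zero (hτ0 _) htd) (by
    rw [← smul_smul]
    exact lt_of_le_of_lt (hτhalf _) (by norm_num))
  rw [h1, h2, smul_smul, mul_pow, pow_mul]
  have h3 : τ (t ^ d • y) ^ w ≠ 0 := pow_ne_zero _ (hτ0 _)
  have h4 : (t ^ d) ^ w ≠ 0 := pow_ne_zero _ htd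
  field_simp

end Pool.Agent.Lib_KF

end

/-! ### from `Lib_KF.KCCoef` -/

section

/-!
# KC14, KC15: minimal equations of fractions over `ℂ(x)`
-/

open scoped ENNReal NNReal

namespace Pool.Agent.Lib_KF

open Pool.Agent.Lib_GD

/-- `μ` is a minimal polynomial of `U / V` over `ℂ(x)`, with coefficients in `ℂ[x]`. -/
structure IsMinEq {R : Type} [CommRing R] [Algebra ℂ R] {n : ℕ} (x : Fin (n + 1) → R)
    (U V : R) (μ : Polynomial (MvPolynomial (Fin (n + 1)) ℂ)) : Prop where
  irr : Irreducible (μ.map (algebraMap (MvPolynomial (Fin (n + 1)) ℂ)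
    (FractionRing (MvPolynomial (Fin (n + 1)) ℂ))))
  eq : ∑ i ∈ Finset.range (μ.natDegree + 1),
    MvPolynomial.aeval x (μ.coeff i) * U ^ i * V ^ (μ.natDegree - i) = 0

end Pool.Agent.Lib_KF

end

/-! ### from `Lib_KF.KCCoefA` -/

section

/-!
# KC14: a pole of `U / V` gives a pole of a coefficient of the minimal equation
-/

open scoped ENNReal NNReal

namespace Pool.Agent.Lib_KF

open Pool.Agent.Lib_GD

/-- abstract form of the existence of a minimal equation -/
private theorem KCCoefA_exists_aux {P R L : Type} [CommRing P] [IsDomain P] [CommRing R] [IsDomain R]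
    [Algebra P R] [Field L] [Algebra R L] [IsFractionRing R L] [Algebra P L] [IsScalarTower P R L]
    (hinj : Function.Injective (algebraMap P R)) (hint : ∀ f : R, IsIntegral P f) (U V : R)
    (hV : V ≠ 0) :
    ∃ μ : Polynomial P, Irreducible (μ.map (algebraMap P (FractionRing P))) ∧
      ∑ i ∈ Finset.range (μ.natDegree + 1),
        algebraMap P R (μ.coeff i) * U ^ i * V ^ (μ.natDegree - i) = 0 := by
  classical
  have hmapPL : ∀ f, algebraMap P L f = algebraMap R L (algebraMap P R f) :=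
    fun f => IsScalarTower.algebraMap_apply P R L f
  have hinjL : Function.Injective (algebraMap P L) := by
    intro f g hfg
    rw [hmapPL, hmapPL] at hfg
    exact hinj (IsFractionRing.injective R L hfg)
  have : FaithfulSMul P L := (faithfulSMul_iff_algebraMap_injective _ _).mpr hinjL
  let algKL : Algebra (FractionRing P) L := FractionRing.liftAlgebra P L
  have towerL : IsScalarTower P (FractionRing P) L := FractionRing.isScalarTower_liftAlgebra P L
  -- elements of `R` are integral over `K`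
  have hint' : ∀ f : R, IsIntegral (FractionRing P) (algebraMap R L f) := by
    intro f
    have h1 : IsIntegral P (algebraMap R L f) := (hint f).algebraMap
    exact h1.tower_top
  have hVL : algebraMap R L V ≠ 0 := by
    intro h0
    exact hV (IsFractionRing.injective R L (h0.trans (map_zero _).symm))
  set Z : L := algebraMap R L U * (algebraMap R L V)⁻¹ with hZ
  have hZint : IsIntegral (FractionRing P) Z := (hint' U).mul (hint' V).inv
  set m := minpoly (FractionRing P) Z with hm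
  have hmirr : Irreducible m := minpoly.irreducible hZint
  obtain ⟨b, hbm, hb⟩ := IsLocalization.integerNormalization_spec (nonZeroDivisors P) m
  set μ := IsLocalization.integerNormalization (nonZeroDivisors P) m with hμ
  have hbK : algebraMap P (FractionRing P) b ≠ 0 := by
    intro h0
    exact nonZeroDivisors.ne_zero hbm (IsFractionRing.injective _ _ (h0.trans (map_zero _).symm))
  have hb' : μ.map (algebraMap P (FractionRing P)) =
      Polynomial.C (algebraMap P (FractionRing P) b) * m := by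
    rw [hb, ← algebraMap_smul (FractionRing P) b m, Polynomial.smul_eq_C_mul]
  refine ⟨μ, ?_, ?_⟩
  · rw [hb', irreducible_isUnit_mul]
    · exact hmirr
    · exact Polynomial.isUnit_C.mpr (isUnit_iff_ne_zero.mpr hbK)
  · -- the equation
    apply IsFractionRing.injective R L
    rw [map_sum, map_zero]
    have h1 : Polynomial.aeval Z (μ.map (algebraMap P (FractionRing P))) = 0 := by
      rw [hb', map_mul, minpoly.aeval, mul_zero]
    rw [Polynomial.aeval_map_algebraMap, Polynomial.aeval_eq_sum_range] at h1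
    have h2 : ∑ i ∈ Finset.range (μ.natDegree + 1), algebraMap R L
        (algebraMap P R (μ.coeff i) * U ^ i * V ^ (μ.natDegree - i)) =
        (algebraMap R L V) ^ μ.natDegree *
          ∑ i ∈ Finset.range (μ.natDegree + 1), μ.coeff i • Z ^ i := by
      rw [Finset.mul_sum]
      refine Finset.sum_congr rfl fun i hi => ?_
      rw [Finset.mem_range] at hi
      rw [map_mul, map_mul, map_pow, map_pow, Algebra.smul_def, hmapPL, hZ, mul_pow, inv_pow]
      have h3 : (algebraMap R L V) ^ μ.natDegree =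
          (algebraMap R L V) ^ (μ.natDegree - i) * (algebraMap R L V) ^ i := by
        rw [← pow_add]; congr 1; omega
      rw [h3]
      field_simp
    rw [h2, h1, mul_zero]

/-- existence of a minimal equation -/
private theorem KCCoefA_exists {R : Type} [CommRing R] [IsDomain R] [Algebra ℂ R] {n : ℕ}
    {x : Fin (n + 1) → R} (hx : AlgebraicIndependent ℂ x)
    (hfin : Module.Finite (Algebra.adjoin ℂ (Set.range x)) R)
    (U V : R) (hV : V ≠ 0) :
    ∃ μ : Polynomial (MvPolynomial (Fin (n + 1)) ℂ), IsMinEq x U V μ := by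
  have hinj : Function.Injective (MvPolynomial.aeval x : MvPolynomial (Fin (n + 1)) ℂ →ₐ[ℂ] R) := hx
  let algPR : Algebra (MvPolynomial (Fin (n + 1)) ℂ) R :=
    (MvPolynomial.aeval x : MvPolynomial (Fin (n + 1)) ℂ →ₐ[ℂ] R).toRingHom.toAlgebra
  have hmapPR : ∀ f, algebraMap (MvPolynomial (Fin (n + 1)) ℂ) R f = MvPolynomial.aeval x f :=
    fun f => rfl
  have hint : ∀ f : R, IsIntegral (MvPolynomial (Fin (n + 1)) ℂ) f := by
    intro f
    obtain ⟨D, c, hD, hf⟩ := kc_integral hfin f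
    refine ⟨Polynomial.X ^ D - ∑ i : Fin D, Polynomial.C (c i) * Polynomial.X ^ (i : ℕ), ?_, ?_⟩
    · refine Polynomial.monic_X_pow_sub ?_
      refine (Polynomial.degree_sum_le _ _).trans_lt ?_
      refine (Finset.sup_lt_iff (WithBot.bot_lt_coe D)).mpr ?_
      intro i _
      refine (Polynomial.degree_C_mul_X_pow_le _ _).trans_lt ?_
      exact WithBot.coe_lt_coe.mpr i.2
    · rw [Polynomial.eval₂_sub, Polynomial.eval₂_finsetSum, Polynomial.eval₂_pow,
        Polynomial.eval₂_X, hf, sub_eq_zero]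
      refine Finset.sum_congr rfl fun i _ => ?_
      rw [Polynomial.eval₂_mul, Polynomial.eval₂_C, Polynomial.eval₂_pow, Polynomial.eval₂_X,
        hmapPR]
  obtain ⟨μ, h1, h2⟩ := KCCoefA_exists_aux (L := FractionRing R) hinj hint U V hV
  exact ⟨μ, h1, h2⟩

/-- Let `c_k ∈ ℂ(x)` be the coefficients of the monic minimal polynomial of `Z = U / V` over `ℂ(x)`,
of degree `M`. If the order of `c_k` along `h₁` were `> - r k` for all `1 ≤ k ≤ M`, then
`Z' = h₁ ^ r Z` satisfies `Z' ^ M = - ∑ (h₁ ^ (r k) c_k) Z' ^ (M - k)` with `ord_p Z' ≤ 0` and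
`ord_p (h₁ ^ (r k) c_k) ≥ 1`: contradiction. (For `g ∈ ℂ[x]` not divisible by `h₁` the image in `R_p` is a
unit.) Write the bad `c_k = a / (b h₁ ^ j)`. -/
theorem kc_coef {R : Type} [CommRing R] [IsDomain R] [Algebra ℂ R] {n : ℕ}
    {x : Fin (n + 1) → R} (hx : AlgebraicIndependent ℂ x)
    (hfin : Module.Finite (Algebra.adjoin ℂ (Set.range x)) R)
    (p : Ideal R) (hp : p.IsPrime)
    (hdom : IsDomain (Localization.AtPrime p))
    (hdvr : IsDiscreteValuationRing (Localization.AtPrime p))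
    (h₁ : MvPolynomial (Fin (n + 1)) ℂ) (hirr : Irreducible h₁)
    (hc : p.comap (MvPolynomial.aeval x : MvPolynomial (Fin (n + 1)) ℂ →ₐ[ℂ] R) =
        Ideal.span {h₁})
    (U V : R) (hU : U ≠ 0) (hV : V ≠ 0) (r : ℕ)
    (hord : IsDiscreteValuationRing.addVal (Localization.AtPrime p)
        (algebraMap R (Localization.AtPrime p) (U * MvPolynomial.aeval x h₁ ^ r)) ≤
      IsDiscreteValuationRing.addVal (Localization.AtPrime p)
        (algebraMap R (Localization.AtPrime p) V)) :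
    ∃ μ : Polynomial (MvPolynomial (Fin (n + 1)) ℂ), IsMinEq x U V μ ∧
      ∃ (k j : ℕ) (a b : MvPolynomial (Fin (n + 1)) ℂ), 1 ≤ k ∧ k ≤ μ.natDegree ∧ r * k ≤ j ∧
        ¬ h₁ ∣ a ∧ ¬ h₁ ∣ b ∧
        μ.coeff (μ.natDegree - k) * b * h₁ ^ j = a * μ.leadingCoeff := by
  classical
  have hinj : Function.Injective (MvPolynomial.aeval x : MvPolynomial (Fin (n + 1)) ℂ →ₐ[ℂ] R) := hx
  obtain ⟨μ, hμ⟩ := KCCoefA_exists hx hfin U V hV
  refine ⟨μ, hμ, ?_⟩
  have hμ0 : μ ≠ 0 := by
    intro h0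
    have h1 := hμ.irr
    rw [h0, Polynomial.map_zero] at h1
    exact not_irreducible_zero h1
  have hd0 : μ.leadingCoeff ≠ 0 := Polynomial.leadingCoeff_ne_zero.mpr hμ0
  obtain ⟨β, d', hd', hd⟩ := WfDvdMonoid.max_power_factor hd0 hirr
  -- the localisation
  set O := Localization.AtPrime p with hO
  set ι : MvPolynomial (Fin (n + 1)) ℂ →+* O :=
    (algebraMap R O).comp (MvPolynomial.aeval x : MvPolynomial (Fin (n + 1)) ℂ →ₐ[ℂ] R).toRingHom
    with hι
  have hιa : ∀ f, ι f = algebraMap R O (MvPolynomial.aeval x f) := fun f => rfl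
  have hRO : Function.Injective (algebraMap R O) :=
    IsLocalization.injective O p.primeCompl_le_nonZeroDivisors
  have hmemc : ∀ f : MvPolynomial (Fin (n + 1)) ℂ, MvPolynomial.aeval x f ∈ p ↔ h₁ ∣ f := by
    intro f
    rw [← Ideal.mem_span_singleton, ← hc, Ideal.mem_comap]
  have hunit : ∀ f : MvPolynomial (Fin (n + 1)) ℂ, ¬ h₁ ∣ f → IsUnit (ι f) := by
    intro f hf
    rw [hιa]
    exact (IsLocalization.AtPrime.isUnit_to_map_iff O p _).mpr (fun h => hf ((hmemc f).mp h))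
  have hnunit : ¬ IsUnit (ι h₁) := by
    rw [hιa]
    intro h
    have h2 := (IsLocalization.AtPrime.isUnit_to_map_iff O p _).mp h
    exact h2 ((hmemc h₁).mpr dvd_rfl)
  have hh1 : MvPolynomial.aeval x h₁ ≠ 0 := by
    intro h0
    exact hirr.ne_zero (hinj (h0.trans (map_zero _).symm))
  have hh1' : ι h₁ ≠ 0 := by
    rw [hιa]
    intro h0
    exact hh1 (hRO (h0.trans (map_zero _).symm))
  set D := μ.natDegree with hD
  -- the equation in `O`
  obtain ⟨W, hW⟩ := IsDiscreteValuationRing.addVal_le_iff_dvd.mp hord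
  set Y : O := algebraMap R O (U * MvPolynomial.aeval x h₁ ^ r) with hY
  have hY0 : Y ≠ 0 := by
    intro h0
    exact mul_ne_zero hU (pow_ne_zero r hh1) (hRO (h0.trans (map_zero _).symm))
  have hYU : Y = algebraMap R O U * ι h₁ ^ r := by rw [hY, map_mul, map_pow, hιa]
  have heq : ∑ i ∈ Finset.range (D + 1), ι (μ.coeff i) * ι h₁ ^ (r * (D - i)) * W ^ (D - i) = 0 := by
    have h1 := congrArg (algebraMap R O) hμ.eq
    rw [map_sum, map_zero] at h1
    have h2 : Y ^ D * ∑ i ∈ Finset.range (D + 1),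
        ι (μ.coeff i) * ι h₁ ^ (r * (D - i)) * W ^ (D - i) =
        ι h₁ ^ (r * D) * ∑ i ∈ Finset.range (μ.natDegree + 1), algebraMap R O
          (MvPolynomial.aeval x (μ.coeff i) * U ^ i * V ^ (μ.natDegree - i)) := by
      rw [Finset.mul_sum, Finset.mul_sum]
      refine Finset.sum_congr rfl fun i hi => ?_
      rw [Finset.mem_range] at hi
      rw [map_mul, map_mul, map_pow, map_pow, ← hιa, hW, mul_pow, ← hD]
      have e1 : Y ^ D = Y ^ i * Y ^ (D - i) := by rw [← pow_add]; congr 1; omega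
      have e2 : Y ^ i = (algebraMap R O U) ^ i * ι h₁ ^ (r * i) := by rw [hYU, mul_pow, ← pow_mul]
      have e3 : ι h₁ ^ (r * D) = ι h₁ ^ (r * i) * ι h₁ ^ (r * (D - i)) := by
        rw [← pow_add, ← mul_add]; congr 2; omega
      rw [e1, e2, e3]
      ring
    rw [h1, mul_zero] at h2
    exact (mul_eq_zero.mp h2).resolve_left (pow_ne_zero D hY0)
  -- the critical coefficient
  have hkey : ∃ k, 1 ≤ k ∧ k ≤ D ∧ ¬ h₁ ^ (β + 1) ∣ μ.coeff (D - k) * h₁ ^ (r * k) := by
    by_contra hcon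
    push Not at hcon
    have h1 : ι h₁ ^ (β + 1) ∣ ι μ.leadingCoeff := by
      have h2 : ι μ.leadingCoeff = -∑ i ∈ Finset.range D,
          ι (μ.coeff i) * ι h₁ ^ (r * (D - i)) * W ^ (D - i) := by
        rw [Finset.sum_range_succ, Nat.sub_self, mul_zero, pow_zero, pow_zero, mul_one, mul_one,
          add_comm] at heq
        exact eq_neg_of_add_eq_zero_left heq
      rw [h2]
      refine (dvd_neg).mpr (Finset.dvd_sum fun i hi => ?_)
      rw [Finset.mem_range] at hi
      have h3 := hcon (D - i) (by omega) (by omega)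
      rw [show D - (D - i) = i by omega] at h3
      have h4 := map_dvd ι h3
      rw [map_mul, map_pow, map_pow] at h4
      exact Dvd.dvd.mul_right h4 _
    rw [hd, map_mul, map_pow, pow_succ] at h1
    have h5 : ι h₁ ∣ ι d' := (mul_dvd_mul_iff_left (pow_ne_zero β hh1')).mp h1
    exact hnunit (isUnit_of_dvd_unit h5 (hunit d' hd'))
  obtain ⟨k, hk1, hkD, hk⟩ := hkey
  have hck : μ.coeff (D - k) ≠ 0 := by
    intro h0
    rw [h0, zero_mul] at hk
    exact hk (dvd_zero _)
  obtain ⟨α, a', ha', ha⟩ := WfDvdMonoid.max_power_factor hck hirr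
  have hle : α + r * k ≤ β := by
    by_contra hcon
    apply hk
    rw [ha]
    have h1 : h₁ ^ (β + 1) ∣ h₁ ^ (α + r * k) := pow_dvd_pow _ (by omega)
    have h2 : h₁ ^ α * a' * h₁ ^ (r * k) = h₁ ^ (α + r * k) * a' := by rw [pow_add]; ring
    rw [h2]
    exact Dvd.dvd.mul_right h1 _
  refine ⟨k, β - α, a', d', hk1, hkD, by omega, ha', hd', ?_⟩
  rw [ha, hd]
  have h1 : h₁ ^ β = h₁ ^ α * h₁ ^ (β - α) := by rw [← pow_add]; congr 1; omega
  rw [h1]
  ring

end Pool.Agent.Lib_KF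

end

/-! ### from `Lib_KF.KCRoots` -/

section

/-!
# KC15: the roots of the minimal equation over a point are the values on the fibre
-/

open scoped ENNReal NNReal

namespace Pool.Agent.Lib_KF

open Pool.Agent.Lib_GD

open Polynomial in
private theorem kcroots_core {A R : Type} [CommRing A] [IsDomain A] [IsIntegrallyClosed A]
    [CommRing R] [IsDomain R] [Algebra A R] [Algebra.IsIntegral A R]
    (hinj : Function.Injective (algebraMap A R)) (U V w : R) (hV : V ≠ 0) (a z : A)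
    (ha : algebraMap A R a = (U - algebraMap A R z * V) * w) (ha0 : a ≠ 0)
    (μ : Polynomial A) (hirr : Irreducible (μ.map (algebraMap A (FractionRing A))))
    (heq : ∑ i ∈ Finset.range (μ.natDegree + 1),
      algebraMap A R (μ.coeff i) * U ^ i * V ^ (μ.natDegree - i) = 0) :
    ∃ b : A, μ.leadingCoeff * a ^ μ.natDegree = μ.eval z * b := by
  classical
  have : FaithfulSMul A R := (faithfulSMul_iff_algebraMap_injective A R).2 hinj
  let K := FractionRing A
  let L := FractionRing R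
  have hRL : Function.Injective (algebraMap R L) := IsFractionRing.injective R L
  have hAL : Function.Injective (algebraMap A L) := by
    rw [IsScalarTower.algebraMap_eq A R L]
    exact hRL.comp hinj
  have : FaithfulSMul A L := (faithfulSMul_iff_algebraMap_injective A L).2 hAL
  let _ : Algebra K L := FractionRing.liftAlgebra A L
  have : IsScalarTower A K L := FractionRing.isScalarTower_liftAlgebra A L
  have hAK : Function.Injective (algebraMap A K) := IsFractionRing.injective A K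
  set m := μ.natDegree with hm
  set v : L := algebraMap R L V with hv
  have hv0 : v ≠ 0 := by
    rw [hv]
    exact (map_ne_zero_iff _ hRL).2 hV
  set Z : L := algebraMap R L U / v with hZ
  set ζ : L := algebraMap A L z with hζ
  set s : R := V * w with hs
  have hAR : ∀ c : A, algebraMap A L c = algebraMap R L (algebraMap A R c) := fun c =>
    IsScalarTower.algebraMap_apply A R L c
  have hZv : Z * v = algebraMap R L U := by rw [hZ, div_mul_cancel₀ _ hv0]
  -- `(Z - ζ) s = a`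
  have hZs : (Z - ζ) * algebraMap R L s = algebraMap A L a := by
    rw [hAR a, ha, hs, map_mul, map_mul, map_sub, map_mul, ← hv, ← hAR, ← hζ, ← hZv]
    ring
  have haL : algebraMap A L a ≠ 0 := (map_ne_zero_iff _ hAL).2 ha0
  have hsL : algebraMap R L s ≠ 0 := by
    intro h
    rw [h, mul_zero] at hZs
    exact haL hZs.symm
  have hZζ : Z - ζ ≠ 0 := by
    intro h
    rw [h, zero_mul] at hZs
    exact haL hZs.symm
  -- `Z` is a root
  have hZroot : aeval Z μ = 0 := by
    have h1 : v ^ m * aeval Z μ = 0 := by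
      rw [aeval_eq_sum_range, Finset.mul_sum, ← map_zero (algebraMap R L), ← heq, map_sum]
      refine Finset.sum_congr rfl fun i hi => ?_
      rw [Finset.mem_range] at hi
      rw [map_mul, map_mul, map_pow, map_pow, ← hAR, ← hv, ← hZv, Algebra.smul_def]
      have h2 : v ^ m = v ^ i * v ^ (m - i) := by rw [← pow_add]; congr 1; omega
      rw [h2, mul_pow]
      ring
    exact (mul_eq_zero.1 h1).resolve_left (pow_ne_zero _ hv0)
  have hZrootK : aeval Z (μ.map (algebraMap A K)) = 0 := by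
    rw [aeval_map_algebraMap]
    exact hZroot
  have hdegZ : (minpoly K Z).natDegree = m := by
    rw [← minpoly.eq_of_irreducible hirr hZrootK, natDegree_mul_C, natDegree_map_eq_of_injective hAK]
    exact inv_ne_zero (leadingCoeff_ne_zero.2 hirr.ne_zero)
  have hint : IsIntegral A s := Algebra.IsIntegral.isIntegral s
  have hZint : IsIntegral K Z :=
    (IsAlgebraic.isIntegral ⟨_, hirr.ne_zero, hZrootK⟩)
  have hsint : IsIntegral K (algebraMap R L s) := by
    have h1 : IsIntegral A (algebraMap R L s) := hint.map (IsScalarTower.toAlgHom A R L)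
    exact h1.tower_top
  have hadj : IntermediateField.adjoin K {algebraMap R L s} = IntermediateField.adjoin K {Z} := by
    have hζm : ∀ F : IntermediateField K L, ∀ c : A, algebraMap A L c ∈ F := by
      intro F c
      rw [IsScalarTower.algebraMap_apply A K L]
      exact F.algebraMap_mem _
    apply le_antisymm
    · rw [IntermediateField.adjoin_simple_le_iff]
      have h1 : algebraMap R L s = algebraMap A L a / (Z - ζ) := by
        rw [← hZs, mul_div_cancel_left₀ _ hZζ]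
      rw [h1]
      exact div_mem (hζm _ _) (sub_mem (IntermediateField.mem_adjoin_simple_self K Z) (hζm _ _))
    · rw [IntermediateField.adjoin_simple_le_iff]
      have h1 : Z = ζ + algebraMap A L a / algebraMap R L s := by
        rw [← hZs, mul_div_cancel_right₀ _ hsL]
        ring
      rw [h1]
      exact add_mem (hζm _ _) (div_mem (hζm _ _)
        (IntermediateField.mem_adjoin_simple_self K (algebraMap R L s)))
  have hdegs : (minpoly K (algebraMap R L s)).natDegree = m := by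
    rw [← IntermediateField.adjoin.finrank hsint, hadj, IntermediateField.adjoin.finrank hZint, hdegZ]
  set M := minpoly A s with hM
  have hMm : M.Monic := minpoly.monic hint
  have hMdeg : M.natDegree = m := by
    rw [minpoly.isIntegrallyClosed_eq_field_fractions K L hint,
      natDegree_map_eq_of_injective hAK] at hdegs
    exact hdegs
  -- the transformed polynomial
  set c : ℕ → A := fun j => (taylor z μ).coeff j with hc
  set P : Polynomial A := ∑ j ∈ Finset.range (m + 1), C (c j * a ^ j) * X ^ (m - j) with hP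
  have hPs : aeval s P = 0 := by
    apply hRL
    rw [map_zero, hP, map_sum, map_sum]
    have h1 : ∀ j ∈ Finset.range (m + 1), algebraMap R L (aeval s (C (c j * a ^ j) * X ^ (m - j))) =
        algebraMap R L s ^ m * (algebraMap A L (c j) * (Z - ζ) ^ j) := by
      intro j hj
      rw [Finset.mem_range] at hj
      rw [map_mul, aeval_C, map_pow, aeval_X, map_mul, map_pow, ← hAR, map_mul, map_pow, ← hZs, mul_pow]
      have h2 : algebraMap R L s ^ m = algebraMap R L s ^ j * algebraMap R L s ^ (m - j) := by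
        rw [← pow_add]; congr 1; omega
      rw [h2]
      ring
    rw [Finset.sum_congr rfl h1, ← Finset.mul_sum]
    have h3 : ∑ j ∈ Finset.range (m + 1), algebraMap A L (c j) * (Z - ζ) ^ j = aeval (Z - ζ) (taylor z μ) := by
      rw [aeval_eq_sum_range' (n := m + 1) (by rw [natDegree_taylor]; omega)]
      refine Finset.sum_congr rfl fun j _ => ?_
      rw [Algebra.smul_def]
    rw [h3, taylor_apply, aeval_comp]
    have h4 : aeval (Z - ζ) (X + C z : Polynomial A) = Z := by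
      rw [map_add, aeval_X, aeval_C, ← hζ]
      ring
    rw [h4, hZroot, mul_zero]
  have hPm : P.coeff m = μ.eval z := by
    rw [hP, finsetSum_coeff, Finset.sum_eq_single 0]
    · rw [coeff_C_mul, coeff_X_pow, if_pos (by omega), mul_one, pow_zero, mul_one, hc]
      exact taylor_coeff_zero _ _
    · intro j hj hj0
      rw [Finset.mem_range] at hj
      rw [coeff_C_mul, coeff_X_pow, if_neg (by omega), mul_zero]
    · intro h
      exact absurd (Finset.mem_range.2 (Nat.succ_pos m)) h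
  have hP0 : P.coeff 0 = μ.leadingCoeff * a ^ m := by
    rw [hP, finsetSum_coeff, Finset.sum_eq_single m]
    · rw [coeff_C_mul, coeff_X_pow, if_pos (by omega), mul_one]
      rw [show c m = μ.leadingCoeff from coeff_taylor_natDegree _ _]
    · intro j hj hj0
      rw [Finset.mem_range] at hj
      rw [coeff_C_mul, coeff_X_pow, if_neg (by omega), mul_zero]
    · intro h
      exact absurd (Finset.mem_range.2 (Nat.lt_succ_self m)) h
  have hPd : P.natDegree ≤ m := by
    rw [hP]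
    refine natDegree_sum_le_of_forall_le _ _ fun j _ => ?_
    exact (natDegree_C_mul_X_pow_le _ _).trans (Nat.sub_le _ _)
  obtain ⟨Q, hQ⟩ := minpoly.isIntegrallyClosed_dvd hint hPs
  rw [← hM] at hQ
  rcases eq_or_ne Q 0 with hQ0 | hQ0
  · refine ⟨0, ?_⟩
    rw [← hP0, hQ, hQ0, mul_zero, coeff_zero, mul_zero]
  · have h1 : P.natDegree = m + Q.natDegree := by
      rw [hQ, hMm.natDegree_mul' hQ0, hMdeg]
    have h2 : Q.natDegree = 0 := by omega
    obtain ⟨q0, hq0⟩ := natDegree_eq_zero.1 h2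
    have h3 : P = M * C q0 := by rw [hQ, hq0]
    have h4 : μ.eval z = q0 := by
      rw [← hPm, h3, coeff_mul_C]
      have : M.coeff m = 1 := by rw [← hMdeg]; exact hMm
      rw [this, one_mul]
    refine ⟨M.coeff 0, ?_⟩
    rw [← hP0, h3, coeff_mul_C, h4, mul_comm]

private theorem kcroots_lying {R : Type} [CommRing R] [IsDomain R] [Algebra ℂ R] {n : ℕ}
    {x : Fin (n + 1) → R} (hx : AlgebraicIndependent ℂ x)
    (hfin : Module.Finite (Algebra.adjoin ℂ (Set.range x)) R)
    (y : Fin (n + 1) → ℂ) (W : R)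
    (hW : ∀ (a : MvPolynomial (Fin (n + 1)) ℂ) (w : R), MvPolynomial.aeval x a = W * w →
      MvPolynomial.eval y a = 0) : ∃ ν ∈ fib x y, ν W = 0 := by
  classical
  have := hfin
  have : Algebra.IsIntegral (Algebra.adjoin ℂ (Set.range x)) R := Algebra.IsIntegral.of_finite _ _
  set φ : Algebra.adjoin ℂ (Set.range x) →ₐ[ℂ] ℂ :=
    (MvPolynomial.aeval y).comp (hx.aevalEquiv.symm : _ →ₐ[ℂ] _) with hφ
  have hφs : Function.Surjective φ := fun c => ⟨algebraMap ℂ _ c, by rw [AlgHom.commutes]; rfl⟩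
  have hmax : (RingHom.ker φ).IsMaximal := RingHom.ker_isMaximal_of_surjective φ hφs
  have hφp : ∀ p : MvPolynomial (Fin (n + 1)) ℂ, φ (hx.aevalEquiv p) = MvPolynomial.eval y p := by
    intro p
    rw [hφ]
    simp [MvPolynomial.aeval_eq_eval]
  obtain ⟨Q, hQW, hQp, hQc⟩ := Ideal.exists_ideal_over_prime_of_isIntegral (S := R)
    (RingHom.ker φ) (Ideal.span {W}) (by
      intro a ha
      rw [Ideal.mem_comap, Ideal.mem_span_singleton] at ha
      obtain ⟨w, hw⟩ := ha
      obtain ⟨p, rfl⟩ := hx.aevalEquiv.surjective a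
      rw [hx.algebraMap_aevalEquiv] at hw
      rw [RingHom.mem_ker]
      rw [hφp]
      exact hW p w hw)
  have hQ : Q.IsMaximal := Ideal.isMaximal_of_isIntegral_of_isMaximal_comap
    (R := Algebra.adjoin ℂ (Set.range x)) Q (by rw [hQc]; exact hmax)
  have hmem : ∀ p : MvPolynomial (Fin (n + 1)) ℂ,
      MvPolynomial.aeval x p - algebraMap ℂ R (MvPolynomial.eval y p) ∈ Q := by
    intro p
    have h1 : hx.aevalEquiv (p - MvPolynomial.C (MvPolynomial.eval y p)) ∈ RingHom.ker φ := by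
      change φ (hx.aevalEquiv (p - MvPolynomial.C (MvPolynomial.eval y p))) = 0
      rw [hφp]
      simp
    rw [← hQc, Ideal.mem_comap] at h1
    have h2 : algebraMap (Algebra.adjoin ℂ (Set.range x)) R
        (hx.aevalEquiv (p - MvPolynomial.C (MvPolynomial.eval y p))) =
        MvPolynomial.aeval x p - algebraMap ℂ R (MvPolynomial.eval y p) := by
      rw [hx.algebraMap_aevalEquiv]
      simp
    rwa [h2] at h1
  let : Field (R ⧸ Q) := Ideal.Quotient.field Q
  have : Algebra.IsIntegral ℂ (R ⧸ Q) := by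
    refine ⟨fun k => ?_⟩
    obtain ⟨f, rfl⟩ := Ideal.Quotient.mk_surjective k
    obtain ⟨D, c, hD, hf⟩ := kc_integral hfin f
    refine ⟨Polynomial.X ^ D -
      ∑ i : Fin D, Polynomial.C (MvPolynomial.eval y (c i)) * Polynomial.X ^ (i : ℕ), ?_, ?_⟩
    · refine Polynomial.monic_X_pow_sub ?_
      refine (Polynomial.degree_sum_le _ _).trans_lt ?_
      rw [Finset.sup_lt_iff (by exact WithBot.bot_lt_coe D)]
      intro i _
      refine (Polynomial.degree_C_mul_X_pow_le _ _).trans_lt ?_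
      exact_mod_cast i.2
    · rw [Polynomial.eval₂_sub, Polynomial.eval₂_pow, Polynomial.eval₂_X,
        Polynomial.eval₂_finsetSum, ← map_pow, hf, map_sum, sub_eq_zero]
      refine Finset.sum_congr rfl fun i _ => ?_
      rw [map_mul, map_pow, Polynomial.eval₂_mul, Polynomial.eval₂_C, Polynomial.eval₂_pow,
        Polynomial.eval₂_X]
      congr 1
      exact Ideal.Quotient.eq.2 (hmem (c i))
  have hbij := IsAlgClosed.algebraMap_bijective_of_isIntegral (k := ℂ) (K := R ⧸ Q)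
  set E : ℂ ≃ₐ[ℂ] (R ⧸ Q) := AlgEquiv.ofBijective (Algebra.ofId ℂ (R ⧸ Q)) hbij with hE
  refine ⟨(E.symm : (R ⧸ Q) →ₐ[ℂ] ℂ).comp (Ideal.Quotient.mkₐ ℂ Q), fun b => ?_, ?_⟩
  · have h1 : Ideal.Quotient.mkₐ ℂ Q (x b) = E (y b) := by
      have h2 := hmem (MvPolynomial.X b)
      rw [MvPolynomial.aeval_X, MvPolynomial.eval_X] at h2
      exact Ideal.Quotient.eq.2 h2
    rw [AlgHom.comp_apply, h1]
    exact E.symm_apply_apply (y b)
  · have h1 : Ideal.Quotient.mkₐ ℂ Q W = 0 :=
      Ideal.Quotient.eq_zero_iff_mem.2 (hQW (Ideal.mem_span_singleton_self W))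
    rw [AlgHom.comp_apply, h1, map_zero]

/-- Let `V V' = aeval x q_V` (`kc_norm`), `q = q_V * μ.leadingCoeff`. If `q (y) ≠ 0` and `z` is a root of
`μ_y` then `ℂ[x]_q [T] / (μ) ≅ ℂ[x]_q [U / V] ⊆ R_q` (`μ` has a unit leading coefficient in
`ℂ[x]_q` and is irreducible over `ℂ(x)`, division with remainder) and the homomorphism `x ↦ y`, `T ↦ z` to
`ℂ` extends to `R_q` (integral extension, lying over, `ℂ` algebraically closed). -/
theorem kc_roots {R : Type} [CommRing R] [IsDomain R] [Algebra ℂ R] {n : ℕ}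
    {x : Fin (n + 1) → R} (hx : AlgebraicIndependent ℂ x)
    (hfin : Module.Finite (Algebra.adjoin ℂ (Set.range x)) R)
    (U V : R) (hV : V ≠ 0) (μ : Polynomial (MvPolynomial (Fin (n + 1)) ℂ))
    (hμ : IsMinEq x U V μ) :
    ∃ q : MvPolynomial (Fin (n + 1)) ℂ, q ≠ 0 ∧ ∀ y, MvPolynomial.eval y q ≠ 0 →
      MvPolynomial.eval y μ.leadingCoeff ≠ 0 ∧ (∀ ν ∈ fib x y, ν V ≠ 0) ∧
      ∀ z : ℂ, (μ.map (MvPolynomial.eval y)).IsRoot z → ∃ ν ∈ fib x y, ν U = z * ν V := by
  classical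
  obtain ⟨qV, hqV, hqV'⟩ := fib_ne hfin V hV
  have hμ0 : μ ≠ 0 := by
    rintro rfl
    exact hμ.irr.ne_zero (Polynomial.map_zero _)
  refine ⟨qV * μ.leadingCoeff, mul_ne_zero hqV (Polynomial.leadingCoeff_ne_zero.2 hμ0), ?_⟩
  intro y hy
  rw [map_mul] at hy
  have hy1 := left_ne_zero_of_mul hy
  have hy2 := right_ne_zero_of_mul hy
  refine ⟨hy2, hqV' y hy1, fun z hz => ?_⟩
  by_contra hcon
  push Not at hcon
  -- an element of `ℂ[x]` in `(U - z V)` which does not vanish at `y`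
  have h1 : ∃ (a : MvPolynomial (Fin (n + 1)) ℂ) (w : R),
      MvPolynomial.aeval x a = (U - algebraMap ℂ R z * V) * w ∧ MvPolynomial.eval y a ≠ 0 := by
    by_contra h2
    push Not at h2
    obtain ⟨ν, hν, hν0⟩ := kcroots_lying hx hfin y (U - algebraMap ℂ R z * V) h2
    refine hcon ν hν ?_
    rw [map_sub, map_mul, AlgHom.commutes, Algebra.algebraMap_self, RingHom.id_apply, sub_eq_zero] at hν0
    exact hν0
  obtain ⟨a, w, haw, hay⟩ := h1
  let _ : Algebra (MvPolynomial (Fin (n + 1)) ℂ) R := (MvPolynomial.aeval x).toRingHom.toAlgebra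
  have hmap : ∀ p, algebraMap (MvPolynomial (Fin (n + 1)) ℂ) R p = MvPolynomial.aeval x p := fun _ => rfl
  have hinj : Function.Injective (algebraMap (MvPolynomial (Fin (n + 1)) ℂ) R) := hx
  have : Algebra.IsIntegral (MvPolynomial (Fin (n + 1)) ℂ) R := by
    refine ⟨fun f => ?_⟩
    obtain ⟨D, c, hD, hf⟩ := kc_integral hfin f
    refine ⟨Polynomial.X ^ D -
      ∑ i : Fin D, Polynomial.C (c i) * Polynomial.X ^ (i : ℕ), ?_, ?_⟩
    · refine Polynomial.monic_X_pow_sub ?_
      refine (Polynomial.degree_sum_le _ _).trans_lt ?_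
      rw [Finset.sup_lt_iff (by exact WithBot.bot_lt_coe D)]
      intro i _
      refine (Polynomial.degree_C_mul_X_pow_le _ _).trans_lt ?_
      exact_mod_cast i.2
    · rw [Polynomial.eval₂_sub, Polynomial.eval₂_pow, Polynomial.eval₂_X,
        Polynomial.eval₂_finsetSum, hf, sub_eq_zero]
      refine Finset.sum_congr rfl fun i _ => ?_
      rw [Polynomial.eval₂_mul, Polynomial.eval₂_C, Polynomial.eval₂_pow, Polynomial.eval₂_X]
      rfl
  have ha0 : a ≠ 0 := by
    rintro rfl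
    exact hay (map_zero _)
  obtain ⟨b, hb⟩ := kcroots_core hinj U V w hV a (MvPolynomial.C z) (by
    rw [hmap, hmap, haw, MvPolynomial.algHom_C]) ha0 μ hμ.irr hμ.eq
  have hev : MvPolynomial.eval y (μ.eval (MvPolynomial.C z)) = 0 := by
    have h3 : (μ.map (MvPolynomial.eval y)).eval z = 0 := hz
    rw [Polynomial.eval_map] at h3
    rw [← Polynomial.eval₂_id, Polynomial.hom_eval₂]
    simpa using h3
  have h4 := congrArg (MvPolynomial.eval y) hb
  rw [map_mul, map_pow, map_mul, hev, zero_mul] at h4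
  rcases mul_eq_zero.1 h4 with h5 | h5
  · exact hy2 h5
  · exact pow_ne_zero _ hay h5

end Pool.Agent.Lib_KF

end

/-! ### from `Lib_KF.KCBound` -/

section

/-!
# KC16: lower bound for the largest value on the fibre
-/

open scoped ENNReal NNReal

namespace Pool.Agent.Lib_KF

open Pool.Agent.Lib_GD

/-- From `kc_coef` and `kc_roots`: for generic `y`, `|a / (b h₁ ^ j)| = |c_k (y)| ≤ C max |roots| ^ k` and the roots
are values `ν U / ν V` (`Polynomial.coeff_le_of_roots_le` or Vieta). -/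
theorem kc_bound {R : Type} [CommRing R] [IsDomain R] [Algebra ℂ R] {n : ℕ}
    {x : Fin (n + 1) → R} (hx : AlgebraicIndependent ℂ x)
    (hfin : Module.Finite (Algebra.adjoin ℂ (Set.range x)) R)
    (p : Ideal R) (hp : p.IsPrime)
    (hdom : IsDomain (Localization.AtPrime p))
    (hdvr : IsDiscreteValuationRing (Localization.AtPrime p))
    (h₁ : MvPolynomial (Fin (n + 1)) ℂ) (hirr : Irreducible h₁)
    (hc : p.comap (MvPolynomial.aeval x : MvPolynomial (Fin (n + 1)) ℂ →ₐ[ℂ] R) =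
        Ideal.span {h₁})
    (U V : R) (hU : U ≠ 0) (hV : V ≠ 0) (r : ℕ)
    (hord : IsDiscreteValuationRing.addVal (Localization.AtPrime p)
        (algebraMap R (Localization.AtPrime p) (U * MvPolynomial.aeval x h₁ ^ r)) ≤
      IsDiscreteValuationRing.addVal (Localization.AtPrime p)
        (algebraMap R (Localization.AtPrime p) V)) :
    ∃ (k j : ℕ) (a b q : MvPolynomial (Fin (n + 1)) ℂ) (C : ℝ), 1 ≤ k ∧ r * k ≤ j ∧ 0 < C ∧
      ¬ h₁ ∣ a ∧ ¬ h₁ ∣ b ∧ q ≠ 0 ∧ ∀ y, MvPolynomial.eval y q ≠ 0 →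
        ∃ ν ∈ fib x y, ν V ≠ 0 ∧
          ‖MvPolynomial.eval y a‖ ≤ C * (‖MvPolynomial.eval y b‖ * ‖MvPolynomial.eval y h₁‖ ^ j) *
            (‖ν U‖ / ‖ν V‖) ^ k := by
  obtain ⟨μ, hμ, k, j, a, b, hk1, hkD, hrk, ha, hb, hcoef⟩ :=
    kc_coef hx hfin p hp hdom hdvr h₁ hirr hc U V hU hV r hord
  obtain ⟨q, hq, hroots⟩ := kc_roots hx hfin U V hV μ hμ
  refine ⟨k, j, a, b, q, (μ.natDegree.choose k : ℝ), hk1, hrk, ?_, ha, hb, hq, ?_⟩
  · exact_mod_cast Nat.choose_pos hkD
  intro y hy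
  obtain ⟨hlead, hV', hr⟩ := hroots y hy
  set P : Polynomial ℂ := μ.map (MvPolynomial.eval y) with hP
  have hdeg : P.natDegree = μ.natDegree := by
    rw [hP]
    exact Polynomial.natDegree_map_of_leadingCoeff_ne_zero _ hlead
  have hPlead : P.leadingCoeff = MvPolynomial.eval y μ.leadingCoeff := by
    rw [hP]
    exact Polynomial.leadingCoeff_map_of_leadingCoeff_ne_zero _ hlead
  have hP0 : P ≠ 0 := by
    intro h0
    rw [h0, Polynomial.leadingCoeff_zero] at hPlead
    exact hlead hPlead.symm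
  have hdpos : 0 < P.natDegree := by omega
  obtain ⟨z₁, hz₁⟩ := IsAlgClosed.exists_root P (by
    rw [Polynomial.degree_eq_natDegree hP0]
    exact_mod_cast hdpos.ne')
  obtain ⟨z, hz, hmax⟩ := P.roots.toFinset.exists_max_image (fun z => ‖z‖)
    ⟨z₁, by rw [Multiset.mem_toFinset, Polynomial.mem_roots hP0]; exact hz₁⟩
  rw [Multiset.mem_toFinset, Polynomial.mem_roots hP0] at hz
  obtain ⟨ν, hν, hνU⟩ := hr z hz
  have hνV := hV' ν hν
  refine ⟨ν, hν, hνV, ?_⟩
  have hzn : ‖ν U‖ / ‖ν V‖ = ‖z‖ := by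
    rw [hνU, norm_mul]
    exact mul_div_cancel_right₀ _ (norm_ne_zero_iff.mpr hνV)
  rw [hzn]
  -- the Vieta bound
  have hl0 : P.leadingCoeff ≠ 0 := Polynomial.leadingCoeff_ne_zero.mpr hP0
  set p₁ : Polynomial ℂ := Polynomial.C (P.leadingCoeff)⁻¹ * P with hp₁
  have hmon : p₁.Monic := Polynomial.monic_C_mul_of_mul_leadingCoeff_eq_one (inv_mul_cancel₀ hl0)
  have hdeg1 : p₁.natDegree = μ.natDegree := by
    rw [hp₁, Polynomial.natDegree_C_mul (inv_ne_zero hl0), hdeg]
  have hb1 := Polynomial.coeff_le_of_roots_le (p := p₁) (f := RingHom.id ℂ) (B := ‖z‖)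
    (μ.natDegree - k) hmon (IsAlgClosed.splits _) (by
      intro w hw
      rw [Polynomial.map_id, hp₁, Polynomial.roots_C_mul _ (inv_ne_zero hl0)] at hw
      exact hmax w (by rw [Multiset.mem_toFinset]; exact hw))
  rw [Polynomial.map_id, hdeg1, hp₁, Polynomial.coeff_C_mul, norm_mul, norm_inv,
    Nat.choose_symm hkD, show μ.natDegree - (μ.natDegree - k) = k by omega] at hb1
  have hln : 0 < ‖P.leadingCoeff‖ := norm_pos_iff.mpr hl0
  have hb2 : ‖P.coeff (μ.natDegree - k)‖ ≤ ‖P.leadingCoeff‖ * (‖z‖ ^ k * μ.natDegree.choose k) := by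
    rw [inv_mul_le_iff₀ hln] at hb1
    exact hb1
  have hcoef' := congrArg (MvPolynomial.eval y) hcoef
  simp only [map_mul, map_pow] at hcoef'
  have hc1 : P.coeff (μ.natDegree - k) = MvPolynomial.eval y (μ.coeff (μ.natDegree - k)) := by
    rw [hP, Polynomial.coeff_map]
  rw [← hc1, ← hPlead] at hcoef'
  have hcn := congrArg norm hcoef'
  simp only [norm_mul, norm_pow] at hcn
  have hfin2 : ‖MvPolynomial.eval y a‖ * ‖P.leadingCoeff‖ ≤
      ((μ.natDegree.choose k : ℝ) * (‖MvPolynomial.eval y b‖ * ‖MvPolynomial.eval y h₁‖ ^ j) *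
        ‖z‖ ^ k) * ‖P.leadingCoeff‖ := by
    rw [← hcn]
    calc ‖P.coeff (μ.natDegree - k)‖ * ‖MvPolynomial.eval y b‖ * ‖MvPolynomial.eval y h₁‖ ^ j
        = ‖P.coeff (μ.natDegree - k)‖ * (‖MvPolynomial.eval y b‖ * ‖MvPolynomial.eval y h₁‖ ^ j) := by
          ring
      _ ≤ (‖P.leadingCoeff‖ * (‖z‖ ^ k * μ.natDegree.choose k)) *
          (‖MvPolynomial.eval y b‖ * ‖MvPolynomial.eval y h₁‖ ^ j) := by
          gcongr
      _ = _ := by ring
  exact le_of_mul_le_mul_right hfin2 hln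

end Pool.Agent.Lib_KF

end

/-! ### from `Lib_MP_e0d435_kv.StepNum` -/

section

/-! V15a: numerical lemmas for adding a variable. -/

namespace Pool.Agent.Lib_MP_e0d435_kv

/-- Proof: `|y0 - c b| ≤ |y0 - c a| + |c a - c b| ≤ 2 max`, and `|y0 - c b| ≥ |y0 - c a|`,
`|c a - c b| ≤ |y0 - c a| + |y0 - c b| ≤ 2 |y0 - c b|`. -/
theorem lg_nearest (ε : ℝ) (hε : 0 < ε) (hε1 : ε < 1) (y0 ca cb : ℂ) (h0 : y0 ≠ ca)
    (hle : ‖y0 - ca‖ ≤ ‖y0 - cb‖) (hab : ca ≠ cb) :
    |lg ε (y0 - cb) - min (lg ε (y0 - ca)) (lg ε (ca - cb))| ≤ Real.log 2 / |Real.log ε| := by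
  have hL : Real.log ε < 0 := Real.log_neg hε hε1
  have hA : 0 < ‖y0 - ca‖ := norm_pos_iff.2 (sub_ne_zero.2 h0)
  have hX : 0 < ‖y0 - cb‖ := lt_of_lt_of_le hA hle
  have hB : 0 < ‖ca - cb‖ := norm_pos_iff.2 (sub_ne_zero.2 hab)
  have h1 : ‖y0 - cb‖ ≤ ‖y0 - ca‖ + ‖ca - cb‖ := norm_sub_le_norm_sub_add_norm_sub _ _ _
  have h2 : ‖ca - cb‖ ≤ ‖y0 - ca‖ + ‖y0 - cb‖ := by
    have := norm_sub_le_norm_sub_add_norm_sub ca y0 cb
    rwa [norm_sub_rev ca y0] at this
  have hM : min (lg ε (y0 - ca)) (lg ε (ca - cb)) =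
      Real.log (max ‖y0 - ca‖ ‖ca - cb‖) / Real.log ε := by
    unfold lg
    rcases le_total ‖y0 - ca‖ ‖ca - cb‖ with h | h
    · rw [max_eq_right h, min_eq_right]
      exact div_le_div_of_nonpos_of_le hL.le (Real.log_le_log hA h)
    · rw [max_eq_left h, min_eq_left]
      exact div_le_div_of_nonpos_of_le hL.le (Real.log_le_log hB h)
  have hMp : 0 < max ‖y0 - ca‖ ‖ca - cb‖ := lt_max_of_lt_left hA
  rw [hM]
  unfold lg
  rw [← sub_div, abs_div]
  refine div_le_div_of_nonneg_right ?_ (abs_nonneg _)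
  rw [abs_le]
  have h3 : ‖y0 - cb‖ ≤ 2 * max ‖y0 - ca‖ ‖ca - cb‖ := by
    have := le_max_left ‖y0 - ca‖ ‖ca - cb‖
    have := le_max_right ‖y0 - ca‖ ‖ca - cb‖
    linarith
  have h4 : max ‖y0 - ca‖ ‖ca - cb‖ ≤ 2 * ‖y0 - cb‖ := by
    apply max_le
    · linarith
    · linarith
  have h5 := Real.log_le_log hX h3
  have h6 := Real.log_le_log hMp h4
  rw [Real.log_mul two_ne_zero hMp.ne'] at h5
  rw [Real.log_mul two_ne_zero hX.ne'] at h6
  constructor <;> linarith

/-- `lg ε (a b) = lg ε a + lg ε b`. -/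
theorem lg_mul (ε : ℝ) (a b : ℂ) (ha : a ≠ 0) (hb : b ≠ 0) : lg ε (a * b) = lg ε a + lg ε b := by
  unfold lg
  rw [norm_mul, Real.log_mul (norm_ne_zero_iff.2 ha) (norm_ne_zero_iff.2 hb), add_div]

/-- `lg ε ∏ = ∑ lg ε`. -/
theorem lg_prod_pow (ε : ℝ) {D : ℕ} (a : Fin D → ℂ) (ha : ∀ i, a i ≠ 0) (m : Fin D → ℕ) :
    lg ε (∏ i, a i ^ m i) = ∑ i, m i * lg ε (a i) := by
  unfold lg
  rw [norm_prod, Real.log_prod (fun i _ => norm_ne_zero_iff.2 (pow_ne_zero _ (ha i))),
    Finset.sum_div]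
  refine Finset.sum_congr rfl fun i _ => ?_
  rw [norm_pow, Real.log_pow, mul_div_assoc]

/-- If `ε ^ γ < |a|` then `lg ε a < γ`. -/
theorem lg_lt_of_lt (ε : ℝ) (hε : 0 < ε) (hε1 : ε < 1) (a : ℂ) (γ : ℝ) (h : ε ^ γ < ‖a‖) :
    lg ε a < γ := by
  have hL : Real.log ε < 0 := Real.log_neg hε hε1
  unfold lg
  rw [div_lt_iff_of_neg hL, ← Real.log_rpow hε]
  exact Real.log_lt_log (Real.rpow_pos_of_pos hε γ) h

/-- Approximations of products: with `o` the order of a product of elements with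
approximations. -/
theorem Approx.mul {q ε η η' : ℝ} {o o' : ℤ} {a b : ℂ} (ha : a ≠ 0) (hb : b ≠ 0)
    (h : Approx q ε η o a) (h' : Approx q ε η' o' b) : Approx q ε (η + η') (o + o') (a * b) := by
  unfold Approx at *
  rw [lg_mul ε a b ha hb]
  push_cast
  have e : (o : ℝ) + o' - q * (lg ε a + lg ε b) = (o - q * lg ε a) + (o' - q * lg ε b) := by ring
  rw [e]
  refine (abs_add_le _ _).trans ?_
  linarith

theorem Approx.prod_pow {q ε η : ℝ} {D : ℕ} (o : Fin D → ℤ) (a : Fin D → ℂ) (ha : ∀ i, a i ≠ 0)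
    (m : Fin D → ℕ) (h : ∀ i, Approx q ε η (o i) (a i)) :
    Approx q ε ((∑ i, (m i : ℝ)) * η) (∑ i, m i * o i) (∏ i, a i ^ m i) := by
  unfold Approx at *
  rw [lg_prod_pow ε a ha m]
  push_cast
  have e : (∑ i, (m i : ℝ) * (o i : ℝ)) - q * ∑ i, (m i : ℝ) * lg ε (a i) =
      ∑ i, (m i : ℝ) * ((o i : ℝ) - q * lg ε (a i)) := by
    rw [Finset.mul_sum, ← Finset.sum_sub_distrib]
    refine Finset.sum_congr rfl fun i _ => ?_
    ring
  rw [e]
  refine (Finset.abs_sum_le_sum_abs _ _).trans ?_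
  rw [Finset.sum_mul, Finset.mul_sum]
  refine Finset.sum_le_sum fun i _ => ?_
  rw [abs_mul, Nat.abs_cast]
  calc (m i : ℝ) * |(o i : ℝ) - q * lg ε (a i)| ≤ m i * (q * η) :=
        mul_le_mul_of_nonneg_left (h i) (Nat.cast_nonneg _)
    _ = q * (m i * η) := by ring

theorem Approx.mono {q ε η η' : ℝ} (hq : 0 ≤ q) {o : ℤ} {a : ℂ} (h : Approx q ε η o a)
    (hη : η ≤ η') : Approx q ε η' o a := by
  unfold Approx at *
  exact h.trans (mul_le_mul_of_nonneg_left hη hq)

/-- Approximations in an extension with ramification `e`. -/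
theorem Approx.ram {q ε η : ℝ} {o : ℤ} {a : ℂ} (h : Approx q ε η o a) (e : ℕ) :
    Approx (q * e) ε η (e * o) a := by
  unfold Approx at *
  push_cast
  have e1 : (e : ℝ) * (o : ℝ) - q * e * lg ε a = e * (o - q * lg ε a) := by ring
  rw [e1, abs_mul, Nat.abs_cast]
  calc (e : ℝ) * |(o : ℝ) - q * lg ε a| ≤ e * (q * η) :=
        mul_le_mul_of_nonneg_left h (Nat.cast_nonneg _)
    _ = q * e * η := by ring

/-- Orders in a Gauss extension. -/
theorem ord_gauss {k : ℕ} (Λ : LDF k) (Λ' : LDF (k + 1)) (ι : Λ.M →ₐ[ℂ] Λ'.M) (u : Λ'.M)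
    (hw : ∀ a b : Λ.M, Λ'.w (ι a + ι b * u) = min (Λ.w a) (Λ.w b)) (A B π : Λ.M) (hπ : π ≠ 0) :
    (ι A + ι π * u - ι B ≠ 0) ∧
    (A ≠ B → ordZ Λ'.w (ι A + ι π * u - ι B) = min (ordZ Λ.w (A - B)) (ordZ Λ.w π)) ∧
    (A = B → ordZ Λ'.w (ι A + ι π * u - ι B) = ordZ Λ.w π) := by
  have key : ι A + ι π * u - ι B = ι (A - B) + ι π * u := by
    rw [map_sub]
    ring
  have hwk : Λ'.w (ι A + ι π * u - ι B) = min (Λ.w (A - B)) (Λ.w π) := by
    rw [key, hw]
  refine ⟨?_, ?_, ?_⟩
  · rw [← AddValuation.ne_top_iff Λ'.w, hwk, w_eq Λ.w hπ]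
    exact ((min_le_right _ _).trans_lt (WithTop.coe_lt_top _)).ne
  · intro hAB
    apply ordZ_eq_of_w
    rw [hwk, w_eq Λ.w hπ, w_eq Λ.w (sub_ne_zero.2 hAB)]
    rfl
  · intro hAB
    apply ordZ_eq_of_w
    rw [hwk, w_eq Λ.w hπ, hAB, sub_self, AddValuation.map_zero, min_eq_right le_top]

/-- Orders under a ramified embedding. -/
theorem ord_ram {k l : ℕ} (Λ : LDF k) (Λ' : LDF l) (ι : Λ.M →ₐ[ℂ] Λ'.M) (e : ℕ)
    (hw : ∀ f, Λ'.w (ι f) = e • Λ.w f) (f : Λ.M) (hf : f ≠ 0) :
    ordZ Λ'.w (ι f) = e * ordZ Λ.w f := by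
  apply ordZ_eq_of_w
  rw [hw, w_eq Λ.w hf, ← WithTop.coe_nsmul, nsmul_eq_mul]

end Pool.Agent.Lib_MP_e0d435_kv

end

/-! ### from `Lib_KF.GDefs` -/

section

/-!
# Derivations of the cone with respect to the projection `x`

`∂_b` is the derivation `∂ / ∂x_b` of the fraction field of `R`; `h ∂_b` maps `R` to `R`. In the
chart `x a = 1` (`a : Fin (n + 1)`) only the `∂_b` with `b ≠ a`, `b = a.succAbove l`, are used;
`F a α = h ^ |α| ∂^α`.
-/

open PowerSeries

namespace Pool.Agent.Lib_KF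

open Pool.Agent.Lib_GD

/-- The number `γ! / (α! β!)` for `γ = α + β`. -/
noncomputable def binG {n : ℕ} (α β : Fin n →₀ ℕ) : ℂ :=
  ∏ l, ((α l + β l).choose (α l) : ℂ)

/-- Iterated partial derivatives of polynomials in the variables `a.succAbove l`. -/
noncomputable def pdG {n : ℕ} (a : Fin (n + 1)) (α : Fin n →₀ ℕ) :
    Module.End ℂ (MvPolynomial (Fin (n + 1)) ℂ) :=
  ((List.finRange n).map fun l =>
    (((MvPolynomial.pderiv (a.succAbove l) :
      Derivation ℂ (MvPolynomial (Fin (n + 1)) ℂ) (MvPolynomial (Fin (n + 1)) ℂ)) :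
      MvPolynomial (Fin (n + 1)) ℂ →ₗ[ℂ] MvPolynomial (Fin (n + 1)) ℂ) :
      Module.End ℂ (MvPolynomial (Fin (n + 1)) ℂ)) ^ (α l)).prod

/-- The derivations `E b = h ∂_b` of `R` and the operators `F a α = h ^ |α| ∂^α`. -/
structure DerData {R : Type} [CommRing R] [Algebra ℂ R] {n : ℕ} (x : Fin (n + 1) → R) where
  hp : MvPolynomial (Fin (n + 1)) ℂ
  hp_ne : hp ≠ 0
  wt : ℕ
  hp_hom : hp.IsHomogeneous wt
  E : Fin (n + 1) → Derivation ℂ R R
  E_x : ∀ b c, E b (x c) = if b = c then MvPolynomial.aeval x hp else 0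
  /-- `h ds = ∑ h ∂_b s dx_b` in `Ω_{R/ℂ}`. -/
  om : ∀ s, MvPolynomial.aeval x hp • KaehlerDifferential.D ℂ R s =
    ∑ b, E b s • KaehlerDifferential.D ℂ R (x b)
  F : Fin (n + 1) → (Fin n →₀ ℕ) → R →ₗ[ℂ] R
  F_zero : ∀ a s, F a 0 s = s
  F_succ : ∀ a α l s, F a (α + Finsupp.single l 1) s = E (a.succAbove l) (F a α s) -
    (α.degree : R) * MvPolynomial.aeval x (MvPolynomial.pderiv (a.succAbove l) hp) * F a α s
  F_mul : ∀ a γ s s', F a γ (s * s') = ∑ p ∈ Finset.HasAntidiagonal.antidiagonal γ,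
    binG p.1 p.2 • (F a p.1 s * F a p.2 s')
  F_poly : ∀ a γ p, F a γ (MvPolynomial.aeval x p) =
    MvPolynomial.aeval x hp ^ γ.degree * MvPolynomial.aeval x (pdG a γ p)

variable {R : Type} [CommRing R] [Algebra ℂ R] {n : ℕ} {x : Fin (n + 1) → R}

/-- `h` as an element of `R`. -/
noncomputable def DerData.h (T : DerData x) : R := MvPolynomial.aeval x T.hp

end Pool.Agent.Lib_KF

end

/-! ### from `Lib_KF.GTay` -/

section

/-!
# G2b: a non-zero form of degree `k` has a non-zero derivative of order at most `k` at every point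
-/

open PowerSeries

namespace Pool.Agent.Lib_KF

open Pool.Agent.Lib_GD

/-- Iterated partial derivatives in the variables `a.succAbove l` over any ring. -/
noncomputable def pdL {A : Type} [CommRing A] {n : ℕ} (a : Fin (n + 1)) (α : Fin n →₀ ℕ) :
    Module.End A (MvPolynomial (Fin (n + 1)) A) :=
  ((List.finRange n).map fun l =>
    (((MvPolynomial.pderiv (a.succAbove l) :
      Derivation A (MvPolynomial (Fin (n + 1)) A) (MvPolynomial (Fin (n + 1)) A)) :
      MvPolynomial (Fin (n + 1)) A →ₗ[A] MvPolynomial (Fin (n + 1)) A) :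
      Module.End A (MvPolynomial (Fin (n + 1)) A)) ^ (α l)).prod

theorem pdL_eq_pdG {n : ℕ} (a : Fin (n + 1)) (α : Fin n →₀ ℕ)
    (p : MvPolynomial (Fin (n + 1)) ℂ) : pdL a α p = pdG a α p := rfl

/-- one derivative as an endomorphism -/
private noncomputable def GTay_D {A : Type} [CommRing A] {σ : Type} (i : σ) :
    Module.End A (MvPolynomial σ A) :=
  ((MvPolynomial.pderiv i : Derivation A (MvPolynomial σ A) (MvPolynomial σ A)) :
    MvPolynomial σ A →ₗ[A] MvPolynomial σ A)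

private theorem GTay_D_apply {A : Type} [CommRing A] {σ : Type} (i : σ) (p : MvPolynomial σ A) :
    GTay_D i p = MvPolynomial.pderiv i p := rfl

private theorem GTay_pow_map {A B : Type} [CommRing A] [CommRing B] (φ : A →+* B) {σ : Type}
    (i : σ) (k : ℕ) (p : MvPolynomial σ A) :
    (GTay_D i ^ k) (MvPolynomial.map φ p) = MvPolynomial.map φ ((GTay_D i ^ k) p) := by
  induction k with
  | zero => rfl
  | succ k ih =>
    rw [pow_succ', pow_succ', Module.End.mul_apply, Module.End.mul_apply, ih, GTay_D_apply,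
      GTay_D_apply, MvPolynomial.pderiv_map]

private theorem GTay_list_map {A B : Type} [CommRing A] [CommRing B] (φ : A →+* B) {n : ℕ}
    (a : Fin (n + 1)) (α : Fin n →₀ ℕ) (L : List (Fin n)) (p : MvPolynomial (Fin (n + 1)) A) :
    ((L.map fun l => (GTay_D (a.succAbove l) : Module.End B (MvPolynomial (Fin (n + 1)) B)) ^
      (α l)).prod) (MvPolynomial.map φ p) =
    MvPolynomial.map φ (((L.map fun l =>
      (GTay_D (a.succAbove l) : Module.End A (MvPolynomial (Fin (n + 1)) A)) ^ (α l)).prod) p) := by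
  induction L with
  | nil => rfl
  | cons l L ih =>
    rw [List.map_cons, List.map_cons, List.prod_cons, List.prod_cons, Module.End.mul_apply,
      Module.End.mul_apply, ih, GTay_pow_map]

/-- Derivatives commute with a change of the coefficient ring. -/
theorem pdL_map {A B : Type} [CommRing A] [CommRing B] (φ : A →+* B) {n : ℕ} (a : Fin (n + 1))
    (α : Fin n →₀ ℕ) (p : MvPolynomial (Fin (n + 1)) A) :
    pdL a α (MvPolynomial.map φ p) = MvPolynomial.map φ (pdL a α p) :=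
  GTay_list_map φ a α (List.finRange n) p

private theorem GTay_pow_monomial {A : Type} [CommRing A] {σ : Type} (i : σ) (k : ℕ)
    (κ : σ →₀ ℕ) (c : A) : (GTay_D i ^ k) (MvPolynomial.monomial κ c) =
      MvPolynomial.monomial (κ - Finsupp.single i k) (c * ((κ i).descFactorial k : ℕ)) := by
  classical
  induction k with
  | zero => simp
  | succ k ih =>
    rw [pow_succ', Module.End.mul_apply, ih, GTay_D_apply, MvPolynomial.pderiv_monomial, tsub_tsub,
      ← Finsupp.single_add, mul_assoc]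
    congr 2
    rw [Finsupp.tsub_apply, Finsupp.single_eq_same, Nat.descFactorial_succ, Nat.cast_mul, mul_comm]

private theorem GTay_list_monomial {A : Type} [CommRing A] {n : ℕ} (a : Fin (n + 1))
    (α : Fin n →₀ ℕ) (κ : Fin (n + 1) →₀ ℕ) (c : A) (L : List (Fin n)) (hL : L.Nodup) :
    ((L.map fun l => (GTay_D (a.succAbove l) : Module.End A (MvPolynomial (Fin (n + 1)) A)) ^
      (α l)).prod) (MvPolynomial.monomial κ c) =
    MvPolynomial.monomial (κ - (L.map fun l => Finsupp.single (a.succAbove l) (α l)).sum)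
      (c * (L.map fun l => (((κ (a.succAbove l)).descFactorial (α l) : ℕ) : A)).prod) := by
  classical
  induction L with
  | nil => simp
  | cons l L ih =>
    rw [List.nodup_cons] at hL
    rw [List.map_cons, List.prod_cons, Module.End.mul_apply, ih hL.2, GTay_pow_monomial, tsub_tsub,
      List.map_cons, List.sum_cons, List.map_cons, List.prod_cons, mul_assoc,
      add_comm (Finsupp.single (a.succAbove l) (α l))]
    congr 2
    rw [mul_comm]
    congr 3
    have h1 : ∀ L' : List (Fin n), l ∉ L' →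
        (L'.map fun l => Finsupp.single (a.succAbove l) (α l)).sum (a.succAbove l) = 0 := by
      intro L' hL'
      induction L' with
      | nil => rfl
      | cons m L' ih' =>
        rw [List.mem_cons, not_or] at hL'
        rw [List.map_cons, List.sum_cons, Finsupp.add_apply, ih' hL'.2, add_zero,
          Finsupp.single_apply, if_neg]
        intro h
        exact hL'.1 (Fin.succAbove_right_injective h).symm
    rw [Finsupp.tsub_apply, h1 L hL.1, tsub_zero]

/-- The value of the derivatives of a monomial: `∂^α x^κ = ∏ descFactorial (κ, α) x^(κ - α)`. -/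
theorem pdL_monomial {A : Type} [CommRing A] {n : ℕ} (a : Fin (n + 1)) (α : Fin n →₀ ℕ)
    (κ : Fin (n + 1) →₀ ℕ) (c : A) (z : Fin (n + 1) → A) :
    MvPolynomial.eval z (pdL a α (MvPolynomial.monomial κ c)) =
      c * z a ^ κ a * ∏ l : Fin n, (((κ (a.succAbove l)).descFactorial (α l) : ℕ) : A) *
        z (a.succAbove l) ^ (κ (a.succAbove l) - α l) := by
  classical
  have h0 : pdL a α (MvPolynomial.monomial κ c) = _ :=
    GTay_list_monomial a α κ c (List.finRange n) (List.nodup_finRange n)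
  have h1 : ((List.finRange n).map fun l => Finsupp.single (a.succAbove l) (α l)).sum =
      ∑ l : Fin n, Finsupp.single (a.succAbove l) (α l) := by
    rw [← List.ofFn_eq_map, List.sum_ofFn]
  have h2 : ((List.finRange n).map fun l =>
      (((κ (a.succAbove l)).descFactorial (α l) : ℕ) : A)).prod =
      ∏ l : Fin n, (((κ (a.succAbove l)).descFactorial (α l) : ℕ) : A) := by
    rw [← List.ofFn_eq_map, List.prod_ofFn]
  have h3 : (∑ l : Fin n, Finsupp.single (a.succAbove l) (α l)) a = 0 := by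
    rw [Finsupp.finsetSum_apply]
    refine Finset.sum_eq_zero fun l _ => ?_
    rw [Finsupp.single_apply, if_neg (Fin.succAbove_ne a l)]
  have h4 : ∀ m : Fin n, (∑ l : Fin n, Finsupp.single (a.succAbove l) (α l)) (a.succAbove m) =
      α m := by
    intro m
    rw [Finsupp.finsetSum_apply, Finset.sum_eq_single m]
    · rw [Finsupp.single_eq_same]
    · intro l _ hl
      rw [Finsupp.single_apply, if_neg]
      intro h
      exact hl (Fin.succAbove_right_injective h)
    · intro h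
      exact absurd (Finset.mem_univ m) h
  rw [h0, h1, h2, MvPolynomial.eval_monomial, Finsupp.prod_fintype _ _ (fun i => pow_zero _),
    Fin.prod_univ_succAbove _ a, Finsupp.tsub_apply, h3, tsub_zero, Finset.prod_mul_distrib]
  have h5 : ∀ m : Fin n, z (a.succAbove m) ^
      ((κ - ∑ l : Fin n, Finsupp.single (a.succAbove l) (α l)) (a.succAbove m)) =
      z (a.succAbove m) ^ (κ (a.succAbove m) - α m) := by
    intro m
    rw [Finsupp.tsub_apply, h4]
  rw [Finset.prod_congr rfl fun m _ => h5 m]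
  ring

/-- G2b. Proof: put `x_a = 1` (`z a = 1`): the form `Q` becomes a non-zero polynomial of degree
`≤ k` in `n` variables (different monomials of the same degree stay different); some derivative
of order `≤ k` of it is not zero at a given point (characteristic zero; e.g. take a monomial of
maximal degree of the translated polynomial, whose coefficient is the derivative divided by
`γ!`). -/
theorem g_taylor {L : Type} [Field L] [CharZero L] {n k : ℕ}
    (Q : MvPolynomial (Fin (n + 1)) L) (hQ : Q ≠ 0) (hk : Q.IsHomogeneous k)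
    (a : Fin (n + 1)) (z : Fin (n + 1) → L) (hz : z a = 1) :
    ∃ γ : Fin n →₀ ℕ, γ.degree ≤ k ∧ MvPolynomial.eval z (pdL a γ Q) ≠ 0 := by
  classical
  obtain ⟨κ, hκ, hmin⟩ := Finset.exists_min_image Q.support (fun κ => κ a)
    (MvPolynomial.support_nonempty.2 hQ)
  have hdeg : ∀ κ' ∈ Q.support, κ' a + ∑ l : Fin n, κ' (a.succAbove l) = k := by
    intro κ' hκ'
    have h1 : κ'.degree = k := by
      by_contra hcon
      exact (MvPolynomial.mem_support_iff.1 hκ') (hk.coeff_eq_zero hcon)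
    rw [Finsupp.degree_eq_sum, Fin.sum_univ_succAbove _ a] at h1
    exact h1
  set γ : Fin n →₀ ℕ := Finsupp.equivFunOnFinite.symm fun l => κ (a.succAbove l) with hγ
  have hγl : ∀ l, γ l = κ (a.succAbove l) := fun l => by
    rw [hγ, Finsupp.equivFunOnFinite_symm_apply_apply]
  refine ⟨γ, ?_, ?_⟩
  · rw [Finsupp.degree_eq_sum, Finset.sum_congr rfl fun l _ => hγl l]
    have := hdeg κ hκ
    omega
  · have h1 : MvPolynomial.eval z (pdL a γ Q) = ∑ κ' ∈ Q.support,
        MvPolynomial.eval z (pdL a γ (MvPolynomial.monomial κ' (MvPolynomial.coeff κ' Q))) := by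
      conv_lhs => rw [MvPolynomial.as_sum Q]
      rw [map_sum, map_sum]
    rw [h1, Finset.sum_eq_single κ]
    · rw [pdL_monomial, hz, one_pow, mul_one]
      refine mul_ne_zero (MvPolynomial.mem_support_iff.1 hκ) (Finset.prod_ne_zero_iff.2 ?_)
      intro l _
      rw [hγl, Nat.descFactorial_self, tsub_self, pow_zero, mul_one, Nat.cast_ne_zero]
      exact Nat.factorial_ne_zero _
    · intro κ' hκ' hne
      have h2 : ∃ l : Fin n, κ' (a.succAbove l) < κ (a.succAbove l) := by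
        by_contra hcon
        push Not at hcon
        have h3 := hdeg κ hκ
        have h4 := hdeg κ' hκ'
        have h5 := hmin κ' hκ'
        have h6 : ∑ l : Fin n, κ (a.succAbove l) ≤ ∑ l : Fin n, κ' (a.succAbove l) :=
          Finset.sum_le_sum fun l _ => hcon l
        have h7 : ∑ l : Fin n, κ (a.succAbove l) = ∑ l : Fin n, κ' (a.succAbove l) := by
          omega
        have h8 : κ' a = κ a := by
          omega
        have h9 := (Finset.sum_eq_sum_iff_of_le fun l _ => hcon l).1 h7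
        apply hne
        ext i
        rcases eq_or_ne i a with rfl | hi
        · exact h8
        · obtain ⟨l, rfl⟩ := Fin.exists_succAbove_eq hi
          exact (h9 l (Finset.mem_univ l)).symm
      obtain ⟨l, hl⟩ := h2
      rw [pdL_monomial]
      refine mul_eq_zero_of_right _ (Finset.prod_eq_zero (Finset.mem_univ l) ?_)
      rw [hγl, Nat.descFactorial_of_lt hl, Nat.cast_zero, zero_mul]
    · intro h
      exact absurd hκ h

end Pool.Agent.Lib_KF

end
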