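import Mathlib
import Pool.Agent.Lib_MP_e0d435_m.G02
import Pool.Agent.Lib_MP_e0d435_m.G03
import Pool.Agent.Lib_MP_e0d435_m.G04
import Pool.Agent.Lib_MP_e0d435_m.G06
import Pool.Agent.Lib_MP_e0d435_m.G08
import Pool.Agent.Lib_MP_e0d435_m.G10
import Pool.Agent.Lib_MP_e0d435_m.G11
import Pool.Agent.Lib_MP_e0d435_m.G12

/-!
# MP_e0d435_ag: merged library part G13

Concatenation of library files (each in its own section), only to save build time.
-/

/-! ### from `Lib_GD.CombPart` -/

section

namespace Pool.Agent.Lib_GD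

/-- homogeneous sets -/
private def hom {N : ℕ} (G : Finset (Fin N) → ℝ) (T ξ η₅ : ℝ) (E : Finset (Fin N)) : Prop :=
  ∀ E', E' ⊆ E → η₅ * E.card ≤ (E'.card : ℝ) → G E' ≤ G E + ξ * T

private theorem hom_sub {N : ℕ} (G : Finset (Fin N) → ℝ) (T ξ η₅ : ℝ) (hξ : 0 < ξ) (h5 : 0 < η₅)
    (h5' : η₅ ≤ 1) (hG : ∀ S, 0 ≤ G S ∧ G S ≤ T) (j : ℕ) :
    ∀ E : Finset (Fin N), E.Nonempty → T ≤ G E + j * (ξ * T) →
      ∃ E', E' ⊆ E ∧ E'.Nonempty ∧ hom G T ξ η₅ E' ∧ η₅ ^ j * E.card ≤ (E'.card : ℝ) := by
  have hT : 0 ≤ T := (hG ∅).1.trans (hG ∅).2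
  have hξT : 0 ≤ ξ * T := mul_nonneg hξ.le hT
  induction j with
  | zero =>
    intro E hE h
    refine ⟨E, Finset.Subset.refl E, hE, ?_, by simp⟩
    intro E' _ _
    have h1 := (hG E').2
    simp only [Nat.cast_zero, zero_mul, add_zero] at h
    linarith
  | succ j ih =>
    intro E hE h
    by_cases hh : hom G T ξ η₅ E
    · refine ⟨E, Finset.Subset.refl E, hE, hh, ?_⟩
      have h1 : η₅ ^ (j + 1) ≤ 1 := pow_le_one₀ h5.le h5'
      have h2 : (0 : ℝ) ≤ E.card := Nat.cast_nonneg _
      nlinarith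
    · unfold hom at hh
      push Not at hh
      obtain ⟨E', hE', hcard, hGE⟩ := hh
      have hpos : (0 : ℝ) < E.card := by exact_mod_cast hE.card_pos
      have hne : E'.Nonempty := by
        rw [← Finset.card_pos]
        have h1 : (0 : ℝ) < E'.card := lt_of_lt_of_le (mul_pos h5 hpos) hcard
        exact_mod_cast h1
      have hT' : T ≤ G E' + j * (ξ * T) := by
        push_cast at h
        linarith
      obtain ⟨E'', h1, h2, h3, h4⟩ := ih E' hne hT'
      refine ⟨E'', h1.trans hE', h2, h3, ?_⟩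
      calc η₅ ^ (j + 1) * (E.card : ℝ) = η₅ ^ j * (η₅ * E.card) := by ring
        _ ≤ η₅ ^ j * E'.card := mul_le_mul_of_nonneg_left hcard (pow_nonneg h5.le j)
        _ ≤ _ := h4

/-- M01 (regular partition): for an antitone function `G` on sets with values in `[0, T]` there is
a partition into boundedly many classes, all homogeneous except the class `0` which is small. -/
theorem exists_partition (ξ η₅ η : ℝ) (hξ : 0 < ξ) (h5 : 0 < η₅) (h5' : η₅ ≤ 1) (hη : 0 < η) :
    ∃ r₀ : ℕ, ∀ (N : ℕ) (G : Finset (Fin N) → ℝ) (T : ℝ), (∀ S, 0 ≤ G S ∧ G S ≤ T) →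
      (∀ S S', S ⊆ S' → G S' ≤ G S) →
      ∃ (r : ℕ) (c : Fin N → Fin (r + 1)), r ≤ r₀ ∧ ((cls c 0).card : ℝ) ≤ η * N ∧
        ∀ τ, τ ≠ 0 → (cls c τ).Nonempty ∧ ∀ E', E' ⊆ cls c τ →
          η₅ * (cls c τ).card ≤ (E'.card : ℝ) → G E' ≤ G (cls c τ) + ξ * T := by
  classical
  obtain ⟨k, hk⟩ := exists_nat_ge (1 / ξ)
  set δ : ℝ := η₅ ^ k * η with hδ
  have hδ0 : 0 < δ := mul_pos (pow_pos h5 k) hη
  obtain ⟨r₀, hr₀⟩ := exists_nat_ge (1 / δ)
  refine ⟨r₀, ?_⟩
  intro N G T hG _
  have hT : 0 ≤ T := (hG ∅).1.trans (hG ∅).2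
  rcases Nat.eq_zero_or_pos N with hN | hN
  · subst hN
    refine ⟨0, fun i => i.elim0, Nat.zero_le _, ?_, ?_⟩
    · have h1 : (cls (fun i : Fin 0 => (i.elim0 : Fin (0 + 1))) 0).card ≤ 0 := by
        refine (Finset.card_le_univ _).trans ?_
        simp
      have h2 : (cls (fun i : Fin 0 => (i.elim0 : Fin (0 + 1))) 0).card = 0 := by omega
      rw [h2]
      simp
    · intro τ hτ
      exact absurd (Fin.ext (by have h1 := τ.2; have h2 : ((0 : Fin (0 + 1)) : ℕ) = 0 := rfl; omega)) hτ
  have hNr : (0 : ℝ) < N := by exact_mod_cast hN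
  let Good : ℕ → Prop := fun r => ∃ c : Fin N → Fin (r + 1), ∀ τ, τ ≠ 0 →
    (cls c τ).Nonempty ∧ hom G T ξ η₅ (cls c τ) ∧ δ * N ≤ ((cls c τ).card : ℝ)
  have hgood0 : Good 0 := ⟨fun _ => 0, fun τ hτ => absurd (Fin.ext (by
    have h1 := τ.2
    have h2 : ((0 : Fin (0 + 1)) : ℕ) = 0 := rfl
    omega)) hτ⟩
  have hbound : ∀ r, Good r → r ≤ r₀ := by
    rintro r ⟨c, hc⟩
    have h1 : ∑ τ : Fin (r + 1), (cls c τ).card = N := by
      have h2 := Finset.card_eq_sum_card_fiberwise (f := c) (s := (Finset.univ : Finset (Fin N)))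
        (t := (Finset.univ : Finset (Fin (r + 1)))) (fun i _ => by simp)
      rw [Finset.card_univ, Fintype.card_fin] at h2
      refine Eq.trans ?_ h2.symm
      refine Finset.sum_congr rfl fun τ _ => ?_
      congr 1
    have h2 : (∑ τ : Fin (r + 1), ((cls c τ).card : ℝ)) = N := by exact_mod_cast h1
    rw [Fin.sum_univ_succ] at h2
    have h3 : ∑ τ : Fin r, δ * N ≤ ∑ τ : Fin r, ((cls c τ.succ).card : ℝ) :=
      Finset.sum_le_sum fun τ _ => (hc τ.succ (Fin.succ_ne_zero τ)).2.2
    rw [Finset.sum_const, Finset.card_univ, Fintype.card_fin, nsmul_eq_mul] at h3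
    have h4 : (0 : ℝ) ≤ ((cls c 0).card : ℝ) := Nat.cast_nonneg _
    have h5 : (r : ℝ) * (δ * N) ≤ N := by linarith
    have h6 : (r : ℝ) * δ ≤ 1 := by
      have : ((r : ℝ) * δ) * N ≤ 1 * N := by linarith
      exact le_of_mul_le_mul_right this hNr
    have h7 : (r : ℝ) ≤ 1 / δ := by
      rw [le_div_iff₀ hδ0]
      exact h6
    exact_mod_cast h7.trans hr₀
  set r := Nat.findGreatest Good r₀ with hr
  have hgr : Good r := Nat.findGreatest_spec (P := Good) (Nat.zero_le r₀) hgood0
  obtain ⟨c, hc⟩ := hgr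
  refine ⟨r, c, Nat.findGreatest_le r₀, ?_, fun τ hτ => ⟨(hc τ hτ).1, (hc τ hτ).2.1⟩⟩
  by_contra hcon
  push Not at hcon
  -- peel off one more class
  have hne : (cls c 0).Nonempty := by
    rw [← Finset.card_pos]
    have h1 : (0 : ℝ) < ((cls c 0).card : ℝ) := lt_trans (mul_pos hη hNr) hcon
    exact_mod_cast h1
  have hTk : T ≤ G (cls c 0) + k * (ξ * T) := by
    have h1 := (hG (cls c 0)).1
    have h2 : 1 ≤ k * ξ := by
      rw [div_le_iff₀ hξ] at hk
      exact hk
    have h3 : T ≤ (k * ξ) * T := by nlinarith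
    linarith
  obtain ⟨E, hE1, hE2, hE3, hE4⟩ := hom_sub G T ξ η₅ hξ h5 h5' hG k (cls c 0) hne hTk
  have hgood : Good (r + 1) := by
    refine ⟨fun i => if i ∈ E then Fin.last (r + 1) else (c i).castSucc, ?_⟩
    intro τ hτ
    induction τ using Fin.lastCases with
    | last =>
      have h1 : cls (fun i => if i ∈ E then Fin.last (r + 1) else (c i).castSucc)
          (Fin.last (r + 1)) = E := by
        ext i
        simp only [cls, Finset.mem_filter, Finset.mem_univ, true_and]
        constructor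
        · intro h
          by_contra hi
          rw [if_neg hi] at h
          exact absurd h (Fin.castSucc_lt_last (c i)).ne
        · intro h
          rw [if_pos h]
      rw [h1]
      refine ⟨hE2, hE3, ?_⟩
      have h2 : δ * N ≤ η₅ ^ k * ((cls c 0).card : ℝ) := by
        rw [hδ, mul_assoc]
        exact mul_le_mul_of_nonneg_left hcon.le (pow_nonneg h5.le k)
      exact h2.trans hE4
    | cast τ =>
      have hτ0 : τ ≠ 0 := by
        rintro rfl
        exact hτ Fin.castSucc_zero
      have h1 : cls (fun i => if i ∈ E then Fin.last (r + 1) else (c i).castSucc)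
          τ.castSucc = cls c τ := by
        ext i
        simp only [cls, Finset.mem_filter, Finset.mem_univ, true_and]
        constructor
        · intro h
          by_cases hi : i ∈ E
          · rw [if_pos hi] at h
            exact absurd h (Fin.castSucc_lt_last τ).ne'
          · rw [if_neg hi] at h
            exact Fin.castSucc_injective _ h
        · intro h
          have hi : i ∉ E := by
            intro hi
            have h2 := hE1 hi
            simp only [cls, Finset.mem_filter, Finset.mem_univ, true_and] at h2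
            rw [h] at h2
            exact hτ0 h2
          rw [if_neg hi, h]
      rw [h1]
      exact hc τ hτ0
  have h1 := hbound (r + 1) hgood
  have h2 := Nat.le_findGreatest (P := Good) h1 hgood
  rw [← hr] at h2
  omega

end Pool.Agent.Lib_GD

end

/-! ### from `Lib_KF.SheetDefs` -/

section

/-! Sheets: the part of `Spec R → ℂ ^ (n + 1)` which is finite etale, `{h ≠ 0}`. -/

open MeasureTheory
open scoped ENNReal NNReal

namespace Pool.Agent.Lib_KF

open Pool.Agent.Lib_GD

/-- `R` over `ℂ[x]` away from `h = 0`: a homogeneous basis `β` of `Frac R` contained in `R`,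
`β 0 = 1`, fibres of constant cardinality `k + 1`, local holomorphic sections. -/
structure Sheets {R : Type} [CommRing R] [Algebra ℂ R] (𝒜 : ℕ → Submodule ℂ R) {n : ℕ}
    (x : Fin (n + 1) → R) (k : ℕ) where
  β : Fin (k + 1) → R
  β_zero : β 0 = 1
  deg : Fin (k + 1) → ℕ
  β_mem : ∀ a, β a ∈ 𝒜 (deg a)
  h : MvPolynomial (Fin (n + 1)) ℂ
  h_ne : h ≠ 0
  w : ℕ
  h_hom : h.IsHomogeneous w
  fin : ∀ y, MvPolynomial.eval y h ≠ 0 → (fib x y).Finite
  card : ∀ y, MvPolynomial.eval y h ≠ 0 → (fib x y).ncard = k + 1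
  /-- the matrix `(ν (β a))` is invertible -/
  indep : ∀ y, MvPolynomial.eval y h ≠ 0 → ∀ c : Fin (k + 1) → ℂ,
    (∀ ν ∈ fib x y, ∑ a, c a * ν (β a) = 0) → c = 0
  /-- local holomorphic sections -/
  sec : ∀ y₀, MvPolynomial.eval y₀ h ≠ 0 → ∀ ν₀ ∈ fib x y₀,
    ∃ (δ : ℝ) (σ : (Fin (n + 1) → ℂ) → (R →ₐ[ℂ] ℂ)), 0 < δ ∧ σ y₀ = ν₀ ∧
      (∀ y ∈ Metric.ball y₀ δ, σ y ∈ fib x y) ∧
      ∀ f, AnalyticOnNhd ℂ (fun y => σ y f) (Metric.ball y₀ δ)
  /-- `h R ⊆ ⨁ ℂ[x] β a` -/
  span : ∀ f : R, ∃ p : Fin (k + 1) → MvPolynomial (Fin (n + 1)) ℂ,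
    MvPolynomial.aeval x h * f = ∑ a, MvPolynomial.aeval x (p a) * β a
  /-- traces -/
  tr : Fin (k + 1) → Fin (k + 1) → MvPolynomial (Fin (n + 1)) ℂ
  tr_eq : ∀ y, MvPolynomial.eval y h ≠ 0 → ∀ a c,
    ∑ᶠ ν ∈ fib x y, ν (β a) * ν (β c) = MvPolynomial.eval y (tr a c)

section SheetDefsAux

variable {R : Type} [CommRing R] [IsDomain R] [IsIntegrallyClosed R] [Algebra ℂ R] {n : ℕ}
  [Algebra (PA n) R] [IsScalarTower ℂ (PA n) R] [Module.Finite (PA n) R]
  [Module.IsTorsionFree (PA n) R]

/-- the discriminant is equivariant -/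
private theorem SheetDefs_disc {𝒜 : ℕ → Submodule ℂ R} [GradedAlgebra 𝒜] {d : ℕ}
    (hx : ∀ b, xx R n b ∈ 𝒜 d) {k : ℕ} (β : Fin (k + 1) → R) (deg : Fin (k + 1) → ℕ)
    (hdeg : ∀ a, β a ∈ 𝒜 (deg a)) (t : ℂ) (ht : t ≠ 0) (y : Fin (n + 1) → ℂ) :
    MvPolynomial.eval (t ^ d • y) (shDisc (n := n) β) =
      t ^ (∑ a, deg a + ∑ a, deg a) * MvPolynomial.eval y (shDisc (n := n) β) := by
  unfold shDisc
  rw [RingHom.map_det, RingHom.map_det]
  have h1 : ∀ z : Fin (n + 1) → ℂ, (MvPolynomial.eval z).mapMatrix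
      (Matrix.of fun a c => Algebra.intTrace (PA n) R (β a * β c)) =
      Matrix.of fun a c => MvPolynomial.eval z (Algebra.intTrace (PA n) R (β a * β c)) := by
    intro z
    ext a c
    simp
  rw [h1, h1]
  have h2 : (Matrix.of fun a c =>
      MvPolynomial.eval (t ^ d • y) (Algebra.intTrace (PA n) R (β a * β c))) =
      Matrix.of fun a c => t ^ deg a * (Matrix.of fun a c => t ^ deg c *
        (Matrix.of fun a c =>
          MvPolynomial.eval y (Algebra.intTrace (PA n) R (β a * β c))) a c) a c := by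
    ext a c
    simp only [Matrix.of_apply]
    rw [sh_trace_hom hx (SetLike.mul_mem_graded (hdeg a) (hdeg c)) t ht y, pow_add]
    ring
  rw [h2, Matrix.det_mul_column, Matrix.det_mul_row, Finset.prod_pow_eq_pow_sum, pow_add]
  ring

/-- the sheets over a `ℂ[x]`-algebra `R` -/
private theorem SheetDefs_main {𝒜 : ℕ → Submodule ℂ R} [GradedAlgebra 𝒜] {d : ℕ} (hd : 1 ≤ d)
    (hx : ∀ b, xx R n b ∈ 𝒜 d) (Q : R) (hQ : Q ≠ 0) (j : ℕ) (hQj : Q ∈ 𝒜 j) :
    ∃ k, ∃ S : Sheets 𝒜 (xx R n) k,
      ∀ y, MvPolynomial.eval y S.h ≠ 0 → ∀ ν ∈ fib (xx R n) y, ν Q ≠ 0 := by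
  classical
  obtain ⟨k, β, deg, hβ0, hdeg, hβ, hsp⟩ := sh_basis (R := R) (n := n) 𝒜
  have hne : shDisc (n := n) β ≠ 0 := shDisc_ne β hβ hsp
  have hspan := shDisc_span β hβ hsp
  have hN : Algebra.intNorm (PA n) R Q ≠ 0 := sh_norm_ne hQ
  obtain ⟨w₁, -, hw₁⟩ := (kc_homog_of_equivariant (shDisc (n := n) β) hd
    (SheetDefs_disc hx β deg hdeg)).resolve_left hne
  obtain ⟨e, he⟩ := sh_norm_hom hx hQj
  obtain ⟨w₂, -, hw₂⟩ := (kc_homog_of_equivariant (Algebra.intNorm (PA n) R Q) hd he).resolve_left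
    hN
  have hev : ∀ y, MvPolynomial.eval y (shDisc (n := n) β * Algebra.intNorm (PA n) R Q) ≠ 0 →
      MvPolynomial.eval y (shDisc (n := n) β) ≠ 0 ∧
      MvPolynomial.eval y (Algebra.intNorm (PA n) R Q) ≠ 0 := by
    intro y hy
    rw [map_mul] at hy
    exact ⟨left_ne_zero_of_mul hy, right_ne_zero_of_mul hy⟩
  have hfb := fun y hy => sh_fibre β hβ hspan y hy
  refine ⟨k, {
    β := β
    β_zero := hβ0
    deg := deg
    β_mem := hdeg
    h := shDisc (n := n) β * Algebra.intNorm (PA n) R Q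
    h_ne := mul_ne_zero hne hN
    w := w₁ + w₂
    h_hom := hw₁.mul hw₂
    fin := fun y hy => (hfb y (hev y hy).1).1
    card := fun y hy => (hfb y (hev y hy).1).2.1
    indep := fun y hy => (hfb y (hev y hy).1).2.2.1
    sec := fun y₀ hy₀ ν₀ hν₀ => sh_sec β hβ hspan y₀ (hev y₀ hy₀).1 ν₀ hν₀
    span := ?_
    tr := fun a c => Algebra.intTrace (PA n) R (β a * β c)
    tr_eq := ?_ }, ?_⟩
  · intro f
    obtain ⟨p, hp⟩ := hspan f
    refine ⟨fun a => Algebra.intNorm (PA n) R Q * p a, ?_⟩
    rw [aeval_xx, map_mul, mul_right_comm, hp, Finset.sum_mul]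
    refine Finset.sum_congr rfl fun a _ => ?_
    rw [aeval_xx, map_mul]
    ring
  · intro y hy a c
    rw [← (hfb y (hev y hy).1).2.2.2.1 (β a * β c)]
    exact finsum_mem_congr rfl fun ν _ => (map_mul ν _ _).symm
  · intro y hy ν hν h0
    refine (hev y hy).2 ?_
    rw [← (hfb y (hev y hy).1).2.2.2.2 Q,
      finprod_mem_eq_finite_toFinset_prod _ (hfb y (hev y hy).1).1]
    exact Finset.prod_eq_zero ((Set.Finite.mem_toFinset _).2 hν) h0

end SheetDefsAux

/-- For every non-zero homogeneous `Q` there are sheets on which `Q` does not vanish.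
Proof (SH6): let `ℂ[x]` act on `R` through `aeval x` (`letI := (MvPolynomial.aeval x).toAlgebra`;
finite by `x_finite`, torsion free by `x_indep`), then `xx R n = x`. `sh_basis`, `shDisc_ne`,
`shDisc_span`, `sh_fibre`, `sh_sec` give everything with `tr a c = intTrace (β a * β c)` and
`h = shDisc β * intNorm Q`: homogeneous by `sh_trace_hom`, `sh_norm_hom` and
`kc_homog_of_equivariant` (for the determinant: `δ (t ^ d y) = t ^ (2 ∑ deg a) δ (y)`, each row and
column scales). `ν Q ≠ 0` by the product formula for the norm. -/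
theorem exists_sheets {R : Type} [CommRing R] [Algebra ℂ R] {𝒜 : ℕ → Submodule ℂ R}
    [GradedAlgebra 𝒜] {n r d : ℕ} {x : Fin (n + 1) → R} {G : R} (h : IsFano 𝒜 n r d x G)
    (Q : R) (hQ : Q ≠ 0) (j : ℕ) (hQj : Q ∈ 𝒜 j) :
    ∃ k, ∃ S : Sheets 𝒜 x k, ∀ y, MvPolynomial.eval y S.h ≠ 0 → ∀ ν ∈ fib x y, ν Q ≠ 0 := by
  have := h.domain
  have := h.normal
  letI : Algebra (PA n) R :=
    (MvPolynomial.aeval x : MvPolynomial (Fin (n + 1)) ℂ →ₐ[ℂ] R).toRingHom.toAlgebra
  have hmap : ∀ p : PA n, algebraMap (PA n) R p = MvPolynomial.aeval x p := fun p => rfl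
  haveI : IsScalarTower ℂ (PA n) R := IsScalarTower.of_algebraMap_eq fun c => by
    rw [hmap, MvPolynomial.algebraMap_eq, MvPolynomial.aeval_C]
  have hfin := h.x_finite
  rw [Algebra.adjoin_range_eq_range_aeval] at hfin
  haveI : Module.Finite (PA n) R := by
    have h1 : (algebraMap (MvPolynomial.aeval x : MvPolynomial (Fin (n + 1)) ℂ →ₐ[ℂ] R).range
        R).Finite := RingHom.finite_algebraMap.2 hfin
    have h2 : (MvPolynomial.aeval x :
        MvPolynomial (Fin (n + 1)) ℂ →ₐ[ℂ] R).rangeRestrict.toRingHom.Finite :=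
      RingHom.Finite.of_surjective _
        (AlgHom.rangeRestrict_surjective (MvPolynomial.aeval x))
    exact RingHom.finite_algebraMap.1 (h1.comp h2)
  haveI : Module.IsTorsionFree (PA n) R :=
    Module.isTorsionFree_iff_algebraMap_injective.2 h.x_indep
  have hxx : xx R n = x := by
    funext b
    rw [xx, hmap, MvPolynomial.aeval_X]
  have hx : ∀ b, xx R n b ∈ 𝒜 d := by
    rw [hxx]
    exact h.x_mem
  have key := SheetDefs_main (𝒜 := 𝒜) h.d_pos hx Q hQ j hQj
  rw [hxx] at key
  exact key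

end Pool.Agent.Lib_KF

end

/-! ### from `Lib_KF.KCTr` -/

section

/-!
# KC08: the traces `T_l = ∑_ν Φ (ν) ν (β l)` of a square integrable function are polynomials

`Φ (ν) = ∑ a, F a y * ν (β a)` for `ν` in the fibre over `y`.
-/

open MeasureTheory
open scoped ENNReal NNReal

namespace Pool.Agent.Lib_KF

open Pool.Agent.Lib_GD

variable {R : Type} [CommRing R] [Algebra ℂ R] {𝒜 : ℕ → Submodule ℂ R}
    [GradedAlgebra 𝒜] {n r d : ℕ} {x : Fin (n + 1) → R} {G : R}

private theorem kctr_eval_smul {N w : ℕ} {p : MvPolynomial (Fin N) ℂ} (hp : p.IsHomogeneous w)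
    (c : ℂ) (y : Fin N → ℂ) :
    MvPolynomial.eval (c • y) p = c ^ w * MvPolynomial.eval y p := by
  rw [MvPolynomial.eval_eq, MvPolynomial.eval_eq, Finset.mul_sum]
  refine Finset.sum_congr rfl fun m hm => ?_
  have h1 : ∑ i ∈ m.support, m i = w := by
    have := hp (MvPolynomial.mem_support_iff.1 hm)
    rw [Finsupp.weight_apply] at this
    simpa [Finsupp.sum] using this
  have h2 : ∏ i ∈ m.support, (c • y) i ^ m i = c ^ w * ∏ i ∈ m.support, y i ^ m i := by
    rw [← h1, ← Finset.prod_pow_eq_pow_sum, ← Finset.prod_mul_distrib]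
    refine Finset.prod_congr rfl fun i _ => ?_
    rw [Pi.smul_apply, smul_eq_mul, mul_pow]
  rw [h2]
  ring

private theorem kctr_differentiable {N : ℕ} (p : MvPolynomial (Fin N) ℂ) :
    Differentiable ℂ (fun y : Fin N → ℂ => MvPolynomial.eval y p) := by
  induction p using MvPolynomial.induction_on with
  | C a => simp
  | add p q hp hq =>
    simp_rw [map_add]
    exact hp.fun_add hq
  | mul_X p i hp =>
    simp_rw [map_mul, MvPolynomial.eval_X]
    exact hp.fun_mul (differentiable_apply i)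

/-- The trace polynomials are homogeneous of degree `(deg a + deg c) / d` where `h ≠ 0`
(`tr_eq` and `rot_bijOn`; `h (t ^ d y) = t ^ (d w) h y ≠ 0`). -/
theorem kc_tr_equivariant (h : IsFano 𝒜 n r d x G) {k : ℕ} (S : Sheets 𝒜 x k)
    (a c : Fin (k + 1)) (t : ℂ) (ht : t ≠ 0) (y : Fin (n + 1) → ℂ)
    (hy : MvPolynomial.eval y S.h ≠ 0) :
    MvPolynomial.eval (t ^ d • y) (S.tr a c) =
      t ^ (S.deg a + S.deg c) * MvPolynomial.eval y (S.tr a c) := by
  have hy' : MvPolynomial.eval (t ^ d • y) S.h ≠ 0 := by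
    rw [kctr_eval_smul S.h_hom]
    exact mul_ne_zero (pow_ne_zero _ (pow_ne_zero _ ht)) hy
  rw [← S.tr_eq _ hy', ← S.tr_eq _ hy, mul_finsum_mem' _ _ (S.fin y hy)]
  symm
  refine finsum_mem_eq_of_bijOn (rot 𝒜 t) (rot_bijOn 𝒜 h.x_mem ht y) fun ν _ => ?_
  rw [rot_apply 𝒜 t ν (S.β_mem a), rot_apply 𝒜 t ν (S.β_mem c)]
  ring

/-- `T_l` is square integrable: `T_l = ∑ᶠ ν, Φ (ν) ν (β l)`, Cauchy-Schwarz over the
`k + 1` points of the fibre, `|ν (β l)| ≤ C` and `|ν G| ≤ C` (`fib_bdd`), and `ν G ≠ 0` outside a null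
set (`fib_ne`, `GPn.mv_null`). -/
theorem kc_trace_L2 (h : IsFano 𝒜 n r d x G) (hG : G ≠ 0) {k : ℕ} (S : Sheets 𝒜 x k)
    (F : Fin (k + 1) → (Fin (n + 1) → ℂ) → ℂ)
    (hL2 : ∫⁻ y in W0 S.h, ∑' ν : fib x y,
      ENNReal.ofReal (‖∑ a, F a y * ν.1 (S.β a)‖ ^ 2 * ‖ν.1 G‖ ^ (-2 / (r : ℝ))) ≠ ⊤)
    (l : Fin (k + 1)) :
    ∫⁻ y in W0 S.h, ‖∑ a, F a y * MvPolynomial.eval y (S.tr a l)‖ₑ ^ 2 ≠ ⊤ := by
  classical
  obtain ⟨C₁, hC₁⟩ := fib_bdd (n := n) h.x_finite (S.β l)
  obtain ⟨C₂, hC₂⟩ := fib_bdd (n := n) h.x_finite G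
  have := h.domain
  obtain ⟨q, hq, hqG⟩ := fib_ne (n := n) h.x_finite G hG
  set A : ℝ := max C₂ 1 with hA
  have hA1 : 0 < A := lt_of_lt_of_le one_pos (le_max_right _ _)
  have hr : (0 : ℝ) < r := by exact_mod_cast h.r_pos
  set K : ℝ := (k + 1) * C₁ ^ 2 * A ^ (2 / (r : ℝ)) with hK
  have hAp : 0 < A ^ (2 / (r : ℝ)) := Real.rpow_pos_of_pos hA1 _
  have hK0 : 0 ≤ K := by positivity
  have hpt : ∀ y ∈ W0 S.h, MvPolynomial.eval y q ≠ 0 →
      ‖∑ a, F a y * MvPolynomial.eval y (S.tr a l)‖ₑ ^ 2 ≤ ENNReal.ofReal K *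
        ∑' ν : fib x y, ENNReal.ofReal
          (‖∑ a, F a y * ν.1 (S.β a)‖ ^ 2 * ‖ν.1 G‖ ^ (-2 / (r : ℝ))) := by
    intro y hy hyq
    have hfin := S.fin y hy.2
    letI : Fintype (fib x y) := hfin.fintype
    have hyb : y ∈ Metric.ball (0 : Fin (n + 1) → ℂ) 1 := by
      rw [mem_ball_zero_iff]
      exact hy.1
    have hT : ∑ a, F a y * MvPolynomial.eval y (S.tr a l) =
        ∑ ν : fib x y, (∑ a, F a y * ν.1 (S.β a)) * ν.1 (S.β l) := by
      have h1 : ∀ a, MvPolynomial.eval y (S.tr a l) =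
          ∑ ν : fib x y, ν.1 (S.β a) * ν.1 (S.β l) := by
        intro a
        rw [← S.tr_eq y hy.2 a l,
          ← finsum_set_coe_eq_finsum_mem (f := fun ν : R →ₐ[ℂ] ℂ => ν (S.β a) * ν (S.β l)),
          finsum_eq_sum_of_fintype]
      simp_rw [h1, Finset.mul_sum, Finset.sum_mul]
      rw [Finset.sum_comm]
      refine Finset.sum_congr rfl fun ν _ => Finset.sum_congr rfl fun a _ => ?_
      ring
    have hcard : (Fintype.card (fib x y) : ℝ) = k + 1 := by
      have := S.card y hy.2
      rw [← Nat.card_coe_set_eq, Nat.card_eq_fintype_card] at this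
      rw [this]
      push_cast
      ring
    have hle : ‖∑ a, F a y * MvPolynomial.eval y (S.tr a l)‖ ^ 2 ≤
        K * ∑ ν : fib x y, ‖∑ a, F a y * ν.1 (S.β a)‖ ^ 2 * ‖ν.1 G‖ ^ (-2 / (r : ℝ)) := by
      rw [hT]
      have h2 : ‖∑ ν : fib x y, (∑ a, F a y * ν.1 (S.β a)) * ν.1 (S.β l)‖ ^ 2 ≤
          (k + 1) * ∑ ν : fib x y, ‖(∑ a, F a y * ν.1 (S.β a)) * ν.1 (S.β l)‖ ^ 2 := by
        refine (pow_le_pow_left₀ (norm_nonneg _) (norm_sum_le _ _) 2).trans ?_
        have := sq_sum_le_card_mul_sum_sq (s := (Finset.univ : Finset (fib x y)))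
          (f := fun ν => ‖(∑ a, F a y * ν.1 (S.β a)) * ν.1 (S.β l)‖)
        rw [Finset.card_univ, hcard] at this
        exact this
      refine h2.trans ?_
      rw [hK, mul_assoc, mul_assoc]
      refine mul_le_mul_of_nonneg_left ?_ (by positivity)
      rw [Finset.mul_sum, Finset.mul_sum]
      refine Finset.sum_le_sum fun ν _ => ?_
      have h3 : ‖ν.1 (S.β l)‖ ≤ C₁ := hC₁ y hyb ν.1 ν.2
      have h4 : ‖ν.1 G‖ ≤ A := (hC₂ y hyb ν.1 ν.2).trans (le_max_left _ _)
      have h5 : 0 < ‖ν.1 G‖ := norm_pos_iff.2 (hqG y hyq ν.1 ν.2)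
      have h6 : 1 ≤ A ^ (2 / (r : ℝ)) * ‖ν.1 G‖ ^ (-2 / (r : ℝ)) := by
        rw [neg_div, Real.rpow_neg h5.le, ← div_eq_mul_inv, one_le_div (Real.rpow_pos_of_pos h5 _)]
        exact Real.rpow_le_rpow h5.le h4 (by positivity)
      have h7 : ‖ν.1 (S.β l)‖ ^ 2 ≤ C₁ ^ 2 := pow_le_pow_left₀ (norm_nonneg _) h3 2
      rw [norm_mul, mul_pow]
      calc ‖∑ a, F a y * ν.1 (S.β a)‖ ^ 2 * ‖ν.1 (S.β l)‖ ^ 2 ≤
            ‖∑ a, F a y * ν.1 (S.β a)‖ ^ 2 * C₁ ^ 2 :=
            mul_le_mul_of_nonneg_left h7 (by positivity)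
        _ = ‖∑ a, F a y * ν.1 (S.β a)‖ ^ 2 * C₁ ^ 2 * 1 := by ring
        _ ≤ ‖∑ a, F a y * ν.1 (S.β a)‖ ^ 2 * C₁ ^ 2 *
            (A ^ (2 / (r : ℝ)) * ‖ν.1 G‖ ^ (-2 / (r : ℝ))) :=
            mul_le_mul_of_nonneg_left h6 (by positivity)
        _ = _ := by ring
    rw [tsum_fintype, ← ENNReal.ofReal_sum_of_nonneg (fun ν _ => by positivity),
      ← ENNReal.ofReal_mul hK0, ← ofReal_norm_eq_enorm, ← ENNReal.ofReal_pow (norm_nonneg _)]
    exact ENNReal.ofReal_le_ofReal hle
  have hae : ∀ᵐ y ∂(volume.restrict (W0 S.h)), ‖∑ a, F a y * MvPolynomial.eval y (S.tr a l)‖ₑ ^ 2 ≤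
      ENNReal.ofReal K * ∑' ν : fib x y, ENNReal.ofReal
          (‖∑ a, F a y * ν.1 (S.β a)‖ ^ 2 * ‖ν.1 G‖ ^ (-2 / (r : ℝ))) := by
    have h1 : ∀ᵐ y ∂(volume : Measure (Fin (n + 1) → ℂ)), MvPolynomial.eval y q ≠ 0 := by
      rw [ae_iff]
      simpa using GPn.mv_null q hq
    have h2 := ae_restrict_mem (μ := (volume : Measure (Fin (n + 1) → ℂ)))
      (isOpen_W0 S.h).measurableSet
    filter_upwards [ae_restrict_of_ae h1, h2] with y hy1 hy2
    exact hpt y hy2 hy1
  refine ((lintegral_mono_ae hae).trans_lt ?_).ne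
  rw [lintegral_const_mul' _ _ ENNReal.ofReal_ne_top]
  exact ENNReal.mul_lt_top ENNReal.ofReal_lt_top (lt_top_iff_ne_top.2 hL2)

/-- The traces are (homogeneous) polynomials: `kc_extend` with `U` the polydisc, then `kc_poly` with
`j = deg l` (the equivariance extends from `W0` to the polydisc by continuity). -/
theorem kc_trace_poly (h : IsFano 𝒜 n r d x G) (hG : G ≠ 0) {k : ℕ} (S : Sheets 𝒜 x k)
    (F : Fin (k + 1) → (Fin (n + 1) → ℂ) → ℂ)
    (hF : ∀ a, DifferentiableOn ℂ (F a) (W0 S.h))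
    (hinv : ∀ a, ∀ θ : ℝ, ∀ y ∈ W0 S.h,
      F a (Complex.exp (d * θ * Complex.I) • y) * Complex.exp (S.deg a * θ * Complex.I) = F a y)
    (hL2 : ∫⁻ y in W0 S.h, ∑' ν : fib x y,
      ENNReal.ofReal (‖∑ a, F a y * ν.1 (S.β a)‖ ^ 2 * ‖ν.1 G‖ ^ (-2 / (r : ℝ))) ≠ ⊤) :
    ∃ P : Fin (k + 1) → MvPolynomial (Fin (n + 1)) ℂ, ∀ l, ∀ y ∈ W0 S.h,
      ∑ a, F a y * MvPolynomial.eval y (S.tr a l) = MvPolynomial.eval y (P l) := by
  have hW : W0 S.h = Metric.ball (0 : Fin (n + 1) → ℂ) 1 ∩ {y | MvPolynomial.eval y S.h ≠ 0} := by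
    ext y
    simp [W0]
  have key : ∀ l, ∃ P : MvPolynomial (Fin (n + 1)) ℂ, ∀ y ∈ W0 S.h,
      ∑ a, F a y * MvPolynomial.eval y (S.tr a l) = MvPolynomial.eval y P := by
    intro l
    have hd : DifferentiableOn ℂ (fun y => ∑ a, F a y * MvPolynomial.eval y (S.tr a l))
        (Metric.ball (0 : Fin (n + 1) → ℂ) 1 ∩ {y | MvPolynomial.eval y S.h ≠ 0}) := by
      rw [← hW]
      refine DifferentiableOn.fun_sum fun a _ => ?_
      exact (hF a).mul (kctr_differentiable _).differentiableOn
    have hi := kc_trace_L2 h hG S F hL2 l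
    rw [hW] at hi
    obtain ⟨g, hg, hgT⟩ := kc_extend (U := Metric.ball (0 : Fin (n + 1) → ℂ) 1)
      Metric.isOpen_ball S.h S.h_ne hd hi
    rw [← hW] at hgT
    have hnorm : ∀ θ : ℝ, ‖Complex.exp (d * θ * Complex.I)‖ = 1 := by
      intro θ
      have := Complex.norm_exp_ofReal_mul_I ((d : ℝ) * θ)
      push_cast at this
      exact this
    have hball : ∀ θ : ℝ, ∀ y ∈ Metric.ball (0 : Fin (n + 1) → ℂ) 1,
        Complex.exp (d * θ * Complex.I) • y ∈ Metric.ball (0 : Fin (n + 1) → ℂ) 1 := by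
      intro θ y hy
      rw [mem_ball_zero_iff] at hy ⊢
      rw [norm_smul, hnorm, one_mul]
      exact hy
    have hinv0 : ∀ θ : ℝ, ∀ y ∈ W0 S.h,
        g (Complex.exp (d * θ * Complex.I) • y) =
          Complex.exp (S.deg l * θ * Complex.I) * g y := by
      intro θ y hy
      set t : ℂ := Complex.exp (θ * Complex.I) with ht
      have hpow : ∀ m : ℕ, t ^ m = Complex.exp (m * θ * Complex.I) := by
        intro m
        rw [ht, ← Complex.exp_nat_mul]
        congr 1
        ring
      have ht0 : t ≠ 0 := Complex.exp_ne_zero _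
      have hy' : Complex.exp (d * θ * Complex.I) • y ∈ W0 S.h := by
        rw [hW] at hy ⊢
        refine ⟨hball θ y hy.1, ?_⟩
        change MvPolynomial.eval (Complex.exp (d * θ * Complex.I) • y) S.h ≠ 0
        rw [kctr_eval_smul S.h_hom]
        exact mul_ne_zero (pow_ne_zero _ (Complex.exp_ne_zero _)) hy.2
      rw [hgT hy', hgT hy]
      simp only
      rw [Finset.mul_sum]
      refine Finset.sum_congr rfl fun a _ => ?_
      have h1 := kc_tr_equivariant h S a l t ht0 y hy.2
      rw [hpow d] at h1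
      rw [h1, pow_add, hpow, hpow, ← hinv a θ y hy]
      ring
    have hinv1 : ∀ θ : ℝ, ∀ y ∈ Metric.ball (0 : Fin (n + 1) → ℂ) 1,
        g (Complex.exp (d * θ * Complex.I) • y) =
          Complex.exp (S.deg l * θ * Complex.I) * g y := by
      intro θ y hy
      by_contra hcon
      have hc : ContinuousOn (fun y => g (Complex.exp (d * θ * Complex.I) • y) -
          Complex.exp (S.deg l * θ * Complex.I) * g y)
          (Metric.ball (0 : Fin (n + 1) → ℂ) 1) := by
        refine ContinuousOn.sub ?_ (continuousOn_const.mul hg.continuousOn)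
        refine hg.continuousOn.comp (continuous_const_smul _).continuousOn ?_
        intro z hz
        exact hball θ z hz
      have ho : IsOpen (Metric.ball (0 : Fin (n + 1) → ℂ) 1 ∩
          (fun y => g (Complex.exp (d * θ * Complex.I) • y) -
          Complex.exp (S.deg l * θ * Complex.I) * g y) ⁻¹' {0}ᶜ) :=
        hc.isOpen_inter_preimage Metric.isOpen_ball isOpen_compl_singleton
      obtain ⟨z, hz, hzh⟩ := kc_exists_ne S.h S.h_ne ho ⟨y, hy, fun h0 => hcon (sub_eq_zero.1 h0)⟩
      have hz1 : z ∈ W0 S.h := by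
        rw [hW]
        exact ⟨hz.1, hzh⟩
      exact hz.2 (sub_eq_zero.2 (hinv0 θ z hz1))
    obtain ⟨p, hp, _⟩ := kc_poly hg h.d_pos hinv1
    refine ⟨p, fun y hy => ?_⟩
    have h1 := hgT hy
    simp only at h1
    rw [← h1]
    refine hp y ?_
    rw [hW] at hy
    exact hy.1
  choose P hP using key
  exact ⟨P, hP⟩

end Pool.Agent.Lib_KF

end

/-! ### from `Lib_KF.KCSol` -/

section

/-!
# KC09: a function with polynomial traces is a fraction `N / h ^ m`
-/

open MeasureTheory
open scoped ENNReal NNReal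

namespace Pool.Agent.Lib_KF

open Pool.Agent.Lib_GD

private theorem kcsol_enum {R : Type} [CommRing R] [Algebra ℂ R] {𝒜 : ℕ → Submodule ℂ R}
    {n : ℕ} {x : Fin (n + 1) → R} {k : ℕ} (S : Sheets 𝒜 x k) (y : Fin (n + 1) → ℂ)
    (hy : MvPolynomial.eval y S.h ≠ 0) :
    ∃ e : Fin (k + 1) → (R →ₐ[ℂ] ℂ), Function.Injective e ∧ Set.range e = fib x y := by
  have hfin := S.fin y hy
  have hcard := S.card y hy
  have : Finite (fib x y) := hfin
  have h1 : Nat.card (fib x y) = k + 1 := by
    rw [← hcard]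
    rfl
  have e := (Finite.equivFinOfCardEq h1).symm
  refine ⟨fun i => (e i : R →ₐ[ℂ] ℂ), fun i j hij => e.injective (Subtype.ext hij), ?_⟩
  ext ν
  constructor
  · rintro ⟨i, rfl⟩
    exact (e i).2
  · intro hν
    exact ⟨e.symm ⟨ν, hν⟩, by simp⟩

private theorem kcsol_det_ne {R : Type} [CommRing R] [Algebra ℂ R] {𝒜 : ℕ → Submodule ℂ R}
    {n : ℕ} {x : Fin (n + 1) → R} {k : ℕ} (S : Sheets 𝒜 x k) (y : Fin (n + 1) → ℂ)
    (hy : MvPolynomial.eval y S.h ≠ 0) :
    MvPolynomial.eval y (Matrix.of S.tr).det ≠ 0 := by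
  obtain ⟨e, he, hr⟩ := kcsol_enum S y hy
  set B : Matrix (Fin (k + 1)) (Fin (k + 1)) ℂ := Matrix.of fun i a => e i (S.β a) with hB
  have hdB : B.det ≠ 0 := by
    intro h0
    obtain ⟨c, hc, hc0⟩ := Matrix.exists_mulVec_eq_zero_iff.2 h0
    refine hc (S.indep y hy c fun ν hν => ?_)
    rw [← hr] at hν
    obtain ⟨i, rfl⟩ := hν
    have h1 := congrFun hc0 i
    simp only [hB, Matrix.mulVec, dotProduct, Matrix.of_apply, Pi.zero_apply] at h1
    rw [← h1]
    exact Finset.sum_congr rfl fun a _ => mul_comm _ _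
  have hT : (MvPolynomial.eval y).mapMatrix (Matrix.of S.tr) = B.transpose * B := by
    ext a c
    rw [RingHom.mapMatrix_apply, Matrix.map_apply, Matrix.of_apply, ← S.tr_eq y hy a c, ← hr,
      finsum_mem_range he, finsum_eq_sum_of_fintype, Matrix.mul_apply]
    rfl
  rw [RingHom.map_det, hT, Matrix.det_mul, Matrix.det_transpose]
  exact mul_ne_zero hdB hdB

/-- Let `δ = det (tr a c)`. If `h y ≠ 0` then `(tr a c) (y) = Bᵀ B`, `B = (ν (β a))` a square matrix
(`card`), invertible (`indep`), so `δ (y) ≠ 0`. By the Nullstellensatz `h ^ m = δ q`. Cramer: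
`δ (y) F a = ∑ l, (adjugate) P l`, so `N = aeval x (q * ∑ ..) β a`, summed over `a`. -/
theorem kc_solve {R : Type} [CommRing R] [Algebra ℂ R] {𝒜 : ℕ → Submodule ℂ R}
    {n : ℕ} {x : Fin (n + 1) → R} {k : ℕ} (S : Sheets 𝒜 x k)
    (P : Fin (k + 1) → MvPolynomial (Fin (n + 1)) ℂ) :
    ∃ (m : ℕ) (N : R), ∀ y, MvPolynomial.eval y S.h ≠ 0 → ∀ F : Fin (k + 1) → ℂ,
      (∀ l, ∑ a, F a * MvPolynomial.eval y (S.tr a l) = MvPolynomial.eval y (P l)) →
      ∀ ν ∈ fib x y, (∑ a, F a * ν (S.β a)) * MvPolynomial.eval y S.h ^ m = ν N := by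
  set T : Matrix (Fin (k + 1)) (Fin (k + 1)) (MvPolynomial (Fin (n + 1)) ℂ) := Matrix.of S.tr
    with hT
  -- Nullstellensatz
  have hrad : S.h ∈ (Ideal.span {T.det}).radical := by
    rw [← MvPolynomial.vanishingIdeal_zeroLocus_eq_radical (K := ℂ),
      MvPolynomial.mem_vanishingIdeal_iff]
    intro y hy
    rw [MvPolynomial.mem_zeroLocus_iff] at hy
    have h1 := hy T.det (Ideal.subset_span rfl)
    have h3 : ∀ p : MvPolynomial (Fin (n + 1)) ℂ, MvPolynomial.aeval y p =
        MvPolynomial.eval y p := fun p => by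
      rw [MvPolynomial.aeval_eq_eval]
    rw [h3] at h1 ⊢
    by_contra h2
    exact kcsol_det_ne S y h2 h1
  obtain ⟨m, hm⟩ := hrad
  obtain ⟨q, hq⟩ := Ideal.mem_span_singleton.1 hm
  refine ⟨m, ∑ a, MvPolynomial.aeval x (q * ∑ l, P l * T.adjugate l a) * S.β a, ?_⟩
  intro y hy F hF ν hν
  set Ty : Matrix (Fin (k + 1)) (Fin (k + 1)) ℂ := (MvPolynomial.eval y).mapMatrix T with hTy
  have h1 : Matrix.vecMul F Ty = fun l => MvPolynomial.eval y (P l) := by
    funext l
    rw [← hF l]
    rfl
  have h2 : ∀ a, ∑ l, MvPolynomial.eval y (P l) * MvPolynomial.eval y (T.adjugate l a) =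
      MvPolynomial.eval y T.det * F a := by
    intro a
    have h3 : Matrix.vecMul (Matrix.vecMul F Ty) Ty.adjugate = Ty.det • F := by
      rw [Matrix.vecMul_vecMul, Matrix.mul_adjugate, Matrix.vecMul_smul, Matrix.vecMul_one]
    rw [h1] at h3
    have h4 := congrFun h3 a
    rw [Pi.smul_apply, smul_eq_mul, hTy, ← RingHom.map_det] at h4
    rw [← h4]
    have h5 : ((MvPolynomial.eval y).mapMatrix T).adjugate =
        (MvPolynomial.eval y).mapMatrix T.adjugate := (RingHom.map_adjugate _ _).symm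
    rw [h5]
    rfl
  have h6 : MvPolynomial.eval y S.h ^ m = MvPolynomial.eval y T.det * MvPolynomial.eval y q := by
    rw [← map_pow, hq, map_mul]
  rw [map_sum, Finset.sum_mul]
  refine Finset.sum_congr rfl fun a _ => ?_
  rw [map_mul, fib_aeval hν, map_mul, map_sum]
  simp only [map_mul]
  rw [h2, h6]
  ring

end Pool.Agent.Lib_KF

end

/-! ### from `Lib_KF.ChEss` -/

section

/-! CH01: divisorial valuation rings over a field are essentially of finite type. -/

namespace Pool.Agent.Lib_KF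

open IsLocalRing in
/-- A discrete valuation ring dominating a Dedekind domain, with finite separable extension of
fraction fields, is essentially of finite type over it. -/
private theorem ChEss_step (W V K L : Type) [CommRing W] [IsDedekindDomain W]
    [CommRing V] [IsDomain V] [IsDiscreteValuationRing V] [Field K] [Field L]
    [Algebra W V] [Algebra V K] [Algebra W K] [IsScalarTower W V K] [IsFractionRing V K]
    [Algebra W L] [IsFractionRing W L] [Algebra L K] [IsScalarTower W L K]
    [FiniteDimensional L K] [Algebra.IsSeparable L K]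
    (t : W) (ht0 : t ≠ 0) (ht : algebraMap W V t ∈ maximalIdeal V) :
    Algebra.EssFiniteType W V := by
  classical
  have hVK : Function.Injective (algebraMap V K) := IsFractionRing.injective V K
  have hfin : Module.Finite W (integralClosure W K) :=
    IsIntegralClosure.finite W L K (integralClosure W K)
  have hded : IsDedekindDomain (integralClosure W K) := integralClosure.isDedekindDomain W L K
  have hfrac : IsFractionRing (integralClosure W K) K :=
    integralClosure.isFractionRing_of_finite_extension L K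
  let ι : V →ₐ[W] K := IsScalarTower.toAlgHom W V K
  have hι : Function.Injective ι := hVK
  have hW'V : integralClosure W K ≤ ι.range := by
    intro x hx
    have hx' : IsIntegral V x := IsIntegral.tower_top (show IsIntegral W x from hx)
    obtain ⟨v, hv⟩ := IsIntegrallyClosed.isIntegral_iff.1 hx'
    exact ⟨v, hv⟩
  let f : integralClosure W K →ₐ[W] V :=
    ((AlgEquiv.ofInjective ι hι).symm.toAlgHom).comp (Subalgebra.inclusion hW'V)
  have hf : ∀ x : integralClosure W K, algebraMap V K (f x) = x := by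
    intro x
    have h1 : (AlgEquiv.ofInjective ι hι) (f x) = Subalgebra.inclusion hW'V x :=
      AlgEquiv.apply_symm_apply _ _
    have h2 := congrArg (fun y : ι.range => (y : K)) h1
    exact h2
  let : Algebra (integralClosure W K) V := f.toRingHom.toAlgebra
  have : IsScalarTower W (integralClosure W K) V :=
    IsScalarTower.of_algebraMap_eq' (AlgHom.comp_algebraMap f).symm
  have hEss : Algebra.EssFiniteType (integralClosure W K) V := by
    rw [Algebra.essFiniteType_iff]
    refine ⟨∅, fun v => ?_⟩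
    simp only [Finset.coe_empty, Algebra.adjoin_empty, Algebra.mem_bot, Set.mem_range,
      exists_exists_eq_and]
    let q : Ideal (integralClosure W K) := (maximalIdeal V).comap f.toRingHom
    have hqp : q.IsPrime := Ideal.comap_isPrime _ _
    have hq0 : q ≠ ⊥ := by
      intro h0
      have h1 : algebraMap W (integralClosure W K) t ∈ q := by
        change f (algebraMap W (integralClosure W K) t) ∈ maximalIdeal V
        rw [AlgHom.commutes]
        exact ht
      rw [h0, Ideal.mem_bot] at h1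
      have h2 : algebraMap W K t = 0 := by
        have := congrArg (fun y : integralClosure W K => (y : K)) h1
        exact this
      have h3 : Function.Injective (algebraMap W K) := by
        rw [IsScalarTower.algebraMap_eq W L K]
        exact (algebraMap L K).injective.comp (IsFractionRing.injective W L)
      exact ht0 (h3 (by rw [h2, map_zero]))
    have hdvr : IsDiscreteValuationRing (Localization.AtPrime q) :=
      IsLocalization.AtPrime.isDiscreteValuationRing_of_dedekind_domain (integralClosure W K)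
        hq0 (Localization.AtPrime q)
    have hαi : Function.Injective
        (algebraMap (integralClosure W K) (Localization.AtPrime q)) :=
      IsLocalization.injective (Localization.AtPrime q) q.primeCompl_le_nonZeroDivisors
    have hunit : ∀ s : integralClosure W K, s ∉ q → IsUnit (f s) := by
      intro s hs
      by_contra hcon
      exact hs ((mem_maximalIdeal _).2 hcon)
    obtain ⟨a, b, hb, hab⟩ := IsFractionRing.div_surjective (A := integralClosure W K)
      (algebraMap V K v)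
    have hb0 : b ≠ 0 := nonZeroDivisors.ne_zero hb
    have hbK : algebraMap (integralClosure W K) K b ≠ 0 := by
      intro h0
      exact hb0 ((IsFractionRing.injective (integralClosure W K) K) (by rw [h0, map_zero]))
    have hvb : v * f b = f a := by
      apply hVK
      rw [map_mul, hf, hf, ← hab]
      exact div_mul_cancel₀ _ hbK
    have hfb0 : f b ≠ 0 := by
      intro h0
      apply hbK
      have := hf b
      rw [h0, map_zero] at this
      exact this.symm
    obtain ⟨c, hc⟩ := ValuationRing.cond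
      (algebraMap (integralClosure W K) (Localization.AtPrime q) a)
      (algebraMap (integralClosure W K) (Localization.AtPrime q) b)
    obtain ⟨⟨d, s⟩, hds⟩ := IsLocalization.surj q.primeCompl c
    have hs : IsUnit (f s) := hunit s s.2
    dsimp only at hds
    rcases hc with hc | hc
    · have h1 : a * d = b * s := by
        apply hαi
        rw [map_mul, map_mul, ← hds, ← hc]
        ring
      have h2 : v * f d = f s := by
        have h3 := congrArg f h1
        rw [map_mul, map_mul, ← hvb] at h3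
        apply mul_left_cancel₀ hfb0
        rw [← h3]
        ring
      refine ⟨d, ?_, s, h2.symm⟩
      change IsUnit (f d)
      rw [← h2] at hs
      exact isUnit_of_mul_isUnit_right hs
    · have h1 : b * d = a * s := by
        apply hαi
        rw [map_mul, map_mul, ← hds, ← hc]
        ring
      have h2 : v * f s = f d := by
        have h3 := congrArg f h1
        rw [map_mul, map_mul, ← hvb] at h3
        apply mul_left_cancel₀ hfb0
        rw [h3]
        ring
      exact ⟨s, hs, d, h2.symm⟩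
  exact Algebra.EssFiniteType.comp W (integralClosure W K) V

section base

open IsLocalRing

variable {k : Type} [Field k]
  {V : Type} [CommRing V] [IsDomain V] [IsDiscreteValuationRing V] [Algebra k V] {m : ℕ}
  {w : Fin m → V} (hw : AlgebraicIndependent k (fun i => IsLocalRing.residue V (w i)))

include hw in
private theorem ChEss_zero {b : V} (hb : b ∈ Algebra.adjoin k (Set.range w))
    (hbm : b ∈ maximalIdeal V) : b = 0 := by
  rw [Algebra.adjoin_range_eq_range_aeval] at hb
  obtain ⟨f, rfl⟩ := hb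
  have h1 : MvPolynomial.aeval (fun i => residue V (w i)) f =
      residue V (MvPolynomial.aeval w f) :=
    MvPolynomial.aeval_algebraMap_apply (B := ResidueField V) w f
  have h2 : MvPolynomial.aeval (fun i => residue V (w i)) f = 0 := by
    rw [h1]
    exact (residue_eq_zero_iff _).2 hbm
  have h3 := hw.eq_zero_of_aeval_eq_zero f h2
  change MvPolynomial.aeval w f = 0
  rw [h3, map_zero]

include hw in
private theorem ChEss_transc {t : V} (ht0 : t ≠ 0) (htm : t ∈ maximalIdeal V) :
    Transcendental (Algebra.adjoin k (Set.range w)) t := by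
  rw [transcendental_iff]
  have key : ∀ (N : ℕ) (p : Polynomial (Algebra.adjoin k (Set.range w))), p.natDegree ≤ N →
      Polynomial.aeval t p = 0 → p = 0 := by
    intro N
    induction N with
    | zero =>
      intro p hp h
      have h1 := Polynomial.eq_C_of_natDegree_le_zero hp
      rw [h1, Polynomial.aeval_C] at h
      have h2 : p.coeff 0 = 0 := Subtype.ext h
      rw [h1, h2, map_zero]
    | succ N ih =>
      intro p hp h
      have h1 := Polynomial.divX_mul_X_add p
      have h2 : Polynomial.aeval t p.divX * t + ((p.coeff 0 : Algebra.adjoin k (Set.range w)) : V)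
          = 0 := by
        have h3 := congrArg (Polynomial.aeval t) h1
        rw [map_add, map_mul, Polynomial.aeval_X, Polynomial.aeval_C, h] at h3
        exact h3
      have h3 : ((p.coeff 0 : Algebra.adjoin k (Set.range w)) : V) = 0 := by
        refine ChEss_zero hw (p.coeff 0).2 ?_
        have h4 : ((p.coeff 0 : Algebra.adjoin k (Set.range w)) : V) =
            -(Polynomial.aeval t p.divX) * t := by linear_combination h2
        rw [h4]
        exact Ideal.mul_mem_left _ _ htm
      rw [h3, add_zero] at h2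
      have h4 : Polynomial.aeval t p.divX = 0 := by
        rcases mul_eq_zero.1 h2 with h | h
        · exact h
        · exact absurd h ht0
      have h5 : p.divX = 0 := by
        apply ih _ _ h4
        rw [Polynomial.natDegree_divX_eq_natDegree_tsub_one]
        omega
      have h6 : p.coeff 0 = 0 := Subtype.ext h3
      rw [← h1, h5, h6, zero_mul, map_zero, add_zero]
  intro p hp
  exact key p.natDegree p le_rfl hp

omit [IsDomain V] [IsDiscreteValuationRing V] in
private theorem ChEss_split (w : Fin m → V) (t : V) {r : V}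
    (hr : r ∈ Algebra.adjoin k (Set.range (fun o : Option (Fin m) => o.elim t w))) :
    ∃ b ∈ Algebra.adjoin k (Set.range w), ∃ r' ∈ Algebra.adjoin k
      (Set.range (fun o : Option (Fin m) => o.elim t w)), r = b + r' * t := by
  have hsub : Algebra.adjoin k (Set.range w) ≤
      Algebra.adjoin k (Set.range (fun o : Option (Fin m) => o.elim t w)) := by
    apply Algebra.adjoin_mono
    rintro _ ⟨i, rfl⟩
    exact ⟨some i, rfl⟩
  have ht : t ∈ Algebra.adjoin k (Set.range (fun o : Option (Fin m) => o.elim t w)) :=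
    Algebra.subset_adjoin ⟨none, rfl⟩
  refine Algebra.adjoin_induction ?_ ?_ ?_ ?_ hr
  · rintro _ ⟨o, rfl⟩
    rcases o with _ | i
    · exact ⟨0, zero_mem _, 1, one_mem _, by simp⟩
    · exact ⟨w i, Algebra.subset_adjoin ⟨i, rfl⟩, 0, zero_mem _, by simp⟩
  · intro c
    exact ⟨algebraMap k V c, algebraMap_mem _ c, 0, zero_mem _, by simp⟩
  · rintro x y - - ⟨b, hb, r, hr, rfl⟩ ⟨b', hb', r', hr', rfl⟩
    exact ⟨b + b', add_mem hb hb', r + r', add_mem hr hr', by ring⟩
  · rintro x y - - ⟨b, hb, r, hr, rfl⟩ ⟨b', hb', r', hr', rfl⟩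
    refine ⟨b * b', mul_mem hb hb', r * b' + b * r' + r * r' * t, ?_, by ring⟩
    exact add_mem (add_mem (mul_mem hr (hsub hb')) (mul_mem (hsub hb) hr'))
      (mul_mem (mul_mem hr hr') ht)

end base

/-- The same with the finiteness deduced from algebraicity. -/
private theorem ChEss_mid (k V K R W : Type) [Field k] [CharZero k] [CommRing V] [IsDomain V] [IsDiscreteValuationRing V]
    [Field K] [Algebra V K] [IsFractionRing V K] [Algebra k V] [Algebra k K]
    [IsScalarTower k V K] [CommRing R] [Algebra R V] [CommRing W] [IsDomain W]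
    [IsDiscreteValuationRing W] [Algebra k W] [Algebra R W] [Algebra W V] [IsScalarTower R W V]
    [IsScalarTower k W V] (hWV : Function.Injective (algebraMap W V))
    (hRV : Function.Injective (algebraMap R V))
    (hess : Algebra.EssFiniteType k K) (halg : Algebra.IsAlgebraic R V)
    (t : W) (ht0 : t ≠ 0) (ht : algebraMap W V t ∈ IsLocalRing.maximalIdeal V) :
    Algebra.EssFiniteType W V := by
  classical
  let : Algebra W K := ((algebraMap V K).comp (algebraMap W V)).toAlgebra
  have hst : IsScalarTower W V K := IsScalarTower.of_algebraMap_eq' rfl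
  have hVK : Function.Injective (algebraMap V K) := IsFractionRing.injective V K
  have hWK : Function.Injective (algebraMap W K) := by
    rw [IsScalarTower.algebraMap_eq W V K]
    exact hVK.comp hWV
  have hfs : FaithfulSMul W K := (faithfulSMul_iff_algebraMap_injective _ _).2 hWK
  let : Algebra (FractionRing W) K := FractionRing.liftAlgebra W K
  have hst3 : IsScalarTower W (FractionRing W) K := FractionRing.isScalarTower_liftAlgebra W K
  have hst5 : IsScalarTower k W K := by
    apply IsScalarTower.of_algebraMap_eq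
    intro c
    rw [IsScalarTower.algebraMap_apply W V K, ← IsScalarTower.algebraMap_apply k W V,
      ← IsScalarTower.algebraMap_apply k V K]
  have hst4 : IsScalarTower k (FractionRing W) K := by
    apply IsScalarTower.of_algebraMap_eq
    intro c
    rw [IsScalarTower.algebraMap_apply k W (FractionRing W),
      ← IsScalarTower.algebraMap_apply W (FractionRing W) K,
      ← IsScalarTower.algebraMap_apply k W K]
  have hess3 : Algebra.EssFiniteType (FractionRing W) K := Algebra.EssFiniteType.of_comp k _ _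
  have halg2 : Algebra.IsAlgebraic (FractionRing W) K := by
    have h1 : Algebra.IsAlgebraic W V := by
      constructor
      intro x
      obtain ⟨P, hP0, hP⟩ := halg.isAlgebraic x
      refine ⟨P.map (algebraMap R W), ?_, ?_⟩
      · intro h
        apply hP0
        have hRW : Function.Injective (algebraMap R W) := by
          intro a b hab
          apply hRV
          rw [IsScalarTower.algebraMap_apply R W V, hab, ← IsScalarTower.algebraMap_apply R W V]
        exact Polynomial.map_injective _ hRW (by rw [h, Polynomial.map_zero])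
      · rw [Polynomial.aeval_map_algebraMap]
        exact hP
    have h2 : Algebra.IsAlgebraic V K := IsLocalization.isAlgebraic K (nonZeroDivisors V)
    have h3 : Algebra.IsAlgebraic W K := Algebra.IsAlgebraic.trans W V K
    exact Algebra.IsAlgebraic.extendScalars (R := W) (IsFractionRing.injective W (FractionRing W))
  have hfin : Module.Finite (FractionRing W) K :=
    Algebra.finite_of_essFiniteType_of_isAlgebraic
  have hchar : CharZero (FractionRing W) := by
    have : Algebra k (FractionRing W) := inferInstance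
    exact charZero_of_injective_algebraMap (algebraMap k (FractionRing W)).injective
  exact ChEss_step W V K (FractionRing W) t ht0 ht

/-- CH01. PORT of `Pool.Agent.Lib_GD.essFiniteType_of_residue` (file `Lib_GD/EssRes.lean`, 381
lines) from `ℂ` to a field `k` of characteristic zero: replace `ℂ` by `k` everywhere
(`n - 1`, `n` become `n`, `n + 1`). -/
theorem essFiniteType_of_residue_field (k V : Type) [Field k] [CharZero k] [CommRing V]
    [IsDomain V] [IsDiscreteValuationRing V] [Algebra k V] (n : ℕ)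
    (hV : Algebra.trdeg k V = (n + 1 : ℕ)) (hfg : Algebra.EssFiniteType k (FractionRing V))
    (u : Fin n → V) (hu : AlgebraicIndependent k (fun i => IsLocalRing.residue V (u i))) :
    Algebra.EssFiniteType k V := by
  classical
  obtain ⟨t, htirr⟩ := IsDiscreteValuationRing.exists_irreducible V
  have ht0 : t ≠ 0 := htirr.ne_zero
  have htm : t ∈ IsLocalRing.maximalIdeal V :=
    (IsLocalRing.mem_maximalIdeal _).2 htirr.not_isUnit
  have hu1 : AlgebraicIndependent k u :=
    AlgebraicIndependent.of_comp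
      (IsScalarTower.toAlgHom k V (IsLocalRing.ResidueField V)) hu
  have hx := (hu1.option_iff_transcendental t).2 (ChEss_transc hu ht0 htm)
  have hbasis : IsTranscendenceBasis k (fun o : Option (Fin (n)) => o.elim t u) := by
    refine hx.isTranscendenceBasis_of_trdeg_le_of_finite ?_
    rw [hV]
    simp only [Cardinal.mk_fintype, Fintype.card_option, Fintype.card_fin]
    exact le_rfl
  have halg : Algebra.IsAlgebraic
      (Algebra.adjoin k (Set.range (fun o : Option (Fin (n)) => o.elim t u))) V :=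
    hbasis.isAlgebraic
  have hsplit := fun r (hr : r ∈ Algebra.adjoin k
    (Set.range (fun o : Option (Fin (n)) => o.elim t u))) => ChEss_split u t hr
  have htR : t ∈ Algebra.adjoin k (Set.range (fun o : Option (Fin (n)) => o.elim t u)) :=
    Algebra.subset_adjoin ⟨none, rfl⟩
  have hsub : Algebra.adjoin k (Set.range u) ≤
      Algebra.adjoin k (Set.range (fun o : Option (Fin (n)) => o.elim t u)) := by
    apply Algebra.adjoin_mono
    rintro _ ⟨i, rfl⟩
    exact ⟨some i, rfl⟩
  have hft : Algebra.FiniteType k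
      (Algebra.adjoin k (Set.range (fun o : Option (Fin (n)) => o.elim t u))) :=
    (Subalgebra.fg_iff_finiteType _).1 (Subalgebra.fg_def.2 ⟨_, Set.finite_range _, rfl⟩)
  generalize Algebra.adjoin k (Set.range (fun o : Option (Fin (n)) => o.elim t u)) = R0
    at halg hsplit htR hft hsub
  clear hx hbasis
  have hnoeth : IsNoetherianRing R0 := Algebra.FiniteType.isNoetherianRing k R0
  let p : Ideal R0 := (IsLocalRing.maximalIdeal V).comap (algebraMap R0 V)
  have hpp : p.IsPrime := Ideal.comap_isPrime _ _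
  let t0 : R0 := ⟨t, htR⟩
  have ht00 : t0 ≠ 0 := fun h => ht0 (congrArg Subtype.val h)
  have hpt : p = Ideal.span {t0} := by
    apply le_antisymm
    · intro r hr
      obtain ⟨b, hb, r', hr', hrb⟩ := hsplit r.1 r.2
      have hr2 : (r : V) ∈ IsLocalRing.maximalIdeal V := hr
      have hbm : b ∈ IsLocalRing.maximalIdeal V := by
        have h1 : b = (r : V) - r' * t := by linear_combination -hrb
        rw [h1]
        exact Ideal.sub_mem _ hr2 (Ideal.mul_mem_left _ _ htm)
      have hb0 := ChEss_zero hu hb hbm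
      rw [Ideal.mem_span_singleton']
      refine ⟨⟨r', hr'⟩, Subtype.ext ?_⟩
      change r' * t = (r : V)
      rw [hrb, hb0, zero_add]
    · rw [Ideal.span_singleton_le_iff_mem]
      exact htm
  have hWdom : IsDomain (Localization.AtPrime p) :=
    IsLocalization.isDomain_localization p.primeCompl_le_nonZeroDivisors
  have hWnoeth : IsNoetherianRing (Localization.AtPrime p) :=
    IsLocalization.isNoetherianRing p.primeCompl _ hnoeth
  have hRWi : Function.Injective (algebraMap R0 (Localization.AtPrime p)) :=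
    IsLocalization.injective (Localization.AtPrime p) p.primeCompl_le_nonZeroDivisors
  have hmax : IsLocalRing.maximalIdeal (Localization.AtPrime p) =
      Ideal.span {algebraMap R0 (Localization.AtPrime p) t0} := by
    have h1 : Ideal.map (algebraMap R0 (Localization.AtPrime p)) p =
        Ideal.map (algebraMap R0 (Localization.AtPrime p)) (Ideal.span {t0}) :=
      congrArg (Ideal.map (algebraMap R0 (Localization.AtPrime p))) hpt
    rw [← Localization.AtPrime.map_eq_maximalIdeal, h1, Ideal.map_span, Set.image_singleton]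
  have hnf : ¬ IsField (Localization.AtPrime p) := by
    rw [IsLocalRing.isField_iff_maximalIdeal_eq, hmax, Ideal.span_singleton_eq_bot]
    intro h
    exact ht00 (hRWi (by rw [h, map_zero]))
  have hprinc : (IsLocalRing.maximalIdeal (Localization.AtPrime p)).IsPrincipal := ⟨⟨_, hmax⟩⟩
  have hWdvr : IsDiscreteValuationRing (Localization.AtPrime p) :=
    ((IsDiscreteValuationRing.TFAE (Localization.AtPrime p) hnf).out 0 4).2 hprinc
  have hg : ∀ y : p.primeCompl, IsUnit (algebraMap R0 V y) := by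
    intro y
    by_contra hcon
    exact y.2 ((IsLocalRing.mem_maximalIdeal _).2 hcon)
  have hRVi : Function.Injective (algebraMap R0 V) := Subtype.val_injective
  let f : Localization.AtPrime p →+* V := IsLocalization.lift (M := p.primeCompl) hg
  have hfi : Function.Injective f :=
    (IsLocalization.lift_injective_iff (M := p.primeCompl) hg).2 fun x y =>
      ⟨fun h => congrArg _ (hRWi h), fun h => congrArg _ (hRVi h)⟩
  let : Algebra (Localization.AtPrime p) V := f.toAlgebra
  have hst : IsScalarTower R0 (Localization.AtPrime p) V :=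
    IsScalarTower.of_algebraMap_eq' (IsLocalization.lift_comp hg).symm
  have hst2 : IsScalarTower k (Localization.AtPrime p) V := by
    apply IsScalarTower.of_algebraMap_eq
    intro c
    rw [IsScalarTower.algebraMap_apply k R0 (Localization.AtPrime p),
      ← IsScalarTower.algebraMap_apply R0 (Localization.AtPrime p) V]
    rfl
  have hess2 : Algebra.EssFiniteType (Localization.AtPrime p) V :=
    ChEss_mid k V (FractionRing V) R0 (Localization.AtPrime p) hfi hRVi hfg halg
      (algebraMap R0 (Localization.AtPrime p) t0)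
      (fun h => ht00 (hRWi (by rw [h, map_zero])))
      (by
        rw [← IsScalarTower.algebraMap_apply]
        exact htm)
  exact Algebra.EssFiniteType.comp k (Localization.AtPrime p) V


end Pool.Agent.Lib_KF

end

/-! ### from `Lib_KF.ChFam` -/

section

/-! CH06: existence of analytic families. -/

namespace Pool.Agent.Lib_KF

open IsLocalRing

private abbrev ChFam_A (n : ℕ) (Q : Type) [CommRing Q] : Type :=
  Polynomial (MvPolynomial (Option (Fin n)) Q)

private theorem ChFam_ev1_C {k V : Type} [CommRing k] [CommRing V] [Algebra k V] {n : ℕ} (s : V)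
    (u : Fin n → V) (w : V) (a : MvPolynomial (Option (Fin n)) k) :
    ev1 s u w (Polynomial.C a) = MvPolynomial.aeval (fun o : Option (Fin n) => o.elim s u) a := by
  show Polynomial.eval₂ _ _ _ = _
  rw [Polynomial.eval₂_C]
  rfl

private theorem ChFam_ev1_X {k V : Type} [CommRing k] [CommRing V] [Algebra k V] {n : ℕ} (s : V)
    (u : Fin n → V) (w : V) :
    ev1 (k := k) s u w Polynomial.X = w := by
  show Polynomial.eval₂ _ _ _ = _
  rw [Polynomial.eval₂_X]

/-- the set of all coefficients -/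
private def ChFam_co {n : ℕ} {k : Type} [CommRing k] (H : ChFam_A n k) : Set k :=
  ⋃ i ∈ H.support, ((H.coeff i).coeffs : Set k)

private theorem ChFam_co_finite {n : ℕ} {k : Type} [CommRing k] (H : ChFam_A n k) :
    (ChFam_co H).Finite :=
  Set.Finite.biUnion (Finset.finite_toSet _) fun _ _ => Finset.finite_toSet _

private theorem ChFam_lifts {n : ℕ} {k : Type} [CommRing k] [Algebra ℂ k] (Q : Subalgebra ℂ k)
    (H : ChFam_A n k) (h : ChFam_co H ⊆ Q) :
    H ∈ Polynomial.lifts (MvPolynomial.map (σ := Option (Fin n)) (algebraMap Q k)) := by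
  rw [Polynomial.lifts_iff_coeff_lifts]
  intro i
  rw [MvPolynomial.mem_range_map_iff_coeffs_subset]
  intro c hc
  by_cases hi : i ∈ H.support
  · have h1 : c ∈ ChFam_co H := Set.mem_biUnion (show i ∈ (H.support : Set ℕ) from hi) hc
    exact ⟨⟨c, h h1⟩, rfl⟩
  · rw [Polynomial.notMem_support_iff.1 hi] at hc
    simp at hc

private theorem ChFam_ev1_map {n : ℕ} {k V : Type} [CommRing k] [Algebra ℂ k] [CommRing V]
    [Algebra k V] (Q : Subalgebra ℂ k) (s : V) (u : Fin n → V) (w : V) (H : ChFam_A n Q) :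
    ev1 s u w (H.map (MvPolynomial.map (algebraMap Q k))) = ev1 s u w H := by
  show Polynomial.eval₂ _ _ _ = Polynomial.eval₂ _ _ _
  rw [Polynomial.eval₂_map]
  congr 1
  refine MvPolynomial.ringHom_ext (fun c => ?_) fun o => ?_
  · show ev0 s u (MvPolynomial.map (algebraMap Q k) (MvPolynomial.C c)) =
      ev0 s u (MvPolynomial.C c)
    rw [MvPolynomial.map_C]
    show MvPolynomial.aeval _ _ = MvPolynomial.aeval _ _
    rw [MvPolynomial.aeval_C, MvPolynomial.aeval_C]
    rfl
  · show ev0 s u (MvPolynomial.map (algebraMap Q k) (MvPolynomial.X o)) =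
      ev0 s u (MvPolynomial.X o)
    rw [MvPolynomial.map_X]
    show MvPolynomial.aeval _ _ = MvPolynomial.aeval _ _
    rw [MvPolynomial.aeval_X, MvPolynomial.aeval_X]

private theorem ChFam_mem {n : ℕ} {Q V : Type} [CommRing Q] [CommRing V]
    [Algebra ℂ V] [Algebra Q V] (𝒲 : Subalgebra ℂ V) (s : V) (u : Fin n → V) (w : V)
    (hQ : ∀ c, algebraMap Q V c ∈ 𝒲) (hs : s ∈ 𝒲) (hu : ∀ l, u l ∈ 𝒲) (hw : w ∈ 𝒲)
    (H : ChFam_A n Q) : ev1 s u w H ∈ 𝒲 := by
  have h0 : ∀ a : MvPolynomial (Option (Fin n)) Q, ev1 s u w (Polynomial.C a) ∈ 𝒲 := by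
    intro a
    rw [ChFam_ev1_C]
    induction a using MvPolynomial.induction_on with
    | C c =>
      rw [MvPolynomial.aeval_C]
      exact hQ c
    | add p q hp hq =>
      rw [map_add]
      exact 𝒲.add_mem hp hq
    | mul_X p o hp =>
      rw [map_mul, MvPolynomial.aeval_X]
      refine 𝒲.mul_mem hp ?_
      cases o with
      | none => exact hs
      | some l => exact hu l
  induction H using Polynomial.induction_on' with
  | add p q hp hq =>
    rw [map_add]
    exact 𝒲.add_mem hp hq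
  | monomial m a =>
    rw [← Polynomial.C_mul_X_pow_eq_monomial, map_mul, map_pow, ChFam_ev1_X]
    exact 𝒲.mul_mem (h0 a) (𝒲.pow_mem hw m)

/-- a ring homomorphism to `ℂ` is an evaluation -/
private theorem ChFam_spec {n : ℕ} {Q : Type} [CommRing Q] [Algebra ℂ Q]
    (Θ : ChFam_A n Q →+* ℂ) (χ : Q →ₐ[ℂ] ℂ)
    (hχ : ∀ c, Θ (Polynomial.C (MvPolynomial.C c)) = χ c) (s₀ : ℂ) (u₀ : Fin n → ℂ)
    (w₀ : ℂ) (hs : Θ (Polynomial.C (MvPolynomial.X none)) = s₀)
    (hu : ∀ l, Θ (Polynomial.C (MvPolynomial.X (some l))) = u₀ l)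
    (hw : Θ Polynomial.X = w₀) (H : ChFam_A n Q) :
    Θ H = ev1 (k := ℂ) s₀ u₀ w₀ (H.map (MvPolynomial.map χ.toRingHom)) := by
  have h1 : Θ = (ev1 (k := ℂ) s₀ u₀ w₀).comp
      (Polynomial.mapRingHom (MvPolynomial.map χ.toRingHom)) := by
    refine Polynomial.ringHom_ext' (MvPolynomial.ringHom_ext (fun c => ?_) fun o => ?_) ?_
    · show Θ (Polynomial.C (MvPolynomial.C c)) = ev1 (k := ℂ) s₀ u₀ w₀
        ((Polynomial.C (MvPolynomial.C c)).map (MvPolynomial.map χ.toRingHom))
      rw [hχ, Polynomial.map_C, MvPolynomial.map_C, ChFam_ev1_C, MvPolynomial.aeval_C]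
      rfl
    · show Θ (Polynomial.C (MvPolynomial.X o)) = ev1 (k := ℂ) s₀ u₀ w₀
        ((Polynomial.C (MvPolynomial.X o)).map (MvPolynomial.map χ.toRingHom))
      rw [Polynomial.map_C, MvPolynomial.map_X, ChFam_ev1_C, MvPolynomial.aeval_X]
      cases o with
      | none => exact hs
      | some l => exact hu l
    · show Θ Polynomial.X = ev1 (k := ℂ) s₀ u₀ w₀
        (Polynomial.X.map (MvPolynomial.map χ.toRingHom))
      rw [Polynomial.map_X, ChFam_ev1_X, hw]
  exact congrArg (fun f : ChFam_A n Q →+* ℂ => f H) h1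

/-- a complex point of the spread out scheme, on the divisor `s = 0` -/
private theorem ChFam_point {n : ℕ} {Q V : Type} [CommRing Q] [Algebra ℂ Q]
    [Algebra.FiniteType ℂ Q] [CommRing V] [IsLocalRing V] [Algebra ℂ V] [Algebra Q V]
    [IsScalarTower ℂ Q V] (s : V) (u : Fin n → V) (w : V) (hs : s ∈ maximalIdeal V)
    (F₀ q : ChFam_A n Q) (hroot : ev1 s u w F₀ = 0) (hqu : IsUnit (ev1 s u w q)) :
    ∃ (χ : Q →ₐ[ℂ] ℂ) (u₀ : Fin n → ℂ) (w₀ : ℂ),
      ev1 (k := ℂ) 0 u₀ w₀ (F₀.map (MvPolynomial.map χ.toRingHom)) = 0 ∧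
      ev1 (k := ℂ) 0 u₀ w₀ (q.map (MvPolynomial.map χ.toRingHom)) ≠ 0 := by
  let Θ₀ : ChFam_A n Q →ₐ[ℂ] ResidueField V :=
    { toRingHom := (residue V).comp (ev1 s u w)
      commutes' := fun c => by
        show residue V (ev1 s u w (algebraMap ℂ (ChFam_A n Q) c)) =
          algebraMap ℂ (ResidueField V) c
        have h1 : algebraMap ℂ (ChFam_A n Q) c =
            Polynomial.C (MvPolynomial.C (algebraMap ℂ Q c)) := rfl
        rw [h1, ChFam_ev1_C, MvPolynomial.aeval_C, ← IsScalarTower.algebraMap_apply ℂ Q V]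
        rfl }
  have h1 : Algebra.FiniteType ℂ (MvPolynomial (Option (Fin n)) Q) :=
    Algebra.FiniteType.trans (inferInstance : Algebra.FiniteType ℂ Q) inferInstance
  have h2 : Algebra.FiniteType ℂ (ChFam_A n Q) :=
    Algebra.FiniteType.trans h1 inferInstance
  have hEft : Algebra.FiniteType ℂ Θ₀.range :=
    Algebra.FiniteType.of_surjective Θ₀.rangeRestrict Θ₀.rangeRestrict_surjective
  have hqE : Θ₀.rangeRestrict q ≠ 0 := by
    intro h
    have h1 : Θ₀ q = 0 := congrArg Subtype.val h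
    exact (hqu.map (residue V)).ne_zero h1
  obtain ⟨χE, hχE⟩ := exists_point Θ₀.range (Θ₀.rangeRestrict q) hqE
  let Θ : ChFam_A n Q →+* ℂ := χE.toRingHom.comp Θ₀.rangeRestrict.toRingHom
  have hΘa : ∀ H, Θ H = χE (Θ₀.rangeRestrict H) := fun H => rfl
  have hz : ∀ H, ev1 s u w H ∈ maximalIdeal V → Θ H = 0 := by
    intro H hH
    have h1 : Θ₀.rangeRestrict H = 0 := by
      apply Subtype.ext
      show residue V (ev1 s u w H) = 0
      exact (residue_eq_zero_iff _).2 hH
    rw [hΘa]
    exact (congrArg χE h1).trans (map_zero χE)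
  let χ : Q →ₐ[ℂ] ℂ :=
    { toRingHom := Θ.comp (Polynomial.C.comp MvPolynomial.C)
      commutes' := fun c => by
        show Θ (Polynomial.C (MvPolynomial.C (algebraMap ℂ Q c))) = c
        have h1 : algebraMap ℂ (ChFam_A n Q) c =
            Polynomial.C (MvPolynomial.C (algebraMap ℂ Q c)) := rfl
        rw [← h1, hΘa, AlgHom.commutes, AlgHom.commutes]
        rfl }
  have hΘ := ChFam_spec Θ χ (fun c => rfl) 0
    (fun l => Θ (Polynomial.C (MvPolynomial.X (some l)))) (Θ Polynomial.X)
    (hz _ (by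
      rw [ChFam_ev1_C, MvPolynomial.aeval_X]
      exact hs)) (fun l => rfl) rfl
  refine ⟨χ, fun l => Θ (Polynomial.C (MvPolynomial.X (some l))), Θ Polynomial.X, ?_, ?_⟩
  · rw [← hΘ]
    exact hz _ (by rw [hroot]; exact Ideal.zero_mem _)
  · rw [← hΘ]
    exact hχE

private theorem ChFam_z {A V : Type} [CommRing A] [CommRing V] (φ : A →+* V) (Z : Finset V)
    [DecidableEq V] (p₂ : V → A) (a : A) (q' : V) (hq' : φ (a * ∏ z ∈ Z, p₂ z) * q' = 1) (z : V)
    (hz : z ∈ Z) (b : V) (h : z * φ (p₂ z) = b) :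
    z = b * (φ (a * ∏ y ∈ Z.erase z, p₂ y) * q') := by
  have h1 : φ (p₂ z) * (φ (a * ∏ y ∈ Z.erase z, p₂ y) * q') = 1 := by
    rw [← hq', ← Finset.mul_prod_erase Z p₂ hz, map_mul φ a, map_mul φ a, map_mul φ (p₂ z)]
    ring
  rw [← h, mul_assoc, h1, mul_one]

/-- CH06. Every `z ∈ Z` is `p_z(w) / q_z(w)`, `q_z(w)` a unit of `V` (`hE.frac`); put
`q = F' ∏ q_z`, `q' = q(w)⁻¹`. Let `Q ⊆ k` be the `ℂ`-subalgebra generated by `Zc` and the
(finitely many) coefficients of `F`, `p_z`, `q_z`; these polynomials come from polynomials over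
`Q`, with `F₀` monic. `ker` of CH05b: if `H(s,u,w) = 0`, `H` over `Q`, then `F` divides `H` over
`k`, and the remainder of the division of `H` by the monic `F₀` over `Q` maps to the remainder over
`k`, which is zero; so it is zero (`Polynomial.map_modByMonic`, injectivity of `map`).
Point: let `E` be the `ℂ`-subalgebra of the residue field `κ` of `V` generated by the images of the
generators of `Q` and by `ū_l`, `w̄`; `q(w)` has a non-zero residue in `E`; `exists_point` gives
`χ_E : E → ℂ` which is not zero there; `u₀ = χ_E(ū)`, `w₀ = χ_E(w̄)`, `χ = χ_E ∘ (Q → E)`.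
As `s` has residue `0`, `F^χ(0, u₀, w₀) = χ_E(residue of F(s,u,w)) = 0`, and `q^χ`, `F'^χ` do not
vanish. Then CH04b, CH05b, CH05c (with `(D l).restrictScalars ℂ`); `F'(w)⁻¹` and `q_z(w)⁻¹` are
`q'` times elements of `𝒲`. -/
theorem exists_evFam {k V : Type} [Field k] [CommRing V] [IsDomain V] [IsLocalRing V]
    [Algebra k V] [Algebra ℂ k] [Algebra ℂ V] [IsScalarTower ℂ k V] {n : ℕ} {s : V}
    {u : Fin n → V} {w : V} {F : Polynomial (MvPolynomial (Option (Fin n)) k)}
    (hE : EtaleCoord k V s u w F) (hs : s ∈ maximalIdeal V) (D : Fin n → Derivation k V V)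
    (hD : DualDer k V s u D) (Z : Finset V) (Zc : Finset k) :
    Nonempty (EvFam k V s u D (Z : Set V) (Zc : Set k)) := by
  classical
  -- denominators
  choose P₁ P₂ hP₂ hP using hE.frac
  -- the coefficient ring
  set T : Set k := (Zc : Set k) ∪ (ChFam_co F ∪ ⋃ z ∈ Z, (ChFam_co (P₁ z) ∪ ChFam_co (P₂ z)))
    with hT
  have hTf : T.Finite := by
    refine (Finset.finite_toSet Zc).union ((ChFam_co_finite F).union ?_)
    exact Set.Finite.biUnion (Finset.finite_toSet Z) fun z _ =>
      (ChFam_co_finite _).union (ChFam_co_finite _)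
  set Q : Subalgebra ℂ k := Algebra.adjoin ℂ T with hQ
  have hTQ : T ⊆ Q := Algebra.subset_adjoin
  have hQfg : Algebra.FiniteType ℂ Q := by
    rw [← Subalgebra.fg_iff_finiteType]
    exact Subalgebra.fg_def.2 ⟨T, hTf, rfl⟩
  have hinj : Function.Injective (algebraMap Q k) := Subtype.val_injective
  have : IsScalarTower ℂ Q V := by
    refine IsScalarTower.of_algebraMap_eq fun c => ?_
    rw [IsScalarTower.algebraMap_apply ℂ k V]
    rfl
  -- lifts
  obtain ⟨F₀, hF₀, -, hF₀m⟩ := Polynomial.lifts_and_natDegree_eq_and_monic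
    (ChFam_lifts Q F fun c hc => hTQ (Or.inr (Or.inl hc))) hE.monic
  have hl1 : ∀ z : V, ∃ H : ChFam_A n Q, z ∈ Z →
      H.map (MvPolynomial.map (algebraMap Q k)) = P₁ z := by
    intro z
    by_cases hz : z ∈ Z
    · obtain ⟨H, hH⟩ := (Polynomial.mem_lifts _).1 (ChFam_lifts Q (P₁ z) fun c hc =>
        hTQ (Or.inr (Or.inr (Set.mem_biUnion (show z ∈ (Z : Set V) from hz) (Or.inl hc)))))
      exact ⟨H, fun _ => hH⟩
    · exact ⟨0, fun h => absurd h hz⟩
  have hl2 : ∀ z : V, ∃ H : ChFam_A n Q, z ∈ Z →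
      H.map (MvPolynomial.map (algebraMap Q k)) = P₂ z := by
    intro z
    by_cases hz : z ∈ Z
    · obtain ⟨H, hH⟩ := (Polynomial.mem_lifts _).1 (ChFam_lifts Q (P₂ z) fun c hc =>
        hTQ (Or.inr (Or.inr (Set.mem_biUnion (show z ∈ (Z : Set V) from hz) (Or.inr hc)))))
      exact ⟨H, fun _ => hH⟩
    · exact ⟨0, fun h => absurd h hz⟩
  choose p₁ hp₁ using hl1
  choose p₂ hp₂ using hl2
  have hev : ∀ H : ChFam_A n Q, ev1 s u w (H.map (MvPolynomial.map (algebraMap Q k))) =
      ev1 s u w H := ChFam_ev1_map Q s u w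
  have hroot : ev1 s u w F₀ = 0 := by rw [← hev, hF₀, hE.root]
  have hunit : IsUnit (ev1 s u w (Polynomial.derivative F₀)) := by
    rw [← hev, ← Polynomial.derivative_map, hF₀]
    exact hE.unit
  have hunit2 : ∀ z ∈ Z, IsUnit (ev1 s u w (p₂ z)) := by
    intro z hz
    rw [← hev, hp₂ z hz]
    exact hP₂ z
  have hfrac : ∀ z ∈ Z, z * ev1 s u w (p₂ z) = ev1 s u w (p₁ z) := by
    intro z hz
    rw [← hev, ← hev, hp₂ z hz, hp₁ z hz]
    exact hP z
  have hker : ∀ H : ChFam_A n Q, ev1 s u w H = 0 → F₀ ∣ H := by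
    intro H hH
    rw [← hev] at hH
    have h1 := hE.dvd _ hH
    rw [← Polynomial.modByMonic_eq_zero_iff_dvd hF₀m]
    have h2 : Function.Injective (MvPolynomial.map (σ := Option (Fin n)) (algebraMap Q k)) :=
      MvPolynomial.map_injective _ hinj
    apply Polynomial.map_injective _ h2
    rw [Polynomial.map_modByMonic _ hF₀m, Polynomial.map_zero, hF₀,
      Polynomial.modByMonic_eq_zero_iff_dvd hE.monic]
    exact h1
  -- the denominator
  set q : ChFam_A n Q := Polynomial.derivative F₀ * ∏ z ∈ Z, p₂ z with hq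
  have hqu : IsUnit (ev1 s u w q) := by
    rw [hq, map_mul, map_prod]
    refine hunit.mul ?_
    exact (Finset.prod_induction _ IsUnit (fun a b ha hb => ha.mul hb) isUnit_one
      fun z hz => hunit2 z hz)
  obtain ⟨q', hq'⟩ := hqu.exists_right_inv
  -- the point
  obtain ⟨χ, u₀, w₀, hχF, hχq⟩ := ChFam_point s u w hs F₀ q hroot hqu
  have hχF' : ev1 (k := ℂ) 0 u₀ w₀
      ((Polynomial.derivative F₀).map (MvPolynomial.map χ.toRingHom)) ≠ 0 := by
    intro h
    apply hχq
    rw [hq, Polynomial.map_mul, map_mul, h, zero_mul]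
  obtain ⟨ρ, W, hρ, -, hWan, hW⟩ := exists_implicit (F₀.map (MvPolynomial.map χ.toRingHom))
    (q.map (MvPolynomial.map χ.toRingHom)) u₀ w₀ hχF
    (by rw [Polynomial.derivative_map]; exact hχF') hχq
  obtain ⟨𝒲, ev, h𝒲, han, hev'⟩ := exists_ev Q V χ s u w F₀ q hker q' hq' ρ hρ u₀ W hWan
    (fun p hp => (hW p hp).1) (fun p hp => (hW p hp).2.2)
  have hsub : Set.range (algebraMap Q V) ∪ insert s (insert w (insert q' (Set.range u))) ⊆
      (𝒲 : Set V) := by
    rw [h𝒲]
    exact Algebra.subset_adjoin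
  have mQ : ∀ c : Q, algebraMap Q V c ∈ 𝒲 := fun c => hsub (Or.inl ⟨c, rfl⟩)
  have ms : s ∈ 𝒲 := hsub (Or.inr (Or.inl rfl))
  have mw : w ∈ 𝒲 := hsub (Or.inr (Or.inr (Or.inl rfl)))
  have mq' : q' ∈ 𝒲 := hsub (Or.inr (Or.inr (Or.inr (Or.inl rfl))))
  have mu : ∀ l, u l ∈ 𝒲 := fun l => hsub (Or.inr (Or.inr (Or.inr (Or.inr ⟨l, rfl⟩))))
  have mev : ∀ H : ChFam_A n Q, ev1 s u w H ∈ 𝒲 := ChFam_mem 𝒲 s u w mQ ms mu mw
  have hF'1 : ev1 s u w (Polynomial.derivative F₀) *
      (ev1 s u w (∏ z ∈ Z, p₂ z) * q') = 1 := by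
    rw [← mul_assoc, ← map_mul]
    exact hq'
  obtain ⟨hD', hder⟩ := ev_der Q V χ s u w F₀ q hroot q' hq' _ hF'1 ρ u₀ W hWan
    (fun p hp => (hW p hp).1) 𝒲 h𝒲 (𝒲.mul_mem (mev _) mq') ev han hev'
    (fun l => (D l).restrictScalars ℂ)
    (fun l c => (D l).map_algebraMap (algebraMap Q k c)) (fun l => hD.der_s l)
    (fun l j => hD.der_u l j)
  have hZ𝒲 : ∀ z ∈ (Z : Set V), z ∈ 𝒲 := by
    intro z hz
    have hz' : z ∈ Z := hz
    rw [ChFam_z (ev1 s u w) Z p₂ (Polynomial.derivative F₀) q' hq' z hz' _ (hfrac z hz')]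
    exact 𝒲.mul_mem (mev _) (𝒲.mul_mem (mev _) mq')
  have hc𝒲 : ∀ c ∈ (Zc : Set k), algebraMap k V c ∈ 𝒲 := fun c hc =>
    mQ ⟨c, hTQ (Or.inl hc)⟩
  exact ⟨{
    𝒲 := 𝒲
    hs := ms
    hu := mu
    hZ := hZ𝒲
    hc := hc𝒲
    hD := hD'
    ρ := ρ
    ρ_pos := hρ
    u₀ := u₀
    ev := ev
    an := han
    ev_s := fun z y hz hy => (hev' z y hz hy).1 ms
    ev_u := fun z y hz hy l => (hev' z y hz hy).2.1 l (mu l)
    ev_c := fun c hc z y hz hy => by
      have h1 := (hev' z y hz hy).2.2.2 ⟨c, hTQ (Or.inl hc)⟩ (hc𝒲 c hc)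
      have h2 := (hev' 0 0 (by simpa using hρ) (by simpa using hρ)).2.2.2
        ⟨c, hTQ (Or.inl hc)⟩ (hc𝒲 c hc)
      exact h1.trans h2.symm
    ev_D := hder }⟩

end Pool.Agent.Lib_KF

end

/-! ### from `Lib_MP_e0d435_kv.Extend` -/

section

/-! V06: finite extensions of log-differential discretely valued fields.

Proof: `K` the algebraic closure of `Λ.M`, an extension of `F` by `φ`; `ψ₀ : N → K` over `F`
(`IsAlgClosed.lift`); `M'` the subfield of `K` generated over `Λ.M` by the image of `ψ₀`, a finite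
extension of `Λ.M` (generated by the images of a basis of `N` over `F`, which are algebraic over
the image of `F`). Then V02, V03, V05; `Algebra ℂ M'` through `Λ.M`. -/

namespace Pool.Agent.Lib_MP_e0d435_kv

/-- a finite extension of the underlying field carries the structure -/
private theorem Extend_aux {k : ℕ} (Λ : LDF k) {M' : Type} [Field M'] [Algebra Λ.M M']
    [FiniteDimensional Λ.M M'] :
    ∃ (Λ' : LDF k) (ι : Λ.M →ₐ[ℂ] Λ'.M) (e : ℕ) (j : M' →+* Λ'.M), 1 ≤ e ∧
      (∀ f, Λ'.w (ι f) = e • Λ.w f) ∧ (∀ i f, Λ'.d i (ι f) = ι (Λ.d i f)) ∧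
      (∀ f, j (algebraMap Λ.M M' f) = ι f) := by
  have : CharZero Λ.M := charZero_of_injective_algebraMap (algebraMap ℂ Λ.M).injective
  let : Algebra ℂ M' := ((algebraMap Λ.M M').comp (algebraMap ℂ Λ.M)).toAlgebra
  have : IsScalarTower ℂ Λ.M M' := IsScalarTower.of_algebraMap_eq' rfl
  obtain ⟨w', t', e, he, ht', hw, hint, hfrac⟩ := exists_val_ext (M' := M') Λ.w Λ.t Λ.w_t
  choose δ' hδ' using fun i => exists_der_ext (M' := M') (Λ.d i)
  refine ⟨{ M := M', w := w', t := t', w_t := ht', d := δ'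
            log := fun i f => log_ext Λ.w Λ.t Λ.w_t w' t' e he ht' hw hint hfrac (Λ.d i)
              (Λ.log i) (δ' i) (hδ' i) f },
    IsScalarTower.toAlgHom ℂ Λ.M M', e, RingHom.id M', he, hw, ?_, fun f => rfl⟩
  intro i f
  exact hδ' i f

theorem LDF.extend {k : ℕ} (Λ : LDF k) {F N : Type} [Field F] [Field N] [Algebra F N]
    [FiniteDimensional F N] (φ : F →+* Λ.M) :
    ∃ (Λ' : LDF k) (ι : Λ.M →ₐ[ℂ] Λ'.M) (e : ℕ) (ψ : N →+* Λ'.M), 1 ≤ e ∧
      (∀ f, Λ'.w (ι f) = e • Λ.w f) ∧ (∀ i f, Λ'.d i (ι f) = ι (Λ.d i f)) ∧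
      (∀ f : F, ψ (algebraMap F N f) = ι (φ f)) := by
  let : Algebra F (AlgebraicClosure Λ.M) :=
    ((algebraMap Λ.M (AlgebraicClosure Λ.M)).comp φ).toAlgebra
  let ψ₀ : N →ₐ[F] AlgebraicClosure Λ.M := IsAlgClosed.lift
  let b := Module.finBasis F N
  let M' : IntermediateField Λ.M (AlgebraicClosure Λ.M) :=
    IntermediateField.adjoin Λ.M (Set.range fun i => ψ₀ (b i))
  have hfd : FiniteDimensional Λ.M M' := by
    refine IntermediateField.finiteDimensional_adjoin fun x _ => ?_
    exact Algebra.IsIntegral.isIntegral x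
  have hmem : ∀ n : N, ψ₀ n ∈ M' := by
    intro n
    rw [← b.sum_repr n, map_sum]
    refine sum_mem fun i _ => ?_
    rw [map_smul, Algebra.smul_def]
    refine mul_mem ?_ (IntermediateField.subset_adjoin _ _ ⟨i, rfl⟩)
    exact M'.algebraMap_mem (φ (b.repr n i))
  obtain ⟨Λ', ι, e, j, he, hw, hd, hj⟩ := Extend_aux Λ (M' := M')
  refine ⟨Λ', ι, e, j.comp ((ψ₀ : N →+* AlgebraicClosure Λ.M).codRestrict M'.toSubfield hmem),
    he, hw, hd, fun f => ?_⟩
  rw [← hj]
  change j _ = j _
  congr 1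
  apply Subtype.ext
  change ψ₀ (algebraMap F N f) = algebraMap Λ.M (AlgebraicClosure Λ.M) (φ f)
  rw [ψ₀.commutes]
  rfl

end Pool.Agent.Lib_MP_e0d435_kv

end

/-! ### from `Lib_MP_e0d435_kv.ConjNear` -/

section

/-! V09b: a near tie gives a conjugate near by. -/

namespace Pool.Agent.Lib_MP_e0d435_kv

/-- The same for a conjugate: `Q` is a constant times the minimal polynomial over `F` of `z` in
the Galois extension `N`, `ψ : N → M`. Proof: `minpoly F z` splits in `N` with roots the
`σ z`; apply `newton_near` to its image under `ψ`. -/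
theorem conj_near {F N M : Type} [Field F] [Field N] [Field M] [Algebra F N]
    [FiniteDimensional F N] [IsGalois F N] (ψ : N →+* M) (w : AddValuation M (WithTop ℤ)) (z : N)
    (hz : z ≠ 0) (Q : Polynomial F) (c : F) (hc : c ≠ 0)
    (hQ : Q = Polynomial.C c * minpoly F z) (τ δ : ℝ) (hδ : 0 ≤ δ) (j₀ j₁ : ℕ) (hj : j₀ ≠ j₁)
    (h₀ : Q.coeff j₀ ≠ 0) (h₁ : Q.coeff j₁ ≠ 0)
    (m₀ : ∀ l, Q.coeff l ≠ 0 → (ordZ w (ψ (algebraMap F N (Q.coeff j₀))) : ℝ) + j₀ * τ ≤
      ordZ w (ψ (algebraMap F N (Q.coeff l))) + l * τ + δ)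
    (m₁ : ∀ l, Q.coeff l ≠ 0 → (ordZ w (ψ (algebraMap F N (Q.coeff j₁))) : ℝ) + j₁ * τ ≤
      ordZ w (ψ (algebraMap F N (Q.coeff l))) + l * τ + δ) :
    ∃ σ : N ≃ₐ[F] N, |(ordZ w (ψ (σ z)) : ℝ) - τ| ≤ δ := by
  classical
  have hint : IsIntegral F z := Algebra.IsIntegral.isIntegral z
  have hsp : Polynomial.Splits ((minpoly F z).map (algebraMap F N)) := Normal.splits' z
  have hmon : ((minpoly F z).map (algebraMap F N)).Monic := (minpoly.monic hint).map _
  set R := ((minpoly F z).map (algebraMap F N)).roots with hR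
  have hprod := hsp.eq_prod_roots_of_monic hmon
  have hmin0 : minpoly F z ≠ 0 := minpoly.ne_zero hint
  have hroot : ∀ r ∈ R, Polynomial.aeval r (minpoly F z) = 0 := by
    intro r hr
    have h1 := (Polynomial.mem_roots'.1 hr).2
    rw [Polynomial.IsRoot.def, Polynomial.eval_map_algebraMap] at h1
    exact h1
  have hs : ∀ ζ ∈ R.map ψ, ζ ≠ 0 := by
    intro ζ hζ
    obtain ⟨r, hr, rfl⟩ := Multiset.mem_map.1 hζ
    obtain ⟨σ, hσ⟩ := minpoly.exists_algEquiv_of_root' hint.isAlgebraic (hroot r hr)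
    rw [Ne, map_eq_zero_iff ψ ψ.injective, ← hσ, map_eq_zero_iff σ σ.injective]
    exact hz
  have hP : Q.map (ψ.comp (algebraMap F N)) = Polynomial.C (ψ (algebraMap F N c)) *
      ((R.map ψ).map fun ζ => Polynomial.X - Polynomial.C ζ).prod := by
    rw [hQ, Polynomial.map_mul, Polynomial.map_C, ← Polynomial.map_map, hprod, ← hR]
    congr 1
    rw [← Polynomial.coe_mapRingHom, map_multiset_prod, Multiset.map_map, Multiset.map_map]
    congr 1
    refine Multiset.map_congr rfl fun r _ => ?_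
    simp
  have hcoe : ∀ l, (Q.map (ψ.comp (algebraMap F N))).coeff l = ψ (algebraMap F N (Q.coeff l)) := by
    intro l
    rw [Polynomial.coeff_map]
    rfl
  have hne : ∀ l, (Q.map (ψ.comp (algebraMap F N))).coeff l ≠ 0 ↔ Q.coeff l ≠ 0 := by
    intro l
    rw [hcoe, Ne, map_eq_zero_iff ψ ψ.injective,
      map_eq_zero_iff (algebraMap F N) (algebraMap F N).injective]
  obtain ⟨ζ, hζ, h⟩ := newton_near w (R.map ψ) hs (ψ (algebraMap F N c))
    (by
      rw [Ne, map_eq_zero_iff ψ ψ.injective,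
        map_eq_zero_iff (algebraMap F N) (algebraMap F N).injective]
      exact hc) τ δ hδ (Q.map (ψ.comp (algebraMap F N))) hP j₀ j₁ hj ((hne _).2 h₀) ((hne _).2 h₁)
    (fun l hl => by
      rw [hcoe, hcoe]
      exact m₀ l ((hne l).1 hl))
    (fun l hl => by
      rw [hcoe, hcoe]
      exact m₁ l ((hne l).1 hl))
  obtain ⟨r, hr, rfl⟩ := Multiset.mem_map.1 hζ
  obtain ⟨σ, hσ⟩ := minpoly.exists_algEquiv_of_root' hint.isAlgebraic (hroot r hr)
  exact ⟨σ, by rw [hσ]; exact h⟩

end Pool.Agent.Lib_MP_e0d435_kv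

end

/-! ### from `Lib_MP_e0d435_kv.Point` -/

section

/-! V13: existence of specialisations. -/

namespace Pool.Agent.Lib_MP_e0d435_kv

/-- evaluations extend to integral extensions -/
private theorem Point_extend {A Q : Type} [CommRing A] [CommRing Q] [Algebra A Q]
    [Algebra.IsIntegral A Q] (ev : A →+* ℂ) (hev : Function.Surjective ev)
    (hker : RingHom.ker (algebraMap A Q) ≤ RingHom.ker ev) :
    ∃ φ : Q →+* ℂ, ∀ a, φ (algebraMap A Q a) = ev a := by
  have hmax : (RingHom.ker ev).IsMaximal := RingHom.ker_isMaximal_of_surjective ev hev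
  obtain ⟨M, hM, hcomap⟩ := Ideal.exists_ideal_over_maximal_of_isIntegral (S := Q)
    (RingHom.ker ev) hker
  let _ : Field (Q ⧸ M) := Ideal.Quotient.field M
  let g : A →+* Q ⧸ M := (Ideal.Quotient.mk M).comp (algebraMap A Q)
  have hg : RingHom.ker ev ≤ RingHom.ker g := by
    intro a ha
    rw [← hcomap, Ideal.mem_comap] at ha
    rw [RingHom.mem_ker]
    exact Ideal.Quotient.eq_zero_iff_mem.2 ha
  let ι : ℂ →+* Q ⧸ M := RingHom.liftOfRightInverse ev (Function.surjInv hev)
    (Function.rightInverse_surjInv hev) ⟨g, hg⟩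
  have hι : ∀ a, ι (ev a) = g a := fun a =>
    RingHom.liftOfRightInverse_comp_apply ev (Function.surjInv hev)
      (Function.rightInverse_surjInv hev) ⟨g, hg⟩ a
  have hgi : g.IsIntegral := RingHom.IsIntegral.trans _ _ (algebraMap_isIntegral_iff.2 inferInstance)
    (RingHom.isIntegral_of_surjective _ Ideal.Quotient.mk_surjective)
  have hcomp : ι.comp ev = g := RingHom.ext hι
  have hιi : ι.IsIntegral := RingHom.IsIntegral.tower_top (f := ev) (g := ι) (by rw [hcomp]; exact hgi)
  let _ : Algebra ℂ (Q ⧸ M) := ι.toAlgebra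
  have hint : Algebra.IsIntegral ℂ (Q ⧸ M) := ⟨hιi⟩
  have hbij : Function.Bijective (algebraMap ℂ (Q ⧸ M)) :=
    IsAlgClosed.algebraMap_bijective_of_isIntegral
  let e : ℂ ≃+* Q ⧸ M := RingEquiv.ofBijective (algebraMap ℂ (Q ⧸ M)) hbij
  refine ⟨(e.symm : Q ⧸ M →+* ℂ).comp (Ideal.Quotient.mk M), fun a => ?_⟩
  show e.symm (g a) = ev a
  rw [← hι a]
  exact e.symm_apply_apply (ev a)

/-- Proof: let `A' = ℂ[X, 1/h]` (embedded in `N` by `f`) and `Q = A'[ρ]`, integral over
`A'` and finitely generated over `ℂ`. The evaluation at `y` is a homomorphism `A' → ℂ` with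
kernel a maximal ideal `m`; there is a maximal ideal of `Q` over `m` (lying over), its residue
field is a finitely generated `ℂ`-algebra and a field, so `ℂ` (Zariski / Nullstellensatz), or:
algebraic over `A'/m = ℂ`. `ζ a` = the image of `ρ a`. -/
theorem exists_point {k D : ℕ} {N : Type} [Field N] (f : Pol k →+* N)
    (hf : Function.Injective f) (ρ : Fin D → N) (h : Pol k)
    (hint : ∀ a, ∃ p : Polynomial (Pol k), p.leadingCoeff ∣ h ∧ p.eval₂ f (ρ a) = 0)
    (y : Fin k → ℂ) (hy : MvPolynomial.eval y h ≠ 0) :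
    ∃ ζ : Fin D → ℂ, Specialises f ρ y ζ := by
  have hh : h ≠ 0 := fun h0 => hy (by rw [h0, map_zero])
  have hfh : IsUnit (f h) := by
    rw [isUnit_iff_ne_zero]
    exact fun h0 => hh (hf (by rw [h0, map_zero]))
  let A' : Type := Localization.Away h
  let f' : A' →+* N := IsLocalization.Away.lift h hfh
  have hf' : ∀ a, f' (algebraMap (Pol k) A' a) = f a := fun a => IsLocalization.Away.lift_eq h hfh a
  let ev' : A' →+* ℂ := IsLocalization.Away.lift (g := MvPolynomial.eval y) h (isUnit_iff_ne_zero.2 hy)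
  have hev' : ∀ a, ev' (algebraMap (Pol k) A' a) = MvPolynomial.eval y a := fun a =>
    IsLocalization.Away.lift_eq h (isUnit_iff_ne_zero.2 hy) a
  let _ : Algebra (Pol k) N := f.toAlgebra
  let _ : Algebra A' N := f'.toAlgebra
  have _ : IsScalarTower (Pol k) A' N := IsScalarTower.of_algebraMap_eq fun a => (hf' a).symm
  have hρ : ∀ a, IsIntegral A' (ρ a) := by
    intro a
    obtain ⟨p, hp1, hp2⟩ := hint a
    have h1 : IsIntegral (Pol k) (p.leadingCoeff • ρ a) :=
      isIntegral_leadingCoeff_smul p (ρ a) (by rw [Polynomial.aeval_def]; exact hp2)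
    have h2 : IsIntegral A' (p.leadingCoeff • ρ a) := h1.tower_top
    have h3 : IsUnit (algebraMap (Pol k) A' p.leadingCoeff) :=
      isUnit_of_dvd_unit (map_dvd (algebraMap (Pol k) A') hp1)
        (IsLocalization.Away.algebraMap_isUnit h)
    obtain ⟨c, hc⟩ := h3
    have h4 : ρ a = (↑c⁻¹ : A') • (p.leadingCoeff • ρ a) := by
      rw [← IsScalarTower.algebraMap_smul A' p.leadingCoeff (ρ a), ← hc, smul_smul,
        Units.inv_mul, one_smul]
    rw [h4]
    exact h2.smul _
  let Q : Subalgebra A' N := Algebra.adjoin A' (Set.range ρ)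
  have hQ : Algebra.IsIntegral A' Q := Algebra.IsIntegral.adjoin (by
    rintro _ ⟨a, rfl⟩
    exact hρ a)
  have hinj' : Function.Injective f' := by
    rw [injective_iff_map_eq_zero]
    intro a ha
    obtain ⟨m, b, hb⟩ := IsLocalization.Away.surj h a
    have h1 : f b = 0 := by
      rw [← hf' b, ← hb, map_mul, ha, zero_mul]
    have h2 : b = 0 := hf (by rw [h1, map_zero])
    rw [h2, map_zero] at hb
    have h3 : IsUnit (algebraMap (Pol k) A' h ^ m) :=
      (IsLocalization.Away.algebraMap_isUnit h).pow m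
    exact (h3.mul_left_eq_zero).1 hb
  have hev : Function.Surjective ev' := by
    intro c
    refine ⟨algebraMap (Pol k) A' (MvPolynomial.C c), ?_⟩
    rw [hev', MvPolynomial.eval_C]
  obtain ⟨φ, hφ⟩ := Point_extend (A := A') (Q := Q) ev' hev (by
    intro a ha
    rw [RingHom.mem_ker] at ha
    have h1 : f' a = 0 := congrArg Subtype.val ha
    rw [hinj' (h1.trans (map_zero f').symm)]
    exact zero_mem _)
  let z : Fin D → Q := fun a => ⟨ρ a, Algebra.subset_adjoin ⟨a, rfl⟩⟩
  refine ⟨fun a => φ (z a), ?_⟩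
  intro p hp
  have h1 : MvPolynomial.eval₂ (((algebraMap A' Q)).comp (algebraMap (Pol k) A')) z p = 0 := by
    apply Subtype.ext
    have h2 := MvPolynomial.eval₂_comp_left (Q.val : Q →+* N)
      (((algebraMap A' Q)).comp (algebraMap (Pol k) A')) z p
    have h3 : ((Q.val : Q →+* N)).comp (((algebraMap A' Q)).comp (algebraMap (Pol k) A')) = f :=
      RingHom.ext hf'
    rw [h3] at h2
    exact h2.trans hp
  have h4 := MvPolynomial.eval₂_comp_left φ
    (((algebraMap A' Q)).comp (algebraMap (Pol k) A')) z p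
  rw [h1, map_zero] at h4
  have h5 : φ.comp (((algebraMap A' Q)).comp (algebraMap (Pol k) A')) = MvPolynomial.eval y :=
    RingHom.ext fun a => (hφ _).trans (hev' a)
  rw [h5] at h4
  exact h4.symm

/-- Specialisation of elements which are polynomials in the `z i`. Proof: substitute. -/
theorem Specialises.comp {k P P' : ℕ} {N : Type} [CommRing N] {f : Pol k →+* N} {z : Fin P → N}
    {y : Fin k → ℂ} {ζ : Fin P → ℂ} (h : Specialises f z y ζ)
    (p : Fin P' → MvPolynomial (Fin P) (Pol k)) :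
    Specialises f (fun i => MvPolynomial.eval₂ f z (p i)) y
      (fun i => MvPolynomial.eval₂ (MvPolynomial.eval y) ζ (p i)) := by
  intro q hq
  have h1 := h (MvPolynomial.bind₁ p q)
  have h2 := MvPolynomial.eval₂Hom_bind₁ f z p q
  have h3 := MvPolynomial.eval₂Hom_bind₁ (MvPolynomial.eval y) ζ p q
  exact h3.symm.trans (h1 (h2.trans hq))

end Pool.Agent.Lib_MP_e0d435_kv

end

/-! ### from `Lib_MP_e0d435_kv.Root` -/

section

/-! V14: splitting data. -/

namespace Pool.Agent.Lib_MP_e0d435_kv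

namespace RootData

variable {k J : ℕ} {g : Fin J → Pol (k + 1)} (r : RootData k J g)

/-- The factorisation at a specialisation. Proof: the coefficients of `factor` are polynomial
relations between the `ρ a`; write `finSuccEquiv` evaluated:
`eval (Fin.cons y0 y) (g i) = (finSuccEquiv ℂ k (g i)).eval₂ (eval y) y0` up to
`MvPolynomial.eval_eq_eval_mv_eval'`; for every coefficient `l` of
`finSuccEquiv (g i) - C (lead i) ∏ (X - C ρ_a) ^ m` use `Specialises`. -/
theorem eval_eq (y : Fin k → ℂ) (ζ : Fin r.D → ℂ) (h : Specialises (toN k r.N) r.ρ y ζ)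
    (i : Fin J) (y0 : ℂ) : MvPolynomial.eval (Fin.cons y0 y : Fin (k + 1) → ℂ) (g i) =
      MvPolynomial.eval y (r.lead i) * ∏ a, (y0 - ζ a) ^ (r.mult i a) := by
  set P := MvPolynomial.finSuccEquiv ℂ k (g i) with hP
  set Q : Polynomial (MvPolynomial (Fin r.D) (Pol k)) :=
    P.map MvPolynomial.C - Polynomial.C (MvPolynomial.C (r.lead i)) *
      ∏ a, (Polynomial.X - Polynomial.C (MvPolynomial.X a)) ^ (r.mult i a) with hQ
  have key : ∀ {S : Type} [CommRing S] (f : Pol k →+* S) (z : Fin r.D → S),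
      Q.map (MvPolynomial.eval₂Hom f z) = P.map f - Polynomial.C (f (r.lead i)) *
        ∏ a, (Polynomial.X - Polynomial.C (z a)) ^ (r.mult i a) := by
    intro S _ f z
    rw [hQ, Polynomial.map_sub, Polynomial.map_mul, Polynomial.map_map, Polynomial.map_C,
      MvPolynomial.eval₂Hom_comp_C, MvPolynomial.coe_eval₂Hom, MvPolynomial.eval₂_C,
      Polynomial.map_prod]
    congr 2
    refine Finset.prod_congr rfl fun a _ => ?_
    rw [Polynomial.map_pow, Polynomial.map_sub, Polynomial.map_X, Polynomial.map_C,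
      MvPolynomial.coe_eval₂Hom, MvPolynomial.eval₂_X]
  have h1 : Q.map (MvPolynomial.eval₂Hom (toN k r.N) r.ρ) = 0 := by
    rw [key, hP, r.factor i, sub_self]
  have h2 : Q.map (MvPolynomial.eval₂Hom (MvPolynomial.eval y) ζ) = 0 := by
    ext l
    rw [Polynomial.coeff_map, Polynomial.coeff_zero]
    refine h _ ?_
    have h3 := congrArg (fun q => Polynomial.coeff q l) h1
    simp only [Polynomial.coeff_map, Polynomial.coeff_zero] at h3
    exact h3
  rw [key, sub_eq_zero] at h2
  rw [MvPolynomial.eval_eq_eval_mv_eval', ← hP, h2]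
  simp [Polynomial.eval_mul, Polynomial.eval_prod]

/-- The factorisation at a point with values in a field. -/
theorem aeval_eq {M : Type} [Field M] [Algebra ℂ M] (ψ : r.N →+* M) (x : Fin k → M)
    (hψ : ∀ p : Pol k, ψ (toN k r.N p) = MvPolynomial.aeval x p) (i : Fin J) (x0 : M) :
    MvPolynomial.aeval (Fin.cons x0 x : Fin (k + 1) → M) (g i) =
      MvPolynomial.aeval x (r.lead i) * ∏ a, (x0 - ψ (r.ρ a)) ^ (r.mult i a) := by
  have h0 : ∀ q : Pol (k + 1), MvPolynomial.aeval (Fin.cons x0 x : Fin (k + 1) → M) q =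
      ((MvPolynomial.finSuccEquiv ℂ k q).map
        (MvPolynomial.aeval x : Pol k →ₐ[ℂ] M).toRingHom).eval x0 := by
    intro q
    have h1 : (MvPolynomial.aeval (Fin.cons x0 x : Fin (k + 1) → M) : Pol (k + 1) →ₐ[ℂ] M).toRingHom =
        ((Polynomial.evalRingHom x0).comp
          (Polynomial.mapRingHom (MvPolynomial.aeval x : Pol k →ₐ[ℂ] M).toRingHom)).comp
          (MvPolynomial.finSuccEquiv ℂ k).toRingEquiv.toRingHom := by
      refine MvPolynomial.ringHom_ext (fun c => ?_) (fun j => ?_)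
      · simp [MvPolynomial.finSuccEquiv_apply]
      · refine Fin.cases ?_ (fun j => ?_) j
        · simp [MvPolynomial.finSuccEquiv_X_zero]
        · simp [MvPolynomial.finSuccEquiv_X_succ]
    exact congrArg (fun f => f q) h1
  have h2 : ψ.comp (toN k r.N) = (MvPolynomial.aeval x : Pol k →ₐ[ℂ] M).toRingHom :=
    RingHom.ext hψ
  rw [h0, ← h2, ← Polynomial.map_map, r.factor i]
  have h3 : ψ (toN k r.N (r.lead i)) = MvPolynomial.aeval x (r.lead i) := hψ _
  rw [Polynomial.map_mul, Polynomial.map_C, Polynomial.map_prod, Polynomial.eval_mul,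
    Polynomial.eval_C, Polynomial.eval_prod, h3]
  congr 1
  refine Finset.prod_congr rfl fun a _ => ?_
  rw [Polynomial.map_pow, Polynomial.map_sub, Polynomial.map_X, Polynomial.map_C,
    Polynomial.eval_pow, Polynomial.eval_sub, Polynomial.eval_X, Polynomial.eval_C]

/-- The hypothesis of V13 for the roots, `h = ∏ lead`. Proof: `root`; for `ρ a = 0` take
`p = X`, else `p = finSuccEquiv (g i)` with `mult i a > 0`, whose leading coefficient is `lead i`
(compare the leading coefficients in `factor`, `toN` is injective). -/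
theorem integral (a : Fin r.D) : ∃ p : Polynomial (Pol k), p.leadingCoeff ∣ ∏ i, r.lead i ∧
    p.eval₂ (toN k r.N) (r.ρ a) = 0 := by
  rcases r.root a with h | ⟨i, hi⟩
  · refine ⟨Polynomial.X, ?_, ?_⟩
    · rw [Polynomial.leadingCoeff_X]
      exact one_dvd _
    · rw [Polynomial.eval₂_X, h]
  · have hinj : Function.Injective (toN k r.N) :=
      (RingHom.injective (algebraMap (Rat k) r.N)).comp (IsFractionRing.injective (Pol k) (Rat k))
    refine ⟨MvPolynomial.finSuccEquiv ℂ k (g i), ?_, ?_⟩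
    · have h1 : (MvPolynomial.finSuccEquiv ℂ k (g i)).leadingCoeff = r.lead i := by
        apply hinj
        rw [← Polynomial.leadingCoeff_map_of_injective hinj, r.factor i, Polynomial.leadingCoeff_mul,
          Polynomial.leadingCoeff_C, Polynomial.leadingCoeff_prod]
        simp
      rw [h1]
      exact Finset.dvd_prod_of_mem _ (Finset.mem_univ i)
    · rw [← Polynomial.eval_map, r.factor i, Polynomial.eval_mul, Polynomial.eval_prod]
      have h2 : ∏ b, Polynomial.eval (r.ρ a) ((Polynomial.X - Polynomial.C (r.ρ b)) ^ (r.mult i b)) = 0 := by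
        refine Finset.prod_eq_zero (Finset.mem_univ a) ?_
        simp [hi.ne']
      rw [h2, mul_zero]

end RootData

end Pool.Agent.Lib_MP_e0d435_kv

end

/-! ### from `Lib_MP_e0d435_kv.RootEx` -/

section

/-! V14a: existence of splitting data. -/

namespace Pool.Agent.Lib_MP_e0d435_kv

open Polynomial in
private theorem rootEx_factor {N : Type} [Field N] (R : Finset N) (q : N[X]) (hq : q.Splits)
    (hR : ∀ x ∈ q.roots, x ∈ R) :
    q = C q.leadingCoeff * ∏ x ∈ R, (X - C x) ^ q.rootMultiplicity x := by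
  classical
  have h1 := hq.eq_prod_roots
  have h2 : (q.roots.map fun a => X - C a).prod =
      ∏ x ∈ R, (X - C x) ^ q.rootMultiplicity x := by
    rw [Finset.prod_multiset_map_count]
    have h3 : q.roots.toFinset ⊆ R := fun x hx => hR x (Multiset.mem_toFinset.1 hx)
    rw [← Finset.prod_subset h3]
    · refine Finset.prod_congr rfl fun x _ => ?_
      rw [count_roots]
    · intro x _ hx
      rw [← count_roots, Multiset.count_eq_zero.2 (fun h => hx (Multiset.mem_toFinset.2 h)),
        pow_zero]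
  rw [← h2]
  exact h1

/-- Proof: `N` the splitting field over `Rat k` of the product of the images of the
`finSuccEquiv ℂ k (g i)` and of `X`; `ρ` an enumeration of the distinct roots in `N` of the
product; `lead i` the leading coefficient of `finSuccEquiv ℂ k (g i)`, `mult i a` the root
multiplicity (`Polynomial.Splits`, `Multiset` of roots as a product over the distinct roots:
`Finset.prod_multiset_map_count`). -/
theorem exists_rootData (k J : ℕ) (g : Fin J → Pol (k + 1)) (hg : ∀ i, g i ≠ 0) :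
    Nonempty (RootData k J g) := by
  classical
  let q : Fin J → Polynomial (Pol k) := fun i => MvPolynomial.finSuccEquiv ℂ k (g i)
  have hq : ∀ i, q i ≠ 0 := by
    intro i h
    exact hg i ((MvPolynomial.finSuccEquiv ℂ k).injective (by rw [map_zero]; exact h))
  have hinj : Function.Injective (algebraMap (Pol k) (Rat k)) := IsFractionRing.injective _ _
  let q' : Fin J → Polynomial (Rat k) := fun i => (q i).map (algebraMap (Pol k) (Rat k))
  have hq' : ∀ i, q' i ≠ 0 := fun i => (Polynomial.map_ne_zero_iff hinj).2 (hq i)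
  let P : Polynomial (Rat k) := Polynomial.X * ∏ i, q' i
  have hP : P ≠ 0 := mul_ne_zero Polynomial.X_ne_zero (Finset.prod_ne_zero_iff.2 fun i _ => hq' i)
  let N := P.SplittingField
  let al : Rat k →+* N := algebraMap (Rat k) N
  have hal : Function.Injective al := al.injective
  have hPN : P.map al ≠ 0 := (Polynomial.map_ne_zero_iff hal).2 hP
  have hsplit : (P.map al).Splits := Polynomial.SplittingField.splits P
  have hto : ∀ i, (q i).map (toN k N) = (q' i).map al := by
    intro i
    simp only [q', Polynomial.map_map]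
    rfl
  have hdvd : ∀ i, (q i).map (toN k N) ∣ P.map al := by
    intro i
    rw [hto]
    apply Polynomial.map_dvd
    exact (Finset.dvd_prod_of_mem q' (Finset.mem_univ i)).mul_left _
  have htoinj : Function.Injective (toN k N) := by
    have : (toN k N : Pol k → N) = al ∘ algebraMap (Pol k) (Rat k) := rfl
    rw [this]
    exact hal.comp hinj
  have hne : ∀ i, (q i).map (toN k N) ≠ 0 := fun i => (Polynomial.map_ne_zero_iff htoinj).2 (hq i)
  let R : Finset N := (P.map al).roots.toFinset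
  have h0R : (0 : N) ∈ R := by
    rw [Multiset.mem_toFinset, Polynomial.mem_roots hPN]
    simp [P, Polynomial.IsRoot]
  let E : Fin R.card ≃ R := R.equivFin.symm
  have hprod : ∀ i, ∏ x ∈ R, (Polynomial.X - Polynomial.C x) ^
      ((q i).map (toN k N)).rootMultiplicity x =
      ∏ a : Fin R.card, (Polynomial.X - Polynomial.C (E a : N)) ^
        ((q i).map (toN k N)).rootMultiplicity (E a : N) := by
    intro i
    rw [← Finset.prod_coe_sort]
    exact (Fintype.prod_equiv E _ _ fun a => rfl).symm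
  refine ⟨{
    N := N
    field := inferInstance
    algebra := inferInstance
    finite := inferInstance
    galois := ?_
    D := R.card
    ρ := fun a => (E a : N)
    inj := fun a b h => E.injective (Subtype.ext h)
    zero := ⟨E.symm ⟨0, h0R⟩, by simp⟩
    lead := fun i => (q i).leadingCoeff
    lead_ne := fun i => Polynomial.leadingCoeff_ne_zero.2 (hq i)
    mult := fun i a => ((q i).map (toN k N)).rootMultiplicity (E a : N)
    factor := ?_
    root := ?_ }⟩
  · have hn : Normal (Rat k) N := Normal.of_isSplittingField P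
    have hc : CharZero (Rat k) := (RingHom.charZero_iff hinj).1 inferInstance
    have hs : Algebra.IsSeparable (Rat k) N := inferInstance
    exact { hs, hn with }
  · intro i
    rw [← hprod i]
    have h1 := rootEx_factor R ((q i).map (toN k N)) (hsplit.of_dvd hPN (hdvd i)) (by
      intro x hx
      rw [Multiset.mem_toFinset]
      exact Multiset.mem_of_le (Polynomial.roots.le_of_dvd hPN (hdvd i)) hx)
    rw [Polynomial.leadingCoeff_map_of_injective htoinj] at h1
    exact h1
  · intro a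
    have h1 : (E a : N) ∈ R := (E a).2
    rw [Multiset.mem_toFinset, Polynomial.mem_roots hPN] at h1
    simp only [P, Polynomial.IsRoot, Polynomial.map_mul, Polynomial.map_X, Polynomial.map_prod,
      Polynomial.eval_mul, Polynomial.eval_X, Polynomial.eval_prod, mul_eq_zero] at h1
    rcases h1 with h1 | h1
    · exact Or.inl h1
    · right
      obtain ⟨i, -, hi⟩ := Finset.prod_eq_zero_iff.1 h1
      refine ⟨i, ?_⟩
      rw [Polynomial.rootMultiplicity_pos (hne i), hto]
      exact hi

end Pool.Agent.Lib_MP_e0d435_kv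

end

/-! ### from `Lib_MP_e0d435_kv.AdDvr` -/

section

/-! AD2: the valuation ring of an intermediate field. Proof: as `vsub_dvr`,
`vsub_isFractionRing` of `Vring.lean` (the rings `vfun w K` and `vsub w K.toSubfield` have the
same elements; transport along a ring isomorphism, or repeat the proof). -/

namespace Pool.Agent.Lib_MP_e0d435_kv

/-- The two rings have the same elements. -/
private def AdDvr_equiv {M : Type} [Field M] [Algebra ℂ M] (w : AddValuation M (WithTop ℤ))
    (K : IntermediateField ℂ M) : vsub w K.toSubfield ≃+* vfun w K where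
  toFun f := ⟨f.1, f.2.1, f.2.2⟩
  invFun f := ⟨f.1, f.2.1, f.2.2⟩
  left_inv _ := rfl
  right_inv _ := rfl
  map_mul' _ _ := rfl
  map_add' _ _ := rfl

private theorem AdDvr_transport {A B : Type} [CommRing A] [IsDomain A] [CommRing B] [IsDomain B]
    (e : A ≃+* B) (hA : IsDiscreteValuationRing A) :
    ∃ _ : IsDiscreteValuationRing B, ∀ a : A, a ≠ 0 →
      IsDiscreteValuationRing.addVal B (e a) = IsDiscreteValuationRing.addVal A a := by
  have hB : IsDiscreteValuationRing B := IsDiscreteValuationRing.RingEquivClass.isDiscreteValuationRing e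
  refine ⟨hB, fun a ha => ?_⟩
  obtain ⟨ϖ, hϖ⟩ := IsDiscreteValuationRing.exists_irreducible A
  obtain ⟨n, u, hu⟩ := IsDiscreteValuationRing.eq_unit_mul_pow_irreducible ha hϖ
  rw [IsDiscreteValuationRing.addVal_def a u hϖ n hu]
  have h2 : Irreducible (e ϖ) := (MulEquiv.irreducible_iff e).2 hϖ
  exact IsDiscreteValuationRing.addVal_def (e a) (Units.map (e : A →* B) u) h2 n (by
    rw [hu, map_mul, map_pow]; rfl)

theorem vfun_dvr {M : Type} [Field M] [Algebra ℂ M] (w : AddValuation M (WithTop ℤ))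
    (K : IntermediateField ℂ M) (hnt : ∃ f ∈ K, f ≠ 0 ∧ ordZ w f ≠ 0) :
    ∃ (e : ℕ) (_ : IsDiscreteValuationRing (vfun w K)), 1 ≤ e ∧
      (∀ f : vfun w K, f ≠ 0 →
        ordZ w (f : M) = e * (IsDiscreteValuationRing.addVal (vfun w K) f).toNat) ∧
      ∀ f ∈ K, ∃ a b : vfun w K, b ≠ 0 ∧ f * b = a := by
  obtain ⟨e, hA, he, h1, _⟩ := vsub_dvr w K.toSubfield hnt
  obtain ⟨hB, h2⟩ := AdDvr_transport (AdDvr_equiv w K) hA
  refine ⟨e, hB, he, ?_, ?_⟩
  · intro f hf
    have hg : (AdDvr_equiv w K).symm f ≠ 0 := fun h => hf (by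
      rw [← (AdDvr_equiv w K).apply_symm_apply f, h, map_zero])
    have h3 := h1 _ hg
    have h4 := h2 _ hg
    rw [(AdDvr_equiv w K).apply_symm_apply] at h4
    rw [h4]
    exact h3
  · intro f hf
    obtain ⟨a, b, hb, hab⟩ := vsub_isFractionRing w K.toSubfield f hf
    refine ⟨AdDvr_equiv w K a, AdDvr_equiv w K b, ?_, hab⟩
    intro h
    exact hb ((AdDvr_equiv w K).injective (by rw [h, map_zero]))

end Pool.Agent.Lib_MP_e0d435_kv

end
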