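import Mathlib
import Pool.Agent.Lib_MP_e0d435_m.G02
import Pool.Agent.Lib_MP_e0d435_m.G03
import Pool.Agent.Lib_MP_e0d435_m.G04
import Pool.Agent.Lib_MP_e0d435_m.G06
import Pool.Agent.Lib_MP_e0d435_m.G10
import Pool.Agent.Lib_MP_e0d435_m.G11
import Pool.Agent.Lib_MP_e0d435_m.G12

/-!
# MP_e0d435_ag: merged library part G14

Concatenation of library files (each in its own section), only to save build time.
-/

/-! ### from `Lib_GD.OkCount` -/

section

/-! B03c: products of sections fill the level sets. -/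

open scoped ENNReal
open MeasureTheory

namespace Pool.Agent.Lib_GD.OkData

variable {n : ℕ} (D : OkData n)

private theorem OkCount_lev_nonneg (g : ℕ → (Fin n → ℕ) → ℕ) (m : ℕ) (t : ℝ) :
    ∀ x ∈ D.lev g m t, ∀ i, 0 ≤ x i := by
  rintro x ⟨p, hp, _, hx, _⟩ i
  rw [hx i]
  exact Finset.sum_nonneg fun γ _ => mul_nonneg (hp γ) (Nat.cast_nonneg _)

private theorem OkCount_tendsto_div (m r₀ : ℕ) (hm : 1 ≤ m) :
    Filter.Tendsto (fun M : ℕ => (M - r₀) / m) Filter.atTop Filter.atTop := by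
  refine Filter.tendsto_atTop.2 fun b => ?_
  filter_upwards [Filter.eventually_ge_atTop (r₀ + b * m)] with M hM
  rw [Nat.le_div_iff_mul_le (by omega)]
  omega

private theorem OkCount_ratio (m r₀ : ℕ) (hm : 1 ≤ m) :
    Filter.Tendsto (fun M : ℕ => (((M - r₀) / m : ℕ) : ℝ) / M) Filter.atTop
      (nhds (1 / (m : ℝ))) := by
  have hm0 : (0 : ℝ) < m := by exact_mod_cast hm
  rw [Metric.tendsto_atTop]
  intro ε hε
  obtain ⟨N, hN⟩ := exists_nat_gt (((r₀ : ℝ) + m) / ε)
  refine ⟨max (N + 1) (r₀ + 1), fun M hM => ?_⟩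
  have hM1 : N + 1 ≤ M := le_trans (le_max_left _ _) hM
  have hM2 : r₀ + 1 ≤ M := le_trans (le_max_right _ _) hM
  have hM0 : (0 : ℝ) < M := by
    have : 0 < M := by omega
    exact_mod_cast this
  set k := (M - r₀) / m with hk
  have h1 : m * k ≤ M - r₀ := Nat.mul_div_le _ _
  have h2 : M - r₀ < m * k + m := by
    have := Nat.lt_mul_div_succ (M - r₀) (show 0 < m by omega)
    rw [mul_add, mul_one] at this
    exact this
  have h3 : (m : ℝ) * k ≤ M := by
    have : m * k ≤ M := by omega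
    exact_mod_cast this
  have h4 : (M : ℝ) < m * k + m + r₀ := by
    have : M < m * k + m + r₀ := by omega
    exact_mod_cast this
  rw [Real.dist_eq, abs_sub_comm]
  have h5 : 1 / (m : ℝ) - k / M = (M - m * k) / (m * M) := by field_simp
  rw [h5, abs_of_nonneg (div_nonneg (by linarith) (by positivity))]
  have h6 : ((M : ℝ) - m * k) / (m * M) ≤ (r₀ + m) / M := by
    rw [div_le_div_iff₀ (by positivity) hM0]
    have h7 : (M : ℝ) - m * k ≤ m + r₀ := by linarith
    have h8 : (1 : ℝ) ≤ m := by exact_mod_cast hm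
    have h9 : (0 : ℝ) ≤ (r₀ : ℝ) := Nat.cast_nonneg _
    calc ((M : ℝ) - m * k) * M ≤ (m + r₀) * M := mul_le_mul_of_nonneg_right h7 hM0.le
      _ ≤ (r₀ + m) * (m * M) := by nlinarith [mul_nonneg (add_nonneg h9 hm0.le) hM0.le]
  refine lt_of_le_of_lt h6 ?_
  have hr : (0 : ℝ) < (r₀ : ℝ) + m := by positivity
  rw [div_lt_iff₀ hM0]
  rw [div_lt_iff₀ hε] at hN
  have : (N : ℝ) < M := by
    have : N < M := by omega
    exact_mod_cast this
  nlinarith

open Classical in
/-- B03c: asymptotic lower bound for the number of elements of large weight. -/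
private theorem OkCount_le (g : ℕ → (Fin n → ℕ) → ℕ) (hg : D.IsWeight g) (m : ℕ) (hm : D.m₀ ≤ m)
    (t : ℝ) (τ : ℝ) (hτ : τ * m < t ∨ (τ = 0 ∧ t = 0)) :
    ∃ r₀ : ℕ, ∀ᶠ M : ℕ in Filter.atTop,
      Nat.card {z : Fin n → ℕ // (fun i => (z i : ℝ) / ((M - r₀) / m : ℕ)) ∈ D.lev g m t} ≤
        D.cnt g M (τ * M) := by
  obtain ⟨r₀, K, hK⟩ := D.exists_mem_of_lev g hg m hm t
  refine ⟨r₀, ?_⟩
  have hm1 : 1 ≤ m := D.hm₀.trans hm
  have hm0 : (0 : ℝ) < m := by exact_mod_cast hm1
  have hev : ∀ᶠ k : ℕ in Filter.atTop, 1 ≤ k ∧ (τ * m < t →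
      K + |τ| * (r₀ + m) ≤ k * (t - τ * m)) := by
    refine (Filter.eventually_ge_atTop 1).and ?_
    by_cases h : τ * m < t
    · obtain ⟨N, hN⟩ := exists_nat_gt ((K + |τ| * (r₀ + m)) / (t - τ * m))
      filter_upwards [Filter.eventually_ge_atTop N] with k hk _
      rw [div_lt_iff₀ (by linarith)] at hN
      have : (N : ℝ) ≤ k := by exact_mod_cast hk
      nlinarith
    · exact Filter.Eventually.of_forall fun k h' => absurd h' h
  have hev2 := (OkCount_tendsto_div m r₀ hm1).eventually hev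
  filter_upwards [hev2, Filter.eventually_ge_atTop (r₀ + 1)] with M ⟨hk1, hk2⟩ hM
  set k := (M - r₀) / m with hk
  have h1 : m * k ≤ M - r₀ := Nat.mul_div_le _ _
  have h2 : M - r₀ < m * k + m := by
    have := Nat.lt_mul_div_succ (M - r₀) (show 0 < m by omega)
    rw [mul_add, mul_one] at this
    exact this
  obtain ⟨r, hr⟩ : ∃ r, M = m * k + r := ⟨M - m * k, by omega⟩
  have hr1 : r₀ ≤ r := by omega
  have hr2 : r < r₀ + m := by omega
  have hmem : ∀ z : {z : Fin n → ℕ // (fun i => (z i : ℝ) / k) ∈ D.lev g m t},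
      z.1 ∈ (D.Γ M).filter fun γ => τ * M ≤ (g M γ : ℝ) := by
    intro z
    obtain ⟨h3, h4⟩ := hK k r hr1 hk1 z.1 z.2
    rw [← hr] at h3 h4
    refine Finset.mem_filter.2 ⟨h3, ?_⟩
    rcases hτ with h5 | ⟨h5, h6⟩
    · refine le_trans ?_ h4
      have h7 := hk2 h5
      have h8 : (M : ℝ) = m * k + r := by rw [hr]; push_cast; ring
      rw [h8]
      have h9 : τ * r ≤ |τ| * (r₀ + m) := by
        have h10 : (r : ℝ) ≤ r₀ + m := by
          have : r ≤ r₀ + m := by omega
          exact_mod_cast this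
        calc τ * r ≤ |τ| * r := mul_le_mul_of_nonneg_right (le_abs_self _) (Nat.cast_nonneg _)
          _ ≤ |τ| * (r₀ + m) := mul_le_mul_of_nonneg_left h10 (abs_nonneg _)
      nlinarith
    · rw [h5, zero_mul]; exact Nat.cast_nonneg _
  have hinj : Function.Injective (fun z : {z : Fin n → ℕ //
      (fun i => (z i : ℝ) / k) ∈ D.lev g m t} =>
        (⟨z.1, hmem z⟩ : ↥((D.Γ M).filter fun γ => τ * M ≤ (g M γ : ℝ)))) := by
    intro a b hab
    exact Subtype.ext (Subtype.mk.inj hab)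
  have := Nat.card_le_card_of_injective _ hinj
  refine this.trans (le_of_eq ?_)
  rw [Nat.card_eq_fintype_card, Fintype.card_coe]
  rfl

/-- B03c: asymptotic lower bound for the number of elements of large weight. -/
theorem count_lower (g : ℕ → (Fin n → ℕ) → ℕ) (hg : D.IsWeight g) (m : ℕ) (hm : D.m₀ ≤ m)
    (t : ℝ) (τ : ℝ) (hτ : τ * m < t ∨ (τ = 0 ∧ t = 0)) :
    volume (D.lev g m t) / (m : ℝ≥0∞) ^ n ≤
      Filter.liminf (fun M : ℕ => (D.cnt g M (τ * M) : ℝ≥0∞) / (M : ℝ≥0∞) ^ n)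
        Filter.atTop := by
  obtain ⟨r₀, hev⟩ := OkCount_le D g hg m hm t τ hτ
  have hm1 : 1 ≤ m := D.hm₀.trans hm
  have hm0 : (0 : ℝ) < m := by exact_mod_cast hm1
  set L : ℕ → ℕ := fun k =>
    Nat.card {z : Fin n → ℕ // (fun i => (z i : ℝ) / k) ∈ D.lev g m t} with hL
  have h1 := tendsto_lattice (D.lev g m t) (D.isCompact_lev g m t) (D.convex_lev g m t)
    (OkCount_lev_nonneg D g m t)
  have h2 := h1.comp (OkCount_tendsto_div m r₀ hm1)
  have h3 := h2.mul ((OkCount_ratio m r₀ hm1).pow n)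
  have h4 : Filter.Tendsto (fun M : ℕ => (L ((M - r₀) / m) : ℝ) / (M : ℝ) ^ n) Filter.atTop
      (nhds ((volume (D.lev g m t)).toReal * (1 / (m : ℝ)) ^ n)) := by
    refine h3.congr' ?_
    filter_upwards [(OkCount_tendsto_div m r₀ hm1).eventually (Filter.eventually_ge_atTop 1)]
      with M hM
    simp only [Function.comp_apply]
    have hk0 : (0 : ℝ) < (((M - r₀) / m : ℕ) : ℝ) := by exact_mod_cast hM
    rw [div_pow, div_mul_div_comm, mul_comm (((((M - r₀) / m : ℕ) : ℝ)) ^ n) ((M : ℝ) ^ n),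
      mul_div_mul_right _ _ (pow_ne_zero n hk0.ne')]
  have h5 := ENNReal.tendsto_ofReal h4
  have hV : volume (D.lev g m t) ≠ ⊤ := (D.isCompact_lev g m t).measure_lt_top.ne
  have h6 : ENNReal.ofReal ((volume (D.lev g m t)).toReal * (1 / (m : ℝ)) ^ n) =
      volume (D.lev g m t) / (m : ℝ≥0∞) ^ n := by
    rw [ENNReal.ofReal_mul ENNReal.toReal_nonneg, ENNReal.ofReal_toReal hV, one_div, inv_pow,
      ENNReal.ofReal_inv_of_pos (by positivity), ENNReal.ofReal_pow hm0.le,
      ENNReal.ofReal_natCast, ENNReal.div_eq_inv_mul, mul_comm]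
  rw [h6] at h5
  rw [← h5.liminf_eq]
  refine Filter.liminf_le_liminf ?_
  filter_upwards [hev, Filter.eventually_ge_atTop 1] with M hM hM1
  have hM0 : (0 : ℝ) < M := by exact_mod_cast hM1
  rw [ENNReal.ofReal_div_of_pos (by positivity), ENNReal.ofReal_natCast,
    ENNReal.ofReal_pow hM0.le, ENNReal.ofReal_natCast]
  exact ENNReal.div_le_div_right (by exact_mod_cast hM) _

end Pool.Agent.Lib_GD.OkData

end

/-! ### from `Lib_GD.OkVol` -/

section

/-! B04a: volumes. -/

open scoped ENNReal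
open MeasureTheory

namespace Pool.Agent.Lib_GD.OkData

variable {n : ℕ} (D : OkData n)

private lemma OkVol_card_le (m : ℕ) : (D.Γ m).card ≤ (D.C * m + 1) ^ n := by
  classical
  have h1 : D.Γ m ⊆ Fintype.piFinset (fun _ : Fin n => Finset.range (D.C * m + 1)) := by
    intro γ hγ
    rw [Fintype.mem_piFinset]
    intro i
    rw [Finset.mem_range]
    have h2 := D.bdd m γ hγ
    have h3 : γ i ≤ ∑ j, γ j := Finset.single_le_sum (fun _ _ => Nat.zero_le _) (Finset.mem_univ i)
    omega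
  have h2 := Finset.card_le_card h1
  rwa [Fintype.card_piFinset_const, Finset.card_range] at h2

private lemma OkVol_le_card (m : ℕ) (hm : D.m₀ ≤ m) :
    (D.c / ((n : ℝ) + 1) * m) ^ n ≤ ((D.Γ m).card : ℝ) := by
  classical
  have hn : (0 : ℝ) < (n : ℝ) + 1 := by positivity
  have hcm : 0 ≤ D.c / ((n : ℝ) + 1) * m :=
    mul_nonneg (div_nonneg D.hc.le hn.le) (Nat.cast_nonneg m)
  set K : ℕ := ⌊D.c / ((n : ℝ) + 1) * m⌋₊ with hK
  have h1 : Fintype.piFinset (fun _ : Fin n => Finset.range (K + 1)) ⊆ D.Γ m := by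
    intro γ hγ
    rw [Fintype.mem_piFinset] at hγ
    refine D.simplex m hm γ ?_
    have h2 : ∑ i, γ i ≤ n * K := by
      calc ∑ i, γ i ≤ ∑ _i : Fin n, K := Finset.sum_le_sum fun i _ => by
            have := Finset.mem_range.1 (hγ i)
            omega
        _ = n * K := by simp
    have h3 : (K : ℝ) ≤ D.c / ((n : ℝ) + 1) * m := Nat.floor_le hcm
    calc ((∑ i, γ i : ℕ) : ℝ) ≤ ((n * K : ℕ) : ℝ) := by exact_mod_cast h2
      _ = (n : ℝ) * K := by push_cast; ring
      _ ≤ ((n : ℝ) + 1) * K := by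
          have : (0 : ℝ) ≤ K := Nat.cast_nonneg K
          nlinarith
      _ ≤ ((n : ℝ) + 1) * (D.c / ((n : ℝ) + 1) * m) := mul_le_mul_of_nonneg_left h3 hn.le
      _ = D.c * m := by field_simp
  have h2 := Finset.card_le_card h1
  rw [Fintype.card_piFinset_const, Finset.card_range] at h2
  have h3 : D.c / ((n : ℝ) + 1) * m ≤ ((K + 1 : ℕ) : ℝ) := by
    have := Nat.lt_floor_add_one (D.c / ((n : ℝ) + 1) * m)
    rw [← hK] at this
    push_cast
    exact this.le
  calc (D.c / ((n : ℝ) + 1) * m) ^ n ≤ ((K + 1 : ℕ) : ℝ) ^ n := pow_le_pow_left₀ hcm h3 n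
    _ = (((K + 1) ^ n : ℕ) : ℝ) := by push_cast; ring
    _ ≤ ((D.Γ m).card : ℝ) := by exact_mod_cast h2

private lemma OkVol_ne_top : D.vol ≠ ⊤ := by
  have h : D.vol ≤ ((n.factorial * (D.C + 1) ^ n : ℕ) : ℝ≥0∞) := by
    unfold vol
    refine Filter.limsup_le_of_le (by isBoundedDefault) ?_
    filter_upwards [Filter.eventually_ge_atTop 1] with m hm
    have h1 := OkVol_card_le D m
    have h2 : (D.C * m + 1) ^ n ≤ (D.C + 1) ^ n * m ^ n := by
      rw [← mul_pow]
      refine Nat.pow_le_pow_left ?_ n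
      rw [add_mul, one_mul]
      omega
    refine ENNReal.div_le_of_le_mul ?_
    have h3 : n.factorial * (D.Γ m).card ≤ n.factorial * (D.C + 1) ^ n * m ^ n := by
      rw [mul_assoc]
      exact Nat.mul_le_mul_left _ (h1.trans h2)
    exact_mod_cast h3
  exact ne_top_of_le_ne_top (ENNReal.natCast_ne_top _) h

private lemma OkVol_ne_zero : D.vol ≠ 0 := by
  have hn : (0 : ℝ) < (n : ℝ) + 1 := by positivity
  have hc : 0 < D.c / ((n : ℝ) + 1) := div_pos D.hc hn
  have h : ENNReal.ofReal ((D.c / ((n : ℝ) + 1)) ^ n) ≤ D.vol := by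
    unfold vol
    refine le_trans (Filter.le_liminf_of_le (by isBoundedDefault) ?_) Filter.liminf_le_limsup
    filter_upwards [Filter.eventually_ge_atTop D.m₀] with m hm
    have hm1 : 1 ≤ m := D.hm₀.trans hm
    have hmE : (m : ℝ≥0∞) ^ n ≠ 0 := pow_ne_zero _ (by exact_mod_cast (by omega : m ≠ 0))
    have hmT : (m : ℝ≥0∞) ^ n ≠ ⊤ := ENNReal.pow_ne_top (ENNReal.natCast_ne_top m)
    rw [ENNReal.le_div_iff_mul_le (Or.inl hmE) (Or.inl hmT)]
    have h1 := OkVol_le_card D m hm
    have h2 : ((D.Γ m).card : ℝ) ≤ ((n.factorial * (D.Γ m).card : ℕ) : ℝ) := by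
      have : (D.Γ m).card ≤ n.factorial * (D.Γ m).card :=
        Nat.le_mul_of_pos_left _ n.factorial_pos
      exact_mod_cast this
    calc ENNReal.ofReal ((D.c / ((n : ℝ) + 1)) ^ n) * (m : ℝ≥0∞) ^ n
        = ENNReal.ofReal ((D.c / ((n : ℝ) + 1) * m) ^ n) := by
          rw [mul_pow, ENNReal.ofReal_mul (by positivity), ENNReal.ofReal_pow (Nat.cast_nonneg m),
            ENNReal.ofReal_natCast]
      _ ≤ ENNReal.ofReal ((n.factorial * (D.Γ m).card : ℕ) : ℝ) :=
          ENNReal.ofReal_le_ofReal (h1.trans h2)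
      _ = ((n.factorial * (D.Γ m).card : ℕ) : ℝ≥0∞) := ENNReal.ofReal_natCast _
  have hpos : 0 < ENNReal.ofReal ((D.c / ((n : ℝ) + 1)) ^ n) :=
    ENNReal.ofReal_pos.2 (pow_pos hc n)
  exact (lt_of_lt_of_le hpos h).ne'

/-- B04a: `vol > 0` and `vol < ∞`, and `n! #Γ_m / m^n ≥ (1 - ε) vol` for large `m`. -/
theorem vol_le (ε : ℝ) (hε : 0 < ε) (hε1 : ε < 1) : ∃ m₁ : ℕ, ∀ m, m₁ ≤ m →
    ENNReal.ofReal (1 - ε) * D.vol ≤
      ((n.factorial * (D.Γ m).card : ℕ) : ℝ≥0∞) / (m : ℝ≥0∞) ^ n := by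
  classical
  -- the parameter
  have hn1 : (0 : ℝ) < (n : ℝ) + 1 := by positivity
  obtain ⟨θ, hθdef⟩ : ∃ θ : ℝ, θ = ε / (2 * ((n : ℝ) + 1)) := ⟨_, rfl⟩
  have hθ0 : 0 < θ := by rw [hθdef]; positivity
  have hθn : ((n : ℝ) + 1) * θ = ε / 2 := by rw [hθdef]; field_simp
  have hn0 : (0 : ℝ) ≤ n := Nat.cast_nonneg n
  have hθ1 : θ < 1 := by nlinarith
  have hbern : 1 - ε / 2 ≤ (1 - θ) ^ n := by
    have h1 := one_add_mul_le_pow (a := -θ) (by linarith) n
    have h3 : (1 : ℝ) + -θ = 1 - θ := by ring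
    rw [h3] at h1
    nlinarith
  -- the weight zero
  let g : ℕ → (Fin n → ℕ) → ℕ := fun _ _ => 0
  have hg : D.IsWeight g := fun _ _ _ _ _ _ => le_rfl
  have hcnt : ∀ M : ℕ, D.cnt g M (0 * M) = (D.Γ M).card := by
    intro M
    unfold cnt
    congr 1
    refine Finset.filter_true_of_mem fun γ _ => ?_
    simp [g]
  have hcnt0 : ∀ M : ℕ, D.cnt g M 0 = (D.Γ M).card := by
    intro M
    have := hcnt M
    rwa [zero_mul] at this
  set L : ℝ≥0∞ := Filter.liminf (fun M : ℕ => ((D.Γ M).card : ℝ≥0∞) / (M : ℝ≥0∞) ^ n)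
    Filter.atTop with hL
  obtain ⟨m₃, hm₃⟩ := exists_nat_ge (((n : ℝ) / θ + 1) / D.c)
  have hstep : ∀ m : ℕ, max m₃ D.m₀ ≤ m → ENNReal.ofReal (1 - ε / 2) *
      (((D.Γ m).card : ℝ≥0∞) / (m : ℝ≥0∞) ^ n) ≤ L := by
    intro m hm
    have hmm₃ : m₃ ≤ m := (le_max_left _ _).trans hm
    have hmm₀ : D.m₀ ≤ m := (le_max_right _ _).trans hm
    have hθm : (n : ℝ) / θ ≤ D.c * m - 1 := by
      have h1 : ((n : ℝ) / θ + 1) / D.c ≤ m := hm₃.trans (by exact_mod_cast hmm₃)
      rw [div_le_iff₀ D.hc] at h1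
      linarith
    have h1 := D.cnt_le_volume g m hmm₀ θ hθ0 hθ1 hθm 0 le_rfl
    rw [mul_zero, hcnt0] at h1
    have h2 := D.count_lower g hg m hmm₀ 0 0 (Or.inr ⟨rfl, rfl⟩)
    simp only [hcnt] at h2
    refine le_trans ?_ h2
    rw [← mul_div_assoc]
    refine ENNReal.div_le_div_right (le_trans ?_ h1) _
    rw [ENNReal.ofReal_mul (by positivity), ENNReal.ofReal_natCast]
    gcongr
  have hvol : ENNReal.ofReal (1 - ε / 2) * D.vol ≤ Filter.liminf (fun M : ℕ =>
      ((n.factorial * (D.Γ M).card : ℕ) : ℝ≥0∞) / (M : ℝ≥0∞) ^ n) Filter.atTop := by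
    have e1 : D.vol = (n.factorial : ℝ≥0∞) * Filter.limsup (fun M : ℕ =>
        ((D.Γ M).card : ℝ≥0∞) / (M : ℝ≥0∞) ^ n) Filter.atTop := by
      rw [← ENNReal.limsup_const_mul_of_ne_top (ENNReal.natCast_ne_top _)]
      unfold vol
      congr 1
      funext M
      rw [Nat.cast_mul, mul_div_assoc]
    have e2 : Filter.liminf (fun M : ℕ =>
        ((n.factorial * (D.Γ M).card : ℕ) : ℝ≥0∞) / (M : ℝ≥0∞) ^ n) Filter.atTop =
        (n.factorial : ℝ≥0∞) * L := by
      rw [hL, ← ENNReal.liminf_const_mul_of_ne_top (ENNReal.natCast_ne_top _)]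
      congr 1
      funext M
      rw [Nat.cast_mul, mul_div_assoc]
    rw [e1, e2, mul_left_comm]
    gcongr
    rw [← ENNReal.limsup_const_mul_of_ne_top ENNReal.ofReal_ne_top]
    refine Filter.limsup_le_of_le (by isBoundedDefault) ?_
    filter_upwards [Filter.eventually_ge_atTop (max m₃ D.m₀)] with m hm
    exact hstep m hm
  have hlt : ENNReal.ofReal (1 - ε) * D.vol < Filter.liminf (fun M : ℕ =>
      ((n.factorial * (D.Γ M).card : ℕ) : ℝ≥0∞) / (M : ℝ≥0∞) ^ n) Filter.atTop := by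
    refine lt_of_lt_of_le ?_ hvol
    rw [ENNReal.mul_lt_mul_iff_left (OkVol_ne_zero D) (OkVol_ne_top D)]
    exact (ENNReal.ofReal_lt_ofReal_iff (by linarith)).2 (by linarith)
  have hev := Filter.eventually_lt_of_lt_liminf hlt (by isBoundedDefault)
  obtain ⟨m₁, hm₁⟩ := Filter.eventually_atTop.1 hev
  exact ⟨m₁, fun m hm => (hm₁ m hm).le⟩

theorem vol_ne_top : D.vol ≠ ⊤ := OkVol_ne_top D

theorem vol_ne_zero : D.vol ≠ 0 := OkVol_ne_zero D

end Pool.Agent.Lib_GD.OkData

end

/-! ### from `Lib_GD.OkInt` -/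

section

/-! B04b. -/

open scoped ENNReal
open MeasureTheory

namespace Pool.Agent.Lib_GD.OkData

variable {n : ℕ} (D : OkData n)

private lemma OkInt_volt_anti (g : ℕ → (Fin n → ℕ) → ℕ) : Antitone (D.volt g) := by
  classical
  intro s t hst
  unfold volt
  refine Filter.limsup_le_limsup (Filter.Eventually.of_forall fun m => ?_)
  have h1 : D.cnt g m (t * m) ≤ D.cnt g m (s * m) := by
    unfold cnt
    refine Finset.card_le_card fun γ hγ => ?_
    rw [Finset.mem_filter] at hγ ⊢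
    exact ⟨hγ.1, le_trans (mul_le_mul_of_nonneg_right hst (Nat.cast_nonneg m)) hγ.2⟩
  refine ENNReal.div_le_div_right ?_ _
  exact_mod_cast Nat.mul_le_mul_left _ h1

private lemma OkInt_key (g : ℕ → (Fin n → ℕ) → ℕ) (hg : D.IsWeight g) (m : ℕ) (hm : D.m₀ ≤ m)
    (l : ℝ) (hl0 : 0 < l) (hl : l < 1) (s : ℝ) (hs : 0 < s) :
    (n.factorial : ℝ≥0∞) * volume (D.lev g m s) ≤
      (m : ℝ≥0∞) ^ n * D.volt g ((l / m) * s) := by
  have hm1 : 1 ≤ m := D.hm₀.trans hm
  have hm0 : (0 : ℝ) < m := by exact_mod_cast hm1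
  have hmE : (m : ℝ≥0∞) ^ n ≠ 0 := pow_ne_zero _ (by exact_mod_cast (by omega : m ≠ 0))
  have hmT : (m : ℝ≥0∞) ^ n ≠ ⊤ := ENNReal.pow_ne_top (ENNReal.natCast_ne_top m)
  have hτ : (l / m) * s * m < s := by
    have : (l / m) * s * m = l * s := by field_simp
    rw [this]
    nlinarith
  have h := D.count_lower g hg m hm s ((l / m) * s) (Or.inl hτ)
  have h2 : (n.factorial : ℝ≥0∞) * (volume (D.lev g m s) / (m : ℝ≥0∞) ^ n) ≤
      D.volt g ((l / m) * s) := by
    calc (n.factorial : ℝ≥0∞) * (volume (D.lev g m s) / (m : ℝ≥0∞) ^ n)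
        ≤ (n.factorial : ℝ≥0∞) * Filter.liminf (fun M : ℕ =>
            (D.cnt g M ((l / m) * s * M) : ℝ≥0∞) / (M : ℝ≥0∞) ^ n) Filter.atTop := by gcongr
      _ ≤ (n.factorial : ℝ≥0∞) * Filter.limsup (fun M : ℕ =>
            (D.cnt g M ((l / m) * s * M) : ℝ≥0∞) / (M : ℝ≥0∞) ^ n) Filter.atTop := by
          gcongr
          exact Filter.liminf_le_limsup
      _ = Filter.limsup (fun M : ℕ => (n.factorial : ℝ≥0∞) *
            ((D.cnt g M ((l / m) * s * M) : ℝ≥0∞) / (M : ℝ≥0∞) ^ n)) Filter.atTop := by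
          rw [ENNReal.limsup_const_mul_of_ne_top (ENNReal.natCast_ne_top _)]
      _ = D.volt g ((l / m) * s) := by
          unfold volt
          congr 1
          funext M
          rw [Nat.cast_mul, mul_div_assoc]
  calc (n.factorial : ℝ≥0∞) * volume (D.lev g m s)
      = (m : ℝ≥0∞) ^ n * ((n.factorial : ℝ≥0∞) * (volume (D.lev g m s) / (m : ℝ≥0∞) ^ n)) := by
        rw [mul_left_comm, ENNReal.mul_div_cancel hmE hmT]
    _ ≤ (m : ℝ≥0∞) ^ n * D.volt g ((l / m) * s) := by gcongr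

private lemma OkInt_subst (f : ℝ → ℝ≥0∞) (hf : Measurable f) (a : ℝ) (ha : 0 < a) :
    ENNReal.ofReal a * ∫⁻ s in Set.Ioi (0 : ℝ), f (a * s) = ∫⁻ t in Set.Ioi (0 : ℝ), f t := by
  have hF : Measurable ((Set.Ioi (0 : ℝ)).indicator f) := hf.indicator measurableSet_Ioi
  rw [← lintegral_indicator measurableSet_Ioi, ← lintegral_indicator measurableSet_Ioi]
  have h := Real.smul_map_volume_mul_left (a := a) ha.ne'
  conv_rhs => rw [← h]
  rw [lintegral_smul_measure, lintegral_map hF (measurable_const_mul _), abs_of_pos ha,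
    smul_eq_mul]
  congr 1
  refine lintegral_congr fun t => ?_
  simp only [Set.indicator, Set.mem_Ioi, mul_pos_iff_of_pos_left ha]

/-- B04b: the integral of the volumes of the level sets is bounded by the integral of the
asymptotic volumes. -/
theorem integral_lev_le (g : ℕ → (Fin n → ℕ) → ℕ) (hg : D.IsWeight g) (m : ℕ)
    (hm : D.m₀ ≤ m) :
    (n.factorial : ℝ≥0∞) * ∫⁻ s in Set.Ioi (0 : ℝ), volume (D.lev g m s) ≤
      (m : ℝ≥0∞) ^ (n + 1) * ∫⁻ t in Set.Ioi (0 : ℝ), D.volt g t := by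
  have hm1 : 1 ≤ m := D.hm₀.trans hm
  have hm0 : (0 : ℝ) < m := by exact_mod_cast hm1
  have hmeas : Measurable (D.volt g) := (OkInt_volt_anti D g).measurable
  have hfac : (n.factorial : ℝ≥0∞) ≠ ⊤ := ENNReal.natCast_ne_top _
  have hmT : (m : ℝ≥0∞) ^ n ≠ ⊤ := ENNReal.pow_ne_top (ENNReal.natCast_ne_top m)
  -- the estimate for every `l < 1`
  have key : ∀ l : ℝ, 0 < l → l < 1 → ENNReal.ofReal l * ((n.factorial : ℝ≥0∞) *
      ∫⁻ s in Set.Ioi (0 : ℝ), volume (D.lev g m s)) ≤
      (m : ℝ≥0∞) ^ (n + 1) * ∫⁻ t in Set.Ioi (0 : ℝ), D.volt g t := by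
    intro l hl0 hl
    have h1 : (n.factorial : ℝ≥0∞) * ∫⁻ s in Set.Ioi (0 : ℝ), volume (D.lev g m s) ≤
        (m : ℝ≥0∞) ^ n * ∫⁻ s in Set.Ioi (0 : ℝ), D.volt g ((l / m) * s) := by
      rw [← lintegral_const_mul' _ _ hfac, ← lintegral_const_mul' _ _ hmT]
      refine lintegral_mono_ae ?_
      refine (ae_restrict_iff' measurableSet_Ioi).2 (Filter.Eventually.of_forall fun s hs => ?_)
      exact OkInt_key D g hg m hm l hl0 hl s hs
    have h2 := OkInt_subst (D.volt g) hmeas (l / m) (by positivity)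
    have h3 : ENNReal.ofReal l = (m : ℝ≥0∞) * ENNReal.ofReal (l / m) := by
      rw [← ENNReal.ofReal_natCast m, ← ENNReal.ofReal_mul (Nat.cast_nonneg m)]
      congr 1
      field_simp
    calc ENNReal.ofReal l * ((n.factorial : ℝ≥0∞) *
          ∫⁻ s in Set.Ioi (0 : ℝ), volume (D.lev g m s))
        ≤ ENNReal.ofReal l * ((m : ℝ≥0∞) ^ n *
          ∫⁻ s in Set.Ioi (0 : ℝ), D.volt g ((l / m) * s)) := by gcongr
      _ = (m : ℝ≥0∞) ^ (n + 1) * (ENNReal.ofReal (l / m) *
          ∫⁻ s in Set.Ioi (0 : ℝ), D.volt g ((l / m) * s)) := by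
          rw [h3]
          ring
      _ = (m : ℝ≥0∞) ^ (n + 1) * ∫⁻ t in Set.Ioi (0 : ℝ), D.volt g t := by rw [h2]
  -- let `l → 1`
  have hlim : Filter.Tendsto (fun l : ℝ => ENNReal.ofReal l * ((n.factorial : ℝ≥0∞) *
      ∫⁻ s in Set.Ioi (0 : ℝ), volume (D.lev g m s))) (nhdsWithin 1 (Set.Iio 1))
      (nhds (ENNReal.ofReal 1 * ((n.factorial : ℝ≥0∞) *
        ∫⁻ s in Set.Ioi (0 : ℝ), volume (D.lev g m s)))) := by
    refine ENNReal.Tendsto.mul_const ?_ (Or.inl (by simp))
    exact (ENNReal.continuous_ofReal.tendsto 1).mono_left nhdsWithin_le_nhds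
  rw [ENNReal.ofReal_one, one_mul] at hlim
  refine le_of_tendsto hlim ?_
  have : Set.Ioo (0 : ℝ) 1 ∈ nhdsWithin (1 : ℝ) (Set.Iio 1) :=
    Ioo_mem_nhdsLT (by norm_num)
  filter_upwards [this] with l hl
  exact key l hl.1 hl.2

end Pool.Agent.Lib_GD.OkData

end

/-! ### from `Lib_GD.CombEnergy` -/

section

namespace Pool.Agent.Lib_GD

/-- the rule for the next exposed point: it is expensive, or it has minimal energy in a set of
cheap points which makes up more than half of the rest of its class -/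
private def combEnergyRule {N r : ℕ} (P : Profile N) (a : ℕ) (c : Fin N → Fin (r + 1))
    (S : Finset (Fin N)) (j : Fin N) : Prop :=
  j ∉ S ∧ (a < P.cost j S ∨
    (P.cost j S ≤ a ∧ ∃ E', E' ⊆ cls c (c j) \ S ∧ j ∈ E' ∧
      (cls c (c j) \ S).card < 2 * E'.card ∧
      ∀ i ∈ E', P.cost i S ≤ a ∧ P.phi j S ≤ P.phi i S))

private theorem combEnergy_exists {N r : ℕ} (P : Profile N) (a : ℕ) (c : Fin N → Fin (r + 1))
    (S : Finset (Fin N)) (τ : Fin (r + 1)) (h : (cls c τ \ S).Nonempty) :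
    ∃ j ∈ cls c τ \ S, combEnergyRule P a c S j := by
  classical
  have hcard := Finset.card_filter_add_card_filter_not (s := cls c τ \ S)
    (fun i => a < P.cost i S)
  have hpos := h.card_pos
  have hcls : ∀ j ∈ cls c τ \ S, c j = τ := by
    intro j hj
    have h1 := (Finset.mem_sdiff.1 hj).1
    simpa [cls] using h1
  by_cases h1 : (cls c τ \ S).card ≤ 2 * ((cls c τ \ S).filter fun i => a < P.cost i S).card
  · obtain ⟨j, hj⟩ : ((cls c τ \ S).filter fun i => a < P.cost i S).Nonempty := by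
      rw [← Finset.card_pos]; omega
    rw [Finset.mem_filter] at hj
    exact ⟨j, hj.1, (Finset.mem_sdiff.1 hj.1).2, Or.inl hj.2⟩
  · push Not at h1
    obtain ⟨j, hj, hmin⟩ := Finset.exists_min_image
      ((cls c τ \ S).filter fun i => ¬ a < P.cost i S) (fun i => P.phi i S)
      (by rw [← Finset.card_pos]; omega)
    have hj' := Finset.mem_filter.1 hj
    refine ⟨j, hj'.1, (Finset.mem_sdiff.1 hj'.1).2, Or.inr ⟨by omega,
      (cls c τ \ S).filter fun i => ¬ a < P.cost i S, ?_, hj, ?_, ?_⟩⟩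
    · rw [hcls j hj'.1]
      exact Finset.filter_subset _ _
    · rw [hcls j hj'.1]; omega
    · intro i hi
      have hi' := Finset.mem_filter.1 hi
      exact ⟨by omega, hmin i hi⟩

/-- the estimate for one cheap exposure -/
private theorem combEnergy_cheap {N r : ℕ} (hN : 0 < N) (P : Profile N) (R : Ranks N) (D a : ℕ)
    (κ ξ η₅ : ℝ) (hκ : 0 < κ) (hξ : 0 ≤ ξ)
    (hT : P.HT D) (hEL : P.HEL R D a) (c : Fin N → Fin (r + 1))
    (hc : ∀ τ, τ ≠ 0 → ∀ E', E' ⊆ cls c τ → η₅ * (cls c τ).card ≤ (E'.card : ℝ) →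
      (R.G (D * a) E' : ℝ) ≤ R.G (D * a) (cls c τ) + ξ * D * a * N)
    (S : Finset (Fin N)) (j : Fin N) (hjS : j ∉ S) (hj0 : c j ≠ 0) (hja : P.cost j S ≤ a)
    (E' : Finset (Fin N)) (hE' : E' ⊆ cls c (c j) \ S) (hjE : j ∈ E')
    (hcard : (cls c (c j) \ S).card < 2 * E'.card)
    (hmin : ∀ i ∈ E', P.cost i S ≤ a ∧ P.phi j S ≤ P.phi i S) :
    (P.phi j S : ℝ) ≤ ((Finset.Icc 1 (D * a)).filter (fun b =>
        (N : ℝ) - S.card - κ * N < R.r (cls c (c j)) b)).card + ξ / κ * D * a +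
      (if ((cls c (c j)).card : ℝ) - (S ∩ cls c (c j)).card < 2 * η₅ * (cls c (c j)).card
        then (D * a : ℝ) else 0) := by
  classical
  have hphi : P.phi j S ≤ D * a := (hT j S hjS).trans (Nat.mul_le_mul_left D hja)
  have hphi' : (P.phi j S : ℝ) ≤ D * a := by exact_mod_cast hphi
  have hDa : (0 : ℝ) ≤ D * a := by positivity
  have hNr : (0 : ℝ) < N := by exact_mod_cast hN
  have hx1 : (0 : ℝ) ≤ ((Finset.Icc 1 (D * a)).filter (fun b =>
        (N : ℝ) - S.card - κ * N < R.r (cls c (c j)) b)).card := Nat.cast_nonneg _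
  have hx2 : 0 ≤ ξ / κ * D * a := by positivity
  have hsplit : (cls c (c j) \ S).card + (S ∩ cls c (c j)).card = (cls c (c j)).card := by
    rw [Finset.inter_comm]
    exact Finset.card_sdiff_add_card_inter _ _
  split_ifs with hif
  · linarith
  · rw [add_zero]
    rw [not_lt] at hif
    have hE5 : η₅ * (cls c (c j)).card ≤ (E'.card : ℝ) := by
      have h1 : ((cls c (c j) \ S).card : ℝ) + (S ∩ cls c (c j)).card = (cls c (c j)).card := by
        exact_mod_cast hsplit
      have h2 : ((cls c (c j) \ S).card : ℝ) < 2 * E'.card := by exact_mod_cast hcard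
      linarith
    have hsub : E' ⊆ cls c (c j) := hE'.trans Finset.sdiff_subset
    have hG := hc (c j) hj0 E' hsub hE5
    have hdis : Disjoint E' S := by
      rw [Finset.disjoint_left]
      intro i hi
      exact (Finset.mem_sdiff.1 (hE' hi)).2
    have hEL' : ∀ b ∈ Finset.Icc 1 (P.phi j S), N ≤ R.r E' b + S.card := by
      intro b hb
      obtain ⟨hb1, hb2⟩ := Finset.mem_Icc.1 hb
      exact hEL S E' b ⟨j, hjE⟩ hdis hb1 (hb2.trans hphi)
        fun i hi => ⟨(hmin i hi).1, hb2.trans (hmin i hi).2⟩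
    -- Markov
    set Bad : Finset ℕ := (Finset.Icc 1 (D * a)).filter (fun b =>
      κ * N ≤ (R.r E' b : ℝ) - R.r (cls c (c j)) b) with hBad
    have hM : (Bad.card : ℝ) * (κ * N) ≤ ξ * D * a * N := by
      have h1 : (Bad.card : ℝ) * (κ * N) ≤ ∑ b ∈ Bad, ((R.r E' b : ℝ) - R.r (cls c (c j)) b) := by
        rw [← nsmul_eq_mul]
        apply Finset.card_nsmul_le_sum
        intro b hb
        exact (Finset.mem_filter.1 hb).2
      have h2 : ∑ b ∈ Bad, ((R.r E' b : ℝ) - R.r (cls c (c j)) b) ≤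
          ∑ b ∈ Finset.Icc 1 (D * a), ((R.r E' b : ℝ) - R.r (cls c (c j)) b) := by
        apply Finset.sum_le_sum_of_subset_of_nonneg (Finset.filter_subset _ _)
        intro b _ _
        have := R.anti E' (cls c (c j)) b hsub
        have h3 : (R.r (cls c (c j)) b : ℝ) ≤ R.r E' b := by exact_mod_cast this
        linarith
      have h3 : (R.G (D * a) E' : ℝ) = ∑ b ∈ Finset.Icc 1 (D * a), (R.r E' b : ℝ) := by
        simp [Ranks.G]
      have h4 : (R.G (D * a) (cls c (c j)) : ℝ) =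
          ∑ b ∈ Finset.Icc 1 (D * a), (R.r (cls c (c j)) b : ℝ) := by
        simp [Ranks.G]
      have h5 : ∑ b ∈ Finset.Icc 1 (D * a), ((R.r E' b : ℝ) - R.r (cls c (c j)) b) =
          R.G (D * a) E' - R.G (D * a) (cls c (c j)) := by
        rw [Finset.sum_sub_distrib, h3, h4]
      rw [h5] at h2
      linarith
    have hM' : (Bad.card : ℝ) ≤ ξ / κ * D * a := by
      have h1 : (Bad.card : ℝ) * κ ≤ ξ * D * a := by
        have : ((Bad.card : ℝ) * κ) * N ≤ (ξ * D * a) * N := by linarith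
        exact le_of_mul_le_mul_right this hNr
      rw [div_mul_eq_mul_div, div_mul_eq_mul_div, le_div_iff₀ hκ]
      exact h1
    have hcov : Finset.Icc 1 (P.phi j S) ⊆ (Finset.Icc 1 (D * a)).filter (fun b =>
        (N : ℝ) - S.card - κ * N < R.r (cls c (c j)) b) ∪ Bad := by
      intro b hb
      have hb' := Finset.mem_Icc.1 hb
      have hbD : b ∈ Finset.Icc 1 (D * a) := Finset.mem_Icc.2 ⟨hb'.1, hb'.2.trans hphi⟩
      rw [Finset.mem_union]
      by_cases hbad : b ∈ Bad
      · exact Or.inr hbad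
      · left
        rw [hBad, Finset.mem_filter, not_and] at hbad
        have h1 := hbad hbD
        rw [not_le] at h1
        have h2 : (N : ℝ) ≤ R.r E' b + S.card := by exact_mod_cast hEL' b hb
        rw [Finset.mem_filter]
        refine ⟨hbD, ?_⟩
        linarith
    have hcc := (Finset.card_le_card hcov).trans (Finset.card_union_le _ _)
    rw [Nat.card_Icc, Nat.add_sub_cancel] at hcc
    have hcc' : (P.phi j S : ℝ) ≤ ((Finset.Icc 1 (D * a)).filter (fun b =>
        (N : ℝ) - S.card - κ * N < R.r (cls c (c j)) b)).card + Bad.card := by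
      exact_mod_cast hcc
    linarith

/-- counting exposures of a class -/
private theorem combEnergy_count {N r : ℕ} (c : Fin N → Fin (r + 1)) (σ : Equiv.Perm (Fin N))
    (τ : Fin (r + 1)) (T : Finset (Fin N)) (x : ℝ)
    (hT : ∀ k ∈ T, c (σ k) = τ ∧ x < (((Finset.Iio k).map σ.toEmbedding ∩ cls c τ).card : ℝ))
    (hx : x ≤ (cls c τ).card) : (T.card : ℝ) ≤ (cls c τ).card - x := by
  classical
  rcases T.eq_empty_or_nonempty with rfl | hne
  · simp only [Finset.card_empty, Nat.cast_zero]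
    linarith
  · set k₀ := T.min' hne with hk₀
    have hk₀T : k₀ ∈ T := T.min'_mem hne
    have h1 := (hT k₀ hk₀T).2
    have h2 : T.card + ((Finset.Iio k₀).map σ.toEmbedding ∩ cls c τ).card ≤ (cls c τ).card := by
      rw [← Finset.card_map σ.toEmbedding (s := T), ← Finset.card_union_of_disjoint]
      · apply Finset.card_le_card
        intro i hi
        rcases Finset.mem_union.1 hi with hi | hi
        · obtain ⟨k, hk, rfl⟩ := Finset.mem_map.1 hi
          simp only [cls, Finset.mem_filter, Finset.mem_univ, true_and]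
          exact (hT k hk).1
        · exact (Finset.mem_inter.1 hi).2
      · rw [Finset.disjoint_left]
        intro i hi hi'
        obtain ⟨k, hk, rfl⟩ := Finset.mem_map.1 hi
        obtain ⟨l, hl, hlk⟩ := Finset.mem_map.1 (Finset.mem_inter.1 hi').1
        have hlk' : l = k := σ.injective hlk
        rw [hlk', Finset.mem_Iio] at hl
        exact absurd (T.min'_le k hk) (not_le.2 hl)
    have h3 : (T.card : ℝ) + ((Finset.Iio k₀).map σ.toEmbedding ∩ cls c τ).card ≤
        (cls c τ).card := by exact_mod_cast h2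
    linarith

/-- M04 (energy upper bound). -/
theorem energy_le {N r : ℕ} (hN : 0 < N) (P : Profile N) (R : Ranks N) (D a : ℕ) (hD : 1 ≤ D)
    (ha : 1 ≤ a) (θ κ ξ η₅ : ℝ) (hθ : 0 ≤ θ) (hκ : 0 < κ) (hξ : 0 ≤ ξ) (h5 : 0 < η₅)
    (hT : P.HT D) (hExp : P.HExp a θ) (hEL : P.HEL R D a) (c : Fin N → Fin (r + 1))
    (hc : ∀ τ, τ ≠ 0 → ∀ E', E' ⊆ cls c τ → η₅ * (cls c τ).card ≤ (E'.card : ℝ) →
      (R.G (D * a) E' : ℝ) ≤ R.G (D * a) (cls c τ) + ξ * D * a * N) :
    (P.v : ℝ) ≤ θ * P.A + (∑ τ ∈ Finset.univ.erase 0,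
        ((cls c τ).card : ℝ) / N * R.G (D * a) (cls c τ)) +
      (κ + ξ / κ + 2 * η₅) * D * a * N + 3 * (r + 2) * D * a + (cls c 0).card * D * a := by
  classical
  have hNr : (0 : ℝ) < N := by exact_mod_cast hN
  have hDa : (0 : ℝ) ≤ D * a := by positivity
  obtain ⟨σ, hσ⟩ := exists_balanced_order c (combEnergyRule P a c)
    (fun S τ h => combEnergy_exists P a c S τ h)
  set S : Fin N → Finset (Fin N) := fun k => (Finset.Iio k).map σ.toEmbedding with hS
  -- the bound for one exposure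
  set g : Fin (r + 1) → Fin N → ℝ := fun τ k => if τ = 0 then (D * a : ℝ) else
    (((Finset.Icc 1 (D * a)).filter (fun b =>
        (N : ℝ) - (S k).card - κ * N < R.r (cls c τ) b)).card : ℝ) + ξ / κ * D * a +
      (if ((cls c τ).card : ℝ) - (S k ∩ cls c τ).card < 2 * η₅ * (cls c τ).card
        then (D * a : ℝ) else 0) with hg
  have hg0 : ∀ τ k, 0 ≤ g τ k := by
    intro τ k
    simp only [hg]
    split_ifs <;> positivity
  have hk : ∀ k, (P.phi (σ k) (S k) : ℝ) ≤ θ * P.cost (σ k) (S k) + g (c (σ k)) k := by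
    intro k
    obtain ⟨⟨hk1, hk2⟩, -⟩ := hσ k
    have hcost0 : 0 ≤ θ * (P.cost (σ k) (S k) : ℝ) := by positivity
    rcases hk2 with hk2 | ⟨hk2, E', hE', hjE, hcard, hmin⟩
    · have h1 := hExp (σ k) (S k) hk1 hk2
      have h2 := hg0 (c (σ k)) k
      linarith
    · by_cases h0 : c (σ k) = 0
      · have h1 : P.phi (σ k) (S k) ≤ D * a := (hT _ _ hk1).trans (Nat.mul_le_mul_left D hk2)
        have h2 : (P.phi (σ k) (S k) : ℝ) ≤ D * a := by exact_mod_cast h1
        simp only [hg, if_pos h0]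
        linarith
      · have h1 := combEnergy_cheap hN P R D a κ ξ η₅ hκ hξ hT hEL c hc (S k) (σ k) hk1 h0 hk2
          E' hE' hjE hcard hmin
        simp only [hg, if_neg h0]
        linarith
  -- sums over the classes
  set fib : Fin (r + 1) → Finset (Fin N) := fun τ => Finset.univ.filter fun k => c (σ k) = τ
    with hfib
  have hfibc : ∀ τ, (fib τ).card = (cls c τ).card := by
    intro τ
    rw [← Finset.card_map σ.toEmbedding]
    congr 1
    ext i
    simp only [hfib, cls, Finset.mem_map, Finset.mem_filter, Finset.mem_univ, true_and,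
      Equiv.coe_toEmbedding]
    constructor
    · rintro ⟨k, hk, rfl⟩; exact hk
    · intro hi
      exact ⟨σ.symm i, by rw [Equiv.apply_symm_apply]; exact hi, Equiv.apply_symm_apply _ _⟩
  have hsumcls : (∑ τ : Fin (r + 1), ((cls c τ).card : ℝ)) = N := by
    have h2 := Finset.card_eq_sum_card_fiberwise (f := c) (s := (Finset.univ : Finset (Fin N)))
      (t := (Finset.univ : Finset (Fin (r + 1)))) (fun i _ => by simp)
    rw [Finset.card_univ, Fintype.card_fin] at h2
    exact_mod_cast h2.symm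
  have hclass : ∀ τ, τ ≠ 0 → ∑ k ∈ fib τ, g τ k ≤ ((cls c τ).card : ℝ) / N *
      R.G (D * a) (cls c τ) + (κ + ξ / κ + 2 * η₅) * (D * a) * (cls c τ).card +
      (r + 1) * (D * a) * ((cls c τ).card / N) := by
    intro τ hτ
    have hn0 : (0 : ℝ) ≤ (cls c τ).card := Nat.cast_nonneg _
    simp only [hg, if_neg hτ]
    rw [Finset.sum_add_distrib, Finset.sum_add_distrib]
    have h1 : ∑ k ∈ fib τ, (((Finset.Icc 1 (D * a)).filter (fun b =>
        (N : ℝ) - (S k).card - κ * N < R.r (cls c τ) b)).card : ℝ) ≤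
        ((cls c τ).card : ℝ) / N * R.G (D * a) (cls c τ) + κ * (D * a) * (cls c τ).card +
        (r + 1) * (D * a) * ((cls c τ).card / N) := by
      have h2 : ∑ k ∈ fib τ, (((Finset.Icc 1 (D * a)).filter (fun b =>
          (N : ℝ) - (S k).card - κ * N < R.r (cls c τ) b)).card : ℝ) =
          ∑ b ∈ Finset.Icc 1 (D * a), (((fib τ).filter (fun k =>
            (N : ℝ) - (S k).card - κ * N < R.r (cls c τ) b)).card : ℝ) := by
        simp only [Finset.card_filter]
        push_cast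
        exact Finset.sum_comm
      rw [h2]
      have h3 : ∀ b ∈ Finset.Icc 1 (D * a), (((fib τ).filter (fun k =>
            (N : ℝ) - (S k).card - κ * N < R.r (cls c τ) b)).card : ℝ) ≤
          ((cls c τ).card : ℝ) / N * R.r (cls c τ) b +
            ((cls c τ).card * κ + (r + 1) * ((cls c τ).card / N)) := by
        intro b _
        have h4 := combEnergy_count c σ τ ((fib τ).filter (fun k =>
            (N : ℝ) - (S k).card - κ * N < R.r (cls c τ) b))
          ((cls c τ).card * (1 - R.r (cls c τ) b / N - κ - (r + 1) / N)) (by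
            intro k hk
            obtain ⟨hk1, hk2⟩ := Finset.mem_filter.1 hk
            have hk3 : c (σ k) = τ := by simpa [hfib] using hk1
            refine ⟨hk3, ?_⟩
            have h5 := (hσ k).2
            rw [hk3] at h5
            have hpos : (0 : ℝ) < (cls c τ).card := by
              have : σ k ∈ cls c τ := by simp [cls, hk3]
              exact_mod_cast Finset.card_pos.2 ⟨_, this⟩
            have h6 : ((cls c τ).card : ℝ) * ((N : ℝ) - κ * N - R.r (cls c τ) b - (r + 1)) <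
                N * ((S k ∩ cls c τ).card : ℝ) := by
              have h7 : ((cls c τ).card : ℝ) * ((N : ℝ) - κ * N - R.r (cls c τ) b) <
                  (cls c τ).card * (S k).card := by
                apply mul_lt_mul_of_pos_left _ hpos
                linarith
              have h8 : ((cls c τ).card : ℝ) * (S k).card ≤
                  N * (S k ∩ cls c τ).card + (r + 1) * (cls c τ).card := h5
              nlinarith
            have h9 : ((cls c τ).card : ℝ) * (1 - R.r (cls c τ) b / N - κ - (r + 1) / N) * N =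
                (cls c τ).card * ((N : ℝ) - κ * N - R.r (cls c τ) b - (r + 1)) := by
              field_simp
              ring
            have h10 : ((cls c τ).card : ℝ) * (1 - R.r (cls c τ) b / N - κ - (r + 1) / N) * N <
                (S k ∩ cls c τ).card * N := by
              rw [h9]; linarith
            exact lt_of_mul_lt_mul_right h10 hNr.le)
          (by
            have h11 : 1 - (R.r (cls c τ) b : ℝ) / N - κ - (r + 1) / N ≤ 1 := by
              have h12 : 0 ≤ (R.r (cls c τ) b : ℝ) / N := by positivity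
              have h13 : 0 ≤ ((r : ℝ) + 1) / N := by positivity
              linarith
            nlinarith)
        refine h4.trans (le_of_eq ?_)
        ring
      refine (Finset.sum_le_sum h3).trans (le_of_eq ?_)
      rw [Finset.sum_add_distrib, ← Finset.mul_sum, Finset.sum_const, Nat.card_Icc,
        Nat.add_sub_cancel, nsmul_eq_mul]
      simp only [Ranks.G]
      push_cast
      ring
    have h2 : ∑ k ∈ fib τ, ξ / κ * D * a = ξ / κ * (D * a) * (cls c τ).card := by
      rw [Finset.sum_const, nsmul_eq_mul, hfibc]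
      ring
    have h3 : ∑ k ∈ fib τ, (if ((cls c τ).card : ℝ) - (S k ∩ cls c τ).card <
        2 * η₅ * (cls c τ).card then (D * a : ℝ) else 0) ≤
        2 * η₅ * (D * a) * (cls c τ).card := by
      rw [← Finset.sum_filter, Finset.sum_const, nsmul_eq_mul]
      have h4 := combEnergy_count c σ τ ((fib τ).filter (fun k =>
          ((cls c τ).card : ℝ) - (S k ∩ cls c τ).card < 2 * η₅ * (cls c τ).card))
        ((cls c τ).card - 2 * η₅ * (cls c τ).card) (by
          intro k hk
          obtain ⟨hk1, hk2⟩ := Finset.mem_filter.1 hk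
          have hk3 : c (σ k) = τ := by simpa [hfib] using hk1
          refine ⟨hk3, ?_⟩
          show _ < ((S k ∩ cls c τ).card : ℝ)
          linarith)
        (by
          have : 0 ≤ 2 * η₅ * ((cls c τ).card : ℝ) := by positivity
          linarith)
      have h5 : (((fib τ).filter (fun k =>
          ((cls c τ).card : ℝ) - (S k ∩ cls c τ).card < 2 * η₅ * (cls c τ).card)).card : ℝ) ≤
          2 * η₅ * (cls c τ).card := by linarith
      have h6 := mul_le_mul_of_nonneg_right h5 hDa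
      linarith
    rw [h2]
    linarith
  have htot : (P.v : ℝ) ≤ θ * P.A + ∑ τ : Fin (r + 1), ∑ k ∈ fib τ, g τ k := by
    have h1 : (P.v : ℝ) = ∑ k, (P.phi (σ k) (S k) : ℝ) := by
      rw [← P.phi_sum σ]; push_cast; rfl
    have h2 : (P.A : ℝ) = ∑ k, (P.cost (σ k) (S k) : ℝ) := by
      rw [← P.cost_sum σ]; push_cast; rfl
    have h3 : ∑ τ : Fin (r + 1), ∑ k ∈ fib τ, g τ k = ∑ k, g (c (σ k)) k := by
      rw [← Finset.sum_fiberwise (s := (Finset.univ : Finset (Fin N))) (g := fun k => c (σ k))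
        (f := fun k => g (c (σ k)) k)]
      refine Finset.sum_congr rfl fun τ _ => Finset.sum_congr rfl fun k hk => ?_
      have : c (σ k) = τ := by simpa [hfib] using hk
      rw [this]
    rw [h1, h2, h3, Finset.mul_sum, ← Finset.sum_add_distrib]
    exact Finset.sum_le_sum fun k _ => hk k
  have hsum0 : ∑ k ∈ fib 0, g 0 k = (cls c 0).card * D * a := by
    simp only [hg, if_true]
    rw [Finset.sum_const, nsmul_eq_mul, hfibc]
    ring
  have hrest : ∑ τ ∈ Finset.univ.erase 0, ∑ k ∈ fib τ, g τ k ≤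
      (∑ τ ∈ Finset.univ.erase 0, ((cls c τ).card : ℝ) / N * R.G (D * a) (cls c τ)) +
      (κ + ξ / κ + 2 * η₅) * D * a * N + (r + 1) * (D * a) := by
    have h1 : ∑ τ ∈ (Finset.univ.erase 0 : Finset (Fin (r + 1))), ((cls c τ).card : ℝ) ≤ N := by
      rw [← hsumcls]
      exact Finset.sum_le_sum_of_subset_of_nonneg (Finset.erase_subset _ _)
        fun τ _ _ => Nat.cast_nonneg _
    refine (Finset.sum_le_sum fun τ hτ => hclass τ (Finset.ne_of_mem_erase hτ)).trans ?_
    rw [Finset.sum_add_distrib, Finset.sum_add_distrib, ← Finset.mul_sum, ← Finset.mul_sum,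
      ← Finset.sum_div]
    have h2 : 0 ≤ (κ + ξ / κ + 2 * η₅) * (D * a : ℝ) := by positivity
    have h3 := mul_le_mul_of_nonneg_left h1 h2
    have h4 : (∑ τ ∈ (Finset.univ.erase 0 : Finset (Fin (r + 1))), ((cls c τ).card : ℝ)) / N ≤
        1 := by
      rw [div_le_one hNr]; exact h1
    have h5 : (0 : ℝ) ≤ ((r : ℝ) + 1) * (D * a) := by positivity
    have h6 := mul_le_mul_of_nonneg_left h4 h5
    linarith
  rw [← Finset.add_sum_erase _ _ (Finset.mem_univ (0 : Fin (r + 1))), hsum0] at htot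
  have h7 : (0 : ℝ) ≤ (2 * r + 5) * (D * a) := by positivity
  linarith

end Pool.Agent.Lib_GD

end

/-! ### from `Lib_KF.KCDvd` -/

section

/-!
# KC18: a square integrable fraction is regular
-/

open MeasureTheory
open scoped ENNReal NNReal

namespace Pool.Agent.Lib_KF

open Pool.Agent.Lib_GD

/-- real arithmetic: the pointwise bound of the integrand -/
private theorem KCDvd_real {A B C Q s X g : ℝ} {k r : ℕ} (hk : 1 ≤ k) (hr : 1 ≤ r)
    (hA : 0 ≤ A) (hB : 0 ≤ B) (hC : 0 < C) (hg : 0 < g) (hX : 0 ≤ X)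
    (hQ : Q = X ^ r / g) (hs : s = 2 / (r * k : ℝ)) (hle : A ≤ C * B * Q ^ k) :
    (A / B) ^ s ≤ C ^ s * (X ^ 2 * g ^ (-2 / (r : ℝ))) := by
  have hk0 : (0 : ℝ) < k := by exact_mod_cast hk
  have hr0 : (0 : ℝ) < r := by exact_mod_cast hr
  have hs0 : 0 < s := by rw [hs]; positivity
  have hQ0 : 0 ≤ Q := by rw [hQ]; positivity
  have h1 : A / B ≤ C * Q ^ k := by
    rcases hB.eq_or_lt with hB0 | hB0
    · rw [← hB0, div_zero]; positivity
    · rw [div_le_iff₀ hB0]
      calc A ≤ C * B * Q ^ k := hle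
        _ = C * Q ^ k * B := by ring
  have h2 : (A / B) ^ s ≤ (C * Q ^ k) ^ s :=
    Real.rpow_le_rpow (div_nonneg hA hB) h1 hs0.le
  refine h2.trans (le_of_eq ?_)
  rw [Real.mul_rpow hC.le (by positivity)]
  congr 1
  rw [hQ, ← Real.rpow_natCast, ← Real.rpow_mul (by positivity)]
  have h3 : (k : ℝ) * s = 2 / r := by
    rw [hs]; field_simp
  rw [h3, Real.div_rpow (by positivity) hg.le, ← Real.rpow_natCast, ← Real.rpow_mul hX,
    ← Real.rpow_natCast, div_eq_mul_inv, ← Real.rpow_neg hg.le]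
  congr 1
  · congr 1
    field_simp
    norm_num
  · congr 1
    ring

/-- Suppose `D = h₀ ^ m` does not divide `N`. `kc_normal` gives `p`, `kc_contract` gives `h₁`; `D ∈ p`
so `h₁ ∣ h₀` and `h₁` is homogeneous (`kc_homog_of_dvd`). With `U = N ^ r`, `V = D ^ r G` the hypothesis of
`kc_bound` holds: `ord D ≥ ord N + 1`, `ord G ≥ r (e - 1)` (`kc_ordG`). So almost everywhere the integrand is at least
`c (|a| / (|b| |h₁| ^ j)) ^ (2 / (r k))`, which is not integrable (`kc_nonint`). -/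
theorem kc_dvd {R : Type} [CommRing R] [Algebra ℂ R] {𝒜 : ℕ → Submodule ℂ R}
    [GradedAlgebra 𝒜] {n r d : ℕ} {x : Fin (n + 1) → R} {G : R} (h : IsFano 𝒜 n r d x G)
    (h₀ : MvPolynomial (Fin (n + 1)) ℂ) (hh : h₀ ≠ 0) {w : ℕ} (hw : h₀.IsHomogeneous w)
    (m : ℕ) (N : R)
    (hint : ∫⁻ y in W0 h₀, ∑' ν : fib x y,
      ENNReal.ofReal ((‖ν.1 N‖ / ‖MvPolynomial.eval y h₀‖ ^ m) ^ 2 * ‖ν.1 G‖ ^ (-2 / (r : ℝ)))
        ≠ ⊤) :
    MvPolynomial.aeval x (h₀ ^ m) ∣ N := by
  classical
  have := h.domain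
  have := h.normal
  have := kc_noeth h.x_finite
  by_contra hND
  have hinj : Function.Injective
      (MvPolynomial.aeval x : MvPolynomial (Fin (n + 1)) ℂ →ₐ[ℂ] R) := h.x_indep
  have hD : MvPolynomial.aeval x (h₀ ^ m) ≠ 0 := by
    intro h0
    have h1 : h₀ ^ m = 0 := hinj (by rw [h0, map_zero])
    exact hh (eq_zero_of_pow_eq_zero h1)
  obtain ⟨p, hp, hp1, hdom, hdvr, hnd⟩ := kc_normal hD hND
  obtain ⟨h₁, hirr, hc⟩ := kc_contract h.x_indep h.x_finite p hp hp1
  have hN0 : N ≠ 0 := by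
    rintro rfl
    exact hND (dvd_zero _)
  have hDp : MvPolynomial.aeval x (h₀ ^ m) ∈ p := by
    by_contra hnp
    have h1 : IsUnit (algebraMap R (Localization.AtPrime p) (MvPolynomial.aeval x (h₀ ^ m))) :=
      IsLocalization.map_units (Localization.AtPrime p)
        (⟨MvPolynomial.aeval x (h₀ ^ m), hnp⟩ : p.primeCompl)
    exact hnd h1.dvd
  have hdvd : h₁ ∣ h₀ := by
    have h1 : h₀ ^ m ∈ p.comap
        (MvPolynomial.aeval x : MvPolynomial (Fin (n + 1)) ℂ →ₐ[ℂ] R) := hDp
    rw [hc, Ideal.mem_span_singleton] at h1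
    exact hirr.prime.dvd_of_dvd_pow h1
  obtain ⟨w', hw'⟩ := kc_homog_of_dvd hh hw hdvd
  have hGord := kc_ordG h p hp hp1 hdom hdvr h₁ hirr hc
  have hh1 : MvPolynomial.aeval x h₁ ≠ 0 := by
    intro h0
    exact hirr.ne_zero (hinj (by rw [h0, map_zero]))
  have hU : N ^ r ≠ 0 := pow_ne_zero _ hN0
  have hV : MvPolynomial.aeval x (h₀ ^ m) ^ r * G ≠ 0 := mul_ne_zero (pow_ne_zero _ hD) h.G_ne
  have hord : IsDiscreteValuationRing.addVal (Localization.AtPrime p)
        (algebraMap R (Localization.AtPrime p) (N ^ r * MvPolynomial.aeval x h₁ ^ r)) ≤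
      IsDiscreteValuationRing.addVal (Localization.AtPrime p)
        (algebraMap R (Localization.AtPrime p)
          (MvPolynomial.aeval x (h₀ ^ m) ^ r * G)) := by
    have h1 : IsDiscreteValuationRing.addVal (Localization.AtPrime p)
        (algebraMap R (Localization.AtPrime p) N) + 1 ≤
        IsDiscreteValuationRing.addVal (Localization.AtPrime p)
        (algebraMap R (Localization.AtPrime p) (MvPolynomial.aeval x (h₀ ^ m))) := by
      apply Order.add_one_le_of_lt
      rw [← not_le]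
      intro h2
      exact hnd (IsDiscreteValuationRing.addVal_le_iff_dvd.1 h2)
    simp only [map_mul, map_pow, IsDiscreteValuationRing.addVal_mul,
      IsDiscreteValuationRing.addVal_pow, nsmul_eq_mul] at hGord h1 ⊢
    set vN := IsDiscreteValuationRing.addVal (Localization.AtPrime p)
        (algebraMap R (Localization.AtPrime p) N)
    set vh := IsDiscreteValuationRing.addVal (Localization.AtPrime p)
        (algebraMap R (Localization.AtPrime p) (MvPolynomial.aeval x h₁))
    set vG := IsDiscreteValuationRing.addVal (Localization.AtPrime p)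
        (algebraMap R (Localization.AtPrime p) G)
    set vD := (m : ℕ∞) * IsDiscreteValuationRing.addVal (Localization.AtPrime p)
        (algebraMap R (Localization.AtPrime p) (MvPolynomial.aeval x h₀))
    calc (r : ℕ∞) * vN + r * vh ≤ r * vN + r * (1 + (vh - 1)) := by
          gcongr
          exact le_add_tsub
      _ = r * (vN + 1) + r * (vh - 1) := by ring
      _ ≤ r * vD + vG := by
          gcongr
  obtain ⟨k, j, a, b, q, C, hk, hj, hC, ha, hb, hq, hbd⟩ :=
    kc_bound h.x_indep h.x_finite p hp hdom hdvr h₁ hirr hc (N ^ r)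
      (MvPolynomial.aeval x (h₀ ^ m) ^ r * G) hU hV r hord
  have hr0 : (0 : ℝ) < r := by exact_mod_cast h.r_pos
  have hk0 : (0 : ℝ) < k := by exact_mod_cast hk
  set s : ℝ := 2 / (r * k : ℝ) with hs
  have hs0 : 0 < s := by positivity
  have hsj : 2 ≤ s * j := by
    have h1 : ((r * k : ℕ) : ℝ) ≤ j := by exact_mod_cast hj
    push_cast at h1
    rw [hs, div_mul_eq_mul_div, le_div_iff₀ (by positivity)]
    linarith
  have htop := kc_nonint h₁ a b hirr hw' ha hb j s hs0 hsj
  apply hint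
  have hCs : ENNReal.ofReal (C ^ s) ≠ ⊤ := ENNReal.ofReal_ne_top
  -- the exceptional set is null
  have hnull : ∀ᵐ y : Fin (n + 1) → ℂ, MvPolynomial.eval y (q * h₀) ≠ 0 := by
    have h1 := GPn.mv_null (q * h₀) (mul_ne_zero hq hh)
    exact measure_eq_zero_iff_ae_notMem.1 h1
  have hle : ∫⁻ y in Metric.ball (0 : Fin (n + 1) → ℂ) 1, ENNReal.ofReal
      ((‖MvPolynomial.eval y a‖ / (‖MvPolynomial.eval y b‖ * ‖MvPolynomial.eval y h₁‖ ^ j)) ^ s)
      ≤ ENNReal.ofReal (C ^ s) * ∫⁻ y in W0 h₀, ∑' ν : fib x y,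
      ENNReal.ofReal ((‖ν.1 N‖ / ‖MvPolynomial.eval y h₀‖ ^ m) ^ 2 *
        ‖ν.1 G‖ ^ (-2 / (r : ℝ))) := by
    rw [← lintegral_const_mul' _ _ hCs]
    have hWm : MeasurableSet (W0 h₀) := (isOpen_W0 h₀).measurableSet
    rw [← lintegral_indicator Metric.isOpen_ball.measurableSet, ← lintegral_indicator hWm]
    apply lintegral_mono_ae
    filter_upwards [hnull] with y hy
    by_cases hyb : y ∈ Metric.ball (0 : Fin (n + 1) → ℂ) 1
    · have hqy : MvPolynomial.eval y q ≠ 0 := by
        intro h0; apply hy; rw [map_mul, h0, zero_mul]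
      have hhy : MvPolynomial.eval y h₀ ≠ 0 := by
        intro h0; apply hy; rw [map_mul, h0, mul_zero]
      have hyW : y ∈ W0 h₀ := ⟨by simpa using hyb, hhy⟩
      rw [Set.indicator_of_mem hyb, Set.indicator_of_mem hyW]
      obtain ⟨ν, hν, hνV, hb1⟩ := hbd y hqy
      have h3 : ENNReal.ofReal ((‖ν N‖ / ‖MvPolynomial.eval y h₀‖ ^ m) ^ 2 *
          ‖ν G‖ ^ (-2 / (r : ℝ))) ≤ ∑' ν : fib x y,
          ENNReal.ofReal ((‖ν.1 N‖ / ‖MvPolynomial.eval y h₀‖ ^ m) ^ 2 *
        ‖ν.1 G‖ ^ (-2 / (r : ℝ))) :=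
        ENNReal.le_tsum (f := fun ν : fib x y =>
          ENNReal.ofReal ((‖ν.1 N‖ / ‖MvPolynomial.eval y h₀‖ ^ m) ^ 2 *
        ‖ν.1 G‖ ^ (-2 / (r : ℝ)))) ⟨ν, hν⟩
      refine le_trans ?_ (mul_le_mul_right h3 _)
      rw [← ENNReal.ofReal_mul (by positivity)]
      apply ENNReal.ofReal_le_ofReal
      have hνG : ν G ≠ 0 := by
        intro h0; apply hνV; rw [map_mul, h0, mul_zero]
      refine KCDvd_real (Q := ‖ν (N ^ r)‖ / ‖ν (MvPolynomial.aeval x (h₀ ^ m) ^ r * G)‖)
        hk h.r_pos (norm_nonneg _) (by positivity) hC (norm_pos_iff.2 hνG)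
        (by positivity) ?_ hs ?_
      · rw [map_mul, map_pow, map_pow, fib_aeval hν, norm_mul, norm_pow, norm_pow, map_pow,
          norm_pow, div_pow, div_div]
      · exact hb1
    · rw [Set.indicator_of_notMem hyb]
      exact bot_le
  rw [htop, top_le_iff] at hle
  by_contra hne
  exact absurd hle (ENNReal.mul_ne_top hCs hne)

end Pool.Agent.Lib_KF

end

/-! ### from `Lib_KF.ChNewton` -/

section

/-! CH08: the residue field of the valuation of an arc is large. -/

open PowerSeries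

namespace Pool.Agent.Lib_KF

open Pool.Agent.Lib_GD

variable {k L : Type} [Field k] [Field L] [Algebra k L] [Algebra ℂ L]

private theorem ChNewton_hat_algebraMap (δ : Derivation ℂ L L)
    (hk : ∀ t : k, δ (algebraMap k L t) = 0) (t : k) : hat δ (algebraMap k L⟦X⟧ t) = 0 := by
  ext m
  rw [coeff_hat, PowerSeries.algebraMap_apply, PowerSeries.coeff_C]
  split_ifs
  · rw [hk, map_zero]
  · rw [map_zero, map_zero]

omit [Algebra k L] [Field k] in
private theorem ChNewton_hat_one (δ : Derivation ℂ L L) : hat δ (1 : L⟦X⟧) = 0 := by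
  have h1 := hat_mul δ (1 : L⟦X⟧) 1
  rw [mul_one, one_mul, mul_one] at h1
  exact left_eq_add.1 h1

omit [Algebra k L] [Field k] in
private theorem ChNewton_hat_X (δ : Derivation ℂ L L) : hat δ (X : L⟦X⟧) = 0 := by
  have h1 := hat_X_pow_mul δ 1 (1 : L⟦X⟧)
  rwa [pow_one, mul_one, ChNewton_hat_one, mul_zero] at h1

omit [Algebra k L] [Field k] in
private theorem ChNewton_hat_pow (δ : Derivation ℂ L L) (f : L⟦X⟧) (m : ℕ) :
    hat δ (f ^ m) = m * f ^ (m - 1) * hat δ f := by
  induction m with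
  | zero =>
    rw [pow_zero, ChNewton_hat_one]
    simp
  | succ m ih =>
    rw [pow_succ, hat_mul, ih]
    rcases m with _ | m
    · simp
    · simp only [Nat.add_sub_cancel, Nat.cast_add, Nat.cast_one]
      ring

/-- CH08a. The chain rule: for `a ∈ polyRing k y` there are `c_l` (independent of `δ`) with
`δ a = ∑ c_l δ y_l` for all `δ` killing `k`. `Algebra.adjoin_induction`. -/
theorem exists_chain {n : ℕ} (y : Fin n → L⟦X⟧) (a : L⟦X⟧) (ha : a ∈ polyRing k y) :
    ∃ c : Fin n → L⟦X⟧, ∀ δ : Derivation ℂ L L, (∀ t : k, δ (algebraMap k L t) = 0) →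
      hat δ a = ∑ l, c l * hat δ (y l) := by
  classical
  unfold polyRing at ha
  induction ha using Algebra.adjoin_induction with
  | mem x hx =>
    rcases hx with rfl | ⟨l, rfl⟩
    · refine ⟨0, fun δ _ => ?_⟩
      rw [ChNewton_hat_X]
      simp
    · refine ⟨Pi.single l 1, fun δ _ => ?_⟩
      rw [Finset.sum_eq_single l]
      · rw [Pi.single_eq_same, one_mul]
      · intro j _ hj
        rw [Pi.single_eq_of_ne hj, zero_mul]
      · intro h; exact absurd (Finset.mem_univ l) h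
  | algebraMap r =>
    refine ⟨0, fun δ hδ => ?_⟩
    rw [ChNewton_hat_algebraMap δ hδ]
    simp
  | add x x' _ _ hx hx' =>
    obtain ⟨c, hc⟩ := hx
    obtain ⟨c', hc'⟩ := hx'
    refine ⟨c + c', fun δ hδ => ?_⟩
    rw [hat_add, hc δ hδ, hc' δ hδ, ← Finset.sum_add_distrib]
    exact Finset.sum_congr rfl fun l _ => by rw [Pi.add_apply, add_mul]
  | mul x x' _ _ hx hx' =>
    obtain ⟨c, hc⟩ := hx
    obtain ⟨c', hc'⟩ := hx'
    refine ⟨fun l => x * c' l + x' * c l, fun δ hδ => ?_⟩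
    rw [hat_mul, hc δ hδ, hc' δ hδ, Finset.mul_sum, Finset.sum_mul, ← Finset.sum_add_distrib]
    exact Finset.sum_congr rfl fun l _ => by ring

private theorem ChNewton_hat_aeval (δ : Derivation ℂ L L)
    (hk : ∀ t : k, δ (algebraMap k L t) = 0) {ι : Type} (u : ι → L⟦X⟧)
    (hu : ∀ i, hat δ (u i) = 0) (p : MvPolynomial ι k) :
    hat δ (MvPolynomial.aeval u p) = 0 := by
  induction p using MvPolynomial.induction_on with
  | C a => rw [MvPolynomial.aeval_C, ChNewton_hat_algebraMap δ hk]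
  | add p q hp hq => rw [map_add, hat_add, hp, hq, add_zero]
  | mul_X p i hp => rw [map_mul, hat_mul, hp, MvPolynomial.aeval_X, hu, mul_zero, zero_mul,
      add_zero]

private theorem ChNewton_hat_eval₂ (δ : Derivation ℂ L L)
    (hk : ∀ t : k, δ (algebraMap k L t) = 0) {ι : Type} (u : ι → L⟦X⟧)
    (hu : ∀ i, hat δ (u i) = 0) (f : L⟦X⟧) (P : Polynomial (MvPolynomial ι k)) :
    hat δ (P.eval₂ (MvPolynomial.aeval u : MvPolynomial ι k →ₐ[k] L⟦X⟧).toRingHom f) =
      P.derivative.eval₂ (MvPolynomial.aeval u : MvPolynomial ι k →ₐ[k] L⟦X⟧).toRingHom f *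
        hat δ f := by
  induction P using Polynomial.induction_on' with
  | add p q hp hq =>
    rw [Polynomial.eval₂_add, hat_add, hp, hq, Polynomial.derivative_add,
      Polynomial.eval₂_add, add_mul]
  | monomial m a =>
    rw [Polynomial.eval₂_monomial, Polynomial.derivative_monomial, Polynomial.eval₂_monomial,
      hat_mul]
    have h0 : hat δ ((MvPolynomial.aeval u : MvPolynomial ι k →ₐ[k] L⟦X⟧).toRingHom a) = 0 :=
      ChNewton_hat_aeval δ hk u hu a
    rw [h0, zero_mul, add_zero, ChNewton_hat_pow]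
    simp only [map_mul, map_natCast]
    ring

/-- Polynomials in elements of `fracRing A` with values in it. -/
private theorem ChNewton_aeval_mem (A : Subalgebra k L⟦X⟧) {ι : Type} (u : ι → L⟦X⟧)
    (hu : ∀ i, u i ∈ fracRing A) (p : MvPolynomial ι k) :
    MvPolynomial.aeval u p ∈ fracRing A := by
  induction p using MvPolynomial.induction_on with
  | C a => rw [MvPolynomial.aeval_C]; exact (fracRing A).algebraMap_mem a
  | add p q hp hq => rw [map_add]; exact (fracRing A).add_mem hp hq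
  | mul_X p i hp =>
    rw [map_mul, MvPolynomial.aeval_X]; exact (fracRing A).mul_mem hp (hu i)

private theorem ChNewton_eval₂_mem (A : Subalgebra k L⟦X⟧) {ι : Type} (u : ι → L⟦X⟧)
    (hu : ∀ i, u i ∈ fracRing A) (f : L⟦X⟧) (hf : f ∈ fracRing A)
    (P : Polynomial (MvPolynomial ι k)) :
    P.eval₂ (MvPolynomial.aeval u : MvPolynomial ι k →ₐ[k] L⟦X⟧).toRingHom f ∈ fracRing A := by
  induction P using Polynomial.induction_on' with
  | add p q hp hq => rw [Polynomial.eval₂_add]; exact (fracRing A).add_mem hp hq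
  | monomial m a =>
    rw [Polynomial.eval₂_monomial]
    exact (fracRing A).mul_mem (ChNewton_aeval_mem A u hu a) ((fracRing A).pow_mem hf m)

/-- Division by `X` in `fracRing A`. -/
private theorem ChNewton_div_X (A : Subalgebra k L⟦X⟧) (hX : (X : L⟦X⟧) ∈ A) (f : L⟦X⟧)
    (hf : f ∈ fracRing A) (h0 : constantCoeff f = 0) : ∃ g ∈ fracRing A, f = X * g := by
  obtain ⟨g, hg⟩ := PowerSeries.X_dvd_iff.2 h0
  obtain ⟨a, ha, b, hb, hb0, h⟩ := hf
  refine ⟨g, ⟨a, ha, X * b, A.mul_mem hX hb, mul_ne_zero X_ne_zero hb0, ?_⟩, hg⟩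
  rw [← h, hg]; ring

/-- CH08b. Newton's argument: if the residues `ū_i` (`i < r`) of `u_i ∈ V = fracRing (polyRing k y)`
are such that the residue of every element of `V` is algebraic over `k[ū]`, and `δ` kills `k` and
the `u_i`, then `hat δ` kills `V`. Otherwise let `m` be the minimal order of `hat δ f`, `f ∈ V`,
attained at `f`. The constant coefficient of `f` is a root of a polynomial over `k[ū]`, separable
of minimal degree; lift it to a polynomial `P` over `k[u]`: `P(f) = X h` with `h ∈ V` and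
`P'(f)` has non-zero constant coefficient; `hat δ (P(f)) = P'(f) hat δ f` has order `m`, but it is
`X hat δ h`, of order `≥ m + 1`. (Compare `ArcDivisor_newton` in `Lib_GD/ArcDivisor.lean`.) -/
theorem hat_eq_zero_of_residues [CharZero k] {n r : ℕ} (y : Fin n → L⟦X⟧) (u : Fin r → L⟦X⟧)
    (hu : ∀ i, u i ∈ fracRing (polyRing k y))
    (halg : ∀ f ∈ fracRing (polyRing k y), IsAlgebraic
      (Algebra.adjoin k (Set.range fun i => constantCoeff (u i))) (constantCoeff f))
    (δ : Derivation ℂ L L) (hk : ∀ t : k, δ (algebraMap k L t) = 0)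
    (hδ : ∀ i, hat δ (u i) = 0) (f : L⟦X⟧) (hf : f ∈ fracRing (polyRing k y)) :
    hat δ f = 0 := by
  classical
  have hX : (X : L⟦X⟧) ∈ polyRing k y :=
    Algebra.subset_adjoin (Set.mem_insert _ _)
  generalize hAdef : polyRing k y = A at hu halg hf hX
  by_contra hne
  have hex : ∃ m : ℕ, ∃ f ∈ fracRing A, (hat δ f).order = m :=
    ⟨_, f, hf, (coe_toNat_order hne).symm⟩
  obtain ⟨g, hgA, hg⟩ := Nat.find_spec hex
  have hmin : ∀ g' ∈ fracRing A, ∀ m : ℕ, (hat δ g').order = m → Nat.find hex ≤ m :=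
    fun g' hg' m hm => Nat.find_min' hex ⟨g', hg', hm⟩
  generalize Nat.find hex = m at hg hmin
  clear hne hf f hex
  have hgne : hat δ g ≠ 0 := by
    intro h
    rw [h, order_zero] at hg
    exact ENat.top_ne_natCast m hg
  set ub : Fin r → L := fun i => constantCoeff (u i) with hub
  set ψ₁ : MvPolynomial (Fin r) k →+* L⟦X⟧ :=
    (MvPolynomial.aeval u : MvPolynomial (Fin r) k →ₐ[k] L⟦X⟧).toRingHom with hψ₁
  set ψ₀ : MvPolynomial (Fin r) k →+* L :=
    (MvPolynomial.aeval ub : MvPolynomial (Fin r) k →ₐ[k] L).toRingHom with hψ₀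
  have hcomp : (constantCoeff (R := L)).comp ψ₁ = ψ₀ := by
    refine MvPolynomial.ringHom_ext (fun a => ?_) (fun i => ?_)
    · have h1 : ψ₁ (MvPolynomial.C a) = algebraMap k L⟦X⟧ a := MvPolynomial.aeval_C u a
      have h2 : ψ₀ (MvPolynomial.C a) = algebraMap k L a := MvPolynomial.aeval_C ub a
      rw [RingHom.comp_apply, h1, h2, PowerSeries.algebraMap_apply, constantCoeff_C]
    · have h1 : ψ₁ (MvPolynomial.X i) = u i := MvPolynomial.aeval_X u i
      have h2 : ψ₀ (MvPolynomial.X i) = ub i := MvPolynomial.aeval_X ub i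
      rw [RingHom.comp_apply, h1, h2]
  have hev : ∀ P : Polynomial (MvPolynomial (Fin r) k),
      constantCoeff (P.eval₂ ψ₁ g) = P.eval₂ ψ₀ (constantCoeff g) := by
    intro P
    rw [← hcomp]
    exact Polynomial.hom_eval₂ P _ (constantCoeff (R := L)) g
  have hexP : ∃ d : ℕ, ∃ P : Polynomial (MvPolynomial (Fin r) k), P.map ψ₀ ≠ 0 ∧
      (P.map ψ₀).natDegree = d ∧ P.eval₂ ψ₀ (constantCoeff g) = 0 := by
    have h1 := halg g hgA
    rw [Algebra.adjoin_range_eq_range_aeval] at h1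
    obtain ⟨Q, hQ0, hQ⟩ := h1
    obtain ⟨P, hP⟩ := Polynomial.map_surjective
      (MvPolynomial.aeval ub : MvPolynomial (Fin r) k →ₐ[k] L).rangeRestrict.toRingHom
      (AlgHom.rangeRestrict_surjective _) Q
    have hc : (algebraMap (MvPolynomial.aeval ub : MvPolynomial (Fin r) k →ₐ[k] L).range L).comp
        (MvPolynomial.aeval ub : MvPolynomial (Fin r) k →ₐ[k] L).rangeRestrict.toRingHom = ψ₀ := rfl
    have hmap : P.map ψ₀ =
        Q.map (algebraMap (MvPolynomial.aeval ub : MvPolynomial (Fin r) k →ₐ[k] L).range L) := by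
      rw [← hP, Polynomial.map_map, hc]
    refine ⟨_, P, ?_, rfl, ?_⟩
    · rw [hmap, Ne, Polynomial.map_eq_zero_iff Subtype.val_injective]
      exact hQ0
    · rw [Polynomial.aeval_def] at hQ
      rw [← Polynomial.eval_map, hmap, Polynomial.eval_map]
      exact hQ
  obtain ⟨P, hP0, hPd, hPev⟩ := Nat.find_spec hexP
  have hPmin : ∀ P' : Polynomial (MvPolynomial (Fin r) k), P'.map ψ₀ ≠ 0 →
      (P'.map ψ₀).natDegree < (P.map ψ₀).natDegree → P'.eval₂ ψ₀ (constantCoeff g) ≠ 0 := by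
    intro P' h0 hlt h1
    rw [hPd] at hlt
    exact Nat.find_min hexP hlt ⟨P', h0, rfl, h1⟩
  clear hPd hexP
  haveI : CharZero L := charZero_of_injective_algebraMap (algebraMap k L).injective
  have hPdeg : (P.map ψ₀).natDegree ≠ 0 := by
    intro h0
    obtain ⟨a, ha⟩ := Polynomial.natDegree_eq_zero.1 h0
    rw [← Polynomial.eval_map, ← ha, Polynomial.eval_C] at hPev
    exact hP0 (by rw [← ha, hPev, map_zero])
  have hP'0 : P.derivative.map ψ₀ ≠ 0 := by
    rw [← Polynomial.derivative_map]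
    exact fun h => hPdeg (Polynomial.derivative_eq_zero.1 h)
  have hP'ev := hPmin P.derivative hP'0 (by
    rw [← Polynomial.derivative_map]
    exact Polynomial.natDegree_derivative_lt hPdeg)
  rw [← hev] at hP'ev hPev
  have hder : hat δ (P.eval₂ ψ₁ g) = P.derivative.eval₂ ψ₁ g * hat δ g :=
    ChNewton_hat_eval₂ δ hk u hδ g P
  obtain ⟨h, hhA, hh⟩ := ChNewton_div_X A hX _ (ChNewton_eval₂_mem A u hu g hgA P) hPev
  rw [hh, hat_mul, ChNewton_hat_X, zero_mul, add_zero] at hder
  have hord := congrArg PowerSeries.order hder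
  have hu' : IsUnit (P.derivative.eval₂ ψ₁ g) :=
    PowerSeries.isUnit_iff_constantCoeff.2 (isUnit_iff_ne_zero.2 hP'ev)
  rw [order_mul, order_mul, order_X, order_zero_of_unit hu', zero_add, hg] at hord
  have hhne : hat δ h ≠ 0 := by
    intro h0
    rw [h0, order_zero, add_top] at hord
    exact ENat.top_ne_natCast m hord
  have hhm := (coe_toNat_order hhne).symm
  have h5 := hmin h hhA _ hhm
  rw [hhm] at hord
  have h6 : 1 + (hat δ h).order.toNat = m := by exact_mod_cast hord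
  omega

/-- CH08c. There are `u_l ∈ fracRing (polyRing k y)` with algebraically independent residues.
Otherwise there are `r < n` elements `u_i` whose residues are a transcendence basis of the field
of residues over `k`. By CH08a (multiply with the denominators) `b_i hat δ u_i = ∑ c_{il} hat δ y_l`
with `b_i ≠ 0`; as `r < n` there is `v ≠ 0` in `O^n` with `∑ c_{il} v_l = 0` for all `i`; a
multiple `X ^ N v` is in `Ξ` (`X_pow_smul_mem`), so it is `(hat δ y_l)` for some `δ ∈ Δ`, which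
kills all `u_i`; CH08b gives `hat δ y_l = 0`, a contradiction. -/
theorem exists_residue_indep [CharZero k] {n : ℕ} (y : Fin n → L⟦X⟧)
    (Δ : Set (Derivation ℂ L L)) (hΔ : ∀ δ ∈ Δ, ∀ t : k, δ (algebraMap k L t) = 0)
    (Ξ : Submodule L⟦X⟧ (Fin n → L⟦X⟧)) (hΞ : FinColen Ξ)
    (hΞΔ : ∀ v ∈ Ξ, ∃ δ ∈ Δ, ∀ l, hat δ (y l) = v l) :
    ∃ u : Fin n → L⟦X⟧, (∀ l, u l ∈ fracRing (polyRing k y)) ∧
      AlgebraicIndependent k (fun l => constantCoeff (u l)) := by
  classical
  -- induction: `r ≤ n` independent residues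
  suffices h : ∀ r ≤ n, ∃ u : Fin r → L⟦X⟧, (∀ l, u l ∈ fracRing (polyRing k y)) ∧
      AlgebraicIndependent k (fun l => constantCoeff (u l)) from h n le_rfl
  intro r
  induction r with
  | zero =>
    intro _
    exact ⟨fun i => i.elim0, fun i => i.elim0, algebraicIndependent_empty_type⟩
  | succ r ih =>
    intro hr
    obtain ⟨u, hu, hind⟩ := ih (by omega)
    by_contra hcon
    push Not at hcon
    have halg : ∀ f ∈ fracRing (polyRing k y), IsAlgebraic
        (Algebra.adjoin k (Set.range fun i => constantCoeff (u i))) (constantCoeff f) := by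
      intro f hf
      by_contra htr
      have h1 := (hind.option_iff_transcendental (constantCoeff f)).2 htr
      let e : Fin (r + 1) ≃ Option (Fin r) := finSuccEquiv r
      refine hcon (fun j => (e j).elim f u) (fun j => ?_) ?_
      · show (e j).elim f u ∈ _
        cases e j with
        | none => exact hf
        | some i => exact hu i
      · have h2 := h1.comp e e.injective
        have h3 : (fun j => constantCoeff ((e j).elim f u)) =
            (fun o : Option (Fin r) => o.elim (constantCoeff f)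
              fun i => constantCoeff (u i)) ∘ e := by
          funext j
          show constantCoeff ((e j).elim f u) =
            (e j).elim (constantCoeff f) (fun i => constantCoeff (u i))
          cases e j with
          | none => rfl
          | some i => rfl
        rw [h3]
        exact h2
    -- the equations
    have hfr : ∀ i, ∃ (b : L⟦X⟧) (c : Fin n → L⟦X⟧), b ≠ 0 ∧ ∀ δ : Derivation ℂ L L,
        (∀ t : k, δ (algebraMap k L t) = 0) → b * hat δ (u i) = ∑ l, c l * hat δ (y l) := by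
      intro i
      obtain ⟨a, ha, b, hb, hb0, h⟩ := hu i
      obtain ⟨ca, hca⟩ := exists_chain y a ha
      obtain ⟨cb, hcb⟩ := exists_chain y b hb
      refine ⟨b, fun l => ca l - u i * cb l, hb0, fun δ hδ => ?_⟩
      have h1 := congrArg (hat δ) h
      rw [hat_mul, hca δ hδ, hcb δ hδ] at h1
      have h2 : ∑ l, (ca l - u i * cb l) * hat δ (y l) =
          ∑ l, ca l * hat δ (y l) - u i * ∑ l, cb l * hat δ (y l) := by
        rw [Finset.mul_sum, ← Finset.sum_sub_distrib]
        exact Finset.sum_congr rfl fun l _ => by ring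
      rw [h2, ← h1]; ring
    choose b c hb0 hbc using hfr
    let F : (Fin n → L⟦X⟧) →ₗ[L⟦X⟧] (Fin r → L⟦X⟧) := Matrix.mulVecLin (Matrix.of c)
    have hF : ∀ v i, F v i = ∑ l, c i l * v l := fun v i => rfl
    have hninj : ¬ Function.Injective F := by
      intro hinj
      have := le_of_fin_injective L⟦X⟧ F hinj
      omega
    obtain ⟨v, hv0, hv⟩ : ∃ v, v ≠ 0 ∧ F v = 0 := by
      by_contra h
      push Not at h
      apply hninj
      rw [injective_iff_map_eq_zero]
      intro a ha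
      by_contra ha0
      exact h a ha0 ha
    obtain ⟨δ, hδ, hδy⟩ := hΞΔ _ (X_pow_smul_mem hΞ le_rfl v)
    have hδu : ∀ i, hat δ (u i) = 0 := by
      intro i
      have h1 := hbc i δ (hΔ δ hδ)
      have h2 : ∑ l, c i l * hat δ (y l) = 0 := by
        have h3 := congrFun hv i
        rw [hF, Pi.zero_apply] at h3
        calc ∑ l, c i l * hat δ (y l) = ∑ l, X ^ colen Ξ * (c i l * v l) :=
              Finset.sum_congr rfl fun l _ => by
                rw [hδy l, Pi.smul_apply, smul_eq_mul]; ring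
          _ = 0 := by rw [← Finset.mul_sum, h3, mul_zero]
      rw [h2] at h1
      exact (mul_eq_zero.1 h1).resolve_left (hb0 i)
    apply hv0
    funext l
    have h1 := hat_eq_zero_of_residues y u hu halg δ (hΔ δ hδ) hδu (y l)
      (le_fracRing _ (Algebra.subset_adjoin (Set.mem_insert_of_mem _ ⟨l, rfl⟩)))
    rw [hδy l, Pi.smul_apply, smul_eq_mul] at h1
    exact (mul_eq_zero.1 h1).resolve_left (pow_ne_zero _ X_ne_zero)

private theorem ChNewton_hat_mvaeval (δ : Derivation ℂ L L)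
    (hk : ∀ t : k, δ (algebraMap k L t) = 0) {n : ℕ} (y : Fin n → L⟦X⟧)
    (p : MvPolynomial (Fin n) k) :
    hat δ (MvPolynomial.aeval y p) =
      ∑ l, MvPolynomial.aeval y (MvPolynomial.pderiv l p) * hat δ (y l) := by
  classical
  induction p using MvPolynomial.induction_on with
  | C a =>
    rw [MvPolynomial.aeval_C, ChNewton_hat_algebraMap δ hk]
    symm
    apply Finset.sum_eq_zero
    intro l _
    rw [MvPolynomial.pderiv_C, map_zero, zero_mul]
  | add p q hp hq =>
    rw [map_add, hat_add, hp, hq, ← Finset.sum_add_distrib]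
    exact Finset.sum_congr rfl fun l _ => by rw [map_add, map_add, add_mul]
  | mul_X p i hp =>
    rw [map_mul, hat_mul, hp, MvPolynomial.aeval_X]
    have h1 : ∀ l, MvPolynomial.aeval y (MvPolynomial.pderiv l (p * MvPolynomial.X i)) *
        hat δ (y l) = (MvPolynomial.aeval y (MvPolynomial.pderiv l p) * hat δ (y l)) * y i +
          MvPolynomial.aeval y p * (if l = i then hat δ (y l) else 0) := by
      intro l
      rw [MvPolynomial.pderiv_mul, map_add, map_mul, map_mul, MvPolynomial.aeval_X,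
        MvPolynomial.pderiv_X]
      by_cases hl : l = i
      · subst hl
        simp
        ring
      · rw [Pi.single_eq_of_ne (fun h => hl h.symm)]
        simp [hl]
        ring
    rw [Finset.sum_congr rfl fun l _ => h1 l, Finset.sum_add_distrib, ← Finset.sum_mul,
      ← Finset.mul_sum, Finset.sum_ite_eq' Finset.univ i, if_pos (Finset.mem_univ i)]
    ring

/-- CH08d. The `y_l` are algebraically independent over `k`: in a relation `P(y) = 0` of minimal
degree, `0 = hat δ (P(y)) = ∑ (∂_l P)(y) v_l` for all `v ∈ Ξ`, so `(∂_l P)(y) = 0`, and `P` is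
constant. -/
theorem algebraicIndependent_arc [CharZero k] {n : ℕ} (y : Fin n → L⟦X⟧)
    (Δ : Set (Derivation ℂ L L)) (hΔ : ∀ δ ∈ Δ, ∀ t : k, δ (algebraMap k L t) = 0)
    (Ξ : Submodule L⟦X⟧ (Fin n → L⟦X⟧)) (hΞ : FinColen Ξ)
    (hΞΔ : ∀ v ∈ Ξ, ∃ δ ∈ Δ, ∀ l, hat δ (y l) = v l) :
    AlgebraicIndependent k y := by
  classical
  have key : ∀ P : MvPolynomial (Fin n) k, MvPolynomial.aeval y P = 0 →
      ∀ l, MvPolynomial.aeval y (MvPolynomial.pderiv l P) = 0 := by
    intro P hP l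
    obtain ⟨δ, hδ, hδy⟩ := hΞΔ _ (X_pow_smul_mem hΞ le_rfl (Pi.single l 1))
    have h1 := ChNewton_hat_mvaeval δ (hΔ δ hδ) y P
    rw [hP, hat_zero, Finset.sum_eq_single l] at h1
    · rw [hδy l, Pi.smul_apply, Pi.single_eq_same, smul_eq_mul, mul_one] at h1
      exact (mul_eq_zero.1 h1.symm).resolve_right (pow_ne_zero _ X_ne_zero)
    · intro j _ hj
      rw [hδy j, Pi.smul_apply, Pi.single_eq_of_ne hj, smul_zero, mul_zero]
    · intro h; exact absurd (Finset.mem_univ l) h
  have main : ∀ (d : ℕ) (P : MvPolynomial (Fin n) k),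
      (∀ m : Fin n →₀ ℕ, d ≤ m.degree → MvPolynomial.coeff m P = 0) →
      MvPolynomial.aeval y P = 0 → P = 0 := by
    intro d
    induction d with
    | zero =>
      intro P hP _
      ext m
      rw [hP m (Nat.zero_le _), MvPolynomial.coeff_zero]
    | succ d ih =>
      intro P hP hP0
      have h1 : ∀ l, MvPolynomial.pderiv l P = 0 := by
        intro l
        apply ih _ _ (key P hP0 l)
        intro m hm
        rw [MvPolynomial.coeff_pderiv, hP _ _, zero_mul]
        rw [map_add, Finsupp.degree_single]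
        omega
      have h2 : ∀ m : Fin n →₀ ℕ, m ≠ 0 → MvPolynomial.coeff m P = 0 := by
        intro m hm
        obtain ⟨l, hl⟩ := Finsupp.ne_iff.1 hm
        rw [Finsupp.zero_apply] at hl
        have h3 := congrArg (MvPolynomial.coeff (m - Finsupp.single l 1)) (h1 l)
        rw [MvPolynomial.coeff_pderiv, MvPolynomial.coeff_zero] at h3
        have h4 : m - Finsupp.single l 1 + Finsupp.single l 1 = m := by
          apply tsub_add_cancel_of_le
          rw [Finsupp.single_le_iff]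
          omega
        rw [h4] at h3
        refine (mul_eq_zero.1 h3).resolve_right ?_
        exact Nat.cast_add_one_ne_zero _
      have h3 : P = MvPolynomial.C (MvPolynomial.coeff 0 P) := by
        ext m
        rw [MvPolynomial.coeff_C]
        split_ifs with hm
        · rw [hm]
        · exact h2 m (fun h => hm h.symm)
      rw [h3, MvPolynomial.aeval_C] at hP0
      have h4 : MvPolynomial.coeff 0 P = 0 := by
        rw [PowerSeries.algebraMap_apply] at hP0
        have h6 := congrArg constantCoeff hP0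
        rw [constantCoeff_C, map_zero] at h6
        exact (_root_.map_eq_zero _).1 h6
      rw [h3, h4, map_zero]
  rw [algebraicIndependent_iff]
  intro P hP
  refine main (P.totalDegree + 1) P ?_ hP
  intro m hm
  apply MvPolynomial.coeff_eq_zero_of_totalDegree_lt
  have h1 : ∑ i ∈ m.support, m i = m.degree := rfl
  rw [h1]
  omega

end Pool.Agent.Lib_KF

end

/-! ### from `Lib_KF.ChBuild` -/

section

/-! CH12a: from an analytic family of homomorphisms to an analytic chart. -/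

namespace Pool.Agent.Lib_KF

open Pool.Agent.Lib_GD

section Bounds

variable {k V : Type} [Field k] [CommRing V] [Algebra k V] [Algebra ℂ V] {n : ℕ} {s : V}
  {u : Fin n → V} {D : Fin n → Derivation k V V} {Z : Set V} {Zc : Set k}

private theorem ChBuild_bdd (E : EvFam k V s u D Z Zc) (v : E.𝒲) :
    ∃ C : ℝ, 0 < C ∧ ∀ z p, ‖z‖ < E.ρ / 2 → ‖p‖ < E.ρ / 2 → ‖E.ev z p v‖ ≤ C := by
  have h1 : IsCompact (Metric.closedBall (0 : ℂ × (Fin n → ℂ)) (E.ρ / 2)) :=
    isCompact_closedBall _ _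
  have h2 : ContinuousOn (fun p : ℂ × (Fin n → ℂ) => E.ev p.1 p.2 v)
      (Metric.closedBall 0 (E.ρ / 2)) :=
    (E.an v).continuousOn.mono (Metric.closedBall_subset_ball (by linarith [E.ρ_pos]))
  obtain ⟨C, hC⟩ := h1.exists_bound_of_continuousOn h2
  refine ⟨max C 1, lt_of_lt_of_le one_pos (le_max_right _ _), fun z p hz hp => ?_⟩
  refine (hC (z, p) ?_).trans (le_max_left _ _)
  rw [mem_closedBall_zero_iff, Prod.norm_def]
  exact max_le hz.le hp.le

private theorem ChBuild_low (E : EvFam k V s u D Z Zc) (v v' : E.𝒲) (h : v * v' = 1) :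
    ∃ c : ℝ, 0 < c ∧ ∀ z p, ‖z‖ < E.ρ / 2 → ‖p‖ < E.ρ / 2 → c ≤ ‖E.ev z p v‖ := by
  obtain ⟨C, hC, hC'⟩ := ChBuild_bdd E v'
  refine ⟨C⁻¹, inv_pos.2 hC, fun z p hz hp => ?_⟩
  have h1 : E.ev z p v * E.ev z p v' = 1 := by rw [← map_mul, h, map_one]
  have h2 : ‖E.ev z p v‖ * ‖E.ev z p v'‖ = 1 := by rw [← norm_mul, h1, norm_one]
  have h3 := hC' z p hz hp
  have h4 : 0 ≤ ‖E.ev z p v‖ := norm_nonneg _
  rw [inv_le_iff_one_le_mul₀ hC]
  calc (1 : ℝ) = ‖E.ev z p v‖ * ‖E.ev z p v'‖ := h2.symm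
    _ ≤ ‖E.ev z p v‖ * C := mul_le_mul_of_nonneg_left h3 h4

private theorem ChBuild_ne (E : EvFam k V s u D Z Zc) (v v' : E.𝒲) (h : v * v' = 1) (z p) :
    E.ev z p v ≠ 0 := by
  intro h0
  have h1 : E.ev z p v * E.ev z p v' = 1 := by rw [← map_mul, h, map_one]
  rw [h0, zero_mul] at h1
  exact zero_ne_one h1

end Bounds

/-- An invertible matrix applied to a linearly independent family. -/
private theorem ChBuild_linInd {N : ℕ} {V : Type} [AddCommGroup V] [Module ℂ V] (v : Fin N → V)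
    (hv : LinearIndependent ℂ v) (A : Matrix (Fin N) (Fin N) ℂ) (hA : A.det ≠ 0) :
    LinearIndependent ℂ (fun i => ∑ l, A i l • v l) := by
  classical
  rw [Fintype.linearIndependent_iff] at hv ⊢
  intro g hg
  have h1 : ∑ l, (∑ i, g i * A i l) • v l = 0 := by
    rw [← hg]
    simp only [Finset.smul_sum, Finset.sum_smul, smul_smul]
    exact Finset.sum_comm
  have h2 := hv _ h1
  have h3 : Matrix.vecMul g A = 0 := by
    funext l
    exact h2 l
  have h4 := Matrix.eq_zero_of_vecMul_eq_zero hA h3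
  exact fun i => congrFun h4 i

/-- CH12a. -/
theorem anChart_of_evFam {R : Type} [CommRing R] [Algebra ℂ R] {𝒜 : ℕ → Submodule ℂ R} {n : ℕ}
    {x : Fin (n + 1) → R} {G : R} {k V : Type} [Field k] [CommRing V] [Algebra k V] [Algebra ℂ V]
    {s : V} {u : Fin n → V} {D : Fin n → Derivation k V V} {Z : Set V} {Zc : Set k}
    (E : EvFam k V s u D Z Zc) (φ : R →ₐ[ℂ] V) (hφ : ∀ f, φ f ∈ E.𝒲) (a : Fin (n + 1)) (η : V)
    (hη : η ∈ E.𝒲) (ha : φ (x a) * η = 1) (g : ℕ) (vG vG' : V) (hvG : vG ∈ E.𝒲)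
    (hvG' : vG' ∈ E.𝒲) (hvGG : vG * vG' = 1) (hG : φ G = s ^ g * vG)
    (κ : ℕ) (vJ vJ' : V) (hvJ : vJ ∈ E.𝒲) (hvJ' : vJ' ∈ E.𝒲) (hvJJ : vJ * vJ' = 1)
    (hJ : Matrix.det (Matrix.of fun b l => D l (φ (x (a.succAbove b)) * η)) = s ^ κ * vJ)
    {M B m : ℕ} (σ : Fin M → R) (hσ : ∀ i, σ i ∈ 𝒜 m) (hσi : LinearIndependent ℂ σ)
    (c : Fin M → Fin M → Fin (B + 1) → k) (hc : ∀ i l j, c i l j ∈ Zc) (c' : k) (hc' : c' ∈ Zc)
    (hcc : Matrix.det (Matrix.of fun i l => c i l 0) * c' = 1) (lam : Fin M → ℕ)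
    (v : Fin M → V) (hv : ∀ i, v i ∈ E.𝒲)
    (hlam : ∀ i, ∑ l, (∑ j, algebraMap k V (c i l j) * s ^ (j : ℕ)) * φ (σ l) =
      s ^ lam i * v i)
    (hinj : ∀ z p p', z ≠ 0 → ‖z‖ < E.ρ → ‖p‖ < E.ρ → ‖p'‖ < E.ρ →
      (∀ b : Fin n, E.ev z p (⟨φ (x (a.succAbove b)), hφ _⟩ * ⟨η, hη⟩) =
        E.ev z p' (⟨φ (x (a.succAbove b)), hφ _⟩ * ⟨η, hη⟩)) → p = p') :
    ∃ ε : Fin M → Fin (B + 1) → R, (∀ i l, ε i l ∈ 𝒜 m) ∧
      LinearIndependent ℂ (fun i => ε i 0) ∧ Nonempty (AnChart 𝒜 x G ε lam g κ) := by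
  classical
  -- elements of `𝒲`
  let φW : R →ₐ[ℂ] E.𝒲 := φ.codRestrict E.𝒲 hφ
  have hφW : ∀ f, (φW f).1 = φ f := fun f => rfl
  let ηW : E.𝒲 := ⟨η, hη⟩
  let sW : E.𝒲 := ⟨s, E.hs⟩
  let vGW : E.𝒲 := ⟨vG, hvG⟩
  let vGW' : E.𝒲 := ⟨vG', hvG'⟩
  let vJW : E.𝒲 := ⟨vJ, hvJ⟩
  let vJW' : E.𝒲 := ⟨vJ', hvJ'⟩
  let cW : Fin M → Fin M → Fin (B + 1) → E.𝒲 := fun i l j =>
    ⟨algebraMap k V (c i l j), E.hc _ (hc i l j)⟩
  have haW : φW (x a) * ηW = 1 := Subtype.ext ha
  have hvGGW : vGW * vGW' = 1 := Subtype.ext hvGG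
  have hvJJW : vJW * vJW' = 1 := Subtype.ext hvJJ
  have hGW : φW G = sW ^ g * vGW := Subtype.ext hG
  have hlamW : ∀ i, ∑ l, (∑ j, cW i l j * sW ^ (j : ℕ)) * φW (σ l) =
      sW ^ lam i * ⟨v i, hv i⟩ := by
    intro i
    apply Subtype.ext
    have h1 := hlam i
    push_cast
    exact h1
  -- values of the constants
  let χ : Fin M → Fin M → Fin (B + 1) → ℂ := fun i l j => E.ev 0 0 (cW i l j)
  have hχ : ∀ i l j z p, ‖z‖ < E.ρ → ‖p‖ < E.ρ → E.ev z p (cW i l j) = χ i l j :=
    fun i l j z p hz hp => E.ev_c _ (hc i l j) z p hz hp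
  have hdetχ : Matrix.det (Matrix.of fun i l => χ i l 0) ≠ 0 := by
    have h1 : Matrix.det (Matrix.of fun i l => cW i l 0) *
        (⟨algebraMap k V c', E.hc _ hc'⟩ : E.𝒲) = 1 := by
      apply Subtype.ext
      have h2 : ((Matrix.det (Matrix.of fun i l => cW i l 0) : E.𝒲) : V) =
          algebraMap k V (Matrix.det (Matrix.of fun i l => c i l 0)) := by
        rw [← Subalgebra.coe_val, AlgHom.map_det, RingHom.map_det]
        rfl
      change ((Matrix.det (Matrix.of fun i l => cW i l 0) : E.𝒲) : V) * algebraMap k V c' = 1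
      rw [h2, ← map_mul, hcc, map_one]
    have h3 : E.ev 0 0 (Matrix.det (Matrix.of fun i l => cW i l 0)) =
        Matrix.det (Matrix.of fun i l => χ i l 0) := by
      rw [AlgHom.map_det]
      rfl
    rw [← h3]
    exact ChBuild_ne E _ _ h1 0 0
  let ε : Fin M → Fin (B + 1) → R := fun i j => ∑ l, χ i l j • σ l
  have hε : ∀ i l, ε i l ∈ 𝒜 m := fun i l =>
    Submodule.sum_mem _ fun j _ => Submodule.smul_mem _ _ (hσ j)
  have hεi : LinearIndependent ℂ (fun i => ε i 0) :=
    ChBuild_linInd σ hσi (Matrix.of fun i l => χ i l 0) hdetχ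
  refine ⟨ε, hε, hεi, ?_⟩
  -- bounds
  choose Cv hCv hCv' using fun i => ChBuild_bdd E ⟨v i, hv i⟩
  obtain ⟨CG, hCG, hCG'⟩ := ChBuild_bdd E vGW
  obtain ⟨cJ, hcJ, hcJ'⟩ := ChBuild_low E vJW vJW' hvJJW
  have hρ2 : E.ρ / 2 < E.ρ := by linarith [E.ρ_pos]
  -- the value of `e`
  have hval : ∀ i z p, ‖z‖ < E.ρ → ‖p‖ < E.ρ → E.ev z p (φW (famAt (ε i) z)) =
      z ^ lam i * E.ev z p ⟨v i, hv i⟩ := by
    intro i z p hz hp
    have h1 := congrArg (E.ev z p) (hlamW i)
    rw [map_mul, map_pow, E.ev_s z p hz hp, map_sum] at h1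
    rw [← h1, famAt, map_sum, map_sum]
    have h2 : ∀ l, E.ev z p ((∑ j, cW i l j * sW ^ (j : ℕ)) * φW (σ l)) =
        ∑ j : Fin (B + 1), z ^ (j : ℕ) * (χ i l j * E.ev z p (φW (σ l))) := by
      intro l
      rw [map_mul, map_sum, Finset.sum_mul]
      refine Finset.sum_congr rfl fun j _ => ?_
      rw [map_mul, map_pow, E.ev_s z p hz hp, hχ i l j z p hz hp]
      ring
    rw [Finset.sum_congr rfl fun l _ => h2 l, Finset.sum_comm]
    refine Finset.sum_congr rfl fun j _ => ?_
    rw [map_smul, map_smul, smul_eq_mul, map_sum, map_sum, Finset.mul_sum]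
    refine Finset.sum_congr rfl fun l _ => ?_
    rw [map_smul, map_smul, smul_eq_mul]
  -- the coordinates
  have hyq : ∀ b z p, E.ev z p (φW (x (a.succAbove b))) / E.ev z p (φW (x a)) =
      E.ev z p (φW (x (a.succAbove b)) * ηW) := by
    intro b z p
    have h1 : E.ev z p (φW (x a)) * E.ev z p ηW = 1 := by rw [← map_mul, haW, map_one]
    have h2 : E.ev z p (φW (x a)) ≠ 0 := ChBuild_ne E _ _ haW z p
    rw [map_mul, div_eq_iff h2, mul_assoc, mul_comm (E.ev z p ηW), h1, mul_one]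
  refine ⟨{ ρ := E.ρ / 2
            ρ_pos := by linarith [E.ρ_pos]
            pt := fun z p => (E.ev z p).comp φW
            an := fun f => (E.an (φW f)).mono (Metric.ball_subset_ball hρ2.le)
            a := a
            unit := fun z p _ _ => ChBuild_ne E _ _ haW z p
            C := CG + ∑ i, Cv i
            e_le := ?_
            G_le := ?_
            G_ne := ?_
            inj := ?_
            c := cJ
            c_pos := hcJ
            jac := ?_ }⟩
  · intro i z p hz hp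
    change ‖E.ev z p (φW (famAt (ε i) z))‖ ≤ _
    rw [hval i z p (hz.trans hρ2) (hp.trans hρ2), norm_mul, norm_pow, mul_comm]
    refine mul_le_mul_of_nonneg_right ((hCv' i z p hz hp).trans ?_) (by positivity)
    have h1 : Cv i ≤ ∑ i, Cv i :=
      Finset.single_le_sum (f := Cv) (fun j _ => (hCv j).le) (Finset.mem_univ i)
    linarith
  · intro z p hz hp
    change ‖E.ev z p (φW G)‖ ≤ _
    rw [hGW, map_mul, map_pow, E.ev_s z p (hz.trans hρ2) (hp.trans hρ2), norm_mul, norm_pow,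
      mul_comm]
    refine mul_le_mul_of_nonneg_right ((hCG' z p hz hp).trans ?_) (by positivity)
    have h1 : 0 ≤ ∑ i, Cv i := Finset.sum_nonneg fun j _ => (hCv j).le
    linarith
  · intro z p hz0 hz hp
    change E.ev z p (φW G) ≠ 0
    rw [hGW, map_mul, map_pow, E.ev_s z p (hz.trans hρ2) (hp.trans hρ2)]
    exact mul_ne_zero (pow_ne_zero _ hz0) (ChBuild_ne E _ _ hvGGW z p)
  · intro z p p' hz0 hz hp hp' heq
    refine hinj z p p' hz0 (hz.trans hρ2) (hp.trans hρ2) (hp'.trans hρ2) fun b => ?_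
    have h1 := heq b
    change E.ev z p (φW (x (a.succAbove b))) / E.ev z p (φW (x a)) =
      E.ev z p' (φW (x (a.succAbove b))) / E.ev z p' (φW (x a)) at h1
    rw [hyq, hyq] at h1
    exact h1
  · intro z p hz hp
    have hz' := hz.trans hρ2
    have hp' := hp.trans hρ2
    have h1 : (Matrix.of fun (b l : Fin n) =>
        fderiv ℂ (fun p : Fin n → ℂ => ((E.ev z p).comp φW) (x (a.succAbove b)) /
          ((E.ev z p).comp φW) (x a)) p (Pi.single l 1)) =
        Matrix.of fun (b l : Fin n) => E.ev z p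
          ⟨D l (φ (x (a.succAbove b)) * η), E.hD l _ (E.𝒲.mul_mem (hφ _) hη)⟩ := by
      ext b l
      rw [Matrix.of_apply, Matrix.of_apply, ← E.ev_D l _ (E.𝒲.mul_mem (hφ _) hη) z p hz' hp']
      congr 2
      funext p'
      exact hyq b z p'
    rw [h1]
    have h2 : Matrix.det (Matrix.of fun (b l : Fin n) => E.ev z p
          ⟨D l (φ (x (a.succAbove b)) * η), E.hD l _ (E.𝒲.mul_mem (hφ _) hη)⟩) =
        E.ev z p (sW ^ κ * vJW) := by
      have h3 : sW ^ κ * vJW = Matrix.det (Matrix.of fun (b l : Fin n) =>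
          (⟨D l (φ (x (a.succAbove b)) * η), E.hD l _ (E.𝒲.mul_mem (hφ _) hη)⟩ : E.𝒲)) := by
        apply Subtype.ext
        rw [← Subalgebra.coe_val, AlgHom.map_det]
        exact hJ.symm
      rw [h3, AlgHom.map_det]
      rfl
    rw [h2, map_mul, map_pow, E.ev_s z p hz' hp', norm_mul, norm_pow, mul_comm]
    exact mul_le_mul_of_nonneg_left (hcJ' z p hz hp) (by positivity)

end Pool.Agent.Lib_KF

end

/-! ### from `Lib_MP_e0d435_kv.IntDefs` -/

section

/-! Definitions for the integrability theorem. -/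

open MeasureTheory

namespace Pool.Agent.Lib_MP_e0d435_kv

open Pool.Agent.Lib_GD Pool.Agent.Lib_KF

variable {R : Type} [CommRing R] [Algebra ℂ R] {n M : ℕ}

/-- `∏ |ν (e i)| ^ c |ν G| ^ (1 / r)`. -/
noncomputable def fval (G : R) (r : ℕ) (e : Fin M → R) (c : ℝ) (ν : R →ₐ[ℂ] ℂ) : ℝ :=
  (∏ i, ‖ν (e i)‖ ^ c) * ‖ν G‖ ^ (1 / (r : ℝ))

/-- The level set: points of the unit polydisc with a point of the fibre of level `l`. -/
def lev (x : Fin (n + 1) → R) (G : R) (r : ℕ) (e : Fin M → R) (c : ℝ) (l : ℕ) :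
    Set (Fin (n + 1) → ℂ) :=
  {y | ‖y‖ < 1 ∧ ∃ ν ∈ fib x y, (1 / 2 : ℝ) ^ (l + 1) < fval G r e c ν ∧
    fval G r e c ν ≤ (1 / 2 : ℝ) ^ l}

end Pool.Agent.Lib_MP_e0d435_kv

end

/-! ### from `Lib_MP_e0d435_kv.IntFib` -/

section

/-! INT1: the fibres of the finite projection. -/

open MeasureTheory

namespace Pool.Agent.Lib_MP_e0d435_kv

open Pool.Agent.Lib_GD Pool.Agent.Lib_KF

variable {R : Type} [CommRing R] [Algebra ℂ R] {𝒜 : ℕ → Submodule ℂ R} [GradedAlgebra 𝒜]
  {n r d M : ℕ} {x : Fin (n + 1) → R} {G : R}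

/-- The values of the elements of the polynomial ring. -/
private theorem IntFib_eval {R : Type} [CommRing R] [Algebra ℂ R] {n : ℕ} (x : Fin (n + 1) → R)
    (c : R) (hc : c ∈ Algebra.adjoin ℂ (Set.range x)) :
    ∃ q : MvPolynomial (Fin (n + 1)) ℂ, ∀ y, ∀ ν ∈ fib x y, ν c = MvPolynomial.eval y q := by
  rw [Algebra.adjoin_range_eq_range_aeval] at hc
  obtain ⟨q, rfl⟩ := hc
  refine ⟨q, fun y ν hν => ?_⟩
  have h1 : (fun b => ν (x b)) = y := funext hν
  change ν (MvPolynomial.aeval x q) = _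
  rw [MvPolynomial.comp_aeval_apply, h1, MvPolynomial.aeval_eq_eval]

/-- Proof: `R` is generated as a module over `ℂ[x]` by `m_1, …, m_D`; different `ν` in the same
fibre are linearly independent functions on `R` (`linearIndependent_monoidHom`) and a function in
the span of the fibre is determined by its values at the `m_i`; so the fibre has at most `D`
elements. -/
theorem fib_card (h : IsFano 𝒜 n r d x G) :
    ∃ D : ℕ, ∀ y, (fib x y).Finite ∧ (fib x y).ncard ≤ D := by
  classical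
  have hfin := h.x_finite
  obtain ⟨s, hs⟩ := hfin.fg_top
  refine ⟨s.card, fun y => ?_⟩
  have hli : LinearIndependent ℂ (fun ν : fib x y => fun m : s => ν.1 (m : R)) := by
    have h1 : LinearIndependent ℂ (fun ν : fib x y => (fun f : R => ν.1 f)) := by
      have h2 := linearIndependent_monoidHom R ℂ
      have h3 := h2.comp (fun ν : fib x y => ((ν.1 : R →+* ℂ) : R →* ℂ)) (by
        intro ν ν' hνν
        apply Subtype.ext
        ext f
        exact DFunLike.congr_fun hνν f)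
      exact h3
    rw [linearIndependent_iff'] at h1 ⊢
    intro t g hg
    refine h1 t g ?_
    ext f
    have hf : f ∈ Submodule.span (Algebra.adjoin ℂ (Set.range x)) (s : Set R) := by
      rw [hs]; exact Submodule.mem_top
    simp only [Finset.sum_apply, Pi.smul_apply, smul_eq_mul, Pi.zero_apply]
    induction hf using Submodule.span_induction with
    | mem m hm =>
      have := congrFun hg ⟨m, hm⟩
      simpa only [Finset.sum_apply, Pi.smul_apply, smul_eq_mul, Pi.zero_apply] using this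
    | zero => simp
    | add a b _ _ ha hb =>
      simp only [map_add, mul_add, Finset.sum_add_distrib, ha, hb, add_zero]
    | smul p f _ hf =>
      obtain ⟨q, hq⟩ := IntFib_eval x p.1 p.2
      have h4 : ∀ ν ∈ t, g ν * ν.1 (p • f) = MvPolynomial.eval y q * (g ν * ν.1 f) := by
        intro ν _
        rw [Subalgebra.smul_def, smul_eq_mul, map_mul, hq y ν.1 ν.2]
        ring
      rw [Finset.sum_congr rfl h4, ← Finset.mul_sum, hf, mul_zero]
  have hF : Finite (fib x y) := hli.finite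
  refine ⟨Set.toFinite _, ?_⟩
  have : Fintype (fib x y) := Fintype.ofFinite _
  have h5 := hli.fintype_card_le_finrank
  rw [Module.finrank_fintype_fun_eq_card, Fintype.card_coe] at h5
  rw [← Nat.card_coe_set_eq, Nat.card_eq_fintype_card]
  exact h5

/-- The bound for the roots of a monic polynomial. -/
private theorem IntFib_root (N : ℕ) (a : ℕ → ℂ) (z : ℂ)
    (hz : z ^ N + ∑ i ∈ Finset.range N, a i * z ^ i = 0) :
    ‖z‖ ≤ 1 + ∑ i ∈ Finset.range N, ‖a i‖ := by
  by_contra hcon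
  push Not at hcon
  set S := ∑ i ∈ Finset.range N, ‖a i‖ with hS
  have hS0 : 0 ≤ S := Finset.sum_nonneg fun i _ => norm_nonneg _
  have h1 : 1 ≤ ‖z‖ := by linarith
  rcases Nat.eq_zero_or_pos N with h0 | hN
  · subst h0
    simp at hz
  have h2 : ‖z‖ ^ N ≤ S * ‖z‖ ^ (N - 1) := by
    have h3 : z ^ N = -∑ i ∈ Finset.range N, a i * z ^ i := by linear_combination hz
    calc ‖z‖ ^ N = ‖z ^ N‖ := (norm_pow _ _).symm
      _ = ‖∑ i ∈ Finset.range N, a i * z ^ i‖ := by rw [h3, norm_neg]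
      _ ≤ ∑ i ∈ Finset.range N, ‖a i * z ^ i‖ := norm_sum_le _ _
      _ ≤ ∑ i ∈ Finset.range N, ‖a i‖ * ‖z‖ ^ (N - 1) := by
          refine Finset.sum_le_sum fun i hi => ?_
          rw [norm_mul, norm_pow]
          refine mul_le_mul_of_nonneg_left ?_ (norm_nonneg _)
          have : i ≤ N - 1 := by
            have := Finset.mem_range.1 hi
            omega
          exact pow_le_pow_right₀ h1 this
      _ = S * ‖z‖ ^ (N - 1) := by rw [hS, Finset.sum_mul]
  have h4 : ‖z‖ ^ N = ‖z‖ * ‖z‖ ^ (N - 1) := by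
    rw [← pow_succ', Nat.sub_add_cancel hN]
  rw [h4] at h2
  have h5 : ‖z‖ ≤ S := le_of_mul_le_mul_right h2 (by positivity)
  linarith

/-- Proof: `f` has a monic equation over `ℂ[x]`, whose coefficients at `y` are bounded for `y` in
a bounded set (`Polynomial.cauchyBound` or directly `|ν f| ≤ 1 + ∑ |a_i(y)|`). -/
theorem fib_bounded (h : IsFano 𝒜 n r d x G) (f : R) (ρ : ℝ) :
    ∃ C : ℝ, ∀ y, ‖y‖ ≤ ρ → ∀ ν ∈ fib x y, ‖ν f‖ ≤ C := by
  have hfin := h.x_finite
  obtain ⟨p, hp, hpf⟩ :=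
    (Algebra.IsIntegral.of_finite (Algebra.adjoin ℂ (Set.range x)) R).isIntegral f
  choose q hq using fun i : ℕ => IntFib_eval x (p.coeff i : R) (p.coeff i).2
  have hC : ∀ i : ℕ, ∃ C : ℝ, ∀ y ∈ Metric.closedBall (0 : Fin (n + 1) → ℂ) ρ,
      ‖MvPolynomial.eval y (q i)‖ ≤ C := fun i =>
    (isCompact_closedBall _ _).exists_bound_of_continuousOn
      (MvPolynomial.continuous_eval (q i)).continuousOn
  choose C hC using hC
  refine ⟨1 + ∑ i ∈ Finset.range p.natDegree, C i, fun y hy ν hν => ?_⟩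
  have h1 : ν f ^ p.natDegree + ∑ i ∈ Finset.range p.natDegree,
      MvPolynomial.eval y (q i) * ν f ^ i = 0 := by
    have h2 := congrArg ν hpf
    rw [Polynomial.eval₂_eq_sum_range, Finset.sum_range_succ, map_add, map_sum, map_zero,
      map_mul, map_pow] at h2
    have h3 : p.coeff p.natDegree = 1 := hp
    rw [h3, map_one, map_one, one_mul, add_comm] at h2
    rw [← h2]
    congr 1
    refine Finset.sum_congr rfl fun i _ => ?_
    rw [map_mul, map_pow]
    congr 1
    exact (hq i y ν hν).symm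
  refine (IntFib_root _ _ _ h1).trans ?_
  gcongr with i hi
  exact hC i y (by rwa [mem_closedBall_zero_iff])

/-- Proof: let `y_i → y`, `ν_i ∈ fib x y_i`, `f(ν_i) ∈ T`. `R` is generated as an algebra by
finitely many `g_j` (`x_finite`), and the `ν_i(g_j)` are bounded (`fib_bounded`); for a convergent
subsequence the limits `z_j` define `ν : R → ℂ` (a relation between the `g_j` holds in the limit;
use a surjection `MvPolynomial (Fin p) ℂ → R` and its kernel), `ν ∈ fib x y`, and
`f(ν) = lim f(ν_i) ∈ T`. -/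
theorem isClosed_fib (h : IsFano 𝒜 n r d x G) {J : ℕ} (f : Fin J → R) (T : Set (Fin J → ℂ))
    (hT : IsClosed T) : IsClosed {y | ∃ ν ∈ fib x y, (fun j => ν (f j)) ∈ T} := by
  classical
  have hfin := h.x_finite
  have hft : Algebra.FiniteType ℂ R := by
    have h1 : Algebra.FiniteType ℂ (Algebra.adjoin ℂ (Set.range x)) :=
      ⟨(Subalgebra.fg_top _).2 (Subalgebra.fg_def.2 ⟨_, Set.finite_range x, rfl⟩)⟩
    have h2 : Algebra.FiniteType (Algebra.adjoin ℂ (Set.range x)) R := inferInstance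
    exact Algebra.FiniteType.trans h1 h2
  obtain ⟨p, Ψ, hΨ⟩ := Algebra.FiniteType.iff_quotient_mvPolynomial''.1 hft
  choose X hX using fun b => hΨ (x b)
  choose F hF using fun j => hΨ (f j)
  -- the closed set of pairs
  let Z : Set ((Fin (n + 1) → ℂ) × (Fin p → ℂ)) :=
    {w | (∀ g : MvPolynomial (Fin p) ℂ, Ψ g = 0 → MvPolynomial.eval w.2 g = 0) ∧
      (∀ b, MvPolynomial.eval w.2 (X b) = w.1 b) ∧ (fun j => MvPolynomial.eval w.2 (F j)) ∈ T}
  have hev : ∀ g : MvPolynomial (Fin p) ℂ,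
      Continuous (fun w : (Fin (n + 1) → ℂ) × (Fin p → ℂ) => MvPolynomial.eval w.2 g) :=
    fun g => (MvPolynomial.continuous_eval g).comp continuous_snd
  have hZ : IsClosed Z := by
    refine IsClosed.inter ?_ (IsClosed.inter ?_ ?_)
    · have : {w : (Fin (n + 1) → ℂ) × (Fin p → ℂ) |
          ∀ g : MvPolynomial (Fin p) ℂ, Ψ g = 0 → MvPolynomial.eval w.2 g = 0} =
          ⋂ g : MvPolynomial (Fin p) ℂ, ⋂ _ : Ψ g = 0,
            {w | MvPolynomial.eval w.2 g = 0} := by
        ext w; simp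
      change IsClosed {w : (Fin (n + 1) → ℂ) × (Fin p → ℂ) |
          ∀ g : MvPolynomial (Fin p) ℂ, Ψ g = 0 → MvPolynomial.eval w.2 g = 0}
      rw [this]
      exact isClosed_iInter fun g => isClosed_iInter fun _ =>
        isClosed_eq (hev g) continuous_const
    · have : {w : (Fin (n + 1) → ℂ) × (Fin p → ℂ) |
          ∀ b, MvPolynomial.eval w.2 (X b) = w.1 b} =
          ⋂ b, {w | MvPolynomial.eval w.2 (X b) = w.1 b} := by
        ext w; simp
      change IsClosed {w : (Fin (n + 1) → ℂ) × (Fin p → ℂ) |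
          ∀ b, MvPolynomial.eval w.2 (X b) = w.1 b}
      rw [this]
      exact isClosed_iInter fun b =>
        isClosed_eq (hev (X b)) ((continuous_apply b).comp continuous_fst)
    · exact hT.preimage (continuous_pi fun j => hev (F j))
  -- points of the fibre and points of `Z`
  have hνZ : ∀ y, ∀ ν ∈ fib x y, (fun j => ν (f j)) ∈ T →
      (y, fun i => ν (Ψ (MvPolynomial.X i))) ∈ Z := by
    intro y ν hν hνT
    have h1 : ∀ g, MvPolynomial.eval (fun i => ν (Ψ (MvPolynomial.X i))) g = ν (Ψ g) := by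
      intro g
      have h2 : MvPolynomial.aeval (fun i => ν (Ψ (MvPolynomial.X i))) = ν.comp Ψ := by
        ext i
        simp
      rw [← MvPolynomial.aeval_eq_eval, h2]
      rfl
    refine ⟨fun g hg => ?_, fun b => ?_, ?_⟩
    · change MvPolynomial.eval (fun i => ν (Ψ (MvPolynomial.X i))) g = 0
      rw [h1, hg, map_zero]
    · change MvPolynomial.eval (fun i => ν (Ψ (MvPolynomial.X i))) (X b) = y b
      rw [h1, hX, hν b]
    · change (fun j => MvPolynomial.eval (fun i => ν (Ψ (MvPolynomial.X i))) (F j)) ∈ T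
      simp only [h1, hF]
      exact hνT
  have hZν : ∀ y z, (y, z) ∈ Z → ∃ ν ∈ fib x y, (fun j => ν (f j)) ∈ T := by
    rintro y z ⟨h1, h2, h3⟩
    have hker : RingHom.ker Ψ.toRingHom ≤
        RingHom.ker (MvPolynomial.aeval z : MvPolynomial (Fin p) ℂ →ₐ[ℂ] ℂ).toRingHom := by
      intro g hg
      rw [RingHom.mem_ker] at hg ⊢
      change MvPolynomial.aeval z g = 0
      rw [MvPolynomial.aeval_eq_eval]
      exact h1 g hg
    have h4 : ∀ g, AlgHom.liftOfSurjective Ψ hΨ (MvPolynomial.aeval z) hker (Ψ g) =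
        MvPolynomial.eval z g := by
      intro g
      rw [AlgHom.liftOfSurjective_apply, MvPolynomial.aeval_eq_eval]
    refine ⟨AlgHom.liftOfSurjective Ψ hΨ (MvPolynomial.aeval z) hker, fun b => ?_, ?_⟩
    · rw [← hX b, h4]
      exact h2 b
    · simp only [← hF, h4]
      exact h3
  refine IsSeqClosed.isClosed ?_
  intro y y₀ hy hlim
  choose ν hν hνT using hy
  -- boundedness
  obtain ⟨ρ, hρ⟩ := (Metric.isBounded_range_of_tendsto y hlim).exists_norm_le
  choose C hC using fun i : Fin p => fib_bounded h (Ψ (MvPolynomial.X i)) ρ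
  let z : ℕ → Fin p → ℂ := fun m i => ν m (Ψ (MvPolynomial.X i))
  have hz : ∀ m, z m ∈ Metric.closedBall (0 : Fin p → ℂ) (∑ i, |C i|) := by
    intro m
    rw [mem_closedBall_zero_iff, pi_norm_le_iff_of_nonneg
      (Finset.sum_nonneg fun i _ => abs_nonneg _)]
    intro i
    refine (hC i (y m) (hρ _ ⟨m, rfl⟩) (ν m) (hν m)).trans ((le_abs_self _).trans ?_)
    exact Finset.single_le_sum (f := fun i => |C i|) (fun i _ => abs_nonneg _)
      (Finset.mem_univ i)
  obtain ⟨z₀, -, φ, hφ, hzlim⟩ := (isCompact_closedBall _ _).tendsto_subseq hz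
  refine hZν y₀ z₀ ?_
  refine hZ.mem_of_tendsto ((hlim.comp hφ.tendsto_atTop).prodMk_nhds hzlim)
    (Filter.Eventually.of_forall fun m => ?_)
  exact hνZ _ _ (hν (φ m)) (hνT (φ m))

/-- Proof: `fval` is a continuous function of the values of `ν` at `e i` and `G`
(`c > 0`, `1 / r > 0`); the level set is the intersection of the open unit ball with the union over
`k` of the closed sets (`isClosed_fib`)
`{∃ ν, 2^(-l-1) + 1/(k+1) ≤ fval ν ≤ 2^(-l)}`. -/
theorem measurableSet_lev (h : IsFano 𝒜 n r d x G) (e : Fin M → R) (c : ℝ) (hc : 0 < c) (l : ℕ) :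
    MeasurableSet (lev x G r e c l) := by
  have hr : (0 : ℝ) < 1 / (r : ℝ) := by
    have : (0 : ℝ) < r := by exact_mod_cast h.r_pos
    positivity
  let φ : (Fin (M + 1) → ℂ) → ℝ := fun w => (∏ i : Fin M, ‖w i.succ‖ ^ c) * ‖w 0‖ ^ (1 / (r : ℝ))
  have hφ : Continuous φ := by
    refine Continuous.mul ?_ ?_
    · refine continuous_finsetProd _ fun i _ => ?_
      exact (continuous_apply _).norm.rpow_const fun _ => Or.inr hc.le
    · exact (continuous_apply _).norm.rpow_const fun _ => Or.inr hr.le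
  let f : Fin (M + 1) → R := Fin.cons G e
  have hφf : ∀ ν : R →ₐ[ℂ] ℂ, fval G r e c ν = φ (fun j => ν (f j)) := by
    intro ν
    simp [fval, φ, f]
  have hset : lev x G r e c l = Metric.ball (0 : Fin (n + 1) → ℂ) 1 ∩
      ⋃ k : ℕ, {y | ∃ ν ∈ fib x y, (fun j => ν (f j)) ∈
        {w : Fin (M + 1) → ℂ | (1 / 2 : ℝ) ^ (l + 1) + 1 / ((k : ℝ) + 1) ≤ φ w ∧
          φ w ≤ (1 / 2 : ℝ) ^ l}} := by
    ext y
    simp only [lev, Set.mem_inter_iff, mem_ball_zero_iff, Set.mem_iUnion, Set.mem_ofPred_eq]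
    refine and_congr_right fun _ => ?_
    constructor
    · rintro ⟨ν, hν, h1, h2⟩
      obtain ⟨k, hk⟩ := exists_nat_one_div_lt (sub_pos.2 h1)
      refine ⟨k, ν, hν, ?_, ?_⟩
      · rw [← hφf]; linarith
      · rw [← hφf]; exact h2
    · rintro ⟨k, ν, hν, h1, h2⟩
      refine ⟨ν, hν, ?_, ?_⟩
      · rw [hφf]
        have : (0 : ℝ) < 1 / ((k : ℝ) + 1) := by positivity
        linarith
      · rw [hφf]; exact h2
  rw [hset]
  refine Metric.isOpen_ball.measurableSet.inter (MeasurableSet.iUnion fun k => ?_)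
  refine (isClosed_fib h f _ ?_).measurableSet
  exact (isClosed_le continuous_const hφ).inter (isClosed_le hφ continuous_const)

end Pool.Agent.Lib_MP_e0d435_kv

end
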