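import Mathlib
import Pool.Agent.Lib_MP_e0d435_m.G02
import Pool.Agent.Lib_MP_e0d435_m.G03
import Pool.Agent.Lib_MP_e0d435_m.G04
import Pool.Agent.Lib_MP_e0d435_m.G07
import Pool.Agent.Lib_MP_e0d435_m.G08
import Pool.Agent.Lib_MP_e0d435_m.G10
import Pool.Agent.Lib_MP_e0d435_m.G12

/-!
# MP_e0d435_ag: merged library part G15

Concatenation of library files (each in its own section), only to save build time.
-/

/-! ### from `Lib_GD.ProdArc` -/

section

/-! P01: independent arcs of a divisorial valuation ring. -/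

open PowerSeries

namespace Pool.Agent.Lib_GD

private theorem ProdArc_res_t (V : Type) [CommRing V] [IsDomain V] [IsDiscreteValuationRing V]
    (t : V) (ht : Irreducible t) : IsLocalRing.residue V t = 0 := by
  rw [IsLocalRing.residue_eq_zero_iff, ht.maximalIdeal_eq]
  exact Ideal.mem_span_singleton_self t

/-- P01a: the residue field of `V` is algebraic over the field generated by the residues of the
coordinates `w_l` (these are algebraically independent, by P01b). -/
theorem residue_isAlgebraic (V : Type) [CommRing V] [IsDomain V] [IsDiscreteValuationRing V]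
    [Algebra ℂ V] (r : ℕ) (t : V) (w : Fin r → V) (ht : Irreducible t)
    (b : Module.Basis (Option (Fin r)) V (KaehlerDifferential ℂ V))
    (hb : b none = KaehlerDifferential.D ℂ V t)
    (hb' : ∀ l, b (some l) = KaehlerDifferential.D ℂ V (w l))
    (f : IsLocalRing.ResidueField V) :
    IsAlgebraic (IntermediateField.adjoin ℂ (Set.range fun l => IsLocalRing.residue V (w l))) f := by
  obtain ⟨δt, δ, h1, h2, h3, h4, h5, h6, h7⟩ := exists_dvr_der V r t w b hb hb'
  refine isAlgebraic_of_derivation (L := IsLocalRing.ResidueField V)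
    (fun l => IsLocalRing.residue V (w l)) f fun d hd => ?_
  obtain ⟨g, rfl⟩ := IsLocalRing.residue_surjective (R := V) f
  let D : Derivation ℂ V (IsLocalRing.ResidueField V) := d.compAlgebraMap V
  have hD : ∀ x, D x = d (IsLocalRing.residue V x) := fun x => rfl
  have h8 := congrArg D.liftKaehlerDifferential (h5 g)
  rw [map_add, map_sum, map_smul, Derivation.liftKaehlerDifferential_comp_D,
    Derivation.liftKaehlerDifferential_comp_D] at h8
  rw [← hD, h8, hD t, ProdArc_res_t V t ht, map_zero, smul_zero, zero_add]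
  refine Finset.sum_eq_zero fun l _ => ?_
  rw [map_smul, Derivation.liftKaehlerDifferential_comp_D, hD, hd l, smul_zero]

/-- P01b: the residues of the coordinates are algebraically independent. -/
theorem residue_algInd (V : Type) [CommRing V] [IsDomain V] [IsDiscreteValuationRing V]
    [Algebra ℂ V] (r : ℕ) (t : V) (w : Fin r → V) (ht : Irreducible t)
    (b : Module.Basis (Option (Fin r)) V (KaehlerDifferential ℂ V))
    (hb : b none = KaehlerDifferential.D ℂ V t)
    (hb' : ∀ l, b (some l) = KaehlerDifferential.D ℂ V (w l)) :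
    AlgebraicIndependent ℂ (fun l => IsLocalRing.residue V (w l)) := by
  obtain ⟨δt, δ, h1, h2, h3, h4, h5, h6, h7⟩ := exists_dvr_der V r t w b hb hb'
  have hex : ∀ l, ∃ e : Derivation ℂ (IsLocalRing.ResidueField V) (IsLocalRing.ResidueField V),
      ∀ f, e (algebraMap V (IsLocalRing.ResidueField V) f) =
        algebraMap V (IsLocalRing.ResidueField V) (δ l f) := by
    intro l
    refine genericArc_desc (V := V) (κ := IsLocalRing.ResidueField V)
      IsLocalRing.residue_surjective (δ l) ?_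
    intro f hf
    have hf' : f ∈ IsLocalRing.maximalIdeal V := by
      rw [← IsLocalRing.residue_eq_zero_iff]; exact hf
    rw [ht.maximalIdeal_eq, Ideal.mem_span_singleton] at hf'
    obtain ⟨g, rfl⟩ := hf'
    rw [Derivation.leibniz, h3, smul_zero, add_zero, smul_eq_mul, map_mul]
    have : algebraMap V (IsLocalRing.ResidueField V) t = 0 := ProdArc_res_t V t ht
    rw [this, zero_mul]
  choose e he using hex
  refine genericArc_algInd e ?_ _ ?_
  · intro l k x
    obtain ⟨f, rfl⟩ := IsLocalRing.residue_surjective (R := V) x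
    change e l (e k (algebraMap V (IsLocalRing.ResidueField V) f)) =
      e k (e l (algebraMap V (IsLocalRing.ResidueField V) f))
    rw [he, he, he, he, h7]
  · intro l k
    change e l (algebraMap V (IsLocalRing.ResidueField V) (w k)) = _
    rw [he, h4]
    split_ifs <;> simp

/-- One arc at a point of the residue field. -/
private theorem ProdArc_one (V : Type) [CommRing V] [IsDomain V] [IsDiscreteValuationRing V]
    [Algebra ℂ V] (t : V) (ht : Irreducible t) (δt : Derivation ℂ V V) (h1 : δt t = 1)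
    {L : Type} [Field L] [Algebra ℂ L] (x : V →ₐ[ℂ] L) (hxt : x t = 0) (c : L) (hc0 : c ≠ 0) :
    ∃ Φ : V →ₐ[ℂ] L⟦X⟧, (∀ f, (Φ f).order = IsDiscreteValuationRing.addVal V f) ∧
      coeff 1 (Φ t) = c ∧ ∀ f, constantCoeff (Φ f) = x f := by
  classical
  let der : Fin 1 → Derivation ℂ V V := fun _ => δt
  have hc : ∀ l k b, der l (der k b) = der k (der l b) := fun _ _ _ => rfl
  have hy : ∀ l k, der l ((fun _ : Fin 1 => t) k) = if l = k then 1 else 0 := by
    intro l k
    rw [if_pos (Subsingleton.elim l k)]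
    exact h1
  let a : Fin 1 → L⟦X⟧ := fun _ => C c * X
  have ha0 : ∀ k, MvPowerSeries.constantCoeff (a k) = 0 := by
    intro k
    change PowerSeries.constantCoeff (C c * X : L⟦X⟧) = 0
    rw [map_mul, constantCoeff_X, mul_zero]
  have ha : MvPowerSeries.HasSubst a := MvPowerSeries.hasSubst_of_constantCoeff_zero ha0
  let sb : MvPowerSeries (Fin 1) L →ₐ[L] L⟦X⟧ := MvPowerSeries.substAlgHom ha
  let Φ : V →ₐ[ℂ] L⟦X⟧ := (sb.restrictScalars ℂ).comp (taylorG der hc x)
  have hsbC : ∀ c : L, sb (MvPowerSeries.C c) = C c := by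
    intro c
    exact sb.commutes c
  have hΦt : Φ t = C c * X := by
    change sb (taylorG der hc x ((fun _ : Fin 1 => t) 0)) = _
    rw [genericArc_taylor_coord der hc (fun _ : Fin 1 => t) hy x 0, map_add, hsbC, hxt, map_zero,
      zero_add]
    exact MvPowerSeries.substAlgHom_X ha 0
  have hΦ0 : ∀ f, constantCoeff (Φ f) = x f := by
    intro f
    have e1 : MvPowerSeries.constantCoeff (taylorG der hc x f) = x f := by
      rw [← MvPowerSeries.coeff_zero_eq_constantCoeff_apply, coeff_taylorG, tayG, ddG_zero]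
      simp
    have e2 : Φ f = sb (taylorG der hc x f - MvPowerSeries.C (x f)) + C (x f) := by
      rw [map_sub, hsbC, sub_add_cancel]
      rfl
    rw [e2, map_add, constantCoeff_C]
    have e3 : MvPowerSeries.constantCoeff (taylorG der hc x f - MvPowerSeries.C (x f)) = 0 := by
      rw [map_sub, e1, MvPowerSeries.constantCoeff_C, sub_self]
    have e4 := MvPowerSeries.constantCoeff_subst_eq_zero ha ha0 e3
    have e5 : constantCoeff (sb (taylorG der hc x f - MvPowerSeries.C (x f))) = 0 := by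
      change MvPowerSeries.constantCoeff (sb _) = 0
      rw [← e4]
      congr 1
      exact congrFun (MvPowerSeries.coe_substAlgHom ha) _
    rw [e5, zero_add]
  refine ⟨Φ, ?_, ?_, hΦ0⟩
  · have hot : (Φ t).order = 1 := by
      rw [hΦt]
      have : ((1 : ℕ) : ℕ∞) = 1 := rfl
      rw [← this, PowerSeries.order_eq_nat]
      constructor
      · rw [coeff_C_mul, coeff_one_X, mul_one]
        exact hc0
      · intro i hi
        have : i = 0 := by omega
        subst this
        simp
    intro f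
    by_cases hf : f = 0
    · subst hf; simp
    · obtain ⟨k, u, rfl⟩ := IsDiscreteValuationRing.eq_unit_mul_pow_irreducible hf ht
      have hu : (Φ u).order = 0 := by
        have h := hΦ0 (u : V)
        have hxu : x (u : V) ≠ 0 := (u.isUnit.map x).ne_zero
        have : ((0 : ℕ) : ℕ∞) = 0 := rfl
        rw [← this, PowerSeries.order_eq_nat]
        refine ⟨?_, fun i hi => absurd hi (Nat.not_lt_zero i)⟩
        rw [coeff_zero_eq_constantCoeff_apply, h]
        exact hxu
      rw [map_mul, map_pow, PowerSeries.order_mul, PowerSeries.order_pow, hot, hu]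
      rw [IsDiscreteValuationRing.addVal_def _ u ht k rfl]
      simp
  · rw [hΦt, coeff_C_mul, coeff_one_X, mul_one]

/-- Embeddings of a field with prescribed values on a transcendence basis. -/
private theorem ProdArc_embed {κ L : Type} [Field κ] [Field L] [Algebra ℂ κ] [Algebra ℂ L]
    [IsAlgClosed L] {r : ℕ} (x : Fin r → κ) (hx : AlgebraicIndependent ℂ x)
    (halg : ∀ f : κ, IsAlgebraic (IntermediateField.adjoin ℂ (Set.range x)) f)
    (z : Fin r → L) (hz : AlgebraicIndependent ℂ z) : ∃ φ : κ →ₐ[ℂ] L, ∀ l, φ (x l) = z l := by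
  have : Algebra.IsAlgebraic (IntermediateField.adjoin ℂ (Set.range x)) κ := ⟨halg⟩
  let g : FractionRing (MvPolynomial (Fin r) ℂ) →ₐ[ℂ] L :=
    IsFractionRing.liftAlgHom (K := FractionRing (MvPolynomial (Fin r) ℂ))
      (algebraicIndependent_iff_injective_aeval.2 hz)
  let f : IntermediateField.adjoin ℂ (Set.range x) →ₐ[ℂ] L := g.comp hx.aevalEquivField.symm.toAlgHom
  obtain ⟨φ, hφ⟩ := IsAlgClosed.surjective_domRestrict_of_isAlgebraic (K := ℂ)
    (L := IntermediateField.adjoin ℂ (Set.range x)) (M := L) (E := κ) f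
  refine ⟨φ, fun l => ?_⟩
  have h1 : hx.aevalEquivField.symm ⟨x l, IntermediateField.subset_adjoin ℂ _ ⟨l, rfl⟩⟩ =
      algebraMap (MvPolynomial (Fin r) ℂ) (FractionRing (MvPolynomial (Fin r) ℂ))
        (MvPolynomial.X l) := by
    rw [AlgEquiv.symm_apply_eq]
    apply Subtype.ext
    rw [hx.aevalEquivField_algebraMap_apply_coe, MvPolynomial.aeval_X]
  have h2 : φ (x l) = f ⟨x l, IntermediateField.subset_adjoin ℂ _ ⟨l, rfl⟩⟩ := by
    rw [← hφ]
    rfl
  rw [h2]
  change g (hx.aevalEquivField.symm _) = z l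
  rw [h1]
  simp [g]

/-- P01: `N` arcs `Φ_j : V → L⟦X⟧` with `ord Φ_j = v`, `Φ_{j₀} t = X + …`, such that the leading
coefficients of `Φ_j t` (`j ≠ j₀`) and the constant coefficients of the `Φ_j w_l` are
algebraically independent. Construction: `L` an algebraic closure of `ℂ(a_j, z_{j,l})`, embeddings
`ι_j : κ → L` of the residue field with `w_l ↦ z_{j,l}`, and
`Φ_j f = ∑ ι_j (residue of δt ^ k f) / k! (a_j X)^k`, `a_{j₀} = 1`. -/
theorem exists_product_arcs (V : Type) [CommRing V] [IsDomain V] [IsDiscreteValuationRing V]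
    [Algebra ℂ V] (r : ℕ) (t : V) (w : Fin r → V) (ht : Irreducible t)
    (b : Module.Basis (Option (Fin r)) V (KaehlerDifferential ℂ V))
    (hb : b none = KaehlerDifferential.D ℂ V t)
    (hb' : ∀ l, b (some l) = KaehlerDifferential.D ℂ V (w l)) (N : ℕ) (j₀ : Fin N) :
    ∃ (L : Type) (_ : Field L) (_ : Algebra ℂ L) (Φ : Fin N → (V →ₐ[ℂ] L⟦X⟧)),
      (∀ j f, (Φ j f).order = IsDiscreteValuationRing.addVal V f) ∧
      coeff 1 (Φ j₀ t) = 1 ∧
      AlgebraicIndependent ℂ (Sum.elim (fun j : {j : Fin N // j ≠ j₀} => coeff 1 (Φ j t))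
        (fun p : Fin N × Fin r => constantCoeff (Φ p.1 (w p.2)))) := by
  classical
  obtain ⟨δt, δ, h1, h2, h3, h4, h5, h6, h7⟩ := exists_dvr_der V r t w b hb hb'
  let σ : Type := {j : Fin N // j ≠ j₀} ⊕ (Fin N × Fin r)
  let K : Type := FractionRing (MvPolynomial σ ℂ)
  let L : Type := AlgebraicClosure K
  let z : σ → L := fun s => algebraMap K L (algebraMap (MvPolynomial σ ℂ) K (MvPolynomial.X s))
  have hz : AlgebraicIndependent ℂ z := by
    have h8 := (MvPolynomial.algebraicIndependent_X σ ℂ).map'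
      (f := (IsScalarTower.toAlgHom ℂ K L).comp (IsScalarTower.toAlgHom ℂ (MvPolynomial σ ℂ) K))
      ((algebraMap K L).injective.comp (IsFractionRing.injective (MvPolynomial σ ℂ) K))
    exact h8
  have hemb : ∀ j : Fin N, ∃ φ : IsLocalRing.ResidueField V →ₐ[ℂ] L,
      ∀ l, φ (IsLocalRing.residue V (w l)) = z (Sum.inr (j, l)) := by
    intro j
    refine ProdArc_embed (fun l => IsLocalRing.residue V (w l))
      (residue_algInd V r t w ht b hb hb') (residue_isAlgebraic V r t w ht b hb hb')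
      (fun l => z (Sum.inr (j, l))) (hz.comp _ fun l l' h => ?_)
    exact (Prod.mk.inj (Sum.inr.inj h)).2
  choose φ hφ using hemb
  let x : Fin N → (V →ₐ[ℂ] L) := fun j =>
    (φ j).comp (IsScalarTower.toAlgHom ℂ V (IsLocalRing.ResidueField V))
  have hx : ∀ j f, x j f = φ j (IsLocalRing.residue V f) := fun _ _ => rfl
  let c : Fin N → L := fun j => if h : j = j₀ then 1 else z (Sum.inl ⟨j, h⟩)
  have hc : ∀ j, c j ≠ 0 := by
    intro j
    by_cases h : j = j₀
    · simp [c, h]
    · simp only [c, dif_neg h]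
      exact hz.ne_zero _
  have harc : ∀ j, ∃ Φ : V →ₐ[ℂ] L⟦X⟧,
      (∀ f, (Φ f).order = IsDiscreteValuationRing.addVal V f) ∧
      coeff 1 (Φ t) = c j ∧ ∀ f, constantCoeff (Φ f) = x j f := fun j =>
    ProdArc_one V t ht δt h1 (x j) (by rw [hx, ProdArc_res_t V t ht, map_zero]) (c j) (hc j)
  choose Φ hΦ1 hΦ2 hΦ3 using harc
  refine ⟨L, inferInstance, inferInstance, Φ, hΦ1, ?_, ?_⟩
  · rw [hΦ2]
    simp [c]
  · have h8 : Sum.elim (fun j : {j : Fin N // j ≠ j₀} => coeff 1 (Φ j t))
        (fun p : Fin N × Fin r => constantCoeff (Φ p.1 (w p.2))) = z := by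
      funext s
      rcases s with j | p
      · rw [Sum.elim_inl, hΦ2]
        simp only [c, dif_neg j.2]
      · rw [Sum.elim_inr, hΦ3, hx, hφ]
    rw [h8]
    exact hz

end Pool.Agent.Lib_GD

end

/-! ### from `Lib_GD.ProdLen` -/

section

/-! P05: the length of the differentials of the product valuation ring. -/

namespace Pool.Agent.Lib_GD

private theorem ProdLen_add {V : Type} [CommRing V] {Q : Type} [AddCommGroup Q] [Module V Q]
    (N : Submodule V Q) : Module.length V Q = Module.length V N + Module.length V (Q ⧸ N) :=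
  Module.length_eq_add_of_exact N.subtype N.mkQ N.injective_subtype N.mkQ_surjective
    (LinearMap.exact_subtype_mkQ N)

/-- a cyclic module killed by a uniformiser has length at most one -/
private theorem ProdLen_cyclic {V : Type} [CommRing V] [IsDomain V] [IsDiscreteValuationRing V]
    (t : V) (ht : Irreducible t) {Q : Type} [AddCommGroup Q] [Module V Q] (x : Q)
    (hx : Submodule.span V {x} = ⊤) (hk : t • x = 0) : Module.length V Q ≤ 1 := by
  let f : (V ⧸ Ideal.span {t}) →ₗ[V] Q := Submodule.liftQ _ (LinearMap.toSpanSingleton V Q x) (by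
    intro a ha
    rw [Ideal.mem_span_singleton] at ha
    obtain ⟨c, rfl⟩ := ha
    rw [LinearMap.mem_ker, LinearMap.toSpanSingleton_apply, mul_comm, mul_smul, hk, smul_zero])
  have hf : Function.Surjective f := by
    intro y
    have hy : y ∈ Submodule.span V {x} := by rw [hx]; exact Submodule.mem_top
    obtain ⟨a, rfl⟩ := Submodule.mem_span_singleton.1 hy
    exact ⟨Submodule.Quotient.mk a, rfl⟩
  refine (Module.length_le_of_surjective f hf).trans ?_
  have hmax : (Ideal.span {t} : Ideal V).IsMaximal := by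
    rw [← ht.maximalIdeal_eq]
    infer_instance
  have : IsSimpleModule V (V ⧸ Ideal.span {t}) := by
    rw [isSimpleModule_iff_isCoatom]
    exact Ideal.isMaximal_def.1 hmax
  rw [Module.length_eq_one]

/-- P05a: length does not increase under base change between discrete valuation rings if a
uniformiser maps to a uniformiser (in the form: `g : Q → Q'` semilinear whose image generates). -/
theorem length_semilinear_le {V V' : Type} [CommRing V] [IsDomain V] [IsDiscreteValuationRing V]
    [CommRing V'] [IsDomain V'] [IsDiscreteValuationRing V'] (ψ : V →+* V')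
    (t : V) (ht : Irreducible t) (ht' : Irreducible (ψ t)) {Q Q' : Type} [AddCommGroup Q]
    [Module V Q] [AddCommGroup Q'] [Module V' Q'] (g : Q →ₛₗ[ψ] Q')
    (hg : Submodule.span V' (Set.range g) = ⊤) :
    Module.length V' Q' ≤ Module.length V Q := by
  by_cases htop : Module.length V Q = ⊤
  · rw [htop]; exact le_top
  rw [← Ne, Module.length_ne_top_iff] at htop
  induction htop generalizing Q' with
  | of_subsingleton =>
    rename_i Q _ _ _
    have : Subsingleton Q' := by
      rw [← Submodule.subsingleton_iff V', ← subsingleton_iff_bot_eq_top, ← hg, eq_comm,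
        Submodule.span_eq_bot]
      rintro _ ⟨q, rfl⟩
      rw [Subsingleton.elim q 0, map_zero]
    rw [Module.length_eq_zero]
    exact bot_le
  | of_simple_quotient hN ih =>
    rename_i Q _ _ N hs _ _
    let N' : Submodule V' Q' := Submodule.span V' (g '' N)
    let gN : N →ₛₗ[ψ] N' :=
      { toFun := fun x => ⟨g x, Submodule.subset_span ⟨x, x.2, rfl⟩⟩
        map_add' := fun x y => Subtype.ext (by simp)
        map_smul' := fun c x => Subtype.ext (by simp) }
    have hgN : Submodule.span V' (Set.range gN) = ⊤ := by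
      rw [eq_top_iff]
      rintro ⟨y, hy⟩ _
      have key : ∀ y (hy : y ∈ Submodule.span V' (g '' N)),
          (⟨y, hy⟩ : N') ∈ Submodule.span V' (Set.range gN) := by
        intro y hy
        induction hy using Submodule.span_induction with
        | mem z hz =>
          obtain ⟨x, hx, rfl⟩ := hz
          exact Submodule.subset_span ⟨⟨x, hx⟩, rfl⟩
        | zero => exact Submodule.zero_mem _
        | add y z hy hz h1 h2 => exact Submodule.add_mem _ h1 h2
        | smul a z hz h1 => exact Submodule.smul_mem _ a h1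
      exact key y hy
    have h1 := ih gN hgN
    rw [ProdLen_add N, ProdLen_add N']
    refine add_le_add h1 ?_
    have h2 : Module.length V (Q ⧸ N) = 1 := Module.length_eq_one V (Q ⧸ N)
    have hnt : Nontrivial (Q ⧸ N) := IsSimpleModule.nontrivial V (Q ⧸ N)
    rw [h2]
    obtain ⟨q, hq⟩ : ∃ q : Q ⧸ N, q ≠ 0 := exists_ne 0
    obtain ⟨x, rfl⟩ := N.mkQ_surjective q
    have hspan : Submodule.span V {N.mkQ x} = ⊤ :=
      (IsSimpleModule.span_singleton_eq_top V hq)
    have hall : ∀ z : Q, ∃ a : V, z - a • x ∈ N := by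
      intro z
      have : N.mkQ z ∈ Submodule.span V {N.mkQ x} := by rw [hspan]; exact Submodule.mem_top
      obtain ⟨a, ha⟩ := Submodule.mem_span_singleton.1 this
      refine ⟨a, ?_⟩
      rw [← Submodule.ker_mkQ N, LinearMap.mem_ker, map_sub, map_smul, ha, sub_self]
    have htx : t • x ∈ N := by
      by_contra hcon
      have h3 : N.mkQ (t • x) ≠ 0 := by
        intro h0
        apply hcon
        rw [← Submodule.ker_mkQ N, LinearMap.mem_ker, h0]
      have h4 : Submodule.span V {N.mkQ (t • x)} = ⊤ := IsSimpleModule.span_singleton_eq_top V h3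
      have h5 : N.mkQ x ∈ Submodule.span V {N.mkQ (t • x)} := by rw [h4]; exact Submodule.mem_top
      obtain ⟨a, ha⟩ := Submodule.mem_span_singleton.1 h5
      rw [map_smul, smul_smul] at ha
      have h6 : (1 - a * t) • N.mkQ x = 0 := by rw [sub_smul, one_smul, ha, sub_self]
      have h7 : IsUnit (1 - a * t) := by
        have : a * t ∈ IsLocalRing.maximalIdeal V := by
          rw [ht.maximalIdeal_eq, Ideal.mem_span_singleton]
          exact Dvd.intro_left a rfl
        by_contra hnu
        have h8 : (1 - a * t) ∈ IsLocalRing.maximalIdeal V :=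
          (IsLocalRing.mem_maximalIdeal _).2 hnu
        have h9 := Ideal.add_mem _ h8 this
        rw [sub_add_cancel] at h9
        exact (Ideal.ne_top_iff_one _).1 (IsLocalRing.maximalIdeal.isMaximal V).ne_top h9
      rw [h7.smul_eq_zero] at h6
      exact hq h6
    refine ProdLen_cyclic (ψ t) ht' (N'.mkQ (g x)) ?_ ?_
    · rw [eq_top_iff]
      rintro y -
      obtain ⟨y, rfl⟩ := N'.mkQ_surjective y
      have hy : y ∈ Submodule.span V' (Set.range g) := by rw [hg]; exact Submodule.mem_top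
      induction hy using Submodule.span_induction with
      | mem z hz =>
        obtain ⟨z, rfl⟩ := hz
        obtain ⟨a, ha⟩ := hall z
        have h3 : N'.mkQ (g z) = ψ a • N'.mkQ (g x) := by
          rw [← sub_eq_zero, ← map_smul, ← map_sub, ← LinearMap.map_smulₛₗ, ← map_sub,
            ← LinearMap.mem_ker, Submodule.ker_mkQ]
          exact Submodule.subset_span ⟨_, ha, rfl⟩
        rw [h3]
        exact Submodule.smul_mem _ _ (Submodule.mem_span_singleton_self _)
      | zero => rw [map_zero]; exact Submodule.zero_mem _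
      | add y z hy hz h1 h2 => rw [map_add]; exact Submodule.add_mem _ h1 h2
      | smul a z hz h1 => rw [map_smul]; exact Submodule.smul_mem _ a h1
    · rw [← map_smul, ← LinearMap.map_smulₛₗ, ← LinearMap.mem_ker, Submodule.ker_mkQ]
      exact Submodule.subset_span ⟨_, htx, rfl⟩

/-- adding a submodule of bounded length -/
private theorem ProdLen_step {V' : Type} [CommRing V'] {Ω : Type} [AddCommGroup Ω] [Module V' Ω]
    (A S : Submodule V' Ω) (c : ℕ∞) (hc : Module.length V' (S.map A.mkQ) ≤ c) :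
    Module.length V' (Ω ⧸ A) ≤ Module.length V' (Ω ⧸ (A ⊔ S)) + c := by
  rw [ProdLen_add (S.map A.mkQ), (Submodule.quotientQuotientEquivQuotientSup A S).length_eq,
    add_comm]
  exact add_le_add le_rfl hc

/-- adding the span of a semilinear image -/
private theorem ProdLen_stepSemi {V V' : Type} [CommRing V] [IsDomain V]
    [IsDiscreteValuationRing V] [CommRing V'] [IsDomain V'] [IsDiscreteValuationRing V']
    (ψ : V →+* V') (t : V) (ht : Irreducible t) (ht' : Irreducible (ψ t)) {Q Ω : Type}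
    [AddCommGroup Q] [Module V Q] [AddCommGroup Ω] [Module V' Ω] (g : Q →ₛₗ[ψ] Ω)
    (P : Submodule V Q) (A : Submodule V' Ω) (hPA : ∀ x ∈ P, g x ∈ A) :
    Module.length V' (Ω ⧸ A) ≤ Module.length V' (Ω ⧸ (A ⊔ Submodule.span V' (Set.range g))) +
      Module.length V (Q ⧸ P) := by
  refine ProdLen_step A _ _ ?_
  set S : Submodule V' Ω := Submodule.span V' (Set.range g) with hS
  let f : Q →ₛₗ[ψ] (S.map A.mkQ) :=
    { toFun := fun x => ⟨A.mkQ (g x), Submodule.mem_map_of_mem (Submodule.subset_span ⟨x, rfl⟩)⟩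
      map_add' := fun x y => Subtype.ext (by simp)
      map_smul' := fun c x => Subtype.ext (by simp) }
  have hf : P ≤ LinearMap.ker f := by
    intro x hx
    rw [LinearMap.mem_ker]
    apply Subtype.ext
    change A.mkQ (g x) = 0
    rw [← LinearMap.mem_ker, Submodule.ker_mkQ]
    exact hPA x hx
  refine length_semilinear_le ψ t ht ht' (P.liftQ f hf) ?_
  rw [eq_top_iff]
  rintro ⟨y, hy⟩ -
  obtain ⟨z, hz, rfl⟩ := hy
  have key : ∀ z (hz : z ∈ S), (⟨A.mkQ z, Submodule.mem_map_of_mem hz⟩ : S.map A.mkQ) ∈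
      Submodule.span V' (Set.range (P.liftQ f hf)) := by
    intro z hz
    induction hz using Submodule.span_induction with
    | mem z hz =>
      obtain ⟨x, rfl⟩ := hz
      exact Submodule.subset_span ⟨Submodule.Quotient.mk x, rfl⟩
    | zero =>
      convert Submodule.zero_mem _
      simp
    | add y z hy hz h1 h2 =>
      convert Submodule.add_mem _ h1 h2 using 1
      exact Subtype.ext (by simp)
    | smul a z hz h1 =>
      convert Submodule.smul_mem _ a h1 using 1
      exact Subtype.ext (by simp)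
  exact key z hz

/-- adding a vector whose multiple by the uniformiser is present -/
private theorem ProdLen_stepCyc {V' : Type} [CommRing V'] [IsDomain V'] [IsDiscreteValuationRing V']
    (t : V') (ht : Irreducible t) {Ω : Type} [AddCommGroup Ω] [Module V' Ω]
    (A : Submodule V' Ω) (x : Ω) (hx : t • x ∈ A) :
    Module.length V' (Ω ⧸ A) ≤ Module.length V' (Ω ⧸ (A ⊔ Submodule.span V' {x})) + 1 := by
  refine ProdLen_step A _ _ ?_
  refine ProdLen_cyclic t ht
    (⟨A.mkQ x, Submodule.mem_map_of_mem (Submodule.mem_span_singleton_self x)⟩ :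
      (Submodule.span V' {x}).map A.mkQ) ?_ ?_
  · rw [eq_top_iff]
    rintro ⟨y, hy⟩ -
    obtain ⟨z, hz, rfl⟩ := hy
    obtain ⟨a, rfl⟩ := Submodule.mem_span_singleton.1 hz
    rw [Submodule.mem_span_singleton]
    exact ⟨a, Subtype.ext (by simp)⟩
  · apply Subtype.ext
    change t • A.mkQ x = 0
    rw [← map_smul, ← LinearMap.mem_ker, Submodule.ker_mkQ]
    exact hx

/-- a chain of steps -/
private theorem ProdLen_chain {V' : Type} [CommRing V'] {Ω : Type} [AddCommGroup Ω] [Module V' Ω]
    {ι : Type} (S : ι → Submodule V' Ω) (A₀ : Submodule V' Ω) (c : ℕ∞)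
    (h : ∀ j, ∀ A : Submodule V' Ω, A₀ ≤ A →
      Module.length V' (Ω ⧸ A) ≤ Module.length V' (Ω ⧸ (A ⊔ S j)) + c) (s : Finset ι) :
    Module.length V' (Ω ⧸ A₀) ≤ Module.length V' (Ω ⧸ (A₀ ⊔ s.sup S)) + s.card * c := by
  classical
  induction s using Finset.induction_on with
  | empty =>
    have e : A₀ ⊔ (∅ : Finset ι).sup S = A₀ := by rw [Finset.sup_empty, sup_bot_eq]
    rw [e]
    exact le_self_add
  | insert j s hj ih =>
    refine ih.trans ?_
    rw [Finset.card_insert_of_notMem hj, Finset.sup_insert]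
    have h1 := h j (A₀ ⊔ s.sup S) le_sup_left
    have e : A₀ ⊔ s.sup S ⊔ S j = A₀ ⊔ (S j ⊔ s.sup S) := by
      rw [sup_assoc, sup_comm (s.sup S)]
    rw [e] at h1
    refine (add_le_add h1 le_rfl).trans ?_
    rw [add_assoc]
    refine add_le_add le_rfl ?_
    push_cast
    rw [add_mul, one_mul, add_comm]

/-- the semilinear map on differentials induced by an algebra map -/
private theorem ProdLen_semi {V V' : Type} [CommRing V] [Algebra ℂ V] [CommRing V'] [Algebra ℂ V']
    (ψ : V →ₐ[ℂ] V') : ∃ g : KaehlerDifferential ℂ V →ₛₗ[(ψ : V →+* V')] KaehlerDifferential ℂ V',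
      ∀ f, g (KaehlerDifferential.D ℂ V f) = KaehlerDifferential.D ℂ V' (ψ f) := by
  letI : Algebra V V' := (ψ : V →+* V').toAlgebra
  haveI : IsScalarTower ℂ V V' := IsScalarTower.of_algebraMap_eq fun x => (ψ.commutes x).symm
  refine ⟨{ toFun := KaehlerDifferential.map ℂ ℂ V V'
            map_add' := map_add _
            map_smul' := fun c x => ?_ }, fun f => ?_⟩
  · rw [map_smul]
    exact algebra_compatible_smul V' c _
  · exact KaehlerDifferential.map_D ℂ ℂ V V' f

/-- P05: the estimate of the log discrepancy of the product divisor. `P = span (D '' F)`,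
`P'` a submodule containing all `D (ψ_j f)`, `f ∈ F`. -/
theorem length_product_le {V V' : Type} [CommRing V] [IsDomain V] [IsDiscreteValuationRing V]
    [Algebra ℂ V] [CommRing V'] [IsDomain V'] [IsDiscreteValuationRing V'] [Algebra ℂ V']
    {N r : ℕ} (j₀ : Fin N) (ψ : Fin N → (V →ₐ[ℂ] V')) (t : V) (w : Fin r → V)
    (ht : Irreducible t) (ht' : Irreducible (ψ j₀ t))
    (hV : Submodule.span V (insert (KaehlerDifferential.D ℂ V t)
      (Set.range fun i => KaehlerDifferential.D ℂ V (w i))) = ⊤)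
    (u : Fin N → V') (hu : u j₀ = 1) (hu' : ∀ j, ψ j t = u j * ψ j₀ t) (hu'' : ∀ j, IsUnit (u j))
    (hV' : Submodule.span V' (insert (KaehlerDifferential.D ℂ V' (ψ j₀ t))
      (Set.range (fun j => KaehlerDifferential.D ℂ V' (u j)) ∪
        Set.range (fun p : Fin N × Fin r => KaehlerDifferential.D ℂ V' (ψ p.1 (w p.2))))) = ⊤)
    (F : Set V) (P' : Submodule V' (KaehlerDifferential ℂ V'))
    (hP' : ∀ j, ∀ f ∈ F, KaehlerDifferential.D ℂ V' (ψ j f) ∈ P') :
    1 + Module.length V' (KaehlerDifferential ℂ V' ⧸ P') ≤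
      N * (1 + Module.length V (KaehlerDifferential ℂ V ⧸
        Submodule.span V (KaehlerDifferential.D ℂ V '' F))) := by
  classical
  choose g hg using fun j => ProdLen_semi (ψ j)
  set P : Submodule V (KaehlerDifferential ℂ V) :=
    Submodule.span V (KaehlerDifferential.D ℂ V '' F) with hP
  have hirr : ∀ j, Irreducible ((ψ j : V →+* V') t) := by
    intro j
    change Irreducible (ψ j t)
    rw [hu' j]
    exact (irreducible_isUnit_mul (hu'' j)).2 ht'
  have hgP : ∀ j, ∀ x ∈ P, g j x ∈ P' := by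
    intro j x hx
    induction hx using Submodule.span_induction with
    | mem z hz =>
      obtain ⟨f, hf, rfl⟩ := hz
      rw [hg]
      exact hP' j f hf
    | zero => rw [map_zero]; exact P'.zero_mem
    | add y z hy hz h1 h2 => rw [map_add]; exact P'.add_mem h1 h2
    | smul a z hz h1 => rw [LinearMap.map_smulₛₗ]; exact P'.smul_mem _ h1
  have h1 := ProdLen_chain (fun j => Submodule.span V' (Set.range (g j))) P'
    (Module.length V (KaehlerDifferential ℂ V ⧸ P))
    (fun j A hA => ProdLen_stepSemi (ψ j : V →+* V') t ht (hirr j) (g j) P A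
      (fun x hx => hA (hgP j x hx))) Finset.univ
  set M : Submodule V' (KaehlerDifferential ℂ V') :=
    P' ⊔ Finset.univ.sup (fun j => Submodule.span V' (Set.range (g j))) with hM
  have hDM : ∀ j f, KaehlerDifferential.D ℂ V' (ψ j f) ∈ M := by
    intro j f
    have : Submodule.span V' (Set.range (g j)) ≤ M :=
      le_trans (Finset.le_sup (f := fun j => Submodule.span V' (Set.range (g j)))
        (Finset.mem_univ j)) le_sup_right
    exact this (Submodule.subset_span ⟨_, hg j f⟩)
  have h2 := ProdLen_chain (fun j => Submodule.span V' {KaehlerDifferential.D ℂ V' (u j)}) M 1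
    (fun j A hA => ProdLen_stepCyc (ψ j₀ t) ht' A _ (by
      have h3 : KaehlerDifferential.D ℂ V' (ψ j t) =
          u j • KaehlerDifferential.D ℂ V' (ψ j₀ t) + ψ j₀ t • KaehlerDifferential.D ℂ V' (u j) := by
        rw [hu' j, Derivation.leibniz]
      have h4 : ψ j₀ t • KaehlerDifferential.D ℂ V' (u j) =
          KaehlerDifferential.D ℂ V' (ψ j t) - u j • KaehlerDifferential.D ℂ V' (ψ j₀ t) := by
        rw [h3]; abel
      rw [h4]
      exact A.sub_mem (hA (hDM j t)) (A.smul_mem _ (hA (hDM j₀ t))))) (Finset.univ.erase j₀)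
  have htop : M ⊔ (Finset.univ.erase j₀).sup
      (fun j => Submodule.span V' {KaehlerDifferential.D ℂ V' (u j)}) = ⊤ := by
    rw [eq_top_iff, ← hV', Submodule.span_le]
    rintro x (rfl | ⟨j, rfl⟩ | ⟨⟨j, i⟩, rfl⟩)
    · exact (le_sup_left : M ≤ _) (hDM j₀ t)
    · by_cases hj : j = j₀
      · subst hj
        have : KaehlerDifferential.D ℂ V' (u j) = 0 := by
          rw [hu]; exact Derivation.map_one_eq_zero _
        simp only [this]
        exact Submodule.zero_mem _
      · have : Submodule.span V' {KaehlerDifferential.D ℂ V' (u j)} ≤ (Finset.univ.erase j₀).sup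
            (fun j => Submodule.span V' {KaehlerDifferential.D ℂ V' (u j)}) :=
          Finset.le_sup (f := fun j => Submodule.span V' {KaehlerDifferential.D ℂ V' (u j)})
            (Finset.mem_erase.2 ⟨hj, Finset.mem_univ _⟩)
        exact (le_sup_right : _ ≤ M ⊔ _) (this (Submodule.mem_span_singleton_self _))
    · exact (le_sup_left : M ≤ _) (hDM j (w i))
  rw [htop, Finset.card_erase_of_mem (Finset.mem_univ _), Finset.card_univ, Fintype.card_fin,
    mul_one] at h2
  have h5 : Module.length V' (KaehlerDifferential ℂ V' ⧸ (⊤ : Submodule V' (KaehlerDifferential ℂ V')))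
      = 0 := by
    rw [Module.length_eq_zero_iff]
    infer_instance
  rw [h5, zero_add] at h2
  rw [Finset.card_univ, Fintype.card_fin] at h1
  have hN : 1 ≤ N := Nat.one_le_iff_ne_zero.2 (fun h => by subst h; exact j₀.elim0)
  have h6 : (1 : ℕ∞) + ((N - 1 : ℕ) : ℕ∞) = N := by
    have : 1 + (N - 1) = N := by omega
    exact_mod_cast this
  calc 1 + Module.length V' (KaehlerDifferential ℂ V' ⧸ P')
      ≤ 1 + (((N - 1 : ℕ) : ℕ∞) + N * Module.length V (KaehlerDifferential ℂ V ⧸ P)) :=
        add_le_add le_rfl (h1.trans (add_le_add h2 le_rfl))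
    _ = N * (1 + Module.length V (KaehlerDifferential ℂ V ⧸ P)) := by
        rw [← add_assoc, h6, mul_add, mul_one]

end Pool.Agent.Lib_GD

end

/-! ### from `Lib_KF.POrdC` -/

section

/-! G07: bound for vanishing orders at `ℂ`-points. -/

open PowerSeries

namespace Pool.Agent.Lib_KF

open Pool.Agent.Lib_GD

variable {R : Type} [CommRing R] [Algebra ℂ R] {𝒜 : ℕ → Submodule ℂ R} [GradedAlgebra 𝒜]
  {n : ℕ}

omit [GradedAlgebra 𝒜] in
private theorem dd_mul_zero (c : Chart 𝒜 n) (x : c.B →ₐ[ℂ] ℂ) (q : ℕ) (b b' : c.B)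
    (hb : ∀ α : Fin n →₀ ℕ, α.degree < q → x (c.dd α b) = 0) (α : Fin n →₀ ℕ)
    (hα : α.degree < q) : x (c.dd α (b * b')) = 0 := by
  classical
  have h1 : c.tay x α (b * b') = 0 := by
    rw [c.tay_mul]
    refine Finset.sum_eq_zero fun p hp => ?_
    have h2 : p.1 + p.2 = α := Finset.HasAntidiagonal.mem_antidiagonal.1 hp
    have h3 : p.1.degree + p.2.degree = α.degree := by rw [← map_add, h2]
    have h4 : c.tay x p.1 b = 0 := by
      unfold Chart.tay
      rw [hb p.1 (by omega), mul_zero]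
    rw [h4, zero_mul]
  unfold Chart.tay at h1
  rcases mul_eq_zero.1 h1 with h2 | h2
  · exfalso
    have h3 : (∏ l, ((α l).factorial : ℂ)) ≠ 0 :=
      Finset.prod_ne_zero_iff.2 fun _ _ => Nat.cast_ne_zero.2 (Nat.factorial_ne_zero _)
    have h4 : (∏ l, ((α l).factorial : ℂ))⁻¹ = 0 := by simpa using h2
    exact inv_ne_zero h3 h4
  · exact h2

private theorem count_step (h : IsPol 𝒜 n) (hn : 1 ≤ n) (c : Chart 𝒜 n) (m M Q : ℕ)
    (x : c.B →ₐ[ℂ] ℂ)
    (hsep : LinearIndependent ℂ (fun α : {α : Fin n →₀ ℕ // α.degree < n * Q} =>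
        fun i : Fin (secDim 𝒜 (m + M)) => x (c.dd α.1 (c.ρ (secBasis 𝒜 (m + M) i)))))
    (s : R) (hs : s ∈ 𝒜 m) (hs0 : s ≠ 0)
    (hj : ∀ α : Fin n →₀ ℕ, α.degree < n * Q → x (c.dd α (c.ρ s)) = 0) :
    Q ^ n + secDim 𝒜 M ≤ secDim 𝒜 (m + M) := by
  classical
  have := h.domain
  -- the multi-indices
  let g : (Fin n → Fin Q) → {α : Fin n →₀ ℕ // α.degree < n * Q} := fun a =>
    ⟨Finsupp.equivFunOnFinite.symm fun l => (a l : ℕ), by
      rw [Finsupp.degree_eq_sum]
      simp only [Finsupp.equivFunOnFinite_symm_apply_apply]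
      have h1 : ∑ l : Fin n, (a l : ℕ) < ∑ l : Fin n, Q :=
        Finset.sum_lt_sum_of_nonempty ⟨⟨0, hn⟩, Finset.mem_univ _⟩ fun l _ => (a l).2
      simpa using h1⟩
  have hg : Function.Injective g := by
    intro a a' haa
    have h1 : (g a).1 = (g a').1 := congrArg Subtype.val haa
    funext l
    have h2 : (g a).1 l = (g a').1 l := by rw [h1]
    exact Fin.ext h2
  have hA := hsep.comp g hg
  let A : Matrix (Fin n → Fin Q) (Fin (secDim 𝒜 (m + M))) ℂ :=
    Matrix.of fun a i => x (c.dd (g a).1 (c.ρ (secBasis 𝒜 (m + M) i)))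
  have hAr : A.rank = Q ^ n := by
    have h1 : A.rank = Fintype.card (Fin n → Fin Q) := LinearIndependent.rank_matrix hA
    rw [h1]
    simp
  -- the products
  obtain ⟨hb1, hb2, hb3⟩ := secBasis_specP (𝒜 := 𝒜) h (m + M)
  obtain ⟨hb1', hb2', hb3'⟩ := secBasis_specP (𝒜 := 𝒜) h M
  have hex : ∀ j : Fin (secDim 𝒜 M), ∃ e : Fin (secDim 𝒜 (m + M)) → ℂ,
      ∑ i, e i • secBasis 𝒜 (m + M) i = s * secBasis 𝒜 M j := by
    intro j
    have h1 : s * secBasis 𝒜 M j ∈ 𝒜 (m + M) := SetLike.mul_mem_graded hs (hb1' j)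
    rw [← hb3] at h1
    exact (Submodule.mem_span_range_iff_exists_fun ℂ).1 h1
  choose e he using hex
  have hB : LinearIndependent ℂ e := by
    let L : (Fin (secDim 𝒜 (m + M)) → ℂ) →ₗ[ℂ] R := Fintype.linearCombination ℂ (secBasis 𝒜 (m + M))
    refine LinearIndependent.of_comp L ?_
    have h1 : L ∘ e = (LinearMap.mulLeft ℂ s) ∘ secBasis 𝒜 M := by
      funext j
      simp only [Function.comp_apply, LinearMap.mulLeft_apply, L, Fintype.linearCombination_apply]
      exact he j
    rw [h1]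
    refine hb2'.map' _ ?_
    rw [LinearMap.ker_eq_bot]
    intro u v huv
    simp only [LinearMap.mulLeft_apply] at huv
    exact mul_left_cancel₀ hs0 huv
  let B : Matrix (Fin (secDim 𝒜 M)) (Fin (secDim 𝒜 (m + M))) ℂ := Matrix.of e
  have hBr : B.transpose.rank = secDim 𝒜 M := by
    rw [Matrix.rank_transpose]
    have h1 : B.rank = Fintype.card (Fin (secDim 𝒜 M)) := LinearIndependent.rank_matrix hB
    rw [h1]
    simp
  have hAB : A * B.transpose = 0 := by
    ext a j
    rw [Matrix.mul_apply]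
    simp only [Matrix.transpose_apply, Matrix.zero_apply, A, B, Matrix.of_apply]
    have h1 : x (c.dd (g a).1 (c.ρ (s * secBasis 𝒜 M j))) = 0 := by
      rw [map_mul]
      exact dd_mul_zero c x (n * Q) _ _ hj (g a).1 (g a).2
    rw [← he j] at h1
    rw [map_sum, map_sum, map_sum] at h1
    rw [← h1]
    refine Finset.sum_congr rfl fun i _ => ?_
    rw [map_smul, map_smul, map_smul, smul_eq_mul, mul_comm]
  have h1 := Matrix.rank_add_rank_le_card_of_mul_eq_zero hAB
  rw [hAr, hBr, Fintype.card_fin] at h1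
  exact h1

/-- G07a (T) at `ℂ`-points. -/
theorem chart_ord_le_CP (h : IsPol 𝒜 n) (hn : 1 ≤ n) (c : Chart 𝒜 n) :
    ∃ C : ℕ, ∀ m, 1 ≤ m → ∀ (x : c.B →ₐ[ℂ] ℂ), ∀ s ∈ 𝒜 m, s ≠ 0 →
      ∃ α : Fin n →₀ ℕ, α.degree ≤ C * m ∧ x (c.dd α (c.ρ s)) ≠ 0 := by
  obtain ⟨c₀, hc₀, m₀, hsep⟩ := chart_sepP h c
  obtain ⟨C₁, hC₁⟩ := secDim_leP (𝒜 := 𝒜) h
  have hn0 : (0 : ℝ) < n := by exact_mod_cast hn
  -- the constants
  obtain ⟨K, hK⟩ := exists_nat_gt (max (C₁ * (4 * n / c₀) ^ n) (max (n / c₀) (max m₀ 1)))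
  have hK1 : C₁ * (4 * n / c₀) ^ n < (K : ℝ) := lt_of_le_of_lt (le_max_left _ _) hK
  have hK2 : n / c₀ < (K : ℝ) :=
    lt_of_le_of_lt ((le_max_left _ _).trans (le_max_right _ _)) hK
  have hK3 : (m₀ : ℝ) < (K : ℝ) :=
    lt_of_le_of_lt ((le_max_left _ _).trans ((le_max_right _ _).trans (le_max_right _ _))) hK
  have hK4 : (1 : ℝ) < (K : ℝ) :=
    lt_of_le_of_lt ((le_max_right _ _).trans ((le_max_right _ _).trans (le_max_right _ _))) hK
  have hK3' : m₀ < K := by exact_mod_cast hK3
  have hK4' : 1 < K := by exact_mod_cast hK4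
  have hK0 : (0 : ℝ) < K := by linarith
  set C' : ℕ := ⌊c₀ * K / n⌋₊ with hC'
  have hy1 : 1 ≤ c₀ * K / n := by
    rw [le_div_iff₀ hn0, one_mul]
    rw [div_lt_iff₀ hc₀] at hK2
    linarith
  have hfl : (C' : ℝ) ≤ c₀ * K / n := Nat.floor_le (by positivity)
  have hfl2 : c₀ * K / n / 2 ≤ (C' : ℝ) := by
    have h1 := Nat.lt_floor_add_one (c₀ * K / n)
    rw [← hC'] at h1
    have h2 : 1 ≤ C' := by
      rw [hC']
      exact Nat.le_floor (by simpa using hy1)
    have h3 : (1 : ℝ) ≤ C' := by exact_mod_cast h2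
    linarith
  refine ⟨n * C', ?_⟩
  intro m hm x s hs hs0
  by_contra hcon
  push Not at hcon
  have hmr : (1 : ℝ) ≤ m := by exact_mod_cast hm
  have hj : ∀ α : Fin n →₀ ℕ, α.degree < n * (C' * m) → x (c.dd α (c.ρ s)) = 0 := by
    intro α hα
    exact hcon α (by rw [mul_assoc]; exact hα.le)
  -- the iteration
  have hiter : ∀ k : ℕ, k * (C' * m) ^ n ≤ secDim 𝒜 (k * m + K * m) := by
    intro k
    induction k with
    | zero => simp
    | succ k ih =>
      have h1 := count_step h hn c m (k * m + K * m) (C' * m) x (by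
        refine hsep (m + (k * m + K * m)) ?_ ℂ x (n * (C' * m)) ?_
        · nlinarith
        · push_cast
          have h2 : (n : ℝ) * C' ≤ c₀ * K := by
            rw [le_div_iff₀ hn0] at hfl
            linarith
          have h3 : (n : ℝ) * (C' * m) ≤ c₀ * (K * m) := by nlinarith
          have h4 : (0 : ℝ) ≤ (m : ℝ) + k * m := by positivity
          nlinarith) s hs hs0 hj
      have h2 : (k + 1) * m + K * m = m + (k * m + K * m) := by ring
      rw [h2]
      calc (k + 1) * (C' * m) ^ n = (C' * m) ^ n + k * (C' * m) ^ n := by ring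
        _ ≤ (C' * m) ^ n + secDim 𝒜 (k * m + K * m) := Nat.add_le_add_left ih _
        _ ≤ _ := h1
  have h1 := hiter K
  have h2 := hC₁ (K * m + K * m) (by nlinarith)
  have h3 : K * (C' * m) ^ n ≤ C₁ * (K * m + K * m) ^ n := h1.trans h2
  have h4 : (K : ℝ) * (C' * m) ^ n ≤ C₁ * (K * m + K * m) ^ n := by exact_mod_cast h3
  have h5 : (K : ℝ) * (C' : ℝ) ^ n ≤ C₁ * (2 * K) ^ n := by
    have h6 : (K : ℝ) * (C' * m) ^ n = (K * (C' : ℝ) ^ n) * m ^ n := by rw [mul_pow]; ring
    have h7 : (C₁ : ℝ) * (K * m + K * m) ^ n = (C₁ * (2 * K) ^ n) * m ^ n := by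
      rw [← two_mul, ← mul_assoc, mul_pow]; ring
    rw [h6, h7] at h4
    exact le_of_mul_le_mul_right h4 (by positivity)
  have h6 : (c₀ * K / n / 2) ^ n ≤ (C' : ℝ) ^ n := pow_le_pow_left₀ (by positivity) hfl2 n
  have h7 : (K : ℝ) * (c₀ * K / n / 2) ^ n ≤ C₁ * (2 * K) ^ n :=
    (mul_le_mul_of_nonneg_left h6 hK0.le).trans h5
  have h8 : (C₁ : ℝ) * (2 * K) ^ n = C₁ * (4 * n / c₀) ^ n * (c₀ * K / n / 2) ^ n := by
    rw [mul_assoc, ← mul_pow]
    congr 2
    field_simp
    ring
  rw [h8] at h7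
  have h9 : (K : ℝ) ≤ C₁ * (4 * n / c₀) ^ n := le_of_mul_le_mul_right h7 (by positivity)
  linarith

end Pool.Agent.Lib_KF

end

/-! ### from `Lib_KF.CSat` -/

section

/-! C05: saturation of a family of functionals over `L⟦X⟧`. -/

open PowerSeries

namespace Pool.Agent.Lib_KF

/-- Let `ev α` (`α ∈ T`) be linearly independent functionals on `O^N`. There are `#T` functionals
`g k` which are independent modulo `X`, have the same common kernel, and are combinations
`X ^ m g_k = ∑ c_α ev α`.
Proof: `E = (ev α)_α : O^N → O^T`, `K = ker E`. `O^N / K` embeds in `O^T`, so it is torsion free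
and finite over the PID `O`, hence free; its rank is `#T` (the `ev α` are independent: a
non-zero linear form on `O^T` over the fraction field vanishing on the image gives a relation;
or: `rank range E = #T` via `Matrix.rank`/`finrank` of the dual). Let `b_l` be a basis of `O^N/K`,
`g_k` = coordinate functionals composed with the projection. Evaluating at lifts of the `b_l` shows
independence modulo `X`. The square matrix `P_{α l} = ev α (b_l)` has `det P ≠ 0` and
`det P • g_k = ∑ (adj P)_{k α} ev α`; `det P = X ^ m · unit`. -/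
theorem exists_saturation {L : Type} [Field L] {N : ℕ} {T : Type} [Fintype T]
    (ev : T → (Fin N → L⟦X⟧) →ₗ[L⟦X⟧] L⟦X⟧) (hev : LinearIndependent L⟦X⟧ ev) :
    ∃ g : Fin (Fintype.card T) → (Fin N → L⟦X⟧) →ₗ[L⟦X⟧] L⟦X⟧,
      LinearIndependent L
        (fun k : Fin (Fintype.card T) => fun i : Fin N => constantCoeff (g k (Pi.single i 1))) ∧
      (∀ f, (∀ α, ev α f = 0) ↔ ∀ k, g k f = 0) ∧
      ∀ k, ∃ (m : ℕ) (c : T → L⟦X⟧), ∀ f, (X : L⟦X⟧) ^ m * g k f = ∑ α, c α * ev α f := by
  classical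
  set E : (Fin N → L⟦X⟧) →ₗ[L⟦X⟧] (T → L⟦X⟧) := LinearMap.pi ev with hE
  set E' : (Fin N → L⟦X⟧) →ₗ[L⟦X⟧] LinearMap.range E := E.rangeRestrict with hE'
  have hsurj : Function.Surjective E' := LinearMap.surjective_rangeRestrict E
  obtain ⟨n, b₀⟩ := Submodule.basisOfPid (Pi.basisFun L⟦X⟧ T) (LinearMap.range E)
  have hexp₀ : ∀ α f, ev α f = ∑ l, ((b₀ l : LinearMap.range E) : T → L⟦X⟧) α *
      b₀.repr (E' f) l := by
    intro α f
    have h1 : ((E' f : LinearMap.range E) : T → L⟦X⟧) α = ev α f := rfl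
    rw [← h1]
    conv_lhs => rw [← b₀.sum_repr (E' f)]
    rw [Submodule.coe_sum, Finset.sum_apply]
    refine Finset.sum_congr rfl fun l _ => ?_
    rw [Submodule.coe_smul, Pi.smul_apply, smul_eq_mul, mul_comm]
  -- the rank
  have hle : Fintype.card T ≤ n := by
    have h2 : LinearIndependent L⟦X⟧
        (fun α : T => fun l : Fin n => ((b₀ l : LinearMap.range E) : T → L⟦X⟧) α) := by
      rw [Fintype.linearIndependent_iff] at hev ⊢
      intro c hc
      refine hev c ?_
      refine LinearMap.ext fun f => ?_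
      rw [LinearMap.sum_apply, LinearMap.zero_apply]
      have h3 : ∀ l, ∑ α, c α * ((b₀ l : LinearMap.range E) : T → L⟦X⟧) α = 0 := by
        intro l
        have h4 := congrFun hc l
        simpa [Finset.sum_apply] using h4
      calc ∑ α, (c α • ev α) f
          = ∑ α, ∑ l, c α * ((b₀ l : LinearMap.range E) : T → L⟦X⟧) α *
              b₀.repr (E' f) l := by
            refine Finset.sum_congr rfl fun α _ => ?_
            rw [LinearMap.smul_apply, smul_eq_mul, hexp₀ α f, Finset.mul_sum]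
            exact Finset.sum_congr rfl fun l _ => (mul_assoc _ _ _).symm
        _ = ∑ l, (∑ α, c α * ((b₀ l : LinearMap.range E) : T → L⟦X⟧) α) *
              b₀.repr (E' f) l := by
            rw [Finset.sum_comm]
            exact Finset.sum_congr rfl fun l _ => (Finset.sum_mul _ _ _).symm
        _ = 0 := Finset.sum_eq_zero fun l _ => by rw [h3 l, zero_mul]
    have h5 := h2.fintype_card_le_finrank
    rwa [Module.finrank_fin_fun] at h5
  have hge : n ≤ Fintype.card T := by
    have h6 := Submodule.finrank_le (LinearMap.range E)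
    rw [Module.finrank_eq_card_basis b₀, Fintype.card_fin, Module.finrank_fintype_fun_eq_card] at h6
    exact h6
  have hn : n = Fintype.card T := le_antisymm hge hle
  subst hn
  -- reindex by `T`
  set e : T ≃ Fin (Fintype.card T) := Fintype.equivFin T with he
  set P : Matrix T T L⟦X⟧ := Matrix.of fun α β =>
    ((b₀ (e β) : LinearMap.range E) : T → L⟦X⟧) α with hP
  set g : Fin (Fintype.card T) → (Fin N → L⟦X⟧) →ₗ[L⟦X⟧] L⟦X⟧ :=
    fun k => (b₀.coord k).comp E' with hg
  have hgf : ∀ k f, g k f = b₀.repr (E' f) k := fun k f => rfl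
  have hexp : ∀ α f, ev α f = ∑ β, P α β * g (e β) f := by
    intro α f
    rw [hexp₀ α f]
    exact (Equiv.sum_comp e fun l => ((b₀ l : LinearMap.range E) : T → L⟦X⟧) α *
      b₀.repr (E' f) l).symm
  have hdet : P.det ≠ 0 := by
    intro h0
    obtain ⟨v, hv, hv0⟩ := Matrix.exists_vecMul_eq_zero_iff.2 h0
    refine hv (funext fun α => ?_)
    rw [Fintype.linearIndependent_iff] at hev
    refine hev v (LinearMap.ext fun f => ?_) α
    rw [LinearMap.sum_apply, LinearMap.zero_apply]
    calc ∑ α, (v α • ev α) f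
        = ∑ α, ∑ β, v α * P α β * g (e β) f := by
          refine Finset.sum_congr rfl fun α _ => ?_
          rw [LinearMap.smul_apply, smul_eq_mul, hexp α f, Finset.mul_sum]
          exact Finset.sum_congr rfl fun l _ => (mul_assoc _ _ _).symm
      _ = ∑ β, (∑ α, v α * P α β) * g (e β) f := by
          rw [Finset.sum_comm]
          exact Finset.sum_congr rfl fun l _ => (Finset.sum_mul _ _ _).symm
      _ = 0 := Finset.sum_eq_zero fun β _ => by
          have h7 := congrFun hv0 β
          rw [Matrix.vecMul, dotProduct, Pi.zero_apply] at h7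
          rw [h7, zero_mul]
  refine ⟨g, ?_, ?_, ?_⟩
  · rw [Fintype.linearIndependent_iff]
    intro a ha l
    obtain ⟨f, hf⟩ := hsurj (b₀ l)
    have h8 : ∀ k, constantCoeff (g k f) =
        ∑ i, constantCoeff (f i) * constantCoeff (g k (Pi.single i 1)) := by
      intro k
      have h9 : f = ∑ i, f i • (Pi.single i 1 : Fin N → L⟦X⟧) := by
        conv_lhs => rw [← LinearMap.sum_single_apply (fun _ => L⟦X⟧) f]
        refine Finset.sum_congr rfl fun i _ => ?_
        rw [← Pi.single_smul, smul_eq_mul, mul_one]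
      conv_lhs => rw [h9]
      rw [map_sum, map_sum]
      refine Finset.sum_congr rfl fun i _ => ?_
      rw [map_smul, smul_eq_mul, map_mul]
    have h10 : ∑ k, a k * constantCoeff (g k f) = 0 := by
      calc ∑ k, a k * constantCoeff (g k f)
          = ∑ i, constantCoeff (f i) *
              ∑ k, a k * constantCoeff (g k (Pi.single i 1)) := by
            simp_rw [h8, Finset.mul_sum]
            rw [Finset.sum_comm]
            refine Finset.sum_congr rfl fun i _ => Finset.sum_congr rfl fun k _ => ?_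
            ring
        _ = 0 := Finset.sum_eq_zero fun i _ => by
            have h11 := congrFun ha i
            simp only [Finset.sum_apply, Pi.smul_apply, smul_eq_mul, Pi.zero_apply] at h11
            rw [h11, mul_zero]
    rw [Finset.sum_eq_single l] at h10
    · rwa [hgf, hf, b₀.repr_self, Finsupp.single_eq_same, map_one, mul_one] at h10
    · intro k _ hk
      rw [hgf, hf, b₀.repr_self, Finsupp.single_eq_of_ne hk, map_zero, mul_zero]
    · intro h
      exact absurd (Finset.mem_univ l) h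
  · intro f
    constructor
    · intro h k
      have h12 : E' f = 0 := by
        refine Subtype.ext (funext fun α => ?_)
        exact h α
      rw [hgf, h12, map_zero, Finsupp.zero_apply]
    · intro h α
      rw [hexp α f]
      exact Finset.sum_eq_zero fun β _ => by rw [h, mul_zero]
  · intro k
    obtain ⟨m, u, hu⟩ := IsDiscreteValuationRing.associated_pow_irreducible hdet
      (PowerSeries.X_prime (R := L)).irreducible
    refine ⟨m, fun α => u * P.adjugate (e.symm k) α, fun f => ?_⟩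
    have h13 : P.det * g k f = ∑ α, P.adjugate (e.symm k) α * ev α f := by
      calc P.det * g k f
          = ∑ β, (P.adjugate * P) (e.symm k) β * g (e β) f := by
            rw [Matrix.adjugate_mul, Finset.sum_eq_single (e.symm k)]
            · rw [Matrix.smul_apply, Matrix.one_apply_eq, smul_eq_mul, mul_one,
                Equiv.apply_symm_apply]
            · intro β _ hβ
              rw [Matrix.smul_apply, Matrix.one_apply_ne (Ne.symm hβ), smul_zero, zero_mul]
            · intro h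
              exact absurd (Finset.mem_univ _) h
        _ = ∑ β, ∑ α, P.adjugate (e.symm k) α * P α β * g (e β) f := by
            refine Finset.sum_congr rfl fun β _ => ?_
            rw [Matrix.mul_apply, Finset.sum_mul]
        _ = ∑ α, P.adjugate (e.symm k) α * ev α f := by
            rw [Finset.sum_comm]
            refine Finset.sum_congr rfl fun α _ => ?_
            rw [hexp α f, Finset.mul_sum]
            exact Finset.sum_congr rfl fun β _ => mul_assoc _ _ _
    calc (X : L⟦X⟧) ^ m * g k f = (u : L⟦X⟧) * (P.det * g k f) := by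
          rw [← hu]
          ring
      _ = ∑ α, u * P.adjugate (e.symm k) α * ev α f := by
          rw [h13, Finset.mul_sum]
          exact Finset.sum_congr rfl fun α _ => (mul_assoc _ _ _).symm

end Pool.Agent.Lib_KF

end

/-! ### from `Lib_KF.ChColen` -/

section

/-! CH09: the order of a Jacobian is at most the colength. -/

open PowerSeries

namespace Pool.Agent.Lib_KF

open Pool.Agent.Lib_GD

private theorem ChColen_ord_prod {R : Type} [CommRing R] [IsDomain R] {m : Type} (s : Finset m)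
    (c : m → R) (hc : ∀ i, c i ≠ 0) : Ring.ord R (∏ i ∈ s, c i) = ∑ i ∈ s, Ring.ord R (c i) := by
  classical
  induction s using Finset.induction_on with
  | empty => simp
  | insert a s ha ih =>
    rw [Finset.prod_insert ha, Finset.sum_insert ha, Ring.ord_mul R, ih]
    exact mem_nonZeroDivisors_of_ne_zero (Finset.prod_ne_zero_iff.2 fun i _ => hc i)

/-- The length of the cokernel of a square matrix over a principal ideal domain. -/
private theorem ChColen_length {R : Type} [CommRing R] [IsDomain R] [IsPrincipalIdealRing R]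
    {m : Type} [Fintype m] [DecidableEq m] (A : Matrix m m R) (hA : A.det ≠ 0) :
    Module.length R ((m → R) ⧸ Submodule.span R (Set.range A)) = Ring.ord R A.det := by
  set N : Submodule R (m → R) := Submodule.span R (Set.range A) with hN
  have hr : LinearMap.range A.vecMulLinear = N := by
    rw [range_vecMulLinear]
    rfl
  have hinj : Function.Injective A.vecMulLinear := by
    rw [← LinearMap.ker_eq_bot, LinearMap.ker_eq_bot']
    intro x hx
    exact Matrix.eq_zero_of_vecMul_eq_zero hA hx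
  let eN : (m → R) ≃ₗ[R] N :=
    (LinearEquiv.ofInjective A.vecMulLinear hinj).trans (LinearEquiv.ofEq _ _ hr)
  have heN : ∀ x, ((eN x : N) : m → R) = A.vecMulLinear x := fun x => rfl
  have hrank : Module.finrank R N = Module.finrank R (m → R) := eN.finrank_eq.symm
  let b := Pi.basisFun R m
  let b' := Submodule.smithNormalFormTopBasis b hrank
  let ab := Submodule.smithNormalFormBotBasis b hrank
  let c := Submodule.smithNormalFormCoeffs b hrank
  have hab : ∀ i, (ab i : m → R) = c i • b' i := Submodule.smithNormalFormBotBasis_def b hrank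
  have hc : ∀ i, c i ≠ 0 := fun i => Submodule.smithNormalFormCoeffs_ne_zero b hrank i
  rw [(N.quotientEquivPiSpan b hrank).length_eq, Module.length_pi_of_fintype]
  have h1 : ∑ i, Module.length R (R ⧸ Ideal.span ({c i} : Set R)) = Ring.ord R (∏ i, c i) := by
    rw [ChColen_ord_prod _ _ hc]
    rfl
  refine h1.trans (Ring.ord_eq_of_associated ?_)
  -- the two determinants
  let ψ : (m → R) →ₗ[R] (m → R) := N.subtype ∘ₗ (b'.equiv ab (Equiv.refl m)).toLinearMap
  have hψ : LinearMap.det ψ = ∏ i, c i := by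
    rw [← LinearMap.det_toMatrix b', ← Matrix.det_diagonal]
    congr 1
    ext i j
    rw [LinearMap.toMatrix_apply]
    have h2 : ψ (b' j) = c j • b' j := by
      rw [← hab j]
      show ((b'.equiv ab (Equiv.refl m) (b' j) : N) : m → R) = ab j
      rw [Module.Basis.equiv_apply]
      rfl
    rw [h2, map_smul, Finsupp.smul_apply, Module.Basis.repr_self, Matrix.diagonal_apply,
      smul_eq_mul, Finsupp.single_apply]
    split_ifs with h3 h4 h4
    · rw [mul_one, h3]
    · exact absurd h3.symm h4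
    · exact absurd h4.symm h3
    · rw [mul_zero]
  have hφ : LinearMap.det A.vecMulLinear = A.det := by
    rw [← Matrix.mulVecLin_transpose, ← Matrix.toLin'_apply', LinearMap.det_toLin',
      Matrix.det_transpose]
  rw [← hψ, ← hφ]
  refine (LinearMap.associated_det_of_eq_comp (eN.trans (b'.equiv ab (Equiv.refl m)).symm)
    A.vecMulLinear ψ fun x => ?_).symm
  show A.vecMulLinear x = ((b'.equiv ab (Equiv.refl m)
    ((b'.equiv ab (Equiv.refl m)).symm (eN x)) : N) : m → R)
  rw [LinearEquiv.apply_symm_apply, heN]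

/-- If the cokernel has finite length the determinant is not zero. -/
private theorem ChColen_det_ne {R : Type} [CommRing R] [IsDomain R] [IsDiscreteValuationRing R]
    {m : Type} [Fintype m] [DecidableEq m] (A : Matrix m m R)
    (h : Module.length R ((m → R) ⧸ Submodule.span R (Set.range A)) ≠ ⊤) : A.det ≠ 0 := by
  intro h0
  obtain ⟨w, hw0, hw⟩ := Matrix.exists_mulVec_eq_zero_iff.2 h0
  obtain ⟨q, hq⟩ : ∃ q, w q ≠ 0 := by
    by_contra hne
    push Not at hne
    exact hw0 (funext hne)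
  let ℓ : (m → R) →ₗ[R] R := ∑ i, w i • LinearMap.proj i
  have hℓ : ∀ x, ℓ x = ∑ i, w i * x i := by
    intro x
    simp [ℓ, LinearMap.sum_apply]
  have hker : Submodule.span R (Set.range A) ≤ LinearMap.ker ℓ := by
    rw [Submodule.span_le]
    rintro _ ⟨p, rfl⟩
    show ℓ (A p) = 0
    rw [hℓ]
    have := congrFun hw p
    rw [Matrix.mulVec, dotProduct, Pi.zero_apply] at this
    rw [← this]
    exact Finset.sum_congr rfl fun i _ => mul_comm _ _
  let g : R →ₗ[R] ((m → R) ⧸ Submodule.span R (Set.range A)) :=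
    (Submodule.mkQ _) ∘ₗ (LinearMap.single R (fun _ => R) q)
  have hg : Function.Injective g := by
    rw [← LinearMap.ker_eq_bot, LinearMap.ker_eq_bot']
    intro x hx
    have h1 : (Pi.single q x : m → R) ∈ Submodule.span R (Set.range A) :=
      (Submodule.Quotient.mk_eq_zero _).1 hx
    have h2 : ℓ (Pi.single q x) = 0 := hker h1
    rw [hℓ, Finset.sum_eq_single q] at h2
    · rw [Pi.single_eq_same] at h2
      exact (mul_eq_zero.1 h2).resolve_left hq
    · intro i _ hi
      rw [Pi.single_eq_of_ne hi, mul_zero]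
    · intro hh
      exact absurd (Finset.mem_univ q) hh
  have h3 : Module.length R R ≠ ⊤ := fun hh =>
    h (top_le_iff.1 (hh ▸ Module.length_le_of_injective g hg))
  have h4 : IsArtinian R R := (isFiniteLength_iff_isNoetherian_isArtinian.1
    (Module.length_ne_top_iff.1 h3)).2
  have h5 : IsArtinianRing R := h4
  exact IsDiscreteValuationRing.not_isField R (IsArtinianRing.isField_of_isDomain R)

private theorem ChColen_ord_series {L : Type} [Field L] (f : L⟦X⟧) (hf : f ≠ 0) :
    Ring.ord L⟦X⟧ f = f.order := by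
  have h1 : f.order = (f.order.toNat : ℕ∞) := by
    rw [ENat.natCast_toNat]
    exact fun h => hf (PowerSeries.order_eq_top.1 h)
  have h2 : IsUnit (divXPowOrder f) := by
    rw [PowerSeries.isUnit_iff_constantCoeff, isUnit_iff_ne_zero, constantCoeff_divXPowOrder]
    exact coeff_order hf
  conv_lhs => rw [← X_pow_order_mul_divXPowOrder (f := f)]
  rw [Ring.ord_mul_of_isUnit_right h2, Ring.ord_pow (mem_nonZeroDivisors_of_ne_zero X_ne_zero),
    Ring.ord_of_irreducible X_irreducible, nsmul_eq_mul, mul_one, ← h1]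

/-- CH09. If `Ξ ⊆ O^n` has finite colength and is contained in the image of the matrix `Z`, then
`det Z ≠ 0` and `ord det Z ≤ colen Ξ`. (`X ^ N O^n ⊆ Z O^n` gives `det Z ≠ 0`; the length of
`O^n / Z O^n` is the order of `det Z`: Smith normal form, or the exact sequences
`Z O^n ⊇ Z Z' O^n`, or `colen_anti` and a determinant computation; see `Lib_GD/Colen.lean` and
the file `Lib_GD/PhiDet.lean` for similar statements.) -/
theorem order_det_le_colen {L : Type} [Field L] {n : ℕ}
    (Ξ : Submodule L⟦X⟧ (Fin n → L⟦X⟧)) (hΞ : FinColen Ξ)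
    (Z : Matrix (Fin n) (Fin n) L⟦X⟧) (hZ : ∀ v ∈ Ξ, ∃ w, v = Z.mulVec w) :
    Z.det ≠ 0 ∧ Z.det.order ≤ (colen Ξ : ℕ) := by
  set N : Submodule L⟦X⟧ (Fin n → L⟦X⟧) := Submodule.span L⟦X⟧ (Set.range Z.transpose) with hN
  have hle : Ξ ≤ N := by
    intro v hv
    obtain ⟨w, rfl⟩ := hZ v hv
    have h1 : Z.mulVec w = ∑ j, w j • Z.transpose j := by
      funext i
      rw [Matrix.mulVec, dotProduct, Finset.sum_apply]
      refine Finset.sum_congr rfl fun j _ => ?_
      rw [Pi.smul_apply, Matrix.transpose_apply, smul_eq_mul, mul_comm]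
    rw [h1]
    exact Submodule.sum_mem _ fun j _ => Submodule.smul_mem _ _
      (Submodule.subset_span ⟨j, rfl⟩)
  have hNf : FinColen N := finColen_mono hle hΞ
  have hdet : Z.transpose.det ≠ 0 := ChColen_det_ne Z.transpose hNf
  have hdet' : Z.det ≠ 0 := by rwa [Matrix.det_transpose] at hdet
  refine ⟨hdet', ?_⟩
  have h1 := ChColen_length Z.transpose hdet
  rw [Matrix.det_transpose, ChColen_ord_series _ hdet'] at h1
  rw [← h1]
  have h2 : ((colen N : ℕ) : ℕ∞) = Module.length L⟦X⟧ ((Fin n → L⟦X⟧) ⧸ N) :=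
    ENat.natCast_toNat hNf
  rw [← h2]
  exact_mod_cast colen_anti hle hΞ

end Pool.Agent.Lib_KF

end

/-! ### from `Lib_MP_e0d435_kv.Tie` -/

section

/-! V11: a vanishing sum has two large terms. -/

namespace Pool.Agent.Lib_MP_e0d435_kv

/-- Proof: `log ε < 0`, so the least `lg ε (a l) + l lg ε ζ = lg ε (a l ζ ^ l)` belongs to the
largest term; `j₀` a largest term, `j₁` a largest among the others (there are others because the
sum of a single non-zero term is not zero): `|term j₀| ≤ ∑ others ≤ s.card |term j₁|`. -/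
theorem exists_tie (a : ℕ → ℂ) (ζ : ℂ) (hζ : ζ ≠ 0) (s : Finset ℕ) (hs : ∀ j ∈ s, a j ≠ 0)
    (hne : s.Nonempty) (h : ∑ j ∈ s, a j * ζ ^ j = 0) (ε : ℝ) (hε : 0 < ε) (hε1 : ε < 1) :
    ∃ j₀ ∈ s, ∃ j₁ ∈ s, j₀ ≠ j₁ ∧
      (∀ l ∈ s, lg ε (a j₀) + j₀ * lg ε ζ ≤ lg ε (a l) + l * lg ε ζ) ∧
      (∀ l ∈ s, lg ε (a j₁) + j₁ * lg ε ζ ≤
        lg ε (a l) + l * lg ε ζ + Real.log s.card / |Real.log ε|) := by
  classical
  have hlog : Real.log ε < 0 := Real.log_neg hε hε1
  set L : ℝ := |Real.log ε| with hL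
  have hL0 : 0 < L := abs_pos.2 hlog.ne
  have hLe : Real.log ε = -L := by rw [hL, abs_of_neg hlog, neg_neg]
  set T : ℕ → ℝ := fun j => ‖a j * ζ ^ j‖ with hT
  have hTpos : ∀ j ∈ s, 0 < T j := fun j hj =>
    norm_pos_iff.2 (mul_ne_zero (hs j hj) (pow_ne_zero _ hζ))
  have hlg : ∀ j ∈ s, lg ε (a j) + j * lg ε ζ = -(Real.log (T j) / L) := by
    intro j hj
    have h1 : Real.log (T j) = Real.log ‖a j‖ + j * Real.log ‖ζ‖ := by
      simp only [hT]
      rw [norm_mul, norm_pow, Real.log_mul (norm_ne_zero_iff.2 (hs j hj))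
        (pow_ne_zero _ (norm_ne_zero_iff.2 hζ)), Real.log_pow]
    unfold lg
    rw [h1, hLe]
    field_simp
    ring
  obtain ⟨j₀, hj₀, hmax⟩ := s.exists_max_image T hne
  have hne' : (s.erase j₀).Nonempty := by
    rw [Finset.nonempty_iff_ne_empty]
    intro he
    rw [← Finset.add_sum_erase s _ hj₀, he, Finset.sum_empty, add_zero] at h
    exact mul_ne_zero (hs j₀ hj₀) (pow_ne_zero _ hζ) h
  obtain ⟨j₁, hj₁, hmax₁⟩ := (s.erase j₀).exists_max_image T hne'
  have hj₁s : j₁ ∈ s := Finset.mem_of_mem_erase hj₁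
  have hcard : (1 : ℝ) ≤ s.card := by
    exact_mod_cast hne.card_pos
  have hbig : ∀ l ∈ s, T l ≤ s.card * T j₁ := by
    have h0 : T j₀ ≤ s.card * T j₁ := by
      have h1 : a j₀ * ζ ^ j₀ = -∑ j ∈ s.erase j₀, a j * ζ ^ j := by
        rw [← Finset.add_sum_erase s _ hj₀] at h
        exact eq_neg_of_add_eq_zero_left h
      calc T j₀ = ‖∑ j ∈ s.erase j₀, a j * ζ ^ j‖ := by
            simp only [hT]
            rw [h1, norm_neg]
        _ ≤ ∑ j ∈ s.erase j₀, T j := norm_sum_le _ _
        _ ≤ ∑ _j ∈ s.erase j₀, T j₁ := Finset.sum_le_sum fun j hj => hmax₁ j hj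
        _ = (s.erase j₀).card * T j₁ := by rw [Finset.sum_const, nsmul_eq_mul]
        _ ≤ s.card * T j₁ := by
            have h2 : ((s.erase j₀).card : ℝ) ≤ s.card := by
              exact_mod_cast Finset.card_le_card (Finset.erase_subset _ _)
            exact mul_le_mul_of_nonneg_right h2 (hTpos j₁ hj₁s).le
    exact fun l hl => (hmax l hl).trans h0
  refine ⟨j₀, hj₀, j₁, hj₁s, (Finset.ne_of_mem_erase hj₁).symm, ?_, ?_⟩
  · intro l hl
    rw [hlg j₀ hj₀, hlg l hl, neg_le_neg_iff]
    exact div_le_div_of_nonneg_right (Real.log_le_log (hTpos l hl) (hmax l hl)) hL0.le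
  · intro l hl
    rw [hlg j₁ hj₁s, hlg l hl]
    have h1 : Real.log (T l) ≤ Real.log s.card + Real.log (T j₁) := by
      rw [← Real.log_mul (by linarith) (hTpos j₁ hj₁s).ne']
      exact Real.log_le_log (hTpos l hl) (hbig l hl)
    have h2 : Real.log (T l) / L ≤ (Real.log s.card + Real.log (T j₁)) / L :=
      div_le_div_of_nonneg_right h1 hL0.le
    rw [add_div] at h2
    linarith

end Pool.Agent.Lib_MP_e0d435_kv

end

/-! ### from `Lib_MP_e0d435_kv.AdDiv` -/

section

/-! AD5b: the divisor over `X` of an arc. -/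

namespace Pool.Agent.Lib_MP_e0d435_kv

open Pool.Agent.Lib_GD Pool.Agent.Lib_KF

variable {R : Type} [CommRing R] [Algebra ℂ R] {𝒜 : ℕ → Submodule ℂ R} [GradedAlgebra 𝒜]
  {n r d : ℕ} {x : Fin (n + 1) → R} {G : R} {M : Type} [Field M] [Algebra ℂ M]

section AdDivAux

open DirectSum

/-- The dehomogenisation `s = ∑ s_m ↦ ∑ φ(s_m)/θ^m`. -/
private noncomputable def AdDiv_psi (𝒜 : ℕ → Submodule ℂ R) [GradedAlgebra 𝒜] (φ : R →ₐ[ℂ] M)
    (θ : M) : R →ₐ[ℂ] M :=
  (DirectSum.toAlgebra ℂ (fun i => 𝒜 i)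
    (fun m => (θ ^ m)⁻¹ • (φ.toLinearMap.comp (𝒜 m).subtype))
    (by
      change (θ ^ 0)⁻¹ • φ (1 : R) = 1
      rw [map_one, pow_zero, inv_one, one_smul])
    (by
      intro i j ai aj
      change (θ ^ (i + j))⁻¹ • φ ((ai : R) * (aj : R)) =
        ((θ ^ i)⁻¹ • φ (ai : R)) * ((θ ^ j)⁻¹ • φ (aj : R))
      rw [map_mul, smul_eq_mul, smul_eq_mul, smul_eq_mul, pow_add, mul_inv]
      ring)).comp
    (DirectSum.decomposeAlgEquiv 𝒜).toAlgHom

private theorem AdDiv_psi_of_mem (𝒜 : ℕ → Submodule ℂ R) [GradedAlgebra 𝒜] (φ : R →ₐ[ℂ] M)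
    (θ : M) {m : ℕ} {s : R} (hs : s ∈ 𝒜 m) : AdDiv_psi 𝒜 φ θ s = (θ ^ m)⁻¹ * φ s := by
  have h1 : (DirectSum.decomposeAlgEquiv 𝒜).toAlgHom s =
      DirectSum.of (fun i => 𝒜 i) m ⟨s, hs⟩ := by
    change DirectSum.decomposeAlgEquiv 𝒜 s = _
    rw [DirectSum.decomposeAlgEquiv_apply, DirectSum.decompose_of_mem]
  unfold AdDiv_psi
  rw [AlgHom.comp_apply, h1]
  exact DirectSum.toAddMonoid_of
    (fun m => ((θ ^ m)⁻¹ • (φ.toLinearMap.comp (𝒜 m).subtype) : 𝒜 m →ₗ[ℂ] M).toAddMonoidHom)
    m ⟨s, hs⟩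

private theorem AdDiv_psi_mem (𝒜 : ℕ → Submodule ℂ R) [GradedAlgebra 𝒜] (φ : R →ₐ[ℂ] M)
    (θ : M) (V : Subalgebra ℂ M) (hV : ∀ m, ∀ s ∈ 𝒜 m, (θ ^ m)⁻¹ * φ s ∈ V) (s : R) :
    AdDiv_psi 𝒜 φ θ s ∈ V := by
  classical
  rw [← DirectSum.sum_support_decompose 𝒜 s, map_sum]
  refine Subalgebra.sum_mem _ fun m _ => ?_
  rw [AdDiv_psi_of_mem 𝒜 φ θ (SetLike.coe_mem _)]
  exact hV m _ (SetLike.coe_mem _)

/-- The fraction field of a subalgebra `V` of `K`, all elements of `K` being quotients. -/
private theorem AdDiv_frac (V : Subalgebra ℂ M) (K : IntermediateField ℂ M)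
    (hVK : V ≤ K.toSubalgebra) (hfrac : ∀ f ∈ K, ∃ a b : V, b ≠ 0 ∧ f * b = a) :
    Nonempty (FractionRing V ≃ₐ[ℂ] K) := by
  let : Algebra V K := (Subalgebra.inclusion hVK).toRingHom.toAlgebra
  have hinj : Function.Injective (algebraMap V K) := Subalgebra.inclusion_injective hVK
  have hf : FaithfulSMul V K := (faithfulSMul_iff_algebraMap_injective _ _).2 hinj
  have hst : IsScalarTower ℂ V K := IsScalarTower.of_algebraMap_eq fun _ => rfl
  have hfr : IsFractionRing V K := by
    apply IsFractionRing.of_field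
    intro z
    obtain ⟨a, b, hb, hab⟩ := hfrac z z.2
    refine ⟨a, b, ?_⟩
    have hb' : algebraMap V K b ≠ 0 := by
      intro h
      exact hb (hinj (by rw [h, map_zero]))
    rw [eq_div_iff hb']
    exact Subtype.ext hab
  exact ⟨(FractionRing.algEquiv V K).restrictScalars ℂ⟩

/-- The transcendence degree of a domain over `ℂ` is that of its fraction field. -/
private theorem AdDiv_trdeg (V : Type) [CommRing V] [IsDomain V] [Algebra ℂ V] :
    Algebra.trdeg ℂ V = Algebra.trdeg ℂ (FractionRing V) := by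
  have h1 : Algebra.IsAlgebraic V (FractionRing V) :=
    IsLocalization.isAlgebraic (FractionRing V) (nonZeroDivisors V)
  have h2 := trdeg_add_eq ℂ V (A := FractionRing V)
  rwa [trdeg_eq_zero_iff.2 h1, add_zero] at h2

end AdDivAux

/-- Proof: `V = vfun w (funField 𝒜 φ hφ)`, `σ` the inclusion, `E.φ 0 s = ∑_m φ(s_m)/θ^m`, where
`s = ∑ s_m` is the decomposition and `θ = φ(g)/φ(f)`, of order `w₁`; an algebra homomorphism
(multiplicative because the degrees add), with values in `V` because
`φ(s_m)/θ^m = φ(s_m f^m)/φ(g^m)` is in the function field (degrees `m + k m = (k+1) m`) and of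
order `≥ 0`. Centre: `x b` becomes a unit (order `0`, and its inverse is in the function field).
`generates`: the fraction field of `V` is the function field (`hfrac`), generated by the quotients.
`trdeg`: AD5a (`V` has the same transcendence degree as its fraction field, the function field).
`essFiniteType`: `essFiniteType_of_residue` (`Lib_GD/EssRes.lean`) with `v`, `funField_fg`,
`funField_trdeg`. -/
theorem exists_divisorOver (h : IsFano 𝒜 n r d x G) (hn : 1 ≤ n) (w : AddValuation M (WithTop ℤ))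
    (φ : R →ₐ[ℂ] M) (hφ : Function.Injective φ) (w₁ : ℤ) (k : ℕ) (f g : R) (hf : f ∈ 𝒜 k)
    (hg : g ∈ 𝒜 (k + 1)) (hf0 : f ≠ 0) (hg0 : g ≠ 0) (hfo : ordZ w (φ f) = k * w₁)
    (hgo : ordZ w (φ g) = (k + 1) * w₁)
    (hmin : ∀ m : ℕ, ∀ s ∈ 𝒜 m, s ≠ 0 → m * w₁ ≤ ordZ w (φ s))
    (b : Fin (n + 1)) (hb : ordZ w (φ (x b)) = d * w₁)
    (hV : IsDiscreteValuationRing (vfun w (funField 𝒜 φ hφ)))
    (hfrac : ∀ f ∈ funField 𝒜 φ hφ, ∃ a b : vfun w (funField 𝒜 φ hφ), b ≠ 0 ∧ f * b = a)
    (v : Fin (n - 1) → vfun w (funField 𝒜 φ hφ))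
    (hv : AlgebraicIndependent ℂ
      (fun i => IsLocalRing.residue (vfun w (funField 𝒜 φ hφ)) (v i))) :
    ∃ (E : DivisorOver 𝒜 n 1) (σ : E.V ≃ₐ[ℂ] vfun w (funField 𝒜 φ hφ)),
      (∀ m, ∀ s ∈ 𝒜 m, (σ (E.φ 0 s) : M) * (φ g / φ f) ^ m = φ s) ∧ IsUnit (E.φ 0 (x b)) := by
  have hdom := h.domain
  have hne : ∀ s : R, s ≠ 0 → φ s ≠ 0 := fun s hs h0 => hs (hφ (by rw [h0, map_zero]))
  have hf1 := hne f hf0
  have hg1 := hne g hg0
  set θ : M := φ g / φ f with hθ
  have hθ0 : θ ≠ 0 := div_ne_zero hg1 hf1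
  have hθo : ordZ w θ = w₁ := by
    rw [hθ, ordZ_div w hg1 hf1, hfo, hgo]; ring
  have hfpow : ∀ m : ℕ, f ^ m ∈ 𝒜 (m * k) := fun m => by
    have := SetLike.pow_mem_graded m hf
    rwa [smul_eq_mul] at this
  have hgpow : ∀ m : ℕ, g ^ m ∈ 𝒜 (m * (k + 1)) := fun m => by
    have := SetLike.pow_mem_graded m hg
    rwa [smul_eq_mul] at this
  -- the quotients by powers of theta
  have hK : ∀ m, ∀ s ∈ 𝒜 m, (θ ^ m)⁻¹ * φ s ∈ funField 𝒜 φ hφ := by
    intro m s hs
    refine ⟨m * (k + 1), s * f ^ m, ?_, g ^ m, hgpow m, pow_ne_zero m hg0, ?_⟩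
    · have := SetLike.mul_mem_graded hs (hfpow m)
      have h2 : m + m * k = m * (k + 1) := by ring
      rwa [h2] at this
    · rw [map_mul, map_pow, map_pow, hθ, div_pow, inv_div]
      field_simp
  have hord : ∀ m, ∀ s ∈ 𝒜 m, 0 ≤ w ((θ ^ m)⁻¹ * φ s) := by
    intro m s hs
    by_cases hs0 : s = 0
    · rw [hs0, map_zero, mul_zero, AddValuation.map_zero]; exact le_top
    · have h1 : (θ ^ m)⁻¹ * φ s ≠ 0 :=
        mul_ne_zero (inv_ne_zero (pow_ne_zero m hθ0)) (hne s hs0)
      have h2 := (le_w_iff w h1 0).2 (by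
        rw [ordZ_mul w (inv_ne_zero (pow_ne_zero m hθ0)) (hne s hs0),
          ordZ_inv w (pow_ne_zero m hθ0), ordZ_pow w hθ0, hθo]
        have := hmin m s hs hs0
        linarith)
      exact h2
  have hVK : vfun w (funField 𝒜 φ hφ) ≤ (funField 𝒜 φ hφ).toSubalgebra := fun z hz => hz.1
  have hmem : ∀ s, AdDiv_psi 𝒜 φ θ s ∈ vfun w (funField 𝒜 φ hφ) :=
    AdDiv_psi_mem 𝒜 φ θ _ fun m s hs => ⟨hK m s hs, hord m s hs⟩
  let ψ : R →ₐ[ℂ] vfun w (funField 𝒜 φ hφ) := AlgHom.codRestrict (AdDiv_psi 𝒜 φ θ) _ hmem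
  have hψ : ∀ m, ∀ s ∈ 𝒜 m, ((ψ s : vfun w (funField 𝒜 φ hφ)) : M) = (θ ^ m)⁻¹ * φ s :=
    fun m s hs => AdDiv_psi_of_mem 𝒜 φ θ hs
  obtain ⟨e⟩ := AdDiv_frac (vfun w (funField 𝒜 φ hφ)) (funField 𝒜 φ hφ) hVK hfrac
  have htr : Algebra.trdeg ℂ (vfun w (funField 𝒜 φ hφ)) = (n : ℕ) := by
    rw [AdDiv_trdeg, e.trdeg_eq]
    exact funField_trdeg h φ hφ
  have hfg : Algebra.EssFiniteType ℂ (FractionRing (vfun w (funField 𝒜 φ hφ))) :=
    (Algebra.EssFiniteType.iff_of_algEquiv e).2 (funField_fg h φ hφ)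
  have hess := essFiniteType_of_residue (vfun w (funField 𝒜 φ hφ)) n hn htr hfg v hv
  have hunit : IsUnit (ψ (x b)) := by
    have hx0 : x b ≠ 0 := h.x_indep.ne_zero b
    have h1 : ((ψ (x b) : vfun w (funField 𝒜 φ hφ)) : M) = (θ ^ d)⁻¹ * φ (x b) :=
      hψ d _ (h.x_mem b)
    have h2 : (θ ^ d)⁻¹ * φ (x b) ≠ 0 :=
      mul_ne_zero (inv_ne_zero (pow_ne_zero d hθ0)) (hne _ hx0)
    have h3 : ordZ w ((θ ^ d)⁻¹ * φ (x b)) = 0 := by
      rw [ordZ_mul w (inv_ne_zero (pow_ne_zero d hθ0)) (hne _ hx0),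
        ordZ_inv w (pow_ne_zero d hθ0), ordZ_pow w hθ0, hθo, hb]
      ring
    have h4 : ((θ ^ d)⁻¹ * φ (x b))⁻¹ ∈ vfun w (funField 𝒜 φ hφ) := by
      refine ⟨(funField 𝒜 φ hφ).inv_mem (hK d _ (h.x_mem b)), ?_⟩
      have := (le_w_iff w (inv_ne_zero h2) 0).2 (by rw [ordZ_inv w h2, h3, neg_zero])
      exact this
    refine IsUnit.of_mul_eq_one ⟨_, h4⟩ (Subtype.ext ?_)
    change ((ψ (x b) : vfun w (funField 𝒜 φ hφ)) : M) * ((θ ^ d)⁻¹ * φ (x b))⁻¹ = 1
    rw [h1, mul_inv_cancel₀ h2]
  have hgen : IntermediateField.adjoin ℂ {z : FractionRing (vfun w (funField 𝒜 φ hφ)) |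
      ∃ (_ : Fin 1), ∃ m, ∃ s ∈ 𝒜 m, ∃ s' ∈ 𝒜 m,
      ψ s' ≠ 0 ∧ z = algebraMap (vfun w (funField 𝒜 φ hφ))
        (FractionRing (vfun w (funField 𝒜 φ hφ))) (ψ s) /
        algebraMap (vfun w (funField 𝒜 φ hφ))
        (FractionRing (vfun w (funField 𝒜 φ hφ))) (ψ s')} = ⊤ := by
    rw [eq_top_iff]
    have key : ∀ a : vfun w (funField 𝒜 φ hφ),
        algebraMap (vfun w (funField 𝒜 φ hφ)) (FractionRing (vfun w (funField 𝒜 φ hφ))) a ∈
        IntermediateField.adjoin ℂ {z : FractionRing (vfun w (funField 𝒜 φ hφ)) |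
          ∃ (_ : Fin 1), ∃ m, ∃ s ∈ 𝒜 m, ∃ s' ∈ 𝒜 m,
          ψ s' ≠ 0 ∧ z = algebraMap (vfun w (funField 𝒜 φ hφ))
            (FractionRing (vfun w (funField 𝒜 φ hφ))) (ψ s) /
            algebraMap (vfun w (funField 𝒜 φ hφ))
            (FractionRing (vfun w (funField 𝒜 φ hφ))) (ψ s')} := by
      intro a
      obtain ⟨m, s, hs, s', hs', hs0, hss⟩ := a.2.1
      have hs1 : ψ s' ≠ 0 := by
        intro h0
        have h1 := hψ m s' hs'
        rw [h0] at h1
        exact mul_ne_zero (inv_ne_zero (pow_ne_zero m hθ0)) (hne _ hs0) h1.symm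
      apply IntermediateField.subset_adjoin
      refine ⟨0, m, s, hs, s', hs', hs1, ?_⟩
      have h2 : algebraMap (vfun w (funField 𝒜 φ hφ))
          (FractionRing (vfun w (funField 𝒜 φ hφ))) (ψ s') ≠ 0 := by
        intro h0
        apply hs1
        apply IsFractionRing.injective (vfun w (funField 𝒜 φ hφ))
          (FractionRing (vfun w (funField 𝒜 φ hφ)))
        rw [h0, map_zero]
      rw [eq_div_iff h2, ← map_mul]
      congr 1
      apply Subtype.ext
      change (a : M) * ((ψ s' : vfun w (funField 𝒜 φ hφ)) : M) =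
        ((ψ s : vfun w (funField 𝒜 φ hφ)) : M)
      rw [hψ m s hs, hψ m s' hs', ← hss]
      ring
    intro z _
    obtain ⟨a, c, hc, rfl⟩ := IsFractionRing.div_surjective (A := vfun w (funField 𝒜 φ hφ)) z
    exact div_mem (key a) (key c)
  refine ⟨{ V := vfun w (funField 𝒜 φ hφ)
            φ := fun _ => ψ
            centre := fun _ => ⟨d, h.d_pos, x b, h.x_mem b, hunit⟩
            generates := hgen
            trdeg := by rw [htr, mul_one] }, AlgEquiv.refl, ?_, hunit⟩
  intro m s hs
  change ((ψ s : vfun w (funField 𝒜 φ hφ)) : M) * θ ^ m = φ s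
  rw [hψ m s hs, mul_comm, ← mul_assoc, mul_inv_cancel₀ (pow_ne_zero m hθ0), one_mul]

end Pool.Agent.Lib_MP_e0d435_kv

end

/-! ### from `Lib_KF.GPhi` -/

section

/-!
# G2e: the operators `F a γ` on sections with coefficients in `L⟦X⟧`
-/

open PowerSeries

namespace Pool.Agent.Lib_KF

open Pool.Agent.Lib_GD

variable {R : Type} [CommRing R] [Algebra ℂ R] {n : ℕ} {x : Fin (n + 1) → R}
  {L : Type} [Field L] [Algebra ℂ L]

/-- `∑_κ r_κ Y^κ ↦ ∑_κ f^κ (F a γ r_κ) (x_j)`. -/
noncomputable def phiG (T : DerData x) (a : Fin (n + 1)) (xj : R →ₐ[ℂ] L⟦X⟧) {M : ℕ}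
    (f : Fin M → L⟦X⟧) (γ : Fin n →₀ ℕ) (u : MvPolynomial (Fin M) R) : L⟦X⟧ :=
  u.support.sum fun κ => xj (T.F a γ (MvPolynomial.coeff κ u)) * ∏ i, f i ^ κ i

private theorem gphi_sup (T : DerData x) (a : Fin (n + 1)) (xj : R →ₐ[ℂ] L⟦X⟧) {M : ℕ}
    (f : Fin M → L⟦X⟧) (γ : Fin n →₀ ℕ) (u : MvPolynomial (Fin M) R)
    (s : Finset (Fin M →₀ ℕ)) (hs : u.support ⊆ s) :
    phiG T a xj f γ u =
      ∑ κ ∈ s, xj (T.F a γ (MvPolynomial.coeff κ u)) * ∏ i, f i ^ κ i := by
  refine Finset.sum_subset hs fun κ _ hκ => ?_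
  rw [MvPolynomial.notMem_support_iff.1 hκ, map_zero, map_zero, zero_mul]

theorem phiG_add (T : DerData x) (a : Fin (n + 1)) (xj : R →ₐ[ℂ] L⟦X⟧) {M : ℕ}
    (f : Fin M → L⟦X⟧) (γ : Fin n →₀ ℕ) (u v : MvPolynomial (Fin M) R) :
    phiG T a xj f γ (u + v) = phiG T a xj f γ u + phiG T a xj f γ v := by
  classical
  rw [gphi_sup T a xj f γ (u + v) (u.support ∪ v.support) MvPolynomial.support_add,
    gphi_sup T a xj f γ u (u.support ∪ v.support) Finset.subset_union_left,
    gphi_sup T a xj f γ v (u.support ∪ v.support) Finset.subset_union_right,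
    ← Finset.sum_add_distrib]
  refine Finset.sum_congr rfl fun κ _ => ?_
  rw [MvPolynomial.coeff_add, map_add, map_add, add_mul]

private theorem gphi_zero (T : DerData x) (a : Fin (n + 1)) (xj : R →ₐ[ℂ] L⟦X⟧) {M : ℕ}
    (f : Fin M → L⟦X⟧) (γ : Fin n →₀ ℕ) :
    phiG T a xj f γ (0 : MvPolynomial (Fin M) R) = 0 := by
  rw [gphi_sup T a xj f γ 0 ∅ (by simp), Finset.sum_empty]

private theorem gphi_monomial (T : DerData x) (a : Fin (n + 1)) (xj : R →ₐ[ℂ] L⟦X⟧) {M : ℕ}
    (f : Fin M → L⟦X⟧) (γ : Fin n →₀ ℕ) (κ : Fin M →₀ ℕ) (r : R) :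
    phiG T a xj f γ (MvPolynomial.monomial κ r) = xj (T.F a γ r) * ∏ i, f i ^ κ i := by
  classical
  rw [gphi_sup T a xj f γ _ {κ} MvPolynomial.support_monomial_subset, Finset.sum_singleton,
    MvPolynomial.coeff_monomial, if_pos rfl]

private theorem gphi_sum (T : DerData x) (a : Fin (n + 1)) (xj : R →ₐ[ℂ] L⟦X⟧) {M : ℕ}
    (f : Fin M → L⟦X⟧) (γ : Fin n →₀ ℕ) {ι : Type} (s : Finset ι)
    (u : ι → MvPolynomial (Fin M) R) :
    phiG T a xj f γ (∑ i ∈ s, u i) = ∑ i ∈ s, phiG T a xj f γ (u i) := by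
  classical
  induction s using Finset.induction_on with
  | empty => rw [Finset.sum_empty, Finset.sum_empty, gphi_zero]
  | insert i s hi ih => rw [Finset.sum_insert hi, Finset.sum_insert hi, phiG_add, ih]

/-- Leibniz rule, from `F_mul` (for monomials, then bilinear extension). -/
theorem phiG_mul (T : DerData x) (a : Fin (n + 1)) (xj : R →ₐ[ℂ] L⟦X⟧) {M : ℕ}
    (f : Fin M → L⟦X⟧) (γ : Fin n →₀ ℕ) (u v : MvPolynomial (Fin M) R) :
    phiG T a xj f γ (u * v) = ∑ p ∈ Finset.HasAntidiagonal.antidiagonal γ,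
      algebraMap ℂ L⟦X⟧ (binG p.1 p.2) * (phiG T a xj f p.1 u * phiG T a xj f p.2 v) := by
  induction u using MvPolynomial.induction_on' with
  | monomial κ r =>
    induction v using MvPolynomial.induction_on' with
    | monomial κ' r' =>
      rw [MvPolynomial.monomial_mul, gphi_monomial, T.F_mul, map_sum, Finset.sum_mul]
      refine Finset.sum_congr rfl fun p _ => ?_
      rw [gphi_monomial, gphi_monomial, map_smul, map_mul, Algebra.smul_def]
      have h : ∏ i, f i ^ (κ + κ') i = (∏ i, f i ^ κ i) * ∏ i, f i ^ κ' i := by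
        rw [← Finset.prod_mul_distrib]
        refine Finset.prod_congr rfl fun i _ => ?_
        rw [Finsupp.add_apply, pow_add]
      rw [h]
      ring
    | add p q hp hq =>
      rw [mul_add, phiG_add, hp, hq, ← Finset.sum_add_distrib]
      refine Finset.sum_congr rfl fun p _ => ?_
      rw [phiG_add]
      ring
  | add p q hp hq =>
    rw [add_mul, phiG_add, hp, hq, ← Finset.sum_add_distrib]
    refine Finset.sum_congr rfl fun p _ => ?_
    rw [phiG_add]
    ring

theorem phiG_lin (T : DerData x) (a : Fin (n + 1)) (xj : R →ₐ[ℂ] L⟦X⟧) {M : ℕ}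
    (f : Fin M → L⟦X⟧) (γ : Fin n →₀ ℕ) (s : Fin M → R) :
    phiG T a xj f γ (∑ i, MvPolynomial.X i * MvPolynomial.C (s i)) =
      ∑ i, f i * xj (T.F a γ (s i)) := by
  classical
  rw [gphi_sum]
  refine Finset.sum_congr rfl fun i _ => ?_
  have h1 : (MvPolynomial.X i * MvPolynomial.C (s i) : MvPolynomial (Fin M) R) =
      MvPolynomial.monomial (Finsupp.single i 1) (s i) := by
    rw [mul_comm, MvPolynomial.C_mul_X_eq_monomial]
  rw [h1, gphi_monomial, mul_comm]
  congr 1
  rw [Finset.prod_eq_single i]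
  · rw [Finsupp.single_eq_same, pow_one]
  · intro j _ hj
    rw [Finsupp.single_eq_of_ne hj, pow_zero]
  · intro h
    exact absurd (Finset.mem_univ i) h

/-- On polynomials in the `x b` with coefficients in `ℂ[Y]` (from `F_poly`): the derivative of
the polynomial `P` with `Y := f`, at the point `xj (x b)`, times `xj h ^ |γ|`. -/
theorem phiG_poly (T : DerData x) (a : Fin (n + 1)) (xj : R →ₐ[ℂ] L⟦X⟧) {M : ℕ}
    (f : Fin M → L⟦X⟧) (γ : Fin n →₀ ℕ)
    (P : MvPolynomial (Fin (n + 1)) (MvPolynomial (Fin M) ℂ)) :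
    phiG T a xj f γ (MvPolynomial.eval₂ (MvPolynomial.map (algebraMap ℂ R))
        (fun b => (MvPolynomial.C (x b) : MvPolynomial (Fin M) R)) P) =
      xj T.h ^ γ.degree * MvPolynomial.eval (fun b => xj (x b))
        (pdL a γ (MvPolynomial.map ((MvPolynomial.aeval f : MvPolynomial (Fin M) ℂ →ₐ[ℂ] L⟦X⟧) :
          MvPolynomial (Fin M) ℂ →+* L⟦X⟧) P)) := by
  induction P using MvPolynomial.induction_on' with
  | add p q hp hq =>
    rw [MvPolynomial.eval₂_add, phiG_add, hp, hq, map_add, map_add, map_add, mul_add]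
  | monomial κ q =>
    induction q using MvPolynomial.induction_on' with
    | add p q hp hq =>
      rw [map_add, MvPolynomial.eval₂_add, phiG_add, hp, hq, map_add, map_add, map_add, mul_add]
    | monomial μ c =>
      have h1 : MvPolynomial.eval₂ (MvPolynomial.map (algebraMap ℂ R))
          (fun b => (MvPolynomial.C (x b) : MvPolynomial (Fin M) R))
          (MvPolynomial.monomial κ (MvPolynomial.monomial μ c)) =
          MvPolynomial.monomial μ (MvPolynomial.aeval x (MvPolynomial.monomial κ c)) := by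
        rw [MvPolynomial.eval₂_monomial, MvPolynomial.map_monomial, MvPolynomial.aeval_monomial]
        have h2 : (κ.prod fun b k => (MvPolynomial.C (x b) : MvPolynomial (Fin M) R) ^ k) =
            MvPolynomial.C (κ.prod fun b k => x b ^ k) := by
          simp only [Finsupp.prod, map_prod, map_pow]
        rw [h2, mul_comm, MvPolynomial.C_mul_monomial, mul_comm]
      have h3 : MvPolynomial.map ((MvPolynomial.aeval f : MvPolynomial (Fin M) ℂ →ₐ[ℂ] L⟦X⟧) :
          MvPolynomial (Fin M) ℂ →+* L⟦X⟧)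
          (MvPolynomial.monomial κ (MvPolynomial.monomial μ c)) =
          (∏ i, f i ^ μ i) • MvPolynomial.map (algebraMap ℂ L⟦X⟧)
            (MvPolynomial.monomial κ c) := by
        rw [MvPolynomial.map_monomial, MvPolynomial.map_monomial, MvPolynomial.smul_monomial]
        congr 1
        rw [RingHom.coe_coe, MvPolynomial.aeval_monomial, Finsupp.prod_fintype _ _ (by simp),
          smul_eq_mul, mul_comm]
      rw [h1, gphi_monomial, h3, T.F_poly, map_smul, MvPolynomial.smul_eval, pdL_map,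
        pdL_eq_pdG, map_mul, map_pow, MvPolynomial.eval_map]
      have h4 : xj (MvPolynomial.aeval x (pdG a γ (MvPolynomial.monomial κ c))) =
          MvPolynomial.eval₂ (algebraMap ℂ L⟦X⟧) (fun b => xj (x b))
            (pdG a γ (MvPolynomial.monomial κ c)) := by
        rw [← MvPolynomial.aeval_def]
        have h5 : xj.comp (MvPolynomial.aeval x) = MvPolynomial.aeval fun b => xj (x b) := by
          ext b
          simp
        exact DFunLike.congr_fun h5 _
      rw [h4]
      change xj T.h ^ γ.degree * _ * _ = _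
      ring

end Pool.Agent.Lib_KF

end

/-! ### from `Lib_KF.GNorm` -/

section

/-! G2a: the norm of a family of sections. -/

open PowerSeries
open scoped TensorProduct

namespace Pool.Agent.Lib_KF

open Pool.Agent.Lib_GD

section GNormPoly

/-- a determinant with homogeneous entries is homogeneous -/
private theorem GNorm_det {σ K : Type*} [CommRing K] {e : ℕ}
    (B : Matrix (Fin e) (Fin e) (MvPolynomial σ K)) (deg : Fin e → ℕ) (d w : ℕ) (hd : 1 ≤ d)
    (hB : ∀ a b, B a b = 0 ∨ ∃ δ, (B a b).IsHomogeneous δ ∧ d * δ + deg b = w + deg a) :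
    B.det.IsHomogeneous (e * w / d) := by
  classical
  rw [Matrix.det_apply]
  refine MvPolynomial.IsHomogeneous.sum _ _ _ fun σ' _ => ?_
  have hkey : (∏ i, B (σ' i) i).IsHomogeneous (e * w / d) := by
    by_cases h0 : ∃ i, B (σ' i) i = 0
    · obtain ⟨i, hi⟩ := h0
      have hz : (∏ i, B (σ' i) i) = 0 := Finset.prod_eq_zero (Finset.mem_univ i) hi
      exact hz.symm ▸ MvPolynomial.isHomogeneous_zero _ _ _
    · push Not at h0
      have h1 : ∀ i, ∃ δ, (B (σ' i) i).IsHomogeneous δ ∧ d * δ + deg i = w + deg (σ' i) :=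
        fun i => (hB (σ' i) i).resolve_left (h0 i)
      choose δ hδ hs using h1
      have h2 := MvPolynomial.IsHomogeneous.prod Finset.univ (fun i => B (σ' i) i) δ
        fun i _ => hδ i
      have h3 : d * ∑ i, δ i + ∑ i, deg i = e * w + ∑ i, deg i := by
        have h4 : ∑ i, (d * δ i + deg i) = ∑ i, (w + deg (σ' i)) :=
          Finset.sum_congr rfl fun i _ => hs i
        rw [Finset.sum_add_distrib, Finset.sum_add_distrib, ← Finset.mul_sum,
          Equiv.sum_comp σ' deg] at h4
        simpa using h4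
      have h5 : e * w / d = ∑ i, δ i := by
        have h6 : e * w = d * ∑ i, δ i := by omega
        rw [h6, Nat.mul_div_cancel_left _ (by omega)]
      rw [h5]
      exact h2
  have h7 : (Equiv.Perm.sign σ' • ∏ i, B (σ' i) i) =
      ((Equiv.Perm.sign σ' : ℤ) : ℤ) • ∏ i, B (σ' i) i := rfl
  rw [h7]
  have h8 : (∏ i, B (σ' i) i) ∈ MvPolynomial.homogeneousSubmodule σ K (e * w / d) := hkey
  exact (zsmul_mem h8 _ : _ ∈ MvPolynomial.homogeneousSubmodule σ K (e * w / d))

/-- Nullstellensatz: no common zero over `ℂ` gives no common zero over any field -/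
private theorem GNorm_null {σ : Type} {M : ℕ} (P : MvPolynomial σ (MvPolynomial (Fin M) ℂ))
    (hP : ∀ v : Fin M → ℂ, v ≠ 0 →
      MvPolynomial.map ((MvPolynomial.aeval v : MvPolynomial (Fin M) ℂ →ₐ[ℂ] ℂ) :
        MvPolynomial (Fin M) ℂ →+* ℂ) P ≠ 0)
    (L : Type) [Field L] [Algebra ℂ L] (v : Fin M → L) (hv : v ≠ 0) :
    MvPolynomial.map ((MvPolynomial.aeval v : MvPolynomial (Fin M) ℂ →ₐ[ℂ] L) :
      MvPolynomial (Fin M) ℂ →+* L) P ≠ 0 := by
  intro h0
  apply hv
  funext i
  let I : Ideal (MvPolynomial (Fin M) ℂ) := Ideal.span (Set.range fun μ => P.coeff μ)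
  have h1 : MvPolynomial.X i ∈ I.radical := by
    rw [← MvPolynomial.vanishingIdeal_zeroLocus_eq_radical (K := ℂ) I,
      MvPolynomial.mem_vanishingIdeal_iff]
    intro y hy
    rw [MvPolynomial.mem_zeroLocus_iff] at hy
    have h2 : y = 0 := by
      by_contra hne
      refine hP y hne ?_
      ext μ
      rw [MvPolynomial.coeff_map, MvPolynomial.coeff_zero]
      exact hy _ (Ideal.subset_span ⟨μ, rfl⟩)
    rw [h2, MvPolynomial.aeval_X, Pi.zero_apply]
  obtain ⟨N, hN⟩ := h1
  have h3 : I ≤ RingHom.ker ((MvPolynomial.aeval v : MvPolynomial (Fin M) ℂ →ₐ[ℂ] L) :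
      MvPolynomial (Fin M) ℂ →+* L) := by
    refine Ideal.span_le.2 ?_
    rintro _ ⟨μ, rfl⟩
    rw [SetLike.mem_coe, RingHom.mem_ker]
    have h4 := congrArg (MvPolynomial.coeff μ) h0
    rw [MvPolynomial.coeff_map, MvPolynomial.coeff_zero] at h4
    exact h4
  have h5 := h3 hN
  rw [RingHom.mem_ker, map_pow] at h5
  have h6 : (v i) ^ N = 0 := by
    have h7 : ((MvPolynomial.aeval v : MvPolynomial (Fin M) ℂ →ₐ[ℂ] L) :
      MvPolynomial (Fin M) ℂ →+* L) (MvPolynomial.X i) = v i := MvPolynomial.aeval_X v i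
    rw [h7] at h5
    exact h5
  exact eq_zero_of_pow_eq_zero h6

end GNormPoly

variable {R : Type} [CommRing R] [Algebra ℂ R] {𝒜 : ℕ → Submodule ℂ R} [GradedAlgebra 𝒜]
  {n r d : ℕ} {x : Fin (n + 1) → R} {G : R}

private theorem GNorm_mono (hx : ∀ b, x b ∈ 𝒜 d) (μ : Fin (n + 1) →₀ ℕ) (c : ℂ) :
    MvPolynomial.aeval x (MvPolynomial.monomial μ c) ∈ 𝒜 (d * μ.degree) := by
  rw [MvPolynomial.aeval_monomial, ← Algebra.smul_def]
  refine Submodule.smul_mem _ _ ?_
  have h1 := SetLike.prod_pow_mem_graded 𝒜 (fun _ : Fin (n + 1) => d) x (fun b => μ b)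
    (F := μ.support) fun b _ => hx b
  have h2 : d * μ.degree = ∑ b ∈ μ.support, μ b • d := by
    rw [Finsupp.degree_apply, Finset.mul_sum]
    exact Finset.sum_congr rfl fun b _ => by rw [smul_eq_mul, mul_comm]
  rw [h2]
  exact h1

private theorem GNorm_proj (hd : 1 ≤ d) (hx : ∀ b, x b ∈ 𝒜 d) {s : ℕ} {u : R} (hu : u ∈ 𝒜 s)
    (T : ℕ) (p : MvPolynomial (Fin (n + 1)) ℂ) :
    (∀ δ, d * δ + s = T → (DirectSum.decompose 𝒜 (MvPolynomial.aeval x p * u) T : R) =
      MvPolynomial.aeval x (MvPolynomial.homogeneousComponent δ p) * u) ∧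
    ((¬ ∃ δ, d * δ + s = T) →
      (DirectSum.decompose 𝒜 (MvPolynomial.aeval x p * u) T : R) = 0) := by
  classical
  induction p using MvPolynomial.induction_on' with
  | monomial μ c =>
    have hm : MvPolynomial.aeval x (MvPolynomial.monomial μ c) * u ∈ 𝒜 (d * μ.degree + s) :=
      SetLike.mul_mem_graded (GNorm_mono hx μ c) hu
    constructor
    · intro δ hδ
      rw [MvPolynomial.homogeneousComponent_of_mem (MvPolynomial.isHomogeneous_monomial c rfl)]
      by_cases h1 : δ = μ.degree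
      · rw [if_pos h1]
        rw [h1] at hδ
        rw [← hδ]
        exact DirectSum.decompose_of_mem_same 𝒜 hm
      · rw [if_neg h1, map_zero, zero_mul]
        refine DirectSum.decompose_of_mem_ne 𝒜 hm ?_
        intro h2
        apply h1
        have h3 : d * μ.degree = d * δ := by omega
        exact (Nat.eq_of_mul_eq_mul_left (by omega) h3).symm
    · intro h1
      refine DirectSum.decompose_of_mem_ne 𝒜 hm ?_
      intro h2
      exact h1 ⟨_, h2⟩
  | add p q hp hq =>
    have h0 : (DirectSum.decompose 𝒜 (MvPolynomial.aeval x (p + q) * u) T : R) =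
        (DirectSum.decompose 𝒜 (MvPolynomial.aeval x p * u) T : R) +
        (DirectSum.decompose 𝒜 (MvPolynomial.aeval x q * u) T : R) := by
      rw [map_add, add_mul, DirectSum.decompose_add, DirectSum.add_apply, Submodule.coe_add]
    constructor
    · intro δ hδ
      rw [h0, hp.1 δ hδ, hq.1 δ hδ, map_add, map_add, add_mul]
    · intro h1
      rw [h0, hp.2 h1, hq.2 h1, add_zero]

private theorem GNorm_basis (h : IsFano 𝒜 n r d x G) :
    ∃ (e : ℕ) (β : Fin e → R) (deg : Fin e → ℕ) (γ : ℕ) (g : MvPolynomial (Fin (n + 1)) ℂ),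
      g ≠ 0 ∧ (∃ a₀, β a₀ = 1) ∧ (∀ a, β a ∈ 𝒜 (deg a)) ∧
      (∀ p : Fin e → MvPolynomial (Fin (n + 1)) ℂ,
        ∑ a, MvPolynomial.aeval x (p a) * β a = 0 → p = 0) ∧
      ∀ (t : ℕ) (f : R), f ∈ 𝒜 t → ∃ p : Fin e → MvPolynomial (Fin (n + 1)) ℂ,
        MvPolynomial.aeval x g * f = ∑ a, MvPolynomial.aeval x (p a) * β a ∧
        ∀ a, p a = 0 ∨ ∃ δ, (p a).IsHomogeneous δ ∧ d * δ + deg a = d * γ + t := by
  classical
  have := h.domain
  let _ : Algebra (PA n) R :=
    (MvPolynomial.aeval x : MvPolynomial (Fin (n + 1)) ℂ →ₐ[ℂ] R).toRingHom.toAlgebra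
  have hmap : ∀ p : PA n, algebraMap (PA n) R p = MvPolynomial.aeval x p := fun p => rfl
  have : IsScalarTower ℂ (PA n) R := IsScalarTower.of_algebraMap_eq fun c => by
    rw [hmap, MvPolynomial.algebraMap_eq, MvPolynomial.aeval_C]
  have hfin := h.x_finite
  rw [Algebra.adjoin_range_eq_range_aeval] at hfin
  have : Module.Finite (PA n) R := by
    have h1 : (algebraMap (MvPolynomial.aeval x : MvPolynomial (Fin (n + 1)) ℂ →ₐ[ℂ] R).range
        R).Finite := RingHom.finite_algebraMap.2 hfin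
    have h2 : (MvPolynomial.aeval x :
        MvPolynomial (Fin (n + 1)) ℂ →ₐ[ℂ] R).rangeRestrict.toRingHom.Finite :=
      RingHom.Finite.of_surjective _
        (AlgHom.rangeRestrict_surjective (MvPolynomial.aeval x))
    exact RingHom.finite_algebraMap.1 (h1.comp h2)
  have : Module.IsTorsionFree (PA n) R :=
    Module.isTorsionFree_iff_algebraMap_injective.2 h.x_indep
  obtain ⟨k, β, deg, hβ0, hdeg, hβ, hsp⟩ := sh_basis (R := R) (n := n) 𝒜
  choose q hq p hp using hsp
  obtain ⟨S, hS⟩ := (inferInstance : Module.Finite (PA n) R).fg_top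
  have hsp0 : ∀ f : R, ∃ p : Fin (k + 1) → PA n,
      algebraMap (PA n) R (∏ u ∈ S, q u) * f = ∑ a, algebraMap (PA n) R (p a) * β a := by
    intro f
    have hf : f ∈ Submodule.span (PA n) (S : Set R) := by rw [hS]; trivial
    induction hf using Submodule.span_induction with
    | mem u hu =>
      refine ⟨fun a => (∏ u' ∈ S.erase u, q u') * p u a, ?_⟩
      rw [← Finset.mul_prod_erase S q (Finset.mem_coe.1 hu), map_mul,
        mul_comm (algebraMap (PA n) R (q u)), mul_assoc, hp u, Finset.mul_sum]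
      refine Finset.sum_congr rfl fun a _ => ?_
      rw [map_mul, mul_assoc]
    | zero => exact ⟨fun _ => 0, by simp⟩
    | add u v _ _ hu hv =>
      obtain ⟨p₁, h₁⟩ := hu
      obtain ⟨p₂, h₂⟩ := hv
      refine ⟨fun a => p₁ a + p₂ a, ?_⟩
      rw [mul_add, h₁, h₂, ← Finset.sum_add_distrib]
      refine Finset.sum_congr rfl fun a _ => ?_
      rw [map_add, add_mul]
    | smul c u _ hu =>
      obtain ⟨p₁, h₁⟩ := hu
      refine ⟨fun a => c * p₁ a, ?_⟩
      rw [Algebra.smul_def, mul_left_comm, h₁, Finset.mul_sum]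
      refine Finset.sum_congr rfl fun a _ => ?_
      rw [map_mul, mul_assoc]
  have hg0 : (∏ u ∈ S, q u) ≠ 0 := Finset.prod_ne_zero_iff.2 fun u _ => hq u
  obtain ⟨γ, hγ⟩ : ∃ γ, MvPolynomial.homogeneousComponent γ (∏ u ∈ S, q u) ≠ 0 := by
    by_contra hcon
    push Not at hcon
    apply hg0
    rw [← MvPolynomial.sum_homogeneousComponent (∏ u ∈ S, q u)]
    exact Finset.sum_eq_zero fun i _ => hcon i
  refine ⟨k + 1, β, deg, γ, MvPolynomial.homogeneousComponent γ (∏ u ∈ S, q u), hγ, ⟨0, hβ0⟩,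
    hdeg, ?_, ?_⟩
  · intro p hp0
    have h1 := Fintype.linearIndependent_iff.1 hβ p (by
      rw [← hp0]
      exact Finset.sum_congr rfl fun a _ => Algebra.smul_def _ _)
    funext a
    exact h1 a
  · intro t f hf
    obtain ⟨p₀, hp₀⟩ := hsp0 f
    have h1 : (DirectSum.decompose 𝒜 (MvPolynomial.aeval x (∏ u ∈ S, q u) * f) (d * γ + t) : R) =
        MvPolynomial.aeval x (MvPolynomial.homogeneousComponent γ (∏ u ∈ S, q u)) * f :=
      (GNorm_proj h.d_pos h.x_mem hf (d * γ + t) (∏ u ∈ S, q u)).1 γ rfl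
    have h2 : ∀ a, ∃ p' : PA n,
        (DirectSum.decompose 𝒜 (MvPolynomial.aeval x (p₀ a) * β a) (d * γ + t) : R) =
          MvPolynomial.aeval x p' * β a ∧
        (p' = 0 ∨ ∃ δ, p'.IsHomogeneous δ ∧ d * δ + deg a = d * γ + t) := by
      intro a
      have h3 := GNorm_proj h.d_pos h.x_mem (hdeg a) (d * γ + t) (p₀ a)
      by_cases h4 : ∃ δ, d * δ + deg a = d * γ + t
      · obtain ⟨δ, hδ⟩ := h4
        exact ⟨_, h3.1 δ hδ, Or.inr ⟨δ, MvPolynomial.homogeneousComponent_isHomogeneous _ _, hδ⟩⟩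
      · exact ⟨0, by rw [h3.2 h4, map_zero, zero_mul], Or.inl rfl⟩
    choose p' hp' hp'' using h2
    refine ⟨p', ?_, hp''⟩
    rw [← h1, ← hmap, hp₀]
    simp only [hmap]
    rw [DirectSum.decompose_sum, DFinsupp.finsetSum_apply, Submodule.coe_sum]
    exact Finset.sum_congr rfl fun a _ => hp' a

/-- the case `m > 0` -/
private theorem GNorm_main (h : IsFano 𝒜 n r d x G) {e : ℕ} {β : Fin e → R} {deg : Fin e → ℕ}
    {γ : ℕ} {g : MvPolynomial (Fin (n + 1)) ℂ} (hg : g ≠ 0) {a₀ : Fin e} (ha₀ : β a₀ = 1)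
    (hdeg : ∀ a, β a ∈ 𝒜 (deg a))
    (hli : ∀ p : Fin e → MvPolynomial (Fin (n + 1)) ℂ,
      ∑ a, MvPolynomial.aeval x (p a) * β a = 0 → p = 0)
    (hsp : ∀ (t : ℕ) (f : R), f ∈ 𝒜 t → ∃ p : Fin e → MvPolynomial (Fin (n + 1)) ℂ,
      MvPolynomial.aeval x g * f = ∑ a, MvPolynomial.aeval x (p a) * β a ∧
      ∀ a, p a = 0 ∨ ∃ δ, (p a).IsHomogeneous δ ∧ d * δ + deg a = d * γ + t)
    (m M : ℕ) (s : Fin M → R) (hs : ∀ i, s i ∈ 𝒜 m) (hls : LinearIndependent ℂ s) :
    ∃ (P : MvPolynomial (Fin (n + 1)) (MvPolynomial (Fin M) ℂ))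
      (f' : MvPolynomial (Fin M) R), P.IsHomogeneous (e * (d * γ + m) / d) ∧
      (MvPolynomial.eval₂ (MvPolynomial.map (algebraMap ℂ R))
        (fun b => (MvPolynomial.C (x b) : MvPolynomial (Fin M) R)) P =
          (∑ i, MvPolynomial.X i * MvPolynomial.C (s i)) * f') ∧
      ∀ (L : Type) [Field L] [Algebra ℂ L] (v : Fin M → L), v ≠ 0 →
        MvPolynomial.map ((MvPolynomial.aeval v : MvPolynomial (Fin M) ℂ →ₐ[ℂ] L) :
          MvPolynomial (Fin M) ℂ →+* L) P ≠ 0 := by
  classical
  have hdom := h.domain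
  have h0 : ∀ (i : Fin M) (a : Fin e), ∃ p : Fin e → MvPolynomial (Fin (n + 1)) ℂ,
      MvPolynomial.aeval x g * (s i * β a) = ∑ b, MvPolynomial.aeval x (p b) * β b ∧
      ∀ b, p b = 0 ∨ ∃ δ, (p b).IsHomogeneous δ ∧ d * δ + deg b = d * γ + (m + deg a) :=
    fun i a => hsp _ _ (SetLike.mul_mem_graded (hs i) (hdeg a))
  choose A hA hAh using h0
  let B : Matrix (Fin e) (Fin e) (MvPolynomial (Fin (n + 1)) (MvPolynomial (Fin M) ℂ)) :=
    Matrix.of fun a b => ∑ i, MvPolynomial.C (MvPolynomial.X i) *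
      MvPolynomial.map MvPolynomial.C (A i a b)
  have hB : ∀ a b, B a b = ∑ i, MvPolynomial.C (MvPolynomial.X i) *
      MvPolynomial.map MvPolynomial.C (A i a b) := fun a b => rfl
  let E : MvPolynomial (Fin (n + 1)) (MvPolynomial (Fin M) ℂ) →+* MvPolynomial (Fin M) R :=
    MvPolynomial.eval₂Hom (MvPolynomial.map (algebraMap ℂ R)) fun b => MvPolynomial.C (x b)
  have hE : ∀ P, E P = MvPolynomial.eval₂ (MvPolynomial.map (algebraMap ℂ R))
      (fun b => (MvPolynomial.C (x b) : MvPolynomial (Fin M) R)) P := fun P => rfl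
  have hEX : ∀ i, E (MvPolynomial.C (MvPolynomial.X i)) = MvPolynomial.X i := by
    intro i
    rw [hE, MvPolynomial.eval₂_C, MvPolynomial.map_X]
  have hEp : ∀ p : MvPolynomial (Fin (n + 1)) ℂ, E (MvPolynomial.map MvPolynomial.C p) =
      MvPolynomial.C (MvPolynomial.aeval x p) := by
    intro p
    have h1 : E.comp (MvPolynomial.map MvPolynomial.C) =
        (MvPolynomial.C : R →+* MvPolynomial (Fin M) R).comp
          (MvPolynomial.aeval x : MvPolynomial (Fin (n + 1)) ℂ →ₐ[ℂ] R).toRingHom := by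
      refine MvPolynomial.ringHom_ext ?_ ?_
      · intro c
        simp [hE]
      · intro b
        simp [hE]
    exact RingHom.congr_fun h1 p
  have hrow : ∀ a, ∑ b, E (B a b) * MvPolynomial.C (β b) =
      (∑ i, MvPolynomial.X i * MvPolynomial.C (s i)) *
        (MvPolynomial.C (MvPolynomial.aeval x g) * MvPolynomial.C (β a)) := by
    intro a
    have h1 : ∀ b, E (B a b) * MvPolynomial.C (β b) = ∑ i, MvPolynomial.X i *
        MvPolynomial.C (MvPolynomial.aeval x (A i a b) * β b) := by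
      intro b
      rw [hB, map_sum, Finset.sum_mul]
      refine Finset.sum_congr rfl fun i _ => ?_
      rw [map_mul, hEX, hEp, mul_assoc, ← MvPolynomial.C_mul]
    rw [Finset.sum_congr rfl fun b _ => h1 b, Finset.sum_comm, Finset.sum_mul]
    refine Finset.sum_congr rfl fun i _ => ?_
    rw [← Finset.mul_sum, ← map_sum, ← hA i a, mul_assoc, ← MvPolynomial.C_mul,
      ← MvPolynomial.C_mul]
    congr 2
    ring
  refine ⟨B.det, MvPolynomial.C (MvPolynomial.aeval x g) *
    ∑ a, E (B.adjugate a₀ a) * MvPolynomial.C (β a), ?_, ?_, ?_⟩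
  · refine GNorm_det B deg d (d * γ + m) h.d_pos fun a b => ?_
    by_cases h1 : ∃ δ, d * δ + deg b = d * γ + m + deg a
    · obtain ⟨δ, hδ⟩ := h1
      refine Or.inr ⟨δ, ?_, hδ⟩
      rw [hB]
      refine MvPolynomial.IsHomogeneous.sum _ _ _ fun i _ => ?_
      have h2 : (MvPolynomial.map (MvPolynomial.C : ℂ →+* MvPolynomial (Fin M) ℂ)
          (A i a b)).IsHomogeneous δ := by
        rcases hAh i a b with h3 | ⟨δ', h3, h4⟩
        · rw [h3, map_zero]
          exact MvPolynomial.isHomogeneous_zero _ _ _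
        · have h5 : δ' = δ :=
            Nat.eq_of_mul_eq_mul_left (show 0 < d from h.d_pos) (by omega)
          rw [h5] at h3
          exact h3.map _
      have h6 := (MvPolynomial.isHomogeneous_C (Fin (n + 1))
        (MvPolynomial.X i : MvPolynomial (Fin M) ℂ)).mul h2
      rwa [zero_add] at h6
    · left
      rw [hB]
      refine Finset.sum_eq_zero fun i _ => ?_
      rcases hAh i a b with h3 | ⟨δ', h3, h4⟩
      · rw [h3, map_zero, mul_zero]
      · exact absurd ⟨δ', by omega⟩ h1
  · rw [← hE]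
    have h1 : E B.det = E B.det * MvPolynomial.C (β a₀) := by
      rw [ha₀, MvPolynomial.C_1, mul_one]
    have h2 : ∑ a, E (B.adjugate a₀ a) * ∑ b, E (B a b) * MvPolynomial.C (β b) =
        E B.det * MvPolynomial.C (β a₀) := by
      have h3 : ∀ b, ∑ a, B.adjugate a₀ a * B a b = if a₀ = b then B.det else 0 := by
        intro b
        rw [← Matrix.mul_apply, Matrix.adjugate_mul, Matrix.smul_apply, Matrix.one_apply,
          smul_eq_mul, mul_ite, mul_one, mul_zero]
      calc ∑ a, E (B.adjugate a₀ a) * ∑ b, E (B a b) * MvPolynomial.C (β b)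
          = ∑ a, ∑ b, E (B.adjugate a₀ a * B a b) * MvPolynomial.C (β b) := by
            refine Finset.sum_congr rfl fun a _ => ?_
            rw [Finset.mul_sum]
            refine Finset.sum_congr rfl fun b _ => ?_
            rw [map_mul, mul_assoc]
        _ = ∑ b, E (∑ a, B.adjugate a₀ a * B a b) * MvPolynomial.C (β b) := by
            rw [Finset.sum_comm]
            refine Finset.sum_congr rfl fun b _ => ?_
            rw [map_sum, Finset.sum_mul]
        _ = E B.det * MvPolynomial.C (β a₀) := by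
            rw [Finset.sum_eq_single a₀]
            · rw [h3, if_pos rfl]
            · intro b _ hb
              rw [h3, if_neg (Ne.symm hb), map_zero, zero_mul]
            · intro hb
              exact absurd (Finset.mem_univ _) hb
    rw [h1, ← h2, Finset.mul_sum, Finset.mul_sum]
    refine Finset.sum_congr rfl fun a _ => ?_
    rw [hrow a]
    ring
  · intro L _ _ v hv
    refine GNorm_null B.det ?_ L v hv
    intro v hv h1
    rw [RingHom.map_det] at h1
    obtain ⟨w, hw, hw'⟩ := Matrix.exists_vecMul_eq_zero_iff.2 h1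
    have h2 : ∀ a b, ((MvPolynomial.map ((MvPolynomial.aeval v : MvPolynomial (Fin M) ℂ →ₐ[ℂ] ℂ) :
        MvPolynomial (Fin M) ℂ →+* ℂ)).mapMatrix B) a b =
        ∑ i, MvPolynomial.C (v i) * A i a b := by
      intro a b
      rw [RingHom.mapMatrix_apply, Matrix.map_apply, hB, map_sum]
      refine Finset.sum_congr rfl fun i _ => ?_
      rw [map_mul, MvPolynomial.map_C, MvPolynomial.map_map]
      have h3 : ((MvPolynomial.aeval v : MvPolynomial (Fin M) ℂ →ₐ[ℂ] ℂ) :
        MvPolynomial (Fin M) ℂ →+* ℂ).comp MvPolynomial.C = RingHom.id ℂ := by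
        ext c
        simp
      rw [h3, MvPolynomial.map_id]
      congr 2
      exact MvPolynomial.aeval_X v i
    have h4 : MvPolynomial.aeval x g * (∑ i, v i • s i) *
        (∑ a, MvPolynomial.aeval x (w a) * β a) = 0 := by
      have h5 : ∀ a, MvPolynomial.aeval x g * (∑ i, v i • s i) *
          (MvPolynomial.aeval x (w a) * β a) =
          ∑ b, MvPolynomial.aeval x (w a * ∑ i, MvPolynomial.C (v i) * A i a b) * β b := by
        intro a
        have h6 : ∀ b, MvPolynomial.aeval x (w a * ∑ i, MvPolynomial.C (v i) * A i a b) * β b =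
            MvPolynomial.aeval x (w a) *
              ∑ i, v i • (MvPolynomial.aeval x (A i a b) * β b) := by
          intro b
          rw [map_mul, map_sum, mul_assoc, Finset.sum_mul]
          congr 1
          refine Finset.sum_congr rfl fun i _ => ?_
          rw [map_mul, MvPolynomial.aeval_C, Algebra.smul_def, mul_assoc]
        rw [Finset.sum_congr rfl fun b _ => h6 b, ← Finset.mul_sum, Finset.sum_comm]
        have h7 : ∀ i, ∑ b, v i • (MvPolynomial.aeval x (A i a b) * β b) =
            v i • (MvPolynomial.aeval x g * (s i * β a)) := by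
          intro i
          rw [← Finset.smul_sum, ← hA i a]
        rw [Finset.sum_congr rfl fun i _ => h7 i, mul_left_comm]
        congr 1
        rw [Finset.mul_sum, Finset.sum_mul]
        refine Finset.sum_congr rfl fun i _ => ?_
        rw [mul_smul_comm, smul_mul_assoc, mul_assoc]
      rw [Finset.mul_sum, Finset.sum_congr rfl fun a _ => h5 a, Finset.sum_comm]
      refine Finset.sum_eq_zero fun b _ => ?_
      have h8 := congrFun hw' b
      rw [Matrix.vecMul, dotProduct] at h8
      simp only [h2, Pi.zero_apply] at h8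
      rw [← Finset.sum_mul, ← map_sum, h8, map_zero, zero_mul]
    rcases mul_eq_zero.1 h4 with h5 | h5
    · rcases mul_eq_zero.1 h5 with h6 | h6
      · have h7 : MvPolynomial.aeval x g =
            MvPolynomial.aeval x (0 : MvPolynomial (Fin (n + 1)) ℂ) := by rw [h6, map_zero]
        exact hg (h.x_indep h7)
      · apply hv
        funext i
        exact Fintype.linearIndependent_iff.1 hls v h6 i
    · exact hw (hli w h5)

/-- G2a. Statement over the polynomial ring `ℂ[Y_i]` in the coefficients: there is `D₀` such that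
for every `m` and every `ℂ`-linearly independent finite family `s i ∈ 𝒜 m` there are a polynomial
`P ∈ ℂ[Y][x]`, homogeneous of some degree `k ≤ D₀ m` in `x`, and an element `f'` of `R[Y]` with
`P (x) = (∑ Y_i s_i) f'` in `R[Y]`, and such that `P` does not vanish at any non-zero point
`v ∈ L ^ M`, `L` any field over `ℂ`.
Proof (elementary, no Galois theory). `S = ℂ[x]`, `F` its fraction field, `K = Frac R`,
`D₀ = e = [K : F]` (if `M = 0` there is no `v ≠ 0`: take `P = 0`). Put `f = ∑ Y_i s_i ∈ R[Y]`, `f ≠ 0`.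
(1) `f` is integral over `S[Y]`, which is integrally closed (a UFD). Let
`μ(T) = T^p + c_1 T^(p-1) + … + c_p` be its minimal polynomial over `Frac S[Y]`; it has coefficients
in `S[Y]` (`minpoly.isIntegrallyClosed_eq_field_fractions`), `p ≤ e` (a basis of `K` over `F` spans
`K(Y)` over `F(Y)`). `c_p = f f''` with `f'' = -(f^(p-1) + c_1 f^(p-2) + …) ∈ R[Y]`.
(2) Homogeneity: for `λ ∈ ℂ*` let `θ_λ` be the automorphism of `R[Y]` with `s ↦ λ^(deg s) s`,
`Y_i ↦ Y_i`; it maps `S[Y]` to `S[Y]` by `x ↦ λ^d x` and `θ_λ f = λ^m f`; so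
`λ^(-mp) (θ_λ μ)(λ^m T)` is monic of degree `p` and vanishes at `f`, hence is `μ`. So
`c_k (λ^d x) = λ^(mk) c_k (x)` for all `λ`: `c_k` is homogeneous of degree `mk/d`.
(3) Non-vanishing: let `A_i ∈ M_e(F)` be the matrix of the multiplication by `s_i` on `K`; the norm
of `f` from `K(Y)` to `F(Y)` is `det (∑ Y_i A_i)` and equals `± c_p^q`, `q = e / p`
(`Algebra.norm` and `minpoly`). For `v ∈ L^M`, `v ≠ 0`, `det (∑ v_i A_i)` in `F ⊗ L` is the
determinant of the multiplication by `∑ s_i ⊗ v_i` on the free `F ⊗ L`-module `K ⊗ L`; `K ⊗_ℂ L` is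
a domain (`tensor_isDomain` of `GDom.lean`) and `∑ s_i ⊗ v_i ≠ 0` (linear independence), so the determinant is not zero and
`c_p (v) ≠ 0`. Take `P = c_p` (as a polynomial in `x` over `ℂ[Y]`). -/
theorem exists_norm (h : IsFano 𝒜 n r d x G) : ∃ D₀ : ℕ, ∀ (m M : ℕ) (s : Fin M → R),
    (∀ i, s i ∈ 𝒜 m) → LinearIndependent ℂ s →
    ∃ (P : MvPolynomial (Fin (n + 1)) (MvPolynomial (Fin M) ℂ)) (k : ℕ)
      (f' : MvPolynomial (Fin M) R), k ≤ D₀ * m ∧ P.IsHomogeneous k ∧
      (MvPolynomial.eval₂ (MvPolynomial.map (algebraMap ℂ R))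
        (fun b => (MvPolynomial.C (x b) : MvPolynomial (Fin M) R)) P =
          (∑ i, MvPolynomial.X i * MvPolynomial.C (s i)) * f') ∧
      ∀ (L : Type) [Field L] [Algebra ℂ L] (v : Fin M → L), v ≠ 0 →
        MvPolynomial.map ((MvPolynomial.aeval v : MvPolynomial (Fin M) ℂ →ₐ[ℂ] L) :
          MvPolynomial (Fin M) ℂ →+* L) P ≠ 0 := by
  classical
  obtain ⟨e, β, deg, γ, g, hg, ⟨a₀, ha₀⟩, hdeg, hli, hsp⟩ := GNorm_basis h
  refine ⟨e * (γ + 1), fun m M s hs hls => ?_⟩
  rcases Nat.eq_zero_or_pos m with rfl | hm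
  · -- `𝒜 0 = ℂ`
    have h0 : ∀ i, ∃ c : ℂ, algebraMap ℂ R c = s i := by
      intro i
      have h1 := hs i
      rw [h.connected] at h1
      exact Algebra.mem_bot.1 h1
    choose c hc using h0
    have hci : LinearIndependent ℂ c := by
      rw [Fintype.linearIndependent_iff]
      intro v hv
      refine Fintype.linearIndependent_iff.1 hls v ?_
      have h1 : ∑ i, v i • s i = algebraMap ℂ R (∑ i, v i • c i) := by
        rw [map_sum]
        refine Finset.sum_congr rfl fun i _ => ?_
        rw [smul_eq_mul, map_mul, hc, Algebra.smul_def]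
      rw [h1, hv, map_zero]
    have hM : M ≤ 1 := by
      have h1 := hci.fintype_card_le_finrank
      simpa using h1
    refine ⟨MvPolynomial.C (∑ i, MvPolynomial.X i * MvPolynomial.C (c i)), 0, 1, by omega,
      MvPolynomial.isHomogeneous_C _ _, ?_, ?_⟩
    · rw [MvPolynomial.eval₂_C, mul_one, map_sum]
      refine Finset.sum_congr rfl fun i _ => ?_
      rw [map_mul, MvPolynomial.map_X, MvPolynomial.map_C, hc]
    · intro L _ _ v hv h1
      apply hv
      funext i
      rw [MvPolynomial.map_C, MvPolynomial.C_eq_zero] at h1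
      have h2 : ((MvPolynomial.aeval v : MvPolynomial (Fin M) ℂ →ₐ[ℂ] L) :
          MvPolynomial (Fin M) ℂ →+* L) (∑ i, MvPolynomial.X i * MvPolynomial.C (c i)) =
          ∑ i, v i * algebraMap ℂ L (c i) := by
        rw [map_sum]
        refine Finset.sum_congr rfl fun i _ => ?_
        simp
      rw [h2] at h1
      have h3 : ∀ j, j = i := fun j => Fin.ext (by have := j.isLt; have := i.isLt; omega)
      rw [Finset.sum_eq_single i (fun j _ hj => absurd (h3 j) hj)
        (fun hj => absurd (Finset.mem_univ _) hj)] at h1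
      rcases mul_eq_zero.1 h1 with h4 | h4
      · exact h4
      · exact absurd ((_root_.map_eq_zero _).1 h4) (hci.ne_zero i)
  · obtain ⟨P, f', h1, h2, h3⟩ := GNorm_main h hg ha₀ hdeg hli hsp m M s hs hls
    refine ⟨P, _, f', ?_, h1, h2, h3⟩
    refine Nat.div_le_of_le_mul ?_
    have hd := h.d_pos
    have h4 : d * γ + m ≤ d * ((γ + 1) * m) := by
      have h5 : d * γ ≤ d * (γ * m) := Nat.mul_le_mul_left _ (Nat.le_mul_of_pos_right _ hm)
      have h6 : m ≤ d * m := Nat.le_mul_of_pos_left _ hd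
      calc d * γ + m ≤ d * (γ * m) + d * m := Nat.add_le_add h5 h6
        _ = d * ((γ + 1) * m) := by ring
    calc e * (d * γ + m) ≤ e * (d * ((γ + 1) * m)) := Nat.mul_le_mul_left _ h4
      _ = d * (e * (γ + 1) * m) := by ring

end Pool.Agent.Lib_KF

end
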