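import Mathlib
import Pool.Agent.Lib_MP_e0d435_m.G02
import Pool.Agent.Lib_MP_e0d435_m.G03
import Pool.Agent.Lib_MP_e0d435_m.G04
import Pool.Agent.Lib_MP_e0d435_m.G07
import Pool.Agent.Lib_MP_e0d435_m.G08
import Pool.Agent.Lib_MP_e0d435_m.G10
import Pool.Agent.Lib_MP_e0d435_m.G11
import Pool.Agent.Lib_MP_e0d435_m.G12

/-!
# MP_e0d435_ag: merged library part G16

Concatenation of library files (each in its own section), only to save build time.
-/

/-! ### from `Lib_KF.POrdFacts` -/

section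

/-! B07a: order functions of divisors over `X`. -/

open scoped ENNReal

namespace Pool.Agent.Lib_KF

open Pool.Agent.Lib_GD

/-- monomials with bounded exponents in algebraically independent elements -/
private theorem OrdFacts_mono {F : Type} [Field F] [Algebra ℂ F] {n K : ℕ} {z : Fin n → F}
    (hind : AlgebraicIndependent ℂ z) (c : (Fin n → Fin (K + 1)) → ℂ)
    (hc : ∑ α, c α • ∏ i, z i ^ (α i : ℕ) = 0) : ∀ α, c α = 0 := by
  classical
  let μ : (Fin n → Fin (K + 1)) → (Fin n →₀ ℕ) := fun α =>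
    Finsupp.equivFunOnFinite.symm (fun i => (α i : ℕ))
  have hμ : Function.Injective μ := by
    intro α β h
    funext i
    have h1 := DFunLike.congr_fun h i
    simp only [μ, Finsupp.equivFunOnFinite_symm_apply_apply] at h1
    exact Fin.ext h1
  let P : MvPolynomial (Fin n) ℂ := ∑ α, MvPolynomial.monomial (μ α) (c α)
  have hP : P = 0 := by
    refine algebraicIndependent_iff.1 hind P ?_
    rw [← hc, map_sum]
    refine Finset.sum_congr rfl fun α _ => ?_
    rw [MvPolynomial.aeval_monomial, Algebra.smul_def, Finsupp.prod_fintype _ _ (by simp)]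
    simp only [μ, Finsupp.equivFunOnFinite_symm_apply_apply]
  intro β
  have h1 := congrArg (MvPolynomial.coeff (μ β)) hP
  simp only [P, MvPolynomial.coeff_sum, MvPolynomial.coeff_monomial,
    MvPolynomial.coeff_zero] at h1
  rw [Finset.sum_eq_single β] at h1
  · simpa using h1
  · intro α _ hα
    rw [if_neg fun h => hα (hμ h)]
  · intro h
    exact absurd (Finset.mem_univ β) h

/-- the products `s ^ j * g ^ (N - j - |α|) * a ^ α` are linearly independent -/
private theorem OrdFacts_core {R F : Type} [CommRing R] [IsDomain R] [Algebra ℂ R] [Field F]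
    [Algebra ℂ F] (φ : R →ₐ[ℂ] F) {n : ℕ} {s g : R} {a : Fin n → R} (hs : s ≠ 0)
    (hφs : φ s = 0) (hg : φ g ≠ 0)
    (hind : AlgebraicIndependent ℂ (fun i => φ (a i) / φ g)) (K : ℕ) :
    LinearIndependent ℂ (fun p : Fin (K + 1) × (Fin n → Fin (K + 1)) =>
      s ^ (p.1 : ℕ) * (g ^ ((n + 1) * K - p.1 - ∑ i, (p.2 i : ℕ)) *
        ∏ i, a i ^ (p.2 i : ℕ))) := by
  classical
  rw [Fintype.linearIndependent_iff]
  intro c hc
  set B : Fin (K + 1) × (Fin n → Fin (K + 1)) → R := fun p =>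
    g ^ ((n + 1) * K - p.1 - ∑ i, (p.2 i : ℕ)) * ∏ i, a i ^ (p.2 i : ℕ) with hB
  have main : ∀ j : ℕ, ∀ (hj : j < K + 1) (α : Fin n → Fin (K + 1)), c (⟨j, hj⟩, α) = 0 := by
    intro j
    induction j using Nat.strong_induction_on with
    | _ j ih =>
      intro hj α
      have h1 : ∀ p : Fin (K + 1) × (Fin n → Fin (K + 1)),
          c p • (s ^ (p.1 : ℕ) * B p) = s ^ j * (c p • (s ^ ((p.1 : ℕ) - j) * B p)) := by
        intro p
        rcases lt_or_ge (p.1 : ℕ) j with h2 | h2
        · have h3 : c p = 0 := ih p.1 h2 p.1.2 p.2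
          rw [h3, zero_smul, zero_smul, mul_zero]
        · rw [mul_smul_comm, ← mul_assoc (s ^ j), ← pow_add, Nat.add_sub_cancel' h2]
      have h2 : s ^ j * ∑ p, c p • (s ^ ((p.1 : ℕ) - j) * B p) = 0 := by
        rw [Finset.mul_sum, ← hc]
        exact Finset.sum_congr rfl fun p _ => (h1 p).symm
      have h3 : ∑ p, c p • (s ^ ((p.1 : ℕ) - j) * B p) = 0 :=
        (mul_eq_zero.1 h2).resolve_left (pow_ne_zero j hs)
      have h4 := congrArg φ h3
      rw [map_sum, map_zero, Fintype.sum_prod_type, Finset.sum_eq_single ⟨j, hj⟩] at h4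
      · have h5 : ∀ β : Fin n → Fin (K + 1),
            φ (c (⟨j, hj⟩, β) • (s ^ (((⟨j, hj⟩ : Fin (K + 1)) : ℕ) - j) * B (⟨j, hj⟩, β))) =
            φ g ^ ((n + 1) * K - j) *
              (c (⟨j, hj⟩, β) • ∏ i, (φ (a i) / φ g) ^ (β i : ℕ)) := by
          intro β
          have hle : ∑ i, (β i : ℕ) ≤ (n + 1) * K - j := by
            have h6 : ∑ i, (β i : ℕ) ≤ ∑ _i : Fin n, K :=
              Finset.sum_le_sum fun i _ => Nat.lt_succ_iff.1 (β i).2
            rw [Finset.sum_const, Finset.card_univ, Fintype.card_fin, smul_eq_mul] at h6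
            have h7 : (n + 1) * K = n * K + K := by ring
            omega
          rw [map_smul, Nat.sub_self, pow_zero, one_mul, mul_smul_comm]
          congr 1
          simp only [hB, map_mul, map_pow, map_prod, div_pow, Finset.prod_div_distrib,
            Finset.prod_pow_eq_pow_sum]
          rw [← mul_div_assoc, eq_div_iff (pow_ne_zero _ hg), mul_right_comm, ← pow_add,
            Nat.sub_add_cancel hle]
        simp_rw [h5] at h4
        rw [← Finset.mul_sum] at h4
        exact OrdFacts_mono hind (fun β => c (⟨j, hj⟩, β))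
          ((mul_eq_zero.1 h4).resolve_left (pow_ne_zero _ hg)) α
      · intro j' _ hj'
        refine Finset.sum_eq_zero fun β _ => ?_
        rcases lt_trichotomy (j' : ℕ) j with h5 | h5 | h5
        · have h6 : c (j', β) = 0 := ih j' h5 j'.2 β
          rw [h6, zero_smul, map_zero]
        · exact absurd (Fin.ext h5) hj'
        · rw [map_smul, map_mul, map_pow, hφs, zero_pow (Nat.sub_ne_zero_of_lt h5), zero_mul,
            smul_zero]
      · intro h
        exact absurd (Finset.mem_univ _) h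
  intro p
  exact main p.1 p.1.2 p.2

set_option linter.unusedSectionVars false

variable {R : Type} [CommRing R] [Algebra ℂ R] {𝒜 : ℕ → Submodule ℂ R} [GradedAlgebra 𝒜]
  {n : ℕ}

/-- growth contradiction -/
private theorem OrdFacts_growth (h : IsPol 𝒜 n) {F : Type} [Field F]
    [Algebra ℂ F] (φ : R →ₐ[ℂ] F) {D : ℕ} (hD : 0 < D) {s g : R} {a : Fin n → R}
    (hsD : s ∈ 𝒜 D) (hgD : g ∈ 𝒜 D) (haD : ∀ i, a i ∈ 𝒜 D) (hs : s ≠ 0)
    (hφs : φ s = 0) (hg : φ g ≠ 0)
    (hind : AlgebraicIndependent ℂ (fun i => φ (a i) / φ g)) : False := by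
  have := h.domain
  obtain ⟨C, hC⟩ := secDim_leP h
  set K := C * (D * (n + 1)) ^ n + 1 with hK
  have hlin := OrdFacts_core φ hs hφs hg hind K
  have hmem : ∀ p : Fin (K + 1) × (Fin n → Fin (K + 1)),
      s ^ (p.1 : ℕ) * (g ^ ((n + 1) * K - p.1 - ∑ i, (p.2 i : ℕ)) *
        ∏ i, a i ^ (p.2 i : ℕ)) ∈ 𝒜 (D * ((n + 1) * K)) := by
    intro p
    have hj : (p.1 : ℕ) ≤ K := Nat.lt_succ_iff.1 p.1.2
    have h6 : ∑ i, (p.2 i : ℕ) ≤ ∑ _i : Fin n, K :=
      Finset.sum_le_sum fun i _ => Nat.lt_succ_iff.1 (p.2 i).2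
    rw [Finset.sum_const, Finset.card_univ, Fintype.card_fin, smul_eq_mul] at h6
    have h7 : (n + 1) * K = n * K + K := by ring
    have h1 := SetLike.pow_mem_graded (p.1 : ℕ) hsD
    have h2 := SetLike.pow_mem_graded ((n + 1) * K - p.1 - ∑ i, (p.2 i : ℕ)) hgD
    have h3 : ∏ i, a i ^ (p.2 i : ℕ) ∈ 𝒜 (∑ i, (p.2 i : ℕ) • D) :=
      SetLike.prod_mem_graded 𝒜 (fun i => (p.2 i : ℕ) • D) (fun i => a i ^ (p.2 i : ℕ))
        (fun i _ => SetLike.pow_mem_graded _ (haD i))
    have h4 := SetLike.mul_mem_graded h1 (SetLike.mul_mem_graded h2 h3)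
    have h5 : (p.1 : ℕ) • D + (((n + 1) * K - p.1 - ∑ i, (p.2 i : ℕ)) • D +
        ∑ i, (p.2 i : ℕ) • D) = D * ((n + 1) * K) := by
      rw [← Finset.sum_smul, ← add_smul, ← add_smul, smul_eq_mul, mul_comm]
      congr 1
      omega
    rw [h5] at h4
    exact h4
  have := finite_gradedP h (D * ((n + 1) * K))
  have hlin2 : LinearIndependent ℂ (fun p : Fin (K + 1) × (Fin n → Fin (K + 1)) =>
      (⟨_, hmem p⟩ : 𝒜 (D * ((n + 1) * K)))) := by
    refine LinearIndependent.of_comp (𝒜 (D * ((n + 1) * K))).subtype ?_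
    exact hlin
  have hcard := hlin2.fintype_card_le_finrank
  rw [Fintype.card_prod, Fintype.card_pi_const, Fintype.card_fin, ← pow_succ'] at hcard
  have hK1 : 1 ≤ K := by omega
  have h8 := hC (D * ((n + 1) * K)) (Nat.mul_pos hD (Nat.mul_pos (Nat.succ_pos n) hK1))
  have h9 : (K + 1) ^ (n + 1) ≤ C * (D * ((n + 1) * K)) ^ n := le_trans hcard h8
  have h10 : C * (D * ((n + 1) * K)) ^ n = C * (D * (n + 1)) ^ n * K ^ n := by
    rw [← mul_assoc D, mul_pow (D * (n + 1)) K, mul_assoc]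
  rw [h10] at h9
  have h11 : C * (D * (n + 1)) ^ n * K ^ n ≤ K * K ^ n :=
    Nat.mul_le_mul_right _ (by omega)
  have h12 : K * K ^ n = K ^ (n + 1) := (pow_succ' K n).symm
  have h13 : K ^ (n + 1) < (K + 1) ^ (n + 1) := Nat.pow_lt_pow_left (Nat.lt_succ_self K) (by omega)
  omega

theorem ord_ne_topP (h : IsPol 𝒜 n) (hn : 1 ≤ n)
    (E : DivisorOver 𝒜 n 1) (m : ℕ) (s : R) (hs : s ∈ 𝒜 m) (hs0 : s ≠ 0) :
    E.ord (E.φ 0 s) ≠ ⊤ := by
  classical
  have := h.domain
  intro htop
  unfold DivisorOver.ord at htop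
  rw [IsDiscreteValuationRing.addVal_eq_top_iff] at htop
  -- the algebraically independent ratios
  set S : Set (FractionRing E.V) := {z | ∃ j m, ∃ s ∈ 𝒜 m, ∃ s' ∈ 𝒜 m,
    E.φ j s' ≠ 0 ∧ z = algebraMap E.V (FractionRing E.V) (E.φ j s) /
      algebraMap E.V (FractionRing E.V) (E.φ j s')} with hS
  have hinj : Function.Injective (algebraMap E.V (FractionRing E.V)) :=
    IsFractionRing.injective E.V (FractionRing E.V)
  have halg : Algebra.IsAlgebraic (Algebra.adjoin ℂ S) (FractionRing E.V) := by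
    rw [← IntermediateField.isAlgebraic_adjoin_iff_top, E.generates]
    infer_instance
  obtain ⟨t, htS, ht⟩ := exists_isTranscendenceBasis_subset (R := ℂ) S
  have htr : Cardinal.mk t = n := by
    rw [ht.cardinalMk_eq_trdeg]
    have : Algebra.IsAlgebraic E.V (FractionRing E.V) :=
      IsLocalization.isAlgebraic _ (nonZeroDivisors E.V)
    have h1 := trdeg_add_eq ℂ E.V (A := FractionRing E.V)
    rw [trdeg_eq_zero (R := E.V) (A := FractionRing E.V), add_zero, E.trdeg, mul_one] at h1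
    exact h1.symm
  have hcard : Cardinal.mk (Fin n) = Cardinal.mk t := by
    rw [htr, Cardinal.mk_fin]
  obtain ⟨e⟩ := Cardinal.eq.1 hcard
  have hind : AlgebraicIndependent ℂ (fun i : Fin n => ((e i : t) : FractionRing E.V)) :=
    ht.1.comp e e.injective
  have hex : ∀ i : Fin n, ∃ m, ∃ a ∈ 𝒜 m, ∃ b ∈ 𝒜 m, E.φ 0 b ≠ 0 ∧
      ((e i : t) : FractionRing E.V) = algebraMap E.V (FractionRing E.V) (E.φ 0 a) /
        algebraMap E.V (FractionRing E.V) (E.φ 0 b) := by
    intro i
    obtain ⟨j, m, a, ha, b, hb, h1, h2⟩ := htS (e i).2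
    have hj : j = 0 := Subsingleton.elim _ _
    subst hj
    exact ⟨m, a, ha, b, hb, h1, h2⟩
  choose M a ha b hb hb0 hab using hex
  obtain ⟨d, hd, f, hf, hfu⟩ := E.centre 0
  have hf0 : E.φ 0 f ≠ 0 := hfu.ne_zero
  -- common denominators
  set g1 : R := (∏ i, b i) * f with hg1
  set M1 : ℕ := ∑ i, M i + d with hM1
  have hg1m : g1 ∈ 𝒜 M1 :=
    SetLike.mul_mem_graded (SetLike.prod_mem_graded 𝒜 M b (fun i _ => hb i)) hf
  have hg10 : E.φ 0 g1 ≠ 0 := by
    rw [hg1, map_mul, map_prod]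
    exact mul_ne_zero (Finset.prod_ne_zero_iff.2 fun i _ => hb0 i) hf0
  set a1 : Fin n → R := fun i => (a i * ∏ l ∈ Finset.univ.erase i, b l) * f with ha1
  have ha1m : ∀ i, a1 i ∈ 𝒜 M1 := by
    intro i
    have h1 : ∏ l ∈ Finset.univ.erase i, b l ∈ 𝒜 (∑ l ∈ Finset.univ.erase i, M l) :=
      SetLike.prod_mem_graded 𝒜 M b (fun l _ => hb l)
    have h2 := SetLike.mul_mem_graded (SetLike.mul_mem_graded (ha i) h1) hf
    rw [Finset.add_sum_erase _ _ (Finset.mem_univ i)] at h2
    exact h2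
  have hratio : ∀ i, E.φ 0 (a1 i) * E.φ 0 (b i) = E.φ 0 (a i) * E.φ 0 g1 := by
    intro i
    rw [← map_mul, ← map_mul]
    congr 1
    rw [ha1, hg1, ← Finset.mul_prod_erase _ _ (Finset.mem_univ i)]
    ring
  have hM1pos : 0 < M1 := by omega
  -- the element of the kernel
  set s1 : R := s * f with hs1
  have hs1m : s1 ∈ 𝒜 (m + d) := SetLike.mul_mem_graded hs hf
  have hfR : f ≠ 0 := by
    intro h1
    rw [h1, map_zero] at hf0
    exact hf0 rfl
  have hs10 : s1 ≠ 0 := mul_ne_zero hs0 hfR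
  have hs1k : E.φ 0 s1 = 0 := by rw [hs1, map_mul, htop, zero_mul]
  have hmd : 0 < m + d := by omega
  let ψ : R →ₐ[ℂ] FractionRing E.V :=
    (IsScalarTower.toAlgHom ℂ E.V (FractionRing E.V)).comp (E.φ 0)
  have hψ : ∀ x, ψ x = algebraMap E.V (FractionRing E.V) (E.φ 0 x) := fun x => rfl
  refine OrdFacts_growth h ψ (D := M1 * (m + d)) (Nat.mul_pos hM1pos hmd)
    (s := s1 ^ M1) (g := g1 ^ (m + d)) (a := fun i => a1 i * g1 ^ (m + d - 1))
    ?_ ?_ ?_ (pow_ne_zero _ hs10) ?_ ?_ ?_
  · have h1 := SetLike.pow_mem_graded M1 hs1m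
    rw [smul_eq_mul] at h1
    exact h1
  · have h1 := SetLike.pow_mem_graded (m + d) hg1m
    rw [smul_eq_mul, mul_comm] at h1
    exact h1
  · intro i
    have h1 := SetLike.mul_mem_graded (ha1m i) (SetLike.pow_mem_graded (m + d - 1) hg1m)
    have h2 : M1 + (m + d - 1) • M1 = M1 * (m + d) := by
      rw [smul_eq_mul]
      obtain ⟨q, hq⟩ : ∃ q, m + d = q + 1 := ⟨m + d - 1, by omega⟩
      rw [hq, Nat.add_sub_cancel]
      ring
    rw [h2] at h1
    exact h1
  · rw [hψ, map_pow, hs1k, zero_pow hM1pos.ne', map_zero]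
  · rw [hψ, map_pow, map_pow]
    exact pow_ne_zero _ ((map_ne_zero_iff _ hinj).2 hg10)
  · have h1 : (fun i => ψ (a1 i * g1 ^ (m + d - 1)) / ψ (g1 ^ (m + d))) =
        fun i : Fin n => ((e i : t) : FractionRing E.V) := by
      funext i
      have hG : algebraMap E.V (FractionRing E.V) (E.φ 0 g1) ≠ 0 :=
        (map_ne_zero_iff _ hinj).2 hg10
      have hBi : algebraMap E.V (FractionRing E.V) (E.φ 0 (b i)) ≠ 0 :=
        (map_ne_zero_iff _ hinj).2 (hb0 i)
      have h2 : algebraMap E.V (FractionRing E.V) (E.φ 0 (a1 i)) *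
          algebraMap E.V (FractionRing E.V) (E.φ 0 (b i)) =
          algebraMap E.V (FractionRing E.V) (E.φ 0 (a i)) *
          algebraMap E.V (FractionRing E.V) (E.φ 0 g1) := by
        rw [← map_mul (algebraMap E.V (FractionRing E.V)),
          ← map_mul (algebraMap E.V (FractionRing E.V)), hratio i]
      obtain ⟨q, hq⟩ : ∃ q, m + d = q + 1 := ⟨m + d - 1, by omega⟩
      rw [hab i, hψ, hψ, hq, Nat.add_sub_cancel]
      simp only [map_mul, map_pow]
      rw [pow_succ, div_eq_div_iff (mul_ne_zero (pow_ne_zero _ hG) hG) hBi]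
      linear_combination (algebraMap E.V (FractionRing E.V) (E.φ 0 g1)) ^ q * h2
    rw [h1]
    exact hind

end Pool.Agent.Lib_KF

end

/-! ### from `Lib_GD.CombCost` -/

section

namespace Pool.Agent.Lib_GD

private theorem CombCost_G_anti {N : ℕ} (R : Ranks N) (B : ℕ) {S T : Finset (Fin N)} (h : S ⊆ T) :
    R.G B T ≤ R.G B S :=
  Finset.sum_le_sum fun b _ => R.anti S T b h

private theorem CombCost_G_le {N : ℕ} (R : Ranks N) (B : ℕ) (S : Finset (Fin N)) :
    R.G B S ≤ B * N := by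
  have h1 : R.G B S ≤ ∑ _b ∈ Finset.Icc 1 B, N := Finset.sum_le_sum fun b _ => R.r_le S b
  refine h1.trans (le_of_eq ?_)
  rw [Finset.sum_const, Nat.card_Icc, smul_eq_mul]
  congr 1

/-- the points of class `τ` with index below `t` -/
private def CombCost_T {N r : ℕ} (c : Fin N → Fin (r + 1)) (τ : Fin (r + 1)) (t : ℕ) :
    Finset (Fin N) :=
  (cls c τ).filter fun i => i.val < t

private theorem CombCost_mem {N r : ℕ} (c : Fin N → Fin (r + 1)) (τ : Fin (r + 1)) (t : ℕ)
    (i : Fin N) : i ∈ CombCost_T c τ t ↔ c i = τ ∧ i.val < t := by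
  unfold CombCost_T cls
  rw [Finset.mem_filter, Finset.mem_filter]
  simp

private theorem CombCost_class {N r : ℕ} (hN : 0 < N) (P : Profile N) (R : Ranks N) (D a C₂ : ℕ)
    (hD : 1 ≤ D) (ha : 1 ≤ a) (hC : 1 ≤ C₂) (σ ξ : ℝ) (hσ : 0 ≤ σ) (hξ : 0 ≤ ξ)
    (hCL : P.HCL R D a C₂ σ ξ) (c : Fin N → Fin (r + 1)) (τ : Fin (r + 1)) :
    ((cls c τ).card : ℝ) * R.G (D * a) (cls c τ) ≤
      σ * (∑ k ∈ cls c τ, (P.cost k (Finset.Iio k) : ℝ)) + ξ * D * a * N * (cls c τ).card +
        (1 + N / C₂) * (D * a * N) := by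
  classical
  set g : ℕ → ℕ := fun t => R.G (D * a) (CombCost_T c τ t) with hg
  have hTmono : ∀ t, CombCost_T c τ t ⊆ CombCost_T c τ (t + 1) := by
    intro t i hi
    rw [CombCost_mem] at hi ⊢
    exact ⟨hi.1, by omega⟩
  have hTsub : ∀ t, CombCost_T c τ t ⊆ cls c τ := fun t => Finset.filter_subset _ _
  have hganti : ∀ t, g (t + 1) ≤ g t := fun t => CombCost_G_anti R _ (hTmono t)
  -- the two exceptional sets
  set E1 : Finset (Fin N) := (cls c τ).filter fun k => CombCost_T c τ k.val = ∅ with hE1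
  set E2 : Finset (Fin N) :=
    (cls c τ).filter fun k => g (k.val + 1) + C₂ * (D * a) < g k.val with hE2
  have hE1c : E1.card ≤ 1 := by
    rw [Finset.card_le_one]
    intro x hx y hy
    rw [hE1, Finset.mem_filter] at hx hy
    have hxc : c x = τ := by
      have := hx.1
      unfold cls at this
      simpa using this
    have hyc : c y = τ := by
      have := hy.1
      unfold cls at this
      simpa using this
    by_contra hne
    rcases lt_or_gt_of_ne hne with h | h
    · have h1 : x ∈ CombCost_T c τ y.val := (CombCost_mem _ _ _ _).2 ⟨hxc, h⟩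
      rw [hy.2] at h1
      exact absurd h1 (Finset.notMem_empty _)
    · have h1 : y ∈ CombCost_T c τ x.val := (CombCost_mem _ _ _ _).2 ⟨hyc, h⟩
      rw [hx.2] at h1
      exact absurd h1 (Finset.notMem_empty _)
  have htel : ∀ M, ∑ t ∈ Finset.range M, ((g t : ℝ) - g (t + 1)) = (g 0 : ℝ) - g M := by
    intro M
    exact Finset.sum_range_sub' (fun t => (g t : ℝ)) M
  have hg0 : (g 0 : ℝ) ≤ D * a * N := by
    have h1 : g 0 ≤ D * a * N := CombCost_G_le R _ _
    exact_mod_cast h1
  have hDa : (0 : ℝ) < D * a := by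
    have h1 : 0 < D * a := Nat.mul_pos hD ha
    exact_mod_cast h1
  have hNpos : (0 : ℝ) < N := by exact_mod_cast hN
  have hCpos : (0 : ℝ) < C₂ := by exact_mod_cast hC
  have hE2c : (E2.card : ℝ) ≤ N / C₂ := by
    have h1 : (E2.card : ℝ) * (C₂ * (D * a)) ≤ ∑ k ∈ E2, ((g k.val : ℝ) - g (k.val + 1)) := by
      rw [← nsmul_eq_mul]
      refine Finset.card_nsmul_le_sum _ _ _ fun k hk => ?_
      have h2 := (Finset.mem_filter.1 hk).2
      have h3 : ((g (k.val + 1) + C₂ * (D * a) : ℕ) : ℝ) < (g k.val : ℝ) := by exact_mod_cast h2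
      push_cast at h3
      linarith
    have h2 : ∑ k ∈ E2, ((g k.val : ℝ) - g (k.val + 1)) ≤
        ∑ k : Fin N, ((g k.val : ℝ) - g (k.val + 1)) := by
      refine Finset.sum_le_sum_of_subset_of_nonneg (Finset.subset_univ _) fun k _ _ => ?_
      have h3 : (g (k.val + 1) : ℝ) ≤ g k.val := by exact_mod_cast hganti k.val
      linarith
    have h3 : ∑ k : Fin N, ((g k.val : ℝ) - g (k.val + 1)) = (g 0 : ℝ) - g N := by
      rw [Fin.sum_univ_eq_sum_range (fun t => (g t : ℝ) - g (t + 1)) N]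
      exact htel N
    have h4 : (0 : ℝ) ≤ g N := Nat.cast_nonneg _
    have h5 : (E2.card : ℝ) * (C₂ * (D * a)) ≤ D * a * N := by linarith
    rw [le_div_iff₀ hCpos]
    have h6 : (E2.card : ℝ) * C₂ * (D * a) ≤ N * (D * a) := by nlinarith
    exact le_of_mul_le_mul_right h6 hDa
  -- pointwise bound
  have hpt : ∀ k ∈ cls c τ, (R.G (D * a) (cls c τ) : ℝ) ≤
      σ * (P.cost k (Finset.Iio k) : ℝ) + ξ * D * a * N +
        ((if k ∈ E1 then (D * a * N : ℝ) else 0) + (if k ∈ E2 then (D * a * N : ℝ) else 0)) := by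
    intro k hk
    have hkc : c k = τ := by
      unfold cls at hk
      simpa using hk
    have hcost0 : (0 : ℝ) ≤ (P.cost k (Finset.Iio k) : ℝ) := Nat.cast_nonneg _
    have h0 : (0 : ℝ) ≤ D * a * N := by positivity
    have h00 : (0 : ℝ) ≤ ξ * D * a * N := by positivity
    have hGle : (R.G (D * a) (cls c τ) : ℝ) ≤ D * a * N := by
      have h1 : R.G (D * a) (cls c τ) ≤ D * a * N := CombCost_G_le R _ _
      exact_mod_cast h1
    have hi1 : (0 : ℝ) ≤ (if k ∈ E1 then (D * a * N : ℝ) else 0) := by split_ifs <;> positivity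
    have hi2 : (0 : ℝ) ≤ (if k ∈ E2 then (D * a * N : ℝ) else 0) := by split_ifs <;> positivity
    by_cases h1 : k ∈ E1
    · rw [if_pos h1]
      have := mul_nonneg hσ hcost0
      linarith
    by_cases h2 : k ∈ E2
    · rw [if_pos h2]
      have := mul_nonneg hσ hcost0
      linarith
    · -- apply HCL
      have hne : (CombCost_T c τ k.val).Nonempty := by
        rw [Finset.nonempty_iff_ne_empty]
        intro h3
        exact h1 (Finset.mem_filter.2 ⟨hk, h3⟩)
      have hknot : k ∉ CombCost_T c τ k.val := by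
        intro h3
        have := ((CombCost_mem _ _ _ _).1 h3).2
        omega
      have hins : insert k (CombCost_T c τ k.val) = CombCost_T c τ (k.val + 1) := by
        ext i
        rw [Finset.mem_insert, CombCost_mem, CombCost_mem]
        constructor
        · rintro (h3 | h3)
          · rw [h3]
            exact ⟨hkc, by omega⟩
          · exact ⟨h3.1, by omega⟩
        · rintro ⟨h3, h4⟩
          rcases Nat.lt_or_ge i.val k.val with h5 | h5
          · exact Or.inr ⟨h3, h5⟩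
          · left
            apply Fin.ext
            omega
      have h3 : ¬ (g (k.val + 1) + C₂ * (D * a) < g k.val) := fun h =>
        h2 (Finset.mem_filter.2 ⟨hk, h⟩)
      have h4 : R.G (D * a) (CombCost_T c τ k.val) ≤
          R.G (D * a) (insert k (CombCost_T c τ k.val)) + C₂ * (D * a) := by
        rw [hins]
        exact not_lt.1 h3
      have h5 := hCL _ k hne hknot h4
      have h6 : P.cost k (CombCost_T c τ k.val) ≤ P.cost k (Finset.Iio k) := by
        apply P.cost_mono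
        · intro i hi
          rw [Finset.mem_Iio]
          exact ((CombCost_mem _ _ _ _).1 hi).2
        · rw [Finset.mem_Iio]
          exact lt_irrefl _
      have h7 : (P.cost k (CombCost_T c τ k.val) : ℝ) ≤ P.cost k (Finset.Iio k) := by
        exact_mod_cast h6
      have h8 : (R.G (D * a) (cls c τ) : ℝ) ≤ R.G (D * a) (CombCost_T c τ k.val) := by
        exact_mod_cast CombCost_G_anti R (D * a) (hTsub k.val)
      have h9 := mul_le_mul_of_nonneg_left h7 hσ
      linarith
  have hsum := Finset.sum_le_sum hpt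
  rw [Finset.sum_const, nsmul_eq_mul] at hsum
  refine hsum.trans ?_
  rw [Finset.sum_add_distrib, Finset.sum_add_distrib, Finset.sum_add_distrib, Finset.sum_const,
    nsmul_eq_mul, ← Finset.mul_sum]
  have hs1 : ∑ k ∈ cls c τ, (if k ∈ E1 then (D * a * N : ℝ) else 0) ≤ D * a * N := by
    rw [← Finset.sum_filter, Finset.sum_const, nsmul_eq_mul]
    have h1 : ((cls c τ).filter fun k => k ∈ E1).card ≤ 1 := by
      refine le_trans (Finset.card_le_card ?_) hE1c
      intro k hk
      exact (Finset.mem_filter.1 hk).2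
    have h2 : ((((cls c τ).filter fun k => k ∈ E1).card : ℕ) : ℝ) ≤ 1 := by exact_mod_cast h1
    have h0 : (0 : ℝ) ≤ D * a * N := by positivity
    nlinarith
  have hs2 : ∑ k ∈ cls c τ, (if k ∈ E2 then (D * a * N : ℝ) else 0) ≤ (N / C₂) * (D * a * N) := by
    rw [← Finset.sum_filter, Finset.sum_const, nsmul_eq_mul]
    have h1 : ((cls c τ).filter fun k => k ∈ E2).card ≤ E2.card := by
      refine Finset.card_le_card ?_
      intro k hk
      exact (Finset.mem_filter.1 hk).2
    have h2 : ((((cls c τ).filter fun k => k ∈ E2).card : ℕ) : ℝ) ≤ E2.card := by exact_mod_cast h1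
    have h0 : (0 : ℝ) ≤ D * a * N := by positivity
    exact mul_le_mul_of_nonneg_right (h2.trans hE2c) h0
  nlinarith

/-- M05 (cost lower bound). -/
theorem le_cost {N r : ℕ} (hN : 0 < N) (P : Profile N) (R : Ranks N) (D a C₂ : ℕ) (hD : 1 ≤ D)
    (ha : 1 ≤ a) (hC : 1 ≤ C₂) (σ ξ : ℝ) (hσ : 0 ≤ σ) (hξ : 0 ≤ ξ)
    (hCL : P.HCL R D a C₂ σ ξ) (c : Fin N → Fin (r + 1)) :
    (∑ τ ∈ Finset.univ.erase 0, ((cls c τ).card : ℝ) * R.G (D * a) (cls c τ)) ≤
      σ * P.A + r * (1 + N / C₂) * (D * a * N) + ξ * D * a * N * N := by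
  classical
  have h1 : (∑ τ ∈ Finset.univ.erase 0, ((cls c τ).card : ℝ) * R.G (D * a) (cls c τ)) ≤
      ∑ τ ∈ (Finset.univ : Finset (Fin (r + 1))).erase 0,
        (σ * (∑ k ∈ cls c τ, (P.cost k (Finset.Iio k) : ℝ)) + ξ * D * a * N * (cls c τ).card +
          (1 + N / C₂) * (D * a * N)) :=
    Finset.sum_le_sum fun τ _ =>
      CombCost_class hN P R D a C₂ hD ha hC σ ξ hσ hξ hCL c τ
  refine h1.trans ?_
  rw [Finset.sum_add_distrib, Finset.sum_add_distrib, Finset.sum_const, nsmul_eq_mul,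
    ← Finset.mul_sum, ← Finset.mul_sum]
  have hcard : ((Finset.univ : Finset (Fin (r + 1))).erase 0).card = r := by
    rw [Finset.card_erase_of_mem (Finset.mem_univ _), Finset.card_univ, Fintype.card_fin]
    rfl
  have hA : ∑ k : Fin N, (P.cost k (Finset.Iio k) : ℝ) = P.A := by
    have h2 := P.cost_sum (Equiv.refl _)
    have h3 : ∑ k : Fin N, P.cost k (Finset.Iio k) = P.A := by
      rw [← h2]
      refine Finset.sum_congr rfl fun k _ => ?_
      congr 1
      ext i
      simp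
    rw [← h3]
    push_cast
    rfl
  have h2 : ∑ τ ∈ (Finset.univ : Finset (Fin (r + 1))).erase 0,
      ∑ k ∈ cls c τ, (P.cost k (Finset.Iio k) : ℝ) ≤ P.A := by
    rw [← hA]
    have h3 : ∑ τ ∈ (Finset.univ : Finset (Fin (r + 1))).erase 0,
        ∑ k ∈ cls c τ, (P.cost k (Finset.Iio k) : ℝ) ≤
        ∑ τ : Fin (r + 1), ∑ k ∈ cls c τ, (P.cost k (Finset.Iio k) : ℝ) := by
      refine Finset.sum_le_sum_of_subset_of_nonneg (Finset.erase_subset _ _) fun τ _ _ => ?_
      exact Finset.sum_nonneg fun k _ => Nat.cast_nonneg _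
    refine h3.trans (le_of_eq ?_)
    exact Finset.sum_fiberwise (Finset.univ : Finset (Fin N)) c
      (fun k => (P.cost k (Finset.Iio k) : ℝ))
  have h3 : ∑ τ ∈ (Finset.univ : Finset (Fin (r + 1))).erase 0, ((cls c τ).card : ℝ) ≤ N := by
    have h4 : ∑ τ ∈ (Finset.univ : Finset (Fin (r + 1))).erase 0, ((cls c τ).card : ℝ) ≤
        ∑ τ : Fin (r + 1), ((cls c τ).card : ℝ) :=
      Finset.sum_le_sum_of_subset_of_nonneg (Finset.erase_subset _ _)
        fun τ _ _ => Nat.cast_nonneg _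
    refine h4.trans (le_of_eq ?_)
    have h5 := Finset.card_eq_sum_card_fiberwise (s := (Finset.univ : Finset (Fin N)))
      (t := (Finset.univ : Finset (Fin (r + 1)))) (f := c) (fun x _ => by simp)
    rw [Finset.card_univ, Fintype.card_fin] at h5
    have h6 : ∑ τ : Fin (r + 1), (cls c τ).card = N := h5.symm
    exact_mod_cast h6
  rw [hcard]
  have h4 : σ * ∑ τ ∈ (Finset.univ : Finset (Fin (r + 1))).erase 0,
      ∑ k ∈ cls c τ, (P.cost k (Finset.Iio k) : ℝ) ≤ σ * P.A :=
    mul_le_mul_of_nonneg_left h2 hσ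
  have h5 : ξ * D * a * N * ∑ τ ∈ (Finset.univ : Finset (Fin (r + 1))).erase 0,
      ((cls c τ).card : ℝ) ≤ ξ * D * a * N * N :=
    mul_le_mul_of_nonneg_left h3 (by positivity)
  have h6 : (r : ℝ) * ((1 + (N : ℝ) / C₂) * (D * a * N)) = r * (1 + N / C₂) * (D * a * N) := by
    ring
  linarith

end Pool.Agent.Lib_GD

end

/-! ### from `Lib_KF.CElimG` -/

section

/-! C04: elimination, general form. -/

open PowerSeries

namespace Pool.Agent.Lib_KF

/-- Functionals which are independent modulo `X` are part of a basis. -/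
private theorem CElimG_extend {L : Type} [Field L] {Q : Type} [AddCommGroup Q] [Module L⟦X⟧ Q]
    {m : ℕ} (b : Module.Basis (Fin m) L⟦X⟧ Q) {A : Type} [Fintype A]
    (g : A → Q →ₗ[L⟦X⟧] L⟦X⟧)
    (hg : LinearIndependent L (fun α : A => fun k : Fin m => constantCoeff (g α (b k)))) :
    ∃ (r : ℕ) (F : Fin r → Q →ₗ[L⟦X⟧] L⟦X⟧), r + Fintype.card A = m ∧
      ∀ φ : Q →ₗ[L⟦X⟧] L⟦X⟧, ∃ (a : A → L⟦X⟧) (c : Fin r → L⟦X⟧),
        φ = ∑ α, a α • g α + ∑ k, c k • F k := by
  classical
  set v : A → Fin m → L := fun α k => constantCoeff (g α (b k)) with hv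
  set E' : Submodule L (Fin m → L) := Submodule.span L (Set.range v) with hE'
  have h1 : Module.finrank L E' = Fintype.card A := finrank_span_eq_card hg
  have h2 : Module.finrank L ((Fin m → L) ⧸ E') + Module.finrank L E' = m := by
    rw [Submodule.finrank_quotient_add_finrank, Module.finrank_fin_fun]
  let bq := Module.finBasis L ((Fin m → L) ⧸ E')
  choose w hw using fun k => Submodule.mkQ_surjective E' (bq k)
  let F : Fin (Module.finrank L ((Fin m → L) ⧸ E')) → Q →ₗ[L⟦X⟧] L⟦X⟧ :=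
    fun k => b.constr L⟦X⟧ (fun k' => C (w k k'))
  have hF : ∀ k k', F k (b k') = C (w k k') := fun k k' => b.constr_basis _ _ _
  refine ⟨_, F, by rw [← h1]; exact h2, ?_⟩
  have : Module.Free L⟦X⟧ Q := Module.Free.of_basis b
  have : Module.Finite L⟦X⟧ Q := Module.Finite.of_basis b
  have hfg : (⊤ : Submodule L⟦X⟧ (Q →ₗ[L⟦X⟧] L⟦X⟧)).FG := Module.Finite.fg_top
  have hnak : (⊤ : Submodule L⟦X⟧ (Q →ₗ[L⟦X⟧] L⟦X⟧)) ≤
      Submodule.span L⟦X⟧ (Set.range (Sum.elim g F)) := by
    refine Submodule.le_of_le_smul_of_le_jacobson_bot (I := Ideal.span {(X : L⟦X⟧)}) hfg ?_ ?_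
    · rw [IsLocalRing.jacobson_eq_maximalIdeal _ bot_ne_top, PowerSeries.maximalIdeal_eq_span_X]
    · intro φ _
      -- reduction modulo `X`
      set x : Fin m → L := fun k => constantCoeff (φ (b k)) with hx
      have h3 : x - ∑ k, bq.repr (E'.mkQ x) k • w k ∈ E' := by
        rw [← Submodule.Quotient.mk_eq_zero, ← Submodule.mkQ_apply, map_sub, map_sum]
        simp only [map_smul, hw]
        rw [bq.sum_repr, sub_self]
      obtain ⟨a, ha⟩ := (Submodule.mem_span_range_iff_exists_fun L).1 h3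
      set c : Fin (Module.finrank L ((Fin m → L) ⧸ E')) → L := fun k => bq.repr (E'.mkQ x) k
        with hc
      set ψ : Q →ₗ[L⟦X⟧] L⟦X⟧ := φ - ∑ α, (C (a α) : L⟦X⟧) • g α - ∑ k, (C (c k) : L⟦X⟧) • F k
        with hψ
      have h4 : ∀ k', (X : L⟦X⟧) ∣ ψ (b k') := by
        intro k'
        rw [PowerSeries.X_dvd_iff]
        simp only [hψ, LinearMap.sub_apply, LinearMap.sum_apply, LinearMap.smul_apply,
          smul_eq_mul, map_sub, map_sum, map_mul, hF, PowerSeries.constantCoeff_C]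
        have h5 := congrFun ha k'
        simp only [Finset.sum_apply, Pi.smul_apply, Pi.sub_apply, smul_eq_mul] at h5
        rw [h5]
        simp only [hx, hc]
        ring
      choose y hy using h4
      have h6 : ψ = (X : L⟦X⟧) • b.constr L⟦X⟧ y := by
        refine b.ext fun k' => ?_
        rw [LinearMap.smul_apply, b.constr_basis, hy, smul_eq_mul]
      have h7 : φ = (∑ α, (C (a α) : L⟦X⟧) • g α + ∑ k, (C (c k) : L⟦X⟧) • F k) +
          (X : L⟦X⟧) • b.constr L⟦X⟧ y := by
        rw [← h6, hψ]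
        abel
      rw [h7]
      refine Submodule.add_mem_sup (Submodule.add_mem _ ?_ ?_) ?_
      · exact Submodule.sum_mem _ fun α _ => Submodule.smul_mem _ _
          (Submodule.subset_span ⟨Sum.inl α, rfl⟩)
      · exact Submodule.sum_mem _ fun k _ => Submodule.smul_mem _ _
          (Submodule.subset_span ⟨Sum.inr k, rfl⟩)
      · exact Submodule.smul_mem_smul (Ideal.mem_span_singleton_self _) Submodule.mem_top
  intro φ
  obtain ⟨a, ha⟩ := (Submodule.mem_span_range_iff_exists_fun L⟦X⟧).1 (hnak (Submodule.mem_top (x := φ)))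
  refine ⟨fun α => a (Sum.inl α), fun k => a (Sum.inr k), ?_⟩
  rw [← ha, Fintype.sum_sum_type]
  rfl

/-- A non-injective map from `O^N` to a torsion-free module has a primitive vector in its kernel. -/
private theorem CElimG_primitive {L : Type} [Field L] {N : ℕ} {T : Type} [Fintype T]
    (Θ : (Fin N → L⟦X⟧) →ₗ[L⟦X⟧] (T → L⟦X⟧)) (hT : Fintype.card T < N) :
    ∃ f : Fin N → L⟦X⟧, Θ f = 0 ∧ ∃ i, constantCoeff (f i) ≠ 0 := by
  classical
  have h1 : ¬ Function.Injective Θ := by
    intro hinj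
    have h2 := LinearMap.finrank_le_finrank_of_injective hinj
    rw [Module.finrank_fin_fun, Module.finrank_fintype_fun_eq_card] at h2
    omega
  rw [← LinearMap.ker_eq_bot, Submodule.eq_bot_iff] at h1
  push Not at h1
  obtain ⟨f, hf, hf0⟩ := h1
  rw [LinearMap.mem_ker] at hf
  obtain ⟨i₀, hi₀⟩ : ∃ i, f i ≠ 0 := by
    by_contra hcon
    push Not at hcon
    exact hf0 (funext hcon)
  have hex : ∃ m : ℕ, ¬ ∀ i, (X : L⟦X⟧) ^ m ∣ f i := by
    by_contra hcon
    push Not at hcon
    apply hi₀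
    ext m
    have h3 := hcon (m + 1) i₀
    rw [PowerSeries.X_pow_dvd_iff] at h3
    rw [h3 m (Nat.lt_succ_self m), map_zero]
  have hm := Nat.find_spec hex
  have hm' : ∀ k, k < Nat.find hex → ∀ i, (X : L⟦X⟧) ^ k ∣ f i := fun k hk => by
    have := Nat.find_min hex hk
    push Not at this
    exact this
  obtain ⟨k, hk⟩ : ∃ k, Nat.find hex = k + 1 := by
    refine Nat.exists_eq_succ_of_ne_zero ?_
    intro h0
    rw [h0] at hm
    exact hm fun i => by simp
  rw [hk] at hm
  choose g hg using hm' k (by omega)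
  have hX : (X : L⟦X⟧) ^ k ≠ 0 := pow_ne_zero _ PowerSeries.X_ne_zero
  refine ⟨g, ?_, ?_⟩
  · have h4 : f = (X : L⟦X⟧) ^ k • g := funext fun i => hg i
    rw [h4, map_smul] at hf
    funext t
    have h5 := congrFun hf t
    simp only [Pi.smul_apply, smul_eq_mul, Pi.zero_apply, mul_eq_zero] at h5
    exact h5.resolve_left hX
  · by_contra hcon
    push Not at hcon
    apply hm
    intro i
    obtain ⟨y, hy⟩ := PowerSeries.X_dvd_iff.2 (hcon i)
    exact ⟨y, by rw [hg i, hy, pow_succ, mul_assoc]⟩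

/-- Let `ev i` be functionals on `O^N`, `S` a set of fewer than `N` indices and `g k` (`k < t`)
functionals which are independent modulo `X` and whose values on the common kernel of the `ev i`,
`i ∈ S`, are divisible by `X ^ β`. Then there are `J ⊆ S`, `#J + t ≤ #S`, such that `ev i f`,
`i ∈ S`, is divisible by `X ^ β` for every `f` killed by all `g k` and all `ev i`, `i ∈ J`; and
there is such an `f` which is non-zero modulo `X`.
This is literally the proof of `Lib_GD.ArcSystem.exists_elim` (file `Lib_GD.ElimJet`; copy its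
private lemmas `ElimJet_extend`, `ElimJet_primitive`) with `Γ.ev i 0` replaced by `ev i` and the
jets `Γ.ev j α`, `|α| < q`, replaced by `g k`. -/
theorem elim_general {L : Type} [Field L] {N t : ℕ}
    (ev : Fin N → (Fin N → L⟦X⟧) →ₗ[L⟦X⟧] L⟦X⟧) (S : Finset (Fin N)) (hS : S.card < N)
    (g : Fin t → (Fin N → L⟦X⟧) →ₗ[L⟦X⟧] L⟦X⟧)
    (hg : LinearIndependent L
      (fun k : Fin t => fun i : Fin N => constantCoeff (g k (Pi.single i 1))))
    (β : ℕ) (hβ : 1 ≤ β)
    (h : ∀ f, (∀ i ∈ S, ev i f = 0) → ∀ k, (X : L⟦X⟧) ^ β ∣ g k f) :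
    ∃ J, J ⊆ S ∧ J.card + t ≤ S.card ∧
      (∀ f : Fin N → L⟦X⟧, (∀ k, g k f = 0) → (∀ i ∈ J, ev i f = 0) →
        ∀ i ∈ S, (X : L⟦X⟧) ^ β ∣ ev i f) ∧
      ∃ f : Fin N → L⟦X⟧, (∀ k, g k f = 0) ∧ (∀ i ∈ J, ev i f = 0) ∧
        ∃ i, constantCoeff (f i) ≠ 0 := by
  classical
  -- evaluation at the indices of `S`
  let evS : (Fin N → L⟦X⟧) →ₗ[L⟦X⟧] (S → L⟦X⟧) := LinearMap.pi fun i : S => ev i
  let Q := LinearMap.range evS
  let π := evS.rangeRestrict
  have hπ : Function.Surjective π := LinearMap.surjective_rangeRestrict _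
  let b := Module.finBasis L⟦X⟧ Q
  have hQ : Module.finrank L⟦X⟧ Q ≤ S.card := by
    refine (Submodule.finrank_le Q).trans (le_of_eq ?_)
    rw [Module.finrank_fintype_fun_eq_card, Fintype.card_coe]
  obtain ⟨s, hs⟩ := Module.projective_lifting_property π LinearMap.id hπ
  have hs' : ∀ y, π (s y) = y := fun y => LinearMap.congr_fun hs y
  have hW : ∀ f, π f = 0 → ∀ i ∈ S, ev i f = 0 := by
    intro f hf i hi
    have h1 : evS f = 0 := by
      have := congrArg Subtype.val hf
      exact this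
    exact congrFun h1 ⟨i, hi⟩
  have hker : ∀ f, ∀ i ∈ S, ev i (f - s (π f)) = 0 := by
    intro f
    apply hW
    rw [map_sub, hs', sub_self]
  -- the functionals `g k` on `Q`
  let g' : Fin t → Q →ₗ[L⟦X⟧] L⟦X⟧ := fun α => (g α) ∘ₗ s
  have hX1 : (X : L⟦X⟧) ∣ X ^ β := dvd_pow_self _ (by omega)
  have hg' : LinearIndependent L (fun α : Fin t => fun k => constantCoeff (g' α (b k))) := by
    rw [Fintype.linearIndependent_iff]
    intro a ha
    have h1 := Fintype.linearIndependent_iff.1 hg a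
    apply h1
    let Ψ : (Fin N → L⟦X⟧) →ₗ[L⟦X⟧] L⟦X⟧ := ∑ α : Fin t, (C (a α) : L⟦X⟧) • g α
    have hΨ : ∀ f, Ψ f = ∑ α : Fin t, C (a α) * g α f := by
      intro f
      simp only [Ψ, LinearMap.sum_apply, LinearMap.smul_apply, smul_eq_mul]
    have h2 : ∀ k, (X : L⟦X⟧) ∣ (Ψ ∘ₗ s) (b k) := by
      intro k
      rw [LinearMap.comp_apply, hΨ, PowerSeries.X_dvd_iff, map_sum]
      have h3 := congrFun ha k
      simp only [Finset.sum_apply, Pi.smul_apply, smul_eq_mul, Pi.zero_apply] at h3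
      rw [← h3]
      refine Finset.sum_congr rfl fun α _ => ?_
      rw [map_mul, PowerSeries.constantCoeff_C]
      rfl
    have h4 : ∀ y, (X : L⟦X⟧) ∣ (Ψ ∘ₗ s) y := by
      intro y
      rw [← b.sum_repr y, map_sum]
      refine Finset.dvd_sum fun k _ => ?_
      rw [map_smul, smul_eq_mul]
      exact Dvd.dvd.mul_left (h2 k) _
    have h5 : ∀ f, (X : L⟦X⟧) ∣ Ψ f := by
      intro f
      have h6 : Ψ f = (Ψ ∘ₗ s) (π f) + Ψ (f - s (π f)) := by
        rw [LinearMap.comp_apply, map_sub]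
        ring
      rw [h6]
      refine dvd_add (h4 _) ?_
      rw [hΨ]
      refine Finset.dvd_sum fun α _ => ?_
      exact Dvd.dvd.mul_left (hX1.trans (h _ (hker f) α)) _
    funext i
    have h7 := h5 (Pi.single i 1)
    rw [hΨ, PowerSeries.X_dvd_iff, map_sum] at h7
    simp only [Finset.sum_apply, Pi.smul_apply, smul_eq_mul, Pi.zero_apply]
    rw [← h7]
    refine Finset.sum_congr rfl fun α _ => ?_
    rw [map_mul, PowerSeries.constantCoeff_C]
  obtain ⟨r, F, hr, hF⟩ := CElimG_extend b g' hg'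
  rw [Fintype.card_fin] at hr
  -- the common kernel of the `g k`
  let V' : Submodule L⟦X⟧ (Fin N → L⟦X⟧) := ⨅ α : Fin t, LinearMap.ker (g α)
  have hV' : ∀ f, f ∈ V' ↔ ∀ α, g α f = 0 := by
    intro f
    simp only [V', Submodule.mem_iInf, LinearMap.mem_ker]
  obtain ⟨J, hJS, hJr, hJ⟩ := Lib_GD.elimination (V := V') S (fun i => (ev i).domRestrict V') r
    (fun k => ((F k) ∘ₗ π).domRestrict V') β (by
      intro i hi
      -- the functional of `i` on `Q`
      let φ : Q →ₗ[L⟦X⟧] L⟦X⟧ := (LinearMap.proj (⟨i, hi⟩ : S)) ∘ₗ Q.subtype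
      have hφ : ∀ f, φ (π f) = ev i f := fun f => rfl
      obtain ⟨a, c, hac⟩ := hF φ
      refine ⟨c, fun v => ?_⟩
      have h8 : ev i v.1 = ∑ α, a α * g' α (π v.1) + ∑ k, c k * F k (π v.1) := by
        rw [← hφ, hac]
        simp only [LinearMap.add_apply, LinearMap.sum_apply, LinearMap.smul_apply, smul_eq_mul]
      simp only [LinearMap.domRestrict_apply, LinearMap.comp_apply]
      rw [h8, add_sub_cancel_right]
      refine Finset.dvd_sum fun α _ => Dvd.dvd.mul_left ?_ _
      have h9 := h _ (hker v.1) α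
      rw [map_sub, (hV' v.1).1 v.2 α, zero_sub, dvd_neg] at h9
      exact h9)
  have hcard : J.card + t ≤ S.card := by omega
  refine ⟨J, hJS, hcard, ?_, ?_⟩
  · intro f hf hfJ i hi
    exact hJ ⟨f, (hV' f).2 hf⟩ (fun l hl => hfJ l hl) i hi
  · let Θ : (Fin N → L⟦X⟧) →ₗ[L⟦X⟧] (J ⊕ Fin t → L⟦X⟧) :=
      LinearMap.pi fun t => Sum.elim (fun i : J => ev i) (fun α => g α) t
    obtain ⟨f, hf, hf1⟩ := CElimG_primitive Θ (by
      rw [Fintype.card_sum, Fintype.card_coe, Fintype.card_fin]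
      omega)
    refine ⟨f, fun α => ?_, fun i hi => ?_, hf1⟩
    · exact congrFun hf (Sum.inr α)
    · exact congrFun hf (Sum.inl ⟨i, hi⟩)

end Pool.Agent.Lib_KF

end

/-! ### from `Lib_KF.CDisc` -/

section

/-! C08: disc lattices with poles and their ranks. -/

open PowerSeries

namespace Pool.Agent.Lib_KF.ArcSys

open Pool.Agent.Lib_GD (hat colen FinColen ArcSystem)

variable {L : Type} [Field L] [Algebra ℂ L] {n N : ℕ} (Γ : ArcSys L n N)

theorem X_pow_smul_mem_Lam (B a : ℕ) (S : Finset (Fin N)) (f : Fin N → L⟦X⟧) :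
    (X : L⟦X⟧) ^ B • f ∈ Γ.Lam B a S := by
  intro i _ _ α
  rw [map_smul, smul_eq_mul]
  exact Dvd.dvd.mul_left (dvd_mul_right _ _) _

theorem Lam_anti (B a : ℕ) {S T : Finset (Fin N)} (h : S ⊆ T) :
    Γ.Lam B a T ≤ Γ.Lam B a S := fun _ hf i hi ha α => hf i (h hi) ha α

theorem rk_le (B a : ℕ) (S : Finset (Fin N)) (b : ℕ) : Γ.rk B a S b ≤ N := by
  unfold rk
  refine (Submodule.finrank_le _).trans (le_of_eq ?_)
  rw [Module.finrank_fin_fun]

theorem rk_anti (B a : ℕ) (S T : Finset (Fin N)) (b : ℕ) (h : S ⊆ T) :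
    Γ.rk B a T b ≤ Γ.rk B a S b := by
  unfold rk
  refine Submodule.finrank_mono ?_
  rintro v ⟨f, hf, hf'⟩
  exact ⟨f, hf, Γ.Lam_anti B a h hf'⟩

/-- multiples of a power of `X` -/
private noncomputable def CDisc_XP (L : Type) [Field L] (N i : ℕ) :
    Submodule L⟦X⟧ (Fin N → L⟦X⟧) :=
  LinearMap.range (LinearMap.lsmul L⟦X⟧ (Fin N → L⟦X⟧) (X ^ i))

omit [Algebra ℂ L] in
private theorem CDisc_mem_XP {i : ℕ} {v : Fin N → L⟦X⟧} :
    v ∈ CDisc_XP L N i ↔ ∃ h : Fin N → L⟦X⟧, (X : L⟦X⟧) ^ i • h = v := by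
  unfold CDisc_XP
  rw [LinearMap.mem_range]
  rfl

omit [Algebra ℂ L] in
private theorem CDisc_step (M : Submodule L⟦X⟧ (Fin N → L⟦X⟧)) (i : ℕ)
    (R : Submodule L (Fin N → L))
    (hR : ∀ v, v ∈ R ↔ ∃ f : Fin N → L⟦X⟧, (∀ j, constantCoeff (f j) = v j) ∧
      (X : L⟦X⟧) ^ i • f ∈ M) :
    Module.length L⟦X⟧ ((Fin N → L⟦X⟧) ⧸ (M ⊔ CDisc_XP L N (i + 1))) =
      ((N - Module.finrank L R : ℕ) : ℕ∞) +
        Module.length L⟦X⟧ ((Fin N → L⟦X⟧) ⧸ (M ⊔ CDisc_XP L N i)) := by
  let alg : Algebra L⟦X⟧ L := (constantCoeff : L⟦X⟧ →+* L).toAlgebra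
  have hsmul : ∀ (a : L⟦X⟧) (l : L), a • l = constantCoeff a * l := fun _ _ => rfl
  -- the reduction
  let red : (Fin N → L⟦X⟧) →ₗ[L⟦X⟧] (Fin N → L) :=
    { toFun := fun f j => constantCoeff (f j)
      map_add' := fun f g => by funext j; simp
      map_smul' := fun a f => by
        funext j
        simp only [Pi.smul_apply, smul_eq_mul, map_mul, RingHom.id_apply, hsmul] }
  have hred : ∀ f j, red f j = constantCoeff (f j) := fun _ _ => rfl
  let mk' : (Fin N → L) →ₗ[L⟦X⟧] ((Fin N → L) ⧸ R) :=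
    { toFun := fun v => R.mkQ v
      map_add' := fun v w => map_add _ _ _
      map_smul' := fun a v => rfl }
  let ph : (Fin N → L⟦X⟧) →ₗ[L⟦X⟧] ((Fin N → L) ⧸ R) := mk' ∘ₗ red
  have hph : ∀ f, ph f = 0 ↔ red f ∈ R := by
    intro f
    change R.mkQ (red f) = 0 ↔ _
    rw [Submodule.mkQ_apply, Submodule.Quotient.mk_eq_zero]
  have hphs : Function.Surjective ph := by
    intro x
    obtain ⟨v, rfl⟩ := R.mkQ_surjective x
    refine ⟨fun j => C (v j), ?_⟩
    change R.mkQ (red fun j => C (v j)) = R.mkQ v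
    have h1 : red (fun j => C (v j)) = v := by
      funext j
      rw [hred, constantCoeff_C]
    rw [h1]
  -- multiplication by the power of the variable
  let ps : (Fin N → L⟦X⟧) →ₗ[L⟦X⟧] ((Fin N → L⟦X⟧) ⧸ (M ⊔ CDisc_XP L N (i + 1))) :=
    (M ⊔ CDisc_XP L N (i + 1)).mkQ ∘ₗ LinearMap.lsmul L⟦X⟧ (Fin N → L⟦X⟧) (X ^ i)
  have hps : ∀ f, ps f = Submodule.Quotient.mk ((X : L⟦X⟧) ^ i • f) := fun _ => rfl
  have hker : LinearMap.ker ps = LinearMap.ker ph := by
    ext f
    rw [LinearMap.mem_ker, LinearMap.mem_ker, hph, hps, Submodule.Quotient.mk_eq_zero, hR]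
    constructor
    · intro h
      obtain ⟨m, hm, x, hx, hmx⟩ := Submodule.mem_sup.1 h
      obtain ⟨g, rfl⟩ := CDisc_mem_XP.1 hx
      refine ⟨f - (X : L⟦X⟧) • g, fun j => ?_, ?_⟩
      · rw [hred, Pi.sub_apply, Pi.smul_apply, smul_eq_mul, map_sub, map_mul,
          constantCoeff_X, zero_mul, sub_zero]
      · have h1 : (X : L⟦X⟧) ^ i • (f - (X : L⟦X⟧) • g) = m := by
          rw [smul_sub, ← hmx, smul_smul, ← pow_succ, add_sub_cancel_right]
        rw [h1]
        exact hm
    · rintro ⟨g, hg, hgM⟩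
      have h1 : ∀ j, ∃ h : L⟦X⟧, X * h = f j - g j := by
        intro j
        have h2 : (X : L⟦X⟧) ∣ f j - g j := by
          rw [PowerSeries.X_dvd_iff, map_sub, hg j, hred, sub_self]
        obtain ⟨h, hh⟩ := h2
        exact ⟨h, hh.symm⟩
      choose w hw using h1
      have h2 : (X : L⟦X⟧) ^ i • f = (X : L⟦X⟧) ^ i • g + (X : L⟦X⟧) ^ (i + 1) • w := by
        rw [pow_succ, mul_smul, ← smul_add]
        congr 1
        funext j
        rw [Pi.add_apply, Pi.smul_apply, smul_eq_mul, hw j]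
        ring
      rw [h2]
      exact Submodule.add_mem_sup hgM (CDisc_mem_XP.2 ⟨w, rfl⟩)
  have hle : M ⊔ CDisc_XP L N (i + 1) ≤ M ⊔ CDisc_XP L N i := by
    refine sup_le_sup_left ?_ _
    intro v hv
    obtain ⟨h, rfl⟩ := CDisc_mem_XP.1 hv
    exact CDisc_mem_XP.2 ⟨(X : L⟦X⟧) • h, by rw [smul_smul, ← pow_succ]⟩
  let g : ((Fin N → L⟦X⟧) ⧸ (M ⊔ CDisc_XP L N (i + 1))) →ₗ[L⟦X⟧]
      ((Fin N → L⟦X⟧) ⧸ (M ⊔ CDisc_XP L N i)) :=
    Submodule.mapQ _ _ LinearMap.id (fun v hv => hle hv)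
  have hg : Function.Surjective g := by
    intro x
    obtain ⟨v, rfl⟩ := Submodule.Quotient.mk_surjective _ x
    exact ⟨Submodule.Quotient.mk v, rfl⟩
  have hexact : Function.Exact (LinearMap.range ps).subtype g := by
    intro x
    obtain ⟨v, rfl⟩ := Submodule.Quotient.mk_surjective _ x
    have h0 : g (Submodule.Quotient.mk v) = 0 ↔ v ∈ M ⊔ CDisc_XP L N i := by
      change (Submodule.Quotient.mk v : (Fin N → L⟦X⟧) ⧸ (M ⊔ CDisc_XP L N i)) = 0 ↔ _
      rw [Submodule.Quotient.mk_eq_zero]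
    rw [h0]
    constructor
    · intro h
      obtain ⟨m, hm, y, hy, rfl⟩ := Submodule.mem_sup.1 h
      obtain ⟨w, rfl⟩ := CDisc_mem_XP.1 hy
      refine ⟨⟨ps w, LinearMap.mem_range_self _ _⟩, ?_⟩
      change ps w = _
      rw [hps, Submodule.Quotient.eq]
      have h1 : (X : L⟦X⟧) ^ i • w - (m + (X : L⟦X⟧) ^ i • w) = -m := by abel
      rw [h1]
      exact Submodule.mem_sup_left (neg_mem hm)
    · rintro ⟨⟨y, hy⟩, hy'⟩
      obtain ⟨w, rfl⟩ := LinearMap.mem_range.1 hy
      have h1 : ps w = Submodule.Quotient.mk v := hy'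
      rw [hps, Submodule.Quotient.eq] at h1
      have h2 : v = (X : L⟦X⟧) ^ i • w - ((X : L⟦X⟧) ^ i • w - v) := by abel
      rw [h2]
      refine Submodule.sub_mem _ ?_ (hle h1)
      exact Submodule.mem_sup_right (CDisc_mem_XP.2 ⟨w, rfl⟩)
  have h1 := Module.length_eq_add_of_exact (LinearMap.range ps).subtype g
    (Submodule.subtype_injective _) hg hexact
  rw [h1]
  congr 1
  have h2 : Module.length L⟦X⟧ (LinearMap.range ps) =
      Module.length L⟦X⟧ ((Fin N → L⟦X⟧) ⧸ LinearMap.ker ph) := by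
    rw [← ps.quotKerEquivRange.length_eq]
    exact (Submodule.quotEquivOfEq _ _ hker).length_eq
  rw [h2, (ph.quotKerEquivOfSurjective hphs).length_eq]
  have hsurj : Function.Surjective (algebraMap L⟦X⟧ L) := by
    intro l
    exact ⟨C l, constantCoeff_C _⟩
  rw [Module.length_eq_of_surjective (R := L) (S := L⟦X⟧) (M := (Fin N → L) ⧸ R) hsurj,
    Module.length_eq_finrank]
  congr 1
  have h3 := Submodule.finrank_quotient_add_finrank R
  rw [Module.finrank_fin_fun] at h3
  omega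

/-- The ranks add up to the length of `Λ_S` over `O^N`: `∑_{b=1}^B r_S(b) = B N - colen`.
Copy of `Lib_GD.ArcSystem.sum_rk` (file `Lib_GD.Disc`, private lemmas `Disc_XP`, `Disc_mem_XP`,
`Disc_step`); only `X_pow_smul_mem_Lam` is used about `Lam`. -/
theorem sum_rk (B a : ℕ) (S : Finset (Fin N)) :
    (∑ b ∈ Finset.Icc 1 B, Γ.rk B a S b) + colen (Γ.Lam B a S) = B * N := by
  have main : ∀ i, i ≤ B → Module.length L⟦X⟧ ((Fin N → L⟦X⟧) ⧸ (Γ.Lam B a S ⊔ CDisc_XP L N i)) =
      ((∑ j ∈ Finset.range i, (N - Γ.rk B a S (B - j)) : ℕ) : ℕ∞) := by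
    intro i
    induction i with
    | zero =>
      intro _
      have h1 : Γ.Lam B a S ⊔ CDisc_XP L N 0 = ⊤ := by
        rw [eq_top_iff]
        intro w _
        exact Submodule.mem_sup_right (CDisc_mem_XP.2 ⟨w, by rw [pow_zero, one_smul]⟩)
      rw [h1, Finset.range_zero, Finset.sum_empty]
      have : Subsingleton ((Fin N → L⟦X⟧) ⧸ (⊤ : Submodule L⟦X⟧ (Fin N → L⟦X⟧))) :=
        Submodule.Quotient.subsingleton_iff.2 rfl
      rw [Module.length_eq_zero]
      rfl
    | succ i ih =>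
      intro hi
      have hstep := CDisc_step (Γ.Lam B a S) i (Γ.rsub B a S (B - i)) (fun v => by
        have h1 : B - (B - i) = i := by omega
        change (∃ f : Fin N → L⟦X⟧, (∀ i, constantCoeff (f i) = v i) ∧
          (X : L⟦X⟧) ^ (B - (B - i)) • f ∈ Γ.Lam B a S) ↔ _
        rw [h1])
      rw [hstep, ih (by omega), Finset.sum_range_succ, Nat.cast_add, add_comm]
      rfl
  have hB := main B le_rfl
  have h1 : Γ.Lam B a S ⊔ CDisc_XP L N B = Γ.Lam B a S := by
    refine sup_eq_left.2 ?_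
    intro v hv
    obtain ⟨w, rfl⟩ := CDisc_mem_XP.1 hv
    exact Γ.X_pow_smul_mem_Lam B a S w
  rw [h1] at hB
  have h2 : colen (Γ.Lam B a S) = ∑ j ∈ Finset.range B, (N - Γ.rk B a S (B - j)) := by
    unfold colen
    rw [hB, ENat.toNat_natCast]
  have h3 : ∑ j ∈ Finset.range B, (N - Γ.rk B a S (B - j)) =
      ∑ b ∈ Finset.Icc 1 B, (N - Γ.rk B a S b) := by
    refine Finset.sum_bij' (fun j _ => B - j) (fun b _ => B - b) ?_ ?_ ?_ ?_ ?_
    · intro j hj
      have := Finset.mem_range.1 hj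
      exact Finset.mem_Icc.2 ⟨by omega, by omega⟩
    · intro b hb
      have := Finset.mem_Icc.1 hb
      exact Finset.mem_range.2 (by omega)
    · intro j hj
      have := Finset.mem_range.1 hj
      change B - (B - j) = j
      omega
    · intro b hb
      have := Finset.mem_Icc.1 hb
      change B - (B - b) = b
      omega
    · intro j _
      rfl
  rw [h2, h3, ← Finset.sum_add_distrib]
  have h4 : ∀ b ∈ Finset.Icc 1 B, Γ.rk B a S b + (N - Γ.rk B a S b) = N := fun b _ => by
    have := Γ.rk_le B a S b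
    omega
  rw [Finset.sum_congr rfl h4, Finset.sum_const, Nat.card_Icc, smul_eq_mul, Nat.add_sub_cancel]

/-- (EL) with poles: if all `i ∈ E` satisfy `a(i|S) ≤ a`, `e_i ≤ a` and have energy at least `b`
over `S`, then `r_E(b) ≥ N - #S`. As `Lib_GD.ArcSystem.le_rk` with the new `jet_dvd`:
`X ^ (b + |α| e_i) ∣ X ^ (|α| a) ev i α f`, so `X ^ b ∣ X ^ (|α| (a - e_i)) ev i α f`. -/
theorem le_rk (hdet : Γ.det ≠ 0) (B a : ℕ) (S E : Finset (Fin N)) (b : ℕ)
    (hES : Disjoint E S) (hb : 1 ≤ b) (hb' : b ≤ B)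
    (h : ∀ i ∈ E, Γ.cost i S ≤ a ∧ Γ.e i ≤ a ∧ b ≤ Γ.phi i S) :
    N ≤ Γ.rk B a E b + S.card := by
  have h1 := Γ.le_finrank_W S
  refine h1.trans (Nat.add_le_add_right ?_ _)
  unfold rk
  refine Submodule.finrank_mono ?_
  rw [Submodule.span_le]
  rintro v ⟨f, hf, hfv⟩
  refine ⟨f, hfv, ?_⟩
  intro i hi hia α
  have hiS : i ∉ S := Finset.disjoint_left.1 hES hi
  have h2 := Γ.jet_dvd S i hiS (Γ.W S) (Γ.stable_W S) b (fun g hg =>
    dvd_trans (pow_dvd_pow _ (h i hi).2.2) (Γ.X_pow_phi_dvd hdet S i hiS g hg)) α f hf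
  have h3 : (X : L⟦X⟧) ^ (b + α.degree * Γ.e i) ∣ X ^ (α.degree * a) * Γ.ev i α f := by
    have h4 : α.degree * a = α.degree * (a - Γ.cost i S) + α.degree * Γ.cost i S := by
      rw [← Nat.mul_add, Nat.sub_add_cancel (h i hi).1]
    rw [h4, pow_add X (α.degree * (a - Γ.cost i S)), mul_assoc]
    exact Dvd.dvd.mul_left h2 _
  have h3' : (X : L⟦X⟧) ^ b ∣ X ^ (α.degree * (a - Γ.e i)) * Γ.ev i α f := by
    have h4 : α.degree * a = α.degree * Γ.e i + α.degree * (a - Γ.e i) := by
      rw [← Nat.mul_add, Nat.add_sub_cancel' hia]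
    rw [h4, pow_add X (α.degree * Γ.e i), mul_assoc, Nat.add_comm, pow_add] at h3
    exact (mul_dvd_mul_iff_left (pow_ne_zero _ PowerSeries.X_ne_zero)).1 h3
  have h5 : (X : L⟦X⟧) ^ B = X ^ (B - b) * X ^ b := by
    rw [← pow_add, Nat.sub_add_cancel hb']
  rw [map_smul, smul_eq_mul, mul_left_comm, h5]
  exact mul_dvd_mul_left _ h3'

end Pool.Agent.Lib_KF.ArcSys

end

/-! ### from `Lib_KF.CAlmost` -/

section

/-! C09: an almost stable lattice, with poles. -/

open PowerSeries

namespace Pool.Agent.Lib_KF.ArcSys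

open Pool.Agent.Lib_GD (hat colen FinColen ArcSystem)

/-- the lattices between the two disc lattices -/
private noncomputable def CAlmost_B {L : Type} [Field L] [Algebra ℂ L] {n N : ℕ}
    (Γ : ArcSys L n N) (B a : ℕ) (S : Finset (Fin N)) (j : Fin N) (i : ℕ) :
    Submodule L⟦X⟧ (Fin N → L⟦X⟧) where
  carrier := {f | f ∈ Γ.Lam B a S ∧ ∀ α : Fin n →₀ ℕ, α.degree < i →
    (X : L⟦X⟧) ^ B ∣ X ^ (α.degree * (a - Γ.e j)) * Γ.ev j α f}
  add_mem' {f g} hf hg := by
    refine ⟨add_mem hf.1 hg.1, fun α hα => ?_⟩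
    rw [map_add, mul_add]; exact dvd_add (hf.2 α hα) (hg.2 α hα)
  zero_mem' := ⟨zero_mem _, fun α _ => by simp⟩
  smul_mem' c f hf := by
    refine ⟨Submodule.smul_mem _ c hf.1, fun α hα => ?_⟩
    rw [map_smul, smul_eq_mul, mul_left_comm]; exact Dvd.dvd.mul_left (hf.2 α hα) c

private theorem CAlmost_mem {L : Type} [Field L] [Algebra ℂ L] {n N : ℕ}
    {Γ : ArcSys L n N} {B a : ℕ} {S : Finset (Fin N)} {j : Fin N} {i : ℕ}
    {f : Fin N → L⟦X⟧} : f ∈ CAlmost_B Γ B a S j i ↔ f ∈ Γ.Lam B a S ∧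
      ∀ α : Fin n →₀ ℕ, α.degree < i →
        (X : L⟦X⟧) ^ B ∣ X ^ (α.degree * (a - Γ.e j)) * Γ.ev j α f :=
  Iff.rfl

/-- K10a with poles; copy of `Lib_GD.ArcSystem.exists_almost_stable` with the lattices
`M i = {f ∈ Λ_S | ∀ |α| < i, X ^ B ∣ X ^ (|α| (a - e_j)) ev j α f}`. The key step: for
`δ ∈ Dker S` and `f ∈ M (i+1)`, `X ^ a • hat δ f ∈ M i`, since `X ^ a = X ^ (a - e_j) X ^ e_j` and
`X ^ e_j ev j α (hat δ f) = X ^ e_j hat δ (ev j α f) - ∑ ξ_l ev j (α + l) f - X ^ e_j w ev j α f`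
(`hat_ev`). -/
theorem exists_almost_stable {L : Type} [Field L] [Algebra ℂ L] {n N : ℕ}
    (Γ : ArcSys L n N) (B a : ℕ) (S : Finset (Fin N)) (j : Fin N) (hj : j ∉ S)
    (he : Γ.e j ≤ a) (c I : ℕ)
    (hI : 1 ≤ I) (hc : colen (Γ.Lam B a (insert j S)) ≤ colen (Γ.Lam B a S) + c) :
    ∃ Q : Submodule L⟦X⟧ (Fin N → L⟦X⟧), Γ.Lam B a (insert j S) ≤ Q ∧ Q ≤ Γ.Lam B a S ∧
      (∀ f ∈ Q, (X : L⟦X⟧) ^ B ∣ Γ.ev j 0 f) ∧
      ∀ δ ∈ Γ.Dker S, ∀ f ∈ Q, (X : L⟦X⟧) ^ (a + c / I) • (fun i => hat δ (f i)) ∈ Q := by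
  classical
  obtain ⟨M, hM⟩ : ∃ M : ℕ → Submodule L⟦X⟧ (Fin N → L⟦X⟧),
      ∀ i, M i = CAlmost_B Γ B a S j i := ⟨_, fun _ => rfl⟩
  have hmem : ∀ i f, f ∈ M i ↔ f ∈ Γ.Lam B a S ∧
      ∀ α : Fin n →₀ ℕ, α.degree < i →
        (X : L⟦X⟧) ^ B ∣ X ^ (α.degree * (a - Γ.e j)) * Γ.ev j α f := by
    intro i f
    rw [hM]
    exact CAlmost_mem
  have hLam : ∀ i, Γ.Lam B a (insert j S) ≤ M i := by
    intro i f hf
    rw [hmem]
    refine ⟨Γ.Lam_anti B a (Finset.subset_insert j S) hf, fun α _ => ?_⟩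
    exact hf j (Finset.mem_insert_self j S) he α
  have hM0 : M 0 = Γ.Lam B a S := by
    ext f
    rw [hmem]
    exact ⟨fun h => h.1, fun h => ⟨h, fun α hα => absurd hα (Nat.not_lt_zero _)⟩⟩
  have hanti : ∀ i, M (i + 1) ≤ M i := by
    intro i f hf
    rw [hmem] at hf ⊢
    exact ⟨hf.1, fun α hα => hf.2 α (Nat.lt_succ_of_lt hα)⟩
  have hfinL : FinColen (Γ.Lam B a (insert j S)) :=
    (Pool.Agent.Lib_GD.finColen_of_X_pow (B := B)
      fun f => Γ.X_pow_smul_mem_Lam B a (insert j S) f).1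
  have hfin : ∀ i, FinColen (M i) := fun i => Pool.Agent.Lib_GD.finColen_mono (hLam i) hfinL
  -- a small step
  obtain ⟨i, hi, hstep⟩ : ∃ i, i < I ∧ colen (M (i + 1)) ≤ colen (M i) + c / I := by
    by_contra hcon
    push Not at hcon
    have key : ∀ i, i ≤ I → colen (M 0) + i * (c / I + 1) ≤ colen (M i) := by
      intro i
      induction i with
      | zero => intro _; simp
      | succ i ih =>
        intro hi
        have h1 := hcon i (by omega)
        have h2 := ih (by omega)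
        rw [add_mul, one_mul]
        omega
    have h1 := key I le_rfl
    have h2 : colen (M I) ≤ colen (Γ.Lam B a (insert j S)) :=
      Pool.Agent.Lib_GD.colen_anti (hLam I) hfinL
    rw [hM0] at h1
    have h3 : c < I * (c / I + 1) := by
      have := Nat.lt_mul_div_succ c (show 0 < I by omega)
      simpa using this
    omega
  refine ⟨M (i + 1), hLam _, ?_, ?_, ?_⟩
  · intro f hf
    exact ((hmem _ _).1 hf).1
  · intro f hf
    have h1 := ((hmem _ _).1 hf).2 0 (by simp)
    simpa using h1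
  · intro δ hδ f hf
    obtain ⟨hf1, hf2⟩ := (hmem _ _).1 hf
    have hmain : (X : L⟦X⟧) ^ a • (fun i => hat δ (f i)) ∈ M i := by
      rw [hmem]
      refine ⟨Submodule.smul_mem _ _ (Γ.stable_Lam B a S δ hδ f hf1), fun α hα => ?_⟩
      have h1 := Γ.hat_ev δ hδ.1 j α f
      have h2 : X ^ Γ.e j * Γ.ev j α (fun i => hat δ (f i)) =
          X ^ Γ.e j * hat δ (Γ.ev j α f) -
          (∑ l, Γ.ξ δ j l * Γ.ev j (α + Finsupp.single l 1) f) -
          X ^ Γ.e j * (Γ.w δ j α * Γ.ev j α f) := by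
        rw [h1]; ring
      have ha : (X : L⟦X⟧) ^ a = X ^ (a - Γ.e j) * X ^ Γ.e j := by
        rw [← pow_add, Nat.sub_add_cancel he]
      rw [map_smul, smul_eq_mul, ha, mul_assoc, h2, mul_sub, mul_sub, mul_sub, mul_sub]
      refine dvd_sub (dvd_sub ?_ ?_) ?_
      · have h3 : (X : L⟦X⟧) ^ (α.degree * (a - Γ.e j)) *
            (X ^ (a - Γ.e j) * (X ^ Γ.e j * hat δ (Γ.ev j α f))) =
            X ^ (a - Γ.e j) * X ^ Γ.e j *
              hat δ (X ^ (α.degree * (a - Γ.e j)) * Γ.ev j α f) := by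
          rw [Pool.Agent.Lib_GD.hat_X_pow_mul]; ring
        rw [h3]
        exact Dvd.dvd.mul_left
          (Pool.Agent.Lib_GD.X_pow_dvd_hat δ (hf2 α (Nat.lt_succ_of_lt hα))) _
      · rw [Finset.mul_sum, Finset.mul_sum]
        refine Finset.dvd_sum fun l _ => ?_
        have h3 : (α + Finsupp.single l 1).degree = α.degree + 1 := by
          rw [map_add, Finsupp.degree_single]
        have h4 := hf2 (α + Finsupp.single l 1) (by rw [h3]; omega)
        rw [h3] at h4
        have h5 : (X : L⟦X⟧) ^ (α.degree * (a - Γ.e j)) * (X ^ (a - Γ.e j) *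
            (Γ.ξ δ j l * Γ.ev j (α + Finsupp.single l 1) f)) =
            Γ.ξ δ j l * (X ^ ((α.degree + 1) * (a - Γ.e j)) *
              Γ.ev j (α + Finsupp.single l 1) f) := by
          rw [add_mul, one_mul, pow_add]; ring
        rw [h5]
        exact Dvd.dvd.mul_left h4 _
      · have h3 : (X : L⟦X⟧) ^ (α.degree * (a - Γ.e j)) *
            (X ^ (a - Γ.e j) * (X ^ Γ.e j * (Γ.w δ j α * Γ.ev j α f))) =
            X ^ (a - Γ.e j) * X ^ Γ.e j * Γ.w δ j α *
              (X ^ (α.degree * (a - Γ.e j)) * Γ.ev j α f) := by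
          ring
        rw [h3]
        exact Dvd.dvd.mul_left (hf2 α (Nat.lt_succ_of_lt hα)) _
    have h6 := Pool.Agent.Lib_GD.X_pow_smul_mem_of_colen (hanti i) (hfin (i + 1)) hstep hmain
    rw [smul_smul, ← pow_add, add_comm (c / I) a] at h6
    exact h6

end Pool.Agent.Lib_KF.ArcSys

end

/-! ### from `Lib_KF.JDet` -/

section

/-! J01: the Jacobian of `(t, u) ↦ (t ^ d X_b(u))_b`. -/

namespace Pool.Agent.Lib_KF

/-- J01a. The real determinant of a complex linear map is `|det| ^ 2`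
(`LinearMap.det_restrictScalars`, `Algebra.norm_complex_apply`). -/
theorem abs_det_restrictScalars {m : ℕ} (f : (Fin m → ℂ) →L[ℂ] (Fin m → ℂ)) :
    |(f.restrictScalars ℝ).det| =
      ‖Matrix.det (Matrix.of fun i j => f (Pi.single j 1) i)‖ ^ 2 := by
  have h1 : (f.restrictScalars ℝ).det =
      LinearMap.det ((f : (Fin m → ℂ) →ₗ[ℂ] (Fin m → ℂ)).restrictScalars ℝ) := rfl
  have h2 : LinearMap.det (f : (Fin m → ℂ) →ₗ[ℂ] (Fin m → ℂ)) =
      Matrix.det (Matrix.of fun i j => f (Pi.single j 1) i) := by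
    rw [← LinearMap.det_toMatrix']
    congr 1
  rw [h1, LinearMap.det_restrictScalars, Algebra.norm_complex_apply, h2,
    Complex.normSq_eq_norm_sq, abs_of_nonneg (by positivity)]

/-- the derivative of a quotient -/
private lemma JDet_quot {n : ℕ} {X Z : (Fin n → ℂ) → ℂ} {u : Fin n → ℂ}
    (hX : DifferentiableAt ℂ X u) (hZ : DifferentiableAt ℂ Z u) (h0 : Z u ≠ 0) (v : Fin n → ℂ) :
    fderiv ℂ (fun u => X u / Z u) u v =
      (fderiv ℂ X u v * Z u - X u * fderiv ℂ Z u v) / Z u ^ 2 := by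
  have h1 : DifferentiableAt ℂ (fun u => X u / Z u) u := by
    have := hX.fun_mul (hZ.fun_inv h0)
    simpa only [div_eq_mul_inv] using this
  have h2 : (fun u => (X u / Z u) * Z u) =ᶠ[nhds u] X := by
    filter_upwards [hZ.continuousAt.eventually_ne h0] with y hy
    exact div_mul_cancel₀ _ hy
  have h3 : fderiv ℂ (fun u => (X u / Z u) * Z u) u v = fderiv ℂ X u v := by
    rw [h2.fderiv_eq]
  rw [fderiv_fun_mul h1 hZ] at h3
  simp only [_root_.add_apply, _root_.smul_apply, smul_eq_mul] at h3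
  rw [← h3]
  field_simp
  ring

/-- the determinant -/
private lemma JDet_det {n : ℕ} (a : Fin (n + 1)) (c s : ℂ) (x : Fin (n + 1) → ℂ)
    (D : Fin (n + 1) → Fin n → ℂ) (ha : x a ≠ 0) (M : Matrix (Fin (n + 1)) (Fin (n + 1)) ℂ)
    (h0 : ∀ b, M b 0 = c * x b) (h1 : ∀ b (l : Fin n), M b l.succ = s * D b l) :
    ‖M.det‖ = ‖c‖ * ‖s‖ ^ n * ‖x a‖ ^ (n + 1) *
      ‖Matrix.det (Matrix.of fun (b l : Fin n) =>
        (D (a.succAbove b) l * x a - x (a.succAbove b) * D a l) / x a ^ 2)‖ := by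
  let N : Matrix (Fin (n + 1)) (Fin (n + 1)) ℂ := Matrix.of fun b j =>
    Fin.cases (x b / x a) (fun l => (D b l * x a - x b * D a l) / x a ^ 2) j
  let C : Matrix (Fin (n + 1)) (Fin (n + 1)) ℂ := Matrix.of fun i j =>
    Fin.cases (Fin.cases (c * x a) (fun l => s * D a l) j)
      (fun i' => Fin.cases 0 (fun l => if i' = l then s * x a else 0) j) i
  have hN0 : ∀ b, N b 0 = x b / x a := fun b => rfl
  have hN1 : ∀ b (l : Fin n), N b l.succ = (D b l * x a - x b * D a l) / x a ^ 2 :=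
    fun b l => rfl
  have hC00 : C 0 0 = c * x a := rfl
  have hC01 : ∀ l : Fin n, C 0 l.succ = s * D a l := fun l => rfl
  have hC10 : ∀ i : Fin n, C i.succ 0 = 0 := fun i => rfl
  have hC11 : ∀ i l : Fin n, C i.succ l.succ = if i = l then s * x a else 0 := fun i l => rfl
  have hM : M = N * C := by
    ext b j
    rw [Matrix.mul_apply, Fin.sum_univ_succ]
    refine Fin.cases ?_ (fun l => ?_) j
    · rw [h0, hN0, hC00]
      simp only [hC10, mul_zero, Finset.sum_const_zero, add_zero]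
      field_simp
    · rw [h1, hN0, hC01]
      simp only [hC11, hN1, mul_ite, mul_zero, Finset.sum_ite_eq', Finset.mem_univ, if_true]
      field_simp
      ring
  have hCdet : C.det = c * x a * (s * x a) ^ n := by
    rw [Matrix.det_succ_column_zero, Fin.sum_univ_succ]
    simp only [hC10, mul_zero, zero_mul, Finset.sum_const_zero, add_zero]
    have h2 : C.submatrix (Fin.succAbove 0) Fin.succ = Matrix.diagonal fun _ : Fin n => s * x a := by
      ext i l
      rw [Matrix.submatrix_apply, Fin.zero_succAbove, hC11, Matrix.diagonal_apply]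
    rw [h2, Matrix.det_diagonal, hC00]
    simp
  have hNdet : ‖N.det‖ = ‖Matrix.det (Matrix.of fun (b l : Fin n) =>
        (D (a.succAbove b) l * x a - x (a.succAbove b) * D a l) / x a ^ 2)‖ := by
    have h3 : ∀ l : Fin n, N a l.succ = 0 := by
      intro l
      rw [hN1]
      ring
    rw [Matrix.det_succ_row N a, Fin.sum_univ_succ]
    simp only [h3, mul_zero, zero_mul, Finset.sum_const_zero, add_zero]
    rw [hN0, div_self ha, norm_mul, norm_mul, norm_pow, norm_neg, norm_one, one_pow, one_mul,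
      one_mul]
    congr 2
  rw [hM, Matrix.det_mul, norm_mul, hNdet, hCdet]
  simp only [norm_mul, norm_pow]
  ring

/-- J01b. The map `Θ(p)_b = (t₀ + p_0) ^ d X_b(p_1, …, p_n)` is differentiable, with Jacobian
determinant of absolute value `d |t| ^ (d (n + 1) - 1) |X_a| ^ (n + 1) |det ∂_l (X_b / X_a)|`,
`t = t₀ + p_0`. (Columns: `∂/∂t` gives `d t ^ (d - 1) X_b`, `∂/∂u_l` gives `t ^ d ∂_l X_b`; with
`X_b = X_a Y_b`, `∂_l X_b = X_a ∂_l Y_b + Y_b ∂_l X_a`: subtract multiples of the first column,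
then expand along the row `a`, `Y_a = 1`.) -/
theorem exists_jac {n d : ℕ} (hd : 1 ≤ d) (X : Fin (n + 1) → (Fin n → ℂ) → ℂ) (a : Fin (n + 1))
    (t₀ : ℂ) (p : Fin (n + 1) → ℂ) (hX : ∀ b, DifferentiableAt ℂ (X b) (fun l => p l.succ))
    (ha : X a (fun l => p l.succ) ≠ 0) :
    ∃ f : (Fin (n + 1) → ℂ) →L[ℂ] (Fin (n + 1) → ℂ),
      HasFDerivAt (fun q : Fin (n + 1) → ℂ => fun b : Fin (n + 1) =>
        (t₀ + q 0) ^ d * X b (fun l => q l.succ)) f p ∧
      ‖Matrix.det (Matrix.of fun i j => f (Pi.single j 1) i)‖ =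
        d * ‖t₀ + p 0‖ ^ (d * (n + 1) - 1) * ‖X a (fun l => p l.succ)‖ ^ (n + 1) *
          ‖Matrix.det (Matrix.of fun (b l : Fin n) =>
            fderiv ℂ (fun u : Fin n → ℂ => X (a.succAbove b) u / X a u) (fun l => p l.succ)
              (Pi.single l 1))‖ := by
  let π : (Fin (n + 1) → ℂ) →L[ℂ] (Fin n → ℂ) :=
    ContinuousLinearMap.pi fun l => ContinuousLinearMap.proj l.succ
  set u : Fin n → ℂ := fun l => p l.succ with hu
  have hπ : HasFDerivAt (fun q : Fin (n + 1) → ℂ => fun l : Fin n => q l.succ) π p :=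
    π.hasFDerivAt
  have hpow : HasFDerivAt (fun q : Fin (n + 1) → ℂ => (t₀ + q 0) ^ d)
      (((d : ℂ) * (t₀ + p 0) ^ (d - 1)) •
        (ContinuousLinearMap.proj 0 : (Fin (n + 1) → ℂ) →L[ℂ] ℂ)) p := by
    have h1 : HasFDerivAt (fun q : Fin (n + 1) → ℂ => t₀ + q 0)
        (ContinuousLinearMap.proj 0 : (Fin (n + 1) → ℂ) →L[ℂ] ℂ) p :=
      (ContinuousLinearMap.proj (R := ℂ) (φ := fun _ : Fin (n + 1) => ℂ) 0).hasFDerivAt.const_add t₀
    have h2 : HasDerivAt (fun t : ℂ => t ^ d) ((d : ℂ) * (t₀ + p 0) ^ (d - 1)) (t₀ + p 0) :=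
      hasDerivAt_pow d _
    exact h2.comp_hasFDerivAt p h1
  have hXb : ∀ b, HasFDerivAt (fun q : Fin (n + 1) → ℂ => X b (fun l => q l.succ))
      ((fderiv ℂ (X b) u).comp π) p := fun b => (hX b).hasFDerivAt.comp p hπ
  refine ⟨ContinuousLinearMap.pi fun b => (t₀ + p 0) ^ d • (fderiv ℂ (X b) u).comp π +
    X b u • (((d : ℂ) * (t₀ + p 0) ^ (d - 1)) •
        (ContinuousLinearMap.proj 0 : (Fin (n + 1) → ℂ) →L[ℂ] ℂ)),
    hasFDerivAt_pi.2 fun b => hpow.fun_mul (hXb b), ?_⟩
  have hsingle0 : π (Pi.single 0 1) = 0 := by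
    ext l
    simp [π]
  have hsingle : ∀ l : Fin n, π (Pi.single l.succ 1) = Pi.single l 1 := by
    intro l
    ext l'
    simp only [π, ContinuousLinearMap.coe_pi', ContinuousLinearMap.proj_apply]
    rcases eq_or_ne l' l with rfl | h
    · simp
    · rw [Pi.single_eq_of_ne (fun h' => h (Fin.succ_injective n h')), Pi.single_eq_of_ne h]
  rw [JDet_det a ((d : ℂ) * (t₀ + p 0) ^ (d - 1)) ((t₀ + p 0) ^ d) (fun b => X b u)
    (fun b l => fderiv ℂ (X b) u (Pi.single l 1)) ha _ ?_ ?_]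
  · have h3 : ∀ (b l : Fin n), (fderiv ℂ (X (a.succAbove b)) u (Pi.single l 1) * X a u -
        X (a.succAbove b) u * fderiv ℂ (X a) u (Pi.single l 1)) / X a u ^ 2 =
        fderiv ℂ (fun u : Fin n → ℂ => X (a.succAbove b) u / X a u) u (Pi.single l 1) :=
      fun b l => (JDet_quot (hX _) (hX a) ha _).symm
    simp only [h3]
    congr 2
    rw [norm_mul, Complex.norm_natCast, norm_pow, norm_pow, mul_assoc, ← pow_mul, ← pow_add]
    congr 2
    rw [Nat.mul_succ]
    omega
  · intro b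
    simp only [Matrix.of_apply, ContinuousLinearMap.coe_pi', _root_.add_apply,
      _root_.smul_apply, ContinuousLinearMap.comp_apply, hsingle0, map_zero, smul_zero, zero_add,
      ContinuousLinearMap.proj_apply, Pi.single_eq_same, smul_eq_mul, mul_one]
    ring
  · intro b l
    simp only [Matrix.of_apply, ContinuousLinearMap.coe_pi', _root_.add_apply,
      _root_.smul_apply, ContinuousLinearMap.comp_apply, hsingle, ContinuousLinearMap.proj_apply,
      smul_eq_mul]
    rw [Pi.single_eq_of_ne (Fin.succ_ne_zero l).symm]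
    ring

/-- J01c. `t ↦ t ^ d` is injective on a small disc. -/
theorem pow_inj_on_disc (d : ℕ) (hd : 1 ≤ d) (t₀ : ℝ) (ht₀ : 0 < t₀) :
    ∃ δ : ℝ, 0 < δ ∧ δ < t₀ ∧ ∀ t t' : ℂ, ‖t - t₀‖ < δ → ‖t' - t₀‖ < δ → t ^ d = t' ^ d →
      t = t' := by
  have h1 : HasStrictDerivAt (fun t : ℂ => t ^ d) ((d : ℂ) * (t₀ : ℂ) ^ (d - 1)) (t₀ : ℂ) :=
    hasStrictDerivAt_pow d _
  have h2 : (d : ℂ) * (t₀ : ℂ) ^ (d - 1) ≠ 0 :=
    mul_ne_zero (Nat.cast_ne_zero.2 (by omega)) (pow_ne_zero _ (by exact_mod_cast ht₀.ne'))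
  have h3 := h1.hasStrictFDerivAt_equiv h2
  have h4 : (h3.toOpenPartialHomeomorph (fun t : ℂ => t ^ d)).source ∈ nhds (t₀ : ℂ) :=
    (h3.toOpenPartialHomeomorph (fun t : ℂ => t ^ d)).open_source.mem_nhds
      h3.mem_toOpenPartialHomeomorph_source
  obtain ⟨ε, hε, hb⟩ := Metric.mem_nhds_iff.1 h4
  refine ⟨min ε (t₀ / 2), lt_min hε (by linarith), (min_le_right _ _).trans_lt (by linarith),
    fun t t' ht ht' he => ?_⟩
  have h5 : t ∈ (h3.toOpenPartialHomeomorph (fun t : ℂ => t ^ d)).source :=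
    hb (by rw [Metric.mem_ball, dist_eq_norm]; exact ht.trans_le (min_le_left _ _))
  have h6 : t' ∈ (h3.toOpenPartialHomeomorph (fun t : ℂ => t ^ d)).source :=
    hb (by rw [Metric.mem_ball, dist_eq_norm]; exact ht'.trans_le (min_le_left _ _))
  exact (h3.toOpenPartialHomeomorph (fun t : ℂ => t ^ d)).injOn h5 h6 he

end Pool.Agent.Lib_KF

end

/-! ### from `Lib_MP_e0d435_kv.MinPol` -/

section

/-! V12a: minimal polynomials with polynomial coefficients. -/

namespace Pool.Agent.Lib_MP_e0d435_kv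

/-- Proof: clear the denominators of `minpoly (Rat k) z`
(`IsLocalization.integerNormalization` or a common denominator of the coefficients). The constant
coefficient of the minimal polynomial of a non-zero element is not zero. -/
theorem exists_minpol {k : ℕ} (N : Type) [Field N] [Algebra (Rat k) N]
    [FiniteDimensional (Rat k) N] (z : N) (hz : z ≠ 0) :
    ∃ (Q : Polynomial (Pol k)) (c : Rat k), c ≠ 0 ∧
      Q.map (algebraMap (Pol k) (Rat k)) = Polynomial.C c * minpoly (Rat k) z ∧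
      Q.coeff 0 ≠ 0 ∧ Q.eval₂ (toN k N) z = 0 := by
  classical
  obtain ⟨b, hb⟩ := IsLocalization.integerNormalization_map_to_map (nonZeroDivisors (Pol k))
    (minpoly (Rat k) z)
  have hc : (algebraMap (Pol k) (Rat k)) b ≠ 0 :=
    IsLocalization.to_map_ne_zero_of_mem_nonZeroDivisors (Rat k) le_rfl b.2
  have hint : IsIntegral (Rat k) z := Algebra.IsIntegral.isIntegral z
  have hmap : (IsLocalization.integerNormalization (nonZeroDivisors (Pol k))
      (minpoly (Rat k) z)).map (algebraMap (Pol k) (Rat k)) =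
      Polynomial.C ((algebraMap (Pol k) (Rat k)) b) * minpoly (Rat k) z := by
    rw [hb]
    ext j
    rw [Polynomial.coeff_smul, Polynomial.coeff_C_mul, Algebra.smul_def]
  refine ⟨IsLocalization.integerNormalization (nonZeroDivisors (Pol k)) (minpoly (Rat k) z),
    (algebraMap (Pol k) (Rat k)) b, hc, hmap, ?_, ?_⟩
  · intro h0
    have h1 := congrArg (fun p => Polynomial.coeff p 0) hmap
    simp only [Polynomial.coeff_map, Polynomial.coeff_C_mul] at h1
    rw [h0, map_zero] at h1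
    exact (mul_ne_zero hc (minpoly.coeff_zero_ne_zero hint hz)) h1.symm
  · have h1 : (IsLocalization.integerNormalization (nonZeroDivisors (Pol k))
        (minpoly (Rat k) z)).eval₂ (toN k N) z =
        ((IsLocalization.integerNormalization (nonZeroDivisors (Pol k))
        (minpoly (Rat k) z)).map (algebraMap (Pol k) (Rat k))).eval₂ (algebraMap (Rat k) N) z := by
      rw [Polynomial.eval₂_map]
      rfl
    rw [h1, hmap, Polynomial.eval₂_mul, ← Polynomial.aeval_def (R := Rat k) z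
      (minpoly (Rat k) z), minpoly.aeval, mul_zero]

/-- Proof: the relation `Q (∏ z_i ^ (m i)) = 0` is a polynomial relation between the `z_i`. -/
theorem Specialises.minpol {k P : ℕ} {N : Type} [CommRing N] {f : Pol k →+* N} {z : Fin P → N}
    {y : Fin k → ℂ} {ζ : Fin P → ℂ} (h : Specialises f z y ζ) (m : Fin P → ℕ)
    (Q : Polynomial (Pol k)) (hQ : Q.eval₂ f (∏ i, z i ^ m i) = 0) :
    ∑ j ∈ Q.support, MvPolynomial.eval y (Q.coeff j) * (∏ i, ζ i ^ m i) ^ j = 0 := by
  classical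
  have h1 := h (∑ j ∈ Q.support, MvPolynomial.C (Q.coeff j) *
    (∏ i, (MvPolynomial.X i : MvPolynomial (Fin P) (Pol k)) ^ m i) ^ j) (by
      rw [Polynomial.eval₂_eq_sum, Polynomial.sum_def] at hQ
      rw [← hQ, MvPolynomial.eval₂_sum]
      refine Finset.sum_congr rfl fun j _ => ?_
      rw [MvPolynomial.eval₂_mul, MvPolynomial.eval₂_C, MvPolynomial.eval₂_pow,
        MvPolynomial.eval₂_prod]
      simp only [MvPolynomial.eval₂_pow, MvPolynomial.eval₂_X])
  rw [MvPolynomial.eval₂_sum] at h1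
  rw [← h1]
  refine Finset.sum_congr rfl fun j _ => ?_
  rw [MvPolynomial.eval₂_mul, MvPolynomial.eval₂_C, MvPolynomial.eval₂_pow,
    MvPolynomial.eval₂_prod]
  simp only [MvPolynomial.eval₂_pow, MvPolynomial.eval₂_X]

end Pool.Agent.Lib_MP_e0d435_kv

end

/-! ### from `Lib_MP_e0d435_kv.AdCoord` -/

section

/-! AD6: the span of the differentials of the coordinates; the Jacobian in homogeneous
coordinates. -/

namespace Pool.Agent.Lib_MP_e0d435_kv

open Pool.Agent.Lib_GD Pool.Agent.Lib_KF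

/-- Proof: for other `b, b''` with `E.φ 0 (x b'') * w = 1` one has
`E.φ 0 (x b) * w = y_b / y_b''`, `y = E.φ 0 (x ·) * u`; `y_b''` is a unit, and
`D (y_b / y_b'')` is in the `V`-span of `D y_b` and `D y_b''`; `y_b' = 1`. -/
theorem coordSpan_eq {R : Type} [CommRing R] [Algebra ℂ R] {𝒜 : ℕ → Submodule ℂ R} {n : ℕ}
    (E : DivisorOver 𝒜 n 1) (x : Fin (n + 1) → R) (b' : Fin (n + 1)) (u : E.V)
    (hu : E.φ 0 (x b') * u = 1) :
    coordSpan E x = Submodule.span E.V
      (Set.range fun l : Fin n => KaehlerDifferential.D ℂ E.V (E.φ 0 (x (b'.succAbove l)) * u)) := by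
  set S := Submodule.span E.V
      (Set.range fun l : Fin n => KaehlerDifferential.D ℂ E.V (E.φ 0 (x (b'.succAbove l)) * u))
    with hS
  have hy : ∀ a, KaehlerDifferential.D ℂ E.V (E.φ 0 (x a) * u) ∈ S := by
    intro a
    rcases Fin.eq_self_or_eq_succAbove b' a with rfl | ⟨l, rfl⟩
    · rw [hu, Derivation.map_one_eq_zero]
      exact S.zero_mem
    · exact Submodule.subset_span ⟨l, rfl⟩
  refine le_antisymm ?_ ?_
  · refine Submodule.span_le.2 ?_
    rintro ω ⟨j, b, b'', w, hw, rfl⟩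
    have hj : j = 0 := Subsingleton.elim _ _
    subst hj
    set z : E.V := E.φ 0 (x b') * w with hz
    have h1 : E.φ 0 (x b'') * u * z = 1 := by
      rw [hz]
      calc _ = (E.φ 0 (x b'') * w) * (E.φ 0 (x b') * u) := by ring
        _ = 1 := by rw [hw, hu, mul_one]
    have h2 : E.φ 0 (x b) * w = (E.φ 0 (x b) * u) * z := by
      rw [hz]
      calc _ = (E.φ 0 (x b) * w) * (E.φ 0 (x b') * u) := by rw [hu, mul_one]
        _ = _ := by ring
    have h3 : KaehlerDifferential.D ℂ E.V z ∈ S := by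
      have h4 : (E.φ 0 (x b'') * u) • KaehlerDifferential.D ℂ E.V z +
          z • KaehlerDifferential.D ℂ E.V (E.φ 0 (x b'') * u) = 0 := by
        rw [← Derivation.leibniz, h1, Derivation.map_one_eq_zero]
      have h5 : KaehlerDifferential.D ℂ E.V z =
          -((z * z) • KaehlerDifferential.D ℂ E.V (E.φ 0 (x b'') * u)) := by
        have h6 := congrArg (fun ω => z • ω) h4
        simp only [smul_add, smul_smul, smul_zero] at h6
        rw [show z * (E.φ 0 (x b'') * u) = 1 by rw [mul_comm]; exact h1, one_smul] at h6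
        exact eq_neg_of_add_eq_zero_left h6
      rw [h5]
      exact S.neg_mem (S.smul_mem _ (hy b''))
    have h7 : KaehlerDifferential.D ℂ E.V (E.φ 0 (x b) * w) ∈ S := by
      rw [h2, Derivation.leibniz]
      exact S.add_mem (S.smul_mem _ h3) (S.smul_mem _ (hy b))
    exact h7
  · refine Submodule.span_le.2 ?_
    rintro ω ⟨l, rfl⟩
    exact Submodule.subset_span ⟨0, b'.succAbove l, b', u, hu, rfl⟩

/-- Proof: `d_i (z_b) = z_b' d_i (y_b) + y_b d_i (z_b')`, `y_b = z_b / z_b'`: subtract `y_b` times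
the column `b'` from the column `b`, take out the factors `z_b'`, and move the column `b'` to the
front (`Matrix.det_permute'`, or expand along the column; the sign is `± 1`). -/
theorem jac_homog {n : ℕ} (Λ : LDF (n + 1)) (z : Fin (n + 1) → Λ.M) (b' : Fin (n + 1))
    (hb : z b' ≠ 0) : ∃ ε : Λ.M, (ε = 1 ∨ ε = -1) ∧
    Λ.jac z = ε * z b' ^ (n + 1) * Matrix.det (Matrix.of fun i j : Fin (n + 1) =>
      (Fin.cons (Λ.d i (z b') / z b')
        (fun l : Fin n => Λ.d i (z (b'.succAbove l) / z b')) : Fin (n + 1) → Λ.M) j) := by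
  set A : Matrix (Fin (n + 1)) (Fin (n + 1)) Λ.M := Matrix.of fun i j => Λ.d i (z j) with hA
  set N : Matrix (Fin (n + 1)) (Fin (n + 1)) Λ.M := Matrix.of fun i j : Fin (n + 1) =>
      (Fin.cons (Λ.d i (z b') / z b')
        (fun l : Fin n => Λ.d i (z (b'.succAbove l) / z b')) : Fin (n + 1) → Λ.M) j with hN
  set σ : Equiv.Perm (Fin (n + 1)) := b'.cycleRange.symm with hσ
  set c : Fin (n + 1) → Λ.M :=
    (Fin.cons 0 (fun l : Fin n => z (b'.succAbove l) / z b') : Fin (n + 1) → Λ.M) with hc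
  have h1 : A.submatrix id σ = z b' • Matrix.of fun i j => N i j + c j * N i 0 := by
    ext i j
    rw [Matrix.submatrix_apply, Matrix.smul_apply, Matrix.of_apply, smul_eq_mul, id]
    refine Fin.cases ?_ (fun l => ?_) j
    · have e1 : σ 0 = b' := by rw [hσ]; exact Fin.cycleRange_symm_zero b'
      rw [e1]
      simp only [hA, hN, hc, Matrix.of_apply, Fin.cons_zero, zero_mul, add_zero]
      field_simp
    · have e1 : σ l.succ = b'.succAbove l := by rw [hσ]; exact Fin.cycleRange_symm_succ b' l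
      rw [e1]
      simp only [hA, hN, hc, Matrix.of_apply, Fin.cons_zero, Fin.cons_succ]
      have e2 : z (b'.succAbove l) = (z (b'.succAbove l) / z b') * z b' := by
        field_simp
      conv_lhs => rw [e2]
      rw [Derivation.leibniz, smul_eq_mul, smul_eq_mul]
      field_simp
      ring
  have h2 : (Matrix.of fun i j => N i j + c j * N i 0).det = N.det := by
    rw [← Matrix.det_transpose, ← Matrix.det_transpose N]
    refine Matrix.det_eq_of_forall_row_eq_smul_add_const c 0 ?_ fun i j => rfl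
    rw [hc, Fin.cons_zero]
  have h3 : ((Equiv.Perm.sign σ : ℤ) : Λ.M) * A.det = z b' ^ (n + 1) * N.det := by
    rw [← Matrix.det_permute' σ A, h1, Matrix.det_smul, Fintype.card_fin, h2]
  refine ⟨((Equiv.Perm.sign σ : ℤ) : Λ.M), ?_, ?_⟩
  · rcases Int.units_eq_one_or (Equiv.Perm.sign σ) with h | h
    · left; rw [h]; simp
    · right; rw [h]; simp
  · have h4 : ((Equiv.Perm.sign σ : ℤ) : Λ.M) * ((Equiv.Perm.sign σ : ℤ) : Λ.M) = 1 := by
      rcases Int.units_eq_one_or (Equiv.Perm.sign σ) with h | h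
      · rw [h]; simp
      · rw [h]; simp
    change A.det = _
    rw [mul_assoc, ← h3, ← mul_assoc, h4, one_mul]

/-- A determinant with entries of order `≥ 0` has order `≥ 0`. -/
theorem w_det_nonneg {M : Type} [Field M] (w : AddValuation M (WithTop ℤ)) {k : ℕ}
    (A : Matrix (Fin k) (Fin k) M) (hA : ∀ i j, 0 ≤ w (A i j)) : 0 ≤ w A.det := by
  rw [Matrix.det_apply]
  refine w.map_le_sum fun σ _ => ?_
  have h1 : 0 ≤ w (∏ i, A (σ i) i) := by
    refine Finset.prod_induction _ (fun f => 0 ≤ w f) ?_ ?_ fun i _ => hA _ _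
    · intro a b ha hb
      rw [w.map_mul]
      exact add_nonneg ha hb
    · rw [w.map_one]
  rcases Int.units_eq_one_or (Equiv.Perm.sign σ) with h | h
  · rw [h, one_smul]; exact h1
  · rw [h, Units.neg_smul, one_smul, w.map_neg]; exact h1

end Pool.Agent.Lib_MP_e0d435_kv

end

/-! ### from `Lib_KF.GDer` -/

section

/-! G1a, G1b: existence of `h` and of the derivations `h ∂_b`. -/

namespace Pool.Agent.Lib_KF

open Pool.Agent.Lib_GD

section GDerAux

open DirectSum KaehlerDifferential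

/-- The homogeneous components of a polynomial in `x` are polynomials in `x`. -/
private theorem gder_comp {R : Type} [CommRing R] [Algebra ℂ R] {𝒜 : ℕ → Submodule ℂ R}
    [GradedAlgebra 𝒜] {n d : ℕ} {x : Fin (n + 1) → R} (hx : ∀ b, x b ∈ 𝒜 d)
    (p : MvPolynomial (Fin (n + 1)) ℂ) :
    ∀ j, ∃ p' : MvPolynomial (Fin (n + 1)) ℂ, MvPolynomial.aeval x p' = (decompose 𝒜 (MvPolynomial.aeval x p) j : R) := by
  induction p using MvPolynomial.induction_on with
  | C c =>
    intro j
    by_cases hj : j = 0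
    · refine ⟨MvPolynomial.C c, ?_⟩
      subst hj
      rw [MvPolynomial.aeval_C, decompose_of_mem_same _ (SetLike.algebraMap_mem_graded 𝒜 c)]
    · refine ⟨0, ?_⟩
      rw [MvPolynomial.aeval_C,
        decompose_of_mem_ne _ (SetLike.algebraMap_mem_graded 𝒜 c) (Ne.symm hj), map_zero]
  | add p q hp hq =>
    intro j
    obtain ⟨p', hp'⟩ := hp j
    obtain ⟨q', hq'⟩ := hq j
    exact ⟨p' + q', by rw [map_add, map_add, decompose_add, hp', hq']; rfl⟩
  | mul_X p b hp =>
    intro j
    rw [map_mul, MvPolynomial.aeval_X, coe_decompose_mul_of_right_mem 𝒜 j (hx b)]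
    split_ifs with h
    · obtain ⟨p', hp'⟩ := hp (j - d)
      exact ⟨p' * MvPolynomial.X b, by rw [map_mul, MvPolynomial.aeval_X, hp']⟩
    · exact ⟨0, map_zero _⟩

/-- A form of degree `k` in `x` has degree `k * d`. -/
private theorem gder_form {R : Type} [CommRing R] [Algebra ℂ R] {𝒜 : ℕ → Submodule ℂ R}
    [GradedAlgebra 𝒜] {n d : ℕ} {x : Fin (n + 1) → R} (hx : ∀ b, x b ∈ 𝒜 d)
    {p : MvPolynomial (Fin (n + 1)) ℂ} {k : ℕ} (hp : p.IsHomogeneous k) :
    MvPolynomial.aeval x p ∈ 𝒜 (k * d) := by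
  rw [p.as_sum, map_sum]
  refine Submodule.sum_mem _ fun u hu => ?_
  rw [MvPolynomial.aeval_monomial]
  have h1 : (u.prod fun i e => x i ^ e) ∈ 𝒜 (∑ i ∈ u.support, u i • d) :=
    SetLike.prod_pow_mem_graded 𝒜 (fun _ => d) x u (fun b _ => hx b)
  have h2 : ∑ i ∈ u.support, u i • d = k * d := by
    have h3 : u.degree = k := by
      rw [Finsupp.degree_eq_weight_one]
      exact hp (MvPolynomial.mem_support_iff.mp hu)
    rw [← h3, ← Finset.sum_smul, smul_eq_mul]
    rfl
  have h4 := SetLike.mul_mem_graded (SetLike.algebraMap_mem_graded 𝒜 (p.coeff u)) h1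
  rw [h2, zero_add] at h4
  exact h4

/-- A polynomial in `x` which is homogeneous in `R` is a form. -/
private theorem gder_hom {R : Type} [CommRing R] [Algebra ℂ R] {𝒜 : ℕ → Submodule ℂ R}
    [GradedAlgebra 𝒜] {n d : ℕ} {x : Fin (n + 1) → R} (hd : 1 ≤ d) (hx : ∀ b, x b ∈ 𝒜 d)
    (hi : Function.Injective
      (MvPolynomial.aeval x : MvPolynomial (Fin (n + 1)) ℂ →ₐ[ℂ] R))
    {c : MvPolynomial (Fin (n + 1)) ℂ} {j : ℕ} (hc : MvPolynomial.aeval x c ∈ 𝒜 j) :
    ∃ k, c.IsHomogeneous k := by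
  have key : ∀ k, k * d ≠ j → MvPolynomial.homogeneousComponent k c = 0 := by
    intro k hk
    apply hi
    rw [map_zero]
    have h1 : (decompose 𝒜 (MvPolynomial.aeval x c) (k * d) : R) =
        MvPolynomial.aeval x (MvPolynomial.homogeneousComponent k c) := by
      conv_lhs => rw [← MvPolynomial.sum_homogeneousComponent c]
      rw [map_sum, decompose_sum, DFinsupp.finsetSum_apply, AddSubmonoidClass.coe_finsetSum]
      have h2 : ∀ i ∈ Finset.range (c.totalDegree + 1), i ≠ k →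
          (decompose 𝒜 (MvPolynomial.aeval x (MvPolynomial.homogeneousComponent i c))
            (k * d) : R) = 0 := by
        intro i _ hik
        refine decompose_of_mem_ne _
          (gder_form hx (MvPolynomial.homogeneousComponent_isHomogeneous i c)) ?_
        intro he
        exact hik (Nat.eq_of_mul_eq_mul_right hd he)
      by_cases hkr : k ∈ Finset.range (c.totalDegree + 1)
      · rw [Finset.sum_eq_single_of_mem k hkr h2]
        exact decompose_of_mem_same _
          (gder_form hx (MvPolynomial.homogeneousComponent_isHomogeneous k c))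
      · rw [Finset.sum_eq_zero fun i hi' => h2 i hi' (by rintro rfl; exact hkr hi')]
        rw [MvPolynomial.homogeneousComponent_eq_zero k c (by
          simp only [Finset.mem_range] at hkr; omega), map_zero]
    rw [← h1]
    exact decompose_of_mem_ne _ hc (Ne.symm hk)
  by_cases hex : ∃ k, k * d = j
  · obtain ⟨k, hk⟩ := hex
    refine ⟨k, ?_⟩
    have h1 : c = MvPolynomial.homogeneousComponent k c := by
      conv_lhs => rw [← MvPolynomial.sum_homogeneousComponent c]
      have h2 : ∀ i ∈ Finset.range (c.totalDegree + 1), i ≠ k →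
          MvPolynomial.homogeneousComponent i c = 0 := by
        intro i _ hik
        refine key i fun he => hik (Nat.eq_of_mul_eq_mul_right hd (he.trans hk.symm))
      by_cases hkr : k ∈ Finset.range (c.totalDegree + 1)
      · exact Finset.sum_eq_single_of_mem k hkr h2
      · rw [Finset.sum_eq_zero fun i hi' => h2 i hi' (by rintro rfl; exact hkr hi')]
        rw [MvPolynomial.homogeneousComponent_eq_zero k c (by
          simp only [Finset.mem_range] at hkr; omega)]
    rw [h1]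
    exact MvPolynomial.homogeneousComponent_isHomogeneous k c
  · push Not at hex
    refine ⟨0, ?_⟩
    have h1 : c = 0 := by
      rw [← MvPolynomial.sum_homogeneousComponent c]
      exact Finset.sum_eq_zero fun i _ => key i (hex i)
    rw [h1]
    exact MvPolynomial.isHomogeneous_zero _ _ _

/-- The derivative of `P (s)`. -/
private theorem gder_relation {A R : Type} [CommRing A] [CommRing R] [Algebra ℂ R] [Algebra A R]
    (N : Submodule R (KaehlerDifferential ℂ R)) (hN : ∀ a : A, D ℂ R (algebraMap A R a) ∈ N)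
    (s : R) (P : Polynomial A) :
    D ℂ R (Polynomial.aeval s P) -
      Polynomial.aeval s (Polynomial.derivative P) • D ℂ R s ∈ N := by
  induction P using Polynomial.induction_on' with
  | add p q hp hq =>
    have h := N.add_mem hp hq
    rw [map_add, map_add, Polynomial.derivative_add, map_add, add_smul]
    convert h using 1
    abel
  | monomial m a =>
    have h1 := N.smul_mem (s ^ m) (hN a)
    rw [Polynomial.derivative_monomial, Polynomial.aeval_monomial, Polynomial.aeval_monomial,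
      Derivation.leibniz, Derivation.leibniz_pow]
    convert h1 using 1
    rw [map_mul, map_natCast, mul_smul, mul_smul, ← Nat.cast_smul_eq_nsmul R]
    abel

section Minpoly

variable {A R : Type} [CommRing A] [IsDomain A] [IsIntegrallyClosed A] [CommRing R] [IsDomain R]
  [Algebra ℂ R] [Algebra A R] [Module.IsTorsionFree A R] {𝒜 : ℕ → Submodule ℂ R}
  [GradedAlgebra 𝒜]

/-- The minimal polynomial of a homogeneous element is homogeneous. -/
private theorem gder_minpoly
    (hA : ∀ (a : A) (j : ℕ), ∃ a' : A, algebraMap A R a' =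
      (decompose 𝒜 (algebraMap A R a) j : R))
    {s : R} {m : ℕ} (hs : s ∈ 𝒜 m) (hint : IsIntegral A s) (k : ℕ)
    (hk : k ≤ (minpoly A s).natDegree) :
    algebraMap A R ((minpoly A s).coeff k) ∈ 𝒜 (((minpoly A s).natDegree - k) * m) := by
  choose g hg using hA
  set P := minpoly A s with hP
  set p := P.natDegree with hp
  have hinj : Function.Injective (algebraMap A R) :=
    Module.isTorsionFree_iff_algebraMap_injective.mp inferInstance
  let Q : Polynomial A := ∑ i ∈ Finset.range (p + 1),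
    Polynomial.monomial i (g (P.coeff i) ((p - i) * m))
  have hQc : ∀ i ≤ p, Q.coeff i = g (P.coeff i) ((p - i) * m) := by
    intro i hi
    simp only [Q, Polynomial.finsetSum_coeff, Polynomial.coeff_monomial]
    rw [Finset.sum_ite_eq' (Finset.range (p + 1)) i]
    rw [if_pos (Finset.mem_range.mpr (by omega))]
  have hQd : Q.natDegree ≤ p := by
    refine Polynomial.natDegree_sum_le_of_forall_le _ _ fun i hi => ?_
    refine (Polynomial.natDegree_monomial_le _).trans ?_
    have := Finset.mem_range.mp hi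
    omega
  have hmon : P.Monic := minpoly.monic hint
  have hQp : Q.coeff p = 1 := by
    rw [hQc p le_rfl]
    apply hinj
    rw [hg, Nat.sub_self, zero_mul, hp, hmon.coeff_natDegree, map_one,
      decompose_of_mem_same _ (SetLike.GradedOne.one_mem (A := 𝒜))]
  have hQr : Polynomial.aeval s Q = 0 := by
    have h1 : Polynomial.aeval s Q = (decompose 𝒜 (Polynomial.aeval s P) (p * m) : R) := by
      rw [Polynomial.aeval_eq_sum_range' (Nat.lt_succ_of_le hQd),
        Polynomial.aeval_eq_sum_range' (Nat.lt_succ_self P.natDegree), ← hp, decompose_sum,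
        DFinsupp.finsetSum_apply, AddSubmonoidClass.coe_finsetSum]
      refine Finset.sum_congr rfl fun i hi => ?_
      have hi' : i ≤ p := by have := Finset.mem_range.mp hi; omega
      rw [hQc i hi', Algebra.smul_def, Algebra.smul_def, hg]
      have h2 : p * m = (p - i) * m + i * m := by rw [← Nat.add_mul]; congr 1; omega
      have h3 : s ^ i ∈ 𝒜 (i * m) := by
        have := SetLike.pow_mem_graded i hs
        rwa [smul_eq_mul] at this
      rw [h2, coe_decompose_mul_add_of_right_mem 𝒜 h3]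
    rw [h1, hP, minpoly.aeval, decompose_zero]
    rfl
  have hdvd : P ∣ Q := minpoly.isIntegrallyClosed_dvd hint hQr
  have hQn : Q ≠ 0 := by
    intro h0
    rw [h0, Polynomial.coeff_zero] at hQp
    exact zero_ne_one hQp
  have hQd' : Q.natDegree = p := le_antisymm hQd (Polynomial.natDegree_le_of_dvd hdvd hQn)
  have hPQ : P = Q := by
    refine Polynomial.eq_of_dvd_of_natDegree_le_of_leadingCoeff hdvd hQd ?_
    rw [hmon.leadingCoeff, Polynomial.leadingCoeff, hQd', hQp]
  rw [hPQ, hQc k hk, hg]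
  exact SetLike.coe_mem _

omit [Algebra ℂ R] in
/-- The derivative of the minimal polynomial of `s` does not vanish at `s`. -/
private theorem gder_sep [CharZero A] {s : R} (hint : IsIntegral A s) :
    Polynomial.aeval s (Polynomial.derivative (minpoly A s)) ≠ 0 := by
  intro h0
  have hdvd := minpoly.isIntegrallyClosed_dvd hint h0
  have hpos := minpoly.natDegree_pos hint
  have hne : Polynomial.derivative (minpoly A s) ≠ 0 := by
    intro h1
    have := Polynomial.derivative_eq_zero.mp h1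
    omega
  have h2 := Polynomial.natDegree_le_of_dvd hdvd hne
  have h3 := Polynomial.natDegree_derivative_lt (p := minpoly A s) (by omega)
  omega

/-- A non-zero homogeneous element divides a non-zero homogeneous element of `A`. -/
private theorem gder_norm
    (hA : ∀ (a : A) (j : ℕ), ∃ a' : A, algebraMap A R a' =
      (decompose 𝒜 (algebraMap A R a) j : R))
    {s : R} {m : ℕ} (hs : s ∈ 𝒜 m) (hint : IsIntegral A s) (h0 : s ≠ 0) :
    ∃ (c : A) (j : ℕ), c ≠ 0 ∧ algebraMap A R c ∈ 𝒜 j ∧ s ∣ algebraMap A R c := by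
  have hc : (minpoly A s).coeff 0 ≠ 0 := by
    intro hc
    have h1 : (Polynomial.X : Polynomial A) ∣ minpoly A s := Polynomial.X_dvd_iff.mpr hc
    have h2 := Polynomial.irreducible_X.associated_of_dvd (minpoly.irreducible hint) h1
    have h3 := Polynomial.eq_of_monic_of_associated Polynomial.monic_X (minpoly.monic hint) h2
    have h4 := minpoly.aeval A s
    rw [← h3, Polynomial.aeval_X] at h4
    exact h0 h4
  refine ⟨(minpoly A s).coeff 0, _, hc,
    gder_minpoly hA hs hint 0 (Nat.zero_le _), ?_⟩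
  have h1 := minpoly.aeval A s
  rw [← Polynomial.divX_mul_X_add (minpoly A s), map_add, map_mul, Polynomial.aeval_X,
    Polynomial.aeval_C] at h1
  refine ⟨-Polynomial.aeval s (minpoly A s).divX, ?_⟩
  rw [eq_neg_of_add_eq_zero_right h1]
  ring

/-- For homogeneous `s` there is a non-zero homogeneous `c` in `A` with `c ds` in the span. -/
private theorem gder_elem [CharZero A]
    (hA : ∀ (a : A) (j : ℕ), ∃ a' : A, algebraMap A R a' =
      (decompose 𝒜 (algebraMap A R a) j : R))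
    (hI : ∀ s : R, IsIntegral A s)
    (N : Submodule R (KaehlerDifferential ℂ R)) (hN : ∀ a : A, D ℂ R (algebraMap A R a) ∈ N)
    {s : R} {m : ℕ} (hs : s ∈ 𝒜 m) :
    ∃ (c : A) (j : ℕ), c ≠ 0 ∧ algebraMap A R c ∈ 𝒜 j ∧
      algebraMap A R c • D ℂ R s ∈ N := by
  have hint := hI s
  set q := Polynomial.aeval s (Polynomial.derivative (minpoly A s)) with hq
  have hq0 : q ≠ 0 := gder_sep hint
  have hqN : q • D ℂ R s ∈ N := by
    have h := gder_relation N hN s (minpoly A s)
    rw [minpoly.aeval, map_zero, zero_sub] at h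
    exact (Submodule.neg_mem_iff N).mp h
  have hqh : q ∈ 𝒜 (((minpoly A s).natDegree - 1) * m) := by
    have hpos := minpoly.natDegree_pos hint
    rw [hq, Polynomial.aeval_eq_sum_range' (n := (minpoly A s).natDegree)
      (Polynomial.natDegree_derivative_lt (by omega))]
    refine Submodule.sum_mem _ fun i hi => ?_
    have hi' := Finset.mem_range.mp hi
    rw [Polynomial.coeff_derivative, Algebra.smul_def, map_mul]
    have h1 := gder_minpoly hA hs hint (i + 1) (by omega)
    have h2 : algebraMap A R ((i : A) + 1) ∈ 𝒜 0 := by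
      have : algebraMap A R ((i : A) + 1) = algebraMap ℂ R ((i : ℂ) + 1) := by simp
      rw [this]
      exact SetLike.algebraMap_mem_graded 𝒜 _
    have h3 := SetLike.mul_mem_graded (SetLike.mul_mem_graded h1 h2)
      (SetLike.pow_mem_graded i hs)
    have h4 : ((minpoly A s).natDegree - (i + 1)) * m + 0 + i • m =
        ((minpoly A s).natDegree - 1) * m := by
      rw [add_zero, smul_eq_mul, ← Nat.add_mul]
      congr 1
      omega
    rw [h4] at h3
    exact h3
  obtain ⟨c, j, hc0, hcj, e, he⟩ := gder_norm hA hqh (hI q) hq0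
  refine ⟨c, j, hc0, hcj, ?_⟩
  rw [he, mul_comm, mul_smul]
  exact N.smul_mem _ hqN

/-- The same for every `s`. -/
private theorem gder_all [CharZero A]
    (hA : ∀ (a : A) (j : ℕ), ∃ a' : A, algebraMap A R a' =
      (decompose 𝒜 (algebraMap A R a) j : R))
    (hI : ∀ s : R, IsIntegral A s)
    (N : Submodule R (KaehlerDifferential ℂ R)) (hN : ∀ a : A, D ℂ R (algebraMap A R a) ∈ N)
    (s : R) :
    ∃ (c : A) (j : ℕ), c ≠ 0 ∧ algebraMap A R c ∈ 𝒜 j ∧
      algebraMap A R c • D ℂ R s ∈ N := by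
  refine DirectSum.Decomposition.inductionOn 𝒜 (motive := fun s => ∃ (c : A) (j : ℕ),
    c ≠ 0 ∧ algebraMap A R c ∈ 𝒜 j ∧ algebraMap A R c • D ℂ R s ∈ N) ?_ ?_ ?_ s
  · refine ⟨1, 0, one_ne_zero, ?_, ?_⟩
    · rw [map_one]; exact SetLike.GradedOne.one_mem
    · rw [map_zero, smul_zero]; exact N.zero_mem
  · intro i t
    exact gder_elem hA hI N hN t.2
  · rintro t t' ⟨c, j, hc0, hcj, hc⟩ ⟨c', j', hc0', hcj', hc'⟩
    refine ⟨c * c', j + j', mul_ne_zero hc0 hc0', ?_, ?_⟩
    · rw [map_mul]; exact SetLike.mul_mem_graded hcj hcj'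
    · rw [map_mul, map_add, smul_add]
      refine N.add_mem ?_ ?_
      · rw [mul_comm, mul_smul]; exact N.smul_mem _ hc
      · rw [mul_smul]; exact N.smul_mem _ hc'

/-- One `c` for the whole of `R`, if `R` is a finite `A`-module. -/
private theorem gder_uniform [CharZero A] [Module.Finite A R]
    (hA : ∀ (a : A) (j : ℕ), ∃ a' : A, algebraMap A R a' =
      (decompose 𝒜 (algebraMap A R a) j : R))
    (N : Submodule R (KaehlerDifferential ℂ R)) (hN : ∀ a : A, D ℂ R (algebraMap A R a) ∈ N) :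
    ∃ (c : A) (j : ℕ), c ≠ 0 ∧ algebraMap A R c ∈ 𝒜 j ∧
      ∀ s : R, algebraMap A R c • D ℂ R s ∈ N := by
  classical
  have hI : ∀ s : R, IsIntegral A s := fun s => Algebra.IsIntegral.isIntegral s
  have hfin : ∀ S : Finset R, ∃ (c : A) (j : ℕ), c ≠ 0 ∧ algebraMap A R c ∈ 𝒜 j ∧
      ∀ s ∈ S, algebraMap A R c • D ℂ R s ∈ N := by
    intro S
    induction S using Finset.induction_on with
    | empty =>
      refine ⟨1, 0, one_ne_zero, ?_, ?_⟩
      · rw [map_one]; exact SetLike.GradedOne.one_mem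
      · intro s hs
        exact absurd hs (Finset.notMem_empty s)
    | insert t S _ ih =>
      obtain ⟨c, j, hc0, hcj, hc⟩ := ih
      obtain ⟨c', j', hc0', hcj', hc'⟩ := gder_all hA hI N hN t
      refine ⟨c * c', j + j', mul_ne_zero hc0 hc0', ?_, ?_⟩
      · rw [map_mul]; exact SetLike.mul_mem_graded hcj hcj'
      · intro s hs
        rw [map_mul]
        rcases Finset.mem_insert.mp hs with rfl | hs
        · rw [mul_smul]; exact N.smul_mem _ hc'
        · rw [mul_comm, mul_smul]; exact N.smul_mem _ (hc s hs)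
  obtain ⟨S, hS⟩ := (Module.finite_def.mp (inferInstance : Module.Finite A R))
  obtain ⟨c, j, hc0, hcj, hc⟩ := hfin S
  refine ⟨c, j, hc0, hcj, fun s => ?_⟩
  have hs : s ∈ Submodule.span A (S : Set R) := by rw [hS]; trivial
  induction hs using Submodule.span_induction with
  | mem t ht => exact hc t ht
  | zero => rw [map_zero, smul_zero]; exact N.zero_mem
  | add t t' _ _ ht ht' => rw [map_add, smul_add]; exact N.add_mem ht ht'
  | smul a t _ ht =>
    rw [Algebra.smul_def, Derivation.leibniz, smul_add]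
    refine N.add_mem ?_ ?_
    · rw [smul_comm]; exact N.smul_mem _ ht
    · exact N.smul_mem _ (N.smul_mem _ (hN a))

end Minpoly

end GDerAux

variable {R : Type} [CommRing R] [Algebra ℂ R] {𝒜 : ℕ → Submodule ℂ R} [GradedAlgebra 𝒜]
  {n r d : ℕ} {x : Fin (n + 1) → R} {G : R}

/-- G1a. Proof: `R` is generated as a `ℂ`-algebra by finitely many homogeneous elements `s_i`
(`x_finite`). Each `s_i`, of degree `m`, is a root of a monic polynomial over `ℂ[x]`, homogeneous
in the sense that the coefficient of `T ^ (p - k)` is a form of degree `k m / d` (or `0`); take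
such a homogeneous `P_i ≠ 0` (not necessarily monic) of least degree in `T`: then
`P_i' (s_i) ≠ 0` (characteristic zero), homogeneous, and `P_i' (s_i) D s_i` is in the span of the
`D (x b)` because `0 = D (P_i (s_i)) = P_i' (s_i) D s_i + ∑ s_i ^ k D a_k`. A non-zero homogeneous
element `q` of `R` divides a non-zero form in `ℂ[x]`: the constant coefficient of its homogeneous
integral equation of least degree. `hp` = the product of these forms over all `i`. The set of `s`
with `h D s` in the span is a subalgebra (Leibniz). -/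
theorem exists_hp (h : IsFano 𝒜 n r d x G) :
    ∃ (hp : MvPolynomial (Fin (n + 1)) ℂ) (wt : ℕ), hp ≠ 0 ∧ hp.IsHomogeneous wt ∧
      ∀ s : R, MvPolynomial.aeval x hp • KaehlerDifferential.D ℂ R s ∈
        Submodule.span R (Set.range fun b => KaehlerDifferential.D ℂ R (x b)) := by
  classical
  have := h.domain
  have hi : Function.Injective
      (MvPolynomial.aeval x : MvPolynomial (Fin (n + 1)) ℂ →ₐ[ℂ] R) := h.x_indep
  let _ : Algebra (MvPolynomial (Fin (n + 1)) ℂ) R :=
    (MvPolynomial.aeval x : MvPolynomial (Fin (n + 1)) ℂ →ₐ[ℂ] R).toRingHom.toAlgebra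
  have hmap : ∀ p : MvPolynomial (Fin (n + 1)) ℂ,
      algebraMap (MvPolynomial (Fin (n + 1)) ℂ) R p = MvPolynomial.aeval x p := fun _ => rfl
  have : Module.IsTorsionFree (MvPolynomial (Fin (n + 1)) ℂ) R :=
    Module.isTorsionFree_iff_algebraMap_injective.mpr hi
  have : Module.Finite (MvPolynomial (Fin (n + 1)) ℂ) R := by
    obtain ⟨S, hS⟩ := Module.finite_def.mp h.x_finite
    refine Module.finite_def.mpr ⟨S, ?_⟩
    rw [eq_top_iff]
    intro s _
    have hs : s ∈ Submodule.span (Algebra.adjoin ℂ (Set.range x)) (S : Set R) := by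
      rw [hS]; trivial
    induction hs using Submodule.span_induction with
    | mem t ht => exact Submodule.subset_span ht
    | zero => exact Submodule.zero_mem _
    | add t t' _ _ ht ht' => exact Submodule.add_mem _ (ht trivial) (ht' trivial)
    | smul a t _ ht =>
      have ha : (a : R) ∈ (MvPolynomial.aeval x : MvPolynomial (Fin (n + 1)) ℂ →ₐ[ℂ] R).range := by
        rw [← Algebra.adjoin_range_eq_range_aeval]
        exact a.2
      obtain ⟨p, hp⟩ := ha
      have h1 := Submodule.smul_mem _ p (ht trivial)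
      rw [Algebra.smul_def, hmap] at h1
      have h2 : a • t = MvPolynomial.aeval x p * t := by
        rw [Algebra.smul_def]
        exact congrArg (· * t) hp.symm
      rw [h2]
      exact h1
  have hN : ∀ p : MvPolynomial (Fin (n + 1)) ℂ,
      KaehlerDifferential.D ℂ R (algebraMap (MvPolynomial (Fin (n + 1)) ℂ) R p) ∈
      Submodule.span R (Set.range fun b => KaehlerDifferential.D ℂ R (x b)) := by
    intro p
    rw [hmap]
    induction p using MvPolynomial.induction_on with
    | C c =>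
      rw [MvPolynomial.aeval_C, Derivation.map_algebraMap]
      exact Submodule.zero_mem _
    | add p q hp hq => rw [map_add, map_add]; exact Submodule.add_mem _ hp hq
    | mul_X p b hp =>
      rw [map_mul, MvPolynomial.aeval_X, Derivation.leibniz]
      exact Submodule.add_mem _
        (Submodule.smul_mem _ _ (Submodule.subset_span ⟨b, rfl⟩)) (Submodule.smul_mem _ _ hp)
  obtain ⟨c, j, hc0, hcj, hc⟩ := gder_uniform (𝒜 := 𝒜) (fun a => gder_comp h.x_mem a) _ hN
  obtain ⟨k, hk⟩ := gder_hom h.d_pos h.x_mem hi hcj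
  exact ⟨c, k, hc0, hk, hc⟩

end Pool.Agent.Lib_KF

end
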