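import Mathlib
import Pool.Agent.Lib_MP_e0d435_m.G01
import Pool.Agent.Lib_MP_e0d435_m.G13
import Pool.Agent.Lib_MP_e0d435_m.G14

/-!
# MP_e0d435_ag: merged library part G17

Concatenation of library files (each in its own section), only to save build time.
-/

/-! ### from `Lib_KF.ConstDefs` -/

section

/-! The constancy theorem (KC19): a square integrable holomorphic function of degree zero on the cone
is constant. -/

open MeasureTheory
open scoped ENNReal NNReal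

namespace Pool.Agent.Lib_KF

open Pool.Agent.Lib_GD

private theorem constDefs_hom {N w : ℕ} {p : MvPolynomial (Fin N) ℂ} (hp : p.IsHomogeneous w)
    (s : ℂ) (y : Fin N → ℂ) :
    MvPolynomial.eval (s • y) p = s ^ w * MvPolynomial.eval y p := by
  rw [MvPolynomial.eval_eq', MvPolynomial.eval_eq', Finset.mul_sum]
  refine Finset.sum_congr rfl fun m hm => ?_
  have h1 : (∑ i, m i) = w := by
    have h2 := hp (MvPolynomial.mem_support_iff.1 hm)
    rw [← h2, Finsupp.weight_apply, Finsupp.sum_fintype _ _ (by simp)]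
    simp
  have h3 : ∀ i, (s • y) i ^ m i = s ^ m i * y i ^ m i := by
    intro i
    rw [Pi.smul_apply, smul_eq_mul, mul_pow]
  simp only [h3, Finset.prod_mul_distrib, Finset.prod_pow_eq_pow_sum, h1]
  ring

/-- The function on the cone with coefficients `F` in the basis `β` is holomorphic, invariant
under the circle action, and square integrable with weight `|G| ^ (-2/r)`; then it is constant.
Proof: `kc_trace_poly`, `kc_solve` give `Φ = N / h ^ m`, `kc_dvd` gives `N = h ^ m Ψ`, so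
`Φ (ν) = ν Ψ` over `W0`, `kc_deg_zero` gives `Ψ = c`, and `Sheets.indep`, `β 0 = 1` finish. -/
theorem const_of_L2 {R : Type} [CommRing R] [Algebra ℂ R] {𝒜 : ℕ → Submodule ℂ R}
    [GradedAlgebra 𝒜] {n r d : ℕ} {x : Fin (n + 1) → R} {G : R} (h : IsFano 𝒜 n r d x G)
    {k : ℕ} (S : Sheets 𝒜 x k) (F : Fin (k + 1) → (Fin (n + 1) → ℂ) → ℂ)
    (hF : ∀ a, DifferentiableOn ℂ (F a) (W0 S.h))
    (hinv : ∀ a, ∀ θ : ℝ, ∀ y ∈ W0 S.h,
      F a (Complex.exp (d * θ * Complex.I) • y) * Complex.exp (S.deg a * θ * Complex.I) = F a y)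
    (hL2 : ∫⁻ y in W0 S.h, ∑' ν : fib x y,
      ENNReal.ofReal (‖∑ a, F a y * ν.1 (S.β a)‖ ^ 2 * ‖ν.1 G‖ ^ (-2 / (r : ℝ))) ≠ ⊤) :
    ∃ c : ℂ, ∀ y ∈ W0 S.h, F 0 y = c ∧ ∀ a, a ≠ 0 → F a y = 0 := by
  have hdom : IsDomain R := h.domain
  obtain ⟨P, hP⟩ := kc_trace_poly h h.G_ne S F hF hinv hL2
  obtain ⟨m, N, hN⟩ := kc_solve S P
  have hNy : ∀ y ∈ W0 S.h, ∀ ν ∈ fib x y,
      (∑ a, F a y * ν (S.β a)) * MvPolynomial.eval y S.h ^ m = ν N := fun y hy ν hν =>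
    hN y hy.2 (fun a => F a y) (fun l => hP l y hy) ν hν
  -- `N` is divisible by `h ^ m`
  have hint : ∫⁻ y in W0 S.h, ∑' ν : fib x y,
      ENNReal.ofReal ((‖ν.1 N‖ / ‖MvPolynomial.eval y S.h‖ ^ m) ^ 2 *
        ‖ν.1 G‖ ^ (-2 / (r : ℝ))) ≠ ⊤ := by
    have he : ∫⁻ y in W0 S.h, ∑' ν : fib x y,
        ENNReal.ofReal ((‖ν.1 N‖ / ‖MvPolynomial.eval y S.h‖ ^ m) ^ 2 *
          ‖ν.1 G‖ ^ (-2 / (r : ℝ))) = ∫⁻ y in W0 S.h, ∑' ν : fib x y,
        ENNReal.ofReal (‖∑ a, F a y * ν.1 (S.β a)‖ ^ 2 * ‖ν.1 G‖ ^ (-2 / (r : ℝ))) := by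
      refine setLIntegral_congr_fun (isOpen_W0 S.h).measurableSet fun y hy => ?_
      refine tsum_congr fun ν => ?_
      have hh : ‖MvPolynomial.eval y S.h‖ ^ m ≠ 0 := pow_ne_zero m (norm_ne_zero_iff.2 hy.2)
      have h1 : ‖ν.1 N‖ / ‖MvPolynomial.eval y S.h‖ ^ m = ‖∑ a, F a y * ν.1 (S.β a)‖ := by
        rw [← hNy y hy ν.1 ν.2, norm_mul, norm_pow, mul_div_assoc, div_self hh, mul_one]
      rw [h1]
    rw [he]
    exact hL2
  obtain ⟨Ψ, hΨ⟩ := kc_dvd h S.h S.h_ne S.h_hom m N hint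
  have hΨy : ∀ y ∈ W0 S.h, ∀ ν ∈ fib x y, ∑ a, F a y * ν (S.β a) = ν Ψ := by
    intro y hy ν hν
    have h1 := hNy y hy ν hν
    rw [hΨ, map_mul, fib_aeval hν, map_pow] at h1
    have h2 : MvPolynomial.eval y S.h ^ m ≠ 0 := pow_ne_zero m hy.2
    apply mul_right_cancel₀ h2
    rw [h1]
    ring
  -- `Ψ` is constant
  have hne : (W0 S.h).Nonempty := by
    obtain ⟨y, hy, hy2⟩ := kc_exists_ne S.h S.h_ne (U := Metric.ball 0 1) Metric.isOpen_ball
      ⟨0, Metric.mem_ball_self one_pos⟩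
    exact ⟨y, by simpa using hy, hy2⟩
  obtain ⟨c, hc⟩ := kc_deg_zero 𝒜 h.x_indep h.x_finite h.connected Ψ (isOpen_W0 S.h) hne (by
    intro y hy ν hν θ
    set t : ℂ := Complex.exp (θ * Complex.I) with ht
    have htn : ‖t‖ = 1 := Complex.norm_exp_ofReal_mul_I θ
    have ht0 : t ≠ 0 := Complex.exp_ne_zero _
    have htd : t ^ d = Complex.exp (d * θ * Complex.I) := by
      rw [ht, ← Complex.exp_nat_mul, mul_assoc]
    have hν' : rot 𝒜 t ν ∈ fib x (t ^ d • y) := rot_mem_fib 𝒜 h.x_mem t hν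
    have hy' : t ^ d • y ∈ W0 S.h := by
      refine ⟨?_, ?_⟩
      · rw [norm_smul, norm_pow, htn, one_pow, one_mul]
        exact hy.1
      · rw [constDefs_hom S.h_hom]
        exact mul_ne_zero (pow_ne_zero _ (pow_ne_zero _ ht0)) hy.2
    rw [← hΨy _ hy' _ hν', ← hΨy y hy ν hν]
    refine Finset.sum_congr rfl fun a _ => ?_
    rw [rot_apply 𝒜 t ν (S.β_mem a), ← hinv a θ y hy, ← htd]
    have h3 : t ^ S.deg a = Complex.exp (S.deg a * θ * Complex.I) := by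
      rw [ht, ← Complex.exp_nat_mul, mul_assoc]
    rw [h3]
    ring)
  refine ⟨c, fun y hy => ?_⟩
  have h4 := S.indep y hy.2 (fun a => F a y - if a = 0 then c else 0) (by
    intro ν hν
    have h5 := hΨy y hy ν hν
    rw [hc, AlgHom.commutes, Algebra.algebraMap_self, RingHom.id_apply] at h5
    simp only [sub_mul, Finset.sum_sub_distrib, h5]
    rw [Finset.sum_eq_single (0 : Fin (k + 1))]
    · rw [if_pos rfl, S.β_zero, map_one, mul_one, sub_self]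
    · intro b _ hb
      rw [if_neg hb, zero_mul]
    · intro hb
      exact absurd (Finset.mem_univ _) hb)
  refine ⟨?_, fun a ha => ?_⟩
  · have h5 := congrFun h4 0
    simp only [if_true, Pi.zero_apply] at h5
    exact sub_eq_zero.1 h5
  · have h5 := congrFun h4 a
    simp only [if_neg ha, sub_zero, Pi.zero_apply] at h5
    exact h5

end Pool.Agent.Lib_KF

end

/-! ### from `Lib_KF.RDefs` -/

section

/-! Module RS: the Hermitian metric on the trivial bundle with fibre `⨁ ℂ β a`. Definitions. -/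

open MeasureTheory Complex
open scoped ENNReal NNReal ContDiff ComplexConjugate

namespace Pool.Agent.Lib_KF

open Pool.Agent.Lib_GD GPn

/-- Levi form -/
noncomputable def leviF {E : Type} [NormedAddCommGroup E] [NormedSpace ℂ E] {ι : Type} [Fintype ι]
    (b : Module.Basis ι ℂ E) (χ : E → ℝ) (x : E) (a : ι → ℂ) : ℝ :=
  (∑ j, ∑ k, dzb (b k) (dz (b j) (fun y => (χ y : ℂ))) x * a j * conj (a k)).re

/-- The coordinates `(y, s)` of `ℂ ^ (n + 1) × ℂ`. -/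
noncomputable def bE (n : ℕ) : Module.Basis (Fin (n + 1) ⊕ Unit) ℂ ((Fin (n + 1) → ℂ) × ℂ) :=
  (Pi.basisFun ℂ (Fin (n + 1))).prod (Module.Basis.singleton Unit ℂ)

/-- A smooth cutoff: `1` for `t ≤ 1 / 4`, `0` for `1 ≤ t`. -/
noncomputable def cut (t : ℝ) : ℝ := Real.smoothTransition ((1 - t) * (4 / 3))

variable {R : Type} [CommRing R] [Algebra ℂ R] {𝒜 : ℕ → Submodule ℂ R} {n k M B : ℕ}
  {x : Fin (n + 1) → R}

/-- `∑ |ν (e i l)| ^ 2` -/
noncomputable def Ssum (e : Fin M → Fin (B + 1) → R) (ν : R →ₐ[ℂ] ℂ) : ℝ :=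
  ∑ i, ∑ l, ‖ν (e i l)‖ ^ 2

/-- `exp (-φ)`, `φ = c ∑ log (|e_i(s)| ^ 2 + ε ^ 2 S) + (1 / r) log |G| ^ 2` -/
noncomputable def wph (G : R) (r : ℕ) (e : Fin M → Fin (B + 1) → R) (c ε : ℝ)
    (ν : R →ₐ[ℂ] ℂ) (s : ℂ) : ℝ :=
  (∏ i, (‖ν (famAt (e i) s)‖ ^ 2 + ε ^ 2 * Ssum e ν) ^ (-c)) * ‖ν G‖ ^ (-2 / (r : ℝ))

/-- the weight `|s| ^ (-2) (1 + |s| ^ 2 / ε ^ 2) ^ (-τ)` -/
noncomputable def ws (ε τ : ℝ) (s : ℂ) : ℝ :=
  (‖s‖ ^ 2)⁻¹ * (1 + ‖s‖ ^ 2 / ε ^ 2) ^ (-τ)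

/-- `J(s)` -/
noncomputable def JJ (S : Sheets 𝒜 x k) (G : R) (r : ℕ) (e : Fin M → Fin (B + 1) → R) (c ε : ℝ)
    (s : ℂ) : ℝ≥0∞ :=
  ∫⁻ y in W0 S.h, ∑' ν : fib x y, ENNReal.ofReal (wph G r e c ε ν.1 s)

/-- The domain `{|y| < 1, h(y) ≠ 0, s ≠ 0}`. -/
def WW (S : Sheets 𝒜 x k) : Set ((Fin (n + 1) → ℂ) × ℂ) :=
  {p | p.1 ∈ W0 S.h ∧ p.2 ≠ 0}

/-- The metric: `|u| ^ 2 = ∑_ν exp (-Φ (ν, s)) |∑_a ν (β a) u a| ^ 2`. -/
noncomputable def Hmat (S : Sheets 𝒜 x k) (G : R) (r : ℕ) (e : Fin M → Fin (B + 1) → R)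
    (c ε τ : ℝ) (p : (Fin (n + 1) → ℂ) × ℂ) (a a' : Fin (k + 1)) : ℂ :=
  ∑ᶠ ν ∈ fib x p.1, ((wph G r e c ε ν p.2 * ws ε τ p.2 : ℝ) : ℂ) * conj (ν (S.β a)) * ν (S.β a')

/-- The norm squared as an extended number. -/
noncomputable def nE (S : Sheets 𝒜 x k) (G : R) (r : ℕ) (e : Fin M → Fin (B + 1) → R)
    (c ε τ : ℝ) (p : (Fin (n + 1) → ℂ) × ℂ) (u : Fin (k + 1) → ℂ) : ℝ≥0∞ :=
  ∑' ν : fib x p.1, ENNReal.ofReal (wph G r e c ε ν.1 p.2 * ws ε τ p.2 *
    ‖∑ a, ν.1 (S.β a) * u a‖ ^ 2)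

/-- The functions whose inverses occur in the weights do not vanish on the sheets. -/
def GoodSheets (S : Sheets 𝒜 x k) (G : R) (e : Fin M → Fin (B + 1) → R) : Prop :=
  ∀ y, MvPolynomial.eval y S.h ≠ 0 → ∀ ν ∈ fib x y, ν G ≠ 0 ∧ ∀ i, ν (e i 0) ≠ 0

/-- The exhaustion function of `WW`. -/
noncomputable def rhoE (S : Sheets 𝒜 x k) (p : (Fin (n + 1) → ℂ) × ℂ) : ℝ :=
  (∑ b, (1 - ‖p.1 b‖ ^ 2)⁻¹) + ‖p.2‖ ^ 2 + (‖MvPolynomial.eval p.1 S.h‖ ^ 2)⁻¹ + (‖p.2‖ ^ 2)⁻¹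

end Pool.Agent.Lib_KF

end

/-! ### from `Lib_KF.RLevi` -/

section

/-! RS04: Levi forms. -/

open MeasureTheory Complex
open scoped ENNReal ContDiff ComplexConjugate

namespace Pool.Agent.Lib_KF

open GPn

section RLeviAux

open Filter Topology

variable {E : Type} [NormedAddCommGroup E] [NormedSpace ℂ E]

private lemma rlevi_dz_add (v : E) {u w : E → ℂ} {x : E} (hu : DifferentiableAt ℝ u x)
    (hw : DifferentiableAt ℝ w x) :
    dz v (fun y => u y + w y) x = dz v u x + dz v w x := by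
  have h : fderiv ℝ (fun y => u y + w y) x = fderiv ℝ u x + fderiv ℝ w x :=
    fderiv_fun_add hu hw
  simp only [dz, h, _root_.add_apply]
  ring

private lemma rlevi_dzb_add (v : E) {u w : E → ℂ} {x : E} (hu : DifferentiableAt ℝ u x)
    (hw : DifferentiableAt ℝ w x) :
    dzb v (fun y => u y + w y) x = dzb v u x + dzb v w x := by
  have h : fderiv ℝ (fun y => u y + w y) x = fderiv ℝ u x + fderiv ℝ w x :=
    fderiv_fun_add hu hw
  simp only [dzb, h, _root_.add_apply]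
  ring

private lemma rlevi_dz_cmul (v : E) (c : ℂ) {u : E → ℂ} {x : E} (hu : DifferentiableAt ℝ u x) :
    dz v (fun y => c * u y) x = c * dz v u x := by
  have h : fderiv ℝ (fun y => c * u y) x = c • fderiv ℝ u x :=
    (hu.hasFDerivAt.const_mul c).fderiv
  simp only [dz, h, _root_.smul_apply, smul_eq_mul]
  ring

private lemma rlevi_dzb_cmul (v : E) (c : ℂ) {u : E → ℂ} {x : E} (hu : DifferentiableAt ℝ u x) :
    dzb v (fun y => c * u y) x = c * dzb v u x := by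
  have h : fderiv ℝ (fun y => c * u y) x = c • fderiv ℝ u x :=
    (hu.hasFDerivAt.const_mul c).fderiv
  simp only [dzb, h, _root_.smul_apply, smul_eq_mul]
  ring

private lemma rlevi_dz_mul (v : E) {u w : E → ℂ} {x : E} (hu : DifferentiableAt ℝ u x)
    (hw : DifferentiableAt ℝ w x) :
    dz v (fun y => u y * w y) x = dz v u x * w x + u x * dz v w x := by
  have h : fderiv ℝ (fun y => u y * w y) x = u x • fderiv ℝ w x + w x • fderiv ℝ u x :=
    fderiv_fun_mul hu hw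
  simp only [dz, h, _root_.add_apply, _root_.smul_apply, smul_eq_mul]
  ring

private lemma rlevi_dzb_mul (v : E) {u w : E → ℂ} {x : E} (hu : DifferentiableAt ℝ u x)
    (hw : DifferentiableAt ℝ w x) :
    dzb v (fun y => u y * w y) x = dzb v u x * w x + u x * dzb v w x := by
  have h : fderiv ℝ (fun y => u y * w y) x = u x • fderiv ℝ w x + w x • fderiv ℝ u x :=
    fderiv_fun_mul hu hw
  simp only [dzb, h, _root_.add_apply, _root_.smul_apply, smul_eq_mul]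
  ring

private lemma rlevi_dz_sum {κ : Type} (s : Finset κ) (v : E) {u : κ → E → ℂ} {x : E}
    (hu : ∀ i ∈ s, DifferentiableAt ℝ (u i) x) :
    dz v (fun y => ∑ i ∈ s, u i y) x = ∑ i ∈ s, dz v (u i) x := by
  have h : fderiv ℝ (fun y => ∑ i ∈ s, u i y) x = ∑ i ∈ s, fderiv ℝ (u i) x :=
    fderiv_fun_sum hu
  simp only [dz, h, ContinuousLinearMap.sum_apply, Finset.mul_sum]
  rw [← Finset.sum_sub_distrib, Finset.sum_div]

private lemma rlevi_dzb_sum {κ : Type} (s : Finset κ) (v : E) {u : κ → E → ℂ} {x : E}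
    (hu : ∀ i ∈ s, DifferentiableAt ℝ (u i) x) :
    dzb v (fun y => ∑ i ∈ s, u i y) x = ∑ i ∈ s, dzb v (u i) x := by
  have h : fderiv ℝ (fun y => ∑ i ∈ s, u i y) x = ∑ i ∈ s, fderiv ℝ (u i) x :=
    fderiv_fun_sum hu
  simp only [dzb, h, ContinuousLinearMap.sum_apply, Finset.mul_sum]
  rw [← Finset.sum_add_distrib, Finset.sum_div]

private lemma rlevi_dz_congr (v : E) {u w : E → ℂ} {x : E} (h : u =ᶠ[𝓝 x] w) :
    dz v u x = dz v w x := by
  simp only [dz, h.fderiv_eq]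

private lemma rlevi_dzb_congr (v : E) {u w : E → ℂ} {x : E} (h : u =ᶠ[𝓝 x] w) :
    dzb v u x = dzb v w x := by
  simp only [dzb, h.fderiv_eq]

private lemma rlevi_fderiv_ofReal {r : E → ℝ} {x : E} (v : E) (hr : DifferentiableAt ℝ r x) :
    fderiv ℝ (fun y => (r y : ℂ)) x v = ((fderiv ℝ r x v : ℝ) : ℂ) := by
  have h : HasFDerivAt (fun y => (r y : ℂ)) (Complex.ofRealCLM.comp (fderiv ℝ r x)) x :=
    Complex.ofRealCLM.hasFDerivAt.comp x hr.hasFDerivAt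
  rw [h.fderiv]
  rfl

private lemma rlevi_dz_log {N : E → ℝ} {y : E} (v : E) (hN : DifferentiableAt ℝ N y)
    (h0 : N y ≠ 0) :
    dz v (fun y => (Real.log (N y) : ℂ)) y = (N y : ℂ)⁻¹ * dz v (fun y => (N y : ℂ)) y := by
  have h : HasFDerivAt (fun y => Real.log (N y)) ((N y)⁻¹ • fderiv ℝ N y) y :=
    hN.hasFDerivAt.log h0
  simp only [dz, rlevi_fderiv_ofReal _ h.differentiableAt, rlevi_fderiv_ofReal _ hN, h.fderiv,
    _root_.smul_apply, smul_eq_mul, Complex.ofReal_mul, Complex.ofReal_inv]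
  ring

private lemma rlevi_fderiv_I {F : E → ℂ} {x : E} (hF : DifferentiableAt ℂ F x) (v : E) :
    fderiv ℝ F x (I • v) = I * fderiv ℝ F x v := by
  rw [hF.fderiv_restrictScalars ℝ]
  change fderiv ℂ F x (I • v) = I * fderiv ℂ F x v
  rw [map_smul, smul_eq_mul]

private lemma rlevi_dzb_hol {F : E → ℂ} {x : E} (hF : DifferentiableAt ℂ F x) (v : E) :
    dzb v F x = 0 := by
  simp only [dzb, rlevi_fderiv_I hF]
  rw [← mul_assoc, Complex.I_mul_I]
  ring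

private lemma rlevi_dz_hol {F : E → ℂ} {x : E} (hF : DifferentiableAt ℂ F x) (v : E) :
    dz v F x = fderiv ℂ F x v := by
  have h1 : fderiv ℝ F x v = fderiv ℂ F x v := by
    rw [hF.fderiv_restrictScalars ℝ]
    rfl
  simp only [dz, rlevi_fderiv_I hF, h1]
  rw [← mul_assoc, Complex.I_mul_I]
  ring

private lemma rlevi_conj_diff {F : E → ℂ} {x : E} (hF : DifferentiableAt ℝ F x) :
    HasFDerivAt (fun y => conj (F y))
      (Complex.conjCLE.toContinuousLinearMap.comp (fderiv ℝ F x)) x :=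
  Complex.conjCLE.toContinuousLinearMap.hasFDerivAt.comp x hF.hasFDerivAt

private lemma rlevi_dz_conj {F : E → ℂ} {x : E} (hF : DifferentiableAt ℂ F x) (v : E) :
    dz v (fun y => conj (F y)) x = 0 := by
  have h1 := rlevi_conj_diff (hF.restrictScalars ℝ)
  have h2 : ∀ w, fderiv ℝ (fun y => conj (F y)) x w = conj (fderiv ℝ F x w) := by
    intro w
    rw [h1.fderiv]
    simp
  simp only [dz, h2, rlevi_fderiv_I hF, map_mul, Complex.conj_I]
  rw [← mul_assoc, mul_neg, Complex.I_mul_I]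
  ring

private lemma rlevi_dzb_conj {F : E → ℂ} {x : E} (hF : DifferentiableAt ℂ F x) (v : E) :
    dzb v (fun y => conj (F y)) x = conj (fderiv ℂ F x v) := by
  have h1 := rlevi_conj_diff (hF.restrictScalars ℝ)
  have h3 : fderiv ℝ F x v = fderiv ℂ F x v := by
    rw [hF.fderiv_restrictScalars ℝ]
    rfl
  have h2 : ∀ w, fderiv ℝ (fun y => conj (F y)) x w = conj (fderiv ℝ F x w) := by
    intro w
    rw [h1.fderiv]
    simp
  simp only [dzb, h2, rlevi_fderiv_I hF, map_mul, Complex.conj_I, h3]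
  rw [← mul_assoc, mul_neg, Complex.I_mul_I]
  ring

private lemma rlevi_diff_dz {F : E → ℂ} {x : E} (hF : ContDiffAt ℝ ∞ F x) (v : E) :
    DifferentiableAt ℝ (dz v F) x := by
  have h1 : DifferentiableAt ℝ (fderiv ℝ F) x :=
    (hF.fderiv_right (m := ∞) (by simp)).differentiableAt (by simp)
  have h2 : ∀ w, DifferentiableAt ℝ (fun y => fderiv ℝ F y w) x := fun w =>
    h1.clm_apply (differentiableAt_const w)
  have h3 : dz v F = fun y => (fderiv ℝ F y v - I * fderiv ℝ F y (I • v)) * (2 : ℂ)⁻¹ := by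
    funext y
    rw [dz, div_eq_mul_inv]
  rw [h3]
  exact ((h2 v).sub ((h2 (I • v)).const_mul I)).mul_const _

private lemma rlevi_ev {F : E → ℂ} {x : E} (hF : ContDiffAt ℝ ∞ F x) :
    ∀ᶠ y in 𝓝 x, DifferentiableAt ℝ F y := by
  have h1 : ContDiffAt ℝ 1 F x := hF.of_le (by simp)
  filter_upwards [h1.eventually (by simp)] with y hy
  exact hy.differentiableAt (by simp)

private lemma rlevi_ofReal {χ : E → ℝ} {x : E} (h : ContDiffAt ℝ ∞ χ x) :
    ContDiffAt ℝ ∞ (fun y => (χ y : ℂ)) x :=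
  Complex.ofRealCLM.contDiff.contDiffAt.comp x h

private lemma rlevi_add {F G : E → ℂ} {x : E} (hF : ContDiffAt ℝ ∞ F x)
    (hG : ContDiffAt ℝ ∞ G x) (v w : E) :
    dzb w (dz v (fun y => F y + G y)) x = dzb w (dz v F) x + dzb w (dz v G) x := by
  have h1 : dz v (fun y => F y + G y) =ᶠ[𝓝 x] fun y => dz v F y + dz v G y := by
    filter_upwards [rlevi_ev hF, rlevi_ev hG] with y hy hy'
    exact rlevi_dz_add v hy hy'
  rw [rlevi_dzb_congr w h1, rlevi_dzb_add w (rlevi_diff_dz hF v) (rlevi_diff_dz hG v)]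

private lemma rlevi_cmul {F : E → ℂ} {x : E} (hF : ContDiffAt ℝ ∞ F x) (c : ℂ) (v w : E) :
    dzb w (dz v (fun y => c * F y)) x = c * dzb w (dz v F) x := by
  have h1 : dz v (fun y => c * F y) =ᶠ[𝓝 x] fun y => c * dz v F y := by
    filter_upwards [rlevi_ev hF] with y hy
    exact rlevi_dz_cmul v c hy
  rw [rlevi_dzb_congr w h1, rlevi_dzb_cmul w c (rlevi_diff_dz hF v)]

private lemma rlevi_zero (v w x : E) : dzb w (dz v (fun _ : E => ((0 : ℝ) : ℂ))) x = 0 := by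
  have h1 : dz v (fun _ : E => ((0 : ℝ) : ℂ)) = fun _ => 0 := by
    funext y
    simp [dz]
  rw [h1]
  simp [dzb]

private lemma rlevi_contDiff {F : E → ℂ} {x : E} (hF : AnalyticAt ℂ F x) :
    ContDiffAt ℝ ∞ F x :=
  (hF.contDiffAt (n := ∞)).restrict_scalars ℝ

/-- The second derivatives of the logarithm of a sum of squares of holomorphic functions. -/
private lemma rlevi_log_formula {κ' : Type} [Fintype κ'] (g : κ' → E → ℂ) (x : E)
    (hg : ∀ i, AnalyticAt ℂ (g i) x) (h0 : 0 < ∑ i, ‖g i x‖ ^ 2) :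
    ContDiffAt ℝ ∞ (fun y => Real.log (∑ i, ‖g i y‖ ^ 2)) x ∧
    ∀ v w : E, dzb w (dz v (fun y => ((Real.log (∑ i, ‖g i y‖ ^ 2) : ℝ) : ℂ))) x =
      ((∑ i, ‖g i x‖ ^ 2 : ℝ) : ℂ)⁻¹ * ∑ i, fderiv ℂ (g i) x v * conj (fderiv ℂ (g i) x w) -
      (((∑ i, ‖g i x‖ ^ 2 : ℝ) : ℂ)⁻¹) ^ 2 * ((∑ i, fderiv ℂ (g i) x v * conj (g i x)) *
        conj (∑ i, fderiv ℂ (g i) x w * conj (g i x))) := by
  classical
  set N : E → ℝ := fun y => ∑ i, ‖g i y‖ ^ 2 with hNdef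
  have hgs : ∀ i, ContDiffAt ℝ ∞ (g i) x := fun i => rlevi_contDiff (hg i)
  have hNs : ContDiffAt ℝ ∞ N x := ContDiffAt.sum fun i _ => (hgs i).norm_sq ℝ
  have hlog : ContDiffAt ℝ ∞ (fun y => Real.log (N y)) x := hNs.log h0.ne'
  refine ⟨hlog, fun v w => ?_⟩
  have hNc : ∀ y, (N y : ℂ) = ∑ i, g i y * conj (g i y) := by
    intro y
    rw [hNdef]
    push_cast
    refine Finset.sum_congr rfl fun i _ => ?_
    rw [Complex.mul_conj, Complex.normSq_eq_norm_sq]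
    push_cast
    rfl
  have hcj : ∀ (i : κ') (y : E), DifferentiableAt ℂ (g i) y →
      DifferentiableAt ℝ (fun y => conj (g i y)) y := fun i y h =>
    (rlevi_conj_diff (h.restrictScalars ℝ)).differentiableAt
  -- first derivative
  have hP : ∀ (v y : E), (∀ i, DifferentiableAt ℂ (g i) y) →
      dz v (fun y => (N y : ℂ)) y = ∑ i, fderiv ℂ (g i) y v * conj (g i y) := by
    intro v y hy
    have h1 : (fun y => (N y : ℂ)) = fun y => ∑ i, g i y * conj (g i y) := funext hNc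
    rw [h1, rlevi_dz_sum Finset.univ v (fun i _ =>
      ((hy i).restrictScalars ℝ).fun_mul (hcj i y (hy i)))]
    refine Finset.sum_congr rfl fun i _ => ?_
    rw [rlevi_dz_mul v ((hy i).restrictScalars ℝ) (hcj i y (hy i)), rlevi_dz_conj (hy i),
      rlevi_dz_hol (hy i)]
    ring
  have hQ : dzb w (fun y => (N y : ℂ)) x = conj (∑ i, fderiv ℂ (g i) x w * conj (g i x)) := by
    have hy : ∀ i, DifferentiableAt ℂ (g i) x := fun i => (hg i).differentiableAt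
    have h1 : (fun y => (N y : ℂ)) = fun y => ∑ i, g i y * conj (g i y) := funext hNc
    rw [h1, rlevi_dzb_sum Finset.univ w (fun i _ =>
      ((hy i).restrictScalars ℝ).fun_mul (hcj i x (hy i))), map_sum]
    refine Finset.sum_congr rfl fun i _ => ?_
    rw [rlevi_dzb_mul w ((hy i).restrictScalars ℝ) (hcj i x (hy i)), rlevi_dzb_conj (hy i),
      rlevi_dzb_hol (hy i), map_mul, Complex.conj_conj]
    ring
  have hev : dz v (fun y => ((Real.log (N y) : ℝ) : ℂ)) =ᶠ[𝓝 x]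
      fun y => (N y : ℂ)⁻¹ * ∑ i, fderiv ℂ (g i) y v * conj (g i y) := by
    have e1 : ∀ᶠ y in 𝓝 x, 0 < N y := hNs.continuousAt.eventually (lt_mem_nhds h0)
    have e2 : ∀ᶠ y in 𝓝 x, ∀ i, AnalyticAt ℂ (g i) y :=
      Filter.eventually_all.2 fun i => (hg i).eventually_analyticAt
    have e3 : ∀ᶠ y in 𝓝 x, DifferentiableAt ℝ N y := by
      have h1 : ContDiffAt ℝ 1 N x := hNs.of_le (by simp)
      filter_upwards [h1.eventually (by simp)] with y hy
      exact hy.differentiableAt (by simp)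
    filter_upwards [e1, e2, e3] with y h1 h2 h3
    rw [rlevi_dz_log v h3 h1.ne', hP v y fun i => (h2 i).differentiableAt]
  rw [rlevi_dzb_congr w hev]
  -- the inverse
  have hNx : (N x : ℂ) ≠ 0 := by exact_mod_cast h0.ne'
  have hid : DifferentiableAt ℝ (fun y => (N y : ℂ)⁻¹) x := by
    have h1 : ContDiffAt ℝ ∞ (fun y => ((N y)⁻¹ : ℝ)) x := hNs.inv h0.ne'
    have h2 := (rlevi_ofReal h1).differentiableAt (by simp)
    have h3 : (fun y => (((N y)⁻¹ : ℝ) : ℂ)) = fun y => (N y : ℂ)⁻¹ := by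
      funext y
      push_cast
      rfl
    rwa [h3] at h2
  have hNd : DifferentiableAt ℝ (fun y => (N y : ℂ)) x :=
    (rlevi_ofReal hNs).differentiableAt (by simp)
  have hinv : dzb w (fun y => (N y : ℂ)⁻¹) x =
      -(((N x : ℂ)⁻¹) ^ 2 * dzb w (fun y => (N y : ℂ)) x) := by
    have h1 : (fun y => (N y : ℂ) * (N y : ℂ)⁻¹) =ᶠ[𝓝 x] fun _ => (1 : ℂ) := by
      have e1 : ∀ᶠ y in 𝓝 x, 0 < N y := hNs.continuousAt.eventually (lt_mem_nhds h0)
      filter_upwards [e1] with y hy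
      exact mul_inv_cancel₀ (by exact_mod_cast hy.ne')
    have h2 := rlevi_dzb_congr w h1
    rw [rlevi_dzb_mul w hNd hid] at h2
    have h3 : dzb w (fun _ : E => (1 : ℂ)) x = 0 := by simp [dzb]
    rw [h3] at h2
    have h4 : dzb w (fun y => (N y : ℂ)⁻¹) x =
        (N x : ℂ)⁻¹ * ((N x : ℂ) * dzb w (fun y => (N y : ℂ)⁻¹) x) := by
      rw [← mul_assoc, inv_mul_cancel₀ hNx, one_mul]
    rw [h4, eq_neg_of_add_eq_zero_right h2]
    ring
  have hgd : ∀ i, DifferentiableAt ℂ (fun y => fderiv ℂ (g i) y v) x := fun i =>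
    (hg i).fderiv.differentiableAt.clm_apply (differentiableAt_const v)
  have hPd : ∀ i, DifferentiableAt ℝ (fun y => fderiv ℂ (g i) y v * conj (g i y)) x := fun i =>
    ((hgd i).restrictScalars ℝ).mul (hcj i x (hg i).differentiableAt)
  have hPs : DifferentiableAt ℝ (fun y => ∑ i, fderiv ℂ (g i) y v * conj (g i y)) x :=
    DifferentiableAt.fun_sum fun i _ => hPd i
  have hPb : dzb w (fun y => ∑ i, fderiv ℂ (g i) y v * conj (g i y)) x =
      ∑ i, fderiv ℂ (g i) x v * conj (fderiv ℂ (g i) x w) := by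
    rw [rlevi_dzb_sum Finset.univ w fun i _ => hPd i]
    refine Finset.sum_congr rfl fun i _ => ?_
    rw [rlevi_dzb_mul w ((hgd i).restrictScalars ℝ) (hcj i x (hg i).differentiableAt),
      rlevi_dzb_hol (hgd i), rlevi_dzb_conj (hg i).differentiableAt]
    ring
  rw [rlevi_dzb_mul w hid hPs, hinv, hPb, hQ]
  ring

variable {ι : Type} [Fintype ι] (b : Module.Basis ι ℂ E)

private lemma rlevi_log_lev {κ' : Type} [Fintype κ'] (g : κ' → E → ℂ) (x : E)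
    (hg : ∀ i, AnalyticAt ℂ (g i) x) (h0 : 0 < ∑ i, ‖g i x‖ ^ 2) (a : ι → ℂ) :
    leviF b (fun y => Real.log (∑ i, ‖g i y‖ ^ 2)) x a =
      (∑ i, ‖g i x‖ ^ 2)⁻¹ * ∑ i, ‖∑ j, fderiv ℂ (g i) x (b j) * a j‖ ^ 2 -
      ((∑ i, ‖g i x‖ ^ 2)⁻¹) ^ 2 *
        ‖∑ i, (∑ j, fderiv ℂ (g i) x (b j) * a j) * conj (g i x)‖ ^ 2 := by
  have hf := (rlevi_log_formula g x hg h0).2
  set n : ℝ := ∑ i, ‖g i x‖ ^ 2 with hn
  set d : κ' → ℂ := fun i => ∑ j, fderiv ℂ (g i) x (b j) * a j with hd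
  have h1 : ∑ j, ∑ k, dzb (b k) (dz (b j)
      (fun y => ((Real.log (∑ i, ‖g i y‖ ^ 2) : ℝ) : ℂ))) x * a j * conj (a k) =
      (n : ℂ)⁻¹ * ∑ i, d i * conj (d i) -
        ((n : ℂ)⁻¹) ^ 2 * ((∑ i, d i * conj (g i x)) * conj (∑ i, d i * conj (g i x))) := by
    have e1 : ∑ i, d i * conj (d i) = ∑ j, ∑ k, (∑ i, fderiv ℂ (g i) x (b j) *
        conj (fderiv ℂ (g i) x (b k))) * a j * conj (a k) := by
      have e0 : ∀ i, d i * conj (d i) = ∑ j, ∑ k, (fderiv ℂ (g i) x (b j) *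
          conj (fderiv ℂ (g i) x (b k))) * a j * conj (a k) := by
        intro i
        simp only [hd]
        rw [map_sum, Finset.sum_mul_sum]
        refine Finset.sum_congr rfl fun j _ => ?_
        refine Finset.sum_congr rfl fun k _ => ?_
        rw [map_mul]
        ring
      rw [Finset.sum_congr rfl fun i _ => e0 i, Finset.sum_comm]
      refine Finset.sum_congr rfl fun j _ => ?_
      rw [Finset.sum_comm]
      refine Finset.sum_congr rfl fun k _ => ?_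
      rw [Finset.sum_mul, Finset.sum_mul]
    have e2 : ∑ i, d i * conj (g i x) =
        ∑ j, (∑ i, fderiv ℂ (g i) x (b j) * conj (g i x)) * a j := by
      simp only [hd, Finset.sum_mul]
      rw [Finset.sum_comm]
      refine Finset.sum_congr rfl fun j _ => ?_
      refine Finset.sum_congr rfl fun i _ => ?_
      ring
    have e3 : (∑ i, d i * conj (g i x)) * conj (∑ i, d i * conj (g i x)) =
        ∑ j, ∑ k, ((∑ i, fderiv ℂ (g i) x (b j) * conj (g i x)) *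
          conj (∑ i, fderiv ℂ (g i) x (b k) * conj (g i x))) * a j * conj (a k) := by
      rw [e2, map_sum, Finset.sum_mul_sum]
      refine Finset.sum_congr rfl fun j _ => ?_
      refine Finset.sum_congr rfl fun k _ => ?_
      rw [map_mul]
      ring
    rw [e1, e3, Finset.mul_sum, Finset.mul_sum, ← Finset.sum_sub_distrib]
    refine Finset.sum_congr rfl fun j _ => ?_
    rw [Finset.mul_sum, Finset.mul_sum, ← Finset.sum_sub_distrib]
    refine Finset.sum_congr rfl fun k _ => ?_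
    rw [hf (b j) (b k)]
    ring
  have h2 : ∀ z : ℂ, z * conj z = ((‖z‖ ^ 2 : ℝ) : ℂ) := fun z => by
    rw [Complex.mul_conj, Complex.normSq_eq_norm_sq]
  unfold leviF
  rw [h1]
  simp only [h2]
  rw [← Complex.ofReal_sum, ← Complex.ofReal_inv, ← Complex.ofReal_mul, ← Complex.ofReal_pow,
    ← Complex.ofReal_mul, ← Complex.ofReal_sub, Complex.ofReal_re]

end RLeviAux

section

variable {E : Type} [NormedAddCommGroup E] [NormedSpace ℂ E] {ι : Type} [Fintype ι]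
  (b : Module.Basis ι ℂ E)

theorem leviF_add (χ₁ χ₂ : E → ℝ) (x : E) (h₁ : ContDiffAt ℝ ∞ χ₁ x) (h₂ : ContDiffAt ℝ ∞ χ₂ x)
    (a : ι → ℂ) :
    leviF b (fun y => χ₁ y + χ₂ y) x a = leviF b χ₁ x a + leviF b χ₂ x a := by
  unfold leviF
  rw [← Complex.add_re, ← Finset.sum_add_distrib]
  congr 1
  refine Finset.sum_congr rfl fun j _ => ?_
  rw [← Finset.sum_add_distrib]
  refine Finset.sum_congr rfl fun k _ => ?_
  have h : (fun y => ((χ₁ y + χ₂ y : ℝ) : ℂ)) = fun y => (χ₁ y : ℂ) + (χ₂ y : ℂ) := by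
    funext y
    push_cast
    rfl
  rw [h, rlevi_add (rlevi_ofReal h₁) (rlevi_ofReal h₂)]
  ring

theorem leviF_const_mul (c : ℝ) (χ : E → ℝ) (x : E) (h : ContDiffAt ℝ ∞ χ x) (a : ι → ℂ) :
    leviF b (fun y => c * χ y) x a = c * leviF b χ x a := by
  unfold leviF
  rw [← Complex.re_ofReal_mul, Finset.mul_sum]
  congr 1
  refine Finset.sum_congr rfl fun j _ => ?_
  rw [Finset.mul_sum]
  refine Finset.sum_congr rfl fun k _ => ?_
  have h' : (fun y => ((c * χ y : ℝ) : ℂ)) = fun y => (c : ℂ) * (χ y : ℂ) := by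
    funext y
    push_cast
    rfl
  rw [h', rlevi_cmul (rlevi_ofReal h)]
  ring

theorem leviF_sum {κ' : Type} [Fintype κ'] (χ : κ' → E → ℝ) (x : E)
    (h : ∀ i, ContDiffAt ℝ ∞ (χ i) x) (a : ι → ℂ) :
    leviF b (fun y => ∑ i, χ i y) x a = ∑ i, leviF b (χ i) x a := by
  classical
  have key : ∀ s : Finset κ', leviF b (fun y => ∑ i ∈ s, χ i y) x a =
      ∑ i ∈ s, leviF b (χ i) x a := by
    intro s
    induction s using Finset.induction_on with
    | empty =>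
      simp only [Finset.sum_empty]
      unfold leviF
      simp only [rlevi_zero, zero_mul, Finset.sum_const_zero, Complex.zero_re]
    | insert i s hi ih =>
      simp only [Finset.sum_insert hi]
      rw [leviF_add b (χ i) (fun y => ∑ i ∈ s, χ i y) x (h i)
        (ContDiffAt.sum fun i _ => h i) a, ih]
  exact key Finset.univ

theorem leviF_congr (χ₁ χ₂ : E → ℝ) (x : E) (h : χ₁ =ᶠ[nhds x] χ₂) (a : ι → ℂ) :
    leviF b χ₁ x a = leviF b χ₂ x a := by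
  unfold leviF
  congr 1
  refine Finset.sum_congr rfl fun j _ => ?_
  refine Finset.sum_congr rfl fun k _ => ?_
  have h1 : (fun y => (χ₁ y : ℂ)) =ᶠ[nhds x] fun y => (χ₂ y : ℂ) := by
    filter_upwards [h] with y hy
    rw [hy]
  have h2 : dz (b j) (fun y => (χ₁ y : ℂ)) =ᶠ[nhds x] dz (b j) (fun y => (χ₂ y : ℂ)) := by
    filter_upwards [h1.eventuallyEq_nhds] with y hy
    exact rlevi_dz_congr (b j) hy
  rw [rlevi_dzb_congr (b k) h2]

/-- `log ∑ |g_l| ^ 2` is smooth and plurisubharmonic. -/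
theorem leviF_log_sum {κ' : Type} [Fintype κ'] (g : κ' → E → ℂ) (x : E)
    (hg : ∀ i, AnalyticAt ℂ (g i) x) (h0 : 0 < ∑ i, ‖g i x‖ ^ 2) :
    ContDiffAt ℝ ∞ (fun y => Real.log (∑ i, ‖g i y‖ ^ 2)) x ∧
    ∀ a : ι → ℂ, 0 ≤ leviF b (fun y => Real.log (∑ i, ‖g i y‖ ^ 2)) x a := by
  refine ⟨(rlevi_log_formula g x hg h0).1, fun a => ?_⟩
  rw [rlevi_log_lev b g x hg h0 a]
  set n : ℝ := ∑ i, ‖g i x‖ ^ 2 with hn
  set d : κ' → ℂ := fun i => ∑ j, fderiv ℂ (g i) x (b j) * a j with hd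
  have h1 : ‖∑ i, d i * conj (g i x)‖ ^ 2 ≤ (∑ i, ‖d i‖ ^ 2) * n := by
    have h2 : ‖∑ i, d i * conj (g i x)‖ ≤ ∑ i, ‖d i‖ * ‖g i x‖ := by
      refine (norm_sum_le _ _).trans (Finset.sum_le_sum fun i _ => ?_)
      rw [norm_mul, Complex.norm_conj]
    calc ‖∑ i, d i * conj (g i x)‖ ^ 2 ≤ (∑ i, ‖d i‖ * ‖g i x‖) ^ 2 :=
          pow_le_pow_left₀ (norm_nonneg _) h2 2
      _ ≤ (∑ i, ‖d i‖ ^ 2) * n := Finset.sum_mul_sq_le_sq_mul_sq _ _ _
  have h3 : (n⁻¹) ^ 2 * ‖∑ i, d i * conj (g i x)‖ ^ 2 ≤ n⁻¹ * ∑ i, ‖d i‖ ^ 2 := by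
    calc (n⁻¹) ^ 2 * ‖∑ i, d i * conj (g i x)‖ ^ 2 ≤ (n⁻¹) ^ 2 * ((∑ i, ‖d i‖ ^ 2) * n) :=
          mul_le_mul_of_nonneg_left h1 (by positivity)
      _ = n⁻¹ * ∑ i, ‖d i‖ ^ 2 := by
          field_simp
  linarith

end

/-- `log (1 + |s| ^ 2 / ε ^ 2)` -/
theorem leviF_s (n : ℕ) (ε : ℝ) (hε : 0 < ε) (p : (Fin (n + 1) → ℂ) × ℂ)
    (a : Fin (n + 1) ⊕ Unit → ℂ) :
    ContDiffAt ℝ ∞ (fun q : (Fin (n + 1) → ℂ) × ℂ => Real.log (1 + ‖q.2‖ ^ 2 / ε ^ 2)) p ∧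
    leviF (bE n) (fun q => Real.log (1 + ‖q.2‖ ^ 2 / ε ^ 2)) p a =
      ε ^ 2 / (ε ^ 2 + ‖p.2‖ ^ 2) ^ 2 * ‖a (Sum.inr ())‖ ^ 2 := by
  let g : Bool → (Fin (n + 1) → ℂ) × ℂ → ℂ := fun i q =>
    if i then 1 else (ε : ℂ)⁻¹ * q.2
  have hfun : (fun q : (Fin (n + 1) → ℂ) × ℂ => Real.log (1 + ‖q.2‖ ^ 2 / ε ^ 2)) =
      fun q => Real.log (∑ i, ‖g i q‖ ^ 2) := by
    funext q
    congr 1
    simp only [Fintype.sum_bool, g, if_true, norm_one, one_pow]
    simp only [Bool.false_eq_true, if_false, norm_mul, norm_inv, Complex.norm_real,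
      Real.norm_eq_abs, abs_of_pos hε]
    field_simp
  have hsnd : ∀ q : (Fin (n + 1) → ℂ) × ℂ, HasFDerivAt (g false)
      ((ε : ℂ)⁻¹ • ContinuousLinearMap.snd ℂ (Fin (n + 1) → ℂ) ℂ) q := by
    intro q
    have h1 : HasFDerivAt (fun q : (Fin (n + 1) → ℂ) × ℂ => q.2)
        (ContinuousLinearMap.snd ℂ (Fin (n + 1) → ℂ) ℂ) q := hasFDerivAt_snd
    exact h1.const_mul _
  have hone : ∀ q : (Fin (n + 1) → ℂ) × ℂ, HasFDerivAt (g true)
      (0 : ((Fin (n + 1) → ℂ) × ℂ) →L[ℂ] ℂ) q := fun q => hasFDerivAt_const _ _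
  have hg : ∀ i, AnalyticAt ℂ (g i) p := by
    intro i
    cases i
    · exact analyticAt_const.mul analyticAt_snd
    · exact analyticAt_const
  have hsum : ∑ i, ‖g i p‖ ^ 2 = 1 + ‖p.2‖ ^ 2 / ε ^ 2 := by
    simp only [Fintype.sum_bool, g, if_true, norm_one, one_pow]
    simp only [Bool.false_eq_true, if_false, norm_mul, norm_inv, Complex.norm_real,
      Real.norm_eq_abs, abs_of_pos hε]
    field_simp
  have h0 : 0 < ∑ i, ‖g i p‖ ^ 2 := by
    rw [hsum]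
    positivity
  rw [hfun]
  refine ⟨(rlevi_log_formula g p hg h0).1, ?_⟩
  rw [rlevi_log_lev (bE n) g p hg h0 a, hsum]
  have hd1 : ∑ j, fderiv ℂ (g true) p (bE n j) * a j = 0 := by
    rw [(hone p).fderiv]
    simp
  have hd2 : ∑ j, fderiv ℂ (g false) p (bE n j) * a j = (ε : ℂ)⁻¹ * a (Sum.inr ()) := by
    rw [(hsnd p).fderiv, Fintype.sum_sum_type]
    simp [bE, Module.Basis.prod_apply]
  have hgf : g false p = (ε : ℂ)⁻¹ * p.2 := by simp [g]
  simp only [Fintype.sum_bool, hd1, hd2, hgf]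
  simp only [norm_zero, zero_mul, zero_add, norm_mul, norm_inv, Complex.norm_real,
    Real.norm_eq_abs, abs_of_pos hε, Complex.norm_conj]
  field_simp
  ring

end Pool.Agent.Lib_KF

end

/-! ### from `Lib_KF.REx` -/

section

/-! RS01: `rhoE` is a good exhaustion function of `WW`. -/

open MeasureTheory Complex
open scoped ENNReal NNReal ContDiff ComplexConjugate

namespace Pool.Agent.Lib_KF

open Pool.Agent.Lib_GD GPn

section RExCalc

variable {E : Type} [NormedAddCommGroup E] [NormedSpace ℂ E]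

private theorem REx_dz_add {F G : E → ℂ} {x : E} (hF : DifferentiableAt ℝ F x)
    (hG : DifferentiableAt ℝ G x) (v : E) :
    dz v (fun y => F y + G y) x = dz v F x + dz v G x := by
  have h := fderiv_fun_add hF hG
  simp only [dz, h, add_apply]
  ring

private theorem REx_dzb_add {F G : E → ℂ} {x : E} (hF : DifferentiableAt ℝ F x)
    (hG : DifferentiableAt ℝ G x) (v : E) :
    dzb v (fun y => F y + G y) x = dzb v F x + dzb v G x := by
  have h := fderiv_fun_add hF hG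
  simp only [dzb, h, add_apply]
  ring

private theorem REx_dzb_mul {F G : E → ℂ} {x : E} (hF : DifferentiableAt ℝ F x)
    (hG : DifferentiableAt ℝ G x) (v : E) :
    dzb v (fun y => F y * G y) x = dzb v F x * G x + F x * dzb v G x := by
  have h := fderiv_fun_mul hF hG
  simp only [dzb, h, add_apply, smul_apply, smul_eq_mul]
  ring

private theorem REx_dz_congr {F G : E → ℂ} {x : E} (h : F =ᶠ[nhds x] G) (v : E) :
    dz v F x = dz v G x := by
  simp only [dz, h.fderiv_eq]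

private theorem REx_dzb_congr {F G : E → ℂ} {x : E} (h : F =ᶠ[nhds x] G) (v : E) :
    dzb v F x = dzb v G x := by
  simp only [dzb, h.fderiv_eq]

/-- holomorphic functions -/
private theorem REx_dzb_hol {g : E → ℂ} {x : E} (hg : DifferentiableAt ℂ g x) (v : E) :
    dzb v g x = 0 := by
  have h : fderiv ℝ g x = (fderiv ℂ g x).restrictScalars ℝ := hg.fderiv_restrictScalars ℝ
  simp only [dzb, h, ContinuousLinearMap.coe_restrictScalars', map_smul, smul_eq_mul]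
  linear_combination (1 / 2 : ℂ) * fderiv ℂ g x v * I_mul_I

private theorem REx_dz_hol {g : E → ℂ} {x : E} (hg : DifferentiableAt ℂ g x) (v : E) :
    dz v g x = fderiv ℂ g x v := by
  have h : fderiv ℝ g x = (fderiv ℂ g x).restrictScalars ℝ := hg.fderiv_restrictScalars ℝ
  simp only [dz, h, ContinuousLinearMap.coe_restrictScalars', map_smul, smul_eq_mul]
  linear_combination (-1 / 2 : ℂ) * fderiv ℂ g x v * I_mul_I

private theorem REx_dzb_conj {F : E → ℂ} {x : E} (hF : DifferentiableAt ℝ F x) (v : E) :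
    dzb v (fun y => conj (F y)) x = conj (dz v F x) := by
  have h : HasFDerivAt (fun y => conj (F y))
      ((conjCLE : ℂ →L[ℝ] ℂ).comp (fderiv ℝ F x)) x :=
    (conjCLE : ℂ →L[ℝ] ℂ).hasFDerivAt.comp x hF.hasFDerivAt
  simp only [dzb, dz, h.fderiv, ContinuousLinearMap.comp_apply]
  simp [map_ofNat]

/-- the derivative of `φ (|g| ^ 2)` -/
private theorem REx_hasF {g : E → ℂ} {x : E} (hg : DifferentiableAt ℂ g x) {φ : ℝ → ℝ} {φ' : ℝ}
    (hφ : HasDerivAt φ φ' (‖g x‖ ^ 2)) :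
    HasFDerivAt (fun y => ((φ (‖g y‖ ^ 2) : ℝ) : ℂ))
      (ofRealCLM.comp ((φ' * 2) • (innerSL ℝ (g x)).comp ((fderiv ℂ g x).restrictScalars ℝ))) x := by
  have h1 : HasFDerivAt g ((fderiv ℂ g x).restrictScalars ℝ) x := hg.hasFDerivAt.restrictScalars ℝ
  have h2 := h1.norm_sq
  have h3 := hφ.comp_hasFDerivAt x h2
  refine (ofRealCLM.hasFDerivAt.comp x h3).congr_fderiv ?_
  ext v
  simp [mul_assoc]

private theorem REx_dz_phi {g : E → ℂ} {x : E} (hg : DifferentiableAt ℂ g x) {φ : ℝ → ℝ} {φ' : ℝ}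
    (hφ : HasDerivAt φ φ' (‖g x‖ ^ 2)) (v : E) :
    dz v (fun y => ((φ (‖g y‖ ^ 2) : ℝ) : ℂ)) x = φ' * conj (g x) * fderiv ℂ g x v := by
  have h := REx_hasF hg hφ
  simp only [dz, h.fderiv]
  simp only [ContinuousLinearMap.comp_apply, smul_apply,
    ContinuousLinearMap.coe_restrictScalars', map_smul, smul_eq_mul, innerSL_apply_apply,
    ofRealCLM_apply, Complex.inner]
  generalize fderiv ℂ g x v = w
  apply Complex.ext <;> simp <;> ring

private theorem REx_dzb_dz_phi {g : E → ℂ} {x : E} (hg : AnalyticAt ℂ g x) {φ φ' : ℝ → ℝ}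
    {φ'' : ℝ} (hφ : ∀ᶠ t in nhds (‖g x‖ ^ 2), HasDerivAt φ (φ' t) t)
    (hφ' : HasDerivAt φ' φ'' (‖g x‖ ^ 2)) (v w : E) :
    dzb w (dz v (fun y => ((φ (‖g y‖ ^ 2) : ℝ) : ℂ))) x =
      ((φ'' * ‖g x‖ ^ 2 + φ' (‖g x‖ ^ 2) : ℝ) : ℂ) *
        (fderiv ℂ g x v * conj (fderiv ℂ g x w)) := by
  have hc : ContinuousAt (fun y => ‖g y‖ ^ 2) x := hg.continuousAt.norm.pow 2
  have h1 : dz v (fun y => ((φ (‖g y‖ ^ 2) : ℝ) : ℂ)) =ᶠ[nhds x]
      fun y => (((φ' (‖g y‖ ^ 2) : ℝ) : ℂ) * conj (g y)) * fderiv ℂ g y v := by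
    filter_upwards [hg.eventually_analyticAt, hc.eventually hφ] with y hy1 hy2
    exact REx_dz_phi hy1.differentiableAt hy2 v
  have hgd : DifferentiableAt ℂ g x := hg.differentiableAt
  have hgr : DifferentiableAt ℝ g x := hgd.restrictScalars ℝ
  have hA : DifferentiableAt ℝ (fun y => ((φ' (‖g y‖ ^ 2) : ℝ) : ℂ)) x :=
    (REx_hasF hgd hφ').differentiableAt
  have hB : DifferentiableAt ℝ (fun y => conj (g y)) x :=
    (conjCLE : ℂ →L[ℝ] ℂ).differentiableAt.comp x hgr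
  have hC0 : DifferentiableAt ℂ (fun y => fderiv ℂ g y v) x :=
    hg.fderiv.differentiableAt.clm_apply (differentiableAt_const v)
  have hC : DifferentiableAt ℝ (fun y => fderiv ℂ g y v) x := hC0.restrictScalars ℝ
  have hreal : dzb w (fun y => ((φ' (‖g y‖ ^ 2) : ℝ) : ℂ)) x =
      conj ((φ'' : ℂ) * conj (g x) * fderiv ℂ g x w) := by
    rw [← REx_dz_phi hgd hφ' w, ← REx_dzb_conj hA]
    simp only [conj_ofReal]
  rw [REx_dzb_congr h1, REx_dzb_mul (hA.fun_mul hB) hC, REx_dzb_mul hA hB, REx_dzb_hol hC0,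
    REx_dzb_conj hgr, REx_dz_hol hgd, hreal]
  have h5 : ((‖g x‖ ^ 2 : ℝ) : ℂ) = conj (g x) * g x := by
    rw [Complex.conj_mul']
    push_cast
    rfl
  simp only [ofReal_add, ofReal_mul, h5, map_mul, conj_ofReal, conj_conj, mul_zero, add_zero]
  ring

variable {ι : Type} [Fintype ι] (b : Module.Basis ι ℂ E)

private theorem REx_levi_phi {g : E → ℂ} {x : E} (hg : AnalyticAt ℂ g x) {φ φ' : ℝ → ℝ}
    {φ'' : ℝ} (hφ : ∀ᶠ t in nhds (‖g x‖ ^ 2), HasDerivAt φ (φ' t) t)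
    (hφ' : HasDerivAt φ' φ'' (‖g x‖ ^ 2)) (a : ι → ℂ) :
    leviF b (fun y => φ (‖g y‖ ^ 2)) x a =
      (φ'' * ‖g x‖ ^ 2 + φ' (‖g x‖ ^ 2)) * ‖∑ j, a j * fderiv ℂ g x (b j)‖ ^ 2 := by
  unfold leviF
  have h1 : ∀ j k, dzb (b k) (dz (b j) (fun y => ((φ (‖g y‖ ^ 2) : ℝ) : ℂ))) x * a j *
      conj (a k) = ((φ'' * ‖g x‖ ^ 2 + φ' (‖g x‖ ^ 2) : ℝ) : ℂ) *
        ((a j * fderiv ℂ g x (b j)) * conj (a k * fderiv ℂ g x (b k))) := by
    intro j k
    rw [REx_dzb_dz_phi hg hφ hφ', map_mul]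
    ring
  simp only [h1, ← Finset.mul_sum, ← Finset.sum_mul, ← map_sum]
  rw [Complex.mul_conj', ← ofReal_pow, ← ofReal_mul, ofReal_re]

private theorem REx_diff_dz {F : E → ℂ} {x : E} (hF : ContDiffAt ℝ ∞ F x) (v : E) :
    DifferentiableAt ℝ (dz v F) x := by
  have h1 : ContDiffAt ℝ ∞ (fderiv ℝ F) x := hF.fderiv_right (m := ∞) (by simp)
  have h2 : DifferentiableAt ℝ (fderiv ℝ F) x := h1.differentiableAt (by simp)
  have h3 : ∀ u : E, DifferentiableAt ℝ (fun y => fderiv ℝ F y u) x := fun u =>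
    h2.clm_apply (differentiableAt_const u)
  have : dz v F = fun y => (fderiv ℝ F y v - I * fderiv ℝ F y (I • v)) / 2 := rfl
  rw [this]
  have h4 := h3 v
  have h5 := h3 (I • v)
  fun_prop

private theorem REx_cd_near {F : E → ℂ} {x : E} (hF : ContDiffAt ℝ ∞ F x) :
    ∀ᶠ y in nhds x, DifferentiableAt ℝ F y := by
  have h1 : ContDiffAt ℝ 1 F x := hF.of_le (by exact_mod_cast le_top)
  have h2 := h1.eventually (by simp)
  filter_upwards [h2] with y hy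
  exact hy.differentiableAt (by simp)

private theorem REx_ofReal {χ : E → ℝ} {x : E} (h : ContDiffAt ℝ ∞ χ x) :
    ContDiffAt ℝ ∞ (fun y => (χ y : ℂ)) x :=
  Complex.ofRealCLM.contDiff.contDiffAt.comp x h

private theorem REx_levi_add (χ₁ χ₂ : E → ℝ) (x : E) (h₁ : ContDiffAt ℝ ∞ χ₁ x)
    (h₂ : ContDiffAt ℝ ∞ χ₂ x) (a : ι → ℂ) :
    leviF b (fun y => χ₁ y + χ₂ y) x a = leviF b χ₁ x a + leviF b χ₂ x a := by
  have k1 := REx_ofReal h₁
  have k2 := REx_ofReal h₂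
  have h3 : ∀ j k, dzb (b k) (dz (b j) (fun y => ((χ₁ y + χ₂ y : ℝ) : ℂ))) x =
      dzb (b k) (dz (b j) (fun y => (χ₁ y : ℂ))) x +
      dzb (b k) (dz (b j) (fun y => (χ₂ y : ℂ))) x := by
    intro j k
    have h4 : dz (b j) (fun y => ((χ₁ y + χ₂ y : ℝ) : ℂ)) =ᶠ[nhds x]
        fun y => dz (b j) (fun y => (χ₁ y : ℂ)) y + dz (b j) (fun y => (χ₂ y : ℂ)) y := by
      filter_upwards [REx_cd_near k1, REx_cd_near k2] with y hy1 hy2
      rw [← REx_dz_add hy1 hy2]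
      simp only [ofReal_add]
    rw [REx_dzb_congr h4, REx_dzb_add (REx_diff_dz k1 _) (REx_diff_dz k2 _)]
  unfold leviF
  simp only [h3, add_mul, Finset.sum_add_distrib, add_re]

private theorem REx_levi_sum {κ' : Type} (s : Finset κ') (χ : κ' → E → ℝ) (x : E)
    (h : ∀ i, ContDiffAt ℝ ∞ (χ i) x) (a : ι → ℂ) :
    leviF b (fun y => ∑ i ∈ s, χ i y) x a = ∑ i ∈ s, leviF b (χ i) x a := by
  classical
  induction s using Finset.induction_on with
  | empty =>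
    have h0 : ∀ v : E, dz v (fun _ : E => (((0 : ℝ) : ℝ) : ℂ)) = fun _ => 0 := by
      intro v
      funext y
      simp [dz]
    simp only [Finset.sum_empty]
    unfold leviF
    simp only [h0]
    simp [dzb]
  | insert i s hi ih =>
    simp only [Finset.sum_insert hi]
    rw [REx_levi_add b (χ i) (fun y => ∑ j ∈ s, χ j y) x (h i)
      (ContDiffAt.sum fun j _ => h j), ih]

end RExCalc

variable {R : Type} [CommRing R] [Algebra ℂ R] {𝒜 : ℕ → Submodule ℂ R} {n k M B : ℕ}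
  {x : Fin (n + 1) → R}

theorem isOpen_WW (S : Sheets 𝒜 x k) : IsOpen (WW S) :=
  ((isOpen_W0 S.h).preimage continuous_fst).inter (isOpen_ne_fun continuous_snd continuous_const)

private theorem REx_bE_inl (b : Fin (n + 1)) : bE n (Sum.inl b) = (Pi.single b 1, 0) := by
  simp [bE, Module.Basis.prod_apply]

private theorem REx_bE_inr : bE n (Sum.inr ()) = (0, 1) := by
  simp [bE, Module.Basis.prod_apply]

private theorem REx_an_y (b : Fin (n + 1)) (p : (Fin (n + 1) → ℂ) × ℂ) :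
    AnalyticAt ℂ (fun q : (Fin (n + 1) → ℂ) × ℂ => q.1 b) p :=
  ((ContinuousLinearMap.proj (R := ℂ) (φ := fun _ : Fin (n + 1) => ℂ) b).comp
    (ContinuousLinearMap.fst ℂ (Fin (n + 1) → ℂ) ℂ)).analyticAt p

private theorem REx_an_s (p : (Fin (n + 1) → ℂ) × ℂ) :
    AnalyticAt ℂ (fun q : (Fin (n + 1) → ℂ) × ℂ => q.2) p :=
  (ContinuousLinearMap.snd ℂ (Fin (n + 1) → ℂ) ℂ).analyticAt p

private theorem REx_an_H (h : MvPolynomial (Fin (n + 1)) ℂ) (y : Fin (n + 1) → ℂ) :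
    AnalyticAt ℂ (fun y : Fin (n + 1) → ℂ => MvPolynomial.eval y h) y := by
  have h1 := AnalyticAt.aeval_mvPolynomial (𝕜 := ℂ) (A := ℂ) (B := ℂ)
    (f := fun y : Fin (n + 1) → ℂ => y) (z := y)
    (fun i => (ContinuousLinearMap.proj (R := ℂ) (φ := fun _ : Fin (n + 1) => ℂ) i).analyticAt y) h
  simpa [MvPolynomial.coe_aeval_eq_eval] using h1

private theorem REx_an_h (h : MvPolynomial (Fin (n + 1)) ℂ) (p : (Fin (n + 1) → ℂ) × ℂ) :
    AnalyticAt ℂ (fun q : (Fin (n + 1) → ℂ) × ℂ => MvPolynomial.eval q.1 h) p :=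
  (REx_an_H h p.1).comp ((ContinuousLinearMap.fst ℂ (Fin (n + 1) → ℂ) ℂ).analyticAt p)

private theorem REx_fd_y (b : Fin (n + 1)) (p v : (Fin (n + 1) → ℂ) × ℂ) :
    fderiv ℂ (fun q : (Fin (n + 1) → ℂ) × ℂ => q.1 b) p v = v.1 b := by
  have h : HasFDerivAt (fun q : (Fin (n + 1) → ℂ) × ℂ => q.1 b)
      ((ContinuousLinearMap.proj (R := ℂ) (φ := fun _ : Fin (n + 1) => ℂ) b).comp
        (ContinuousLinearMap.fst ℂ (Fin (n + 1) → ℂ) ℂ)) p :=
    ((ContinuousLinearMap.proj (R := ℂ) (φ := fun _ : Fin (n + 1) => ℂ) b).comp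
      (ContinuousLinearMap.fst ℂ (Fin (n + 1) → ℂ) ℂ)).hasFDerivAt
  rw [h.fderiv]
  rfl

private theorem REx_fd_s (p v : (Fin (n + 1) → ℂ) × ℂ) :
    fderiv ℂ (fun q : (Fin (n + 1) → ℂ) × ℂ => q.2) p v = v.2 := by
  have h : HasFDerivAt (fun q : (Fin (n + 1) → ℂ) × ℂ => q.2)
      (ContinuousLinearMap.snd ℂ (Fin (n + 1) → ℂ) ℂ) p :=
    (ContinuousLinearMap.snd ℂ (Fin (n + 1) → ℂ) ℂ).hasFDerivAt
  rw [h.fderiv]
  rfl

private theorem REx_fd_h (h : MvPolynomial (Fin (n + 1)) ℂ) (p v : (Fin (n + 1) → ℂ) × ℂ) :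
    fderiv ℂ (fun q : (Fin (n + 1) → ℂ) × ℂ => MvPolynomial.eval q.1 h) p v =
      fderiv ℂ (fun y : Fin (n + 1) → ℂ => MvPolynomial.eval y h) p.1 v.1 := by
  have h2 : HasFDerivAt (fun q : (Fin (n + 1) → ℂ) × ℂ => MvPolynomial.eval q.1 h)
      ((fderiv ℂ (fun y : Fin (n + 1) → ℂ => MvPolynomial.eval y h) p.1).comp
        (ContinuousLinearMap.fst ℂ (Fin (n + 1) → ℂ) ℂ)) p :=
    HasFDerivAt.comp (g := fun y : Fin (n + 1) → ℂ => MvPolynomial.eval y h)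
      (f := fun q : (Fin (n + 1) → ℂ) × ℂ => q.1) p
      (REx_an_H h p.1).differentiableAt.hasFDerivAt
      (ContinuousLinearMap.fst ℂ (Fin (n + 1) → ℂ) ℂ).hasFDerivAt
  rw [h2.fderiv]
  rfl

private theorem REx_bE_norm (j : Fin (n + 1) ⊕ Unit) : ‖(bE n j).1‖ ≤ 1 ∧ ‖(bE n j).2‖ ≤ 1 := by
  rcases j with b | u
  · rw [REx_bE_inl]
    constructor
    · refine (pi_norm_le_iff_of_nonneg zero_le_one).2 fun i => ?_
      by_cases hi : i = b
      · subst hi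
        simp
      · simp [Pi.single_eq_of_ne hi]
    · simp
  · rw [REx_bE_inr]
    simp

private theorem REx_bdd (h : MvPolynomial (Fin (n + 1)) ℂ) :
    ∃ C : ℝ, 0 ≤ C ∧ ∀ p : (Fin (n + 1) → ℂ) × ℂ, ‖p.1‖ < 1 → ∀ j,
      ‖fderiv ℂ (fun q : (Fin (n + 1) → ℂ) × ℂ => MvPolynomial.eval q.1 h) p (bE n j)‖ ≤ C := by
  have hc : Continuous (fderiv ℂ (fun y : Fin (n + 1) → ℂ => MvPolynomial.eval y h)) :=
    continuous_iff_continuousAt.2 fun y => (REx_an_H h y).fderiv.continuousAt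
  obtain ⟨C, hC⟩ := (isCompact_closedBall (0 : Fin (n + 1) → ℂ) 1).exists_bound_of_continuousOn
    hc.continuousOn
  refine ⟨|C|, abs_nonneg _, fun p hp j => ?_⟩
  rw [REx_fd_h]
  have h1 := hC p.1 (by simpa using hp.le)
  calc _ ≤ ‖fderiv ℂ (fun y : Fin (n + 1) → ℂ => MvPolynomial.eval y h) p.1‖ * ‖(bE n j).1‖ :=
        ContinuousLinearMap.le_opNorm _ _
    _ ≤ |C| * 1 := mul_le_mul (h1.trans (le_abs_self C)) (REx_bE_norm j).1 (norm_nonneg _)
        (abs_nonneg _)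
    _ = |C| := mul_one _

/-- the functions of one variable -/
private theorem REx_phi1 {t : ℝ} (ht : t < 1) :
    HasDerivAt (fun u : ℝ => (1 - u)⁻¹) (((1 - t) ^ 2)⁻¹) t := by
  have h1 : HasDerivAt (fun u : ℝ => 1 - u) (-1) t := by
    simpa using (hasDerivAt_id t).const_sub 1
  have h2 : (1 - t) ≠ 0 := by linarith
  have h3 := h1.fun_inv h2
  refine h3.congr_deriv ?_
  field_simp

private theorem REx_phi1' {t : ℝ} (ht : t < 1) :
    HasDerivAt (fun u : ℝ => ((1 - u) ^ 2)⁻¹) (2 * ((1 - t) ^ 3)⁻¹) t := by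
  have h1 : HasDerivAt (fun u : ℝ => 1 - u) (-1) t := by
    simpa using (hasDerivAt_id t).const_sub 1
  have h2 : (1 - t) ≠ 0 := by linarith
  have h3 := (h1.fun_pow 2).fun_inv (pow_ne_zero 2 h2)
  refine h3.congr_deriv ?_
  field_simp
  ring

private theorem REx_phi2 {t : ℝ} (ht : 0 < t) :
    HasDerivAt (fun u : ℝ => u⁻¹) (-(t ^ 2)⁻¹) t := by
  simpa using hasDerivAt_inv ht.ne'

private theorem REx_phi2' {t : ℝ} (ht : 0 < t) :
    HasDerivAt (fun u : ℝ => -(u ^ 2)⁻¹) (2 * (t ^ 3)⁻¹) t := by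
  have h2 : t ≠ 0 := ht.ne'
  have h3 := ((((hasDerivAt_id t).fun_pow 2).fun_inv (pow_ne_zero 2 h2))).fun_neg
  refine h3.congr_deriv ?_
  simp only [id]
  field_simp
  norm_num
  ring

private theorem REx_y_lt {S : Sheets 𝒜 x k} {p : (Fin (n + 1) → ℂ) × ℂ} (hp : p ∈ WW S)
    (b : Fin (n + 1)) : ‖p.1 b‖ ^ 2 < 1 := by
  have h1 : ‖p.1 b‖ < 1 := (norm_le_pi_norm p.1 b).trans_lt hp.1.1
  nlinarith [norm_nonneg (p.1 b)]

private theorem REx_h_pos {S : Sheets 𝒜 x k} {p : (Fin (n + 1) → ℂ) × ℂ} (hp : p ∈ WW S) :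
    0 < ‖MvPolynomial.eval p.1 S.h‖ ^ 2 := by
  have := norm_pos_iff.2 hp.1.2
  positivity

private theorem REx_s_pos {S : Sheets 𝒜 x k} {p : (Fin (n + 1) → ℂ) × ℂ} (hp : p ∈ WW S) :
    0 < ‖p.2‖ ^ 2 := by
  have := norm_pos_iff.2 hp.2
  positivity

private theorem REx_cd {g : (Fin (n + 1) → ℂ) × ℂ → ℂ} {p : (Fin (n + 1) → ℂ) × ℂ}
    (hg : AnalyticAt ℂ g p) : ContDiffAt ℝ ∞ (fun q => ‖g q‖ ^ 2) p :=
  (hg.contDiffAt.restrict_scalars ℝ).norm_sq ℝ

private theorem REx_cd1 {S : Sheets 𝒜 x k} {p : (Fin (n + 1) → ℂ) × ℂ} (hp : p ∈ WW S)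
    (b : Fin (n + 1)) :
    ContDiffAt ℝ ∞ (fun q : (Fin (n + 1) → ℂ) × ℂ => (1 - ‖q.1 b‖ ^ 2)⁻¹) p :=
  (contDiffAt_const.sub (REx_cd (REx_an_y b p))).inv
    (by have := REx_y_lt hp b; linarith)

private theorem REx_cd2 (p : (Fin (n + 1) → ℂ) × ℂ) :
    ContDiffAt ℝ ∞ (fun q : (Fin (n + 1) → ℂ) × ℂ => ‖q.2‖ ^ 2) p :=
  REx_cd (REx_an_s p)

private theorem REx_cd3 {S : Sheets 𝒜 x k} {p : (Fin (n + 1) → ℂ) × ℂ} (hp : p ∈ WW S) :
    ContDiffAt ℝ ∞ (fun q : (Fin (n + 1) → ℂ) × ℂ =>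
      (‖MvPolynomial.eval q.1 S.h‖ ^ 2)⁻¹) p :=
  (REx_cd (REx_an_h S.h p)).inv (REx_h_pos hp).ne'

private theorem REx_cd4 {S : Sheets 𝒜 x k} {p : (Fin (n + 1) → ℂ) × ℂ} (hp : p ∈ WW S) :
    ContDiffAt ℝ ∞ (fun q : (Fin (n + 1) → ℂ) × ℂ => (‖q.2‖ ^ 2)⁻¹) p :=
  (REx_cd2 p).inv (REx_s_pos hp).ne'

private theorem REx_smooth (S : Sheets 𝒜 x k) {p : (Fin (n + 1) → ℂ) × ℂ} (hp : p ∈ WW S) :
    ContDiffAt ℝ ∞ (rhoE S) p := by
  unfold rhoE
  exact (((ContDiffAt.sum fun b _ => REx_cd1 hp b).add (REx_cd2 p)).add (REx_cd3 hp)).add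
    (REx_cd4 hp)

private theorem REx_T1_ge {S : Sheets 𝒜 x k} {p : (Fin (n + 1) → ℂ) × ℂ} (hp : p ∈ WW S)
    (b : Fin (n + 1)) : 1 ≤ (1 - ‖p.1 b‖ ^ 2)⁻¹ := by
  have h1 := REx_y_lt hp b
  have h2 : 0 ≤ ‖p.1 b‖ ^ 2 := by positivity
  rw [one_le_inv₀ (by linarith)]
  linarith

private theorem REx_sum_ge {S : Sheets 𝒜 x k} {p : (Fin (n + 1) → ℂ) × ℂ} (hp : p ∈ WW S)
    (b : Fin (n + 1)) : (1 - ‖p.1 b‖ ^ 2)⁻¹ ≤ ∑ b, (1 - ‖p.1 b‖ ^ 2)⁻¹ :=
  Finset.single_le_sum (f := fun b => (1 - ‖p.1 b‖ ^ 2)⁻¹)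
    (fun i _ => zero_le_one.trans (REx_T1_ge hp i)) (Finset.mem_univ b)

/-- all the terms are at most `ρ` -/
private theorem REx_terms (S : Sheets 𝒜 x k) {p : (Fin (n + 1) → ℂ) × ℂ} (hp : p ∈ WW S) :
    1 ≤ rhoE S p ∧ (∀ b, (1 - ‖p.1 b‖ ^ 2)⁻¹ ≤ rhoE S p) ∧ ‖p.2‖ ^ 2 ≤ rhoE S p ∧
      (‖MvPolynomial.eval p.1 S.h‖ ^ 2)⁻¹ ≤ rhoE S p ∧ (‖p.2‖ ^ 2)⁻¹ ≤ rhoE S p := by
  have h0 := REx_T1_ge hp 0
  have h1 := REx_sum_ge hp 0
  have h2 : 0 ≤ ‖p.2‖ ^ 2 := by positivity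
  have h3 : 0 ≤ (‖MvPolynomial.eval p.1 S.h‖ ^ 2)⁻¹ := by positivity
  have h4 : 0 ≤ (‖p.2‖ ^ 2)⁻¹ := by positivity
  unfold rhoE
  refine ⟨by linarith, fun b => ?_, by linarith, by linarith, by linarith⟩
  have h5 := REx_sum_ge hp b
  linarith

private theorem REx_compact (S : Sheets 𝒜 x k) (c : ℝ) :
    IsCompact {p | p ∈ WW S ∧ rhoE S p ≤ c} := by
  rcases lt_or_ge c 1 with hc | hc
  · have : {p | p ∈ WW S ∧ rhoE S p ≤ c} = ∅ := by
      refine Set.eq_empty_of_forall_notMem fun p hp => ?_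
      have := (REx_terms S hp.1).1
      linarith [hp.2]
    rw [this]
    exact isCompact_empty
  have hc0 : 0 < c := by linarith
  set K : Set ((Fin (n + 1) → ℂ) × ℂ) := {p | (∀ b, ‖p.1 b‖ ^ 2 ≤ 1 - c⁻¹) ∧
    c⁻¹ ≤ ‖MvPolynomial.eval p.1 S.h‖ ^ 2 ∧ c⁻¹ ≤ ‖p.2‖ ^ 2 ∧ ‖p.2‖ ^ 2 ≤ c} with hK
  have hci : 0 < c⁻¹ := by positivity
  have hKW : K ⊆ WW S := by
    intro p hp
    refine ⟨⟨?_, ?_⟩, ?_⟩
    · refine (pi_norm_lt_iff zero_lt_one).2 fun b => ?_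
      have h1 := hp.1 b
      by_contra h2
      push Not at h2
      nlinarith [norm_nonneg (p.1 b)]
    · intro h0
      have h1 := hp.2.1
      rw [h0] at h1
      simp only [norm_zero] at h1
      linarith
    · intro h0
      have h1 := hp.2.2.1
      rw [h0] at h1
      simp only [norm_zero] at h1
      linarith
  have hKc : IsClosed K := by
    have h1 : IsClosed {p : (Fin (n + 1) → ℂ) × ℂ | ∀ b, ‖p.1 b‖ ^ 2 ≤ 1 - c⁻¹} := by
      simp only [Set.ofPred_forall]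
      refine isClosed_iInter fun b => isClosed_le ?_ continuous_const
      exact (((continuous_apply b).comp continuous_fst).norm).pow 2
    have h2 : IsClosed {p : (Fin (n + 1) → ℂ) × ℂ |
        c⁻¹ ≤ ‖MvPolynomial.eval p.1 S.h‖ ^ 2} :=
      isClosed_le continuous_const
        ((((MvPolynomial.continuous_eval S.h).comp continuous_fst).norm).pow 2)
    have h3 : IsClosed {p : (Fin (n + 1) → ℂ) × ℂ | c⁻¹ ≤ ‖p.2‖ ^ 2} :=
      isClosed_le continuous_const ((continuous_snd.norm).pow 2)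
    have h4 : IsClosed {p : (Fin (n + 1) → ℂ) × ℂ | ‖p.2‖ ^ 2 ≤ c} :=
      isClosed_le ((continuous_snd.norm).pow 2) continuous_const
    exact h1.inter (h2.inter (h3.inter h4))
  have hKb : IsCompact K := by
    refine Metric.isCompact_of_isClosed_isBounded hKc ?_
    refine (Metric.isBounded_closedBall (x := (0 : (Fin (n + 1) → ℂ) × ℂ)) (r := c + 1)).subset ?_
    intro p hp
    rw [mem_closedBall_zero_iff, Prod.norm_def]
    refine max_le ?_ ?_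
    · have := (hKW hp).1.1
      linarith
    · have h1 := hp.2.2.2
      nlinarith [norm_nonneg p.2]
  have hcont : ContinuousOn (rhoE S) K := fun p hp =>
    (REx_smooth S (hKW hp)).continuousAt.continuousWithinAt
  have hEq : {p | p ∈ WW S ∧ rhoE S p ≤ c} = K ∩ rhoE S ⁻¹' Set.Iic c := by
    ext p
    constructor
    · rintro ⟨hp, hpc⟩
      obtain ⟨-, t1, t2, t3, t4⟩ := REx_terms S hp
      refine ⟨⟨fun b => ?_, ?_, ?_, t2.trans hpc⟩, hpc⟩
      · have h1 := REx_y_lt hp b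
        have h2 := (t1 b).trans hpc
        have h3 := inv_anti₀ (inv_pos.2 (by linarith : (0 : ℝ) < 1 - ‖p.1 b‖ ^ 2)) h2
        rw [inv_inv] at h3
        linarith
      · have h3 := inv_anti₀ (inv_pos.2 (REx_h_pos hp)) (t3.trans hpc)
        rwa [inv_inv] at h3
      · have h3 := inv_anti₀ (inv_pos.2 (REx_s_pos hp)) (t4.trans hpc)
        rwa [inv_inv] at h3
    · rintro ⟨hp, hpc⟩
      exact ⟨hKW hp, hpc⟩
  rw [hEq]
  exact hKb.of_isClosed_subset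
    (hcont.preimage_isClosed_of_isClosed hKc isClosed_Iic) Set.inter_subset_left

private theorem REx_dz_sum {κ' : Type} (s : Finset κ') (F : κ' → (Fin (n + 1) → ℂ) × ℂ → ℂ)
    (p : (Fin (n + 1) → ℂ) × ℂ) (h : ∀ i, DifferentiableAt ℝ (F i) p)
    (v : (Fin (n + 1) → ℂ) × ℂ) :
    dz v (fun y => ∑ i ∈ s, F i y) p = ∑ i ∈ s, dz v (F i) p := by
  classical
  induction s using Finset.induction_on with
  | empty =>
    simp only [Finset.sum_empty]
    simp [dz]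
  | insert i s hi ih =>
    simp only [Finset.sum_insert hi]
    rw [REx_dz_add (h i) (DifferentiableAt.fun_sum fun j _ => h j), ih]

private theorem REx_df {χ : (Fin (n + 1) → ℂ) × ℂ → ℝ} {p : (Fin (n + 1) → ℂ) × ℂ}
    (h : ContDiffAt ℝ ∞ χ p) : DifferentiableAt ℝ (fun q => (χ q : ℂ)) p :=
  (REx_ofReal h).differentiableAt (by simp)

/-- `∂_v ρ` -/
private theorem REx_dz_rho (S : Sheets 𝒜 x k) {p : (Fin (n + 1) → ℂ) × ℂ} (hp : p ∈ WW S)
    (v : (Fin (n + 1) → ℂ) × ℂ) :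
    dz v (fun q => (rhoE S q : ℂ)) p =
      (∑ b, ((((1 - ‖p.1 b‖ ^ 2) ^ 2)⁻¹ : ℝ) : ℂ) * conj (p.1 b) * v.1 b) +
      conj p.2 * v.2 +
      ((-((‖MvPolynomial.eval p.1 S.h‖ ^ 2) ^ 2)⁻¹ : ℝ) : ℂ) *
        conj (MvPolynomial.eval p.1 S.h) *
        fderiv ℂ (fun q : (Fin (n + 1) → ℂ) × ℂ => MvPolynomial.eval q.1 S.h) p v +
      ((-((‖p.2‖ ^ 2) ^ 2)⁻¹ : ℝ) : ℂ) * conj p.2 * v.2 := by
  have e : (fun q : (Fin (n + 1) → ℂ) × ℂ => (rhoE S q : ℂ)) = fun q =>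
      (((∑ b, (((1 - ‖q.1 b‖ ^ 2)⁻¹ : ℝ) : ℂ)) + ((‖q.2‖ ^ 2 : ℝ) : ℂ)) +
      (((‖MvPolynomial.eval q.1 S.h‖ ^ 2)⁻¹ : ℝ) : ℂ)) + (((‖q.2‖ ^ 2)⁻¹ : ℝ) : ℂ) := by
    funext q
    unfold rhoE
    simp only [ofReal_add, ofReal_sum]
  have d1 : ∀ b, DifferentiableAt ℝ (fun q : (Fin (n + 1) → ℂ) × ℂ =>
    (((1 - ‖q.1 b‖ ^ 2)⁻¹ : ℝ) : ℂ)) p := fun b => REx_df (REx_cd1 hp b)
  have d1' := DifferentiableAt.fun_sum (u := Finset.univ) fun b _ => d1 b
  have d2 := REx_df (REx_cd2 p)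
  have d3 := REx_df (REx_cd3 hp)
  have d4 := REx_df (REx_cd4 hp)
  rw [e, REx_dz_add ((d1'.fun_add d2).fun_add d3) d4, REx_dz_add (d1'.fun_add d2) d3,
    REx_dz_add d1' d2, REx_dz_sum _ _ _ d1]
  have t1 : ∀ b, dz v (fun q : (Fin (n + 1) → ℂ) × ℂ => (((1 - ‖q.1 b‖ ^ 2)⁻¹ : ℝ) : ℂ)) p =
      ((((1 - ‖p.1 b‖ ^ 2) ^ 2)⁻¹ : ℝ) : ℂ) * conj (p.1 b) * v.1 b := by
    intro b
    rw [REx_dz_phi (g := fun q : (Fin (n + 1) → ℂ) × ℂ => q.1 b) (x := p)
      (φ := fun u : ℝ => (1 - u)⁻¹) (REx_an_y b p).differentiableAt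
      (REx_phi1 (REx_y_lt hp b)), REx_fd_y]
  have t2 : dz v (fun q : (Fin (n + 1) → ℂ) × ℂ => ((‖q.2‖ ^ 2 : ℝ) : ℂ)) p =
      conj p.2 * v.2 := by
    rw [REx_dz_phi (g := fun q : (Fin (n + 1) → ℂ) × ℂ => q.2) (x := p)
      (φ := fun u : ℝ => u) (REx_an_s p).differentiableAt (hasDerivAt_id' _), REx_fd_s]
    simp
  have t3 : dz v (fun q : (Fin (n + 1) → ℂ) × ℂ =>
      (((‖MvPolynomial.eval q.1 S.h‖ ^ 2)⁻¹ : ℝ) : ℂ)) p =
      ((-((‖MvPolynomial.eval p.1 S.h‖ ^ 2) ^ 2)⁻¹ : ℝ) : ℂ) *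
        conj (MvPolynomial.eval p.1 S.h) *
        fderiv ℂ (fun q : (Fin (n + 1) → ℂ) × ℂ => MvPolynomial.eval q.1 S.h) p v :=
    REx_dz_phi (g := fun q : (Fin (n + 1) → ℂ) × ℂ => MvPolynomial.eval q.1 S.h) (x := p)
      (φ := fun u : ℝ => u⁻¹) (REx_an_h S.h p).differentiableAt (REx_phi2 (REx_h_pos hp)) v
  have t4 : dz v (fun q : (Fin (n + 1) → ℂ) × ℂ => (((‖q.2‖ ^ 2)⁻¹ : ℝ) : ℂ)) p =
      ((-((‖p.2‖ ^ 2) ^ 2)⁻¹ : ℝ) : ℂ) * conj p.2 * v.2 := by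
    rw [REx_dz_phi (g := fun q : (Fin (n + 1) → ℂ) × ℂ => q.2) (x := p)
      (φ := fun u : ℝ => u⁻¹) (REx_an_s p).differentiableAt (REx_phi2 (REx_s_pos hp)),
      REx_fd_s]
  simp only [t1, t2, t3, t4]

/-- `t ^ 3 ≤ ρ ^ 2` -/
private theorem REx_cube {t ρ : ℝ} (ht : 0 < t) (h1 : (t ^ 2)⁻¹ ≤ ρ) (h2 : 1 ≤ ρ) :
    ((t ^ 2) ^ 2)⁻¹ * t ≤ ρ ^ 2 := by
  have e : ((t ^ 2) ^ 2)⁻¹ * t = t⁻¹ ^ 3 := by
    field_simp
  rw [e]
  have hu : 0 < t⁻¹ := inv_pos.2 ht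
  have h3 : t⁻¹ ^ 2 ≤ ρ := by rwa [inv_pow]
  set u := t⁻¹
  have h4 : u ^ 4 ≤ ρ ^ 2 := by
    have : u ^ 4 = (u ^ 2) ^ 2 := by ring
    rw [this]
    exact pow_le_pow_left₀ (by positivity) h3 2
  nlinarith [sq_nonneg (u - u ^ 2), mul_nonneg (zero_le_one.trans h2) (sub_nonneg.2 h2)]

private theorem REx_grad (S : Sheets 𝒜 x k) :
    ∃ C : ℝ, ∀ p ∈ WW S, gradsq (bE n) (rhoE S) p ≤ C * rhoE S p ^ 4 := by
  obtain ⟨C, hC0, hC⟩ := REx_bdd S.h
  refine ⟨(n + 2) * (n + 3 + C) ^ 2, fun p hp => ?_⟩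
  obtain ⟨h1, h2, h3, h4, h5⟩ := REx_terms S hp
  have key : ∀ j, ‖dz (bE n j) (fun q => (rhoE S q : ℂ)) p‖ ≤ (n + 3 + C) * rhoE S p ^ 2 := by
    intro j
    have hv1 : ∀ b, ‖(bE n j).1 b‖ ≤ 1 := fun b =>
      (norm_le_pi_norm _ b).trans (REx_bE_norm j).1
    have hv2 := (REx_bE_norm (n := n) j).2
    have hρ2 : 0 ≤ rhoE S p ^ 2 := by positivity
    have a1 : ‖∑ b, ((((1 - ‖p.1 b‖ ^ 2) ^ 2)⁻¹ : ℝ) : ℂ) * conj (p.1 b) * (bE n j).1 b‖ ≤
        (n + 1) * rhoE S p ^ 2 := by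
      refine (norm_sum_le _ _).trans ?_
      have : ∀ b ∈ (Finset.univ : Finset (Fin (n + 1))),
          ‖((((1 - ‖p.1 b‖ ^ 2) ^ 2)⁻¹ : ℝ) : ℂ) * conj (p.1 b) * (bE n j).1 b‖ ≤
          rhoE S p ^ 2 := by
        intro b _
        have hb1 : 0 < 1 - ‖p.1 b‖ ^ 2 := by linarith [REx_y_lt hp b]
        have hb2 : ‖p.1 b‖ ≤ 1 := by nlinarith [norm_nonneg (p.1 b)]
        rw [norm_mul, norm_mul, Complex.norm_real, RCLike.norm_conj, Real.norm_eq_abs,
          abs_of_nonneg (by positivity)]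
        have hb3 : ((1 - ‖p.1 b‖ ^ 2) ^ 2)⁻¹ ≤ rhoE S p ^ 2 := by
          rw [← inv_pow]
          exact pow_le_pow_left₀ (by positivity) (h2 b) 2
        calc _ ≤ ((1 - ‖p.1 b‖ ^ 2) ^ 2)⁻¹ * 1 * 1 := by
              gcongr
              exact hv1 b
          _ ≤ rhoE S p ^ 2 := by linarith
      refine (Finset.sum_le_sum this).trans ?_
      simp
    have a2 : ‖conj p.2 * (bE n j).2‖ ≤ rhoE S p ^ 2 := by
      rw [norm_mul, RCLike.norm_conj]
      have b1 : ‖p.2‖ ≤ rhoE S p := by nlinarith [norm_nonneg p.2, sq_nonneg (‖p.2‖ - 1)]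
      calc _ ≤ ‖p.2‖ * 1 := by gcongr
        _ ≤ rhoE S p := by linarith
        _ ≤ rhoE S p ^ 2 := by nlinarith
    have a3 : ‖((-((‖MvPolynomial.eval p.1 S.h‖ ^ 2) ^ 2)⁻¹ : ℝ) : ℂ) *
        conj (MvPolynomial.eval p.1 S.h) *
        fderiv ℂ (fun q : (Fin (n + 1) → ℂ) × ℂ => MvPolynomial.eval q.1 S.h) p (bE n j)‖ ≤
        C * rhoE S p ^ 2 := by
      rw [norm_mul, norm_mul, Complex.norm_real, RCLike.norm_conj, Real.norm_eq_abs, abs_neg,
        abs_of_nonneg (by positivity)]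
      calc _ ≤ rhoE S p ^ 2 * C :=
            mul_le_mul (REx_cube (norm_pos_iff.2 hp.1.2) h4 h1) (hC p hp.1.1 j)
              (norm_nonneg _) hρ2
        _ = C * rhoE S p ^ 2 := by ring
    have a4 : ‖((-((‖p.2‖ ^ 2) ^ 2)⁻¹ : ℝ) : ℂ) * conj p.2 * (bE n j).2‖ ≤
        rhoE S p ^ 2 := by
      rw [norm_mul, norm_mul, Complex.norm_real, RCLike.norm_conj, Real.norm_eq_abs, abs_neg,
        abs_of_nonneg (by positivity)]
      calc _ ≤ rhoE S p ^ 2 * 1 :=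
            mul_le_mul (REx_cube (norm_pos_iff.2 hp.2) h5 h1) hv2 (norm_nonneg _) hρ2
        _ = rhoE S p ^ 2 := mul_one _
    rw [REx_dz_rho S hp]
    refine (norm_add_le _ _).trans ?_
    refine (add_le_add_left (norm_add_le _ _) _).trans ?_
    refine (add_le_add_left (add_le_add_left (norm_add_le _ _) _) _).trans ?_
    linarith
  unfold gradsq
  calc _ ≤ ∑ _j : Fin (n + 1) ⊕ Unit, ((n + 3 + C) * rhoE S p ^ 2) ^ 2 :=
        Finset.sum_le_sum fun j _ => pow_le_pow_left₀ (norm_nonneg _) (key j) 2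
    _ = (n + 2) * (n + 3 + C) ^ 2 * rhoE S p ^ 4 := by
        simp only [Finset.sum_const, Finset.card_univ, Fintype.card_sum, Fintype.card_fin,
          Fintype.card_unit, nsmul_eq_mul]
        push_cast
        ring

private theorem REx_levi (S : Sheets 𝒜 x k) {p : (Fin (n + 1) → ℂ) × ℂ} (hp : p ∈ WW S)
    (a : Fin (n + 1) ⊕ Unit → ℂ) : ∑ j, ‖a j‖ ^ 2 ≤ leviF (bE n) (rhoE S) p a := by
  have c1 : ∀ b, leviF (bE n) (fun q => (1 - ‖q.1 b‖ ^ 2)⁻¹) p a =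
      (2 * ((1 - ‖p.1 b‖ ^ 2) ^ 3)⁻¹ * ‖p.1 b‖ ^ 2 + ((1 - ‖p.1 b‖ ^ 2) ^ 2)⁻¹) *
        ‖a (Sum.inl b)‖ ^ 2 := by
    intro b
    have hb := REx_y_lt hp b
    rw [REx_levi_phi (bE n) (g := fun q : (Fin (n + 1) → ℂ) × ℂ => q.1 b)
      (φ := fun u : ℝ => (1 - u)⁻¹) (φ' := fun u : ℝ => ((1 - u) ^ 2)⁻¹) (REx_an_y b p)
      ((eventually_lt_nhds hb).mono fun t ht => REx_phi1 ht) (REx_phi1' hb)]
    congr 2
    simp only [REx_fd_y, Fintype.sum_sum_type, REx_bE_inl]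
    simp [REx_bE_inr, Pi.single_apply]
  have c2 : leviF (bE n) (fun q => ‖q.2‖ ^ 2) p a = ‖a (Sum.inr ())‖ ^ 2 := by
    rw [REx_levi_phi (bE n) (g := fun q : (Fin (n + 1) → ℂ) × ℂ => q.2)
      (φ := fun u : ℝ => u) (φ' := fun _ : ℝ => 1) (REx_an_s p)
      (Filter.Eventually.of_forall fun t => hasDerivAt_id' t) (hasDerivAt_const _ _)]
    simp [REx_fd_s, REx_bE_inl, REx_bE_inr]
  have c3 : 0 ≤ leviF (bE n) (fun q => (‖MvPolynomial.eval q.1 S.h‖ ^ 2)⁻¹) p a := by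
    have hb := REx_h_pos hp
    rw [REx_levi_phi (bE n) (g := fun q : (Fin (n + 1) → ℂ) × ℂ => MvPolynomial.eval q.1 S.h)
      (φ := fun u : ℝ => u⁻¹) (φ' := fun u : ℝ => -(u ^ 2)⁻¹) (REx_an_h S.h p)
      ((eventually_gt_nhds hb).mono fun t ht => REx_phi2 ht) (REx_phi2' hb)]
    refine mul_nonneg ?_ (by positivity)
    have e : 2 * ((‖MvPolynomial.eval p.1 S.h‖ ^ 2) ^ 3)⁻¹ * ‖MvPolynomial.eval p.1 S.h‖ ^ 2 +
        -((‖MvPolynomial.eval p.1 S.h‖ ^ 2) ^ 2)⁻¹ =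
        ((‖MvPolynomial.eval p.1 S.h‖ ^ 2) ^ 2)⁻¹ := by
      have := hb.ne'
      field_simp
      ring
    rw [e]
    positivity
  have c4 : 0 ≤ leviF (bE n) (fun q => (‖q.2‖ ^ 2)⁻¹) p a := by
    have hb := REx_s_pos hp
    rw [REx_levi_phi (bE n) (g := fun q : (Fin (n + 1) → ℂ) × ℂ => q.2)
      (φ := fun u : ℝ => u⁻¹) (φ' := fun u : ℝ => -(u ^ 2)⁻¹) (REx_an_s p)
      ((eventually_gt_nhds hb).mono fun t ht => REx_phi2 ht) (REx_phi2' hb)]
    refine mul_nonneg ?_ (by positivity)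
    have e : 2 * ((‖p.2‖ ^ 2) ^ 3)⁻¹ * ‖p.2‖ ^ 2 + -((‖p.2‖ ^ 2) ^ 2)⁻¹ =
        ((‖p.2‖ ^ 2) ^ 2)⁻¹ := by
      have := hb.ne'
      field_simp
      ring
    rw [e]
    positivity
  have s1 : ContDiffAt ℝ ∞ (fun q : (Fin (n + 1) → ℂ) × ℂ => ∑ b, (1 - ‖q.1 b‖ ^ 2)⁻¹) p :=
    ContDiffAt.sum fun b _ => REx_cd1 hp b
  have total : leviF (bE n) (rhoE S) p a =
      ((∑ b, leviF (bE n) (fun q => (1 - ‖q.1 b‖ ^ 2)⁻¹) p a) +
        leviF (bE n) (fun q => ‖q.2‖ ^ 2) p a +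
        leviF (bE n) (fun q => (‖MvPolynomial.eval q.1 S.h‖ ^ 2)⁻¹) p a) +
        leviF (bE n) (fun q => (‖q.2‖ ^ 2)⁻¹) p a := by
    rw [← REx_levi_sum (bE n) Finset.univ (fun b (q : (Fin (n + 1) → ℂ) × ℂ) =>
        (1 - ‖q.1 b‖ ^ 2)⁻¹) p (fun b => REx_cd1 hp b),
      ← REx_levi_add (bE n) _ _ p s1 (REx_cd2 p),
      ← REx_levi_add (bE n) _ _ p (s1.add (REx_cd2 p)) (REx_cd3 hp),
      ← REx_levi_add (bE n) _ _ p ((s1.add (REx_cd2 p)).add (REx_cd3 hp)) (REx_cd4 hp)]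
    rfl
  have c1' : ∀ b ∈ (Finset.univ : Finset (Fin (n + 1))), ‖a (Sum.inl b)‖ ^ 2 ≤
      leviF (bE n) (fun q => (1 - ‖q.1 b‖ ^ 2)⁻¹) p a := by
    intro b _
    rw [c1]
    have hb : 0 < 1 - ‖p.1 b‖ ^ 2 := by linarith [REx_y_lt hp b]
    have h6 : (1 : ℝ) ≤ ((1 - ‖p.1 b‖ ^ 2) ^ 2)⁻¹ := by
      rw [← inv_pow]
      exact one_le_pow₀ (REx_T1_ge hp b)
    have h7 : 0 ≤ 2 * ((1 - ‖p.1 b‖ ^ 2) ^ 3)⁻¹ * ‖p.1 b‖ ^ 2 := by positivity
    nlinarith [sq_nonneg ‖a (Sum.inl b)‖]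
  have hsum := Finset.sum_le_sum c1'
  rw [total, Fintype.sum_sum_type, c2]
  simp only [Finset.univ_unique, PUnit.default_eq_unit, Finset.sum_singleton]
  linarith

theorem exhaust_WW (S : Sheets 𝒜 x k) : Exhaust (WW S) (bE n) (rhoE S) where
  smooth := fun _ hp => (REx_smooth S hp).contDiffWithinAt
  one_le := fun _ hp => (REx_terms S hp).1
  compact := REx_compact S
  grad := REx_grad S
  levi := fun _ hp a => REx_levi S hp a

end Pool.Agent.Lib_KF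

end

/-! ### from `Lib_KF.RCurv` -/

section

/-! RS03: the curvature of a metric which is locally a sum of line bundle metrics in a
holomorphic frame. -/

open MeasureTheory Complex
open scoped ENNReal ContDiff ComplexConjugate

namespace Pool.Agent.Lib_KF

open GPn

section RCurvAux

open Filter Topology

variable {E : Type} [NormedAddCommGroup E] [NormedSpace ℂ E]

private lemma rcurv_dz_mul (v : E) {u w : E → ℂ} {x : E} (hu : DifferentiableAt ℝ u x)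
    (hw : DifferentiableAt ℝ w x) :
    dz v (fun y => u y * w y) x = dz v u x * w x + u x * dz v w x := by
  have h : fderiv ℝ (fun y => u y * w y) x = u x • fderiv ℝ w x + w x • fderiv ℝ u x :=
    fderiv_fun_mul hu hw
  simp only [dz, h, _root_.add_apply, _root_.smul_apply, smul_eq_mul]
  ring

private lemma rcurv_dzb_mul (v : E) {u w : E → ℂ} {x : E} (hu : DifferentiableAt ℝ u x)
    (hw : DifferentiableAt ℝ w x) :
    dzb v (fun y => u y * w y) x = dzb v u x * w x + u x * dzb v w x := by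
  have h : fderiv ℝ (fun y => u y * w y) x = u x • fderiv ℝ w x + w x • fderiv ℝ u x :=
    fderiv_fun_mul hu hw
  simp only [dzb, h, _root_.add_apply, _root_.smul_apply, smul_eq_mul]
  ring

private lemma rcurv_dz_sum {κ : Type} (s : Finset κ) (v : E) {u : κ → E → ℂ} {x : E}
    (hu : ∀ i ∈ s, DifferentiableAt ℝ (u i) x) :
    dz v (fun y => ∑ i ∈ s, u i y) x = ∑ i ∈ s, dz v (u i) x := by
  have h : fderiv ℝ (fun y => ∑ i ∈ s, u i y) x = ∑ i ∈ s, fderiv ℝ (u i) x :=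
    fderiv_fun_sum hu
  simp only [dz, h, ContinuousLinearMap.sum_apply, Finset.mul_sum]
  rw [← Finset.sum_sub_distrib, Finset.sum_div]

private lemma rcurv_dzb_sum {κ : Type} (s : Finset κ) (v : E) {u : κ → E → ℂ} {x : E}
    (hu : ∀ i ∈ s, DifferentiableAt ℝ (u i) x) :
    dzb v (fun y => ∑ i ∈ s, u i y) x = ∑ i ∈ s, dzb v (u i) x := by
  have h : fderiv ℝ (fun y => ∑ i ∈ s, u i y) x = ∑ i ∈ s, fderiv ℝ (u i) x :=
    fderiv_fun_sum hu
  simp only [dzb, h, ContinuousLinearMap.sum_apply, Finset.mul_sum]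
  rw [← Finset.sum_add_distrib, Finset.sum_div]

private lemma rcurv_dzb_sub (v : E) {u w : E → ℂ} {x : E} (hu : DifferentiableAt ℝ u x)
    (hw : DifferentiableAt ℝ w x) :
    dzb v (fun y => u y - w y) x = dzb v u x - dzb v w x := by
  have h : fderiv ℝ (fun y => u y - w y) x = fderiv ℝ u x - fderiv ℝ w x :=
    fderiv_fun_sub hu hw
  simp only [dzb, h, _root_.sub_apply]
  ring

private lemma rcurv_dz_congr (v : E) {u w : E → ℂ} {x : E} (h : u =ᶠ[𝓝 x] w) :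
    dz v u x = dz v w x := by
  simp only [dz, h.fderiv_eq]

private lemma rcurv_dzb_congr (v : E) {u w : E → ℂ} {x : E} (h : u =ᶠ[𝓝 x] w) :
    dzb v u x = dzb v w x := by
  simp only [dzb, h.fderiv_eq]

private lemma rcurv_fderiv_ofReal {r : E → ℝ} {x : E} (v : E) (hr : DifferentiableAt ℝ r x) :
    fderiv ℝ (fun y => (r y : ℂ)) x v = ((fderiv ℝ r x v : ℝ) : ℂ) := by
  have h : HasFDerivAt (fun y => (r y : ℂ)) (Complex.ofRealCLM.comp (fderiv ℝ r x)) x :=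
    Complex.ofRealCLM.hasFDerivAt.comp x hr.hasFDerivAt
  rw [h.fderiv]
  rfl

private lemma rcurv_dz_exp {Φ : E → ℝ} {y : E} (v : E) (hP : DifferentiableAt ℝ Φ y) :
    dz v (fun y => (Real.exp (-Φ y) : ℂ)) y
      = -((Real.exp (-Φ y) : ℂ) * dz v (fun y => (Φ y : ℂ)) y) := by
  have h : HasFDerivAt (fun y => Real.exp (-Φ y)) (Real.exp (-Φ y) • -fderiv ℝ Φ y) y :=
    hP.hasFDerivAt.neg.exp
  simp only [dz, rcurv_fderiv_ofReal _ h.differentiableAt, rcurv_fderiv_ofReal _ hP, h.fderiv,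
    _root_.smul_apply, _root_.neg_apply, smul_eq_mul, Complex.ofReal_mul, Complex.ofReal_neg]
  ring

private lemma rcurv_fderiv_I {F : E → ℂ} {x : E} (hF : DifferentiableAt ℂ F x) (v : E) :
    fderiv ℝ F x (I • v) = I * fderiv ℝ F x v := by
  rw [hF.fderiv_restrictScalars ℝ]
  change fderiv ℂ F x (I • v) = I * fderiv ℂ F x v
  rw [map_smul, smul_eq_mul]

private lemma rcurv_dzb_hol {F : E → ℂ} {x : E} (hF : DifferentiableAt ℂ F x) (v : E) :
    dzb v F x = 0 := by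
  simp only [dzb, rcurv_fderiv_I hF]
  rw [← mul_assoc, Complex.I_mul_I]
  ring

private lemma rcurv_dz_hol {F : E → ℂ} {x : E} (hF : DifferentiableAt ℂ F x) (v : E) :
    dz v F x = fderiv ℂ F x v := by
  have h1 : fderiv ℝ F x v = fderiv ℂ F x v := by
    rw [hF.fderiv_restrictScalars ℝ]
    rfl
  simp only [dz, rcurv_fderiv_I hF, h1]
  rw [← mul_assoc, Complex.I_mul_I]
  ring

private lemma rcurv_conj_diff {F : E → ℂ} {x : E} (hF : DifferentiableAt ℝ F x) :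
    HasFDerivAt (fun y => conj (F y))
      (Complex.conjCLE.toContinuousLinearMap.comp (fderiv ℝ F x)) x :=
  Complex.conjCLE.toContinuousLinearMap.hasFDerivAt.comp x hF.hasFDerivAt

private lemma rcurv_dz_conj {F : E → ℂ} {x : E} (hF : DifferentiableAt ℂ F x) (v : E) :
    dz v (fun y => conj (F y)) x = 0 := by
  have h1 := rcurv_conj_diff (hF.restrictScalars ℝ)
  have h2 : ∀ w, fderiv ℝ (fun y => conj (F y)) x w = conj (fderiv ℝ F x w) := by
    intro w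
    rw [h1.fderiv]
    simp
  simp only [dz, h2, rcurv_fderiv_I hF, map_mul, Complex.conj_I]
  rw [← mul_assoc, mul_neg, Complex.I_mul_I]
  ring

private lemma rcurv_dzb_dz_hol {F : E → ℂ} {x : E} (hF : AnalyticAt ℂ F x) (v w : E) :
    dzb w (dz v F) x = 0 := by
  have h1 : dz v F =ᶠ[𝓝 x] fun y => fderiv ℂ F y v := by
    filter_upwards [hF.eventually_analyticAt] with y hy
    exact rcurv_dz_hol hy.differentiableAt v
  rw [rcurv_dzb_congr w h1]
  refine rcurv_dzb_hol ?_ w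
  exact hF.fderiv.differentiableAt.clm_apply (differentiableAt_const v)

private lemma rcurv_diff_dz {F : E → ℂ} {x : E} (hF : ContDiffAt ℝ ∞ F x) (v : E) :
    DifferentiableAt ℝ (dz v F) x := by
  have h1 : DifferentiableAt ℝ (fderiv ℝ F) x :=
    (hF.fderiv_right (m := ∞) (by simp)).differentiableAt (by simp)
  have h2 : ∀ w, DifferentiableAt ℝ (fun y => fderiv ℝ F y w) x := fun w =>
    h1.clm_apply (differentiableAt_const w)
  have h3 : dz v F = fun y => (fderiv ℝ F y v - I * fderiv ℝ F y (I • v)) * (2 : ℂ)⁻¹ := by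
    funext y
    rw [dz, div_eq_mul_inv]
  rw [h3]
  exact ((h2 v).sub ((h2 (I • v)).const_mul I)).mul_const _

private lemma rcurv_ip {D : ℕ} (H : Fin D → Fin D → ℂ) (τ : Fin D → Fin D → ℂ) (w : Fin D → ℝ)
    (hH : ∀ a c, H a c = ∑ i, (w i : ℂ) * conj (τ i a) * τ i c) (u v : Fin D → ℂ) :
    ip H u v = ∑ i, (w i : ℂ) * ((∑ c, τ i c * u c) * conj (∑ a, τ i a * v a)) := by
  unfold ip
  simp only [hH, map_sum, map_mul, Finset.mul_sum, Finset.sum_mul]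
  rw [Finset.sum_congr rfl fun a _ => Finset.sum_comm, Finset.sum_comm]
  refine Finset.sum_congr rfl fun i _ => ?_
  refine Finset.sum_congr rfl fun a _ => ?_
  refine Finset.sum_congr rfl fun c _ => ?_
  ring

end RCurvAux

theorem HMet.curv_local {E : Type} [NormedAddCommGroup E] [NormedSpace ℂ E] {W : Set E}
    (hW : IsOpen W) {ι : Type} [Fintype ι] {b : Module.Basis ι ℂ E} {D : ℕ} (M : HMet W b D)
    (x₀ : E) (hx₀ : x₀ ∈ W) (τ : Fin D → Fin D → E → ℂ) (Φ : Fin D → E → ℝ)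
    (hτ : ∀ i a, AnalyticAt ℂ (τ i a) x₀) (hΦ : ∀ i, ContDiffAt ℝ ∞ (Φ i) x₀)
    (hH : ∀ᶠ x in nhds x₀, ∀ a c, M.H x a c =
      ∑ i, (Real.exp (-Φ i x) : ℂ) * conj (τ i a x) * τ i c x)
    (hinv : ∀ u : Fin D → ℂ, (∀ i, ∑ a, τ i a x₀ * u a = 0) → u = 0)
    (f : ι → Fin D → ℂ) :
    M.curv x₀ f = ∑ i, Real.exp (-Φ i x₀) * leviF b (Φ i) x₀ (fun j => ∑ a, τ i a x₀ * f j a) := by
  classical
  -- the matrix
  let T : E → Matrix (Fin D) (Fin D) ℂ := fun x => Matrix.of fun i a => τ i a x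
  have hdet0 : (T x₀).det ≠ 0 := by
    intro h0
    obtain ⟨u, hu, hu0⟩ := Matrix.exists_mulVec_eq_zero_iff.2 h0
    exact hu (hinv u fun i => congrFun hu0 i)
  have hdetc : ContinuousAt (fun x => (T x).det) x₀ := by
    have h1 : ContinuousAt T x₀ := by
      refine continuousAt_pi.2 fun i => continuousAt_pi.2 fun a => ?_
      exact (hτ i a).continuousAt
    exact ContinuousAt.comp (f := T) (g := Matrix.det)
      (continuous_id.matrix_det.continuousAt) h1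
  have hdet : ∀ᶠ x in nhds x₀, (T x).det ≠ 0 := hdetc.eventually_ne hdet0
  have hsolve : ∀ x, (T x).det ≠ 0 → ∀ z : Fin D → ℂ, (∀ a, ∑ i, conj (τ i a x) * z i = 0) →
      ∀ i, z i = 0 := by
    intro x hx z hz
    by_contra hne
    push Not at hne
    obtain ⟨i0, hi0⟩ := hne
    apply hx
    refine Matrix.exists_vecMul_eq_zero_iff.1 ⟨fun i => conj (z i), ?_, ?_⟩
    · intro h0
      have h1 : conj (z i0) = 0 := congrFun h0 i0
      exact hi0 ((map_eq_zero _).1 h1)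
    · funext a
      have h1 := congrArg conj (hz a)
      rw [map_sum, map_zero] at h1
      simp only [map_mul, Complex.conj_conj] at h1
      simp only [Matrix.vecMul, dotProduct, Pi.zero_apply, T, Matrix.of_apply]
      rw [← h1]
      exact Finset.sum_congr rfl fun i _ => mul_comm _ _
  -- the first order identity near x₀
  have hτe : ∀ᶠ x in nhds x₀, ∀ i a, AnalyticAt ℂ (τ i a) x :=
    Filter.eventually_all.2 fun i => Filter.eventually_all.2 fun a =>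
      (hτ i a).eventually_analyticAt
  have hΦe : ∀ᶠ x in nhds x₀, ∀ i, DifferentiableAt ℝ (Φ i) x := by
    refine Filter.eventually_all.2 fun i => ?_
    have h1 : ∀ᶠ x in nhds x₀, ContDiffAt ℝ 1 (Φ i) x :=
      ((hΦ i).of_le (m := 1) (by simp)).eventually (by simp)
    filter_upwards [h1] with x hx
    exact hx.differentiableAt (by simp)
  have hfirst : ∀ᶠ x in nhds x₀, ∀ k i c, ∑ e, τ i e x * M.A k x e c =
      dz (b k) (τ i c) x - dz (b k) (fun y => (Φ i y : ℂ)) x * τ i c x := by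
    filter_upwards [hτe, hΦe, hdet, hW.mem_nhds hx₀, hH.eventually_nhds] with x h1 h2 h3 h4 h5
    intro k i c
    have hd : ∀ i a, DifferentiableAt ℝ (τ i a) x := fun i a =>
      (h1 i a).differentiableAt.restrictScalars ℝ
    have hE : ∀ i, DifferentiableAt ℝ (fun y => (Real.exp (-Φ i y) : ℂ)) x := fun i =>
      Complex.ofRealCLM.differentiableAt.comp x ((h2 i).neg.exp)
    have hcj : ∀ i a, DifferentiableAt ℝ (fun y => conj (τ i a y)) x := fun i a =>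
      (rcurv_conj_diff (hd i a)).differentiableAt
    have hz := hsolve x h3 (fun i => (Real.exp (-Φ i x) : ℂ) *
      (dz (b k) (τ i c) x - dz (b k) (fun y => (Φ i y : ℂ)) x * τ i c x -
        ∑ e, τ i e x * M.A k x e c)) ?_ i
    · have h6 := (mul_eq_zero.1 hz).resolve_left
        (Complex.ofReal_ne_zero.2 (Real.exp_pos _).ne')
      exact (sub_eq_zero.1 h6).symm
    · intro a
      have h6 := M.chern k a c x h4
      have h7 : (fun y => M.H y a c) =ᶠ[nhds x] fun y =>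
          ∑ i, (Real.exp (-Φ i y) : ℂ) * conj (τ i a y) * τ i c y := by
        filter_upwards [h5] with y hy using hy a c
      have h8 : ∀ e, M.H x a e = ∑ i, (Real.exp (-Φ i x) : ℂ) * conj (τ i a x) * τ i e x :=
        fun e => h5.self_of_nhds a e
      rw [rcurv_dz_congr (b k) h7, rcurv_dz_sum Finset.univ (b k)
        (u := fun i y => (Real.exp (-Φ i y) : ℂ) * conj (τ i a y) * τ i c y)
        (fun i _ => ((hE i).mul (hcj i a)).mul (hd i c))] at h6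
      have h9 : ∀ i, dz (b k) (fun y => (Real.exp (-Φ i y) : ℂ) * conj (τ i a y) * τ i c y) x =
          conj (τ i a x) * ((Real.exp (-Φ i x) : ℂ) *
            (dz (b k) (τ i c) x - dz (b k) (fun y => (Φ i y : ℂ)) x * τ i c x)) := by
        intro i
        rw [rcurv_dz_mul (b k) (u := fun y => (Real.exp (-Φ i y) : ℂ) * conj (τ i a y))
            (w := τ i c) ((hE i).mul (hcj i a)) (hd i c),
          rcurv_dz_mul (b k) (hE i) (hcj i a), rcurv_dz_exp (b k) (h2 i),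
          rcurv_dz_conj (h1 i a).differentiableAt]
        ring
      simp only [h9, h8] at h6
      have h10 : ∑ e, (∑ i, (Real.exp (-Φ i x) : ℂ) * conj (τ i a x) * τ i e x) * M.A k x e c =
          ∑ i, conj (τ i a x) * ((Real.exp (-Φ i x) : ℂ) * ∑ e, τ i e x * M.A k x e c) := by
        simp only [Finset.sum_mul, Finset.mul_sum]
        rw [Finset.sum_comm]
        refine Finset.sum_congr rfl fun i _ => Finset.sum_congr rfl fun e _ => ?_
        ring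
      rw [h10] at h6
      rw [← sub_eq_zero, ← Finset.sum_sub_distrib] at h6
      rw [← h6]
      refine Finset.sum_congr rfl fun i _ => ?_
      ring
  -- the second order identity at x₀
  have hτd : ∀ i a, DifferentiableAt ℝ (τ i a) x₀ := fun i a =>
    (hτ i a).differentiableAt.restrictScalars ℝ
  have hAd : ∀ k e c, DifferentiableAt ℝ (fun x => M.A k x e c) x₀ := fun k e c =>
    ((M.smA k e c).contDiffAt (hW.mem_nhds hx₀)).differentiableAt (by simp)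
  have hsecond : ∀ j k i c, ∑ e, τ i e x₀ * dzb (b k) (fun y => M.A j y e c) x₀ =
      - (dzb (b k) (dz (b j) (fun y => (Φ i y : ℂ))) x₀ * τ i c x₀) := by
    intro j k i c
    have h1 : (fun x => ∑ e, τ i e x * M.A j x e c) =ᶠ[nhds x₀] fun x =>
        dz (b j) (τ i c) x - dz (b j) (fun y => (Φ i y : ℂ)) x * τ i c x := by
      filter_upwards [hfirst] with x hx using hx j i c
    have h2 := rcurv_dzb_congr (b k) h1
    have hτs : ContDiffAt ℝ ∞ (τ i c) x₀ :=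
      ((hτ i c).contDiffAt (n := ∞)).restrict_scalars ℝ
    have hΦs : ContDiffAt ℝ ∞ (fun y => (Φ i y : ℂ)) x₀ :=
      Complex.ofRealCLM.contDiff.contDiffAt.comp x₀ (hΦ i)
    rw [rcurv_dzb_sum Finset.univ (b k) (u := fun e x => τ i e x * M.A j x e c)
        (fun e _ => (hτd i e).mul (hAd j e c)),
      rcurv_dzb_sub (b k) (u := fun x => dz (b j) (τ i c) x)
        (w := fun x => dz (b j) (fun y => (Φ i y : ℂ)) x * τ i c x)
        (rcurv_diff_dz hτs (b j)) ((rcurv_diff_dz hΦs (b j)).mul (hτd i c)),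
      rcurv_dzb_mul (b k) (rcurv_diff_dz hΦs (b j)) (hτd i c),
      rcurv_dzb_hol (hτ i c).differentiableAt, rcurv_dzb_dz_hol (hτ i c)] at h2
    have h3 : ∀ e, dzb (b k) (fun y => τ i e y * M.A j y e c) x₀ =
        τ i e x₀ * dzb (b k) (fun y => M.A j y e c) x₀ := by
      intro e
      rw [rcurv_dzb_mul (b k) (hτd i e) (hAd j e c), rcurv_dzb_hol (hτ i e).differentiableAt,
        zero_mul, zero_add]
    simp only [h3] at h2
    rw [h2]
    ring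
  -- the hermitian form
  have hip : ∀ u v : Fin D → ℂ, ip (M.H x₀) u v = ∑ i, (Real.exp (-Φ i x₀) : ℂ) *
      ((∑ c, τ i c x₀ * u c) * conj (∑ a, τ i a x₀ * v a)) := by
    intro u v
    exact rcurv_ip (M.H x₀) (fun i a => τ i a x₀) (fun i => Real.exp (-Φ i x₀))
      (fun a c => hH.self_of_nhds a c) u v
  have hterm : ∀ j k, ip (M.H x₀) (fun a => - ∑ c, dzb (b k) (fun y => M.A j y a c) x₀ * f j c)
      (f k) = ∑ i, (Real.exp (-Φ i x₀) : ℂ) *
      (dzb (b k) (dz (b j) (fun y => (Φ i y : ℂ))) x₀ * (∑ a, τ i a x₀ * f j a) *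
        conj (∑ a, τ i a x₀ * f k a)) := by
    intro j k
    rw [hip]
    refine Finset.sum_congr rfl fun i _ => ?_
    congr 2
    have h1 : ∑ e, τ i e x₀ * (- ∑ c, dzb (b k) (fun y => M.A j y e c) x₀ * f j c) =
        - ∑ c, (∑ e, τ i e x₀ * dzb (b k) (fun y => M.A j y e c) x₀) * f j c := by
      simp only [mul_neg, Finset.mul_sum, Finset.sum_mul, Finset.sum_neg_distrib]
      rw [Finset.sum_comm]
      congr 1
      refine Finset.sum_congr rfl fun c _ => Finset.sum_congr rfl fun e _ => ?_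
      ring
    rw [h1]
    simp only [hsecond, Finset.mul_sum, ← Finset.sum_neg_distrib]
    refine Finset.sum_congr rfl fun c _ => ?_
    ring
  unfold HMet.curv
  simp only [hterm]
  unfold leviF
  have h1 : (∑ j, ∑ k, ∑ i, (Real.exp (-Φ i x₀) : ℂ) *
      (dzb (b k) (dz (b j) (fun y => (Φ i y : ℂ))) x₀ * (∑ a, τ i a x₀ * f j a) *
        conj (∑ a, τ i a x₀ * f k a))) = ∑ i, (Real.exp (-Φ i x₀) : ℂ) *
      ∑ j, ∑ k, dzb (b k) (dz (b j) (fun y => (Φ i y : ℂ))) x₀ * (∑ a, τ i a x₀ * f j a) *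
        conj (∑ a, τ i a x₀ * f k a) := by
    simp only [Finset.mul_sum]
    rw [Finset.sum_congr rfl fun j _ => Finset.sum_comm, Finset.sum_comm]
  rw [h1, Complex.re_sum]
  refine Finset.sum_congr rfl fun i _ => ?_
  rw [Complex.re_ofReal_mul]

/-- Consequence: a lower bound of the curvature. -/
theorem HMet.curv_ge {E : Type} [NormedAddCommGroup E] [NormedSpace ℂ E] {W : Set E}
    (hW : IsOpen W) {ι : Type} [Fintype ι] {b : Module.Basis ι ℂ E} {D : ℕ} (M : HMet W b D)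
    (x₀ : E) (hx₀ : x₀ ∈ W) (τ : Fin D → Fin D → E → ℂ) (Φ : Fin D → E → ℝ)
    (hτ : ∀ i a, AnalyticAt ℂ (τ i a) x₀) (hΦ : ∀ i, ContDiffAt ℝ ∞ (Φ i) x₀)
    (hH : ∀ᶠ x in nhds x₀, ∀ a c, M.H x a c =
      ∑ i, (Real.exp (-Φ i x) : ℂ) * conj (τ i a x) * τ i c x)
    (hinv : ∀ u : Fin D → ℂ, (∀ i, ∑ a, τ i a x₀ * u a = 0) → u = 0)
    (κ : ℝ) (k₀ : ι) (hlev : ∀ i, ∀ a : ι → ℂ, κ * ‖a k₀‖ ^ 2 ≤ leviF b (Φ i) x₀ a)
    (f : ι → Fin D → ℂ) : κ * M.nsq x₀ (f k₀) ≤ M.curv x₀ f := by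
  rw [M.curv_local hW x₀ hx₀ τ Φ hτ hΦ hH hinv f]
  have h1 : M.nsq x₀ (f k₀) = ∑ i, Real.exp (-Φ i x₀) * ‖∑ a, τ i a x₀ * f k₀ a‖ ^ 2 := by
    unfold HMet.nsq
    rw [rcurv_ip (M.H x₀) (fun i a => τ i a x₀) (fun i => Real.exp (-Φ i x₀))
      (fun a c => hH.self_of_nhds a c), Complex.re_sum]
    refine Finset.sum_congr rfl fun i _ => ?_
    rw [Complex.re_ofReal_mul, Complex.mul_conj, Complex.normSq_eq_norm_sq, Complex.ofReal_re]
  rw [h1, Finset.mul_sum]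
  refine Finset.sum_le_sum fun i _ => ?_
  have h2 := mul_le_mul_of_nonneg_left (hlev i (fun j => ∑ a, τ i a x₀ * f j a))
    (Real.exp_pos (-Φ i x₀)).le
  calc κ * (Real.exp (-Φ i x₀) * ‖∑ a, τ i a x₀ * f k₀ a‖ ^ 2)
      = Real.exp (-Φ i x₀) * (κ * ‖∑ a, τ i a x₀ * f k₀ a‖ ^ 2) := by ring
    _ ≤ _ := h2

end Pool.Agent.Lib_KF

end
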