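import Mathlib
import Pool.Agent.Lib_MP_e0d435_m.G03
import Pool.Agent.Lib_MP_e0d435_m.G04
import Pool.Agent.Lib_MP_e0d435_m.G07
import Pool.Agent.Lib_MP_e0d435_m.G10
import Pool.Agent.Lib_MP_e0d435_m.G12
import Pool.Agent.Lib_MP_e0d435_m.G13
import Pool.Agent.Lib_MP_e0d435_m.G14
import Pool.Agent.Lib_MP_e0d435_m.G15
import Pool.Agent.Lib_MP_e0d435_m.G16

/-!
# MP_e0d435_ag: merged library part G18

Concatenation of library files (each in its own section), only to save build time.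
-/

/-! ### from `Lib_GD.ProdRing` -/

section

/-! P02: the product valuation ring. -/

open PowerSeries

namespace Pool.Agent.Lib_GD

private theorem ProdRing_assoc {L : Type} [Field L] {f : L⟦X⟧} (hf : f ≠ 0) :
    Associated (X ^ f.order.toNat) f := by
  obtain ⟨u, hu⟩ := isUnit_divided_by_X_pow_order hf
  refine ⟨u, ?_⟩
  rw [hu, X_pow_order_mul_divXPowOrder]

private theorem ProdRing_dvd {L : Type} [Field L] {f g : L⟦X⟧} (h : f.order ≤ g.order) :
    f ∣ g := by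
  by_cases hg : g = 0
  · rw [hg]; exact dvd_zero f
  have hf : f ≠ 0 := by
    rintro rfl
    rw [order_zero, top_le_iff, order_eq_top] at h
    exact hg h
  refine ((ProdRing_assoc hf).symm.dvd).trans (dvd_trans ?_ (ProdRing_assoc hg).dvd)
  apply pow_dvd_pow
  rw [← coe_toNat_order hf, ← coe_toNat_order hg] at h
  exact_mod_cast h

/-- A domain with an injective divisibility-reflecting map to `L⟦X⟧` whose image contains an
element of order `1` is a discrete valuation ring whose valuation is the order. -/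
private theorem ProdRing_dvr {V : Type} [CommRing V] [IsDomain V] [Algebra ℂ V] {L : Type}
    [Field L] [Algebra ℂ L] (Φ : V →ₐ[ℂ] L⟦X⟧) (hinj : Function.Injective Φ)
    (hd : ∀ f g, Φ f ∣ Φ g → f ∣ g) (t : V) (ht : (Φ t).order = 1) :
    ∃ (_ : IsDiscreteValuationRing V),
      ∀ f, (Φ f).order = IsDiscreteValuationRing.addVal V f := by
  classical
  have hne : ∀ f : V, f ≠ 0 → Φ f ≠ 0 := fun f hf h => hf (hinj (by rw [h, map_zero]))
  have hle : ∀ f g : V, (Φ f).order ≤ (Φ g).order → f ∣ g := fun f g h => hd f g (ProdRing_dvd h)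
  have hunit : ∀ f : V, (Φ f).order = 0 → IsUnit f := fun f h =>
    isUnit_of_dvd_one (hle f 1 (by rw [h]; exact zero_le))
  have ht0 : t ≠ 0 := by
    rintro rfl
    rw [map_zero, order_zero] at ht
    exact absurd ht (ENat.top_ne_natCast 1)
  have htpow : ∀ q : ℕ, (Φ (t ^ q)).order = (q : ℕ∞) := by
    intro q
    rw [map_pow]
    induction q with
    | zero => simp
    | succ q ih => rw [pow_succ, order_mul, ih, ht]; push_cast; rfl
  -- factorisation
  have hfac : ∀ f : V, f ≠ 0 → ∃ (q : ℕ) (u : V), IsUnit u ∧ f = t ^ q * u ∧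
      (Φ f).order = (q : ℕ∞) := by
    intro f hf
    have hm := (coe_toNat_order (hne f hf)).symm
    generalize (Φ f).order.toNat = m at hm
    have h1 : t ^ m ∣ f := by
      apply hle
      rw [htpow, hm]
    obtain ⟨u, hu⟩ := h1
    have hu0 : u ≠ 0 := by rintro rfl; exact hf (by rw [hu, mul_zero])
    have hmu := (coe_toNat_order (hne u hu0)).symm
    generalize (Φ u).order.toNat = r at hmu
    have h2 : m = m + r := by
      have h3 := congrArg (fun z => (Φ z).order) hu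
      simp only [map_mul, order_mul] at h3
      rw [hm, hmu, htpow, ← Nat.cast_add] at h3
      exact_mod_cast h3
    have h7 : r = 0 := by omega
    subst h7
    exact ⟨m, u, hunit u (by rw [hmu]; rfl), hu, hm⟩
  have htirr : Irreducible t := by
    constructor
    · intro hu
      have h1 : IsUnit (Φ t) := hu.map Φ
      rw [order_zero_of_unit h1] at ht
      exact absurd ht (by norm_num)
    · intro a b hab
      have ha0 : a ≠ 0 := by rintro rfl; exact ht0 (by rw [hab, zero_mul])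
      have hb0 : b ≠ 0 := by rintro rfl; exact ht0 (by rw [hab, mul_zero])
      have ha := (coe_toNat_order (hne a ha0)).symm
      have hb := (coe_toNat_order (hne b hb0)).symm
      generalize (Φ a).order.toNat = ma at ha
      generalize (Φ b).order.toNat = mb at hb
      have h3 : 1 = ma + mb := by
        have h3 := congrArg (fun z => (Φ z).order) hab
        simp only [map_mul, order_mul] at h3
        rw [ht, ha, hb, ← Nat.cast_add] at h3
        exact_mod_cast h3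
      by_cases hma : ma = 0
      · left
        exact hunit a (by rw [ha, hma]; rfl)
      · right
        have : mb = 0 := by omega
        exact hunit b (by rw [hb, this]; rfl)
  have hdvr : IsDiscreteValuationRing V := by
    apply IsDiscreteValuationRing.ofHasUnitMulPowIrreducibleFactorization
    refine ⟨t, htirr, ?_⟩
    intro f hf
    obtain ⟨q, u, hu, hfu, -⟩ := hfac f hf
    exact ⟨q, hu.unit, hfu.symm⟩
  refine ⟨hdvr, ?_⟩
  intro f
  by_cases hf : f = 0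
  · rw [hf, map_zero, order_zero, IsDiscreteValuationRing.addVal_zero]
  obtain ⟨q, u, hu, hfu, hord⟩ := hfac f hf
  rw [hord, IsDiscreteValuationRing.addVal_def f hu.unit htirr q (by rw [hfu, mul_comm]; rfl)]

/-- P02: the valuation ring `V'` of the functions in the field generated by the images of the
`Φ_j` which have order at least `0`, as a subalgebra of `L⟦X⟧`. -/
theorem exists_product_ring {V L : Type} [CommRing V] [IsDomain V] [IsDiscreteValuationRing V]
    [Algebra ℂ V] [Field L] [Algebra ℂ L] {N : ℕ} (j₀ : Fin N)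
    (Φ : Fin N → (V →ₐ[ℂ] L⟦X⟧))
    (hΦ : ∀ j f, (Φ j f).order = IsDiscreteValuationRing.addVal V f) :
    ∃ (V' : Type) (_ : CommRing V') (_ : IsDomain V') (_ : IsDiscreteValuationRing V')
      (_ : Algebra ℂ V') (Ψ : V' →ₐ[ℂ] L⟦X⟧) (ψ : Fin N → (V →ₐ[ℂ] V')),
      Function.Injective Ψ ∧ (∀ j f, Ψ (ψ j f) = Φ j f) ∧
      (∀ f, (Ψ f).order = IsDiscreteValuationRing.addVal V' f) ∧
      ∀ f : V', ∃ b ∈ Algebra.adjoin ℂ (⋃ j, Set.range (ψ j)),
        ∃ b' ∈ Algebra.adjoin ℂ (⋃ j, Set.range (ψ j)), b' ≠ 0 ∧ f * b' = b := by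
  classical
  let W : Subalgebra ℂ L⟦X⟧ := Algebra.adjoin ℂ (⋃ j, Set.range (Φ j))
  have hW : ∀ j f, Φ j f ∈ W := fun j f =>
    Algebra.subset_adjoin (Set.mem_iUnion.2 ⟨j, f, rfl⟩)
  let V' : Subalgebra ℂ L⟦X⟧ :=
    { carrier := {g | ∃ b ∈ W, ∃ b' ∈ W, b' ≠ 0 ∧ g * b' = b}
      mul_mem' := by
        rintro g₁ g₂ ⟨b₁, hb₁, c₁, hc₁, hn₁, h₁⟩ ⟨b₂, hb₂, c₂, hc₂, hn₂, h₂⟩
        refine ⟨b₁ * b₂, W.mul_mem hb₁ hb₂, c₁ * c₂, W.mul_mem hc₁ hc₂, mul_ne_zero hn₁ hn₂, ?_⟩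
        rw [← h₁, ← h₂]; ring
      add_mem' := by
        rintro g₁ g₂ ⟨b₁, hb₁, c₁, hc₁, hn₁, h₁⟩ ⟨b₂, hb₂, c₂, hc₂, hn₂, h₂⟩
        refine ⟨b₁ * c₂ + b₂ * c₁, W.add_mem (W.mul_mem hb₁ hc₂) (W.mul_mem hb₂ hc₁), c₁ * c₂,
          W.mul_mem hc₁ hc₂, mul_ne_zero hn₁ hn₂, ?_⟩
        rw [← h₁, ← h₂]; ring
      algebraMap_mem' := fun r => ⟨algebraMap ℂ _ r, W.algebraMap_mem r, 1, W.one_mem,
        one_ne_zero, mul_one _⟩ }
  have hmem : ∀ g : L⟦X⟧, g ∈ V' ↔ ∃ b ∈ W, ∃ b' ∈ W, b' ≠ 0 ∧ g * b' = b := fun g => Iff.rfl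
  have hWV : ∀ g ∈ W, g ∈ V' := fun g hg =>
    (hmem g).2 ⟨g, hg, 1, W.one_mem, one_ne_zero, mul_one _⟩
  have hinj : Function.Injective V'.val := Subtype.val_injective
  have hdvd : ∀ f g : V', V'.val f ∣ V'.val g → f ∣ g := by
    intro f g ⟨c, hc⟩
    by_cases hf : f = 0
    · rw [hf, map_zero, zero_mul] at hc
      have : g = 0 := hinj (by rw [hc, map_zero])
      rw [this]; exact dvd_zero f
    by_cases hf' : (f : L⟦X⟧) = 0
    · exact absurd (Subtype.ext hf') hf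
    obtain ⟨b₁, hb₁, c₁, hc₁, hn₁, h₁⟩ := (hmem _).1 f.2
    obtain ⟨b₂, hb₂, c₂, hc₂, hn₂, h₂⟩ := (hmem _).1 g.2
    have hc' : (g : L⟦X⟧) = f * c := hc
    have hm : c ∈ V' := by
      rw [hmem]
      refine ⟨b₂ * c₁, W.mul_mem hb₂ hc₁, b₁ * c₂, W.mul_mem hb₁ hc₂, ?_, ?_⟩
      · refine mul_ne_zero ?_ hn₂
        rw [← h₁]
        exact mul_ne_zero hf' hn₁
      · rw [← h₁, ← h₂, hc']; ring
    exact ⟨⟨c, hm⟩, Subtype.ext hc'⟩
  obtain ⟨ϖ, hϖ⟩ := IsDiscreteValuationRing.exists_irreducible V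
  have hord : (Φ j₀ ϖ).order = 1 := by
    rw [hΦ, IsDiscreteValuationRing.addVal_uniformizer hϖ]
  obtain ⟨iV, hadd⟩ := ProdRing_dvr V'.val hinj hdvd ⟨Φ j₀ ϖ, hWV _ (hW _ _)⟩ hord
  let ψ : Fin N → (V →ₐ[ℂ] V') := fun j => (Φ j).codRestrict V' (fun f => hWV _ (hW _ _))
  refine ⟨V', inferInstance, inferInstance, iV, inferInstance, V'.val, ψ, hinj,
    fun j f => rfl, hadd, ?_⟩
  have hlift : ∀ b ∈ W, ∃ b' ∈ Algebra.adjoin ℂ (⋃ j, Set.range (ψ j)), V'.val b' = b := by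
    have hmap : (Algebra.adjoin ℂ (⋃ j, Set.range (ψ j))).map V'.val = W := by
      rw [AlgHom.map_adjoin, Set.image_iUnion]
      congr 1
      apply Set.iUnion_congr
      intro j
      rw [← Set.range_comp]
      rfl
    intro b hb
    rw [← hmap] at hb
    exact hb
  intro f
  obtain ⟨b, hb, c, hc, hn, h⟩ := (hmem _).1 f.2
  obtain ⟨b', hb', hbb⟩ := hlift b hb
  obtain ⟨c', hc', hcc⟩ := hlift c hc
  refine ⟨b', hb', c', hc', ?_, ?_⟩
  · rintro rfl
    apply hn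
    rw [← hcc, map_zero]
  · apply hinj
    rw [map_mul, hbb, hcc]
    exact h

end Pool.Agent.Lib_GD

end

/-! ### from `Lib_GD.Comb` -/

section

namespace Pool.Agent.Lib_GD

private theorem Comb_G_le {N : ℕ} (R : Ranks N) (B : ℕ) (S : Finset (Fin N)) :
    R.G B S ≤ B * N := by
  have h1 : R.G B S ≤ ∑ _b ∈ Finset.Icc 1 B, N := Finset.sum_le_sum fun b _ => R.r_le S b
  refine h1.trans (le_of_eq ?_)
  rw [Finset.sum_const, Nat.card_Icc, smul_eq_mul]
  congr 1

/-- M06 (combinatorial core). -/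
theorem comb (κ : ℝ) (hκ : 0 < κ) : ∃ (ξ : ℝ) (C₂ N₀ : ℕ), 0 < ξ ∧ 1 ≤ C₂ ∧ ∀ (N : ℕ), N₀ ≤ N →
    ∀ (P : Profile N) (R : Ranks N) (D a : ℕ) (θ σ : ℝ), 1 ≤ D → 1 ≤ a → 0 ≤ θ → 0 ≤ σ →
      P.HT D → P.HExp a θ → P.HEL R D a → P.HCL R D a C₂ σ ξ →
      (P.v : ℝ) ≤ θ * P.A + σ / N * P.A + κ * D * a * N := by
  obtain ⟨κ1, hκ1⟩ : ∃ κ1 : ℝ, κ1 = κ / 10 := ⟨_, rfl⟩
  have hκ1p : 0 < κ1 := by rw [hκ1]; positivity
  obtain ⟨ξ1, hξ1⟩ : ∃ ξ1 : ℝ, ξ1 = κ1 * κ1 := ⟨_, rfl⟩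
  have hξ1p : 0 < ξ1 := by rw [hξ1]; positivity
  obtain ⟨η5, hη5⟩ : ∃ η5 : ℝ, η5 = min (κ1 / 2) 1 := ⟨_, rfl⟩
  have hη5p : 0 < η5 := by rw [hη5]; exact lt_min (by positivity) one_pos
  have hη51 : η5 ≤ 1 := by rw [hη5]; exact min_le_right _ _
  have hη52 : η5 ≤ κ1 / 2 := by rw [hη5]; exact min_le_left _ _
  obtain ⟨r₀, hr₀⟩ := exists_partition ξ1 η5 κ1 hξ1p hη5p hη51 hκ1p
  obtain ⟨C, hC⟩ := exists_nat_ge ((r₀ : ℝ) / κ1)
  obtain ⟨M, hM⟩ := exists_nat_ge (3 * ((r₀ : ℝ) + 2) / κ1)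
  refine ⟨κ1, max C 1, max M 1, hκ1p, le_max_right _ _, ?_⟩
  intro N hN P R D a θ σ hD ha hθ hσ hT hExp hEL hCL
  have hN1 : 1 ≤ N := (le_max_right _ _).trans hN
  have hNr : (0 : ℝ) < N := by exact_mod_cast hN1
  have hMN : (M : ℝ) ≤ N := by exact_mod_cast (le_max_left _ _).trans hN
  have hDa : (0 : ℝ) ≤ D * a := by positivity
  obtain ⟨r, c, hr, hc0, hc⟩ := hr₀ N (fun S => (R.G (D * a) S : ℝ)) (D * a * N) (by
    intro S
    refine ⟨Nat.cast_nonneg _, ?_⟩
    have h1 : R.G (D * a) S ≤ D * a * N := Comb_G_le R _ _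
    exact_mod_cast h1) (by
    intro S S' hSS
    have h1 : R.G (D * a) S' ≤ R.G (D * a) S :=
      Finset.sum_le_sum fun b _ => R.anti S S' b hSS
    exact_mod_cast h1)
  have hE := energy_le hN1 P R D a hD ha θ κ1 ξ1 η5 hθ hκ1p hξ1p.le hη5p hT hExp hEL c (by
    intro τ hτ E' hE' hcard
    have h1 := (hc τ hτ).2 E' hE' hcard
    calc (R.G (D * a) E' : ℝ) ≤ R.G (D * a) (cls c τ) + ξ1 * (D * a * N) := h1
      _ = R.G (D * a) (cls c τ) + ξ1 * D * a * N := by ring)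
  have hCo := le_cost hN1 P R D a (max C 1) hD ha (le_max_right _ _) σ κ1 hσ hκ1p.le hCL c
  have hCo2 : (∑ τ ∈ Finset.univ.erase 0, ((cls c τ).card : ℝ) / N * R.G (D * a) (cls c τ)) ≤
      σ / N * P.A + (r * (D * a) + r / (max C 1 : ℕ) * (D * a * N)) + κ1 * (D * a * N) := by
    have h1 : (∑ τ ∈ Finset.univ.erase 0, ((cls c τ).card : ℝ) / N * R.G (D * a) (cls c τ)) =
        (∑ τ ∈ Finset.univ.erase 0, ((cls c τ).card : ℝ) * R.G (D * a) (cls c τ)) / N := by
      rw [Finset.sum_div]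
      refine Finset.sum_congr rfl fun τ _ => ?_
      ring
    rw [h1, div_le_iff₀ hNr]
    refine hCo.trans (le_of_eq ?_)
    field_simp
  -- the numerical bounds
  have hCr : (0 : ℝ) < ((max C 1 : ℕ) : ℝ) := by
    have : 1 ≤ max C 1 := le_max_right _ _
    exact_mod_cast this
  have hrr : (r : ℝ) ≤ r₀ := by exact_mod_cast hr
  have hb1 : (r : ℝ) / (max C 1 : ℕ) ≤ κ1 := by
    rw [div_le_iff₀ hCr]
    rw [div_le_iff₀ hκ1p] at hC
    have h1 : (C : ℝ) ≤ ((max C 1 : ℕ) : ℝ) := by exact_mod_cast le_max_left _ _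
    nlinarith
  have hb2 : 3 * ((r : ℝ) + 2) ≤ κ1 * N := by
    rw [div_le_iff₀ hκ1p] at hM
    nlinarith
  have hb3 : (r : ℝ) ≤ κ1 * N := by
    have : (0 : ℝ) ≤ r := Nat.cast_nonneg _
    linarith
  have hx1 : (r : ℝ) * (D * a) ≤ κ1 * (D * a * N) := by
    calc (r : ℝ) * (D * a) ≤ (κ1 * N) * (D * a) := mul_le_mul_of_nonneg_right hb3 hDa
      _ = _ := by ring
  have hx2 : (r : ℝ) / (max C 1 : ℕ) * (D * a * N) ≤ κ1 * (D * a * N) :=
    mul_le_mul_of_nonneg_right hb1 (by positivity)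
  have hx3 : 3 * ((r : ℝ) + 2) * D * a ≤ κ1 * (D * a * N) := by
    calc 3 * ((r : ℝ) + 2) * D * a = (3 * ((r : ℝ) + 2)) * (D * a) := by ring
      _ ≤ (κ1 * N) * (D * a) := mul_le_mul_of_nonneg_right hb2 hDa
      _ = _ := by ring
  have hx4 : ((cls c 0).card : ℝ) * D * a ≤ κ1 * (D * a * N) := by
    calc ((cls c 0).card : ℝ) * D * a = ((cls c 0).card : ℝ) * (D * a) := by ring
      _ ≤ (κ1 * N) * (D * a) := mul_le_mul_of_nonneg_right hc0 hDa
      _ = _ := by ring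
  have hx5 : (κ1 + ξ1 / κ1 + 2 * η5) * D * a * N ≤ 3 * κ1 * (D * a * N) := by
    have h1 : ξ1 / κ1 = κ1 := by
      rw [hξ1]
      field_simp
    rw [h1]
    calc (κ1 + κ1 + 2 * η5) * D * a * N = (κ1 + κ1 + 2 * η5) * (D * a * N) := by ring
      _ ≤ 3 * κ1 * (D * a * N) := mul_le_mul_of_nonneg_right (by linarith) (by positivity)
  have hk : κ * D * a * N = 10 * κ1 * (D * a * N) := by
    rw [hκ1]
    ring
  have hnn : (0 : ℝ) ≤ κ1 * (D * a * N) := by positivity
  rw [hk]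
  linarith

end Pool.Agent.Lib_GD

end

/-! ### from `Lib_KF.JLow` -/

section

/-! J02: lower bound of fibre integrals by an analytic family of arcs. -/

open MeasureTheory
open scoped ENNReal NNReal

namespace Pool.Agent.Lib_KF

open Pool.Agent.Lib_GD

/-- J02. Put `Θ(p)_b = (t₀ + p_0) ^ d pt s (p_1, …, p_n) (x_b)`. On closed balls of radius
`ρ₁ = ρ / 2` the analytic functions `pt s u (x_b)` are bounded and `pt s u (x_a)` is bounded below
(compactness). Choose `t₀` so small that `|Θ| < 1` for `|p_0| < δ ≤ t₀`, `δ` from J01c. For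
`s ≠ 0` the map `Θ` is injective on the polydisc: the ratios determine `u` (`Ch.inj`), then
`t ^ d` is determined. Change of variables
(`MeasureTheory.lintegral_image_eq_lintegral_abs_det_fderiv_mul`, real Jacobian
`|det| ^ 2 ≥ c₁' |s| ^ (2 κ)` by J01): the integral over the image of the polydisc of the function
`y ↦ ∑' ν : fib x y, w ν` is at least `c₁' |s| ^ (2 κ)` times the volume of the polydisc times
`b`, since the homomorphism `ν = t · pt s u` (CH10a, `exists_scale`) is a point of the fibre over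
`Θ(p)` (`x_b` has degree `d`) and one term of the sum. -/
theorem AnChart.lower_bound {R : Type} [CommRing R] [Algebra ℂ R] {𝒜 : ℕ → Submodule ℂ R}
    [GradedAlgebra 𝒜] {n r d : ℕ} {x : Fin (n + 1) → R} {G : R} (h : IsFano 𝒜 n r d x G)
    {M B : ℕ} {e : Fin M → Fin (B + 1) → R} {lam : Fin M → ℕ} {g κ : ℕ}
    (Ch : AnChart 𝒜 x G e lam g κ) :
    ∃ c₁ ρ₁ δ t₀ : ℝ, 0 < c₁ ∧ 0 < ρ₁ ∧ ρ₁ ≤ Ch.ρ ∧ ρ₁ ≤ 1 ∧ 0 < δ ∧ δ < t₀ ∧ t₀ ≤ 1 ∧
      ∀ s : ℂ, s ≠ 0 → ‖s‖ < ρ₁ → ∀ (w : (R →ₐ[ℂ] ℂ) → ℝ≥0∞) (b : ℝ≥0∞),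
        (∀ t : ℂ, ‖t - t₀‖ < δ → ∀ u, ‖u‖ < ρ₁ → ∀ ν : R →ₐ[ℂ] ℂ,
          (∀ j, ∀ f ∈ 𝒜 j, ν f = t ^ j * Ch.pt s u f) → b ≤ w ν) →
        ENNReal.ofReal (c₁ * ‖s‖ ^ (2 * κ)) * b ≤
          ∫⁻ y in Metric.ball (0 : Fin (n + 1) → ℂ) 1, ∑' ν : fib x y, w ν.1 := by
  have hρ := Ch.ρ_pos
  obtain ⟨ρ₁, hρ₁, hρ₁lt, hρ₁1⟩ : ∃ ρ₁ : ℝ, 0 < ρ₁ ∧ ρ₁ < Ch.ρ ∧ ρ₁ ≤ 1 :=
    ⟨min (Ch.ρ / 2) 1, lt_min (by linarith) one_pos,
      lt_of_le_of_lt (min_le_left _ _) (by linarith), min_le_right _ _⟩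
  -- bounds on a compact ball
  have hcomp : IsCompact (Metric.closedBall (0 : ℂ × (Fin n → ℂ)) ρ₁) :=
    isCompact_closedBall _ _
  have hcont : ∀ f, ContinuousOn (fun p : ℂ × (Fin n → ℂ) => Ch.pt p.1 p.2 f)
      (Metric.closedBall 0 ρ₁) := fun f =>
    (Ch.an f).continuousOn.mono (Metric.closedBall_subset_ball hρ₁lt)
  have hmem : ∀ (s : ℂ) (u : Fin n → ℂ), ‖s‖ < ρ₁ → ‖u‖ < ρ₁ →
      ((s, u) : ℂ × (Fin n → ℂ)) ∈ Metric.closedBall (0 : ℂ × (Fin n → ℂ)) ρ₁ := by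
    intro s u hs hu
    rw [mem_closedBall_zero_iff, Prod.norm_def]
    exact max_le hs.le hu.le
  choose Kb hKb using fun b : Fin (n + 1) =>
    hcomp.exists_bound_of_continuousOn (hcont (x b))
  obtain ⟨K, hK0, hK⟩ : ∃ K : ℝ, 0 ≤ K ∧ ∀ b, Kb b ≤ K :=
    ⟨∑ b, |Kb b|, Finset.sum_nonneg fun b _ => abs_nonneg _, fun b =>
      (le_abs_self _).trans (Finset.single_le_sum (f := fun b => |Kb b|)
        (fun b _ => abs_nonneg _) (Finset.mem_univ b))⟩
  obtain ⟨η, hη, hηle⟩ : ∃ η : ℝ, 0 < η ∧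
      ∀ p ∈ Metric.closedBall (0 : ℂ × (Fin n → ℂ)) ρ₁, η ≤ ‖Ch.pt p.1 p.2 (x Ch.a)‖ := by
    obtain ⟨p₀, hp₀, hmin⟩ := hcomp.exists_isMinOn
      ⟨0, Metric.mem_closedBall_self hρ₁.le⟩ (hcont (x Ch.a)).norm
    refine ⟨‖Ch.pt p₀.1 p₀.2 (x Ch.a)‖, ?_, fun p hp => hmin hp⟩
    rw [mem_closedBall_zero_iff, Prod.norm_def] at hp₀
    exact norm_pos_iff.2 (Ch.unit _ _ (lt_of_le_of_lt ((le_max_left _ _).trans hp₀) hρ₁lt)
      (lt_of_le_of_lt ((le_max_right _ _).trans hp₀) hρ₁lt))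
  -- the scaling
  obtain ⟨t₀, ht₀, ht₀1, ht₀K⟩ : ∃ t₀ : ℝ, 0 < t₀ ∧ 2 * t₀ ≤ 1 ∧ 2 * t₀ * K < 1 := by
    have h1 : 0 < K + 1 := by linarith
    refine ⟨1 / (2 * (K + 1)), by positivity, ?_, ?_⟩
    · have : 2 * (1 / (2 * (K + 1))) = 1 / (K + 1) := by field_simp
      rw [this, div_le_one h1]
      linarith
    · have : 2 * (1 / (2 * (K + 1))) * K = K / (K + 1) := by field_simp
      rw [this, div_lt_one h1]
      linarith
  obtain ⟨δ, hδ, hδt, hδinj⟩ := pow_inj_on_disc d h.d_pos t₀ ht₀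
  let U : Set (Fin (n + 1) → ℂ) := {p | ‖p 0‖ < δ ∧ ‖(fun l : Fin n => p l.succ)‖ < ρ₁}
  have hUo : IsOpen U := by
    have h1 : IsOpen {p : Fin (n + 1) → ℂ | ‖p 0‖ < δ} :=
      isOpen_lt (continuous_norm.comp (continuous_apply 0)) continuous_const
    have h2 : IsOpen {p : Fin (n + 1) → ℂ | ‖(fun l : Fin n => p l.succ)‖ < ρ₁} :=
      isOpen_lt (continuous_norm.comp (continuous_pi fun l => continuous_apply _))
        continuous_const
    exact h1.inter h2
  have hU0 : (0 : Fin (n + 1) → ℂ) ∈ U := by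
    refine ⟨?_, ?_⟩
    · simpa using hδ
    · have : (fun l : Fin n => (0 : Fin (n + 1) → ℂ) l.succ) = 0 := rfl
      rw [this, norm_zero]
      exact hρ₁
  have hUpos : 0 < volume U := hUo.measure_pos volume ⟨0, hU0⟩
  have hUfin : volume U < ⊤ := by
    have hsub : U ⊆ Metric.closedBall (0 : Fin (n + 1) → ℂ) (max δ ρ₁) := by
      rintro p ⟨hp1, hp2⟩
      rw [mem_closedBall_zero_iff, pi_norm_le_iff_of_nonneg (hδ.le.trans (le_max_left _ _))]
      intro i
      refine Fin.cases ?_ (fun l => ?_) i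
      · exact hp1.le.trans (le_max_left _ _)
      · exact ((norm_le_pi_norm (fun l : Fin n => p l.succ) l).trans hp2.le).trans
          (le_max_right _ _)
    exact (measure_mono hsub).trans_lt measure_closedBall_lt_top
  -- the constants
  let c₀ : ℝ := ((t₀ - δ) ^ (d * (n + 1) - 1) * η ^ (n + 1) * Ch.c) ^ 2
  have hc₀ : 0 < c₀ := by
    have h1 : 0 < t₀ - δ := by linarith
    have h2 := Ch.c_pos
    positivity
  refine ⟨c₀ * (volume U).toReal, ρ₁, δ, t₀,
    mul_pos hc₀ (ENNReal.toReal_pos hUpos.ne' hUfin.ne), hρ₁, hρ₁lt.le, hρ₁1, hδ, hδt,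
    by linarith, ?_⟩
  intro s hs0 hs w b hw
  have hsρ : ‖s‖ < Ch.ρ := hs.trans hρ₁lt
  let Θ : (Fin (n + 1) → ℂ) → (Fin (n + 1) → ℂ) := fun q => fun b : Fin (n + 1) =>
    ((t₀ : ℂ) + q 0) ^ d * Ch.pt s (fun l => q l.succ) (x b)
  -- differentiability in `u`
  have hdiff : ∀ (u : Fin n → ℂ), ‖u‖ < Ch.ρ → ∀ f,
      DifferentiableAt ℂ (fun u : Fin n → ℂ => Ch.pt s u f) u := by
    intro u hu f
    have hm : ((s, u) : ℂ × (Fin n → ℂ)) ∈ Metric.ball (0 : ℂ × (Fin n → ℂ)) Ch.ρ := by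
      rw [mem_ball_zero_iff, Prod.norm_def]
      exact max_lt hsρ hu
    have h1 : DifferentiableAt ℂ (fun p : ℂ × (Fin n → ℂ) => Ch.pt p.1 p.2 f) (s, u) :=
      (Ch.an f (s, u) hm).differentiableAt
    have h2 : DifferentiableAt ℂ (fun u : Fin n → ℂ => ((s, u) : ℂ × (Fin n → ℂ))) u :=
      (differentiableAt_const s).prodMk differentiableAt_id
    exact h1.comp u h2
  have hUρ : ∀ p ∈ U, ‖(fun l : Fin n => p l.succ)‖ < Ch.ρ := fun p hp => hp.2.trans hρ₁lt
  have hne : ∀ p ∈ U, Ch.pt s (fun l => p l.succ) (x Ch.a) ≠ 0 := fun p hp =>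
    Ch.unit _ _ hsρ (hUρ p hp)
  choose! f hf hfdet using fun (p : Fin (n + 1) → ℂ) (hp : p ∈ U) =>
    exists_jac h.d_pos (fun b u => Ch.pt s u (x b)) Ch.a (t₀ : ℂ) p
      (fun b => hdiff _ (hUρ p hp) (x b)) (hne p hp)
  have hder : ∀ p ∈ U, HasFDerivWithinAt Θ ((f p).restrictScalars ℝ) U p := fun p hp =>
    ((hf p hp).restrictScalars ℝ).hasFDerivWithinAt
  -- lower bound of the Jacobian
  have hjac : ∀ p ∈ U, c₀ * ‖s‖ ^ (2 * κ) ≤ |((f p).restrictScalars ℝ).det| := by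
    intro p hp
    rw [abs_det_restrictScalars, hfdet p hp]
    have h1 : (1 : ℝ) ≤ d := by exact_mod_cast h.d_pos
    have h2 : t₀ - δ ≤ ‖(t₀ : ℂ) + p 0‖ := by
      have h3 : ‖(t₀ : ℂ)‖ ≤ ‖(t₀ : ℂ) + p 0‖ + ‖p 0‖ := by
        calc ‖(t₀ : ℂ)‖ = ‖((t₀ : ℂ) + p 0) - p 0‖ := by rw [add_sub_cancel_right]
          _ ≤ _ := norm_sub_le _ _
      have h4 : ‖(t₀ : ℂ)‖ = t₀ := by
        rw [Complex.norm_real, Real.norm_of_nonneg ht₀.le]
      have h5 := hp.1
      linarith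
    have h3 : η ≤ ‖Ch.pt s (fun l => p l.succ) (x Ch.a)‖ :=
      hηle (s, fun l => p l.succ) (hmem s _ hs hp.2)
    have h4 := Ch.jac s (fun l => p l.succ) hsρ (hUρ p hp)
    have h5 : 0 < t₀ - δ := by linarith
    have h6 : (t₀ - δ) ^ (d * (n + 1) - 1) * η ^ (n + 1) * (Ch.c * ‖s‖ ^ κ) ≤
        d * ‖(t₀ : ℂ) + p 0‖ ^ (d * (n + 1) - 1) *
          ‖Ch.pt s (fun l => p l.succ) (x Ch.a)‖ ^ (n + 1) *
          ‖Matrix.det (Matrix.of fun (b l : Fin n) =>
            fderiv ℂ (fun u : Fin n → ℂ => Ch.pt s u (x (Ch.a.succAbove b)) /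
              Ch.pt s u (x Ch.a)) (fun l => p l.succ) (Pi.single l 1))‖ := by
      refine mul_le_mul ?_ h4 (mul_nonneg Ch.c_pos.le (by positivity)) (by positivity)
      refine mul_le_mul ?_ (pow_le_pow_left₀ hη.le h3 _) (by positivity) (by positivity)
      calc (t₀ - δ) ^ (d * (n + 1) - 1) ≤ ‖(t₀ : ℂ) + p 0‖ ^ (d * (n + 1) - 1) :=
            pow_le_pow_left₀ h5.le h2 _
        _ ≤ d * ‖(t₀ : ℂ) + p 0‖ ^ (d * (n + 1) - 1) :=
            le_mul_of_one_le_left (by positivity) h1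
    have h7 : c₀ * ‖s‖ ^ (2 * κ) =
        ((t₀ - δ) ^ (d * (n + 1) - 1) * η ^ (n + 1) * (Ch.c * ‖s‖ ^ κ)) ^ 2 := by
      simp only [c₀]
      rw [pow_mul']
      ring
    rw [h7]
    refine pow_le_pow_left₀ ?_ h6 2
    exact mul_nonneg (by positivity) (mul_nonneg Ch.c_pos.le (by positivity))
  -- injectivity
  have hinj : Set.InjOn Θ U := by
    intro p hp p' hp' heq
    have heqb : ∀ b, ((t₀ : ℂ) + p 0) ^ d * Ch.pt s (fun l => p l.succ) (x b) =
        ((t₀ : ℂ) + p' 0) ^ d * Ch.pt s (fun l => p' l.succ) (x b) := fun b => congrFun heq b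
    have hnz : ∀ p ∈ U, ((t₀ : ℂ) + p 0) ^ d ≠ 0 := by
      intro p hp
      refine pow_ne_zero _ fun h0 => ?_
      have h1 : p 0 = -(t₀ : ℂ) := by linear_combination h0
      have h2 := hp.1
      rw [h1, norm_neg, Complex.norm_real, Real.norm_of_nonneg ht₀.le] at h2
      linarith
    have ha := heqb Ch.a
    have hu : (fun l : Fin n => p l.succ) = fun l : Fin n => p' l.succ := by
      refine Ch.inj s _ _ hs0 hsρ (hUρ p hp) (hUρ p' hp') fun b => ?_
      rw [div_eq_div_iff (hne p hp) (hne p' hp')]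
      have hb := heqb (Ch.a.succAbove b)
      have h1 := hnz p hp
      have h2 := hnz p' hp'
      apply mul_left_cancel₀ (mul_ne_zero h1 h2)
      calc ((t₀ : ℂ) + p 0) ^ d * ((t₀ : ℂ) + p' 0) ^ d *
            (Ch.pt s (fun l => p l.succ) (x (Ch.a.succAbove b)) *
              Ch.pt s (fun l => p' l.succ) (x Ch.a))
          = (((t₀ : ℂ) + p 0) ^ d * Ch.pt s (fun l => p l.succ) (x (Ch.a.succAbove b))) *
            (((t₀ : ℂ) + p' 0) ^ d * Ch.pt s (fun l => p' l.succ) (x Ch.a)) := by ring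
        _ = (((t₀ : ℂ) + p' 0) ^ d * Ch.pt s (fun l => p' l.succ) (x (Ch.a.succAbove b))) *
            (((t₀ : ℂ) + p 0) ^ d * Ch.pt s (fun l => p l.succ) (x Ch.a)) := by rw [hb, ha]
        _ = _ := by ring
    have ht : (t₀ : ℂ) + p 0 = (t₀ : ℂ) + p' 0 := by
      refine hδinj _ _ ?_ ?_ ?_
      · rw [add_sub_cancel_left]; exact hp.1
      · rw [add_sub_cancel_left]; exact hp'.1
      · rw [← hu] at ha
        exact mul_right_cancel₀ (hne p hp) ha
    funext i
    refine Fin.cases ?_ (fun l => ?_) i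
    · exact add_left_cancel ht
    · exact congrFun hu l
  -- the image is in the unit polydisc
  have himg : Θ '' U ⊆ Metric.ball (0 : Fin (n + 1) → ℂ) 1 := by
    rintro _ ⟨p, hp, rfl⟩
    rw [mem_ball_zero_iff, pi_norm_lt_iff one_pos]
    intro b
    change ‖((t₀ : ℂ) + p 0) ^ d * Ch.pt s (fun l => p l.succ) (x b)‖ < 1
    rw [norm_mul, norm_pow]
    have h1 : ‖(t₀ : ℂ) + p 0‖ ≤ 2 * t₀ := by
      refine (norm_add_le _ _).trans ?_
      rw [Complex.norm_real, Real.norm_of_nonneg ht₀.le]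
      have := hp.1
      linarith
    have h2 : ‖(t₀ : ℂ) + p 0‖ ^ d ≤ 2 * t₀ :=
      (pow_le_of_le_one (norm_nonneg _) (h1.trans ht₀1) (by have := h.d_pos; omega)).trans h1
    have h3 : ‖Ch.pt s (fun l => p l.succ) (x b)‖ ≤ K :=
      (hKb b (s, fun l => p l.succ) (hmem s _ hs hp.2)).trans (hK b)
    calc ‖(t₀ : ℂ) + p 0‖ ^ d * ‖Ch.pt s (fun l => p l.succ) (x b)‖ ≤ 2 * t₀ * K :=
          mul_le_mul h2 h3 (norm_nonneg _) (by positivity)
      _ < 1 := ht₀K
  -- the integrand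
  have hF : ∀ p ∈ U, b ≤ ∑' ν : fib x (Θ p), w ν.1 := by
    intro p hp
    obtain ⟨ν, hν⟩ := exists_scale (𝒜 := 𝒜) (Ch.pt s (fun l => p l.succ)) ((t₀ : ℂ) + p 0)
    have hνf : ν ∈ fib x (Θ p) := fun b => hν d (x b) (h.x_mem b)
    have h1 : b ≤ w ν := by
      refine hw ((t₀ : ℂ) + p 0) ?_ (fun l => p l.succ) hp.2 ν hν
      rw [add_sub_cancel_left]; exact hp.1
    exact h1.trans (ENNReal.le_tsum (f := fun ν : fib x (Θ p) => w ν.1) ⟨ν, hνf⟩)
  have hS : 0 ≤ c₀ * ‖s‖ ^ (2 * κ) := by positivity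
  calc ENNReal.ofReal (c₀ * (volume U).toReal * ‖s‖ ^ (2 * κ)) * b
      = (ENNReal.ofReal (c₀ * ‖s‖ ^ (2 * κ)) * b) * volume U := by
        rw [mul_right_comm c₀, ENNReal.ofReal_mul hS, ENNReal.ofReal_toReal hUfin.ne]
        ring
    _ = ∫⁻ _ in U, (ENNReal.ofReal (c₀ * ‖s‖ ^ (2 * κ)) * b) := by
        rw [setLIntegral_const]
    _ ≤ ∫⁻ p in U, ENNReal.ofReal |((f p).restrictScalars ℝ).det| *
          (fun y => ∑' ν : fib x y, w ν.1) (Θ p) := by
        refine setLIntegral_mono' hUo.measurableSet fun p hp => ?_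
        exact mul_le_mul' (ENNReal.ofReal_le_ofReal (hjac p hp)) (hF p hp)
    _ = ∫⁻ y in Θ '' U, ∑' ν : fib x y, w ν.1 := by
        rw [lintegral_image_eq_lintegral_abs_det_fderiv_mul volume hUo.measurableSet hder hinj]
    _ ≤ ∫⁻ y in Metric.ball (0 : Fin (n + 1) → ℂ) 1, ∑' ν : fib x y, w ν.1 :=
        lintegral_mono_set himg

end Pool.Agent.Lib_KF

end

/-! ### from `Lib_MP_e0d435_kv.Conj` -/

section

/-! V12: the choice of a conjugate. -/

namespace Pool.Agent.Lib_MP_e0d435_kv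

/-- The non-zero coefficients of finitely many polynomials as a finite family. -/
private theorem conj_family {k : ℕ} (Q : ℕ → Polynomial (Pol k)) (T : ℕ) :
    ∃ (J : ℕ) (g : Fin J → Pol k), (∀ j, g j ≠ 0) ∧
      ∀ t < T, ∀ l, (Q t).coeff l ≠ 0 → ∃ j, g j = (Q t).coeff l := by
  classical
  set S : Finset (Pol k) := (Finset.range T).biUnion fun t => (Q t).support.image (Q t).coeff
    with hS
  refine ⟨S.card, fun j => (S.equivFin.symm j : Pol k), ?_, ?_⟩
  · intro j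
    have h : ∀ p ∈ S, p ≠ 0 := by
      intro p hp
      rw [hS, Finset.mem_biUnion] at hp
      obtain ⟨t, -, ht⟩ := hp
      obtain ⟨l, hl, hl2⟩ := Finset.mem_image.1 ht
      rw [← hl2]
      exact Polynomial.mem_support_iff.1 hl
    exact h _ (S.equivFin.symm j).2
  · intro t ht l hl
    have h : (Q t).coeff l ∈ S := Finset.mem_biUnion.2 ⟨t, Finset.mem_range.2 ht,
      Finset.mem_image.2 ⟨l, Polynomial.mem_support_iff.2 hl, rfl⟩⟩
    exact ⟨S.equivFin ⟨_, h⟩, by simp⟩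

private theorem conj_numbers (C η : ℝ) (hC : 0 < C) (hη : 0 < η) (M : ℕ) (hM : 1 ≤ M) :
    ∃ η' ε₀ : ℝ, 0 < η' ∧ 0 < ε₀ ∧ ε₀ < 1 ∧ ∀ ε, 0 < ε → ε < ε₀ →
      C * (2 * η' + Real.log M / |Real.log ε|) ≤ η := by
  have hlM : 0 ≤ Real.log M := Real.log_nonneg (by exact_mod_cast hM)
  set L : ℝ := 2 * C * Real.log M / η + 1 with hL
  have hL0 : 0 < L := by positivity
  refine ⟨η / (4 * C), Real.exp (-L), by positivity, Real.exp_pos _, ?_, ?_⟩
  · rw [Real.exp_lt_one_iff]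
    linarith
  · intro ε hε hε2
    have h1 : Real.log ε < -L := by
      have := Real.log_lt_log hε hε2
      rwa [Real.log_exp] at this
    have h2 : L < |Real.log ε| := by
      rw [abs_of_neg (by linarith)]
      linarith
    have h3 : Real.log M / |Real.log ε| ≤ η / (2 * C) := by
      rw [div_le_div_iff₀ (by linarith) (by positivity)]
      have h4 : 2 * C * Real.log M ≤ η * L := by
        rw [hL]
        field_simp
        nlinarith
      have h5 : η * L ≤ η * |Real.log ε| := mul_le_mul_of_nonneg_left h2.le hη.le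
      nlinarith
    have h4 : C * (2 * (η / (4 * C)) + η / (2 * C)) = η := by
      field_simp
      ring
    calc C * (2 * (η / (4 * C)) + Real.log M / |Real.log ε|)
        ≤ C * (2 * (η / (4 * C)) + η / (2 * C)) := by gcongr
      _ = η := h4

/-- Let `N` be a finite Galois extension of the field of rational functions and `z` a finite family
of non-zero elements. If the orders of finitely many polynomials `g j` at `x` agree with the
`ε`-logarithms of their values at `y`, then `ℂ(X) → Λ.M` extends to `N` so that the orders of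
the `z i` agree with the `ε`-logarithms of their values `ζ i` at `y`.

Proof. `n = card Gal`, `T, C` of V10 (we may take `T ≥ 2`); for `t < T` let
`Z_t = ∏ z_i ^ (t ^ i)` and let `Q_t`, with coefficients in `Pol k`, be a non-zero constant times
the minimal polynomial of `Z_t` over `Rat k` (V12a, `exists_minpol`). `g` = the non-zero coefficients
of all `Q_t`, `t < T`. (`ζ i ≠ 0`: the constant coefficient `a_0` of `Q_1` is not `0`
(`Z_1 ≠ 0`), and `a_0(y) ≠ 0`, and `Q_1(y, ∏ ζ_i) = 0` since `(y, ζ)` is a specialisation.)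
Let `ι`, `e`, `ψ₀` be given by V06 for `φ : Rat k → Λ.M`, `X ↦ x` (`x` algebraically independent).
For each `t < T`: the relation `Q_t(y, ∏ ζ_i ^ (t ^ i)) = 0` and V11 give a near tie for the
numbers `lg ε (a_l (y)) + l τ_t`, `τ_t = ∑ t ^ i lg ε (ζ i)`; multiplied by `q e` and with
`|ord (ι a_l(x)) - q e lg ε (a_l(y))| ≤ q e η'` this is a near tie for the orders with
`δ = q e (2 η' + log (degree + 1) / |log ε|)`, and `conj_near` gives `σ_t` with
`|∑ t ^ i (ord (ψ₀ (σ_t z_i)) - q e lg ε (ζ i))| ≤ δ`. V10 gives one `σ`;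
`ψ = ψ₀ ∘ σ`. Choose `η'` and `ε₀` such that `C (2 η' + log (…) / |log ε₀|) ≤ η`. -/
theorem conj_select {k P : ℕ} (N : Type) [Field N] [Algebra (Rat k) N]
    [FiniteDimensional (Rat k) N] [IsGalois (Rat k) N] (z : Fin P → N) (hz : ∀ i, z i ≠ 0)
    (η : ℝ) (hη : 0 < η) :
    ∃ (J : ℕ) (g : Fin J → Pol k) (η' ε₀ : ℝ), (∀ j, g j ≠ 0) ∧ 0 < η' ∧ 0 < ε₀ ∧ ε₀ < 1 ∧
      ∀ ε, 0 < ε → ε < ε₀ → ∀ (y : Fin k → ℂ) (ζ : Fin P → ℂ),
      (∀ j, MvPolynomial.eval y (g j) ≠ 0) → Specialises (toN k N) z y ζ →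
      (∀ i, ζ i ≠ 0) ∧ ∀ (Λ : LDF k) (x : Fin k → Λ.M) (q : ℝ), 0 < q →
      AlgebraicIndependent ℂ x →
      (∀ j, Approx q ε η' (ordZ Λ.w (MvPolynomial.aeval x (g j))) (MvPolynomial.eval y (g j))) →
      ∃ (Λ' : LDF k) (ι : Λ.M →ₐ[ℂ] Λ'.M) (e : ℕ) (ψ : N →+* Λ'.M), 1 ≤ e ∧
        (∀ f, Λ'.w (ι f) = e • Λ.w f) ∧ (∀ i f, Λ'.d i (ι f) = ι (Λ.d i f)) ∧
        (∀ p : Pol k, ψ (toN k N p) = ι (MvPolynomial.aeval x p)) ∧
        ∀ i, Approx (q * e) ε η (ordZ Λ'.w (ψ (z i))) (ζ i) := by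
  classical
  obtain ⟨T, C, hT, hC, hvand⟩ := vand_select P (Fintype.card (N ≃ₐ[Rat k] N))
  have hZ : ∀ t : ℕ, (∏ i : Fin P, z i ^ (t ^ (i : ℕ))) ≠ 0 := fun t =>
    Finset.prod_ne_zero_iff.2 fun i _ => pow_ne_zero _ (hz i)
  have hmin := fun t : ℕ => exists_minpol (k := k) N (∏ i : Fin P, z i ^ (t ^ (i : ℕ))) (hZ t)
  choose Q c hc hQ hQ0 hQN using hmin
  obtain ⟨J, g, hg0, hg⟩ := conj_family Q (max T 2)
  obtain ⟨M, hM1, hM⟩ : ∃ M : ℕ, 1 ≤ M ∧ ∀ t < T, (Q t).support.card ≤ M := by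
    refine ⟨(Finset.range T).sup (fun t => (Q t).support.card) + 1, by omega, fun t ht => ?_⟩
    have := Finset.le_sup (f := fun t => (Q t).support.card) (Finset.mem_range.2 ht)
    omega
  obtain ⟨η', ε₀, hη', hε₀, hε₀1, hnum⟩ := conj_numbers C η hC hη M hM1
  refine ⟨J, g, η', ε₀, hg0, hη', hε₀, hε₀1, ?_⟩
  intro ε hε hεε y ζ hy hsp
  have hε1 : ε < 1 := hεε.trans hε₀1
  have hyQ : ∀ t < max T 2, ∀ l, (Q t).coeff l ≠ 0 → MvPolynomial.eval y ((Q t).coeff l) ≠ 0 := by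
    intro t ht l hl
    obtain ⟨j, hj⟩ := hg t ht l hl
    rw [← hj]
    exact hy j
  have hrel : ∀ t : ℕ, ∑ j ∈ (Q t).support, MvPolynomial.eval y ((Q t).coeff j) *
      (∏ i, ζ i ^ (t ^ (i : ℕ))) ^ j = 0 := fun t =>
    hsp.minpol (fun i => t ^ (i : ℕ)) (Q t) (hQN t)
  have hζ : ∀ i, ζ i ≠ 0 := by
    intro i hi
    have h1 := hrel 1
    have h2 : ∏ i, ζ i ^ (1 ^ (i : ℕ)) = 0 := by
      refine Finset.prod_eq_zero (Finset.mem_univ i) ?_
      rw [hi, one_pow, pow_one]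
    rw [h2, Finset.sum_eq_single 0] at h1
    · rw [pow_zero, mul_one] at h1
      exact hyQ 1 (by omega) 0 (hQ0 1) h1
    · intro j _ hj
      rw [zero_pow hj, mul_zero]
    · intro h3
      exact absurd (Polynomial.mem_support_iff.2 (hQ0 1)) h3
  refine ⟨hζ, ?_⟩
  intro Λ x q hq hx happ
  have hinj : Function.Injective (MvPolynomial.aeval x : Pol k →ₐ[ℂ] Λ.M) := hx
  have hinj' : Function.Injective ((MvPolynomial.aeval x : Pol k →ₐ[ℂ] Λ.M) : Pol k →+* Λ.M) := hx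
  set φ : Rat k →+* Λ.M := IsFractionRing.lift hinj' with hφ
  have hφp : ∀ p : Pol k, φ (algebraMap (Pol k) (Rat k) p) = MvPolynomial.aeval x p := by
    intro p
    rw [hφ, IsFractionRing.lift_algebraMap]
    rfl
  obtain ⟨Λ', ι, e, ψ₀, he, hw, hd, hψ⟩ := Λ.extend (N := N) φ
  have hψp : ∀ p : Pol k, ψ₀ (toN k N p) = ι (MvPolynomial.aeval x p) := by
    intro p
    rw [← hφp, ← hψ]
    rfl
  have he0 : (0 : ℝ) < e := by exact_mod_cast he
  have hqe : 0 < q * e := mul_pos hq he0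
  set Δ : (N ≃ₐ[Rat k] N) → Fin P → ℝ := fun σ i =>
    (ordZ Λ'.w (ψ₀ (σ (z i))) : ℝ) - q * e * lg ε (ζ i) with hΔ
  set δ : ℝ := q * e * (2 * η' + Real.log M / |Real.log ε|) with hδ
  have hlM : 0 ≤ Real.log M / |Real.log ε| :=
    div_nonneg (Real.log_nonneg (by exact_mod_cast hM1)) (abs_nonneg _)
  have hδ0 : 0 ≤ δ := mul_nonneg hqe.le (by linarith)
  -- the orders of the coefficients
  have hcoef : ∀ t < T, ∀ l, (Q t).coeff l ≠ 0 →
      |(ordZ Λ'.w (ψ₀ (toN k N ((Q t).coeff l))) : ℝ) -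
        q * e * lg ε (MvPolynomial.eval y ((Q t).coeff l))| ≤ q * e * η' := by
    intro t ht l hl
    obtain ⟨j, hj⟩ := hg t (lt_of_lt_of_le ht (le_max_left _ _)) l hl
    have h1 := (happ j).ram e
    rw [hj] at h1
    have h2 : MvPolynomial.aeval x ((Q t).coeff l) ≠ 0 := by
      intro h3
      exact hl (hinj (by rw [h3, map_zero]))
    rw [hψp, ord_ram Λ Λ' ι e hw _ h2]
    exact h1
  have hsel : ∀ t < T, ∃ σ : N ≃ₐ[Rat k] N, |∑ i : Fin P, (t : ℝ) ^ (i : ℕ) * Δ σ i| ≤ δ := by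
    intro t ht
    set a : ℕ → ℂ := fun l => MvPolynomial.eval y ((Q t).coeff l) with ha
    set ζt : ℂ := ∏ i, ζ i ^ (t ^ (i : ℕ)) with hζt
    have hζt0 : ζt ≠ 0 := Finset.prod_ne_zero_iff.2 fun i _ => pow_ne_zero _ (hζ i)
    have hlζ : lg ε ζt = ∑ i : Fin P, ((t : ℝ) ^ (i : ℕ)) * lg ε (ζ i) := by
      rw [hζt, lg_prod_pow ε ζ hζ (fun i => t ^ (i : ℕ))]
      push_cast
      rfl
    obtain ⟨j₀, hj₀, j₁, hj₁, hj, hm₀, hm₁⟩ := exists_tie a ζt hζt0 (Q t).support
      (fun j hj => hyQ t (lt_of_lt_of_le ht (le_max_left _ _)) j (Polynomial.mem_support_iff.1 hj))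
      ⟨0, Polynomial.mem_support_iff.2 (hQ0 t)⟩ (hrel t) ε hε hε1
    set τ : ℝ := q * e * lg ε ζt with hτ
    have hQc : ∀ l, ((Q t).map (algebraMap (Pol k) (Rat k))).coeff l =
        algebraMap (Pol k) (Rat k) ((Q t).coeff l) := fun l => Polynomial.coeff_map _ _
    have hQne : ∀ l, ((Q t).map (algebraMap (Pol k) (Rat k))).coeff l ≠ 0 ↔
        (Q t).coeff l ≠ 0 := by
      intro l
      rw [hQc, Ne, map_eq_zero_iff _ (IsFractionRing.injective (Pol k) (Rat k))]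
    have hcard : Real.log ((Q t).support.card) / |Real.log ε| ≤ Real.log M / |Real.log ε| := by
      refine div_le_div_of_nonneg_right ?_ (abs_nonneg _)
      refine Real.log_le_log ?_ (by exact_mod_cast hM t ht)
      exact_mod_cast Finset.card_pos.2 ⟨0, Polynomial.mem_support_iff.2 (hQ0 t)⟩
    have hm : ∀ j ∈ (Q t).support, ∀ r : ℝ, r ≤ Real.log M / |Real.log ε| →
        (∀ l ∈ (Q t).support, lg ε (a j) + j * lg ε ζt ≤ lg ε (a l) + l * lg ε ζt + r) →
        ∀ l, ((Q t).map (algebraMap (Pol k) (Rat k))).coeff l ≠ 0 →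
        (ordZ Λ'.w (ψ₀ (algebraMap (Rat k) N
          (((Q t).map (algebraMap (Pol k) (Rat k))).coeff j))) : ℝ) + j * τ ≤
        ordZ Λ'.w (ψ₀ (algebraMap (Rat k) N
          (((Q t).map (algebraMap (Pol k) (Rat k))).coeff l))) + l * τ + δ := by
      intro j hj r hr hall l hl
      rw [hQne] at hl
      have h1 := hcoef t ht l hl
      have h2 := hcoef t ht j (Polynomial.mem_support_iff.1 hj)
      have h3 := hall l (Polynomial.mem_support_iff.2 hl)
      have h4 : ∀ l, ψ₀ (algebraMap (Rat k) N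
          (((Q t).map (algebraMap (Pol k) (Rat k))).coeff l)) = ψ₀ (toN k N ((Q t).coeff l)) := by
        intro l
        rw [hQc]
        rfl
      rw [h4, h4]
      rw [abs_le] at h1 h2
      have h5 : q * e * (lg ε (a j) + j * lg ε ζt) ≤ q * e * (lg ε (a l) + l * lg ε ζt +
          Real.log M / |Real.log ε|) :=
        mul_le_mul_of_nonneg_left (h3.trans (by linarith)) hqe.le
      have h6 : q * e * (lg ε (a j) + j * lg ε ζt) = q * e * lg ε (a j) + j * τ := by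
        rw [hτ]; ring
      have h7 : q * e * (lg ε (a l) + l * lg ε ζt + Real.log M / |Real.log ε|) =
          q * e * lg ε (a l) + l * τ + q * e * (Real.log M / |Real.log ε|) := by
        rw [hτ]; ring
      rw [h6, h7] at h5
      have h8 : δ = 2 * (q * e * η') + q * e * (Real.log M / |Real.log ε|) := by
        rw [hδ]; ring
      rw [h8]
      simp only [ha] at h5
      linarith [h1.1, h1.2, h2.1, h2.2]
    obtain ⟨σ, hσ⟩ := conj_near ψ₀ Λ'.w (∏ i : Fin P, z i ^ (t ^ (i : ℕ))) (hZ t)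
      ((Q t).map (algebraMap (Pol k) (Rat k))) (c t) (hc t) (hQ t) τ δ hδ0 j₀ j₁ hj
      ((hQne j₀).2 (Polynomial.mem_support_iff.1 hj₀))
      ((hQne j₁).2 (Polynomial.mem_support_iff.1 hj₁))
      (hm j₀ hj₀ 0 hlM (fun l hl => by rw [add_zero]; exact hm₀ l hl))
      (hm j₁ hj₁ _ hcard hm₁)
    refine ⟨σ, ?_⟩
    have h1 : (ordZ Λ'.w (ψ₀ (σ (∏ i : Fin P, z i ^ (t ^ (i : ℕ))))) : ℝ) - τ =
        ∑ i : Fin P, (t : ℝ) ^ (i : ℕ) * Δ σ i := by
      have h2 : ∀ i : Fin P, ψ₀ (σ (z i)) ≠ 0 := fun i => by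
        rw [Ne, map_eq_zero_iff ψ₀ ψ₀.injective, map_eq_zero_iff σ σ.injective]
        exact hz i
      rw [map_prod, map_prod, ordZ_prod]
      · have h3 : ∀ i : Fin P, ordZ Λ'.w (ψ₀ (σ (z i ^ (t ^ (i : ℕ))))) =
            ((t ^ (i : ℕ) : ℕ) : ℤ) * ordZ Λ'.w (ψ₀ (σ (z i))) := by
          intro i
          rw [map_pow, map_pow, ordZ_pow _ (h2 i)]
        simp only [h3]
        rw [hτ, hlζ, Finset.mul_sum]
        push_cast
        rw [← Finset.sum_sub_distrib]
        refine Finset.sum_congr rfl fun i _ => ?_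
        simp only [hΔ]
        ring
      · intro i _
        rw [map_pow, map_pow]
        exact pow_ne_zero _ (h2 i)
    rw [← h1]
    exact hσ
  obtain ⟨σ, hσ⟩ := hvand rfl Δ δ hδ0 hsel
  refine ⟨Λ', ι, e, ψ₀.comp (σ : N →+* N), he, hw, hd, ?_, ?_⟩
  · intro p
    rw [← hψp]
    have h1 : (σ : N →+* N) (toN k N p) = toN k N p := by
      change σ (algebraMap (Rat k) N (algebraMap (Pol k) (Rat k) p)) = _
      rw [σ.commutes]
      rfl
    rw [RingHom.comp_apply, h1]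
  · intro i
    have h1 := hσ i
    have h2 : C * δ ≤ q * e * η := by
      have h3 := hnum ε hε hεε
      have h4 : C * δ = q * e * (C * (2 * η' + Real.log M / |Real.log ε|)) := by
        rw [hδ]; ring
      rw [h4]
      exact mul_le_mul_of_nonneg_left h3 hqe.le
    exact h1.trans h2

end Pool.Agent.Lib_MP_e0d435_kv

end

/-! ### from `Lib_MP_e0d435_kv.Step` -/

section

/-! V15: adding one variable. -/

namespace Pool.Agent.Lib_MP_e0d435_kv

private theorem step_toN_injective (k : ℕ) (N : Type) [Field N] [Algebra (Rat k) N] :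
    Function.Injective (toN k N) :=
  (algebraMap (Rat k) N).injective.comp (IsFractionRing.injective (Pol k) (Rat k))

/-- The valuation of the Gauss extension on the ground field. -/
private theorem step_w_gauss {k : ℕ} (Λ : LDF k) (Λ' : LDF (k + 1)) (ι : Λ.M →ₐ[ℂ] Λ'.M)
    (u : Λ'.M) (hw : ∀ a b : Λ.M, Λ'.w (ι a + ι b * u) = min (Λ.w a) (Λ.w b)) (f : Λ.M) :
    ordZ Λ'.w (ι f) = ordZ Λ.w f := by
  have h := hw f 0
  rw [map_zero, zero_mul, add_zero, AddValuation.map_zero, min_eq_left le_top] at h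
  unfold ordZ
  rw [h]

/-- Approximation of a difference. -/
private theorem step_approx {Q η₁ l2 : ℝ} (hQ : 0 ≤ Q) (hl2 : l2 ≤ η₁) {o p : ℤ} {m γs s : ℝ}
    (hp : |(p : ℝ) - Q * γs| ≤ Q * η₁) (ho : |(o : ℝ) - Q * s| ≤ Q * η₁)
    (hm : |m - min γs s| ≤ l2) : |((min o p : ℤ) : ℝ) - Q * m| ≤ Q * (2 * η₁) := by
  have h1 : |min (o : ℝ) (p : ℝ) - min (Q * s) (Q * γs)| ≤ Q * η₁ :=
    (abs_min_sub_min_le_max _ _ _ _).trans (max_le ho hp)
  have h2 : min (Q * s) (Q * γs) = Q * min γs s := by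
    rw [min_comm, mul_min_of_nonneg _ _ hQ]
  have h3 : |Q * min γs s - Q * m| ≤ Q * η₁ := by
    rw [← mul_sub, abs_mul, abs_of_nonneg hQ, abs_sub_comm]
    exact mul_le_mul_of_nonneg_left (hm.trans hl2) hQ
  rw [h2] at h1
  push_cast
  calc |min (o : ℝ) (p : ℝ) - Q * m| ≤ |min (o : ℝ) (p : ℝ) - Q * min γs s| +
        |Q * min γs s - Q * m| := abs_sub_le _ _ _
    _ ≤ Q * η₁ + Q * η₁ := add_le_add h1 h3
    _ = Q * (2 * η₁) := by ring

/-- Proof. `r : RootData k J g`; `z` = the family of all differences `ρ a - ρ b`, `a ≠ b`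
(indexed by a `Fin P`), non-zero. `conj_select` for `z` and a small `η₁` gives `g₁`, `η₁'`, `ε₁`;
`g'` = `g₁` and all `lead i`; `η' = min η₁' η₁`. For `y` with `g' (y) ≠ 0` V13 (with
`h = ∏ lead i`) gives a specialisation `ζ` of `ρ`: these are the centres `c`. The differences
`ζ a - ζ b` are a specialisation of `z` (`Specialises.comp`), so not zero.
Given `Λ`, `x'`, `q`: `x'` is algebraically independent (V08); `conj_select` gives `Λ₁`, `ι₁`,
`e`, `ψ`. Let `a*` be a nearest centre to `y0`, `δ_b = |y0 - ζ b|`. With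
`γ* = lg ε (y0 - ζ a*)`, `γ* ≤ γ` because `ε ^ γ < |y0 - ζ a*|`, let `p` be the integer part of
`q e γ*` and `π ∈ Λ₁.M` of order `p`; `Λ'`, `ι₂`, `u` the Gauss extension of `Λ₁` and
`x_0 = ι₂ (ψ (ρ a*)) + ι₂ π * u`, `x = Fin.cons x_0 (ι₂ ι₁ x')`. Then
`ord (x_0 - ι₂ ψ ρ_b) = min (ord ψ (ρ a* - ρ b), p)` for `b ≠ a*`, `= p` for `b = a*`, while
`max (|y0 - ζ a*|, |ζ a* - ζ b|) / 2 ≤ |y0 - ζ b| ≤ 2 max (…)` gives
`|lg ε (y0 - ζ b) - min (γ*, lg ε (ζ a* - ζ b))| ≤ log 2 / |log ε|`; so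
`Approx` for `x_0 - ι₂ ψ ρ_b` with a small error (`|p - q e γ*| ≤ 1 ≤ q e η₁` as `q ≥ q₀ = 1/η₁`);
multiply: `Approx` for `g i` by `aeval_eq`, `eval_eq`, the error is at most
`(1 + deg) (η₁ + η₁ + log 2 / |log ε|)`. The Jacobian: `jac_cons`, `jac_map`; its order is
`p + e ord (jac x')` and `p ≤ q e γ* + 1`. (`D ≥ 1` because `0` is one of the `ρ a`.) -/
theorem arc_step {k J : ℕ} (g : Fin J → Pol (k + 1)) (hg : ∀ i, g i ≠ 0) (η : ℝ) (hη : 0 < η) :
    ∃ (J' : ℕ) (g' : Fin J' → Pol k) (η' ε₀ q₀ : ℝ) (D : ℕ), (∀ j, g' j ≠ 0) ∧ 0 < η' ∧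
      0 < ε₀ ∧ ε₀ < 1 ∧ 0 < q₀ ∧ ∀ ε, 0 < ε → ε < ε₀ → ∀ y' : Fin k → ℂ,
      (∀ j, MvPolynomial.eval y' (g' j) ≠ 0) → ∃ c : Fin D → ℂ,
      ∀ (Λ : LDF k) (x' : Fin k → Λ.M) (q : ℝ), q₀ ≤ q → Λ.jac x' ≠ 0 →
      (∀ j, Approx q ε η' (ordZ Λ.w (MvPolynomial.aeval x' (g' j)))
        (MvPolynomial.eval y' (g' j))) →
      ∀ (y0 : ℂ) (γ : ℝ), ‖y0‖ ≤ 1 → (∀ a, ε ^ γ < ‖y0 - c a‖) →
      (∀ i, MvPolynomial.eval (Fin.cons y0 y' : Fin (k + 1) → ℂ) (g i) ≠ 0) ∧
      ∃ (Λ' : LDF (k + 1)) (x : Fin (k + 1) → Λ'.M) (e : ℕ), 1 ≤ e ∧ Λ'.jac x ≠ 0 ∧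
        (ordZ Λ'.w (Λ'.jac x) : ℝ) ≤ e * ordZ Λ.w (Λ.jac x') + q * e * (γ + η) ∧
        ∀ i, Approx (q * e) ε η (ordZ Λ'.w (MvPolynomial.aeval x (g i)))
          (MvPolynomial.eval (Fin.cons y0 y' : Fin (k + 1) → ℂ) (g i)) := by
  classical
  obtain ⟨r⟩ := exists_rootData k J g hg
  -- the family of differences
  set E : Fin (Fintype.card {p : Fin r.D × Fin r.D // p.1 ≠ p.2}) ≃
    {p : Fin r.D × Fin r.D // p.1 ≠ p.2} := (Fintype.equivFin _).symm with hE
  set z : Fin (Fintype.card {p : Fin r.D × Fin r.D // p.1 ≠ p.2}) → r.N :=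
    fun i => r.ρ (E i).1.1 - r.ρ (E i).1.2 with hz
  have hz0 : ∀ i, z i ≠ 0 := fun i h => (E i).2 (r.inj (sub_eq_zero.1 h))
  -- the weights
  obtain ⟨W, hW0, hW⟩ : ∃ W : ℝ, 0 ≤ W ∧ ∀ i, ∑ a, (r.mult i a : ℝ) ≤ W := by
    refine ⟨∑ i, ∑ a, (r.mult i a : ℝ), by positivity, fun i => ?_⟩
    exact Finset.single_le_sum (f := fun i => ∑ a, (r.mult i a : ℝ))
      (fun j _ => by positivity) (Finset.mem_univ i)
  set η₁ : ℝ := η / (1 + 2 * W) with hη₁
  have hη₁0 : 0 < η₁ := by positivity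
  have hη₁W : η₁ + W * (2 * η₁) = η := by
    rw [hη₁]
    field_simp
  obtain ⟨J₁, g₁, η₁', ε₁, hg₁, hη₁', hε₁, hε₁1, hsel⟩ := conj_select (k := k) r.N z hz0 η₁ hη₁0
  have hlog2 : 0 < Real.log 2 := Real.log_pos (by norm_num)
  refine ⟨J₁ + J, Fin.append g₁ r.lead, min η₁' η₁, min ε₁ (Real.exp (-(Real.log 2 / η₁))),
    1 / η₁, r.D, ?_, lt_min hη₁' hη₁0, lt_min hε₁ (Real.exp_pos _),
    (min_le_left _ _).trans_lt hε₁1, by positivity, ?_⟩
  · intro j
    refine Fin.addCases (fun j => ?_) (fun j => ?_) j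
    · rw [Fin.append_left]
      exact hg₁ j
    · rw [Fin.append_right]
      exact r.lead_ne j
  intro ε hε hεε y' hy'
  have hε1 : ε < 1 := (hεε.trans_le (min_le_left _ _)).trans hε₁1
  have hεl : Real.log 2 / |Real.log ε| ≤ η₁ := by
    have h1 : Real.log ε < -(Real.log 2 / η₁) := by
      have := Real.log_lt_log hε (hεε.trans_le (min_le_right _ _))
      rwa [Real.log_exp] at this
    have h2 : Real.log 2 / η₁ < |Real.log ε| := by
      rw [abs_of_neg (by have := div_pos hlog2 hη₁0; linarith)]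
      linarith
    have h3 : 0 < |Real.log ε| := (div_pos hlog2 hη₁0).trans h2
    rw [div_le_iff₀ h3]
    rw [div_lt_iff₀ hη₁0] at h2
    linarith
  have hy₁ : ∀ j, MvPolynomial.eval y' (g₁ j) ≠ 0 := fun j => by
    have := hy' (Fin.castAdd J j)
    rwa [Fin.append_left] at this
  have hyl : ∀ j, MvPolynomial.eval y' (r.lead j) ≠ 0 := fun j => by
    have := hy' (Fin.natAdd J₁ j)
    rwa [Fin.append_right] at this
  obtain ⟨ζ, hζ⟩ := exists_point (toN k r.N) (step_toN_injective k r.N) r.ρ (∏ i, r.lead i)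
    r.integral y' (by
      rw [map_prod]
      exact Finset.prod_ne_zero_iff.2 fun i _ => hyl i)
  have hζz : Specialises (toN k r.N) z y' (fun i => ζ (E i).1.1 - ζ (E i).1.2) := by
    have h1 := hζ.comp (fun i => MvPolynomial.X (E i).1.1 - MvPolynomial.X (E i).1.2)
    simpa only [MvPolynomial.eval₂_sub, MvPolynomial.eval₂_X] using h1
  obtain ⟨hζ0, hsel'⟩ := hsel ε hε (hεε.trans_le (min_le_left _ _)) y' _ hy₁ hζz
  have hζne : ∀ a b, a ≠ b → ζ a ≠ ζ b := by
    intro a b hab h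
    have h1 := hζ0 (E.symm ⟨(a, b), hab⟩)
    rw [Equiv.apply_symm_apply] at h1
    exact h1 (sub_eq_zero.2 h)
  refine ⟨ζ, ?_⟩
  intro Λ x' q hq hjac happ y0 γ _ hγ
  have hq0 : 0 < q := (by positivity : 0 < 1 / η₁).trans_le hq
  have happ₁ : ∀ j, Approx q ε η₁' (ordZ Λ.w (MvPolynomial.aeval x' (g₁ j)))
      (MvPolynomial.eval y' (g₁ j)) := fun j => by
    have := happ (Fin.castAdd J j)
    rw [Fin.append_left] at this
    exact this.mono hq0.le (min_le_left _ _)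
  have happl : ∀ j, Approx q ε η₁ (ordZ Λ.w (MvPolynomial.aeval x' (r.lead j)))
      (MvPolynomial.eval y' (r.lead j)) := fun j => by
    have := happ (Fin.natAdd J₁ j)
    rw [Fin.append_right] at this
    exact this.mono hq0.le (min_le_right _ _)
  have hx' : AlgebraicIndependent ℂ x' := Λ.algebraicIndependent_of_jac x' hjac
  obtain ⟨Λ₁, ι₁, e, ψ₁, he, hw₁, hd₁, hψ₁, hzapp⟩ := hsel' Λ x' q hq0 hx' happ₁
  have he0 : (0 : ℝ) < e := by exact_mod_cast he
  have he1 : (1 : ℝ) ≤ e := by exact_mod_cast he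
  have hqe : 0 < q * e := mul_pos hq0 he0
  have hy0 : ∀ a, y0 - ζ a ≠ 0 := fun a h => by
    have h1 := hγ a
    rw [h, norm_zero] at h1
    exact absurd h1 (not_lt.2 (Real.rpow_nonneg hε.le γ))
  refine ⟨fun i => ?_, ?_⟩
  · rw [r.eval_eq y' ζ hζ i y0]
    exact mul_ne_zero (hyl i) (Finset.prod_ne_zero_iff.2 fun a _ => pow_ne_zero _ (hy0 a))
  -- the nearest centre
  obtain ⟨a₀, -⟩ := r.zero
  haveI : Nonempty (Fin r.D) := ⟨a₀⟩
  obtain ⟨as, has⟩ := Finite.exists_min (fun b => ‖y0 - ζ b‖)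
  set γs : ℝ := lg ε (y0 - ζ as) with hγs
  have hγsγ : γs < γ := lg_lt_of_lt ε hε hε1 _ γ (hγ as)
  set p : ℤ := ⌊q * e * γs⌋ with hp
  obtain ⟨π, hπ0, hπp⟩ := Λ₁.exists_ord p
  obtain ⟨Λ', ι₂, u, hw₂, hd₂, hdu, hd0, hdu0⟩ := Λ₁.gauss
  have hp1 : (p : ℝ) ≤ q * e * γs := Int.floor_le _
  have hp2 : |(p : ℝ) - q * e * γs| ≤ q * e * η₁ := by
    have h1 : q * e * γs - 1 < p := Int.sub_one_lt_floor _
    have h2 : 1 ≤ q * e * η₁ := by
      have h3 : 1 ≤ q * η₁ := by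
        rw [div_le_iff₀ hη₁0] at hq
        exact hq
      nlinarith
    rw [abs_le]
    constructor <;> linarith
  set x0 : Λ'.M := ι₂ (ψ₁ (r.ρ as)) + ι₂ π * u with hx0
  have hd0x : Λ'.d 0 x0 = ι₂ π := by
    rw [hx0, map_add, Derivation.leibniz, hd0, hd0, hdu0]
    simp
  have hJ : Λ'.jac (Fin.cons x0 fun i => ι₂ (ι₁ (x' i))) = ι₂ (π * ι₁ (Λ.jac x')) := by
    rw [LDF.jac_cons Λ₁ Λ' ι₂ hd₂ hd0 (fun i => ι₁ (x' i)) x0 π hd0x,
      LDF.jac_map Λ Λ₁ ι₁ hd₁]
  have hιJ : ι₁ (Λ.jac x') ≠ 0 := (map_ne_zero ι₁).2 hjac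
  refine ⟨Λ', Fin.cons x0 fun i => ι₂ (ι₁ (x' i)), e, he, ?_, ?_, ?_⟩
  · rw [hJ]
    exact (map_ne_zero ι₂).2 (mul_ne_zero hπ0 hιJ)
  · rw [hJ, step_w_gauss Λ₁ Λ' ι₂ u hw₂, ordZ_mul _ hπ0 hιJ, hπp,
      ord_ram Λ Λ₁ ι₁ e hw₁ _ hjac]
    push_cast
    have h1 : q * e * γs ≤ q * e * (γ + η) := mul_le_mul_of_nonneg_left (by linarith) hqe.le
    linarith
  · intro i
    set ψ : r.N →+* Λ'.M := (ι₂ : Λ₁.M →+* Λ'.M).comp ψ₁ with hψ
    have hψp : ∀ p : Pol k, ψ (toN k r.N p) =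
        MvPolynomial.aeval (fun i => ι₂ (ι₁ (x' i))) p := by
      intro p
      have h1 : ψ (toN k r.N p) = ι₂ (ι₁ (MvPolynomial.aeval x' p)) := by
        rw [hψ, RingHom.comp_apply, hψ₁]
        rfl
      rw [h1]
      exact MvPolynomial.comp_aeval_apply (f := x') (ι₂.comp ι₁) p
    rw [r.aeval_eq ψ (fun i => ι₂ (ι₁ (x' i))) hψp i x0, r.eval_eq y' ζ hζ i y0]
    -- the factors
    have hfac : ∀ b, x0 - ψ (r.ρ b) ≠ 0 ∧
        Approx (q * e) ε (2 * η₁) (ordZ Λ'.w (x0 - ψ (r.ρ b))) (y0 - ζ b) := by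
      intro b
      obtain ⟨h1, h2, h3⟩ := ord_gauss Λ₁ Λ' ι₂ u hw₂ (ψ₁ (r.ρ as)) (ψ₁ (r.ρ b)) π hπ0
      have hψb : ψ (r.ρ b) = ι₂ (ψ₁ (r.ρ b)) := rfl
      rw [hψb, hx0]
      refine ⟨h1, ?_⟩
      by_cases hb : as = b
      · subst hb
        rw [h3 rfl, hπp]
        unfold Approx
        rw [← hγs]
        refine hp2.trans ?_
        have : 0 ≤ q * e * η₁ := by positivity
        linarith
      · have hne : ψ₁ (r.ρ as) ≠ ψ₁ (r.ρ b) := fun h => hb (r.inj (ψ₁.injective h))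
        rw [h2 hne, hπp]
        have h4 := hzapp (E.symm ⟨(as, b), hb⟩)
        have h5 : z (E.symm ⟨(as, b), hb⟩) = r.ρ as - r.ρ b := by
          simp only [hz, Equiv.apply_symm_apply]
        rw [h5] at h4
        simp only [Equiv.apply_symm_apply] at h4
        rw [map_sub] at h4
        have h6 := lg_nearest ε hε hε1 y0 (ζ as) (ζ b) (fun h => hy0 as (sub_eq_zero.2 h))
          (has b) (hζne as b hb)
        exact step_approx hqe.le hεl hp2 h4 h6
    have hlead : Approx (q * e) ε η₁ (ordZ Λ'.w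
        (MvPolynomial.aeval (fun i => ι₂ (ι₁ (x' i))) (r.lead i)))
        (MvPolynomial.eval y' (r.lead i)) := by
      have h1 := (happl i).ram e
      have h2 : MvPolynomial.aeval (fun i => ι₂ (ι₁ (x' i))) (r.lead i) =
          ι₂ (ι₁ (MvPolynomial.aeval x' (r.lead i))) :=
        (MvPolynomial.comp_aeval_apply (f := x') (ι₂.comp ι₁) (r.lead i)).symm
      have h3 : MvPolynomial.aeval x' (r.lead i) ≠ 0 := by
        intro h4
        exact r.lead_ne i (hx' (by rw [h4, map_zero]))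
      rw [h2, step_w_gauss Λ₁ Λ' ι₂ u hw₂, ord_ram Λ Λ₁ ι₁ e hw₁ _ h3]
      exact h1
    have hleadne : MvPolynomial.aeval (fun i => ι₂ (ι₁ (x' i))) (r.lead i) ≠ 0 := by
      have h2 : MvPolynomial.aeval (fun i => ι₂ (ι₁ (x' i))) (r.lead i) =
          ι₂ (ι₁ (MvPolynomial.aeval x' (r.lead i))) :=
        (MvPolynomial.comp_aeval_apply (f := x') (ι₂.comp ι₁) (r.lead i)).symm
      rw [h2]
      refine (map_ne_zero ι₂).2 ((map_ne_zero ι₁).2 ?_)
      intro h4
      exact r.lead_ne i (hx' (by rw [h4, map_zero]))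
    have hprod := Approx.prod_pow (fun b => ordZ Λ'.w (x0 - ψ (r.ρ b))) (fun b => y0 - ζ b)
      hy0 (r.mult i) (fun b => (hfac b).2)
    have hord : ordZ Λ'.w (MvPolynomial.aeval (fun i => ι₂ (ι₁ (x' i))) (r.lead i) *
        ∏ a, (x0 - ψ (r.ρ a)) ^ (r.mult i a)) =
        ordZ Λ'.w (MvPolynomial.aeval (fun i => ι₂ (ι₁ (x' i))) (r.lead i)) +
          ∑ a, r.mult i a * ordZ Λ'.w (x0 - ψ (r.ρ a)) := by
      rw [ordZ_mul _ hleadne (Finset.prod_ne_zero_iff.2 fun a _ => pow_ne_zero _ (hfac a).1),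
        ordZ_prod _ _ _ (fun a _ => pow_ne_zero _ (hfac a).1)]
      congr 1
      exact Finset.sum_congr rfl fun a _ => ordZ_pow _ (hfac a).1 _
    rw [hord]
    have hmul := Approx.mul (hyl i) (Finset.prod_ne_zero_iff.2 fun a _ =>
      pow_ne_zero (r.mult i a) (hy0 a)) hlead hprod
    refine hmul.mono hqe.le ?_
    have h1 : (∑ a, (r.mult i a : ℝ)) * (2 * η₁) ≤ W * (2 * η₁) :=
      mul_le_mul_of_nonneg_right (hW i) (by positivity)
    linarith

end Pool.Agent.Lib_MP_e0d435_kv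

end

/-! ### from `Lib_MP_e0d435_kv.Level` -/

section

/-! V16: Fubini and the pigeonhole principle. -/

open MeasureTheory

namespace Pool.Agent.Lib_MP_e0d435_kv

private theorem Level_fubini {k : ℕ} {S : Set (Fin (k + 1) → ℂ)} (hS : MeasurableSet S) :
    Measurable (fun y' : Fin k → ℂ =>
      volume {y0 : ℂ | (Fin.cons y0 y' : Fin (k + 1) → ℂ) ∈ S}) ∧
    volume S = ∫⁻ y' : Fin k → ℂ,
      volume {y0 : ℂ | (Fin.cons y0 y' : Fin (k + 1) → ℂ) ∈ S} := by
  let e := MeasurableEquiv.piFinSuccAbove (fun _ : Fin (k + 1) => ℂ) 0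
  have he : MeasurePreserving e := volume_preserving_piFinSuccAbove (fun _ => ℂ) 0
  have hS' : MeasurableSet (e.symm ⁻¹' S) := e.symm.measurable hS
  have hset : ∀ y' : Fin k → ℂ, {y0 : ℂ | (Fin.cons y0 y' : Fin (k + 1) → ℂ) ∈ S} =
      (fun x => (x, y')) ⁻¹' (e.symm ⁻¹' S) := by
    intro y'
    ext y0
    have h1 : e.symm (y0, y') = (Fin.cons y0 y' : Fin (k + 1) → ℂ) := by
      rw [MeasurableEquiv.symm_apply_eq]
      rfl
    rw [Set.mem_preimage, Set.mem_preimage, h1]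
    rfl
  have h1 : volume S = volume (e.symm ⁻¹' S) := by
    rw [he.symm.measure_preimage hS.nullMeasurableSet]
  simp only [hset]
  refine ⟨measurable_measure_prodMk_right hS', ?_⟩
  rw [h1, Measure.volume_eq_prod, Measure.prod_apply_symm hS']

private theorem Level_le_pi {k : ℕ} {S : Set (Fin (k + 1) → ℂ)}
    (hS : ∀ y ∈ S, ∀ j, ‖y j‖ ≤ 1) (y' : Fin k → ℂ) :
    volume {y0 : ℂ | (Fin.cons y0 y' : Fin (k + 1) → ℂ) ∈ S} ≤ ENNReal.ofReal Real.pi := by
  have h1 : {y0 : ℂ | (Fin.cons y0 y' : Fin (k + 1) → ℂ) ∈ S} ⊆ Metric.closedBall 0 1 := by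
    intro y0 hy
    have := hS _ hy 0
    rw [mem_closedBall_zero_iff]
    simpa using this
  refine (measure_mono h1).trans ?_
  rw [Complex.volume_closedBall, ENNReal.ofReal_one, one_pow, one_mul]
  exact le_of_eq (ENNReal.ofReal_coe_nnreal (p := NNReal.pi)).symm

private theorem Level_zero {k : ℕ} {S : Set (Fin (k + 1) → ℂ)}
    (hS : ∀ y ∈ S, ∀ j, ‖y j‖ ≤ 1) (y' : Fin k → ℂ)
    (h : 0 < volume {y0 : ℂ | (Fin.cons y0 y' : Fin (k + 1) → ℂ) ∈ S}) (j : Fin k) :
    ‖y' j‖ ≤ 1 := by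
  obtain ⟨y0, hy⟩ := nonempty_of_measure_ne_zero h.ne'
  have := hS _ hy j.succ
  simpa using this

/-- Proof: `a(y') = volume {y0 | Fin.cons y0 y' ∈ S}` is measurable, `≤ π` and `0` outside the
polydisc, and `volume S = ∫⁻ a` (`volume_preserving_piFinSuccAbove (fun _ => ℂ) 0`,
`Measure.prod_apply`). `L = ⌈c/η₁⌉`; for `l ≤ L` put
`E_l = {y' : ε^(2(l+1)η₁) < a(y') ∧ (l = 0 ∨ a(y') ≤ ε^(2lη₁))}`. If all
`volume E_l < ε^(2(c - lη₁ + η₁))` then
`volume S ≤ ∑_(l ≤ L) volume E_l π ε^(2lη₁) + volume(polydisc) ε^(2(L+1)η₁)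
< ε^(2c) ε^(2η₁) ((L+1) π + π^k) ≤ ε^(2c)` for small `ε`. (`(L+1)η₁ ≥ c + η₁` and
`lη₁ ≤ c + η₁` for `l ≤ L`.) -/
theorem exists_level {k : ℕ} (c η₁ : ℝ) (hc : 0 ≤ c) (hη : 0 < η₁) :
    ∃ ε₀ : ℝ, 0 < ε₀ ∧ ε₀ < 1 ∧ ∀ ε, 0 < ε → ε < ε₀ → ∀ S : Set (Fin (k + 1) → ℂ),
      MeasurableSet S → (∀ y ∈ S, ∀ j, ‖y j‖ ≤ 1) →
      ENNReal.ofReal (ε ^ (2 * c)) ≤ volume S →
      ∃ l : ℕ, (l : ℝ) * η₁ ≤ c + η₁ ∧ ∃ E : Set (Fin k → ℂ), MeasurableSet E ∧
        (∀ y' ∈ E, ∀ j, ‖y' j‖ ≤ 1) ∧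
        ENNReal.ofReal (ε ^ (2 * (c - l * η₁ + η₁))) ≤ volume E ∧
        ∀ y' ∈ E, ENNReal.ofReal (ε ^ (2 * ((l + 1) * η₁))) <
          volume {y0 : ℂ | (Fin.cons y0 y' : Fin (k + 1) → ℂ) ∈ S} := by
  set L : ℕ := ⌈c / η₁⌉₊ with hL
  have hL1 : c ≤ L * η₁ := by
    rw [← div_le_iff₀ hη]
    exact Nat.le_ceil _
  have hL2 : (L : ℝ) * η₁ ≤ c + η₁ := by
    have := (Nat.ceil_lt_add_one (div_nonneg hc hη.le)).le
    calc (L : ℝ) * η₁ ≤ (c / η₁ + 1) * η₁ := mul_le_mul_of_nonneg_right this hη.le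
      _ = c + η₁ := by field_simp
  set D : Set (Fin k → ℂ) := Metric.closedBall 0 1 with hD
  have hDfin : volume D < ⊤ := measure_closedBall_lt_top
  set V : ℝ := (volume D).toReal with hV
  have hV0 : 0 ≤ V := ENNReal.toReal_nonneg
  have hVD : volume D = ENNReal.ofReal V := (ENNReal.ofReal_toReal hDfin.ne).symm
  set M : ℝ := (L + 1) * Real.pi + V + 1 with hM
  have hM1 : 1 < M := by
    have : 0 < ((L : ℝ) + 1) * Real.pi := by positivity
    linarith
  have hM0 : 0 < M := by linarith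
  refine ⟨(1 / M) ^ (1 / (2 * η₁)), by positivity, ?_, ?_⟩
  · exact Real.rpow_lt_one (by positivity) (by rw [div_lt_one hM0]; exact hM1) (by positivity)
  intro ε hε0 hε S hSm hSD hSvol
  have hεM : ε ^ (2 * η₁) < 1 / M := by
    calc ε ^ (2 * η₁) < ((1 / M) ^ (1 / (2 * η₁))) ^ (2 * η₁) :=
          Real.rpow_lt_rpow hε0.le hε (by positivity)
      _ = 1 / M := by
          rw [← Real.rpow_mul (by positivity), one_div_mul_cancel (by positivity), Real.rpow_one]
  have hε1 : ε < 1 := hε.trans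
    (Real.rpow_lt_one (by positivity) (by rw [div_lt_one hM0]; exact hM1) (by positivity))
  obtain ⟨ham, hint⟩ := Level_fubini hSm
  have hπ := Level_le_pi hSD
  have hz := Level_zero hSD
  set a : (Fin k → ℂ) → ENNReal :=
    fun y' => volume {y0 : ℂ | (Fin.cons y0 y' : Fin (k + 1) → ℂ) ∈ S} with ha
  by_contra hcon
  push Not at hcon
  set E : ℕ → Set (Fin k → ℂ) :=
    fun l => {y' | ENNReal.ofReal (ε ^ (2 * (((l : ℝ) + 1) * η₁))) < a y'} with hE
  have hEm : ∀ l, MeasurableSet (E l) := fun l => measurableSet_lt measurable_const ham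
  have hEv : ∀ l : ℕ, l ≤ L →
      volume (E l) < ENNReal.ofReal (ε ^ (2 * (c - l * η₁ + η₁))) := by
    intro l hl
    by_contra hge
    push Not at hge
    have hl' : (l : ℝ) * η₁ ≤ c + η₁ := by
      refine le_trans ?_ hL2
      exact mul_le_mul_of_nonneg_right (by exact_mod_cast hl) hη.le
    obtain ⟨y', hy', hy''⟩ := hcon l hl' (E l) (hEm l)
      (fun y' hy' j => hz y' (lt_of_le_of_lt zero_le hy') j) hge
    exact absurd hy' (not_lt.2 hy'')
  -- pointwise bound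
  have hpt : ∀ y', a y' ≤ ∑ l ∈ Finset.range (L + 1),
      (E l).indicator (fun _ => ENNReal.ofReal (Real.pi * ε ^ (2 * ((l : ℝ) * η₁)))) y' +
      D.indicator (fun _ => ENNReal.ofReal (ε ^ (2 * (((L : ℝ) + 1) * η₁)))) y' := by
    intro y'
    by_cases h0 : a y' = 0
    · rw [h0]; exact zero_le
    have hyD : y' ∈ D := by
      rw [hD, mem_closedBall_zero_iff, pi_norm_le_iff_of_nonneg zero_le_one]
      exact hz y' (pos_iff_ne_zero.2 h0)
    by_cases hL' : y' ∈ E L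
    · classical
      have hex : ∃ l, y' ∈ E l := ⟨L, hL'⟩
      have hl1 := Nat.find_spec hex
      have hl2 : Nat.find hex ≤ L := Nat.find_min' hex hL'
      set l := Nat.find hex with hl
      have hb : a y' ≤ ENNReal.ofReal (Real.pi * ε ^ (2 * ((l : ℝ) * η₁))) := by
        rcases Nat.eq_zero_or_pos l with h | h
        · rw [h]
          simpa using hπ y'
        · have hlt : l - 1 < Nat.find hex := by omega
          have hnot := Nat.find_min hex hlt
          have hle : a y' ≤ ENNReal.ofReal (ε ^ (2 * ((((l - 1 : ℕ) : ℝ) + 1) * η₁))) :=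
            not_lt.1 hnot
          refine hle.trans (ENNReal.ofReal_le_ofReal ?_)
          have hcast : (((l - 1 : ℕ) : ℝ) + 1) = (l : ℝ) := by
            have : (l - 1) + 1 = l := Nat.sub_add_cancel h
            exact_mod_cast this
          rw [hcast]
          have hp : 0 ≤ ε ^ (2 * ((l : ℝ) * η₁)) := by positivity
          nlinarith [Real.pi_gt_three]
      calc a y' ≤ ENNReal.ofReal (Real.pi * ε ^ (2 * ((l : ℝ) * η₁))) := hb
        _ = (E l).indicator (fun _ => ENNReal.ofReal (Real.pi * ε ^ (2 * ((l : ℝ) * η₁)))) y' := by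
            rw [Set.indicator_of_mem hl1]
        _ ≤ ∑ l ∈ Finset.range (L + 1),
            (E l).indicator (fun _ => ENNReal.ofReal (Real.pi * ε ^ (2 * ((l : ℝ) * η₁)))) y' :=
            Finset.single_le_sum (f := fun l : ℕ =>
              (E l).indicator (fun _ => ENNReal.ofReal (Real.pi * ε ^ (2 * ((l : ℝ) * η₁)))) y')
              (fun _ _ => zero_le) (Finset.mem_range.2 (Nat.lt_succ_of_le hl2))
        _ ≤ _ := le_self_add
    · have hle : a y' ≤ ENNReal.ofReal (ε ^ (2 * (((L : ℝ) + 1) * η₁))) := not_lt.1 hL'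
      rw [Set.indicator_of_mem hyD]
      exact hle.trans le_add_self
  -- the bound on the volume
  have hvol : volume S ≤ ∑ l ∈ Finset.range (L + 1),
      ENNReal.ofReal (Real.pi * ε ^ (2 * ((l : ℝ) * η₁))) * volume (E l) +
      ENNReal.ofReal (ε ^ (2 * (((L : ℝ) + 1) * η₁))) * volume D := by
    rw [hint]
    refine (lintegral_mono hpt).trans ?_
    rw [lintegral_add_left, lintegral_finsetSum]
    · refine add_le_add (Finset.sum_le_sum fun l _ => ?_) ?_
      · rw [lintegral_indicator_const (hEm l)]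
      · rw [lintegral_indicator_const (Metric.isClosed_closedBall.measurableSet)]
    · exact fun l _ => measurable_const.indicator (hEm l)
    · exact Finset.measurable_sum _ (fun l _ => measurable_const.indicator (hEm l))
  have hbound : ∑ l ∈ Finset.range (L + 1),
      ENNReal.ofReal (Real.pi * ε ^ (2 * ((l : ℝ) * η₁))) * volume (E l) +
      ENNReal.ofReal (ε ^ (2 * (((L : ℝ) + 1) * η₁))) * volume D ≤
      ENNReal.ofReal (ε ^ (2 * c) * (ε ^ (2 * η₁) * ((L + 1) * Real.pi + V))) := by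
    have hs : ∑ l ∈ Finset.range (L + 1),
        ENNReal.ofReal (Real.pi * ε ^ (2 * ((l : ℝ) * η₁))) * volume (E l) ≤
        ENNReal.ofReal (((L : ℝ) + 1) * (Real.pi * ε ^ (2 * c + 2 * η₁))) := by
      calc ∑ l ∈ Finset.range (L + 1),
            ENNReal.ofReal (Real.pi * ε ^ (2 * ((l : ℝ) * η₁))) * volume (E l)
          ≤ ∑ l ∈ Finset.range (L + 1), ENNReal.ofReal (Real.pi * ε ^ (2 * c + 2 * η₁)) := by
            refine Finset.sum_le_sum fun l hl => ?_
            have hl' : l ≤ L := Nat.lt_succ_iff.1 (Finset.mem_range.1 hl)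
            calc ENNReal.ofReal (Real.pi * ε ^ (2 * ((l : ℝ) * η₁))) * volume (E l)
                ≤ ENNReal.ofReal (Real.pi * ε ^ (2 * ((l : ℝ) * η₁))) *
                  ENNReal.ofReal (ε ^ (2 * (c - l * η₁ + η₁))) :=
                  mul_le_mul_right (hEv l hl').le _
              _ = ENNReal.ofReal (Real.pi * ε ^ (2 * c + 2 * η₁)) := by
                  rw [← ENNReal.ofReal_mul (by positivity), mul_assoc, ← Real.rpow_add hε0]
                  congr 3
                  ring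
        _ = ENNReal.ofReal (((L : ℝ) + 1) * (Real.pi * ε ^ (2 * c + 2 * η₁))) := by
            rw [Finset.sum_const, Finset.card_range, nsmul_eq_mul,
              ENNReal.ofReal_mul (by positivity : (0 : ℝ) ≤ (L : ℝ) + 1)]
            congr 1
            rw [← Nat.cast_succ, ENNReal.ofReal_natCast]
    have ht : ENNReal.ofReal (ε ^ (2 * (((L : ℝ) + 1) * η₁))) * volume D ≤
        ENNReal.ofReal (ε ^ (2 * c + 2 * η₁) * V) := by
      rw [hVD, ← ENNReal.ofReal_mul (by positivity)]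
      refine ENNReal.ofReal_le_ofReal (mul_le_mul_of_nonneg_right ?_ hV0)
      exact Real.rpow_le_rpow_of_exponent_ge hε0 hε1.le (by nlinarith)
    refine (add_le_add hs ht).trans ?_
    rw [← ENNReal.ofReal_add (by positivity) (by positivity)]
    refine ENNReal.ofReal_le_ofReal (le_of_eq ?_)
    rw [Real.rpow_add hε0]
    ring
  have hlt : ENNReal.ofReal (ε ^ (2 * c) * (ε ^ (2 * η₁) * ((L + 1) * Real.pi + V))) <
      ENNReal.ofReal (ε ^ (2 * c)) := by
    rw [ENNReal.ofReal_lt_ofReal_iff (by positivity)]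
    have h1 : ε ^ (2 * η₁) * ((L + 1) * Real.pi + V) < 1 := by
      calc ε ^ (2 * η₁) * ((L + 1) * Real.pi + V) ≤ ε ^ (2 * η₁) * M := by
            refine mul_le_mul_of_nonneg_left ?_ (by positivity)
            rw [hM]; linarith
        _ < 1 / M * M := mul_lt_mul_of_pos_right hεM hM0
        _ = 1 := by field_simp
    have h2 : 0 < ε ^ (2 * c) := by positivity
    nlinarith
  exact absurd (hSvol.trans (hvol.trans hbound)) (not_le.2 hlt)

end Pool.Agent.Lib_MP_e0d435_kv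

end

/-! ### from `Lib_MP_e0d435_kv.Outside` -/

section

/-! V16b: a point outside finitely many discs. -/

open MeasureTheory

namespace Pool.Agent.Lib_MP_e0d435_kv

private theorem Outside_vol (D : ℕ) (ρ : ℝ) (hρ : 0 ≤ ρ) (T : Set ℂ) (c : Fin D → ℂ)
    (h : ∀ y0 ∈ T, ∃ a, ‖y0 - c a‖ ≤ ρ) : volume T ≤ ENNReal.ofReal (D * (ρ ^ 2 * Real.pi)) := by
  have h1 : T ⊆ ⋃ a, Metric.closedBall (c a) ρ := by
    intro y hy
    obtain ⟨a, ha⟩ := h y hy
    refine Set.mem_iUnion.2 ⟨a, ?_⟩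
    rwa [Metric.mem_closedBall, dist_eq_norm]
  have h2 : ∀ a, volume (Metric.closedBall (c a) ρ) = ENNReal.ofReal (ρ ^ 2 * Real.pi) := by
    intro a
    rw [Complex.volume_closedBall, ENNReal.ofReal_mul (sq_nonneg _), ENNReal.ofReal_pow hρ,
      ← NNReal.coe_real_pi, ENNReal.ofReal_coe_nnreal]
  calc volume T ≤ volume (⋃ a, Metric.closedBall (c a) ρ) := measure_mono h1
    _ ≤ ∑ a, volume (Metric.closedBall (c a) ρ) := measure_iUnion_fintype_le _ _
    _ = ENNReal.ofReal (D * (ρ ^ 2 * Real.pi)) := by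
      rw [Finset.sum_congr rfl fun a _ => h2 a, Finset.sum_const, Finset.card_univ,
        Fintype.card_fin, nsmul_eq_mul, ENNReal.ofReal_mul (Nat.cast_nonneg D),
        ENNReal.ofReal_natCast]

/-- Proof: the union of the closed discs has volume `≤ D π ε^(2(l+2)η₁)`. -/
theorem exists_outside (D : ℕ) (η₁ : ℝ) (hη : 0 < η₁) :
    ∃ ε₀ : ℝ, 0 < ε₀ ∧ ε₀ < 1 ∧ ∀ ε, 0 < ε → ε < ε₀ → ∀ (l : ℕ) (T : Set ℂ) (c : Fin D → ℂ),
      ENNReal.ofReal (ε ^ (2 * ((l + 1) * η₁))) < volume T →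
      ∃ y0 ∈ T, ∀ a, ε ^ ((l + 2) * η₁) < ‖y0 - c a‖ := by
  have hD : (0 : ℝ) < (4 * (D + 1 : ℝ))⁻¹ := by positivity
  refine ⟨min (1 / 2) ((4 * (D + 1 : ℝ))⁻¹ ^ (1 / (2 * η₁))),
    lt_min (by norm_num) (Real.rpow_pos_of_pos hD _),
    (min_le_left _ _).trans_lt (by norm_num), ?_⟩
  intro ε hε hε0 l T c hT
  by_contra hcon
  push Not at hcon
  have h1 := Outside_vol D (ε ^ ((l + 2) * η₁)) (Real.rpow_nonneg hε.le _) T c hcon
  have h2 : ε ^ (2 * η₁) ≤ (4 * (D + 1 : ℝ))⁻¹ := by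
    calc ε ^ (2 * η₁) ≤ ((4 * (D + 1 : ℝ))⁻¹ ^ (1 / (2 * η₁))) ^ (2 * η₁) :=
          Real.rpow_le_rpow hε.le (hε0.le.trans (min_le_right _ _)) (by positivity)
      _ = (4 * (D + 1 : ℝ))⁻¹ := by
          rw [← Real.rpow_mul hD.le, one_div, inv_mul_cancel₀ (by positivity), Real.rpow_one]
  have h3 : (ε ^ ((l + 2) * η₁)) ^ 2 = ε ^ (2 * ((l + 1) * η₁)) * ε ^ (2 * η₁) := by
    rw [← Real.rpow_natCast, ← Real.rpow_mul hε.le, ← Real.rpow_add hε]
    congr 1
    push_cast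
    ring
  have h4 : (D : ℝ) * ((ε ^ ((l + 2) * η₁)) ^ 2 * Real.pi) ≤ ε ^ (2 * ((l + 1) * η₁)) := by
    rw [h3]
    have h5 : 0 < ε ^ (2 * ((l + 1) * η₁)) := Real.rpow_pos_of_pos hε _
    have h6 : (D : ℝ) * (ε ^ (2 * η₁) * Real.pi) ≤ 1 := by
      have hp : Real.pi ≤ 4 := Real.pi_le_four
      have hp0 : 0 ≤ Real.pi := Real.pi_pos.le
      have hD0 : (0 : ℝ) ≤ D := Nat.cast_nonneg D
      calc (D : ℝ) * (ε ^ (2 * η₁) * Real.pi) ≤ D * ((4 * (D + 1 : ℝ))⁻¹ * 4) := by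
            gcongr
        _ = D / (D + 1) := by
            field_simp
        _ ≤ 1 := by
            rw [div_le_one (by positivity)]
            linarith
    calc (D : ℝ) * (ε ^ (2 * ((l + 1) * η₁)) * ε ^ (2 * η₁) * Real.pi)
        = ε ^ (2 * ((l + 1) * η₁)) * ((D : ℝ) * (ε ^ (2 * η₁) * Real.pi)) := by ring
      _ ≤ ε ^ (2 * ((l + 1) * η₁)) * 1 := mul_le_mul_of_nonneg_left h6 h5.le
      _ = _ := mul_one _
  exact absurd (hT.trans_le (h1.trans (ENNReal.ofReal_le_ofReal h4))) (lt_irrefl _)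

end Pool.Agent.Lib_MP_e0d435_kv

end

/-! ### from `Lib_MP_e0d435_kv.LDF0` -/

section

/-! V17a. -/

namespace Pool.Agent.Lib_MP_e0d435_kv

/-- There is a log-differential discretely valued field with no derivations: `ℂ(s)` with the
`s`-adic valuation. -/
theorem exists_LDF_zero : Nonempty (LDF 0) := by
  refine ⟨{ M := HahnSeries ℤ ℂ, w := HahnSeries.addVal ℤ ℂ, t := HahnSeries.single 1 1,
            w_t := ?_, d := fun i => i.elim0, log := fun i => i.elim0 }⟩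
  have h : (HahnSeries.single (1 : ℤ) (1 : ℂ)) ≠ 0 := by
    rw [Ne, HahnSeries.single_eq_zero_iff]
    exact one_ne_zero
  rw [HahnSeries.addVal_apply_of_ne h, HahnSeries.order_single one_ne_zero]
  rfl

end Pool.Agent.Lib_MP_e0d435_kv

end

/-! ### from `Lib_KF.GArcCl` -/

section

/-! G4a: the generic arc over an algebraically closed field. -/

open PowerSeries

namespace Pool.Agent.Lib_KF

open Pool.Agent.Lib_GD

/-- G4a. Proof: the proof of `exists_generic_arc` (Lib_GD/GenericArc.lean) with `L` replaced by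
`AlgebraicClosure (FractionRing (MvPolynomial σ κ))`: the point `x` and the elements `cc` are the
images under the embedding; the family `Sum.elim cc (x ∘ w)` stays algebraically independent over
`ℂ` (`AlgebraicIndependent.map'` with the injection into the algebraic closure) and
`exists_derivation` is applied in the algebraic closure. Everything else is verbatim. -/
theorem exists_generic_arc_closed (V : Type) [CommRing V] [IsDomain V]
    [IsDiscreteValuationRing V] [Algebra ℂ V] (r : ℕ) (t : V) (w : Fin r → V)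
    (ht : Irreducible t) (δt : Derivation ℂ V V) (δ : Fin r → Derivation ℂ V V)
    (h1 : δt t = 1) (h2 : ∀ l, δt (w l) = 0) (h3 : ∀ l, δ l t = 0)
    (h4 : ∀ l k, δ l (w k) = if l = k then 1 else 0)
    (h5 : ∀ f, KaehlerDifferential.D ℂ V f = δt f • KaehlerDifferential.D ℂ V t +
        ∑ l, δ l f • KaehlerDifferential.D ℂ V (w l))
    (h6 : ∀ l f, δt (δ l f) = δ l (δt f)) (h7 : ∀ l k f, δ l (δ k f) = δ k (δ l f)) :
    ∃ (L : Type) (_ : Field L) (_ : IsAlgClosed L) (_ : Algebra ℂ L) (Φ : V →ₐ[ℂ] L⟦X⟧),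
      (∀ f, (Φ f).order = IsDiscreteValuationRing.addVal V f) ∧
      ∀ (ζ₀ : L⟦X⟧) (ζ : Fin r → L⟦X⟧), X ∣ ζ₀ →
        ∃ d : Derivation ℂ L L, hat d (Φ t) = ζ₀ ∧ ∀ l, hat d (Φ (w l)) = ζ l := by
  classical
  let κ : Type := IsLocalRing.ResidueField V
  let σ : Type := Option (Fin r) × ℕ
  let L0 : Type := FractionRing (MvPolynomial σ κ)
  let L : Type := AlgebraicClosure L0
  -- the point
  let x : V →ₐ[ℂ] L := (IsScalarTower.toAlgHom ℂ κ L).comp (IsScalarTower.toAlgHom ℂ V κ)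
  let cc : σ → L := fun s => algebraMap L0 L (algebraMap (MvPolynomial σ κ) L0 (MvPolynomial.X s))
  let der : Fin (r + 1) → Derivation ℂ V V := Fin.cons δt δ
  let y : Fin (r + 1) → V := Fin.cons t w
  have hc : ∀ l k b, der l (der k b) = der k (der l b) := by
    intro l k b
    refine Fin.cases ?_ (fun l => ?_) l <;> refine Fin.cases ?_ (fun k => ?_) k
    · rfl
    · exact h6 k b
    · exact (h6 l b).symm
    · exact h7 l k b
  have hy : ∀ l k, der l (y k) = if l = k then 1 else 0 := by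
    intro l k
    refine Fin.cases ?_ (fun l => ?_) l <;> refine Fin.cases ?_ (fun k => ?_) k
    · simpa [der, y] using h1
    · simpa [der, y, Fin.succ_ne_zero, (Fin.succ_ne_zero _).symm] using h2 k
    · simpa [der, y, Fin.succ_ne_zero] using h3 l
    · simpa [der, y] using h4 l k
  -- the arc
  let idx : Fin (r + 1) → Option (Fin r) := Fin.cons none some
  let a : Fin (r + 1) → L⟦X⟧ := fun k => PowerSeries.mk fun i =>
    if i = 0 then 0 else cc (idx k, i)
  have ha0 : ∀ k, MvPowerSeries.constantCoeff (a k) = 0 := by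
    intro k
    change PowerSeries.constantCoeff (a k) = 0
    rw [← PowerSeries.coeff_zero_eq_constantCoeff_apply]
    simp [a]
  have ha : MvPowerSeries.HasSubst a := MvPowerSeries.hasSubst_of_constantCoeff_zero ha0
  have hxt : x t = 0 := by
    change algebraMap κ L (algebraMap V κ t) = 0
    have : algebraMap V κ t = 0 := by
      change IsLocalRing.residue V t = 0
      rw [IsLocalRing.residue_eq_zero_iff, ht.maximalIdeal_eq]
      exact Ideal.mem_span_singleton_self t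
    rw [this, map_zero]
  have hcc : ∀ s, cc s ≠ 0 := by
    intro s h
    have h' := (map_eq_zero_iff _ (algebraMap L0 L).injective).1 h
    have := (map_eq_zero_iff _ (IsFractionRing.injective (MvPolynomial σ κ) L0)).1 h'
    exact MvPolynomial.X_ne_zero s this
  let sb : MvPowerSeries (Fin (r + 1)) L →ₐ[L] L⟦X⟧ := MvPowerSeries.substAlgHom ha
  let Φ : V →ₐ[ℂ] L⟦X⟧ := (sb.restrictScalars ℂ).comp (taylorG der hc x)
  have hsbC : ∀ c : L, sb (MvPowerSeries.C c) = C c := by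
    intro c
    exact sb.commutes c
  have hΦy : ∀ k, Φ (y k) = C (x (y k)) + a k := by
    intro k
    change sb (taylorG der hc x (y k)) = _
    rw [genericArc_taylor_coord der hc y hy x k, map_add, hsbC]
    congr 1
    exact MvPowerSeries.substAlgHom_X ha k
  have hΦ0 : ∀ f, constantCoeff (Φ f) = x f := by
    intro f
    have e1 : MvPowerSeries.constantCoeff (taylorG der hc x f) = x f := by
      rw [← MvPowerSeries.coeff_zero_eq_constantCoeff_apply, coeff_taylorG, tayG, ddG_zero]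
      simp
    have e2 : Φ f = sb (taylorG der hc x f - MvPowerSeries.C (x f)) + C (x f) := by
      rw [map_sub, hsbC, sub_add_cancel]
      rfl
    rw [e2, map_add, constantCoeff_C]
    have e3 : MvPowerSeries.constantCoeff (taylorG der hc x f - MvPowerSeries.C (x f)) = 0 := by
      rw [map_sub, e1, MvPowerSeries.constantCoeff_C, sub_self]
    have e4 := MvPowerSeries.constantCoeff_subst_eq_zero ha ha0 e3
    have e5 : constantCoeff (sb (taylorG der hc x f - MvPowerSeries.C (x f))) = 0 := by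
      change MvPowerSeries.constantCoeff (sb _) = 0
      rw [← e4]
      congr 1
      exact congrFun (MvPowerSeries.coe_substAlgHom ha) _
    rw [e5, zero_add]
  have hΦt : Φ t = a 0 := by
    have := hΦy 0
    simp only [y, Fin.cons_zero, hxt, map_zero, zero_add] at this
    exact this
  have hΦw : ∀ l, Φ (w l) = C (x (w l)) + a l.succ := by
    intro l
    have := hΦy l.succ
    simpa only [y, Fin.cons_succ] using this
  refine ⟨L, inferInstance, inferInstance, inferInstance, Φ, ?_, ?_⟩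
  · -- orders
    have hot : (Φ t).order = 1 := by
      rw [hΦt]
      have : ((1 : ℕ) : ℕ∞) = 1 := rfl
      rw [← this, PowerSeries.order_eq_nat]
      constructor
      · simp only [a, coeff_mk, one_ne_zero, if_false]
        exact hcc _
      · intro i hi
        have : i = 0 := by omega
        subst this
        simp [a]
    intro f
    by_cases hf : f = 0
    · subst hf; simp
    · obtain ⟨k, u, rfl⟩ := IsDiscreteValuationRing.eq_unit_mul_pow_irreducible hf ht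
      have hu : (Φ u).order = 0 := by
        have h := hΦ0 (u : V)
        have hxu : x (u : V) ≠ 0 := (u.isUnit.map x).ne_zero
        have : ((0 : ℕ) : ℕ∞) = 0 := rfl
        rw [← this, PowerSeries.order_eq_nat]
        refine ⟨?_, fun i hi => absurd hi (Nat.not_lt_zero i)⟩
        rw [coeff_zero_eq_constantCoeff_apply, h]
        exact hxu
      rw [map_mul, map_pow, PowerSeries.order_mul, PowerSeries.order_pow, hot, hu]
      rw [IsDiscreteValuationRing.addVal_def _ u ht k rfl]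
      simp
  · -- derivations
    intro ζ₀ ζ hζ₀
    have hex : ∀ l, ∃ e : Derivation ℂ κ κ, ∀ f, e (algebraMap V κ f) =
        algebraMap V κ (δ l f) := by
      intro l
      refine genericArc_desc (V := V) (κ := κ) IsLocalRing.residue_surjective (δ l) ?_
      intro f hf
      have hf' : f ∈ IsLocalRing.maximalIdeal V := by
        rw [← IsLocalRing.residue_eq_zero_iff]; exact hf
      rw [ht.maximalIdeal_eq, Ideal.mem_span_singleton] at hf'
      obtain ⟨g, rfl⟩ := hf'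
      rw [Derivation.leibniz, h3, smul_zero, add_zero, smul_eq_mul, map_mul]
      have : algebraMap V κ t = 0 := by
        change IsLocalRing.residue V t = 0
        rw [IsLocalRing.residue_eq_zero_iff, ht.maximalIdeal_eq]
        exact Ideal.mem_span_singleton_self t
      rw [this, zero_mul]
    choose e he using hex
    have hAI : AlgebraicIndependent ℂ (fun l => algebraMap V κ (w l)) := by
      refine genericArc_algInd e ?_ _ ?_
      · intro l k b
        obtain ⟨f, rfl⟩ := IsLocalRing.residue_surjective (R := V) b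
        change e l (e k (algebraMap V κ f)) = e k (e l (algebraMap V κ f))
        rw [he, he, he, he, h7]
      · intro l k
        rw [he, h4]
        split_ifs <;> simp
    have hAI2 : AlgebraicIndependent κ cc := by
      have := (MvPolynomial.algebraicIndependent_X σ κ).map'
        (f := (IsScalarTower.toAlgHom κ L0 L).comp (IsScalarTower.toAlgHom κ (MvPolynomial σ κ) L0))
        ((algebraMap L0 L).injective.comp (IsFractionRing.injective (MvPolynomial σ κ) L0))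
      exact this
    have hAI3 := hAI.sumElim_comp hAI2
    obtain ⟨d, hd⟩ := exists_derivation _ hAI3
      (Sum.elim (fun s : σ => s.1.elim (coeff s.2 ζ₀) (fun l => coeff s.2 (ζ l)))
        (fun l => coeff 0 (ζ l)))
    have hd1 : ∀ i, d (cc (none, i)) = coeff i ζ₀ := fun i => hd (Sum.inl (none, i))
    have hd2 : ∀ l i, d (cc (some l, i)) = coeff i (ζ l) := fun l i => hd (Sum.inl (some l, i))
    have hd3 : ∀ l, d (x (w l)) = coeff 0 (ζ l) := fun l => hd (Sum.inr l)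
    refine ⟨d, ?_, ?_⟩
    · rw [hΦt]
      ext i
      rw [coeff_hat]
      simp only [a, coeff_mk]
      by_cases hi : i = 0
      · subst hi
        rw [if_pos rfl, map_zero, coeff_zero_eq_constantCoeff_apply, eq_comm,
          ← X_dvd_iff]
        exact hζ₀
      · rw [if_neg hi]
        exact hd1 i
    · intro l
      rw [hΦw]
      ext i
      rw [coeff_hat, map_add, coeff_C]
      simp only [a, coeff_mk]
      by_cases hi : i = 0
      · subst hi
        rw [if_pos rfl, if_pos rfl, add_zero]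
        exact hd3 l
      · rw [if_neg hi, if_neg hi, zero_add]
        exact hd2 l i

end Pool.Agent.Lib_KF

end

/-! ### from `Lib_KF.GLau` -/

section

/-! G5a: Laurent series as a log-differential valued field. -/

open PowerSeries

namespace Pool.Agent.Lib_KF

open Pool.Agent.Lib_GD Pool.Agent.Lib_MP_e0d435_kv

section

variable {L : Type} [Field L] [Algebra ℂ L]

/-- Laurent series. -/
private def GLauM (L : Type) [Field L] [Algebra ℂ L] : Type := HahnSeries ℤ L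

private noncomputable instance GLauField : Field (GLauM L) :=
  inferInstanceAs (Field (HahnSeries ℤ L))

private noncomputable instance GLauAlg : Algebra ℂ (GLauM L) :=
  ((HahnSeries.ofPowerSeries ℤ L).comp (algebraMap ℂ L⟦X⟧)).toAlgebra

private theorem GLau_coeff_mul (c : ℂ) (f : HahnSeries ℤ L) (a : ℤ) :
    (HahnSeries.ofPowerSeries ℤ L (algebraMap ℂ L⟦X⟧ c) * f).coeff a = c • f.coeff a := by
  rw [PowerSeries.algebraMap_apply, HahnSeries.ofPowerSeries_C,
    HahnSeries.C_mul_eq_smul, HahnSeries.coeff_smul, smul_eq_mul, Algebra.smul_def]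

private theorem GLau_coeff_smul (c : ℂ) (f : GLauM L) (a : ℤ) :
    HahnSeries.coeff (c • f : GLauM L) a = c • HahnSeries.coeff f a :=
  GLau_coeff_mul c f a

/-- The coefficientwise action. -/
private noncomputable def GLauMap (δ : Derivation ℂ L L) (f : HahnSeries ℤ L) :
    HahnSeries ℤ L where
  coeff a := δ (f.coeff a)
  isPWO_support' := f.isPWO_support.mono fun a ha h => ha (by
    show δ (f.coeff a) = 0
    rw [h, map_zero])

private theorem GLau_coeff (δ : Derivation ℂ L L) (f : HahnSeries ℤ L) (a : ℤ) :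
    (GLauMap δ f).coeff a = δ (f.coeff a) := rfl

private theorem GLau_supp (δ : Derivation ℂ L L) (f : HahnSeries ℤ L) :
    (GLauMap δ f).support ⊆ f.support := fun a ha h => ha (by
  show δ (f.coeff a) = 0
  rw [h, map_zero])

private theorem GLau_mul (δ : Derivation ℂ L L) (f g : HahnSeries ℤ L) :
    GLauMap δ (f * g) = f * GLauMap δ g + g * GLauMap δ f := by
  ext a
  rw [GLau_coeff, HahnSeries.coeff_mul, map_sum, HahnSeries.coeff_add,
    HahnSeries.coeff_mul_right' g.isPWO_support (GLau_supp δ g), mul_comm g,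
    HahnSeries.coeff_mul_left' f.isPWO_support (GLau_supp δ f), ← Finset.sum_add_distrib]
  refine Finset.sum_congr rfl fun p _ => ?_
  rw [Derivation.leibniz, GLau_coeff, GLau_coeff, smul_eq_mul, smul_eq_mul,
    mul_comm (g.coeff p.2)]

/-- The coefficientwise derivation. -/
private noncomputable def GLauD (δ : Derivation ℂ L L) : Derivation ℂ (GLauM L) (GLauM L) :=
  Derivation.mk'
    { toFun := fun f => GLauMap δ f
      map_add' := fun f g => HahnSeries.ext (funext fun a => map_add δ (HahnSeries.coeff f a)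
        (HahnSeries.coeff g a))
      map_smul' := fun c f => HahnSeries.ext (funext fun a =>
        (congrArg δ (GLau_coeff_smul c f a)).trans
          ((δ.map_smul c (HahnSeries.coeff f a)).trans
            (GLau_coeff_smul c (GLauMap δ f : HahnSeries ℤ L) a).symm)) }
    (fun f g => GLau_mul δ f g)

/-- The field. -/
private noncomputable def GLauL (n : ℕ) (δ : Fin n → Derivation ℂ L L) : LDF n where
  M := GLauM L
  w := (HahnSeries.addVal ℤ L : AddValuation (HahnSeries ℤ L) (WithTop ℤ))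
  t := (HahnSeries.single 1 1 : HahnSeries ℤ L)
  w_t := by
    show HahnSeries.addVal ℤ L (HahnSeries.single 1 1 : HahnSeries ℤ L) = 1
    rw [HahnSeries.addVal_apply, HahnSeries.orderTop_single one_ne_zero]
    rfl
  d := fun i => GLauD (δ i)
  log := fun i f => by
    show HahnSeries.addVal ℤ L (f : HahnSeries ℤ L) ≤ HahnSeries.addVal ℤ L (GLauMap (δ i) f)
    rw [HahnSeries.addVal_apply, HahnSeries.addVal_apply]
    refine HahnSeries.le_orderTop_iff_forall.2 fun a ha => ?_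
    rw [GLau_coeff, HahnSeries.coeff_eq_zero_of_lt_orderTop ha, map_zero]

end

/-- G5a. Proof: `M` is the field of Laurent series `LaurentSeries L` (Hahn series with exponents
in `ℤ`, or the fraction field of `L⟦X⟧`), `w` the order (`HahnSeries.addVal ℤ L`), `t = X`, the
derivations act coefficientwise (a derivation `δ` of `L` over `ℂ` gives
`∑ a_k X^k ↦ ∑ δ(a_k) X^k`, which is a derivation and does not decrease the order; if the
coefficientwise Leibniz rule for Laurent series is awkward write `f = X^(-p) g`, `g ∈ L⟦X⟧`, and use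
`hat_mul`, `hat_X_pow_mul` of `Lib_GD/HatLem.lean`). -/
theorem exists_laurent (L : Type) [Field L] [Algebra ℂ L] (n : ℕ)
    (δ : Fin n → Derivation ℂ L L) :
    ∃ (Λ : LDF n) (ι : L⟦X⟧ →ₐ[ℂ] Λ.M), Function.Injective ι ∧
      (∀ (f : L⟦X⟧) (k : ℕ), f.order = k → ordZ Λ.w (ι f) = k) ∧
      ∀ i f, Λ.d i (ι f) = ι (hat (δ i) f) := by
  let ι : L⟦X⟧ →ₐ[ℂ] (GLauL n δ).M :=
    { (HahnSeries.ofPowerSeries ℤ L) with commutes' := fun _ => rfl }
  have hι : ∀ f : L⟦X⟧, ι f = HahnSeries.ofPowerSeries ℤ L f := fun _ => rfl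
  have hneg : ∀ (f : L⟦X⟧) (a : ℤ), a < 0 → (HahnSeries.ofPowerSeries ℤ L f).coeff a = 0 := by
    intro f a ha
    have h := PowerSeries.coeff_coe (f := f) a
    rw [if_pos ha] at h
    exact h
  refine ⟨GLauL n δ, ι, ?_, ?_, ?_⟩
  · exact HahnSeries.ofPowerSeries_injective
  · intro f k hk
    refine ordZ_eq_of_w _ ?_
    have hc : PowerSeries.coeff k f ≠ 0 := ((PowerSeries.order_eq_nat).1 hk).1
    have hlt : ∀ i, i < k → PowerSeries.coeff i f = 0 := ((PowerSeries.order_eq_nat).1 hk).2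
    show HahnSeries.addVal ℤ L (HahnSeries.ofPowerSeries ℤ L f) = _
    rw [HahnSeries.addVal_apply]
    apply le_antisymm
    · refine HahnSeries.orderTop_le_of_coeff_ne_zero (g := (k : ℤ)) ?_
      rw [HahnSeries.ofPowerSeries_apply_coeff]
      exact hc
    · refine HahnSeries.le_orderTop_iff_forall.2 fun a ha => ?_
      rcases lt_or_ge a 0 with h0 | h0
      · exact hneg f a h0
      · obtain ⟨m, rfl⟩ := Int.eq_ofNat_of_zero_le h0
        rw [HahnSeries.ofPowerSeries_apply_coeff]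
        refine hlt m ?_
        have h1 : ((m : ℤ) : WithTop ℤ) < ((k : ℤ) : WithTop ℤ) := ha
        have h2 : (m : ℤ) < (k : ℤ) := WithTop.coe_lt_coe.1 h1
        exact_mod_cast h2
  · intro i f
    show GLauMap (δ i) (HahnSeries.ofPowerSeries ℤ L f) =
      HahnSeries.ofPowerSeries ℤ L (hat (δ i) f)
    ext a
    rw [GLau_coeff]
    rcases lt_or_ge a 0 with h0 | h0
    · rw [hneg f a h0, hneg _ a h0, map_zero]
    · obtain ⟨m, rfl⟩ := Int.eq_ofNat_of_zero_le h0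
      rw [HahnSeries.ofPowerSeries_apply_coeff, HahnSeries.ofPowerSeries_apply_coeff, coeff_hat]

end Pool.Agent.Lib_KF

end
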