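import Mathlib
import Pool.Agent.Lib_MP_e0d435_m.G04
import Pool.Agent.Lib_MP_e0d435_m.G07
import Pool.Agent.Lib_MP_e0d435_m.G10
import Pool.Agent.Lib_MP_e0d435_m.G11
import Pool.Agent.Lib_MP_e0d435_m.G13
import Pool.Agent.Lib_MP_e0d435_m.G14
import Pool.Agent.Lib_MP_e0d435_m.G15
import Pool.Agent.Lib_MP_e0d435_m.G16

/-!
# MP_e0d435_ag: merged library part G19

Concatenation of library files (each in its own section), only to save build time.
-/

/-! ### from `Lib_GD.ProdKaehler` -/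

section

/-! P04: generators of the differentials of a divisorial valuation ring. -/

namespace Pool.Agent.Lib_GD

/-- differentials of a field extension of `ℂ`: the differentials of a transcendence basis -/
private noncomputable def ProdKaehler_basis (K : Type) [Field K] [Algebra ℂ K] {ι : Type} (u : ι → K)
    (hu : IsTranscendenceBasis ℂ u) :
    { b : Module.Basis ι K (KaehlerDifferential ℂ K) // ∀ i, b i = KaehlerDifferential.D ℂ K (u i) } := by
  classical
  letI : Algebra (MvPolynomial ι ℂ) K := (MvPolynomial.aeval u).toRingHom.toAlgebra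
  have hmap : ∀ p : MvPolynomial ι ℂ, algebraMap (MvPolynomial ι ℂ) K p = MvPolynomial.aeval u p :=
    fun p => rfl
  haveI : IsScalarTower ℂ (MvPolynomial ι ℂ) K := by
    refine IsScalarTower.of_algebraMap_eq fun x => ?_
    rw [hmap, MvPolynomial.algebraMap_eq, MvPolynomial.aeval_C]
  have hinj : Function.Injective (algebraMap (MvPolynomial ι ℂ) K) := hu.1
  haveI : FaithfulSMul (MvPolynomial ι ℂ) K := (faithfulSMul_iff_algebraMap_injective _ _).2 hinj
  haveI halg : Algebra.IsAlgebraic (MvPolynomial ι ℂ) K := by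
    have := hu.isAlgebraic
    refine Algebra.IsAlgebraic.of_ringHom_of_comp_eq (S := Algebra.adjoin ℂ (Set.range u)) (B := K)
      (f := hu.1.aevalEquiv.toRingEquiv.toRingHom) (g := RingHom.id K)
      hu.1.aevalEquiv.surjective Function.injective_id ?_
    ext x
    · simp [hmap]
    · simp [hmap]
  letI : Algebra (FractionRing (MvPolynomial ι ℂ)) K := FractionRing.liftAlgebra _ K
  haveI : IsScalarTower (MvPolynomial ι ℂ) (FractionRing (MvPolynomial ι ℂ)) K :=
    FractionRing.isScalarTower_liftAlgebra _ K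
  haveI : Algebra.IsAlgebraic (FractionRing (MvPolynomial ι ℂ)) K :=
    (IsFractionRing.comap_isAlgebraic_iff (A := MvPolynomial ι ℂ)).1 halg
  haveI : CharZero (FractionRing (MvPolynomial ι ℂ)) := inferInstance
  haveI : Algebra.FormallyEtale (FractionRing (MvPolynomial ι ℂ)) K :=
    Algebra.FormallyEtale.of_isSeparable _ _
  haveI : Algebra.FormallyEtale (MvPolynomial ι ℂ) (FractionRing (MvPolynomial ι ℂ)) :=
    Algebra.FormallyEtale.of_isLocalization (nonZeroDivisors (MvPolynomial ι ℂ))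
  haveI : Algebra.FormallyEtale (MvPolynomial ι ℂ) K :=
    Algebra.FormallyEtale.comp _ (FractionRing (MvPolynomial ι ℂ)) _
  refine ⟨((KaehlerDifferential.mvPolynomialBasis ℂ ι).baseChange K).map
    (KaehlerDifferential.tensorKaehlerEquivOfFormallyEtale ℂ (MvPolynomial ι ℂ) K), fun i => ?_⟩
  rw [Module.Basis.map_apply, Module.Basis.baseChange_apply,
    KaehlerDifferential.mvPolynomialBasis_apply,
    KaehlerDifferential.tensorKaehlerEquivOfFormallyEtale_apply,
    KaehlerDifferential.mapBaseChange_tmul, KaehlerDifferential.map_D, one_smul, hmap,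
    MvPolynomial.aeval_X]

/-- the residues: if the differentials of the `ū i` span `Ω_κ`, then `dt` and the `du i` span `Ω_V` -/
private theorem ProdKaehler_span (V : Type) [CommRing V] [IsDomain V] [IsDiscreteValuationRing V]
    [Algebra ℂ V] [Algebra.EssFiniteType ℂ V] {ι : Type} (t : V) (ht : Irreducible t) (u : ι → V)
    (hu : Submodule.span (IsLocalRing.ResidueField V)
      (Set.range fun i => KaehlerDifferential.D ℂ (IsLocalRing.ResidueField V)
        (IsLocalRing.residue V (u i))) = ⊤) :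
    Submodule.span V (Set.range fun o : Option ι =>
      o.elim (KaehlerDifferential.D ℂ V t) (fun i => KaehlerDifferential.D ℂ V (u i))) = ⊤ := by
  have hsurj : Function.Surjective (algebraMap V (IsLocalRing.ResidueField V)) :=
    IsLocalRing.residue_surjective
  rw [← IsLocalRing.map_tensorProduct_mk_eq_top, Submodule.map_span, ← Set.range_comp,
    ← Submodule.restrictScalars_span V (IsLocalRing.ResidueField V) hsurj,
    Submodule.restrictScalars_eq_top_iff, eq_top_iff]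
  set S := Submodule.span (IsLocalRing.ResidueField V) (Set.range
    ((TensorProduct.mk V (IsLocalRing.ResidueField V) (KaehlerDifferential ℂ V) 1) ∘
      fun o : Option ι => o.elim (KaehlerDifferential.D ℂ V t)
        (fun i => KaehlerDifferential.D ℂ V (u i)))) with hS
  have h1 : (1 : IsLocalRing.ResidueField V) ⊗ₜ[V] KaehlerDifferential.D ℂ V t ∈ S :=
    Submodule.subset_span ⟨none, rfl⟩
  have h2 : ∀ i, (1 : IsLocalRing.ResidueField V) ⊗ₜ[V] KaehlerDifferential.D ℂ V (u i) ∈ S :=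
    fun i => Submodule.subset_span ⟨some i, rfl⟩
  -- the kernel
  have hker : ∀ x, KaehlerDifferential.mapBaseChange ℂ V (IsLocalRing.ResidueField V) x = 0 →
      x ∈ S := by
    intro x hx
    obtain ⟨y, rfl⟩ := (KaehlerDifferential.exact_kerCotangentToTensor_mapBaseChange ℂ V
      (IsLocalRing.ResidueField V) hsurj x).1 hx
    obtain ⟨⟨a, ha⟩, rfl⟩ := Ideal.toCotangent_surjective _ y
    rw [KaehlerDifferential.kerCotangentToTensor_toCotangent]
    have ha' : a ∈ IsLocalRing.maximalIdeal V := by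
      rw [RingHom.mem_ker] at ha
      exact (IsLocalRing.residue_eq_zero_iff a).1 ha
    rw [ht.maximalIdeal_eq, Ideal.mem_span_singleton] at ha'
    obtain ⟨b, rfl⟩ := ha'
    have ht0 : (algebraMap V (IsLocalRing.ResidueField V)) t = 0 := by
      have : t ∈ IsLocalRing.maximalIdeal V := by
        rw [ht.maximalIdeal_eq]; exact Ideal.mem_span_singleton_self t
      exact (IsLocalRing.residue_eq_zero_iff t).2 this
    have e : (1 : IsLocalRing.ResidueField V) ⊗ₜ[V] KaehlerDifferential.D ℂ V (t * b) =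
        algebraMap V (IsLocalRing.ResidueField V) b •
          ((1 : IsLocalRing.ResidueField V) ⊗ₜ[V] KaehlerDifferential.D ℂ V t) := by
      rw [Derivation.leibniz, TensorProduct.tmul_add, ← TensorProduct.smul_tmul,
        ← TensorProduct.smul_tmul, ← Algebra.algebraMap_eq_smul_one,
        ← Algebra.algebraMap_eq_smul_one, ht0, TensorProduct.zero_tmul, zero_add,
        TensorProduct.smul_tmul', smul_eq_mul, mul_one]
    rw [e]
    exact S.smul_mem _ h1
  intro x _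
  have hx : KaehlerDifferential.mapBaseChange ℂ V (IsLocalRing.ResidueField V) x ∈
      Submodule.map (KaehlerDifferential.mapBaseChange ℂ V (IsLocalRing.ResidueField V)) S := by
    have h3 : Submodule.map (KaehlerDifferential.mapBaseChange ℂ V (IsLocalRing.ResidueField V)) S
        = ⊤ := by
      rw [eq_top_iff, ← hu, Submodule.span_le]
      rintro _ ⟨i, rfl⟩
      refine ⟨_, h2 i, ?_⟩
      rw [KaehlerDifferential.mapBaseChange_tmul, KaehlerDifferential.map_D, one_smul]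
      rfl
    rw [h3]
    exact Submodule.mem_top
  obtain ⟨y, hy, hxy⟩ := hx
  have h4 : x - y ∈ S := hker _ (by rw [map_sub, hxy, sub_self])
  have := S.add_mem h4 hy
  rwa [sub_add_cancel] at this

/-- lifts of algebraically independent residues and `t` are algebraically independent -/
private theorem ProdKaehler_indep (V : Type) [CommRing V] [IsDomain V] [IsDiscreteValuationRing V]
    [Algebra ℂ V] {ι : Type} (t : V) (ht : Irreducible t) (u : ι → V)
    (hu : AlgebraicIndependent ℂ fun i => IsLocalRing.residue V (u i)) :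
    AlgebraicIndependent ℂ fun o : Option ι => o.elim t u := by
  let f : V →ₐ[ℂ] IsLocalRing.ResidueField V := IsScalarTower.toAlgHom ℂ V _
  have hf : ∀ x, f x = IsLocalRing.residue V x := fun x => rfl
  have hu1 : AlgebraicIndependent ℂ (f ∘ u) := hu
  have hu2 : AlgebraicIndependent ℂ u := hu1.of_comp f
  rw [hu2.option_iff_transcendental]
  -- elements of `adjoin` with residue zero vanish
  have hA : ∀ x ∈ Algebra.adjoin ℂ (Set.range u), f x = 0 → x = 0 := by
    intro x hx h0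
    rw [Algebra.adjoin_range_eq_range_aeval] at hx
    obtain ⟨p, rfl⟩ := hx
    have h1 : MvPolynomial.aeval (f ∘ u) p = 0 := by
      rw [← h0]
      change _ = f (MvPolynomial.aeval u p)
      rw [MvPolynomial.comp_aeval_apply]
      rfl
    have h2 : p = 0 := hu1 (by rw [h1, map_zero])
    rw [h2]
    exact map_zero _
  have ht0 : f t = 0 := by
    rw [hf]
    refine (IsLocalRing.residue_eq_zero_iff t).2 ?_
    rw [ht.maximalIdeal_eq]
    exact Ideal.mem_span_singleton_self t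
  rw [transcendental_iff]
  intro p
  induction hn : p.natDegree using Nat.strong_induction_on generalizing p with
  | _ n ih =>
    intro hp
    have hdiv := Polynomial.divX_mul_X_add p
    have h0 : p.coeff 0 = 0 := by
      have h1 : f (Polynomial.aeval t p) = 0 := by rw [hp, map_zero]
      rw [← hdiv, map_add, map_mul, Polynomial.aeval_X, Polynomial.aeval_C, map_add, map_mul, ht0,
        mul_zero, zero_add] at h1
      exact Subtype.ext (hA _ (p.coeff 0).2 h1)
    rw [h0, Polynomial.C_0, add_zero] at hdiv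
    by_cases hd : p.natDegree = 0
    · rw [Polynomial.eq_C_of_natDegree_eq_zero hd, h0, Polynomial.C_0]
    · have h2 : Polynomial.aeval t p.divX = 0 := by
        rw [← hdiv, map_mul, Polynomial.aeval_X] at hp
        exact (mul_eq_zero.1 hp).resolve_right ht.ne_zero
      have h3 : p.divX = 0 := by
        refine ih p.divX.natDegree ?_ p.divX rfl h2
        rw [Polynomial.natDegree_divX_eq_natDegree_tsub_one]
        omega
      rw [← hdiv, h3, zero_mul]

/-- P04: if `t` is a uniformiser and the residues of the `w_i` are `trdeg V - 1` algebraically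
independent elements, then `Ω_V` is generated by `dt` and the `dw_i`. Proof: by A01 `Ω_V` is
finitely generated; by Nakayama it suffices that a derivation of `V` with values in the residue
field `κ` killing `t` and the `w_i` vanishes; it kills the maximal ideal, so it descends to `κ`,
which is algebraic over `ℂ(w_i)` (A01 for `V` gives coordinates `t', w'`; the residue field is
algebraic over the residues of the `w'`, so `trdeg κ ≤ trdeg V - 1`). -/
theorem span_D_eq_top (V : Type) [CommRing V] [IsDomain V] [IsDiscreteValuationRing V]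
    [Algebra ℂ V] [Algebra.EssFiniteType ℂ V] {ι : Type} [Fintype ι]
    (hr : Algebra.trdeg ℂ V = (Fintype.card ι + 1 : ℕ)) (t : V) (ht : Irreducible t) (w : ι → V)
    (hw : AlgebraicIndependent ℂ (fun i => IsLocalRing.residue V (w i))) :
    Submodule.span V (insert (KaehlerDifferential.D ℂ V t)
      (Set.range fun i => KaehlerDifferential.D ℂ V (w i))) = ⊤ := by
  classical
  obtain ⟨ι', ub, hub⟩ := exists_isTranscendenceBasis' ℂ (IsLocalRing.ResidueField V)
  have hlift : ∀ i, ∃ v : V, IsLocalRing.residue V v = ub i :=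
    fun i => IsLocalRing.residue_surjective (ub i)
  choose u hu using hlift
  have hind : AlgebraicIndependent ℂ fun o : Option ι' => o.elim t u := by
    refine ProdKaehler_indep V t ht u ?_
    simp only [hu]
    exact hub.1
  have hcard : Cardinal.mk (Option ι') ≤ (Fintype.card ι + 1 : ℕ) := by
    rw [← hr]
    exact hind.cardinalMk_le_trdeg
  have hle : Algebra.trdeg ℂ (IsLocalRing.ResidueField V) ≤ Cardinal.mk ι := by
    rw [← hub.cardinalMk_eq_trdeg, Cardinal.mk_fintype ι]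
    rw [Cardinal.mk_option] at hcard
    push_cast at hcard
    exact (Cardinal.add_le_add_iff_of_lt_aleph0 Cardinal.one_lt_aleph0).1 hcard
  have hwb : IsTranscendenceBasis ℂ (fun i => IsLocalRing.residue V (w i)) := by
    exact hw.isTranscendenceBasis_of_trdeg_le (hle.trans_lt (Cardinal.mk_lt_aleph0)) hle
  have h1 := ProdKaehler_span V t ht w (by
    obtain ⟨b, hb⟩ := ProdKaehler_basis (IsLocalRing.ResidueField V) _ hwb
    simp only [← hb]
    exact b.span_eq)
  rw [eq_top_iff, ← h1]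
  refine Submodule.span_mono ?_
  rintro _ ⟨o, rfl⟩
  rcases o with _ | i
  · exact Set.mem_insert _ _
  · exact Set.mem_insert_of_mem _ ⟨i, rfl⟩

end Pool.Agent.Lib_GD

end

/-! ### from `Lib_GD.OkMain` -/

section

/-! B05: the uniform estimate `S_m ≤ (1 + ε) S`, combinatorial form. -/

open scoped ENNReal
open MeasureTheory

namespace Pool.Agent.Lib_GD.OkData

variable {n : ℕ} (D : OkData n)

/-- B05: the uniform estimate. -/
theorem sum_le_S (ε : ℝ) (hε : 0 < ε) : ∃ m₁ : ℕ, ∀ m, m₁ ≤ m →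
    ∀ g : ℕ → (Fin n → ℕ) → ℕ, D.IsWeight g →
      ((∑ γ ∈ D.Γ m, g m γ : ℕ) : ℝ≥0∞) ≤
        ENNReal.ofReal (1 + ε) * ((m * (D.Γ m).card : ℕ) : ℝ≥0∞) * D.S g := by
  -- the parameters
  obtain ⟨δ, hδ⟩ : ∃ δ : ℝ, δ = ε / (1 + ε) := ⟨_, rfl⟩
  have hε1 : (0 : ℝ) < 1 + ε := by linarith
  have hδ0 : 0 < δ := by rw [hδ]; positivity
  have hδ1 : δ < 1 := by rw [hδ, div_lt_one hε1]; linarith
  have hδε : (1 + ε) * (1 - δ) = 1 := by rw [hδ]; field_simp; ring
  have hn1 : (0 : ℝ) < (n : ℝ) + 1 := by positivity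
  obtain ⟨θ, hθdef⟩ : ∃ θ : ℝ, θ = δ / (2 * ((n : ℝ) + 1)) := ⟨_, rfl⟩
  have hθ0 : 0 < θ := by rw [hθdef]; positivity
  have hθn : ((n : ℝ) + 1) * θ = δ / 2 := by rw [hθdef]; field_simp
  have hθ1 : θ < 1 := by
    have h1 : θ ≤ ((n : ℝ) + 1) * θ := by
      have : (0 : ℝ) ≤ n := Nat.cast_nonneg n
      nlinarith
    linarith
  have hbern : 1 - δ / 2 ≤ (1 - θ) ^ (n + 1) := by
    have h1 := one_add_mul_le_pow (a := -θ) (by linarith) (n + 1)
    have h2 : (1 : ℝ) + ((n + 1 : ℕ) : ℝ) * (-θ) = 1 - δ / 2 := by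
      push_cast
      linarith
    rw [h2] at h1
    have h3 : (1 : ℝ) + -θ = 1 - θ := by ring
    rwa [h3] at h1
  obtain ⟨m₂, hm₂⟩ := D.vol_le (δ / 2) (by linarith) (by linarith)
  obtain ⟨m₃, hm₃⟩ := exists_nat_ge (((n : ℝ) / θ + 1) / D.c)
  refine ⟨max (max m₂ m₃) (max D.m₀ 1), fun m hm g hg => ?_⟩
  have hmm₂ : m₂ ≤ m := le_trans (le_trans (le_max_left _ _) (le_max_left _ _)) hm
  have hmm₃ : m₃ ≤ m := le_trans (le_trans (le_max_right _ _) (le_max_left _ _)) hm
  have hmm₀ : D.m₀ ≤ m := le_trans (le_trans (le_max_left _ _) (le_max_right _ _)) hm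
  have hθm : (n : ℝ) / θ ≤ D.c * m - 1 := by
    have h1 : ((n : ℝ) / θ + 1) / D.c ≤ m := hm₃.trans (by exact_mod_cast hmm₃)
    rw [div_le_iff₀ D.hc] at h1
    linarith
  -- the three estimates
  have e1 := D.sum_le_integral g m hmm₀ θ hθ0 hθ1 hθm
  have e2 := D.integral_lev_le g hg m hmm₀
  have e3 := hm₂ m hmm₂
  have eI : (∫⁻ t in Set.Ioi (0 : ℝ), D.volt g t) = D.S g * D.vol := by
    unfold OkData.S
    exact (ENNReal.div_mul_cancel D.vol_ne_zero D.vol_ne_top).symm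
  rw [eI] at e2
  generalize (∫⁻ s in Set.Ioi (0 : ℝ), volume (D.lev g m s)) = J at e1 e2
  generalize D.S g = S at e2 ⊢
  generalize D.vol = V at e2 e3
  generalize ((∑ γ ∈ D.Γ m, g m γ : ℕ) : ℝ≥0∞) = Y at e1 ⊢
  obtain ⟨p, hp⟩ : ∃ p : ℝ≥0∞, p = ENNReal.ofReal ((1 - θ) ^ (n + 1)) := ⟨_, rfl⟩
  obtain ⟨q, hq⟩ : ∃ q : ℝ≥0∞, q = ENNReal.ofReal (1 - δ / 2) := ⟨_, rfl⟩
  rw [← hp] at e1
  rw [← hq] at e3
  have hpq : 1 ≤ ENNReal.ofReal (1 + ε) * (p * q) := by
    rw [hp, hq, ← ENNReal.ofReal_mul (by positivity), ← ENNReal.ofReal_mul (by linarith)]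
    rw [← ENNReal.ofReal_one]
    apply ENNReal.ofReal_le_ofReal
    have h1 : (1 - δ / 2) * (1 - δ / 2) ≤ (1 - θ) ^ (n + 1) * (1 - δ / 2) :=
      mul_le_mul_of_nonneg_right hbern (by linarith)
    have h2 : 1 - δ ≤ (1 - δ / 2) * (1 - δ / 2) := by nlinarith
    calc (1 : ℝ) = (1 + ε) * (1 - δ) := hδε.symm
      _ ≤ (1 + ε) * ((1 - θ) ^ (n + 1) * (1 - δ / 2)) :=
        mul_le_mul_of_nonneg_left (h2.trans h1) hε1.le
  have hfac0 : (n.factorial : ℝ≥0∞) ≠ 0 := by
    exact_mod_cast n.factorial_ne_zero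
  have hfact : (n.factorial : ℝ≥0∞) ≠ ⊤ := ENNReal.natCast_ne_top _
  have key : (n.factorial : ℝ≥0∞) * ((p * q) * Y) ≤
      (n.factorial : ℝ≥0∞) * (((m * (D.Γ m).card : ℕ) : ℝ≥0∞) * S) := by
    calc (n.factorial : ℝ≥0∞) * ((p * q) * Y) = q * ((n.factorial : ℝ≥0∞) * (p * Y)) := by ring
      _ ≤ q * ((n.factorial : ℝ≥0∞) * J) := by gcongr
      _ ≤ q * ((m : ℝ≥0∞) ^ (n + 1) * (S * V)) := by gcongr
      _ = (m : ℝ≥0∞) * S * ((m : ℝ≥0∞) ^ n * (q * V)) := by ring
      _ ≤ (m : ℝ≥0∞) * S * ((m : ℝ≥0∞) ^ n *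
          (((n.factorial * (D.Γ m).card : ℕ) : ℝ≥0∞) / (m : ℝ≥0∞) ^ n)) := by gcongr
      _ ≤ (m : ℝ≥0∞) * S * ((n.factorial * (D.Γ m).card : ℕ) : ℝ≥0∞) := by
        gcongr
        exact ENNReal.mul_div_le
      _ = (n.factorial : ℝ≥0∞) * (((m * (D.Γ m).card : ℕ) : ℝ≥0∞) * S) := by
        push_cast
        ring
  have key2 : (p * q) * Y ≤ ((m * (D.Γ m).card : ℕ) : ℝ≥0∞) * S :=
    (ENNReal.mul_le_mul_iff_right hfac0 hfact).1 key
  calc Y = 1 * Y := (one_mul _).symm
    _ ≤ (ENNReal.ofReal (1 + ε) * (p * q)) * Y := by gcongr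
    _ = ENNReal.ofReal (1 + ε) * ((p * q) * Y) := by ring
    _ ≤ ENNReal.ofReal (1 + ε) * (((m * (D.Γ m).card : ℕ) : ℝ≥0∞) * S) := by gcongr
    _ = ENNReal.ofReal (1 + ε) * ((m * (D.Γ m).card : ℕ) : ℝ≥0∞) * S := by ring

end Pool.Agent.Lib_GD.OkData

end

/-! ### from `Lib_KF.CElim` -/

section

/-! C06: elimination for jets with poles. -/

open PowerSeries

namespace Pool.Agent.Lib_KF.ArcSys

open Pool.Agent.Lib_GD (hat colen FinColen ArcSystem)

variable {L : Type} [Field L] [Algebra ℂ L] {n N : ℕ} (Γ : ArcSys L n N)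

private theorem CElim_finite (n q : ℕ) : Finite {α : Fin n →₀ ℕ // α.degree < q} := by
  refine Set.Finite.subset
    (Set.finite_Iic (Finsupp.equivFunOnFinite.symm (fun _ : Fin n => q))) ?_
  intro α hα i
  have h1 : α i ≤ α.degree := Finsupp.le_degree i α
  have h2 : α.degree < q := hα
  rw [Finsupp.equivFunOnFinite_symm_apply_apply]
  omega

/-- (Sep') for coefficients indexed by the finite type of the multi-indices of degree `< q` -/
private theorem CElim_sep {q : ℕ} (hq : Γ.HSep q) (j : Fin N)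
    [Fintype {α : Fin n →₀ ℕ // α.degree < q}] (k : ℕ)
    (c : {α : Fin n →₀ ℕ // α.degree < q} → L⟦X⟧)
    (h : ∀ f, (X : L⟦X⟧) ^ k ∣ ∑ α, c α * Γ.ev j α.1 f)
    (α : {α : Fin n →₀ ℕ // α.degree < q}) : (X : L⟦X⟧) ^ k ∣ X ^ (2 * q * Γ.e j) * c α := by
  classical
  set c' : (Fin n →₀ ℕ) → L⟦X⟧ := fun α => if h : α.degree < q then c ⟨α, h⟩ else 0 with hc'
  have hc : ∀ α : {α : Fin n →₀ ℕ // α.degree < q}, c' α.1 = c α := fun α => by
    rw [hc']
    simp only
    rw [dif_pos α.2]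
  have h1 := hq j k ((Finset.univ : Finset {α : Fin n →₀ ℕ // α.degree < q}).map
    (Function.Embedding.subtype _)) c' (by
      intro β hβ
      obtain ⟨γ, -, rfl⟩ := Finset.mem_map.1 hβ
      exact γ.2) (by
      intro f
      rw [Finset.sum_map]
      have h2 := h f
      simp only [Function.Embedding.subtype_apply, hc]
      exact h2) α.1 (Finset.mem_map.2 ⟨α, Finset.mem_univ _, rfl⟩)
  rwa [hc] at h1

private theorem CElim_li {q : ℕ} (hq : Γ.HSep q) (j : Fin N)
    [Fintype {α : Fin n →₀ ℕ // α.degree < q}] :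
    LinearIndependent L⟦X⟧ (fun α : {α : Fin n →₀ ℕ // α.degree < q} => Γ.ev j α.1) := by
  rw [Fintype.linearIndependent_iff]
  intro c hc α
  have h1 : ∀ k, (X : L⟦X⟧) ^ k ∣ X ^ (2 * q * Γ.e j) * c α := by
    intro k
    refine CElim_sep Γ hq j k c (fun f => ?_) α
    have h2 := LinearMap.congr_fun hc f
    simp only [LinearMap.sum_apply, LinearMap.smul_apply, smul_eq_mul, LinearMap.zero_apply] at h2
    rw [h2]
    exact dvd_zero _
  have h2 : (X : L⟦X⟧) ^ (2 * q * Γ.e j) * c α = 0 := by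
    ext m
    have h3 := h1 (m + 1)
    rw [PowerSeries.X_pow_dvd_iff] at h3
    rw [h3 m (Nat.lt_succ_self m), map_zero]
  exact (mul_eq_zero.1 h2).resolve_left (pow_ne_zero _ PowerSeries.X_ne_zero)

/-- K07a with poles. Let `T = {α // |α| < q}` (a finite type). By (Sep') the `ev j α`, `α ∈ T`,
are linearly independent over `O` (a relation is `0` modulo every `X ^ k`). Take the saturation
`g_k` (`exists_saturation`), `X ^ m g_k = ∑ c_α ev j α`; (Sep') for `c` gives
`X ^ m ∣ X ^ (2 q e_j) c_α`, so `X ^ (2 q e_j) X ^ m g_k f = ∑ X ^ (2 q e_j) c_α ev j α f` is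
divisible by `X ^ m X ^ (β + 2 q e_j)` for `f ∈ W_S`, i.e. `X ^ β ∣ g_k f`. Apply `elim_general`
to `ev i = Γ.ev i 0`. -/
theorem exists_elim {q : ℕ} (hq : Γ.HSep q) (S : Finset (Fin N)) (j : Fin N)
    (hj : j ∉ S) (β : ℕ) (hβ : 1 ≤ β)
    (h : ∀ f ∈ Γ.W S, ∀ α : Fin n →₀ ℕ, α.degree < q →
      (X : L⟦X⟧) ^ (β + 2 * q * Γ.e j) ∣ Γ.ev j α f) :
    ∃ J, J ⊆ S ∧ J.card + Nat.card {α : Fin n →₀ ℕ // α.degree < q} ≤ S.card ∧
      (∀ f : Fin N → L⟦X⟧, (∀ α : Fin n →₀ ℕ, α.degree < q → Γ.ev j α f = 0) →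
        (∀ i ∈ J, Γ.ev i 0 f = 0) → ∀ i ∈ S, (X : L⟦X⟧) ^ β ∣ Γ.ev i 0 f) ∧
      ∃ f : Fin N → L⟦X⟧, (∀ α : Fin n →₀ ℕ, α.degree < q → Γ.ev j α f = 0) ∧
        (∀ i ∈ J, Γ.ev i 0 f = 0) ∧ ∃ i, constantCoeff (f i) ≠ 0 := by
  classical
  have hfinT := CElim_finite n q
  let : Fintype {α : Fin n →₀ ℕ // α.degree < q} := Fintype.ofFinite _
  obtain ⟨g, hg, hker, hcomb⟩ := exists_saturation
    (fun α : {α : Fin n →₀ ℕ // α.degree < q} => Γ.ev j α.1) (CElim_li Γ hq j)
  have hX : ∀ m : ℕ, (X : L⟦X⟧) ^ m ≠ 0 := fun m => pow_ne_zero _ PowerSeries.X_ne_zero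
  have hSN : S.card < N := by
    have h10 : S.card < (Finset.univ : Finset (Fin N)).card :=
      Finset.card_lt_card ⟨Finset.subset_univ _, fun hsub => hj (hsub (Finset.mem_univ j))⟩
    rwa [Finset.card_univ, Fintype.card_fin] at h10
  obtain ⟨J, hJS, hJc, hJ1, f₀, hf₀, hf₀J, hf₀c⟩ := elim_general (fun i => Γ.ev i 0) S hSN g hg β hβ
    (by
      intro f hf k
      obtain ⟨m, c, hmc⟩ := hcomb k
      have h1 := CElim_sep Γ hq j m c (fun f => ⟨g k f, (hmc f).symm⟩)
      have h2 : (X : L⟦X⟧) ^ (m + (β + 2 * q * Γ.e j)) ∣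
          X ^ (2 * q * Γ.e j) * (X ^ m * g k f) := by
        rw [hmc f, Finset.mul_sum]
        refine Finset.dvd_sum fun α _ => ?_
        rw [← mul_assoc, pow_add]
        exact mul_dvd_mul (h1 α) (h f hf α.1 α.2)
      have h3 : (X : L⟦X⟧) ^ (m + (β + 2 * q * Γ.e j)) = X ^ (2 * q * Γ.e j + m) * X ^ β := by
        rw [← pow_add]
        congr 1
        omega
      have h4 : (X : L⟦X⟧) ^ (2 * q * Γ.e j) * (X ^ m * g k f) =
          X ^ (2 * q * Γ.e j + m) * g k f := by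
        rw [← mul_assoc, ← pow_add]
      rw [h3, h4] at h2
      exact (mul_dvd_mul_iff_left (hX _)).1 h2)
  refine ⟨J, hJS, ?_, ?_, f₀, ?_, hf₀J, hf₀c⟩
  · rw [Nat.card_eq_fintype_card]
    exact hJc
  · intro f hf hfJ i hi
    exact hJ1 f ((hker f).1 fun α => hf α.1 α.2) hfJ i hi
  · intro α hα
    exact (hker f₀).2 hf₀ ⟨α, hα⟩

/-- The number of jets is at most the number of sections. -/
theorem card_le {q : ℕ} (hq : Γ.HSep q) (j : Fin N) :
    Nat.card {α : Fin n →₀ ℕ // α.degree < q} ≤ N := by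
  classical
  have hfinT := CElim_finite n q
  let : Fintype {α : Fin n →₀ ℕ // α.degree < q} := Fintype.ofFinite _
  obtain ⟨g, hg, -, -⟩ := exists_saturation
    (fun α : {α : Fin n →₀ ℕ // α.degree < q} => Γ.ev j α.1) (CElim_li Γ hq j)
  have h1 := hg.fintype_card_le_finrank
  rwa [Module.finrank_fin_fun, Fintype.card_fin, ← Nat.card_eq_fintype_card] at h1

end Pool.Agent.Lib_KF.ArcSys

end

/-! ### from `Lib_KF.CEPrime` -/

section

/-! C07: the estimate (E') with poles. -/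

open PowerSeries

namespace Pool.Agent.Lib_KF.ArcSys

open Pool.Agent.Lib_GD (hat colen FinColen ArcSystem)

variable {L : Type} [Field L] [Algebra ℂ L] {n N : ℕ} (Γ : ArcSys L n N)

/-- Sections with vanishing jets of order `< q` at `x_j` which vanish at the points of `J`. -/
private def CEPrime_W (q : ℕ) (j : Fin N) (J : Finset (Fin N)) :
    Submodule L⟦X⟧ (Fin N → L⟦X⟧) where
  carrier := {f | (∀ α : Fin n →₀ ℕ, α.degree < q → Γ.ev j α f = 0) ∧ ∀ i ∈ J, Γ.ev i 0 f = 0}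
  add_mem' {f g} hf hg := ⟨fun α hα => by rw [map_add, hf.1 α hα, hg.1 α hα, add_zero],
    fun i hi => by rw [map_add, hf.2 i hi, hg.2 i hi, add_zero]⟩
  zero_mem' := ⟨fun α _ => map_zero _, fun i _ => map_zero _⟩
  smul_mem' c f hf := ⟨fun α hα => by rw [map_smul, hf.1 α hα, smul_zero],
    fun i hi => by rw [map_smul, hf.2 i hi, smul_zero]⟩

/-- A derivation killing `x_j` preserves the vanishing of a jet at `x_j`. -/
private theorem CEPrime_zero (S : Finset (Fin N)) (δ : Derivation ℂ L L) (hδ : δ ∈ Γ.Dker S)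
    {j : Fin N} (hj : j ∈ S) (α : Fin n →₀ ℕ) (f : Fin N → L⟦X⟧) (hf : Γ.ev j α f = 0) :
    Γ.ev j α (fun i => hat δ (f i)) = 0 := by
  have h := Γ.hat_ev_of_mem S δ hδ hj α f
  rw [hf, Pool.Agent.Lib_GD.hat_zero, mul_zero, add_zero] at h
  exact h.symm

private theorem CEPrime_stable (q : ℕ) (j : Fin N) (J : Finset (Fin N)) :
    Γ.Stable (insert j J) (Γ.CEPrime_W q j J) := by
  intro δ hδ f hf
  exact ⟨fun α hα => Γ.CEPrime_zero (insert j J) δ hδ (Finset.mem_insert_self j J) α f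
      (hf.1 α hα),
    fun i hi => Γ.CEPrime_zero (insert j J) δ hδ (Finset.mem_insert_of_mem hi) 0 f (hf.2 i hi)⟩

/-- K07b (E') with poles; as `Lib_GD.ArcSystem.phi_le_max`. Suppose `φ > 4 q C₁ c(j|S)`, so
`φ > 4 q (a + e)` by `HUP`, and put `β = (φ + 1) / 2`. By `jet_dvd`, for `f ∈ W_S`, `|α| < q`,
`ord ev j α f ≥ φ - (q - 1) a ≥ β + 2 q e_j`, so `exists_elim` applies. For `i ∈ S \ J`,
`β ≤ D max(a(i | J ∪ j), e_i) ≤ D C₁ c(i | J ∪ j)` by `le_of_primitive` (sections with vanishing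
jets of order `< q` at `x_j` which vanish at `J` form a submodule stable under `Dker (J ∪ j)`,
by `hat_ev_of_mem`). Sum over `i ∈ S \ J` with `cc_sum_le`. -/
theorem phi_le_max (hdet : Γ.det ≠ 0) {D q C₁ : ℕ} (hD : Γ.HT D) (hq : Γ.HSep q) (hq1 : 1 ≤ q)
    (hUP : Γ.HUP C₁) (S : Finset (Fin N)) (j : Fin N) (hj : j ∉ S) :
    Γ.phi j S ≤ 4 * q * C₁ * Γ.cc j S ∨
      Nat.card {α : Fin n →₀ ℕ // α.degree < q} * Γ.phi j S ≤ 2 * D * C₁ * Γ.AA := by
  classical
  rcases le_or_gt (Γ.phi j S) (4 * q * C₁ * Γ.cc j S) with hle | hgt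
  · exact Or.inl hle
  refine Or.inr ?_
  have hup := (hUP j S hj).2
  have hbig : 4 * (q * Γ.cost j S) + 4 * (q * Γ.e j) < Γ.phi j S := by
    calc 4 * (q * Γ.cost j S) + 4 * (q * Γ.e j) = 4 * q * (Γ.cost j S + Γ.e j) := by ring
      _ ≤ 4 * q * (C₁ * Γ.cc j S) := Nat.mul_le_mul_left _ hup
      _ = 4 * q * C₁ * Γ.cc j S := by ring
      _ < Γ.phi j S := hgt
  have hjets : ∀ f ∈ Γ.W S, ∀ α : Fin n →₀ ℕ, α.degree < q →
      (X : L⟦X⟧) ^ ((Γ.phi j S + 1) / 2 + 2 * q * Γ.e j) ∣ Γ.ev j α f := by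
    intro f hf α hα
    have h1 := Γ.jet_dvd S j hj (Γ.W S) (Γ.stable_W S) (Γ.phi j S)
      (Γ.X_pow_phi_dvd hdet S j hj) α f hf
    have h2 : α.degree * Γ.cost j S ≤ q * Γ.cost j S := Nat.mul_le_mul_right _ hα.le
    have h3 : 2 * q * Γ.e j = 2 * (q * Γ.e j) := by ring
    rw [h3]
    obtain ⟨d, hd⟩ : ∃ d, Γ.phi j S + α.degree * Γ.e j = α.degree * Γ.cost j S + d := by
      exact Nat.exists_eq_add_of_le (by omega)
    have h4 : (Γ.phi j S + 1) / 2 + 2 * (q * Γ.e j) ≤ d := by omega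
    rw [hd, pow_add] at h1
    have h5 : (X : L⟦X⟧) ^ (α.degree * Γ.cost j S) ≠ 0 := pow_ne_zero _ X_ne_zero
    have h6 := (mul_dvd_mul_iff_left h5).1 h1
    exact (pow_dvd_pow _ h4).trans h6
  obtain ⟨J, hJS, hJc, hJ, f0, hf0, hf0', i0, hi0⟩ := Γ.exists_elim hq S j hj
    ((Γ.phi j S + 1) / 2) (by omega) hjets
  have hnot : ∀ i ∈ S \ J, i ∉ insert j J := by
    intro i hi
    rw [Finset.mem_sdiff] at hi
    rw [Finset.mem_insert, not_or]
    exact ⟨fun h => hj (h ▸ hi.1), hi.2⟩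
  have hcost : ∀ i ∈ S \ J, (Γ.phi j S + 1) / 2 ≤ D * C₁ * Γ.cc i (insert j J) := by
    intro i hi
    have hi' := hnot i hi
    have h1 := Γ.le_of_primitive hD (insert j J) i hi' (Γ.CEPrime_W q j J)
      (Γ.CEPrime_stable q j J) ((Γ.phi j S + 1) / 2)
      (fun f hf => hJ f hf.1 hf.2 i (Finset.mem_sdiff.1 hi).1) ⟨f0, ⟨hf0, hf0'⟩, i0, hi0⟩
    have h2 := (hUP i (insert j J) hi').2
    have h3 : max (Γ.cost i (insert j J)) (Γ.e i) ≤ C₁ * Γ.cc i (insert j J) :=
      (max_le (Nat.le_add_right _ _) (Nat.le_add_left _ _)).trans h2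
    calc (Γ.phi j S + 1) / 2 ≤ D * max (Γ.cost i (insert j J)) (Γ.e i) := h1
      _ ≤ D * (C₁ * Γ.cc i (insert j J)) := Nat.mul_le_mul_left _ h3
      _ = D * C₁ * Γ.cc i (insert j J) := by ring
  have hsum := Γ.cc_sum_le hUP (insert j J) (S \ J) hnot
  have h1 : (S \ J).card * ((Γ.phi j S + 1) / 2) ≤ D * C₁ * Γ.AA := by
    calc (S \ J).card * ((Γ.phi j S + 1) / 2) = ∑ i ∈ S \ J, (Γ.phi j S + 1) / 2 := by
          rw [Finset.sum_const, smul_eq_mul]
      _ ≤ ∑ i ∈ S \ J, D * C₁ * Γ.cc i (insert j J) := Finset.sum_le_sum hcost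
      _ = D * C₁ * ∑ i ∈ S \ J, Γ.cc i (insert j J) := by rw [Finset.mul_sum]
      _ ≤ D * C₁ * Γ.AA := Nat.mul_le_mul_left _ hsum
  have h2 : Nat.card {α : Fin n →₀ ℕ // α.degree < q} ≤ (S \ J).card := by
    rw [Finset.card_sdiff_of_subset hJS]
    omega
  calc Nat.card {α : Fin n →₀ ℕ // α.degree < q} * Γ.phi j S
      ≤ (S \ J).card * (2 * ((Γ.phi j S + 1) / 2)) := Nat.mul_le_mul h2 (by omega)
    _ = 2 * ((S \ J).card * ((Γ.phi j S + 1) / 2)) := by ring
    _ ≤ 2 * (D * C₁ * Γ.AA) := Nat.mul_le_mul_left 2 h1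
    _ = 2 * D * C₁ * Γ.AA := by ring

end Pool.Agent.Lib_KF.ArcSys

end

/-! ### from `Lib_KF.CClose` -/

section

/-! C10: the closeness lemma (CL), with poles. -/

open PowerSeries

namespace Pool.Agent.Lib_KF.ArcSys

open Pool.Agent.Lib_GD (hat colen FinColen ArcSystem finColen_of_X_pow colen_anti window
  X_pow_smul_mem colen_smul_sup)

/-- The arithmetic of the window: the step `h = a + c / I` is smaller than `g = B / W`. -/
private theorem cclose_h_lt (C₂ W D a : ℕ) (hC : 1 ≤ C₂) (hW : 1 ≤ W) (hD : 8 * W ≤ D)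
    (ha : 1 ≤ a) : a + C₂ * (D * a) / (4 * C₂ * W) < D * a / W := by
  set B := D * a with hB
  have h1 : C₂ * B / (4 * C₂ * W) = B / (4 * W) := by
    have : 4 * C₂ * W = C₂ * (4 * W) := by ring
    rw [this]; exact Nat.mul_div_mul_left _ _ (by omega)
  rw [h1]
  have h2 : a * (8 * W) ≤ B := by rw [hB, mul_comm D a]; exact Nat.mul_le_mul_left _ hD
  have h3 : 8 * W ≤ B := le_trans (by nlinarith) h2
  have h4 : B / (4 * W) * (4 * W) ≤ B := Nat.div_mul_le_self _ _
  have h5 : B < W * (B / W + 1) := Nat.lt_mul_div_succ _ (by omega)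
  have h6 : 8 ≤ B / W := by
    rw [Nat.le_div_iff_mul_le (by omega)]; exact h3
  set g := B / W
  set q := B / (4 * W)
  have h7 : (a + q) * (8 * W) < 3 * (g + 1) * W := by nlinarith
  have h8 : (a + q) * 8 < 3 * (g + 1) := by
    by_contra hcon
    push Not at hcon
    have := Nat.mul_le_mul_right W hcon
    nlinarith
  omega

/-- K10b (CL) with poles; copy of `Lib_GD.ArcSystem.closeness` (file `Lib_GD.CLemma`), with
`Γ.cc` in place of `Γ.cost` and the hypothesis `Γ.e j ≤ a` for `exists_almost_stable`. The lemmas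
`Lib_GD.ArcSystem.stable_sup`, `stable_map`, `stable_top` can be used for `Γ.base`
(`Γ.Stable` and `Γ.base.Stable` agree definitionally). -/
theorem closeness (ξ : ℝ) (hξ : 0 < ξ) (C₂ : ℕ) (hC : 1 ≤ C₂) : ∃ D₀ N₀ : ℕ,
    ∀ (L : Type) [Field L] [Algebra ℂ L] (n N : ℕ) (Γ : ArcSys L n N) (σ : ℝ) (D a : ℕ),
      D₀ ≤ D → N₀ ≤ N → 1 ≤ a → 0 ≤ σ → Γ.HI2 σ → ∀ (S : Finset (Fin N)) (j : Fin N),
      S.Nonempty → j ∉ S → Γ.e j ≤ a →
      colen (Γ.Lam (D * a) a (insert j S)) ≤ colen (Γ.Lam (D * a) a S) + C₂ * (D * a) →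
      (D * a * N : ℝ) - colen (Γ.Lam (D * a) a S) ≤ σ * Γ.cc j S + ξ * D * a * N := by
  classical
  obtain ⟨K', hK'⟩ := exists_nat_ge (6 / ξ)
  obtain ⟨K, hK1, hK⟩ : ∃ K : ℕ, 1 ≤ K ∧ 6 / ξ ≤ K :=
    ⟨K' + 1, by omega, by push_cast; linarith⟩
  obtain ⟨P, hPdef⟩ : ∃ P : ℕ, P = C₂ * K := ⟨_, rfl⟩
  obtain ⟨W, hWdef⟩ : ∃ W : ℕ, W = K * (P + 1) := ⟨_, rfl⟩
  obtain ⟨N₀, hN₀⟩ := exists_nat_ge (4 * (P : ℝ) / ξ)
  have hW1 : 1 ≤ W := by
    rw [hWdef]; exact Nat.one_le_iff_ne_zero.mpr (Nat.mul_ne_zero (by omega) (by omega))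
  have hKW : K ≤ W := by
    rw [hWdef]; exact Nat.le_mul_of_pos_right _ (by omega)
  refine ⟨8 * W, N₀, ?_⟩
  intro L _ _ n N Γ σ D a hD hN ha hσ hI2 S j hS hj he hc
  have hh := cclose_h_lt C₂ W D a hC hW1 hD ha
  have hI : 1 ≤ 4 * C₂ * W := by
    exact Nat.one_le_iff_ne_zero.mpr (Nat.mul_ne_zero (by omega) (by omega))
  obtain ⟨Q, hQ1, hQ2, hQ3, hQ4⟩ :=
    exists_almost_stable Γ (D * a) a S j hj he (C₂ * (D * a)) (4 * C₂ * W) hI hc
  have hBD : D ≤ D * a := Nat.le_mul_of_pos_right _ (by omega)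
  have hcast : ((D * a : ℕ) : ℝ) = (D : ℝ) * a := by push_cast; ring
  obtain ⟨B, hB⟩ : ∃ B : ℕ, B = D * a := ⟨_, rfl⟩
  rw [← hB] at hh hQ1 hQ2 hQ3 hQ4 hc hBD hcast ⊢
  have hBX : ∀ f : Fin N → L⟦X⟧, (X : L⟦X⟧) ^ B • f ∈ Q := fun f =>
    hQ1 (Γ.X_pow_smul_mem_Lam B a _ f)
  have hQfin : FinColen Q := (finColen_of_X_pow hBX).1
  have hΛ2fin : FinColen (Γ.Lam B a (insert j S)) :=
    (finColen_of_X_pow (fun f => Γ.X_pow_smul_mem_Lam B a _ f)).1
  have hQc : colen Q ≤ colen (Γ.Lam B a S) + C₂ * B :=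
    le_trans (colen_anti hQ1 hΛ2fin) hc
  have hu : 1 ≤ B / K + 1 := Nat.le_add_left 1 _
  have hP : C₂ * B ≤ P * (B / K + 1) := by
    have h1 : B < K * (B / K + 1) := Nat.lt_mul_div_succ _ (by omega)
    calc C₂ * B ≤ C₂ * (K * (B / K + 1)) := Nat.mul_le_mul_left _ h1.le
      _ = P * (B / K + 1) := by rw [hPdef]; ring
  obtain ⟨Λ', hΛ'1, hΛ'2, hΛ'3, hΛ'4, hΛ'5⟩ :=
    window (Γ.Dker S) (Γ.Lam B a S) Q hQ2 hQfin (Γ.stable_Lam B a S) _ (B / W) B (C₂ * B)
      (B / K + 1) P hQ4 (fun f _ => hBX f) hQc hu hP hh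
  obtain ⟨U, hU⟩ : ∃ U : ℕ, U = B / K + 1 + (P + 1) * (B / W) := ⟨_, rfl⟩
  rw [← hU] at hΛ'4
  -- the stable lattice
  set M : Submodule L⟦X⟧ (Fin N → L⟦X⟧) :=
    Λ'.map (LinearMap.lsmul L⟦X⟧ (Fin N → L⟦X⟧) (X ^ U)) ⊔
      LinearMap.range (LinearMap.lsmul L⟦X⟧ (Fin N → L⟦X⟧) (X ^ B)) with hM
  have hMX : ∀ f : Fin N → L⟦X⟧, (X : L⟦X⟧) ^ B • f ∈ M := fun f =>
    Submodule.mem_sup_right ⟨f, rfl⟩
  have hMst : Γ.Stable S M := by
    refine ArcSystem.stable_sup Γ.base (S := S) (ArcSystem.stable_map Γ.base (S := S) hΛ'2 U) ?_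
    have h1 := ArcSystem.stable_map Γ.base (ArcSystem.stable_top Γ.base S) B
    rwa [Submodule.map_top] at h1
  have hMev : ∀ f ∈ M, (X : L⟦X⟧) ^ B ∣ Γ.ev j 0 f := by
    intro f hf
    obtain ⟨f1, hf1, f2, hf2, rfl⟩ := Submodule.mem_sup.mp hf
    obtain ⟨p, hp, rfl⟩ := hf1
    obtain ⟨q, rfl⟩ := hf2
    rw [map_add]
    refine dvd_add (hQ3 _ (hΛ'4 p hp)) ?_
    have : Γ.ev j 0 ((LinearMap.lsmul L⟦X⟧ (Fin N → L⟦X⟧) (X ^ B)) q)
        = X ^ B * Γ.ev j 0 q := by
      rw [LinearMap.lsmul_apply, map_smul, smul_eq_mul]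
    rw [this]; exact Dvd.intro _ rfl
  have hmain := hI2 S j hj B M hMX hMst hMev
  -- the colength of `M`
  have hMc : colen M ≤ colen Λ' + U * N := by
    obtain ⟨B', hB'⟩ : ∃ B' : ℕ, B' = max B (colen Λ') := ⟨_, rfl⟩
    have hΛ'X : ∀ f : Fin N → L⟦X⟧, (X : L⟦X⟧) ^ B' • f ∈ Λ' := fun f =>
      X_pow_smul_mem hΛ'3 (hB' ▸ le_max_right _ _) f
    have h1 := colen_smul_sup (u := U) hΛ'X
    refine le_trans (colen_anti ?_ ?_) h1
    · refine sup_le_sup_left ?_ _
      rintro _ ⟨f, rfl⟩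
      refine ⟨(X : L⟦X⟧) ^ (B' - B) • f, ?_⟩
      simp only [LinearMap.lsmul_apply]
      rw [smul_smul, ← pow_add]
      congr 2
      have : B ≤ B' := hB' ▸ le_max_left _ _
      omega
    · refine (finColen_of_X_pow (B := B') fun f => ?_).1
      exact Submodule.mem_sup_right (LinearMap.mem_range.mpr ⟨f, rfl⟩)
  -- the error terms
  have hKB : K ≤ B := le_trans hKW (by omega)
  have e1 : K * U ≤ 3 * B := by
    have h1 : K * (B / K) ≤ B := Nat.mul_div_le _ _
    have h2 : W * (B / W) ≤ B := Nat.mul_div_le _ _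
    have h3 : K * U = K * (B / K) + K + W * (B / W) := by rw [hU, hWdef]; ring
    omega
  have e2 : B / W ≤ B := Nat.div_le_self _ _
  have e1' : (K : ℝ) * U ≤ 3 * B := by exact_mod_cast e1
  have hKpos : (0 : ℝ) < K := by exact_mod_cast hK1
  have hKξ : 6 ≤ ξ * K := by
    have := (div_le_iff₀ hξ).mp hK; linarith
  have hBpos : (0 : ℝ) ≤ B := Nat.cast_nonneg _
  have hNpos : (0 : ℝ) ≤ N := Nat.cast_nonneg _
  have hUpos : (0 : ℝ) ≤ U := Nat.cast_nonneg _
  have hPpos : (0 : ℝ) ≤ P := Nat.cast_nonneg _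
  have e3 : (U : ℝ) ≤ ξ / 2 * B := by
    have h1 : 6 * (U : ℝ) ≤ ξ * K * U := mul_le_mul_of_nonneg_right hKξ hUpos
    have h2 : ξ * (K * U) ≤ ξ * (3 * B) := mul_le_mul_of_nonneg_left e1' hξ.le
    nlinarith
  have e4 : 4 * (P : ℝ) ≤ ξ * N := by
    have h1 : 4 * (P : ℝ) / ξ ≤ N := le_trans hN₀ (by exact_mod_cast hN)
    have := (div_le_iff₀ hξ).mp h1; linarith
  have e5 : ((colen M : ℕ) : ℝ) ≤ colen (Γ.Lam B a S) + P * (B + (B / W : ℕ)) + U * N := by
    have h1 : colen M ≤ colen (Γ.Lam B a S) + P * (B + B / W) + U * N := by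
      refine le_trans hMc ?_
      have := hΛ'5
      omega
    exact_mod_cast h1
  have e6 : ((B / W : ℕ) : ℝ) ≤ B := by exact_mod_cast e2
  have e7 : (P : ℝ) * (B + (B / W : ℕ)) ≤ ξ / 2 * (B * N) := by
    have h1 : (P : ℝ) * (B + (B / W : ℕ)) ≤ P * (2 * B) :=
      mul_le_mul_of_nonneg_left (by linarith) hPpos
    have h2 : 4 * (P : ℝ) * B ≤ ξ * N * B := mul_le_mul_of_nonneg_right e4 hBpos
    nlinarith
  have e8 : (U : ℝ) * N ≤ ξ / 2 * (B * N) := by
    have h1 := mul_le_mul_of_nonneg_right e3 hNpos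
    nlinarith
  have e9 : ξ * D * a * N = ξ * (B * N) := by rw [hcast]; ring
  rw [e9, ← hcast]
  linarith

end Pool.Agent.Lib_KF.ArcSys

end

/-! ### from `Lib_MP_e0d435_kv.ArcDiv` -/

section

/-! AD7: from an arc family on the cone to a divisor over `X`. -/

namespace Pool.Agent.Lib_MP_e0d435_kv

open Pool.Agent.Lib_GD Pool.Agent.Lib_KF

/-- The additive valuation of a discrete valuation ring is invariant under isomorphisms. -/
private theorem arcDiv_addVal_equiv {V V' : Type} [CommRing V] [IsDomain V]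
    [IsDiscreteValuationRing V] [CommRing V'] [IsDomain V'] [IsDiscreteValuationRing V']
    (σ : V ≃+* V') (a : V) :
    IsDiscreteValuationRing.addVal V' (σ a) = IsDiscreteValuationRing.addVal V a := by
  by_cases ha : a = 0
  · rw [ha, map_zero, IsDiscreteValuationRing.addVal_zero, IsDiscreteValuationRing.addVal_zero]
  · obtain ⟨ϖ, hϖ⟩ := IsDiscreteValuationRing.exists_irreducible V
    obtain ⟨n, u, hu⟩ := IsDiscreteValuationRing.eq_unit_mul_pow_irreducible ha hϖ
    have hϖ' : Irreducible (σ ϖ) := (MulEquiv.irreducible_iff σ).2 hϖ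
    rw [IsDiscreteValuationRing.addVal_def a u hϖ n hu,
      IsDiscreteValuationRing.addVal_def (σ a) (Units.map (σ : V →* V') u) hϖ' n
        (by rw [hu, map_mul, map_pow]; rfl)]

/-- The twist of a homomorphism from a graded ring by an element. -/
private theorem arcDiv_twist {R : Type} [CommRing R] [Algebra ℂ R] {𝒜 : ℕ → Submodule ℂ R}
    [GradedAlgebra 𝒜] {M : Type} [Field M] [Algebra ℂ M] (ψ : R →ₐ[ℂ] M) (u : M) :
    ∃ φ' : R →ₐ[ℂ] M, ∀ m : ℕ, ∀ s ∈ 𝒜 m, φ' s = ψ s * u ^ m := by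
  classical
  let F : ∀ i, 𝒜 i →ₗ[ℂ] M := fun i =>
    (LinearMap.mulRight ℂ (u ^ i)).comp (ψ.toLinearMap.comp (𝒜 i).subtype)
  have hF : ∀ i (a : 𝒜 i), F i a = ψ a * u ^ i := fun i a => rfl
  let Φ : (DirectSum ℕ fun i => 𝒜 i) →ₐ[ℂ] M := DirectSum.toAlgebra ℂ (fun i => 𝒜 i) F
    (by rw [hF, pow_zero, mul_one]; exact map_one ψ)
    (by
      intro i j ai aj
      rw [hF, hF, hF, pow_add]
      have e1 : ψ ((ai : R) * (aj : R)) * (u ^ i * u ^ j) = ψ ai * u ^ i * (ψ aj * u ^ j) := by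
        rw [map_mul]; ring
      exact e1)
  refine ⟨Φ.comp (DirectSum.decomposeAlgEquiv 𝒜).toAlgHom, fun m s hs => ?_⟩
  have h1 : (DirectSum.decomposeAlgEquiv 𝒜) s = DirectSum.of (fun i => 𝒜 i) m ⟨s, hs⟩ :=
    DirectSum.decompose_of_mem 𝒜 hs
  show Φ ((DirectSum.decomposeAlgEquiv 𝒜) s) = _
  rw [h1]
  exact DirectSum.toAddMonoid_of (fun i => (F i).toAddMonoidHom) m ⟨s, hs⟩

/-- A determinant whose first row is `(c, 0, …, 0)`. -/
private theorem arcDiv_det_row {M : Type} [Field M] {n : ℕ}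
    (A : Matrix (Fin (n + 1)) (Fin (n + 1)) M) (h0 : ∀ l : Fin n, A 0 l.succ = 0) :
    A.det = A 0 0 * (A.submatrix Fin.succ Fin.succ).det := by
  rw [Matrix.det_succ_row_zero, Fin.sum_univ_succ, Finset.sum_eq_zero, add_zero]
  · rw [Fin.val_zero, pow_zero, one_mul]
    rfl
  · intro j _
    rw [h0 j]; ring

/-- Proof. `φ` is injective (V08, AD1). `w₁`, `f`, `g`, `b` from AD1, `θ = φ(g)/φ(f)`. `jac_homog`
with `z = φ ∘ x` and `b' = b`: `jac = ± φ(x_b)^(n+1) det`, the matrix with the columns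
`d_i φ(x_b)/φ(x_b)` and `d_i (φ(x_b')/φ(x_b))`; all entries have `w ≥ 0`. If `w` is trivial on the
function field: `φ(s)/θ^m` has order `0`. Otherwise AD2, AD3 (`V = vfun`, `σ` the inclusion,
`y_l = φ(x_b')/φ(x_b)`, `τ = φ(x_b)`), AD5b give `E`; the order of `E.φ 0 s` is that of
`φ(s)/θ^m`, divided by `e` (transport `addVal` along the isomorphism `σ`); AD4 on `E.V` with
`coordSpan_eq` (`u` the inverse of `E.φ 0 (x b)`; `σ (E.φ 0 (x b') u) = φ(x_b')/φ(x_b)`). -/
theorem arc_divisor {R : Type} [CommRing R] [Algebra ℂ R] {𝒜 : ℕ → Submodule ℂ R}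
    [GradedAlgebra 𝒜] {n r d : ℕ} {x : Fin (n + 1) → R} {G : R} (h : IsFano 𝒜 n r d x G)
    (hn : 1 ≤ n) (Λ : LDF (n + 1)) (φ : R →ₐ[ℂ] Λ.M) (hJ : Λ.jac (fun b => φ (x b)) ≠ 0) :
    ∃ w₁ : ℤ, (∃ b, ordZ Λ.w (φ (x b)) = d * w₁) ∧
      (((∀ m : ℕ, ∀ s ∈ 𝒜 m, s ≠ 0 → ordZ Λ.w (φ s) = m * w₁) ∧
        (n + 1) * d * w₁ ≤ ordZ Λ.w (Λ.jac (fun b => φ (x b)))) ∨
      ∃ (E : DivisorOver 𝒜 n 1) (e : ℕ), 1 ≤ e ∧
        (∀ m : ℕ, ∀ s ∈ 𝒜 m, s ≠ 0 →
          ordZ Λ.w (φ s) = m * w₁ + e * ((E.ord (E.φ 0 s)).toNat : ℤ)) ∧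
        (n + 1) * d * w₁ + e * (1 + ((Module.length E.V
          (KaehlerDifferential ℂ E.V ⧸ coordSpan E x)).toNat : ℤ)) ≤
          ordZ Λ.w (Λ.jac (fun b => φ (x b)))) := by
  classical
  have hdom := h.domain
  have hφ : Function.Injective φ :=
    phi_injective h φ (Λ.algebraicIndependent_of_jac _ hJ)
  obtain ⟨w₁, k, f, g, hf, hg, hf0, hg0, hfo, hgo, hmin, b, hb⟩ := exists_weight h Λ.w φ hφ
  have hφ0 : ∀ s : R, s ≠ 0 → φ s ≠ 0 := fun s hs h1 => hs (hφ (by rw [h1, map_zero]))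
  have hx0 : ∀ c, x c ≠ 0 := fun c => h.x_indep.ne_zero c
  refine ⟨w₁, ⟨b, hb⟩, ?_⟩
  set τ : Λ.M := φ (x b) with hτdef
  have hτ : τ ≠ 0 := hφ0 _ (hx0 b)
  set A : Matrix (Fin (n + 1)) (Fin (n + 1)) Λ.M := Matrix.of fun i j : Fin (n + 1) =>
      (Fin.cons (Λ.d i τ / τ)
        (fun l : Fin n => Λ.d i (φ (x (b.succAbove l)) / τ)) : Fin (n + 1) → Λ.M) j with hA
  obtain ⟨ε, hε, hjac⟩ := jac_homog Λ (fun b => φ (x b)) b hτ
  change Λ.jac (fun b => φ (x b)) = ε * τ ^ (n + 1) * A.det at hjac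
  have hdet : A.det ≠ 0 := by
    intro h0
    apply hJ
    rw [hjac, h0, mul_zero]
  have hεne : ε ≠ 0 := by
    rcases hε with h1 | h1
    · rw [h1]; exact one_ne_zero
    · rw [h1]; exact neg_ne_zero.2 one_ne_zero
  have hεo : ordZ Λ.w ε = 0 := by
    rcases hε with h1 | h1
    · rw [h1, ordZ_one]
    · rw [h1, ordZ_neg, ordZ_one]
  have hord : ordZ Λ.w (Λ.jac (fun b => φ (x b))) = (n + 1) * d * w₁ + ordZ Λ.w A.det := by
    rw [hjac, ordZ_mul _ (mul_ne_zero hεne (pow_ne_zero _ hτ)) hdet,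
      ordZ_mul _ hεne (pow_ne_zero _ hτ), hεo, ordZ_pow _ hτ, hb]
    push_cast; ring
  set θ : Λ.M := φ g / φ f with hθ
  have hθ0 : θ ≠ 0 := div_ne_zero (hφ0 g hg0) (hφ0 f hf0)
  have hθo : ordZ Λ.w θ = w₁ := by
    rw [hθ, ordZ_div _ (hφ0 g hg0) (hφ0 f hf0), hfo, hgo]; ring
  have hymem : ∀ c, φ (x c) / τ ∈ funField 𝒜 φ hφ := by
    intro c
    exact ⟨d, x c, h.x_mem c, x b, h.x_mem b, hx0 b, div_mul_cancel₀ _ hτ⟩
  have hyw : ∀ c, 0 ≤ Λ.w (φ (x c) / τ) := by
    intro c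
    rw [w_eq _ (div_ne_zero (hφ0 _ (hx0 c)) hτ), ordZ_div _ (hφ0 _ (hx0 c)) hτ, hb]
    have := hmin d (x c) (h.x_mem c) (hx0 c)
    have h2 : (0 : ℤ) ≤ ordZ Λ.w (φ (x c)) - d * w₁ := by linarith
    exact_mod_cast h2
  by_cases htriv : ∃ z ∈ funField 𝒜 φ hφ, z ≠ 0 ∧ ordZ Λ.w z ≠ 0
  · right
    obtain ⟨e, hV, he, hordV, hfrac⟩ := vfun_dvr Λ.w (funField 𝒜 φ hφ) htriv
    let V := vfun Λ.w (funField 𝒜 φ hφ)
    let y : Fin n → V := fun l =>
      ⟨φ (x (b.succAbove l)) / τ, hymem _, hyw _⟩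
    obtain ⟨v, hv⟩ := exists_residue_indep hn Λ V.val Subtype.val_injective e he
      (fun f hf => hordV f hf) y τ hτ hdet
    obtain ⟨E, σ, hσ, hunit⟩ := exists_divisorOver h hn Λ.w φ hφ w₁ k f g hf hg hf0 hg0 hfo hgo
      hmin b hb hV hfrac v hv
    have hordE : ∀ z : E.V, z ≠ 0 → ordZ Λ.w ((V.val.comp σ.toAlgHom) z) =
        e * (IsDiscreteValuationRing.addVal E.V z).toNat := by
      intro z hz
      have h1 := hordV (σ z) (by
        intro h0
        exact hz (σ.injective (by rw [h0, map_zero])))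
      rw [← arcDiv_addVal_equiv σ.toRingEquiv z]
      exact h1
    have hinj : Function.Injective (V.val.comp σ.toAlgHom) :=
      Subtype.val_injective.comp σ.injective
    obtain ⟨uu, huu⟩ := hunit
    set u : E.V := ((uu⁻¹ : E.Vˣ) : E.V) with hu
    have hu1 : E.φ 0 (x b) * u = 1 := by
      rw [← huu, hu]; exact Units.mul_inv uu
    have hσ' : ∀ m, ∀ s ∈ 𝒜 m, (V.val.comp σ.toAlgHom) (E.φ 0 s) * θ ^ m = φ s := hσ
    have hσu : (V.val.comp σ.toAlgHom) u = θ ^ d / τ := by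
      have h1 := hσ' d (x b) (h.x_mem b)
      have h2 : (V.val.comp σ.toAlgHom) (E.φ 0 (x b)) * (V.val.comp σ.toAlgHom) u = 1 := by
        rw [← map_mul, hu1, map_one]
      rw [eq_div_iff hτ, hτdef, ← h1]
      rw [← mul_assoc, mul_comm _ ((V.val.comp σ.toAlgHom) (E.φ 0 (x b))), h2, one_mul]
    have hσy : ∀ l : Fin n, (V.val.comp σ.toAlgHom) (E.φ 0 (x (b.succAbove l)) * u) =
        φ (x (b.succAbove l)) / τ := by
      intro l
      have h1 := hσ' d (x (b.succAbove l)) (h.x_mem _)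
      rw [map_mul, hσu, ← h1]
      ring
    obtain ⟨hfin, hle⟩ := length_le_jac hn Λ (V := E.V) (by rw [E.trdeg, mul_one])
      (V.val.comp σ.toAlgHom) hinj e he hordE (fun l => E.φ 0 (x (b.succAbove l)) * u) τ hτ
      (by simpa only [hσy] using hdet)
    simp only [hσy] at hle
    rw [← coordSpan_eq E x b u hu1] at hle
    refine ⟨E, e, he, ?_, ?_⟩
    · intro m s hs hs0
      have h1 := hσ' m s hs
      have h2 : E.φ 0 s ≠ 0 := by
        intro h0
        rw [h0, map_zero, zero_mul] at h1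
        exact hφ0 s hs0 h1.symm
      have h3 : (V.val.comp σ.toAlgHom) (E.φ 0 s) ≠ 0 := by
        intro h0
        exact h2 (hinj (by rw [h0, map_zero]))
      rw [← h1, ordZ_mul _ h3 (pow_ne_zero _ hθ0), ordZ_pow _ hθ0, hθo, hordE _ h2]
      unfold DivisorOver.ord
      ring
    · rw [hord]
      linarith
  · left
    push Not at htriv
    constructor
    · intro m s hs hs0
      have hmem : φ s / θ ^ m ∈ funField 𝒜 φ hφ := by
        refine ⟨(k + 1) * m, s * f ^ m, ?_, g ^ m, ?_, pow_ne_zero _ hg0, ?_⟩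
        · have h1 : f ^ m ∈ 𝒜 (m • k) := SetLike.pow_mem_graded m hf
          have h2 := SetLike.mul_mem_graded hs h1
          convert h2 using 2
          simp only [smul_eq_mul]; ring
        · have h1 : g ^ m ∈ 𝒜 (m • (k + 1)) := SetLike.pow_mem_graded m hg
          convert h1 using 2
          simp only [smul_eq_mul]; ring
        · rw [hθ, map_mul, map_pow, map_pow, div_pow]
          have h1 := hφ0 g hg0
          have h2 := hφ0 f hf0
          field_simp
      have h1 := htriv _ hmem (div_ne_zero (hφ0 s hs0) (pow_ne_zero _ hθ0))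
      rw [ordZ_div _ (hφ0 s hs0) (pow_ne_zero _ hθ0), ordZ_pow _ hθ0, hθo] at h1
      linarith
    · rw [hord]
      have h1 : (0 : WithTop ℤ) ≤ Λ.w A.det := by
        apply w_det_nonneg
        intro i j
        rw [hA, Matrix.of_apply]
        refine Fin.cases ?_ (fun l => ?_) j
        · rw [Fin.cons_zero]
          by_cases h0 : Λ.d i τ = 0
          · rw [h0, zero_div, AddValuation.map_zero]; exact le_top
          · rw [w_eq _ (div_ne_zero h0 hτ), ordZ_div _ h0 hτ]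
            have := Λ.ordZ_le_d i hτ h0
            have h2 : (0 : ℤ) ≤ ordZ Λ.w (Λ.d i τ) - ordZ Λ.w τ := by linarith
            exact_mod_cast h2
        · rw [Fin.cons_succ]
          exact (hyw _).trans (Λ.log i _)
      have h2 : (0 : ℤ) ≤ ordZ Λ.w A.det := by
        rw [← le_w_iff _ hdet]
        exact_mod_cast h1
      linarith

/-- The same for a family of arcs on `X` with `n` derivations, in an affine chart: Proof: Gauss
extension `ι`, `u` of `Λ` (V07), `φ' s = ∑ ι(φ s_m) u^m`; `jac (φ' ∘ x)` is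
`± (u^d ι φ(x_a))^(n+1) (d / u) ι(det)` up to a unit (`jac_homog`, the derivation `0` kills the
quotients); so `arc_divisor` applies, `w₁` is the same as for `φ`, and
`ord jac = (n+1) ord φ(x_a) + ord det`. Choose `a` with `ord φ(x_a)` least. -/
theorem arc_divisor_affine {R : Type} [CommRing R] [Algebra ℂ R] {𝒜 : ℕ → Submodule ℂ R}
    [GradedAlgebra 𝒜] {n r d : ℕ} {x : Fin (n + 1) → R} {G : R} (h : IsFano 𝒜 n r d x G)
    (hn : 1 ≤ n) (Λ : LDF n) (φ : R →ₐ[ℂ] Λ.M) (a : Fin (n + 1)) (ha : φ (x a) ≠ 0)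
    (hmin : ∀ b, φ (x b) ≠ 0 → ordZ Λ.w (φ (x a)) ≤ ordZ Λ.w (φ (x b)))
    (hJ : Λ.jac (fun l => φ (x (a.succAbove l)) / φ (x a)) ≠ 0) :
    ∃ w₁ : ℤ, ordZ Λ.w (φ (x a)) = d * w₁ ∧
      (((∀ m : ℕ, ∀ s ∈ 𝒜 m, s ≠ 0 → φ s ≠ 0 ∧ ordZ Λ.w (φ s) = m * w₁) ∧
        0 ≤ ordZ Λ.w (Λ.jac (fun l => φ (x (a.succAbove l)) / φ (x a)))) ∨
      ∃ (E : DivisorOver 𝒜 n 1) (e : ℕ), 1 ≤ e ∧
        (∀ m : ℕ, ∀ s ∈ 𝒜 m, s ≠ 0 →
          φ s ≠ 0 ∧ ordZ Λ.w (φ s) = m * w₁ + e * ((E.ord (E.φ 0 s)).toNat : ℤ)) ∧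
        e * (1 + ((Module.length E.V
          (KaehlerDifferential ℂ E.V ⧸ coordSpan E x)).toNat : ℤ)) ≤
          ordZ Λ.w (Λ.jac (fun l => φ (x (a.succAbove l)) / φ (x a)))) := by
  classical
  have hdom := h.domain
  obtain ⟨Λ', ι, u, hw, hds, hdsu, hd0, hd0u⟩ := Λ.gauss
  have hu0 : u ≠ 0 := by
    intro h0
    rw [h0, map_zero] at hd0u
    exact zero_ne_one hd0u
  have hwu : Λ'.w u = 0 := by
    have h1 := hw 0 1
    rw [map_zero, map_one, one_mul, zero_add, AddValuation.map_zero, AddValuation.map_one] at h1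
    rw [h1]; exact min_eq_right le_top
  have hou : ordZ Λ'.w u = 0 := ordZ_eq_of_w _ (by rw [hwu]; rfl)
  have hwι : ∀ z, Λ'.w (ι z) = Λ.w z := by
    intro z
    have h1 := hw z 0
    rw [map_zero, zero_mul, add_zero, AddValuation.map_zero] at h1
    rw [h1]; exact min_eq_left le_top
  have hoι : ∀ z, ordZ Λ'.w (ι z) = ordZ Λ.w z := by
    intro z; unfold ordZ; rw [hwι]
  have hι0 : ∀ z, z ≠ 0 → ι z ≠ 0 := fun z hz => (_root_.map_ne_zero ι).2 hz
  obtain ⟨φ', hφ'⟩ := arcDiv_twist (𝒜 := 𝒜) (ι.comp φ) u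
  have hφx : ∀ c, φ' (x c) = ι (φ (x c)) * u ^ d := fun c => hφ' d (x c) (h.x_mem c)
  have hza : φ' (x a) ≠ 0 := by
    rw [hφx]; exact mul_ne_zero (hι0 _ ha) (pow_ne_zero _ hu0)
  have hquot : ∀ c, φ' (x c) / φ' (x a) = ι (φ (x c) / φ (x a)) := by
    intro c
    rw [hφx, hφx, map_div₀]
    have := hι0 _ ha
    field_simp
  set J : Λ.M := Λ.jac (fun l => φ (x (a.succAbove l)) / φ (x a)) with hJdef
  obtain ⟨ε, hε, hjac⟩ := jac_homog Λ' (fun b => φ' (x b)) a hza
  have hεne : ε ≠ 0 := by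
    rcases hε with h1 | h1
    · rw [h1]; exact one_ne_zero
    · rw [h1]; exact neg_ne_zero.2 one_ne_zero
  have hεo : ordZ Λ'.w ε = 0 := by
    rcases hε with h1 | h1
    · rw [h1, ordZ_one]
    · rw [h1, ordZ_neg, ordZ_one]
  have hd1 := h.d_pos
  have hdu : Λ'.d 0 (φ' (x a)) / φ' (x a) = (algebraMap ℂ Λ'.M d) / u := by
    rw [hφx, Derivation.leibniz, hd0, smul_zero, add_zero, Derivation.leibniz_pow, hd0u]
    have h1 := hι0 _ ha
    obtain ⟨d', rfl⟩ : ∃ d', d = d' + 1 := ⟨d - 1, by omega⟩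
    rw [map_natCast]
    simp only [smul_eq_mul, nsmul_eq_mul, mul_one, Nat.add_sub_cancel]
    rw [pow_succ]
    field_simp
  have hdetA : Matrix.det (Matrix.of fun i j : Fin (n + 1) =>
      (Fin.cons (Λ'.d i (φ' (x a)) / φ' (x a))
        (fun l : Fin n => Λ'.d i (φ' (x (a.succAbove l)) / φ' (x a))) :
          Fin (n + 1) → Λ'.M) j) = (algebraMap ℂ Λ'.M d) / u * ι J := by
    rw [arcDiv_det_row]
    · have h1 := AlgHom.map_det ι (Matrix.of fun i l : Fin n =>
        Λ.d i (φ (x (a.succAbove l)) / φ (x a)))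
      rw [hJdef, LDF.jac, h1]
      rw [Matrix.of_apply, Fin.cons_zero, hdu]
      congr 2
      ext i j
      simp only [Matrix.submatrix_apply, Matrix.of_apply, AlgHom.mapMatrix_apply,
        Matrix.map_apply, Fin.cons_succ, hquot, hds]
    · intro l
      rw [Matrix.of_apply, Fin.cons_succ, hquot, hd0]
  rw [hdetA] at hjac
  have hdne : (algebraMap ℂ Λ'.M d) ≠ 0 := by
    rw [Ne, _root_.map_eq_zero]
    exact_mod_cast (by omega : d ≠ 0)
  have hJ' : Λ'.jac (fun b => φ' (x b)) ≠ 0 := by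
    rw [hjac]
    exact mul_ne_zero (mul_ne_zero hεne (pow_ne_zero _ hza))
      (mul_ne_zero (div_ne_zero hdne hu0) (hι0 _ hJ))
  have hoza : ordZ Λ'.w (φ' (x a)) = ordZ Λ.w (φ (x a)) := by
    rw [hφx, ordZ_mul _ (hι0 _ ha) (pow_ne_zero _ hu0), ordZ_pow _ hu0, hou, hoι]; ring
  have hordJ : ordZ Λ'.w (Λ'.jac (fun b => φ' (x b))) =
      (n + 1) * ordZ Λ.w (φ (x a)) + ordZ Λ.w J := by
    rw [hjac, ordZ_mul _ (mul_ne_zero hεne (pow_ne_zero _ hza))
      (mul_ne_zero (div_ne_zero hdne hu0) (hι0 _ hJ)),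
      ordZ_mul _ hεne (pow_ne_zero _ hza), ordZ_pow _ hza,
      ordZ_mul _ (div_ne_zero hdne hu0) (hι0 _ hJ), ordZ_div _ hdne hu0, hou, hεo,
      ordZ_algebraMap, hoι, hoza]
    push_cast; ring
  have hinj : Function.Injective φ' :=
    phi_injective h φ' (Λ'.algebraicIndependent_of_jac _ hJ')
  have hs0 : ∀ m : ℕ, ∀ s ∈ 𝒜 m, s ≠ 0 → φ s ≠ 0 := by
    intro m s hs h0 h1
    apply h0
    apply hinj
    rw [hφ' m s hs, map_zero]
    show ι (φ s) * u ^ m = 0
    rw [h1, map_zero, zero_mul]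
  have hos : ∀ m : ℕ, ∀ s ∈ 𝒜 m, s ≠ 0 → ordZ Λ'.w (φ' s) = ordZ Λ.w (φ s) := by
    intro m s hs h0
    rw [hφ' m s hs]
    show ordZ Λ'.w (ι (φ s) * u ^ m) = _
    rw [ordZ_mul _ (hι0 _ (hs0 m s hs h0)) (pow_ne_zero _ hu0), ordZ_pow _ hu0, hou, hoι]; ring
  have hx0 : ∀ c, x c ≠ 0 := fun c => h.x_indep.ne_zero c
  obtain ⟨w₁, ⟨b, hb⟩, hcase⟩ := arc_divisor h hn Λ' φ' hJ'
  have hb' : ordZ Λ.w (φ (x b)) = d * w₁ := by
    rw [← hos d (x b) (h.x_mem b) (hx0 b)]; exact hb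
  have hle : (d : ℤ) * w₁ ≤ ordZ Λ.w (φ (x a)) := by
    rw [← hos d (x a) (h.x_mem a) (hx0 a)]
    rcases hcase with ⟨h1, -⟩ | ⟨E, e, he, h1, -⟩
    · rw [h1 d (x a) (h.x_mem a) (hx0 a)]
    · rw [h1 d (x a) (h.x_mem a) (hx0 a)]
      have : (0 : ℤ) ≤ e * ((E.ord (E.φ 0 (x a))).toNat : ℤ) := by positivity
      linarith
  have hwa : ordZ Λ.w (φ (x a)) = d * w₁ :=
    le_antisymm ((hmin b (hs0 d (x b) (h.x_mem b) (hx0 b))).trans hb'.le) hle
  refine ⟨w₁, hwa, ?_⟩
  rcases hcase with ⟨h1, h2⟩ | ⟨E, e, he, h1, h2⟩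
  · left
    refine ⟨fun m s hs h0 => ⟨hs0 m s hs h0, ?_⟩, ?_⟩
    · rw [← hos m s hs h0]; exact h1 m s hs h0
    · rw [hordJ, hwa] at h2
      linarith
  · right
    refine ⟨E, e, he, fun m s hs h0 => ⟨hs0 m s hs h0, ?_⟩, ?_⟩
    · rw [← hos m s hs h0]; exact h1 m s hs h0
    · rw [hordJ, hwa] at h2
      linarith

end Pool.Agent.Lib_MP_e0d435_kv

end

/-! ### from `Lib_KF.GT` -/

section

/-!
# G2c: (T'), a non-zero section has bounded order of vanishing along an arc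
-/

open PowerSeries

namespace Pool.Agent.Lib_KF

open Pool.Agent.Lib_GD

variable {R : Type} [CommRing R] [Algebra ℂ R] {𝒜 : ℕ → Submodule ℂ R} [GradedAlgebra 𝒜]
  {n r d : ℕ} {x : Fin (n + 1) → R} {G : R}

/-- Under `IsFano` the elements `secBasis 𝒜 m i` are a basis of `𝒜 m` (`finite_gradedP`). -/
theorem secBasis_indepF (h : IsFano 𝒜 n r d x G) (m : ℕ) :
    (∀ i, secBasis 𝒜 m i ∈ 𝒜 m) ∧ LinearIndependent ℂ (secBasis 𝒜 m) ∧
      ∀ s ∈ 𝒜 m, ∃ c : Fin (secDim 𝒜 m) → ℂ, s = ∑ i, c i • secBasis 𝒜 m i := by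
  obtain ⟨h1, h2, h3⟩ := secBasis_specP h.isPol m
  refine ⟨h1, h2, fun s hs => ?_⟩
  rw [← h3] at hs
  obtain ⟨c, hc⟩ := (Submodule.mem_span_range_iff_exists_fun ℂ).1 hs
  exact ⟨c, hc.symm⟩

/-- (T'). PROOF. `exists_norm` gives `D₀` (take `C = D₀`) and for `s = secBasis 𝒜 m` the
polynomial `P`, homogeneous of degree `k ≤ D₀ m`, and `f'`. Let `v` be the constant coefficients of `f`,
`v ≠ 0`, `P_f` = `P` with `Y := f`; its reduction modulo `X` is `P (v) ≠ 0`, homogeneous of degree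
`k`. `g_taylor` at `z b` = constant coefficient of `xj (x b)`, `z a = 1`, gives `γ`, `|γ| ≤ k`, such that
`(∂^γ P_f) (xj (x b))` has a non-zero constant coefficient (`pdL_map`). By `phiG_poly`, `phiG_mul`,
`phiG_lin`: `xj h ^ |γ| * unit = ∑_{p + q = γ} bin * (∑ f i * xj (F a p (s i))) * (...)`. If `X ^ (C m e + 1)`
divides all the sums with `|p| ≤ C m`, it divides `xj h ^ |γ| * unit`, whose order is `|γ| * ord (xj h) ≤ C m e`
(as `¬ X ^ (e + 1) ∣ xj h`): contradiction. -/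
theorem g_T (h : IsFano 𝒜 n r d x G) (T : DerData x) : ∃ C : ℕ, ∀ (m : ℕ)
    (L : Type) [Field L] [Algebra ℂ L] (a : Fin (n + 1)) (xj : R →ₐ[ℂ] L⟦X⟧),
    xj (x a) = 1 → ∀ e : ℕ, ¬ (X : L⟦X⟧) ^ (e + 1) ∣ xj T.h →
    ∀ f : Fin (secDim 𝒜 m) → L⟦X⟧, (∃ i, constantCoeff (f i) ≠ 0) →
      ∃ γ : Fin n →₀ ℕ, γ.degree ≤ C * m ∧
        ¬ (X : L⟦X⟧) ^ (C * m * e + 1) ∣ ∑ i, f i * xj (T.F a γ (secBasis 𝒜 m i)) := by
  classical
  obtain ⟨D₀, hD⟩ := exists_norm h
  refine ⟨D₀, fun m L _ _ a xj hxa e he f hf => ?_⟩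
  have : CharZero L := charZero_of_injective_algebraMap (algebraMap ℂ L).injective
  obtain ⟨hs1, hs2, -⟩ := secBasis_indepF h m
  obtain ⟨P, k, f', hk, hPh, hPf, hPv⟩ := hD m (secDim 𝒜 m) (secBasis 𝒜 m) hs1 hs2
  let v : Fin (secDim 𝒜 m) → L := fun i => constantCoeff (f i)
  have hv : v ≠ 0 := by
    obtain ⟨i, hi⟩ := hf
    intro h0
    exact hi (congrFun h0 i)
  let φ : L⟦X⟧ →+* L := constantCoeff
  let Pf : MvPolynomial (Fin (n + 1)) L⟦X⟧ :=
    MvPolynomial.map ((MvPolynomial.aeval f : MvPolynomial (Fin (secDim 𝒜 m)) ℂ →ₐ[ℂ] L⟦X⟧) :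
      MvPolynomial (Fin (secDim 𝒜 m)) ℂ →+* L⟦X⟧) P
  have hred : MvPolynomial.map φ Pf =
      MvPolynomial.map ((MvPolynomial.aeval v : MvPolynomial (Fin (secDim 𝒜 m)) ℂ →ₐ[ℂ] L) :
        MvPolynomial (Fin (secDim 𝒜 m)) ℂ →+* L) P := by
    rw [MvPolynomial.map_map]
    refine congrArg (fun g : MvPolynomial (Fin (secDim 𝒜 m)) ℂ →+* L => MvPolynomial.map g P) ?_
    refine MvPolynomial.ringHom_ext ?_ ?_
    · intro c
      rw [RingHom.comp_apply, RingHom.coe_coe, RingHom.coe_coe, MvPolynomial.aeval_C,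
        MvPolynomial.aeval_C]
      change constantCoeff (algebraMap ℂ L⟦X⟧ c) = algebraMap ℂ L c
      rw [PowerSeries.algebraMap_apply, constantCoeff_C]
    · intro i
      rw [RingHom.comp_apply, RingHom.coe_coe, RingHom.coe_coe, MvPolynomial.aeval_X,
        MvPolynomial.aeval_X]
  have hQ0 : MvPolynomial.map φ Pf ≠ 0 := by
    rw [hred]
    exact hPv L v hv
  have hQh : (MvPolynomial.map φ Pf).IsHomogeneous k := (hPh.map _).map _
  obtain ⟨γ, hγ, hne⟩ := g_taylor (MvPolynomial.map φ Pf) hQ0 hQh a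
    (fun b => φ (xj (x b))) (by
      change constantCoeff (xj (x a)) = 1
      rw [hxa]
      exact map_one _)
  set W : L⟦X⟧ := MvPolynomial.eval (fun b => xj (x b)) (pdL a γ Pf) with hW
  have hWne : constantCoeff W ≠ 0 := by
    rw [pdL_map] at hne
    have h1 : MvPolynomial.eval (fun b => φ (xj (x b))) (MvPolynomial.map φ (pdL a γ Pf)) =
        φ W := by
      rw [hW, MvPolynomial.eval_map, MvPolynomial.eval₂_comp]
      rfl
    rw [h1] at hne
    exact hne
  have hWu : IsUnit W := by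
    rw [PowerSeries.isUnit_iff_constantCoeff, isUnit_iff_ne_zero]
    exact hWne
  by_contra hcon
  push Not at hcon
  have hpoly := phiG_poly T a xj f γ P
  rw [hPf, phiG_mul] at hpoly
  have hdvd : (X : L⟦X⟧) ^ (D₀ * m * e + 1) ∣ xj T.h ^ γ.degree * W := by
    rw [hW]
    have h1 : ∀ p ∈ Finset.HasAntidiagonal.antidiagonal γ, (X : L⟦X⟧) ^ (D₀ * m * e + 1) ∣
        algebraMap ℂ L⟦X⟧ (binG p.1 p.2) * (phiG T a xj f p.1
          (∑ i, MvPolynomial.X i * MvPolynomial.C (secBasis 𝒜 m i)) * phiG T a xj f p.2 f') := by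
      intro p hp
      rw [Finset.HasAntidiagonal.mem_antidiagonal] at hp
      have h2 : p.1.degree ≤ D₀ * m := by
        have h3 : p.1.degree + p.2.degree = γ.degree := by rw [← hp, map_add]
        omega
      rw [phiG_lin]
      exact Dvd.dvd.mul_left (Dvd.dvd.mul_right (hcon p.1 h2) _) _
    have h2 := Finset.dvd_sum h1
    rw [hpoly] at h2
    exact h2
  have hdvd2 : (X : L⟦X⟧) ^ (D₀ * m * e + 1) ∣ xj T.h ^ γ.degree :=
    (hWu.dvd_mul_right).1 hdvd
  have h0 : (xj T.h).order ≤ e := by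
    by_contra h1
    push Not at h1
    apply he
    rw [X_pow_dvd_iff]
    intro i hi
    refine coeff_of_lt_order i (lt_of_le_of_lt ?_ h1)
    exact_mod_cast Nat.lt_succ_iff.1 hi
  have h1 : ((D₀ * m * e + 1 : ℕ) : ℕ∞) ≤ (xj T.h ^ γ.degree).order := by
    refine le_order _ _ fun i hi => ?_
    exact (X_pow_dvd_iff.1 hdvd2) i (by exact_mod_cast hi)
  have h2 : (xj T.h ^ γ.degree).order ≤ ((D₀ * m * e : ℕ) : ℕ∞) := by
    rw [order_pow, nsmul_eq_mul]
    calc (γ.degree : ℕ∞) * (xj T.h).order ≤ ((D₀ * m : ℕ) : ℕ∞) * (e : ℕ∞) :=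
          mul_le_mul' (by exact_mod_cast hγ.trans hk) h0
      _ = ((D₀ * m * e : ℕ) : ℕ∞) := by push_cast; rfl
  have h3 := h1.trans h2
  have h4 : D₀ * m * e + 1 ≤ D₀ * m * e := by exact_mod_cast h3
  omega

end Pool.Agent.Lib_KF

end

/-! ### from `Lib_KF.GSepA` -/

section

/-!
# G3c: test sections for (Sep')
-/

open PowerSeries

namespace Pool.Agent.Lib_KF

open Pool.Agent.Lib_GD

variable {R : Type} [CommRing R] [Algebra ℂ R] {𝒜 : ℕ → Submodule ℂ R} [GradedAlgebra 𝒜]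
  {n r d : ℕ} {x : Fin (n + 1) → R} {G : R}

/-! ### derivatives of the test polynomial -/

private theorem GSepA_pow {A : Type} [CommRing A] (D : Derivation A (MvPolynomial (Fin (n + 1)) A)
    (MvPolynomial (Fin (n + 1)) A)) (u v : MvPolynomial (Fin (n + 1)) A) (hu : D u = 0)
    (hv : D v = 1) (m k : ℕ) :
    (((D : MvPolynomial (Fin (n + 1)) A →ₗ[A] MvPolynomial (Fin (n + 1)) A) :
      Module.End A (MvPolynomial (Fin (n + 1)) A)) ^ k) (u * v ^ m) =
      u * (((m.descFactorial k : ℕ) : MvPolynomial (Fin (n + 1)) A) * v ^ (m - k)) := by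
  induction k with
  | zero => simp
  | succ k ih =>
    rw [pow_succ', Module.End.mul_apply, ih]
    change D (u * (((m.descFactorial k : ℕ) : MvPolynomial (Fin (n + 1)) A) * v ^ (m - k))) = _
    rw [Derivation.leibniz, hu, smul_zero, add_zero, Derivation.leibniz, Derivation.map_natCast,
      smul_zero, add_zero, Derivation.leibniz_pow, hv, Nat.descFactorial_succ, Nat.sub_sub]
    simp only [smul_eq_mul, mul_one, nsmul_eq_mul, Nat.cast_mul]
    ring

private theorem GSepA_prod_zero {A : Type} [CommRing A]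
    (D : Derivation A (MvPolynomial (Fin (n + 1)) A) (MvPolynomial (Fin (n + 1)) A)) {ι : Type}
    (s : Finset ι) (f : ι → MvPolynomial (Fin (n + 1)) A) (h : ∀ i ∈ s, D (f i) = 0) :
    D (∏ i ∈ s, f i) = 0 := by
  refine Finset.prod_induction f (fun p => D p = 0) (fun p q hp hq => ?_) D.map_one_eq_zero h
  rw [Derivation.leibniz, hp, hq, smul_zero, smul_zero, add_zero]

private theorem GSepA_pow_zero {A : Type} [CommRing A]
    (D : Derivation A (MvPolynomial (Fin (n + 1)) A) (MvPolynomial (Fin (n + 1)) A))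
    (p : MvPolynomial (Fin (n + 1)) A) (h : D p = 0) (k : ℕ) : D (p ^ k) = 0 := by
  rw [Derivation.leibniz_pow, h, smul_zero, smul_zero]

/-- the linear form `x_l - z_l x_a` -/
private noncomputable def GSepA_G {A : Type} [CommRing A] (a : Fin (n + 1)) (z : Fin n → A)
    (l : Fin n) : MvPolynomial (Fin (n + 1)) A :=
  MvPolynomial.X (a.succAbove l) - MvPolynomial.C (z l) * MvPolynomial.X a

private theorem GSepA_D_a {A : Type} [CommRing A] (a : Fin (n + 1)) (m : Fin n) :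
    MvPolynomial.pderiv (a.succAbove m) (MvPolynomial.X a : MvPolynomial (Fin (n + 1)) A) = 0 :=
  MvPolynomial.pderiv_X_of_ne (Fin.succAbove_ne a m).symm

private theorem GSepA_D_G {A : Type} [CommRing A] (a : Fin (n + 1)) (z : Fin n → A)
    (m l : Fin n) : MvPolynomial.pderiv (a.succAbove m) (GSepA_G a z l) =
      if l = m then 1 else 0 := by
  unfold GSepA_G
  rw [map_sub, Derivation.leibniz, GSepA_D_a, MvPolynomial.pderiv_C, smul_zero, smul_zero,
    add_zero, sub_zero]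
  by_cases h : l = m
  · rw [if_pos h, h, MvPolynomial.pderiv_X_self]
  · rw [if_neg h, MvPolynomial.pderiv_X_of_ne]
    intro h1
    exact h (Fin.succAbove_right_injective h1)

private theorem GSepA_list {A : Type} [CommRing A] (a : Fin (n + 1)) (z : Fin n → A) (s : ℕ)
    (β q : Fin n →₀ ℕ) (L : List (Fin n)) (hL : L.Nodup) :
    ((L.map fun l => (((MvPolynomial.pderiv (a.succAbove l) :
      Derivation A (MvPolynomial (Fin (n + 1)) A) (MvPolynomial (Fin (n + 1)) A)) :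
      MvPolynomial (Fin (n + 1)) A →ₗ[A] MvPolynomial (Fin (n + 1)) A) :
      Module.End A (MvPolynomial (Fin (n + 1)) A)) ^ (q l)).prod)
      (MvPolynomial.X a ^ s * ∏ l, GSepA_G a z l ^ β l) =
    MvPolynomial.X a ^ s * ∏ l, (if l ∈ L then
      (((β l).descFactorial (q l) : ℕ) : MvPolynomial (Fin (n + 1)) A) *
        GSepA_G a z l ^ (β l - q l) else GSepA_G a z l ^ β l) := by
  classical
  induction L with
  | nil => simp
  | cons m L ih =>
    rw [List.nodup_cons] at hL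
    rw [List.map_cons, List.prod_cons, Module.End.mul_apply, ih hL.2]
    set f : Fin n → MvPolynomial (Fin (n + 1)) A := fun l => if l ∈ L then
      (((β l).descFactorial (q l) : ℕ) : MvPolynomial (Fin (n + 1)) A) *
        GSepA_G a z l ^ (β l - q l) else GSepA_G a z l ^ β l with hf
    have h1 : MvPolynomial.X a ^ s * ∏ l, f l =
        (MvPolynomial.X a ^ s * ∏ l ∈ Finset.univ.erase m, f l) * GSepA_G a z m ^ β m := by
      rw [← Finset.mul_prod_erase Finset.univ f (Finset.mem_univ m)]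
      have h2 : f m = GSepA_G a z m ^ β m := by
        rw [hf]
        exact if_neg hL.1
      rw [h2]
      ring
    have h3 : MvPolynomial.pderiv (a.succAbove m)
        (MvPolynomial.X a ^ s * ∏ l ∈ Finset.univ.erase m, f l) = 0 := by
      rw [Derivation.leibniz, GSepA_pow_zero _ _ (GSepA_D_a a m), smul_zero, add_zero,
        GSepA_prod_zero, smul_zero]
      intro l hl
      have hlm : l ≠ m := Finset.ne_of_mem_erase hl
      have h4 : MvPolynomial.pderiv (a.succAbove m) (GSepA_G a z l) = 0 := by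
        rw [GSepA_D_G, if_neg hlm]
      rw [hf]
      by_cases h5 : l ∈ L
      · simp only [if_pos h5]
        rw [Derivation.leibniz, GSepA_pow_zero _ _ h4, smul_zero, zero_add,
          Derivation.map_natCast, smul_zero]
      · simp only [if_neg h5]
        exact GSepA_pow_zero _ _ h4 _
    rw [h1, GSepA_pow _ _ _ h3 (by rw [GSepA_D_G, if_pos rfl])]
    have h6 : ∏ l, (if l ∈ m :: L then
        (((β l).descFactorial (q l) : ℕ) : MvPolynomial (Fin (n + 1)) A) *
        GSepA_G a z l ^ (β l - q l) else GSepA_G a z l ^ β l) =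
        ((((β m).descFactorial (q m) : ℕ) : MvPolynomial (Fin (n + 1)) A) *
          GSepA_G a z m ^ (β m - q m)) * ∏ l ∈ Finset.univ.erase m, f l := by
      rw [← Finset.mul_prod_erase Finset.univ _ (Finset.mem_univ m), if_pos List.mem_cons_self]
      congr 1
      refine Finset.prod_congr rfl fun l hl => ?_
      have hlm : l ≠ m := Finset.ne_of_mem_erase hl
      rw [hf]
      simp only [List.mem_cons, hlm, false_or]
    rw [h6]
    ring

private theorem GSepA_eval {A : Type} [CommRing A] (a : Fin (n + 1)) (y : Fin (n + 1) → A)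
    (hy : y a = 1) (s : ℕ) (β q : Fin n →₀ ℕ) :
    MvPolynomial.eval y (pdL a q
      (MvPolynomial.X a ^ s * ∏ l, GSepA_G a (fun l => y (a.succAbove l)) l ^ β l)) =
      if q = β then ∏ l, ((β l).factorial : A) else 0 := by
  classical
  have h0 : pdL a q
      (MvPolynomial.X a ^ s * ∏ l, GSepA_G a (fun l => y (a.succAbove l)) l ^ β l) = _ :=
    GSepA_list a (fun l => y (a.succAbove l)) s β q (List.finRange n) (List.nodup_finRange n)
  rw [h0]
  have h1 : ∀ l, MvPolynomial.eval y (GSepA_G a (fun l => y (a.succAbove l)) l) = 0 := by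
    intro l
    unfold GSepA_G
    simp [hy]
  simp only [List.mem_finRange, if_true, map_mul, map_pow, map_prod, MvPolynomial.eval_X, hy,
    one_pow, one_mul, map_natCast, h1]
  by_cases hq : q = β
  · rw [if_pos hq, hq]
    refine Finset.prod_congr rfl fun l _ => ?_
    rw [Nat.sub_self, pow_zero, mul_one, Nat.descFactorial_self]
  · rw [if_neg hq]
    obtain ⟨l, hl⟩ : ∃ l, q l ≠ β l := by
      by_contra hcon
      push Not at hcon
      exact hq (Finsupp.ext hcon)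
    refine Finset.prod_eq_zero (Finset.mem_univ l) ?_
    rcases lt_or_gt_of_ne hl with h2 | h2
    · rw [zero_pow (by omega), mul_zero]
    · rw [Nat.descFactorial_eq_zero_iff_lt.2 h2, Nat.cast_zero, zero_mul]

/-! ### degrees of the coefficients -/

private def GSepA_deg (𝒜 : ℕ → Submodule ℂ R) (j : ℕ) (u : MvPolynomial (Fin n) R) : Prop :=
  ∀ κ, MvPolynomial.coeff κ u ∈ 𝒜 j

private theorem GSepA_deg_mul {i j : ℕ} {u v : MvPolynomial (Fin n) R}
    (hu : GSepA_deg 𝒜 i u) (hv : GSepA_deg 𝒜 j v) : GSepA_deg 𝒜 (i + j) (u * v) := by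
  classical
  intro κ
  rw [MvPolynomial.coeff_mul]
  exact Submodule.sum_mem _ fun p _ => SetLike.mul_mem_graded (hu _) (hv _)

omit [GradedAlgebra 𝒜] in
private theorem GSepA_deg_C {j : ℕ} {b : R} (hb : b ∈ 𝒜 j) :
    GSepA_deg 𝒜 j (MvPolynomial.C b : MvPolynomial (Fin n) R) := by
  classical
  intro κ
  rw [MvPolynomial.coeff_C]
  split_ifs
  · exact hb
  · exact Submodule.zero_mem _

private theorem GSepA_deg_one : GSepA_deg 𝒜 0 (1 : MvPolynomial (Fin n) R) := by
  rw [← MvPolynomial.C_1]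
  exact GSepA_deg_C SetLike.GradedOne.one_mem

private theorem GSepA_deg_pow {j : ℕ} {u : MvPolynomial (Fin n) R} (hu : GSepA_deg 𝒜 j u)
    (k : ℕ) : GSepA_deg 𝒜 (j * k) (u ^ k) := by
  induction k with
  | zero => rw [pow_zero, mul_zero]; exact GSepA_deg_one
  | succ k ih => rw [pow_succ, mul_add, mul_one]; exact GSepA_deg_mul ih hu

private theorem GSepA_deg_prod {ι : Type} (s : Finset ι) (j : ι → ℕ)
    (u : ι → MvPolynomial (Fin n) R) (hu : ∀ i, GSepA_deg 𝒜 (j i) (u i)) :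
    GSepA_deg 𝒜 (∑ i ∈ s, j i) (∏ i ∈ s, u i) := by
  classical
  induction s using Finset.induction_on with
  | empty => rw [Finset.sum_empty, Finset.prod_empty]; exact GSepA_deg_one
  | insert i s hi ih =>
    rw [Finset.sum_insert hi, Finset.prod_insert hi]
    exact GSepA_deg_mul (hu i) ih

omit [GradedAlgebra 𝒜] in
private theorem GSepA_deg_lin {j : ℕ} {b c : R} (hb : b ∈ 𝒜 j) (hc : c ∈ 𝒜 j) (l : Fin n) :
    GSepA_deg 𝒜 j (MvPolynomial.C b - MvPolynomial.X l * MvPolynomial.C c :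
      MvPolynomial (Fin n) R) := by
  classical
  intro κ
  rw [MvPolynomial.coeff_sub]
  refine Submodule.sub_mem _ (GSepA_deg_C hb κ) ?_
  rw [mul_comm, MvPolynomial.C_mul_X_eq_monomial, MvPolynomial.coeff_monomial]
  split_ifs
  · exact hc
  · exact Submodule.zero_mem _

/-- The test section `b x_a^(t - |β|) ∏_l (x_l - z_l x_a)^(β_l)`, `z_l = xj (x_l)`, `l` standing
for `a.succAbove l`. Its expansion is `∑_{κ ≤ β} bin (κ, β - κ) (-z)^(β - κ) b x_a^(t - |κ|) x^κ`, each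
`b x_a^(t - |κ|) x^κ ∈ 𝒜 m` is a combination of the `secBasis 𝒜 m i`; this defines `f`. By `F_mul` and
`F_poly` the value is `∑_{p + q = α} bin (p, q) xj (F a p b) xj h ^ |q| (∂^q (y - z)^β) (z)` (with `x_a = 1`),
and `(∂^q (y - z)^β) (z) = β!` if `q = β` and `0` otherwise (use `pdL_monomial` and the binomial identity, or
`phiG_poly` with `M = n`, `Y_l ↦ z_l` and the polynomial `x_a^(t-|β|) ∏ (x_l - Y_l x_a)^(β_l)`). -/
theorem g_test (h : IsFano 𝒜 n r d x G) (T : DerData x) {L : Type} [Field L] [Algebra ℂ L]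
    (a : Fin (n + 1)) (xj : R →ₐ[ℂ] L⟦X⟧) (hxj : xj (x a) = 1) {m m' t : ℕ}
    (hm : m = m' + d * t) (b : R) (hb : b ∈ 𝒜 m') (β : Fin n →₀ ℕ) (hβ : β.degree ≤ t) :
    ∃ f : Fin (secDim 𝒜 m) → L⟦X⟧, ∀ α : Fin n →₀ ℕ,
      ∑ i, f i * xj (T.F a α (secBasis 𝒜 m i)) =
        if β ≤ α then algebraMap ℂ L⟦X⟧ (binG (α - β) β * ∏ l, ((β l).factorial : ℂ)) *
          xj T.h ^ β.degree * xj (T.F a (α - β) b) else 0 := by
  classical
  obtain ⟨-, -, hsp⟩ := secBasis_indepF h m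
  set z : Fin n → L⟦X⟧ := fun l => xj (x (a.succAbove l)) with hz
  set s : ℕ := t - β.degree with hs
  -- the test polynomial
  set P : MvPolynomial (Fin (n + 1)) (MvPolynomial (Fin n) ℂ) :=
    MvPolynomial.X a ^ s * ∏ l, GSepA_G a (fun l => MvPolynomial.X l) l ^ β l with hP
  set E : MvPolynomial (Fin n) R := MvPolynomial.eval₂ (MvPolynomial.map (algebraMap ℂ R))
    (fun b => (MvPolynomial.C (x b) : MvPolynomial (Fin n) R)) P with hE
  have hE1 : E = MvPolynomial.C (x a) ^ s * ∏ l, (MvPolynomial.C (x (a.succAbove l)) -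
      MvPolynomial.X l * MvPolynomial.C (x a)) ^ β l := by
    rw [hE, hP, MvPolynomial.eval₂_mul, MvPolynomial.eval₂_pow, MvPolynomial.eval₂_X,
      MvPolynomial.eval₂_prod]
    congr 1
    refine Finset.prod_congr rfl fun l _ => ?_
    unfold GSepA_G
    rw [MvPolynomial.eval₂_pow, MvPolynomial.eval₂_sub, MvPolynomial.eval₂_mul,
      MvPolynomial.eval₂_X, MvPolynomial.eval₂_X, MvPolynomial.eval₂_C, MvPolynomial.map_X]
  have hdeg : β.degree = ∑ l, β l := Finsupp.degree_eq_sum β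
  have hEdeg : GSepA_deg 𝒜 (d * t) E := by
    have h1 : d * t = d * s + ∑ l, d * β l := by
      rw [← Finset.mul_sum, ← hdeg, ← mul_add]
      congr 1
      omega
    rw [h1, hE1]
    exact GSepA_deg_mul (GSepA_deg_pow (GSepA_deg_C (h.x_mem a)) s)
      (GSepA_deg_prod Finset.univ (fun l => d * β l) _ fun l =>
        GSepA_deg_pow (GSepA_deg_lin (h.x_mem _) (h.x_mem a) l) (β l))
  set u : MvPolynomial (Fin n) R := MvPolynomial.C b * E with hu
  have hudeg : GSepA_deg 𝒜 m u := by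
    rw [hm]
    exact GSepA_deg_mul (GSepA_deg_C hb) hEdeg
  choose c hc using fun κ => hsp _ (hudeg κ)
  refine ⟨fun i => ∑ κ ∈ u.support, algebraMap ℂ L⟦X⟧ (c κ i) * ∏ l, z l ^ κ l, fun α => ?_⟩
  -- the sum is `phiG`
  have h1 : ∑ i, (∑ κ ∈ u.support, algebraMap ℂ L⟦X⟧ (c κ i) * ∏ l, z l ^ κ l) *
      xj (T.F a α (secBasis 𝒜 m i)) = phiG T a xj z α u := by
    unfold phiG Finset.sum
    change ∑ i, (∑ κ ∈ u.support, algebraMap ℂ L⟦X⟧ (c κ i) * ∏ l, z l ^ κ l) *
      xj (T.F a α (secBasis 𝒜 m i)) =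
      ∑ κ ∈ u.support, xj (T.F a α (MvPolynomial.coeff κ u)) * ∏ l, z l ^ κ l
    simp only [Finset.sum_mul]
    rw [Finset.sum_comm]
    refine Finset.sum_congr rfl fun κ _ => ?_
    rw [hc κ, map_sum, map_sum, Finset.sum_mul]
    refine Finset.sum_congr rfl fun i _ => ?_
    rw [map_smul, map_smul, Algebra.smul_def]
    ring
  have hzP : MvPolynomial.map ((MvPolynomial.aeval z : MvPolynomial (Fin n) ℂ →ₐ[ℂ] L⟦X⟧) :
      MvPolynomial (Fin n) ℂ →+* L⟦X⟧) P =
      MvPolynomial.X a ^ s * ∏ l, GSepA_G a z l ^ β l := by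
    rw [hP, map_mul, map_pow, MvPolynomial.map_X, map_prod]
    congr 1
    refine Finset.prod_congr rfl fun l _ => ?_
    unfold GSepA_G
    rw [map_pow, map_sub, map_mul, MvPolynomial.map_X, MvPolynomial.map_X, MvPolynomial.map_C,
      RingHom.coe_coe, MvPolynomial.aeval_X]
  have h2 : ∀ q : Fin n →₀ ℕ, phiG T a xj z q E = xj T.h ^ q.degree *
      (if q = β then ∏ l, ((β l).factorial : L⟦X⟧) else 0) := by
    intro q
    rw [hE, phiG_poly, hzP]
    congr 1
    exact GSepA_eval a (fun b => xj (x b)) hxj s β q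
  have h3 : ∀ p : Fin n →₀ ℕ, phiG T a xj z p (MvPolynomial.C b) = xj (T.F a p b) := by
    intro p
    unfold phiG
    by_cases hb0 : b = 0
    · rw [hb0, MvPolynomial.C_0, MvPolynomial.support_zero, Finset.sum_empty, map_zero, map_zero]
    · rw [MvPolynomial.support_C, if_neg hb0]
      simp
  rw [h1, hu, phiG_mul]
  simp only [h2, h3]
  by_cases hβα : β ≤ α
  · rw [if_pos hβα, Finset.sum_eq_single (α - β, β)]
    · rw [if_pos rfl, map_mul, map_prod]
      simp only [map_natCast]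
      ring
    · intro p hp hne
      rw [if_neg, mul_zero, mul_zero, mul_zero]
      intro h4
      apply hne
      rw [Finset.HasAntidiagonal.mem_antidiagonal] at hp
      ext1
      · rw [← hp, ← h4, add_tsub_cancel_right]
      · exact h4
    · intro h4
      exact absurd (Finset.HasAntidiagonal.mem_antidiagonal.2 (tsub_add_cancel_of_le hβα)) h4
  · rw [if_neg hβα]
    refine Finset.sum_eq_zero fun p hp => ?_
    rw [if_neg, mul_zero, mul_zero, mul_zero]
    intro h4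
    apply hβα
    rw [Finset.HasAntidiagonal.mem_antidiagonal] at hp
    rw [← hp, ← h4]
    exact le_add_self

end Pool.Agent.Lib_KF

end

/-! ### from `Lib_KF.GRows` -/

section

/-! G5b: a basis of a submodule of finite colength. -/

open PowerSeries

namespace Pool.Agent.Lib_KF

open Pool.Agent.Lib_GD

private theorem GRows_ord_prod {R : Type} [CommRing R] [IsDomain R] {m : Type} (s : Finset m)
    (c : m → R) (hc : ∀ i, c i ≠ 0) : Ring.ord R (∏ i ∈ s, c i) = ∑ i ∈ s, Ring.ord R (c i) := by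
  classical
  induction s using Finset.induction_on with
  | empty => simp
  | insert a s ha ih =>
    rw [Finset.prod_insert ha, Finset.sum_insert ha, Ring.ord_mul R, ih]
    exact mem_nonZeroDivisors_of_ne_zero (Finset.prod_ne_zero_iff.2 fun i _ => hc i)

/-- The length of the cokernel of a square matrix over a principal ideal domain. -/
private theorem GRows_length {R : Type} [CommRing R] [IsDomain R] [IsPrincipalIdealRing R]
    {m : Type} [Fintype m] [DecidableEq m] (A : Matrix m m R) (hA : A.det ≠ 0) :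
    Module.length R ((m → R) ⧸ Submodule.span R (Set.range A)) = Ring.ord R A.det := by
  set N : Submodule R (m → R) := Submodule.span R (Set.range A) with hN
  have hr : LinearMap.range A.vecMulLinear = N := by
    rw [range_vecMulLinear]
    rfl
  have hinj : Function.Injective A.vecMulLinear := by
    rw [← LinearMap.ker_eq_bot, LinearMap.ker_eq_bot']
    intro x hx
    exact Matrix.eq_zero_of_vecMul_eq_zero hA hx
  let eN : (m → R) ≃ₗ[R] N :=
    (LinearEquiv.ofInjective A.vecMulLinear hinj).trans (LinearEquiv.ofEq _ _ hr)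
  have heN : ∀ x, ((eN x : N) : m → R) = A.vecMulLinear x := fun x => rfl
  have hrank : Module.finrank R N = Module.finrank R (m → R) := eN.finrank_eq.symm
  let b := Pi.basisFun R m
  let b' := Submodule.smithNormalFormTopBasis b hrank
  let ab := Submodule.smithNormalFormBotBasis b hrank
  let c := Submodule.smithNormalFormCoeffs b hrank
  have hab : ∀ i, (ab i : m → R) = c i • b' i := Submodule.smithNormalFormBotBasis_def b hrank
  have hc : ∀ i, c i ≠ 0 := fun i => Submodule.smithNormalFormCoeffs_ne_zero b hrank i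
  rw [(N.quotientEquivPiSpan b hrank).length_eq, Module.length_pi_of_fintype]
  have h1 : ∑ i, Module.length R (R ⧸ Ideal.span ({c i} : Set R)) = Ring.ord R (∏ i, c i) := by
    rw [GRows_ord_prod _ _ hc]
    rfl
  refine h1.trans (Ring.ord_eq_of_associated ?_)
  -- the two determinants
  let ψ : (m → R) →ₗ[R] (m → R) := N.subtype ∘ₗ (b'.equiv ab (Equiv.refl m)).toLinearMap
  have hψ : LinearMap.det ψ = ∏ i, c i := by
    rw [← LinearMap.det_toMatrix b', ← Matrix.det_diagonal]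
    congr 1
    ext i j
    rw [LinearMap.toMatrix_apply]
    have h2 : ψ (b' j) = c j • b' j := by
      rw [← hab j]
      show ((b'.equiv ab (Equiv.refl m) (b' j) : N) : m → R) = ab j
      rw [Module.Basis.equiv_apply]
      rfl
    rw [h2, map_smul, Finsupp.smul_apply, Module.Basis.repr_self, Matrix.diagonal_apply,
      smul_eq_mul, Finsupp.single_apply]
    split_ifs with h3 h4 h4
    · rw [mul_one, h3]
    · exact absurd h3.symm h4
    · exact absurd h4.symm h3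
    · rw [mul_zero]
  have hφ : LinearMap.det A.vecMulLinear = A.det := by
    rw [← Matrix.mulVecLin_transpose, ← Matrix.toLin'_apply', LinearMap.det_toLin',
      Matrix.det_transpose]
  rw [← hψ, ← hφ]
  refine (LinearMap.associated_det_of_eq_comp (eN.trans (b'.equiv ab (Equiv.refl m)).symm)
    A.vecMulLinear ψ fun x => ?_).symm
  show A.vecMulLinear x = ((b'.equiv ab (Equiv.refl m)
    ((b'.equiv ab (Equiv.refl m)).symm (eN x)) : N) : m → R)
  rw [LinearEquiv.apply_symm_apply, heN]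

/-- If the cokernel has finite length the determinant is not zero. -/
private theorem GRows_det_ne {R : Type} [CommRing R] [IsDomain R] [IsDiscreteValuationRing R]
    {m : Type} [Fintype m] [DecidableEq m] (A : Matrix m m R)
    (h : Module.length R ((m → R) ⧸ Submodule.span R (Set.range A)) ≠ ⊤) : A.det ≠ 0 := by
  intro h0
  obtain ⟨w, hw0, hw⟩ := Matrix.exists_mulVec_eq_zero_iff.2 h0
  obtain ⟨q, hq⟩ : ∃ q, w q ≠ 0 := by
    by_contra hne
    push Not at hne
    exact hw0 (funext hne)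
  let ℓ : (m → R) →ₗ[R] R := ∑ i, w i • LinearMap.proj i
  have hℓ : ∀ x, ℓ x = ∑ i, w i * x i := by
    intro x
    simp [ℓ, LinearMap.sum_apply]
  have hker : Submodule.span R (Set.range A) ≤ LinearMap.ker ℓ := by
    rw [Submodule.span_le]
    rintro _ ⟨p, rfl⟩
    show ℓ (A p) = 0
    rw [hℓ]
    have := congrFun hw p
    rw [Matrix.mulVec, dotProduct, Pi.zero_apply] at this
    rw [← this]
    exact Finset.sum_congr rfl fun i _ => mul_comm _ _
  let g : R →ₗ[R] ((m → R) ⧸ Submodule.span R (Set.range A)) :=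
    (Submodule.mkQ _) ∘ₗ (LinearMap.single R (fun _ => R) q)
  have hg : Function.Injective g := by
    rw [← LinearMap.ker_eq_bot, LinearMap.ker_eq_bot']
    intro x hx
    have h1 : (Pi.single q x : m → R) ∈ Submodule.span R (Set.range A) :=
      (Submodule.Quotient.mk_eq_zero _).1 hx
    have h2 : ℓ (Pi.single q x) = 0 := hker h1
    rw [hℓ, Finset.sum_eq_single q] at h2
    · rw [Pi.single_eq_same] at h2
      exact (mul_eq_zero.1 h2).resolve_left hq
    · intro i _ hi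
      rw [Pi.single_eq_of_ne hi, mul_zero]
    · intro hh
      exact absurd (Finset.mem_univ q) hh
  have h3 : Module.length R R ≠ ⊤ := fun hh =>
    h (top_le_iff.1 (hh ▸ Module.length_le_of_injective g hg))
  have h4 : IsArtinian R R := (isFiniteLength_iff_isNoetherian_isArtinian.1
    (Module.length_ne_top_iff.1 h3)).2
  have h5 : IsArtinianRing R := h4
  exact IsDiscreteValuationRing.not_isField R (IsArtinianRing.isField_of_isDomain R)

private theorem GRows_ord_dvr {R : Type} [CommRing R] [IsDomain R] [IsDiscreteValuationRing R]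
    (x : R) (hx : x ≠ 0) : Ring.ord R x = IsDiscreteValuationRing.addVal R x := by
  obtain ⟨ϖ, hϖ⟩ := IsDiscreteValuationRing.exists_irreducible R
  obtain ⟨n, u, rfl⟩ := IsDiscreteValuationRing.eq_unit_mul_pow_irreducible hx hϖ
  rw [IsDiscreteValuationRing.addVal_def' u hϖ n, Ring.ord_mul_of_isUnit_left u.isUnit,
    Ring.ord_pow (mem_nonZeroDivisors_of_ne_zero hϖ.ne_zero), Ring.ord_of_irreducible hϖ,
    nsmul_eq_mul, mul_one]

private theorem GRows_ord_series {L : Type} [Field L] (f : L⟦X⟧) (hf : f ≠ 0) :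
    Ring.ord L⟦X⟧ f = f.order := by
  have h1 : f.order = (f.order.toNat : ℕ∞) := by
    rw [ENat.natCast_toNat]
    exact fun h => hf (PowerSeries.order_eq_top.1 h)
  have h2 : IsUnit (divXPowOrder f) := by
    rw [PowerSeries.isUnit_iff_constantCoeff, isUnit_iff_ne_zero, constantCoeff_divXPowOrder]
    exact coeff_order hf
  conv_lhs => rw [← X_pow_order_mul_divXPowOrder (f := f)]
  rw [Ring.ord_mul_of_isUnit_right h2, Ring.ord_pow (mem_nonZeroDivisors_of_ne_zero X_ne_zero),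
    Ring.ord_of_irreducible X_irreducible, nsmul_eq_mul, mul_one, ← h1]

/-- G5b. Proof: `L⟦X⟧` is a principal ideal domain; `Ξ` is free of rank `n` (it contains
`X^c O^n`); take a basis `A i` of `Ξ` (`Submodule.smithNormalForm`, or
`Submodule.nonempty_basis_of_pid`); then `Ξ` is the span of the rows of `A`, and the colength of
the span of the rows is the order of the determinant (`length_matrix` in
`Lib_MP_e0d435_kv/AdLen.lean`, or `ArcColen_det_ne` and the lemmas of `Lib_GD/ArcColen.lean`);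
`det A ≠ 0` because the rows are linearly independent. -/
theorem exists_rows {L : Type} [Field L] {n : ℕ} (Ξ : Submodule L⟦X⟧ (Fin n → L⟦X⟧))
    (hΞ : FinColen Ξ) :
    ∃ A : Matrix (Fin n) (Fin n) L⟦X⟧, (∀ i, A i ∈ Ξ) ∧ Matrix.det A ≠ 0 ∧
      (Matrix.det A).order = (colen Ξ : ℕ∞) := by
  classical
  obtain ⟨m, ⟨bN⟩⟩ := Submodule.nonempty_basis_of_pid (Pi.basisFun L⟦X⟧ (Fin n)) Ξ
  have hm : m ≤ n := by
    have h1 := Submodule.finrank_le Ξ
    rwa [Module.finrank_eq_card_basis bN, Module.finrank_fintype_fun_eq_card, Fintype.card_fin,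
      Fintype.card_fin] at h1
  let A : Matrix (Fin n) (Fin n) L⟦X⟧ := fun i =>
    if h : (i : ℕ) < m then (bN ⟨i, h⟩ : Fin n → L⟦X⟧) else 0
  have hmem : ∀ i, A i ∈ Ξ := by
    intro i
    by_cases h : (i : ℕ) < m
    · have : A i = (bN ⟨i, h⟩ : Fin n → L⟦X⟧) := dif_pos h
      rw [this]
      exact (bN ⟨i, h⟩).2
    · have : A i = 0 := dif_neg h
      rw [this]
      exact Ξ.zero_mem
  have hspan : Submodule.span L⟦X⟧ (Set.range A) = Ξ := by
    apply le_antisymm
    · rw [Submodule.span_le]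
      rintro _ ⟨i, rfl⟩
      exact hmem i
    · intro x hx
      have h1 : x = ∑ i, bN.repr ⟨x, hx⟩ i • (bN i : Fin n → L⟦X⟧) := by
        have h2 := congrArg (Submodule.subtype Ξ) (bN.sum_repr ⟨x, hx⟩)
        rw [map_sum] at h2
        exact h2.symm
      rw [h1]
      refine Submodule.sum_mem _ fun i _ => Submodule.smul_mem _ _ (Submodule.subset_span ?_)
      refine ⟨⟨i, lt_of_lt_of_le i.2 hm⟩, ?_⟩
      exact dif_pos i.2
  have hdet : A.det ≠ 0 := GRows_det_ne A (by rw [hspan]; exact hΞ)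
  refine ⟨A, hmem, hdet, ?_⟩
  rw [← GRows_ord_series _ hdet, ← GRows_length A hdet, hspan, colen]
  exact (ENat.natCast_toNat hΞ).symm

end Pool.Agent.Lib_KF

end
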