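import Mathlib
import Pool.Agent.Lib_MP_e0d435_m.G02
import Pool.Agent.Lib_MP_e0d435_m.G04
import Pool.Agent.Lib_MP_e0d435_m.G07
import Pool.Agent.Lib_MP_e0d435_m.G08
import Pool.Agent.Lib_MP_e0d435_m.G10
import Pool.Agent.Lib_MP_e0d435_m.G12
import Pool.Agent.Lib_MP_e0d435_m.G13
import Pool.Agent.Lib_MP_e0d435_m.G14
import Pool.Agent.Lib_MP_e0d435_m.G15
import Pool.Agent.Lib_MP_e0d435_m.G16

/-!
# MP_e0d435_ag: merged library part G20

Concatenation of library files (each in its own section), only to save build time.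
-/

/-! ### from `Lib_GD.ArcPull` -/

section

/-! A04: pulled back differentials. -/

open PowerSeries

namespace Pool.Agent.Lib_GD

variable {R : Type} [CommRing R] [Algebra ℂ R] {𝒜 : ℕ → Submodule ℂ R} [GradedAlgebra 𝒜]
  {n N : ℕ}

omit [GradedAlgebra 𝒜] in
/-- chain rule for a map from a chart -/
private theorem ArcPull_chain (c : Chart 𝒜 n) {V : Type} [CommRing V] [Algebra ℂ V]
    (ψ : c.B →ₐ[ℂ] V) (b : c.B) :
    KaehlerDifferential.D ℂ V (ψ b) =
      ∑ l, ψ (c.der l b) • KaehlerDifferential.D ℂ V (ψ (c.y l)) := by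
  let _ : Module c.B (KaehlerDifferential ℂ V) :=
    Module.compHom (KaehlerDifferential ℂ V) ψ.toRingHom
  have hsm : ∀ (b : c.B) (f : KaehlerDifferential ℂ V), b • f = ψ b • f := fun _ _ => rfl
  have _ : IsScalarTower ℂ c.B (KaehlerDifferential ℂ V) := ⟨fun z b f => by
    rw [hsm, hsm, map_smul, smul_assoc]⟩
  let D : Derivation ℂ c.B (KaehlerDifferential ℂ V) :=
    { toFun := fun b => KaehlerDifferential.D ℂ V (ψ b)
      map_add' := fun a b => by rw [map_add, map_add]
      map_smul' := fun z b => by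
        rw [map_smul, Derivation.map_smul]; rfl
      map_one_eq_zero' := by
        change KaehlerDifferential.D ℂ V (ψ 1) = 0
        rw [map_one, Derivation.map_one_eq_zero]
      leibniz' := fun a b => by
        change KaehlerDifferential.D ℂ V (ψ (a * b)) =
          a • KaehlerDifferential.D ℂ V (ψ b) + b • KaehlerDifferential.D ℂ V (ψ a)
        rw [hsm, hsm, map_mul, Derivation.leibniz] }
  exact c.der_eq D b

/-- the derivative of an inverse -/
private theorem ArcPull_inv {V : Type} [CommRing V] [Algebra ℂ V] {a b : V} (h : a * b = 1) :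
    KaehlerDifferential.D ℂ V b = -(b ^ 2) • KaehlerDifferential.D ℂ V a := by
  have h1 : KaehlerDifferential.D ℂ V (a * b) = 0 := by
    rw [h, Derivation.map_one_eq_zero]
  rw [Derivation.leibniz] at h1
  have h2 : b • (a • KaehlerDifferential.D ℂ V b + b • KaehlerDifferential.D ℂ V a) = 0 := by
    rw [h1, smul_zero]
  rw [smul_add, smul_smul, smul_smul, mul_comm b a, h, one_smul, ← pow_two] at h2
  rw [neg_smul]
  exact eq_neg_of_add_eq_zero_left h2

/-- A04: the pulled back differentials are spanned by the `d (ψ_j (y_l))`. -/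
theorem DivisorOver.pulledBack_eq (E : DivisorOver 𝒜 n N) (c : Fin N → Chart 𝒜 n)
    (ψ : ∀ j, (c j).B →ₐ[ℂ] E.V) (w : Fin N → E.Vˣ)
    (hψ : ∀ j m, ∀ s ∈ 𝒜 m, E.φ j s = (w j : E.V) ^ m * ψ j ((c j).ρ s)) :
    E.pulledBack = Submodule.span E.V
      (Set.range fun p : Fin N × Fin n => KaehlerDifferential.D ℂ E.V (ψ p.1 ((c p.1).y p.2))) := by
  have hmem : ∀ j (b : (c j).B), KaehlerDifferential.D ℂ E.V (ψ j b) ∈ Submodule.span E.V
      (Set.range fun p : Fin N × Fin n =>
        KaehlerDifferential.D ℂ E.V (ψ p.1 ((c p.1).y p.2))) := by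
    intro j b
    rw [ArcPull_chain (c j) (ψ j) b]
    exact Submodule.sum_mem _ fun l _ => Submodule.smul_mem _ _
      (Submodule.subset_span ⟨(j, l), rfl⟩)
  apply le_antisymm
  · unfold DivisorOver.pulledBack
    rw [Submodule.span_le]
    rintro _ ⟨j, m, s, hs, s', hs', w', hw', rfl⟩
    rw [hψ j m s' hs'] at hw'
    have e1 : E.φ j s * w' = ψ j ((c j).ρ s) * ((w j : E.V) ^ m * w') := by
      rw [hψ j m s hs]; ring
    have e2 : ψ j ((c j).ρ s') * ((w j : E.V) ^ m * w') = 1 := by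
      rw [← hw']; ring
    rw [e1, Derivation.leibniz, ArcPull_inv e2]
    exact Submodule.add_mem _ (Submodule.smul_mem _ _ (Submodule.smul_mem _ _ (hmem _ _)))
      (Submodule.smul_mem _ _ (hmem _ _))
  · rw [Submodule.span_le]
    rintro _ ⟨⟨j, l⟩, rfl⟩
    obtain ⟨m, s, hs, s', hs', hu, h1⟩ := (c j).ratio_mem ((c j).y l)
    have hu' : IsUnit (E.φ j s') := by
      rw [hψ j m s' hs']
      exact ((w j).isUnit.pow m).mul (hu.map (ψ j))
    obtain ⟨w', hw'⟩ := hu'.exists_right_inv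
    have e1 : ψ j ((c j).y l) = E.φ j s * w' := by
      have hw2 := hw'
      rw [hψ j m s' hs'] at hw2
      rw [hψ j m s hs, ← h1, map_mul]
      calc ψ j ((c j).y l) = ψ j ((c j).y l) * 1 := (mul_one _).symm
        _ = (w j : E.V) ^ m * (ψ j ((c j).y l) * ψ j ((c j).ρ s')) * w' := by
            rw [← hw2]; ring
    have e2 : KaehlerDifferential.D ℂ E.V (E.φ j s * w') ∈ E.pulledBack :=
      Submodule.subset_span ⟨j, m, s, hs, s', hs', w', hw', rfl⟩
    rw [← e1] at e2
    exact e2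

/-- the derivative of a ratio of sections, the denominator only non-zero -/
private theorem ArcPull_ratio (E : DivisorOver 𝒜 n N) (j : Fin N) (m : ℕ) {s s' : R}
    (hs : s ∈ 𝒜 m) (hs' : s' ∈ 𝒜 m) (h0 : E.φ j s' ≠ 0) :
    ∃ a b : E.V, b ≠ 0 ∧ KaehlerDifferential.D ℂ E.V a ∈ E.pulledBack ∧
      KaehlerDifferential.D ℂ E.V b ∈ E.pulledBack ∧
      algebraMap E.V (FractionRing E.V) (E.φ j s) / algebraMap E.V (FractionRing E.V) (E.φ j s') =
        algebraMap E.V (FractionRing E.V) a / algebraMap E.V (FractionRing E.V) b := by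
  obtain ⟨d, hd, f, hf, hu⟩ := E.centre j
  obtain ⟨w, hw⟩ := (hu.pow m).exists_right_inv
  have hfm : f ^ m ∈ 𝒜 (m * d) := by
    have := SetLike.pow_mem_graded (A := 𝒜) m hf
    simpa [nsmul_eq_mul] using this
  have hnum : s * s' ^ (d - 1) ∈ 𝒜 (m * d) := by
    have h1 := SetLike.mul_mem_graded (A := 𝒜) hs (SetLike.pow_mem_graded (A := 𝒜) (d - 1) hs')
    have h2 : m + (d - 1) • m = m * d := by
      rw [smul_eq_mul]
      obtain ⟨e, rfl⟩ : ∃ e, d = e + 1 := ⟨d - 1, by omega⟩
      simp only [Nat.add_sub_cancel]; ring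
    rwa [h2] at h1
  have hden : s' ^ d ∈ 𝒜 (m * d) := by
    have h1 := SetLike.pow_mem_graded (A := 𝒜) d hs'
    have h2 : d • m = m * d := by rw [smul_eq_mul, mul_comm]
    rwa [h2] at h1
  have hw' : E.φ j (f ^ m) * w = 1 := by rw [map_pow]; exact hw
  have hw0 : w ≠ 0 := by
    intro h
    rw [h, mul_zero] at hw
    exact zero_ne_one hw
  refine ⟨E.φ j (s * s' ^ (d - 1)) * w, E.φ j (s' ^ d) * w, ?_, ?_, ?_, ?_⟩
  · rw [map_pow]
    exact mul_ne_zero (pow_ne_zero _ h0) hw0
  · exact Submodule.subset_span ⟨j, m * d, _, hnum, _, hfm, w, hw', rfl⟩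
  · exact Submodule.subset_span ⟨j, m * d, _, hden, _, hfm, w, hw', rfl⟩
  · have hinj := IsFractionRing.injective E.V (FractionRing E.V)
    have h0' : algebraMap E.V (FractionRing E.V) (E.φ j s') ≠ 0 := by
      rw [Ne, map_eq_zero_iff _ hinj]; exact h0
    have hw0' : algebraMap E.V (FractionRing E.V) w ≠ 0 := by
      rw [Ne, map_eq_zero_iff _ hinj]; exact hw0
    obtain ⟨e, rfl⟩ : ∃ e, d = e + 1 := ⟨d - 1, by omega⟩
    simp only [Nat.add_sub_cancel, map_mul, map_pow]
    field_simp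
    ring

/-- every differential has a non-zero multiple which is pulled back -/
private theorem ArcPull_torsion (E : DivisorOver 𝒜 n N) (ω : KaehlerDifferential ℂ E.V) :
    ∃ v : E.V, v ≠ 0 ∧ v • ω ∈ E.pulledBack := by
  let K := FractionRing E.V
  let f := KaehlerDifferential.map ℂ ℂ E.V K
  have _ : IsLocalizedModule (nonZeroDivisors E.V) f :=
    KaehlerDifferential.isLocalizedModule_map ℂ E.V K (nonZeroDivisors E.V)
  let L : Submodule K (KaehlerDifferential ℂ K) :=
    E.pulledBack.localized' K (nonZeroDivisors E.V) f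
  have hL : ∀ p ∈ E.pulledBack, f p ∈ L := by
    intro p hp
    change f p ∈ E.pulledBack.localized' K (nonZeroDivisors E.V) f
    rw [Submodule.localized'_eq_span]
    exact Submodule.subset_span ⟨p, hp, rfl⟩
  have hLD : ∀ a : E.V, KaehlerDifferential.D ℂ E.V a ∈ E.pulledBack →
      KaehlerDifferential.D ℂ K (algebraMap E.V K a) ∈ L := by
    intro a ha
    have := hL _ ha
    change KaehlerDifferential.map ℂ ℂ E.V K (KaehlerDifferential.D ℂ E.V a) ∈ L at this
    rwa [KaehlerDifferential.map_D] at this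
  have hall : ∀ z : K, KaehlerDifferential.D ℂ K z ∈ L := by
    intro z
    have hz : z ∈ IntermediateField.adjoin ℂ {z : FractionRing E.V | ∃ j m, ∃ s ∈ 𝒜 m,
        ∃ s' ∈ 𝒜 m, E.φ j s' ≠ 0 ∧ z = algebraMap E.V (FractionRing E.V) (E.φ j s) /
          algebraMap E.V (FractionRing E.V) (E.φ j s')} := by
      rw [E.generates]; exact IntermediateField.mem_top
    refine IntermediateField.adjoin_induction ℂ
      (p := fun z _ => KaehlerDifferential.D ℂ K z ∈ L) ?_ ?_ ?_ ?_ ?_ hz
    · rintro z ⟨j, m, s, hs, s', hs', h0, rfl⟩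
      obtain ⟨a, b, hb, ha1, hb1, hab⟩ := ArcPull_ratio E j m hs hs' h0
      rw [hab, Derivation.leibniz_div]
      exact Submodule.smul_mem _ _ (Submodule.sub_mem _ (Submodule.smul_mem _ _ (hLD a ha1))
        (Submodule.smul_mem _ _ (hLD b hb1)))
    · intro x
      rw [Derivation.map_algebraMap]
      exact Submodule.zero_mem _
    · intro x y _ _ hx hy
      rw [map_add]
      exact Submodule.add_mem _ hx hy
    · intro x _ hx
      rw [Derivation.leibniz_inv]
      exact Submodule.smul_mem _ _ hx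
    · intro x y _ _ hx hy
      rw [Derivation.leibniz]
      exact Submodule.add_mem _ (Submodule.smul_mem _ _ hy) (Submodule.smul_mem _ _ hx)
  have htop : L = ⊤ := by
    rw [← top_le_iff, ← KaehlerDifferential.span_range_derivation ℂ K, Submodule.span_le]
    rintro _ ⟨z, rfl⟩
    exact hall z
  have h1 : f ω ∈ L := by rw [htop]; exact Submodule.mem_top
  obtain ⟨p, hp, s, hs⟩ := (Submodule.mem_localized' _ _ _ _ _).1 h1
  rw [IsLocalizedModule.mk'_eq_iff] at hs
  have hs2 : f p = f ((s : E.V) • ω) := by rw [hs, map_smul]; rfl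
  obtain ⟨c, hc⟩ := IsLocalizedModule.exists_of_eq (S := nonZeroDivisors E.V) hs2
  refine ⟨(c : E.V) * s, ?_, ?_⟩
  · exact mul_ne_zero (nonZeroDivisors.ne_zero c.2) (nonZeroDivisors.ne_zero s.2)
  · have h2 : ((c : E.V) * (s : E.V)) • ω = (c : E.V) • p := by
      rw [mul_smul]
      exact hc.symm
    rw [h2]
    exact Submodule.smul_mem _ _ hp

/-- A04b: log discrepancies are finite: the fraction field of `V` is generated by ratios of
sections, so the pulled back differentials span `Ω_V` generically. -/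
theorem DivisorOver.logDisc_ne_top (E : DivisorOver 𝒜 n N) : E.logDisc ≠ ⊤ := by
  classical
  have _ : Module.Finite E.V (KaehlerDifferential ℂ E.V) := KaehlerDifferential.finite ℂ E.V
  set Q := KaehlerDifferential ℂ E.V ⧸ E.pulledBack with hQ
  obtain ⟨k, g, hg⟩ := Module.Finite.exists_fin' E.V Q
  -- each generator is torsion
  have htor : ∀ i : Fin k, ∃ v : E.V, v ≠ 0 ∧ v • g (Pi.single i 1) = 0 := by
    intro i
    obtain ⟨ω, hω⟩ := Submodule.Quotient.mk_surjective E.pulledBack (g (Pi.single i 1))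
    obtain ⟨v, hv, hv1⟩ := ArcPull_torsion E ω
    refine ⟨v, hv, ?_⟩
    rw [← hω, ← Submodule.Quotient.mk_smul, Submodule.Quotient.mk_eq_zero]
    exact hv1
  choose v hv hv1 using htor
  have hfin : ∀ i, IsFiniteLength E.V (E.V ⧸ Ideal.span {v i}) := fun i =>
    isFiniteLength_quotient_span_singleton E.V (mem_nonZeroDivisors_of_ne_zero (hv i))
  have _ : ∀ i, IsArtinian E.V (E.V ⧸ Ideal.span {v i}) := fun i =>
    (isFiniteLength_iff_isNoetherian_isArtinian.1 (hfin i)).2
  have hker : ∀ i, (Ideal.span {v i} : Submodule E.V E.V) ≤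
      LinearMap.ker (LinearMap.toSpanSingleton E.V Q (g (Pi.single i 1))) := by
    intro i x hx
    obtain ⟨y, rfl⟩ := Ideal.mem_span_singleton'.1 hx
    rw [LinearMap.mem_ker, LinearMap.toSpanSingleton_apply, mul_smul, hv1 i, smul_zero]
  let h : (∀ i : Fin k, E.V ⧸ Ideal.span {v i}) →ₗ[E.V] Q :=
    ∑ i, (Submodule.liftQ _ (LinearMap.toSpanSingleton E.V Q (g (Pi.single i 1))) (hker i)).comp
      (LinearMap.proj i)
  have hh : Function.Surjective h := by
    intro q
    obtain ⟨x, rfl⟩ := hg q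
    refine ⟨fun i => Ideal.Quotient.mk _ (x i), ?_⟩
    change (∑ i, (Submodule.liftQ _ (LinearMap.toSpanSingleton E.V Q (g (Pi.single i 1)))
      (hker i)).comp (LinearMap.proj i)) (fun i => Ideal.Quotient.mk _ (x i)) = g x
    rw [LinearMap.sum_apply]
    have h1 : ∀ i, ((Submodule.liftQ _ (LinearMap.toSpanSingleton E.V Q (g (Pi.single i 1)))
        (hker i)).comp (LinearMap.proj i)) (fun i => Ideal.Quotient.mk (Ideal.span {v i}) (x i)) =
        x i • g (Pi.single i 1) := by
      intro i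
      rfl
    rw [Finset.sum_congr rfl fun i _ => h1 i]
    have hx : x = ∑ i, x i • (Pi.single i 1 : Fin k → E.V) := by
      funext j
      rw [Finset.sum_apply]
      simp [Pi.single_apply]
    conv_rhs => rw [hx, map_sum]
    exact Finset.sum_congr rfl fun i _ => (map_smul g (x i) _).symm
  have _ : IsArtinian E.V Q := isArtinian_of_surjective _ h hh
  have hlen : Module.length E.V Q ≠ ⊤ := Module.length_ne_top
  unfold DivisorOver.logDisc
  rw [Ne, ENat.add_eq_top, not_or]
  exact ⟨ENat.one_ne_top, hlen⟩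

end Pool.Agent.Lib_GD

end

/-! ### from `Lib_KF.FColen` -/

section

/-! F1, F2: affine coordinates at the centre of a divisor; log discrepancies are finite. -/

namespace Pool.Agent.Lib_KF

open Pool.Agent.Lib_GD

variable {R : Type} [CommRing R] [Algebra ℂ R] {𝒜 : ℕ → Submodule ℂ R} [GradedAlgebra 𝒜]
  {n r d N : ℕ} {x : Fin (n + 1) → R} {G : R}

/-- An element of positive degree `X ^ k * C a`, `a ≠ 0`, is not integral over `ℂ`. -/
private theorem FColen_not_integral {κ : Type} [Field κ] [Algebra ℂ κ] {k : ℕ} (hk : 0 < k)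
    {a : κ} (ha : a ≠ 0) : ¬ IsIntegral ℂ (Polynomial.X ^ k * Polynomial.C a : Polynomial κ) := by
  rintro ⟨p, hp, h0⟩
  have h1 : (p.map (algebraMap ℂ κ)).comp (Polynomial.X ^ k * Polynomial.C a) = 0 := by
    rw [Polynomial.comp, Polynomial.eval₂_map, ← h0]
    rfl
  have h2 : p.map (algebraMap ℂ κ) ≠ 0 := (hp.map _).ne_zero
  rw [Polynomial.comp_eq_zero_iff] at h1
  rcases h1 with h1 | ⟨_, h1⟩
  · exact h2 h1
  · have h3 := congrArg Polynomial.natDegree h1
    rw [Polynomial.natDegree_C, Polynomial.X_pow_mul_C, Polynomial.natDegree_C_mul_X_pow k a ha]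
      at h3
    omega

/-- Integrality of the values of a homomorphism with values on `x b` in a subalgebra. -/
private theorem FColen_integral (h : IsFano 𝒜 n r d x G) {S : Type} [CommRing S] [Algebra ℂ S]
    (ψ : R →ₐ[ℂ] S) (B : Subalgebra ℂ S) (hB : ∀ b, ψ (x b) ∈ B) (f : R) :
    IsIntegral B (ψ f) := by
  have _ := h.x_finite
  have hCK : ∀ c : Algebra.adjoin ℂ (Set.range x), ψ c ∈ B := by
    intro c
    have h1 : Algebra.adjoin ℂ (Set.range x) ≤ B.comap ψ :=
      Algebra.adjoin_le (Set.range_subset_iff.2 hB)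
    exact h1 c.2
  refine IsIntegral.map_of_comp_eq (R := Algebra.adjoin ℂ (Set.range x))
    (RingHom.codRestrict (ψ.toRingHom.comp (algebraMap (Algebra.adjoin ℂ (Set.range x)) R))
      B hCK) ψ.toRingHom ?_
    (Algebra.IsIntegral.isIntegral (R := Algebra.adjoin ℂ (Set.range x)) f)
  ext c
  rfl

/-- F1. Proof: `f`, of degree `k > 0`, is integral over `ℂ[x]`; the component of degree `k p` of an
integral equation of degree `p` is `f ^ p + ∑ a_i f ^ (p - i) = 0` with `a_i` in `ℂ[x]`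
homogeneous of positive degree, so `a_i` is in the ideal generated by the `x b`. If no `φ (x b)` is a
unit then `φ (f) ^ p` is in the maximal ideal. -/
theorem isUnit_coord (h : IsFano 𝒜 n r d x G) {V : Type} [CommRing V] [IsLocalRing V]
    [Algebra ℂ V] (φ : R →ₐ[ℂ] V) (hc : ∃ k > 0, ∃ f ∈ 𝒜 k, IsUnit (φ f)) :
    ∃ b, IsUnit (φ (x b)) := by
  classical
  obtain ⟨k, hk, f, hf, hu⟩ := hc
  by_contra hcon
  push Not at hcon
  let κ := IsLocalRing.ResidueField V
  let q : V →ₐ[ℂ] κ := Algebra.ofId V κ |>.restrictScalars ℂ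
  let φ' : R →ₐ[ℂ] Polynomial κ :=
    ((Algebra.ofId κ (Polynomial κ)).restrictScalars ℂ).comp (q.comp φ)
  obtain ⟨ψ, hψ⟩ := exists_scale (𝒜 := 𝒜) φ' (Polynomial.X : Polynomial κ)
  have hψ' : ∀ j, ∀ f ∈ 𝒜 j, ψ f = Polynomial.X ^ j * Polynomial.C (q (φ f)) := hψ
  have hx : ∀ b, ψ (x b) ∈ (⊥ : Subalgebra ℂ (Polynomial κ)) := by
    intro b
    have h1 : q (φ (x b)) = 0 := by
      change IsLocalRing.residue V (φ (x b)) = 0
      rw [IsLocalRing.residue_eq_zero_iff, IsLocalRing.mem_maximalIdeal]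
      exact hcon b
    rw [hψ' d _ (h.x_mem b), h1, map_zero, mul_zero]
    exact Subalgebra.zero_mem _
  have h2 := FColen_integral h ψ ⊥ hx f
  have h3 : IsIntegral ℂ (ψ f) := by
    have _ : Algebra.IsIntegral ℂ (⊥ : Subalgebra ℂ (Polynomial κ)) := by
      infer_instance
    exact isIntegral_trans (ψ f) h2
  rw [hψ' k f hf] at h3
  refine FColen_not_integral hk ?_ h3
  exact (hu.map q).ne_zero

/-- Finite length from torsion. -/
private theorem FColen_length {V : Type} [CommRing V] [IsDomain V] [IsDiscreteValuationRing V]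
    {Ω : Type} [AddCommGroup Ω] [Module V Ω] [Module.Finite V Ω] (P : Submodule V Ω)
    (htor : ∀ ω : Ω, ∃ v : V, v ≠ 0 ∧ v • ω ∈ P) : Module.length V (Ω ⧸ P) ≠ ⊤ := by
  classical
  obtain ⟨k, g, hg⟩ := Module.Finite.exists_fin' V (Ω ⧸ P)
  have htor' : ∀ i : Fin k, ∃ v : V, v ≠ 0 ∧ v • g (Pi.single i 1) = 0 := by
    intro i
    obtain ⟨ω, hω⟩ := Submodule.Quotient.mk_surjective P (g (Pi.single i 1))
    obtain ⟨v, hv, hv1⟩ := htor ω
    refine ⟨v, hv, ?_⟩
    rw [← hω, ← Submodule.Quotient.mk_smul, Submodule.Quotient.mk_eq_zero]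
    exact hv1
  choose v hv hv1 using htor'
  have hfin : ∀ i, IsFiniteLength V (V ⧸ Ideal.span {v i}) := fun i =>
    isFiniteLength_quotient_span_singleton V (mem_nonZeroDivisors_of_ne_zero (hv i))
  have _ : ∀ i, IsArtinian V (V ⧸ Ideal.span {v i}) := fun i =>
    (isFiniteLength_iff_isNoetherian_isArtinian.1 (hfin i)).2
  have hker : ∀ i, (Ideal.span {v i} : Submodule V V) ≤
      LinearMap.ker (LinearMap.toSpanSingleton V (Ω ⧸ P) (g (Pi.single i 1))) := by
    intro i x hx
    obtain ⟨y, rfl⟩ := Ideal.mem_span_singleton'.1 hx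
    rw [LinearMap.mem_ker, LinearMap.toSpanSingleton_apply, mul_smul, hv1 i, smul_zero]
  let H : (∀ i : Fin k, V ⧸ Ideal.span {v i}) →ₗ[V] (Ω ⧸ P) :=
    ∑ i, (Submodule.liftQ _ (LinearMap.toSpanSingleton V (Ω ⧸ P) (g (Pi.single i 1)))
      (hker i)).comp (LinearMap.proj i)
  have hH : Function.Surjective H := by
    intro q
    obtain ⟨x, rfl⟩ := hg q
    refine ⟨fun i => Ideal.Quotient.mk _ (x i), ?_⟩
    change (∑ i, (Submodule.liftQ _ (LinearMap.toSpanSingleton V (Ω ⧸ P) (g (Pi.single i 1)))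
      (hker i)).comp (LinearMap.proj i)) (fun i => Ideal.Quotient.mk _ (x i)) = g x
    rw [LinearMap.sum_apply]
    have h1 : ∀ i, ((Submodule.liftQ _ (LinearMap.toSpanSingleton V (Ω ⧸ P) (g (Pi.single i 1)))
        (hker i)).comp (LinearMap.proj i)) (fun i => Ideal.Quotient.mk (Ideal.span {v i}) (x i)) =
        x i • g (Pi.single i 1) := by
      intro i
      rfl
    rw [Finset.sum_congr rfl fun i _ => h1 i]
    have hx : x = ∑ i, x i • (Pi.single i 1 : Fin k → V) := by
      funext j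
      rw [Finset.sum_apply]
      simp [Pi.single_apply]
    conv_rhs => rw [hx, map_sum]
    exact Finset.sum_congr rfl fun i _ => (map_smul g (x i) _).symm
  have _ : IsArtinian V (Ω ⧸ P) := isArtinian_of_surjective _ H hH
  exact Module.length_ne_top

/-- The field of constants of a derivation. -/
private def FColen_const {K : Type} [Field K] [Algebra ℂ K] {Q : Type} [AddCommGroup Q]
    [Module K Q] [Module ℂ Q] [IsScalarTower ℂ K Q] (D : Derivation ℂ K Q) :
    IntermediateField ℂ K where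
  carrier := {z | D z = 0}
  mul_mem' {a b} ha hb := by
    have ha' : D a = 0 := ha
    have hb' : D b = 0 := hb
    change D (a * b) = 0
    rw [Derivation.leibniz, ha', hb', smul_zero, smul_zero, add_zero]
  add_mem' {a b} ha hb := by
    have ha' : D a = 0 := ha
    have hb' : D b = 0 := hb
    change D (a + b) = 0
    rw [map_add, ha', hb', add_zero]
  algebraMap_mem' c := by
    change D (algebraMap ℂ K c) = 0
    exact D.map_algebraMap c
  inv_mem' a ha := by
    have ha' : D a = 0 := ha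
    change D a⁻¹ = 0
    rw [Derivation.leibniz_inv, ha', smul_zero]

/-- The constants are algebraically closed. -/
private theorem FColen_closed {K : Type} [Field K] [Algebra ℂ K] {Q : Type} [AddCommGroup Q]
    [Module K Q] [Module ℂ Q] [IsScalarTower ℂ K Q] (D : Derivation ℂ K Q) (z : K)
    (hz : IsIntegral (FColen_const D) z) : D z = 0 := by
  let F := FColen_const D
  have hF : ∀ a : F, D (a : K) = 0 := fun a => a.2
  let D0 : K →ₗ[F] Q :=
    { toFun := D
      map_add' := fun a b => map_add D a b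
      map_smul' := fun a b => by
        change D ((a : K) * b) = (a : K) • D b
        rw [Derivation.leibniz, hF a, smul_zero, add_zero] }
  let D' : Derivation F K Q := Derivation.mk' D0 fun a b => D.leibniz a b
  have _ : CharZero K := charZero_of_injective_algebraMap (algebraMap ℂ K).injective
  have _ : CharZero F := charZero_of_injective_algebraMap (algebraMap ℂ F).injective
  have hsep : (minpoly F z).Separable := (minpoly.irreducible hz).separable
  have h1 : D' (Polynomial.aeval z (minpoly F z)) =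
      Polynomial.aeval z (Polynomial.derivative (minpoly F z)) • D' z := D'.map_aeval _ _
  rw [minpoly.aeval, map_zero] at h1
  rcases smul_eq_zero.1 h1.symm with h2 | h2
  · exact absurd h2 (hsep.aeval_derivative_ne_zero (minpoly.aeval F z))
  · exact h2

/-- ratios of sections are integral over a field containing the affine coordinates -/
private theorem FColen_ratio (h : IsFano 𝒜 n r d x G) {K : Type} [Field K] [Algebra ℂ K]
    (φ : R →ₐ[ℂ] K) (a : Fin (n + 1)) (ha : φ (x a) ≠ 0) (F : IntermediateField ℂ K)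
    (hF : ∀ b, φ (x b) / φ (x a) ∈ F) {m : ℕ} {s s' : R} (hs : s ∈ 𝒜 m) (hs' : s' ∈ 𝒜 m) :
    IsIntegral F (φ s / φ s') := by
  let C := AlgebraicClosure K
  have hd : 0 < d := h.d_pos
  obtain ⟨t, ht⟩ := IsAlgClosed.exists_pow_nat_eq (algebraMap K C (φ (x a))⁻¹) hd
  obtain ⟨ψ, hψ⟩ := exists_scale (𝒜 := 𝒜) ((IsScalarTower.toAlgHom ℂ K C).comp φ) t
  have hψ' : ∀ j, ∀ f ∈ 𝒜 j, ψ f = t ^ j * algebraMap K C (φ f) := hψ
  have ht0 : t ≠ 0 := by
    rintro rfl
    rw [zero_pow hd.ne', eq_comm, map_eq_zero] at ht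
    exact inv_ne_zero ha ht
  -- the values of `ψ` are integral over `F`
  let B : Subalgebra ℂ C := (integralClosure F C).restrictScalars ℂ
  have hB : ∀ b, ψ (x b) ∈ B := by
    intro b
    have h1 : ψ (x b) = algebraMap F C ⟨φ (x b) / φ (x a), hF b⟩ := by
      rw [hψ' d _ (h.x_mem b), ht]
      change _ = algebraMap K C (φ (x b) / φ (x a))
      rw [← map_mul, div_eq_mul_inv, mul_comm]
    rw [h1]
    exact isIntegral_algebraMap
  have hint : ∀ f, IsIntegral F (ψ f) := by
    intro f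
    have h1 : IsIntegral (integralClosure F C) (ψ f) := FColen_integral h ψ B hB f
    exact isIntegral_trans (ψ f) h1
  have hdiv : IsIntegral F (ψ s / ψ s') := by
    have h1 := (hint s).isAlgebraic
    have h2 := (hint s').isAlgebraic
    exact (h1.mul h2.inv).isIntegral
  have heq : ψ s / ψ s' = algebraMap K C (φ s / φ s') := by
    rw [hψ' m s hs, hψ' m s' hs', map_div₀, mul_div_mul_left _ _ (pow_ne_zero m ht0)]
  rw [heq] at hdiv
  exact (isIntegral_algebraMap_iff (algebraMap K C).injective).1 hdiv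

/-- F2. Proof: as `DivisorOver.logDisc_ne_top` (Lib_GD/ArcPull.lean, also its private lemmas) with
`coordSpan E x` in place of `E.pulledBack`. The only new point is that for `K = FractionRing E.V`
and `L` the `K`-span of the image of `coordSpan E x` in `Ω[K⁄ℂ]` one has `D z ∈ L` for all
generators `z = φ_j s / φ_j s'`: the set of `z` with `D z ∈ L` is a subfield `F` of `K` which is
algebraically closed in `K` (characteristic zero: minimal polynomial over `F`, differentiate). It
contains the `φ_j (x b) / φ_j (x a)`, where `φ_j (x a)` is a unit (F1; if `φ_j (x b) = 0`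
clear). In the algebraic closure of `K` take `t ^ d = φ_j (x a)⁻¹` and the twist `φ'` of `φ_j`
(`exists_scale`, ChNorm.lean; `φ' f = t ^ k φ_j f` for `f ∈ 𝒜 k`): then `φ' (x b)` is
`φ_j (x b) / φ_j (x a)`, all elements of `φ' (R)` are integral over `ℂ[φ' (x b)]`, and
`φ_j s / φ_j s' = φ' s / φ' s'`. -/
theorem length_coordSpan_ne_top (h : IsFano 𝒜 n r d x G) (E : DivisorOver 𝒜 n N) :
    Module.length E.V (KaehlerDifferential ℂ E.V ⧸ coordSpan E x) ≠ ⊤ := by
  classical
  have _ : Module.Finite E.V (KaehlerDifferential ℂ E.V) := KaehlerDifferential.finite ℂ E.V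
  apply FColen_length
  intro ω
  let K := FractionRing E.V
  let f := KaehlerDifferential.map ℂ ℂ E.V K
  have _ : IsLocalizedModule (nonZeroDivisors E.V) f :=
    KaehlerDifferential.isLocalizedModule_map ℂ E.V K (nonZeroDivisors E.V)
  let L : Submodule K (KaehlerDifferential ℂ K) :=
    (coordSpan E x).localized' K (nonZeroDivisors E.V) f
  have hL : ∀ p ∈ coordSpan E x, f p ∈ L := by
    intro p hp
    change f p ∈ (coordSpan E x).localized' K (nonZeroDivisors E.V) f
    rw [Submodule.localized'_eq_span]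
    exact Submodule.subset_span ⟨p, hp, rfl⟩
  have hLD : ∀ a : E.V, KaehlerDifferential.D ℂ E.V a ∈ coordSpan E x →
      KaehlerDifferential.D ℂ K (algebraMap E.V K a) ∈ L := by
    intro a ha
    have := hL _ ha
    change KaehlerDifferential.map ℂ ℂ E.V K (KaehlerDifferential.D ℂ E.V a) ∈ L at this
    rwa [KaehlerDifferential.map_D] at this
  let D : Derivation ℂ K (KaehlerDifferential ℂ K ⧸ L) :=
    L.mkQ.compDer (KaehlerDifferential.D ℂ K)
  have hD : ∀ z, D z = 0 → KaehlerDifferential.D ℂ K z ∈ L := by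
    intro z hz
    exact (Submodule.Quotient.mk_eq_zero L).1 hz
  have hD' : ∀ z, KaehlerDifferential.D ℂ K z ∈ L → D z = 0 := by
    intro z hz
    exact (Submodule.Quotient.mk_eq_zero L).2 hz
  have htopF : (⊤ : IntermediateField ℂ K) ≤ FColen_const D := by
    rw [← E.generates, IntermediateField.adjoin_le_iff]
    rintro z ⟨j, m, s, hs, s', hs', h0, rfl⟩
    obtain ⟨a, ha⟩ := isUnit_coord h (E.φ j) (E.centre j)
    obtain ⟨w, hw⟩ := ha.exists_right_inv
    let φ : R →ₐ[ℂ] K := (IsScalarTower.toAlgHom ℂ E.V K).comp (E.φ j)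
    have hφ : ∀ g, φ g = algebraMap E.V K (E.φ j g) := fun g => rfl
    have hw' : φ (x a) * algebraMap E.V K w = 1 := by
      rw [hφ, ← map_mul, hw, map_one]
    have ha0 : φ (x a) ≠ 0 := left_ne_zero_of_mul_eq_one hw'
    have h1 : IsIntegral (FColen_const D) (φ s / φ s') := by
      refine FColen_ratio h φ a ha0 (FColen_const D) (fun b => ?_) hs hs'
      have h2 : φ (x b) / φ (x a) = algebraMap E.V K (E.φ j (x b) * w) := by
        rw [div_eq_iff ha0, map_mul, mul_assoc, mul_comm (algebraMap E.V K w), hw', mul_one, hφ]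
      rw [h2]
      exact hD' _ (hLD _ (Submodule.subset_span ⟨j, b, a, w, hw, rfl⟩))
    exact FColen_closed D _ h1
  have hall : ∀ z : K, KaehlerDifferential.D ℂ K z ∈ L := fun z =>
    hD z (htopF (IntermediateField.mem_top : z ∈ (⊤ : IntermediateField ℂ K)))
  have htop : L = ⊤ := by
    rw [← top_le_iff, ← KaehlerDifferential.span_range_derivation ℂ K, Submodule.span_le]
    rintro _ ⟨z, rfl⟩
    exact hall z
  have h1 : f ω ∈ L := by rw [htop]; exact Submodule.mem_top
  obtain ⟨p, hp, s, hs⟩ := (Submodule.mem_localized' _ _ _ _ _).1 h1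
  rw [IsLocalizedModule.mk'_eq_iff] at hs
  have hs2 : f p = f ((s : E.V) • ω) := by rw [hs, map_smul]; rfl
  obtain ⟨c, hc⟩ := IsLocalizedModule.exists_of_eq (S := nonZeroDivisors E.V) hs2
  refine ⟨(c : E.V) * s, ?_, ?_⟩
  · exact mul_ne_zero (nonZeroDivisors.ne_zero c.2) (nonZeroDivisors.ne_zero s.2)
  · have h2 : ((c : E.V) * (s : E.V)) • ω = (c : E.V) • p := by
      rw [mul_smul]
      exact hc.symm
    rw [h2]
    exact Submodule.smul_mem _ _ hp

end Pool.Agent.Lib_KF

end

/-! ### from `Lib_GD.ProdCoord` -/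

section

/-! P03: transcendence degree and finiteness of the product valuation ring. -/

open PowerSeries

namespace Pool.Agent.Lib_GD

/-- lifts of algebraically independent residues and `t` are algebraically independent -/
private theorem ProdCoord_indep (V : Type) [CommRing V] [IsDomain V] [IsDiscreteValuationRing V]
    [Algebra ℂ V] {ι : Type} (t : V) (ht : Irreducible t) (u : ι → V)
    (hu : AlgebraicIndependent ℂ fun i => IsLocalRing.residue V (u i)) :
    AlgebraicIndependent ℂ fun o : Option ι => o.elim t u := by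
  let f : V →ₐ[ℂ] IsLocalRing.ResidueField V := IsScalarTower.toAlgHom ℂ V _
  have hf : ∀ x, f x = IsLocalRing.residue V x := fun x => rfl
  have hu1 : AlgebraicIndependent ℂ (f ∘ u) := hu
  have hu2 : AlgebraicIndependent ℂ u := hu1.of_comp f
  rw [hu2.option_iff_transcendental]
  -- elements of `adjoin` with residue zero vanish
  have hA : ∀ x ∈ Algebra.adjoin ℂ (Set.range u), f x = 0 → x = 0 := by
    intro x hx h0
    rw [Algebra.adjoin_range_eq_range_aeval] at hx
    obtain ⟨p, rfl⟩ := hx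
    have h1 : MvPolynomial.aeval (f ∘ u) p = 0 := by
      rw [← h0]
      change _ = f (MvPolynomial.aeval u p)
      rw [MvPolynomial.comp_aeval_apply]
      rfl
    have h2 : p = 0 := hu1 (by rw [h1, map_zero])
    rw [h2]
    exact map_zero _
  have ht0 : f t = 0 := by
    rw [hf]
    refine (IsLocalRing.residue_eq_zero_iff t).2 ?_
    rw [ht.maximalIdeal_eq]
    exact Ideal.mem_span_singleton_self t
  rw [transcendental_iff]
  intro p
  induction hn : p.natDegree using Nat.strong_induction_on generalizing p with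
  | _ n ih =>
    intro hp
    have hdiv := Polynomial.divX_mul_X_add p
    have h0 : p.coeff 0 = 0 := by
      have h1 : f (Polynomial.aeval t p) = 0 := by rw [hp, map_zero]
      rw [← hdiv, map_add, map_mul, Polynomial.aeval_X, Polynomial.aeval_C, map_add, map_mul, ht0,
        mul_zero, zero_add] at h1
      exact Subtype.ext (hA _ (p.coeff 0).2 h1)
    rw [h0, Polynomial.C_0, add_zero] at hdiv
    by_cases hd : p.natDegree = 0
    · rw [Polynomial.eq_C_of_natDegree_eq_zero hd, h0, Polynomial.C_0]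
    · have h2 : Polynomial.aeval t p.divX = 0 := by
        rw [← hdiv, map_mul, Polynomial.aeval_X] at hp
        exact (mul_eq_zero.1 hp).resolve_right ht.ne_zero
      have h3 : p.divX = 0 := by
        refine ih p.divX.natDegree ?_ p.divX rfl h2
        rw [Polynomial.natDegree_divX_eq_natDegree_tsub_one]
        omega
      rw [← hdiv, h3, zero_mul]

/-- The residue field embeds in `L` by the constant coefficient. -/
private theorem ProdCoord_rho {V' L : Type} [CommRing V'] [IsDomain V']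
    [IsDiscreteValuationRing V'] [Algebra ℂ V'] [Field L] [Algebra ℂ L] (Ψ : V' →ₐ[ℂ] L⟦X⟧)
    (hΨ : ∀ f, (Ψ f).order = IsDiscreteValuationRing.addVal V' f) :
    ∃ ρ : IsLocalRing.ResidueField V' →ₐ[ℂ] L, ∀ f, ρ (IsLocalRing.residue V' f) =
      constantCoeff (Ψ f) := by
  let g : V' →+* L := (constantCoeff (R := L)).comp Ψ.toRingHom
  have hg : ∀ f, g f = constantCoeff (Ψ f) := fun f => rfl
  have hloc : IsLocalHom g := by
    constructor
    intro a ha
    have h0 : constantCoeff (Ψ a) ≠ 0 := ha.ne_zero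
    have h1 : (Ψ a).order = 0 := by
      rw [← nonpos_iff_eq_zero]
      have := PowerSeries.order_le 0 (φ := Ψ a) (by rwa [coeff_zero_eq_constantCoeff_apply])
      exact_mod_cast this
    rw [hΨ] at h1
    exact IsDiscreteValuationRing.addVal_eq_zero_iff.1 h1
  refine ⟨{ IsLocalRing.ResidueField.lift g with commutes' := ?_ }, fun f => rfl⟩
  intro c
  have h1 : algebraMap ℂ (IsLocalRing.ResidueField V') c =
      IsLocalRing.residue V' (algebraMap ℂ V' c) := rfl
  change IsLocalRing.ResidueField.lift g (algebraMap ℂ (IsLocalRing.ResidueField V') c) = _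
  rw [h1, IsLocalRing.ResidueField.lift_residue_apply, hg, AlgHom.commutes]
  rw [PowerSeries.algebraMap_apply, constantCoeff_C]

/-- the fraction field of `V'` is generated by the images of a finite set -/
private theorem ProdCoord_ess {V V' : Type} [CommRing V] [IsDomain V] [Algebra ℂ V]
    [CommRing V'] [IsDomain V'] [Algebra ℂ V'] {N : ℕ} (ψ : Fin N → (V →ₐ[ℂ] V'))
    [Algebra.EssFiniteType ℂ V]
    (hfr : ∀ f : V', ∃ b ∈ Algebra.adjoin ℂ (⋃ j, Set.range (ψ j)),
        ∃ b' ∈ Algebra.adjoin ℂ (⋃ j, Set.range (ψ j)), b' ≠ 0 ∧ f * b' = b) :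
    Algebra.EssFiniteType ℂ (FractionRing V') := by
  classical
  obtain ⟨σ, hσ⟩ := (Algebra.essFiniteType_iff ℂ V).1 inferInstance
  let K := FractionRing V'
  let θ : V' →ₐ[ℂ] K := IsScalarTower.toAlgHom ℂ V' K
  have hθ : ∀ f, θ f = algebraMap V' K f := fun f => rfl
  let σ' : Finset K := Finset.univ.biUnion fun j => σ.image fun v => θ (ψ j v)
  rw [← IntermediateField.fg_top_iff]
  refine ⟨σ', ?_⟩
  set F := IntermediateField.adjoin ℂ (σ' : Set K) with hF
  have h1 : ∀ j, ∀ v ∈ Algebra.adjoin ℂ (σ : Set V), θ (ψ j v) ∈ F := by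
    intro j v hv
    have : Algebra.adjoin ℂ (σ : Set V) ≤ F.toSubalgebra.comap (θ.comp (ψ j)) := by
      rw [Algebra.adjoin_le_iff]
      intro v hv
      refine IntermediateField.subset_adjoin ℂ _ ?_
      simp only [σ', Finset.coe_biUnion, Set.mem_iUnion, Finset.coe_image, Set.mem_image]
      exact ⟨j, Finset.mem_coe.2 (Finset.mem_univ j), v, hv, rfl⟩
    exact this hv
  have h2 : ∀ j v, θ (ψ j v) ∈ F := by
    intro j v
    obtain ⟨s, hs, hsu, hvs⟩ := hσ v
    have h3 := h1 j s hs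
    have h4 := h1 j _ hvs
    rw [map_mul, map_mul] at h4
    have h5 : θ (ψ j s) ≠ 0 := ((hsu.map (ψ j)).map θ).ne_zero
    have h6 := div_mem h4 h3
    rwa [mul_div_cancel_right₀ _ h5] at h6
  have h3 : ∀ b ∈ Algebra.adjoin ℂ (⋃ j, Set.range (ψ j)), θ b ∈ F := by
    intro b hb
    have : Algebra.adjoin ℂ (⋃ j, Set.range (ψ j)) ≤ F.toSubalgebra.comap θ := by
      rw [Algebra.adjoin_le_iff]
      intro x hx
      obtain ⟨j, v, rfl⟩ := Set.mem_iUnion.1 hx
      exact h2 j v
    exact this hb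
  have h4 : ∀ f, θ f ∈ F := by
    intro f
    obtain ⟨b, hb, b', hb', hb0, hfb⟩ := hfr f
    have h5 : θ b' ≠ 0 := by
      rw [hθ]
      intro h
      exact hb0 ((IsFractionRing.injective V' K) (by rw [h, map_zero]))
    have h6 := div_mem (h3 b hb) (h3 b' hb')
    rw [← hfb, map_mul, mul_div_cancel_right₀ _ h5] at h6
    exact h6
  rw [eq_top_iff]
  rintro z -
  obtain ⟨a, b, -, rfl⟩ := IsFractionRing.div_surjective (A := V') z
  exact div_mem (h4 a) (h4 b)

variable {V V' L : Type} [CommRing V] [IsDomain V] [IsDiscreteValuationRing V]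
  [Algebra ℂ V] [CommRing V'] [IsDomain V'] [IsDiscreteValuationRing V'] [Algebra ℂ V']
  [Field L] [Algebra ℂ L] {N r : ℕ} (j₀ : Fin N)
  (ψ : Fin N → (V →ₐ[ℂ] V')) (Ψ : V' →ₐ[ℂ] L⟦X⟧)

/-- P03a: the functions `u_j = ψ_j t / ψ_{j₀} t`, and the independence of the residues of the
`u_j`, `j ≠ j₀`, and the `ψ_j w_l` in the residue field of `V'` (which embeds in `L` by the
constant coefficient). -/
theorem product_residues (t : V) (w : Fin r → V) (ht : Irreducible t)
    (hψ : ∀ j f, (Ψ (ψ j f)).order = IsDiscreteValuationRing.addVal V f)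
    (hΨ : ∀ f, (Ψ f).order = IsDiscreteValuationRing.addVal V' f)
    (h1 : coeff 1 (Ψ (ψ j₀ t)) = 1)
    (hind : AlgebraicIndependent ℂ (Sum.elim
      (fun j : {j : Fin N // j ≠ j₀} => coeff 1 (Ψ (ψ j t)))
      (fun p : Fin N × Fin r => constantCoeff (Ψ (ψ p.1 (w p.2)))))) :
    Irreducible (ψ j₀ t) ∧ ∃ u : Fin N → V', u j₀ = 1 ∧ (∀ j, ψ j t = u j * ψ j₀ t) ∧
      AlgebraicIndependent ℂ (Sum.elim
        (fun j : {j : Fin N // j ≠ j₀} => IsLocalRing.residue V' (u j))
        (fun p : Fin N × Fin r => IsLocalRing.residue V' (ψ p.1 (w p.2)))) := by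
  classical
  have hval : ∀ j f, IsDiscreteValuationRing.addVal V' (ψ j f) =
      IsDiscreteValuationRing.addVal V f := fun j f => by rw [← hΨ, hψ]
  have hval1 : ∀ j, IsDiscreteValuationRing.addVal V' (ψ j t) = 1 := fun j => by
    rw [hval, IsDiscreteValuationRing.addVal_uniformizer ht]
  have hirr : Irreducible (ψ j₀ t) := by
    obtain ⟨ϖ, hϖ⟩ := IsDiscreteValuationRing.exists_irreducible V'
    have h : Associated ϖ (ψ j₀ t) := by
      rw [← IsDiscreteValuationRing.addVal_eq_iff_associated, hval1,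
        IsDiscreteValuationRing.addVal_uniformizer hϖ]
    exact h.irreducible hϖ
  have hdvd : ∀ j, ∃ c, ψ j t = c * ψ j₀ t := by
    intro j
    have h : ψ j₀ t ∣ ψ j t := by
      rw [← IsDiscreteValuationRing.addVal_le_iff_dvd, hval1, hval1]
    obtain ⟨c, hc⟩ := h
    exact ⟨c, by rw [hc, mul_comm]⟩
  choose u hu using hdvd
  have hu0 : u j₀ = 1 := by
    have := hu j₀
    have h2 : (u j₀ - 1) * ψ j₀ t = 0 := by rw [sub_mul, ← this, one_mul, sub_self]
    exact sub_eq_zero.1 ((mul_eq_zero.1 h2).resolve_right hirr.ne_zero)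
  refine ⟨hirr, u, hu0, hu, ?_⟩
  obtain ⟨ρ, hρ⟩ := ProdCoord_rho Ψ hΨ
  refine AlgebraicIndependent.of_comp ρ ?_
  convert hind using 1
  funext x
  rcases x with j | p
  · change ρ (IsLocalRing.residue V' (u j)) = coeff 1 (Ψ (ψ j t))
    rw [hρ, hu j, map_mul, PowerSeries.coeff_mul]
    have h0 : constantCoeff (Ψ (ψ j₀ t)) = 0 := by
      have h2 : (Ψ (ψ j₀ t)).order = 1 := by rw [hΨ, hval1]
      have h3 := PowerSeries.coeff_of_lt_order (φ := Ψ (ψ j₀ t)) 0 (by rw [h2]; norm_num)
      rwa [coeff_zero_eq_constantCoeff_apply] at h3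
    rw [Finset.Nat.sum_antidiagonal_eq_sum_range_succ_mk]
    rw [Finset.sum_range_succ, Finset.sum_range_one]
    simp only [Nat.sub_zero, Nat.sub_self, h1, coeff_zero_eq_constantCoeff_apply, h0, mul_one,
      mul_zero, add_zero]
  · exact hρ _

/-- P03b: `V'` has transcendence degree `(r + 1) N` and is essentially of finite type. -/
theorem product_trdeg [Algebra.EssFiniteType ℂ V] (hr : Algebra.trdeg ℂ V = (r + 1 : ℕ))
    (t : V) (w : Fin r → V) (ht : Irreducible t) (hw : AlgebraicIndependent ℂ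
      (fun l => IsLocalRing.residue V (w l)))
    (hi : ∀ j, Function.Injective (ψ j))
    (u : Fin N → V') (hu : u j₀ = 1) (hu' : ∀ j, ψ j t = u j * ψ j₀ t)
    (hirr : Irreducible (ψ j₀ t))
    (hind : AlgebraicIndependent ℂ (Sum.elim
        (fun j : {j : Fin N // j ≠ j₀} => IsLocalRing.residue V' (u j))
        (fun p : Fin N × Fin r => IsLocalRing.residue V' (ψ p.1 (w p.2)))))
    (hfr : ∀ f : V', ∃ b ∈ Algebra.adjoin ℂ (⋃ j, Set.range (ψ j)),
        ∃ b' ∈ Algebra.adjoin ℂ (⋃ j, Set.range (ψ j)), b' ≠ 0 ∧ f * b' = b) :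
    Algebra.trdeg ℂ V' = ((r + 1) * N : ℕ) ∧ Algebra.EssFiniteType ℂ V' := by
  classical
  have hN : 0 < N := j₀.pos
  -- the coordinates of `V`
  have hbV : IsTranscendenceBasis ℂ (fun o : Option (Fin r) => o.elim t w) := by
    refine (ProdCoord_indep V t ht w hw).isTranscendenceBasis_of_trdeg_le_of_finite ?_
    rw [hr, Cardinal.mk_fintype, Fintype.card_option, Fintype.card_fin]
  have halgV : Algebra.IsAlgebraic
      (Algebra.adjoin ℂ (Set.range (fun o : Option (Fin r) => o.elim t w))) V := hbV.isAlgebraic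
  -- the coordinates of `V'`
  let ι : Type := {j : Fin N // j ≠ j₀} ⊕ (Fin N × Fin r)
  let y : ι → V' := Sum.elim (fun j => u j) (fun p => ψ p.1 (w p.2))
  have hres : AlgebraicIndependent ℂ fun i => IsLocalRing.residue V' (y i) := by
    convert hind using 1
    funext i
    rcases i with j | p <;> rfl
  have hcard : Fintype.card ι = (r + 1) * N - 1 := by
    simp only [ι, Fintype.card_sum, Fintype.card_prod, Fintype.card_fin]
    have : Fintype.card {j : Fin N // j ≠ j₀} = N - 1 := by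
      rw [Fintype.card_subtype_compl, Fintype.card_fin, Fintype.card_subtype_eq]
    rw [this, add_mul, one_mul, mul_comm N r]
    omega
  have hind' := ProdCoord_indep V' (ψ j₀ t) hirr y hres
  set x' : Option ι → V' := fun o => o.elim (ψ j₀ t) y with hx'
  set A := Algebra.adjoin ℂ (Set.range x') with hA
  have hmem : ∀ o, x' o ∈ A := fun o => Algebra.subset_adjoin ⟨o, rfl⟩
  have hmu : ∀ j, u j ∈ A := by
    intro j
    by_cases hj : j = j₀
    · rw [hj, hu]
      exact one_mem _
    · exact hmem (some (Sum.inl ⟨j, hj⟩))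
  have hmt : ∀ j, ψ j t ∈ A := fun j => by
    rw [hu']
    exact mul_mem (hmu j) (hmem none)
  have hmw : ∀ j l, ψ j (w l) ∈ A := fun j l => hmem (some (Sum.inr (j, l)))
  have halg1 : ∀ j v, IsAlgebraic A (ψ j v) := by
    intro j v
    have hle : ∀ z ∈ Algebra.adjoin ℂ (Set.range (fun o : Option (Fin r) => o.elim t w)),
        ψ j z ∈ A := by
      intro z hz
      have : Algebra.adjoin ℂ (Set.range (fun o : Option (Fin r) => o.elim t w)) ≤
          A.comap (ψ j) := by
        rw [Algebra.adjoin_le_iff]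
        rintro _ ⟨o, rfl⟩
        rcases o with _ | l
        · exact hmt j
        · exact hmw j l
      exact this hz
    obtain ⟨P, hP0, hP⟩ := halgV.isAlgebraic v
    let g : (Algebra.adjoin ℂ (Set.range (fun o : Option (Fin r) => o.elim t w))) →+* A :=
      { toFun := fun z => ⟨ψ j z.1, hle z.1 z.2⟩
        map_one' := Subtype.ext (map_one _)
        map_mul' := fun a b => Subtype.ext (map_mul _ _ _)
        map_zero' := Subtype.ext (map_zero _)
        map_add' := fun a b => Subtype.ext (map_add _ _ _) }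
    have hg : Function.Injective g := by
      intro a b hab
      exact Subtype.ext (hi j (congrArg Subtype.val hab))
    refine ⟨P.map g, ?_, ?_⟩
    · rwa [Ne, Polynomial.map_eq_zero_iff hg]
    · have h2 := congrArg (ψ j).toRingHom hP
      rw [map_zero, Polynomial.aeval_def, Polynomial.hom_eval₂] at h2
      rw [Polynomial.aeval_def, Polynomial.eval₂_map]
      exact h2
  have halg2 : ∀ b ∈ Algebra.adjoin ℂ (⋃ j, Set.range (ψ j)), IsAlgebraic A b := by
    intro b hb
    have hle : Algebra.adjoin ℂ (⋃ j, Set.range (ψ j)) ≤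
        (Subalgebra.algebraicClosure A V').restrictScalars ℂ := by
      rw [Algebra.adjoin_le_iff]
      intro z hz
      obtain ⟨j, v, rfl⟩ := Set.mem_iUnion.1 hz
      exact halg1 j v
    exact hle hb
  have halg3 : Algebra.IsAlgebraic A V' := by
    constructor
    intro f
    obtain ⟨b, hb, b', hb', hb0, hfb⟩ := hfr f
    refine IsAlgebraic.of_mul (mem_nonZeroDivisors_of_ne_zero hb0) (halg2 b' hb') ?_
    rw [mul_comm, hfb]
    exact halg2 b hb
  have hbasis : IsTranscendenceBasis ℂ x' := hind'.isTranscendenceBasis_iff_isAlgebraic.2 halg3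
  have htr : Algebra.trdeg ℂ V' = ((r + 1) * N : ℕ) := by
    rw [← hbasis.cardinalMk_eq_trdeg, Cardinal.mk_fintype, Fintype.card_option, hcard]
    congr 1
    have : 0 < (r + 1) * N := by positivity
    omega
  refine ⟨htr, ?_⟩
  have hpos : 1 ≤ (r + 1) * N := by
    have : 0 < (r + 1) * N := by positivity
    omega
  let e : Fin ((r + 1) * N - 1) ≃ ι := (Fintype.equivFinOfCardEq hcard).symm
  exact essFiniteType_of_residue V' ((r + 1) * N) hpos htr (ProdCoord_ess ψ hfr) (y ∘ e)
    (hres.comp e e.injective)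

end Pool.Agent.Lib_GD

end

/-! ### from `Lib_KF.POkGeom` -/

section

/-! B07: the graded semigroup of leading exponents. -/

open scoped ENNReal

namespace Pool.Agent.Lib_KF

open Pool.Agent.Lib_GD

variable {R : Type} [CommRing R] [Algebra ℂ R] {𝒜 : ℕ → Submodule ℂ R} [GradedAlgebra 𝒜]
  {n : ℕ}

theorem okGeom_exists_posP (h : IsPol 𝒜 n) : ∃ d > 0, ∃ f ∈ 𝒜 d, f ≠ 0 := by
  classical
  by_contra hcon
  push Not at hcon
  have hdim := h.dim
  have halg : Algebra.IsAlgebraic ℂ R := by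
    refine ⟨fun r => ?_⟩
    have hr : r = ((DirectSum.decompose 𝒜 r) 0 : R) := by
      conv_lhs => rw [← DirectSum.sum_support_decompose 𝒜 r]
      by_cases h0 : (0 : ℕ) ∈ (DirectSum.decompose 𝒜 r).support
      · rw [Finset.sum_eq_single_of_mem 0 h0]
        intro d _ hd
        exact hcon d (Nat.pos_of_ne_zero hd) _ (SetLike.coe_mem _)
      · have h1 : ((DirectSum.decompose 𝒜 r) 0 : R) = 0 := by
          rw [DFinsupp.notMem_support_iff] at h0
          rw [h0]; rfl
        rw [h1]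
        refine Finset.sum_eq_zero fun d hd => ?_
        refine hcon d (Nat.pos_of_ne_zero ?_) _ (SetLike.coe_mem _)
        rintro rfl
        exact h0 hd
    have hm : r ∈ 𝒜 0 := by rw [hr]; exact SetLike.coe_mem _
    rw [h.connected] at hm
    obtain ⟨z, rfl⟩ := Algebra.mem_bot.1 ((Subalgebra.mem_toSubmodule _).1 hm)
    exact isAlgebraic_algebraMap z
  have h0 : Algebra.trdeg ℂ R = 0 := _root_.trdeg_eq_zero
  rw [h0] at hdim
  have h2 : ((n : Cardinal) + 1) = ((n + 1 : ℕ) : Cardinal) := by simp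
  rw [h2] at hdim
  have h3 : ((0 : ℕ) : Cardinal) = ((n + 1 : ℕ) : Cardinal) := by simpa using hdim
  rw [Nat.cast_inj] at h3
  omega

theorem okGeom_simplexP (h : IsPol 𝒜 n) (c : Chart 𝒜 n) (x : c.B →ₐ[ℂ] ℂ) :
    ∃ c₁ : ℝ, 0 < c₁ ∧ ∃ m₀ : ℕ, 1 ≤ m₀ ∧ ∀ m, m₀ ≤ m → ∀ γ : DegLex (Fin n →₀ ℕ),
      ((ofDegLex γ).degree : ℝ) ≤ c₁ * m → ∃ s ∈ 𝒜 m, OkLead c x s γ := by
  classical
  obtain ⟨c₀, hc₀, m₀, hsep⟩ := chart_sepP h c
  refine ⟨c₀ / 2, half_pos hc₀, max m₀ (⌈2 / c₀⌉₊ + 1), by omega, ?_⟩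
  intro m hm γ hγ
  have hm1 : m₀ ≤ m := le_trans (le_max_left _ _) hm
  have hm2 : 2 / c₀ ≤ m := by
    have h1 : ⌈2 / c₀⌉₊ ≤ m := by
      have := le_trans (le_max_right _ _) hm
      omega
    exact (Nat.le_ceil _).trans (by exact_mod_cast h1)
  have hm3 : 1 ≤ c₀ / 2 * m := by
    rw [div_le_iff₀ hc₀] at hm2
    nlinarith
  have hq : (((ofDegLex γ).degree + 1 : ℕ) : ℝ) ≤ c₀ * m := by
    push_cast
    linarith
  have hli := hsep m hm1 ℂ x _ hq
  have : Finite {α : Fin n →₀ ℕ // α.degree < (ofDegLex γ).degree + 1} :=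
    hli.finite_of_isNoetherian
  obtain ⟨w, hw⟩ := okGeom_prescribe _ hli ⟨ofDegLex γ, Nat.lt_succ_self _⟩
  have hsb := (secBasis_specP h m).1
  let s : R := ∑ i, w i • secBasis 𝒜 m i
  have hs : s ∈ 𝒜 m := Submodule.sum_mem _ fun i _ => Submodule.smul_mem _ _ (hsb i)
  have hval : ∀ α : Fin n →₀ ℕ, x (c.dd α (c.ρ s)) =
      ∑ i, w i * x (c.dd α (c.ρ (secBasis 𝒜 m i))) := by
    intro α
    simp only [s, map_sum, map_smul, smul_eq_mul]
  refine ⟨s, hs, ?_, ?_⟩
  · have h1 := hw ⟨ofDegLex γ, Nat.lt_succ_self _⟩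
    rw [if_pos rfl] at h1
    unfold Chart.tay
    rw [hval, h1, mul_one]
    exact (map_ne_zero_iff _ (algebraMap ℂ ℂ).injective).2 (inv_ne_zero (facG_ne_zero _))
  · intro α hα
    have hdeg : (ofDegLex α).degree < (ofDegLex γ).degree + 1 :=
      Nat.lt_succ_of_le (Finsupp.DegLex.monotone_degree hα.le)
    have h1 := hw ⟨ofDegLex α, hdeg⟩
    rw [if_neg] at h1
    · unfold Chart.tay
      rw [hval, h1, mul_zero]
    · intro hcon
      have : ofDegLex α = ofDegLex γ := congrArg Subtype.val hcon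
      exact absurd hα (by rw [show α = γ from this]; exact lt_irrefl _)

theorem okGeom_bddP (h : IsPol 𝒜 n) (hn : 1 ≤ n) (c : Chart 𝒜 n)
    (x : c.B →ₐ[ℂ] ℂ) :
    ∃ C : ℕ, ∀ m, ∀ s ∈ 𝒜 m, ∀ γ, OkLead c x s γ → (ofDegLex γ).degree ≤ C * m := by
  obtain ⟨C, hC⟩ := chart_ord_le_CP h hn c
  refine ⟨C, fun m s hs γ hγ => ?_⟩
  rcases Nat.eq_zero_or_pos m with rfl | hm
  · rw [h.connected] at hs
    obtain ⟨z, rfl⟩ := Algebra.mem_bot.1 ((Subalgebra.mem_toSubmodule _).1 hs)
    have hz : z ≠ 0 := by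
      rintro rfl
      apply hγ.1
      rw [map_zero, map_zero]
      simp [Chart.tay]
    by_contra hcon
    have h0 : (toDegLex (0 : Fin n →₀ ℕ)) < γ := by
      rw [Finsupp.DegLex.lt_iff]
      left
      simp only [ofDegLex_toDegLex, map_zero]
      omega
    have h1 := hγ.2 _ h0
    rw [AlgHom.commutes, Chart.tay, ofDegLex_toDegLex, c.dd_zero, AlgHom.commutes] at h1
    simp at h1
    exact hz h1
  · have hs0 : s ≠ 0 := by
      rintro rfl
      apply hγ.1
      rw [map_zero]
      simp [Chart.tay]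
    obtain ⟨α, hα, hα'⟩ := hC m hm x s hs hs0
    refine le_trans ?_ hα
    have hle : γ ≤ toDegLex α := by
      by_contra hcon
      push Not at hcon
      have h1 := hγ.2 _ hcon
      rw [Chart.tay, mul_eq_zero, map_eq_zero_iff _ (algebraMap ℂ ℂ).injective] at h1
      rcases h1 with h1 | h1
      · exact inv_ne_zero (facG_ne_zero _) h1
      · exact hα' h1
    exact Finsupp.DegLex.monotone_degree hle

/-- The set of leading exponents and the weights, from B08. -/
theorem okGeom_leadingP (h : IsPol 𝒜 n) (c : Chart 𝒜 n) (x : c.B →ₐ[ℂ] ℂ) (m : ℕ)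
    (f : 𝒜 m → ℕ∞) (U : ℕ → Submodule ℂ (𝒜 m)) (hU : ∀ k v, v ∈ U k ↔ (k : ℕ∞) ≤ f v)
    (hf : ∀ v, v ≠ 0 → f v ≠ ⊤) :
    ∃ (Γ : Finset (DegLex (Fin n →₀ ℕ))) (g : DegLex (Fin n →₀ ℕ) → ℕ),
      Γ.card = secDim 𝒜 m ∧
      (∀ γ, γ ∈ Γ ↔ ∃ s ∈ 𝒜 m, OkLead c x s γ) ∧
      (∀ γ ∈ Γ, ∃ s : 𝒜 m, OkLead c x s γ ∧ f s = g γ) ∧
      (∀ γ, ∀ s : 𝒜 m, OkLead c x s γ → f s ≤ g γ) ∧
      (∀ k : ℕ, (Γ.filter fun γ => k ≤ g γ).card = Module.finrank ℂ (U k)) ∧
      ∀ b : Fin (secDim 𝒜 m) → 𝒜 m, LinearIndependent ℂ b →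
        ∑ i, (f (b i)).toNat ≤ ∑ γ ∈ Γ, g γ := by
  have := finite_gradedP h m
  obtain ⟨Γ, g, h1, h2, h3, h4, h5, h6⟩ := exists_leading (V := 𝒜 m) (okFun c x m)
    (okFun_inj c x m) f U hU hf
  refine ⟨Γ, g, h1, ?_, ?_, ?_, h5, h6⟩
  · intro γ
    rw [h2]
    constructor
    · rintro ⟨v, hv, hv'⟩
      exact ⟨v, v.2, hv, hv'⟩
    · rintro ⟨s, hs, hv, hv'⟩
      exact ⟨⟨s, hs⟩, hv, hv'⟩
  · intro γ hγ
    obtain ⟨v, hv, hv', hv''⟩ := h3 γ hγ
    exact ⟨v, ⟨hv, hv'⟩, hv''⟩
  · intro γ s hs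
    exact h4 γ s hs.1 hs.2

/-- B07: the leading exponents (for the order: total degree, then lexicographic) of the sections
at a `ℂ`-point form data as in `OkData`, the same for all divisors; every divisor over `X` gives a
superadditive weight computing its filtration. -/
theorem exists_okDataP (h : IsPol 𝒜 n) (hn : 1 ≤ n) :
    ∃ D : OkData n, (∀ m, 1 ≤ m → (D.Γ m).card = secDim 𝒜 m) ∧
      ∀ E : DivisorOver 𝒜 n 1, ∃ g : ℕ → (Fin n → ℕ) → ℕ, D.IsWeight g ∧
        (∀ m, 1 ≤ m → ∀ r : ℝ, D.cnt g m r = Module.finrank ℂ (E.filt 𝒜 m r)) ∧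
        ∀ m, 1 ≤ m → ∀ b : Fin (secDim 𝒜 m) → R, (∀ i, b i ∈ 𝒜 m) → LinearIndependent ℂ b →
          ∑ i, (E.ord (E.φ 0 (b i))).toNat ≤ ∑ γ ∈ D.Γ m, g m γ := by
  classical
  -- a chart and a point
  have := h.domain
  obtain ⟨d, hd, f, hf, hf0⟩ := okGeom_exists_posP h
  obtain ⟨c⟩ := exists_chartP h ⟨d, hd, f, hf, hf0⟩
  obtain ⟨x⟩ := c.exists_C_point
  -- the sets of leading exponents
  have hΓ : ∀ m, ∃ Γ : Finset (DegLex (Fin n →₀ ℕ)), Γ.card = secDim 𝒜 m ∧
      ∀ γ, γ ∈ Γ ↔ ∃ s ∈ 𝒜 m, OkLead c x s γ := by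
    intro m
    obtain ⟨Γ, g, h1, h2, -⟩ := okGeom_leadingP h c x m (fun v => if v = 0 then ⊤ else 0)
      (fun k => if k = 0 then ⊤ else ⊥) (by
        intro k v
        by_cases hk : k = 0
        · simp [hk]
        · by_cases hv : v = 0
          · simp [hk, hv]
          · simp [hk, hv]) (by intro v hv; simp [hv])
    exact ⟨Γ, h1, h2⟩
  choose Γ hΓcard hΓmem using hΓ
  obtain ⟨C, hC⟩ := okGeom_bddP h hn c x
  obtain ⟨c₁, hc₁, m₀, hm₀, hsimp⟩ := okGeom_simplexP h c x
  have hmem : ∀ m γ, okEmb γ ∈ (Γ m).map okEmb.toEmbedding ↔ γ ∈ Γ m := by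
    intro m γ
    rw [Finset.mem_map_equiv, Equiv.symm_apply_apply]
  have hadd : ∀ m m' γ γ', γ ∈ (Γ m).map okEmb.toEmbedding →
      γ' ∈ (Γ m').map okEmb.toEmbedding → γ + γ' ∈ (Γ (m + m')).map okEmb.toEmbedding := by
    intro m m' γ γ' hγ hγ'
    obtain ⟨γ, rfl⟩ := okEmb.surjective γ
    obtain ⟨γ', rfl⟩ := okEmb.surjective γ'
    rw [← okEmb_add]
    rw [hmem, hΓmem] at hγ hγ' ⊢
    obtain ⟨s, hs, hl⟩ := hγ
    obtain ⟨s', hs', hl'⟩ := hγ'
    exact ⟨s * s', SetLike.mul_mem_graded hs hs', okLead_mul c x hl hl'⟩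
  have hbdd : ∀ m, ∀ γ ∈ (Γ m).map okEmb.toEmbedding, ∑ i, γ i ≤ C * m := by
    intro m γ hγ
    obtain ⟨γ, rfl⟩ := okEmb.surjective γ
    rw [hmem, hΓmem] at hγ
    obtain ⟨s, hs, hl⟩ := hγ
    rw [okEmb_sum]
    exact hC m s hs γ hl
  have hsim : ∀ m, m₀ ≤ m → ∀ γ : Fin n → ℕ, ((∑ i, γ i : ℕ) : ℝ) ≤ c₁ * m →
      γ ∈ (Γ m).map okEmb.toEmbedding := by
    intro m hm γ hγ
    obtain ⟨γ, rfl⟩ := okEmb.surjective γ
    rw [hmem, hΓmem]
    rw [okEmb_sum] at hγ
    exact hsimp m hm γ hγ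
  let D : OkData n := ⟨fun m => (Γ m).map okEmb.toEmbedding, hadd, C, hbdd, c₁, hc₁, m₀, hm₀,
    hsim⟩
  refine ⟨D, fun m _ => by rw [Finset.card_map, hΓcard], fun E => ?_⟩
  -- the weights
  have hord : ∀ (k : ℕ) (s : R), ENNReal.ofReal k ≤ (E.ord (E.φ 0 s) : ℝ≥0∞) ↔
      (k : ℕ∞) ≤ E.ord (E.φ 0 s) := by
    intro k s
    rw [ENNReal.ofReal_natCast]
    rw [← ENat.toENNReal_coe, ENat.toENNReal_le]
  have hg : ∀ m, ∃ g : DegLex (Fin n →₀ ℕ) → ℕ,
      (∀ γ ∈ Γ m, ∃ s : 𝒜 m, OkLead c x s γ ∧ E.ord (E.φ 0 s) = g γ) ∧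
      (∀ γ, ∀ s : 𝒜 m, OkLead c x s γ → E.ord (E.φ 0 s) ≤ g γ) ∧
      (∀ k : ℕ, ((Γ m).filter fun γ => k ≤ g γ).card =
        Module.finrank ℂ ((E.filt 𝒜 m k).comap (𝒜 m).subtype)) ∧
      ∀ b : Fin (secDim 𝒜 m) → 𝒜 m, LinearIndependent ℂ b →
        ∑ i, (E.ord (E.φ 0 (b i))).toNat ≤ ∑ γ ∈ Γ m, g γ := by
    intro m
    obtain ⟨Γ', g, h1, h2, h3⟩ := okGeom_leadingP h c x m (fun v => E.ord (E.φ 0 v))
      (fun k => (E.filt 𝒜 m k).comap (𝒜 m).subtype) (by
        intro k v
        rw [Submodule.mem_comap]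
        constructor
        · intro hv
          exact (hord k v).1 hv.2
        · intro hv
          exact ⟨v.2, (hord k v).2 hv⟩) (by
        intro v hv
        exact ord_ne_topP h hn E m v v.2 (by simpa using hv))
    have : Γ' = Γ m := by
      ext γ
      rw [h2, hΓmem]
    subst this
    exact ⟨g, h3⟩
  choose g hg1 hg2 hg3 hg4 using hg
  refine ⟨fun m γ => g m (okEmb.symm γ), ?_, ?_, ?_⟩
  · intro m m' γ γ' hγ hγ'
    obtain ⟨γ, rfl⟩ := okEmb.surjective γ
    obtain ⟨γ', rfl⟩ := okEmb.surjective γ'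
    rw [← okEmb_add]
    change g m (okEmb.symm (okEmb γ)) + g m' (okEmb.symm (okEmb γ')) ≤
      g (m + m') (okEmb.symm (okEmb (γ + γ')))
    rw [Equiv.symm_apply_apply, Equiv.symm_apply_apply, Equiv.symm_apply_apply]
    have hγ1 : γ ∈ Γ m := by
      have := hγ
      simpa only [D, Finset.mem_map_equiv, Equiv.symm_apply_apply] using this
    have hγ2 : γ' ∈ Γ m' := by
      have := hγ'
      simpa only [D, Finset.mem_map_equiv, Equiv.symm_apply_apply] using this
    obtain ⟨s, hs, hs'⟩ := hg1 m γ hγ1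
    obtain ⟨t, ht, ht'⟩ := hg1 m' γ' hγ2
    have h1 := hg2 (m + m') (γ + γ') ⟨s * t, SetLike.mul_mem_graded s.2 t.2⟩
      (okLead_mul c x hs ht)
    rw [DivisorOver.ord_mul_section, hs', ht'] at h1
    exact_mod_cast h1
  · intro m _ r
    have h1 : D.cnt (fun m γ => g m (okEmb.symm γ)) m r =
        ((Γ m).filter fun γ => ⌈r⌉₊ ≤ g m γ).card := by
      unfold OkData.cnt
      rw [← Finset.card_map okEmb.toEmbedding]
      congr 1
      ext γ
      obtain ⟨γ, rfl⟩ := okEmb.surjective γ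
      rw [Finset.mem_map_equiv, Finset.mem_filter, Finset.mem_filter, Equiv.symm_apply_apply,
        Finset.mem_map_equiv, Equiv.symm_apply_apply, Nat.ceil_le]
      change (γ ∈ Γ m ∧ r ≤ ((g m (okEmb.symm (okEmb γ)) : ℕ) : ℝ)) ↔ _
      rw [Equiv.symm_apply_apply]
    rw [h1, hg3]
    have h2 : E.filt 𝒜 m (⌈r⌉₊ : ℝ) = E.filt 𝒜 m r := by
      ext s
      change (s ∈ 𝒜 m ∧ _) ↔ (s ∈ 𝒜 m ∧ _)
      refine and_congr_right fun _ => ?_
      rw [hord]
      generalize E.ord (E.φ 0 s) = o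
      induction o using ENat.recTopCoe with
      | top => simp
      | coe o =>
        rw [Nat.cast_le, Nat.ceil_le, ENat.toENNReal_coe, ENNReal.ofReal_le_natCast]
    rw [h2]
    have hle : E.filt 𝒜 m r ≤ 𝒜 m := fun s hs => hs.1
    exact LinearEquiv.finrank_eq (Submodule.comapSubtypeEquivOfLe hle)
  · intro m _ b hb hbi
    have h1 := hg4 m (fun i => ⟨b i, hb i⟩) (by
      refine LinearIndependent.of_comp (𝒜 m).subtype ?_
      exact hbi)
    refine h1.trans (le_of_eq ?_)
    change _ = ∑ γ ∈ (Γ m).map okEmb.toEmbedding, g m (okEmb.symm γ)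
    rw [Finset.sum_map]
    refine Finset.sum_congr rfl fun γ _ => ?_
    rw [Equiv.coe_toEmbedding, Equiv.symm_apply_apply]

end Pool.Agent.Lib_KF

end

/-! ### from `Lib_KF.ChEtale` -/

section

/-! CH03: a divisorial valuation ring is étale over the polynomial ring in `s, u`. -/

namespace Pool.Agent.Lib_KF

private theorem ChEtale_unram {k R V ι : Type} [CommRing k] [CommRing R] [CommRing V]
    [Algebra k R] [Algebra k V] [Algebra R V] [IsScalarTower k R V]
    (b : Module.Basis ι V (KaehlerDifferential k V))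
    (h : ∀ i, ∃ r : R, b i = KaehlerDifferential.D k V (algebraMap R V r)) :
    Algebra.FormallyUnramified R V := by
  have hsur := KaehlerDifferential.map_surjective k R V
  have hzero : KaehlerDifferential.map k R V V = 0 := by
    apply b.ext
    intro i
    obtain ⟨r, hr⟩ := h i
    rw [hr, KaehlerDifferential.map_D, LinearMap.zero_apply]
    exact Derivation.map_algebraMap _ r
  refine ⟨⟨fun x y => ?_⟩⟩
  obtain ⟨x', rfl⟩ := hsur x
  obtain ⟨y', rfl⟩ := hsur y
  rw [hzero, LinearMap.zero_apply, LinearMap.zero_apply]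

private theorem ChEtale_main {R V : Type} [CommRing R] [IsDomain R] [IsIntegrallyClosed R]
    [CommRing V] [IsDomain V] [IsLocalRing V] [Algebra R V] [Module.IsTorsionFree R V]
    [Algebra.EssFiniteType R V] [Algebra.FormallyUnramified R V] :
    ∃ (w : V) (F : Polynomial R), F.Monic ∧ Polynomial.aeval w F = 0 ∧
      IsUnit (Polynomial.aeval w (Polynomial.derivative F)) ∧
      (∀ H : Polynomial R, Polynomial.aeval w H = 0 → F ∣ H) ∧
      ∀ v : V, ∃ q₁ q₂ : Polynomial R, IsUnit (Polynomial.aeval w q₂) ∧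
        v * Polynomial.aeval w q₂ = Polynomial.aeval w q₁ := by
  let S := Algebra.EssFiniteType.subalgebra R V
  let Q : Ideal S := (IsLocalRing.maximalIdeal V).comap (algebraMap S V)
  have hQ : Q.IsPrime := Ideal.IsPrime.comap _
  have hM : Algebra.EssFiniteType.submonoid R V = Q.primeCompl := by
    ext x
    show IsUnit (algebraMap S V x) ↔ ¬ (algebraMap S V x ∈ IsLocalRing.maximalIdeal V)
    rw [IsLocalRing.mem_maximalIdeal, mem_nonunits_iff, not_not]
  have hloc : IsLocalization Q.primeCompl V := by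
    rw [← hM]
    exact Algebra.EssFiniteType.isLocalization R V
  have hun : Algebra.IsUnramifiedAt R Q :=
    Algebra.FormallyUnramified.of_equiv
      ((IsLocalization.algEquiv Q.primeCompl V (Localization.AtPrime Q)).restrictScalars R)
  obtain ⟨f, hf, P, φ, hφ⟩ := Algebra.IsUnramifiedAt.exists_hasStandardEtaleSurjectionOn (R := R) Q
  have hunit : ∀ x : S, x ∉ Q → IsUnit (algebraMap S V x) := fun x hx =>
    IsLocalization.map_units V (⟨x, hx⟩ : Q.primeCompl)
  let ψ : Localization.Away f →ₐ[R] V :=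
    IsLocalization.Away.liftAlgHom f (f := IsScalarTower.toAlgHom R S V) (hunit f hf)
  have hψ : ∀ x : S, ψ (algebraMap S (Localization.Away f) x) = algebraMap S V x := by
    intro x
    exact IsLocalization.lift_eq _ x
  let w : V := ψ (φ P.X)
  have hw : P.HasMap w := (StandardEtalePair.hasMap_X.map φ).map ψ
  have hint : IsIntegral R w := ⟨P.f, P.monic_f, hw.1⟩
  have hex : ∀ x : S, ∃ (p : Polynomial R) (m : ℕ),
      algebraMap S V x * Polynomial.aeval w P.g ^ m = Polynomial.aeval w p := by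
    intro x
    obtain ⟨y, hy⟩ := hφ (algebraMap S (Localization.Away f) x)
    obtain ⟨p, m, hp⟩ := StandardEtalePresentation.exists_mul_aeval_x_g_pow_eq_aeval_x
      (⟨P, P.X, P.hasMap_X, by
        simpa [StandardEtalePair.lift_X_left] using Function.bijective_id⟩ :
        StandardEtalePresentation R P.Ring) y
    refine ⟨p, m, ?_⟩
    have h1 := congrArg (fun z => ψ (φ z)) hp
    simp only [map_mul, map_pow, hy, hψ] at h1
    have e : ∀ r : Polynomial R, ψ (φ (Polynomial.aeval P.X r)) = Polynomial.aeval w r := by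
      intro r
      rw [← Polynomial.aeval_algHom_apply, ← Polynomial.aeval_algHom_apply]
    rw [e, e] at h1
    exact h1
  refine ⟨w, minpoly R w, minpoly.monic hint, minpoly.aeval R w, ?_, ?_, ?_⟩
  · obtain ⟨q, hq⟩ := minpoly.isIntegrallyClosed_dvd hint hw.1
    have h1 := hw.isUnit_derivative_f
    rw [hq, Polynomial.derivative_mul, map_add, map_mul, map_mul, minpoly.aeval, zero_mul,
      add_zero] at h1
    exact isUnit_of_mul_isUnit_left h1
  · exact fun H hH => minpoly.isIntegrallyClosed_dvd hint hH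
  · intro v
    obtain ⟨⟨a, b⟩, hab⟩ := IsLocalization.surj Q.primeCompl v
    obtain ⟨p, m, hp⟩ := hex a
    obtain ⟨p', m', hp'⟩ := hex b.1
    refine ⟨p * P.g ^ m', p' * P.g ^ m, ?_, ?_⟩
    · rw [map_mul, map_pow, ← hp']
      exact ((hunit b.1 b.2).mul (hw.2.pow _)).mul (hw.2.pow _)
    · rw [map_mul, map_mul, map_pow, map_pow, ← hp, ← hp', ← hab]
      ring

/-- CH03. With `P₀ = k[s, u] = MvPolynomial (Option (Fin n)) k` and the algebra structure
`ev0 s u` on `V` (injective by `hind`):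
(1) `Ω_{V/P₀} = 0`, since it is a quotient of `Ω_{V/k}` (`KaehlerDifferential.map k P₀ V V` is
surjective) which is generated by `ds, du_l` (`b`), whose images vanish. So `V` is formally
unramified over `P₀`.
(2) `V` is essentially of finite type over `P₀` (`Algebra.EssFiniteType.of_comp k P₀ V`); let `S`
be a finitely generated `P₀`-subalgebra of which `V` is a localisation
(`Algebra.EssFiniteType.subalgebra`), `Q` the preimage of the maximal ideal of `V`; `V` is the
localisation of `S` at `Q` as `V` is local, so `Algebra.IsUnramifiedAt P₀ Q`.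
(3) `Algebra.IsUnramifiedAt.exists_hasStandardEtaleSurjectionOn` (Mathlib): `f ∉ Q`, a
`StandardEtalePair P` over `P₀` and a surjection `φ : P.Ring → S[1/f]`; `S[1/f] → V` exists as `f`
is a unit of `V`. Let `w` be the image of `P.X` in `V`: `P.f(w) = 0`, `P.g(w)` and `P.f'(w)` are
units (`StandardEtalePair.HasMap.isUnit_derivative_f`).
(4) `F := minpoly P₀ w`: monic, `P₀` is integrally closed, so `F` divides every polynomial which
vanishes at `w` (`minpoly.isIntegrallyClosed_dvd`), in particular `P.f = F q` and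
`P.f'(w) = F'(w) q(w)`, so `F'(w)` is a unit.
(5) `v ∈ V` is `a / b`, `a, b ∈ S`, `b ∉ Q`; `a g(w) ^ m = p(w)` and the same for `b`
(`StandardEtalePresentation.exists_mul_aeval_x_g_pow_eq_aeval_x`, or surjectivity of `φ`). -/
theorem exists_etaleCoord (k V : Type) [Field k] [CharZero k] [CommRing V] [IsDomain V]
    [IsDiscreteValuationRing V] [Algebra k V] [Algebra.EssFiniteType k V] (n : ℕ) (s : V)
    (u : Fin n → V) (b : Module.Basis (Option (Fin n)) V (KaehlerDifferential k V))
    (hb : b none = KaehlerDifferential.D k V s)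
    (hb' : ∀ l, b (some l) = KaehlerDifferential.D k V (u l))
    (hind : AlgebraicIndependent k (fun o : Option (Fin n) => o.elim s u)) :
    ∃ (w : V) (F : Polynomial (MvPolynomial (Option (Fin n)) k)), EtaleCoord k V s u w F := by
  letI : Algebra (MvPolynomial (Option (Fin n)) k) V := (ev0 (k := k) s u).toRingHom.toAlgebra
  haveI : IsScalarTower k (MvPolynomial (Option (Fin n)) k) V :=
    IsScalarTower.of_algebraMap_eq fun c => ((ev0 (k := k) s u).commutes c).symm
  have hinj : Function.Injective (algebraMap (MvPolynomial (Option (Fin n)) k) V) := hind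
  haveI : Module.IsTorsionFree (MvPolynomial (Option (Fin n)) k) V :=
    Module.isTorsionFree_iff_algebraMap_injective.2 hinj
  haveI : Algebra.EssFiniteType (MvPolynomial (Option (Fin n)) k) V :=
    Algebra.EssFiniteType.of_comp k (MvPolynomial (Option (Fin n)) k) V
  haveI : Algebra.FormallyUnramified (MvPolynomial (Option (Fin n)) k) V := by
    refine ChEtale_unram b fun o => ⟨MvPolynomial.X o, ?_⟩
    have h1 : algebraMap (MvPolynomial (Option (Fin n)) k) V (MvPolynomial.X o) = o.elim s u :=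
      MvPolynomial.aeval_X _ o
    rw [h1]
    cases o with
    | none => exact hb
    | some l => exact hb' l
  obtain ⟨w, F, h1, h2, h3, h4, h5⟩ :=
    ChEtale_main (R := MvPolynomial (Option (Fin n)) k) (V := V)
  exact ⟨w, F, ⟨h1, h2, h3, h4, h5⟩⟩

end Pool.Agent.Lib_KF

end

/-! ### from `Lib_KF.ChSetup` -/

section

/-! CH11: the valuation ring of an arc with its coordinates. -/

open PowerSeries

namespace Pool.Agent.Lib_KF

open Pool.Agent.Lib_GD

variable {k L : Type} [Field k] [CharZero k] [Field L] [Algebra k L] [Algebra ℂ L]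

/-- CH11a. Let `A ⊇ polyRing k y` be a finitely generated subalgebra of `L⟦X⟧`, algebraic over
`polyRing k y`. The discrete valuation ring `V = fracRing A` has coordinates `X, u_l`, with `u_l`
fractions of polynomials in `X, y`. Combine CH08c, CH07, CH01, CH02, CH03. -/
theorem exists_arcV {n : ℕ} (y : Fin n → L⟦X⟧)
    (Δ : Set (Derivation ℂ L L)) (hΔ : ∀ δ ∈ Δ, ∀ t : k, δ (algebraMap k L t) = 0)
    (Ξ : Submodule L⟦X⟧ (Fin n → L⟦X⟧)) (hΞ : FinColen Ξ)
    (hΞΔ : ∀ v ∈ Ξ, ∃ δ ∈ Δ, ∀ l, hat δ (y l) = v l) (A : Subalgebra k L⟦X⟧)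
    (hX : (X : L⟦X⟧) ∈ A)
    (hA : polyRing k y ≤ A) (hfg : A.FG) (halg : ∀ a ∈ A, IsAlgebraic (polyRing k y) a) :
    IsDiscreteValuationRing (fracRing A) ∧
      Irreducible (⟨X, le_fracRing A hX⟩ : fracRing A) ∧
      ∃ (u : Fin n → fracRing A) (D : Fin n → Derivation k (fracRing A) (fracRing A))
        (w : fracRing A) (F : Polynomial (MvPolynomial (Option (Fin n)) k)),
        (∀ l, (u l).1 ∈ fracRing (polyRing k y)) ∧
        DualDer k (fracRing A) ⟨X, le_fracRing A hX⟩ u D ∧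
        EtaleCoord k (fracRing A) ⟨X, le_fracRing A hX⟩ u w F := by
  obtain ⟨u₀, hu₀, hind₀⟩ := exists_residue_indep y Δ hΔ Ξ hΞ hΞΔ
  obtain ⟨hdvr, hirr⟩ := fracRing_isDVR A hX
  obtain ⟨htr, hess⟩ := trdeg_fracRing y A hA hfg halg u₀ hu₀ hind₀
  let u : Fin n → fracRing A := fun l => ⟨u₀ l, fracRing_mono hA (hu₀ l)⟩
  have hres := residue_indep A u hind₀
  have hessV : Algebra.EssFiniteType k (fracRing A) :=
    essFiniteType_of_residue_field k (fracRing A) n htr hess u hres
  obtain ⟨b, hb, hb'⟩ := exists_basis_kaehler k (fracRing A) n htr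
    ⟨X, le_fracRing A hX⟩ hirr u hres
  obtain ⟨D, hD⟩ := exists_dualDer k (fracRing A) n ⟨X, le_fracRing A hX⟩ u b hb hb'
  have hind := algebraicIndependent_option k (fracRing A) n ⟨X, le_fracRing A hX⟩ hirr u hres
  obtain ⟨w, F, hF⟩ := exists_etaleCoord k (fracRing A) n ⟨X, le_fracRing A hX⟩ u b hb hb' hind
  exact ⟨hdvr, hirr, u, D, w, F, hu₀, hD, hF⟩

private theorem ChSetup_hat_smul {k L : Type} [Field k] [Field L] [Algebra k L] [Algebra ℂ L]
    (δ : Derivation ℂ L L) (hδ : ∀ t : k, δ (algebraMap k L t) = 0) (c : k) (f : L⟦X⟧) :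
    hat δ (c • f) = c • hat δ f := by
  ext m
  rw [coeff_hat, PowerSeries.coeff_smul, PowerSeries.coeff_smul, coeff_hat, Algebra.smul_def,
    Derivation.leibniz, hδ, smul_zero, add_zero, smul_eq_mul, Algebra.smul_def]

private theorem ChSetup_hat_X {L : Type} [Field L] [Algebra ℂ L] (δ : Derivation ℂ L L) :
    hat δ (X : L⟦X⟧) = 0 := by
  have h := hat_X_pow_mul δ 1 (1 : L⟦X⟧)
  have h1 : hat δ (1 : L⟦X⟧) = 0 := by
    have h2 := hat_mul δ (1 : L⟦X⟧) 1
    rw [mul_one, one_mul, mul_one, left_eq_add] at h2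
    exact h2
  rwa [h1, mul_zero, mul_one, pow_one] at h

/-- the derivation `f ↦ hat δ f` of a subalgebra of `L⟦X⟧` -/
private noncomputable def ChSetup_der {k L : Type} [Field k] [Field L] [Algebra k L]
    [Algebra ℂ L] (V : Subalgebra k L⟦X⟧) (δ : Derivation ℂ L L)
    (hδ : ∀ t : k, δ (algebraMap k L t) = 0) : Derivation k V L⟦X⟧ :=
  Derivation.mk'
    { toFun := fun f => hat δ f.1
      map_add' := fun f g => hat_add δ f.1 g.1
      map_smul' := fun c f => ChSetup_hat_smul δ hδ c f.1 }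
    (fun f g => by
      change hat δ (f.1 * g.1) = f.1 * hat δ g.1 + g.1 * hat δ f.1
      rw [hat_mul, mul_comm (hat δ f.1)])

/-- CH11b. The Jacobian `det (D l (y b))` has order at most `colen Ξ`: for `δ ∈ Δ` the map
`f ↦ hat δ f` is a `k`-derivation `fracRing A → L⟦X⟧` which kills `X`, so by `DualDer.chain`
`hat δ (y b) = ∑ D l (y b) hat δ (u l)`, and CH09 applies. (`L⟦X⟧` is a module over the subalgebra
`fracRing A`.) -/
theorem order_jac_le {n : ℕ} (y : Fin n → L⟦X⟧)
    (Δ : Set (Derivation ℂ L L)) (hΔ : ∀ δ ∈ Δ, ∀ t : k, δ (algebraMap k L t) = 0)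
    (Ξ : Submodule L⟦X⟧ (Fin n → L⟦X⟧)) (hΞ : FinColen Ξ)
    (hΞΔ : ∀ v ∈ Ξ, ∃ δ ∈ Δ, ∀ l, hat δ (y l) = v l) (A : Subalgebra k L⟦X⟧)
    (hX : (X : L⟦X⟧) ∈ A) (hy : ∀ l, y l ∈ fracRing A) (u : Fin n → fracRing A)
    (D : Fin n → Derivation k (fracRing A) (fracRing A))
    (hD : DualDer k (fracRing A) ⟨X, le_fracRing A hX⟩ u D) :
    (Matrix.det (Matrix.of fun b l => D l ⟨y b, hy b⟩)).1 ≠ 0 ∧
      (Matrix.det (Matrix.of fun b l => D l ⟨y b, hy b⟩)).1.order ≤ (colen Ξ : ℕ) := by
  let Z : Matrix (Fin n) (Fin n) L⟦X⟧ := Matrix.of fun b l => (D l ⟨y b, hy b⟩).1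
  have hdet : (Matrix.det (Matrix.of fun b l => D l ⟨y b, hy b⟩)).1 = Z.det := by
    have h := (fracRing A).val.toRingHom.map_det (Matrix.of fun b l => D l ⟨y b, hy b⟩)
    refine h.trans ?_
    congr 1
  rw [hdet]
  refine order_det_le_colen Ξ hΞ Z fun v hv => ?_
  obtain ⟨δ, hδ, hv'⟩ := hΞΔ v hv
  refine ⟨fun l => hat δ (u l).1, ?_⟩
  funext b
  have h := hD.chain L⟦X⟧ (ChSetup_der (fracRing A) δ (hΔ δ hδ)) (ChSetup_hat_X δ) ⟨y b, hy b⟩
  rw [← hv' b]
  refine Eq.trans ?_ (h.trans ?_)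
  · rfl
  · rfl

end Pool.Agent.Lib_KF

end

/-! ### from `Lib_KF.ChCoordEq` -/

section

/-! CH12b: the value of a function of the coordinates. -/

open PowerSeries

namespace Pool.Agent.Lib_KF

open Pool.Agent.Lib_GD

/-- CH12b. Values at points with the same coordinates: if `f ∈ polyRing k y` there is a finite set
of constants such that for every analytic family containing them and the `y_l`, the value
`ev z p f` depends only on `z` and the `ev z p (y_l)`. `Algebra.adjoin_induction`. -/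
theorem ev_eq_of_coords {k L : Type} [Field k] [Field L] [Algebra k L] [Algebra ℂ L]
    [Algebra ℂ k] [IsScalarTower ℂ k L]
    {n : ℕ} (y : Fin n → L⟦X⟧) (f : L⟦X⟧) (hf : f ∈ polyRing k y) :
    ∃ Zf : Finset k, ∀ (A : Subalgebra k L⟦X⟧) (hX : (X : L⟦X⟧) ∈ A)
      (hy : ∀ l, y l ∈ fracRing A) (hfA : f ∈ fracRing A) (u : Fin n → fracRing A)
      (D : Fin n → Derivation k (fracRing A) (fracRing A)) (Z : Set (fracRing A)) (Zc : Set k)
      (E : EvFam k (fracRing A) (⟨X, le_fracRing A hX⟩ : fracRing A) u D Z Zc)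
      (hy𝒲 : ∀ l, (⟨y l, hy l⟩ : fracRing A) ∈ E.𝒲), (Zf : Set k) ⊆ Zc →
      ∃ hf𝒲 : (⟨f, hfA⟩ : fracRing A) ∈ E.𝒲, ∀ z p p', ‖z‖ < E.ρ → ‖p‖ < E.ρ → ‖p'‖ < E.ρ →
        (∀ l, E.ev z p ⟨_, hy𝒲 l⟩ = E.ev z p' ⟨_, hy𝒲 l⟩) →
        E.ev z p ⟨_, hf𝒲⟩ = E.ev z p' ⟨_, hf𝒲⟩ := by
  classical
  suffices H : ∃ Zf : Finset k, ∀ (A : Subalgebra k L⟦X⟧) (hX : (X : L⟦X⟧) ∈ A)
      (hy : ∀ l, y l ∈ fracRing A) (u : Fin n → fracRing A)
      (D : Fin n → Derivation k (fracRing A) (fracRing A)) (Z : Set (fracRing A)) (Zc : Set k)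
      (E : EvFam k (fracRing A) (⟨X, le_fracRing A hX⟩ : fracRing A) u D Z Zc)
      (hy𝒲 : ∀ l, (⟨y l, hy l⟩ : fracRing A) ∈ E.𝒲), (Zf : Set k) ⊆ Zc →
      ∃ hfA : f ∈ fracRing A,
      ∃ hf𝒲 : (⟨f, hfA⟩ : fracRing A) ∈ E.𝒲, ∀ z p p', ‖z‖ < E.ρ → ‖p‖ < E.ρ → ‖p'‖ < E.ρ →
        (∀ l, E.ev z p ⟨_, hy𝒲 l⟩ = E.ev z p' ⟨_, hy𝒲 l⟩) →
        E.ev z p ⟨_, hf𝒲⟩ = E.ev z p' ⟨_, hf𝒲⟩ by
    obtain ⟨Zf, h⟩ := H
    refine ⟨Zf, fun A hX hy hfA u D Z Zc E hy𝒲 hZf => ?_⟩
    obtain ⟨hfA', h1⟩ := h A hX hy u D Z Zc E hy𝒲 hZf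
    exact h1
  unfold polyRing at hf
  induction hf using Algebra.adjoin_induction with
  | mem x hx =>
    rcases hx with rfl | ⟨l, rfl⟩
    · refine ⟨∅, fun A hX hy u D Z Zc E hy𝒲 _ => ⟨le_fracRing A hX, E.hs, ?_⟩⟩
      intro z p p' hz hp hp' _
      rw [E.ev_s z p hz hp, E.ev_s z p' hz hp']
    · exact ⟨∅, fun A hX hy u D Z Zc E hy𝒲 _ => ⟨hy l, hy𝒲 l, fun z p p' _ _ _ h => h l⟩⟩
  | algebraMap c =>
    refine ⟨{c}, fun A hX hy u D Z Zc E hy𝒲 hZf => ?_⟩
    have hc : c ∈ Zc := hZf (by simp)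
    refine ⟨(fracRing A).algebraMap_mem c, E.hc c hc, ?_⟩
    intro z p p' hz hp hp' _
    exact (E.ev_c c hc z p hz hp).trans (E.ev_c c hc z p' hz hp').symm
  | add f₁ f₂ _ _ ih₁ ih₂ =>
    obtain ⟨Z₁, h₁⟩ := ih₁
    obtain ⟨Z₂, h₂⟩ := ih₂
    refine ⟨Z₁ ∪ Z₂, fun A hX hy u D Z Zc E hy𝒲 hZf => ?_⟩
    rw [Finset.coe_union] at hZf
    obtain ⟨a₁, w₁, e₁⟩ := h₁ A hX hy u D Z Zc E hy𝒲 (Set.subset_union_left.trans hZf)
    obtain ⟨a₂, w₂, e₂⟩ := h₂ A hX hy u D Z Zc E hy𝒲 (Set.subset_union_right.trans hZf)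
    refine ⟨(fracRing A).add_mem a₁ a₂, E.𝒲.add_mem w₁ w₂, ?_⟩
    intro z p p' hz hp hp' hl
    have key : ∀ q, E.ev z q ⟨⟨f₁ + f₂, (fracRing A).add_mem a₁ a₂⟩, E.𝒲.add_mem w₁ w₂⟩ =
        E.ev z q ⟨_, w₁⟩ + E.ev z q ⟨_, w₂⟩ := by
      intro q
      rw [← map_add]
      rfl
    rw [key, key, e₁ z p p' hz hp hp' hl, e₂ z p p' hz hp hp' hl]
  | mul f₁ f₂ _ _ ih₁ ih₂ =>
    obtain ⟨Z₁, h₁⟩ := ih₁
    obtain ⟨Z₂, h₂⟩ := ih₂
    refine ⟨Z₁ ∪ Z₂, fun A hX hy u D Z Zc E hy𝒲 hZf => ?_⟩
    rw [Finset.coe_union] at hZf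
    obtain ⟨a₁, w₁, e₁⟩ := h₁ A hX hy u D Z Zc E hy𝒲 (Set.subset_union_left.trans hZf)
    obtain ⟨a₂, w₂, e₂⟩ := h₂ A hX hy u D Z Zc E hy𝒲 (Set.subset_union_right.trans hZf)
    refine ⟨(fracRing A).mul_mem a₁ a₂, E.𝒲.mul_mem w₁ w₂, ?_⟩
    intro z p p' hz hp hp' hl
    have key : ∀ q, E.ev z q ⟨⟨f₁ * f₂, (fracRing A).mul_mem a₁ a₂⟩, E.𝒲.mul_mem w₁ w₂⟩ =
        E.ev z q ⟨_, w₁⟩ * E.ev z q ⟨_, w₂⟩ := by
      intro q
      rw [← map_mul]
      rfl
    rw [key, key, e₁ z p p' hz hp hp' hl, e₂ z p p' hz hp hp' hl]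

end Pool.Agent.Lib_KF

end

/-! ### from `Lib_KF.GF` -/

section

/-! G1c: the operators `h ^ |α| ∂^α`. -/

namespace Pool.Agent.Lib_KF

open Pool.Agent.Lib_GD

section GFAux

variable {R : Type} [CommRing R] [Algebra ℂ R] {n : ℕ}

private theorem GF_ind (P : (Fin n →₀ ℕ) → Prop) (h0 : P 0)
    (hs : ∀ α l, P α → P (α + Finsupp.single l 1)) : ∀ α, P α := by
  have key : ∀ (m : ℕ) (α : Fin n →₀ ℕ), α.degree = m → P α := by
    intro m
    induction m with
    | zero =>
      intro α hα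
      have h1 : α = 0 := by simpa [Finsupp.degree_eq_zero_iff] using hα
      rw [h1]; exact h0
    | succ m ih =>
      intro α hα
      obtain ⟨l, hl⟩ : ∃ l, α l ≠ 0 := by
        by_contra hcon
        push Not at hcon
        have : α = 0 := by ext l; simp [hcon l]
        subst this
        simp at hα
      obtain ⟨β, rfl⟩ : ∃ β : Fin n →₀ ℕ, α = β + Finsupp.single l 1 := by
        refine ⟨α - Finsupp.single l 1, ?_⟩
        rw [tsub_add_cancel_of_le]
        rw [Finsupp.single_le_iff]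
        omega
      have hβ : β.degree = m := by
        rw [map_add, Finsupp.degree_single] at hα
        omega
      exact hs β l (ih β hβ)
  exact fun α => key _ α rfl

/-- `s ↦ D s - k u s`. -/
private noncomputable def GF_T (D : Derivation ℂ R R) (u : R) (k : ℕ) : R →ₗ[ℂ] R :=
  (D : R →ₗ[ℂ] R) - LinearMap.mulLeft ℂ ((k : R) * u)

private theorem GF_T_apply (D : Derivation ℂ R R) (u : R) (k : ℕ) (s : R) :
    GF_T D u k s = D s - (k : R) * u * s := rfl

/-- Iterated operators along a list. -/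
private noncomputable def GF_op (D : Fin n → Derivation ℂ R R) (u : Fin n → R) :
    List (Fin n) → (R →ₗ[ℂ] R)
  | [] => LinearMap.id
  | l :: L => (GF_T (D l) (u l) L.length).comp (GF_op D u L)

private theorem GF_op_perm (D : Fin n → Derivation ℂ R R) (u : Fin n → R)
    (hcomm : ∀ l k s, D l (D k s) - D k (D l s) = u l * D k s - u k * D l s)
    (hsymm : ∀ l k, D l (u k) = D k (u l)) {L L' : List (Fin n)} (h : L.Perm L') :
    GF_op D u L = GF_op D u L' := by
  induction h with
  | nil => rfl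
  | cons l h ih =>
    change (GF_T (D l) (u l) _).comp (GF_op D u _) = (GF_T (D l) (u l) _).comp (GF_op D u _)
    rw [ih, h.length_eq]
  | swap l k L =>
    ext s
    change GF_T (D k) (u k) (L.length + 1) (GF_T (D l) (u l) L.length (GF_op D u L s)) =
      GF_T (D l) (u l) (L.length + 1) (GF_T (D k) (u k) L.length (GF_op D u L s))
    generalize GF_op D u L s = s'
    rw [GF_T_apply, GF_T_apply, GF_T_apply, GF_T_apply]
    have h1 := hcomm l k s'
    have h2 := hsymm l k
    rw [map_sub, map_sub, Derivation.leibniz, Derivation.leibniz, Derivation.leibniz,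
      Derivation.leibniz]
    simp only [smul_eq_mul, Derivation.map_natCast, mul_zero, add_zero]
    push_cast
    linear_combination (-1 : R) * h1 + (L.length : R) * s' * h2
  | trans h1 h2 ih1 ih2 => rw [ih1, ih2]

private theorem GF_succ (D : Fin n → Derivation ℂ R R) (u : Fin n → R)
    (hcomm : ∀ l k s, D l (D k s) - D k (D l s) = u l * D k s - u k * D l s)
    (hsymm : ∀ l k, D l (u k) = D k (u l)) (α : Fin n →₀ ℕ) (l : Fin n) (s : R) :
    GF_op D u (Finsupp.toMultiset (α + Finsupp.single l 1)).toList s =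
      D l (GF_op D u (Finsupp.toMultiset α).toList s) -
        (α.degree : R) * u l * GF_op D u (Finsupp.toMultiset α).toList s := by
  have h1 : (Finsupp.toMultiset (α + Finsupp.single l 1)).toList.Perm
      (l :: (Finsupp.toMultiset α).toList) := by
    rw [← Multiset.coe_eq_coe, Multiset.coe_toList, ← Multiset.cons_coe, Multiset.coe_toList,
      Finsupp.toMultiset_add, Finsupp.toMultiset_single, one_smul, add_comm,
      Multiset.singleton_add]
  have h2 : (Finsupp.toMultiset α).toList.length = α.degree := by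
    rw [Multiset.length_toList, Finsupp.card_toMultiset]
    rfl
  rw [GF_op_perm D u hcomm hsymm h1]
  change GF_T (D l) (u l) _ (GF_op D u (Finsupp.toMultiset α).toList s) = _
  rw [GF_T_apply, h2]

/-- The generating series. -/
private noncomputable def GF_ps (F : (Fin n →₀ ℕ) → R →ₗ[ℂ] R) (s : R) :
    MvPowerSeries (Fin n) R := fun α => algebraMap ℂ R (facG α)⁻¹ * F α s

private theorem GF_coeff (F : (Fin n →₀ ℕ) → R →ₗ[ℂ] R) (s : R) (α : Fin n →₀ ℕ) :
    MvPowerSeries.coeff α (GF_ps F s) = algebraMap ℂ R (facG α)⁻¹ * F α s := rfl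

private theorem GF_pderiv (F : (Fin n →₀ ℕ) → R →ₗ[ℂ] R) (D : Fin n → Derivation ℂ R R)
    (u : Fin n → R)
    (hs : ∀ α l s, F (α + Finsupp.single l 1) s = D l (F α s) - (α.degree : R) * u l * F α s)
    (s : R) (α : Fin n →₀ ℕ) (l : Fin n) :
    MvPowerSeries.coeff α (MvPowerSeries.pderiv R l (GF_ps F s)) =
      D l (MvPowerSeries.coeff α (GF_ps F s)) -
        (α.degree : R) * u l * MvPowerSeries.coeff α (GF_ps F s) := by
  rw [MvPowerSeries.coeff_pderiv, GF_coeff, GF_coeff, hs, facG_add_single, Derivation.leibniz,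
    Derivation.map_algebraMap, smul_zero, add_zero, smul_eq_mul]
  have h2 : ((α l : ℂ) + 1) ≠ 0 := Nat.cast_add_one_ne_zero (α l)
  have h3 : ((α l : R) + 1) = algebraMap ℂ R (α l + 1) := by simp
  have h4 : facG α ≠ 0 := facG_ne_zero α
  have h5 : algebraMap ℂ R (((α l : ℂ) + 1) * facG α)⁻¹ * algebraMap ℂ R (α l + 1) =
      algebraMap ℂ R (facG α)⁻¹ := by
    rw [← map_mul]
    congr 1
    field_simp
  rw [h3]
  linear_combination (D l (F α s) - (α.degree : R) * u l * F α s) * h5

private theorem GF_ps_mul (F : (Fin n →₀ ℕ) → R →ₗ[ℂ] R) (D : Fin n → Derivation ℂ R R)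
    (u : Fin n → R) (hz : ∀ s, F 0 s = s)
    (hs : ∀ α l s, F (α + Finsupp.single l 1) s = D l (F α s) - (α.degree : R) * u l * F α s)
    (s s' : R) : ∀ α : Fin n →₀ ℕ, MvPowerSeries.coeff α (GF_ps F (s * s')) =
      MvPowerSeries.coeff α (GF_ps F s * GF_ps F s') := by
  classical
  apply GF_ind
  · have e1 : MvPowerSeries.coeff (0 : Fin n →₀ ℕ) (GF_ps F s * GF_ps F s') =
        MvPowerSeries.coeff (0 : Fin n →₀ ℕ) (GF_ps F s) *
          MvPowerSeries.coeff (0 : Fin n →₀ ℕ) (GF_ps F s') := by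
      simp only [MvPowerSeries.coeff_zero_eq_constantCoeff_apply, map_mul]
    rw [e1, GF_coeff, GF_coeff, GF_coeff, hz, hz, hz]
    simp [facG]
  · intro α l ih
    have key : MvPowerSeries.coeff α (MvPowerSeries.pderiv R l (GF_ps F (s * s'))) =
        MvPowerSeries.coeff α (MvPowerSeries.pderiv R l (GF_ps F s * GF_ps F s')) := by
      rw [GF_pderiv F D u hs, ih, Derivation.leibniz, smul_eq_mul, smul_eq_mul, map_add,
        MvPowerSeries.coeff_mul, MvPowerSeries.coeff_mul, MvPowerSeries.coeff_mul, map_sum,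
        Finset.mul_sum]
      have hsw : ∑ p ∈ Finset.HasAntidiagonal.antidiagonal α,
          MvPowerSeries.coeff p.1 (GF_ps F s') *
            MvPowerSeries.coeff p.2 (MvPowerSeries.pderiv R l (GF_ps F s)) =
          ∑ p ∈ Finset.HasAntidiagonal.antidiagonal α,
          MvPowerSeries.coeff p.2 (GF_ps F s') *
            MvPowerSeries.coeff p.1 (MvPowerSeries.pderiv R l (GF_ps F s)) := by
        refine Finset.sum_nbij' Prod.swap Prod.swap ?_ ?_ ?_ ?_ ?_
        · intro p hp
          rw [Finset.HasAntidiagonal.mem_antidiagonal] at hp ⊢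
          rw [← hp]; exact add_comm _ _
        · intro p hp
          rw [Finset.HasAntidiagonal.mem_antidiagonal] at hp ⊢
          rw [← hp]; exact add_comm _ _
        · intro p _; rfl
        · intro p _; rfl
        · intro p _; rfl
      rw [hsw, ← Finset.sum_add_distrib, ← Finset.sum_sub_distrib]
      refine Finset.sum_congr rfl fun p hp => ?_
      have hdeg : α.degree = p.1.degree + p.2.degree := by
        rw [← map_add, Finset.HasAntidiagonal.mem_antidiagonal.1 hp]
      rw [GF_pderiv F D u hs, GF_pderiv F D u hs, Derivation.leibniz, smul_eq_mul, smul_eq_mul,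
        hdeg]
      push_cast
      ring
    rw [MvPowerSeries.coeff_pderiv, MvPowerSeries.coeff_pderiv] at key
    have hu : IsUnit ((α l : R) + 1) := by
      have : ((α l : R) + 1) = algebraMap ℂ R (α l + 1) := by simp
      rw [this]
      exact (IsUnit.mk0 _ (Nat.cast_add_one_ne_zero (α l))).map _
    exact hu.mul_right_cancel key

private theorem GF_mul (F : (Fin n →₀ ℕ) → R →ₗ[ℂ] R) (D : Fin n → Derivation ℂ R R)
    (u : Fin n → R) (hz : ∀ s, F 0 s = s)
    (hs : ∀ α l s, F (α + Finsupp.single l 1) s = D l (F α s) - (α.degree : R) * u l * F α s)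
    (γ : Fin n →₀ ℕ) (s s' : R) :
    F γ (s * s') = ∑ p ∈ Finset.HasAntidiagonal.antidiagonal γ,
      binG p.1 p.2 • (F p.1 s * F p.2 s') := by
  classical
  have h1 := GF_ps_mul F D u hz hs s s' γ
  rw [MvPowerSeries.coeff_mul, GF_coeff] at h1
  have h2 : F γ (s * s') = algebraMap ℂ R (facG γ) * (algebraMap ℂ R (facG γ)⁻¹ * F γ (s * s')) := by
    rw [← mul_assoc, ← map_mul, mul_inv_cancel₀ (facG_ne_zero γ), map_one, one_mul]
  rw [h2, h1, Finset.mul_sum]
  refine Finset.sum_congr rfl fun p hp => ?_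
  have hγ := Finset.HasAntidiagonal.mem_antidiagonal.1 hp
  have hb : binG p.1 p.2 = facG γ * ((facG p.1)⁻¹ * (facG p.2)⁻¹) := by
    unfold binG facG
    rw [← Finset.prod_inv_distrib, ← Finset.prod_inv_distrib, ← Finset.prod_mul_distrib,
      ← Finset.prod_mul_distrib]
    refine Finset.prod_congr rfl fun l _ => ?_
    rw [← hγ, Finsupp.add_apply, Nat.choose_symm_add,
      ← Nat.add_choose_mul_factorial_mul_factorial]
    push_cast
    have e1 : ((p.1 l).factorial : ℂ) ≠ 0 := Nat.cast_ne_zero.2 (Nat.factorial_ne_zero _)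
    have e2 : ((p.2 l).factorial : ℂ) ≠ 0 := Nat.cast_ne_zero.2 (Nat.factorial_ne_zero _)
    field_simp
  rw [GF_coeff, GF_coeff, hb, Algebra.smul_def, map_mul, map_mul]
  ring

private theorem GF_pd_comm {σ : Type} (i j : σ) (p : MvPolynomial σ ℂ) :
    MvPolynomial.pderiv i (MvPolynomial.pderiv j p) =
      MvPolynomial.pderiv j (MvPolynomial.pderiv i p) := by
  classical
  have h : ⁅(MvPolynomial.pderiv i : Derivation ℂ (MvPolynomial σ ℂ) (MvPolynomial σ ℂ)),
      (MvPolynomial.pderiv j : Derivation ℂ (MvPolynomial σ ℂ) (MvPolynomial σ ℂ))⁆ = 0 := by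
    apply MvPolynomial.derivation_ext
    intro k
    rw [Derivation.commutator_apply, MvPolynomial.pderiv_X, MvPolynomial.pderiv_X,
      Derivation.zero_apply]
    have h1 : ∀ a b : σ, (MvPolynomial.pderiv a : Derivation ℂ (MvPolynomial σ ℂ)
        (MvPolynomial σ ℂ)) ((Pi.single b 1 : σ → MvPolynomial σ ℂ) k) = 0 := by
      intro a b
      by_cases hbk : k = b
      · subst hbk; rw [Pi.single_eq_same, Derivation.map_one_eq_zero]
      · rw [Pi.single_eq_of_ne hbk, map_zero]
    rw [h1, h1, sub_zero]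
  have h2 := Derivation.congr_fun h p
  rw [Derivation.commutator_apply, Derivation.zero_apply] at h2
  exact sub_eq_zero.1 h2

private theorem GF_aeval {m : ℕ} (x : Fin m → R) (D : Derivation ℂ R R) (H : R) (b : Fin m)
    (hD : ∀ c, D (x c) = if b = c then H else 0) (p : MvPolynomial (Fin m) ℂ) :
    D (MvPolynomial.aeval x p) = H * MvPolynomial.aeval x (MvPolynomial.pderiv b p) := by
  classical
  induction p using MvPolynomial.induction_on with
  | C a =>
    rw [MvPolynomial.aeval_C, Derivation.map_algebraMap, MvPolynomial.pderiv_C, map_zero, mul_zero]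
  | add p q hp hq => rw [map_add, map_add, hp, hq, map_add, map_add, mul_add]
  | mul_X p c hp =>
    rw [map_mul, MvPolynomial.aeval_X, Derivation.leibniz, hp, hD, MvPolynomial.pderiv_mul,
      map_add, map_mul, map_mul, MvPolynomial.aeval_X, MvPolynomial.pderiv_X, smul_eq_mul,
      smul_eq_mul]
    by_cases hbc : b = c
    · subst hbc
      rw [if_pos rfl, Pi.single_eq_same, map_one]
      ring
    · rw [if_neg hbc, Pi.single_eq_of_ne (Ne.symm hbc), map_zero]
      ring

end GFAux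

variable {R : Type} [CommRing R] [Algebra ℂ R] {𝒜 : ℕ → Submodule ℂ R} [GradedAlgebra 𝒜]
  {n r d : ℕ} {x : Fin (n + 1) → R} {G : R}

/-- G1c. Proof: let `K` be the fraction field, `∂_b = h⁻¹ E_b` extended to `K`; the `∂_b` commute
(`h` times the commutator `[∂_b, ∂_c]` is a derivation of `K` killing the `x_c'`, so by `hom` it
is zero: every derivation `R → K` killing the `x b` is zero by `hom`, as `h ≠ 0`). By induction
on `|α|`: `h ^ |α| ∂^α` maps `R` to `R`, since
`h ^ (k+1) ∂_b ∂^α s = E_b (h ^ k ∂^α s) - k (∂_b h) h ^ k ∂^α s` and `∂_b h` is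
`aeval x (pderiv b hp)`. `F a α s` is the element of `R` with image `h ^ |α| ∂^α s`, `∂^α` the
iterated derivation (`ddG` of `Lib_GD/TaylorGen.lean` for the commuting derivations
`∂_(a.succAbove l)` of `K`; its Leibniz rule can be obtained by induction on `|γ|` or from
`tsG_mul_aux`). `F_poly`: `∂_b (aeval x p) = aeval x (pderiv b p)`, iterate. -/
theorem exists_F (h : IsFano 𝒜 n r d x G) (hp : MvPolynomial (Fin (n + 1)) ℂ) (h0 : hp ≠ 0)
    (E : Fin (n + 1) → Derivation ℂ R R)
    (hE : ∀ b c, E b (x c) = if b = c then MvPolynomial.aeval x hp else 0)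
    (hom : ∀ s, MvPolynomial.aeval x hp • KaehlerDifferential.D ℂ R s =
        ∑ b, E b s • KaehlerDifferential.D ℂ R (x b)) :
    ∃ F : Fin (n + 1) → (Fin n →₀ ℕ) → R →ₗ[ℂ] R,
      (∀ a s, F a 0 s = s) ∧
      (∀ a α l s, F a (α + Finsupp.single l 1) s = E (a.succAbove l) (F a α s) -
        (α.degree : R) * MvPolynomial.aeval x (MvPolynomial.pderiv (a.succAbove l) hp) *
          F a α s) ∧
      (∀ a γ s s', F a γ (s * s') = ∑ p ∈ Finset.HasAntidiagonal.antidiagonal γ,
        binG p.1 p.2 • (F a p.1 s * F a p.2 s')) ∧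
      (∀ a γ p, F a γ (MvPolynomial.aeval x p) =
        MvPolynomial.aeval x hp ^ γ.degree * MvPolynomial.aeval x (pdG a γ p)) := by
  classical
  have hdom := h.domain
  have hH0 : MvPolynomial.aeval x hp ≠ 0 := by
    intro hc
    exact h0 (h.x_indep.eq_zero_of_aeval_eq_zero hp hc)
  -- a derivation killing the coordinates vanishes
  have hkill : ∀ D : Derivation ℂ R R, (∀ c, D (x c) = 0) → D = 0 := by
    intro D hD
    ext s
    have h1 := congrArg D.liftKaehlerDifferential (hom s)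
    rw [map_smul, map_sum, Derivation.liftKaehlerDifferential_comp_D] at h1
    have h2 : ∑ b, D.liftKaehlerDifferential (E b s • KaehlerDifferential.D ℂ R (x b)) = 0 := by
      refine Finset.sum_eq_zero fun b _ => ?_
      rw [map_smul, Derivation.liftKaehlerDifferential_comp_D, hD, smul_zero]
    rw [h2, smul_eq_mul] at h1
    exact (mul_eq_zero.1 h1).resolve_left hH0
  have hEp : ∀ b p, E b (MvPolynomial.aeval x p) =
      MvPolynomial.aeval x hp * MvPolynomial.aeval x (MvPolynomial.pderiv b p) := fun b p =>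
    GF_aeval x (E b) _ b (fun c => hE b c) p
  have hsymm : ∀ b c, E b (MvPolynomial.aeval x (MvPolynomial.pderiv c hp)) =
      E c (MvPolynomial.aeval x (MvPolynomial.pderiv b hp)) := by
    intro b c
    rw [hEp, hEp, GF_pd_comm]
  have hcomm : ∀ b c s, E b (E c s) - E c (E b s) =
      MvPolynomial.aeval x (MvPolynomial.pderiv b hp) * E c s -
        MvPolynomial.aeval x (MvPolynomial.pderiv c hp) * E b s := by
    intro b c s
    have h1 : ⁅E b, E c⁆ - (MvPolynomial.aeval x (MvPolynomial.pderiv b hp) • E c -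
        MvPolynomial.aeval x (MvPolynomial.pderiv c hp) • E b) = 0 := by
      apply hkill
      intro k
      rw [Derivation.sub_apply, Derivation.sub_apply, Derivation.smul_apply,
        Derivation.smul_apply, Derivation.commutator_apply, hE, hE]
      by_cases hbk : b = k
      · by_cases hck : c = k
        · rw [if_pos hbk, if_pos hck, hEp, hEp, hbk, hck]
          simp
        · rw [if_pos hbk, if_neg hck, hEp, map_zero, smul_zero, smul_eq_mul]
          ring
      · by_cases hck : c = k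
        · rw [if_neg hbk, if_pos hck, hEp, map_zero, smul_zero, smul_eq_mul]
          ring
        · rw [if_neg hbk, if_neg hck, map_zero, map_zero, smul_zero, smul_zero]
          ring
    have h2 := Derivation.congr_fun h1 s
    rw [Derivation.sub_apply, Derivation.sub_apply, Derivation.smul_apply,
      Derivation.smul_apply, Derivation.commutator_apply, Derivation.zero_apply] at h2
    rw [smul_eq_mul, smul_eq_mul] at h2
    exact sub_eq_zero.1 h2
  have hz : ∀ (a : Fin (n + 1)) (s : R), GF_op (fun l => E (a.succAbove l))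
      (fun l => MvPolynomial.aeval x (MvPolynomial.pderiv (a.succAbove l) hp))
      (Finsupp.toMultiset (0 : Fin n →₀ ℕ)).toList s = s := by
    intro a s
    rw [Finsupp.toMultiset_zero, Multiset.toList_zero]
    rfl
  have hs := fun (a : Fin (n + 1)) (α : Fin n →₀ ℕ) (l : Fin n) (s : R) =>
    GF_succ (fun l => E (a.succAbove l))
      (fun l => MvPolynomial.aeval x (MvPolynomial.pderiv (a.succAbove l) hp))
      (fun l k s => hcomm _ _ s) (fun l k => hsymm _ _) α l s
  refine ⟨fun a α => GF_op (fun l => E (a.succAbove l))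
      (fun l => MvPolynomial.aeval x (MvPolynomial.pderiv (a.succAbove l) hp))
      (Finsupp.toMultiset α).toList, hz, hs, ?_, ?_⟩
  · intro a γ s s'
    exact GF_mul (fun α => GF_op (fun l => E (a.succAbove l))
      (fun l => MvPolynomial.aeval x (MvPolynomial.pderiv (a.succAbove l) hp))
      (Finsupp.toMultiset α).toList) (fun l => E (a.succAbove l))
      (fun l => MvPolynomial.aeval x (MvPolynomial.pderiv (a.succAbove l) hp)) (hz a) (hs a) γ s s'
  · intro a γ p
    have hpd : ∀ α : Fin n →₀ ℕ, ∀ l, pdG a (α + Finsupp.single l 1) p =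
        MvPolynomial.pderiv (a.succAbove l) (pdG a α p) := by
      intro α l
      exact (der_ddG (fun l : Fin n => (MvPolynomial.pderiv (a.succAbove l) :
        Derivation ℂ (MvPolynomial (Fin (n + 1)) ℂ) (MvPolynomial (Fin (n + 1)) ℂ)))
        (fun l k b => GF_pd_comm _ _ b) α l p).symm
    have hp0 : pdG a 0 p = p :=
      ddG_zero (fun l : Fin n => (MvPolynomial.pderiv (a.succAbove l) :
        Derivation ℂ (MvPolynomial (Fin (n + 1)) ℂ) (MvPolynomial (Fin (n + 1)) ℂ))) p
    revert γ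
    apply GF_ind
    · change GF_op _ _ (Finsupp.toMultiset (0 : Fin n →₀ ℕ)).toList _ = _
      rw [hz, hp0, map_zero, pow_zero, one_mul]
    · intro α l ih
      change GF_op _ _ (Finsupp.toMultiset (α + Finsupp.single l 1)).toList _ = _
      rw [hs a α l]
      have ih' : GF_op (fun l => E (a.succAbove l))
        (fun l => MvPolynomial.aeval x (MvPolynomial.pderiv (a.succAbove l) hp))
        (Finsupp.toMultiset α).toList (MvPolynomial.aeval x p) =
        MvPolynomial.aeval x hp ^ α.degree * MvPolynomial.aeval x (pdG a α p) := ih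
      rw [ih', hpd, map_add, Finsupp.degree_single, Derivation.leibniz, Derivation.leibniz_pow,
        hEp, hEp, smul_eq_mul, smul_eq_mul, smul_eq_mul, nsmul_eq_mul]
      rcases Nat.eq_zero_or_pos α.degree with hd | hd
      · rw [hd]
        simp
      · obtain ⟨k, hk⟩ := Nat.exists_eq_add_of_lt hd
        have hk' : α.degree = k + 1 := by omega
        rw [hk', Nat.add_sub_cancel]
        push_cast
        ring

end Pool.Agent.Lib_KF

end
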