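import Mathlib
import Pool.Agent.Lib_MP_e0d435_m.G08
import Pool.Agent.Lib_MP_e0d435_m.G09
import Pool.Agent.Lib_MP_e0d435_m.G17

/-!
# MP_e0d435_ag: merged library part G21

Concatenation of library files (each in its own section), only to save build time.
-/

/-! ### from `Lib_KF.RLoc` -/

section

/-! RS05: local holomorphic enumeration of the fibres. -/

open MeasureTheory Complex
open scoped ENNReal NNReal ContDiff ComplexConjugate

namespace Pool.Agent.Lib_KF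

open Pool.Agent.Lib_GD GPn

variable {R : Type} [CommRing R] [Algebra ℂ R] {𝒜 : ℕ → Submodule ℂ R} {n k M B : ℕ}
  {x : Fin (n + 1) → R}

theorem Sheets.local_sections (S : Sheets 𝒜 x k) (y₀ : Fin (n + 1) → ℂ)
    (hy₀ : MvPolynomial.eval y₀ S.h ≠ 0) :
    ∃ (δ : ℝ) (σ : Fin (k + 1) → (Fin (n + 1) → ℂ) → (R →ₐ[ℂ] ℂ)), 0 < δ ∧
      (∀ y ∈ Metric.ball y₀ δ, MvPolynomial.eval y S.h ≠ 0) ∧
      (∀ y ∈ Metric.ball y₀ δ, Function.Injective fun i => σ i y) ∧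
      (∀ y ∈ Metric.ball y₀ δ, fib x y = Set.range fun i => σ i y) ∧
      ∀ i f, AnalyticOnNhd ℂ (fun y => σ i y f) (Metric.ball y₀ δ) := by
  have hfin : Finite (fib x y₀) := S.fin y₀ hy₀
  have hc : Nat.card (fib x y₀) = k + 1 := by
    rw [Nat.card_coe_set_eq]
    exact S.card y₀ hy₀
  let e : Fin (k + 1) ≃ fib x y₀ := (Finite.equivFinOfCardEq hc).symm
  have hsec := fun i : Fin (k + 1) => S.sec y₀ hy₀ (e i).1 (e i).2
  choose d σ hd hσ0 hσm hσa using hsec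
  -- separating functions
  have hsep : ∀ p : Fin (k + 1) × Fin (k + 1), ∃ f : R, p.1 ≠ p.2 → (e p.1).1 f ≠ (e p.2).1 f := by
    rintro ⟨i, j⟩
    by_cases hij : i = j
    · exact ⟨0, fun h => absurd hij h⟩
    · have h1 : (e i).1 ≠ (e j).1 := fun h => hij (e.injective (Subtype.ext h))
      by_contra hcon
      apply h1
      apply AlgHom.ext
      intro f
      by_contra hf
      exact hcon ⟨f, fun _ => hf⟩
  choose f hf using hsep
  have hcont : ∀ i g, ContinuousAt (fun y => σ i y g) y₀ := fun i g =>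
    (hσa i g y₀ (Metric.mem_ball_self (hd i))).continuousAt
  have hev : ∀ᶠ y in nhds y₀, MvPolynomial.eval y S.h ≠ 0 ∧
      (∀ p : Fin (k + 1) × Fin (k + 1), p.1 ≠ p.2 → σ p.1 y (f p) ≠ σ p.2 y (f p)) ∧
      ∀ i, y ∈ Metric.ball y₀ (d i) := by
    refine Filter.Eventually.and ?_ (Filter.Eventually.and ?_ ?_)
    · exact (MvPolynomial.continuous_eval S.h).continuousAt.eventually_ne hy₀
    · rw [Filter.eventually_all]
      intro p
      by_cases hp : p.1 = p.2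
      · exact Filter.Eventually.of_forall fun y h => absurd hp h
      · have h1 : (σ p.1 y₀ (f p)) - (σ p.2 y₀ (f p)) ≠ 0 := by
          rw [hσ0, hσ0, sub_ne_zero]
          exact hf p hp
        have h2 : ContinuousAt (fun y => σ p.1 y (f p) - σ p.2 y (f p)) y₀ :=
          (hcont p.1 (f p)).sub (hcont p.2 (f p))
        filter_upwards [h2.eventually_ne h1] with y hy _
        exact sub_ne_zero.1 hy
    · rw [Filter.eventually_all]
      intro i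
      exact Metric.ball_mem_nhds y₀ (hd i)
  obtain ⟨δ, hδ, hball⟩ := Metric.eventually_nhds_iff_ball.1 hev
  have hinj : ∀ y ∈ Metric.ball y₀ δ, Function.Injective fun i => σ i y := by
    intro y hy i j hij
    by_contra hne
    have h1 := (hball y hy).2.1 (i, j) hne
    apply h1
    have h2 : σ i y = σ j y := hij
    simp only [h2]
  refine ⟨δ, σ, hδ, fun y hy => (hball y hy).1, hinj, ?_, ?_⟩
  · intro y hy
    symm
    apply Set.eq_of_subset_of_ncard_le _ _ (S.fin y (hball y hy).1)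
    · rintro _ ⟨i, rfl⟩
      exact hσm i y ((hball y hy).2.2 i)
    · rw [S.card y (hball y hy).1, ← Set.image_univ, Set.ncard_image_of_injective _ (hinj y hy),
        Set.ncard_univ, Nat.card_eq_fintype_card, Fintype.card_fin]
  · intro i g
    exact (hσa i g).mono fun y hy => (hball y hy).2.2 i

/-- Sums over the fibres in terms of an enumeration. -/
theorem finsum_fib {E' : Type} [AddCommMonoid E'] (y : Fin (n + 1) → ℂ)
    (σ : Fin (k + 1) → (R →ₐ[ℂ] ℂ)) (h1 : Function.Injective σ) (h2 : fib x y = Set.range σ)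
    (g : (R →ₐ[ℂ] ℂ) → E') : ∑ᶠ ν ∈ fib x y, g ν = ∑ i, g (σ i) := by
  rw [h2, finsum_mem_range h1, finsum_eq_sum_of_fintype]

theorem tsum_fib (y : Fin (n + 1) → ℂ) (σ : Fin (k + 1) → (R →ₐ[ℂ] ℂ))
    (h1 : Function.Injective σ) (h2 : fib x y = Set.range σ) (g : (R →ₐ[ℂ] ℂ) → ℝ≥0∞) :
    ∑' ν : fib x y, g ν.1 = ∑ i, g (σ i) := by
  rw [h2]
  exact (tsum_range g h1).trans (tsum_fintype _)

/-- The sections `β` take linearly independent values (in terms of an enumeration). -/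
theorem Sheets.inv_of_enum (S : Sheets 𝒜 x k) (y : Fin (n + 1) → ℂ)
    (hy : MvPolynomial.eval y S.h ≠ 0) (σ : Fin (k + 1) → (R →ₐ[ℂ] ℂ))
    (h2 : fib x y = Set.range σ) (u : Fin (k + 1) → ℂ)
    (hu : ∀ i, ∑ a, σ i (S.β a) * u a = 0) : u = 0 := by
  apply S.indep y hy u
  intro ν hν
  rw [h2] at hν
  obtain ⟨i, rfl⟩ := hν
  rw [← hu i]
  exact Finset.sum_congr rfl fun a _ => mul_comm _ _

end Pool.Agent.Lib_KF

end

/-! ### from `Lib_KF.RHer` -/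

section

/-! RS06: smoothness, positivity and local form of the metric `Hmat`. -/

open MeasureTheory Complex
open scoped ENNReal NNReal ContDiff ComplexConjugate

namespace Pool.Agent.Lib_KF

open Pool.Agent.Lib_GD GPn

variable {R : Type} [CommRing R] [Algebra ℂ R] {𝒜 : ℕ → Submodule ℂ R} {n k M B : ℕ}
  {x : Fin (n + 1) → R}

/-- The weight `Φ` of a section. -/
noncomputable def PhiE (G : R) (r : ℕ) (e : Fin M → Fin (B + 1) → R) (c ε τ : ℝ)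
    (σ : (Fin (n + 1) → ℂ) → (R →ₐ[ℂ] ℂ)) (p : (Fin (n + 1) → ℂ) × ℂ) : ℝ :=
  (∑ i, c * Real.log (‖σ p.1 (famAt (e i) p.2)‖ ^ 2 + ε ^ 2 * Ssum e (σ p.1))) +
    (1 / r : ℝ) * Real.log (‖σ p.1 G‖ ^ 2) + Real.log (‖p.2‖ ^ 2) +
    τ * Real.log (1 + ‖p.2‖ ^ 2 / ε ^ 2)

private theorem RHer_Ssum_nonneg (e : Fin M → Fin (B + 1) → R) (ν : R →ₐ[ℂ] ℂ) : 0 ≤ Ssum e ν := by
  unfold Ssum
  exact Finset.sum_nonneg fun i _ => Finset.sum_nonneg fun l _ => by positivity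

private theorem RHer_Ssum_pos (e : Fin M → Fin (B + 1) → R) (ν : R →ₐ[ℂ] ℂ) (i : Fin M)
    (hi : ν (e i 0) ≠ 0) : 0 < Ssum e ν := by
  unfold Ssum
  have h1 : 0 < ‖ν (e i 0)‖ ^ 2 := by positivity
  have h2 : ‖ν (e i 0)‖ ^ 2 ≤ ∑ l, ‖ν (e i l)‖ ^ 2 :=
    Finset.single_le_sum (f := fun l => ‖ν (e i l)‖ ^ 2) (fun l _ => by positivity)
      (Finset.mem_univ 0)
  have h3 : ∑ l, ‖ν (e i l)‖ ^ 2 ≤ ∑ i, ∑ l, ‖ν (e i l)‖ ^ 2 :=
    Finset.single_le_sum (f := fun i => ∑ l, ‖ν (e i l)‖ ^ 2)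
      (fun i _ => Finset.sum_nonneg fun l _ => by positivity) (Finset.mem_univ i)
  linarith

private theorem RHer_famAt (σ : R →ₐ[ℂ] ℂ) (e : Fin (B + 1) → R) (s : ℂ) :
    σ (famAt e s) = ∑ l : Fin (B + 1), s ^ (l : ℕ) * σ (e l) := by
  unfold famAt
  rw [map_sum]
  refine Finset.sum_congr rfl fun l _ => ?_
  rw [map_smul, smul_eq_mul]

/-- `exp (-Φ)` is the weight. -/
theorem exp_PhiE (G : R) (r : ℕ) (e : Fin M → Fin (B + 1) → R) (c ε τ : ℝ)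
    (hε : 0 < ε) (σ : (Fin (n + 1) → ℂ) → (R →ₐ[ℂ] ℂ)) (p : (Fin (n + 1) → ℂ) × ℂ)
    (hs : p.2 ≠ 0) (hG : σ p.1 G ≠ 0) (he : ∀ i, σ p.1 (e i 0) ≠ 0) :
    Real.exp (-PhiE G r e c ε τ σ p) = wph G r e c ε (σ p.1) p.2 * ws ε τ p.2 := by
  unfold PhiE wph ws
  have hpos : ∀ i, 0 < ‖σ p.1 (famAt (e i) p.2)‖ ^ 2 + ε ^ 2 * Ssum e (σ p.1) := by
    intro i
    have h1 := RHer_Ssum_pos e (σ p.1) i (he i)
    positivity
  have hs' : 0 < ‖p.2‖ := norm_pos_iff.mpr hs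
  have hG' : 0 < ‖σ p.1 G‖ := norm_pos_iff.mpr hG
  have h1 : ∏ i, (‖σ p.1 (famAt (e i) p.2)‖ ^ 2 + ε ^ 2 * Ssum e (σ p.1)) ^ (-c) =
      Real.exp (-∑ i, c * Real.log (‖σ p.1 (famAt (e i) p.2)‖ ^ 2 + ε ^ 2 * Ssum e (σ p.1))) := by
    rw [← Finset.sum_neg_distrib, Real.exp_sum]
    refine Finset.prod_congr rfl fun i _ => ?_
    rw [Real.rpow_def_of_pos (hpos i)]
    congr 1
    ring
  have h2 : ‖σ p.1 G‖ ^ (-2 / (r : ℝ)) =
      Real.exp (-((1 / r : ℝ) * Real.log (‖σ p.1 G‖ ^ 2))) := by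
    rw [Real.rpow_def_of_pos hG', Real.log_pow]
    congr 1
    push_cast
    ring
  have h3 : (‖p.2‖ ^ 2)⁻¹ = Real.exp (-Real.log (‖p.2‖ ^ 2)) := by
    rw [Real.exp_neg, Real.exp_log (by positivity)]
  have h4 : (1 + ‖p.2‖ ^ 2 / ε ^ 2) ^ (-τ) =
      Real.exp (-(τ * Real.log (1 + ‖p.2‖ ^ 2 / ε ^ 2))) := by
    rw [Real.rpow_def_of_pos (by positivity)]
    congr 1
    ring
  rw [h1, h2, h3, h4, ← Real.exp_add, ← Real.exp_add, ← Real.exp_add]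
  congr 1
  ring

private theorem RHer_an_fst {p : (Fin (n + 1) → ℂ) × ℂ} (σ : (Fin (n + 1) → ℂ) → (R →ₐ[ℂ] ℂ))
    (hσ : ∀ f, AnalyticAt ℂ (fun y => σ y f) p.1) (f : R) :
    AnalyticAt ℂ (fun q : (Fin (n + 1) → ℂ) × ℂ => σ q.1 f) p :=
  (hσ f).fun_comp analyticAt_fst

private theorem RHer_an_fam {p : (Fin (n + 1) → ℂ) × ℂ} (σ : (Fin (n + 1) → ℂ) → (R →ₐ[ℂ] ℂ))
    (hσ : ∀ f, AnalyticAt ℂ (fun y => σ y f) p.1) (e : Fin (B + 1) → R) :
    AnalyticAt ℂ (fun q : (Fin (n + 1) → ℂ) × ℂ => σ q.1 (famAt e q.2)) p := by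
  have h : (fun q : (Fin (n + 1) → ℂ) × ℂ => σ q.1 (famAt e q.2)) =
      fun q => ∑ l : Fin (B + 1), q.2 ^ (l : ℕ) * σ q.1 (e l) := by
    funext q
    exact RHer_famAt _ _ _
  rw [h]
  refine Finset.analyticAt_fun_sum _ fun l _ => ?_
  exact (analyticAt_snd.pow _).mul (RHer_an_fst σ hσ (e l))

/-- the function `g` of `leviF_log_sum` -/
private noncomputable def RHer_g (e : Fin M → Fin (B + 1) → R) (ε : ℝ)
    (σ : (Fin (n + 1) → ℂ) → (R →ₐ[ℂ] ℂ)) (i : Fin M) :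
    Option (Fin M × Fin (B + 1)) → (Fin (n + 1) → ℂ) × ℂ → ℂ
  | none, q => σ q.1 (famAt (e i) q.2)
  | some jl, q => (ε : ℂ) * σ q.1 (e jl.1 jl.2)

private theorem RHer_g_sum (e : Fin M → Fin (B + 1) → R) (ε : ℝ)
    (σ : (Fin (n + 1) → ℂ) → (R →ₐ[ℂ] ℂ)) (i : Fin M) (q : (Fin (n + 1) → ℂ) × ℂ) :
    ∑ t, ‖RHer_g e ε σ i t q‖ ^ 2 =
      ‖σ q.1 (famAt (e i) q.2)‖ ^ 2 + ε ^ 2 * Ssum e (σ q.1) := by
  rw [Fintype.sum_option]
  congr 1
  unfold Ssum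
  rw [Finset.mul_sum, Fintype.sum_prod_type]
  refine Finset.sum_congr rfl fun j _ => ?_
  rw [Finset.mul_sum]
  refine Finset.sum_congr rfl fun l _ => ?_
  simp only [RHer_g, norm_mul, mul_pow, Complex.norm_real, Real.norm_eq_abs, sq_abs]

private theorem RHer_term (e : Fin M → Fin (B + 1) → R) (ε : ℝ) (hε : 0 < ε)
    (σ : (Fin (n + 1) → ℂ) → (R →ₐ[ℂ] ℂ)) (p : (Fin (n + 1) → ℂ) × ℂ)
    (hσ : ∀ f, AnalyticAt ℂ (fun y => σ y f) p.1) (i : Fin M) (hi : σ p.1 (e i 0) ≠ 0) :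
    ContDiffAt ℝ ∞ (fun q : (Fin (n + 1) → ℂ) × ℂ =>
      Real.log (‖σ q.1 (famAt (e i) q.2)‖ ^ 2 + ε ^ 2 * Ssum e (σ q.1))) p ∧
    ∀ a : Fin (n + 1) ⊕ Unit → ℂ, 0 ≤ leviF (bE n) (fun q =>
      Real.log (‖σ q.1 (famAt (e i) q.2)‖ ^ 2 + ε ^ 2 * Ssum e (σ q.1))) p a := by
  have h := leviF_log_sum (bE n) (RHer_g e ε σ i) p (by
    intro t
    cases t with
    | none => exact RHer_an_fam σ hσ (e i)
    | some jl => exact analyticAt_const.mul (RHer_an_fst σ hσ _)) (by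
    rw [RHer_g_sum]
    have h1 := RHer_Ssum_pos e (σ p.1) i hi
    positivity)
  simp only [RHer_g_sum] at h
  exact h

private theorem RHer_single (f : (Fin (n + 1) → ℂ) × ℂ → ℂ) (p : (Fin (n + 1) → ℂ) × ℂ)
    (hf : AnalyticAt ℂ f p) (h0 : f p ≠ 0) :
    ContDiffAt ℝ ∞ (fun q : (Fin (n + 1) → ℂ) × ℂ => Real.log (‖f q‖ ^ 2)) p ∧
    ∀ a : Fin (n + 1) ⊕ Unit → ℂ, 0 ≤ leviF (bE n) (fun q => Real.log (‖f q‖ ^ 2)) p a := by
  have h := leviF_log_sum (bE n) (fun _ : Unit => f) p (fun _ => hf) (by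
    simp only [Finset.univ_unique, Finset.sum_const, Finset.card_singleton, one_smul]
    positivity)
  simp only [Finset.univ_unique, Finset.sum_const, Finset.card_singleton, one_smul] at h
  exact h

/-- The weight of a holomorphic section is smooth and its Levi form is at least
`τ ε² / (ε² + |s|²)²` in the direction of `s`. -/
theorem levi_PhiE (G : R) (r : ℕ) (hr : 1 ≤ r) (e : Fin M → Fin (B + 1) → R) (c ε τ : ℝ)
    (hc : 0 ≤ c) (hε : 0 < ε) (hτ : 0 ≤ τ) (σ : (Fin (n + 1) → ℂ) → (R →ₐ[ℂ] ℂ))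
    (p : (Fin (n + 1) → ℂ) × ℂ) (hσ : ∀ f, AnalyticAt ℂ (fun y => σ y f) p.1)
    (hs : p.2 ≠ 0) (hG : σ p.1 G ≠ 0) (he : ∀ i, σ p.1 (e i 0) ≠ 0) :
    ContDiffAt ℝ ∞ (PhiE G r e c ε τ σ) p ∧
    ∀ a : Fin (n + 1) ⊕ Unit → ℂ, τ * ε ^ 2 / (ε ^ 2 + ‖p.2‖ ^ 2) ^ 2 * ‖a (Sum.inr ())‖ ^ 2 ≤
      leviF (bE n) (PhiE G r e c ε τ σ) p a := by
  have hT := fun i => RHer_term e ε hε σ p hσ i (he i)
  have hGG := RHer_single (n := n) (fun q => σ q.1 G) p (RHer_an_fst σ hσ G) hG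
  have hS := RHer_single (n := n) (fun q => q.2) p analyticAt_snd hs
  have hL := leviF_s n ε hε p
  have s1 : ∀ i, ContDiffAt ℝ ∞ (fun q : (Fin (n + 1) → ℂ) × ℂ =>
      c * Real.log (‖σ q.1 (famAt (e i) q.2)‖ ^ 2 + ε ^ 2 * Ssum e (σ q.1))) p :=
    fun i => contDiffAt_const.mul (hT i).1
  have s1' : ContDiffAt ℝ ∞ (fun q : (Fin (n + 1) → ℂ) × ℂ =>
      ∑ i, c * Real.log (‖σ q.1 (famAt (e i) q.2)‖ ^ 2 + ε ^ 2 * Ssum e (σ q.1))) p :=
    ContDiffAt.sum fun i _ => s1 i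
  have s2 : ContDiffAt ℝ ∞ (fun q : (Fin (n + 1) → ℂ) × ℂ =>
      (1 / r : ℝ) * Real.log (‖σ q.1 G‖ ^ 2)) p := contDiffAt_const.mul hGG.1
  have s3 := hS.1
  have s4 : ContDiffAt ℝ ∞ (fun q : (Fin (n + 1) → ℂ) × ℂ =>
      τ * Real.log (1 + ‖q.2‖ ^ 2 / ε ^ 2)) p := contDiffAt_const.mul (hL 0).1
  have s12 := s1'.add s2
  have s123 := s12.add s3
  refine ⟨s123.add s4, fun a => ?_⟩
  have e1 : leviF (bE n) (PhiE G r e c ε τ σ) p a =
      leviF (bE n) (fun q : (Fin (n + 1) → ℂ) × ℂ =>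
        (∑ i, c * Real.log (‖σ q.1 (famAt (e i) q.2)‖ ^ 2 + ε ^ 2 * Ssum e (σ q.1))) +
        (1 / r : ℝ) * Real.log (‖σ q.1 G‖ ^ 2) + Real.log (‖q.2‖ ^ 2)) p a +
      leviF (bE n) (fun q : (Fin (n + 1) → ℂ) × ℂ =>
        τ * Real.log (1 + ‖q.2‖ ^ 2 / ε ^ 2)) p a :=
    leviF_add (bE n) _ _ p s123 s4 a
  have e2 := leviF_add (bE n) _ _ p s12 s3 a
  have e3 := leviF_add (bE n) _ _ p s1' s2 a
  have e4 := leviF_sum (bE n) _ p s1 a
  have e5 := fun i => leviF_const_mul (bE n) c _ p (hT i).1 a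
  have e6 := leviF_const_mul (bE n) (1 / r : ℝ) _ p hGG.1 a
  have e7 := leviF_const_mul (bE n) τ _ p (hL 0).1 a
  have e8 := (hL a).2
  have p1 : 0 ≤ ∑ i, leviF (bE n) (fun q : (Fin (n + 1) → ℂ) × ℂ =>
      c * Real.log (‖σ q.1 (famAt (e i) q.2)‖ ^ 2 + ε ^ 2 * Ssum e (σ q.1))) p a := by
    refine Finset.sum_nonneg fun i _ => ?_
    rw [e5 i]
    exact mul_nonneg hc ((hT i).2 a)
  have p2 : 0 ≤ (1 / r : ℝ) * leviF (bE n) (fun q : (Fin (n + 1) → ℂ) × ℂ =>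
      Real.log (‖σ q.1 G‖ ^ 2)) p a := mul_nonneg (by positivity) (hGG.2 a)
  have p3 := hS.2 a
  rw [e1, e2, e3, e4, e6, e7, e8]
  have e9 : τ * (ε ^ 2 / (ε ^ 2 + ‖p.2‖ ^ 2) ^ 2 * ‖a (Sum.inr ())‖ ^ 2) =
      τ * ε ^ 2 / (ε ^ 2 + ‖p.2‖ ^ 2) ^ 2 * ‖a (Sum.inr ())‖ ^ 2 := by ring
  rw [e9]
  linarith

end Pool.Agent.Lib_KF

end

/-! ### from `Lib_KF.RHmet` -/

section

/-! RS07: the metric `Hmat` with its curvature bound. -/

open MeasureTheory Complex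
open scoped ENNReal NNReal ContDiff ComplexConjugate

namespace Pool.Agent.Lib_KF

open Pool.Agent.Lib_GD GPn

private theorem rhmet_ip {D K : ℕ} (H : Fin D → Fin D → ℂ) (w : Fin K → ℝ)
    (t : Fin K → Fin D → ℂ) (h : ∀ a c, H a c = ∑ i, (w i : ℂ) * conj (t i a) * t i c)
    (u : Fin D → ℂ) : (ip H u u).re = ∑ i, w i * ‖∑ a, t i a * u a‖ ^ 2 := by
  have h1 : ip H u u = ∑ i, ((w i * ‖∑ a, t i a * u a‖ ^ 2 : ℝ) : ℂ) := by
    have h2 : ∀ i, ((w i * ‖∑ a, t i a * u a‖ ^ 2 : ℝ) : ℂ) =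
        ∑ a, ∑ c, conj (u a) * ((w i : ℂ) * conj (t i a) * t i c) * u c := by
      intro i
      rw [ofReal_mul, ← normSq_eq_norm_sq, ← mul_conj, map_sum, Finset.sum_mul_sum, Finset.mul_sum,
        Finset.sum_comm]
      refine Finset.sum_congr rfl fun a _ => ?_
      rw [Finset.mul_sum]
      refine Finset.sum_congr rfl fun c _ => ?_
      rw [map_mul]
      ring
    simp only [h2]
    unfold ip
    simp only [h, Finset.mul_sum, Finset.sum_mul]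
    rw [Finset.sum_comm (s := (Finset.univ : Finset (Fin K)))]
    refine Finset.sum_congr rfl fun a _ => ?_
    rw [Finset.sum_comm (s := (Finset.univ : Finset (Fin K)))]
  rw [h1, re_sum]
  simp only [ofReal_re]

variable {R : Type} [CommRing R] [Algebra ℂ R] {𝒜 : ℕ → Submodule ℂ R} {n k M B : ℕ}
  {x : Fin (n + 1) → R}

/-- the local form of the metric -/
private theorem rhmet_local (S : Sheets 𝒜 x k) (G : R) (r : ℕ) (hr : 1 ≤ r)
    (e : Fin M → Fin (B + 1) → R) (hg : GoodSheets S G e) (c ε τ : ℝ)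
    (hc : 0 ≤ c) (hε : 0 < ε) (hτ : 0 ≤ τ) (p₀ : (Fin (n + 1) → ℂ) × ℂ) (hp₀ : p₀ ∈ WW S) :
    ∃ (t : Fin (k + 1) → Fin (k + 1) → (Fin (n + 1) → ℂ) × ℂ → ℂ)
      (Φ : Fin (k + 1) → (Fin (n + 1) → ℂ) × ℂ → ℝ),
      (∀ i a, AnalyticAt ℂ (t i a) p₀) ∧ (∀ i, ContDiffAt ℝ ∞ (Φ i) p₀) ∧
      (∀ᶠ p in nhds p₀, ∀ a c', Hmat S G r e c ε τ p a c' =
        ∑ i, (Real.exp (-Φ i p) : ℂ) * conj (t i a p) * t i c' p) ∧
      (∀ u : Fin (k + 1) → ℂ, (∀ i, ∑ a, t i a p₀ * u a = 0) → u = 0) ∧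
      (∀ i, ∀ a : Fin (n + 1) ⊕ Unit → ℂ, τ * ε ^ 2 / (ε ^ 2 + ‖p₀.2‖ ^ 2) ^ 2 *
        ‖a (Sum.inr ())‖ ^ 2 ≤ leviF (bE n) (Φ i) p₀ a) ∧
      ∀ u, nE S G r e c ε τ p₀ u =
        ∑ i, ENNReal.ofReal (Real.exp (-Φ i p₀) * ‖∑ a, t i a p₀ * u a‖ ^ 2) := by
  obtain ⟨hp1, hp2⟩ := hp₀
  obtain ⟨δ, σ, hδ, h1, h2, h3, h4⟩ := S.local_sections p₀.1 hp1.2
  have hmem : p₀.1 ∈ Metric.ball p₀.1 δ := Metric.mem_ball_self hδ
  have hgood : ∀ y ∈ Metric.ball p₀.1 δ, ∀ i, σ i y G ≠ 0 ∧ ∀ j, σ i y (e j 0) ≠ 0 := by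
    intro y hy i
    refine hg y (h1 y hy) (σ i y) ?_
    rw [h3 y hy]
    exact ⟨i, rfl⟩
  have hev : ∀ᶠ p : (Fin (n + 1) → ℂ) × ℂ in nhds p₀, p.1 ∈ Metric.ball p₀.1 δ ∧ p.2 ≠ 0 := by
    refine Filter.Eventually.and ?_ ?_
    · exact continuous_fst.continuousAt.eventually_mem (Metric.ball_mem_nhds _ hδ)
    · exact continuous_snd.continuousAt.eventually_ne hp2
  refine ⟨fun i a p => σ i p.1 (S.β a), fun i => PhiE G r e c ε τ (σ i), ?_, ?_, ?_, ?_, ?_, ?_⟩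
  · intro i a
    exact (h4 i (S.β a) p₀.1 hmem).comp_of_eq analyticAt_fst rfl
  · intro i
    exact (levi_PhiE G r hr e c ε τ hc hε hτ (σ i) p₀ (fun f => h4 i f p₀.1 hmem) hp2
      (hgood _ hmem i).1 (hgood _ hmem i).2).1
  · filter_upwards [hev] with p hp a c'
    unfold Hmat
    rw [finsum_fib p.1 (fun i => σ i p.1) (h2 p.1 hp.1) (h3 p.1 hp.1)
      (fun ν => ((wph G r e c ε ν p.2 * ws ε τ p.2 : ℝ) : ℂ) * conj (ν (S.β a)) * ν (S.β c'))]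
    refine Finset.sum_congr rfl fun i _ => ?_
    rw [exp_PhiE G r e c ε τ hε (σ i) p hp.2 (hgood _ hp.1 i).1 (hgood _ hp.1 i).2]
  · intro u hu
    exact S.inv_of_enum p₀.1 hp1.2 (fun i => σ i p₀.1) (h3 _ hmem) u hu
  · intro i a
    exact (levi_PhiE G r hr e c ε τ hc hε hτ (σ i) p₀ (fun f => h4 i f p₀.1 hmem) hp2
      (hgood _ hmem i).1 (hgood _ hmem i).2).2 a
  · intro u
    unfold nE
    rw [tsum_fib p₀.1 (fun i => σ i p₀.1) (h2 _ hmem) (h3 _ hmem)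
      (fun ν => ENNReal.ofReal (wph G r e c ε ν p₀.2 * ws ε τ p₀.2 *
        ‖∑ a, ν (S.β a) * u a‖ ^ 2))]
    refine Finset.sum_congr rfl fun i _ => ?_
    rw [exp_PhiE G r e c ε τ hε (σ i) p₀ hp2 (hgood _ hmem i).1 (hgood _ hmem i).2]

theorem exists_metric (S : Sheets 𝒜 x k) (G : R) (r : ℕ) (hr : 1 ≤ r)
    (e : Fin M → Fin (B + 1) → R) (hg : GoodSheets S G e) (c ε τ : ℝ)
    (hc : 0 ≤ c) (hε : 0 < ε) (hτ : 0 ≤ τ) :
    ∃ Mt : HMet (WW S) (bE n) (k + 1), Mt.H = Hmat S G r e c ε τ ∧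
      (∀ p ∈ WW S, ∀ u, ENNReal.ofReal (Mt.nsq p u) = nE S G r e c ε τ p u) ∧
      ∀ p ∈ WW S, ∀ f : Fin (n + 1) ⊕ Unit → Fin (k + 1) → ℂ,
        τ * ε ^ 2 / (ε ^ 2 + ‖p.2‖ ^ 2) ^ 2 * Mt.nsq p (f (Sum.inr ())) ≤ Mt.curv p f := by
  have hloc := rhmet_local S G r hr e hg c ε τ hc hε hτ
  have hopen : IsOpen (WW S) := isOpen_WW S
  have hip : ∀ p ∈ WW S, ∃ (t : Fin (k + 1) → Fin (k + 1) → ℂ) (w : Fin (k + 1) → ℝ),
      (∀ i, 0 < w i) ∧ (∀ u : Fin (k + 1) → ℂ, (∀ i, ∑ a, t i a * u a = 0) → u = 0) ∧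
      (∀ a c', Hmat S G r e c ε τ p a c' = ∑ i, (w i : ℂ) * conj (t i a) * t i c') ∧
      ∀ u, nE S G r e c ε τ p u = ∑ i, ENNReal.ofReal (w i * ‖∑ a, t i a * u a‖ ^ 2) := by
    intro p hp
    obtain ⟨t, Φ, -, -, h3, h4, -, h6⟩ := hloc p hp
    exact ⟨fun i a => t i a p, fun i => Real.exp (-Φ i p), fun i => Real.exp_pos _, h4,
      h3.self_of_nhds, h6⟩
  obtain ⟨Mt, hMt⟩ := exists_hmet hopen (bE n) (Hmat S G r e c ε τ)
    (by
      intro a c' p hp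
      obtain ⟨t, Φ, h1, h2, h3, -, -, -⟩ := hloc p hp
      have h7 : (fun q => Hmat S G r e c ε τ q a c') =ᶠ[nhds p]
          fun q => ∑ i, (Real.exp (-Φ i q) : ℂ) * conj (t i a q) * t i c' q := by
        filter_upwards [h3] with q hq
        exact hq a c'
      have h8 : ∀ i a, ContDiffAt ℝ ∞ (t i a) p := fun i a =>
        (h1 i a).contDiffAt.restrict_scalars ℝ
      refine ContDiffAt.contDiffWithinAt ?_
      refine ContDiffAt.congr_of_eventuallyEq ?_ h7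
      refine ContDiffAt.sum fun i _ => ?_
      refine ((?_ : ContDiffAt ℝ ∞ (fun q => (Real.exp (-Φ i q) : ℂ)) p).mul
        (conjCLE.contDiff.contDiffAt.comp p (h8 i a))).mul (h8 i c')
      exact ofRealCLM.contDiff.contDiffAt.comp p (h2 i).neg.exp)
    (by
      intro p hp a c'
      obtain ⟨t, w, -, -, h3, -⟩ := hip p hp
      rw [h3 a c', h3 c' a, map_sum]
      refine Finset.sum_congr rfl fun i _ => ?_
      simp only [map_mul, conj_ofReal, conj_conj]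
      ring)
    (by
      intro p hp u hu
      obtain ⟨t, w, hw, h2, h3, -⟩ := hip p hp
      rw [rhmet_ip _ w t h3 u]
      have hex : ∃ i, ∑ a, t i a * u a ≠ 0 := by
        by_contra hcon
        push Not at hcon
        exact hu (h2 u hcon)
      obtain ⟨i, hi⟩ := hex
      refine Finset.sum_pos' (fun j _ => mul_nonneg (hw j).le (by positivity)) ⟨i, Finset.mem_univ i, ?_⟩
      exact mul_pos (hw i) (by positivity))
  refine ⟨Mt, hMt, ?_, ?_⟩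
  · intro p hp u
    obtain ⟨t, w, hw, -, h3, h4⟩ := hip p hp
    unfold HMet.nsq
    rw [hMt, rhmet_ip _ w t h3 u, h4 u,
      ENNReal.ofReal_sum_of_nonneg fun j _ => mul_nonneg (hw j).le (by positivity)]
  · intro p hp f
    obtain ⟨t, Φ, h1, h2, h3, h4, h5, -⟩ := hloc p hp
    refine Mt.curv_ge hopen p hp t Φ h1 h2 ?_ h4 _ (Sum.inr ()) h5 f
    rw [hMt]
    exact h3

end Pool.Agent.Lib_KF

end

/-! ### from `Lib_KF.RBound` -/

section

/-! RS08: estimates of `J`. -/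

open MeasureTheory Complex
open scoped ENNReal NNReal ContDiff ComplexConjugate

namespace Pool.Agent.Lib_KF

open Pool.Agent.Lib_GD GPn

variable {R : Type} [CommRing R] [Algebra ℂ R] {𝒜 : ℕ → Submodule ℂ R} {n k M B : ℕ}
  {x : Fin (n + 1) → R}

private theorem RBound_isOpen (h : MvPolynomial (Fin (n + 1)) ℂ) : IsOpen (W0 h) := by
  have h1 : W0 h = {y | ‖y‖ < 1} ∩ {y | MvPolynomial.eval y h ≠ 0} := rfl
  rw [h1]
  exact (isOpen_lt continuous_norm continuous_const).inter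
    (isOpen_ne_fun (MvPolynomial.continuous_eval h) continuous_const)

private theorem RBound_subset (h : MvPolynomial (Fin (n + 1)) ℂ) :
    W0 h ⊆ Metric.ball (0 : Fin (n + 1) → ℂ) 1 := by
  intro y hy
  simpa [Metric.mem_ball, dist_zero_right] using hy.1

private theorem RBound_nonempty (h : MvPolynomial (Fin (n + 1)) ℂ) (hh : h ≠ 0) :
    (W0 h).Nonempty := by
  by_contra hne
  apply hh
  refine MvPolynomial.funext_set (fun _ => Metric.ball (0 : ℂ) 1)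
    (fun _ => infinite_of_mem_nhds (0 : ℂ) (Metric.ball_mem_nhds _ one_pos)) ?_
  intro y hy
  rw [map_zero]
  by_contra h0
  refine hne ⟨y, ?_, h0⟩
  rw [pi_norm_lt_iff one_pos]
  intro i
  simpa [Metric.mem_ball, dist_zero_right] using hy i (Set.mem_univ i)

private theorem RBound_fam (e : Fin (B + 1) → R) (s : ℂ) (ν : R →ₐ[ℂ] ℂ) :
    ν (famAt e s) = ∑ l : Fin (B + 1), s ^ (l : ℕ) * ν (e l) := by
  rw [famAt, map_sum]
  refine Finset.sum_congr rfl fun l _ => ?_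
  rw [map_smul, smul_eq_mul]

/-- the square of the value at `0` in terms of the value at `s` -/
private theorem RBound_sq (a : Fin (B + 1) → ℂ) (s : ℂ) (ε T : ℝ) (hs : ‖s‖ ≤ ε) (hε1 : ε ≤ 1)
    (hε : 0 ≤ ε) (hT : ∑ l, ‖a l‖ ^ 2 ≤ T) :
    ‖a 0‖ ^ 2 ≤ 2 * (1 + B : ℝ) * (‖∑ l : Fin (B + 1), s ^ (l : ℕ) * a l‖ ^ 2 + ε ^ 2 * T) := by
  have h1 : a 0 = ∑ l : Fin (B + 1), s ^ (l : ℕ) * a l -
      ∑ l : Fin B, s ^ ((l : ℕ) + 1) * a l.succ := by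
    rw [Fin.sum_univ_succ]
    simp
  have h2 : ‖∑ l : Fin B, s ^ ((l : ℕ) + 1) * a l.succ‖ ≤ ε * ∑ l : Fin B, ‖a l.succ‖ := by
    refine (norm_sum_le _ _).trans ?_
    rw [Finset.mul_sum]
    refine Finset.sum_le_sum fun l _ => ?_
    rw [norm_mul, norm_pow]
    refine mul_le_mul_of_nonneg_right ?_ (norm_nonneg _)
    calc ‖s‖ ^ ((l : ℕ) + 1) ≤ ε ^ ((l : ℕ) + 1) := pow_le_pow_left₀ (norm_nonneg _) hs _
      _ = ε ^ (l : ℕ) * ε := pow_succ _ _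
      _ ≤ 1 * ε := mul_le_mul_of_nonneg_right (pow_le_one₀ hε hε1) hε
      _ = ε := one_mul _
  have h3 : (∑ l : Fin B, ‖a l.succ‖) ^ 2 ≤ B * ∑ l : Fin B, ‖a l.succ‖ ^ 2 := by
    have := sq_sum_le_card_mul_sum_sq (s := (Finset.univ : Finset (Fin B)))
      (f := fun l => ‖a l.succ‖)
    simpa using this
  have h4 : ∑ l : Fin B, ‖a l.succ‖ ^ 2 ≤ T := by
    refine le_trans ?_ hT
    rw [Fin.sum_univ_succ]
    have := sq_nonneg ‖a 0‖
    linarith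
  have h5 : ‖a 0‖ ≤ ‖∑ l : Fin (B + 1), s ^ (l : ℕ) * a l‖ + ε * ∑ l : Fin B, ‖a l.succ‖ := by
    calc ‖a 0‖ = ‖∑ l : Fin (B + 1), s ^ (l : ℕ) * a l -
        ∑ l : Fin B, s ^ ((l : ℕ) + 1) * a l.succ‖ := by rw [← h1]
      _ ≤ _ := (norm_sub_le _ _).trans (add_le_add le_rfl h2)
  set p := ‖∑ l : Fin (B + 1), s ^ (l : ℕ) * a l‖ with hp
  set q := ∑ l : Fin B, ‖a l.succ‖ with hq
  have hp0 : 0 ≤ p := norm_nonneg _
  have hq0 : 0 ≤ q := Finset.sum_nonneg fun _ _ => norm_nonneg _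
  have hT0 : 0 ≤ T := le_trans (Finset.sum_nonneg fun _ _ => sq_nonneg _) h4
  have hB0 : (0 : ℝ) ≤ B := Nat.cast_nonneg _
  have h6 : ‖a 0‖ ^ 2 ≤ (p + ε * q) ^ 2 := pow_le_pow_left₀ (norm_nonneg _) h5 2
  have h7 : (p + ε * q) ^ 2 ≤ 2 * p ^ 2 + 2 * (ε ^ 2 * q ^ 2) := by
    nlinarith [sq_nonneg (p - ε * q)]
  have h8 : q ^ 2 ≤ B * T := h3.trans (mul_le_mul_of_nonneg_left h4 hB0)
  have h9 : ε ^ 2 * q ^ 2 ≤ ε ^ 2 * (B * T) := mul_le_mul_of_nonneg_left h8 (sq_nonneg _)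
  have h10 : 0 ≤ ε ^ 2 * T := mul_nonneg (sq_nonneg _) hT0
  have h11 : 0 ≤ B * p ^ 2 := mul_nonneg hB0 (sq_nonneg _)
  nlinarith

private theorem RBound_Ssum_nonneg (e : Fin M → Fin (B + 1) → R) (ν : R →ₐ[ℂ] ℂ) :
    0 ≤ Ssum e ν :=
  Finset.sum_nonneg fun _ _ => Finset.sum_nonneg fun _ _ => sq_nonneg _

private theorem RBound_Ssum_ge (e : Fin M → Fin (B + 1) → R) (ν : R →ₐ[ℂ] ℂ) (i : Fin M) :
    ∑ l, ‖ν (e i l)‖ ^ 2 ≤ Ssum e ν :=
  Finset.single_le_sum (f := fun i => ∑ l, ‖ν (e i l)‖ ^ 2)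
    (fun _ _ => Finset.sum_nonneg fun _ _ => sq_nonneg _) (Finset.mem_univ i)

/-- the factors of the weight are positive -/
private theorem RBound_pos (e : Fin M → Fin (B + 1) → R) (ν : R →ₐ[ℂ] ℂ) (i : Fin M) (ε : ℝ)
    (hε : 0 < ε) (s : ℂ) (h0 : ν (e i 0) ≠ 0) :
    0 < ‖ν (famAt (e i) s)‖ ^ 2 + ε ^ 2 * Ssum e ν := by
  have h1 : 0 < ‖ν (e i 0)‖ ^ 2 := pow_pos (norm_pos_iff.2 h0) 2
  have h2 : ‖ν (e i 0)‖ ^ 2 ≤ ∑ l, ‖ν (e i l)‖ ^ 2 :=
    Finset.single_le_sum (f := fun l => ‖ν (e i l)‖ ^ 2) (fun _ _ => sq_nonneg _)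
      (Finset.mem_univ 0)
  have h3 : 0 < Ssum e ν := h1.trans_le (h2.trans (RBound_Ssum_ge e ν i))
  have h4 : 0 < ε ^ 2 * Ssum e ν := mul_pos (pow_pos hε 2) h3
  have h5 := sq_nonneg ‖ν (famAt (e i) s)‖
  linarith

/-- `J(s) ≤ C I_0` for `|s| ≤ ε ≤ 1`. -/
theorem JJ_le (S : Sheets 𝒜 x k) (G : R) (r : ℕ) (e : Fin M → Fin (B + 1) → R)
    (hg : GoodSheets S G e) (c : ℝ) (hc : 0 ≤ c) (ε : ℝ) (hε : 0 < ε) (hε1 : ε ≤ 1) (s : ℂ)
    (hs : ‖s‖ ≤ ε) :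
    JJ S G r e c ε s ≤ ENNReal.ofReal ((2 * (1 + B : ℝ)) ^ (c * M)) *
      intI x G r (fun i => e i 0) c := by
  have hB : (0 : ℝ) < 2 * (1 + B : ℝ) := by positivity
  have key : ∀ y ∈ W0 S.h, ∑' ν : fib x y, ENNReal.ofReal (wph G r e c ε ν.1 s) ≤
      ENNReal.ofReal ((2 * (1 + B : ℝ)) ^ (c * M)) * ∑' ν : fib x y,
        ENNReal.ofReal ((∏ i, ‖ν.1 (e i 0)‖ ^ (-2 * c)) * ‖ν.1 G‖ ^ (-2 / (r : ℝ))) := by
    intro y hy
    rw [← ENNReal.tsum_mul_left]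
    refine ENNReal.tsum_le_tsum fun ν => ?_
    rw [← ENNReal.ofReal_mul (Real.rpow_nonneg hB.le _)]
    refine ENNReal.ofReal_le_ofReal ?_
    rw [wph, ← mul_assoc]
    refine mul_le_mul_of_nonneg_right ?_ (Real.rpow_nonneg (norm_nonneg _) _)
    have hprod : (2 * (1 + B : ℝ)) ^ (c * M) * ∏ i : Fin M, ‖ν.1 (e i 0)‖ ^ (-2 * c) =
        ∏ i : Fin M, ((2 * (1 + B : ℝ)) ^ c * ‖ν.1 (e i 0)‖ ^ (-2 * c)) := by
      rw [Finset.prod_mul_distrib, Finset.prod_const, Finset.card_univ, Fintype.card_fin,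
        Real.rpow_mul hB.le, Real.rpow_natCast]
    rw [hprod]
    refine Finset.prod_le_prod (fun i _ => Real.rpow_nonneg (add_nonneg (sq_nonneg _)
      (mul_nonneg (sq_nonneg _) (RBound_Ssum_nonneg e ν.1))) _) fun i _ => ?_
    have h0 : ν.1 (e i 0) ≠ 0 := (hg y hy.2 ν.1 ν.2).2 i
    have h1 : 0 < ‖ν.1 (e i 0)‖ := norm_pos_iff.2 h0
    have h2 := RBound_sq (fun l => ν.1 (e i l)) s ε (Ssum e ν.1) hs hε1 hε.le
      (RBound_Ssum_ge e ν.1 i)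
    rw [← RBound_fam] at h2
    have h3 : 0 < (2 * (1 + B : ℝ))⁻¹ * ‖ν.1 (e i 0)‖ ^ 2 := by positivity
    have h4 : (2 * (1 + B : ℝ))⁻¹ * ‖ν.1 (e i 0)‖ ^ 2 ≤
        ‖ν.1 (famAt (e i) s)‖ ^ 2 + ε ^ 2 * Ssum e ν.1 := by
      rw [inv_mul_le_iff₀ hB]
      exact h2
    calc (‖ν.1 (famAt (e i) s)‖ ^ 2 + ε ^ 2 * Ssum e ν.1) ^ (-c)
        ≤ ((2 * (1 + B : ℝ))⁻¹ * ‖ν.1 (e i 0)‖ ^ 2) ^ (-c) :=
          Real.rpow_le_rpow_of_nonpos h3 h4 (by linarith)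
      _ = (2 * (1 + B : ℝ)) ^ c * ‖ν.1 (e i 0)‖ ^ (-2 * c) := by
          rw [Real.mul_rpow (by positivity) (by positivity), Real.rpow_neg (by positivity),
            Real.inv_rpow hB.le, inv_inv, ← Real.rpow_natCast, ← Real.rpow_mul h1.le]
          congr 2
          push_cast
          ring
  calc JJ S G r e c ε s
      ≤ ∫⁻ y in W0 S.h, ENNReal.ofReal ((2 * (1 + B : ℝ)) ^ (c * M)) * ∑' ν : fib x y,
        ENNReal.ofReal ((∏ i, ‖ν.1 (e i 0)‖ ^ (-2 * c)) * ‖ν.1 G‖ ^ (-2 / (r : ℝ))) :=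
        setLIntegral_mono' (RBound_isOpen S.h).measurableSet key
    _ = ENNReal.ofReal ((2 * (1 + B : ℝ)) ^ (c * M)) * ∫⁻ y in W0 S.h, ∑' ν : fib x y,
        ENNReal.ofReal ((∏ i, ‖ν.1 (e i 0)‖ ^ (-2 * c)) * ‖ν.1 G‖ ^ (-2 / (r : ℝ))) :=
        lintegral_const_mul' _ _ ENNReal.ofReal_ne_top
    _ ≤ _ := by
        gcongr
        exact lintegral_mono_set (RBound_subset S.h)

/-- Elements of `ℂ[x]` are bounded on the points over the unit polydisc. -/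
private theorem RBound_coeff (a : R) (ha : a ∈ Algebra.adjoin ℂ (Set.range x)) :
    ∃ C : ℝ≥0, ∀ y : Fin (n + 1) → ℂ, ‖y‖ ≤ 1 → ∀ ν ∈ fib x y, ‖ν a‖₊ ≤ C := by
  rw [Algebra.adjoin_range_eq_range_aeval] at ha
  obtain ⟨P, rfl⟩ := ha
  obtain ⟨C, hC⟩ := (isCompact_closedBall (0 : Fin (n + 1) → ℂ) 1).exists_bound_of_continuousOn
    (MvPolynomial.continuous_eval P).continuousOn
  refine ⟨⟨max C 0, le_max_right _ _⟩, ?_⟩
  intro y hy ν hν
  have h1 : ν (MvPolynomial.aeval x P) = MvPolynomial.eval y P := by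
    have h2 : ν.comp (MvPolynomial.aeval x) = MvPolynomial.aeval y := by
      apply MvPolynomial.algHom_ext
      intro b
      simp only [AlgHom.comp_apply, MvPolynomial.aeval_X]
      exact hν b
    have h3 := DFunLike.congr_fun h2 P
    rw [AlgHom.comp_apply] at h3
    rw [h3, MvPolynomial.aeval_eq_eval]
  have h4 := hC y (by simpa using hy)
  rw [← NNReal.coe_le_coe, coe_nnnorm]
  change ‖ν (MvPolynomial.aeval x P)‖ ≤ max C 0
  rw [h1]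
  exact h4.trans (le_max_left _ _)

/-- Elements of `R` are bounded on the points over the unit polydisc. -/
theorem exists_bound [GradedAlgebra 𝒜] {r d : ℕ} {G : R} (h : IsFano 𝒜 n r d x G) (f : R) :
    ∃ C : ℝ, 0 < C ∧ ∀ y : Fin (n + 1) → ℂ, ‖y‖ ≤ 1 → ∀ ν ∈ fib x y, ‖ν f‖ ≤ C := by
  have := h.x_finite
  obtain ⟨p, hp, hpf⟩ := Algebra.IsIntegral.isIntegral
    (R := Algebra.adjoin ℂ (Set.range x)) (A := R) f
  choose C hC using fun i => RBound_coeff (x := x) (p.coeff i).1 (p.coeff i).2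
  refine ⟨(∑ i ∈ Finset.range p.natDegree, (C i : ℝ)) + 1,
    add_pos_of_nonneg_of_pos (Finset.sum_nonneg fun _ _ => NNReal.coe_nonneg _) one_pos, ?_⟩
  intro y hy ν hν
  set g : Algebra.adjoin ℂ (Set.range x) →+* ℂ :=
    (ν : R →+* ℂ).comp (algebraMap (Algebra.adjoin ℂ (Set.range x)) R) with hgdef
  have hg : ∀ a, g a = ν a.1 := fun a => rfl
  have hm : (p.map g).Monic := hp.map g
  have hroot : (p.map g).IsRoot (ν f) := by
    rw [Polynomial.IsRoot.def, Polynomial.eval_map]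
    have h1 := Polynomial.hom_eval₂ p (algebraMap (Algebra.adjoin ℂ (Set.range x)) R)
      (ν : R →+* ℂ) f
    rw [hpf, map_zero] at h1
    exact h1.symm
  have h2 := Polynomial.IsRoot.norm_lt_cauchyBound hm.ne_zero hroot
  have h3 : (p.map g).cauchyBound ≤ (∑ i ∈ Finset.range p.natDegree, C i) + 1 := by
    unfold Polynomial.cauchyBound
    rw [hm.leadingCoeff, nnnorm_one, div_one]
    refine add_le_add ?_ le_rfl
    refine Finset.sup_le fun i hi => ?_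
    rw [Polynomial.coeff_map, hg]
    rw [hp.natDegree_map] at hi
    exact (hC i y hy ν hν).trans (Finset.single_le_sum (f := C) (fun _ _ => zero_le) hi)
  have h4 : ‖ν f‖₊ ≤ (∑ i ∈ Finset.range p.natDegree, C i) + 1 := h2.le.trans h3
  have h5 : ((‖ν f‖₊ : ℝ≥0) : ℝ) ≤ (((∑ i ∈ Finset.range p.natDegree, C i) + 1 : ℝ≥0) : ℝ) :=
    NNReal.coe_le_coe.2 h4
  push_cast at h5
  exact h5

/-- The weight is bounded below on the polydisc. -/
theorem wph_ge [GradedAlgebra 𝒜] {r d : ℕ} {G : R} (h : IsFano 𝒜 n r d x G)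
    (e : Fin M → Fin (B + 1) → R) (c : ℝ) (hc : 0 ≤ c) (ρ₀ : ℝ) :
    ∃ c₀ : ℝ, 0 < c₀ ∧ ∀ (ε : ℝ) (s : ℂ), 0 < ε → ε ≤ 1 → ‖s‖ ≤ ρ₀ → ∀ y : Fin (n + 1) → ℂ,
      ‖y‖ ≤ 1 → ∀ ν ∈ fib x y, ν G ≠ 0 → (∀ i, ν (e i 0) ≠ 0) →
        c₀ * ‖ν G‖ ^ (-2 / (r : ℝ)) ≤ wph G r e c ε ν s ∧ c₀ ≤ wph G r e c ε ν s := by
  choose C hC0 hC using fun i l => exists_bound h (e i l)
  obtain ⟨CG, hCG0, hCG⟩ := exists_bound h G
  set T : ℝ := ∑ i, ∑ l, C i l ^ 2 with hT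
  set D : ℝ := 1 + ∑ i, (∑ l : Fin (B + 1), |ρ₀| ^ (l : ℕ) * C i l) ^ 2 + T with hD
  have hT0 : 0 ≤ T := Finset.sum_nonneg fun _ _ => Finset.sum_nonneg fun _ _ => sq_nonneg _
  have hS0 : 0 ≤ ∑ i, (∑ l : Fin (B + 1), |ρ₀| ^ (l : ℕ) * C i l) ^ 2 :=
    Finset.sum_nonneg fun _ _ => sq_nonneg _
  have hD0 : 0 < D := by linarith
  set c1 : ℝ := (D ^ (-c)) ^ M with hc1
  have hc10 : 0 < c1 := pow_pos (Real.rpow_pos_of_pos hD0 _) _
  have hCGp : 0 < CG ^ (-2 / (r : ℝ)) := Real.rpow_pos_of_pos hCG0 _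
  have hexp : -2 / (r : ℝ) ≤ 0 := div_nonpos_of_nonpos_of_nonneg (by norm_num) (Nat.cast_nonneg _)
  refine ⟨min c1 (c1 * CG ^ (-2 / (r : ℝ))), lt_min hc10 (mul_pos hc10 hCGp), ?_⟩
  intro ε s hε hε1 hs y hy ν hν hG he
  have hGp : 0 < ‖ν G‖ ^ (-2 / (r : ℝ)) := Real.rpow_pos_of_pos (norm_pos_iff.2 hG) _
  have hGle : CG ^ (-2 / (r : ℝ)) ≤ ‖ν G‖ ^ (-2 / (r : ℝ)) :=
    Real.rpow_le_rpow_of_nonpos (norm_pos_iff.2 hG) (hCG y hy ν hν) hexp
  have hSs : Ssum e ν ≤ T :=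
    Finset.sum_le_sum fun i _ => Finset.sum_le_sum fun l _ =>
      pow_le_pow_left₀ (norm_nonneg _) (hC i l y hy ν hν) 2
  have hfac : ∀ i, ‖ν (famAt (e i) s)‖ ^ 2 + ε ^ 2 * Ssum e ν ≤ D := by
    intro i
    have h1 : ‖ν (famAt (e i) s)‖ ≤ ∑ l : Fin (B + 1), |ρ₀| ^ (l : ℕ) * C i l := by
      rw [RBound_fam]
      refine (norm_sum_le _ _).trans (Finset.sum_le_sum fun l _ => ?_)
      rw [norm_mul, norm_pow]
      exact mul_le_mul (pow_le_pow_left₀ (norm_nonneg _) (hs.trans (le_abs_self _)) _)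
        (hC i l y hy ν hν) (norm_nonneg _) (pow_nonneg (abs_nonneg _) _)
    have h2 : ‖ν (famAt (e i) s)‖ ^ 2 ≤
        ∑ i, (∑ l : Fin (B + 1), |ρ₀| ^ (l : ℕ) * C i l) ^ 2 :=
      (pow_le_pow_left₀ (norm_nonneg _) h1 2).trans
        (Finset.single_le_sum (f := fun i => (∑ l : Fin (B + 1), |ρ₀| ^ (l : ℕ) * C i l) ^ 2)
          (fun _ _ => sq_nonneg _) (Finset.mem_univ i))
    have h3 : ε ^ 2 * Ssum e ν ≤ T := by
      calc ε ^ 2 * Ssum e ν ≤ 1 * Ssum e ν :=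
            mul_le_mul_of_nonneg_right (pow_le_one₀ hε.le hε1) (RBound_Ssum_nonneg e ν)
        _ = Ssum e ν := one_mul _
        _ ≤ T := hSs
    linarith
  have hprod : c1 ≤ ∏ i, (‖ν (famAt (e i) s)‖ ^ 2 + ε ^ 2 * Ssum e ν) ^ (-c) := by
    have h1 : c1 = ∏ _i : Fin M, D ^ (-c) := by
      rw [Finset.prod_const, Finset.card_univ, Fintype.card_fin]
    rw [h1]
    exact Finset.prod_le_prod (fun _ _ => (Real.rpow_pos_of_pos hD0 _).le) fun i _ =>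
      Real.rpow_le_rpow_of_nonpos (RBound_pos e ν i ε hε s (he i)) (hfac i) (by linarith)
  have hw : c1 * ‖ν G‖ ^ (-2 / (r : ℝ)) ≤ wph G r e c ε ν s :=
    mul_le_mul_of_nonneg_right hprod hGp.le
  refine ⟨(mul_le_mul_of_nonneg_right (min_le_left _ _) hGp.le).trans hw, ?_⟩
  exact (min_le_right _ _).trans ((mul_le_mul_of_nonneg_left hGle hc10.le).trans hw)

/-- `J(s) ≥ c₁ > 0` for `|s| ≤ 1`. -/
theorem JJ_ge [GradedAlgebra 𝒜] {r d : ℕ} {G : R} (h : IsFano 𝒜 n r d x G) (S : Sheets 𝒜 x k)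
    (e : Fin M → Fin (B + 1) → R) (hg : GoodSheets S G e) (c : ℝ) (hc : 0 ≤ c) :
    ∃ c₁ : ℝ, 0 < c₁ ∧ ∀ (ε : ℝ) (s : ℂ), 0 < ε → ε ≤ 1 → ‖s‖ ≤ 1 →
      ENNReal.ofReal c₁ ≤ JJ S G r e c ε s := by
  obtain ⟨c₀, hc₀, H⟩ := wph_ge h e c hc 1
  have hV0 : volume (W0 S.h) ≠ 0 :=
    ((RBound_isOpen S.h).measure_pos volume (RBound_nonempty S.h S.h_ne)).ne'
  have hV1 : volume (W0 S.h) ≠ ⊤ :=
    ((measure_mono (RBound_subset S.h)).trans_lt Metric.isBounded_ball.measure_lt_top).ne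
  refine ⟨c₀ * (volume (W0 S.h)).toReal, mul_pos hc₀ (ENNReal.toReal_pos hV0 hV1), ?_⟩
  intro ε s hε hε1 hs
  rw [ENNReal.ofReal_mul hc₀.le, ENNReal.ofReal_toReal hV1, ← setLIntegral_const]
  refine setLIntegral_mono' (RBound_isOpen S.h).measurableSet fun y hy => ?_
  have hne : (fib x y).Nonempty := by
    rw [Set.nonempty_iff_ne_empty]
    intro h0
    have h1 := S.card y hy.2
    rw [h0, Set.ncard_empty] at h1
    omega
  obtain ⟨ν, hν⟩ := hne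
  have h2 := (H ε s hε hε1 hs y hy.1.le ν hν (hg y hy.2 ν hν).1 (hg y hy.2 ν hν).2).2
  exact (ENNReal.ofReal_le_ofReal h2).trans
    (ENNReal.le_tsum (f := fun ν : fib x y => ENNReal.ofReal (wph G r e c ε ν.1 s)) ⟨ν, hν⟩)

/-- If `I_0` is finite then so is the integral of `∑ |G| ^ (-2/r)`. -/
theorem intG_ne_top [GradedAlgebra 𝒜] {r d : ℕ} {G : R} (h : IsFano 𝒜 n r d x G)
    (S : Sheets 𝒜 x k) (e : Fin M → Fin (B + 1) → R) (hg : GoodSheets S G e) (c : ℝ)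
    (hc : 0 ≤ c) (hI : intI x G r (fun i => e i 0) c ≠ ⊤) :
    ∫⁻ y in W0 S.h, ∑' ν : fib x y, ENNReal.ofReal (‖ν.1 G‖ ^ (-2 / (r : ℝ))) ≠ ⊤ := by
  choose C hC0 hC using fun i => exists_bound h (e i 0)
  set c1 : ℝ := ∏ i, C i ^ (-2 * c) with hc1
  have hc10 : 0 < c1 := Finset.prod_pos fun i _ => Real.rpow_pos_of_pos (hC0 i) _
  have key : ∀ y ∈ W0 S.h, ∑' ν : fib x y, ENNReal.ofReal (‖ν.1 G‖ ^ (-2 / (r : ℝ))) ≤
      ENNReal.ofReal c1⁻¹ * ∑' ν : fib x y,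
        ENNReal.ofReal ((∏ i, ‖ν.1 (e i 0)‖ ^ (-2 * c)) * ‖ν.1 G‖ ^ (-2 / (r : ℝ))) := by
    intro y hy
    rw [← ENNReal.tsum_mul_left]
    refine ENNReal.tsum_le_tsum fun ν => ?_
    rw [← ENNReal.ofReal_mul (inv_pos.2 hc10).le]
    refine ENNReal.ofReal_le_ofReal ?_
    have h1 : c1 ≤ ∏ i, ‖ν.1 (e i 0)‖ ^ (-2 * c) :=
      Finset.prod_le_prod (fun i _ => (Real.rpow_pos_of_pos (hC0 i) _).le) fun i _ =>
        Real.rpow_le_rpow_of_nonpos (norm_pos_iff.2 ((hg y hy.2 ν.1 ν.2).2 i))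
          (hC i y hy.1.le ν.1 ν.2) (by linarith)
    have h2 : 0 ≤ ‖ν.1 G‖ ^ (-2 / (r : ℝ)) := Real.rpow_nonneg (norm_nonneg _) _
    calc ‖ν.1 G‖ ^ (-2 / (r : ℝ)) = c1⁻¹ * (c1 * ‖ν.1 G‖ ^ (-2 / (r : ℝ))) := by
          rw [← mul_assoc, inv_mul_cancel₀ hc10.ne', one_mul]
      _ ≤ _ := mul_le_mul_of_nonneg_left (mul_le_mul_of_nonneg_right h1 h2) (inv_pos.2 hc10).le
  refine ne_top_of_le_ne_top (ENNReal.mul_ne_top (ENNReal.ofReal_ne_top (r := c1⁻¹)) hI) ?_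
  calc ∫⁻ y in W0 S.h, ∑' ν : fib x y, ENNReal.ofReal (‖ν.1 G‖ ^ (-2 / (r : ℝ)))
      ≤ ∫⁻ y in W0 S.h, ENNReal.ofReal c1⁻¹ * ∑' ν : fib x y,
        ENNReal.ofReal ((∏ i, ‖ν.1 (e i 0)‖ ^ (-2 * c)) * ‖ν.1 G‖ ^ (-2 / (r : ℝ))) :=
        setLIntegral_mono' (RBound_isOpen S.h).measurableSet key
    _ = ENNReal.ofReal c1⁻¹ * ∫⁻ y in W0 S.h, ∑' ν : fib x y,
        ENNReal.ofReal ((∏ i, ‖ν.1 (e i 0)‖ ^ (-2 * c)) * ‖ν.1 G‖ ^ (-2 / (r : ℝ))) :=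
        lintegral_const_mul' _ _ ENNReal.ofReal_ne_top
    _ ≤ _ := by
        gcongr
        exact lintegral_mono_set (RBound_subset S.h)

end Pool.Agent.Lib_KF

end

/-! ### from `Lib_KF.RSol` -/

section

/-! RS10: the holomorphic extension `F` of the section `1`. -/

open MeasureTheory Complex
open scoped ENNReal NNReal ContDiff ComplexConjugate

namespace Pool.Agent.Lib_KF

open Pool.Agent.Lib_GD GPn

variable {R : Type} [CommRing R] [Algebra ℂ R] {𝒜 : ℕ → Submodule ℂ R} [GradedAlgebra 𝒜]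
  {n r d k M B : ℕ} {x : Fin (n + 1) → R} {G : R}

/-- The tuple of the function `cut (|s|²/ε²) · 1`. -/
noncomputable def chiT (k : ℕ) (ε : ℝ) (s : ℂ) (a : Fin (k + 1)) : ℂ :=
  if a = 0 then (cut (‖s‖ ^ 2 / ε ^ 2) : ℂ) else 0

/-! ### the cutoff -/

private theorem rsol_cut_smooth : ContDiff ℝ ∞ cut := by
  unfold cut
  exact Real.smoothTransition.contDiff.comp ((contDiff_const.sub contDiff_id).mul contDiff_const)

private theorem rsol_cut_zero {t : ℝ} (ht : 1 ≤ t) : cut t = 0 := by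
  unfold cut
  exact Real.smoothTransition.zero_of_nonpos (by nlinarith)

private theorem rsol_deriv_zero {t : ℝ} (ht : 1 < t) : deriv cut t = 0 := by
  have h : cut =ᶠ[nhds t] fun _ => 0 := by
    filter_upwards [lt_mem_nhds ht] with y hy
    exact rsol_cut_zero hy.le
  rw [h.deriv_eq]
  simp

private theorem rsol_deriv_bound :
    ∃ C0 : ℝ, 1 ≤ C0 ∧ ∀ t, 0 ≤ t → t ≤ 1 → |deriv cut t| ≤ C0 := by
  have hc : Continuous (deriv cut) := rsol_cut_smooth.continuous_deriv (by simp)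
  obtain ⟨C, hC⟩ := (isCompact_Icc (a := (0 : ℝ)) (b := 1)).exists_bound_of_continuousOn
    hc.continuousOn
  exact ⟨max C 1, le_max_right _ _, fun t h0 h1 => (hC t ⟨h0, h1⟩).trans (le_max_left _ _)⟩

private theorem rsol_chi_smooth (k : ℕ) (ε : ℝ) (a : Fin (k + 1)) :
    ContDiff ℝ ∞ (fun s : ℂ => chiT k ε s a) := by
  unfold chiT
  by_cases ha : a = 0
  · simp only [ha, if_true]
    exact ofRealCLM.contDiff.comp (rsol_cut_smooth.comp ((contDiff_norm_sq ℝ).div_const _))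
  · simp only [ha, if_false]
    exact contDiff_const

/-- `∂/∂s̄` of the cutoff -/
private theorem rsol_dzb_chi (k : ℕ) (ε : ℝ) (s : ℂ) :
    dzb (1 : ℂ) (fun s => chiT k ε s 0) s =
      ((deriv cut (‖s‖ ^ 2 / ε ^ 2) / ε ^ 2 : ℝ) : ℂ) * s := by
  have h1 : HasFDerivAt (fun s : ℂ => ‖s‖ ^ 2) (2 • innerSL ℝ s) s :=
    (hasStrictFDerivAt_norm_sq s).hasFDerivAt
  have h2 : HasDerivAt cut (deriv cut (‖s‖ ^ 2 / ε ^ 2)) (‖s‖ ^ 2 / ε ^ 2) :=
    (rsol_cut_smooth.contDiffAt.differentiableAt (by simp)).hasDerivAt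
  have h3 : HasFDerivAt (fun s : ℂ => ‖s‖ ^ 2 / ε ^ 2) ((ε ^ 2)⁻¹ • (2 • innerSL ℝ s)) s := by
    have := h1.const_smul ((ε ^ 2)⁻¹)
    refine this.congr_of_eventuallyEq (Filter.Eventually.of_forall fun z => ?_)
    simp [div_eq_inv_mul]
  have h4 := h2.comp_hasFDerivAt s h3
  have h5 := (ofRealCLM.hasFDerivAt (x := cut (‖s‖ ^ 2 / ε ^ 2))).comp s h4
  have h6 : HasFDerivAt (fun s => chiT k ε s 0) (ofRealCLM.comp
    (deriv cut (‖s‖ ^ 2 / ε ^ 2) • ((ε ^ 2)⁻¹ • (2 • innerSL ℝ s)))) s := h5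
  have h7 : ∀ v : ℂ, fderiv ℝ (fun s => chiT k ε s 0) s v =
      ((deriv cut (‖s‖ ^ 2 / ε ^ 2) / ε ^ 2 * (2 * (s.re * v.re + s.im * v.im)) : ℝ) : ℂ) := by
    intro v
    rw [h6.fderiv]
    simp only [ContinuousLinearMap.comp_apply, ofRealCLM_apply, smul_apply, smul_eq_mul,
      innerSL_apply_apply, Complex.inner, mul_re, conj_re, conj_im, nsmul_eq_mul]
    congr 1
    push_cast
    ring
  unfold dzb
  rw [h7, h7]
  generalize deriv cut (‖s‖ ^ 2 / ε ^ 2) / ε ^ 2 = q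
  simp only [smul_eq_mul, mul_one, one_re, one_im, I_re, I_im, mul_zero, add_zero, zero_add]
  conv_rhs => rw [← re_add_im s]
  push_cast
  ring

private theorem rsol_dzb_chi_ne (k : ℕ) (ε : ℝ) (a : Fin (k + 1)) (ha : a ≠ 0) (s : ℂ) :
    dzb (1 : ℂ) (fun s => chiT k ε s a) s = 0 := by
  simp [chiT, ha, dzb]

section
variable {F : Type} [NormedAddCommGroup F] [NormedSpace ℂ F]

private theorem rsol_dzb_snd (g : ℂ → ℂ) (p v : F × ℂ) (hg : DifferentiableAt ℝ g p.2) :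
    dzb v (fun p : F × ℂ => g p.2) p = dzb v.2 g p.2 := by
  have h : HasFDerivAt (fun p : F × ℂ => g p.2)
      ((fderiv ℝ g p.2).comp (ContinuousLinearMap.snd ℝ F ℂ)) p :=
    hg.hasFDerivAt.comp p (hasFDerivAt_snd (𝕜 := ℝ) (p := p))
  unfold dzb
  rw [h.fderiv]
  simp

end

private theorem rsol_bE_inr (n : ℕ) : (bE n (Sum.inr ())).2 = 1 := by
  simp [bE]

private theorem rsol_bE_inl (n : ℕ) (j : Fin (n + 1)) : (bE n (Sum.inl j)).2 = 0 := by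
  simp [bE]

private theorem rsol_dzb_zero (g : ℂ → ℂ) (s : ℂ) : dzb (0 : ℂ) g s = 0 := by
  simp [dzb]

/-- the right hand side -/
private noncomputable def rsol_v (k : ℕ) (ε : ℝ) (s : ℂ) (a : Fin (k + 1)) : ℂ :=
  dzb (1 : ℂ) (fun s => chiT k ε s a) s

private theorem rsol_v_smooth (k : ℕ) (ε : ℝ) (a : Fin (k + 1)) :
    ContDiff ℝ ∞ (fun s : ℂ => rsol_v k ε s a) := by
  have h : ContDiff ℝ ∞ (fderiv ℝ (fun s => chiT k ε s a)) :=
    (rsol_chi_smooth k ε a).fderiv_right (m := ∞) (by simp)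
  have h1 : ∀ v : ℂ, ContDiff ℝ ∞ (fun s => fderiv ℝ (fun s => chiT k ε s a) s v) :=
    fun v => h.clm_apply contDiff_const
  unfold rsol_v dzb
  exact ((h1 _).add (contDiff_const.mul (h1 _))).div_const 2

private theorem rsol_v_norm (k : ℕ) {ε : ℝ} (hε : 0 < ε) {C0 : ℝ}
    (hC : ∀ t, 0 ≤ t → t ≤ 1 → |deriv cut t| ≤ C0) (s : ℂ) (hs : ‖s‖ ≤ ε) :
    ‖rsol_v k ε s 0‖ ^ 2 ≤ C0 ^ 2 * ‖s‖ ^ 2 / ε ^ 4 := by
  unfold rsol_v
  rw [rsol_dzb_chi, norm_mul, norm_real, Real.norm_eq_abs, abs_div, abs_of_pos (by positivity : 0 < ε ^ 2)]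
  have h1 : ‖s‖ ^ 2 / ε ^ 2 ≤ 1 := by
    rw [div_le_one (by positivity)]
    exact pow_le_pow_left₀ (norm_nonneg _) hs 2
  have h2 := hC (‖s‖ ^ 2 / ε ^ 2) (by positivity) h1
  have h3 : |deriv cut (‖s‖ ^ 2 / ε ^ 2)| ^ 2 ≤ C0 ^ 2 := pow_le_pow_left₀ (abs_nonneg _) h2 2
  have h4 : (|deriv cut (‖s‖ ^ 2 / ε ^ 2)| / ε ^ 2 * ‖s‖) ^ 2 =
    |deriv cut (‖s‖ ^ 2 / ε ^ 2)| ^ 2 * (‖s‖ ^ 2 / ε ^ 4) := by
    field_simp
  rw [h4, mul_div_assoc]
  exact mul_le_mul_of_nonneg_right h3 (by positivity)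

private theorem rsol_v_zero (k : ℕ) {ε : ℝ} (hε : 0 < ε) (s : ℂ) (hs : ε < ‖s‖)
    (a : Fin (k + 1)) : rsol_v k ε s a = 0 := by
  unfold rsol_v
  by_cases ha : a = 0
  · subst ha
    have h1 : 1 < ‖s‖ ^ 2 / ε ^ 2 := by
      rw [one_lt_div (by positivity)]
      exact pow_lt_pow_left₀ hs hε.le (by norm_num)
    rw [rsol_dzb_chi, rsol_deriv_zero h1]
    simp
  · exact rsol_dzb_chi_ne k ε a ha s

/-! ### local integrability, integration by parts -/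

section loc
variable {E : Type} [NormedAddCommGroup E] [NormedSpace ℂ E] {W : Set E} {ι : Type} [Fintype ι]
  {b : Module.Basis ι ℂ E} {D : ℕ}

private theorem rsol_nsq_cont (Mt : HMet W b D) :
    ContinuousOn (fun q : E × (Fin D → ℂ) => Mt.nsq q.1 q.2) (W ×ˢ Set.univ) := by
  unfold HMet.nsq ip
  refine Complex.continuous_re.comp_continuousOn ?_
  refine continuousOn_finsetSum _ fun a _ => continuousOn_finsetSum _ fun c _ => ?_
  have h1 : ContinuousOn (fun q : E × (Fin D → ℂ) => Mt.H q.1 a c) (W ×ˢ Set.univ) :=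
    (Mt.smH a c).continuousOn.comp continuousOn_fst (fun q hq => hq.1)
  exact (((Complex.continuous_conj.comp
    ((continuous_apply a).comp continuous_snd)).continuousOn).mul h1).mul
    ((continuous_apply c).comp continuous_snd).continuousOn

private theorem rsol_nsq_smul (Mt : HMet W b D) (x : E) (t : ℝ) (u : Fin D → ℂ) :
    Mt.nsq x (fun a => (t : ℂ) * u a) = t ^ 2 * Mt.nsq x u := by
  unfold HMet.nsq
  have h : ip (Mt.H x) (fun a => (t : ℂ) * u a) (fun a => (t : ℂ) * u a) =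
      ((t ^ 2 : ℝ) : ℂ) * ip (Mt.H x) u u := by
    simp only [ip, Finset.mul_sum, map_mul, conj_ofReal]
    refine Finset.sum_congr rfl fun a _ => Finset.sum_congr rfl fun c _ => ?_
    push_cast
    ring
  rw [h, re_ofReal_mul]

private theorem rsol_nsq_zero (Mt : HMet W b D) (x : E) (u : Fin D → ℂ) (hu : ∀ a, u a = 0) :
    Mt.nsq x u = 0 := by
  simp [HMet.nsq, ip, hu]

private theorem rsol_nsq_nonneg (Mt : HMet W b D) (x : E) (hx : x ∈ W) (u : Fin D → ℂ) :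
    0 ≤ Mt.nsq x u := by
  by_cases hu : u = 0
  · rw [rsol_nsq_zero Mt x u (fun a => by rw [hu]; rfl)]
  · exact (Mt.pos x hx u hu).le

private theorem rsol_nsq_lower (Mt : HMet W b D) {K : Set E} (hK : IsCompact K) (hKW : K ⊆ W)
    (hKn : K.Nonempty) (a₀ : Fin D) :
    ∃ m : ℝ, 0 < m ∧ ∀ x ∈ K, ∀ u : Fin D → ℂ, m * ‖u a₀‖ ^ 2 ≤ Mt.nsq x u := by
  have : Nonempty (Fin D) := ⟨a₀⟩
  have hs : (Metric.sphere (0 : Fin D → ℂ) 1).Nonempty :=
    (NormedSpace.sphere_nonempty (x := (0 : Fin D → ℂ)) (r := 1)).2 zero_le_one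
  have hc : IsCompact (K ×ˢ Metric.sphere (0 : Fin D → ℂ) 1) := hK.prod (isCompact_sphere _ _)
  obtain ⟨q, hq, hmin⟩ := hc.exists_isMinOn (hKn.prod hs)
    ((rsol_nsq_cont Mt).mono (Set.prod_mono hKW (Set.subset_univ _)))
  have hq0 : q.2 ≠ 0 := by
    intro h
    have := hq.2
    rw [h] at this
    simp at this
  refine ⟨Mt.nsq q.1 q.2, Mt.pos q.1 (hKW hq.1) q.2 hq0, fun x hx u => ?_⟩
  have hm0 : 0 ≤ Mt.nsq q.1 q.2 := rsol_nsq_nonneg Mt q.1 (hKW hq.1) q.2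
  by_cases hu : u = 0
  · rw [rsol_nsq_zero Mt x u (fun a => by rw [hu]; rfl), hu]
    simp
  · have hn : 0 < ‖u‖ := norm_pos_iff.2 hu
    have h1 : (fun a => ((‖u‖⁻¹ : ℝ) : ℂ) * u a) ∈ Metric.sphere (0 : Fin D → ℂ) 1 := by
      have e : (fun a => ((‖u‖⁻¹ : ℝ) : ℂ) * u a) = ((‖u‖⁻¹ : ℝ) : ℂ) • u := rfl
      rw [mem_sphere_zero_iff_norm, e, norm_smul, norm_real, Real.norm_eq_abs,
        abs_of_pos (inv_pos.2 hn), inv_mul_cancel₀ hn.ne']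
    have h2 : Mt.nsq q.1 q.2 ≤ Mt.nsq x (fun a => ((‖u‖⁻¹ : ℝ) : ℂ) * u a) :=
      hmin (a := (x, fun a => ((‖u‖⁻¹ : ℝ) : ℂ) * u a)) ⟨hx, h1⟩
    rw [rsol_nsq_smul] at h2
    have h3 : Mt.nsq q.1 q.2 * ‖u‖ ^ 2 ≤ Mt.nsq x u := by
      have := mul_le_mul_of_nonneg_right h2 (sq_nonneg ‖u‖)
      calc _ ≤ _ := this
        _ = Mt.nsq x u := by field_simp
    refine le_trans ?_ h3
    exact mul_le_mul_of_nonneg_left (pow_le_pow_left₀ (norm_nonneg _) (norm_le_pi_norm u a₀) 2) hm0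

variable [FiniteDimensional ℂ E] [MeasurableSpace E] [BorelSpace E]

private theorem rsol_loc (Mt : HMet W b D) (hW : IsOpen W) (μ : Measure E) [μ.IsAddHaarMeasure]
    (u : Fin D → E → ℂ) (hu : ∀ a, AEStronglyMeasurable (u a) (μ.restrict W))
    (hI : ∫⁻ x in W, ENNReal.ofReal (Mt.nsq x (fun a => u a x)) ∂μ ≠ ⊤) (a : Fin D) :
    LocallyIntegrableOn (u a) W μ := by
  have : FiniteDimensional ℝ E := FiniteDimensional.complexToReal E
  have : ProperSpace E := FiniteDimensional.proper ℝ E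
  intro x₀ hx₀
  obtain ⟨r, hr, hrW⟩ := Metric.nhds_basis_closedBall.mem_iff.1 (hW.mem_nhds hx₀)
  have hK : IsCompact (Metric.closedBall x₀ r) := isCompact_closedBall _ _
  obtain ⟨m, hm, hlow⟩ := rsol_nsq_lower Mt hK hrW ⟨x₀, Metric.mem_closedBall_self hr.le⟩ a
  refine ⟨Metric.closedBall x₀ r,
    mem_nhdsWithin_of_mem_nhds (Metric.closedBall_mem_nhds x₀ hr), ?_⟩
  refine ⟨(hu a).mono_measure (Measure.restrict_mono hrW le_rfl), ?_⟩
  have hKm : MeasurableSet (Metric.closedBall x₀ r) := Metric.isClosed_closedBall.measurableSet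
  have h1 : ∀ x ∈ Metric.closedBall x₀ r, ‖u a x‖ₑ ≤
      1 + ENNReal.ofReal m⁻¹ * ENNReal.ofReal (Mt.nsq x (fun a => u a x)) := by
    intro x hx
    have h2 := hlow x hx (fun a => u a x)
    have h3 : ‖u a x‖ ≤ 1 + m⁻¹ * Mt.nsq x (fun a => u a x) := by
      have h4 : ‖u a x‖ ^ 2 ≤ m⁻¹ * Mt.nsq x (fun a => u a x) := by
        rw [← div_eq_inv_mul, le_div_iff₀ hm, mul_comm]
        exact h2
      nlinarith [sq_nonneg (‖u a x‖ - 1), norm_nonneg (u a x)]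
    rw [← ofReal_norm, ← ENNReal.ofReal_mul (by positivity), ← ENNReal.ofReal_one,
      ← ENNReal.ofReal_add zero_le_one
        (mul_nonneg (by positivity) (rsol_nsq_nonneg Mt x (hrW hx) _))]
    exact ENNReal.ofReal_le_ofReal h3
  unfold HasFiniteIntegral
  calc ∫⁻ x in Metric.closedBall x₀ r, ‖u a x‖ₑ ∂μ ≤
      ∫⁻ x in Metric.closedBall x₀ r,
        (1 + ENNReal.ofReal m⁻¹ * ENNReal.ofReal (Mt.nsq x (fun a => u a x))) ∂μ :=
      setLIntegral_mono' hKm h1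
    _ = μ (Metric.closedBall x₀ r) + ENNReal.ofReal m⁻¹ *
        ∫⁻ x in Metric.closedBall x₀ r, ENNReal.ofReal (Mt.nsq x (fun a => u a x)) ∂μ := by
      rw [lintegral_add_left measurable_const, lintegral_const_mul' _ _ ENNReal.ofReal_ne_top]
      simp
    _ < ⊤ := by
      refine ENNReal.add_lt_top.2 ⟨hK.measure_lt_top, ?_⟩
      refine ENNReal.mul_lt_top ENNReal.ofReal_lt_top ?_
      exact lt_of_le_of_lt (lintegral_mono_set hrW) (lt_top_iff_ne_top.2 hI)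

omit [FiniteDimensional ℂ E] [MeasurableSpace E] [BorelSpace E] in
private theorem rsol_fd {F : E → ℂ} (hF : ContDiff ℝ ∞ F) (v : E) :
    ContDiff ℝ ∞ (fun x => fderiv ℝ F x v) := by
  have h : ContDiff ℝ ∞ (fderiv ℝ F) := hF.fderiv_right (m := ∞) (by simp)
  exact h.clm_apply contDiff_const

omit [FiniteDimensional ℂ E] [MeasurableSpace E] [BorelSpace E] in
private theorem rsol_dzb_smooth {F : E → ℂ} (hF : ContDiff ℝ ∞ F) (v : E) :
    ContDiff ℝ ∞ (dzb v F) := by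
  have : dzb v F = fun x => (fderiv ℝ F x v + I * fderiv ℝ F x (I • v)) / 2 := rfl
  rw [this]
  exact ((rsol_fd hF v).add (contDiff_const.mul (rsol_fd hF (I • v)))).div_const 2

omit [FiniteDimensional ℂ E] [MeasurableSpace E] [BorelSpace E] in
private theorem rsol_fd0 {F : E → ℂ} {x : E} (hx : x ∉ tsupport F) : fderiv ℝ F x = 0 :=
  fderiv_of_notMem_tsupport ℝ hx

omit [FiniteDimensional ℂ E] [MeasurableSpace E] [BorelSpace E] in
private theorem rsol_dzb0 {F : E → ℂ} {x : E} (hx : x ∉ tsupport F) (v : E) : dzb v F x = 0 := by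
  simp [dzb, rsol_fd0 hx]

private theorem rsol_ibp0 (mu : Measure E) [mu.IsAddHaarMeasure] {u w : E → ℂ}
    (hu : ContDiff ℝ ∞ u) (hw1 : ContDiff ℝ ∞ w) (hw2 : HasCompactSupport w) (a : E) :
    ∫ x, dzb a u x * w x ∂mu = - ∫ x, u x * dzb a w x ∂mu := by
  have : FiniteDimensional ℝ E := FiniteDimensional.complexToReal E
  have : ProperSpace E := FiniteDimensional.proper ℝ E
  have hda : ∀ {F : E → ℂ}, ContDiff ℝ ∞ F → ∀ x, DifferentiableAt ℝ F x :=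
    fun hF x => hF.contDiffAt.differentiableAt (by simp)
  have hz0 : ∀ {x : E}, x ∉ tsupport w → w x = 0 := fun hx => image_eq_zero_of_notMem_tsupport hx
  have hint : ∀ F : E → ℂ, Continuous F → (∀ x, x ∉ tsupport w → F x = 0) → Integrable F mu :=
    fun F hF h => hF.integrable_of_hasCompactSupport (HasCompactSupport.intro hw2 h)
  have key : ∀ v : E, ∫ x, u x * fderiv ℝ w x v ∂mu = - ∫ x, fderiv ℝ u x v * w x ∂mu := by
    intro v
    refine integral_mul_fderiv_eq_neg_fderiv_mul_of_integrable ?_ ?_ ?_ ?_ ?_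
    · exact hint _ ((rsol_fd hu v).continuous.mul hw1.continuous) fun x hx => by simp [hz0 hx]
    · exact hint _ (hu.continuous.mul (rsol_fd hw1 v).continuous) fun x hx => by simp [rsol_fd0 hx]
    · exact hint _ (hu.continuous.mul hw1.continuous) fun x hx => by simp [hz0 hx]
    · exact fun x _ => hda hu x
    · exact fun x _ => hda hw1 x
  have i1 : ∀ v : E, Integrable (fun x => fderiv ℝ u x v * w x) mu := fun v =>
    hint _ ((rsol_fd hu v).continuous.mul hw1.continuous) fun x hx => by simp [hz0 hx]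
  have i2 : ∀ v : E, Integrable (fun x => u x * fderiv ℝ w x v) mu := fun v =>
    hint _ (hu.continuous.mul (rsol_fd hw1 v).continuous) fun x hx => by simp [rsol_fd0 hx]
  have e1 : ∫ x, dzb a u x * w x ∂mu =
      (∫ x, fderiv ℝ u x a * w x ∂mu) * 2⁻¹ + (∫ x, fderiv ℝ u x (I • a) * w x ∂mu) * (I * 2⁻¹) := by
    rw [← integral_mul_const, ← integral_mul_const, ← integral_add ((i1 a).mul_const _)
      ((i1 (I • a)).mul_const _)]
    refine integral_congr_ae (Filter.Eventually.of_forall fun x => ?_)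
    simp only [dzb]
    ring
  have e2 : ∫ x, u x * dzb a w x ∂mu =
      (∫ x, u x * fderiv ℝ w x a ∂mu) * 2⁻¹ + (∫ x, u x * fderiv ℝ w x (I • a) ∂mu) * (I * 2⁻¹) := by
    rw [← integral_mul_const, ← integral_mul_const, ← integral_add ((i2 a).mul_const _)
      ((i2 (I • a)).mul_const _)]
    refine integral_congr_ae (Filter.Eventually.of_forall fun x => ?_)
    simp only [dzb]
    ring
  rw [e1, e2, key a, key (I • a)]
  ring

/-- integration by parts on `W` -/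
private theorem rsol_ibp (μ : Measure E) [μ.IsAddHaarMeasure] {g ψ : E → ℂ}
    (hg : ContDiff ℝ ∞ g) (hψ : SCW W ψ) (v : E) :
    ∫ x in W, g x * dzb v ψ x ∂μ = - ∫ x in W, dzb v g x * ψ x ∂μ := by
  have h1 : ∫ x in W, g x * dzb v ψ x ∂μ = ∫ x, g x * dzb v ψ x ∂μ := by
    refine setIntegral_eq_integral_of_forall_compl_eq_zero fun x hx => ?_
    rw [rsol_dzb0 (fun h => hx (hψ.2.2 h)), mul_zero]
  have h2 : ∫ x in W, dzb v g x * ψ x ∂μ = ∫ x, dzb v g x * ψ x ∂μ := by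
    refine setIntegral_eq_integral_of_forall_compl_eq_zero fun x hx => ?_
    rw [image_eq_zero_of_notMem_tsupport (fun h => hx (hψ.2.2 h)), mul_zero]
  rw [h1, h2, rsol_ibp0 μ hg hψ.1 hψ.2.1 v, neg_neg]

/-- a locally integrable function times a derivative of a test function is integrable -/
private theorem rsol_int_mul (μ : Measure E) [μ.IsAddHaarMeasure] {g ψ : E → ℂ}
    (hg : LocallyIntegrableOn g W μ) (hψ : SCW W ψ) (v : E) :
    Integrable (fun x => g x * dzb v ψ x) (μ.restrict W) := by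
  have : FiniteDimensional ℝ E := FiniteDimensional.complexToReal E
  have : ProperSpace E := FiniteDimensional.proper ℝ E
  have h1 : IntegrableOn g (tsupport ψ) μ :=
    hg.integrableOn_compact_subset hψ.2.2 hψ.2.1
  have h2 : IntegrableOn (fun x => g x * dzb v ψ x) (tsupport ψ) μ :=
    h1.mul_continuousOn (rsol_dzb_smooth hψ.1 v).continuous.continuousOn hψ.2.1
  have h3 : Integrable (fun x => g x * dzb v ψ x) μ := by
    rwa [integrableOn_iff_integrable_of_support_subset] at h2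
    intro x hx
    by_contra h
    exact hx (by
      change g x * dzb v ψ x = 0
      rw [rsol_dzb0 h, mul_zero])
  exact h3.integrableOn

end loc

/-! ### the estimate of the right hand side -/

omit [GradedAlgebra 𝒜] in
private theorem rsol_wph_nonneg (G : R) (r : ℕ) (e : Fin M → Fin (B + 1) → R) (c ε : ℝ)
    (ν : R →ₐ[ℂ] ℂ) (s : ℂ) : 0 ≤ wph G r e c ε ν s := by
  have hS : 0 ≤ Ssum e ν := by
    unfold Ssum
    positivity
  unfold wph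
  refine mul_nonneg (Finset.prod_nonneg fun i _ => Real.rpow_nonneg ?_ _)
    (Real.rpow_nonneg (norm_nonneg _) _)
  have : 0 ≤ ε ^ 2 * Ssum e ν := mul_nonneg (sq_nonneg _) hS
  positivity

private theorem rsol_ws_le {ε τ : ℝ} (hτ : 0 ≤ τ) (s : ℂ) : ws ε τ s ≤ (‖s‖ ^ 2)⁻¹ := by
  unfold ws
  have h1 : (1 + ‖s‖ ^ 2 / ε ^ 2) ^ (-τ) ≤ 1 :=
    Real.rpow_le_one_of_one_le_of_nonpos (by
      have : 0 ≤ ‖s‖ ^ 2 / ε ^ 2 := by positivity
      linarith) (by linarith)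
  have h2 : 0 ≤ (‖s‖ ^ 2)⁻¹ := by positivity
  exact mul_le_of_le_one_right h2 h1

/-- the curvature function -/
private noncomputable def rsol_κ (ε τ : ℝ) (s : ℂ) : ℝ :=
  τ * ε ^ 2 / (ε ^ 2 + ‖s‖ ^ 2) ^ 2

private theorem rsol_κ_pos {ε τ : ℝ} (hε : 0 < ε) (hτ : 0 < τ) (s : ℂ) : 0 < rsol_κ ε τ s := by
  unfold rsol_κ
  positivity

private theorem rsol_κ_cont {ε τ : ℝ} (hε : 0 < ε) : Continuous (rsol_κ ε τ) := by
  unfold rsol_κ
  refine continuous_const.div (by fun_prop) fun s => ?_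
  positivity

private theorem rsol_κ_inv {ε τ : ℝ} (hε : 0 < ε) (hτ : 0 < τ) (s : ℂ) (hs : ‖s‖ ≤ ε) :
    (rsol_κ ε τ s)⁻¹ ≤ 4 * ε ^ 2 / τ := by
  unfold rsol_κ
  rw [inv_div, div_le_div_iff₀ (by positivity) hτ]
  have h1 : ‖s‖ ^ 2 ≤ ε ^ 2 := pow_le_pow_left₀ (norm_nonneg _) hs 2
  have h2 : (ε ^ 2 + ‖s‖ ^ 2) ^ 2 ≤ (2 * ε ^ 2) ^ 2 :=
    pow_le_pow_left₀ (by positivity) (by linarith) 2
  calc (ε ^ 2 + ‖s‖ ^ 2) ^ 2 * τ ≤ (2 * ε ^ 2) ^ 2 * τ := mul_le_mul_of_nonneg_right h2 hτ.le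
    _ = 4 * ε ^ 2 * (τ * ε ^ 2) := by ring

private theorem rsol_κ_ge {ε τ : ℝ} (hε : 0 < ε) (hτ : 0 < τ) (s : ℂ) (hs : ‖s‖ ≤ ε) :
    τ / (4 * ε ^ 2) ≤ rsol_κ ε τ s := by
  have h1 := rsol_κ_inv hε hτ s hs
  have h2 := inv_anti₀ (inv_pos.2 (rsol_κ_pos hε hτ s)) h1
  rwa [inv_inv, inv_div] at h2

private theorem rsol_κ_le {ε τ : ℝ} (hε : 0 < ε) (hτ : 0 < τ) (s : ℂ) :
    rsol_κ ε τ s ≤ (ε ^ 2 / τ)⁻¹ := by
  unfold rsol_κ
  rw [inv_div, div_le_div_iff₀ (by positivity) (by positivity)]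
  have h2 : (ε ^ 2) ^ 2 ≤ (ε ^ 2 + ‖s‖ ^ 2) ^ 2 :=
    pow_le_pow_left₀ (by positivity) (by linarith [sq_nonneg ‖s‖]) 2
  calc τ * ε ^ 2 * ε ^ 2 = τ * (ε ^ 2) ^ 2 := by ring
    _ ≤ τ * (ε ^ 2 + ‖s‖ ^ 2) ^ 2 := mul_le_mul_of_nonneg_left h2 hτ.le

private theorem rsol_scal (k : ℕ) {ε τ : ℝ} (hε : 0 < ε) (hτ : 0 < τ) {C0 : ℝ}
    (hC : ∀ t, 0 ≤ t → t ≤ 1 → |deriv cut t| ≤ C0) (s : ℂ) (hs0 : s ≠ 0) (hs : ‖s‖ ≤ ε) :
    (rsol_κ ε τ s)⁻¹ * (ws ε τ s * ‖rsol_v k ε s 0‖ ^ 2) ≤ 4 * C0 ^ 2 / (τ * ε ^ 2) := by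
  have h1 := rsol_κ_inv hε hτ s hs
  have h2 := rsol_ws_le (ε := ε) hτ.le s
  have h3 := rsol_v_norm k hε hC s hs
  have hn : 0 < ‖s‖ := norm_pos_iff.2 hs0
  have h4 : 0 ≤ ws ε τ s := by
    unfold ws
    have : 0 ≤ (1 + ‖s‖ ^ 2 / ε ^ 2) ^ (-τ) := Real.rpow_nonneg (by positivity) _
    positivity
  calc (rsol_κ ε τ s)⁻¹ * (ws ε τ s * ‖rsol_v k ε s 0‖ ^ 2)
      ≤ (4 * ε ^ 2 / τ) * ((‖s‖ ^ 2)⁻¹ * (C0 ^ 2 * ‖s‖ ^ 2 / ε ^ 4)) := by
        refine mul_le_mul h1 (mul_le_mul h2 h3 (by positivity) (by positivity)) ?_ (by positivity)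
        positivity
    _ = 4 * C0 ^ 2 / (τ * ε ^ 2) := by field_simp

omit [GradedAlgebra 𝒜] in
private theorem rsol_nE_v (S : Sheets 𝒜 x k) (G : R) (r : ℕ) (e : Fin M → Fin (B + 1) → R)
    (c : ℝ) {ε τ : ℝ} (hε : 0 < ε) (hτ : 0 < τ) {C0 : ℝ}
    (hC : ∀ t, 0 ≤ t → t ≤ 1 → |deriv cut t| ≤ C0) (p : (Fin (n + 1) → ℂ) × ℂ)
    (hp0 : p.2 ≠ 0) (hp : ‖p.2‖ ≤ ε) :
    ENNReal.ofReal (rsol_κ ε τ p.2)⁻¹ * nE S G r e c ε τ p (fun a => rsol_v k ε p.2 a) ≤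
      ENNReal.ofReal (4 * C0 ^ 2 / (τ * ε ^ 2)) *
        ∑' ν : fib x p.1, ENNReal.ofReal (wph G r e c ε ν.1 p.2) := by
  unfold nE
  rw [← ENNReal.tsum_mul_left, ← ENNReal.tsum_mul_left]
  refine ENNReal.tsum_le_tsum fun ν => ?_
  have hv : ∑ a, ν.1 (S.β a) * rsol_v k ε p.2 a = rsol_v k ε p.2 0 := by
    rw [Finset.sum_eq_single 0]
    · rw [S.β_zero, map_one, one_mul]
    · intro a _ ha
      have : rsol_v k ε p.2 a = 0 := rsol_dzb_chi_ne k ε a ha p.2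
      rw [this, mul_zero]
    · simp
  have hw := rsol_wph_nonneg G r e c ε ν.1 p.2
  have hκ : 0 ≤ (rsol_κ ε τ p.2)⁻¹ := (inv_pos.2 (rsol_κ_pos hε hτ p.2)).le
  rw [hv, ← ENNReal.ofReal_mul hκ, ← ENNReal.ofReal_mul (by positivity)]
  refine ENNReal.ofReal_le_ofReal ?_
  calc (rsol_κ ε τ p.2)⁻¹ * (wph G r e c ε ν.1 p.2 * ws ε τ p.2 * ‖rsol_v k ε p.2 0‖ ^ 2)
      = ((rsol_κ ε τ p.2)⁻¹ * (ws ε τ p.2 * ‖rsol_v k ε p.2 0‖ ^ 2)) *
          wph G r e c ε ν.1 p.2 := by ring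
    _ ≤ _ := mul_le_mul_of_nonneg_right (rsol_scal k hε hτ hC p.2 hp0 hp) hw

omit [GradedAlgebra 𝒜] in
private theorem rsol_bound (S : Sheets 𝒜 x k) (G : R) (r : ℕ) (e : Fin M → Fin (B + 1) → R)
    (hg : GoodSheets S G e) (c : ℝ) (hc : 0 ≤ c) {ε τ : ℝ} (hε : 0 < ε) (hε1 : ε ≤ 1)
    (hτ : 0 < τ) {C0 : ℝ} (hC : ∀ t, 0 ≤ t → t ≤ 1 → |deriv cut t| ≤ C0)
    (Mt : HMet (WW S) (bE n) (k + 1))
    (hMt : ∀ p ∈ WW S, ∀ u, ENNReal.ofReal (Mt.nsq p u) = nE S G r e c ε τ p u) :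
    ∫⁻ p in WW S, ENNReal.ofReal ((rsol_κ ε τ p.2)⁻¹ *
        Mt.nsq p (fun a => rsol_v k ε p.2 a)) ≤
      ENNReal.ofReal (4 * C0 ^ 2 / (τ * ε ^ 2)) *
        (ENNReal.ofReal ((2 * (1 + B : ℝ)) ^ (c * M)) * intI x G r (fun i => e i 0) c) *
          ENNReal.ofReal (Real.pi * ε ^ 2) := by
  have hWm : MeasurableSet (WW S) := (isOpen_WW S).measurableSet
  have hW0 : MeasurableSet (W0 S.h) := (isOpen_W0 S.h).measurableSet
  set f : (Fin (n + 1) → ℂ) × ℂ → ℝ≥0∞ := fun p => ENNReal.ofReal ((rsol_κ ε τ p.2)⁻¹ *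
        Mt.nsq p (fun a => rsol_v k ε p.2 a)) with hf
  have hcont : ContinuousOn (fun p : (Fin (n + 1) → ℂ) × ℂ => (rsol_κ ε τ p.2)⁻¹ *
        Mt.nsq p (fun a => rsol_v k ε p.2 a)) (WW S) := by
    refine ContinuousOn.mul ?_ ?_
    · exact (((rsol_κ_cont hε).comp continuous_snd).inv₀
        fun p => (rsol_κ_pos hε hτ p.2).ne').continuousOn
    · refine (rsol_nsq_cont Mt).comp (f := fun p : (Fin (n + 1) → ℂ) × ℂ =>
        (p, fun a => rsol_v k ε p.2 a)) ?_ (fun p hp => ⟨hp, Set.mem_univ _⟩)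
      refine Continuous.continuousOn ?_
      refine continuous_id.prodMk (continuous_pi fun a => ?_)
      exact (rsol_v_smooth k ε a).continuous.comp continuous_snd
  have hfm : AEMeasurable ((WW S).indicator f) (volume : Measure ((Fin (n + 1) → ℂ) × ℂ)) := by
    rw [aemeasurable_indicator_iff hWm]
    exact (hcont.aemeasurable hWm).ennreal_ofReal
  rw [← lintegral_indicator hWm, Measure.volume_eq_prod, lintegral_prod_symm _ hfm]
  set K1 : ℝ≥0∞ := ENNReal.ofReal (4 * C0 ^ 2 / (τ * ε ^ 2)) with hK1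
  set K2 : ℝ≥0∞ := ENNReal.ofReal ((2 * (1 + B : ℝ)) ^ (c * M)) * intI x G r (fun i => e i 0) c
    with hK2
  have hin : ∀ s : ℂ, ∫⁻ y : Fin (n + 1) → ℂ, (WW S).indicator f (y, s) ≤
      (Metric.closedBall (0 : ℂ) ε).indicator (fun _ => K1 * K2) s := by
    intro s
    by_cases hs : ‖s‖ ≤ ε
    · rw [Set.indicator_of_mem (mem_closedBall_zero_iff.2 hs)]
      calc ∫⁻ y : Fin (n + 1) → ℂ, (WW S).indicator f (y, s)
          ≤ ∫⁻ y : Fin (n + 1) → ℂ, (W0 S.h).indicator (fun y => K1 *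
              ∑' ν : fib x y, ENNReal.ofReal (wph G r e c ε ν.1 s)) y := by
            refine lintegral_mono fun y => ?_
            by_cases hy : (y, s) ∈ WW S
            · rw [Set.indicator_of_mem hy, Set.indicator_of_mem (show y ∈ W0 S.h from hy.1)]
              have h1 := rsol_nE_v S G r e c hε hτ hC (y, s) hy.2 hs
              rw [← hMt _ hy, ← ENNReal.ofReal_mul (inv_pos.2 (rsol_κ_pos hε hτ s)).le] at h1
              exact h1
            · rw [Set.indicator_of_notMem hy]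
              exact zero_le
        _ = K1 * JJ S G r e c ε s := by
            rw [lintegral_indicator hW0, lintegral_const_mul' _ _ ENNReal.ofReal_ne_top]
            rfl
        _ ≤ K1 * K2 := by
            gcongr
            exact JJ_le S G r e hg c hc ε hε hε1 s hs
    · have h0 : ∀ y : Fin (n + 1) → ℂ, (WW S).indicator f (y, s) = 0 := by
        intro y
        by_cases hy : (y, s) ∈ WW S
        · rw [Set.indicator_of_mem hy]
          simp only [hf]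
          rw [rsol_nsq_zero Mt (y, s) _ (fun a => rsol_v_zero k hε s (not_le.1 hs) a)]
          simp
        · rw [Set.indicator_of_notMem hy]
      simp only [h0, lintegral_zero]
      exact zero_le
  refine (lintegral_mono hin).trans ?_
  rw [lintegral_indicator Metric.isClosed_closedBall.measurableSet, lintegral_const,
    Measure.restrict_apply_univ, Complex.volume_closedBall]
  have h2 : ENNReal.ofReal ε ^ 2 * (NNReal.pi : ℝ≥0∞) = ENNReal.ofReal (Real.pi * ε ^ 2) := by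
    rw [mul_comm Real.pi, ENNReal.ofReal_mul (by positivity), ENNReal.ofReal_pow hε.le]
    congr 1
    rw [← NNReal.coe_real_pi, ENNReal.ofReal_coe_nnreal]
  rw [h2]

theorem exists_sol (c : ℝ) (hc : 0 ≤ c) (B M : ℕ) :
    ∃ K : ℝ, 0 < K ∧ ∀ {R : Type} [CommRing R] [Algebra ℂ R] {𝒜 : ℕ → Submodule ℂ R}
      [GradedAlgebra 𝒜] {n r d k : ℕ} {x : Fin (n + 1) → R} {G : R} (_ : IsFano 𝒜 n r d x G)
      (S : Sheets 𝒜 x k) (e : Fin M → Fin (B + 1) → R) (_ : GoodSheets S G e)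
      (_ : intI x G r (fun i => e i 0) c ≠ ⊤) (ε τ : ℝ), 0 < ε → ε ≤ 1 → 0 < τ → τ ≤ 1 →
      ∃ F : Fin (k + 1) → ((Fin (n + 1) → ℂ) × ℂ) → ℂ,
        (∀ a, DifferentiableOn ℂ (F a) (WW S)) ∧
        ∫⁻ p in WW S, nE S G r e c ε τ p (fun a => chiT k ε p.2 a - F a p) ≤
          ENNReal.ofReal (K / τ) * intI x G r (fun i => e i 0) c := by
  obtain ⟨C0, hC01, hC⟩ := rsol_deriv_bound
  have hQ : 0 < (2 * (1 + B : ℝ)) ^ (c * M) := Real.rpow_pos_of_pos (by positivity) _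
  have hC0 : 0 < C0 := lt_of_lt_of_le one_pos hC01
  refine ⟨64 * Real.pi * C0 ^ 2 * (2 * (1 + B : ℝ)) ^ (c * M), by positivity, ?_⟩
  intro R _ _ 𝒜 _ n r d k x G h S e hg hI ε τ hε hε1 hτ _
  obtain ⟨Mt, -, hMt2, hMt3⟩ := exists_metric S G r h.r_pos e hg c ε τ hc hε hτ.le
  have hμ : (volume : Measure ((Fin (n + 1) → ℂ) × ℂ)).IsAddHaarMeasure :=
    Measure.prod.instIsAddHaarMeasure volume volume
  have hWo := isOpen_WW S
  have hWm : MeasurableSet (WW S) := hWo.measurableSet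
  set Q : ℝ := (2 * (1 + B : ℝ)) ^ (c * M) with hQdef
  set C₁ : ℝ := 4 * Real.pi * C0 ^ 2 / τ * Q * (intI x G r (fun i => e i 0) c).toReal with hC₁def
  have hC₁ : 0 ≤ C₁ := by
    have : 0 ≤ (intI x G r (fun i => e i 0) c).toReal := ENNReal.toReal_nonneg
    positivity
  have hb : ∫⁻ p in WW S, ENNReal.ofReal ((rsol_κ ε τ p.2)⁻¹ *
      Mt.nsq p (fun a => rsol_v k ε p.2 a)) ≤ ENNReal.ofReal C₁ := by
    refine (rsol_bound S G r e hg c hc hε hε1 hτ hC Mt hMt2).trans (le_of_eq ?_)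
    rw [hC₁def, ENNReal.ofReal_mul (p := 4 * Real.pi * C0 ^ 2 / τ * Q) (by positivity),
      ENNReal.ofReal_toReal hI, ← hQdef]
    have e1 : 4 * Real.pi * C0 ^ 2 / τ * Q = 4 * C0 ^ 2 / (τ * ε ^ 2) * Q * (Real.pi * ε ^ 2) := by
      field_simp
    rw [e1, ENNReal.ofReal_mul (p := 4 * C0 ^ 2 / (τ * ε ^ 2) * Q) (by positivity),
      ENNReal.ofReal_mul (p := 4 * C0 ^ 2 / (τ * ε ^ 2)) (by positivity)]
    ring
  have hdz : ∀ (a : Fin (k + 1)) (p : (Fin (n + 1) → ℂ) × ℂ),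
      dzb (bE n (Sum.inr ())) (fun p : (Fin (n + 1) → ℂ) × ℂ => chiT k ε p.2 a) p =
        rsol_v k ε p.2 a := by
    intro a p
    rw [rsol_dzb_snd (fun s => chiT k ε s a) p _
      ((rsol_chi_smooth k ε a).contDiffAt.differentiableAt (by simp)), rsol_bE_inr]
    rfl
  have hdz0 : ∀ (a : Fin (k + 1)) (j : Fin (n + 1)) (p : (Fin (n + 1) → ℂ) × ℂ),
      dzb (bE n (Sum.inl j)) (fun p : (Fin (n + 1) → ℂ) × ℂ => chiT k ε p.2 a) p = 0 := by
    intro a j p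
    rw [rsol_dzb_snd (fun s => chiT k ε s a) p _
      ((rsol_chi_smooth k ε a).contDiffAt.differentiableAt (by simp)), rsol_bE_inl]
    exact rsol_dzb_zero _ _
  have hvcl : ∀ l, l ≠ Sum.inr () → ∀ a, ∀ p ∈ WW S,
      dzb (bE n l) (fun p : (Fin (n + 1) → ℂ) × ℂ => rsol_v k ε p.2 a) p = 0 := by
    intro l hl a p _
    rcases l with j | l
    · rw [rsol_dzb_snd (fun s => rsol_v k ε s a) p _
        ((rsol_v_smooth k ε a).contDiffAt.differentiableAt (by simp)), rsol_bE_inl]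
      exact rsol_dzb_zero _ _
    · exact absurd rfl hl
  obtain ⟨u, hu1, hu2, hu3⟩ := Mt.hormander hWo volume (rhoE S) (exhaust_WW S)
    (fun p => rsol_κ ε τ p.2) ((rsol_κ_cont hε).comp continuous_snd).continuousOn
    (fun p _ => (rsol_κ_pos hε hτ p.2).le) (Sum.inr ()) (fun p hp f => hMt3 p hp f)
    (fun a p => rsol_v k ε p.2 a)
    (fun a => ((rsol_v_smooth k ε a).comp contDiff_snd).contDiffOn) hvcl
    (min (τ / (4 * ε ^ 2)) (ε ^ 2 / τ)) (by positivity) (by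
      rintro p _ ⟨a, ha⟩
      have hp : ‖p.2‖ ≤ ε := by
        by_contra h'
        exact ha (rsol_v_zero k hε p.2 (not_le.1 h') a)
      refine ⟨(min_le_left _ _).trans (rsol_κ_ge hε hτ p.2 hp), (rsol_κ_le hε hτ p.2).trans ?_⟩
      exact inv_anti₀ (by positivity) (min_le_right _ _)) C₁ hC₁ hb
  have huI : ∫⁻ p in WW S, ENNReal.ofReal (Mt.nsq p (fun a => u a p)) ≠ ⊤ :=
    ne_top_of_le_ne_top ENNReal.ofReal_ne_top hu2
  have hchi : ∀ a : Fin (k + 1), ContDiff ℝ ∞ (fun p : (Fin (n + 1) → ℂ) × ℂ => chiT k ε p.2 a) :=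
    fun a => (rsol_chi_smooth k ε a).comp contDiff_snd
  have hul : ∀ a, LocallyIntegrableOn (u a) (WW S) volume := rsol_loc Mt hWo volume u hu1 huI
  have hcl : ∀ a : Fin (k + 1), LocallyIntegrableOn
      (fun p : (Fin (n + 1) → ℂ) × ℂ => chiT k ε p.2 a) (WW S) volume :=
    fun a => (hchi a).continuous.locallyIntegrable.locallyIntegrableOn _
  have hF : ∀ a : Fin (k + 1), ∃ F : ((Fin (n + 1) → ℂ) × ℂ) → ℂ, DifferentiableOn ℂ F (WW S) ∧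
      (fun p : (Fin (n + 1) → ℂ) × ℂ => chiT k ε p.2 a - u a p) =ᵐ[volume.restrict (WW S)] F := by
    intro a
    refine weyl_local volume hWo (bE n) _ ((hcl a).sub (hul a)) fun ψ hψ j => ?_
    have h1 : ∫ p in WW S, (chiT k ε p.2 a - u a p) * dzb (bE n j) ψ p =
        (∫ p in WW S, chiT k ε p.2 a * dzb (bE n j) ψ p) -
          ∫ p in WW S, u a p * dzb (bE n j) ψ p := by
      rw [← integral_sub (rsol_int_mul volume (hcl a) hψ _) (rsol_int_mul volume (hul a) hψ _)]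
      refine integral_congr_ae (Filter.Eventually.of_forall fun p => ?_)
      simp only [sub_mul]
    rw [h1, hu3 ψ hψ j a, rsol_ibp volume (hchi a) hψ (bE n j)]
    rcases j with j | j
    · simp [hdz0]
    · simp only [hdz, if_true]
      ring
  choose F hF1 hF2 using hF
  refine ⟨F, hF1, ?_⟩
  have h1 : ∫⁻ p in WW S, nE S G r e c ε τ p (fun a => chiT k ε p.2 a - F a p) =
      ∫⁻ p in WW S, ENNReal.ofReal (Mt.nsq p (fun a => u a p)) := by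
    refine lintegral_congr_ae ?_
    filter_upwards [ae_restrict_mem hWm, ae_all_iff.2 hF2] with p hp hpF
    rw [hMt2 p hp]
    congr 1
    funext a
    rw [← hpF a]
    ring
  rw [h1]
  refine hu2.trans (le_of_eq ?_)
  have e1 : 16 * C₁ = 64 * Real.pi * C0 ^ 2 * Q / τ * (intI x G r (fun i => e i 0) c).toReal := by
    rw [hC₁def]
    ring
  rw [e1, ENNReal.ofReal_mul (by positivity), ENNReal.ofReal_toReal hI]

end Pool.Agent.Lib_KF

end
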