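import Mathlib
import Pool.Agent.Lib_KF.Defs
import Pool.Agent.Lib_MP_e0d435_m.G04
import Pool.Agent.Lib_MP_e0d435_m.G08
import Pool.Agent.Lib_MP_e0d435_m.G12
import Pool.Agent.Lib_MP_e0d435_m.G14
import Pool.Agent.Lib_MP_e0d435_m.G16
import Pool.Agent.Lib_MP_e0d435_m.G17
import Pool.Agent.Lib_MP_e0d435_m.G18
import Pool.Agent.Lib_MP_e0d435_m.G19
import Pool.Agent.Lib_MP_e0d435_m.G20

/-!
# MP_e0d435_ag: merged library part G22

Concatenation of library files (each in its own section), only to save build time.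
-/

/-! ### from `Lib_GD.OkBasis` -/

section

/-! P08: the graded semigroup with adapted bases. -/

open scoped ENNReal

namespace Pool.Agent.Lib_GD

/-- Vectors with different leading exponents are independent. -/
theorem okBasis_linearIndependent {V : Type} [AddCommGroup V] [Module ℂ V] {Λ : Type}
    [LinearOrder Λ] [Fintype Λ] (c : Λ → V →ₗ[ℂ] ℂ) (v : Λ → V) (h1 : ∀ γ, c γ (v γ) ≠ 0)
    (h2 : ∀ γ, ∀ α < γ, c α (v γ) = 0) : LinearIndependent ℂ v := by
  classical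
  rw [Fintype.linearIndependent_iff]
  intro a ha
  by_contra hcon
  push Not at hcon
  obtain ⟨γ₁, hγ₁⟩ := hcon
  obtain ⟨γ, hγ, hmin⟩ := (Finset.univ.filter fun γ => a γ ≠ 0).exists_min_image id
    ⟨γ₁, by simpa using hγ₁⟩
  have h3 := congrArg (c γ) ha
  rw [map_sum, map_zero, Finset.sum_eq_single γ] at h3
  · rw [map_smul, smul_eq_mul, mul_eq_zero] at h3
    rcases h3 with h3 | h3
    · exact (Finset.mem_filter.1 hγ).2 h3
    · exact h1 γ h3
  · intro β _ hβ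
    rw [map_smul, smul_eq_mul]
    by_cases hβ0 : a β = 0
    · rw [hβ0, zero_mul]
    · have := hmin β (by simpa using hβ0)
      rw [h2 β γ (lt_of_le_of_ne this (Ne.symm hβ)), mul_zero]
  · intro hcon
    exact absurd (Finset.mem_univ _) hcon

/-- Adapted bases. -/
theorem okBasis_exists {V : Type} [AddCommGroup V] [Module ℂ V] [Module.Finite ℂ V]
    (f : V → ℕ∞) (U : ℕ → Submodule ℂ V) (hU : ∀ k v, v ∈ U k ↔ (k : ℕ∞) ≤ f v)
    (hf : ∀ v, v ≠ 0 → f v ≠ ⊤) :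
    ∃ (b : Fin (Module.finrank ℂ V) → V) (g : Fin (Module.finrank ℂ V) → ℕ),
      LinearIndependent ℂ b ∧ (∀ i, f (b i) = g i) ∧
        ∀ k : ℕ, (Finset.univ.filter fun i => k ≤ g i).card = Module.finrank ℂ (U k) := by
  classical
  let B := Module.finBasis ℂ V
  obtain ⟨Γ, g, h1, h2, h3, h4, h5, h6⟩ := exists_leading (V := V)
    (Λ := Fin (Module.finrank ℂ V)) (fun i => B.coord i)
    (fun v hv => B.ext_elem fun i => by simpa using hv i) f U hU hf
  have hΓ : Γ = Finset.univ := by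
    rw [← Finset.card_eq_iff_eq_univ, h1, Fintype.card_fin]
  subst hΓ
  choose v hv1 hv2 hv3 using fun γ => h3 γ (Finset.mem_univ γ)
  exact ⟨v, g, okBasis_linearIndependent _ v hv1 hv2, hv3, h5⟩

/-- A sum of natural numbers from its counting function. -/
theorem okBasis_sum {ι : Type} (s : Finset ι) (g : ι → ℕ) (K : ℕ) (hK : ∀ i ∈ s, g i ≤ K) :
    ∑ i ∈ s, g i = ∑ k ∈ Finset.range K, (s.filter fun i => k + 1 ≤ g i).card := by
  classical
  simp only [Finset.card_filter]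
  rw [Finset.sum_comm]
  refine Finset.sum_congr rfl fun i hi => ?_
  rw [← Finset.card_filter]
  have : (Finset.range K).filter (fun k => k + 1 ≤ g i) = Finset.range (g i) := by
    ext k
    simp only [Finset.mem_filter, Finset.mem_range]
    have := hK i hi
    omega
  rw [this, Finset.card_range]

variable {R : Type} [CommRing R] [Algebra ℂ R] {𝒜 : ℕ → Submodule ℂ R} [GradedAlgebra 𝒜]
  {n : ℕ}

/-- P08: as `exists_okData`, and there are bases of `𝒜 m` adapted to the filtration of `E`. -/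
theorem exists_okData_basis (h : IsSmoothPolarised 𝒜 n) (hn : 1 ≤ n) :
    ∃ D : OkData n, (∀ m, 1 ≤ m → (D.Γ m).card = secDim 𝒜 m) ∧
      ∀ E : DivisorOver 𝒜 n 1, ∃ g : ℕ → (Fin n → ℕ) → ℕ, D.IsWeight g ∧
        (∀ m, 1 ≤ m → ∀ r : ℝ, D.cnt g m r = Module.finrank ℂ (E.filt 𝒜 m r)) ∧
        ∀ m, 1 ≤ m → ∃ b : Fin (secDim 𝒜 m) → R, (∀ i, b i ∈ 𝒜 m) ∧ LinearIndependent ℂ b ∧
          ∑ i, E.ord (E.φ 0 (b i)) = (∑ γ ∈ D.Γ m, g m γ : ℕ) := by
  classical
  obtain ⟨D, hD, hE⟩ := exists_okData h hn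
  refine ⟨D, hD, fun E => ?_⟩
  obtain ⟨g, hg, hcnt, -⟩ := hE E
  refine ⟨g, hg, hcnt, fun m hm => ?_⟩
  have := finite_graded h m
  have hord : ∀ (k : ℕ) (s : R), ENNReal.ofReal k ≤ (E.ord (E.φ 0 s) : ℝ≥0∞) ↔
      (k : ℕ∞) ≤ E.ord (E.φ 0 s) := by
    intro k s
    rw [ENNReal.ofReal_natCast]
    rw [← ENat.toENNReal_coe, ENat.toENNReal_le]
  obtain ⟨b, g', hb, hbg, hc⟩ := okBasis_exists (V := 𝒜 m) (fun v => E.ord (E.φ 0 v))
    (fun k => (E.filt 𝒜 m k).comap (𝒜 m).subtype) (by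
      intro k v
      rw [Submodule.mem_comap]
      constructor
      · intro hv
        exact (hord k v).1 hv.2
      · intro hv
        exact ⟨v.2, (hord k v).2 hv⟩) (by
      intro v hv
      exact E.ord_ne_top h hn m v v.2 (by simpa using hv))
  have hfin : ∀ k : ℕ, Module.finrank ℂ ((E.filt 𝒜 m k).comap (𝒜 m).subtype) =
      Module.finrank ℂ (E.filt 𝒜 m k) := by
    intro k
    have hle : E.filt 𝒜 m k ≤ 𝒜 m := fun s hs => hs.1
    exact LinearEquiv.finrank_eq (Submodule.comapSubtypeEquivOfLe hle)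
  refine ⟨fun i => b i, fun i => (b i).2, ?_, ?_⟩
  · exact hb.map' (𝒜 m).subtype (Submodule.ker_subtype _)
  · have e1 : ∑ i, E.ord (E.φ 0 (b i)) = ((∑ i, g' i : ℕ) : ℕ∞) := by
      push_cast
      exact Finset.sum_congr rfl fun i _ => hbg i
    refine e1.trans ?_
    congr 1
    obtain ⟨K, hK1, hK2⟩ : ∃ K, (∀ i ∈ (Finset.univ : Finset (Fin (secDim 𝒜 m))), g' i ≤ K) ∧
        ∀ γ ∈ D.Γ m, g m γ ≤ K := by
      refine ⟨∑ i, g' i + ∑ γ ∈ D.Γ m, g m γ, fun i hi => ?_, fun γ hγ => ?_⟩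
      · have h0 : g' i ≤ ∑ i, g' i :=
          Finset.single_le_sum (f := g') (fun i _ => Nat.zero_le _) (Finset.mem_univ i)
        exact h0.trans (Nat.le_add_right _ _)
      · have := Finset.single_le_sum (f := g m) (fun i _ => Nat.zero_le _) hγ
        omega
    have e2 := okBasis_sum _ g' K hK1
    have e3 := okBasis_sum _ (g m) K hK2
    rw [e3]
    refine e2.trans (Finset.sum_congr rfl fun k _ => ?_)
    have e4 := hc (k + 1)
    have e5 := hcnt m hm ((k + 1 : ℕ) : ℝ)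
    rw [hfin] at e4
    refine e4.trans (e5.symm.trans ?_)
    unfold OkData.cnt
    congr 1
    ext γ
    simp only [Finset.mem_filter, Nat.cast_le]

end Pool.Agent.Lib_GD

end

/-! ### from `Lib_KF.POkBasis` -/

section

/-! P08: the graded semigroup with adapted bases. -/

open scoped ENNReal

namespace Pool.Agent.Lib_KF

open Pool.Agent.Lib_GD

variable {R : Type} [CommRing R] [Algebra ℂ R] {𝒜 : ℕ → Submodule ℂ R} [GradedAlgebra 𝒜]
  {n : ℕ}

/-- P08: as `exists_okDataP`, and there are bases of `𝒜 m` adapted to the filtration of `E`. -/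
theorem exists_okData_basisP (h : IsPol 𝒜 n) (hn : 1 ≤ n) :
    ∃ D : OkData n, (∀ m, 1 ≤ m → (D.Γ m).card = secDim 𝒜 m) ∧
      ∀ E : DivisorOver 𝒜 n 1, ∃ g : ℕ → (Fin n → ℕ) → ℕ, D.IsWeight g ∧
        (∀ m, 1 ≤ m → ∀ r : ℝ, D.cnt g m r = Module.finrank ℂ (E.filt 𝒜 m r)) ∧
        ∀ m, 1 ≤ m → ∃ b : Fin (secDim 𝒜 m) → R, (∀ i, b i ∈ 𝒜 m) ∧ LinearIndependent ℂ b ∧
          ∑ i, E.ord (E.φ 0 (b i)) = (∑ γ ∈ D.Γ m, g m γ : ℕ) := by
  classical
  obtain ⟨D, hD, hE⟩ := exists_okDataP h hn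
  refine ⟨D, hD, fun E => ?_⟩
  obtain ⟨g, hg, hcnt, -⟩ := hE E
  refine ⟨g, hg, hcnt, fun m hm => ?_⟩
  have := finite_gradedP h m
  have hord : ∀ (k : ℕ) (s : R), ENNReal.ofReal k ≤ (E.ord (E.φ 0 s) : ℝ≥0∞) ↔
      (k : ℕ∞) ≤ E.ord (E.φ 0 s) := by
    intro k s
    rw [ENNReal.ofReal_natCast]
    rw [← ENat.toENNReal_coe, ENat.toENNReal_le]
  obtain ⟨b, g', hb, hbg, hc⟩ := okBasis_exists (V := 𝒜 m) (fun v => E.ord (E.φ 0 v))
    (fun k => (E.filt 𝒜 m k).comap (𝒜 m).subtype) (by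
      intro k v
      rw [Submodule.mem_comap]
      constructor
      · intro hv
        exact (hord k v).1 hv.2
      · intro hv
        exact ⟨v.2, (hord k v).2 hv⟩) (by
      intro v hv
      exact ord_ne_topP h hn E m v v.2 (by simpa using hv))
  have hfin : ∀ k : ℕ, Module.finrank ℂ ((E.filt 𝒜 m k).comap (𝒜 m).subtype) =
      Module.finrank ℂ (E.filt 𝒜 m k) := by
    intro k
    have hle : E.filt 𝒜 m k ≤ 𝒜 m := fun s hs => hs.1
    exact LinearEquiv.finrank_eq (Submodule.comapSubtypeEquivOfLe hle)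
  refine ⟨fun i => b i, fun i => (b i).2, ?_, ?_⟩
  · exact hb.map' (𝒜 m).subtype (Submodule.ker_subtype _)
  · have e1 : ∑ i, E.ord (E.φ 0 (b i)) = ((∑ i, g' i : ℕ) : ℕ∞) := by
      push_cast
      exact Finset.sum_congr rfl fun i _ => hbg i
    refine e1.trans ?_
    congr 1
    obtain ⟨K, hK1, hK2⟩ : ∃ K, (∀ i ∈ (Finset.univ : Finset (Fin (secDim 𝒜 m))), g' i ≤ K) ∧
        ∀ γ ∈ D.Γ m, g m γ ≤ K := by
      refine ⟨∑ i, g' i + ∑ γ ∈ D.Γ m, g m γ, fun i hi => ?_, fun γ hγ => ?_⟩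
      · have h0 : g' i ≤ ∑ i, g' i :=
          Finset.single_le_sum (f := g') (fun i _ => Nat.zero_le _) (Finset.mem_univ i)
        exact h0.trans (Nat.le_add_right _ _)
      · have := Finset.single_le_sum (f := g m) (fun i _ => Nat.zero_le _) hγ
        omega
    have e2 := okBasis_sum _ g' K hK1
    have e3 := okBasis_sum _ (g m) K hK2
    rw [e3]
    refine e2.trans (Finset.sum_congr rfl fun k _ => ?_)
    have e4 := hc (k + 1)
    have e5 := hcnt m hm ((k + 1 : ℕ) : ℝ)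
    rw [hfin] at e4
    refine e4.trans (e5.symm.trans ?_)
    unfold OkData.cnt
    congr 1
    ext γ
    simp only [Finset.mem_filter, Nat.cast_le]

end Pool.Agent.Lib_KF

end

/-! ### from `Lib_KF.RCirc` -/

section

/-! RS13: the one variable argument. -/

open MeasureTheory Complex Set Metric
open scoped ENNReal NNReal ContDiff ComplexConjugate

namespace Pool.Agent.Lib_KF

private theorem rCirc_rot (c : ℂ) (θ : ℝ) :
    MeasurePreserving (fun w : ℂ => c + (w - c) * circleMap 0 1 θ) := by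
  have h1 : MeasurePreserving (fun w : ℂ => w - c) := measurePreserving_sub_right volume c
  have h2 : MeasurePreserving (fun w : ℂ => w * circleMap 0 1 θ) := by
    have h := (rotation (Circle.exp θ)).measurePreserving
    convert h using 1
    funext w
    rw [rotation_apply, Circle.coe_exp, circleMap]
    simp [mul_comm]
  have h3 : MeasurePreserving (fun w : ℂ => c + w) := measurePreserving_add_left volume c
  exact h3.comp (h2.comp h1)

/-- Mean value inequality for `|F|²` on rotation invariant sets. -/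
private theorem rCirc_mean {F : ℂ → ℂ} {c : ℂ} {ρ : ℝ}
    (hF : ∀ z, ‖z - c‖ ≤ ρ → DifferentiableAt ℂ F z) (hFm : Measurable F) {T : Set ℝ}
    (hT : MeasurableSet T) (hTρ : ∀ t ∈ T, t ≤ ρ) :
    ENNReal.ofReal (‖F c‖ ^ 2) * volume {w : ℂ | ‖w - c‖ ∈ T} ≤
      ∫⁻ w in {w : ℂ | ‖w - c‖ ∈ T}, ENNReal.ofReal (‖F w‖ ^ 2) := by
  set D : Set ℂ := {w : ℂ | ‖w - c‖ ∈ T} with hD
  have hDm : MeasurableSet D := by
    have : Measurable (fun w : ℂ => ‖w - c‖) := by fun_prop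
    exact this hT
  have hgm : Measurable (fun w : ℂ => ENNReal.ofReal (‖F w‖ ^ 2)) := by fun_prop
  set A := ∫⁻ w in D, ENNReal.ofReal (‖F w‖ ^ 2) with hA
  have hrot : ∀ θ : ℝ, ∫⁻ w in D, ENNReal.ofReal (‖F (c + (w - c) * circleMap 0 1 θ)‖ ^ 2) = A := by
    intro θ
    have h := (rCirc_rot c θ).setLIntegral_comp_preimage hDm hgm
    rw [hA, ← h]
    congr 2
    ext w
    simp [hD]
  have hswap : ∫⁻ θ in Ioc (0 : ℝ) (2 * Real.pi), ∫⁻ w in D,
      ENNReal.ofReal (‖F (c + (w - c) * circleMap 0 1 θ)‖ ^ 2) =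
      ∫⁻ w in D, ∫⁻ θ in Ioc (0 : ℝ) (2 * Real.pi),
        ENNReal.ofReal (‖F (c + (w - c) * circleMap 0 1 θ)‖ ^ 2) := by
    refine lintegral_lintegral_swap ?_
    refine Measurable.aemeasurable ?_
    have h1 : Measurable (fun p : ℝ × ℂ => c + (p.2 - c) * circleMap 0 1 p.1) := by
      have : Continuous (fun p : ℝ × ℂ => c + (p.2 - c) * circleMap 0 1 p.1) := by
        unfold circleMap
        fun_prop
      exact this.measurable
    exact hgm.comp h1
  have hvol : volume (Ioc (0 : ℝ) (2 * Real.pi)) = ENNReal.ofReal (2 * Real.pi) := by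
    rw [Real.volume_Ioc, sub_zero]
  have hpt : ∀ w ∈ D, ENNReal.ofReal (2 * Real.pi) * ENNReal.ofReal (‖F c‖ ^ 2) ≤
      ∫⁻ θ in Ioc (0 : ℝ) (2 * Real.pi),
        ENNReal.ofReal (‖F (c + (w - c) * circleMap 0 1 θ)‖ ^ 2) := by
    intro w hw
    have hwρ : ‖w - c‖ ≤ ρ := hTρ _ hw
    set G : ℂ → ℂ := fun z => (F (c + (w - c) * z)) ^ 2 with hG
    have hGd : ∀ z : ℂ, ‖z‖ ≤ 1 → DifferentiableAt ℂ G z := by
      intro z hz
      have h1 : DifferentiableAt ℂ F (c + (w - c) * z) := by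
        apply hF
        rw [add_sub_cancel_left, norm_mul]
        calc ‖w - c‖ * ‖z‖ ≤ ‖w - c‖ * 1 := by gcongr
          _ ≤ ρ := by rw [mul_one]; exact hwρ
      have h2 : DifferentiableAt ℂ (fun z => c + (w - c) * z) z := by fun_prop
      exact (DifferentiableAt.comp z h1 h2).pow 2
    have hav : Real.circleAverage G 0 1 = G 0 := by
      apply circleAverage_of_differentiable_on_off_countable (s := ∅) countable_empty
      · intro z hz
        refine (hGd z ?_).continuousAt.continuousWithinAt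
        simpa using hz
      · intro z hz
        refine hGd z ?_
        have := hz.1
        rw [mem_ball_zero_iff, abs_one] at this
        exact this.le
    have h0 : G 0 = F c ^ 2 := by simp [hG]
    rw [h0, Real.circleAverage_def] at hav
    have h3 : ∫ θ in (0 : ℝ)..2 * Real.pi, G (circleMap 0 1 θ) = ((2 * Real.pi : ℝ) : ℂ) * F c ^ 2 := by
      rw [← hav, real_smul, ← mul_assoc, ← ofReal_mul, mul_inv_cancel₀ Real.two_pi_pos.ne']
      simp
    rw [intervalIntegral.integral_of_le Real.two_pi_pos.le] at h3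
    have h4 := enorm_integral_le_lintegral_enorm (μ := volume.restrict (Ioc (0 : ℝ) (2 * Real.pi)))
      (fun θ => G (circleMap 0 1 θ))
    rw [h3] at h4
    refine le_trans (le_of_eq ?_) (h4.trans (le_of_eq ?_))
    · rw [← ENNReal.ofReal_mul Real.two_pi_pos.le, ← ofReal_norm, norm_mul, norm_pow,
        Complex.norm_real, Real.norm_of_nonneg Real.two_pi_pos.le]
    · refine lintegral_congr fun θ => ?_
      rw [← ofReal_norm, hG, norm_pow]
  have h5 : ENNReal.ofReal (2 * Real.pi) * ENNReal.ofReal (‖F c‖ ^ 2) * volume D ≤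
      A * ENNReal.ofReal (2 * Real.pi) := by
    calc ENNReal.ofReal (2 * Real.pi) * ENNReal.ofReal (‖F c‖ ^ 2) * volume D
        = ∫⁻ _ in D, ENNReal.ofReal (2 * Real.pi) * ENNReal.ofReal (‖F c‖ ^ 2) := by
          rw [setLIntegral_const]
      _ ≤ ∫⁻ w in D, ∫⁻ θ in Ioc (0 : ℝ) (2 * Real.pi),
        ENNReal.ofReal (‖F (c + (w - c) * circleMap 0 1 θ)‖ ^ 2) := setLIntegral_mono' hDm hpt
      _ = A * ENNReal.ofReal (2 * Real.pi) := by
          rw [← hswap, lintegral_congr hrot, setLIntegral_const, hvol]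
  have h6 : ENNReal.ofReal (2 * Real.pi) ≠ 0 := by
    simpa using Real.two_pi_pos
  rw [mul_comm A, mul_assoc] at h5
  exact (ENNReal.mul_le_mul_iff_right h6 ENNReal.ofReal_ne_top).1 h5


/-- If `|f - 1|² / |s|²` is integrable near `0` then `f → 1`. -/
private theorem rCirc_tendsto {f : ℂ → ℂ} (hf : DifferentiableOn ℂ f {0}ᶜ) {ρ : ℝ} (hρ : 0 < ρ)
    (hfin : ∫⁻ s in ball (0 : ℂ) ρ, ENNReal.ofReal (‖f s - 1‖ ^ 2 * (‖s‖ ^ 2)⁻¹) ≠ (⊤ : ℝ≥0∞)) :
    Filter.Tendsto f (nhdsWithin 0 {0}ᶜ) (nhds 1) := by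
  have hfm : Measurable f := measurable_of_continuousOn_compl_singleton 0 hf.continuousOn
  have hfd : ∀ z : ℂ, z ≠ 0 → DifferentiableAt ℂ f z := fun z hz =>
    hf.differentiableAt (isOpen_compl_singleton.mem_nhds hz)
  set g : ℂ → ℝ≥0∞ := (ball (0 : ℂ) ρ).indicator
    (fun s => ENNReal.ofReal (‖f s - 1‖ ^ 2 * (‖s‖ ^ 2)⁻¹)) with hg
  have hgi : ∫⁻ s, g s ≠ (⊤ : ℝ≥0∞) := by
    rw [hg, lintegral_indicator measurableSet_ball]
    exact hfin
  have hgm : Measurable g := by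
    rw [hg]
    refine Measurable.indicator ?_ measurableSet_ball
    fun_prop
  have key : ∀ s : ℂ, s ≠ 0 → ‖s‖ < ρ / 2 → ENNReal.ofReal (‖f s - 1‖ ^ 2) ≤
      9 * ∫⁻ w in ball (0 : ℂ) (2 * ‖s‖), g w := by
    intro s hs hsρ
    have hs0 : 0 < ‖s‖ := norm_pos_iff.2 hs
    set r : ℝ := ‖s‖ / 2 with hr
    have hr0 : 0 < r := by positivity
    have hlow : ∀ w : ℂ, ‖w - s‖ ≤ r → r ≤ ‖w‖ ∧ ‖w‖ ≤ 3 * r := by
      intro w hw
      have h1 : ‖s‖ ≤ ‖w‖ + ‖w - s‖ := by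
        calc ‖s‖ = ‖w - (w - s)‖ := by congr 1; ring
          _ ≤ _ := norm_sub_le _ _
      have h2 : ‖w‖ ≤ ‖s‖ + ‖w - s‖ := by
        calc ‖w‖ = ‖s + (w - s)‖ := by congr 1; ring
          _ ≤ _ := norm_add_le _ _
      have h3 : ‖s‖ = 2 * r := by rw [hr]; ring
      constructor <;> linarith
    have hm := rCirc_mean (F := fun w => f w - 1) (c := s) (ρ := r) (T := Iic r)
      (fun z hz => (hfd z (fun h => by
        have := (hlow z hz).1
        rw [h, norm_zero] at this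
        linarith)).sub_const 1) (hfm.sub_const 1) measurableSet_Iic (fun t ht => ht)
    have hset : {w : ℂ | ‖w - s‖ ∈ Iic r} = closedBall s r := by
      ext w
      simp [mem_closedBall, dist_eq_norm]
    rw [hset, Complex.volume_closedBall] at hm
    have h1 : ∫⁻ w in closedBall s r, ENNReal.ofReal (‖f w - 1‖ ^ 2) ≤
        ∫⁻ w in closedBall s r, ENNReal.ofReal (9 * r ^ 2) * g w := by
      refine setLIntegral_mono' measurableSet_closedBall fun w hw => ?_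
      rw [mem_closedBall, dist_eq_norm] at hw
      obtain ⟨h2, h3⟩ := hlow w hw
      have hw0 : 0 < ‖w‖ := hr0.trans_le h2
      have hwb : w ∈ ball (0 : ℂ) ρ := by
        rw [mem_ball_zero_iff]
        have : r < ρ / 4 := by rw [hr]; linarith
        linarith
      rw [hg, indicator_of_mem hwb, ← ENNReal.ofReal_mul (by positivity)]
      refine ENNReal.ofReal_le_ofReal ?_
      have h4 : 1 ≤ 9 * r ^ 2 * (‖w‖ ^ 2)⁻¹ := by
        rw [← div_eq_mul_inv, one_le_div (by positivity)]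
        nlinarith
      calc ‖f w - 1‖ ^ 2 = ‖f w - 1‖ ^ 2 * 1 := by ring
        _ ≤ ‖f w - 1‖ ^ 2 * (9 * r ^ 2 * (‖w‖ ^ 2)⁻¹) := by gcongr
        _ = 9 * r ^ 2 * (‖f w - 1‖ ^ 2 * (‖w‖ ^ 2)⁻¹) := by ring
    have h5 : ∫⁻ w in closedBall s r, ENNReal.ofReal (9 * r ^ 2) * g w ≤
        ENNReal.ofReal (9 * r ^ 2) * ∫⁻ w in ball (0 : ℂ) (2 * ‖s‖), g w := by
      rw [lintegral_const_mul _ hgm]
      gcongr
      intro w hw
      rw [mem_closedBall, dist_eq_norm] at hw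
      rw [mem_ball_zero_iff]
      have := (hlow w hw).2
      have h3 : ‖s‖ = 2 * r := by rw [hr]; ring
      linarith
    have h6 := hm.trans (h1.trans h5)
    have h7 : ENNReal.ofReal (r ^ 2) * ENNReal.ofReal (‖f s - 1‖ ^ 2) ≤
        ENNReal.ofReal (r ^ 2) * (9 * ∫⁻ w in ball (0 : ℂ) (2 * ‖s‖), g w) := by
      refine le_trans ?_ (h6.trans (le_of_eq ?_))
      · rw [← ENNReal.ofReal_pow hr0.le, mul_comm]
        gcongr
        calc ENNReal.ofReal (r ^ 2) = ENNReal.ofReal (r ^ 2) * 1 := (mul_one _).symm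
          _ ≤ _ := by
            gcongr
            have hpi : (1 : ℝ≥0) ≤ NNReal.pi := by
              rw [← NNReal.coe_le_coe, NNReal.coe_real_pi, NNReal.coe_one]
              linarith [Real.pi_gt_three]
            exact_mod_cast hpi
      · rw [ENNReal.ofReal_mul (by norm_num : (0:ℝ) ≤ 9), show ENNReal.ofReal 9 = 9 by
          rw [show (9 : ℝ) = ((9 : ℕ) : ℝ) by norm_num, ENNReal.ofReal_natCast]; rfl]
        ring
    have h8 : ENNReal.ofReal (r ^ 2) ≠ 0 := by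
      rw [ne_eq, ENNReal.ofReal_eq_zero, not_le]
      positivity
    exact (ENNReal.mul_le_mul_iff_right h8 ENNReal.ofReal_ne_top).1 h7
  have hT : Filter.Tendsto (fun s : ℂ => 9 * ∫⁻ w in ball (0 : ℂ) (2 * ‖s‖), g w)
      (nhdsWithin 0 {0}ᶜ) (nhds 0) := by
    have h1 : Filter.Tendsto (fun s : ℂ => ∫⁻ w in ball (0 : ℂ) (2 * ‖s‖), g w)
        (nhdsWithin 0 {0}ᶜ) (nhds 0) := by
      refine tendsto_setLIntegral_zero hgi ?_
      have h2 : (volume ∘ fun s : ℂ => ball (0 : ℂ) (2 * ‖s‖)) =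
          fun s : ℂ => ENNReal.ofReal (2 * ‖s‖) ^ 2 * NNReal.pi := by
        funext s
        simp only [Function.comp, Complex.volume_ball]
      rw [h2]
      have h3 : Filter.Tendsto (fun s : ℂ => ENNReal.ofReal (2 * ‖s‖)) (nhdsWithin 0 {0}ᶜ)
          (nhds 0) := by
        have : Filter.Tendsto (fun s : ℂ => ENNReal.ofReal (2 * ‖s‖)) (nhds 0)
            (nhds (ENNReal.ofReal (2 * ‖(0 : ℂ)‖))) :=
          (ENNReal.continuous_ofReal.comp (by fun_prop)).tendsto 0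
        rw [norm_zero, mul_zero, ENNReal.ofReal_zero] at this
        exact this.mono_left nhdsWithin_le_nhds
      have h4 := ENNReal.Tendsto.mul_const (ENNReal.Tendsto.pow h3 (n := 2))
        (b := (NNReal.pi : ℝ≥0∞)) (Or.inr ENNReal.coe_ne_top)
      simpa using h4
    have h5 := ENNReal.Tendsto.const_mul h1 (a := 9) (Or.inr (by norm_num))
    simpa using h5
  have hT2 : Filter.Tendsto (fun s : ℂ => ENNReal.ofReal (‖f s - 1‖ ^ 2))
      (nhdsWithin 0 {0}ᶜ) (nhds 0) := by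
    refine tendsto_of_tendsto_of_tendsto_of_le_of_le' tendsto_const_nhds hT
      (Filter.Eventually.of_forall fun _ => zero_le) ?_
    have h1 : ∀ᶠ s : ℂ in nhdsWithin 0 {0}ᶜ, s ∈ ball (0 : ℂ) (ρ / 2) :=
      nhdsWithin_le_nhds (ball_mem_nhds 0 (by positivity))
    filter_upwards [h1, self_mem_nhdsWithin] with s hs1 hs2
    exact key s hs2 (by simpa using hs1)
  have hT3 : Filter.Tendsto (fun s : ℂ => ‖f s - 1‖ ^ 2) (nhdsWithin 0 {0}ᶜ) (nhds 0) := by
    have h1 := (ENNReal.tendsto_toReal ENNReal.zero_ne_top).comp hT2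
    refine (h1.congr fun s => ?_)
    simp only [Function.comp]
    rw [ENNReal.toReal_ofReal (by positivity)]
  have hT4 : Filter.Tendsto (fun s : ℂ => ‖f s - 1‖) (nhdsWithin 0 {0}ᶜ) (nhds 0) := by
    have h1 := hT3.sqrt
    rw [Real.sqrt_zero] at h1
    refine h1.congr fun s => ?_
    rw [Real.sqrt_sq (norm_nonneg _)]
  have h5 := tendsto_zero_iff_norm_tendsto_zero.2 hT4
  have h6 := h5.add_const 1
  simpa using h6


private theorem rCirc_cut_one {t : ℝ} (ht : t ≤ 1 / 4) : cut t = 1 := by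
  unfold cut
  exact Real.smoothTransition.one_of_one_le (by linarith)

private theorem rCirc_cut_zero {t : ℝ} (ht : 1 ≤ t) : cut t = 0 := by
  unfold cut
  exact Real.smoothTransition.zero_of_nonpos (by linarith)

private theorem rCirc_entire {f : ℂ → ℂ} (hf : DifferentiableOn ℂ f {0}ᶜ)
    (h : Filter.Tendsto f (nhdsWithin 0 {0}ᶜ) (nhds 1)) :
    Differentiable ℂ (Function.update f 0 1) := by
  rw [← differentiableOn_univ, ← differentiableOn_compl_singleton_and_continuousAt_iff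
    (c := (0 : ℂ)) Filter.univ_mem]
  refine ⟨?_, continuousAt_update_same.2 h⟩
  rw [← compl_eq_univ_sdiff]
  refine hf.congr fun z hz => ?_
  exact Function.update_of_ne hz _ _

/-- The inequality for one `σ`. -/
private theorem rCirc_step (a : ℝ) (ha : 0 < a) (Λ : ℕ) (hΛ : 1 ≤ Λ) (c₁ σ₀ c₂ K : ℝ)
    (hc₁ : 0 < c₁) (hc₂ : 0 < c₂) (J : ℝ → ℂ → ℝ≥0∞)
    (hJ : ∀ ε s, 0 < ε → 0 < ‖s‖ → ‖s‖ < σ₀ → ε ≤ ‖s‖ ^ Λ →
      ENNReal.ofReal (c₁ * ‖s‖ ^ (-2 * a)) ≤ J ε s)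
    (hJ0 : ∀ ε s, 0 < ε → ε ≤ 1 → ‖s‖ ≤ 1 → ENNReal.ofReal c₂ ≤ J ε s) {τ σ : ℝ} (hτ : 0 < τ)
    (hτ1 : τ ≤ 1) (hσ : 0 < σ) (hσ1 : σ < 1) (hσ0 : σ < σ₀)
    (hf : ∃ f : ℂ → ℂ, DifferentiableOn ℂ f {0}ᶜ ∧
        ∫⁻ s, ENNReal.ofReal (‖(cut (‖s‖ ^ 2 / ((σ / 2) ^ Λ) ^ 2) : ℂ) - f s‖ ^ 2 *
          ws ((σ / 2) ^ Λ) τ s) * J ((σ / 2) ^ Λ) s ≤ ENNReal.ofReal (K / τ)) :
    c₁ * σ ^ (-2 * a) * ((σ ^ 2)⁻¹ * (2 * σ ^ 2 / ((σ / 2) ^ Λ) ^ 2) ^ (-τ)) *
      (σ ^ 2 / 16) ≤ K / τ := by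
  obtain ⟨f, hfd, hfi⟩ := hf
  have hfm : Measurable f := measurable_of_continuousOn_compl_singleton 0 hfd.continuousOn
  set ε : ℝ := (σ / 2) ^ Λ with hε
  have hε0 : 0 < ε := by positivity
  have hε2 : ε ≤ σ / 2 := by
    calc ε ≤ (σ / 2) ^ 1 := pow_le_pow_of_le_one (by positivity) (by linarith) hΛ
      _ = σ / 2 := pow_one _
  have hε1 : ε ≤ 1 := by linarith
  -- the weight is positive
  have hlim : Filter.Tendsto f (nhdsWithin 0 {0}ᶜ) (nhds 1) := by
    refine rCirc_tendsto hfd (ρ := ε / 2) (by positivity) ?_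
    set q : ℝ := (5 / 4 : ℝ) ^ (-τ) * c₂ with hq
    have hq0 : 0 < q := by positivity
    have h1 : ∫⁻ s in ball (0 : ℂ) (ε / 2), ENNReal.ofReal q *
        ENNReal.ofReal (‖f s - 1‖ ^ 2 * (‖s‖ ^ 2)⁻¹) ≤ ENNReal.ofReal (K / τ) := by
      refine le_trans ?_ (le_trans (setLIntegral_le_lintegral (ball (0 : ℂ) (ε / 2)) _) hfi)
      refine setLIntegral_mono' measurableSet_ball fun s hs => ?_
      rw [mem_ball_zero_iff] at hs
      have ht : ‖s‖ ^ 2 / ε ^ 2 ≤ 1 / 4 := by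
        rw [div_le_iff₀ (by positivity)]
        nlinarith [norm_nonneg s]
      rw [rCirc_cut_one ht]
      have hJs := hJ0 ε s hε0 hε1 (by linarith)
      refine le_trans ?_ (mul_le_mul_right hJs _)
      rw [← ENNReal.ofReal_mul hq0.le, ← ENNReal.ofReal_mul (by unfold ws; positivity)]
      refine ENNReal.ofReal_le_ofReal ?_
      have h2 : (5 / 4 : ℝ) ^ (-τ) ≤ (1 + ‖s‖ ^ 2 / ε ^ 2) ^ (-τ) :=
        Real.rpow_le_rpow_of_nonpos (by positivity) (by linarith) (by linarith)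
      rw [ofReal_one, norm_sub_rev (1 : ℂ) (f s)]
      unfold ws
      calc q * (‖f s - 1‖ ^ 2 * (‖s‖ ^ 2)⁻¹)
          = ‖f s - 1‖ ^ 2 * ((‖s‖ ^ 2)⁻¹ * (5 / 4 : ℝ) ^ (-τ)) * c₂ := by rw [hq]; ring
        _ ≤ _ := by gcongr
    rw [lintegral_const_mul _ (by fun_prop)] at h1
    intro htop
    rw [htop, ENNReal.mul_top (by rw [ne_eq, ENNReal.ofReal_eq_zero, not_le]; exact hq0)] at h1
    exact (lt_of_le_of_lt h1 ENNReal.ofReal_lt_top).ne rfl
  have hent := rCirc_entire hfd hlim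
  set F := Function.update f 0 1 with hF
  have hF0 : F 0 = 1 := Function.update_self _ _ _
  have hFf : ∀ s : ℂ, s ≠ 0 → F s = f s := fun s hs => Function.update_of_ne hs _ _
  have hm := rCirc_mean (F := F) (c := 0) (ρ := σ) (T := Ioo (σ / 2) σ)
    (fun z _ => hent z) hent.continuous.measurable measurableSet_Ioo (fun t ht => ht.2.le)
  rw [hF0] at hm
  set D : Set ℂ := {w : ℂ | ‖w - 0‖ ∈ Ioo (σ / 2) σ} with hD
  have hDm : MeasurableSet D := by
    have : Measurable (fun w : ℂ => ‖w - 0‖) := by fun_prop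
    exact this measurableSet_Ioo
  have hDv : ENNReal.ofReal (σ ^ 2 / 16) ≤ volume D := by
    have h1 : ball ((3 * σ / 4 : ℝ) : ℂ) (σ / 4) ⊆ D := by
      intro w hw
      rw [mem_ball, dist_eq_norm] at hw
      have hn : ‖((3 * σ / 4 : ℝ) : ℂ)‖ = 3 * σ / 4 := by
        rw [Complex.norm_real, Real.norm_of_nonneg (by positivity)]
      have h2 : ‖((3 * σ / 4 : ℝ) : ℂ)‖ ≤ ‖w‖ + ‖w - ((3 * σ / 4 : ℝ) : ℂ)‖ := by
        calc ‖((3 * σ / 4 : ℝ) : ℂ)‖ = ‖w - (w - ((3 * σ / 4 : ℝ) : ℂ))‖ := by congr 1; ring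
          _ ≤ _ := norm_sub_le _ _
      have h3 : ‖w‖ ≤ ‖((3 * σ / 4 : ℝ) : ℂ)‖ + ‖w - ((3 * σ / 4 : ℝ) : ℂ)‖ := by
        calc ‖w‖ = ‖((3 * σ / 4 : ℝ) : ℂ) + (w - ((3 * σ / 4 : ℝ) : ℂ))‖ := by congr 1; ring
          _ ≤ _ := norm_add_le _ _
      rw [hn] at h2 h3
      simp only [hD, mem_ofPred_eq, sub_zero, mem_Ioo]
      constructor <;> linarith
    refine le_trans ?_ (measure_mono h1)
    rw [Complex.volume_ball, ← ENNReal.ofReal_pow (by positivity),
      show σ ^ 2 / 16 = (σ / 4) ^ 2 by ring]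
    calc ENNReal.ofReal ((σ / 4) ^ 2) = ENNReal.ofReal ((σ / 4) ^ 2) * 1 := (mul_one _).symm
      _ ≤ _ := by
        gcongr
        have hpi : (1 : ℝ≥0) ≤ NNReal.pi := by
          rw [← NNReal.coe_le_coe, NNReal.coe_real_pi, NNReal.coe_one]
          linarith [Real.pi_gt_three]
        exact_mod_cast hpi
  set C : ℝ := c₁ * σ ^ (-2 * a) * ((σ ^ 2)⁻¹ * (2 * σ ^ 2 / ε ^ 2) ^ (-τ)) with hC
  have hC0 : 0 < C := by positivity
  have h2 : ENNReal.ofReal C * ∫⁻ w in D, ENNReal.ofReal (‖F w‖ ^ 2) ≤ ENNReal.ofReal (K / τ) := by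
    rw [← lintegral_const_mul _ (by have := hent.continuous.measurable; fun_prop)]
    refine le_trans ?_ (le_trans (setLIntegral_le_lintegral D _) hfi)
    refine setLIntegral_mono' hDm fun s hs => ?_
    simp only [hD, mem_ofPred_eq, sub_zero, mem_Ioo] at hs
    have hs0 : 0 < ‖s‖ := by linarith [hs.1]
    have hεs : ε ≤ ‖s‖ ^ Λ := by
      rw [hε]
      exact pow_le_pow_left₀ (by positivity) hs.1.le _
    have ht : 1 ≤ ‖s‖ ^ 2 / ε ^ 2 := by
      rw [one_le_div (by positivity)]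
      exact pow_le_pow_left₀ hε0.le (by linarith [hs.1]) _
    rw [rCirc_cut_zero ht, hFf s (norm_pos_iff.1 hs0)]
    have hJs := hJ ε s hε0 hs0 (by linarith [hs.2]) hεs
    refine le_trans ?_ (mul_le_mul_right hJs _)
    rw [← ENNReal.ofReal_mul hC0.le, ← ENNReal.ofReal_mul (by unfold ws; positivity)]
    refine ENNReal.ofReal_le_ofReal ?_
    rw [ofReal_zero, zero_sub, norm_neg]
    have e1 : σ ^ (-2 * a) ≤ ‖s‖ ^ (-2 * a) :=
      Real.rpow_le_rpow_of_nonpos hs0 hs.2.le (by linarith)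
    have e2 : (σ ^ 2)⁻¹ ≤ (‖s‖ ^ 2)⁻¹ := by
      gcongr
      exact hs.2.le
    have e3 : (2 * σ ^ 2 / ε ^ 2) ^ (-τ) ≤ (1 + ‖s‖ ^ 2 / ε ^ 2) ^ (-τ) := by
      refine Real.rpow_le_rpow_of_nonpos (by positivity) ?_ (by linarith)
      have e4 : ‖s‖ ^ 2 ≤ σ ^ 2 := pow_le_pow_left₀ hs0.le hs.2.le _
      have e5 : 1 ≤ σ ^ 2 / ε ^ 2 := ht.trans (by gcongr)
      have e6 : ‖s‖ ^ 2 / ε ^ 2 ≤ σ ^ 2 / ε ^ 2 := by gcongr
      rw [mul_div_assoc]
      linarith
    unfold ws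
    calc C * ‖f s‖ ^ 2 = ‖f s‖ ^ 2 * ((σ ^ 2)⁻¹ * (2 * σ ^ 2 / ε ^ 2) ^ (-τ)) *
          (c₁ * σ ^ (-2 * a)) := by rw [hC]; ring
      _ ≤ _ := by gcongr
  have h3 : ENNReal.ofReal (C * (σ ^ 2 / 16)) ≤ ENNReal.ofReal (K / τ) := by
    refine le_trans ?_ h2
    rw [ENNReal.ofReal_mul hC0.le]
    gcongr
    refine hDv.trans ?_
    refine le_trans (le_of_eq ?_) hm
    simp
  rcases ENNReal.ofReal_le_ofReal_iff'.1 h3 with h4 | h4
  · exact h4
  · exact absurd h4 (not_le.2 (by positivity))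


theorem circle_argument (a : ℝ) (Λ : ℕ) (hΛ : 1 ≤ Λ) (c₁ σ₀ c₂ K : ℝ) (hc₁ : 0 < c₁)
    (hσ₀ : 0 < σ₀) (hc₂ : 0 < c₂) (J : ℝ → ℂ → ℝ≥0∞)
    (hJ : ∀ ε s, 0 < ε → 0 < ‖s‖ → ‖s‖ < σ₀ → ε ≤ ‖s‖ ^ Λ →
      ENNReal.ofReal (c₁ * ‖s‖ ^ (-2 * a)) ≤ J ε s)
    (hJ0 : ∀ ε s, 0 < ε → ε ≤ 1 → ‖s‖ ≤ 1 → ENNReal.ofReal c₂ ≤ J ε s)
    (hf : ∀ ε τ : ℝ, 0 < ε → ε ≤ 1 → 0 < τ → τ ≤ 1 →
      ∃ f : ℂ → ℂ, DifferentiableOn ℂ f {0}ᶜ ∧
        ∫⁻ s, ENNReal.ofReal (‖(cut (‖s‖ ^ 2 / ε ^ 2) : ℂ) - f s‖ ^ 2 * ws ε τ s) * J ε s ≤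
          ENNReal.ofReal (K / τ)) : a ≤ 0 := by
  by_contra hcon
  have ha : 0 < a := not_le.1 hcon
  have hΛ0 : (0 : ℝ) < Λ := by exact_mod_cast hΛ
  set τ : ℝ := min 1 (a / (2 * Λ)) with hτd
  have hτ : 0 < τ := lt_min one_pos (by positivity)
  have hτ1 : τ ≤ 1 := min_le_left _ _
  have hτa : 2 * Λ * τ ≤ a := by
    have h1 : τ ≤ a / (2 * Λ) := min_le_right _ _
    rw [le_div_iff₀ (by positivity)] at h1
    linarith
  set q : ℝ := c₁ * ((2 : ℝ) ^ (-(2 * (Λ : ℝ) + 1) * τ)) / 16 with hq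
  have hq0 : 0 < q := by positivity
  -- the inequality `q * σ ^ (-a) ≤ K / τ` for all small `σ`
  have key : ∀ σ : ℝ, 0 < σ → σ < 1 → σ < σ₀ → q * σ ^ (-a) ≤ K / τ := by
    intro σ hσ hσ1 hσ0
    have hε0 : 0 < (σ / 2) ^ Λ := by positivity
    have hε1 : (σ / 2) ^ Λ ≤ 1 := pow_le_one₀ (by positivity) (by linarith)
    have h1 := rCirc_step a ha Λ hΛ c₁ σ₀ c₂ K hc₁ hc₂ J hJ hJ0 hτ hτ1 hσ hσ1 hσ0
      (hf _ τ hε0 hε1 hτ hτ1)
    refine le_trans ?_ h1
    have h2 : (2 * σ ^ 2 / ((σ / 2) ^ Λ) ^ 2) ^ (-τ) =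
        (2 : ℝ) ^ (-(2 * (Λ : ℝ) + 1) * τ) * σ ^ ((2 * (Λ : ℝ) - 2) * τ) := by
      have e1 : (2 * σ ^ 2 / ((σ / 2) ^ Λ) ^ 2) =
          (2 : ℝ) ^ (2 * (Λ : ℝ) + 1) * σ ^ (-(2 * (Λ : ℝ) - 2)) := by
        have e2 : ((σ / 2) ^ Λ) ^ 2 = (σ / 2) ^ (2 * (Λ : ℝ)) := by
          rw [← pow_mul, ← Real.rpow_natCast]
          congr 1
          push_cast
          ring
        rw [e2, Real.div_rpow hσ.le (by norm_num), Real.rpow_add (by norm_num : (0:ℝ) < 2),
          Real.rpow_one, neg_sub, Real.rpow_sub hσ, show (2 : ℝ) = ((2 : ℕ) : ℝ) by norm_num]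
        rw [Real.rpow_natCast σ 2]
        field_simp
      rw [e1, Real.mul_rpow (by positivity) (by positivity), ← Real.rpow_mul (by norm_num),
        ← Real.rpow_mul hσ.le]
      congr 2 <;> ring
    rw [h2]
    have h3 : σ ^ (-a) ≤ σ ^ (-2 * a) * σ ^ ((2 * (Λ : ℝ) - 2) * τ) := by
      rw [← Real.rpow_add hσ]
      refine Real.rpow_le_rpow_of_exponent_ge hσ hσ1.le ?_
      nlinarith
    calc q * σ ^ (-a) ≤ q * (σ ^ (-2 * a) * σ ^ ((2 * (Λ : ℝ) - 2) * τ)) := by gcongr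
      _ = _ := by
        rw [hq]
        field_simp
  have hlim : Filter.Tendsto (fun X : ℝ => X ^ (-(1 / a))) Filter.atTop (nhds 0) :=
    tendsto_rpow_neg_atTop (by positivity)
  have hm : 0 < min 1 σ₀ := lt_min one_pos hσ₀
  obtain ⟨X, hX1, hX2, hX3⟩ := ((hlim.eventually (gt_mem_nhds hm)).and
    ((Filter.eventually_gt_atTop (K / τ / q)).and (Filter.eventually_gt_atTop 0))).exists
  have h1 := key (X ^ (-(1 / a))) (by positivity) (hX1.trans_le (min_le_left _ _))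
    (hX1.trans_le (min_le_right _ _))
  rw [← Real.rpow_mul hX3.le, show -(1 / a) * -a = 1 by field_simp, Real.rpow_one] at h1
  rw [div_lt_iff₀ hq0] at hX2
  linarith

end Pool.Agent.Lib_KF

end

/-! ### from `Lib_GD.BJ` -/

section

/-! B08: the uniform estimate `S_m(E) ≤ (1 + ε) S(E)`. -/

open scoped ENNReal

namespace Pool.Agent.Lib_GD

variable {R : Type} [CommRing R] [Algebra ℂ R] {𝒜 : ℕ → Submodule ℂ R} [GradedAlgebra 𝒜]
  {n : ℕ}

/-- B08: `∑_i ord_E(b_i) ≤ (1 + ε) m N_m S(E)` for all bases, all divisors and all large `m`. -/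
theorem sum_ord_le (h : IsSmoothPolarised 𝒜 n) (hn : 1 ≤ n) (ε : ℝ) (hε : 0 < ε) :
    ∃ m₁ : ℕ, ∀ m, m₁ ≤ m → ∀ (E : DivisorOver 𝒜 n 1) (b : Fin (secDim 𝒜 m) → R),
      (∀ i, b i ∈ 𝒜 m) → LinearIndependent ℂ b →
      ((∑ i, (E.ord (E.φ 0 (b i))).toNat : ℕ) : ℝ≥0∞) ≤
        ENNReal.ofReal (1 + ε) * ((m * secDim 𝒜 m : ℕ) : ℝ≥0∞) * E.S 𝒜 := by
  obtain ⟨D, hcard, hE⟩ := exists_okData h hn
  obtain ⟨m₁, hm₁⟩ := D.sum_le_S ε hε
  refine ⟨max m₁ 1, fun m hm E b hb hlin => ?_⟩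
  have hm1 : m₁ ≤ m := le_trans (le_max_left _ _) hm
  have hm2 : 1 ≤ m := le_trans (le_max_right _ _) hm
  obtain ⟨g, hg, hcnt, hsum⟩ := hE E
  have hvol : D.vol = volL 𝒜 n := by
    unfold OkData.vol volL
    apply Filter.limsup_congr
    filter_upwards [Filter.eventually_ge_atTop 1] with k hk
    rw [hcard k hk]
  have hvolt : ∀ t : ℝ, D.volt g t = E.vol 𝒜 t := by
    intro t
    unfold OkData.volt DivisorOver.vol
    apply Filter.limsup_congr
    filter_upwards [Filter.eventually_ge_atTop 1] with k hk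
    rw [hcnt k hk]
  have hS : D.S g = E.S 𝒜 := by
    unfold OkData.S DivisorOver.S
    rw [hvol]
    congr 1
    apply MeasureTheory.lintegral_congr
    intro t
    exact hvolt t
  have h1 := hm₁ m hm1 g hg
  rw [hS, hcard m hm2] at h1
  refine le_trans ?_ h1
  exact_mod_cast hsum m hm2 b hb hlin

end Pool.Agent.Lib_GD

end

/-! ### from `Lib_KF.PBJ` -/

section

/-! B08: the uniform estimate `S_m(E) ≤ (1 + ε) S(E)`. -/

open scoped ENNReal

namespace Pool.Agent.Lib_KF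

open Pool.Agent.Lib_GD

variable {R : Type} [CommRing R] [Algebra ℂ R] {𝒜 : ℕ → Submodule ℂ R} [GradedAlgebra 𝒜]
  {n : ℕ}

/-- B08: `∑_i ord_E(b_i) ≤ (1 + ε) m N_m S(E)` for all bases, all divisors and all large `m`. -/
theorem sum_ord_leP (h : IsPol 𝒜 n) (hn : 1 ≤ n) (ε : ℝ) (hε : 0 < ε) :
    ∃ m₁ : ℕ, ∀ m, m₁ ≤ m → ∀ (E : DivisorOver 𝒜 n 1) (b : Fin (secDim 𝒜 m) → R),
      (∀ i, b i ∈ 𝒜 m) → LinearIndependent ℂ b →
      ((∑ i, (E.ord (E.φ 0 (b i))).toNat : ℕ) : ℝ≥0∞) ≤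
        ENNReal.ofReal (1 + ε) * ((m * secDim 𝒜 m : ℕ) : ℝ≥0∞) * E.S 𝒜 := by
  obtain ⟨D, hcard, hE⟩ := exists_okDataP h hn
  obtain ⟨m₁, hm₁⟩ := D.sum_le_S ε hε
  refine ⟨max m₁ 1, fun m hm E b hb hlin => ?_⟩
  have hm1 : m₁ ≤ m := le_trans (le_max_left _ _) hm
  have hm2 : 1 ≤ m := le_trans (le_max_right _ _) hm
  obtain ⟨g, hg, hcnt, hsum⟩ := hE E
  have hvol : D.vol = volL 𝒜 n := by
    unfold OkData.vol volL
    apply Filter.limsup_congr
    filter_upwards [Filter.eventually_ge_atTop 1] with k hk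
    rw [hcard k hk]
  have hvolt : ∀ t : ℝ, D.volt g t = E.vol 𝒜 t := by
    intro t
    unfold OkData.volt DivisorOver.vol
    apply Filter.limsup_congr
    filter_upwards [Filter.eventually_ge_atTop 1] with k hk
    rw [hcnt k hk]
  have hS : D.S g = E.S 𝒜 := by
    unfold OkData.S DivisorOver.S
    rw [hvol]
    congr 1
    apply MeasureTheory.lintegral_congr
    intro t
    exact hvolt t
  have h1 := hm₁ m hm1 g hg
  rw [hS, hcard m hm2] at h1
  refine le_trans ?_ h1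
  exact_mod_cast hsum m hm2 b hb hlin

end Pool.Agent.Lib_KF

end

/-! ### from `Lib_KF.UPF` -/

section

/-! Uniform positivity of log discrepancies from `δ > 0`. -/

open scoped ENNReal NNReal

namespace Pool.Agent.Lib_KF

open Pool.Agent.Lib_GD

variable {R : Type} [CommRing R] [Algebra ℂ R] {𝒜 : ℕ → Submodule ℂ R} [GradedAlgebra 𝒜]
  {n r d : ℕ} {x : Fin (n + 1) → R} {G : R}

/-- a basis containing a given non-zero section -/
theorem exists_basis_mem (h : IsPol 𝒜 n) (m : ℕ) (s : R) (hs : s ∈ 𝒜 m) (hs0 : s ≠ 0) :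
    ∃ b : Fin (secDim 𝒜 m) → R, (∀ i, b i ∈ 𝒜 m) ∧ LinearIndependent ℂ b ∧ ∃ i, b i = s := by
  classical
  have hfin := finite_gradedP h m
  let v : 𝒜 m := ⟨s, hs⟩
  have hv : v ≠ 0 := fun h0 => hs0 (congrArg Subtype.val h0)
  have hli : LinearIndepOn ℂ id ({v} : Set (𝒜 m)) := LinearIndepOn.singleton hv
  let B := Module.Basis.extend hli
  have hmem : v ∈ hli.extend (Set.subset_univ _) :=
    hli.subset_extend _ rfl
  have : Finite (hli.extend (Set.subset_univ _)) := Module.Finite.finite_basis B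
  have : Fintype (hli.extend (Set.subset_univ _)) := Fintype.ofFinite _
  have hcard : Fintype.card (hli.extend (Set.subset_univ _)) = secDim 𝒜 m :=
    (Module.finrank_eq_card_basis B).symm
  let e := Fintype.equivFinOfCardEq hcard
  refine ⟨fun i => (B (e.symm i) : R), fun i => (B (e.symm i)).2, ?_, e ⟨v, hmem⟩, ?_⟩
  · have h1 : LinearIndependent ℂ (fun i => B (e.symm i)) :=
      B.linearIndependent.comp _ e.symm.injective
    exact h1.map' (𝒜 m).subtype (Submodule.ker_subtype _)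
  · simp only [Equiv.symm_apply_apply]
    rw [Module.Basis.extend_apply_self]

/-- the sum of the orders in terms of the log discrepancy -/
theorem sum_ord_le_logDisc (h : IsFano 𝒜 n r d x G) (hklt : IsKltVar 𝒜 n r x G) (D : ℝ≥0)
    (hD : 0 < D)
    (hE : ∀ E : DivisorOver 𝒜 n 1, (D : ℝ≥0∞) * (E.S 𝒜 / r) ≤ ENNReal.ofReal (logDisc E r x G))
    (hn : 1 ≤ n) (ε : ℝ) (hε : 0 < ε) :
    ∃ m₁ : ℕ, ∀ m, m₁ ≤ m → ∀ (E : DivisorOver 𝒜 n 1) (b : Fin (secDim 𝒜 m) → R),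
      (∀ i, b i ∈ 𝒜 m) → LinearIndependent ℂ b →
      (D : ℝ) * ((∑ i, (E.ord (E.φ 0 (b i))).toNat : ℕ) : ℝ) ≤
        (1 + ε) * (m * secDim 𝒜 m) * r * logDisc E r x G := by
  obtain ⟨m₁, hm₁⟩ := sum_ord_leP h.isPol hn ε hε
  refine ⟨m₁, fun m hm E b hb hli => ?_⟩
  have h1 := hm₁ m hm E b hb hli
  have h2 := hE E
  have hr0 : (r : ℝ≥0∞) ≠ 0 := by
    have := h.r_pos
    exact_mod_cast (by omega : r ≠ 0)
  have hrt : (r : ℝ≥0∞) ≠ ⊤ := ENNReal.natCast_ne_top r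
  have h3 : (D : ℝ≥0∞) * E.S 𝒜 ≤ r * ENNReal.ofReal (logDisc E r x G) := by
    calc (D : ℝ≥0∞) * E.S 𝒜 = r * (D * (E.S 𝒜 / r)) := by
          rw [mul_left_comm, ENNReal.mul_div_cancel hr0 hrt]
      _ ≤ _ := by gcongr
  have h4 : (D : ℝ≥0∞) * ((∑ i, (E.ord (E.φ 0 (b i))).toNat : ℕ) : ℝ≥0∞) ≤
      ENNReal.ofReal (1 + ε) * ((m * secDim 𝒜 m : ℕ) : ℝ≥0∞) *
        (r * ENNReal.ofReal (logDisc E r x G)) := by
    calc (D : ℝ≥0∞) * ((∑ i, (E.ord (E.φ 0 (b i))).toNat : ℕ) : ℝ≥0∞)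
        ≤ D * (ENNReal.ofReal (1 + ε) * ((m * secDim 𝒜 m : ℕ) : ℝ≥0∞) * E.S 𝒜) := by gcongr
      _ = ENNReal.ofReal (1 + ε) * ((m * secDim 𝒜 m : ℕ) : ℝ≥0∞) * (D * E.S 𝒜) := by ring
      _ ≤ _ := by gcongr
  have h5 := ENNReal.toReal_mono (by
    refine ENNReal.mul_ne_top (ENNReal.mul_ne_top ENNReal.ofReal_ne_top ?_)
      (ENNReal.mul_ne_top hrt ENNReal.ofReal_ne_top)
    exact ENNReal.natCast_ne_top _) h4
  rw [ENNReal.toReal_mul, ENNReal.toReal_mul, ENNReal.toReal_mul, ENNReal.toReal_mul,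
    ENNReal.coe_toReal, ENNReal.toReal_natCast, ENNReal.toReal_natCast, ENNReal.toReal_natCast,
    ENNReal.toReal_ofReal (by linarith), ENNReal.toReal_ofReal (hklt E).le] at h5
  push_cast at h5 ⊢
  linarith

/-- The order of a fixed section is at most a constant times the log discrepancy. -/
theorem ord_le_logDisc (h : IsFano 𝒜 n r d x G) (hklt : IsKltVar 𝒜 n r x G) (D : ℝ≥0)
    (hD : 0 < D)
    (hE : ∀ E : DivisorOver 𝒜 n 1, (D : ℝ≥0∞) * (E.S 𝒜 / r) ≤ ENNReal.ofReal (logDisc E r x G))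
    (hn : 1 ≤ n) (j : ℕ) (hj : 1 ≤ j) (Q : R) (hQ : Q ∈ 𝒜 j) (hQ0 : Q ≠ 0) :
    ∃ C : ℝ, 0 < C ∧ ∀ E : DivisorOver 𝒜 n 1,
      ((E.ord (E.φ 0 Q)).toNat : ℝ) ≤ C * logDisc E r x G := by
  have hdom := h.domain
  obtain ⟨m₁, hm₁⟩ := sum_ord_le_logDisc h hklt D hD hE hn 1 one_pos
  set k := m₁ + 1 with hk
  have hm : m₁ ≤ k * j := by nlinarith
  have hQk : Q ^ k ∈ 𝒜 (k * j) := by
    have := SetLike.pow_mem_graded (A := 𝒜) k hQ
    rwa [smul_eq_mul] at this
  have hQk0 : Q ^ k ≠ 0 := pow_ne_zero _ hQ0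
  obtain ⟨b, hb, hbi, i₀, hi₀⟩ := exists_basis_mem h.isPol (k * j) (Q ^ k) hQk hQk0
  have hD' : (0 : ℝ) < D := by exact_mod_cast hD
  have hN : 0 < secDim 𝒜 (k * j) := Fin.pos i₀
  have hr := h.r_pos
  refine ⟨(1 + 1) * ((k * j : ℕ) * secDim 𝒜 (k * j)) * r / D, ?_, fun E => ?_⟩
  · have h1 : (0 : ℝ) < (k * j : ℕ) := by
      have : 0 < k * j := Nat.mul_pos (by omega) hj
      exact_mod_cast this
    have h2 : (0 : ℝ) < secDim 𝒜 (k * j) := by exact_mod_cast hN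
    have h3 : (0 : ℝ) < r := by exact_mod_cast hr
    positivity
  · have h1 := hm₁ (k * j) hm E b hb hbi
    have h2 : (E.ord (E.φ 0 Q)).toNat ≤ ∑ i, (E.ord (E.φ 0 (b i))).toNat := by
      refine le_trans ?_ (Finset.single_le_sum (f := fun i => (E.ord (E.φ 0 (b i))).toNat)
        (fun i _ => Nat.zero_le _) (Finset.mem_univ i₀))
      simp only [hi₀, map_pow]
      have h3 : E.ord (E.φ 0 Q ^ k) = k * E.ord (E.φ 0 Q) := by
        unfold DivisorOver.ord
        rw [AddValuation.map_pow]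
        simp
      rw [h3]
      by_cases htop : E.ord (E.φ 0 Q) = ⊤
      · rw [htop]
        simp
      · obtain ⟨o, ho⟩ := ENat.ne_top_iff_exists.1 htop
        rw [← ho]
        have : ((k : ℕ∞) * (o : ℕ∞)) = ((k * o : ℕ) : ℕ∞) := by push_cast; rfl
        rw [this, ENat.toNat_natCast, ENat.toNat_natCast]
        exact Nat.le_mul_of_pos_left o (by omega)
    have h4 : ((E.ord (E.φ 0 Q)).toNat : ℝ) ≤
        ((∑ i, (E.ord (E.φ 0 (b i))).toNat : ℕ) : ℝ) := by exact_mod_cast h2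
    rw [div_mul_eq_mul_div, le_div_iff₀ hD']
    calc ((E.ord (E.φ 0 Q)).toNat : ℝ) * D ≤
        ((∑ i, (E.ord (E.φ 0 (b i))).toNat : ℕ) : ℝ) * D := by gcongr
      _ = D * ((∑ i, (E.ord (E.φ 0 (b i))).toNat : ℕ) : ℝ) := mul_comm _ _
      _ ≤ _ := h1

end Pool.Agent.Lib_KF

end

/-! ### from `Lib_MP_e0d435_kv.IntGal` -/

section

/-! INT3: the Galois closure of the function field of the cone. -/

namespace Pool.Agent.Lib_MP_e0d435_kv

open Pool.Agent.Lib_GD Pool.Agent.Lib_KF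

private theorem intGal_finite {R : Type} [CommRing R] [Algebra ℂ R] {𝒜 : ℕ → Submodule ℂ R}
    [GradedAlgebra 𝒜] {n r d : ℕ} {x : Fin (n + 1) → R} {G : R} (h : IsFano 𝒜 n r d x G) :
    ((MvPolynomial.aeval x : Pol (n + 1) →ₐ[ℂ] R) : Pol (n + 1) →+* R).Finite := by
  haveI := h.x_finite
  have h1 : (algebraMap (Algebra.adjoin ℂ (Set.range x)) R).Finite :=
    RingHom.finite_algebraMap.2 h.x_finite
  have h2 : ((h.x_indep.aevalEquiv : Pol (n + 1) →ₐ[ℂ] Algebra.adjoin ℂ (Set.range x)) :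
      Pol (n + 1) →+* Algebra.adjoin ℂ (Set.range x)).Finite :=
    RingHom.Finite.of_surjective _ h.x_indep.aevalEquiv.surjective
  have h3 := h1.comp h2
  convert h3 using 1
  exact RingHom.ext fun q => (h.x_indep.algebraMap_aevalEquiv q).symm

private theorem intGal_aux {R : Type} [CommRing R] [IsDomain R] [IsIntegrallyClosed R] {k : ℕ}
    (f : Pol k →+* R) (hinj : Function.Injective f) (hfin : f.Finite) :
    ∃ (N : Type) (_ : Field N) (_ : Algebra (Rat k) N)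
      (_ : FiniteDimensional (Rat k) N) (_ : IsGalois (Rat k) N) (j : R →+* N),
      Function.Injective j ∧ ∀ p : Pol k, j (f p) = toN k N p := by
  letI : Algebra (Pol k) R := f.toAlgebra
  haveI : Module.Finite (Pol k) R := hfin
  haveI : FaithfulSMul (Pol k) R := (faithfulSMul_iff_algebraMap_injective _ _).2 hinj
  haveI : Module.IsTorsionFree (Pol k) R := Module.isTorsionFree_iff_algebraMap_injective.2 hinj
  letI : Algebra (Rat k) (FractionRing R) := FractionRing.liftAlgebra _ _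
  haveI : IsScalarTower (Pol k) (Rat k) (FractionRing R) :=
    FractionRing.isScalarTower_liftAlgebra _ _
  haveI : IsIntegralClosure R (Pol k) (FractionRing R) :=
    IsIntegralClosure.of_isIntegrallyClosed _ _ _
  haveI : Algebra.IsAlgebraic (Rat k) (FractionRing R) :=
    isAlgebraic_of_isFractionRing (Pol k) R ..
  haveI : IsLocalization (Algebra.algebraMapSubmonoid R (nonZeroDivisors (Pol k)))
      (FractionRing R) := IsIntegralClosure.isLocalization _ (Rat k) _ _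
  haveI : FiniteDimensional (Rat k) (FractionRing R) :=
    .of_isLocalization (Pol k) R (nonZeroDivisors (Pol k))
  haveI : Algebra.IsAlgebraic (Rat k) (AlgebraicClosure (FractionRing R)) :=
    Algebra.IsAlgebraic.trans (Rat k) (FractionRing R) (AlgebraicClosure (FractionRing R))
  haveI : IsAlgClosure (Rat k) (AlgebraicClosure (FractionRing R)) := ⟨inferInstance, inferInstance⟩
  haveI : Normal (Rat k) (AlgebraicClosure (FractionRing R)) := IsAlgClosure.normal _ _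
  haveI : CharZero (Rat k) :=
    charZero_of_injective_algebraMap (IsFractionRing.injective (Pol k) (Rat k))
  refine ⟨IntermediateField.normalClosure (Rat k) (FractionRing R)
    (AlgebraicClosure (FractionRing R)), inferInstance, inferInstance, inferInstance, ⟨⟩,
    (algebraMap (FractionRing R) _).comp (algebraMap R (FractionRing R)), ?_, ?_⟩
  · exact (algebraMap (FractionRing R) _).injective.comp (IsFractionRing.injective R _)
  · intro p
    rw [RingHom.comp_apply]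
    have h1 : algebraMap R (FractionRing R) (f p) =
        algebraMap (Rat k) (FractionRing R) (algebraMap (Pol k) (Rat k) p) := by
      rw [← IsScalarTower.algebraMap_apply (Pol k) (Rat k) (FractionRing R),
        IsScalarTower.algebraMap_apply (Pol k) R (FractionRing R)]
      rfl
    rw [h1, ← IsScalarTower.algebraMap_apply (Rat k) (FractionRing R)]
    rfl

/-- Proof: `K = FractionRing R` is a finite extension of `Rat (n + 1) = ℂ(X)` via `X_b ↦ x_b`
(`x_indep`, `x_finite`); `N` = the normal closure of `K` in its algebraic closure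
(`normalClosure`), separable in characteristic zero. -/
theorem exists_galois {R : Type} [CommRing R] [Algebra ℂ R] {𝒜 : ℕ → Submodule ℂ R}
    [GradedAlgebra 𝒜] {n r d : ℕ} {x : Fin (n + 1) → R} {G : R} (h : IsFano 𝒜 n r d x G) :
    ∃ (N : Type) (_ : Field N) (_ : Algebra (Rat (n + 1)) N)
      (_ : FiniteDimensional (Rat (n + 1)) N) (_ : IsGalois (Rat (n + 1)) N) (j : R →+* N),
      Function.Injective j ∧
      ∀ p : Pol (n + 1), j (MvPolynomial.aeval x p) = toN (n + 1) N p := by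
  haveI := h.domain
  haveI := h.normal
  exact intGal_aux ((MvPolynomial.aeval x : Pol (n + 1) →ₐ[ℂ] R) : Pol (n + 1) →+* R)
    h.x_indep (intGal_finite h)

/-- Values of a point of the fibre are specialisations. Proof: a relation `eval₂ (toN) (j ∘ z) p = 0`
is the image under `j` (injective) of the relation `eval₂ (aeval x) z p = 0` in `R`; apply `ν`. -/
theorem specialises_of_fib {R : Type} [CommRing R] [Algebra ℂ R] {n P : ℕ}
    {x : Fin (n + 1) → R} (N : Type) [Field N] [Algebra (Rat (n + 1)) N] (j : R →+* N)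
    (hj : Function.Injective j)
    (hjx : ∀ p : Pol (n + 1), j (MvPolynomial.aeval x p) = toN (n + 1) N p) (z : Fin P → R)
    (y : Fin (n + 1) → ℂ) (ν : R →ₐ[ℂ] ℂ) (hν : ν ∈ fib x y) :
    Specialises (toN (n + 1) N) (fun i => j (z i)) y (fun i => ν (z i)) := by
  intro p hp
  have h1 : toN (n + 1) N = j.comp ((MvPolynomial.aeval x : Pol (n + 1) →ₐ[ℂ] R) :
      Pol (n + 1) →+* R) := RingHom.ext fun q => (hjx q).symm
  have h2 : j (MvPolynomial.eval₂ ((MvPolynomial.aeval x : Pol (n + 1) →ₐ[ℂ] R) :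
      Pol (n + 1) →+* R) z p) = 0 := by
    rw [MvPolynomial.eval₂_comp_left, ← h1]
    exact hp
  have h3 := hj (h2.trans (map_zero j).symm)
  have h4 : (ν : R →+* ℂ).comp ((MvPolynomial.aeval x : Pol (n + 1) →ₐ[ℂ] R) :
      Pol (n + 1) →+* R) = MvPolynomial.eval y := by
    refine RingHom.ext fun q => ?_
    have h5 : ν (MvPolynomial.aeval x q) = MvPolynomial.aeval (fun i => ν (x i)) q :=
      MvPolynomial.comp_aeval_apply (f := x) ν q
    have h6 : (fun i => ν (x i)) = y := funext hν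
    rw [h6] at h5
    exact h5
  have h7 := congrArg ν h3
  rw [map_zero] at h7
  have h8 := MvPolynomial.eval₂_comp_left (ν : R →+* ℂ)
    ((MvPolynomial.aeval x : Pol (n + 1) →ₐ[ℂ] R) : Pol (n + 1) →+* R) z p
  rw [h4] at h8
  exact h8.symm.trans h7

end Pool.Agent.Lib_MP_e0d435_kv

end

/-! ### from `Lib_MP_e0d435_kv.IntArith` -/

section

/-! INT4: arithmetic. -/

namespace Pool.Agent.Lib_MP_e0d435_kv

private theorem IntArith_aux (α β γ δ C : ℝ) (hα : 0 < α) (hβ : 0 ≤ β) (hγ : 0 < γ)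
    (hδ : 0 < δ) (hC : 0 ≤ C) :
    ∃ η : ℝ, 0 < η ∧ ∀ Q W A : ℝ, 0 < Q → 0 ≤ A → - (Q * η) ≤ W →
      α * W + δ * A ≤ Q * (η + (1 + C) * η) →
      Q * (1 - C * η) ≤ β * W + γ * A → False := by
  obtain ⟨ρ, hρ, hρ1, hρ2⟩ : ∃ ρ : ℝ, 0 < ρ ∧ ρ * β ≤ α ∧ ρ * γ ≤ δ := by
    refine ⟨min (α / (β + 1)) (δ / γ), lt_min (div_pos hα (by linarith)) (div_pos hδ hγ), ?_, ?_⟩
    · have h1 : min (α / (β + 1)) (δ / γ) * β ≤ α / (β + 1) * β :=
        mul_le_mul_of_nonneg_right (min_le_left _ _) hβ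
      have h2 : α / (β + 1) * β ≤ α := by
        rw [div_mul_eq_mul_div, div_le_iff₀ (by linarith)]
        nlinarith
      exact h1.trans h2
    · have h1 : min (α / (β + 1)) (δ / γ) * γ ≤ δ / γ * γ :=
        mul_le_mul_of_nonneg_right (min_le_right _ _) hγ.le
      rwa [div_mul_cancel₀ _ hγ.ne'] at h1
  obtain ⟨D, hD, hD0⟩ : ∃ D : ℝ, D = 3 + C + α ∧ 0 < D := ⟨_, rfl, by linarith⟩
  obtain ⟨η, hη, hη1, hη2⟩ : ∃ η : ℝ, 0 < η ∧ D * η ≤ 1 / 2 ∧ D * η ≤ ρ / 4 := by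
    refine ⟨min (1 / (2 * D)) (ρ / (4 * D)), lt_min (by positivity) (by positivity), ?_, ?_⟩
    · have h1 : D * min (1 / (2 * D)) (ρ / (4 * D)) ≤ D * (1 / (2 * D)) :=
        mul_le_mul_of_nonneg_left (min_le_left _ _) hD0.le
      have h2 : D * (1 / (2 * D)) = 1 / 2 := by field_simp
      linarith
    · have h1 : D * min (1 / (2 * D)) (ρ / (4 * D)) ≤ D * (ρ / (4 * D)) :=
        mul_le_mul_of_nonneg_left (min_le_right _ _) hD0.le
      have h2 : D * (ρ / (4 * D)) = ρ / 4 := by field_simp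
      linarith
  refine ⟨η, hη, fun Q W A hQ hA hW h1 h2 => ?_⟩
  have hCη : C * η ≤ 1 / 2 := by
    have : C * η ≤ D * η := mul_le_mul_of_nonneg_right (by linarith) hη.le
    linarith
  have h3 : Q / 2 ≤ β * W + γ * A := by nlinarith
  have h4 : η + (1 + C) * η + α * η + η = D * η := by rw [hD]; ring
  have hsum : η + (1 + C) * η + α * η < ρ / 4 := by linarith
  rcases le_or_gt 0 W with hW0 | hW0
  · have h5 : ρ * (β * W + γ * A) ≤ α * W + δ * A := by
      have a1 := mul_le_mul_of_nonneg_right hρ1 hW0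
      have a2 := mul_le_mul_of_nonneg_right hρ2 hA
      nlinarith
    have h6 : ρ * (Q / 2) ≤ ρ * (β * W + γ * A) := mul_le_mul_of_nonneg_left h3 hρ.le
    have h7 : Q * (η + (1 + C) * η) ≤ Q * (ρ / 4) :=
      mul_le_mul_of_nonneg_left (by nlinarith [mul_pos hα hη]) hQ.le
    nlinarith [mul_pos hρ hQ]
  · have h5 : Q / 2 ≤ γ * A := by
      have : β * W ≤ 0 := mul_nonpos_of_nonneg_of_nonpos hβ hW0.le
      linarith
    have h6 : ρ * (Q / 2) ≤ δ * A := by
      have a1 := mul_le_mul_of_nonneg_left h5 hρ.le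
      have a2 := mul_le_mul_of_nonneg_right hρ2 hA
      nlinarith
    have h7 : - (α * (Q * η)) ≤ α * W := by nlinarith
    have h8 : Q * (η + (1 + C) * η + α * η) ≤ Q * (ρ / 4) :=
      mul_le_mul_of_nonneg_left hsum.le hQ.le
    nlinarith [mul_pos hρ hQ]

/-- Proof. `T = c M m W + a + ((r d (n+1) - 1) W + b)/r`, `A' = A - b/r ≥ 0`, `β = c M m + d(n+1) - 1/r
≥ 0`. `K - T ≥ W (1/r - c M m) + (A' - a)`, `A' - a ≥ κ/(1+κ) A'`, and
`K - T ≤ Q (θ + (1 + C₁) η)`, `C₁ = c M + 1/r`. Since `T ≤ β max W 0 + A' (1 + 1/(r η₂))` and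
`T ≥ Q (1 - C₁ η) ≥ Q/2` either `W ≥ Q/(4(β+1))`, so `K - T ≥ Q (1/r - c M m)/(4(β+1))`, or
`A' ≥ Q/(4(1 + 1/(r η₂)))`, so `K - T ≥ - (1/r) Q η/d + κ/(1+κ) Q/(4(1 + 1/(r η₂)))` (`d W ≥ - Q η`).
Contradiction for small `θ`, `η`. -/
theorem int_arith (n r d M m : ℕ) (hr : 1 ≤ r) (hd : 1 ≤ d) (c κ η₂ : ℝ) (hc : 0 < c)
    (hcm : c * (M * m) < 1 / r) (hκ : 0 < κ) (hη₂ : 0 < η₂) :
    ∃ θ η : ℝ, 0 < θ ∧ 0 < η ∧ ∀ Q W a b A K : ℝ, 0 < Q → 0 ≤ a → 0 ≤ b →
      (1 + κ) * a ≤ A - b / r → η₂ * b ≤ A - b / r → (n + 1) * d * W + A ≤ K →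
      K ≤ Q * (1 + θ + η) → - (Q * η) ≤ d * W →
      Q * (1 - (c * M + 1 / r) * η) ≤
        c * (M * m) * W + a + ((r * d * (n + 1) - 1) * W + b) / r → False := by
  have hr0 : (1 : ℝ) ≤ r := by exact_mod_cast hr
  have hd0 : (1 : ℝ) ≤ d := by exact_mod_cast hd
  have hrp : (0 : ℝ) < r := by linarith
  have hr1 : (1 : ℝ) / r ≤ 1 := by
    rw [div_le_one hrp]
    exact hr0
  have hr2 : (0 : ℝ) < 1 / r := by positivity
  have hcm0 : 0 ≤ c * (M * m : ℝ) := by positivity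
  have hdn : (1 : ℝ) ≤ d * (n + 1) := by
    have : (0 : ℝ) ≤ n := Nat.cast_nonneg n
    nlinarith
  have hκ1 : 0 < 1 + κ := by linarith
  obtain ⟨η, hη, hmain⟩ := IntArith_aux (1 / r - c * (M * m)) (c * (M * m) + d * (n + 1) - 1 / r)
    (1 + 1 / (r * η₂)) (κ / (1 + κ)) (c * M + 1 / r) (by linarith) (by linarith) (by positivity)
    (by positivity) (by positivity)
  refine ⟨η, η, hη, hη, fun Q W a b A K hQ ha hb h1 h2 h3 h4 h5 h6 => ?_⟩
  have hbr : 0 ≤ b / r := by positivity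
  have hA' : 0 ≤ A - b / r := by nlinarith
  have haA : a ≤ (A - b / r) / (1 + κ) := by
    rw [le_div_iff₀ hκ1]
    linarith
  have haA' : κ / (1 + κ) * (A - b / r) ≤ A - b / r - a := by
    have h7 : κ / (1 + κ) * (A - b / r) = (A - b / r) - (A - b / r) / (1 + κ) := by
      field_simp
      ring
    linarith
  have haA2 : a ≤ A - b / r := by nlinarith
  have hbA : b / r ≤ 1 / (r * η₂) * (A - b / r) := by
    have h7 : b ≤ (A - b / r) / η₂ := by
      rw [le_div_iff₀ hη₂]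
      linarith
    have h8 : b / r ≤ (A - b / r) / η₂ / r := div_le_div_of_nonneg_right h7 hrp.le
    have h9 : (A - b / r) / η₂ / r = 1 / (r * η₂) * (A - b / r) := by
      field_simp
    linarith
  have hWη : - (Q * η) ≤ W := by
    have h7 : 0 < Q * η := mul_pos hQ hη
    by_contra hc'
    push Not at hc'
    have h8 : W < 0 := by linarith
    nlinarith
  have hT : c * (M * m) * W + a + ((r * d * (n + 1) - 1) * W + b) / r =
      (c * (M * m) + d * (n + 1) - 1 / r) * W + a + b / r := by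
    field_simp
    ring
  rw [hT] at h6
  refine hmain Q W (A - b / r) hQ hA' hWη ?_ ?_
  · have h7 : (1 / (r : ℝ) - c * (M * m)) * W + (A - b / r - a) ≤
        K - ((c * (M * m) + d * (n + 1) - 1 / r) * W + a + b / r) := by
      nlinarith
    have h8 : K - ((c * (M * m) + d * (n + 1) - 1 / r) * W + a + b / r) ≤
        Q * (1 + η + η) - Q * (1 - (c * M + 1 / r) * η) := by linarith
    have h9 : Q * (1 + η + η) - Q * (1 - (c * M + 1 / r) * η) =
        Q * (η + (1 + (c * M + 1 / r)) * η) := by ring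
    linarith
  · refine h6.trans ?_
    have h7 : (1 + 1 / (r * η₂)) * (A - b / r) =
        (A - b / r) + 1 / (r * η₂) * (A - b / r) := by ring
    rw [h7]
    linarith

end Pool.Agent.Lib_MP_e0d435_kv

end

/-! ### from `Lib_KF.GSep` -/

section

/-!
# G3b: (Sep'), jets are independent up to a bounded denominator
-/

open PowerSeries

namespace Pool.Agent.Lib_KF

open Pool.Agent.Lib_GD

variable {R : Type} [CommRing R] [Algebra ℂ R] {𝒜 : ℕ → Submodule ℂ R} [GradedAlgebra 𝒜]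
  {n r d : ℕ} {x : Fin (n + 1) → R} {G : R}

private theorem GSep_binG_zero (β : Fin n →₀ ℕ) : binG (0 : Fin n →₀ ℕ) β = 1 := by
  unfold binG
  refine Finset.prod_eq_one fun l _ => ?_
  simp

private theorem GSep_degree_lt {α β : Fin n →₀ ℕ} (h : β ≤ α) (hne : α ≠ β) :
    β.degree < α.degree := by
  have h1 : α - β + β = α := tsub_add_cancel_of_le h
  have h2 : (α - β).degree + β.degree = α.degree := by rw [← map_add, h1]
  have h3 : (α - β).degree ≠ 0 := by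
    intro h4
    rw [Finsupp.degree_eq_zero_iff] at h4
    rw [h4, zero_add] at h1
    exact hne h1.symm
  omega

/-- (Sep'). `hloc` is `GLoc.exists_local`. PROOF. `c = 1 / (2 d)`, `m₀ = 2 K₀ + 2 d`; write
`m = m' + d t` by `hloc`, `b` with `xj b` a unit; `t = (m - m') / d ≥ q` for `q ≤ c m`. For every `β` with `|β| < q` test with `g_test`:
`X^k ∣ ∑_{α ∈ s, α ≥ β} c_α bin β! xj h^|β| xj (F a (α - β) b)`. Descending induction on `|β|`: `X^k ∣ X^((q - 1) e) c_β`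
for all `β ∈ s`: the term `α = β` is `c_β β! xj h^|β| xj b` = `c_β X^(|β| e)` times a unit; multiply by
`X^((q - 1 - |β|) e)`; the other terms are multiples of `X^((q - 1) e) c_α`, `|α| > |β|`. -/
theorem g_Sep (h : IsFano 𝒜 n r d x G) (T : DerData x) (K₀ : ℕ)
    (hloc : ∀ (L : Type) [Field L] [Algebra ℂ L] (a : Fin (n + 1)) (xj : R →ₐ[ℂ] L⟦X⟧),
      xj (x a) = 1 → ∀ m, K₀ ≤ m → ∃ m' t, m = m' + d * t ∧ m' ≤ K₀ ∧
        ∃ b ∈ 𝒜 m', IsUnit (xj b)) :
    ∃ (c : ℝ) (m₀ : ℕ), 0 < c ∧ ∀ m, m₀ ≤ m → ∀ q : ℕ, (q : ℝ) ≤ c * m →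
      ∀ (L : Type) [Field L] [Algebra ℂ L] (a : Fin (n + 1)) (xj : R →ₐ[ℂ] L⟦X⟧),
      xj (x a) = 1 → ∀ (e : ℕ) (v : L⟦X⟧), IsUnit v → xj T.h = X ^ e * v →
      ∀ (k : ℕ) (s : Finset (Fin n →₀ ℕ)) (cf : (Fin n →₀ ℕ) → L⟦X⟧),
        (∀ α ∈ s, α.degree < q) →
        (∀ f : Fin (secDim 𝒜 m) → L⟦X⟧,
          (X : L⟦X⟧) ^ k ∣ ∑ α ∈ s, cf α * ∑ i, f i * xj (T.F a α (secBasis 𝒜 m i))) →
        ∀ α ∈ s, (X : L⟦X⟧) ^ k ∣ X ^ ((q - 1) * e) * cf α := by
  classical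
  have hd := h.d_pos
  have hd' : (0 : ℝ) < d := by exact_mod_cast hd
  refine ⟨1 / (2 * d), 2 * K₀ + 2 * d, by positivity, ?_⟩
  intro m hm q hq L _ _ a xj hxj e v hv hh k s cf hs hf
  obtain ⟨m', t, hmt, hm', b, hb, hbu⟩ := hloc L a xj hxj m (by omega)
  have hq1 : 2 * d * q ≤ m := by
    have h1 : (2 * d * q : ℝ) ≤ m := by
      have h2 : (2 * d : ℝ) * (1 / (2 * d) * m) = m := by field_simp
      calc (2 * d * q : ℝ) ≤ 2 * d * (1 / (2 * d) * m) :=
            mul_le_mul_of_nonneg_left hq (by positivity)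
        _ = m := h2
    exact_mod_cast h1
  have hqt : q ≤ t := by
    by_contra hlt
    have h1 : d * (t + 1) ≤ d * q := Nat.mul_le_mul_left _ (by omega)
    have h2 : 2 * d * q = d * q + d * q := by ring
    rw [mul_add, mul_one] at h1
    omega
  have key : ∀ M : ℕ, ∀ β ∈ s, q ≤ β.degree + M →
      (X : L⟦X⟧) ^ k ∣ X ^ ((q - 1) * e) * cf β := by
    intro M
    induction M with
    | zero =>
      intro β hβ hle
      exact absurd (hs β hβ) (by omega)
    | succ M ih =>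
      intro β hβ hle
      have hβq := hs β hβ
      obtain ⟨f, hff⟩ := g_test h T a xj hxj hmt b hb β (by omega)
      have h1 := Dvd.dvd.mul_left (hf f) ((X : L⟦X⟧) ^ ((q - 1 - β.degree) * e))
      rw [Finset.mul_sum, ← Finset.add_sum_erase s _ hβ] at h1
      have h2 : (X : L⟦X⟧) ^ k ∣ ∑ α ∈ s.erase β, (X : L⟦X⟧) ^ ((q - 1 - β.degree) * e) *
          (cf α * ∑ i, f i * xj (T.F a α (secBasis 𝒜 m i))) := by
        refine Finset.dvd_sum fun α hα => ?_
        rw [Finset.mem_erase] at hα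
        rw [hff α]
        split_ifs with hle'
        · have h3 := GSep_degree_lt hle' hα.1
          have h4 := ih α hα.2 (by omega)
          have h5 : (X : L⟦X⟧) ^ ((q - 1 - β.degree) * e) *
              (cf α * (algebraMap ℂ L⟦X⟧ (binG (α - β) β * ∏ l, ((β l).factorial : ℂ)) *
                xj T.h ^ β.degree * xj (T.F a (α - β) b))) =
              (X ^ ((q - 1) * e) * cf α) *
                (algebraMap ℂ L⟦X⟧ (binG (α - β) β * ∏ l, ((β l).factorial : ℂ)) *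
                  v ^ β.degree * xj (T.F a (α - β) b)) := by
            have h6 : (q - 1) * e = (q - 1 - β.degree) * e + e * β.degree := by
              rw [mul_comm e, ← add_mul]
              congr 1
              omega
            rw [hh, mul_pow, ← pow_mul, h6, pow_add]
            ring
          rw [h5]
          exact Dvd.dvd.mul_right h4 _
        · rw [mul_zero, mul_zero]
          exact dvd_zero _
      have h3 := (dvd_add_left h2).1 h1
      rw [hff β, if_pos le_rfl, tsub_self, T.F_zero, GSep_binG_zero, one_mul, hh] at h3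
      have h4 : (X : L⟦X⟧) ^ ((q - 1 - β.degree) * e) *
          (cf β * (algebraMap ℂ L⟦X⟧ (∏ l, ((β l).factorial : ℂ)) *
            (X ^ e * v) ^ β.degree * xj b)) =
          (X ^ ((q - 1) * e) * cf β) *
            (algebraMap ℂ L⟦X⟧ (∏ l, ((β l).factorial : ℂ)) * v ^ β.degree * xj b) := by
        have h6 : (q - 1) * e = (q - 1 - β.degree) * e + e * β.degree := by
          rw [mul_comm e, ← add_mul]
          congr 1
          omega
        rw [mul_pow, ← pow_mul, h6, pow_add]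
        ring
      rw [h4] at h3
      have h5 : IsUnit (algebraMap ℂ L⟦X⟧ (∏ l, ((β l).factorial : ℂ)) * v ^ β.degree *
          xj b) := by
        refine IsUnit.mul (IsUnit.mul ?_ (hv.pow _)) hbu
        refine IsUnit.map _ (isUnit_iff_ne_zero.2 ?_)
        refine Finset.prod_ne_zero_iff.2 fun l _ => ?_
        exact_mod_cast Nat.factorial_ne_zero _
      exact (h5.dvd_mul_right).1 h3
  intro α hα
  exact key q α hα (by omega)

end Pool.Agent.Lib_KF

end

/-! ### from `Lib_KF.GCoord` -/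

section

/-! G4c: the span of the differentials of the coordinates. -/

namespace Pool.Agent.Lib_KF

open Pool.Agent.Lib_GD

/-- G4c. Proof: as `coordSpan_eq` in `Lib_MP_e0d435_kv/AdCoord.lean` (the case `N = 1`), factor by
factor. -/
theorem coordSpan_eqN {R : Type} [CommRing R] [Algebra ℂ R] {𝒜 : ℕ → Submodule ℂ R} {n N : ℕ}
    (E : DivisorOver 𝒜 n N) (x : Fin (n + 1) → R) (a : Fin N → Fin (n + 1)) (u : Fin N → E.V)
    (hu : ∀ j, E.φ j (x (a j)) * u j = 1) :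
    coordSpan E x = Submodule.span E.V
      (Set.range fun p : Fin N × Fin n =>
        KaehlerDifferential.D ℂ E.V (E.φ p.1 (x ((a p.1).succAbove p.2)) * u p.1)) := by
  classical
  set S := Submodule.span E.V
      (Set.range fun p : Fin N × Fin n =>
        KaehlerDifferential.D ℂ E.V (E.φ p.1 (x ((a p.1).succAbove p.2)) * u p.1))
    with hS
  have hy : ∀ j b, KaehlerDifferential.D ℂ E.V (E.φ j (x b) * u j) ∈ S := by
    intro j b
    rcases Fin.eq_self_or_eq_succAbove (a j) b with rfl | ⟨l, rfl⟩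
    · rw [hu, Derivation.map_one_eq_zero]
      exact S.zero_mem
    · exact Submodule.subset_span ⟨(j, l), rfl⟩
  refine le_antisymm ?_ ?_
  · refine Submodule.span_le.2 ?_
    rintro ω ⟨j, b, b'', w, hw, rfl⟩
    set z : E.V := E.φ j (x (a j)) * w with hz
    have h1 : E.φ j (x b'') * u j * z = 1 := by
      rw [hz]
      calc _ = (E.φ j (x b'') * w) * (E.φ j (x (a j)) * u j) := by ring
        _ = 1 := by rw [hw, hu, mul_one]
    have h2 : E.φ j (x b) * w = (E.φ j (x b) * u j) * z := by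
      rw [hz]
      calc _ = (E.φ j (x b) * w) * (E.φ j (x (a j)) * u j) := by rw [hu, mul_one]
        _ = _ := by ring
    have h3 : KaehlerDifferential.D ℂ E.V z ∈ S := by
      have h4 : (E.φ j (x b'') * u j) • KaehlerDifferential.D ℂ E.V z +
          z • KaehlerDifferential.D ℂ E.V (E.φ j (x b'') * u j) = 0 := by
        rw [← Derivation.leibniz, h1, Derivation.map_one_eq_zero]
      have h5 : KaehlerDifferential.D ℂ E.V z =
          -((z * z) • KaehlerDifferential.D ℂ E.V (E.φ j (x b'') * u j)) := by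
        have h6 := congrArg (fun ω => z • ω) h4
        simp only [smul_add, smul_smul, smul_zero] at h6
        rw [show z * (E.φ j (x b'') * u j) = 1 by rw [mul_comm]; exact h1, one_smul] at h6
        exact eq_neg_of_add_eq_zero_left h6
      rw [h5]
      exact S.neg_mem (S.smul_mem _ (hy j b''))
    have h7 : KaehlerDifferential.D ℂ E.V (E.φ j (x b) * w) ∈ S := by
      rw [h2, Derivation.leibniz]
      exact S.add_mem (S.smul_mem _ h3) (S.smul_mem _ (hy j b))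
    exact h7
  · refine Submodule.span_le.2 ?_
    rintro ω ⟨⟨j, l⟩, rfl⟩
    exact Submodule.subset_span ⟨j, (a j).succAbove l, a j, u j, hu j, rfl⟩

end Pool.Agent.Lib_KF

end

/-! ### from `Lib_KF.GInj` -/

section

/-! G4e: homogeneous elements do not vanish on an arc with enough derivations. -/

open PowerSeries

namespace Pool.Agent.Lib_KF

open Pool.Agent.Lib_GD Pool.Agent.Lib_MP_e0d435_kv

variable {R : Type} [CommRing R] [Algebra ℂ R] {𝒜 : ℕ → Submodule ℂ R} [GradedAlgebra 𝒜]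
  {n r d : ℕ} {x : Fin (n + 1) → R} {G : R}

/-- G4e. Proof: as the beginning of `up_arc` (GUp.lean): `exists_rows`, `exists_laurent`,
`arc_divisor_affine`, which gives `φ s ≠ 0` for `s ≠ 0` homogeneous, `φ = ι ∘ xj`. -/
theorem arc_inj (h : IsFano 𝒜 n r d x G) (hn : 1 ≤ n) {L : Type} [Field L] [Algebra ℂ L]
    (a : Fin (n + 1)) (xj : R →ₐ[ℂ] L⟦X⟧) (hx : xj (x a) = 1)
    (Ξ : Submodule L⟦X⟧ (Fin n → L⟦X⟧)) (hΞ : FinColen Ξ)
    (hΞ' : ∀ v ∈ Ξ, ∃ δ : Derivation ℂ L L, ∀ l, v l = hat δ (xj (x (a.succAbove l))))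
    (k : ℕ) (s : R) (hs : s ∈ 𝒜 k) (h0 : xj s = 0) : s = 0 := by
  by_contra hs0
  obtain ⟨A, hA, hdet, -⟩ := exists_rows Ξ hΞ
  choose δ hδ using fun i => hΞ' (A i) (hA i)
  obtain ⟨Λ, ι, hι, hιo, hιd⟩ := exists_laurent L n δ
  have hφa : (ι.comp xj) (x a) = 1 := by
    rw [AlgHom.comp_apply, hx, map_one]
  have hjac : Λ.jac (fun l => (ι.comp xj) (x (a.succAbove l)) / (ι.comp xj) (x a)) =
      ι (Matrix.det A) := by
    have h1 := AlgHom.map_det ι A
    rw [h1, LDF.jac]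
    congr 1
    ext i l
    rw [Matrix.of_apply, hφa, div_one, AlgHom.comp_apply, hιd, AlgHom.mapMatrix_apply,
      Matrix.map_apply, hδ i l]
  have hJ : Λ.jac (fun l => (ι.comp xj) (x (a.succAbove l)) / (ι.comp xj) (x a)) ≠ 0 := by
    rw [hjac]
    exact fun h1 => hdet (hι (by rw [h1, map_zero]))
  have hmin : ∀ b, (ι.comp xj) (x b) ≠ 0 →
      ordZ Λ.w ((ι.comp xj) (x a)) ≤ ordZ Λ.w ((ι.comp xj) (x b)) := by
    intro b hb
    rw [hφa, ordZ_one, AlgHom.comp_apply]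
    rw [AlgHom.comp_apply] at hb
    have hf : xj (x b) ≠ 0 := by
      intro h1
      rw [h1, map_zero] at hb
      exact hb rfl
    have h2 : (xj (x b)).order ≠ ⊤ := by
      rw [Ne, PowerSeries.order_eq_top]; exact hf
    obtain ⟨m, hm⟩ := ENat.ne_top_iff_exists.1 h2
    rw [hιo _ m hm.symm]
    exact Int.natCast_nonneg m
  obtain ⟨w₁, -, hcase⟩ := arc_divisor_affine h hn Λ (ι.comp xj) a
    (by rw [hφa]; exact one_ne_zero) hmin hJ
  have h3 : (ι.comp xj) s ≠ 0 := by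
    rcases hcase with ⟨h1, -⟩ | ⟨E, e₀, -, h1, -⟩
    · exact (h1 k s hs hs0).1
    · exact (h1 k s hs hs0).1
  rw [AlgHom.comp_apply, h0, map_zero] at h3
  exact h3 rfl

end Pool.Agent.Lib_KF

end
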