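import Mathlib
import Pool.Agent.Lib_MP_e0d435_m.G08
import Pool.Agent.Lib_MP_e0d435_m.G11
import Pool.Agent.Lib_MP_e0d435_m.G12
import Pool.Agent.Lib_MP_e0d435_m.G18
import Pool.Agent.Lib_MP_e0d435_m.G19
import Pool.Agent.Lib_MP_e0d435_m.G20

/-!
# MP_e0d435_ag: merged library part G23

Concatenation of library files (each in its own section), only to save build time.
-/

/-! ### from `Lib_GD.OkLower` -/

section

/-! P09: `S ≤ liminf S_m`. -/

open scoped ENNReal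
open MeasureTheory

namespace Pool.Agent.Lib_GD.OkData

variable {n : ℕ} (D : OkData n)

private lemma OkLower_step (g : ℕ → (Fin n → ℕ) → ℕ) (hg : D.IsWeight g) (l t : ℝ)
    (ht : 0 < t) (θ : ℝ) (hθ : 0 < θ) (hθ1 : θ < 1) (hθl : l < 1 - θ) :
    ENNReal.ofReal ((1 - θ) ^ n) * D.volt g t ≤
      Filter.liminf (fun M : ℕ => ((n.factorial * D.cnt g M (l * t * M) : ℕ) : ℝ≥0∞) /
        (M : ℝ≥0∞) ^ n) Filter.atTop := by
  obtain ⟨m₃, hm₃⟩ := exists_nat_ge (((n : ℝ) / θ + 1) / D.c)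
  set Λ : ℝ≥0∞ := Filter.liminf (fun M : ℕ => (D.cnt g M (l * t * M) : ℝ≥0∞) /
    (M : ℝ≥0∞) ^ n) Filter.atTop with hΛ
  have e2 : Filter.liminf (fun M : ℕ => ((n.factorial * D.cnt g M (l * t * M) : ℕ) : ℝ≥0∞) /
      (M : ℝ≥0∞) ^ n) Filter.atTop = (n.factorial : ℝ≥0∞) * Λ := by
    rw [hΛ, ← ENNReal.liminf_const_mul_of_ne_top (ENNReal.natCast_ne_top _)]
    congr 1
    funext M
    rw [Nat.cast_mul, mul_div_assoc]
  rw [e2]
  have e1 : D.volt g t = (n.factorial : ℝ≥0∞) * Filter.limsup (fun M : ℕ =>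
      (D.cnt g M (t * M) : ℝ≥0∞) / (M : ℝ≥0∞) ^ n) Filter.atTop := by
    rw [← ENNReal.limsup_const_mul_of_ne_top (ENNReal.natCast_ne_top _)]
    unfold volt
    congr 1
    funext M
    rw [Nat.cast_mul, mul_div_assoc]
  rw [e1, mul_left_comm]
  gcongr
  rw [← ENNReal.limsup_const_mul_of_ne_top ENNReal.ofReal_ne_top]
  refine Filter.limsup_le_of_le (by isBoundedDefault) ?_
  filter_upwards [Filter.eventually_ge_atTop (max m₃ D.m₀)] with m hm
  have hmm₃ : m₃ ≤ m := (le_max_left _ _).trans hm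
  have hmm₀ : D.m₀ ≤ m := (le_max_right _ _).trans hm
  have hm1 : 1 ≤ m := D.hm₀.trans hmm₀
  have hm0 : (0 : ℝ) < m := by exact_mod_cast hm1
  have hθm : (n : ℝ) / θ ≤ D.c * m - 1 := by
    have h1 : ((n : ℝ) / θ + 1) / D.c ≤ m := hm₃.trans (by exact_mod_cast hmm₃)
    rw [div_le_iff₀ D.hc] at h1
    linarith
  have h1 := D.cnt_le_volume g m hmm₀ θ hθ hθ1 hθm (t * m) (by positivity)
  have h2 := D.count_lower g hg m hmm₀ ((1 - θ) * (t * m)) (l * t)
    (Or.inl (by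
      have h3 : 0 < t * m := by positivity
      nlinarith))
  refine le_trans ?_ h2
  rw [← mul_div_assoc]
  refine ENNReal.div_le_div_right (le_trans ?_ h1) _
  have h3 : (0 : ℝ) ≤ 1 - θ := by linarith
  rw [ENNReal.ofReal_mul (by positivity), ENNReal.ofReal_natCast]

private lemma OkLower_key (g : ℕ → (Fin n → ℕ) → ℕ) (hg : D.IsWeight g) (l t : ℝ)
    (hl : l < 1) (ht : 0 < t) :
    D.volt g t ≤ Filter.liminf (fun M : ℕ => ((n.factorial * D.cnt g M (l * t * M) : ℕ) : ℝ≥0∞) /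
        (M : ℝ≥0∞) ^ n) Filter.atTop := by
  set Λ := Filter.liminf (fun M : ℕ => ((n.factorial * D.cnt g M (l * t * M) : ℕ) : ℝ≥0∞) /
        (M : ℝ≥0∞) ^ n) Filter.atTop with hΛ
  have hlim : Filter.Tendsto (fun θ : ℝ => ENNReal.ofReal ((1 - θ) ^ n) * D.volt g t)
      (nhdsWithin 0 (Set.Ioi 0)) (nhds (ENNReal.ofReal ((1 - 0) ^ n) * D.volt g t)) := by
    refine ENNReal.Tendsto.mul_const ?_ (Or.inl (by simp))
    refine (Continuous.tendsto ?_ 0).mono_left nhdsWithin_le_nhds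
    exact ENNReal.continuous_ofReal.comp ((continuous_const.sub continuous_id).pow n)
  rw [sub_zero, one_pow, ENNReal.ofReal_one, one_mul] at hlim
  refine le_of_tendsto hlim ?_
  have : Set.Ioo (0 : ℝ) (min 1 (1 - l)) ∈ nhdsWithin (0 : ℝ) (Set.Ioi 0) :=
    Ioo_mem_nhdsGT (lt_min one_pos (by linarith))
  filter_upwards [this] with θ hθ
  have h1 : θ < 1 := lt_of_lt_of_le hθ.2 (min_le_left _ _)
  have h2 : θ < 1 - l := lt_of_lt_of_le hθ.2 (min_le_right _ _)
  exact OkLower_step D g hg l t ht θ hθ.1 h1 (by linarith)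

open Classical in
private lemma OkLower_cnt (g : ℕ → (Fin n → ℕ) → ℕ) (M : ℕ) (hM : 1 ≤ M) (l : ℝ) (hl : 0 < l) :
    ∫⁻ t in Set.Ioi (0 : ℝ), (D.cnt g M (l * t * M) : ℝ≥0∞) =
      ((∑ γ ∈ D.Γ M, g M γ : ℕ) : ℝ≥0∞) / (ENNReal.ofReal l * M) := by
  have hM0 : (0 : ℝ) < M := by exact_mod_cast hM
  have h1 : ∀ t : ℝ, (D.cnt g M (l * t * M) : ℝ≥0∞) =
      ∑ γ ∈ D.Γ M, (Set.Iic ((g M γ : ℝ) / (l * M))).indicator (fun _ => (1 : ℝ≥0∞)) t := by
    intro t
    unfold cnt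
    rw [Finset.card_filter, Nat.cast_sum]
    refine Finset.sum_congr rfl fun γ _ => ?_
    by_cases h : l * t * M ≤ (g M γ : ℝ)
    · rw [if_pos h, Set.indicator_of_mem, Nat.cast_one]
      rw [Set.mem_Iic, le_div_iff₀ (by positivity)]
      linarith
    · rw [if_neg h, Set.indicator_of_notMem, Nat.cast_zero]
      rw [Set.mem_Iic, le_div_iff₀ (by positivity)]
      intro h'
      exact h (by linarith)
  simp only [h1]
  rw [lintegral_finsetSum _ fun γ _ => measurable_const.indicator measurableSet_Iic]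
  have h2 : ∀ γ, ∫⁻ t in Set.Ioi (0 : ℝ), (Set.Iic ((g M γ : ℝ) / (l * M))).indicator
      (fun _ => (1 : ℝ≥0∞)) t = (g M γ : ℝ≥0∞) / (ENNReal.ofReal l * M) := by
    intro γ
    rw [lintegral_indicator measurableSet_Iic, Measure.restrict_restrict measurableSet_Iic,
      setLIntegral_const, one_mul, Set.inter_comm, Set.Ioi_inter_Iic, Real.volume_Ioc, sub_zero,
      ENNReal.ofReal_div_of_pos (by positivity), ENNReal.ofReal_natCast,
      ENNReal.ofReal_mul hl.le, ENNReal.ofReal_natCast]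
  simp only [h2]
  rw [Nat.cast_sum]
  simp only [div_eq_mul_inv]
  rw [Finset.sum_mul]

/-- P09: `S ≤ liminf S_m`. Proof: for `0 < l < 1` and `t > 0`, `volt t ≤ liminf_M n! cnt M (l t M)
/ M ^ n` by `cnt_le_volume` and `count_lower`; Fatou, and `∫_0^∞ cnt M (l t M) dt =
(∑ g) / (l M)`. -/
theorem S_le_liminf (g : ℕ → (Fin n → ℕ) → ℕ) (hg : D.IsWeight g) :
    D.S g ≤ Filter.liminf (fun m : ℕ => ((∑ γ ∈ D.Γ m, g m γ : ℕ) : ℝ≥0∞) /
      ((m * (D.Γ m).card : ℕ) : ℝ≥0∞)) Filter.atTop := by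
  classical
  set a : ℕ → ℝ≥0∞ := fun m : ℕ => ((∑ γ ∈ D.Γ m, g m γ : ℕ) : ℝ≥0∞) /
      ((m * (D.Γ m).card : ℕ) : ℝ≥0∞) with ha
  set V : ℕ → ℝ≥0∞ := fun m : ℕ => ((n.factorial * (D.Γ m).card : ℕ) : ℝ≥0∞) /
    (m : ℝ≥0∞) ^ n with hV
  have hvol : D.vol = Filter.limsup V Filter.atTop := rfl
  -- the estimate for every `l < 1`
  have key : ∀ l : ℝ, 0 < l → l < 1 → ENNReal.ofReal l * D.S g ≤
      Filter.liminf a Filter.atTop := by
    intro l hl0 hl
    have hlE : ENNReal.ofReal l ≠ 0 := (ENNReal.ofReal_pos.2 hl0).ne'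
    have hlT : ENNReal.ofReal l ≠ ⊤ := ENNReal.ofReal_ne_top
    have h1 : (∫⁻ t in Set.Ioi (0 : ℝ), D.volt g t) ≤ ∫⁻ t in Set.Ioi (0 : ℝ),
        Filter.liminf (fun M : ℕ => ((n.factorial * D.cnt g M (l * t * M) : ℕ) : ℝ≥0∞) /
          (M : ℝ≥0∞) ^ n) Filter.atTop := by
      refine lintegral_mono_ae ?_
      refine (ae_restrict_iff' measurableSet_Ioi).2 (Filter.Eventually.of_forall fun t ht => ?_)
      exact OkLower_key D g hg l t hl ht
    have hmeas : ∀ M : ℕ, Measurable fun t : ℝ =>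
        ((n.factorial * D.cnt g M (l * t * M) : ℕ) : ℝ≥0∞) / (M : ℝ≥0∞) ^ n := by
      intro M
      refine Antitone.measurable fun s t hst => ?_
      have h1 : D.cnt g M (l * t * M) ≤ D.cnt g M (l * s * M) := by
        unfold cnt
        refine Finset.card_le_card fun γ hγ => ?_
        rw [Finset.mem_filter] at hγ ⊢
        refine ⟨hγ.1, le_trans ?_ hγ.2⟩
        have : l * s ≤ l * t := mul_le_mul_of_nonneg_left hst hl0.le
        exact mul_le_mul_of_nonneg_right this (Nat.cast_nonneg M)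
      refine ENNReal.div_le_div_right ?_ _
      exact_mod_cast Nat.mul_le_mul_left _ h1
    have h2 := lintegral_liminf_le (μ := volume.restrict (Set.Ioi (0 : ℝ)))
      (u := Filter.atTop) hmeas
    have h3 : Filter.liminf (fun M : ℕ => ∫⁻ t in Set.Ioi (0 : ℝ),
        ((n.factorial * D.cnt g M (l * t * M) : ℕ) : ℝ≥0∞) / (M : ℝ≥0∞) ^ n) Filter.atTop =
        (ENNReal.ofReal l)⁻¹ * Filter.liminf (V * a) Filter.atTop := by
      rw [← ENNReal.liminf_const_mul_of_ne_top (ENNReal.inv_ne_top.2 hlE)]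
      refine Filter.liminf_congr ?_
      filter_upwards [Filter.eventually_ge_atTop 1] with M hM
      have hME : (M : ℝ≥0∞) ≠ 0 := by exact_mod_cast (by omega : M ≠ 0)
      have hMT : (M : ℝ≥0∞) ≠ ⊤ := ENNReal.natCast_ne_top M
      have e1 : ∫⁻ t in Set.Ioi (0 : ℝ),
          ((n.factorial * D.cnt g M (l * t * M) : ℕ) : ℝ≥0∞) / (M : ℝ≥0∞) ^ n =
          ((n.factorial : ℝ≥0∞) / (M : ℝ≥0∞) ^ n) *
            ∫⁻ t in Set.Ioi (0 : ℝ), (D.cnt g M (l * t * M) : ℝ≥0∞) := by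
        rw [← lintegral_const_mul']
        · refine lintegral_congr fun t => ?_
          rw [Nat.cast_mul, ENNReal.mul_div_right_comm]
        · exact ENNReal.div_ne_top (ENNReal.natCast_ne_top _) (pow_ne_zero _ hME)
      rw [e1, OkLower_cnt D g M hM l hl0]
      simp only [Pi.mul_apply, hV, ha]
      rcases Nat.eq_zero_or_pos (D.Γ M).card with hc | hc
      · have h0 : D.Γ M = ∅ := Finset.card_eq_zero.1 hc
        simp [h0]
      · have hcE : ((D.Γ M).card : ℝ≥0∞) ≠ 0 := by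
          exact_mod_cast (by omega : (D.Γ M).card ≠ 0)
        have hcT : ((D.Γ M).card : ℝ≥0∞) ≠ ⊤ := ENNReal.natCast_ne_top _
        generalize ((∑ γ ∈ D.Γ M, g M γ : ℕ) : ℝ≥0∞) = Y
        rw [Nat.cast_mul, Nat.cast_mul]
        generalize ((D.Γ M).card : ℝ≥0∞) = c at hcE hcT
        generalize (n.factorial : ℝ≥0∞) = f
        generalize ENNReal.ofReal l = L at hlE hlT
        generalize (M : ℝ≥0∞) ^ n = Q
        rw [div_eq_mul_inv, div_eq_mul_inv, div_eq_mul_inv, div_eq_mul_inv,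
          ENNReal.mul_inv (Or.inl hlE) (Or.inl hlT), ENNReal.mul_inv (Or.inl hME) (Or.inl hMT)]
        have hcc : c * c⁻¹ = 1 := ENNReal.mul_inv_cancel hcE hcT
        calc f * Q⁻¹ * (Y * (L⁻¹ * (M : ℝ≥0∞)⁻¹))
            = f * Q⁻¹ * (Y * (L⁻¹ * (M : ℝ≥0∞)⁻¹)) * 1 := (mul_one _).symm
          _ = f * Q⁻¹ * (Y * (L⁻¹ * (M : ℝ≥0∞)⁻¹)) * (c * c⁻¹) := by rw [hcc]
          _ = L⁻¹ * (f * c * Q⁻¹ * (Y * ((M : ℝ≥0∞)⁻¹ * c⁻¹))) := by ring
    have h4 : Filter.liminf (V * a) Filter.atTop ≤ D.vol * Filter.liminf a Filter.atTop := by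
      rw [hvol]
      exact ENNReal.liminf_mul_le (Or.inl D.vol_ne_zero) (Or.inl D.vol_ne_top)
    have h5 : (∫⁻ t in Set.Ioi (0 : ℝ), D.volt g t) ≤
        (ENNReal.ofReal l)⁻¹ * (D.vol * Filter.liminf a Filter.atTop) := by
      refine h1.trans (h2.trans ?_)
      rw [h3]
      gcongr
    unfold OkData.S
    rw [← mul_div_assoc]
    refine ENNReal.div_le_of_le_mul ?_
    calc ENNReal.ofReal l * ∫⁻ t in Set.Ioi (0 : ℝ), D.volt g t
        ≤ ENNReal.ofReal l * ((ENNReal.ofReal l)⁻¹ * (D.vol * Filter.liminf a Filter.atTop)) := by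
          gcongr
      _ = Filter.liminf a Filter.atTop * D.vol := by
          rw [← mul_assoc, ENNReal.mul_inv_cancel hlE hlT, one_mul, mul_comm]
  -- let `l → 1`
  have hlim : Filter.Tendsto (fun l : ℝ => ENNReal.ofReal l * D.S g)
      (nhdsWithin 1 (Set.Iio 1)) (nhds (ENNReal.ofReal 1 * D.S g)) := by
    refine ENNReal.Tendsto.mul_const ?_ (Or.inl (by simp))
    exact (ENNReal.continuous_ofReal.tendsto 1).mono_left nhdsWithin_le_nhds
  rw [ENNReal.ofReal_one, one_mul] at hlim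
  refine le_of_tendsto hlim ?_
  have : Set.Ioo (0 : ℝ) 1 ∈ nhdsWithin (1 : ℝ) (Set.Iio 1) :=
    Ioo_mem_nhdsLT (by norm_num)
  filter_upwards [this] with l hl
  exact key l hl.1 hl.2

end Pool.Agent.Lib_GD.OkData

end

/-! ### from `Lib_GD.MultiCount` -/

section

/-! K14: the number of multi-indices. -/

namespace Pool.Agent.Lib_GD

private lemma sum_count_fin {n m : ℕ} (s : Sym (Fin (n + 1)) m) :
    (∑ i : Fin n, (s : Multiset (Fin (n + 1))).count i.castSucc)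
      + (s : Multiset (Fin (n + 1))).count (Fin.last n) = m := by
  have h := Multiset.sum_count_eq_card (s := (Finset.univ : Finset (Fin (n + 1))))
    (m := (s : Multiset (Fin (n + 1)))) (fun a _ => Finset.mem_univ a)
  rw [Fin.sum_univ_castSucc] at h
  rw [h]
  exact s.2

private noncomputable def symToMulti (n m : ℕ) (s : Sym (Fin (n + 1)) m) :
    {α : Fin n →₀ ℕ // α.degree < m + 1} :=
  ⟨Finsupp.equivFunOnFinite.symm
      (fun i : Fin n => (s : Multiset (Fin (n + 1))).count i.castSucc), by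
    have h := sum_count_fin s
    rw [Finsupp.degree_eq_sum]
    simp only [Finsupp.equivFunOnFinite_symm_apply_apply]
    omega⟩

private lemma symToMulti_injective (n m : ℕ) : Function.Injective (symToMulti n m) := by
  intro s t hst
  have h1 : ∀ i : Fin n, (s : Multiset (Fin (n + 1))).count i.castSucc
      = (t : Multiset (Fin (n + 1))).count i.castSucc := by
    intro i
    have := congrArg (fun z => (z.1 : Fin n →₀ ℕ) i) hst
    simpa [symToMulti] using this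
  have hs := sum_count_fin s
  have ht := sum_count_fin t
  have hsum : (∑ i : Fin n, (s : Multiset (Fin (n + 1))).count i.castSucc)
      = ∑ i : Fin n, (t : Multiset (Fin (n + 1))).count i.castSucc :=
    Finset.sum_congr rfl (fun i _ => h1 i)
  have h2 : (s : Multiset (Fin (n + 1))).count (Fin.last n)
      = (t : Multiset (Fin (n + 1))).count (Fin.last n) := by omega
  apply Subtype.ext
  apply Multiset.ext.mpr
  intro a
  refine Fin.lastCases h2 h1 a

/-- K11: number of multi-indices (for `n = q = 0` the inequality would read `1 ≤ 0`). -/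
theorem pow_le_card_multi (n q : ℕ) (hn : 1 ≤ n) :
    (q : ℝ) ^ n / n.factorial ≤ (Nat.card {α : Fin n →₀ ℕ // α.degree < q} : ℝ) := by
  have : Finite {α : Fin n →₀ ℕ // α.degree < q} := (Finsupp.finite_of_degree_lt q).to_subtype
  have hfac : (0 : ℝ) < (n.factorial : ℝ) := by exact_mod_cast n.factorial_pos
  rw [div_le_iff₀ hfac]
  have key : q ^ n ≤ Nat.card {α : Fin n →₀ ℕ // α.degree < q} * n.factorial := by
    rcases q with _ | m
    · rw [Nat.zero_pow hn]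
      exact Nat.zero_le _
    · have hc : Nat.card (Sym (Fin (n + 1)) m)
          ≤ Nat.card {α : Fin n →₀ ℕ // α.degree < m + 1} :=
        Nat.card_le_card_of_injective _ (symToMulti_injective n m)
      have hs : Nat.card (Sym (Fin (n + 1)) m) = (m + n).choose n := by
        rw [Nat.card_eq_fintype_card, Sym.card_sym_eq_choose, Fintype.card_fin]
        have : n + 1 + m - 1 = m + n := by omega
        rw [this]
        exact Nat.choose_symm_of_eq_add rfl
      have h1 : (m + 1) ^ n ≤ (m + 1).ascFactorial n := Nat.pow_succ_le_ascFactorial _ _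
      rw [Nat.ascFactorial_eq_factorial_mul_choose] at h1
      calc (m + 1) ^ n ≤ n.factorial * (m + n).choose n := h1
        _ = (m + n).choose n * n.factorial := Nat.mul_comm _ _
        _ ≤ _ := Nat.mul_le_mul_right _ (hs ▸ hc)
  exact_mod_cast key

end Pool.Agent.Lib_GD

end

/-! ### from `Lib_KF.CCore` -/

section

/-! C15: the core theorem on arc systems with poles. -/

open PowerSeries

namespace Pool.Agent.Lib_KF

open Pool.Agent.Lib_GD (hat colen FinColen ArcSystem)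

/-- The profile of an arc system with poles. -/
private noncomputable def CCore_profile {L : Type} [Field L] [Algebra ℂ L] {n N C₁ : ℕ}
    (Γ : ArcSys L n N) (hdet : Γ.det ≠ 0) (hUP : Γ.HUP C₁) : Pool.Agent.Lib_GD.Profile N where
  cost := Γ.cc
  phi := Γ.phi
  A := Γ.AA
  v := Γ.det.order.toNat
  cost_sum := Γ.cc_sum hUP
  phi_sum σ := by
    rw [← Γ.phi_sum hdet σ]; rfl
  cost_mono := Γ.cc_mono

open Classical in
/-- The ranks of an arc system with poles: `0` if there is a bad point. -/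
private noncomputable def CCore_ranks {L : Type} [Field L] [Algebra ℂ L] {n N : ℕ}
    (Γ : ArcSys L n N) (B a : ℕ) : Pool.Agent.Lib_GD.Ranks N where
  r S b := if ∃ i ∈ S, a < Γ.e i then 0 else Γ.rk B a S b
  r_le S b := by
    split_ifs
    · exact Nat.zero_le _
    · exact Γ.rk_le B a S b
  anti S T b h := by
    by_cases hT : ∃ i ∈ T, a < Γ.e i
    · rw [if_pos hT]; exact Nat.zero_le _
    · have hS : ¬ ∃ i ∈ S, a < Γ.e i := by
        rintro ⟨i, hi, hia⟩
        exact hT ⟨i, h hi, hia⟩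
      rw [if_neg hT, if_neg hS]
      exact Γ.rk_anti B a S T b h

private theorem CCore_G_bad {L : Type} [Field L] [Algebra ℂ L] {n N : ℕ}
    (Γ : ArcSys L n N) (B a : ℕ) (B' : ℕ) (S : Finset (Fin N)) (h : ∃ i ∈ S, a < Γ.e i) :
    (CCore_ranks Γ B a).G B' S = 0 := by
  unfold Pool.Agent.Lib_GD.Ranks.G CCore_ranks
  refine Finset.sum_eq_zero fun b _ => ?_
  simp only [if_pos h]

private theorem CCore_G_good {L : Type} [Field L] [Algebra ℂ L] {n N : ℕ}
    (Γ : ArcSys L n N) (B a : ℕ) (S : Finset (Fin N)) (h : ¬ ∃ i ∈ S, a < Γ.e i) :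
    (CCore_ranks Γ B a).G B S + colen (Γ.Lam B a S) = B * N := by
  rw [← Γ.sum_rk B a S]
  unfold Pool.Agent.Lib_GD.Ranks.G CCore_ranks
  simp only [if_neg h]

/-- Separation of jets bounds the number of jets by the number of sections. -/
private theorem CCore_card_le {L : Type} [Field L] [Algebra ℂ L] {n N : ℕ}
    (Γ : ArcSys L n N) (q : ℕ) (hq : Γ.HSep q) (j : Fin N) :
    Nat.card {α : Fin n →₀ ℕ // α.degree < q} ≤ N := by
  classical
  have hli : LinearIndependent L⟦X⟧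
      (fun α : {α : Fin n →₀ ℕ // α.degree < q} => (Γ.u j α : Fin N → L⟦X⟧)) := by
    rw [linearIndependent_iff']
    intro s g hg α hα
    let s' : Finset (Fin n →₀ ℕ) := s.map (Function.Embedding.subtype _)
    let c : (Fin n →₀ ℕ) → L⟦X⟧ := fun β => if h : β.degree < q then g ⟨β, h⟩ else 0
    have hsum : ∀ f : Fin N → L⟦X⟧, ∑ β ∈ s', c β * Γ.ev j β f = 0 := by
      intro f
      have h1 : ∑ β ∈ s', c β * Γ.ev j β f = ∑ β ∈ s, g β * Γ.ev j β f := by
        rw [Finset.sum_map]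
        refine Finset.sum_congr rfl fun β _ => ?_
        simp only [Function.Embedding.subtype_apply, c, dif_pos β.2]
      rw [h1]
      have h2 : ∀ i, ∑ β ∈ s, g β * Γ.u j β i = 0 := fun i => by
        have := congrFun hg i
        simpa [Finset.sum_apply] using this
      calc ∑ β ∈ s, g β * Γ.ev j β f = ∑ β ∈ s, ∑ i, (g β * Γ.u j β i) * f i := by
            refine Finset.sum_congr rfl fun β _ => ?_
            change g β * (∑ i, Γ.u j β i * f i) = _
            rw [Finset.mul_sum]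
            exact Finset.sum_congr rfl fun i _ => by ring
        _ = ∑ i, (∑ β ∈ s, g β * Γ.u j β i) * f i := by
            rw [Finset.sum_comm]
            exact Finset.sum_congr rfl fun i _ => by rw [Finset.sum_mul]
        _ = 0 := Finset.sum_eq_zero fun i _ => by rw [h2, zero_mul]
    have hdvd : ∀ k, (X : L⟦X⟧) ^ k ∣ X ^ (2 * q * Γ.e j) * g α := by
      intro k
      have h3 := hq j k s' c (by
        intro β hβ
        obtain ⟨γ, _, rfl⟩ := Finset.mem_map.1 hβ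
        exact γ.2) (fun f => by rw [hsum f]; exact dvd_zero _) α
        (Finset.mem_map.2 ⟨α, hα, rfl⟩)
      simpa only [c, dif_pos α.2] using h3
    have h4 : (X : L⟦X⟧) ^ (2 * q * Γ.e j) * g α = 0 := by
      ext k
      rw [map_zero]
      exact (X_pow_dvd_iff.1 (hdvd (k + 1))) k (Nat.lt_succ_self k)
    rcases mul_eq_zero.1 h4 with h5 | h5
    · exact absurd h5 (pow_ne_zero _ X_ne_zero)
    · exact h5
  have h := hli.cardinal_le_rank
  rw [rank_fin_fun] at h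
  have hlt : Cardinal.mk {α : Fin n →₀ ℕ // α.degree < q} < Cardinal.aleph0 :=
    lt_of_le_of_lt h Cardinal.natCast_lt_aleph0
  rw [← Cardinal.cast_toNat_of_lt_aleph0 hlt] at h
  exact_mod_cast h

/-- The case of small total cost. -/
private theorem CCore_small {N : ℕ} (P : Pool.Agent.Lib_GD.Profile N) (t : ℝ)
    (h : ∀ j S, j ∉ S → (P.phi j S : ℝ) ≤ t * P.cost j S) : (P.v : ℝ) ≤ t * P.A := by
  have h1 := P.phi_sum 1
  have h2 := P.cost_sum 1
  have h3 : ((∑ k, P.phi ((1 : Equiv.Perm (Fin N)) k)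
      ((Finset.Iio k).map (1 : Equiv.Perm (Fin N)).toEmbedding) : ℕ) : ℝ) ≤
      t * ((∑ k, P.cost ((1 : Equiv.Perm (Fin N)) k)
      ((Finset.Iio k).map (1 : Equiv.Perm (Fin N)).toEmbedding) : ℕ) : ℝ) := by
    push_cast
    rw [Finset.mul_sum]
    refine Finset.sum_le_sum fun k _ => h _ _ fun hk => ?_
    obtain ⟨l, hl, hlk⟩ := Finset.mem_map.1 hk
    exact (Finset.mem_Iio.1 hl).ne hlk
  rw [h1, h2] at h3
  exact h3

/-- Arithmetic of the radius. -/
private theorem CCore_radius {A Cq N e C : ℝ} {D n : ℕ} (he : 0 < e) (hA : e * Cq < A)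
    (hD : 0 < (D : ℝ)) (hCq : (e * D) ^ n / n.factorial ≤ Cq)
    (hN : N ≤ C * D ^ n) (hN0 : 0 ≤ N) :
    (⌈A / (e * Cq)⌉₊ : ℝ) * N ≤ 2 * C * n.factorial / e ^ (n + 1) * A := by
  have hf : (0 : ℝ) < n.factorial := by positivity
  have hCq0 : 0 < Cq := lt_of_lt_of_le (by positivity) hCq
  have hA0 : 0 < A := lt_trans (by positivity) hA
  have h1 : (⌈A / (e * Cq)⌉₊ : ℝ) ≤ 2 * (A / (e * Cq)) := by
    have h2 := (Nat.ceil_lt_add_one (by positivity : 0 ≤ A / (e * Cq))).le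
    have h3 : 1 ≤ A / (e * Cq) := by
      rw [one_le_div (by positivity)]; exact hA.le
    linarith
  have h4 : A / (e * Cq) ≤ A * n.factorial / (e * (e * D) ^ n) := by
    rw [div_le_div_iff₀ (by positivity) (by positivity)]
    have h5 : (e * D) ^ n ≤ Cq * n.factorial := by
      rwa [div_le_iff₀ hf] at hCq
    calc A * (e * (e * D) ^ n) ≤ A * (e * (Cq * n.factorial)) := by gcongr
      _ = A * n.factorial * (e * Cq) := by ring
  calc (⌈A / (e * Cq)⌉₊ : ℝ) * N ≤ (2 * (A * n.factorial / (e * (e * D) ^ n))) * (C * D ^ n) := by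
        refine mul_le_mul (h1.trans (by linarith)) hN hN0 (by positivity)
    _ = 2 * C * n.factorial / e ^ (n + 1) * A := by
        rw [mul_pow, pow_succ]
        field_simp

/-- K12 (core theorem) with poles. Port of `Lib_GD.core` (file `Lib_GD.Core`). Profile:
`cost := Γ.cc`, `phi := Γ.phi`, `A := Γ.AA` (`cc_sum`, `cc_mono`, `phi_sum`). Constants:
`e ≤ min (ε / (32 C₁)) (c / 2)` also `e ≤ 1`, `q = ⌈e D⌉`, `Cq = #{|α| < q}`,
`C' = 2 C n! / e ^ (n+1)`, `Lib_GD.comb` with `κ = ε / (4 C₁ C')`; `θ = 8 C₁ e D ≤ ε D / 4`.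
From `phi_le_max` and `HUP`: `φ(j|S) ≤ θ c(j|S)` or `Cq φ ≤ 2 D C₁ AA`; if `c(j|S) = 0` then
`a = e = 0`, so `φ = 0` by `phi_le`.
Small total cost `AA ≤ e Cq`: `φ ≤ θ c` always. Otherwise put `a₀ = ⌈AA / (e Cq)⌉`, radius
`a = C₁ a₀`, `B = D a = (C₁ D) a₀`; use `comb` with `D := C₁ D`, `a := a₀` and the ranks
`r S b = if ∃ i ∈ S, a < e_i then 0 else Γ.rk B a S b` (monotone, at most `N`).
`HT (C₁ D)` by `phi_le` and `HUP`; `HExp`: `Cq φ ≤ 2 D C₁ AA ≤ 2 D C₁ e Cq a₀`; `HEL` by `le_rk`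
(`c(i|S) ≤ a₀` gives `a(i|S), e_i ≤ a`, so `E` contains no bad point). `HCL`: if `S` contains a
bad point, `G S = 0`; if `j` is bad, `G (insert j S) = 0` and
`G S ≤ C₂ B ≤ ξ B N` as soon as `N ≥ C₂ / ξ` (add this to the lower bound of `D`); otherwise
`closeness` and `sum_rk`. Finally `a₀ N ≤ C' AA`, so the error is
`κ C₁ D a₀ N ≤ (ε / 4) D AA`. -/
theorem core (n : ℕ) (hn : 1 ≤ n) (c C ε : ℝ) (C₁ : ℕ) (hc : 0 < c) (hC : 0 < C) (hε : 0 < ε)
    (hC₁ : 1 ≤ C₁) :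
    ∃ D₀ : ℕ, ∀ (D N : ℕ), D₀ ≤ D → (N : ℝ) ≤ C * D ^ n →
      ∀ (L : Type) [Field L] [Algebra ℂ L] (Γ : ArcSys L n N) (σ : ℝ), 0 ≤ σ → Γ.det ≠ 0 →
        Γ.HT D → (∀ q : ℕ, (q : ℝ) ≤ c * D → Γ.HSep q) → Γ.HUP C₁ → Γ.HI2 σ →
        (Γ.det.order.toNat : ℝ) ≤ (σ / N + ε * D) * Γ.AA := by
  obtain ⟨e, he0, he1, he2⟩ : ∃ e : ℝ, 0 < e ∧ e ≤ ε / (32 * C₁) ∧ e ≤ c / 2 := by
    have hC₁' : (0 : ℝ) < C₁ := by exact_mod_cast hC₁
    exact ⟨min (ε / (32 * C₁)) (c / 2), by positivity, min_le_left _ _, min_le_right _ _⟩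
  have hC₁0 : (0 : ℝ) < C₁ := by exact_mod_cast hC₁
  have hC₁1 : (1 : ℝ) ≤ C₁ := by exact_mod_cast hC₁
  obtain ⟨C', hC'⟩ : ∃ C' : ℝ, C' = 2 * C * n.factorial / e ^ (n + 1) := ⟨_, rfl⟩
  have hC'0 : 0 < C' := by rw [hC']; positivity
  obtain ⟨ξ, C₂, N₀, hξ, hC₂, hcomb⟩ :=
    Pool.Agent.Lib_GD.comb (ε / (4 * C₁ * C')) (by positivity)
  obtain ⟨D₁, N₁, hclose⟩ := ArcSys.closeness ξ hξ C₂ hC₂
  obtain ⟨N₂, hN₂⟩ := exists_nat_ge ((C₂ : ℝ) / ξ)
  obtain ⟨D₂, hD₂⟩ := exists_nat_ge (2 / c)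
  obtain ⟨D₃, hD₃⟩ := exists_nat_ge (1 / e)
  obtain ⟨D₄, hD₄⟩ := exists_nat_ge ((max (max N₀ N₁) N₂ : ℕ) * n.factorial / e : ℝ)
  refine ⟨1 + D₁ + D₂ + D₃ + D₄, ?_⟩
  intro D N hD hN L _ _ Γ σ hσ hdet hT hSep hUP hI2
  have hDD1 : D₁ ≤ D := by omega
  have hDD2 : (2 / c : ℝ) ≤ D := hD₂.trans (by exact_mod_cast (by omega : D₂ ≤ D))
  have hDD3 : (1 / e : ℝ) ≤ D := hD₃.trans (by exact_mod_cast (by omega : D₃ ≤ D))
  have hDD4 : ((max (max N₀ N₁) N₂ : ℕ) * n.factorial / e : ℝ) ≤ D :=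
    hD₄.trans (by exact_mod_cast (by omega : D₄ ≤ D))
  have hDpos : (0 : ℝ) < D := by exact_mod_cast (by omega : 0 < D)
  -- the trivial case
  rcases Nat.eq_zero_or_pos N with hN0 | hN0
  · subst hN0
    have h1 : Γ.det.order.toNat = 0 := by
      have : Γ.det = 1 := by
        rw [ArcSys.det]; exact Matrix.det_isEmpty
      rw [this]; simp
    rw [h1]
    simp only [Nat.cast_zero]
    positivity
  -- the main case
  obtain ⟨q, hq⟩ : ∃ q : ℕ, q = ⌈e * D⌉₊ := ⟨_, rfl⟩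
  have hqlow : e * D ≤ q := by rw [hq]; exact Nat.le_ceil _
  have hqup : (q : ℝ) ≤ e * D + 1 := by
    rw [hq]; exact (Nat.ceil_lt_add_one (by positivity)).le
  have heD : 1 ≤ e * D := by
    rw [div_le_iff₀ he0] at hDD3
    linarith
  have hq1 : 1 ≤ q := by
    have : (1 : ℝ) ≤ q := heD.trans hqlow
    exact_mod_cast this
  have hqc : (q : ℝ) ≤ c * D := by
    rw [div_le_iff₀ hc] at hDD2
    have : e * D ≤ c / 2 * D := by gcongr
    linarith
  have hS := hSep q hqc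
  obtain ⟨Cq, hCq⟩ : ∃ Cq : ℕ, Cq = Nat.card {α : Fin n →₀ ℕ // α.degree < q} := ⟨_, rfl⟩
  have hCqN : Cq ≤ N := by
    rw [hCq]; exact CCore_card_le Γ q hS ⟨0, hN0⟩
  have hCqlow : (e * D) ^ n / n.factorial ≤ (Cq : ℝ) := by
    rw [hCq]
    refine le_trans ?_ (Pool.Agent.Lib_GD.pow_le_card_multi n q hn)
    gcongr
  have hf : (0 : ℝ) < n.factorial := by positivity
  have hCq0 : (0 : ℝ) < Cq := lt_of_lt_of_le (by positivity) hCqlow
  have hNbig : max (max N₀ N₁) N₂ ≤ N := by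
    have h1 : ((max (max N₀ N₁) N₂ : ℕ) : ℝ) ≤ N := by
      have h2 : e * D ≤ (e * D) ^ n := le_self_pow₀ heD (by omega)
      have h3 : ((max (max N₀ N₁) N₂ : ℕ) : ℝ) ≤ e * D / n.factorial := by
        rw [div_le_iff₀ he0] at hDD4
        rw [le_div_iff₀ hf]
        linarith
      calc ((max (max N₀ N₁) N₂ : ℕ) : ℝ) ≤ e * D / n.factorial := h3
        _ ≤ (e * D) ^ n / n.factorial := by gcongr
        _ ≤ Cq := hCqlow
        _ ≤ N := by exact_mod_cast hCqN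
    exact_mod_cast h1
  have hNN0 : N₀ ≤ N := (le_max_left _ _).trans ((le_max_left _ _).trans hNbig)
  have hNN1 : N₁ ≤ N := (le_max_right _ _).trans ((le_max_left _ _).trans hNbig)
  have hNN2 : (C₂ : ℝ) ≤ ξ * N := by
    have h1 : (N₂ : ℝ) ≤ N := by exact_mod_cast (le_max_right _ _).trans hNbig
    rw [div_le_iff₀ hξ] at hN₂
    nlinarith
  obtain ⟨θ, hθ⟩ : ∃ θ : ℝ, θ = 8 * C₁ * e * D := ⟨_, rfl⟩
  have hθ0 : 0 ≤ θ := by rw [hθ]; positivity
  have hθε : θ ≤ ε / 4 * D := by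
    rw [hθ]
    have h1 : 8 * C₁ * e ≤ ε / 4 := by
      rw [le_div_iff₀ (by positivity)] at he1
      linarith
    gcongr
  have hT' : ∀ (j : Fin N) (S : Finset (Fin N)), j ∉ S → Γ.phi j S ≤ C₁ * D * Γ.cc j S := by
    intro j S hj
    refine (Γ.phi_le hdet hT S j hj).trans ?_
    have h1 := (hUP j S hj).2
    have h2 : max (Γ.cost j S) (Γ.e j) ≤ C₁ * Γ.cc j S := by
      refine max_le ?_ ?_ <;> omega
    calc D * max (Γ.cost j S) (Γ.e j) ≤ D * (C₁ * Γ.cc j S) := Nat.mul_le_mul_left _ h2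
      _ = C₁ * D * Γ.cc j S := by ring
  have hE : ∀ (j : Fin N) (S : Finset (Fin N)), j ∉ S →
      (Γ.phi j S : ℝ) ≤ θ * Γ.cc j S ∨ (Cq : ℝ) * Γ.phi j S ≤ 2 * D * C₁ * Γ.AA := by
    intro j S hj
    rcases Γ.phi_le_max hdet hT hS hq1 hUP S j hj with h | h
    · left
      have h1 : (Γ.phi j S : ℝ) ≤ 4 * q * C₁ * Γ.cc j S := by exact_mod_cast h
      refine h1.trans ?_
      have h3 : 4 * (q : ℝ) * C₁ ≤ θ := by
        rw [hθ]
        nlinarith
      gcongr
    · right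
      rw [← hCq] at h
      exact_mod_cast h
  have hAnn : (0 : ℝ) ≤ Γ.AA := Nat.cast_nonneg _
  have hσN : 0 ≤ σ / N := by positivity
  rcases le_or_gt (Γ.AA : ℝ) (e * Cq) with hA | hA
  · -- small total cost
    have h1 : ((CCore_profile Γ hdet hUP).v : ℝ) ≤ θ * (CCore_profile Γ hdet hUP).A := by
      refine CCore_small _ _ ?_
      intro j S hj
      change (Γ.phi j S : ℝ) ≤ θ * Γ.cc j S
      rcases hE j S hj with h | h
      · exact h
      · rcases Nat.eq_zero_or_pos (Γ.cc j S) with h0 | h0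
        · have h2 := hT' j S hj
          rw [h0, mul_zero] at h2
          have h3 : Γ.phi j S = 0 := by omega
          rw [h3, h0]; simp
        · have h2 : (Cq : ℝ) * Γ.phi j S ≤ Cq * θ := by
            calc (Cq : ℝ) * Γ.phi j S ≤ 2 * D * C₁ * Γ.AA := h
              _ ≤ 2 * D * C₁ * (e * Cq) := by gcongr
              _ ≤ 8 * D * C₁ * (e * Cq) := by gcongr; norm_num
              _ = Cq * θ := by rw [hθ]; ring
          have h3 : (Γ.phi j S : ℝ) ≤ θ := le_of_mul_le_mul_left h2 hCq0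
          have h4 : (1 : ℝ) ≤ Γ.cc j S := by exact_mod_cast h0
          nlinarith
    change (Γ.det.order.toNat : ℝ) ≤ θ * Γ.AA at h1
    refine h1.trans ?_
    gcongr
    have : ε / 4 * D ≤ ε * D := by
      gcongr; linarith
    linarith
  · -- large total cost
    obtain ⟨a, ha⟩ : ∃ a : ℕ, a = ⌈(Γ.AA : ℝ) / (e * Cq)⌉₊ := ⟨_, rfl⟩
    have haN : (a : ℝ) * N ≤ C' * Γ.AA := by
      rw [ha, hC']
      exact CCore_radius he0 hA hDpos hCqlow hN (Nat.cast_nonneg _)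
    have hale : (Γ.AA : ℝ) ≤ e * Cq * a := by
      have h1 : (Γ.AA : ℝ) / (e * Cq) ≤ a := by rw [ha]; exact Nat.le_ceil _
      rw [div_le_iff₀ (by positivity)] at h1
      linarith
    have ha1 : 1 ≤ a := by
      have h1 : (0 : ℝ) < a := by
        by_contra hcon
        have h2 : (a : ℝ) = 0 := le_antisymm (not_lt.1 hcon) (Nat.cast_nonneg _)
        rw [h2, mul_zero] at hale
        have h3 : (0 : ℝ) < e * Cq := by positivity
        linarith
      exact_mod_cast h1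
    have hB : C₁ * D * a = D * (C₁ * a) := by ring
    have ha1' : 1 ≤ C₁ * a := Nat.mul_pos hC₁ ha1
    have hBr : ((C₁ : ℝ) * D * a) = D * ((C₁ * a : ℕ) : ℝ) := by push_cast; ring
    have key := hcomb N hNN0 (CCore_profile Γ hdet hUP)
      (CCore_ranks Γ (C₁ * D * a) (C₁ * a)) (C₁ * D) a
      θ σ (Nat.mul_pos hC₁ (by omega)) ha1 hθ0 hσ
      hT'
      (by
        intro j S hj hcost
        change (Γ.phi j S : ℝ) ≤ θ * Γ.cc j S
        rcases hE j S hj with h | h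
        · exact h
        · have h2 : (Cq : ℝ) * Γ.phi j S ≤ Cq * (θ * a) := by
            calc (Cq : ℝ) * Γ.phi j S ≤ 2 * D * C₁ * Γ.AA := h
              _ ≤ 2 * D * C₁ * (e * Cq * a) := by gcongr
              _ ≤ 8 * D * C₁ * (e * Cq * a) := by gcongr; norm_num
              _ = Cq * (θ * a) := by rw [hθ]; ring
          have h3 : (Γ.phi j S : ℝ) ≤ θ * a := le_of_mul_le_mul_left h2 hCq0
          refine h3.trans ?_
          have h4 : (a : ℝ) ≤ Γ.cc j S := by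
            change a < Γ.cc j S at hcost
            exact_mod_cast hcost.le
          gcongr)
      (by
        intro S E b _ hES hb hb' h
        have h' : ∀ i ∈ E, Γ.cost i S ≤ C₁ * a ∧ Γ.e i ≤ C₁ * a ∧ b ≤ Γ.phi i S := by
          intro i hi
          have h1 := h i hi
          change Γ.cc i S ≤ a ∧ b ≤ Γ.phi i S at h1
          have h2 := (hUP i S (Finset.disjoint_left.1 hES hi)).2
          have h3 : C₁ * Γ.cc i S ≤ C₁ * a := Nat.mul_le_mul_left _ h1.1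
          exact ⟨by omega, by omega, h1.2⟩
        have hbad : ¬ ∃ i ∈ E, C₁ * a < Γ.e i := by
          rintro ⟨i, hi, hia⟩
          have := (h' i hi).2.1
          omega
        have h4 := Γ.le_rk hdet (C₁ * D * a) (C₁ * a) S E b hES hb hb' h'
        unfold CCore_ranks
        simp only [if_neg hbad]
        exact h4)
      (by
        intro S j hSne hj h
        by_cases hSbad : ∃ i ∈ S, C₁ * a < Γ.e i
        · rw [CCore_G_bad Γ _ _ _ S hSbad]
          change ((0 : ℕ) : ℝ) ≤ σ * Γ.cc j S + ξ * (C₁ * D : ℕ) * a * N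
          push_cast
          positivity
        · by_cases hjbad : C₁ * a < Γ.e j
          · have h1 : ∃ i ∈ insert j S, C₁ * a < Γ.e i := ⟨j, Finset.mem_insert_self _ _, hjbad⟩
            rw [CCore_G_bad Γ _ _ _ _ h1, zero_add] at h
            have h2 : (((CCore_ranks Γ (C₁ * D * a) (C₁ * a)).G (C₁ * D * a) S : ℕ) : ℝ) ≤
                C₂ * (C₁ * D * a) := by exact_mod_cast h
            refine h2.trans ?_
            change (C₂ : ℝ) * (C₁ * D * a) ≤ σ * Γ.cc j S + ξ * (C₁ * D : ℕ) * a * N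
            push_cast
            have h3 : (C₂ : ℝ) * (C₁ * D * a) ≤ ξ * N * (C₁ * D * a) := by gcongr
            have h4 : (0 : ℝ) ≤ σ * Γ.cc j S := by positivity
            calc (C₂ : ℝ) * (C₁ * D * a) ≤ ξ * N * (C₁ * D * a) := h3
              _ = ξ * (C₁ * D) * a * N := by ring
              _ ≤ σ * Γ.cc j S + ξ * (C₁ * D) * a * N := by linarith
          · have hIbad : ¬ ∃ i ∈ insert j S, C₁ * a < Γ.e i := by
              rintro ⟨i, hi, hia⟩
              rcases Finset.mem_insert.1 hi with rfl | hi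
              · exact hjbad hia
              · exact hSbad ⟨i, hi, hia⟩
            have s1 := CCore_G_good Γ (C₁ * D * a) (C₁ * a) S hSbad
            have s2 := CCore_G_good Γ (C₁ * D * a) (C₁ * a) (insert j S) hIbad
            have h3 := hclose L n N Γ σ D (C₁ * a) hDD1 hNN1 ha1' hσ hI2 S j
              hSne hj (not_lt.1 hjbad) (by rw [← hB]; omega)
            rw [← hB] at h3
            have g3 : (((CCore_ranks Γ (C₁ * D * a) (C₁ * a)).G (C₁ * D * a) S : ℕ) : ℝ) +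
                (colen (Γ.Lam (C₁ * D * a) (C₁ * a) S) : ℝ) = C₁ * D * a * N := by
              exact_mod_cast s1
            change (((CCore_ranks Γ (C₁ * D * a) (C₁ * a)).G (C₁ * D * a) S : ℕ) : ℝ) ≤
              σ * Γ.cc j S + ξ * (C₁ * D : ℕ) * a * N
            push_cast at h3 ⊢
            have g4 : (D : ℝ) * (C₁ * a) * N = C₁ * D * a * N := by ring
            have g5 : ξ * D * (C₁ * a) * N = ξ * (C₁ * D) * a * N := by ring
            linarith)
    change (Γ.det.order.toNat : ℝ) ≤ θ * Γ.AA + σ / N * Γ.AA +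
      ε / (4 * C₁ * C') * (C₁ * D : ℕ) * a * N at key
    refine key.trans ?_
    have h1 : ε / (4 * C₁ * C') * (C₁ * D : ℕ) * a * N ≤ ε / 4 * D * Γ.AA := by
      push_cast
      calc ε / (4 * C₁ * C') * (C₁ * D) * a * N = ε / (4 * C') * D * (a * N) := by
            field_simp
        _ ≤ ε / (4 * C') * D * (C' * Γ.AA) := by gcongr
        _ = ε / 4 * D * Γ.AA := by field_simp
    have h2 : θ * Γ.AA ≤ ε / 4 * D * Γ.AA := by gcongr
    have h3 : 0 ≤ ε / 2 * D * Γ.AA := by positivity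
    calc θ * Γ.AA + σ / N * Γ.AA + ε / (4 * C₁ * C') * (C₁ * D : ℕ) * a * N
        ≤ ε / 4 * D * Γ.AA + σ / N * Γ.AA + ε / 4 * D * Γ.AA := by linarith
      _ ≤ (σ / N + ε * D) * Γ.AA := by nlinarith

end Pool.Agent.Lib_KF

end

/-! ### from `Lib_KF.CFinal` -/

section

/-! C16: the main bound for arc systems with poles, abstract form. -/

open PowerSeries

namespace Pool.Agent.Lib_KF

open Pool.Agent.Lib_GD (hat colen FinColen ArcSystem)

namespace ArcSys

variable {L : Type} [Field L] [Algebra ℂ L] {n N : ℕ} (Γ : ArcSys L n N)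

/-- The total cost is positive. -/
theorem one_le_AA {C₁ : ℕ} (hUP : Γ.HUP C₁) (h1 : 1 ≤ colen Γ.Ξ) : 1 ≤ Γ.AA := by
  classical
  have hs := Γ.cc_sum hUP (Equiv.refl _)
  have hc := Γ.base.cost_sum (Equiv.refl _)
  have hA : Γ.base.A = colen Γ.Ξ := rfl
  rw [hA] at hc
  by_contra hcon
  have h0 : Γ.AA = 0 := by omega
  rw [h0] at hs
  have h2 : ∀ k : Fin N, Γ.base.cost ((Equiv.refl (Fin N)) k)
      ((Finset.Iio k).map (Equiv.refl (Fin N)).toEmbedding) = 0 := by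
    intro k
    have h3 := Finset.sum_eq_zero_iff.1 hs k (Finset.mem_univ k)
    have h4 : (Equiv.refl (Fin N)) k ∉ (Finset.Iio k).map (Equiv.refl (Fin N)).toEmbedding := by
      intro h
      obtain ⟨i, hi, hik⟩ := Finset.mem_map.1 h
      have hik' : i = k := hik
      rw [hik', Finset.mem_Iio] at hi
      exact lt_irrefl _ hi
    have h5 := (hUP _ _ h4).2
    rw [h3, mul_zero] at h5
    have h6 : Γ.cost ((Equiv.refl (Fin N)) k)
      ((Finset.Iio k).map (Equiv.refl (Fin N)).toEmbedding) = 0 := by omega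
    exact h6
  rw [Finset.sum_eq_zero fun k _ => h2 k] at hc
  omega

/-- The total cost as a real number. -/
theorem AA_cast {C₁ : ℕ} (hUP : Γ.HUP C₁) :
    (Γ.AA : ℝ) = Γ.r * colen Γ.Ξ - ∑ j, (Γ.g j : ℝ) := by
  classical
  have hc := Γ.base.cost_sum (Equiv.refl _)
  have hA : Γ.base.A = colen Γ.Ξ := rfl
  rw [hA] at hc
  have hle : ∑ j, Γ.g j ≤ Γ.r * colen Γ.Ξ := by
    rw [← hc, Finset.mul_sum]
    refine Finset.sum_le_sum fun k _ => ?_
    have h4 : (Equiv.refl (Fin N)) k ∉ (Finset.Iio k).map (Equiv.refl (Fin N)).toEmbedding := by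
      intro h
      obtain ⟨i, hi, hik⟩ := Finset.mem_map.1 h
      have hik' : i = k := hik
      rw [hik', Finset.mem_Iio] at hi
      exact lt_irrefl _ hi
    exact (hUP _ _ h4).1
  unfold AA
  rw [Nat.cast_sub hle]
  push_cast
  ring

end ArcSys

/-- C16: the main bound in terms of arc systems. -/
theorem main_bound_abs (n : ℕ) (hn : 1 ≤ n) (r : ℕ) (hr : 1 ≤ r) (c c' : ℝ) (hc : 0 < c)
    (hcc' : c < c') (Cg CT C₁ : ℕ) (hCT : 1 ≤ CT) (hC₁ : 1 ≤ C₁) (cl : ℝ) (hcl : 0 < cl) :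
    ∃ m₂ : ℕ, ∀ (m N : ℕ), m₂ ≤ m → 1 ≤ m → 1 ≤ N → N ≤ Cg * m ^ n →
      ∀ (L : Type) [Field L] [Algebra ℂ L] (Γ : ArcSys L n N), Γ.r = r → Γ.HT (CT * m) →
        (∀ q : ℕ, (q : ℝ) ≤ cl * m → Γ.HSep q) → Γ.HUP C₁ → Γ.HI2 (m * N / c') →
        1 ≤ colen Γ.Ξ → ∀ A : ℝ, (r : ℝ) * colen Γ.Ξ - ∑ j, (Γ.g j : ℝ) = r * A →
          Γ.det.order ≠ ⊤ ∧ c / (m * r) * (Γ.det.order.toNat : ℝ) < A := by
  have hc'0 : 0 < c' := hc.trans hcc'
  have hCT' : (0 : ℝ) < CT := by exact_mod_cast hCT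
  have hr' : (0 : ℝ) < r := by exact_mod_cast hr
  set ε₂ : ℝ := (1 / c - 1 / c') / (2 * CT) with hε₂
  have hg0 : 0 < 1 / c - 1 / c' := by
    rw [sub_pos]
    exact one_div_lt_one_div_of_lt hc hcc'
  have hε₂0 : 0 < ε₂ := by positivity
  obtain ⟨D₀, hD₀⟩ := core n hn (cl / CT) (Cg + 1) ε₂ C₁ (by positivity) (by positivity) hε₂0 hC₁
  refine ⟨D₀, fun m N hm hm1 hN hNC L _ _ Γ hΓr hT hS hUP hI hX A hA => ?_⟩
  have hm1' : (1 : ℝ) ≤ m := by exact_mod_cast hm1
  have hm0 : (0 : ℝ) < m := by linarith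
  have hN' : (0 : ℝ) < N := by exact_mod_cast hN
  have hdet : Γ.det ≠ 0 := Γ.det_ne_zero hT
  have hτ0 : (0 : ℝ) ≤ m * N / c' := by positivity
  have hND : (N : ℝ) ≤ (Cg + 1) * ((CT * m : ℕ) : ℝ) ^ n := by
    have h7 : m ^ n ≤ (CT * m) ^ n := Nat.pow_le_pow_left (Nat.le_mul_of_pos_left m hCT) n
    have h8 : N ≤ (Cg + 1) * (CT * m) ^ n := hNC.trans (Nat.mul_le_mul (Nat.le_succ _) h7)
    exact_mod_cast h8
  have hS' : ∀ q : ℕ, (q : ℝ) ≤ cl / CT * (CT * m : ℕ) → Γ.HSep q := by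
    intro q hq
    refine hS q (hq.trans (le_of_eq ?_))
    push_cast
    field_simp
  have hmain := hD₀ (CT * m) N (hm.trans (Nat.le_mul_of_pos_left m hCT)) hND L Γ (m * N / c') hτ0
    hdet hT hS' hUP hI
  refine ⟨PowerSeries.order_eq_top.not.2 hdet, ?_⟩
  have hAA1 : (1 : ℝ) ≤ Γ.AA := by exact_mod_cast Γ.one_le_AA hUP hX
  have hAA : (Γ.AA : ℝ) = r * A := by
    rw [Γ.AA_cast hUP, hΓr, hA]
  have hApos : 0 < A := by
    rw [hAA] at hAA1
    by_contra hcon
    rw [not_lt] at hcon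
    have : (r : ℝ) * A ≤ 0 := mul_nonpos_of_nonneg_of_nonpos hr'.le hcon
    linarith
  rw [hAA] at hmain
  have h6 : (m * N / c' / N + ε₂ * ((CT * m : ℕ) : ℝ)) = m * ((1 / c + 1 / c') / 2) := by
    rw [hε₂]
    push_cast
    field_simp
    ring
  rw [h6] at hmain
  have h7 : c / (m * r) * (Γ.det.order.toNat : ℝ) ≤
      c / (m * r) * (m * ((1 / c + 1 / c') / 2) * (r * A)) :=
    mul_le_mul_of_nonneg_left hmain (by positivity)
  have h8 : c / (m * r) * (m * ((1 / c + 1 / c') / 2) * (r * A)) = (1 + c / c') / 2 * A := by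
    field_simp
  rw [h8] at h7
  have h9 : c / c' < 1 := by rwa [div_lt_one hc'0]
  nlinarith

end Pool.Agent.Lib_KF

end

/-! ### from `Lib_MP_e0d435_kv.Vlemma` -/

section

/-! V17: the volume lemma V(k) of note 1223. -/

open MeasureTheory

namespace Pool.Agent.Lib_MP_e0d435_kv

/-- The statement V(k). -/
def VStat (k : ℕ) : Prop :=
  ∀ (J : ℕ) (g : Fin J → Pol k), (∀ i, g i ≠ 0) → ∀ c η q₀ : ℝ, 0 ≤ c → 0 < η →
    ∃ ε₀ : ℝ, 0 < ε₀ ∧ ε₀ < 1 ∧ ∀ ε, 0 < ε → ε < ε₀ → ∀ S : Set (Fin k → ℂ),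
      MeasurableSet S → (∀ y ∈ S, ∀ j, ‖y j‖ ≤ 1) →
      ENNReal.ofReal (ε ^ (2 * c)) ≤ volume S →
      ∃ y ∈ S, (∀ i, MvPolynomial.eval y (g i) ≠ 0) ∧
        ∃ (Λ : LDF k) (x : Fin k → Λ.M) (q : ℝ), q₀ ≤ q ∧ 0 < q ∧ Λ.jac x ≠ 0 ∧
          (ordZ Λ.w (Λ.jac x) : ℝ) ≤ q * (c + η) ∧
          ∀ i, Approx q ε η (ordZ Λ.w (MvPolynomial.aeval x (g i))) (MvPolynomial.eval y (g i))

/-- Approximation with a larger error. -/
theorem Vlemma_approx_mono {q ε η₁ η₂ : ℝ} (hq : 0 ≤ q) (h : η₁ ≤ η₂) {o : ℤ} {a : ℂ}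
    (ha : Approx q ε η₁ o a) : Approx q ε η₂ o a :=
  le_trans ha (mul_le_mul_of_nonneg_left h hq)

/-- The logarithm of a fixed number to a small base is small. -/
theorem Vlemma_lg_small (L η ε : ℝ) (hL : 0 ≤ L) (hη : 0 < η) (hε : 0 < ε)
    (hε₀ : ε < Real.exp (-(1 + L / η))) (a : ℂ) (ha : |Real.log ‖a‖| ≤ L) : |lg ε a| ≤ η := by
  have h1 : Real.log ε < -(1 + L / η) := (Real.log_lt_iff_lt_exp hε).2 hε₀
  have h2 : 0 ≤ L / η := div_nonneg hL hη.le
  have h3 : 1 + L / η < |Real.log ε| := by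
    rw [abs_of_neg (by linarith)]; linarith
  unfold lg
  rw [abs_div, div_le_iff₀ (by linarith)]
  calc |Real.log ‖a‖| ≤ L := ha
    _ = η * (L / η) := by field_simp
    _ ≤ η * |Real.log ε| := mul_le_mul_of_nonneg_left (by linarith) hη.le

/-- Proof: `S` is not empty, so it contains the only point `y`; `g i` is a non-zero constant:
`|lg ε (g i)| ≤ η` for small `ε`, `ord = 0`; `q = max 1 q₀`. -/
theorem vstat_zero : VStat 0 := by
  intro J g hg c η q₀ hc hη
  set L : ℝ := ∑ i, |Real.log ‖MvPolynomial.coeff 0 (g i)‖| with hLdef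
  have hL : 0 ≤ L := Finset.sum_nonneg fun i _ => abs_nonneg _
  have hLη : 0 ≤ L / η := div_nonneg hL hη.le
  refine ⟨Real.exp (-(1 + L / η)), Real.exp_pos _, ?_, ?_⟩
  · rw [Real.exp_lt_one_iff]; linarith
  intro ε hε hε₀ S _ _ hvol
  have hpos : 0 < volume S := lt_of_lt_of_le
    (ENNReal.ofReal_pos.2 (Real.rpow_pos_of_pos hε _)) hvol
  obtain ⟨y, hy⟩ := nonempty_of_measure_ne_zero hpos.ne'
  have hC : ∀ i, g i = MvPolynomial.C (MvPolynomial.coeff 0 (g i)) :=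
    fun i => MvPolynomial.eq_C_of_isEmpty (g i)
  have hne : ∀ i, MvPolynomial.coeff 0 (g i) ≠ 0 := by
    intro i h0
    apply hg i
    rw [hC i, h0, map_zero]
  have hev : ∀ i, MvPolynomial.eval y (g i) = MvPolynomial.coeff 0 (g i) := by
    intro i
    conv_lhs => rw [hC i]
    exact MvPolynomial.eval_C _
  obtain ⟨Λ⟩ := exists_LDF_zero
  refine ⟨y, hy, fun i => by rw [hev i]; exact hne i, Λ, fun j => j.elim0, max 1 q₀,
    le_max_right _ _, lt_of_lt_of_le one_pos (le_max_left _ _), ?_, ?_, ?_⟩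
  · unfold LDF.jac
    rw [Matrix.det_isEmpty]
    exact one_ne_zero
  · unfold LDF.jac
    rw [Matrix.det_isEmpty, ordZ_one]
    have : 0 ≤ max 1 q₀ * (c + η) := mul_nonneg
      (le_trans zero_le_one (le_max_left _ _)) (by linarith)
    simpa using this
  · intro i
    have h1 : MvPolynomial.aeval (fun j : Fin 0 => (j.elim0 : Λ.M)) (g i) =
        algebraMap ℂ Λ.M (MvPolynomial.coeff 0 (g i)) := by
      conv_lhs => rw [hC i]
      exact MvPolynomial.aeval_C _ _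
    rw [h1, ordZ_algebraMap, hev i]
    have h2 : |lg ε (MvPolynomial.coeff 0 (g i))| ≤ η := by
      refine Vlemma_lg_small L η ε hL hη hε hε₀ _ ?_
      exact Finset.single_le_sum (f := fun i => |Real.log ‖MvPolynomial.coeff 0 (g i)‖|)
        (fun i _ => abs_nonneg _) (Finset.mem_univ i)
    have h3 : 0 ≤ max 1 q₀ := le_trans zero_le_one (le_max_left _ _)
    unfold Approx
    rw [Int.cast_zero, zero_sub, abs_neg, abs_mul, abs_of_nonneg h3]
    exact mul_le_mul_of_nonneg_left h2 h3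

/-- A common bound for finitely many smallness conditions. -/
theorem Vlemma_finite (P : ℕ → ℝ → Prop) (N : ℕ)
    (h : ∀ l ≤ N, ∃ ε₀ : ℝ, 0 < ε₀ ∧ ε₀ < 1 ∧ ∀ ε, 0 < ε → ε < ε₀ → P l ε) :
    ∃ ε₀ : ℝ, 0 < ε₀ ∧ ε₀ < 1 ∧ ∀ ε, 0 < ε → ε < ε₀ → ∀ l ≤ N, P l ε := by
  induction N with
  | zero =>
    obtain ⟨e, h1, h2, h3⟩ := h 0 le_rfl
    refine ⟨e, h1, h2, fun ε hε hε' l hl => ?_⟩
    obtain rfl : l = 0 := by omega
    exact h3 ε hε hε'
  | succ N ih =>
    obtain ⟨e, h1, h2, h3⟩ := ih fun l hl => h l (by omega)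
    obtain ⟨e', h1', h2', h3'⟩ := h (N + 1) le_rfl
    refine ⟨min e e', lt_min h1 h1', lt_of_le_of_lt (min_le_left _ _) h2,
      fun ε hε hε' l hl => ?_⟩
    rcases Nat.lt_or_ge l (N + 1) with hl' | hl'
    · exact h3 ε hε (lt_of_lt_of_le hε' (min_le_left _ _)) l (by omega)
    · obtain rfl : l = N + 1 := by omega
      exact h3' ε hε (lt_of_lt_of_le hε' (min_le_right _ _))

/-- Proof: `arc_step` with `η/4`: `g'`, `η'`, `ε₁`, `q₁`, `D`; `η₁ = η/8`; V(k) for `g'`,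
`η'' = min (η', η/4)`, `max q₀ q₁ 1` and each of the finitely many `c - lη₁ + η₁ ≥ 0`,
`lη₁ ≤ c + η₁`; `ε₀` the least. For `S`: `exists_level` gives `l`, `E`; V(k) gives `y' ∈ E` and
`Λ`, `x'`, `q` with `ord jac ≤ q (c - lη₁ + η₁ + η'')`; `arc_step` gives centres `c_a`;
`exists_outside` gives `y0` with `Fin.cons y0 y' ∈ S` and `|y0 - c_a| > ε^γ`, `γ = (l+2)η₁`;
`arc_step`: `ord jac x ≤ q e (c - lη₁ + η₁ + η'' + (l+2)η₁ + η/4) ≤ q e (c + η)`. -/
theorem vstat_succ (k : ℕ) (h : VStat k) : VStat (k + 1) := by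
  intro J g hg c η q₀ hc hη
  obtain ⟨J', g', η', ε₁, q₁, D, hg', hη', hε₁, hε₁1, hq₁, H⟩ :=
    arc_step g hg (η / 4) (by positivity)
  have hη₁ : 0 < η / 8 := by positivity
  obtain ⟨ε₂, hε₂, hε₂1, H2⟩ := exists_level (k := k) c (η / 8) hc hη₁
  obtain ⟨ε₃, hε₃, hε₃1, H3⟩ := exists_outside D (η / 8) hη₁
  set η'' : ℝ := min η' (η / 4) with hη''
  have hη''pos : 0 < η'' := lt_min hη' (by positivity)
  set Q : ℝ := max q₀ q₁ with hQ
  obtain ⟨ε₄, hε₄, hε₄1, H4⟩ := Vlemma_finite (fun l ε => (l : ℝ) * (η / 8) ≤ c + η / 8 →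
      ∀ S : Set (Fin k → ℂ), MeasurableSet S → (∀ y ∈ S, ∀ j, ‖y j‖ ≤ 1) →
      ENNReal.ofReal (ε ^ (2 * (c - l * (η / 8) + η / 8))) ≤ volume S →
      ∃ y ∈ S, (∀ i, MvPolynomial.eval y (g' i) ≠ 0) ∧
        ∃ (Λ : LDF k) (x : Fin k → Λ.M) (q : ℝ), Q ≤ q ∧ 0 < q ∧ Λ.jac x ≠ 0 ∧
          (ordZ Λ.w (Λ.jac x) : ℝ) ≤ q * (c - l * (η / 8) + η / 8 + η'') ∧
          ∀ i, Approx q ε η'' (ordZ Λ.w (MvPolynomial.aeval x (g' i)))
            (MvPolynomial.eval y (g' i)))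
      ⌊(c + η / 8) / (η / 8)⌋₊ (by
        intro l _
        by_cases hl : (l : ℝ) * (η / 8) ≤ c + η / 8
        · obtain ⟨e, h1, h2, h3⟩ := h J' g' hg' (c - l * (η / 8) + η / 8) η'' Q
            (by linarith) hη''pos
          exact ⟨e, h1, h2, fun ε hε hε' _ S hS hS1 hS2 => h3 ε hε hε' S hS hS1 hS2⟩
        · exact ⟨1 / 2, by norm_num, by norm_num, fun ε _ _ h0 => absurd h0 hl⟩)
  refine ⟨min (min ε₁ ε₂) (min ε₃ ε₄), lt_min (lt_min hε₁ hε₂) (lt_min hε₃ hε₄),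
    lt_of_le_of_lt (min_le_left _ _) (lt_of_le_of_lt (min_le_left _ _) hε₁1), ?_⟩
  intro ε hε hεm S hS hS1 hS2
  have e1 : ε < ε₁ := lt_of_lt_of_le hεm ((min_le_left _ _).trans (min_le_left _ _))
  have e2 : ε < ε₂ := lt_of_lt_of_le hεm ((min_le_left _ _).trans (min_le_right _ _))
  have e3 : ε < ε₃ := lt_of_lt_of_le hεm ((min_le_right _ _).trans (min_le_left _ _))
  have e4 : ε < ε₄ := lt_of_lt_of_le hεm ((min_le_right _ _).trans (min_le_right _ _))
  obtain ⟨l, hl, E, hE, hE1, hE2, hE3⟩ := H2 ε hε e2 S hS hS1 hS2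
  have hlN : l ≤ ⌊(c + η / 8) / (η / 8)⌋₊ := by
    apply Nat.le_floor
    rw [le_div_iff₀ hη₁]
    exact hl
  obtain ⟨y', hy', hgy', Λ, x', q, hQq, hq, hjac, hord, happ⟩ := H4 ε hε e4 l hlN hl E hE hE1 hE2
  obtain ⟨cc, H5⟩ := H ε hε e1 y' hgy'
  obtain ⟨y0, hy0, hout⟩ := H3 ε hε e3 l _ cc (hE3 y' hy')
  have hy0' : (Fin.cons y0 y' : Fin (k + 1) → ℂ) ∈ S := hy0
  have hn : ‖y0‖ ≤ 1 := by simpa using hS1 _ hy0' 0
  obtain ⟨hne, Λ', x, e, he, hjac', hord', happ'⟩ := H5 Λ x' q ((le_max_right _ _).trans hQq) hjac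
    (fun j => Vlemma_approx_mono hq.le (min_le_left _ _) (happ j)) y0 ((l + 2) * (η / 8)) hn hout
  have heR : (1 : ℝ) ≤ e := by exact_mod_cast he
  have hqe : q ≤ q * e := le_mul_of_one_le_right hq.le heR
  refine ⟨Fin.cons y0 y', hy0', hne, Λ', x, q * e, ?_, lt_of_lt_of_le hq hqe, hjac', ?_, ?_⟩
  · exact ((le_max_left _ _).trans hQq).trans hqe
  · have h1 : (e : ℝ) * ordZ Λ.w (Λ.jac x') ≤
        e * (q * (c - l * (η / 8) + η / 8 + η'')) :=
      mul_le_mul_of_nonneg_left hord (by linarith)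
    have h2 : η'' ≤ η / 4 := min_le_right _ _
    have h3 : q * e * η'' ≤ q * e * (η / 4) :=
      mul_le_mul_of_nonneg_left h2 (hq.le.trans hqe)
    have h4 : 0 ≤ q * e * (η / 8) := mul_nonneg (hq.le.trans hqe) hη₁.le
    calc (ordZ Λ'.w (Λ'.jac x) : ℝ)
        ≤ e * ordZ Λ.w (Λ.jac x') + q * e * ((l + 2) * (η / 8) + η / 4) := hord'
      _ ≤ e * (q * (c - l * (η / 8) + η / 8 + η'')) +
            q * e * ((l + 2) * (η / 8) + η / 4) := by linarith
      _ = q * e * (c + η) + q * e * η'' - q * e * (η / 4) - q * e * (η / 8) := by ring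
      _ ≤ q * e * (c + η) := by linarith
  · intro i
    exact Vlemma_approx_mono (hq.le.trans hqe) (by linarith) (happ' i)

theorem vstat (k : ℕ) : VStat k := by
  induction k with
  | zero => exact vstat_zero
  | succ k ih => exact vstat_succ k ih

end Pool.Agent.Lib_MP_e0d435_kv

end

/-! ### from `Lib_KF.GArcDefs` -/

section

/-!
# Arc systems on the cone

The arc system of `N_m` arcs `x_j : R → L⟦X⟧` with `x_j (x (a_j)) = 1`.
-/

open PowerSeries

namespace Pool.Agent.Lib_KF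

open Pool.Agent.Lib_GD

/-- The arc system `Γ` is the arc system of the arcs `arc j` on the cone, with
`arc j (x (a j)) = 1`; `u j α i` is `arc j (h ^ |α| ∂^α s_i)` divided by the unit `eps j ^ |α|`,
`arc j h = X ^ e_j eps j`. -/
structure ArcDat {R : Type} [CommRing R] [Algebra ℂ R] (𝒜 : ℕ → Submodule ℂ R)
    [GradedAlgebra 𝒜] {n : ℕ} {x : Fin (n + 1) → R} (T : DerData x) (r : ℕ) (G : R) (m : ℕ)
    {L : Type} [Field L] [Algebra ℂ L] (Γ : ArcSys L n (secDim 𝒜 m)) where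
  arc : Fin (secDim 𝒜 m) → (R →ₐ[ℂ] L⟦X⟧)
  a : Fin (secDim 𝒜 m) → Fin (n + 1)
  arc_x : ∀ j, arc j (x (a j)) = 1
  /-- homogeneous elements do not vanish on the arcs -/
  inj : ∀ j k, ∀ s ∈ 𝒜 k, arc j s = 0 → s = 0
  eps : Fin (secDim 𝒜 m) → L⟦X⟧
  eps_unit : ∀ j, IsUnit (eps j)
  arc_h : ∀ j, arc j T.h = X ^ Γ.e j * eps j
  u_eq : ∀ j α i, eps j ^ α.degree * Γ.u j α i = arc j (T.F (a j) α (secBasis 𝒜 m i))
  w_eq : ∀ δ j α, Γ.w δ j α = 0
  xi_eq : ∀ δ j l, Γ.ξ δ j l = hat δ (arc j (x ((a j).succAbove l)))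
  D_top : Γ.𝒟 = ⊤
  G_order : ∀ j, (arc j G).order = (Γ.g j : ℕ∞)
  r_eq : Γ.r = r

namespace ArcDat

variable {R : Type} [CommRing R] [Algebra ℂ R] {𝒜 : ℕ → Submodule ℂ R} [GradedAlgebra 𝒜] {n : ℕ}
  {x : Fin (n + 1) → R} {T : DerData x} {r : ℕ} {G : R} {m : ℕ}
  {L : Type} [Field L] [Algebra ℂ L] {Γ : ArcSys L n (secDim 𝒜 m)}

theorem u_zero (D : ArcDat 𝒜 T r G m Γ) (j i : Fin (secDim 𝒜 m)) :
    Γ.u j 0 i = D.arc j (secBasis 𝒜 m i) := by
  have h1 := D.u_eq j 0 i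
  rw [T.F_zero] at h1
  simpa using h1

theorem h_order (D : ArcDat 𝒜 T r G m Γ) (j : Fin (secDim 𝒜 m)) :
    (D.arc j T.h).order = (Γ.e j : ℕ∞) := by
  rw [D.arc_h, PowerSeries.order_mul, PowerSeries.order_X_pow,
    PowerSeries.order_zero_of_unit (D.eps_unit j), add_zero]

end ArcDat

end Pool.Agent.Lib_KF

end

/-! ### from `Lib_KF.GXi` -/

section

/-! G4d: the values of the derivations along the generic arc. -/

open PowerSeries

namespace Pool.Agent.Lib_KF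

open Pool.Agent.Lib_GD

/-- Derivations of `L` on the image of `Φ`. -/
private theorem GXi_hat {V : Type} [CommRing V] [Algebra ℂ V] {r : ℕ} {t : V}
    {w : Fin r → V} {δt : Derivation ℂ V V} {δ : Fin r → Derivation ℂ V V}
    (h5 : ∀ f, KaehlerDifferential.D ℂ V f = δt f • KaehlerDifferential.D ℂ V t +
        ∑ l, δ l f • KaehlerDifferential.D ℂ V (w l))
    {L : Type} [Field L] [Algebra ℂ L] (Φ : V →ₐ[ℂ] L⟦X⟧) (d : Derivation ℂ L L) (f : V) :
    hat d (Φ f) = Φ (δt f) * hat d (Φ t) + ∑ l, Φ (δ l f) * hat d (Φ (w l)) := by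
  let _ : Module V L⟦X⟧ := Module.compHom L⟦X⟧ Φ.toRingHom
  have hsm : ∀ (b : V) (f : L⟦X⟧), b • f = Φ b * f := fun _ _ => rfl
  have _ : IsScalarTower ℂ V L⟦X⟧ := ⟨fun z b f => by
    rw [hsm, hsm, map_smul, smul_mul_assoc]⟩
  let D : Derivation ℂ V L⟦X⟧ :=
    { toFun := fun b => hat d (Φ b)
      map_add' := fun a b => by
        ext k; simp [hat]
      map_smul' := fun z b => by
        ext k; simp [hat]
      map_one_eq_zero' := by
        change hat d (Φ 1) = 0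
        ext k
        rw [map_one, hat, PowerSeries.coeff_mk, PowerSeries.coeff_one]
        split_ifs <;> simp
      leibniz' := fun a b => by
        change hat d (Φ (a * b)) = a • hat d (Φ b) + b • hat d (Φ a)
        rw [hsm, hsm, map_mul, hat_mul, mul_comm (hat d (Φ a))] }
  have h := congrArg D.liftKaehlerDifferential (h5 f)
  rw [map_add, map_sum, map_smul, Derivation.liftKaehlerDifferential_comp_D,
    Derivation.liftKaehlerDifferential_comp_D] at h
  have h' : D f = δt f • D t + ∑ l, δ l f • D (w l) := by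
    rw [h]
    congr 1
    refine Finset.sum_congr rfl fun l _ => ?_
    rw [map_smul, Derivation.liftKaehlerDifferential_comp_D]
  exact h'

private theorem GXi_length {A P Q : Type} [CommRing A] [AddCommGroup P] [Module A P]
    [AddCommGroup Q] [Module A Q] (e : P ≃ₗ[A] Q) (M : Submodule A P) (M' : Submodule A Q)
    (h : M.map (e : P →ₗ[A] Q) = M') :
    Module.length A (P ⧸ M) = Module.length A (Q ⧸ M') :=
  (Submodule.Quotient.equiv M M' e h).length_eq

/-- The submodule of the values of the derivations. -/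
private def GXi_Xi {L : Type} [Field L] {r N n : ℕ}
    (J : Fin N × Fin n → Option (Fin r) → L⟦X⟧) :
    Submodule L⟦X⟧ (Fin N → Fin n → L⟦X⟧) where
  carrier := {v | ∃ ζ : Option (Fin r) → L⟦X⟧, X ∣ ζ none ∧
    ∀ j l, v j l = ∑ q, ζ q * J (j, l) q}
  add_mem' := by
    rintro a b ⟨ζ, hζ, h⟩ ⟨ζ', hζ', h'⟩
    refine ⟨ζ + ζ', dvd_add hζ hζ', fun j l => ?_⟩
    rw [Pi.add_apply, Pi.add_apply, h, h', ← Finset.sum_add_distrib]
    exact Finset.sum_congr rfl fun q _ => by rw [Pi.add_apply, add_mul]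
  zero_mem' := ⟨0, dvd_zero _, fun j l => by simp⟩
  smul_mem' := by
    rintro c a ⟨ζ, hζ, h⟩
    refine ⟨c • ζ, Dvd.dvd.mul_left hζ c, fun j l => ?_⟩
    rw [Pi.smul_apply, Pi.smul_apply, h, smul_eq_mul, Finset.mul_sum]
    exact Finset.sum_congr rfl fun q _ => by rw [Pi.smul_apply, smul_eq_mul, mul_assoc]

/-- G4d. Proof: this is a part of the proof of `exists_arcSystem` (Lib_GD/ArcBuild.lean, with
`exists_generic_arc_closed` instead of `exists_generic_arc` and `y j l` instead of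
`ψ j ((a.chart (k j)).y l)`): `exists_dvr_coords`, `exists_dvr_der`, the matrix
`J (j, l) q = δ_q (y j l)`, `Ξ = ArcBuild_Xi`, `colen_of_matrix` (copy the private lemmas). -/
theorem exists_Xi (V : Type) [CommRing V] [IsDomain V] [IsDiscreteValuationRing V]
    [Algebra ℂ V] [Algebra.EssFiniteType ℂ V] (n N : ℕ) (hn : 1 ≤ n) (hN : 1 ≤ N)
    (htr : Algebra.trdeg ℂ V = (n * N : ℕ)) (y : Fin N → Fin n → V)
    (hfin : Module.length V (KaehlerDifferential ℂ V ⧸ Submodule.span V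
      (Set.range fun p : Fin N × Fin n => KaehlerDifferential.D ℂ V (y p.1 p.2))) ≠ ⊤) :
    ∃ (L : Type) (_ : Field L) (_ : IsAlgClosed L) (_ : Algebra ℂ L) (Φ : V →ₐ[ℂ] L⟦X⟧)
      (Ξ : Submodule L⟦X⟧ (Fin N → Fin n → L⟦X⟧)),
      (∀ f, (Φ f).order = IsDiscreteValuationRing.addVal V f) ∧
      (∀ v, v ∈ Ξ ↔ ∃ δ : Derivation ℂ L L, ∀ j l, hat δ (Φ (y j l)) = v j l) ∧
      FinColen Ξ ∧
      colen Ξ = 1 + (Module.length V (KaehlerDifferential ℂ V ⧸ Submodule.span V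
        (Set.range fun p : Fin N × Fin n => KaehlerDifferential.D ℂ V (y p.1 p.2)))).toNat := by
  classical
  obtain ⟨r, hr⟩ : ∃ r, n * N = r + 1 :=
    ⟨n * N - 1, (Nat.sub_add_cancel (Nat.mul_pos hn hN)).symm⟩
  have htr' : Algebra.trdeg ℂ V = (r + 1 : ℕ) := by rw [htr, hr]
  obtain ⟨t, w, b, ht, hb, hb'⟩ := exists_dvr_coords V r htr'
  obtain ⟨δt, δ, h1, h2, h3, h4, h5, h6, h7⟩ := exists_dvr_der V r t w b hb hb'
  obtain ⟨L, _, hcl, _, Φ, hΦ, hreal⟩ :=
    exists_generic_arc_closed V r t w ht δt δ h1 h2 h3 h4 h5 h6 h7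
  -- the Jacobian matrix
  set J : Fin N × Fin n → Option (Fin r) → V := fun p q =>
    match q with
    | none => δt (y p.1 p.2)
    | some l => δ l (y p.1 p.2) with hJ
  have hhat : ∀ (d : Derivation ℂ L L) (j : Fin N) (l : Fin n),
      hat d (Φ (y j l)) =
        ∑ q, (match q with | none => hat d (Φ t) | some i => hat d (Φ (w i))) *
          Φ (J (j, l) q) := by
    intro d j l
    rw [GXi_hat h5 Φ d, Fintype.sum_option]
    simp only [hJ]
    congr 1
    · exact mul_comm _ _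
    · exact Finset.sum_congr rfl fun i _ => mul_comm _ _
  have hXt : ∀ d : Derivation ℂ L L, X ∣ hat d (Φ t) := by
    intro d
    have h0 : (X : L⟦X⟧) ^ 1 ∣ Φ t := by
      rw [PowerSeries.X_pow_dvd_iff]
      intro i hi
      apply PowerSeries.coeff_of_lt_order
      rw [hΦ, IsDiscreteValuationRing.addVal_uniformizer ht]
      exact_mod_cast hi
    have := X_pow_dvd_hat d h0
    rwa [pow_one] at this
  -- colengths
  set M : Submodule L⟦X⟧ (Fin N → Fin n → L⟦X⟧) :=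
    GXi_Xi (fun p q => Φ (J p q)) with hM
  let cur : (Fin N → Fin n → L⟦X⟧) ≃ₗ[L⟦X⟧]
      (Fin N × Fin n → L⟦X⟧) := (LinearEquiv.curry L⟦X⟧ L⟦X⟧ _ _).symm
  obtain ⟨a₀, ha₀⟩ := ENat.ne_top_iff_exists.1 hfin
  have hlen : Module.length V ((Option (Fin r) → V) ⧸ Submodule.span V (Set.range J))
      = a₀ := by
    rw [ha₀]
    symm
    apply GXi_length b.equivFun
    rw [Submodule.map_span, ← Set.range_comp]
    congr 1
    congr 1
    funext p
    have h8 : b.equivFun.symm (J p) = KaehlerDifferential.D ℂ V (y p.1 p.2) := by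
      rw [b.equivFun_symm_apply, Fintype.sum_option, hb, h5 (y p.1 p.2)]
      simp only [hb', hJ]
    rw [Function.comp_apply, ← h8]
    exact b.equivFun.apply_symm_apply _
  have hcard : Fintype.card (Fin N × Fin n) = r + 1 := by
    rw [Fintype.card_prod, Fintype.card_fin, Fintype.card_fin, mul_comm, hr]
  obtain ⟨hf1, hf2⟩ := colen_of_matrix (Φ : V →+* L⟦X⟧) hΦ hcard J a₀ hlen
    (M.map (cur : _ →ₗ[L⟦X⟧] _)) (by
      intro v
      constructor
      · rintro ⟨u, ⟨ζ, hζ, hu⟩, rfl⟩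
        exact ⟨ζ, hζ, fun p => hu p.1 p.2⟩
      · rintro ⟨ζ, hζ, hv⟩
        refine ⟨fun j l => v (j, l), ⟨ζ, hζ, fun j l => hv (j, l)⟩, ?_⟩
        funext p
        rfl)
  have hl : Module.length L⟦X⟧ ((Fin N → Fin n → L⟦X⟧) ⧸ M) =
      Module.length L⟦X⟧ ((Fin N × Fin n → L⟦X⟧) ⧸ M.map (cur : _ →ₗ[L⟦X⟧] _)) :=
    GXi_length cur M _ rfl
  have hMfin : FinColen M := by
    unfold FinColen
    rw [hl]
    exact hf1
  have hMcol : colen M = a₀ + 1 := by
    unfold colen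
    rw [hl]
    exact hf2
  refine ⟨L, inferInstance, hcl, inferInstance, Φ, M, hΦ, ?_, hMfin, ?_⟩
  · intro v
    constructor
    · rintro ⟨ζ, hζ, hv⟩
      obtain ⟨d, hd0, hd⟩ := hreal (ζ none) (fun l => ζ (some l)) hζ
      refine ⟨d, fun j l => ?_⟩
      rw [hhat, hv, Fintype.sum_option, Fintype.sum_option]
      simp only [hd0, hd]
    · rintro ⟨d, hd⟩
      refine ⟨fun q => match q with | none => hat d (Φ t) | some i => hat d (Φ (w i)),
        hXt d, fun j l => ?_⟩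
      rw [← hd]
      exact hhat d j l
  · rw [hMcol, ← ha₀, ENat.toNat_natCast]
    exact add_comm _ _

end Pool.Agent.Lib_KF

end

/-! ### from `Lib_KF.GRoot` -/

section

/-! G4b: roots of units of `L⟦X⟧`. -/

open PowerSeries

namespace Pool.Agent.Lib_KF

private theorem GRoot_pow {L : Type} [Field L] [CharZero L] (a : ℚ) (k : ℕ) :
    (binomialSeries L a) ^ k = binomialSeries L ((k : ℚ) * a) := by
  induction k with
  | zero => simp
  | succ k ih =>
    rw [pow_succ, ih, ← binomialSeries_add]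
    congr 1
    push_cast
    ring

/-- G4b. Proof: a `d`-th root `c` of the constant coefficient exists (`IsAlgClosed.exists_pow_nat_eq`);
then solve `v ^ d = u` coefficient by coefficient: Hensel's lemma for the `X`-adically complete ring
`L⟦X⟧` (`HenselianLocalRing` / `IsAdicComplete`), as `d c ^ (d-1) ≠ 0`; or by recursion on the
coefficients; or the binomial series. -/
theorem exists_root_series {L : Type} [Field L] [IsAlgClosed L] [CharZero L] (d : ℕ) (hd : 1 ≤ d)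
    (u : L⟦X⟧) (hu : IsUnit u) : ∃ v : L⟦X⟧, IsUnit v ∧ v ^ d = u := by
  have hc0 : constantCoeff u ≠ 0 := by
    intro h
    have := hu.map (constantCoeff (R := L))
    rw [h] at this
    exact not_isUnit_zero this
  obtain ⟨c, hc⟩ := IsAlgClosed.exists_pow_nat_eq (constantCoeff u) (by omega : 0 < d)
  set w : L⟦X⟧ := C (constantCoeff u)⁻¹ * u - 1 with hw
  have hw0 : constantCoeff w = 0 := by
    rw [hw, map_sub, map_mul, constantCoeff_C, map_one, inv_mul_cancel₀ hc0, sub_self]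
  have hs : HasSubst w := HasSubst.of_constantCoeff_zero' hw0
  have hb : (binomialSeries L ((1 : ℚ) / d)) ^ d = 1 + X := by
    rw [GRoot_pow, mul_one_div_cancel (by positivity)]
    have := binomialSeries_nat (R := ℚ) (A := L) 1
    simpa using this
  have h1 : (substAlgHom (R := L) hs (binomialSeries L ((1 : ℚ) / d))) ^ d = 1 + w := by
    rw [← map_pow, hb, map_add, map_one, substAlgHom_X]
  set b : L⟦X⟧ := substAlgHom (R := L) hs (binomialSeries L ((1 : ℚ) / d)) with hbdef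
  have h2 : b ^ d = 1 + w := h1
  have hv : (C c * b) ^ d = u := by
    rw [mul_pow, ← map_pow, hc, h2, hw, add_sub_cancel, ← mul_assoc, ← map_mul,
      mul_inv_cancel₀ hc0, map_one, one_mul]
  refine ⟨C c * b, ?_, hv⟩
  rw [← hv] at hu
  exact (isUnit_pow_iff (by omega)).1 hu

end Pool.Agent.Lib_KF

end

/-! ### from `Lib_KF.GUp` -/

section

/-! G5c: lower bound for the cost of an arc. -/

open PowerSeries

namespace Pool.Agent.Lib_KF

open Pool.Agent.Lib_GD Pool.Agent.Lib_MP_e0d435_kv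

variable {R : Type} [CommRing R] [Algebra ℂ R] {𝒜 : ℕ → Submodule ℂ R} [GradedAlgebra 𝒜]
  {n r d : ℕ} {x : Fin (n + 1) → R} {G : R}

private theorem GUp_order {L M : Type} [Field L] [Algebra ℂ L] [Field M] [Algebra ℂ M]
    (w : AddValuation M (WithTop ℤ)) (ι : L⟦X⟧ →ₐ[ℂ] M)
    (ho : ∀ (f : L⟦X⟧) (k : ℕ), f.order = k → ordZ w (ι f) = k) (f : L⟦X⟧) (k : ℕ)
    (h0 : ι f ≠ 0) (h1 : ordZ w (ι f) = k) : f.order = k := by
  have hf : f ≠ 0 := by
    rintro rfl
    exact h0 (map_zero ι)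
  have h2 : f.order ≠ ⊤ := by
    rw [Ne, PowerSeries.order_eq_top]; exact hf
  obtain ⟨m, hm⟩ := ENat.ne_top_iff_exists.1 h2
  have h3 := ho f m hm.symm
  rw [h1] at h3
  have h4 : k = m := by exact_mod_cast h3
  rw [h4, hm]

/-- G5c. Proof: `C₁ = ⌈1 + 2 C⌉₊ + 1`, say. `exists_rows` gives `A` with rows in `Ξ`, order of the
determinant `c = colen Ξ`; the rows are `A i l = hat (δ i) (xj (x (a.succAbove l)))`.
`exists_laurent` gives `Λ`, `ι`; `φ = ι ∘ xj`, `φ (x a) = 1`; the Jacobian of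
`l ↦ φ (x (a.succAbove l)) / φ (x a)` is `ι (det A)`, of order `c`, not zero; `hmin` holds because
`ordZ (ι f) ≥ 0`. `arc_divisor_affine`: `d w₁ = 0`, so `w₁ = 0`. First case: `ordZ φ(G) = 0` and
`ordZ φ(q) = 0`: `g = e = 0` and the claim is `c ≤ C₁ r c`. Second case: `E`, `e₀`:
`g = e₀ ord_E G`, `e = e₀ ord_E q`, `e₀ (1 + len) ≤ c`. With `A_E = logDisc E r x G > 0`,
`1 + len = A_E + ord_E G / r`: `g = e₀ r (1 + len - A_E) ≤ r c`, and
`c + e = (c - e₀ (1 + len)) + e₀ (1 + len + ord_E q) ≤ (c - e₀ (1 + len)) + e₀ (1 + C / r + C) A_E`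
while `r c - g = r (c - e₀ (1 + len)) + r e₀ A_E`. -/
theorem up_arc (h : IsFano 𝒜 n r d x G) (hn : 1 ≤ n) (q : R) (k : ℕ) (hq : q ∈ 𝒜 k) (hq0 : q ≠ 0)
    (C : ℝ) (hC0 : 0 ≤ C) (hpos : ∀ E : DivisorOver 𝒜 n 1, 0 < logDisc E r x G)
    (hCG : ∀ E : DivisorOver 𝒜 n 1, ((E.ord (E.φ 0 G)).toNat : ℝ) ≤ C * logDisc E r x G)
    (hCq : ∀ E : DivisorOver 𝒜 n 1, ((E.ord (E.φ 0 q)).toNat : ℝ) ≤ C * logDisc E r x G) :
    ∃ C₁ : ℕ, 1 ≤ C₁ ∧ ∀ (L : Type) [Field L] [Algebra ℂ L] (a : Fin (n + 1))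
      (xj : R →ₐ[ℂ] L⟦X⟧), xj (x a) = 1 →
      ∀ Ξ : Submodule L⟦X⟧ (Fin n → L⟦X⟧), FinColen Ξ →
      (∀ v ∈ Ξ, ∃ δ : Derivation ℂ L L, ∀ l, v l = hat δ (xj (x (a.succAbove l)))) →
      ∃ g e : ℕ, (xj G).order = g ∧ (xj q).order = e ∧ g ≤ r * colen Ξ ∧
        colen Ξ + e ≤ C₁ * (r * colen Ξ - g) := by
  have hr1 : (1 : ℝ) ≤ r := by exact_mod_cast h.r_pos
  have hd1 := h.d_pos
  refine ⟨⌈1 + 2 * C⌉₊ + 1, Nat.le_add_left 1 _, ?_⟩
  intro L _ _ a xj hxa Ξ hΞ hform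
  have hC1 : 1 + 2 * C ≤ ((⌈1 + 2 * C⌉₊ + 1 : ℕ) : ℝ) := by
    push_cast
    linarith [Nat.le_ceil (1 + 2 * C)]
  obtain ⟨A, hA, hdet, hord⟩ := exists_rows Ξ hΞ
  choose δ hδ using fun i => hform (A i) (hA i)
  obtain ⟨Λ, ι, hι, hιo, hιd⟩ := exists_laurent L n δ
  have hφa : (ι.comp xj) (x a) = 1 := by
    rw [AlgHom.comp_apply, hxa, map_one]
  have hjac : Λ.jac (fun l => (ι.comp xj) (x (a.succAbove l)) / (ι.comp xj) (x a)) =
      ι (Matrix.det A) := by
    have h1 := AlgHom.map_det ι A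
    rw [h1, LDF.jac]
    congr 1
    ext i l
    rw [Matrix.of_apply, hφa, div_one, AlgHom.comp_apply, hιd, AlgHom.mapMatrix_apply,
      Matrix.map_apply, hδ i l]
  have hι0 : ∀ f : L⟦X⟧, f ≠ 0 → ι f ≠ 0 := fun f hf h1 => hf (hι (by rw [h1, map_zero]))
  have hJ : Λ.jac (fun l => (ι.comp xj) (x (a.succAbove l)) / (ι.comp xj) (x a)) ≠ 0 := by
    rw [hjac]; exact hι0 _ hdet
  have hJo : ordZ Λ.w (Λ.jac (fun l => (ι.comp xj) (x (a.succAbove l)) / (ι.comp xj) (x a))) =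
      (colen Ξ : ℤ) := by
    rw [hjac]; exact hιo _ _ hord
  have hmin : ∀ b, (ι.comp xj) (x b) ≠ 0 →
      ordZ Λ.w ((ι.comp xj) (x a)) ≤ ordZ Λ.w ((ι.comp xj) (x b)) := by
    intro b hb
    rw [hφa, ordZ_one, AlgHom.comp_apply]
    rw [AlgHom.comp_apply] at hb
    have hf : xj (x b) ≠ 0 := by
      intro h1
      rw [h1, map_zero] at hb
      exact hb rfl
    have h2 : (xj (x b)).order ≠ ⊤ := by
      rw [Ne, PowerSeries.order_eq_top]; exact hf
    obtain ⟨m, hm⟩ := ENat.ne_top_iff_exists.1 h2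
    rw [hιo _ m hm.symm]
    exact Int.natCast_nonneg m
  obtain ⟨w₁, hw₁, hcase⟩ := arc_divisor_affine h hn Λ (ι.comp xj) a
    (by rw [hφa]; exact one_ne_zero) hmin hJ
  have hw0 : w₁ = 0 := by
    rw [hφa, ordZ_one] at hw₁
    have h1 : (d : ℤ) ≠ 0 := by exact_mod_cast (by omega : d ≠ 0)
    rcases mul_eq_zero.1 hw₁.symm with h2 | h2
    · exact absurd h2 h1
    · exact h2
  rw [hJo] at hcase
  rw [hw0] at hcase
  rcases hcase with ⟨h1, -⟩ | ⟨E, e₀, he₀, h1, h2⟩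
  · obtain ⟨hG0, hG1⟩ := h1 _ G h.G_mem h.G_ne
    obtain ⟨hq0', hq1⟩ := h1 _ q hq hq0
    refine ⟨0, 0, GUp_order Λ.w ι hιo _ 0 hG0 ?_, GUp_order Λ.w ι hιo _ 0 hq0' ?_,
      Nat.zero_le _, ?_⟩
    · rw [AlgHom.comp_apply] at hG1
      rw [hG1]; simp
    · rw [AlgHom.comp_apply] at hq1
      rw [hq1]; simp
    · rw [Nat.sub_zero, Nat.add_zero]
      have h3 : 1 ≤ r := h.r_pos
      calc colen Ξ = 1 * (1 * colen Ξ) := by ring
        _ ≤ (⌈1 + 2 * C⌉₊ + 1) * (r * colen Ξ) :=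
          Nat.mul_le_mul (Nat.le_add_left 1 _) (Nat.mul_le_mul h3 le_rfl)
  · obtain ⟨hG0, hG1⟩ := h1 _ G h.G_mem h.G_ne
    obtain ⟨hq0', hq1⟩ := h1 _ q hq hq0
    have hE := hpos E
    have hEG := hCG E
    have hEq := hCq E
    have hlog : logDisc E r x G = 1 + ((Module.length E.V
        (KaehlerDifferential ℂ E.V ⧸ coordSpan E x)).toNat : ℝ) -
        (1 / r : ℝ) * ((E.ord (E.φ 0 G)).toNat : ℝ) := by
      unfold logDisc
      rw [Fin.sum_univ_one]
    set γ : ℕ := (E.ord (E.φ 0 G)).toNat with hγ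
    set ρ : ℕ := (E.ord (E.φ 0 q)).toNat with hρ
    set len : ℕ := (Module.length E.V
        (KaehlerDifferential ℂ E.V ⧸ coordSpan E x)).toNat with hlen
    set AE : ℝ := logDisc E r x G with hAE
    have h2' : (e₀ : ℝ) * (1 + len) ≤ colen Ξ := by exact_mod_cast h2
    have he₀' : (1 : ℝ) ≤ e₀ := by exact_mod_cast he₀
    have hγr : (γ : ℝ) = r * (1 + len) - r * AE := by
      rw [hlog]
      field_simp
      ring
    have hgr : (e₀ : ℝ) * γ = r * (e₀ * (1 + len)) - r * (e₀ * AE) := by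
      rw [hγr]; ring
    have hrA : 0 ≤ (r : ℝ) * (e₀ * AE) := by positivity
    have hle1 : (e₀ : ℝ) * γ ≤ r * colen Ξ := by
      rw [hgr]
      nlinarith
    have hle1' : e₀ * γ ≤ r * colen Ξ := by exact_mod_cast hle1
    refine ⟨e₀ * γ, e₀ * ρ, GUp_order Λ.w ι hιo _ _ hG0 ?_, GUp_order Λ.w ι hιo _ _ hq0' ?_,
      hle1', ?_⟩
    · rw [AlgHom.comp_apply] at hG1
      rw [hG1]; push_cast; ring
    · rw [AlgHom.comp_apply] at hq1
      rw [hq1]; push_cast; ring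
    · have key : (colen Ξ : ℝ) + e₀ * ρ ≤
          ((⌈1 + 2 * C⌉₊ + 1 : ℕ) : ℝ) * (r * colen Ξ - e₀ * γ) := by
        set K : ℝ := ((⌈1 + 2 * C⌉₊ + 1 : ℕ) : ℝ) with hK
        have hK1 : 1 ≤ K := by linarith
        have hlen1 : (1 : ℝ) + len ≤ (1 + C) * AE := by
          have e1 : (1 : ℝ) + len = AE + (1 / r) * γ := by rw [hlog]; ring
          have e2 : (1 / r : ℝ) * γ ≤ 1 * γ := by
            apply mul_le_mul_of_nonneg_right _ (Nat.cast_nonneg γ)
            rw [div_le_one (by linarith)]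
            exact hr1
          rw [e1]
          linarith
        have hlen2 : (1 : ℝ) + len + ρ ≤ K * AE := by
          have e1 : (1 + 2 * C) * AE ≤ K * AE := mul_le_mul_of_nonneg_right hC1 hE.le
          linarith
        have hlen3 : (e₀ : ℝ) * (1 + len + ρ) ≤ K * (r * (e₀ * AE)) := by
          have e1 : (e₀ : ℝ) * (1 + len + ρ) ≤ e₀ * (K * AE) :=
            mul_le_mul_of_nonneg_left hlen2 (by linarith)
          have e2 : (0 : ℝ) ≤ K * (e₀ * AE) := by positivity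
          nlinarith
        have hrest : (colen Ξ : ℝ) - e₀ * (1 + len) ≤
            K * (r * (colen Ξ - e₀ * (1 + len))) := by
          have e0 : (0 : ℝ) ≤ colen Ξ - e₀ * (1 + len) := by linarith
          have e1 : (colen Ξ : ℝ) - e₀ * (1 + len) ≤ r * (colen Ξ - e₀ * (1 + len)) := by
            nlinarith
          have e2 : (r : ℝ) * (colen Ξ - e₀ * (1 + len)) ≤
              K * (r * (colen Ξ - e₀ * (1 + len))) := by
            have e3 : (0 : ℝ) ≤ r * (colen Ξ - e₀ * (1 + len)) := by linarith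
            nlinarith
          linarith
        rw [hgr]
        calc (colen Ξ : ℝ) + e₀ * ρ = (colen Ξ - e₀ * (1 + len)) + e₀ * (1 + len + ρ) := by ring
          _ ≤ K * (r * (colen Ξ - e₀ * (1 + len))) + K * (r * (e₀ * AE)) :=
            add_le_add hrest hlen3
          _ = K * (r * colen Ξ - (r * (e₀ * (1 + len)) - r * (e₀ * AE))) := by ring
      have h5 : (((colen Ξ + e₀ * ρ : ℕ)) : ℝ) ≤
          (((⌈1 + 2 * C⌉₊ + 1) * (r * colen Ξ - e₀ * γ) : ℕ) : ℝ) := by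
        rw [Nat.cast_mul, Nat.cast_sub hle1']
        push_cast at key ⊢
        linarith
      exact_mod_cast h5

end Pool.Agent.Lib_KF

end
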