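import Mathlib
import Pool.Agent.Lib_GD.Defs
import Pool.Agent.Lib_KF.Defs
import Pool.Agent.Lib_MP_e0d435_m.G03
import Pool.Agent.Lib_MP_e0d435_m.G07
import Pool.Agent.Lib_MP_e0d435_m.G12
import Pool.Agent.Lib_MP_e0d435_m.G14
import Pool.Agent.Lib_MP_e0d435_m.G15
import Pool.Agent.Lib_MP_e0d435_m.G16
import Pool.Agent.Lib_MP_e0d435_m.G18
import Pool.Agent.Lib_MP_e0d435_m.G19
import Pool.Agent.Lib_MP_e0d435_m.G20

/-!
# MP_e0d435_ag: merged library part G24

Concatenation of library files (each in its own section), only to save build time.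
-/

/-! ### from `Lib_GD.ProdGen` -/

section

/-! P06: the functions of the product generate the fraction field of the product valuation
ring. -/

namespace Pool.Agent.Lib_GD

variable {R : Type} [CommRing R] [Algebra ℂ R] {𝒜 : ℕ → Submodule ℂ R} {n : ℕ}

/-- P06: transport of `generates`. -/
theorem product_generates (E : DivisorOver 𝒜 n 1) {V' : Type} [CommRing V'] [IsDomain V']
    [Algebra ℂ V'] {N : ℕ} (ψ : Fin N → (E.V →ₐ[ℂ] V')) (hi : ∀ j, Function.Injective (ψ j))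
    (hfr : ∀ f : V', ∃ b ∈ Algebra.adjoin ℂ (⋃ j, Set.range (ψ j)),
        ∃ b' ∈ Algebra.adjoin ℂ (⋃ j, Set.range (ψ j)), b' ≠ 0 ∧ f * b' = b) :
    IntermediateField.adjoin ℂ {z : FractionRing V' | ∃ j m, ∃ s ∈ 𝒜 m, ∃ s' ∈ 𝒜 m,
      (ψ j).comp (E.φ 0) s' ≠ 0 ∧
        z = algebraMap V' (FractionRing V') ((ψ j).comp (E.φ 0) s) /
          algebraMap V' (FractionRing V') ((ψ j).comp (E.φ 0) s')} = ⊤ := by
  set S : Set (FractionRing V') := {z : FractionRing V' | ∃ j m, ∃ s ∈ 𝒜 m, ∃ s' ∈ 𝒜 m,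
      (ψ j).comp (E.φ 0) s' ≠ 0 ∧
        z = algebraMap V' (FractionRing V') ((ψ j).comp (E.φ 0) s) /
          algebraMap V' (FractionRing V') ((ψ j).comp (E.φ 0) s')} with hS
  -- the image of each factor
  have key : ∀ j (v : E.V), algebraMap V' (FractionRing V') (ψ j v) ∈
      IntermediateField.adjoin ℂ S := by
    intro j v
    let g : E.V →ₐ[ℂ] FractionRing V' := (IsScalarTower.toAlgHom ℂ V' (FractionRing V')).comp (ψ j)
    have hg : Function.Injective g := (IsFractionRing.injective V' (FractionRing V')).comp (hi j)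
    let F : FractionRing E.V →ₐ[ℂ] FractionRing V' := IsFractionRing.liftAlgHom hg
    have hF : ∀ v : E.V, F (algebraMap E.V (FractionRing E.V) v) =
        algebraMap V' (FractionRing V') (ψ j v) := fun v =>
      IsFractionRing.lift_algebraMap (K := FractionRing E.V) (g := g.toRingHom) hg v
    have hle : (⊤ : IntermediateField ℂ (FractionRing E.V)).map F ≤
        IntermediateField.adjoin ℂ S := by
      rw [← E.generates, IntermediateField.adjoin_map]
      refine IntermediateField.adjoin.mono _ _ _ ?_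
      rintro _ ⟨z, ⟨i, m, s, hs, s', hs', hne, rfl⟩, rfl⟩
      obtain rfl : i = 0 := Subsingleton.elim _ _
      refine ⟨j, m, s, hs, s', hs', ?_, ?_⟩
      · rw [AlgHom.comp_apply]
        exact (map_ne_zero_iff _ (hi j)).2 hne
      · rw [map_div₀, hF, hF]
        rfl
    rw [← hF]
    exact hle ⟨_, IntermediateField.mem_top, rfl⟩
  -- the algebra generated by the factors
  have key2 : ∀ b ∈ Algebra.adjoin ℂ (⋃ j, Set.range (ψ j)),
      algebraMap V' (FractionRing V') b ∈ IntermediateField.adjoin ℂ S := by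
    intro b hb
    have : Algebra.adjoin ℂ (⋃ j, Set.range (ψ j)) ≤
        (IntermediateField.adjoin ℂ S).toSubalgebra.comap
          (IsScalarTower.toAlgHom ℂ V' (FractionRing V')) := by
      refine Algebra.adjoin_le ?_
      rintro x hx
      obtain ⟨j, v, rfl⟩ := Set.mem_iUnion.1 hx
      exact key j v
    exact this hb
  have key3 : ∀ f : V', algebraMap V' (FractionRing V') f ∈ IntermediateField.adjoin ℂ S := by
    intro f
    obtain ⟨b, hb, b', hb', hne, h⟩ := hfr f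
    have h1 : algebraMap V' (FractionRing V') f =
        algebraMap V' (FractionRing V') b / algebraMap V' (FractionRing V') b' := by
      rw [eq_div_iff ((map_ne_zero_iff _ (IsFractionRing.injective V' (FractionRing V'))).2 hne),
        ← map_mul, h]
    rw [h1]
    exact div_mem (key2 b hb) (key2 b' hb')
  rw [eq_top_iff]
  intro z _
  obtain ⟨a, c, hc, rfl⟩ := IsFractionRing.div_surjective (A := V') z
  exact div_mem (key3 a) (key3 c)

end Pool.Agent.Lib_GD

end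

/-! ### from `Lib_GD.ProdDiv` -/

section

/-! P07: the product divisor. -/

open PowerSeries

namespace Pool.Agent.Lib_GD

variable {R : Type} [CommRing R] [Algebra ℂ R] {𝒜 : ℕ → Submodule ℂ R} {n : ℕ}

private theorem ProdDiv_addVal_prod {V : Type} [CommRing V] [IsDomain V]
    [IsDiscreteValuationRing V] {ι : Type} (s : Finset ι) (f : ι → V) :
    IsDiscreteValuationRing.addVal V (∏ i ∈ s, f i) =
      ∑ i ∈ s, IsDiscreteValuationRing.addVal V (f i) := by
  classical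
  induction s using Finset.induction_on with
  | empty => simp
  | insert a s ha ih =>
    rw [Finset.prod_insert ha, Finset.sum_insert ha, IsDiscreteValuationRing.addVal_mul, ih]

private theorem ProdDiv_addVal_units {V : Type} [CommRing V] [IsDomain V]
    [IsDiscreteValuationRing V] (e : ℤˣ) (x : V) :
    IsDiscreteValuationRing.addVal V (e • x) = IsDiscreteValuationRing.addVal V x := by
  rcases Int.units_eq_one_or e with rfl | rfl
  · rw [one_smul]
  · rw [Units.neg_smul, one_smul]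
    exact AddValuation.map_neg _ x

private theorem ProdDiv_addVal_det {V : Type} [CommRing V] [IsDomain V]
    [IsDiscreteValuationRing V] {N : ℕ} (M : Matrix (Fin N) (Fin N) V) (c : Fin N → ℕ∞)
    (h : ∀ j i, IsDiscreteValuationRing.addVal V (M j i) = c i) :
    ∑ i, c i ≤ IsDiscreteValuationRing.addVal V M.det := by
  rw [Matrix.det_apply]
  refine AddValuation.map_le_sum _ fun σ _ => ?_
  rw [ProdDiv_addVal_units, ProdDiv_addVal_prod]
  exact (Finset.sum_congr rfl fun i _ => (h (σ i) i)).ge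

/-- P07: for a prime divisor `E` over `X` there is a prime divisor `E'` over `X ^ N` with
`A(E') ≤ N A(E)` along which `det (b_i (x_j))` vanishes to order at least `∑ ord_E (b_i)`. -/
theorem exists_product_divisor (hn : 1 ≤ n) (E : DivisorOver 𝒜 n 1) (N : ℕ) (hN : 1 ≤ N) :
    ∃ E' : DivisorOver 𝒜 n N, E'.logDisc ≤ N * E.logDisc ∧
      ∀ b : Fin N → R, ∑ i, E.ord (E.φ 0 (b i)) ≤
        E'.ord (Matrix.det (Matrix.of fun j i : Fin N => E'.φ j (b i))) := by
  obtain ⟨r, rfl⟩ : ∃ r, n = r + 1 := ⟨n - 1, by omega⟩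
  have hr : Algebra.trdeg ℂ E.V = (r + 1 : ℕ) := by
    rw [E.trdeg, mul_one]
  obtain ⟨t, w, b, ht, hb, hb'⟩ := exists_dvr_coords E.V r hr
  have hw := residue_algInd E.V r t w ht b hb hb'
  let j₀ : Fin N := ⟨0, hN⟩
  obtain ⟨L, _, _, Φ, hΦ, h1, hind⟩ := exists_product_arcs E.V r t w ht b hb hb' N j₀
  obtain ⟨V', _, _, _, _, Ψ, ψ, hΨi, hΨψ, hΨ, hfr⟩ := exists_product_ring j₀ Φ hΦ
  have hψ : ∀ j f, (Ψ (ψ j f)).order = IsDiscreteValuationRing.addVal E.V f := fun j f => by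
    rw [hΨψ, hΦ]
  have hψ' : ∀ j f, IsDiscreteValuationRing.addVal V' (ψ j f) =
      IsDiscreteValuationRing.addVal E.V f := fun j f => by
    rw [← hψ j f, hΨ]
  have hi : ∀ j, Function.Injective (ψ j) := by
    intro j
    rw [injective_iff_map_eq_zero]
    intro f hf
    have h2 := hψ' j f
    rw [hf] at h2
    have h3 : IsDiscreteValuationRing.addVal E.V f = ⊤ := by
      rw [← h2]
      exact AddValuation.map_zero _
    exact IsDiscreteValuationRing.addVal_eq_top_iff.1 h3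
  have h1' : coeff 1 (Ψ (ψ j₀ t)) = 1 := by rw [hΨψ, h1]
  have hind' : AlgebraicIndependent ℂ (Sum.elim
      (fun j : {j : Fin N // j ≠ j₀} => coeff 1 (Ψ (ψ j t)))
      (fun p : Fin N × Fin r => constantCoeff (Ψ (ψ p.1 (w p.2))))) := by
    simp only [hΨψ]
    exact hind
  obtain ⟨hirr, u, hu, hu', hres⟩ := product_residues j₀ ψ Ψ t w ht hψ hΨ h1' hind'
  obtain ⟨htr, hess⟩ := product_trdeg j₀ ψ hr t w ht hw hi u hu hu' hirr hres hfr
  have huu : ∀ j, IsUnit (u j) := by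
    intro j
    by_cases hj : j = j₀
    · rw [hj, hu]
      exact isUnit_one
    · have h2 := hres.ne_zero (Sum.inl ⟨j, hj⟩)
      simp only [Sum.elim_inl] at h2
      exact (IsLocalRing.residue_ne_zero_iff_isUnit _).1 h2
  -- the differentials
  have hV : Submodule.span E.V (insert (KaehlerDifferential.D ℂ E.V t)
      (Set.range fun i => KaehlerDifferential.D ℂ E.V (w i))) = ⊤ := by
    rw [eq_top_iff, ← b.span_eq, Submodule.span_le]
    rintro _ ⟨o, rfl⟩
    cases o with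
    | none =>
      rw [hb]
      exact Submodule.subset_span (Set.mem_insert _ _)
    | some l =>
      rw [hb']
      exact Submodule.subset_span (Set.mem_insert_of_mem _ ⟨l, rfl⟩)
  have hV' : Submodule.span V' (insert (KaehlerDifferential.D ℂ V' (ψ j₀ t))
      (Set.range (fun j => KaehlerDifferential.D ℂ V' (u j)) ∪
        Set.range (fun p : Fin N × Fin r =>
          KaehlerDifferential.D ℂ V' (ψ p.1 (w p.2))))) = ⊤ := by
    have hcard : Fintype.card ({j : Fin N // j ≠ j₀} ⊕ (Fin N × Fin r)) + 1 = (r + 1) * N := by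
      rw [Fintype.card_sum, Fintype.card_prod, Fintype.card_fin, Fintype.card_fin,
        Fintype.card_subtype_compl, Fintype.card_fin, Fintype.card_subtype_eq]
      obtain ⟨k, rfl⟩ : ∃ k, N = k + 1 := ⟨N - 1, by omega⟩
      have : k + 1 - 1 = k := by omega
      rw [this]
      ring
    have h2 := span_D_eq_top V' (ι := {j : Fin N // j ≠ j₀} ⊕ (Fin N × Fin r))
      (by rw [htr, ← hcard]) (ψ j₀ t) hirr
      (Sum.elim (fun j => u j) (fun p => ψ p.1 (w p.2)))
      (by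
        convert hres using 1
        funext i
        rcases i with i | i <;> rfl)
    rw [eq_top_iff, ← h2]
    refine Submodule.span_mono ?_
    rintro x (rfl | ⟨i, rfl⟩)
    · exact Set.mem_insert _ _
    · refine Set.mem_insert_of_mem _ ?_
      rcases i with i | i
      · exact Or.inl ⟨i, rfl⟩
      · exact Or.inr ⟨i, rfl⟩
  -- the divisor
  let E' : DivisorOver 𝒜 (r + 1) N :=
    { V := V'
      φ := fun j => (ψ j).comp (E.φ 0)
      centre := fun j => by
        obtain ⟨d, hd, f, hf, hfu⟩ := E.centre 0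
        exact ⟨d, hd, f, hf, hfu.map (ψ j)⟩
      generates := product_generates E ψ hi hfr
      trdeg := htr }
  let F : Set E.V := {f | ∃ m, ∃ s ∈ 𝒜 m, ∃ s' ∈ 𝒜 m, ∃ w : E.V, E.φ 0 s' * w = 1 ∧
    f = E.φ 0 s * w}
  have hF : Submodule.span E.V (KaehlerDifferential.D ℂ E.V '' F) = E.pulledBack := by
    unfold DivisorOver.pulledBack
    congr 1
    ext ω
    constructor
    · rintro ⟨f, ⟨m, s, hs, s', hs', w, hw, rfl⟩, rfl⟩
      exact ⟨0, m, s, hs, s', hs', w, hw, rfl⟩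
    · rintro ⟨j, m, s, hs, s', hs', w, hw, rfl⟩
      have hj : j = 0 := Subsingleton.elim _ _
      rw [hj] at hw ⊢
      exact ⟨_, ⟨m, s, hs, s', hs', w, hw, rfl⟩, rfl⟩
  refine ⟨E', ?_, ?_⟩
  · have h2 := length_product_le j₀ ψ t w ht hirr hV u hu hu' huu hV' F E'.pulledBack (by
      rintro j f ⟨m, s, hs, s', hs', w, hw, rfl⟩
      refine Submodule.subset_span ⟨j, m, s, hs, s', hs', ψ j w, ?_, ?_⟩
      · show ψ j (E.φ 0 s') * ψ j w = 1
        rw [← map_mul, hw, map_one]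
      · show _ = KaehlerDifferential.D ℂ V' (ψ j (E.φ 0 s) * ψ j w)
        rw [← map_mul])
    rw [hF] at h2
    exact h2
  · intro c
    exact ProdDiv_addVal_det _ _ fun j i => hψ' j (E.φ 0 (c i))

end Pool.Agent.Lib_GD

end

/-! ### from `Lib_KF.FProd` -/

section

/-! F3: the product divisor. -/

open PowerSeries

namespace Pool.Agent.Lib_KF

open Pool.Agent.Lib_GD

variable {R : Type} [CommRing R] [Algebra ℂ R] {𝒜 : ℕ → Submodule ℂ R} {n N : ℕ}

private theorem FProd_addVal_prod {V : Type} [CommRing V] [IsDomain V]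
    [IsDiscreteValuationRing V] {ι : Type} (s : Finset ι) (f : ι → V) :
    IsDiscreteValuationRing.addVal V (∏ i ∈ s, f i) =
      ∑ i ∈ s, IsDiscreteValuationRing.addVal V (f i) := by
  classical
  induction s using Finset.induction_on with
  | empty => simp
  | insert a s ha ih =>
    rw [Finset.prod_insert ha, Finset.sum_insert ha, IsDiscreteValuationRing.addVal_mul, ih]

private theorem FProd_addVal_units {V : Type} [CommRing V] [IsDomain V]
    [IsDiscreteValuationRing V] (e : ℤˣ) (x : V) :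
    IsDiscreteValuationRing.addVal V (e • x) = IsDiscreteValuationRing.addVal V x := by
  rcases Int.units_eq_one_or e with rfl | rfl
  · rw [one_smul]
  · rw [Units.neg_smul, one_smul]
    exact AddValuation.map_neg _ x

private theorem FProd_addVal_det {V : Type} [CommRing V] [IsDomain V]
    [IsDiscreteValuationRing V] {N : ℕ} (M : Matrix (Fin N) (Fin N) V) (c : Fin N → ℕ∞)
    (h : ∀ j i, IsDiscreteValuationRing.addVal V (M j i) = c i) :
    ∑ i, c i ≤ IsDiscreteValuationRing.addVal V M.det := by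
  rw [Matrix.det_apply]
  refine AddValuation.map_le_sum _ fun σ _ => ?_
  rw [FProd_addVal_units, FProd_addVal_prod]
  exact (Finset.sum_congr rfl fun i _ => (h (σ i) i)).ge

/-- F3. As `Lib_GD.exists_product_divisor` (file Lib_GD/ProdDiv.lean; copy its proof and its
private lemmas): the set `F` is now
`{f | ∃ b b', ∃ w : E.V, E.φ 0 (x b') * w = 1 ∧ f = E.φ 0 (x b) * w}` and `P' = coordSpan E' x`. -/
theorem exists_product_divisorF (hn : 1 ≤ n) (x : Fin (n + 1) → R) (E : DivisorOver 𝒜 n 1)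
    (N : ℕ) (hN : 1 ≤ N) :
    ∃ E' : DivisorOver 𝒜 n N,
      1 + Module.length E'.V (KaehlerDifferential ℂ E'.V ⧸ coordSpan E' x) ≤
        N * (1 + Module.length E.V (KaehlerDifferential ℂ E.V ⧸ coordSpan E x)) ∧
      (∀ j f, E'.ord (E'.φ j f) = E.ord (E.φ 0 f)) ∧
      ∀ b : Fin N → R, ∑ i, E.ord (E.φ 0 (b i)) ≤
        E'.ord (Matrix.det (Matrix.of fun j i : Fin N => E'.φ j (b i))) := by
  obtain ⟨r, rfl⟩ : ∃ r, n = r + 1 := ⟨n - 1, by omega⟩
  have hr : Algebra.trdeg ℂ E.V = (r + 1 : ℕ) := by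
    rw [E.trdeg, mul_one]
  obtain ⟨t, w, b, ht, hb, hb'⟩ := exists_dvr_coords E.V r hr
  have hw := residue_algInd E.V r t w ht b hb hb'
  let j₀ : Fin N := ⟨0, hN⟩
  obtain ⟨L, _, _, Φ, hΦ, h1, hind⟩ := exists_product_arcs E.V r t w ht b hb hb' N j₀
  obtain ⟨V', _, _, _, _, Ψ, ψ, hΨi, hΨψ, hΨ, hfr⟩ := exists_product_ring j₀ Φ hΦ
  have hψ : ∀ j f, (Ψ (ψ j f)).order = IsDiscreteValuationRing.addVal E.V f := fun j f => by
    rw [hΨψ, hΦ]
  have hψ' : ∀ j f, IsDiscreteValuationRing.addVal V' (ψ j f) =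
      IsDiscreteValuationRing.addVal E.V f := fun j f => by
    rw [← hψ j f, hΨ]
  have hi : ∀ j, Function.Injective (ψ j) := by
    intro j
    rw [injective_iff_map_eq_zero]
    intro f hf
    have h2 := hψ' j f
    rw [hf] at h2
    have h3 : IsDiscreteValuationRing.addVal E.V f = ⊤ := by
      rw [← h2]
      exact AddValuation.map_zero _
    exact IsDiscreteValuationRing.addVal_eq_top_iff.1 h3
  have h1' : coeff 1 (Ψ (ψ j₀ t)) = 1 := by rw [hΨψ, h1]
  have hind' : AlgebraicIndependent ℂ (Sum.elim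
      (fun j : {j : Fin N // j ≠ j₀} => coeff 1 (Ψ (ψ j t)))
      (fun p : Fin N × Fin r => constantCoeff (Ψ (ψ p.1 (w p.2))))) := by
    simp only [hΨψ]
    exact hind
  obtain ⟨hirr, u, hu, hu', hres⟩ := product_residues j₀ ψ Ψ t w ht hψ hΨ h1' hind'
  obtain ⟨htr, hess⟩ := product_trdeg j₀ ψ hr t w ht hw hi u hu hu' hirr hres hfr
  have huu : ∀ j, IsUnit (u j) := by
    intro j
    by_cases hj : j = j₀
    · rw [hj, hu]
      exact isUnit_one
    · have h2 := hres.ne_zero (Sum.inl ⟨j, hj⟩)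
      simp only [Sum.elim_inl] at h2
      exact (IsLocalRing.residue_ne_zero_iff_isUnit _).1 h2
  -- the differentials
  have hV : Submodule.span E.V (insert (KaehlerDifferential.D ℂ E.V t)
      (Set.range fun i => KaehlerDifferential.D ℂ E.V (w i))) = ⊤ := by
    rw [eq_top_iff, ← b.span_eq, Submodule.span_le]
    rintro _ ⟨o, rfl⟩
    cases o with
    | none =>
      rw [hb]
      exact Submodule.subset_span (Set.mem_insert _ _)
    | some l =>
      rw [hb']
      exact Submodule.subset_span (Set.mem_insert_of_mem _ ⟨l, rfl⟩)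
  have hV' : Submodule.span V' (insert (KaehlerDifferential.D ℂ V' (ψ j₀ t))
      (Set.range (fun j => KaehlerDifferential.D ℂ V' (u j)) ∪
        Set.range (fun p : Fin N × Fin r =>
          KaehlerDifferential.D ℂ V' (ψ p.1 (w p.2))))) = ⊤ := by
    have hcard : Fintype.card ({j : Fin N // j ≠ j₀} ⊕ (Fin N × Fin r)) + 1 = (r + 1) * N := by
      rw [Fintype.card_sum, Fintype.card_prod, Fintype.card_fin, Fintype.card_fin,
        Fintype.card_subtype_compl, Fintype.card_fin, Fintype.card_subtype_eq]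
      obtain ⟨k, rfl⟩ : ∃ k, N = k + 1 := ⟨N - 1, by omega⟩
      have : k + 1 - 1 = k := by omega
      rw [this]
      ring
    have h2 := span_D_eq_top V' (ι := {j : Fin N // j ≠ j₀} ⊕ (Fin N × Fin r))
      (by rw [htr, ← hcard]) (ψ j₀ t) hirr
      (Sum.elim (fun j => u j) (fun p => ψ p.1 (w p.2)))
      (by
        convert hres using 1
        funext i
        rcases i with i | i <;> rfl)
    rw [eq_top_iff, ← h2]
    refine Submodule.span_mono ?_
    rintro x (rfl | ⟨i, rfl⟩)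
    · exact Set.mem_insert _ _
    · refine Set.mem_insert_of_mem _ ?_
      rcases i with i | i
      · exact Or.inl ⟨i, rfl⟩
      · exact Or.inr ⟨i, rfl⟩
  -- the divisor
  let E' : DivisorOver 𝒜 (r + 1) N :=
    { V := V'
      φ := fun j => (ψ j).comp (E.φ 0)
      centre := fun j => by
        obtain ⟨d, hd, f, hf, hfu⟩ := E.centre 0
        exact ⟨d, hd, f, hf, hfu.map (ψ j)⟩
      generates := product_generates E ψ hi hfr
      trdeg := htr }
  let F : Set E.V := {f | ∃ b b', ∃ w : E.V, E.φ 0 (x b') * w = 1 ∧ f = E.φ 0 (x b) * w}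
  have hF : Submodule.span E.V (KaehlerDifferential.D ℂ E.V '' F) = coordSpan E x := by
    unfold coordSpan
    congr 1
    ext ω
    constructor
    · rintro ⟨f, ⟨b, b', w, hw, rfl⟩, rfl⟩
      exact ⟨0, b, b', w, hw, rfl⟩
    · rintro ⟨j, b, b', w, hw, rfl⟩
      have hj : j = 0 := Subsingleton.elim _ _
      rw [hj] at hw ⊢
      exact ⟨_, ⟨b, b', w, hw, rfl⟩, rfl⟩
  refine ⟨E', ?_, fun j f => hψ' j (E.φ 0 f), ?_⟩
  · have h2 := length_product_le j₀ ψ t w ht hirr hV u hu hu' huu hV' F (coordSpan E' x) (by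
      rintro j f ⟨b, b', w, hw, rfl⟩
      refine Submodule.subset_span ⟨j, b, b', ψ j w, ?_, ?_⟩
      · show ψ j (E.φ 0 (x b')) * ψ j w = 1
        rw [← map_mul, hw, map_one]
      · show _ = KaehlerDifferential.D ℂ V' (ψ j (E.φ 0 (x b)) * ψ j w)
        rw [← map_mul])
    rw [hF] at h2
    exact h2
  · intro c
    exact FProd_addVal_det _ _ fun j i => hψ' j (E.φ 0 (c i))

end Pool.Agent.Lib_KF

end

/-! ### from `Lib_KF.ChMain` -/

section

/-! CH12: from an arc over a field with derivations to an analytic family. -/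

open PowerSeries

namespace Pool.Agent.Lib_KF

open Pool.Agent.Lib_GD

/-- A power series which is a polynomial with coefficients in `k`. -/
private theorem ChMain_poly {k L : Type} [Field k] [Field L] [Algebra k L] {B : ℕ}
    (f : L⟦X⟧) (c : Fin (B + 1) → k) (hc : ∀ j : Fin (B + 1), algebraMap k L (c j) = coeff (j : ℕ) f)
    (hf : ∀ j, B < j → coeff j f = 0) :
    f = ∑ j : Fin (B + 1), algebraMap k L⟦X⟧ (c j) * (X : L⟦X⟧) ^ (j : ℕ) := by
  ext m
  rw [map_sum]
  have h1 : ∀ j : Fin (B + 1), coeff m (algebraMap k L⟦X⟧ (c j) * (X : L⟦X⟧) ^ (j : ℕ)) =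
      if m = j then coeff (j : ℕ) f else 0 := by
    intro j
    have h2 : algebraMap k L⟦X⟧ (c j) = C (algebraMap k L (c j)) :=
      PowerSeries.algebraMap_apply
    rw [h2, coeff_C_mul, coeff_X_pow, hc]
    split_ifs <;> simp
  rw [Finset.sum_congr rfl fun j _ => h1 j]
  by_cases hm : m < B + 1
  · rw [Finset.sum_eq_single (⟨m, hm⟩ : Fin (B + 1))]
    · simp
    · intro j _ hj
      rw [if_neg]
      intro h
      exact hj (Fin.ext h.symm)
    · intro h; exact absurd (Finset.mem_univ _) h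
  · rw [hf m (by omega), Finset.sum_eq_zero]
    intro j _
    rw [if_neg]
    intro h
    have := j.2
    omega

private theorem ChMain_alg {k L : Type} [Field k] [Algebra ℂ k] [Field L] [Algebra ℂ L]
    [Algebra k L] [IsScalarTower ℂ k L] {n : ℕ} (y y' : Fin n → L⟦X⟧) (hy : y' = y) (f : L⟦X⟧)
    (h : IsAlgebraic (Algebra.adjoin ℂ (Set.range y')) f) : IsAlgebraic (polyRing k y) f := by
  subst hy
  have hincl : ∀ z ∈ Algebra.adjoin ℂ (Set.range y'), z ∈ polyRing k y' := by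
    intro z hz
    induction hz using Algebra.adjoin_induction with
    | mem z hz => exact Algebra.subset_adjoin (Set.mem_insert_of_mem _ hz)
    | algebraMap c =>
      rw [IsScalarTower.algebraMap_apply ℂ k L⟦X⟧]
      exact Subalgebra.algebraMap_mem _ _
    | add z z' _ _ h1 h2 => exact Subalgebra.add_mem _ h1 h2
    | mul z z' _ _ h1 h2 => exact Subalgebra.mul_mem _ h1 h2
  let ι : Algebra.adjoin ℂ (Set.range y') →+* polyRing k y' :=
    ((Algebra.adjoin ℂ (Set.range y')).val.toRingHom).codRestrict (polyRing k y').toSubring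
      (fun z => hincl z.1 z.2)
  have hcomp : (algebraMap (polyRing k y') L⟦X⟧).comp ι =
      algebraMap (Algebra.adjoin ℂ (Set.range y')) L⟦X⟧ := RingHom.ext fun z => rfl
  have hι : Function.Injective ι := by
    intro z z' hz
    have h1 := congrArg (algebraMap (polyRing k y') L⟦X⟧) hz
    rw [← RingHom.comp_apply, ← RingHom.comp_apply, hcomp] at h1
    exact Subtype.ext h1
  obtain ⟨p, hp0, hp⟩ := h
  refine ⟨p.map ι, (Polynomial.map_ne_zero_iff hι).2 hp0, ?_⟩
  rw [Polynomial.aeval_def, Polynomial.eval₂_map, hcomp, ← Polynomial.aeval_def]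
  exact hp

/-- CH12c, part 1. The data on the valuation ring. -/
private theorem ChMain_setup {R : Type} [CommRing R] [Algebra ℂ R] {𝒜 : ℕ → Submodule ℂ R}
    [GradedAlgebra 𝒜] {n r d : ℕ} {x : Fin (n + 1) → R} {G : R} (h : IsFano 𝒜 n r d x G)
    {k L : Type} [Field k] [CharZero k] [Algebra ℂ k] [Field L] [Algebra ℂ L] [Algebra k L]
    [IsScalarTower ℂ k L] (Δ : Set (Derivation ℂ L L))
    (hΔk : ∀ δ ∈ Δ, ∀ t : k, δ (algebraMap k L t) = 0) (φ : R →ₐ[ℂ] L⟦X⟧)
    (a : Fin (n + 1)) (η' : L⟦X⟧) (ha : φ (x a) * η' = 1)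
    (Ξ : Submodule L⟦X⟧ (Fin n → L⟦X⟧)) (hΞ : FinColen Ξ)
    (hΞΔ : ∀ v ∈ Ξ, ∃ δ ∈ Δ, ∀ l, hat δ (φ (x (a.succAbove l)) * η') = v l) (hG : G ≠ 0) :
    ∃ (ω η₀ : L⟦X⟧) (φ₀ : R →ₐ[ℂ] L⟦X⟧) (S : Finset R) (A : Subalgebra k L⟦X⟧)
      (hX : (X : L⟦X⟧) ∈ A), IsUnit ω ∧ (∀ j, ∀ f ∈ 𝒜 j, φ₀ f = ω ^ j * φ f) ∧
      φ₀ (x a) * η₀ = 1 ∧ (∀ l, φ₀ (x (a.succAbove l)) * η₀ = φ (x (a.succAbove l)) * η') ∧
      Algebra.adjoin ℂ (S : Set R) = ⊤ ∧ (∀ f, φ₀ f ∈ A) ∧
      polyRing k (fun l => φ (x (a.succAbove l)) * η') ≤ A ∧ φ₀ G ≠ 0 ∧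
      IsDiscreteValuationRing (fracRing A) ∧
      Irreducible (⟨X, le_fracRing A hX⟩ : fracRing A) ∧
      ∃ (u : Fin n → fracRing A) (D : Fin n → Derivation k (fracRing A) (fracRing A))
        (w : fracRing A) (F : Polynomial (MvPolynomial (Option (Fin n)) k)),
        (∀ l, (u l).1 ∈ fracRing (polyRing k
          (fun l => φ (x (a.succAbove l)) * η'))) ∧
        DualDer k (fracRing A) ⟨X, le_fracRing A hX⟩ u D ∧
        EtaleCoord k (fracRing A) ⟨X, le_fracRing A hX⟩ u w F := by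
  classical
  obtain ⟨k₀, f₀, f₁, ω, φ₀, hω, hf₀, hf₁, hφ₀, hf01, hf0u⟩ :=
    exists_normalised h φ a (IsUnit.of_mul_eq_one _ ha)
  obtain ⟨ω', hω'⟩ := hω.exists_right_inv
  set y : Fin n → L⟦X⟧ := fun l => φ (x (a.succAbove l)) * η' with hy
  have hx₀ : ∀ b, φ₀ (x b) = ω ^ d * φ (x b) := fun b => hφ₀ d _ (h.x_mem b)
  have hωd : ω ^ d * ω' ^ d = 1 := by rw [← mul_pow, hω', one_pow]
  have ha₀ : φ₀ (x a) * (ω' ^ d * η') = 1 := by
    rw [hx₀]
    calc ω ^ d * φ (x a) * (ω' ^ d * η') = (ω ^ d * ω' ^ d) * (φ (x a) * η') := by ring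
      _ = 1 := by rw [hωd, ha, one_mul]
  have hy₀ : ∀ l, φ₀ (x (a.succAbove l)) * (ω' ^ d * η') = y l := by
    intro l
    rw [hx₀, hy]
    calc ω ^ d * φ (x (a.succAbove l)) * (ω' ^ d * η') =
        (ω ^ d * ω' ^ d) * (φ (x (a.succAbove l)) * η') := by ring
      _ = _ := by rw [hωd, one_mul]
  have hΔc : ∀ δ ∈ Δ, ∀ t : ℂ, δ (algebraMap ℂ L t) = 0 := fun δ _ t => δ.map_algebraMap t
  have hind : AlgebraicIndependent ℂ y :=
    algebraicIndependent_arc (k := ℂ) y Δ hΔc Ξ hΞ hΞΔ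
  have hind₀ : AlgebraicIndependent ℂ
      (fun l : Fin n => φ₀ (x (a.succAbove l)) * (ω' ^ d * η')) := by
    rw [show (fun l : Fin n => φ₀ (x (a.succAbove l)) * (ω' ^ d * η')) = y from funext hy₀]
    exact hind
  have halg₀ := fun f => isAlgebraic_of_normalised h φ₀ a (ω' ^ d * η') ha₀ k₀ f₀ f₁ hf₀ hf₁ hf01
    hf0u.ne_zero hind₀ f
  have hG₀ : φ₀ G ≠ 0 := map_ne_zero_of_homogeneous h φ₀ a (ω' ^ d * η') ha₀ hind₀ _ G h.G_mem hG
  obtain ⟨S, hS⟩ := h.finiteType.out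
  set T : Set L⟦X⟧ := insert (X : L⟦X⟧) (Set.range y) ∪ φ₀ '' (S : Set R) with hT
  set A : Subalgebra k L⟦X⟧ := Algebra.adjoin k T with hA
  have hpA : polyRing k y ≤ A := Algebra.adjoin_mono Set.subset_union_left
  have hX : (X : L⟦X⟧) ∈ A := hpA (Algebra.subset_adjoin (Set.mem_insert _ _))
  have hφA : ∀ f, φ₀ f ∈ A := by
    intro f
    have h1 : (Algebra.adjoin ℂ (S : Set R)).map φ₀ ≤ A.restrictScalars ℂ := by
      rw [AlgHom.map_adjoin, Algebra.adjoin_le_iff]
      intro z hz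
      have hz' : z ∈ A := Algebra.subset_adjoin (Or.inr hz)
      exact hz'
    exact h1 ⟨f, by rw [hS]; exact Algebra.mem_top, rfl⟩
  have hfg : A.FG := by
    rw [Subalgebra.fg_def]
    exact ⟨T, ((Set.finite_range y).insert _).union (S.finite_toSet.image _), rfl⟩
  have halgφ : ∀ f, IsAlgebraic (polyRing k y) (φ₀ f) := fun f =>
    ChMain_alg y _ (funext hy₀) (φ₀ f) (halg₀ f)
  have halg : ∀ z ∈ A, IsAlgebraic (polyRing k y) z := by
    intro z hz
    induction hz using Algebra.adjoin_induction with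
    | mem z hz =>
      rcases hz with hz | ⟨f, -, rfl⟩
      · exact isAlgebraic_algebraMap (⟨z, Algebra.subset_adjoin hz⟩ : polyRing k y)
      · exact halgφ f
    | algebraMap c =>
      exact isAlgebraic_algebraMap
        (⟨algebraMap _ _ c, Subalgebra.algebraMap_mem _ c⟩ : polyRing k y)
    | add z z' _ _ h1 h2 => exact h1.add h2
    | mul z z' _ _ h1 h2 => exact h1.mul h2
  obtain ⟨hdvr, hirr, u, D, w, F, hu, hD, hE⟩ :=
    exists_arcV (k := k) y Δ hΔk Ξ hΞ hΞΔ A hX hpA hfg halg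
  exact ⟨ω, ω' ^ d * η', φ₀, S, A, hX, hω, hφ₀, ha₀, hy₀, hS, hφA, hpA, hG₀, hdvr, hirr,
    u, D, w, F, hu, hD, hE⟩

/-- CH12c, part 2. The analytic family, with the coefficients `c` in a field `k` killed by `Δ`. -/
private theorem ChMain_aux {R : Type} [CommRing R] [Algebra ℂ R] {𝒜 : ℕ → Submodule ℂ R}
    [GradedAlgebra 𝒜] {n r d : ℕ} {x : Fin (n + 1) → R} {G : R} (h : IsFano 𝒜 n r d x G)
    {k L : Type} [Field k] [CharZero k] [Algebra ℂ k] [Field L] [Algebra ℂ L] [Algebra k L]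
    [IsScalarTower ℂ k L] (Δ : Set (Derivation ℂ L L))
    (hΔk : ∀ δ ∈ Δ, ∀ t : k, δ (algebraMap k L t) = 0) (φ : R →ₐ[ℂ] L⟦X⟧)
    (a : Fin (n + 1)) (η' : L⟦X⟧) (ha : φ (x a) * η' = 1)
    (Ξ : Submodule L⟦X⟧ (Fin n → L⟦X⟧)) (hΞ : FinColen Ξ)
    (hΞΔ : ∀ v ∈ Ξ, ∃ δ ∈ Δ, ∀ l, hat δ (φ (x (a.succAbove l)) * η') = v l) (hG : G ≠ 0)
    {M B m : ℕ} (σ : Fin M → R) (hσ : ∀ i, σ i ∈ 𝒜 m) (hσi : LinearIndependent ℂ σ)
    (c : Fin M → Fin M → Fin (B + 1) → k)
    (hdet : Matrix.det (Matrix.of fun i l => c i l 0) ≠ 0) (lam : Fin M → ℕ)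
    (hlam : ∀ i, (X : L⟦X⟧) ^ lam i ∣
      ∑ l, (∑ j, algebraMap k L⟦X⟧ (c i l j) * (X : L⟦X⟧) ^ (j : ℕ)) * φ (σ l)) :
    φ G ≠ 0 ∧ ∃ (ε : Fin M → Fin (B + 1) → R) (κ : ℕ), κ ≤ colen Ξ ∧ (∀ i l, ε i l ∈ 𝒜 m) ∧
      LinearIndependent ℂ (fun i => ε i 0) ∧
      Nonempty (AnChart 𝒜 x G ε lam (φ G).order.toNat κ) := by
  classical
  obtain ⟨ω, η₀, φ₀, S, A, hX, hω, hφ₀, ha₀, hy₀, hS, hφA, hpA, hG₀, hdvr, hirr, u, D, w, F,
    hu, hD, hE⟩ := ChMain_setup h (k := k) Δ hΔk φ a η' ha Ξ hΞ hΞΔ hG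
  have hAV : A ≤ fracRing A := le_fracRing A
  have hyA : ∀ l, φ (x (a.succAbove l)) * η' ∈ A := fun l =>
    hpA (Algebra.subset_adjoin (Set.mem_insert_of_mem _ ⟨l, rfl⟩))
  have hyV : ∀ l, φ (x (a.succAbove l)) * η' ∈ fracRing A := fun l => hAV (hyA l)
  obtain ⟨sV, hsV⟩ : ∃ sV : fracRing A, sV = ⟨X, le_fracRing A hX⟩ := ⟨_, rfl⟩
  have hsV1 : sV.1 = X := by rw [hsV]
  obtain ⟨φV, hφV⟩ : ∃ φV : R →ₐ[ℂ] fracRing A, ∀ f, (φV f).1 = φ₀ f :=
    ⟨φ₀.codRestrict ((fracRing A).restrictScalars ℂ) (fun f => hAV (hφA f)), fun f => rfl⟩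
  -- `η₀`
  have hη₀V : η₀ ∈ fracRing A := by
    refine ⟨1, A.one_mem, φ₀ (x a), hφA _, ?_, ?_⟩
    · intro h0
      rw [h0, zero_mul] at ha₀
      exact zero_ne_one ha₀
    · rw [mul_comm]; exact ha₀
  -- `G`
  have hφVG : φV G ≠ 0 := fun h0 => hG₀ (by rw [← hφV, h0]; rfl)
  obtain ⟨g₀, vG, hvG, hg₀, hGeq⟩ := exists_eq_X_pow_mul A hX (φV G) hφVG
  obtain ⟨vG', hvG'⟩ := hvG.exists_right_inv
  -- the Jacobian
  obtain ⟨hJ0, hJκ⟩ := order_jac_le (fun l => φ (x (a.succAbove l)) * η') Δ hΔk Ξ hΞ hΞΔ A hX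
    hyV u D hD
  have hJ0' : Matrix.det (Matrix.of fun b l => D l ⟨φ (x (a.succAbove b)) * η', hyV b⟩) ≠ 0 :=
    fun h0 => hJ0 (by rw [h0]; rfl)
  obtain ⟨κ, vJ, hvJ, hκ, hJeq⟩ := exists_eq_X_pow_mul A hX _ hJ0'
  obtain ⟨vJ', hvJ'⟩ := hvJ.exists_right_inv
  rw [hκ] at hJκ
  have hκle : κ ≤ colen Ξ := by exact_mod_cast hJκ
  -- the sections
  have hsum : ∀ i, ∃ v : fracRing A,
      ∑ l, (∑ j, algebraMap k (fracRing A) (c i l j) * sV ^ (j : ℕ)) * φV (σ l) =
      sV ^ lam i * v := by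
    intro i
    obtain ⟨q, hq⟩ := hlam i
    obtain ⟨f, hf⟩ : ∃ f : fracRing A,
      f = ∑ l, (∑ j, algebraMap k (fracRing A) (c i l j) * sV ^ (j : ℕ)) * φV (σ l) := ⟨_, rfl⟩
    have hf1 : f.1 = ∑ l, (∑ j, algebraMap k L⟦X⟧ (c i l j) * (X : L⟦X⟧) ^ (j : ℕ)) *
          φ₀ (σ l) := by
      rw [hf]
      push_cast
      rw [hsV1]
      refine Finset.sum_congr rfl fun l _ => ?_
      rw [hφV]
    have hfA : f.1 ∈ A := by
      rw [hf1]
      exact Subalgebra.sum_mem _ fun l _ => Subalgebra.mul_mem _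
        (Subalgebra.sum_mem _ fun j _ => Subalgebra.mul_mem _ (Subalgebra.algebraMap_mem _ _)
          (Subalgebra.pow_mem _ hX _)) (hφA _)
    have hfq : f.1 = (X : L⟦X⟧) ^ lam i * (ω ^ m * q) := by
      have h1 : f.1 = ω ^ m * ∑ l, (∑ j, algebraMap k L⟦X⟧ (c i l j) *
          (X : L⟦X⟧) ^ (j : ℕ)) * φ (σ l) := by
        rw [hf1, Finset.mul_sum]
        refine Finset.sum_congr rfl fun l _ => ?_
        rw [hφ₀ m _ (hσ l)]
        ring
      rw [h1, hq]
      ring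
    have hqV : ω ^ m * q ∈ fracRing A := by
      refine ⟨f.1, hfA, (X : L⟦X⟧) ^ lam i, Subalgebra.pow_mem _ hX _,
        pow_ne_zero _ PowerSeries.X_ne_zero, ?_⟩
      rw [hfq, mul_comm]
    refine ⟨⟨ω ^ m * q, hqV⟩, ?_⟩
    rw [← hf]
    apply Subtype.ext
    rw [hfq]
    push_cast
    rw [hsV1]
  choose v hv using hsum
  -- the denominators of `u`
  choose α hα β hβ hβ0 hαβ using hu
  choose Zα hZα using fun l => ev_eq_of_coords (k := k)
    (fun l => φ (x (a.succAbove l)) * η') (α l) (hα l)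
  choose Zβ hZβ using fun l => ev_eq_of_coords (k := k)
    (fun l => φ (x (a.succAbove l)) * η') (β l) (hβ l)
  have hαV : ∀ l, α l ∈ fracRing A := fun l => hAV (hpA (hα l))
  have hβV : ∀ l, β l ∈ fracRing A := fun l => hAV (hpA (hβ l))
  have hβ0' : ∀ l, (⟨β l, hβV l⟩ : fracRing A) ≠ 0 :=
    fun l h0 => hβ0 l (congrArg Subtype.val h0)
  choose mb vb hvb _ hβeq using fun l => exists_eq_X_pow_mul A hX _ (hβ0' l)
  choose vb' hvb' using fun l => (hvb l).exists_right_inv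
  -- the finite sets
  obtain ⟨Z, hZ⟩ : ∃ Z : Finset (fracRing A), Z = (S.image φV ∪ {⟨η₀, hη₀V⟩, vG, vG', vJ, vJ'}) ∪
      (Finset.univ.image v ∪ (Finset.univ.image vb ∪ Finset.univ.image vb')) := ⟨_, rfl⟩
  obtain ⟨Zc, hZc⟩ : ∃ Zc : Finset k, Zc =
      (Finset.univ.image (fun q : Fin M × Fin M × Fin (B + 1) => c q.1 q.2.1 q.2.2) ∪
        {(Matrix.det (Matrix.of fun i l => c i l 0))⁻¹}) ∪
      (Finset.univ.biUnion Zα ∪ Finset.univ.biUnion Zβ) := ⟨_, rfl⟩
  have hsm : (⟨X, le_fracRing A hX⟩ : fracRing A) ∈ IsLocalRing.maximalIdeal (fracRing A) :=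
    (IsLocalRing.mem_maximalIdeal _).2 hirr.not_isUnit
  obtain ⟨E⟩ := exists_evFam hE hsm D hD Z Zc
  have hZ𝒲 : ∀ z ∈ Z, z ∈ E.𝒲 := fun z hz => E.hZ z hz
  have hφ𝒲 : ∀ f, φV f ∈ E.𝒲 := by
    intro f
    have h1 : (Algebra.adjoin ℂ (S : Set R)).map φV ≤ E.𝒲 := by
      rw [AlgHom.map_adjoin, Algebra.adjoin_le_iff]
      rintro _ ⟨g, hg, rfl⟩
      refine hZ𝒲 _ ?_
      rw [hZ]
      exact Finset.mem_union_left _ (Finset.mem_union_left _ (Finset.mem_image_of_mem _ hg))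
    exact h1 ⟨f, by rw [hS]; exact Algebra.mem_top, rfl⟩
  have hη𝒲 : (⟨η₀, hη₀V⟩ : fracRing A) ∈ E.𝒲 := hZ𝒲 _ (by rw [hZ]; simp)
  have hvG𝒲 : vG ∈ E.𝒲 := hZ𝒲 _ (by rw [hZ]; simp)
  have hvG'𝒲 : vG' ∈ E.𝒲 := hZ𝒲 _ (by rw [hZ]; simp)
  have hvJ𝒲 : vJ ∈ E.𝒲 := hZ𝒲 _ (by rw [hZ]; simp)
  have hvJ'𝒲 : vJ' ∈ E.𝒲 := hZ𝒲 _ (by rw [hZ]; simp)
  have hv𝒲 : ∀ i, v i ∈ E.𝒲 := fun i => hZ𝒲 _ (by rw [hZ]; simp)
  have hvb𝒲 : ∀ l, vb l ∈ E.𝒲 := fun l => hZ𝒲 _ (by rw [hZ]; simp)
  have hvb'𝒲 : ∀ l, vb' l ∈ E.𝒲 := fun l => hZ𝒲 _ (by rw [hZ]; simp)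
  have hcZ : ∀ i l j, c i l j ∈ (Zc : Set k) := by
    intro i l j
    rw [hZc, Finset.mem_coe]
    refine Finset.mem_union_left _ (Finset.mem_union_left _ ?_)
    exact Finset.mem_image.2 ⟨(i, l, j), Finset.mem_univ _, rfl⟩
  have hc'Z : (Matrix.det (Matrix.of fun i l => c i l 0))⁻¹ ∈ (Zc : Set k) := by
    rw [hZc, Finset.mem_coe]
    exact Finset.mem_union_left _ (Finset.mem_union_right _ (Finset.mem_singleton_self _))
  have hZαc : ∀ l, ((Zα l : Finset k) : Set k) ⊆ (Zc : Set k) := by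
    intro l t ht
    rw [hZc, Finset.mem_coe]
    exact Finset.mem_union_right _ (Finset.mem_union_left _
      (Finset.mem_biUnion.2 ⟨l, Finset.mem_univ _, ht⟩))
  have hZβc : ∀ l, ((Zβ l : Finset k) : Set k) ⊆ (Zc : Set k) := by
    intro l t ht
    rw [hZc, Finset.mem_coe]
    exact Finset.mem_union_right _ (Finset.mem_union_right _
      (Finset.mem_biUnion.2 ⟨l, Finset.mem_univ _, ht⟩))
  -- the coordinates as elements of `V`
  have hycoord : ∀ b, (⟨φ (x (a.succAbove b)) * η', hyV b⟩ : fracRing A) =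
      φV (x (a.succAbove b)) * ⟨η₀, hη₀V⟩ := by
    intro b
    apply Subtype.ext
    change φ (x (a.succAbove b)) * η' = (φV (x (a.succAbove b))).1 * η₀
    rw [hφV, hy₀]
  have hy𝒲 : ∀ b, (⟨φ (x (a.succAbove b)) * η', hyV b⟩ : fracRing A) ∈ E.𝒲 := by
    intro b
    rw [hycoord]
    exact E.𝒲.mul_mem (hφ𝒲 _) hη𝒲
  have hinj : ∀ z p p', z ≠ 0 → ‖z‖ < E.ρ → ‖p‖ < E.ρ → ‖p'‖ < E.ρ →
      (∀ b : Fin n, E.ev z p (⟨φV (x (a.succAbove b)), hφ𝒲 _⟩ * ⟨⟨η₀, hη₀V⟩, hη𝒲⟩) =
        E.ev z p' (⟨φV (x (a.succAbove b)), hφ𝒲 _⟩ * ⟨⟨η₀, hη₀V⟩, hη𝒲⟩)) → p = p' := by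
    intro z p p' hz0 hz hp hp' heq
    have heq' : ∀ b, E.ev z p ⟨_, hy𝒲 b⟩ = E.ev z p' ⟨_, hy𝒲 b⟩ := by
      intro b
      have h1 : (⟨⟨φ (x (a.succAbove b)) * η', hyV b⟩, hy𝒲 b⟩ : E.𝒲) =
          ⟨φV (x (a.succAbove b)), hφ𝒲 _⟩ * ⟨⟨η₀, hη₀V⟩, hη𝒲⟩ := Subtype.ext (hycoord b)
      rw [h1]
      exact heq b
    funext l
    obtain ⟨hα𝒲, h1⟩ := hZα l A hX hyV (hαV l) u D _ _ E hy𝒲 (hZαc l)
    obtain ⟨hβ𝒲, h2⟩ := hZβ l A hX hyV (hβV l) u D _ _ E hy𝒲 (hZβc l)
    have h3 := h1 z p p' hz hp hp' heq'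
    have h4 := h2 z p p' hz hp hp' heq'
    have h5 : (⟨u l, E.hu l⟩ : E.𝒲) * ⟨⟨β l, hβV l⟩, hβ𝒲⟩ = ⟨⟨α l, hαV l⟩, hα𝒲⟩ :=
      Subtype.ext (Subtype.ext (hαβ l))
    have h6 : (⟨⟨β l, hβV l⟩, hβ𝒲⟩ : E.𝒲) =
        ⟨⟨X, le_fracRing A hX⟩, E.hs⟩ ^ mb l * ⟨vb l, hvb𝒲 l⟩ := Subtype.ext (hβeq l)
    have h7 : (⟨vb l, hvb𝒲 l⟩ : E.𝒲) * ⟨vb' l, hvb'𝒲 l⟩ = 1 := Subtype.ext (hvb' l)
    have h8 : ∀ q, ‖q‖ < E.ρ → E.ev z q ⟨⟨β l, hβV l⟩, hβ𝒲⟩ ≠ 0 := by
      intro q hq h0
      rw [h6, map_mul, map_pow, E.ev_s z q hz hq] at h0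
      rcases mul_eq_zero.1 h0 with h0 | h0
      · exact pow_ne_zero _ hz0 h0
      · have h9 : E.ev z q ⟨vb l, hvb𝒲 l⟩ * E.ev z q ⟨vb' l, hvb'𝒲 l⟩ = 1 := by
          rw [← map_mul, h7, map_one]
        rw [h0, zero_mul] at h9
        exact zero_ne_one h9
    have h10 : ∀ q, ‖q‖ < E.ρ → (E.u₀ l + q l) * E.ev z q ⟨⟨β l, hβV l⟩, hβ𝒲⟩ =
        E.ev z q ⟨⟨α l, hαV l⟩, hα𝒲⟩ := by
      intro q hq
      rw [← E.ev_u z q hz hq l, ← map_mul, h5]
    have h11 := h10 p hp
    have h12 := h10 p' hp'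
    rw [h3, ← h12, h4] at h11
    have h13 := mul_right_cancel₀ (h8 p' hp') h11
    exact add_left_cancel h13
  have ha₀V : φV (x a) * ⟨η₀, hη₀V⟩ = 1 := by
    apply Subtype.ext
    change (φV (x a)).1 * η₀ = 1
    rw [hφV, ha₀]
  have hJV : Matrix.det (Matrix.of fun b l => D l (φV (x (a.succAbove b)) * ⟨η₀, hη₀V⟩)) =
      (⟨X, le_fracRing A hX⟩ : fracRing A) ^ κ * vJ := by
    rw [← hJeq]
    congr 1
    ext b l
    rw [Matrix.of_apply, Matrix.of_apply, hycoord]
  obtain ⟨ε, hε, hεi, hCh⟩ := anChart_of_evFam (𝒜 := 𝒜) (x := x) (G := G) E φV hφ𝒲 a ⟨η₀, hη₀V⟩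
    hη𝒲 ha₀V g₀ vG vG' hvG𝒲 hvG'𝒲 hvG' hGeq κ vJ vJ' hvJ𝒲 hvJ'𝒲 hvJ' hJV σ hσ hσi c hcZ
    (Matrix.det (Matrix.of fun i l => c i l 0))⁻¹ hc'Z (mul_inv_cancel₀ hdet) lam v hv𝒲
    (by intro i; rw [← hsV]; exact hv i) hinj
  have hGφ : φ₀ G = ω ^ (r * d * (n + 1) - 1) * φ G := hφ₀ _ _ h.G_mem
  have hφG : φ G ≠ 0 := by
    intro h0
    rw [h0, mul_zero] at hGφ
    exact hG₀ hGφ
  have hgo : (φ G).order.toNat = g₀ := by
    have h1 : (φ₀ G).order = g₀ := by rw [← hφV]; exact hg₀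
    have h2 : (φ G).order = g₀ := by
      rw [← h1, hGφ, PowerSeries.order_mul]
      have h3 : (ω ^ (r * d * (n + 1) - 1)).order = 0 := by
        have h4 := hω.pow (r * d * (n + 1) - 1)
        rw [PowerSeries.isUnit_iff_constantCoeff, isUnit_iff_ne_zero] at h4
        exact PowerSeries.order_zero_of_unit ((PowerSeries.isUnit_iff_constantCoeff).2
          (isUnit_iff_ne_zero.2 h4))
      rw [h3, zero_add]
    rw [h2, ENat.toNat_natCast]
  refine ⟨hφG, ε, κ, hκle, hε, hεi, ?_⟩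
  rw [hgo]
  exact hCh

/-- CH12c. Main theorem of the module: an arc `φ` of the cone over `L`, with a module `Ξ` of
derivatives of finite colength, and a family `e` of bases of the sections with coefficients
constants of `Δ`, gives an analytic family with Jacobian of order `κ ≤ colen Ξ`. -/
theorem exists_anChart {R : Type} [CommRing R] [Algebra ℂ R] {𝒜 : ℕ → Submodule ℂ R}
    [GradedAlgebra 𝒜] {n r d : ℕ} {x : Fin (n + 1) → R} {G : R} (h : IsFano 𝒜 n r d x G)
    {L : Type} [Field L] [Algebra ℂ L] (Δ : Set (Derivation ℂ L L)) (φ : R →ₐ[ℂ] L⟦X⟧)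
    (a : Fin (n + 1)) (η' : L⟦X⟧) (ha : φ (x a) * η' = 1)
    (Ξ : Submodule L⟦X⟧ (Fin n → L⟦X⟧)) (hΞ : FinColen Ξ)
    (hΞΔ : ∀ v ∈ Ξ, ∃ δ ∈ Δ, ∀ l, hat δ (φ (x (a.succAbove l)) * η') = v l)
    {M B m : ℕ} (σ : Fin M → R) (hσ : ∀ i, σ i ∈ 𝒜 m) (hσi : LinearIndependent ℂ σ)
    (e : Fin M → Fin M → L⟦X⟧) (he : ∀ i l j, coeff j (e i l) ∈ consts Δ)
    (he' : ∀ i l j, B < j → coeff j (e i l) = 0)
    (hdet : Matrix.det (Matrix.of fun i l => constantCoeff (e i l)) ≠ 0) (lam : Fin M → ℕ)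
    (hlam : ∀ i, (X : L⟦X⟧) ^ lam i ∣ ∑ l, e i l * φ (σ l)) (hG : G ≠ 0) :
    φ G ≠ 0 ∧ ∃ (ε : Fin M → Fin (B + 1) → R) (κ : ℕ), κ ≤ colen Ξ ∧ (∀ i l, ε i l ∈ 𝒜 m) ∧
      LinearIndependent ℂ (fun i => ε i 0) ∧
      Nonempty (AnChart 𝒜 x G ε lam (φ G).order.toNat κ) := by
  refine ChMain_aux h (k := consts Δ) Δ (fun δ hδ t => t.2 δ hδ) φ a η' ha Ξ hΞ hΞΔ hG σ hσ hσi
    (fun i l j => ⟨coeff (j : ℕ) (e i l), he i l j⟩) ?_ lam ?_
  · intro h0
    apply hdet
    have h1 : Matrix.det (Matrix.of fun i l => constantCoeff (e i l)) =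
        algebraMap (consts Δ) L (Matrix.det (Matrix.of fun i l =>
          (⟨coeff ((0 : Fin (B + 1)) : ℕ) (e i l), he i l _⟩ : consts Δ))) := by
      rw [RingHom.map_det]
      congr 1
      ext i l
      rw [RingHom.mapMatrix_apply, Matrix.map_apply, Matrix.of_apply, Matrix.of_apply,
        ← coeff_zero_eq_constantCoeff_apply]
      rfl
    rw [h1, h0, map_zero]
  · intro i
    have h1 := hlam i
    rw [show (∑ l, e i l * φ (σ l)) = _ from Finset.sum_congr rfl fun l _ => by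
      rw [ChMain_poly (k := consts Δ) (e i l) (fun j => ⟨coeff (j : ℕ) (e i l), he i l j⟩)
        (fun j => rfl) (he' i l)]] at h1
    exact h1

end Pool.Agent.Lib_KF

end

/-! ### from `Lib_GD.RatBasis` -/

section

/-! J01b: elementary divisors over the constants. -/

open PowerSeries

namespace Pool.Agent.Lib_GD

variable {L : Type} [Field L] [Algebra ℂ L]

section Aux

variable {N : ℕ} (K : IntermediateField ℂ L)

/-- base change of a vector of power series -/
private noncomputable def RatBasis_bc (f : Fin N → K⟦X⟧) : Fin N → L⟦X⟧ :=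
  fun i => PowerSeries.map (algebraMap K L) (f i)

private theorem RatBasis_bc_add (f g : Fin N → K⟦X⟧) :
    RatBasis_bc K (f + g) = RatBasis_bc K f + RatBasis_bc K g := by
  funext i; simp [RatBasis_bc]

private theorem RatBasis_bc_zero : RatBasis_bc K (0 : Fin N → K⟦X⟧) = 0 := by
  funext i; simp [RatBasis_bc]

private theorem RatBasis_bc_smul (c : K⟦X⟧) (g : Fin N → K⟦X⟧) :
    RatBasis_bc K (c • g) = PowerSeries.map (algebraMap K L) c • RatBasis_bc K g := by
  funext i; simp [RatBasis_bc]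

private theorem RatBasis_bc_sum {ι : Type} (s : Finset ι) (g : ι → Fin N → K⟦X⟧) :
    RatBasis_bc K (∑ i ∈ s, g i) = ∑ i ∈ s, RatBasis_bc K (g i) := by
  funext i; simp [RatBasis_bc, Finset.sum_apply, map_sum]

/-- the rational part of a lattice -/
private noncomputable def RatBasis_MK (M : Submodule L⟦X⟧ (Fin N → L⟦X⟧)) :
    Submodule K⟦X⟧ (Fin N → K⟦X⟧) where
  carrier := {f | RatBasis_bc K f ∈ M}
  add_mem' {f g} hf hg := by
    simp only [Set.mem_setOf_eq, RatBasis_bc_add] at *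
    exact M.add_mem hf hg
  zero_mem' := by
    simp only [Set.mem_setOf_eq, RatBasis_bc_zero]
    exact M.zero_mem
  smul_mem' c f hf := by
    simp only [Set.mem_setOf_eq, RatBasis_bc_smul] at *
    exact M.smul_mem _ hf

/-- polynomial vectors with given coefficients -/
private noncomputable def RatBasis_poly {B : ℕ} (v : Fin N × Fin B → L) : Fin N → L⟦X⟧ :=
  fun i => PowerSeries.mk fun k => if h : k < B then v (i, ⟨k, h⟩) else 0

private theorem RatBasis_poly_add {B : ℕ} (v w : Fin N × Fin B → L) :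
    RatBasis_poly (v + w) = RatBasis_poly v + RatBasis_poly w := by
  funext i
  ext k
  simp only [RatBasis_poly, coeff_mk, Pi.add_apply, map_add]
  split_ifs <;> simp

private theorem RatBasis_poly_smul {B : ℕ} (c : L) (v : Fin N × Fin B → L) :
    RatBasis_poly (c • v) = (C c : L⟦X⟧) • RatBasis_poly v := by
  funext i
  ext k
  simp only [RatBasis_poly, coeff_mk, Pi.smul_apply, smul_eq_mul, coeff_C_mul]
  split_ifs <;> simp

private theorem RatBasis_poly_zero {B : ℕ} :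
    RatBasis_poly (0 : Fin N × Fin B → L) = 0 := by
  funext i
  ext k
  simp [RatBasis_poly]

private theorem RatBasis_mem_of_dvd {B : ℕ} {M : Submodule L⟦X⟧ (Fin N → L⟦X⟧)}
    (hB : ∀ f, (X : L⟦X⟧) ^ B • f ∈ M) {f : Fin N → L⟦X⟧} (hf : ∀ i, (X : L⟦X⟧) ^ B ∣ f i) :
    f ∈ M := by
  choose g hg using hf
  have : f = (X : L⟦X⟧) ^ B • g := by
    funext i; simp [hg i]
  rw [this]
  exact hB g

private theorem RatBasis_poly_dvd {B : ℕ} {f : Fin N → L⟦X⟧} {v : Fin N × Fin B → L}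
    (hv : ∀ p, v p = coeff p.2.1 (f p.1)) (i : Fin N) :
    (X : L⟦X⟧) ^ B ∣ (f - RatBasis_poly v) i := by
  rw [X_pow_dvd_iff]
  intro k hk
  simp only [Pi.sub_apply, map_sub, RatBasis_poly, coeff_mk, dif_pos hk, hv]
  simp

/-- the space of coefficient vectors of a lattice -/
private def RatBasis_U (B : ℕ) (M : Submodule L⟦X⟧ (Fin N → L⟦X⟧)) :
    Submodule L (Fin N × Fin B → L) where
  carrier := {v | ∃ f ∈ M, ∀ p, v p = coeff p.2.1 (f p.1)}
  add_mem' {v w} := by
    rintro ⟨f, hf, hf'⟩ ⟨g, hg, hg'⟩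
    exact ⟨f + g, M.add_mem hf hg, fun p => by simp [hf' p, hg' p]⟩
  zero_mem' := ⟨0, M.zero_mem, fun p => by simp⟩
  smul_mem' c v := by
    rintro ⟨f, hf, hf'⟩
    exact ⟨(C c : L⟦X⟧) • f, M.smul_mem _ hf, fun p => by simp [hf' p]⟩

/-- a stable lattice is generated by its rational part -/
private theorem RatBasis_gen {B : ℕ} (Δ : Set (Derivation ℂ L L))
    (M : Submodule L⟦X⟧ (Fin N → L⟦X⟧)) (hB : ∀ f, (X : L⟦X⟧) ^ B • f ∈ M)
    (hM : StableD Δ M) :
    M ≤ Submodule.span L⟦X⟧ {g | ∃ f ∈ RatBasis_MK (consts Δ) M, g = RatBasis_bc (consts Δ) f} := by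
  set S : Set (Fin N → L⟦X⟧) :=
    {g | ∃ f ∈ RatBasis_MK (consts Δ) M, g = RatBasis_bc (consts Δ) f} with hS
  -- the vectors divisible by X ^ B
  have hXB : ∀ f : Fin N → L⟦X⟧, (∀ i, (X : L⟦X⟧) ^ B ∣ f i) → f ∈ Submodule.span L⟦X⟧ S := by
    intro f hf
    choose g hg using hf
    have h1 : f = ∑ l, g l • ((X : L⟦X⟧) ^ B • (Pi.single l (1 : L⟦X⟧) : Fin N → L⟦X⟧)) := by
      funext i
      simp only [Finset.sum_apply, Pi.smul_apply, smul_eq_mul, Pi.single_apply]
      simp [hg i, mul_comm]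
    rw [h1]
    refine Submodule.sum_mem _ fun l _ => Submodule.smul_mem _ _ (Submodule.subset_span ?_)
    refine ⟨(X : (consts Δ)⟦X⟧) ^ B • (Pi.single l 1), ?_, ?_⟩
    · show RatBasis_bc _ _ ∈ M
      rw [RatBasis_bc_smul]
      simp only [map_pow, PowerSeries.map_X]
      exact hB _
    · rw [RatBasis_bc_smul]
      simp only [map_pow, PowerSeries.map_X]
      congr 1
      funext i
      by_cases h : i = l
      · subst h; simp [RatBasis_bc]
      · simp [RatBasis_bc, Pi.single_eq_of_ne h]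
  have hU : ∀ δ ∈ Δ, ∀ v ∈ RatBasis_U B M, (fun i => δ (v i)) ∈ RatBasis_U B M := by
    rintro δ hδ v ⟨f, hf, hf'⟩
    exact ⟨fun i => hat δ (f i), hM δ hδ f hf, fun p => by
      show δ (v p) = _
      rw [coeff_hat, hf' p]⟩
  have hspan := span_consts Δ (RatBasis_U B M) hU
  have key : ∀ v ∈ Submodule.span L {v | v ∈ RatBasis_U B M ∧ ∀ i, v i ∈ consts Δ},
      RatBasis_poly v ∈ Submodule.span L⟦X⟧ S := by
    intro v hv
    induction hv using Submodule.span_induction with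
    | mem v hv =>
      obtain ⟨⟨f, hf, hf'⟩, hc⟩ := hv
      refine Submodule.subset_span ⟨fun i => PowerSeries.mk fun k =>
        if h : k < B then ⟨v (i, ⟨k, h⟩), hc _⟩ else 0, ?_, ?_⟩
      · show RatBasis_bc _ _ ∈ M
        have h1 : RatBasis_bc (consts Δ) (fun i => PowerSeries.mk fun k =>
            if h : k < B then (⟨v (i, ⟨k, h⟩), hc _⟩ : consts Δ) else 0) = RatBasis_poly v := by
          funext i
          ext k
          simp only [RatBasis_bc, coeff_map, coeff_mk, RatBasis_poly]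
          split_ifs <;> simp
        rw [h1]
        have h2 : RatBasis_poly v = f - (f - RatBasis_poly v) := by abel
        rw [h2]
        exact M.sub_mem hf (RatBasis_mem_of_dvd hB (RatBasis_poly_dvd hf'))
      · funext i
        ext k
        simp only [RatBasis_bc, coeff_map, coeff_mk, RatBasis_poly]
        split_ifs <;> simp
    | zero => rw [RatBasis_poly_zero]; exact Submodule.zero_mem _
    | add v w _ _ hv hw => rw [RatBasis_poly_add]; exact Submodule.add_mem _ hv hw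
    | smul c v _ hv => rw [RatBasis_poly_smul]; exact Submodule.smul_mem _ _ hv
  intro f hf
  have hv : (fun p : Fin N × Fin B => coeff p.2.1 (f p.1)) ∈ RatBasis_U B M :=
    ⟨f, hf, fun p => rfl⟩
  rw [← hspan] at hv
  have h1 := key _ hv
  have h2 : f = RatBasis_poly (fun p : Fin N × Fin B => coeff p.2.1 (f p.1)) +
      (f - RatBasis_poly (fun p : Fin N × Fin B => coeff p.2.1 (f p.1))) := by abel
  rw [h2]
  exact Submodule.add_mem _ h1 (hXB _ (RatBasis_poly_dvd fun p => rfl))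

/-- Smith normal form of the rational part -/
private theorem RatBasis_smith {B : ℕ} (M : Submodule L⟦X⟧ (Fin N → L⟦X⟧))
    (hB : ∀ f, (X : L⟦X⟧) ^ B • f ∈ M) :
    ∃ (b : Module.Basis (Fin N) K⟦X⟧ (Fin N → K⟦X⟧)) (μ : Fin N → ℕ),
      (∀ i, μ i ≤ B) ∧ (∀ i, (X : K⟦X⟧) ^ μ i • b i ∈ RatBasis_MK K M) ∧
      ∀ f ∈ RatBasis_MK K M, ∃ c : Fin N → K⟦X⟧, f = ∑ i, (c i * X ^ μ i) • b i := by
  have hB' : ∀ f : Fin N → K⟦X⟧, (X : K⟦X⟧) ^ B • f ∈ RatBasis_MK K M := by
    intro f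
    show RatBasis_bc _ _ ∈ M
    rw [RatBasis_bc_smul]
    simp only [map_pow, PowerSeries.map_X]
    exact hB _
  have hrank : Module.finrank K⟦X⟧ (RatBasis_MK K M) = Module.finrank K⟦X⟧ (Fin N → K⟦X⟧) := by
    apply le_antisymm
    · exact Submodule.finrank_le _
    · let φ : (Fin N → K⟦X⟧) →ₗ[K⟦X⟧] RatBasis_MK K M :=
        LinearMap.codRestrict _ (LinearMap.lsmul K⟦X⟧ (Fin N → K⟦X⟧) (X ^ B)) hB'
      apply LinearMap.finrank_le_finrank_of_injective (f := φ)
      intro f g hfg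
      have h1 : (X : K⟦X⟧) ^ B • f = (X : K⟦X⟧) ^ B • g := congrArg Subtype.val hfg
      funext i
      have h2 : (X : K⟦X⟧) ^ B * f i = X ^ B * g i := congrFun h1 i
      exact mul_left_cancel₀ (pow_ne_zero _ X_ne_zero) h2
  obtain ⟨b, a, ab, hab⟩ := Submodule.exists_smith_normal_form_of_rank_eq
    (Pi.basisFun K⟦X⟧ (Fin N)) hrank
  -- the coordinates of elements of the submodule
  have hcoord : ∀ f ∈ RatBasis_MK K M, ∃ c : Fin N → K⟦X⟧, f = ∑ i, (c i * a i) • b i := by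
    intro f hf
    refine ⟨fun i => ab.repr ⟨f, hf⟩ i, ?_⟩
    have h1 := congrArg Subtype.val (ab.sum_repr ⟨f, hf⟩)
    simp only [Submodule.coe_sum, Submodule.coe_smul, hab] at h1
    exact h1.symm.trans (Finset.sum_congr rfl fun i _ => by rw [smul_smul])
  have hdvd : ∀ i, a i ∣ (X : K⟦X⟧) ^ B := by
    intro i
    obtain ⟨c, hc⟩ := hcoord _ (hB' (b i))
    refine ⟨c i, ?_⟩
    have h1 := congrArg (fun f => b.repr f i) hc
    simp only [map_smul, Finsupp.smul_apply, Module.Basis.repr_self, map_sum,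
      Finsupp.coe_finset_sum, Finset.sum_apply, smul_eq_mul, Finsupp.single_apply] at h1
    simp only [if_true, mul_ite, mul_one, mul_zero, Finset.sum_ite_eq', Finset.mem_univ] at h1
    rw [h1, mul_comm]
  have hass : ∀ i, ∃ k ≤ B, Associated (a i) ((X : K⟦X⟧) ^ k) := fun i =>
    (dvd_prime_pow X_prime B).1 (hdvd i)
  choose μ hμ hassoc using hass
  refine ⟨b, μ, hμ, fun i => ?_, fun f hf => ?_⟩
  · obtain ⟨u, hu⟩ := hassoc i
    rw [← hu, mul_comm, mul_smul, ← hab]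
    exact Submodule.smul_mem _ _ (ab i).2
  · obtain ⟨c, hc⟩ := hcoord f hf
    choose u hu using fun i => (hassoc i).symm
    refine ⟨fun i => c i * u i, ?_⟩
    rw [hc]
    refine Finset.sum_congr rfl fun i _ => ?_
    rw [← hu i]
    congr 1
    ring

end Aux

/-- J01b: elementary divisors of a stable lattice, over the constants. -/
theorem exists_rational_basis {N B : ℕ} (Δ : Set (Derivation ℂ L L))
    (M : Submodule L⟦X⟧ (Fin N → L⟦X⟧)) (hB : ∀ f, (X : L⟦X⟧) ^ B • f ∈ M)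
    (hM : StableD Δ M) :
    ∃ (e : Fin N → Fin N → L⟦X⟧) (lam : Fin N → ℕ),
      (∀ i l k, coeff k (e i l) ∈ consts Δ) ∧ (∀ i l k, B < k → coeff k (e i l) = 0) ∧
      (∀ i, lam i ≤ B) ∧ (∑ i, lam i) + colen M = B * N ∧
      Matrix.det (Matrix.of fun i l => constantCoeff (e i l)) ≠ 0 ∧
      ∀ i, (X : L⟦X⟧) ^ (B - lam i) • e i ∈ M := by
  obtain ⟨b, μ, hμ, hbM, hcoord⟩ := RatBasis_smith (consts Δ) M hB
  set P : Matrix (Fin N) (Fin N) L⟦X⟧ :=
    Matrix.of fun i l => PowerSeries.map (algebraMap (consts Δ) L) (b i l) with hP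
  have hPdet : IsUnit P.det := by
    have h1 : IsUnit ((Pi.basisFun (consts Δ)⟦X⟧ (Fin N)).det b) :=
      (Pi.basisFun (consts Δ)⟦X⟧ (Fin N)).isUnit_det b
    rw [Pi.basisFun_det_apply] at h1
    have h2 : P.det = PowerSeries.map (algebraMap (consts Δ) L) (Matrix.of b).det := by
      rw [RingHom.map_det]
      rfl
    rw [h2]
    exact h1.map _
  have hbcP : ∀ i, RatBasis_bc (consts Δ) (b i) = P i := fun i => rfl
  -- the elements X ^ μ i • P i
  have hPM : ∀ i, (X : L⟦X⟧) ^ μ i • P i ∈ M := by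
    intro i
    have h1 : RatBasis_bc (consts Δ) ((X : (consts Δ)⟦X⟧) ^ μ i • b i) ∈ M := hbM i
    rw [RatBasis_bc_smul, hbcP] at h1
    simpa using h1
  -- the linear equivalence
  let φ : (Fin N → L⟦X⟧) ≃ₗ[L⟦X⟧] (Fin N → L⟦X⟧) :=
    LinearEquiv.ofLinear (P.vecMulLinear) (P⁻¹.vecMulLinear)
      (by
        refine LinearMap.ext fun x => ?_
        show Matrix.vecMul (Matrix.vecMul x P⁻¹) P = x
        rw [Matrix.vecMul_vecMul, Matrix.nonsing_inv_mul P hPdet, Matrix.vecMul_one])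
      (by
        refine LinearMap.ext fun x => ?_
        show Matrix.vecMul (Matrix.vecMul x P) P⁻¹ = x
        rw [Matrix.vecMul_vecMul, Matrix.mul_nonsing_inv P hPdet, Matrix.vecMul_one])
  have hφ : ∀ c, φ c = ∑ i, c i • P i := by
    intro c
    show Matrix.vecMul c P = _
    funext l
    simp [Matrix.vecMul, dotProduct, Finset.sum_apply]
  let Nμ : Submodule L⟦X⟧ (Fin N → L⟦X⟧) :=
    Submodule.pi Set.univ fun i => (Ideal.span {(X : L⟦X⟧) ^ μ i} : Ideal L⟦X⟧)
  have hNμ : Nμ.map (φ : (Fin N → L⟦X⟧) →ₗ[L⟦X⟧] (Fin N → L⟦X⟧)) = M := by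
    apply le_antisymm
    · rintro _ ⟨c, hc, rfl⟩
      have hc' : ∀ i, (X : L⟦X⟧) ^ μ i ∣ c i := fun i =>
        Ideal.mem_span_singleton.1 (hc i (Set.mem_univ i))
      choose d hd using hc'
      show φ c ∈ M
      rw [hφ]
      refine Submodule.sum_mem _ fun i _ => ?_
      rw [hd i, mul_comm, mul_smul]
      exact Submodule.smul_mem _ _ (hPM i)
    · refine (RatBasis_gen Δ M hB hM).trans (Submodule.span_le.2 ?_)
      rintro _ ⟨f, hf, rfl⟩
      obtain ⟨c, hc⟩ := hcoord f hf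
      refine ⟨fun i => PowerSeries.map (algebraMap (consts Δ) L) (c i * X ^ μ i), ?_, ?_⟩
      · intro i _
        refine Ideal.mem_span_singleton.2 ?_
        show _ ∣ PowerSeries.map (algebraMap (consts Δ) L) (c i * X ^ μ i)
        rw [map_mul, map_pow, PowerSeries.map_X]
        exact Dvd.intro_left _ rfl
      · show φ _ = _
        rw [hφ, hc, RatBasis_bc_sum]
        refine Finset.sum_congr rfl fun i _ => ?_
        rw [RatBasis_bc_smul, hbcP]
  have hcolen : colen M = ∑ i, μ i := by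
    have e1 : ((Fin N → L⟦X⟧) ⧸ Nμ) ≃ₗ[L⟦X⟧] ((Fin N → L⟦X⟧) ⧸ M) :=
      Submodule.Quotient.equiv Nμ M φ hNμ
    have e2 : ((Fin N → L⟦X⟧) ⧸ Nμ) ≃ₗ[L⟦X⟧]
        (∀ i, L⟦X⟧ ⧸ (Ideal.span {(X : L⟦X⟧) ^ μ i} : Ideal L⟦X⟧)) :=
      Submodule.quotientPi (fun i => (Ideal.span {(X : L⟦X⟧) ^ μ i} : Ideal L⟦X⟧))
    have h1 : ∀ i, Module.length L⟦X⟧ (L⟦X⟧ ⧸ (Ideal.span {(X : L⟦X⟧) ^ μ i} : Ideal L⟦X⟧)) =
        μ i := by
      intro i
      rw [← Ideal.span_singleton_pow, ← PowerSeries.maximalIdeal_eq_span_X]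
      exact IsDiscreteValuationRing.length_quotient_pow_maximalIdeal _ _
    rw [colen, ← e1.length_eq, e2.length_eq, Module.length_pi_of_fintype]
    simp_rw [h1]
    rw [← Nat.cast_sum, ENat.toNat_coe]
  -- truncation
  refine ⟨fun i l => PowerSeries.mk fun k => if k ≤ B then coeff k (P i l) else 0,
    fun i => B - μ i, ?_, ?_, fun i => Nat.sub_le _ _, ?_, ?_, ?_⟩
  · intro i l k
    rw [coeff_mk]
    split_ifs
    · rw [hP, Matrix.of_apply, coeff_map]
      exact (coeff k (b i l)).2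
    · exact zero_mem _
  · intro i l k hk
    rw [coeff_mk, if_neg (not_le.2 hk)]
  · rw [hcolen, ← Finset.sum_add_distrib]
    rw [Finset.sum_congr rfl fun i _ => Nat.sub_add_cancel (hμ i)]
    simp [mul_comm]
  · have h1 : (Matrix.of fun i l => constantCoeff (PowerSeries.mk fun k =>
        if k ≤ B then coeff k (P i l) else 0)) = P.map constantCoeff := by
      ext i l
      rw [Matrix.of_apply, Matrix.map_apply, ← coeff_zero_eq_constantCoeff_apply, coeff_mk,
        if_pos (Nat.zero_le _), coeff_zero_eq_constantCoeff_apply]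
    rw [h1]
    have h2 : (P.map (constantCoeff (R := L))).det = constantCoeff P.det := by
      rw [RingHom.map_det]; rfl
    rw [h2]
    exact (hPdet.map (constantCoeff (R := L))).ne_zero
  · intro i
    have hi : B - (B - μ i) = μ i := Nat.sub_sub_self (hμ i)
    rw [hi]
    have h1 : (X : L⟦X⟧) ^ μ i • (fun l => PowerSeries.mk fun k =>
        if k ≤ B then coeff k (P i l) else 0) = (X : L⟦X⟧) ^ μ i • P i -
        (X : L⟦X⟧) ^ μ i • (P i - fun l => PowerSeries.mk fun k =>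
        if k ≤ B then coeff k (P i l) else 0) := by
      rw [smul_sub]; abel
    rw [h1]
    refine M.sub_mem (hPM i) (M.smul_mem _ (RatBasis_mem_of_dvd hB fun l => ?_))
    rw [X_pow_dvd_iff]
    intro k hk
    simp only [Pi.sub_apply, map_sub, coeff_mk, if_pos hk.le, sub_self]

end Pool.Agent.Lib_GD

end

/-! ### from `Lib_MP_e0d435_kv.IntLev` -/

section

/-! INT2: the integral from the volumes of the level sets. -/

open MeasureTheory

namespace Pool.Agent.Lib_MP_e0d435_kv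

open Pool.Agent.Lib_GD Pool.Agent.Lib_KF

open scoped ENNReal in
/-- The bound of a term of the fibre sum. -/
private theorem intLev_term {R : Type} [CommRing R] [Algebra ℂ R] {n r M : ℕ}
    {x : Fin (n + 1) → R} {G : R} (hr : 1 ≤ r) (e : Fin M → R) (c : ℝ) (hc : 0 < c)
    (y : Fin (n + 1) → ℂ) (hy : ‖y‖ < 1) (ν : R →ₐ[ℂ] ℂ) (hν : ν ∈ fib x y) :
    ENNReal.ofReal ((∏ i, ‖ν (e i)‖ ^ (-2 * c)) * ‖ν G‖ ^ (-2 / (r : ℝ))) ≤
      1 + ∑' l : ℕ, (lev x G r e c l).indicator (fun _ => (4 : ℝ≥0∞) ^ (l + 1)) y := by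
  have hr0 : (0 : ℝ) < r := by exact_mod_cast hr
  by_cases he : ∃ i, ν (e i) = 0
  · obtain ⟨i, hi⟩ := he
    have h1 : ∏ i, ‖ν (e i)‖ ^ (-2 * c) = 0 := by
      refine Finset.prod_eq_zero (Finset.mem_univ i) ?_
      rw [hi, norm_zero, Real.zero_rpow (by nlinarith)]
    rw [h1, zero_mul, ENNReal.ofReal_zero]
    exact zero_le
  push Not at he
  by_cases hG : ν G = 0
  · have h1 : ‖ν G‖ ^ (-2 / (r : ℝ)) = 0 := by
      rw [hG, norm_zero, Real.zero_rpow (div_ne_zero (by norm_num) hr0.ne')]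
    rw [h1, mul_zero, ENNReal.ofReal_zero]
    exact zero_le
  set v : ℝ := fval G r e c ν with hv
  have hei : ∀ i, 0 < ‖ν (e i)‖ := fun i => norm_pos_iff.2 (he i)
  have hGp : 0 < ‖ν G‖ := norm_pos_iff.2 hG
  have hv0 : 0 < v := by
    rw [hv]
    unfold fval
    have : 0 < ∏ i, ‖ν (e i)‖ ^ c := Finset.prod_pos fun i _ => Real.rpow_pos_of_pos (hei i) _
    positivity
  have hterm : (∏ i, ‖ν (e i)‖ ^ (-2 * c)) * ‖ν G‖ ^ (-2 / (r : ℝ)) = (v ^ 2)⁻¹ := by
    rw [hv]
    unfold fval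
    rw [mul_pow, mul_inv, ← Finset.prod_pow, ← Finset.prod_inv_distrib]
    congr 1
    · refine Finset.prod_congr rfl fun i _ => ?_
      rw [← Real.rpow_natCast, ← Real.rpow_mul (hei i).le, ← Real.rpow_neg (hei i).le]
      congr 1
      push_cast
      ring
    · rw [← Real.rpow_natCast, ← Real.rpow_mul hGp.le, ← Real.rpow_neg hGp.le]
      congr 1
      push_cast
      ring
  rw [hterm]
  by_cases hv1 : 1 < v
  · have h1 : (v ^ 2)⁻¹ ≤ 1 := inv_le_one_of_one_le₀ (one_le_pow₀ hv1.le)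
    calc ENNReal.ofReal ((v ^ 2)⁻¹) ≤ ENNReal.ofReal 1 := ENNReal.ofReal_le_ofReal h1
      _ = 1 := ENNReal.ofReal_one
      _ ≤ _ := le_self_add
  · push Not at hv1
    obtain ⟨l, hl1, hl2⟩ := exists_nat_pow_near_of_lt_one hv0 hv1
      (by norm_num : (0 : ℝ) < 1 / 2) (by norm_num)
    have hmem : y ∈ lev x G r e c l := ⟨hy, ν, hν, hl1, hl2⟩
    have h1 : (v ^ 2)⁻¹ ≤ (4 : ℝ) ^ (l + 1) := by
      have h2 : ((1 / 2 : ℝ) ^ (l + 1)) ^ 2 ≤ v ^ 2 := by
        gcongr
      have h3 : (((1 / 2 : ℝ) ^ (l + 1)) ^ 2)⁻¹ = 4 ^ (l + 1) := by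
        rw [← pow_mul, mul_comm, pow_mul, ← inv_pow]
        norm_num
      rw [← h3]
      exact inv_anti₀ (by positivity) h2
    calc ENNReal.ofReal ((v ^ 2)⁻¹) ≤ ENNReal.ofReal ((4 : ℝ) ^ (l + 1)) :=
          ENNReal.ofReal_le_ofReal h1
      _ = (4 : ℝ≥0∞) ^ (l + 1) := by
          rw [ENNReal.ofReal_pow (by norm_num)]
          norm_num
      _ = (lev x G r e c l).indicator (fun _ => (4 : ℝ≥0∞) ^ (l + 1)) y := by
          rw [Set.indicator_of_mem hmem]
      _ ≤ ∑' l : ℕ, (lev x G r e c l).indicator (fun _ => (4 : ℝ≥0∞) ^ (l + 1)) y :=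
          ENNReal.le_tsum l
      _ ≤ _ := le_add_self

open scoped ENNReal in
/-- The sum of the volumes. -/
private theorem intLev_sum (V : ℝ≥0∞) (hV : V ≠ ⊤) (θ : ℝ) (hθ : 0 < θ) (l₀ : ℕ)
    (a : ℕ → ℝ≥0∞) (haV : ∀ l, a l ≤ V)
    (ha : ∀ l, l₀ ≤ l → a l ≤ ENNReal.ofReal (((1 / 2 : ℝ) ^ l) ^ (2 * (1 + θ)))) :
    ∑' l : ℕ, (4 : ℝ≥0∞) ^ (l + 1) * a l ≠ ⊤ := by
  set q : ℝ := (4 : ℝ) ^ (-θ) with hq
  have hq0 : 0 < q := by positivity
  have hq1 : q < 1 := Real.rpow_lt_one_of_one_lt_of_neg (by norm_num) (by linarith)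
  have h1 : ∀ l : ℕ, (4 : ℝ≥0∞) ^ (l + 1) * a l ≤
      (if l < l₀ then (4 : ℝ≥0∞) ^ (l + 1) * V else 0) + ENNReal.ofReal (4 * q ^ l) := by
    intro l
    by_cases hl : l < l₀
    · rw [if_pos hl]
      exact (mul_le_mul_right (haV l) _).trans le_self_add
    · rw [if_neg hl, zero_add]
      have h2 := ha l (not_lt.1 hl)
      calc (4 : ℝ≥0∞) ^ (l + 1) * a l
          ≤ (4 : ℝ≥0∞) ^ (l + 1) * ENNReal.ofReal (((1 / 2 : ℝ) ^ l) ^ (2 * (1 + θ))) :=
            mul_le_mul_right h2 _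
        _ = ENNReal.ofReal ((4 : ℝ) ^ (l + 1) * ((1 / 2 : ℝ) ^ l) ^ (2 * (1 + θ))) := by
            rw [ENNReal.ofReal_mul (by positivity), ENNReal.ofReal_pow (by norm_num)]
            norm_num
        _ = ENNReal.ofReal (4 * q ^ l) := by
            congr 1
            have h3 : ((1 / 2 : ℝ) ^ l) ^ (2 * (1 + θ)) = ((4 : ℝ) ^ l)⁻¹ * q ^ l := by
              have h4 : (1 / 2 : ℝ) ^ l = (2 : ℝ) ^ (-(l : ℝ)) := by
                rw [Real.rpow_neg (by norm_num), Real.rpow_natCast, one_div, inv_pow]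
              have h5 : ((4 : ℝ) ^ l)⁻¹ = (2 : ℝ) ^ (-(2 * (l : ℝ))) := by
                rw [Real.rpow_neg (by norm_num), Real.rpow_mul (by norm_num), Real.rpow_natCast]
                norm_num
              have h6 : q ^ l = (2 : ℝ) ^ (-(2 * θ * l)) := by
                rw [hq, ← Real.rpow_natCast, ← Real.rpow_mul (by norm_num),
                  show (4 : ℝ) = 2 ^ (2 : ℝ) by norm_num, ← Real.rpow_mul (by norm_num)]
                congr 1
                ring
              rw [h4, h5, h6, ← Real.rpow_mul (by norm_num), ← Real.rpow_add (by norm_num)]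
              congr 1
              ring
            rw [h3]
            field_simp
            ring
  refine ne_top_of_le_ne_top ?_ (ENNReal.tsum_le_tsum h1)
  rw [ENNReal.tsum_add]
  refine ENNReal.add_ne_top.2 ⟨?_, ?_⟩
  · rw [tsum_eq_sum (s := Finset.range l₀)]
    · refine ENNReal.sum_ne_top.2 fun l _ => ?_
      split_ifs
      · exact ENNReal.mul_ne_top (ENNReal.pow_ne_top (by norm_num)) hV
      · exact ENNReal.zero_ne_top
    · intro l hl
      rw [if_neg (fun h => hl (Finset.mem_range.2 h))]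
  · exact ((summable_geometric_of_lt_one hq0.le hq1).mul_left 4).tsum_ofReal_ne_top

/-- Proof: a term of the sum over the fibre is `0` if one of the `ν (e i)`, `ν G` is `0`
(`0 ^ a = 0` for `a ≠ 0`), otherwise `fval ν ^ (-2)`; it is `≤ 1` if `fval ν > 1` and otherwise
`≤ 4 ^ (l + 1)` where `2^(-l-1) < fval ν ≤ 2^(-l)`, and then `y ∈ lev l`. So the sum over
the fibre (at most `D` points, `fib_card`) is at most
`D (1 + ∑_l 4 ^ (l + 1) 1_(lev l) (y))`, and its integral over the unit ball at most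
`D (vol + ∑_l 4 ^ (l + 1) vol (lev l))`; for `l ≥ l₀` the terms are `≤ 4 · 4^(-l θ)`, for `l < l₀`
the volume is at most that of the ball. -/
theorem intI_of_levels {R : Type} [CommRing R] [Algebra ℂ R] {𝒜 : ℕ → Submodule ℂ R}
    [GradedAlgebra 𝒜] {n r d M : ℕ} {x : Fin (n + 1) → R} {G : R} (h : IsFano 𝒜 n r d x G)
    (e : Fin M → R) (c : ℝ) (hc : 0 < c) (θ : ℝ) (hθ : 0 < θ) (l₀ : ℕ)
    (hvol : ∀ l, l₀ ≤ l → volume (lev x G r e c l) ≤
      ENNReal.ofReal (((1 / 2 : ℝ) ^ l) ^ (2 * (1 + θ)))) :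
    intI x G r e c ≠ ⊤ := by
  obtain ⟨D, hD⟩ := fib_card h
  have hm : ∀ l, MeasurableSet (lev x G r e c l) := fun l => measurableSet_lev h e c hc l
  have hpt : ∀ y ∈ Metric.ball (0 : Fin (n + 1) → ℂ) 1, ∑' ν : fib x y,
      ENNReal.ofReal ((∏ i, ‖ν.1 (e i)‖ ^ (-2 * c)) * ‖ν.1 G‖ ^ (-2 / (r : ℝ))) ≤
      (D : ENNReal) * (1 + ∑' l : ℕ,
        (lev x G r e c l).indicator (fun _ => (4 : ENNReal) ^ (l + 1)) y) := by
    intro y hy
    rw [mem_ball_zero_iff] at hy
    obtain ⟨hfin, hcard⟩ := hD y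
    haveI := hfin.fintype
    rw [tsum_fintype]
    refine (Finset.sum_le_card_nsmul _ _ _ fun ν _ =>
      intLev_term h.r_pos e c hc y hy ν.1 ν.2).trans ?_
    rw [nsmul_eq_mul]
    refine mul_le_mul_left ?_ _
    rw [Finset.card_univ, ← Nat.card_eq_fintype_card, Nat.card_coe_set_eq]
    exact_mod_cast hcard
  have hint : intI x G r e c ≤ (D : ENNReal) * (volume (Metric.ball (0 : Fin (n + 1) → ℂ) 1) +
      ∑' l : ℕ, (4 : ENNReal) ^ (l + 1) * volume (lev x G r e c l)) := by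
    unfold intI
    refine (setLIntegral_mono' measurableSet_ball hpt).trans ?_
    have hmeas : Measurable fun y : Fin (n + 1) → ℂ => (1 : ENNReal) + ∑' l : ℕ,
        (lev x G r e c l).indicator (fun _ => (4 : ENNReal) ^ (l + 1)) y :=
      measurable_const.add (Measurable.ennreal_tsum fun l => measurable_const.indicator (hm l))
    rw [lintegral_const_mul _ hmeas, lintegral_add_left measurable_const, lintegral_tsum
      fun l => (measurable_const.indicator (hm l)).aemeasurable]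
    refine mul_le_mul_right (add_le_add ?_ (ENNReal.tsum_le_tsum fun l => ?_)) _
    · simp
    · rw [lintegral_indicator_const (hm l)]
      exact mul_le_mul_right (Measure.restrict_le_self _) _
  refine ne_top_of_le_ne_top ?_ hint
  refine ENNReal.mul_ne_top (ENNReal.natCast_ne_top D) (ENNReal.add_ne_top.2 ⟨?_, ?_⟩)
  · exact measure_ball_lt_top.ne
  · refine intLev_sum _ (measure_ball_lt_top (x := (0 : Fin (n + 1) → ℂ)) (r := 1)
      (μ := volume)).ne θ hθ l₀ _ (fun l => measure_mono ?_) hvol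
    intro y hy
    rw [mem_ball_zero_iff]
    exact hy.1

end Pool.Agent.Lib_MP_e0d435_kv

end

/-! ### from `Lib_KF.GE` -/

section

/-! G1b: the derivations `h ∂_b`. -/

namespace Pool.Agent.Lib_KF

open Pool.Agent.Lib_GD

variable {R : Type} [CommRing R] [Algebra ℂ R] {𝒜 : ℕ → Submodule ℂ R} [GradedAlgebra 𝒜]
  {n r d : ℕ} {x : Fin (n + 1) → R} {G : R}

/-- G1b. Proof: `K` the fraction field of `R`, algebraic over `ℂ(x)`, so there are
derivations `∂_b` of `K` with `∂_b x_c = δ_bc` (derivations of `ℂ(x)` extend: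
`Lib_MP_e0d435_kv/DerExt.lean`, or `exists_derivation` of `Lib_GD/TrdegBound.lean` for the
transcendence basis `x`). For `s ∈ R`: `h D s = ∑ r_b D (x b)`; apply the linear map
`Ω_R → K` of the derivation `∂_c`: `h ∂_c s = r_c`. So `E b s := r_b` is `h ∂_b s`, in `R`; it is a
derivation `R → R`. -/
theorem exists_E (h : IsFano 𝒜 n r d x G) (hp : MvPolynomial (Fin (n + 1)) ℂ)
    (hs : ∀ s : R, MvPolynomial.aeval x hp • KaehlerDifferential.D ℂ R s ∈
        Submodule.span R (Set.range fun b => KaehlerDifferential.D ℂ R (x b))) :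
    ∃ E : Fin (n + 1) → Derivation ℂ R R,
      (∀ b c, E b (x c) = if b = c then MvPolynomial.aeval x hp else 0) ∧
      ∀ s, MvPolynomial.aeval x hp • KaehlerDifferential.D ℂ R s =
        ∑ b, E b s • KaehlerDifferential.D ℂ R (x b) := by
  classical
  have hdom : IsDomain R := h.domain
  let K := FractionRing R
  have hinj : Function.Injective (algebraMap R K) := IsFractionRing.injective R K
  have hxK : AlgebraicIndependent ℂ (fun b => algebraMap R K (x b)) :=
    h.x_indep.map' (f := IsScalarTower.toAlgHom ℂ R K) hinj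
  have h1 : ∀ c : Fin (n + 1), ∃ δ : Derivation ℂ K K,
      ∀ b, δ (algebraMap R K (x b)) = if c = b then 1 else 0 :=
    fun c => exists_derivation _ hxK _
  choose δ hδ using h1
  have h2 : ∀ s : R, ∃ c : Fin (n + 1) → R,
      MvPolynomial.aeval x hp • KaehlerDifferential.D ℂ R s =
        ∑ b, c b • KaehlerDifferential.D ℂ R (x b) := by
    intro s
    have h3 := hs s
    rw [Submodule.mem_span_range_iff_exists_fun] at h3
    obtain ⟨c, hc⟩ := h3
    exact ⟨c, hc.symm⟩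
  choose rr hrr using h2
  have key : ∀ c s, algebraMap R K (rr s c) =
      algebraMap R K (MvPolynomial.aeval x hp) * δ c (algebraMap R K s) := by
    intro c s
    let ψ : Derivation ℂ R K := (δ c).compAlgebraMap R
    have h4 := congrArg ψ.liftKaehlerDifferential (hrr s)
    rw [map_smul, map_sum, Derivation.liftKaehlerDifferential_comp_D] at h4
    have h5 : ∀ b, ψ.liftKaehlerDifferential (rr s b • KaehlerDifferential.D ℂ R (x b)) =
        algebraMap R K (rr s b) * (if c = b then 1 else 0) := by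
      intro b
      rw [map_smul, Derivation.liftKaehlerDifferential_comp_D, Algebra.smul_def]
      congr 1
      exact hδ c b
    rw [Finset.sum_congr rfl fun b _ => h5 b, Algebra.smul_def] at h4
    simp only [mul_ite, mul_one, mul_zero, Finset.sum_ite_eq, Finset.mem_univ, if_true] at h4
    exact h4.symm
  let E : Fin (n + 1) → Derivation ℂ R R := fun b => Derivation.mk'
    { toFun := fun s => rr s b
      map_add' := fun s t => hinj (by
        rw [map_add, key, key, key, map_add, map_add, mul_add])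
      map_smul' := fun c s => hinj (by
        have h6 : algebraMap R K (c • s) = c • algebraMap R K s :=
          map_smul (IsScalarTower.toAlgHom ℂ R K) c s
        have h7 : algebraMap R K (c • rr s b) = c • algebraMap R K (rr s b) :=
          map_smul (IsScalarTower.toAlgHom ℂ R K) c (rr s b)
        rw [RingHom.id_apply, key, h6, h7, key, (δ b).map_smul, mul_smul_comm]) }
    (fun s t => hinj (by
      change algebraMap R K (rr (s * t) b) = algebraMap R K (s • rr t b + t • rr s b)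
      rw [smul_eq_mul, smul_eq_mul, map_add, map_mul, map_mul, key, key, key, map_mul,
        Derivation.leibniz, smul_eq_mul, smul_eq_mul]
      ring))
  refine ⟨E, ?_, ?_⟩
  · intro b c
    apply hinj
    change algebraMap R K (rr (x c) b) = _
    rw [key, hδ]
    by_cases hbc : b = c
    · rw [if_pos hbc, if_pos hbc, mul_one]
    · rw [if_neg hbc, if_neg hbc, mul_zero, map_zero]
  · intro s
    exact hrr s

end Pool.Agent.Lib_KF

end

/-! ### from `Lib_KF.GData` -/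

section

/-! G1d: existence of derivation data; the transport equation. -/

open PowerSeries

namespace Pool.Agent.Lib_KF

open Pool.Agent.Lib_GD

variable {R : Type} [CommRing R] [Algebra ℂ R] {𝒜 : ℕ → Submodule ℂ R} [GradedAlgebra 𝒜]
  {n r d : ℕ} {x : Fin (n + 1) → R} {G : R}

theorem exists_derData (h : IsFano 𝒜 n r d x G) : Nonempty (DerData x) := by
  obtain ⟨hp, wt, h0, hhom, hs⟩ := exists_hp h
  obtain ⟨E, hE, hom⟩ := exists_E h hp hs
  obtain ⟨F, h1, h2, h3, h4⟩ := exists_F h hp h0 E hE hom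
  exact ⟨⟨hp, h0, wt, hhom, E, hE, hom, F, h1, h2, h3, h4⟩⟩

section

variable {R : Type} [CommRing R] [Algebra ℂ R] {L : Type} [Field L] [Algebra ℂ L]

private theorem GData_hat_alg (xj : R →ₐ[ℂ] L⟦X⟧) (δ : Derivation ℂ L L) (z : ℂ) :
    hat δ (xj (algebraMap ℂ R z)) = 0 := by
  rw [AlgHom.commutes]
  ext k
  rw [coeff_hat, PowerSeries.algebraMap_apply, PowerSeries.coeff_C]
  split_ifs <;> simp

private theorem GData_hat_one (δ : Derivation ℂ L L) : hat δ (1 : L⟦X⟧) = 0 := by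
  have h := hat_mul δ (1 : L⟦X⟧) 1
  rw [mul_one, one_mul, mul_one] at h
  exact left_eq_add.1 h

private theorem GData_om {ι : Type} [Fintype ι] (xj : R →ₐ[ℂ] L⟦X⟧) (δ : Derivation ℂ L L)
    (h s : R) (c y : ι → R)
    (hs : h • KaehlerDifferential.D ℂ R s = ∑ b, c b • KaehlerDifferential.D ℂ R (y b)) :
    xj h * hat δ (xj s) = ∑ b, xj (c b) * hat δ (xj (y b)) := by
  let _ : Module R L⟦X⟧ := Module.compHom L⟦X⟧ xj.toRingHom
  have hsm : ∀ (b : R) (f : L⟦X⟧), b • f = xj b * f := fun _ _ => rfl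
  have _ : IsScalarTower ℂ R L⟦X⟧ := ⟨fun z b f => by
    rw [hsm, hsm, map_smul, smul_mul_assoc]⟩
  let D : Derivation ℂ R L⟦X⟧ :=
    { toFun := fun b => hat δ (xj b)
      map_add' := fun a b => by
        ext k; simp [hat]
      map_smul' := fun z b => by
        ext k; simp [hat]
      map_one_eq_zero' := by
        change hat δ (xj 1) = 0
        rw [map_one, GData_hat_one]
      leibniz' := fun a b => by
        change hat δ (xj (a * b)) = a • hat δ (xj b) + b • hat δ (xj a)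
        rw [hsm, hsm, map_mul, hat_mul, mul_comm (hat δ (xj a))] }
  have h1 := congrArg D.liftKaehlerDifferential hs
  rw [map_sum, map_smul, Derivation.liftKaehlerDifferential_comp_D] at h1
  have h2 : h • D s = ∑ b, c b • D (y b) := by
    rw [h1]
    refine Finset.sum_congr rfl fun l _ => ?_
    rw [map_smul, Derivation.liftKaehlerDifferential_comp_D]
  exact h2

private theorem GData_poly {n : ℕ} (x : Fin (n + 1) → R) (xj : R →ₐ[ℂ] L⟦X⟧)
    (δ : Derivation ℂ L L) (p : MvPolynomial (Fin (n + 1)) ℂ) :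
    hat δ (xj (MvPolynomial.aeval x p)) =
      ∑ b, xj (MvPolynomial.aeval x (MvPolynomial.pderiv b p)) * hat δ (xj (x b)) := by
  classical
  induction p using MvPolynomial.induction_on with
  | C a =>
    rw [MvPolynomial.aeval_C, GData_hat_alg]
    simp
  | add p q hp hq =>
    rw [map_add, map_add, hat_add, hp, hq, ← Finset.sum_add_distrib]
    refine Finset.sum_congr rfl fun b _ => ?_
    rw [map_add, map_add, map_add, add_mul]
  | mul_X p i hp =>
    have h1 : ∀ b, xj (MvPolynomial.aeval x (MvPolynomial.pderiv b (p * MvPolynomial.X i))) *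
        hat δ (xj (x b)) =
        xj (x i) * (xj (MvPolynomial.aeval x (MvPolynomial.pderiv b p)) * hat δ (xj (x b))) +
          if i = b then xj (MvPolynomial.aeval x p) * hat δ (xj (x i)) else 0 := by
      intro b
      rw [MvPolynomial.pderiv_mul, map_add, map_add, map_mul, map_mul, map_mul, map_mul,
        MvPolynomial.aeval_X, MvPolynomial.pderiv_X]
      by_cases hb : i = b
      · subst hb
        simp only [Pi.single_eq_same, map_one, mul_one, if_true]
        ring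
      · simp only [Pi.single_eq_of_ne hb, map_zero, mul_zero, add_zero, hb, if_false]
        ring
    simp only [h1]
    rw [Finset.sum_add_distrib, ← Finset.mul_sum, ← hp, map_mul, map_mul, hat_mul,
      MvPolynomial.aeval_X]
    simp only [Finset.sum_ite_eq, Finset.mem_univ, if_true]
    ring

end

namespace DerData

variable {R : Type} [CommRing R] [Algebra ℂ R] {n : ℕ} {x : Fin (n + 1) → R} (T : DerData x)
  {L : Type} [Field L] [Algebra ℂ L]

/-- Proof: the map `s ↦ hat δ (xj s)` is a derivation `R → L⟦X⟧` (`L⟦X⟧` a module through `xj`);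
its linear map `Ω_R → L⟦X⟧` applied to `om`. -/
theorem hat_arc (xj : R →ₐ[ℂ] L⟦X⟧) (δ : Derivation ℂ L L) (s : R) :
    xj T.h * hat δ (xj s) = ∑ b, xj (T.E b s) * hat δ (xj (x b)) := by
  exact GData_om xj δ T.h s (fun b => T.E b s) x (T.om s)

/-- The derivative of `h`. Proof: chain rule for polynomials (induction on `hp`), or `hat_arc`
for `s = h` with `E b h = h ∂_b h` and division by `xj h ≠ 0`; better the direct way, which needs
no `xj h ≠ 0`. -/
theorem hat_h (xj : R →ₐ[ℂ] L⟦X⟧) (δ : Derivation ℂ L L) :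
    hat δ (xj T.h) =
      ∑ b, xj (MvPolynomial.aeval x (MvPolynomial.pderiv b T.hp)) * hat δ (xj (x b)) := by
  exact GData_poly x xj δ T.hp

/-- The transport equation in the chart `x a = 1`. Proof: `hat_arc` for `F a α s`, `F_succ`,
`hat_h`; the term `b = a` vanishes because `hat δ 1 = 0`; sum over `b ≠ a` by
`Fin.sum_univ_succAbove`. -/
theorem transport (a : Fin (n + 1)) (xj : R →ₐ[ℂ] L⟦X⟧) (hx : xj (x a) = 1)
    (δ : Derivation ℂ L L) (α : Fin n →₀ ℕ) (s : R) :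
    xj T.h * hat δ (xj (T.F a α s)) =
      (α.degree : L⟦X⟧) * hat δ (xj T.h) * xj (T.F a α s) +
      ∑ l, hat δ (xj (x (a.succAbove l))) * xj (T.F a (α + Finsupp.single l 1) s) := by
  have h0 : hat δ (xj (x a)) = 0 := by rw [hx, GData_hat_one]
  rw [T.hat_arc xj δ, T.hat_h xj δ, Fin.sum_univ_succAbove _ a, Fin.sum_univ_succAbove _ a, h0,
    mul_zero, mul_zero, zero_add, zero_add, Finset.mul_sum, Finset.sum_mul,
    ← Finset.sum_add_distrib]
  refine Finset.sum_congr rfl fun l _ => ?_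
  rw [T.F_succ, map_sub, map_mul, map_mul, map_natCast]
  ring

end DerData

end Pool.Agent.Lib_KF

end
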