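import Mathlib
import Pool.Agent.Lib_MP_e0d435_m.G03
import Pool.Agent.Lib_MP_e0d435_m.G15
import Pool.Agent.Lib_MP_e0d435_m.G20
import Pool.Agent.Lib_MP_e0d435_m.G22
import Pool.Agent.Lib_MP_e0d435_m.G23
import Pool.Agent.Lib_MP_e0d435_m.G24

/-!
# MP_e0d435_ag: merged library part G27

Concatenation of library files (each in its own section), only to save build time.
-/

/-! ### from `Lib_KF.GHT` -/

section

/-!
# G6: (T') and (Sep') for the arc systems on the cone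
-/

open PowerSeries

namespace Pool.Agent.Lib_KF

open Pool.Agent.Lib_GD

variable {R : Type} [CommRing R] [Algebra ℂ R] {𝒜 : ℕ → Submodule ℂ R} [GradedAlgebra 𝒜]
  {n r d : ℕ} {x : Fin (n + 1) → R} {G : R}

/-- The functional `ev j α` in terms of the arc `x_j`. -/
theorem ArcDat.ev_eq {T : DerData x} {m : ℕ} {L : Type} [Field L] [Algebra ℂ L]
    {Γ : ArcSys L n (secDim 𝒜 m)} (D : ArcDat 𝒜 T r G m Γ) (j : Fin (secDim 𝒜 m))
    (α : Fin n →₀ ℕ) (f : Fin (secDim 𝒜 m) → L⟦X⟧) :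
    ∑ i, f i * D.arc j (T.F (D.a j) α (secBasis 𝒜 m i)) =
      D.eps j ^ α.degree * Γ.ev j α f := by
  change _ = D.eps j ^ α.degree * ∑ i, Γ.u j α i * f i
  rw [Finset.mul_sum]
  refine Finset.sum_congr rfl fun i _ => ?_
  rw [← D.u_eq]
  ring

theorem arc_h_not_dvd {T : DerData x} {m : ℕ} {L : Type} [Field L] [Algebra ℂ L]
    {Γ : ArcSys L n (secDim 𝒜 m)} (D : ArcDat 𝒜 T r G m Γ) (j : Fin (secDim 𝒜 m)) :
    ¬ (X : L⟦X⟧) ^ (Γ.e j + 1) ∣ D.arc j T.h := by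
  rw [PowerSeries.X_pow_dvd_iff]
  intro h1
  have h2 := D.h_order j
  have h3 : ((Γ.e j + 1 : ℕ) : ℕ∞) ≤ (D.arc j T.h).order := by
    refine PowerSeries.nat_le_order _ _ h1
  rw [h2] at h3
  exact absurd (Nat.cast_le.mp h3) (by omega)

/-- (T') for the arc systems on the cone. -/
theorem ht_arcDat (h : IsFano 𝒜 n r d x G) (T : DerData x) : ∃ C : ℕ, ∀ (m : ℕ) (L : Type)
    [Field L] [Algebra ℂ L] (Γ : ArcSys L n (secDim 𝒜 m)), ArcDat 𝒜 T r G m Γ →
      Γ.HT (C * m) := by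
  obtain ⟨C, hC⟩ := g_T h T
  refine ⟨C, fun m L _ _ Γ D j f hf => ?_⟩
  obtain ⟨γ, hγ, hnd⟩ := hC m L (D.a j) (D.arc j) (D.arc_x j) (Γ.e j) (arc_h_not_dvd D j) f hf
  refine ⟨γ, hγ, fun hdvd => hnd ?_⟩
  rw [D.ev_eq]
  exact Dvd.dvd.mul_left hdvd _

/-- (Sep') for the arc systems on the cone; `hloc` is `exists_local` of `GLoc.lean`. -/
theorem hsep_arcDat_of (h : IsFano 𝒜 n r d x G) (T : DerData x) (K₀ : ℕ)
    (hloc : ∀ (L : Type) [Field L] [Algebra ℂ L] (a : Fin (n + 1)) (xj : R →ₐ[ℂ] L⟦X⟧),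
      xj (x a) = 1 → ∀ m, K₀ ≤ m → ∃ m' t, m = m' + d * t ∧ m' ≤ K₀ ∧
        ∃ b ∈ 𝒜 m', IsUnit (xj b)) :
    ∃ (c : ℝ) (m₀ : ℕ), 0 < c ∧ ∀ m, m₀ ≤ m → ∀ q : ℕ, (q : ℝ) ≤ c * m →
      ∀ (L : Type) [Field L] [Algebra ℂ L] (Γ : ArcSys L n (secDim 𝒜 m)),
        ArcDat 𝒜 T r G m Γ → Γ.HSep q := by
  obtain ⟨c, m₀, hc, H⟩ := g_Sep h T K₀ hloc
  refine ⟨c, m₀, hc, fun m hm q hq L _ _ Γ D j k s cf hs hf α hα => ?_⟩
  -- the inverse of the unit `eps j`
  obtain ⟨u, hu⟩ := D.eps_unit j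
  have hinv : ∀ i : ℕ, ((u⁻¹ : (L⟦X⟧)ˣ) : L⟦X⟧) ^ i * D.eps j ^ i = 1 := fun i => by
    rw [← hu, ← mul_pow, Units.inv_mul, one_pow]
  have h1 := H m hm q hq L (D.a j) (D.arc j) (D.arc_x j) (Γ.e j) (D.eps j) (D.eps_unit j)
    (D.arc_h j) k s (fun β => cf β * ((u⁻¹ : (L⟦X⟧)ˣ) : L⟦X⟧) ^ β.degree) hs
    (fun f => by
      have h2 := hf f
      have h3 : ∑ β ∈ s, cf β * ((u⁻¹ : (L⟦X⟧)ˣ) : L⟦X⟧) ^ β.degree *
          ∑ i, f i * D.arc j (T.F (D.a j) β (secBasis 𝒜 m i)) =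
          ∑ β ∈ s, cf β * Γ.ev j β f := by
        refine Finset.sum_congr rfl fun β _ => ?_
        rw [D.ev_eq, mul_assoc, ← mul_assoc (((u⁻¹ : (L⟦X⟧)ˣ) : L⟦X⟧) ^ β.degree), hinv,
          one_mul]
      rw [h3]
      exact h2) α hα
  have h4 : X ^ (2 * q * Γ.e j) * cf α =
      (X ^ ((q - 1) * Γ.e j) * (cf α * ((u⁻¹ : (L⟦X⟧)ˣ) : L⟦X⟧) ^ α.degree)) *
        (X ^ (2 * q * Γ.e j - (q - 1) * Γ.e j) * D.eps j ^ α.degree) := by
    have h5 : (q - 1) * Γ.e j ≤ 2 * q * Γ.e j := Nat.mul_le_mul_right _ (by omega)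
    have h6 : (X : L⟦X⟧) ^ (2 * q * Γ.e j) =
        X ^ ((q - 1) * Γ.e j) * X ^ (2 * q * Γ.e j - (q - 1) * Γ.e j) := by
      rw [← pow_add]
      congr 1
      omega
    rw [h6]
    calc _ = X ^ ((q - 1) * Γ.e j) * X ^ (2 * q * Γ.e j - (q - 1) * Γ.e j) * cf α *
          (((u⁻¹ : (L⟦X⟧)ˣ) : L⟦X⟧) ^ α.degree * D.eps j ^ α.degree) := by
            rw [hinv, mul_one]
      _ = _ := by ring
  rw [h4]
  exact Dvd.dvd.mul_right h1 _

end Pool.Agent.Lib_KF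

end

/-! ### from `Lib_KF.GLoc` -/

section

/-!
# G3a: sections which do not vanish at the origin of an arc, and (Sep')
-/

open PowerSeries

namespace Pool.Agent.Lib_KF

open Pool.Agent.Lib_GD

variable {R : Type} [CommRing R] [Algebra ℂ R] {𝒜 : ℕ → Submodule ℂ R} [GradedAlgebra 𝒜]
  {n r d : ℕ} {x : Fin (n + 1) → R} {G : R}

/-- Uniformly for all homomorphisms to local rings with `x a ↦ 1`, two sections of consecutive
bounded degrees are units. -/
private theorem GLoc_pair (h : IsFano 𝒜 n r d x G) (a : Fin (n + 1)) :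
    ∃ K : ℕ, ∀ (O : Type) [CommRing O] [IsLocalRing O] (φ : R →+* O), φ (x a) = 1 →
      ∃ k, k ≤ K ∧ ∃ f ∈ 𝒜 k, ∃ g ∈ 𝒜 (k + 1), IsUnit (φ f) ∧ IsUnit (φ g) := by
  classical
  set S : Set R := {s | ∃ k, ∃ f ∈ 𝒜 k, ∃ g ∈ 𝒜 (k + 1), s = f * g} with hS
  have h1 : x a ∈ (Ideal.span S).radical := by
    rw [Ideal.radical_eq_sInf, Ideal.mem_sInf]
    rintro p ⟨hp, hpp⟩
    by_contra hxa
    obtain ⟨k, f, hf, g, hg, hfp, hgp⟩ := h.line p hpp ⟨d, h.d_pos, x a, h.x_mem a, hxa⟩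
    have h2 : f * g ∈ p := hp (Ideal.subset_span ⟨k, f, hf, g, hg, rfl⟩)
    rcases hpp.mem_or_mem h2 with h3 | h3
    · exact hfp h3
    · exact hgp h3
  obtain ⟨N, hN⟩ := h1
  obtain ⟨T, hT, hT'⟩ := Submodule.mem_span_finite_of_mem_span hN
  have h2 : ∀ s : R, ∃ k, s ∈ T → ∃ f ∈ 𝒜 k, ∃ g ∈ 𝒜 (k + 1), s = f * g := by
    intro s
    by_cases hs : s ∈ T
    · obtain ⟨k, hk⟩ := hT hs
      exact ⟨k, fun _ => hk⟩
    · exact ⟨0, fun hs' => absurd hs' hs⟩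
  choose kk hkk using h2
  refine ⟨T.sup kk, fun O _ _ φ hφ => ?_⟩
  by_contra hne
  push Not at hne
  have h3 : (T : Set R) ⊆ Ideal.comap φ (IsLocalRing.maximalIdeal O) := by
    intro s hs
    obtain ⟨f, hf, g, hg, hfg⟩ := hkk s hs
    have h4 := hne (kk s) (Finset.le_sup hs) f hf g hg
    rw [SetLike.mem_coe, Ideal.mem_comap, IsLocalRing.mem_maximalIdeal, mem_nonunits_iff, hfg,
      map_mul, IsUnit.mul_iff]
    rintro ⟨h5, h6⟩
    exact h4 h5 h6
  have h4 : x a ^ N ∈ Ideal.comap φ (IsLocalRing.maximalIdeal O) :=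
    (Submodule.span_le.2 h3) hT'
  rw [Ideal.mem_comap, map_pow, hφ, one_pow] at h4
  exact (IsLocalRing.mem_maximalIdeal _).1 h4 isUnit_one

/-- G3a. -/
theorem exists_local (h : IsFano 𝒜 n r d x G) :
    ∃ K₀ : ℕ, ∀ (L : Type) [Field L] [Algebra ℂ L] (a : Fin (n + 1)) (xj : R →ₐ[ℂ] L⟦X⟧),
      xj (x a) = 1 → ∀ m, K₀ ≤ m → ∃ m' t, m = m' + d * t ∧ m' ≤ K₀ ∧
        ∃ b ∈ 𝒜 m', IsUnit (xj b) := by
  classical
  choose K hK using fun a => GLoc_pair (𝒜 := 𝒜) h a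
  have hd := h.d_pos
  refine ⟨d * (Finset.univ.sup K) + d, fun L _ _ a xj hxj m hm => ?_⟩
  obtain ⟨k, hk, f, hf, g, hg, hfu, hgu⟩ := hK a L⟦X⟧ (xj : R →+* L⟦X⟧) hxj
  have hkK : k ≤ Finset.univ.sup K := hk.trans (Finset.le_sup (Finset.mem_univ a))
  have hj : m % d < d := Nat.mod_lt _ (by omega)
  have hdk : d * k ≤ d * (Finset.univ.sup K) := Nat.mul_le_mul_left _ hkK
  have hdiv : k ≤ m / d := by
    rw [Nat.le_div_iff_mul_le (by omega), mul_comm]
    omega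
  refine ⟨d * k + m % d, m / d - k, ?_, by omega, f ^ (d - m % d) * g ^ (m % d), ?_, ?_⟩
  · rw [Nat.mul_sub]
    have h1 := Nat.div_add_mod m d
    have h2 : d * k ≤ d * (m / d) := Nat.mul_le_mul_left _ hdiv
    omega
  · have h1 := SetLike.mul_mem_graded (SetLike.pow_mem_graded (d - m % d) hf)
      (SetLike.pow_mem_graded (m % d) hg)
    have h2 : (d - m % d) • k + (m % d) • (k + 1) = d * k + m % d := by
      obtain ⟨c, hc⟩ := Nat.exists_eq_add_of_le hj.le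
      have h3 : d - m % d = c := by omega
      have h4 : d * k = (m % d + c) * k := congrArg (fun i => i * k) hc
      rw [smul_eq_mul, smul_eq_mul, h3, h4]
      ring
    rwa [h2] at h1
  · rw [map_mul, map_pow, map_pow]
    exact (hfu.pow _).mul (hgu.pow _)

/-- (Sep') for the arc systems on the cone. -/
theorem hsep_arcDat (h : IsFano 𝒜 n r d x G) (T : DerData x) :
    ∃ (c : ℝ) (m₀ : ℕ), 0 < c ∧ ∀ m, m₀ ≤ m → ∀ q : ℕ, (q : ℝ) ≤ c * m →
      ∀ (L : Type) [Field L] [Algebra ℂ L] (Γ : ArcSys L n (secDim 𝒜 m)),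
        ArcDat 𝒜 T r G m Γ → Γ.HSep q := by
  obtain ⟨K₀, hK₀⟩ := exists_local h
  exact hsep_arcDat_of h T K₀ hK₀

end Pool.Agent.Lib_KF

end

/-! ### from `Lib_KF.GHup` -/

section

/-! G5d: hypothesis (HUP). -/

open PowerSeries
open scoped ENNReal NNReal

namespace Pool.Agent.Lib_KF

open Pool.Agent.Lib_GD

variable {R : Type} [CommRing R] [Algebra ℂ R] {𝒜 : ℕ → Submodule ℂ R} [GradedAlgebra 𝒜]
  {n r d : ℕ} {x : Fin (n + 1) → R} {G : R}

/-- `T.h` is homogeneous. -/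
theorem h_mem (h : IsFano 𝒜 n r d x G) (T : DerData x) : T.h ∈ 𝒜 (T.wt * d) := by
  rw [DerData.h, MvPolynomial.aeval_def, MvPolynomial.eval₂_eq']
  refine Submodule.sum_mem _ fun m hm => ?_
  rw [← Algebra.smul_def]
  refine Submodule.smul_mem _ _ ?_
  have h1 : ∏ i, x i ^ m i ∈ 𝒜 (∑ i, m i • d) :=
    SetLike.prod_mem_graded 𝒜 (fun i => m i • d) (fun i => x i ^ m i)
      (fun i _ => SetLike.pow_mem_graded (m i) (h.x_mem i))
  have h2 : ∑ i, m i • d = T.wt * d := by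
    have h3 := T.hp_hom (MvPolynomial.mem_support_iff.1 hm)
    rw [Finsupp.weight_apply, Finsupp.sum_fintype _ _ (by simp)] at h3
    rw [← h3, Finset.sum_mul]
    simp
  rw [h2] at h1
  exact h1

/-- `T.h ≠ 0`. -/
theorem h_ne (h : IsFano 𝒜 n r d x G) (T : DerData x) : T.h ≠ 0 := by
  intro h0
  exact T.hp_ne (h.x_indep (by rw [map_zero]; exact h0))

/-- The order of `T.h` is bounded by the log discrepancy. -/
private theorem GHup_h (h : IsFano 𝒜 n r d x G) (hn : 1 ≤ n) (hklt : IsKltVar 𝒜 n r x G)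
    (D : ℝ≥0) (hD : 0 < D)
    (hE : ∀ E : DivisorOver 𝒜 n 1, (D : ℝ≥0∞) * (E.S 𝒜 / r) ≤ ENNReal.ofReal (logDisc E r x G))
    (T : DerData x) : ∃ C : ℝ, 0 < C ∧ ∀ E : DivisorOver 𝒜 n 1,
      ((E.ord (E.φ 0 T.h)).toNat : ℝ) ≤ C * logDisc E r x G := by
  rcases Nat.eq_zero_or_pos T.wt with h0 | h0
  · refine ⟨1, one_pos, fun E => ?_⟩
    have h1 : T.hp.totalDegree = 0 := by
      have := T.hp_hom.totalDegree T.hp_ne
      rw [this, h0]
    have h2 := MvPolynomial.totalDegree_eq_zero_iff_eq_C.1 h1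
    have h3 : T.h = algebraMap ℂ R (MvPolynomial.coeff 0 T.hp) := by
      rw [DerData.h, h2, MvPolynomial.aeval_C]
      simp
    have h4 : MvPolynomial.coeff 0 T.hp ≠ 0 := by
      intro hc
      apply T.hp_ne
      rw [h2, hc, map_zero]
    have h5 : E.ord (E.φ 0 T.h) = 0 := by
      unfold DivisorOver.ord
      rw [h3, AlgHom.commutes]
      exact IsDiscreteValuationRing.addVal_eq_zero_of_unit
        ((IsUnit.mk0 _ h4).map (algebraMap ℂ E.V)).unit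
    rw [h5]
    have := (hklt E).le
    simpa using this
  · exact ord_le_logDisc h hklt D hD hE hn (T.wt * d) (Nat.mul_pos h0 h.d_pos) T.h (h_mem h T)
      (h_ne h T)

/-- G5d. Proof: constants from `ord_le_logDisc` (UPF.lean) for `G` (degree `r d (n+1) - 1 ≥ 1` as
`n ≥ 1`) and for `T.h` (if `T.wt = 0` then `T.h` is a constant, of order `0`); `up_arc` with
`q = T.h` gives `C₁`. For `D`, `j`, `S`: `Ξ = Γ.base.Xirel j S`, of finite colength
(`finColen_Xirel`), its elements are `Γ.ξ δ j` (`mem_Xirel`), `xi_eq`; `G_order`, `h_order`,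
`r_eq`. -/
theorem hup (h : IsFano 𝒜 n r d x G) (hn : 1 ≤ n) (hklt : IsKltVar 𝒜 n r x G) (D : ℝ≥0)
    (hD : 0 < D)
    (hE : ∀ E : DivisorOver 𝒜 n 1, (D : ℝ≥0∞) * (E.S 𝒜 / r) ≤ ENNReal.ofReal (logDisc E r x G))
    (T : DerData x) :
    ∃ C₁ : ℕ, 1 ≤ C₁ ∧ ∀ (m : ℕ) (L : Type) [Field L] [Algebra ℂ L]
      (Γ : ArcSys L n (secDim 𝒜 m)), ArcDat 𝒜 T r G m Γ → Γ.HUP C₁ := by
  have hdeg : 1 ≤ r * d * (n + 1) - 1 := by
    have h1 : 1 ≤ r * d := Nat.mul_pos h.r_pos h.d_pos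
    have h2 : 2 ≤ r * d * (n + 1) := by nlinarith
    omega
  obtain ⟨CG, hCG0, hCG⟩ := ord_le_logDisc h hklt D hD hE hn _ hdeg G h.G_mem h.G_ne
  obtain ⟨Ch, hCh0, hCh⟩ := GHup_h h hn hklt D hD hE T
  obtain ⟨C₁, hC₁, hup⟩ := up_arc h hn T.h (T.wt * d) (h_mem h T) (h_ne h T) (CG + Ch)
    (by positivity) hklt
    (fun E => (hCG E).trans (mul_le_mul_of_nonneg_right (by linarith) (hklt E).le))
    (fun E => (hCh E).trans (mul_le_mul_of_nonneg_right (by linarith) (hklt E).le))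
  refine ⟨C₁, hC₁, ?_⟩
  intro m L _ _ Γ Dt j S hj
  obtain ⟨g, e, hg, he, hgr, hce⟩ := hup L (Dt.a j) (Dt.arc j) (Dt.arc_x j) (Γ.base.Xirel j S)
    (Γ.base.finColen_Xirel j S hj) (by
      intro v hv
      obtain ⟨δ, -, rfl⟩ := (Γ.base.mem_Xirel j S v).1 hv
      exact ⟨δ, fun l => Dt.xi_eq δ j l⟩)
  have hg' : g = Γ.g j := by
    have := hg.symm.trans (Dt.G_order j)
    exact_mod_cast this
  have he' : e = Γ.e j := by
    have := he.symm.trans (Dt.h_order j)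
    exact_mod_cast this
  subst hg' he'
  have hr := Dt.r_eq
  have hcost : Γ.cost j S = colen (Γ.base.Xirel j S) := rfl
  refine ⟨?_, ?_⟩
  · rw [hcost, hr]
    exact hgr
  · rw [ArcSys.cc, hcost, hr]
    exact hce

end Pool.Agent.Lib_KF

end

/-! ### from `Lib_KF.GArcEx` -/

section

/-! G4f: the arc system of a divisor over `X ^ N_m`. -/

open PowerSeries

namespace Pool.Agent.Lib_KF

open Pool.Agent.Lib_GD

variable {R : Type} [CommRing R] [Algebra ℂ R] {𝒜 : ℕ → Submodule ℂ R} [GradedAlgebra 𝒜]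
  {n r d : ℕ} {x : Fin (n + 1) → R} {G : R}

private theorem GArcEx_hat_pow {L : Type} [Field L] [Algebra ℂ L] (δ : Derivation ℂ L L)
    (ε : L⟦X⟧) (k : ℕ) : ε * hat δ (ε ^ k) = (k : L⟦X⟧) * hat δ ε * ε ^ k := by
  induction k with
  | zero =>
    have h1 : hat δ (1 : L⟦X⟧) = 0 := by
      have h2 := hat_mul δ (1 : L⟦X⟧) 1
      simp only [mul_one, one_mul] at h2
      exact left_eq_add.1 h2
    rw [pow_zero, h1]; simp
  | succ k ih =>
    rw [pow_succ, hat_mul]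
    push_cast
    linear_combination ε * ih

/-- The transport equation after division by the unit. Proof: with `U α = ε ^ |α| u α`,
`H = X ^ e ε`, `hat δ H = X ^ e hat δ ε`: the transport equation of `DerData` for `U` is
`X^e ε hat δ (ε^k u_α) = k X^e (hat δ ε) ε^k u_α + ∑ ξ_l ε^(k+1) u_(α+l)`; expand
`hat δ (ε^k u_α) = ε^k hat δ u_α + k ε^(k-1) (hat δ ε) u_α` and divide by `ε^(k+1)`. -/
theorem transport_unit {L : Type} [Field L] [Algebra ℂ L] (T : DerData x) (a : Fin (n + 1))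
    (xj : R →ₐ[ℂ] L⟦X⟧) (hx : xj (x a) = 1) (e : ℕ) (ε : L⟦X⟧) (hε : IsUnit ε)
    (hH : xj T.h = X ^ e * ε) (u : (Fin n →₀ ℕ) → L⟦X⟧) (s : R)
    (hu : ∀ α, ε ^ α.degree * u α = xj (T.F a α s)) (δ : Derivation ℂ L L) (α : Fin n →₀ ℕ) :
    X ^ e * hat δ (u α) =
      ∑ l, hat δ (xj (x (a.succAbove l))) * u (α + Finsupp.single l 1) := by
  have h1 := T.transport a xj hx δ α s
  have h2 : ∀ l : Fin n, (α + Finsupp.single l 1).degree = α.degree + 1 := by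
    intro l
    rw [map_add, Finsupp.degree_single]
  rw [← hu α] at h1
  simp only [← hu (α + Finsupp.single _ 1), h2] at h1
  rw [hH, hat_X_pow_mul, hat_mul] at h1
  have h3 := GArcEx_hat_pow δ ε α.degree
  have h4 : ε ^ (α.degree + 1) * (X ^ e * hat δ (u α)) = ε ^ (α.degree + 1) *
      ∑ l, hat δ (xj (x (a.succAbove l))) * u (α + Finsupp.single l 1) := by
    have h5 : ∑ l, hat δ (xj (x (a.succAbove l))) * (ε ^ (α.degree + 1) *
        u (α + Finsupp.single l 1)) = ε ^ (α.degree + 1) *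
        ∑ l, hat δ (xj (x (a.succAbove l))) * u (α + Finsupp.single l 1) := by
      rw [Finset.mul_sum]
      exact Finset.sum_congr rfl fun l _ => by ring
    rw [← h5]
    have h6 : X ^ e * ε * (hat δ (ε ^ α.degree) * u α) =
        (α.degree : L⟦X⟧) * (X ^ e * hat δ ε) * (ε ^ α.degree * u α) := by
      calc X ^ e * ε * (hat δ (ε ^ α.degree) * u α)
          = X ^ e * (ε * hat δ (ε ^ α.degree)) * u α := by ring
        _ = _ := by rw [h3]; ring
    linear_combination h1 - h6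
  exact (hε.pow (α.degree + 1)).mul_left_cancel h4

/-- G4f. Proof. `isUnit_coord` (FColen.lean) with `E.centre j`: `a j`, `w j` with
`E.φ j (x (a j)) * w j = 1`; `y j l = E.φ j (x ((a j).succAbove l)) * w j`; `coordSpan_eqN`,
`length_coordSpan_ne_top`, `exists_Xi` give `L`, `Φ`, `Ξ`. `η j` a unit with
`η j ^ d = Φ (w j)` (`exists_root_series`); `arc j` the twist of `Φ ∘ E.φ j` by `η j`
(`exists_scale`, ChNorm.lean): `arc j s = η j ^ k * Φ (E.φ j s)` for `s ∈ 𝒜 k`; so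
`arc j (x (a j)) = 1`, `arc j (x ((a j).succAbove l)) = Φ (y j l)`. Injectivity: `arc_inj` with the
projection of `Ξ` to the factor `j` (of finite colength, as in `finColen_Xirel` with `S = ∅`).
`T.h ≠ 0` homogeneous (`h_ne`, `h_mem`), so `arc j T.h = X ^ e_j * eps_j` with `eps_j` a unit.
`u j α i = (eps_j⁻¹) ^ |α| * arc j (T.F (a j) α (secBasis 𝒜 m i))`, `w = 0`, `𝒟 = ⊤`,
`transport_unit`. `Γ.g j` = the order of `arc j G` = `E.ord (E.φ j G)` (`h.G_mem`, `h.G_ne`).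
Orders: `r colen Ξ - ∑ g_j = r (1 + length) - ∑ ord = r logDisc`. Determinant: row `j` is `η_j ^ m`
times `Φ` of the row of `E.φ j (secBasis 𝒜 m i)` (as at the end of Lib_GD/ArcBuild.lean;
`secBasis_specP` of PGrowth/Defs for `secBasis 𝒜 m i ∈ 𝒜 m`). -/
theorem exists_arcDat (h : IsFano 𝒜 n r d x G) (hn : 1 ≤ n) (T : DerData x) (m : ℕ)
    (hm : 1 ≤ secDim 𝒜 m) (E : DivisorOver 𝒜 n (secDim 𝒜 m)) :
    ∃ (L : Type) (_ : Field L) (_ : Algebra ℂ L) (Γ : ArcSys L n (secDim 𝒜 m)),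
      Nonempty (ArcDat 𝒜 T r G m Γ) ∧ 1 ≤ colen Γ.Ξ ∧
      (r : ℝ) * colen Γ.Ξ - ∑ j, (Γ.g j : ℝ) = r * logDisc E r x G ∧
      Γ.det.order = E.ordDet 𝒜 := by
  classical
  have hdom := h.domain
  have hch : ∀ j, ∃ a : Fin (n + 1), IsUnit (E.φ j (x a)) := fun j =>
    isUnit_coord h (E.φ j) (E.centre j)
  choose a ha using hch
  have hw' : ∀ j, ∃ w : E.V, E.φ j (x (a j)) * w = 1 := fun j => (ha j).exists_right_inv
  choose w hw using hw'
  set y : Fin (secDim 𝒜 m) → Fin n → E.V := fun j l => E.φ j (x ((a j).succAbove l)) * w j with hy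
  have hspan := coordSpan_eqN E x a w hw
  have hfin := length_coordSpan_ne_top h E
  obtain ⟨L, _, _, _, Φ, Ξ, hΦ, hΞ, hΞfin, hΞcol⟩ := exists_Xi E.V n (secDim 𝒜 m) hn hm
    E.trdeg y (by rw [← hspan]; exact hfin)
  change colen Ξ = 1 + (Module.length E.V (KaehlerDifferential ℂ E.V ⧸ Submodule.span E.V
      (Set.range fun p : Fin (secDim 𝒜 m) × Fin n =>
        KaehlerDifferential.D ℂ E.V (E.φ p.1 (x ((a p.1).succAbove p.2)) * w p.1)))).toNat at hΞcol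
  rw [← hspan] at hΞcol
  have hchar : CharZero L := charZero_of_injective_algebraMap (algebraMap ℂ L).injective
  have hΦw : ∀ j, IsUnit (Φ (w j)) := fun j =>
    (IsUnit.of_mul_eq_one _ ((mul_comm _ _).trans (hw j))).map Φ
  have hroot : ∀ j, ∃ η : L⟦X⟧, IsUnit η ∧ η ^ d = Φ (w j) := fun j =>
    exists_root_series d h.d_pos _ (hΦw j)
  choose η hη hηd using hroot
  have harc' : ∀ j, ∃ ψ : R →ₐ[ℂ] L⟦X⟧, ∀ k, ∀ f ∈ 𝒜 k, ψ f = η j ^ k * (Φ.comp (E.φ j)) f :=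
    fun j => exists_scale (Φ.comp (E.φ j)) (η j)
  choose arc harc using harc'
  have harcx : ∀ j, arc j (x (a j)) = 1 := by
    intro j
    rw [harc j d _ (h.x_mem _), hηd, AlgHom.comp_apply, ← map_mul, mul_comm, hw, map_one]
  have harcy : ∀ j l, arc j (x ((a j).succAbove l)) = Φ (y j l) := by
    intro j l
    rw [harc j d _ (h.x_mem _), hηd, AlgHom.comp_apply, ← map_mul, mul_comm]
  have hinj : ∀ j k, ∀ s ∈ 𝒜 k, arc j s = 0 → s = 0 := by
    intro j k s hs h0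
    refine arc_inj h hn (a j) (arc j) (harcx j) (Ξ.map (LinearMap.proj j)) ?_ ?_ k s hs h0
    · refine (finColen_of_X_pow (B := colen Ξ) fun f => ?_).1
      refine Submodule.mem_map.2 ⟨(X : L⟦X⟧) ^ (colen Ξ) • Pi.single j f,
        X_pow_smul_mem hΞfin le_rfl _, ?_⟩
      rw [map_smul, LinearMap.proj_apply, Pi.single_eq_same]
    · rintro v ⟨u, hu, rfl⟩
      obtain ⟨δ, hδ⟩ := (hΞ u).1 hu
      refine ⟨δ, fun l => ?_⟩
      rw [harcy, hδ]
      rfl
  have harch0 : ∀ j, arc j T.h ≠ 0 := fun j h0 => h_ne h T (hinj j _ _ (h_mem h T) h0)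
  have hfac : ∀ j, ∃ (e : ℕ) (ε : L⟦X⟧), IsUnit ε ∧ arc j T.h = X ^ e * ε := by
    intro j
    obtain ⟨k, u, hu⟩ := IsDiscreteValuationRing.eq_unit_mul_pow_irreducible (harch0 j)
      PowerSeries.X_irreducible
    exact ⟨k, u, u.isUnit, by rw [hu, mul_comm]⟩
  choose e ε hε harch using hfac
  have hε'' : ∀ j, ∃ ε' : L⟦X⟧, ε j * ε' = 1 := fun j => (hε j).exists_right_inv
  choose ε' hε' using hε''
  have horder : ∀ j k, ∀ s ∈ 𝒜 k, (arc j s).order = E.ord (E.φ j s) := by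
    intro j k s hs
    rw [harc j k s hs, PowerSeries.order_mul, PowerSeries.order_zero_of_unit ((hη j).pow k),
      zero_add, AlgHom.comp_apply, hΦ]
    rfl
  have hgo : ∀ j, (arc j G).order = (((E.ord (E.φ j G)).toNat : ℕ) : ℕ∞) := by
    intro j
    have h1 := horder j _ G h.G_mem
    have h2 : arc j G ≠ 0 := fun h0 => h.G_ne (hinj j _ _ h.G_mem h0)
    have h3 : (arc j G).order ≠ ⊤ := fun h4 => h2 (PowerSeries.order_eq_top.1 h4)
    rw [h1] at h3 ⊢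
    exact (ENat.natCast_toNat h3).symm
  have hsec := (secBasis_specP h.isPol m).1
  have hu_eq : ∀ j (α : Fin n →₀ ℕ) i, ε j ^ α.degree * (ε' j ^ α.degree *
      arc j (T.F (a j) α (secBasis 𝒜 m i))) = arc j (T.F (a j) α (secBasis 𝒜 m i)) := by
    intro j α i
    rw [← mul_assoc, ← mul_pow, hε', one_pow, one_mul]
  let Γ : ArcSys L n (secDim 𝒜 m) :=
    { 𝒟 := ⊤
      e := e
      u := fun j α i => ε' j ^ α.degree * arc j (T.F (a j) α (secBasis 𝒜 m i))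
      ξ := fun δ j l => hat δ (arc j (x ((a j).succAbove l)))
      w := fun _ _ _ => 0
      transport := by
        intro δ _ j α i
        rw [zero_mul, mul_zero, add_zero]
        exact transport_unit T (a j) (arc j) (harcx j) (e j) (ε j) (hε j) (harch j)
          (fun α => ε' j ^ α.degree * arc j (T.F (a j) α (secBasis 𝒜 m i))) (secBasis 𝒜 m i)
          (fun α => hu_eq j α i) δ α
      Ξ := Ξ
      mem_Ξ := by
        intro v
        rw [hΞ]
        constructor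
        · rintro ⟨δ, hδ⟩
          refine ⟨δ, Submodule.mem_top, ?_⟩
          funext j l
          rw [harcy, hδ]
        · rintro ⟨δ, -, rfl⟩
          refine ⟨δ, fun j l => ?_⟩
          change hat δ (Φ (y j l)) = hat δ (arc j (x ((a j).succAbove l)))
          rw [harcy]
      fin_Ξ := hΞfin
      g := fun j => (E.ord (E.φ j G)).toNat
      r := r }
  let D : ArcDat 𝒜 T r G m Γ :=
    { arc := arc
      a := a
      arc_x := harcx
      inj := hinj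
      eps := ε
      eps_unit := hε
      arc_h := harch
      u_eq := hu_eq
      w_eq := fun _ _ _ => rfl
      xi_eq := fun _ _ _ => rfl
      D_top := rfl
      G_order := hgo
      r_eq := rfl }
  refine ⟨L, inferInstance, inferInstance, Γ, ⟨D⟩, ?_, ?_, ?_⟩
  · change 1 ≤ colen Ξ
    rw [hΞcol]
    exact Nat.le_add_right _ _
  · change (r : ℝ) * (colen Ξ : ℝ) - ∑ j, (((E.ord (E.φ j G)).toNat : ℕ) : ℝ) = r * logDisc E r x G
    have hr0 : (r : ℝ) ≠ 0 := by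
      have := h.r_pos
      positivity
    rw [hΞcol]
    unfold logDisc
    push_cast
    field_simp
  · have hdet : Γ.det = (∏ j, η j ^ m) * Φ (Matrix.det (Matrix.of
        fun j i : Fin (secDim 𝒜 m) => E.φ j (secBasis 𝒜 m i))) := by
      rw [AlgHom.map_det, ← Matrix.det_mul_column]
      change Matrix.det (Matrix.of fun j i : Fin (secDim 𝒜 m) =>
        ε' j ^ (0 : Fin n →₀ ℕ).degree * arc j (T.F (a j) 0 (secBasis 𝒜 m i))) = _
      congr 1
      ext1 j i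
      simp only [Matrix.of_apply, AlgHom.mapMatrix_apply, Matrix.map_apply]
      rw [map_zero, pow_zero, one_mul, T.F_zero, harc j m _ (hsec i), AlgHom.comp_apply]
    have hunit : IsUnit (∏ j, η j ^ m) := by
      rw [IsUnit.prod_univ_iff]
      exact fun j => (hη j).pow m
    rw [hdet, PowerSeries.order_mul, PowerSeries.order_zero_of_unit hunit, zero_add, hΦ]
    rfl

end Pool.Agent.Lib_KF

end
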