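import Mathlib
import Pool.Agent.Lib_MP_e0d435_m.G03
import Pool.Agent.Lib_MP_e0d435_m.G08
import Pool.Agent.Lib_MP_e0d435_m.G10
import Pool.Agent.Lib_MP_e0d435_m.G22
import Pool.Agent.Lib_MP_e0d435_m.G23
import Pool.Agent.Lib_MP_e0d435_m.G24
import Pool.Agent.Lib_MP_e0d435_m.G25
import Pool.Agent.Lib_MP_e0d435_m.G26
import Pool.Agent.Lib_MP_e0d435_m.G27
import Pool.Agent.Lib_MP_e0d435_m.G28

/-!
# MP_e0d435_ag: merged library part G29

Concatenation of library files (each in its own section), only to save build time.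
-/

/-! ### from `Lib_KF.Ana` -/

section

/-! The analytic inequality (module C of note 1223). -/

open MeasureTheory
open scoped ENNReal NNReal

namespace Pool.Agent.Lib_KF

open Pool.Agent.Lib_GD

theorem ana {R : Type} [CommRing R] [Algebra ℂ R] {𝒜 : ℕ → Submodule ℂ R} [GradedAlgebra 𝒜]
    {n r d : ℕ} {x : Fin (n + 1) → R} {G : R} (h : IsFano 𝒜 n r d x G) (hn : 1 ≤ n)
    {M B m : ℕ} (e : Fin M → Fin (B + 1) → R) (he : ∀ i l, e i l ∈ 𝒜 m) (he0 : ∀ i, e i 0 ≠ 0)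
    (lam : Fin M → ℕ) (g κ : ℕ) (Ch : AnChart 𝒜 x G e lam g κ) (c : ℝ) (hc : 0 < c)
    (hI : intI x G r (fun i => e i 0) c ≠ ⊤) :
    c * (∑ i, lam i : ℕ) + (g : ℝ) / r ≤ κ := by
  classical
  obtain ⟨j, hj⟩ : ∃ j, G * ∏ i, e i 0 ∈ 𝒜 j :=
    ⟨_, SetLike.mul_mem_graded h.G_mem (SetLike.prod_mem_graded (A := 𝒜) (i := fun _ : Fin M => m)
      (g := fun i => e i 0) (F := Finset.univ) fun i _ => he i 0)⟩
  have hdom := h.domain
  have hQ : G * ∏ i, e i 0 ≠ 0 := mul_ne_zero h.G_ne (Finset.prod_ne_zero_iff.2 fun i _ => he0 i)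
  obtain ⟨k, S, hS⟩ := exists_sheets h (G * ∏ i, e i 0) hQ j hj
  have hg : GoodSheets S G e := by
    intro y hy ν hν
    have h1 := hS y hy ν hν
    rw [map_mul, map_prod] at h1
    refine ⟨left_ne_zero_of_mul h1, fun i => ?_⟩
    exact (Finset.prod_ne_zero_iff.1 (right_ne_zero_of_mul h1)) i (Finset.mem_univ i)
  obtain ⟨Λ, c₁, σ₀, hΛ, hc₁, hσ₀, hJ⟩ := J_lower h S e he hg lam g κ Ch c hc.le
  obtain ⟨c₂, hc₂, hJ0⟩ := JJ_ge h S e hg c hc.le
  obtain ⟨K, hK⟩ := exists_scalar h S e he hg c hc.le hI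
  have := circle_argument _ Λ hΛ c₁ σ₀ c₂ K hc₁ hσ₀ hc₂ (fun ε s => JJ S G r e c ε s) hJ hJ0 hK
  linarith

end Pool.Agent.Lib_KF

end

/-! ### from `Lib_KF.ILat` -/

section

/-! (I2) for one arc, from the analytic inequality. -/

open PowerSeries
open scoped ENNReal NNReal

namespace Pool.Agent.Lib_KF

open Pool.Agent.Lib_GD

/-- (I2) for one arc `φ` of the cone with `φ (x a)` a unit. -/
theorem lattice_boundF {R : Type} [CommRing R] [Algebra ℂ R] {𝒜 : ℕ → Submodule ℂ R}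
    [GradedAlgebra 𝒜] {n r d : ℕ} {x : Fin (n + 1) → R} {G : R} (h : IsFano 𝒜 n r d x G)
    (hn : 1 ≤ n) (m : ℕ) (c : ℝ) (hc : 0 < c)
    (hint : ∀ b : Fin (secDim 𝒜 m) → R, (∀ i, b i ∈ 𝒜 m) → LinearIndependent ℂ b →
      intI x G r b c ≠ ⊤)
    {L : Type} [Field L] [Algebra ℂ L] (Δ : Submodule L (Derivation ℂ L L)) (φ : R →ₐ[ℂ] L⟦X⟧)
    (a : Fin (n + 1)) (η' : L⟦X⟧) (ha : φ (x a) * η' = 1)
    (Ξ : Submodule L⟦X⟧ (Fin n → L⟦X⟧)) (hΞ : FinColen Ξ)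
    (hΞΔ : ∀ v ∈ Ξ, ∃ δ ∈ Δ, ∀ l, hat δ (φ (x (a.succAbove l)) * η') = v l) (B : ℕ)
    (M : Submodule L⟦X⟧ (Fin (secDim 𝒜 m) → L⟦X⟧)) (hB : ∀ f, (X : L⟦X⟧) ^ B • f ∈ M)
    (hM : StableD (Δ : Set (Derivation ℂ L L)) M)
    (hx : ∀ f ∈ M, (X : L⟦X⟧) ^ B ∣ ∑ i, φ (secBasis 𝒜 m i) * f i) :
    φ G ≠ 0 ∧ c * ((B : ℝ) * secDim 𝒜 m - colen M) + ((φ G).order.toNat : ℝ) / r ≤ colen Ξ := by
  classical
  obtain ⟨e, lam, he, he', hlam, hsum, hdet, hmem⟩ :=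
    exists_rational_basis (Δ : Set (Derivation ℂ L L)) M hB hM
  -- the orders of the sections `∑ e_il s_l` on the arc
  have hord : ∀ i, (X : L⟦X⟧) ^ lam i ∣ ∑ l, e i l * φ (secBasis 𝒜 m l) := by
    intro i
    have h1 := hx _ (hmem i)
    have h2 : ∑ l, φ (secBasis 𝒜 m l) * ((X : L⟦X⟧) ^ (B - lam i) • e i) l =
        X ^ (B - lam i) * ∑ l, e i l * φ (secBasis 𝒜 m l) := by
      rw [Finset.mul_sum]
      refine Finset.sum_congr rfl fun l _ => ?_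
      rw [Pi.smul_apply, smul_eq_mul]
      ring
    rw [h2] at h1
    have h3 : (X : L⟦X⟧) ^ B = X ^ (B - lam i) * X ^ lam i := by
      rw [← pow_add, Nat.sub_add_cancel (hlam i)]
    rw [h3] at h1
    exact (mul_dvd_mul_iff_left (pow_ne_zero _ PowerSeries.X_ne_zero)).1 h1
  obtain ⟨hb1, hb2, -⟩ := secBasis_specP h.isPol m
  obtain ⟨hG, ε, κ, hκ, hε, hεi, ⟨Ch⟩⟩ := exists_anChart h (Δ : Set (Derivation ℂ L L)) φ a η' ha
    Ξ hΞ hΞΔ (secBasis 𝒜 m) hb1 hb2 e he he' hdet lam hord h.G_ne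
  refine ⟨hG, ?_⟩
  have h1 := ana h hn ε hε (fun i => hεi.ne_zero i) lam _ κ Ch c hc
    (hint _ (fun i => hε i 0) hεi)
  have hgoal : (B : ℝ) * secDim 𝒜 m - colen M = ((∑ i, lam i : ℕ) : ℝ) := by
    have : ((∑ i, lam i : ℕ) : ℝ) + colen M = B * secDim 𝒜 m := by exact_mod_cast hsum
    linarith
  rw [hgoal]
  have h2 : (κ : ℝ) ≤ colen Ξ := by exact_mod_cast hκ
  exact h1.trans h2

end Pool.Agent.Lib_KF

end

/-! ### from `Lib_KF.IHI2` -/

section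

/-! (I2) for arc systems with poles. -/

open PowerSeries
open scoped ENNReal NNReal

namespace Pool.Agent.Lib_KF

open Pool.Agent.Lib_GD

/-- (I2) for arc systems which come from arcs of the cone. -/
theorem hI2F {R : Type} [CommRing R] [Algebra ℂ R] {𝒜 : ℕ → Submodule ℂ R}
    [GradedAlgebra 𝒜] {n r d : ℕ} {x : Fin (n + 1) → R} {G : R} (h : IsFano 𝒜 n r d x G)
    (hn : 1 ≤ n) (m : ℕ) (hm : 1 ≤ m) (hN : 1 ≤ secDim 𝒜 m) (c : ℝ) (hc : 0 < c)
    (hint : ∀ b : Fin (secDim 𝒜 m) → R, (∀ i, b i ∈ 𝒜 m) → LinearIndependent ℂ b →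
      intI x G r b (c / (m * r * secDim 𝒜 m)) ≠ ⊤)
    {L : Type} [Field L] [Algebra ℂ L] (Γ : ArcSys L n (secDim 𝒜 m))
    (arc : Fin (secDim 𝒜 m) → R →ₐ[ℂ] L⟦X⟧) (a : Fin (secDim 𝒜 m) → Fin (n + 1))
    (hx : ∀ j, arc j (x (a j)) = 1)
    (hu : ∀ j i, Γ.u j 0 i = arc j (secBasis 𝒜 m i))
    (hξ : ∀ δ j l, Γ.ξ δ j l = hat δ (arc j (x ((a j).succAbove l))))
    (hg : ∀ j, Γ.g j = (arc j G).order.toNat) (hr : Γ.r = r) :
    Γ.HI2 (m * secDim 𝒜 m / c) := by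
  intro S j hj B M hB hM hev
  let Δ : Submodule L (Derivation ℂ L L) :=
    { carrier := Γ.Dker S
      add_mem' := by
        intro δ δ' hδ hδ'
        refine ⟨Γ.𝒟.add_mem hδ.1 hδ'.1, fun i hi => ?_⟩
        funext l
        have h1 := congrFun (hδ.2 i hi) l
        have h2 := congrFun (hδ'.2 i hi) l
        rw [hξ] at h1 h2
        rw [hξ, hat_add_der, h1, h2, Pi.zero_apply, add_zero]
      zero_mem' := by
        refine ⟨Γ.𝒟.zero_mem, fun i hi => ?_⟩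
        funext l
        rw [hξ, Pi.zero_apply]
        ext t
        rw [coeff_hat, Derivation.zero_apply, map_zero]
      smul_mem' := by
        intro c δ hδ
        refine ⟨Γ.𝒟.smul_mem c hδ.1, fun i hi => ?_⟩
        funext l
        have h1 := congrFun (hδ.2 i hi) l
        rw [hξ] at h1
        rw [hξ, hat_smul_der, h1, Pi.zero_apply, mul_zero] }
  have hr0 : (0 : ℝ) < r := by exact_mod_cast h.r_pos
  have hm0 : (0 : ℝ) < m := by exact_mod_cast hm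
  have hN0 : (0 : ℝ) < secDim 𝒜 m := by exact_mod_cast hN
  have hc' : 0 < c / (m * r * secDim 𝒜 m) := by positivity
  obtain ⟨-, h1⟩ := lattice_boundF h hn m (c / (m * r * secDim 𝒜 m)) hc' hint Δ (arc j) (a j) 1
    (by rw [hx, mul_one]) (Γ.base.Xirel j S) (Γ.base.finColen_Xirel j S hj)
    (by
      intro v hv
      obtain ⟨δ, hδ, rfl⟩ := (Γ.base.mem_Xirel j S v).1 hv
      refine ⟨δ, hδ, fun l => ?_⟩
      rw [mul_one]
      exact (hξ δ j l).symm) B M hB hM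
    (by
      intro f hf
      have h2 := hev f hf
      have h3 : Γ.ev j 0 f = ∑ i, arc j (secBasis 𝒜 m i) * f i := by
        change ∑ i, Γ.u j 0 i * f i = _
        exact Finset.sum_congr rfl fun i _ => by rw [hu]
      rwa [h3] at h2)
  have h2 : (colen (Γ.base.Xirel j S) : ℝ) = Γ.cost j S := rfl
  rw [h2, ← hg j] at h1
  have h3 : (r : ℝ) * Γ.cost j S - Γ.g j ≤ Γ.cc j S := by
    have h4 : Γ.r * Γ.cost j S ≤ Γ.cc j S + Γ.g j := by
      unfold ArcSys.cc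
      omega
    rw [hr] at h4
    have h5 : ((r * Γ.cost j S : ℕ) : ℝ) ≤ ((Γ.cc j S + Γ.g j : ℕ) : ℝ) := by exact_mod_cast h4
    push_cast at h5
    linarith
  set t : ℝ := (B : ℝ) * secDim 𝒜 m - colen M with ht
  have h4 : c / (m * r * secDim 𝒜 m) * t ≤ Γ.cost j S - (Γ.g j : ℝ) / r := by linarith
  have h5 : t = (m * r * secDim 𝒜 m / c) * (c / (m * r * secDim 𝒜 m) * t) := by
    field_simp
  rw [h5]
  calc (m * r * secDim 𝒜 m / c) * (c / (m * r * secDim 𝒜 m) * t)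
      ≤ (m * r * secDim 𝒜 m / c) * (Γ.cost j S - (Γ.g j : ℝ) / r) := by gcongr
    _ = m * secDim 𝒜 m / c * (r * Γ.cost j S - Γ.g j) := by field_simp
    _ ≤ m * secDim 𝒜 m / c * Γ.cc j S := by gcongr

end Pool.Agent.Lib_KF

end

/-! ### from `Lib_KF.MBound` -/

section

/-! The main bound for klt Fano varieties. -/

open scoped ENNReal NNReal

namespace Pool.Agent.Lib_KF

open Pool.Agent.Lib_GD

variable {R : Type} [CommRing R] [Algebra ℂ R] {𝒜 : ℕ → Submodule ℂ R} [GradedAlgebra 𝒜]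
  {n r d : ℕ} {x : Fin (n + 1) → R} {G : R}

/-- `D_m` is a divisor: the determinant does not vanish. -/
theorem ordDet_ne_topF (h : IsFano 𝒜 n r d x G) (hn : 1 ≤ n) (m : ℕ) (hm : 1 ≤ m)
    (E : DivisorOver 𝒜 n (secDim 𝒜 m)) : E.ordDet 𝒜 ≠ ⊤ := by
  rcases Nat.eq_zero_or_pos (secDim 𝒜 m) with h0 | h0
  · have : IsEmpty (Fin (secDim 𝒜 m)) := by rw [h0]; infer_instance
    unfold DivisorOver.ordDet
    rw [Matrix.det_isEmpty]
    unfold DivisorOver.ord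
    rw [IsDiscreteValuationRing.addVal_one]
    exact ENat.zero_ne_top
  · obtain ⟨T⟩ := exists_derData h
    obtain ⟨C, hC⟩ := ht_arcDat h T
    obtain ⟨L, _, _, Γ, ⟨D⟩, -, -, hdet⟩ := exists_arcDat h hn T m h0 E
    rw [← hdet]
    exact PowerSeries.order_eq_top.not.2 (Γ.det_ne_zero (hC m L Γ D))

/-- The main bound: the pairs `(X ^ N_m, (c / (m r)) D_m)` are klt for all large `m`, if
`c < min (δ, 1)`. -/
theorem main_boundF (h : IsFano 𝒜 n r d x G) (hn : 1 ≤ n) (hklt : IsKltVar 𝒜 n r x G) (D : ℝ≥0)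
    (hE : ∀ E : DivisorOver 𝒜 n 1, (D : ℝ≥0∞) * (E.S 𝒜 / r) ≤ ENNReal.ofReal (logDisc E r x G))
    (c : ℝ≥0) (hc : 0 < c) (hcD : c < D) (hc1 : c < 1) :
    ∃ m₁ : ℕ, ∀ m, m₁ ≤ m → IsKltPair 𝒜 n r x G m c := by
  have hD : 0 < D := hc.trans hcD
  have hc' : (0 : ℝ) < c := by exact_mod_cast hc
  -- `c < c' < min (D, 1)`
  obtain ⟨c', hcc', hc'm⟩ := exists_between (lt_min hcD hc1)
  have hc'D : (c' : ℝ) < D := by exact_mod_cast lt_of_lt_of_le hc'm (min_le_left _ _)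
  have hc'1 : (c' : ℝ) < 1 := by exact_mod_cast lt_of_lt_of_le hc'm (min_le_right _ _)
  have hcc'' : (c : ℝ) < c' := by exact_mod_cast hcc'
  obtain ⟨m₁, hm₁⟩ := int_of_delta h hklt hn D hE c' (hc'.trans hcc'') hc'D hc'1
  obtain ⟨T⟩ := exists_derData h
  obtain ⟨CT, hCT⟩ := ht_arcDat h T
  obtain ⟨K₀, hloc⟩ := exists_local h
  obtain ⟨cl, m₀, hcl, hSep⟩ := hsep_arcDat_of h T K₀ hloc
  obtain ⟨C₁, hC₁, hUP⟩ := hup h hn hklt D hD hE T
  obtain ⟨Cg, hCg⟩ := secDim_leP h.isPol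
  obtain ⟨m₂, hm₂⟩ := main_bound_abs n hn r h.r_pos c c' hc' hcc'' Cg (CT + 1) C₁ (by omega) hC₁
    cl hcl
  refine ⟨1 + m₀ + m₁ + m₂, fun m hm E => ?_⟩
  have hm1 : 1 ≤ m := by omega
  rcases Nat.eq_zero_or_pos (secDim 𝒜 m) with h0 | h0
  · have : IsEmpty (Fin (secDim 𝒜 m)) := by rw [h0]; infer_instance
    have h1 : E.ordDet 𝒜 = 0 := by
      unfold DivisorOver.ordDet
      rw [Matrix.det_isEmpty]
      unfold DivisorOver.ord
      rw [IsDiscreteValuationRing.addVal_one]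
    rw [h1]
    have h2 : (Finset.univ : Finset (Fin (secDim 𝒜 m))) = ∅ := Finset.univ_eq_empty
    unfold logDisc
    rw [h2, Finset.sum_empty]
    simp only [ENat.toNat_zero, Nat.cast_zero, mul_zero, sub_zero]
    positivity
  · obtain ⟨L, _, _, Γ, ⟨A⟩, hX, hlog, hdet⟩ := exists_arcDat h hn T m h0 E
    have hT : Γ.HT ((CT + 1) * m) := by
      intro j f hf
      obtain ⟨α, h1, h2⟩ := hCT m L Γ A j f hf
      refine ⟨α, h1.trans (Nat.mul_le_mul_right _ (Nat.le_succ _)), fun h3 => h2 ?_⟩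
      refine dvd_trans (pow_dvd_pow _ ?_) h3
      have h4 : CT * m * Γ.e j ≤ (CT + 1) * m * Γ.e j :=
        Nat.mul_le_mul_right _ (Nat.mul_le_mul_right _ (Nat.le_succ _))
      omega
    obtain ⟨h1, h2⟩ := hm₂ m (secDim 𝒜 m) (by omega) hm1 h0 (hCg m hm1) L Γ A.r_eq hT
      (fun q hq => hSep m (by omega) q hq L Γ A) (hUP m L Γ A)
      (hI2F h hn m hm1 h0 c' (hc'.trans hcc'') (hm₁ m (by omega) h0) Γ A.arc A.a A.arc_x A.u_zero
        A.xi_eq (fun j => by rw [A.G_order j, ENat.toNat_natCast]) A.r_eq) hX _ hlog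
    rw [hdet] at h2
    exact h2

end Pool.Agent.Lib_KF

end

/-! ### from `Lib_KF.FMain` -/

section

/-! `γ(X) = δ(X)` for klt Fano varieties with `δ(X) ≤ 1`. -/

open scoped ENNReal NNReal

namespace Pool.Agent.Lib_KF

open Pool.Agent.Lib_GD

variable {R : Type} [CommRing R] [Algebra ℂ R] {𝒜 : ℕ → Submodule ℂ R} [GradedAlgebra 𝒜]
  {n r d : ℕ} {x : Fin (n + 1) → R} {G : R}

omit [GradedAlgebra 𝒜] in
/-- There are no divisors over a point. -/
theorem isEmpty_divisorOver_zero (N : ℕ) : IsEmpty (DivisorOver 𝒜 0 N) := by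
  refine ⟨fun E => ?_⟩
  have h0 : Algebra.trdeg ℂ E.V = 0 := by
    rw [E.trdeg, Nat.zero_mul]
    rfl
  have halg : Algebra.IsAlgebraic ℂ E.V := by
    have : FaithfulSMul ℂ E.V := (faithfulSMul_iff_algebraMap_injective _ _).2
      (algebraMap ℂ E.V).injective
    exact trdeg_eq_zero_iff.1 h0
  have hint : Algebra.IsIntegral ℂ E.V := Algebra.IsAlgebraic.isIntegral
  have hf : IsField E.V := isField_of_isIntegral_of_isField' (Field.toIsField ℂ)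
  exact IsDiscreteValuationRing.not_isField E.V hf

/-- `min (δ, 1) ≤ γ`. -/
theorem min_stabilityF_le_gibbsF (h : IsFano 𝒜 n r d x G) (hn : 1 ≤ n)
    (hklt : IsKltVar 𝒜 n r x G) :
    min (stabilityF 𝒜 n r x G) 1 ≤ gibbsF 𝒜 n r x G := by
  refine le_of_forall_lt fun a ha => ?_
  obtain ⟨c, hac, hc⟩ := ENNReal.lt_iff_exists_nnreal_btwn.1 ha
  refine lt_of_lt_of_le hac ?_
  have hc0 : 0 < c := by
    have : (0 : ℝ≥0∞) < c := lt_of_le_of_lt zero_le hac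
    exact_mod_cast this
  have hc1 : c < 1 := by
    have : (c : ℝ≥0∞) < 1 := lt_of_lt_of_le hc (min_le_right _ _)
    exact_mod_cast this
  obtain ⟨D, hcD, hD⟩ := ENNReal.lt_iff_exists_nnreal_btwn.1 (lt_of_lt_of_le hc (min_le_left _ _))
  have hcD' : c < D := by exact_mod_cast hcD
  obtain ⟨m₁, hm₁⟩ := main_boundF h hn hklt D (fun E => by
    have h1 : (D : ℝ≥0∞) ≤ ENNReal.ofReal (logDisc E r x G) / (E.S 𝒜 / r) :=
      hD.le.trans (iInf_le _ E)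
    have hA0 : ENNReal.ofReal (logDisc E r x G) ≠ 0 := by
      rw [Ne, ENNReal.ofReal_eq_zero, not_le]
      exact hklt E
    rwa [ENNReal.le_div_iff_mul_le (Or.inr hA0) (Or.inr ENNReal.ofReal_ne_top)] at h1) c hc0 hcD' hc1
  unfold gibbsF
  refine Filter.le_liminf_of_le (by isBoundedDefault) ?_
  filter_upwards [Filter.eventually_ge_atTop m₁] with m hm
  exact le_iSup (fun c : {c : ℝ≥0 // IsKltPair 𝒜 n r x G m c} => (c : ℝ≥0∞)) ⟨c, hm₁ m hm⟩

/-- Q1: if `δ ≤ 1` then `δ = γ`. -/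
theorem stabilityF_eq_gibbsF (h : IsFano 𝒜 n r d x G) (hklt : IsKltVar 𝒜 n r x G)
    (hδ : stabilityF 𝒜 n r x G ≤ 1) : stabilityF 𝒜 n r x G = gibbsF 𝒜 n r x G := by
  rcases Nat.eq_zero_or_pos n with rfl | hn
  · have hE := isEmpty_divisorOver_zero (𝒜 := 𝒜) 1
    have h1 : stabilityF 𝒜 0 r x G = ⊤ := by
      unfold stabilityF
      exact iInf_of_empty _
    rw [h1] at hδ
    exact absurd hδ (by simp)
  · refine le_antisymm ?_ (gibbsF_le_stabilityF h hn fun m hm E' => ordDet_ne_topF h hn m hm E')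
    have h1 := min_stabilityF_le_gibbsF h hn hklt
    rwa [min_eq_left hδ] at h1

end Pool.Agent.Lib_KF

end
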